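import Mathlib
import Pool.Agent.Lib.MP_053343_lc.Canon

/-!
Forcing over an arbitrary preorder `P : Type` with a top element: a countable transitive model
of ZFC with the truth lemma.  The user supplies a countable family `R` of relations (the set
`N` of names is closed under witnesses for them) and a countable family `D` of sets of
conditions (the filter `G` decides them).  Conditions are coded as names by `cN`.
-/

namespace Pool.Agent.Shared.Forcing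

open Classical Pool.Agent.Lib.MP_053343_lc Pool.Agent.Lib.MP_053343_lc.Name

/-- The axiom of choice in `M`: every set in `M` has a choice function in `M`. -/
def Choice (M : ZFSet.{0}) : Prop :=
  ∀ a ∈ M, ∃ f ∈ M, ∀ x ∈ a, x ≠ ∅ → ∃ y ∈ x, ∀ z, ZFSet.pair x z ∈ f ↔ z = y

variable {P : Type} [Preorder P] [OrderTop P]

/-- The strong forcing relation. -/
def Fo : Fml → List (Name P) → P → Prop
  | .mem i j, l, p => FMem (l.getD i empty) (l.getD j empty) p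
  | .eq i j, l, p => FEq (l.getD i empty) (l.getD j empty) p
  | .neg φ, l, p => ∀ q ≤ p, ¬ Fo φ l q
  | .and φ ψ, l, p => Fo φ l p ∧ Fo ψ l p
  | .ex φ, l, p => ∃ σ, Fo φ (σ :: l) p

omit [OrderTop P] in
theorem Fo.mono {φ : Fml} : ∀ {l : List (Name P)} {p q : P}, Fo φ l p → q ≤ p → Fo φ l q := by
  induction φ with
  | mem i j => exact fun h hq => FMem.mono h hq
  | eq i j => exact fun h hq => FEq.mono h hq
  | neg φ _ => exact fun h hq r hr => h r (hr.trans hq)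
  | and φ ψ ih1 ih2 => exact fun h hq => ⟨ih1 h.1 hq, ih2 h.2 hq⟩
  | ex φ ih => exact fun ⟨σ, h⟩ hq => ⟨σ, ih h hq⟩

/-- A condition coded as a name. -/
def cN (p : P) : Name P := ⟨Unit, fun _ => empty, fun _ => p⟩

/-- Decoding of conditions. -/
noncomputable def dC (τ : Name P) : P := if h : ∃ p, τ = cN p then h.choose else ⊤

omit [Preorder P] [OrderTop P] in
theorem cN_inj {p q : P} (h : cN p = cN q) : p = q := by
  unfold cN at h
  injection h with _ _ h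
  exact congrFun h ()

@[simp] theorem dC_cN (p : P) : dC (cN p) = p := by
  have h : ∃ q, cN p = cN q := ⟨p, rfl⟩
  unfold dC
  rw [dif_pos h]
  exact (cN_inj h.choose_spec).symm

def sepN (φ : Fml) (l : List (Name P)) (τ : Name P) : Name P :=
  niceN τ {x | x.2 ≤ τ.cd x.1 ∧ Fo φ (τ.ch x.1 :: l) x.2}

def powN (τ : Name P) : Name P := setN fun T : Set (τ.Ty × P) => niceN τ T

def unionN (τ : Name P) : Name P := setN fun x : Σ i : τ.Ty, (τ.ch i).Ty => (τ.ch x.1).ch x.2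

noncomputable def sk (φ : Fml) (l : List (Name P)) (p : P) : Name P :=
  if h : ∃ σ, Fo φ (σ :: l) p then h.choose else empty

omit [OrderTop P] in
theorem sk_spec {φ : Fml} {l : List (Name P)} {p : P} (h : Fo (.ex φ) l p) :
    Fo φ (sk φ l p :: l) p := by
  have h' : ∃ σ, Fo φ (σ :: l) p := h
  unfold sk
  rw [dif_pos h']
  exact h'.choose_spec

noncomputable def collN (φ : Fml) (l : List (Name P)) (τ : Name P) : Name P :=
  setN fun x : τ.Ty × P => sk φ (τ.ch x.1 :: l) x.2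

/-- `p` forces that member `k` of `υ` is the least one, in a fixed well-order, lying in `σ`. -/
def Least (υ σ : Name P) (k : υ.Ty) (p : P) : Prop :=
  FMem (υ.ch k) σ p ∧ ∀ k', WellOrderingRel k' k → ∀ q ≤ p, ¬ FMem (υ.ch k') σ q

def choiceN (τ : Name P) : Name P :=
  ⟨{x : τ.Ty × (unionN τ).Ty × P // Least (unionN τ) (τ.ch x.1) x.2.1 x.2.2},
    fun x => pairN (τ.ch x.1.1) ((unionN τ).ch x.1.2.1), fun x => x.1.2.2⟩

/-- Built-in sets of conditions. -/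
inductive BD : Type
  | fo (φ : Fml) | ne | least
  deriving Countable

def BD.ev : BD → List (Name P) → Set P
  | .fo φ, l => {p | Fo φ l p}
  | .ne, l => {p | ∃ i, p ≤ (l.getD 0 empty).cd i ∧
      ∀ r ≤ p, ¬ FMem ((l.getD 0 empty).ch i) (l.getD 1 empty) r}
  | .least, l => {p | ∃ k, Least (l.getD 0 empty) (l.getD 1 empty) k p}

/-- Built-in relations. -/
inductive BR : Type
  | emp | top | omega | sk (φ : Fml) | mw | nw | lw | child (k : ℕ)
  | sep (φ : Fml) | coll (φ : Fml) | upair | union | pow | choice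
  deriving Countable

def BR.ev : BR → List (Name P) → Name P → Prop
  | .emp, _, x => x = empty
  | .top, _, x => x = cN ⊤
  | .omega, _, x => x = setN natN
  | .sk φ, l, x => x = Forcing.sk φ l.tail (dC (l.getD 0 empty))
  | .mw, l, x => ∃ j, x = (l.getD 2 empty).ch j ∧ dC (l.getD 0 empty) ≤ (l.getD 2 empty).cd j ∧
      FEq (l.getD 1 empty) ((l.getD 2 empty).ch j) (dC (l.getD 0 empty))
  | .nw, l, x => ∃ i, x = (l.getD 1 empty).ch i ∧ dC (l.getD 0 empty) ≤ (l.getD 1 empty).cd i ∧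
      ∀ r ≤ dC (l.getD 0 empty), ¬ FMem ((l.getD 1 empty).ch i) (l.getD 2 empty) r
  | .lw, l, x => ∃ k, x = (l.getD 1 empty).ch k ∧
      Least (l.getD 1 empty) (l.getD 2 empty) k (dC (l.getD 0 empty))
  | .child k, l, x => ∃ i, x = (l.getD 0 empty).ch i ∧ enum _ i = k
  | .sep φ, l, x => x = sepN φ l.tail (l.getD 0 empty)
  | .coll φ, l, x => x = collN φ l.tail (l.getD 0 empty)
  | .upair, l, x => x = upairN (l.getD 0 empty) (l.getD 1 empty)
  | .union, l, x => x = unionN (l.getD 0 empty)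
  | .pow, l, x => x = powN (l.getD 0 empty)
  | .choice, l, x => x = choiceN (l.getD 0 empty)

/-- A countable set of names closed under witnesses and a filter generic for it. -/
structure Raw {ι κ : Type} (R : ι → List (Name P) → Name P → Prop)
    (D : κ → List (Name P) → Set P) where
  N : Set (Name P)
  G : Set P
  cnt : N.Countable
  wit : ∀ i l, (∀ x ∈ l, x ∈ N) → (∃ x, R i l x) → ∃ x ∈ N, R i l x
  dec : ∀ k l, (∀ x ∈ l, x ∈ N) → ∃ p ∈ G, p ∈ D k l ∨ ∀ q ≤ p, q ∉ D k l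
  top : ⊤ ∈ G
  up : ∀ p ∈ G, ∀ q, p ≤ q → q ∈ G
  dir : ∀ p ∈ G, ∀ q ∈ G, ∃ r ∈ G, r ≤ p ∧ r ≤ q
  cof : ∀ p ∈ G, ∃ q ∈ G, q ≤ p ∧ cN q ∈ N

theorem exists_raw {ι κ : Type} [Countable ι] [Countable κ]
    (R : ι → List (Name P) → Name P → Prop) (D : κ → List (Name P) → Set P) :
    Nonempty (Raw R D) := by
  have hd : ∀ (S : Set P) (p : P), ∃ r ≤ p, r ∈ S ∨ ∀ q ≤ r, q ∉ S := by
    intro S p
    by_cases hp : ∃ q ≤ p, q ∈ S
    · obtain ⟨q, h1, h2⟩ := hp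
      exact ⟨q, h1, Or.inl h2⟩
    · push Not at hp
      exact ⟨p, le_rfl, Or.inr hp⟩
  choose nx h1 h2 using hd
  let op : ι ⊕ Option κ → List (Name P) → Name P := fun o l =>
    match o with
    | .inl i => if h : ∃ x, R i l x then h.choose else empty
    | .inr none => cN ⊤
    | .inr (some k) => cN (nx (D k l.tail) (dC (l.getD 0 empty)))
  obtain ⟨N, hc, -, hcl⟩ := exists_closure op (fun _ => True) fun _ _ _ => trivial
  have : Countable N := hc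
  obtain ⟨e, he⟩ := exists_surjective_nat (Option (κ × List N))
  let s : ℕ → P := fun n => Nat.rec ⊤ (fun k p => match e k with
    | none => p
    | some a => nx (D a.1 (a.2.map Subtype.val)) p) n
  have hs1 : ∀ k, s (k + 1) = match e k with
    | none => s k
    | some a => nx (D a.1 (a.2.map Subtype.val)) (s k) := fun _ => rfl
  have hs : Antitone s := by
    refine antitone_nat_of_succ_le fun k => ?_
    rw [hs1]
    cases e k with
    | none => exact le_rfl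
    | some a => exact h1 _ _
  have hN : ∀ k, cN (s k) ∈ N := by
    intro k
    induction k with
    | zero => exact hcl (.inr none) [] (by simp)
    | succ k ih =>
      rw [hs1]
      cases e k with
      | none => exact ih
      | some a =>
        have := hcl (.inr (some a.1)) (cN (s k) :: a.2.map Subtype.val) (by
          intro x hx
          rcases List.mem_cons.1 hx with rfl | hx
          · exact ih
          · obtain ⟨y, _, rfl⟩ := List.mem_map.1 hx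
            exact y.2)
        simpa [op] using this
  refine ⟨{ N := N, G := {p | ∃ n, s n ≤ p}, cnt := hc, wit := ?_, dec := ?_,
            top := ⟨0, le_rfl⟩, up := ?_, dir := ?_, cof := ?_ }⟩
  · intro i l hl h
    refine ⟨_, hcl (.inl i) l hl, ?_⟩
    simp only [op, dif_pos h]
    exact h.choose_spec
  · intro k l hl
    obtain ⟨l', rfl⟩ : ∃ l' : List N, l'.map Subtype.val = l :=
      ⟨l.attach.map fun x => (⟨x.1, hl x.1 x.2⟩ : N), by simp [List.map_map, Function.comp_def]⟩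
    obtain ⟨n, hn⟩ := he (some (k, l'))
    refine ⟨s (n + 1), ⟨n + 1, le_rfl⟩, ?_⟩
    rw [hs1, hn]
    exact h2 _ _
  · rintro p ⟨n, hn⟩ q hq
    exact ⟨n, hn.trans hq⟩
  · rintro p ⟨n, hn⟩ q ⟨m, hm⟩
    exact ⟨s (max n m), ⟨_, le_rfl⟩, (hs (le_max_left n m)).trans hn,
      (hs (le_max_right n m)).trans hm⟩
  · rintro p ⟨n, hn⟩
    exact ⟨s n, ⟨n, le_rfl⟩, hn, hN n⟩

/-- A context: the raw data for the built-in families together with the user's families. -/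
abbrev Ctx {ι κ : Type} (R : ι → List (Name P) → Name P → Prop)
    (D : κ → List (Name P) → Set P) : Type 1 :=
  Raw (Sum.elim BR.ev R) (Sum.elim BD.ev D)

theorem exists_ctx {ι κ : Type} [Countable ι] [Countable κ]
    (R : ι → List (Name P) → Name P → Prop) (D : κ → List (Name P) → Set P) :
    Nonempty (Ctx R D) := exists_raw _ _

namespace Ctx

variable {ι κ : Type} {R : ι → List (Name P) → Name P → Prop} {D : κ → List (Name P) → Set P}
  (C : Ctx R D)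

theorem nil : ∀ x ∈ ([] : List (Name P)), x ∈ C.N := by simp

theorem cons {l : List (Name P)} {τ : Name P} (h : τ ∈ C.N) (hl : ∀ x ∈ l, x ∈ C.N) :
    ∀ x ∈ τ :: l, x ∈ C.N := by
  intro x hx
  rcases List.mem_cons.1 hx with rfl | hx
  exacts [h, hl x hx]

theorem one {σ : Name P} (h : σ ∈ C.N) : ∀ x ∈ [σ], x ∈ C.N := C.cons h C.nil

theorem two {σ τ : Name P} (h : σ ∈ C.N) (h' : τ ∈ C.N) : ∀ x ∈ [σ, τ], x ∈ C.N :=
  C.cons h (C.one h')

theorem three {σ τ υ : Name P} (h : σ ∈ C.N) (h' : τ ∈ C.N) (h'' : υ ∈ C.N) :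
    ∀ x ∈ [σ, τ, υ], x ∈ C.N := C.cons h (C.two h' h'')

/-- Witness closure for the user's relations. -/
theorem uwit (i : ι) {l : List (Name P)} (hl : ∀ x ∈ l, x ∈ C.N) (h : ∃ x, R i l x) :
    ∃ x ∈ C.N, R i l x := C.wit (.inr i) l hl h

/-- Genericity for the user's sets. -/
theorem udec (k : κ) {l : List (Name P)} (hl : ∀ x ∈ l, x ∈ C.N) :
    ∃ p ∈ C.G, p ∈ D k l ∨ ∀ q ≤ p, q ∉ D k l := C.dec (.inr k) l hl

/-- Genericity for the user's dense sets. -/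
theorem udense (k : κ) {l : List (Name P)} (hl : ∀ x ∈ l, x ∈ C.N) {p : P} (hp : p ∈ C.G)
    (hd : ∀ q ≤ p, ∃ r ≤ q, r ∈ D k l) : ∃ q ∈ C.G, q ∈ D k l := by
  obtain ⟨r, hr, h | h⟩ := C.udec k hl
  · exact ⟨r, hr, h⟩
  · obtain ⟨s, _, s1, s2⟩ := C.dir p hp r hr
    obtain ⟨t, t1, t2⟩ := hd s s1
    exact (h t (t1.trans s2) t2).elim

theorem bfun (b : BR) {l : List (Name P)} (hl : ∀ x ∈ l, x ∈ C.N) {y : Name P}
    (h : ∀ x, b.ev l x ↔ x = y) : y ∈ C.N := by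
  obtain ⟨x, hx, e⟩ := C.wit (.inl b) l hl ⟨y, (h y).2 rfl⟩
  rwa [(h x).1 e] at hx

theorem emp : empty ∈ C.N := C.bfun .emp C.nil fun _ => Iff.rfl
theorem omega_mem : setN natN ∈ C.N := C.bfun .omega C.nil fun _ => Iff.rfl

theorem sk_mem (φ : Fml) {l : List (Name P)} (hl : ∀ x ∈ l, x ∈ C.N) {p : P} (hp : cN p ∈ C.N) :
    sk φ l p ∈ C.N := C.bfun (.sk φ) (C.cons hp hl) fun _ => by simp [BR.ev]

theorem sep_memN (φ : Fml) {l : List (Name P)} (hl : ∀ x ∈ l, x ∈ C.N) {τ : Name P}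
    (h : τ ∈ C.N) : sepN φ l τ ∈ C.N := C.bfun (.sep φ) (C.cons h hl) fun _ => Iff.rfl

theorem coll_memN (φ : Fml) {l : List (Name P)} (hl : ∀ x ∈ l, x ∈ C.N) {τ : Name P}
    (h : τ ∈ C.N) : collN φ l τ ∈ C.N := C.bfun (.coll φ) (C.cons h hl) fun _ => Iff.rfl

theorem upair_memN {σ τ : Name P} (h : σ ∈ C.N) (h' : τ ∈ C.N) : upairN σ τ ∈ C.N :=
  C.bfun .upair (C.two h h') fun _ => Iff.rfl

theorem pair_memN {σ τ : Name P} (h : σ ∈ C.N) (h' : τ ∈ C.N) : pairN σ τ ∈ C.N :=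
  C.upair_memN (C.upair_memN h h) (C.upair_memN h h')

theorem union_memN {τ : Name P} (h : τ ∈ C.N) : unionN τ ∈ C.N :=
  C.bfun .union (C.one h) fun _ => Iff.rfl

theorem pow_memN {τ : Name P} (h : τ ∈ C.N) : powN τ ∈ C.N :=
  C.bfun .pow (C.one h) fun _ => Iff.rfl

theorem choice_memN {τ : Name P} (h : τ ∈ C.N) : choiceN τ ∈ C.N :=
  C.bfun .choice (C.one h) fun _ => Iff.rfl

theorem child {τ : Name P} (h : τ ∈ C.N) (hc : Countable τ.Ty) (i : τ.Ty) : τ.ch i ∈ C.N := by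
  obtain ⟨x, hx, j, rfl, e⟩ := C.wit (.inl (.child (enum _ i))) [τ] (C.one h) ⟨_, i, rfl, rfl⟩
  have : j = i := enum_inj τ.Ty e
  rwa [this] at hx

theorem gfrc (φ : Fml) {l : List (Name P)} (hl : ∀ x ∈ l, x ∈ C.N) :
    ∃ p ∈ C.G, Fo φ l p ∨ ∀ q ≤ p, ¬ Fo φ l q := C.dec (.inl (.fo φ)) l hl

theorem mw {σ τ : Name P} (h : σ ∈ C.N) (h' : τ ∈ C.N) {p : P} (hp : p ∈ C.G) (hm : FMem σ τ p) :
    ∃ r ∈ C.G, ∃ j, τ.ch j ∈ C.N ∧ τ.cd j ∈ C.G ∧ FEq σ (τ.ch j) r := by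
  obtain ⟨q, hq, q1, q2⟩ := C.cof p hp
  obtain ⟨j, j1, j2⟩ := hm.mono q1
  obtain ⟨x, hx, j, rfl, a, b⟩ := C.wit (.inl .mw) [cN q, σ, τ] (C.three q2 h h')
    ⟨_, j, rfl, by simp only [List.getD_cons_zero, dC_cN]; exact j1,
      by simp only [List.getD_cons_zero, dC_cN]; exact j2⟩
  simp only [List.getD_cons_zero, dC_cN] at a b
  exact ⟨q, hq, j, hx, C.up q hq _ a, b⟩

theorem gne {σ τ : Name P} (h : σ ∈ C.N) (h' : τ ∈ C.N) : ∃ p ∈ C.G,
    (∃ i, σ.ch i ∈ C.N ∧ p ≤ σ.cd i ∧ ∀ r ≤ p, ¬ FMem (σ.ch i) τ r) ∨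
      ∀ q ≤ p, ¬ ∃ i, q ≤ σ.cd i ∧ ∀ r ≤ q, ¬ FMem (σ.ch i) τ r := by
  obtain ⟨p, hp, ⟨i, i1, i2⟩ | h1⟩ := C.dec (.inl .ne) [σ, τ] (C.two h h')
  · obtain ⟨q, hq, q1, q2⟩ := C.cof p hp
    obtain ⟨x, hx, j, rfl, a, b⟩ := C.wit (.inl .nw) [cN q, σ, τ] (C.three q2 h h')
      ⟨_, i, rfl, by simp only [List.getD_cons_zero, dC_cN]; exact q1.trans i1, by
        simp only [List.getD_cons_zero, dC_cN]
        exact fun r hr => i2 r (hr.trans q1)⟩
    simp only [List.getD_cons_zero, dC_cN] at a b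
    exact ⟨q, hq, Or.inl ⟨j, hx, a, b⟩⟩
  · exact ⟨p, hp, Or.inr h1⟩

def val (τ : Name P) : ZFSet.{0} := ZFSet.mk (valP C.N C.G τ)

theorem mem_val {τ : Name P} {x : ZFSet} :
    x ∈ C.val τ ↔ ∃ i, τ.ch i ∈ C.N ∧ τ.cd i ∈ C.G ∧ x = C.val (τ.ch i) := by
  cases τ with
  | mk α A B =>
    induction x using Quotient.inductionOn with
    | h x =>
      unfold val
      rw [ZFSet.mk_eq, ZFSet.mk_mem_iff]
      constructor
      · rintro ⟨⟨i, h1, h2⟩, h⟩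
        exact ⟨i, h1, h2, ZFSet.sound h⟩
      · rintro ⟨i, h1, h2, h⟩
        exact ⟨⟨i, h1, h2⟩, ZFSet.exact h⟩

theorem val_empty : C.val empty = ∅ := by
  rw [ZFSet.eq_empty]
  intro y hy
  obtain ⟨i, -⟩ := C.mem_val.1 hy
  exact i.elim

theorem dir3 {p q r : P} (hp : p ∈ C.G) (hq : q ∈ C.G) (hr : r ∈ C.G) :
    ∃ s ∈ C.G, s ≤ p ∧ s ≤ q ∧ s ≤ r := by
  obtain ⟨t, ht, h1, h2⟩ := C.dir p hp q hq
  obtain ⟨s, hs, h3, h4⟩ := C.dir t ht r hr
  exact ⟨s, hs, h3.trans h1, h3.trans h2, h4⟩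

theorem mem_dense {σ τ : Name P} (h : σ ∈ C.N) (h' : τ ∈ C.N) {p : P} (hp : p ∈ C.G)
    (hd : ∀ q ≤ p, ∃ r ≤ q, FMem σ τ r) :
    ∃ r ∈ C.G, ∃ j, τ.ch j ∈ C.N ∧ τ.cd j ∈ C.G ∧ FEq σ (τ.ch j) r := by
  obtain ⟨r, hr, h1 | h1⟩ := C.gfrc (.mem 0 1) (C.two h h')
  · exact C.mw h h' hr h1
  · obtain ⟨s, _, h2, h3⟩ := C.dir p hp r hr
    obtain ⟨t, h4, h5⟩ := hd s h2
    exact (h1 t (h4.trans h3) h5).elim

theorem val_eq_iff {σ : Name P} : σ ∈ C.N → ∀ {τ : Name P}, τ ∈ C.N →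
    (C.val σ = C.val τ ↔ ∃ p ∈ C.G, FEq σ τ p) := by
  induction σ using Name.ind with
  | h σ ih =>
    intro hσ τ hτ
    constructor
    · intro e
      obtain ⟨p, hp, h1⟩ := C.gne hσ hτ
      obtain ⟨p', hp', h2⟩ := C.gne hτ hσ
      rcases h1 with ⟨i, a, b, c⟩ | h1
      · exfalso
        have : C.val (σ.ch i) ∈ C.val τ := e ▸ C.mem_val.2 ⟨i, a, C.up p hp _ b, rfl⟩
        obtain ⟨j, a', b', c'⟩ := C.mem_val.1 this
        obtain ⟨r, hr, h3⟩ := (ih i a a').1 c'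
        obtain ⟨s, _, s1, s2, s3⟩ := C.dir3 hp hr b'
        exact c s s1 ⟨j, s3, h3.mono s2⟩
      rcases h2 with ⟨j, a, b, c⟩ | h2
      · exfalso
        have : C.val (τ.ch j) ∈ C.val σ := e ▸ C.mem_val.2 ⟨j, a, C.up p' hp' _ b, rfl⟩
        obtain ⟨i, a', b', c'⟩ := C.mem_val.1 this
        obtain ⟨r, hr, h3⟩ := (ih i a' a).1 c'.symm
        obtain ⟨s, _, s1, s2, s3⟩ := C.dir3 hp' hr b'
        exact c s s1 ⟨i, s3, h3.symm.mono s2⟩
      obtain ⟨s, hs, s1, s2⟩ := C.dir p hp p' hp'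
      refine ⟨s, hs, feq_iff_mem.2 ⟨?_, ?_⟩⟩
      · intro i q hq hi
        by_contra hc
        push Not at hc
        exact h1 q (hq.trans s1) ⟨i, hi, hc⟩
      · intro j q hq hj
        by_contra hc
        push Not at hc
        exact h2 q (hq.trans s2) ⟨j, hj, hc⟩
    · rintro ⟨p, hp, h⟩
      rw [feq_iff_mem] at h
      ext x
      constructor
      · intro hx
        obtain ⟨i, a, b, rfl⟩ := C.mem_val.1 hx
        obtain ⟨s, hs, s1, s2⟩ := C.dir p hp _ b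
        obtain ⟨r, hr, j, a', b', c'⟩ := C.mem_dense a hτ hs
          fun q hq => h.1 i q (hq.trans s1) (hq.trans s2)
        exact C.mem_val.2 ⟨j, a', b', (ih i a a').2 ⟨r, hr, c'⟩⟩
      · intro hx
        obtain ⟨j, a, b, rfl⟩ := C.mem_val.1 hx
        obtain ⟨s, hs, s1, s2⟩ := C.dir p hp _ b
        obtain ⟨r, hr, i, a', b', c'⟩ := C.mem_dense a hσ hs
          fun q hq => h.2 j q (hq.trans s1) (hq.trans s2)
        exact C.mem_val.2 ⟨i, a', b', ((ih i a' a).2 ⟨r, hr, c'.symm⟩).symm⟩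

theorem val_mem_iff {σ τ : Name P} (hσ : σ ∈ C.N) (hτ : τ ∈ C.N) :
    C.val σ ∈ C.val τ ↔ ∃ p ∈ C.G, FMem σ τ p := by
  constructor
  · intro h
    obtain ⟨j, a, b, c⟩ := C.mem_val.1 h
    obtain ⟨r, hr, h3⟩ := (C.val_eq_iff hσ a).1 c
    obtain ⟨s, hs, s1, s2⟩ := C.dir r hr _ b
    exact ⟨s, hs, j, s2, h3.mono s1⟩
  · rintro ⟨p, hp, h⟩
    obtain ⟨r, hr, j, a, b, c⟩ := C.mw hσ hτ hp h
    exact C.mem_val.2 ⟨j, a, b, (C.val_eq_iff hσ a).2 ⟨r, hr, c⟩⟩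

instance : Countable C.N := C.cnt

/-- The model. -/
noncomputable def M : ZFSet.{0} := ZFSet.range fun σ : C.N => C.val σ

theorem mem_M {x : ZFSet} : x ∈ C.M ↔ ∃ σ ∈ C.N, C.val σ = x := by
  unfold M
  rw [ZFSet.mem_range]
  exact ⟨fun ⟨σ, h⟩ => ⟨σ.1, σ.2, h⟩, fun ⟨σ, h1, h⟩ => ⟨⟨σ, h1⟩, h⟩⟩

theorem val_mem_M {σ : Name P} (h : σ ∈ C.N) : C.val σ ∈ C.M := C.mem_M.2 ⟨σ, h, rfl⟩

theorem getD_mem {l : List (Name P)} (h : ∀ x ∈ l, x ∈ C.N) (i : ℕ) : l.getD i empty ∈ C.N := by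
  induction l generalizing i with
  | nil => exact C.emp
  | cons a l ih =>
    cases i with
    | zero => exact h a (List.mem_cons_self ..)
    | succ i => exact ih (fun x hx => h x (List.mem_cons_of_mem _ hx)) i

theorem getD_val (l : List (Name P)) (i : ℕ) :
    (l.map C.val).getD i ∅ = C.val (l.getD i empty) := by
  induction l generalizing i with
  | nil => exact C.val_empty.symm
  | cons a l ih =>
    cases i with
    | zero => rfl
    | succ i => exact ih i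

/-- The truth lemma. -/
theorem truth (φ : Fml) : ∀ {l : List (Name P)}, (∀ x ∈ l, x ∈ C.N) →
    (Sat C.M φ (l.map C.val) ↔ ∃ p ∈ C.G, Fo φ l p) := by
  induction φ with
  | mem i j =>
    intro l hl
    simp only [Sat, Fo, getD_val]
    exact C.val_mem_iff (C.getD_mem hl i) (C.getD_mem hl j)
  | eq i j =>
    intro l hl
    simp only [Sat, Fo, getD_val]
    exact C.val_eq_iff (C.getD_mem hl i) (C.getD_mem hl j)
  | neg φ ih =>
    intro l hl
    simp only [Sat, Fo]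
    rw [ih hl]
    constructor
    · intro h
      obtain ⟨p, hp, h1 | h1⟩ := C.gfrc φ hl
      · exact (h ⟨p, hp, h1⟩).elim
      · exact ⟨p, hp, h1⟩
    · rintro ⟨p, hp, h⟩ ⟨q, hq, h'⟩
      obtain ⟨r, _, r1, r2⟩ := C.dir p hp q hq
      exact h r r1 (h'.mono r2)
  | and φ ψ ih1 ih2 =>
    intro l hl
    simp only [Sat, Fo]
    rw [ih1 hl, ih2 hl]
    constructor
    · rintro ⟨⟨p, hp, h⟩, q, hq, h'⟩
      obtain ⟨r, hr, r1, r2⟩ := C.dir p hp q hq
      exact ⟨r, hr, h.mono r1, h'.mono r2⟩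
    · rintro ⟨p, hp, h, h'⟩
      exact ⟨⟨p, hp, h⟩, p, hp, h'⟩
  | ex φ ih =>
    intro l hl
    constructor
    · rintro ⟨x, hx, h⟩
      obtain ⟨σ, hσ, rfl⟩ := C.mem_M.1 hx
      obtain ⟨p, hp, h'⟩ := (ih (C.cons hσ hl)).1 h
      exact ⟨p, hp, σ, h'⟩
    · rintro ⟨p, hp, h⟩
      obtain ⟨q, hq, q1, q2⟩ := C.cof p hp
      have hσ := C.sk_mem φ hl q2
      exact ⟨_, C.val_mem_M hσ, (ih (C.cons hσ hl)).2 ⟨q, hq, sk_spec (h.mono q1)⟩⟩

theorem trans : C.M.IsTransitive := by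
  intro x hx y hy
  obtain ⟨σ, _, rfl⟩ := C.mem_M.1 hx
  obtain ⟨i, a, _, rfl⟩ := C.mem_val.1 hy
  exact C.val_mem_M a

theorem exists_names {l : List ZFSet} (h : ∀ x ∈ l, x ∈ C.M) :
    ∃ l' : List (Name P), (∀ x ∈ l', x ∈ C.N) ∧ l'.map C.val = l := by
  induction l with
  | nil => exact ⟨[], by simp, rfl⟩
  | cons a l ih =>
    obtain ⟨l', h1, rfl⟩ := ih fun x hx => h x (List.mem_cons_of_mem _ hx)
    obtain ⟨σ, hσ, rfl⟩ := C.mem_M.1 (h a (List.mem_cons_self ..))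
    exact ⟨σ :: l', C.cons hσ h1, rfl⟩

theorem setN_child {α : Type} [Countable α] {A : α → Name P} (h : setN A ∈ C.N) (i : α) :
    A i ∈ C.N := C.child h (inferInstanceAs (Countable α)) i

theorem mem_val_setN {α : Type} [Countable α] {A : α → Name P} (h : setN A ∈ C.N) {x : ZFSet} :
    x ∈ C.val (setN A) ↔ ∃ i, x = C.val (A i) := by
  rw [mem_val]
  exact ⟨fun ⟨i, _, _, e⟩ => ⟨i, e⟩, fun ⟨i, e⟩ => ⟨i, C.setN_child h i, C.top, e⟩⟩

theorem mem_val_setN' {α : Type} {A : α → Name P} {i : α} (h : A i ∈ C.N) :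
    C.val (A i) ∈ C.val (setN A) := C.mem_val.2 ⟨i, h, C.top, rfl⟩

theorem val_upairN {σ τ : Name P} (h : upairN σ τ ∈ C.N) :
    C.val (upairN σ τ) = {C.val σ, C.val τ} := by
  ext x
  rw [upairN, C.mem_val_setN h, ZFSet.mem_pair]
  constructor
  · rintro ⟨b, rfl⟩
    cases b
    exacts [Or.inr rfl, Or.inl rfl]
  · rintro (rfl | rfl)
    exacts [⟨true, rfl⟩, ⟨false, rfl⟩]

theorem pairN_left {σ τ : Name P} (h : pairN σ τ ∈ C.N) : σ ∈ C.N :=
  C.setN_child (A := fun b : Bool => cond b σ τ) (C.setN_child h false) true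

theorem pairN_right {σ τ : Name P} (h : pairN σ τ ∈ C.N) : τ ∈ C.N :=
  C.setN_child (A := fun b : Bool => cond b σ τ) (C.setN_child h false) false

theorem val_pairN {σ τ : Name P} (h : pairN σ τ ∈ C.N) :
    C.val (pairN σ τ) = ZFSet.pair (C.val σ) (C.val τ) := by
  have h1 : upairN σ σ ∈ C.N := C.setN_child h true
  have h2 : upairN σ τ ∈ C.N := C.setN_child h false
  rw [pairN, C.val_upairN h, C.val_upairN h1, C.val_upairN h2, ZFSet.pair_eq_singleton]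
  rfl

theorem natN_mem (n : ℕ) : natN n ∈ C.N := C.setN_child C.omega_mem n

theorem val_natN (n : ℕ) : C.val (natN n) = nat n := by
  induction n using Nat.strong_induction_on with
  | h n ih =>
    have h := C.natN_mem n
    rw [natN] at h ⊢
    ext x
    rw [C.mem_val_setN h, mem_nat]
    constructor
    · rintro ⟨i, rfl⟩
      exact ⟨i, i.2, ih i i.2⟩
    · rintro ⟨i, hi, rfl⟩
      exact ⟨⟨i, hi⟩, (ih i hi).symm⟩

theorem val_omegaN : C.val (setN natN) = ZFSet.omega := by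
  ext x
  rw [C.mem_val_setN C.omega_mem, mem_omega]
  exact exists_congr fun n => by rw [C.val_natN n]

theorem val_sepN (φ : Fml) {l : List (Name P)} (hl : ∀ x ∈ l, x ∈ C.N) (τ : Name P) :
    C.val (sepN φ l τ) = ZFSet.sep (fun x => Sat C.M φ (x :: l.map C.val)) (C.val τ) := by
  ext x
  rw [ZFSet.mem_sep, mem_val]
  constructor
  · rintro ⟨⟨⟨i, p⟩, hp, hf⟩, a, b, rfl⟩
    exact ⟨C.mem_val.2 ⟨i, a, C.up p b _ hp, rfl⟩, (C.truth φ (C.cons a hl)).2 ⟨p, b, hf⟩⟩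
  · rintro ⟨hx, hs⟩
    obtain ⟨i, a, b, rfl⟩ := C.mem_val.1 hx
    obtain ⟨p, hp, hf⟩ := (C.truth φ (C.cons a hl)).1 hs
    obtain ⟨r, hr, r1, r2⟩ := C.dir p hp _ b
    exact ⟨⟨(i, r), r2, hf.mono r1⟩, a, hr, rfl⟩

theorem sep_mem (φ : Fml) (l : List ZFSet) (hl : ∀ x ∈ l, x ∈ C.M) (a : ZFSet) (ha : a ∈ C.M) :
    ZFSet.sep (fun x => Sat C.M φ (x :: l)) a ∈ C.M := by
  obtain ⟨l', h1, rfl⟩ := C.exists_names hl
  obtain ⟨τ, hτ, rfl⟩ := C.mem_M.1 ha
  rw [← C.val_sepN φ h1]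
  exact C.val_mem_M (C.sep_memN φ h1 hτ)

theorem union_mem (a : ZFSet) (ha : a ∈ C.M) : ZFSet.sUnion a ∈ C.M := by
  obtain ⟨τ, hτ, rfl⟩ := C.mem_M.1 ha
  have h := C.sep_mem (.ex (.and (.mem 0 2) (.mem 1 0))) [C.val τ] (by simpa using ha) _
    (C.val_mem_M (C.union_memN hτ))
  have e : ZFSet.sUnion (C.val τ) = ZFSet.sep (fun x => Sat C.M
      (.ex (.and (.mem 0 2) (.mem 1 0))) (x :: [C.val τ])) (C.val (unionN τ)) := by
    ext x
    simp only [ZFSet.mem_sUnion, ZFSet.mem_sep, Sat, List.getD_cons_zero, List.getD_cons_succ]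
    constructor
    · rintro ⟨z, hz, hx⟩
      refine ⟨?_, z, C.trans _ ha hz, hz, hx⟩
      obtain ⟨i, a1, _, rfl⟩ := C.mem_val.1 hz
      obtain ⟨j, a2, _, rfl⟩ := C.mem_val.1 hx
      exact C.mem_val_setN' (A := fun x : Σ i : τ.Ty, (τ.ch i).Ty => (τ.ch x.1).ch x.2)
        (i := ⟨i, j⟩) a2
    · rintro ⟨_, z, _, hz, hx⟩
      exact ⟨z, hz, hx⟩
  rwa [e]

theorem power_mem (a : ZFSet) (ha : a ∈ C.M) : ∃ b ∈ C.M, ∀ x ∈ C.M, x ∈ b ↔ x ⊆ a := by
  obtain ⟨τ, hτ, rfl⟩ := C.mem_M.1 ha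
  refine ⟨_, C.sep_mem (.neg (.ex (.and (.mem 0 1) (.neg (.mem 0 2))))) [C.val τ]
    (by simpa using ha) _ (C.val_mem_M (C.pow_memN hτ)), ?_⟩
  intro x hx
  simp only [ZFSet.mem_sep, Sat, List.getD_cons_zero, List.getD_cons_succ]
  constructor
  · rintro ⟨_, h⟩ z hz
    by_contra hc
    exact h ⟨z, C.trans _ hx hz, hz, hc⟩
  · intro h
    refine ⟨?_, fun ⟨z, _, h1, h2⟩ => h2 (h h1)⟩
    obtain ⟨ρ, hρ, rfl⟩ := C.mem_M.1 hx
    have h1 := C.sep_memN (.mem 0 1) (C.one hρ) hτ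
    have h2 : C.val (sepN (.mem 0 1) [ρ] τ) = C.val ρ := by
      rw [C.val_sepN _ (C.one hρ)]
      ext z
      simp only [ZFSet.mem_sep, Sat, List.getD_cons_zero, List.getD_cons_succ, List.map_cons]
      exact ⟨fun h => h.2, fun h' => ⟨h h', h'⟩⟩
    rw [← h2]
    exact C.mem_val_setN' (A := fun T : Set (τ.Ty × P) => niceN τ T) h1

theorem coll_mem (φ : Fml) (l : List ZFSet) (hl : ∀ x ∈ l, x ∈ C.M) (a : ZFSet) (ha : a ∈ C.M)
    (h : ∀ x ∈ a, ∃ y ∈ C.M, Sat C.M φ (y :: x :: l)) :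
    ∃ b ∈ C.M, ∀ x ∈ a, ∃ y ∈ b, Sat C.M φ (y :: x :: l) := by
  obtain ⟨l', h1, rfl⟩ := C.exists_names hl
  obtain ⟨τ, hτ, rfl⟩ := C.mem_M.1 ha
  refine ⟨_, C.val_mem_M (C.coll_memN φ h1 hτ), ?_⟩
  intro x hx
  have h2 := h x hx
  obtain ⟨i, a1, _, rfl⟩ := C.mem_val.1 hx
  obtain ⟨p, hp, hf⟩ := (C.truth (.ex φ) (C.cons a1 h1)).1 h2
  obtain ⟨q, hq, q1, q2⟩ := C.cof p hp
  have hσ := C.sk_mem φ (C.cons a1 h1) q2
  refine ⟨_, C.mem_val_setN' (A := fun x : τ.Ty × P => sk φ (τ.ch x.1 :: l') x.2)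
    (i := (i, q)) hσ, ?_⟩
  exact (C.truth φ (C.cons hσ (C.cons a1 h1))).2 ⟨q, hq, sk_spec (hf.mono q1)⟩

theorem modelZF : ModelZF C.M where
  trans := C.trans
  ext := by
    intro a ha b hb h
    ext x
    exact ⟨fun hx => (h x (C.trans _ ha hx)).1 hx, fun hx => (h x (C.trans _ hb hx)).2 hx⟩
  found := by
    rintro a ha ⟨x, _, hx⟩
    obtain ⟨y, hy, e⟩ := ZFSet.regularity a (fun e => by simp [e] at hx)
    refine ⟨y, C.trans _ ha hy, hy, ?_⟩
    rintro ⟨z, _, h1, h2⟩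
    have : z ∈ a ∩ y := ZFSet.mem_inter.2 ⟨h2, h1⟩
    simp [e] at this
  pair := by
    intro a ha b hb
    obtain ⟨σ, hσ, rfl⟩ := C.mem_M.1 ha
    obtain ⟨τ, hτ, rfl⟩ := C.mem_M.1 hb
    rw [← C.val_upairN (C.upair_memN hσ hτ)]
    exact C.val_mem_M (C.upair_memN hσ hτ)
  union := C.union_mem
  power := C.power_mem
  inf := C.val_omegaN ▸ C.val_mem_M C.omega_mem
  sep := C.sep_mem
  coll := C.coll_mem

theorem choice : Choice C.M := by
  intro a ha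
  obtain ⟨τ, hτ, rfl⟩ := C.mem_M.1 ha
  refine ⟨_, C.val_mem_M (C.choice_memN hτ), fun x hx hne => ?_⟩
  obtain ⟨i, a1, _, rfl⟩ := C.mem_val.1 hx
  obtain ⟨z, hz⟩ : ∃ z, z ∈ C.val (τ.ch i) := by
    by_contra hc
    push Not at hc
    exact hne ((ZFSet.eq_empty _).2 hc)
  obtain ⟨j, _, b2, -⟩ := C.mem_val.1 hz
  have hu := C.union_memN hτ
  obtain ⟨p, hp, ⟨k, hk⟩ | h1⟩ := C.dec (.inl .least) [unionN τ, τ.ch i] (C.two hu a1)
  · obtain ⟨q, hq, q1, q2⟩ := C.cof p hp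
    obtain ⟨x, hx, k, rfl, hk⟩ := C.wit (.inl .lw) [cN q, unionN τ, τ.ch i] (C.three q2 hu a1)
      ⟨_, k, rfl, by
        simp only [List.getD_cons_zero, dC_cN]
        exact ⟨hk.1.mono q1, fun k' h r hr => hk.2 k' h r (hr.trans q1)⟩⟩
    simp only [List.getD_cons_zero, dC_cN] at hk
    change (unionN τ).ch k ∈ C.N at hx
    change Least (unionN τ) (τ.ch i) k q at hk
    have m1 := (C.val_mem_iff hx a1).2 ⟨q, hq, hk.1⟩
    refine ⟨_, m1, fun z => ⟨fun h => ?_, fun h => ?_⟩⟩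
    · obtain ⟨⟨⟨i', k', p'⟩, hk'⟩, c1, c2, c3⟩ := C.mem_val.1 h
      change pairN (τ.ch i') ((unionN τ).ch k') ∈ C.N at c1
      change p' ∈ C.G at c2
      change _ = C.val (pairN (τ.ch i') ((unionN τ).ch k')) at c3
      change Least (unionN τ) (τ.ch i') k' p' at hk'
      rw [C.val_pairN c1, ZFSet.pair_inj] at c3
      rcases trichotomous_of WellOrderingRel k' k with hl | hl | hl
      · exfalso
        have m2 := (C.val_mem_iff (C.pairN_right c1) (C.pairN_left c1)).2 ⟨p', c2, hk'.1⟩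
        rw [← c3.1] at m2
        obtain ⟨r, hr, r1⟩ := (C.val_mem_iff (C.pairN_right c1) a1).1 m2
        obtain ⟨s, _, s1, s2⟩ := C.dir q hq r hr
        exact hk.2 k' hl s s1 (r1.mono s2)
      · rw [c3.2, hl]
      · exfalso
        rw [c3.1] at m1
        obtain ⟨r, hr, r1⟩ := (C.val_mem_iff hx (C.pairN_left c1)).1 m1
        obtain ⟨s, _, s1, s2⟩ := C.dir p' c2 r hr
        exact hk'.2 k hl s s1 (r1.mono s2)
    · rw [h, ← C.val_pairN (C.pair_memN a1 hx)]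
      exact C.mem_val.2 ⟨⟨(i, k, q), hk⟩, C.pair_memN a1 hx, hq, rfl⟩
  · exfalso
    obtain ⟨s, _, s1, s2⟩ := C.dir p hp _ b2
    obtain ⟨k, ⟨r, r1, r2⟩, hmin⟩ := (IsWellFounded.wf (r := WellOrderingRel)).has_min
      {k : (unionN τ).Ty | ∃ r ≤ s, FMem ((unionN τ).ch k) (τ.ch i) r}
      ⟨⟨i, j⟩, s, le_rfl, j, s2, FEq.refl _ _⟩
    exact h1 r (r1.trans s1) ⟨k, r2, fun k' h q hq hm => hmin k' ⟨q, hq.trans r1, hm⟩ h⟩

end Ctx

end Pool.Agent.Shared.Forcing
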