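import Mathlib

/-!
Slices of subsets of Euclidean space along the first coordinate, and Fubini for them.
-/

open MeasureTheory Set

namespace Pool.Agent.Shared.EuclidSlice

/-- Euclidean space of dimension `n`. -/
abbrev E (n : ℕ) := EuclideanSpace ℝ (Fin n)

/-- the point `(t, x)` of `E (n+1)`. -/
noncomputable def cons {n : ℕ} (t : ℝ) (x : E n) : E (n + 1) :=
  WithLp.toLp 2 (Fin.cons t x.ofLp : Fin (n + 1) → ℝ)

/-- the last `n` coordinates. -/
noncomputable def tail {n : ℕ} (y : E (n + 1)) : E n :=
  WithLp.toLp 2 (fun i => y i.succ)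

@[simp] theorem cons_zero {n : ℕ} (t : ℝ) (x : E n) : cons t x 0 = t := by simp [cons]

@[simp] theorem cons_succ {n : ℕ} (t : ℝ) (x : E n) (i : Fin n) : cons t x i.succ = x i := by
  simp [cons]

@[simp] theorem tail_apply {n : ℕ} (y : E (n + 1)) (i : Fin n) : tail y i = y i.succ := by
  simp [tail]

@[simp] theorem tail_cons {n : ℕ} (t : ℝ) (x : E n) : tail (cons t x) = x := by
  ext i; simp

theorem cons_tail {n : ℕ} (y : E (n + 1)) : cons (y 0) (tail y) = y := by
  ext i
  refine Fin.cases ?_ (fun j => ?_) i <;> simp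

theorem cons_combo {n : ℕ} (a b s t : ℝ) (x y : E n) :
    cons (a * s + b * t) (a • x + b • y) = a • cons s x + b • cons t y := by
  ext i
  refine Fin.cases ?_ (fun j => ?_) i <;> simp

theorem tail_combo {n : ℕ} (a b : ℝ) (x y : E (n + 1)) :
    tail (a • x + b • y) = a • tail x + b • tail y := by
  ext i; simp

theorem dist_cons_sq {n : ℕ} (s t : ℝ) (x y : E n) :
    dist (cons s x) (cons t y) ^ 2 = (s - t) ^ 2 + dist x y ^ 2 := by
  rw [EuclideanSpace.dist_sq_eq, EuclideanSpace.dist_sq_eq, Fin.sum_univ_succ]
  simp [Real.dist_eq]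

theorem dist_cons_same {n : ℕ} (t : ℝ) (x y : E n) :
    dist (cons t x) (cons t y) = dist x y := by
  have h := dist_cons_sq t t x y
  simp only [sub_self, ne_eq, OfNat.ofNat_ne_zero, not_false_eq_true, zero_pow, zero_add] at h
  exact (pow_left_inj₀ dist_nonneg dist_nonneg two_ne_zero).1 h

theorem dist_cons_vert {n : ℕ} (s t : ℝ) (x : E n) :
    dist (cons s x) (cons t x) = |s - t| := by
  have h := dist_cons_sq s t x x
  simp only [dist_self, ne_eq, OfNat.ofNat_ne_zero, not_false_eq_true, zero_pow, add_zero] at h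
  rw [← sq_abs (s - t)] at h
  exact (pow_left_inj₀ dist_nonneg (abs_nonneg _) two_ne_zero).1 h

theorem isometry_cons {n : ℕ} (t : ℝ) : Isometry (cons t : E n → E (n + 1)) :=
  Isometry.of_dist_eq (dist_cons_same t)

theorem continuous_tail {n : ℕ} : Continuous (tail : E (n + 1) → E n) := by
  unfold tail
  fun_prop

theorem continuous_cons₂ {n : ℕ} : Continuous (fun p : ℝ × E n => cons p.1 p.2) := by
  unfold cons
  refine (PiLp.continuous_toLp 2 _).comp ?_
  refine continuous_pi fun i => ?_
  refine Fin.cases ?_ (fun j => ?_) i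
  · simpa using continuous_fst
  · simp only [Fin.cons_succ]
    fun_prop

/-- slice at height `t`. -/
def slice {n : ℕ} (A : Set (E (n + 1))) (t : ℝ) : Set (E n) := {x | cons t x ∈ A}

theorem mem_slice {n : ℕ} {A : Set (E (n + 1))} {t : ℝ} {x : E n} :
    x ∈ slice A t ↔ cons t x ∈ A := Iff.rfl

theorem slice_mono {n : ℕ} {A B : Set (E (n + 1))} (h : A ⊆ B) (t : ℝ) :
    slice A t ⊆ slice B t := fun _ hx => h hx

theorem slice_subset_tail {n : ℕ} (A : Set (E (n + 1))) (t : ℝ) : slice A t ⊆ tail '' A :=
  fun x hx => ⟨cons t x, hx, tail_cons t x⟩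

theorem isCompact_slice {n : ℕ} {A : Set (E (n + 1))} (hA : IsCompact A) (t : ℝ) :
    IsCompact (slice A t) :=
  (isometry_cons t).isClosedEmbedding.isCompact_preimage hA

theorem convex_slice {n : ℕ} {A : Set (E (n + 1))} (hA : Convex ℝ A) (t : ℝ) :
    Convex ℝ (slice A t) := by
  intro x hx y hy a b ha hb hab
  have h := hA hx hy ha hb hab
  rw [← cons_combo] at h
  have e : a * t + b * t = t := by rw [← add_mul, hab, one_mul]
  rwa [e] at h

theorem measurePreserving_cons {n : ℕ} :
    MeasurePreserving (fun p : ℝ × E n => cons p.1 p.2) (volume.prod volume) volume := by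
  have h1 : MeasurePreserving (fun p : ℝ × E n => (p.1, p.2.ofLp)) (volume.prod volume)
      (volume.prod volume) :=
    (MeasurePreserving.id volume).prod (PiLp.volume_preserving_ofLp (Fin n))
  have h2 := (volume_preserving_piFinSuccAbove (fun _ : Fin (n + 1) => ℝ) 0).symm
  have h3 := PiLp.volume_preserving_toLp (Fin (n + 1))
  have h := h3.comp (h2.comp h1)
  have e : (fun p : ℝ × E n => cons p.1 p.2) =
      (WithLp.toLp 2 ∘ ⇑(MeasurableEquiv.piFinSuccAbove (fun _ : Fin (n + 1) => ℝ) 0).symm ∘
        fun p : ℝ × E n => (p.1, p.2.ofLp)) := by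
    funext p
    ext i
    refine Fin.cases ?_ (fun j => ?_) i <;>
      simp [MeasurableEquiv.piFinSuccAbove, Fin.insertNthEquiv]
  rw [e]
  exact h

theorem measurable_volume_slice {n : ℕ} {A : Set (E (n + 1))} (hA : MeasurableSet A) :
    Measurable fun t => volume (slice A t) :=
  measurable_measure_prodMk_left (ν := volume) (measurePreserving_cons.measurable hA)

theorem volume_eq_lintegral_slice {n : ℕ} {A : Set (E (n + 1))} (hA : MeasurableSet A) :
    volume A = ∫⁻ t, volume (slice A t) := by
  rw [← measurePreserving_cons.measure_preimage hA.nullMeasurableSet,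
    Measure.prod_apply (measurePreserving_cons.measurable hA)]
  rfl

theorem volume_slice_lt_top {n : ℕ} {A : Set (E (n + 1))} (hA : IsCompact A) (t : ℝ) :
    volume (slice A t) < ⊤ := (isCompact_slice hA t).measure_lt_top

theorem measurable_real_slice {n : ℕ} {A : Set (E (n + 1))} (hA : IsCompact A) :
    Measurable fun t => volume.real (slice A t) :=
  (measurable_volume_slice hA.measurableSet).ennreal_toReal

theorem lintegral_ofReal_slice {n : ℕ} {A : Set (E (n + 1))} (hA : IsCompact A) :
    ∫⁻ t, ENNReal.ofReal (volume.real (slice A t)) = ENNReal.ofReal (volume.real A) := by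
  rw [ofReal_measureReal hA.measure_lt_top.ne, volume_eq_lintegral_slice hA.measurableSet]
  refine lintegral_congr fun t => ?_
  rw [ofReal_measureReal (volume_slice_lt_top hA t).ne]

theorem integrable_real_slice {n : ℕ} {A : Set (E (n + 1))} (hA : IsCompact A) :
    Integrable fun t => volume.real (slice A t) := by
  refine integrable_toReal_of_lintegral_ne_top
    (measurable_volume_slice hA.measurableSet).aemeasurable ?_
  rw [← volume_eq_lintegral_slice hA.measurableSet]
  exact hA.measure_lt_top.ne

theorem real_eq_integral_slice {n : ℕ} {A : Set (E (n + 1))} (hA : IsCompact A) :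
    volume.real A = ∫ t, volume.real (slice A t) := by
  rw [measureReal_def, volume_eq_lintegral_slice hA.measurableSet]
  simp only [measureReal_def]
  rw [integral_toReal (measurable_volume_slice hA.measurableSet).aemeasurable
    (Filter.Eventually.of_forall (volume_slice_lt_top hA))]

theorem real_slice_le {n : ℕ} {A : Set (E (n + 1))} (hA : IsCompact A) (t : ℝ) :
    volume.real (slice A t) ≤ volume.real (tail '' A) :=
  measureReal_mono (slice_subset_tail A t) (hA.image continuous_tail).measure_lt_top.ne

end Pool.Agent.Shared.EuclidSlice
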