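import Mathlib
import Pool.Agent.Shared.EuclidSlice

/-!
The one-dimensional Prekopa-Leindler inequality and the multiplicative Brunn-Minkowski
inequality for compact subsets of Euclidean space.
-/

open MeasureTheory Set Pointwise

namespace Pool.Agent.Shared.BrunnMinkowski

open Pool.Agent.Shared.EuclidSlice

theorem bm_one_add {A B C : Set ℝ} (hB : MeasurableSet B) (hAn : A.Nonempty) (hBn : B.Nonempty)
    (hAb : BddAbove A) (hBb : BddBelow B) (h : ∀ a ∈ A, ∀ b ∈ B, a + b ∈ C) :
    volume A + volume B ≤ volume C := by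
  refine ENNReal.le_of_forall_pos_le_add fun ε hε _ => ?_
  have hε' : (0 : ℝ) < ε / 2 := by positivity
  obtain ⟨a0, ha0, ha0'⟩ := exists_lt_of_lt_csSup hAn (show sSup A - ε / 2 < sSup A by linarith)
  obtain ⟨b0, hb0, hb0'⟩ := exists_lt_of_csInf_lt hBn (show sInf B < sInf B + ε / 2 by linarith)
  have e1 : volume A = volume ((fun x => x + -b0) ⁻¹' A) := (measure_preimage_add_right _ _ _).symm
  have e2 : volume B = volume ((fun x => x + -a0) ⁻¹' B) := (measure_preimage_add_right _ _ _).symm
  have hm : MeasurableSet ((fun x => x + -a0) ⁻¹' B) := (measurable_add_const _) hB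
  rw [e1, e2, ← measure_union_add_inter _ hm]
  refine add_le_add (measure_mono ?_) ?_
  · rintro x (hx | hx)
    · have := h _ hx _ hb0
      simpa using this
    · have := h _ ha0 _ hx
      simpa using this
  · calc volume ((fun x => x + -b0) ⁻¹' A ∩ (fun x => x + -a0) ⁻¹' B)
        ≤ volume (Icc (sInf B + a0) (sSup A + b0)) := by
          refine measure_mono ?_
          rintro x ⟨hx1, hx2⟩
          have h1 := le_csSup hAb hx1
          have h2 := csInf_le hBb hx2
          constructor <;> linarith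
      _ ≤ ε := by
          rw [Real.volume_Icc, ← ENNReal.ofReal_coe_nnreal]
          exact ENNReal.ofReal_le_ofReal (by linarith)

theorem bm_one {A B C : Set ℝ} (hB : MeasurableSet B) (hAn : A.Nonempty) (hBn : B.Nonempty)
    (hAb : Bornology.IsBounded A) (hBb : Bornology.IsBounded B) {l : ℝ} (l0 : 0 < l) (l1 : l < 1)
    (h : ∀ a ∈ A, ∀ b ∈ B, (1 - l) * a + l * b ∈ C) :
    ENNReal.ofReal (1 - l) * volume A + ENNReal.ofReal l * volume B ≤ volume C := by
  have h1 : volume ((1 - l) • A) = ENNReal.ofReal (1 - l) * volume A := by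
    rw [Measure.addHaar_smul]
    simp [abs_of_pos (show 0 < 1 - l by linarith)]
  have h2 : volume (l • B) = ENNReal.ofReal l * volume B := by
    rw [Measure.addHaar_smul]
    simp [abs_of_pos l0]
  rw [← h1, ← h2]
  refine bm_one_add (hB.const_smul₀ l) hAn.smul_set hBn.smul_set (hAb.smul₀ _).bddAbove
    (hBb.smul₀ _).bddBelow ?_
  rintro _ ⟨a, ha, rfl⟩ _ ⟨b, hb, rfl⟩
  exact h a ha b hb

theorem pl_normalized {f g h : ℝ → ℝ} (hf : Measurable f) (hg : Measurable g) (hh : Measurable h)
    (f0 : ∀ x, 0 ≤ f x) (g0 : ∀ x, 0 ≤ g x) (h0 : ∀ x, 0 ≤ h x)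
    (f1 : ∀ x, f x ≤ 1) (g1 : ∀ x, g x ≤ 1)
    (f2 : ∀ u < 1, ∃ x, u < f x) (g2 : ∀ u < 1, ∃ x, u < g x)
    (sf : Bornology.IsBounded {x | f x ≠ 0}) (sg : Bornology.IsBounded {x | g x ≠ 0})
    {l : ℝ} (l0 : 0 < l) (l1 : l < 1)
    (H : ∀ x y u, 0 < u → u < f x → u < g y → u ≤ h ((1 - l) * x + l * y)) :
    ENNReal.ofReal (1 - l) * (∫⁻ x, ENNReal.ofReal (f x)) +
      ENNReal.ofReal l * (∫⁻ x, ENNReal.ofReal (g x)) ≤ ∫⁻ x, ENNReal.ofReal (h x) := by
  rw [lintegral_eq_lintegral_meas_lt volume (Filter.Eventually.of_forall f0) hf.aemeasurable,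
    lintegral_eq_lintegral_meas_lt volume (Filter.Eventually.of_forall g0) hg.aemeasurable,
    lintegral_eq_lintegral_meas_le volume (Filter.Eventually.of_forall h0) hh.aemeasurable]
  have mf : Measurable fun t : ℝ => volume {a | t < f a} :=
    Antitone.measurable (fun _ _ hst => measure_mono (fun _ h => lt_of_le_of_lt hst h))
  have mg : Measurable fun t : ℝ => volume {a | t < g a} :=
    Antitone.measurable (fun _ _ hst => measure_mono (fun _ h => lt_of_le_of_lt hst h))
  rw [← lintegral_const_mul _ mf, ← lintegral_const_mul _ mg,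
    ← lintegral_add_left (mf.const_mul _)]
  refine setLIntegral_mono' measurableSet_Ioi fun u hu => ?_
  have hu0 : 0 < u := hu
  by_cases hu1 : u < 1
  · refine bm_one (measurableSet_lt measurable_const hg) (f2 u hu1) (g2 u hu1)
      (sf.subset fun x hx => ?_) (sg.subset fun x hx => ?_) l0 l1 ?_
    · exact (hu0.trans hx).ne'
    · exact (hu0.trans hx).ne'
    · intro a ha b hb
      exact H a b u hu0 ha hb
  · have e1 : {a | u < f a} = ∅ := by
      ext a
      simp only [mem_ofPred_eq, mem_empty_iff_false, iff_false, not_lt]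
      linarith [f1 a]
    have e2 : {a | u < g a} = ∅ := by
      ext a
      simp only [mem_ofPred_eq, mem_empty_iff_false, iff_false, not_lt]
      linarith [g1 a]
    simp [e1, e2]

/-- One-dimensional Prekopa-Leindler inequality for bounded functions with bounded support. -/
theorem pl_one {f g h : ℝ → ℝ} (hf : Measurable f) (hg : Measurable g) (hh : Measurable h)
    (f0 : ∀ x, 0 ≤ f x) (g0 : ∀ x, 0 ≤ g x) (h0 : ∀ x, 0 ≤ h x)
    (fb : BddAbove (range f)) (gb : BddAbove (range g))
    (fi : Integrable f) (gi : Integrable g) (hi : Integrable h)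
    (sf : Bornology.IsBounded {x | f x ≠ 0}) (sg : Bornology.IsBounded {x | g x ≠ 0})
    {l : ℝ} (l0 : 0 < l) (l1 : l < 1)
    (H : ∀ x y, f x ^ (1 - l) * g y ^ l ≤ h ((1 - l) * x + l * y)) :
    (∫ x, f x) ^ (1 - l) * (∫ x, g x) ^ l ≤ ∫ x, h x := by
  have l1' : 0 < 1 - l := by linarith
  have hI : 0 ≤ ∫ x, h x := integral_nonneg h0
  set F := ⨆ x, f x with hF
  set G := ⨆ x, g x with hG
  have fF : ∀ x, f x ≤ F := fun x => le_ciSup fb x
  have gG : ∀ x, g x ≤ G := fun x => le_ciSup gb x
  have F0 : 0 ≤ F := (f0 0).trans (fF 0)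
  have G0 : 0 ≤ G := (g0 0).trans (gG 0)
  rcases F0.eq_or_lt with hF0 | hF0
  · have : f = fun _ => 0 := funext fun x => le_antisymm (hF0 ▸ fF x) (f0 x)
    rw [this]
    simpa [Real.zero_rpow l1'.ne'] using hI
  rcases G0.eq_or_lt with hG0 | hG0
  · have : g = fun _ => 0 := funext fun x => le_antisymm (hG0 ▸ gG x) (g0 x)
    rw [this]
    simpa [Real.zero_rpow l0.ne'] using hI
  set M := F ^ (1 - l) * G ^ l with hM
  have M0 : 0 < M := by positivity
  have key := pl_normalized (f := fun x => f x / F) (g := fun x => g x / G)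
    (h := fun x => h x / M) (hf.div_const _) (hg.div_const _) (hh.div_const _)
    (fun x => div_nonneg (f0 x) F0) (fun x => div_nonneg (g0 x) G0)
    (fun x => div_nonneg (h0 x) M0.le)
    (fun x => (div_le_one hF0).2 (fF x)) (fun x => (div_le_one hG0).2 (gG x))
    (fun u hu => by
      obtain ⟨x, hx⟩ := exists_lt_of_lt_ciSup (show u * F < ⨆ x, f x by
        rw [← hF]; nlinarith)
      exact ⟨x, (lt_div_iff₀ hF0).2 hx⟩)
    (fun u hu => by
      obtain ⟨x, hx⟩ := exists_lt_of_lt_ciSup (show u * G < ⨆ x, g x by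
        rw [← hG]; nlinarith)
      exact ⟨x, (lt_div_iff₀ hG0).2 hx⟩)
    (sf.subset fun x hx h' => hx (by simp [h']))
    (sg.subset fun x hx h' => hx (by simp [h'])) l0 l1
    (fun x y u hu hx hy => by
      rw [lt_div_iff₀ hF0] at hx
      rw [lt_div_iff₀ hG0] at hy
      rw [le_div_iff₀ M0]
      refine le_trans ?_ (H x y)
      have e : u * M = (u * F) ^ (1 - l) * (u * G) ^ l := by
        rw [Real.mul_rpow hu.le F0, Real.mul_rpow hu.le G0, hM]
        have : u = u ^ (1 - l) * u ^ l := by rw [← Real.rpow_add hu]; simp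
        conv_lhs => rw [this]
        ring
      rw [e]
      have := f0 x
      gcongr)
  rw [← ofReal_integral_eq_lintegral_ofReal (fi.div_const _)
      (Filter.Eventually.of_forall fun x => div_nonneg (f0 x) F0),
    ← ofReal_integral_eq_lintegral_ofReal (gi.div_const _)
      (Filter.Eventually.of_forall fun x => div_nonneg (g0 x) G0),
    ← ofReal_integral_eq_lintegral_ofReal (hi.div_const _)
      (Filter.Eventually.of_forall fun x => div_nonneg (h0 x) M0.le),
    integral_div, integral_div, integral_div] at key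
  have If : 0 ≤ ∫ x, f x := integral_nonneg f0
  have Ig : 0 ≤ ∫ x, g x := integral_nonneg g0
  rw [← ENNReal.ofReal_mul l1'.le, ← ENNReal.ofReal_mul l0.le,
    ← ENNReal.ofReal_add (by positivity) (by positivity),
    ENNReal.ofReal_le_ofReal_iff (by positivity), le_div_iff₀ M0] at key
  refine le_trans ?_ key
  have am := Real.geom_mean_le_arith_mean2_weighted l1'.le l0.le
    (div_nonneg If F0) (div_nonneg Ig G0) (by ring)
  refine le_trans (le_of_eq ?_) (mul_le_mul_of_nonneg_right am M0.le)
  rw [Real.div_rpow If F0, Real.div_rpow Ig G0, hM]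
  field_simp

/-- Multiplicative Brunn-Minkowski inequality for compact sets. -/
theorem brunn_minkowski {l : ℝ} (l0 : 0 < l) (l1 : l < 1) (n : ℕ) :
    ∀ A B C : Set (E n), IsCompact A → IsCompact B → IsCompact C →
      (∀ a ∈ A, ∀ b ∈ B, (1 - l) • a + l • b ∈ C) →
      volume.real A ^ (1 - l) * volume.real B ^ l ≤ volume.real C := by
  have l1' : 0 < 1 - l := by linarith
  induction n with
  | zero =>
    intro A B C hA hB hC h
    rcases A.eq_empty_or_nonempty with rfl | ⟨a, ha⟩
    · simp [Real.zero_rpow l1'.ne']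
    rcases B.eq_empty_or_nonempty with rfl | ⟨b, hb⟩
    · simp [Real.zero_rpow l0.ne']
    have hA' : A = C := by
      rw [Subsingleton.eq_univ_of_nonempty ⟨a, ha⟩,
        Subsingleton.eq_univ_of_nonempty ⟨_, h a ha b hb⟩]
    have hB' : B = C := by
      rw [Subsingleton.eq_univ_of_nonempty ⟨b, hb⟩,
        Subsingleton.eq_univ_of_nonempty ⟨_, h a ha b hb⟩]
    rw [hA', hB', ← Real.rpow_add' measureReal_nonneg (by simp)]
    simp
  | succ n ih =>
    intro A B C hA hB hC h
    rw [real_eq_integral_slice hA, real_eq_integral_slice hB, real_eq_integral_slice hC]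
    have supp : ∀ D : Set (E (n + 1)), IsCompact D →
        Bornology.IsBounded {t | volume.real (slice D t) ≠ 0} := by
      intro D hD
      have c : Continuous fun y : E (n + 1) => y 0 := by fun_prop
      refine (hD.image c).isBounded.subset fun t ht => ?_
      obtain ⟨x, hx⟩ : (slice D t).Nonempty := by
        by_contra hne
        rw [not_nonempty_iff_eq_empty] at hne
        exact ht (by simp [hne])
      exact ⟨cons t x, hx, cons_zero t x⟩
    refine pl_one (measurable_real_slice hA) (measurable_real_slice hB)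
      (measurable_real_slice hC) (fun _ => measureReal_nonneg) (fun _ => measureReal_nonneg)
      (fun _ => measureReal_nonneg) ⟨_, forall_mem_range.2 (real_slice_le hA)⟩
      ⟨_, forall_mem_range.2 (real_slice_le hB)⟩ (integrable_real_slice hA)
      (integrable_real_slice hB) (integrable_real_slice hC) (supp A hA) (supp B hB) l0 l1 ?_
    intro s t
    refine ih _ _ _ (isCompact_slice hA s) (isCompact_slice hB t) (isCompact_slice hC _) ?_
    intro a ha b hb
    rw [mem_slice, cons_combo]
    exact h _ ha _ hb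

/-- The minimum form of the Brunn-Minkowski inequality. -/
theorem le_volume_of_le {l : ℝ} (l0 : 0 < l) (l1 : l < 1) {n : ℕ} {A B C : Set (E n)}
    (hA : IsCompact A) (hB : IsCompact B) (hC : IsCompact C)
    (h : ∀ a ∈ A, ∀ b ∈ B, (1 - l) • a + l • b ∈ C) {T : ℝ}
    (h1 : T ≤ volume.real A) (h2 : T ≤ volume.real B) : T ≤ volume.real C := by
  rcases le_or_gt T 0 with hT | hT
  · exact hT.trans measureReal_nonneg
  refine le_trans ?_ (brunn_minkowski l0 l1 n A B C hA hB hC h)
  have l1' : 0 < 1 - l := by linarith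
  calc T = T ^ (1 - l) * T ^ l := by rw [← Real.rpow_add hT]; simp
    _ ≤ _ := by gcongr

end Pool.Agent.Shared.BrunnMinkowski
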