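import Mathlib
import Pool.Agent.Shared.EuclidSlice

/-!
The nearest point map of a compact convex set in Euclidean space, volumes of images under
Lipschitz and expanding maps, and monotonicity of the volume of the outer parallel shell.
-/

open MeasureTheory Set Metric
open scoped RealInnerProductSpace

namespace Pool.Agent.Shared.NearestPoint

open Pool.Agent.Shared.EuclidSlice

variable {n : ℕ}

theorem mem_cthickening_iff_exists {K : Set (E n)} (hK : IsCompact K) {r : ℝ} (hr : 0 ≤ r)
    {x : E n} : x ∈ cthickening r K ↔ ∃ y ∈ K, dist x y ≤ r := by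
  rw [hK.cthickening_eq_biUnion_closedBall hr]
  simp

theorem volume_image_le_of_lipschitz {f : E n → E n} {C : NNReal} (hf : LipschitzWith C f)
    (s : Set (E n)) : volume (f '' s) ≤ (C : ENNReal) ^ (n : ℝ) * volume s := by
  rw [← EuclideanSpace.euclideanHausdorffMeasure_eq_volume n,
    Measure.euclideanHausdorffMeasure_def, Measure.smul_apply, Measure.smul_apply,
    ENNReal.smul_def, ENNReal.smul_def, smul_eq_mul, smul_eq_mul, mul_left_comm]
  gcongr
  exact hf.hausdorffMeasure_image_le (Nat.cast_nonneg n) s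

theorem volume_le_image_of_expanding {f : E n → E n} (hf : ∀ x y, dist x y ≤ dist (f x) (f y))
    (s : Set (E n)) : volume s ≤ volume (f '' s) := by
  have h : AntilipschitzWith 1 f := AntilipschitzWith.of_le_mul_dist (by simpa using hf)
  rw [← EuclideanSpace.euclideanHausdorffMeasure_eq_volume n,
    Measure.euclideanHausdorffMeasure_def, Measure.smul_apply, Measure.smul_apply,
    ENNReal.smul_def, ENNReal.smul_def, smul_eq_mul, smul_eq_mul]
  refine mul_le_mul_right ?_ _
  simpa using h.le_hausdorffMeasure_image (Nat.cast_nonneg n) s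

/-- `p` is a nearest point map for `K`. -/
def IsProj (K : Set (E n)) (p : E n → E n) : Prop :=
  ∀ x, p x ∈ K ∧ ∀ w ∈ K, ⟪x - p x, w - p x⟫ ≤ 0

theorem exists_isProj {K : Set (E n)} (hK : IsCompact K) (hc : Convex ℝ K) (hne : K.Nonempty) :
    ∃ p, IsProj K p := by
  choose p hp hp' using exists_norm_eq_iInf_of_complete_convex hne hK.isComplete hc
  exact ⟨p, fun x => ⟨hp x, (norm_eq_iInf_iff_real_inner_le_zero hc (hp x)).1 (hp' x)⟩⟩

namespace IsProj

variable {K : Set (E n)} {p : E n → E n}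

theorem inner_nonneg (h : IsProj K p) (x y : E n) :
    0 ≤ ⟪(x - p x) - (y - p y), p x - p y⟫ := by
  have h1 := (h x).2 _ (h y).1
  have h2 := (h y).2 _ (h x).1
  rw [inner_sub_left]
  have e : ⟪x - p x, p x - p y⟫ = -⟪x - p x, p y - p x⟫ := by
    rw [← inner_neg_right]; congr 1; abel
  linarith

theorem norm_sq_le (h : IsProj K p) (x y : E n) :
    ‖p x - p y‖ ^ 2 ≤ ⟪x - y, p x - p y⟫ := by
  have h1 := h.inner_nonneg x y
  have e : (x - p x) - (y - p y) = (x - y) - (p x - p y) := by abel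
  rw [e, inner_sub_left, real_inner_self_eq_norm_sq] at h1
  linarith

theorem norm_le (h : IsProj K p) (x y : E n) : ‖p x - p y‖ ≤ ‖x - y‖ := by
  have h1 := (h.norm_sq_le x y).trans (real_inner_le_norm _ _)
  rcases (norm_nonneg (p x - p y)).eq_or_lt with h0 | h0
  · rw [← h0]; exact norm_nonneg _
  · nlinarith

theorem lipschitz (h : IsProj K p) : LipschitzWith 1 p :=
  LipschitzWith.of_dist_le_mul fun x y => by
    simpa [dist_eq_norm] using h.norm_le x y

theorem eq_of (h : IsProj K p) {x v : E n} (hv : v ∈ K) (hv' : ∀ w ∈ K, ⟪x - v, w - v⟫ ≤ 0) :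
    p x = v := by
  have h1 := (h x).2 _ hv
  have h2 := hv' _ (h x).1
  have e : ‖p x - v‖ ^ 2 = ⟪x - v, p x - v⟫ + ⟪x - p x, v - p x⟫ := by
    have : ⟪x - p x, v - p x⟫ = -⟪x - p x, p x - v⟫ := by
      rw [← inner_neg_right]; congr 1; abel
    rw [this, ← sub_eq_add_neg, ← inner_sub_left, ← real_inner_self_eq_norm_sq]
    congr 1; abel
  have : ‖p x - v‖ ^ 2 ≤ 0 := by linarith
  have : ‖p x - v‖ = 0 := by nlinarith [norm_nonneg (p x - v)]
  exact sub_eq_zero.1 (norm_eq_zero.1 this)

theorem self (h : IsProj K p) {x : E n} (hx : x ∈ K) : p x = x :=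
  h.eq_of hx (by simp)

theorem norm_le_dist (h : IsProj K p) (x : E n) {w : E n} (hw : w ∈ K) :
    ‖x - p x‖ ≤ dist x w := by
  have h1 := (h x).2 _ hw
  have e : ‖x - p x‖ ^ 2 = ⟪x - p x, x - w⟫ + ⟪x - p x, w - p x⟫ := by
    rw [← inner_add_right, ← real_inner_self_eq_norm_sq]; congr 1; abel
  have h2 := real_inner_le_norm (x - p x) (x - w)
  rw [dist_eq_norm]
  rcases (norm_nonneg (x - p x)).eq_or_lt with h0 | h0
  · rw [← h0]; exact norm_nonneg _
  · nlinarith

theorem mem_cthickening_iff (h : IsProj K p) (hK : IsCompact K) {r : ℝ} (hr : 0 ≤ r) {x : E n} :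
    x ∈ cthickening r K ↔ ‖x - p x‖ ≤ r := by
  rw [mem_cthickening_iff_exists hK hr]
  constructor
  · rintro ⟨y, hy, hxy⟩
    exact (h.norm_le_dist x hy).trans hxy
  · intro hx
    exact ⟨p x, (h x).1, by rwa [dist_eq_norm]⟩

theorem proj_ray (h : IsProj K p) (x : E n) {t : ℝ} (ht : 0 ≤ t) :
    p (p x + t • (x - p x)) = p x := by
  refine h.eq_of (h x).1 fun w hw => ?_
  rw [add_sub_cancel_left, inner_smul_left]
  exact mul_nonpos_of_nonneg_of_nonpos ht ((h x).2 w hw)

/-- the unit outer direction is a monotone vector field. -/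
theorem unit_monotone (h : IsProj K p) (x y : E n) :
    0 ≤ ⟪‖x - p x‖⁻¹ • (x - p x) - ‖y - p y‖⁻¹ • (y - p y), x - y⟫ := by
  have key : ∀ x y : E n, ‖x - p x‖ - ‖‖x - p x‖⁻¹ • (x - p x)‖ * ‖y - p y‖ ≤
      ⟪‖x - p x‖⁻¹ • (x - p x), x - y⟫ := by
    intro x y
    have e : x - y = (x - p x) - (p y - p x) - (y - p y) := by abel
    rw [e, inner_sub_right, inner_sub_right]
    have h1 : ⟪‖x - p x‖⁻¹ • (x - p x), x - p x⟫ = ‖x - p x‖ := by
      rw [inner_smul_left, real_inner_self_eq_norm_sq]
      rcases eq_or_ne ‖x - p x‖ 0 with h0 | h0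
      · simp [h0]
      · simp only [conj_trivial]; field_simp
    have h2 : ⟪‖x - p x‖⁻¹ • (x - p x), p y - p x⟫ ≤ 0 := by
      rw [inner_smul_left]
      exact mul_nonpos_of_nonneg_of_nonpos (by simp) ((h x).2 _ (h y).1)
    have h3 := real_inner_le_norm (‖x - p x‖⁻¹ • (x - p x)) (y - p y)
    linarith
  have nle : ∀ x : E n, ‖‖x - p x‖⁻¹ • (x - p x)‖ ≤ 1 := by
    intro x
    rw [norm_smul, norm_inv, norm_norm]
    exact inv_mul_le_one_of_le₀ le_rfl (norm_nonneg _)
  have k1 := key x y
  have k2 := key y x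
  have e : ⟪‖y - p y‖⁻¹ • (y - p y), y - x⟫ = -⟪‖y - p y‖⁻¹ • (y - p y), x - y⟫ := by
    rw [← inner_neg_right]; congr 1; abel
  rw [inner_sub_left]
  have a1 := mul_le_mul_of_nonneg_right (nle x) (norm_nonneg (y - p y))
  have a2 := mul_le_mul_of_nonneg_right (nle y) (norm_nonneg (x - p x))
  linarith

end IsProj

/-- Monotonicity of the volume of the outer parallel shell of a convex set. -/
theorem shell_mono {K L : Set (E n)} (hK : IsCompact K) (hc : Convex ℝ K) (hne : K.Nonempty)
    (hL : IsCompact L) (hKL : K ⊆ L) {r : ℝ} (hr : 0 ≤ r) :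
    volume.real (cthickening r K) - volume.real K ≤
      volume.real (cthickening r L) - volume.real L := by
  obtain ⟨p, hp⟩ := exists_isProj hK hc hne
  let T : E n → E n := fun x => x + r • (‖x - p x‖⁻¹ • (x - p x))
  have hT : ∀ x y, dist x y ≤ dist (T x) (T y) := by
    intro x y
    rw [dist_eq_norm, dist_eq_norm]
    have e : T x - T y = (x - y) +
        r • (‖x - p x‖⁻¹ • (x - p x) - ‖y - p y‖⁻¹ • (y - p y)) := by
      simp only [T, smul_sub]; abel
    have h1 := hp.unit_monotone x y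
    rw [e]
    refine le_of_sq_le_sq (by
      rw [norm_add_sq_real, inner_smul_right, real_inner_comm]
      nlinarith [mul_nonneg hr h1, sq_nonneg ‖r • (‖x - p x‖⁻¹ • (x - p x) -
        ‖y - p y‖⁻¹ • (y - p y))‖]) (norm_nonneg _)
  have hsub : T '' (L \ K) ⊆ cthickening r L \ cthickening r K := by
    rintro _ ⟨x, ⟨hxL, hxK⟩, rfl⟩
    have hx0 : 0 < ‖x - p x‖ := by
      rw [norm_pos_iff, sub_ne_zero]
      intro h
      exact hxK (h ▸ (hp x).1)
    constructor
    · rw [mem_cthickening_iff_exists hL hr]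
      refine ⟨x, hxL, ?_⟩
      simp only [T, dist_eq_norm, add_sub_cancel_left, norm_smul, norm_inv,
        Real.norm_eq_abs, abs_of_nonneg hr, abs_norm]
      rw [inv_mul_cancel₀ hx0.ne', mul_one]
    · rw [hp.mem_cthickening_iff hK hr, not_le]
      have e : T x = p x + (1 + r * ‖x - p x‖⁻¹) • (x - p x) := by
        simp only [T, add_smul, one_smul, mul_smul]; abel
      have h0 : 0 ≤ 1 + r * ‖x - p x‖⁻¹ := by positivity
      rw [e, hp.proj_ray x h0, add_sub_cancel_left, norm_smul, Real.norm_eq_abs,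
        abs_of_nonneg h0, add_mul, mul_assoc, inv_mul_cancel₀ hx0.ne']
      linarith
  have h1 : volume (L \ K) ≤ volume (cthickening r L \ cthickening r K) :=
    (volume_le_image_of_expanding hT _).trans (measure_mono hsub)
  have hL' : IsCompact (cthickening r L) := hL.cthickening
  have h2 : volume.real (L \ K) ≤ volume.real (cthickening r L \ cthickening r K) :=
    ENNReal.toReal_mono (measure_ne_top_of_subset sdiff_subset hL'.measure_lt_top.ne) h1
  rw [measureReal_sdiff hKL hK.measurableSet hL.measure_lt_top.ne,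
    measureReal_sdiff (cthickening_subset_of_subset r hKL) isClosed_cthickening.measurableSet
      hL'.measure_lt_top.ne] at h2
  linarith

end Pool.Agent.Shared.NearestPoint
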