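import Mathlib
import Pool.Agent.Shared.NearestPoint

/-!
Steiner's theorem: the volume of the outer parallel body of a compact convex set is a polynomial
of degree at most the dimension in the radius.
-/

open MeasureTheory Set Metric Polynomial Filter Topology
open scoped RealInnerProductSpace

namespace Pool.Agent.Shared.Steiner

open Pool.Agent.Shared.EuclidSlice Pool.Agent.Shared.NearestPoint

variable {n : ℕ}

theorem exists_det_poly (A B : E n →L[ℝ] E n) :
    ∃ q : ℝ[X], q.natDegree ≤ n ∧ ∀ t : ℝ, q.eval t = (A + t • B).det := by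
  let b := (EuclideanSpace.basisFun (Fin n) ℝ).toBasis
  let a := LinearMap.toMatrix b b (A : E n →ₗ[ℝ] E n)
  let c := LinearMap.toMatrix b b (B : E n →ₗ[ℝ] E n)
  refine ⟨Matrix.det ((X : ℝ[X]) • c.map C + a.map C), ?_, fun t => ?_⟩
  · simpa using Polynomial.natDegree_det_X_add_C_le c a
  · rw [ContinuousLinearMap.det, ← LinearMap.det_toMatrix b, ← Polynomial.coe_evalRingHom,
      RingHom.map_det]
    congr 1
    ext i j
    simp [a, c, add_comm]
    ring

theorem det_pos_of_inner {A : E n →L[ℝ] E n} (h0 : ∀ v, 0 ≤ ⟪A v, v⟫)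
    (h1 : ∀ v, ⟪A v, v⟫ ≤ ‖v‖ ^ 2) {t : ℝ} (ht : 0 < t) :
    0 < (A + t • (ContinuousLinearMap.id ℝ (E n) - A)).det := by
  have hne : ∀ s : ℝ, 0 < s → (A + s • (ContinuousLinearMap.id ℝ (E n) - A)).det ≠ 0 := by
    intro s hs hdet
    rw [ContinuousLinearMap.det, LinearMap.det_eq_zero_iff_ker_ne_bot] at hdet
    apply hdet
    rw [LinearMap.ker_eq_bot']
    intro v hv
    have hv' : A v + s • (v - A v) = 0 := by simpa using hv
    have e : ⟪A v + s • (v - A v), v⟫ = 0 := by rw [hv', inner_zero_left]
    rw [inner_add_left, inner_smul_left, inner_sub_left, real_inner_self_eq_norm_sq] at e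
    simp only [conj_trivial] at e
    have a0 := h0 v
    have a1 := h1 v
    have a2 : 0 ≤ s * (‖v‖ ^ 2 - ⟪A v, v⟫) := mul_nonneg hs.le (by linarith)
    have a3 : ⟪A v, v⟫ = 0 := by linarith
    have a4 : s * ‖v‖ ^ 2 = 0 := by rw [a3] at e; linarith
    have a5 : ‖v‖ ^ 2 = 0 := (mul_eq_zero.1 a4).resolve_left hs.ne'
    simpa using a5
  have hc : Continuous fun s : ℝ => (A + s • (ContinuousLinearMap.id ℝ (E n) - A)).det :=
    ContinuousLinearMap.continuous_det.comp (by fun_prop)
  have hone : (A + (1 : ℝ) • (ContinuousLinearMap.id ℝ (E n) - A)).det = 1 := by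
    simp [ContinuousLinearMap.det]
  by_contra hle
  have hle' : (A + t • (ContinuousLinearMap.id ℝ (E n) - A)).det ≤ 0 := not_lt.1 hle
  have := isPreconnected_Ioi.intermediate_value (a := t) (b := 1) (mem_Ioi.2 ht)
    (mem_Ioi.2 one_pos) hc.continuousOn (show (0 : ℝ) ∈ Icc _ _ from ⟨hle', by rw [hone]; norm_num⟩)
  obtain ⟨s, hs, hs'⟩ := this
  exact hne s hs hs'

theorem fderiv_inner_bounds {K : Set (E n)} {p : E n → E n} (hp : IsProj K p) {x : E n}
    {A : E n →L[ℝ] E n} (hA : HasFDerivAt p A x) (v : E n) :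
    0 ≤ ⟪A v, v⟫ ∧ ⟪A v, v⟫ ≤ ‖v‖ ^ 2 := by
  have hl : HasDerivAt (fun t : ℝ => x + t • v) v 0 := by
    simpa using ((hasDerivAt_id (0 : ℝ)).smul_const v).const_add x
  have hA' : HasFDerivAt p A (x + (0 : ℝ) • v) := by simpa using hA
  have hd : HasDerivAt (fun t : ℝ => p (x + t • v)) (A v) 0 := hA'.comp_hasDerivAt 0 hl
  have hd2 : HasDerivAt (fun t : ℝ => ⟪p (x + t • v), v⟫) ⟪A v, v⟫ 0 := by
    simpa using hd.inner ℝ (hasDerivAt_const (0 : ℝ) v)
  constructor
  · refine hd2.nonneg_of_monotone fun s t hst => ?_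
    rcases hst.eq_or_lt with rfl | hst
    · exact le_rfl
    have h1 := (sq_nonneg _).trans (hp.norm_sq_le (x + t • v) (x + s • v))
    have e : x + t • v - (x + s • v) = (t - s) • v := by rw [sub_smul]; abel
    rw [e, inner_smul_left, inner_sub_right, real_inner_comm, real_inner_comm (p (x + s • v))] at h1
    simp only [conj_trivial] at h1
    have := nonneg_of_mul_nonneg_right h1 (sub_pos.2 hst)
    linarith
  · have hd3 : HasDerivAt (fun t : ℝ => t * ‖v‖ ^ 2 - ⟪p (x + t • v), v⟫)
        (‖v‖ ^ 2 - ⟪A v, v⟫) 0 := by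
      have := ((hasDerivAt_id (0 : ℝ)).mul_const (‖v‖ ^ 2)).fun_sub hd2
      simpa using this
    have := hd3.nonneg_of_monotone fun s t hst => by
      have h1 := hp.norm_le (x + t • v) (x + s • v)
      have e : x + t • v - (x + s • v) = (t - s) • v := by rw [sub_smul]; abel
      rw [e, norm_smul, Real.norm_eq_abs, abs_of_nonneg (sub_nonneg.2 hst)] at h1
      have h2 := real_inner_le_norm (p (x + t • v) - p (x + s • v)) v
      rw [inner_sub_left] at h2
      have h3 := mul_le_mul_of_nonneg_right h1 (norm_nonneg v)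
      show s * ‖v‖ ^ 2 - ⟪p (x + s • v), v⟫ ≤ t * ‖v‖ ^ 2 - ⟪p (x + t • v), v⟫
      nlinarith
    linarith

theorem volume_cthickening_eq_integral {K : Set (E n)} (hK : IsCompact K) {p : E n → E n}
    (hp : IsProj K p) {t : ℝ} (ht : 0 < t) :
    IntegrableOn (fun x => (fderiv ℝ p x + t • (ContinuousLinearMap.id ℝ (E n) - fderiv ℝ p x)).det)
      (cthickening 1 K ∩ {x | DifferentiableAt ℝ p x}) ∧
    volume.real (cthickening t K) = ∫ x in cthickening 1 K ∩ {x | DifferentiableAt ℝ p x},
      (fderiv ℝ p x + t • (ContinuousLinearMap.id ℝ (E n) - fderiv ℝ p x)).det := by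
  set s := cthickening 1 K ∩ {x | DifferentiableAt ℝ p x} with hs
  have hsm : MeasurableSet s :=
    isClosed_cthickening.measurableSet.inter (measurableSet_of_differentiableAt ℝ p)
  let T : E n → E n := fun x => p x + t • (x - p x)
  have hTd : ∀ x ∈ s, HasFDerivWithinAt T
      (fderiv ℝ p x + t • (ContinuousLinearMap.id ℝ (E n) - fderiv ℝ p x)) s x := by
    intro x hx
    have h := hx.2.hasFDerivAt
    exact (h.add (((hasFDerivAt_id x).sub h).const_smul t)).hasFDerivWithinAt
  have hTi : Function.Injective T := by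
    intro x y hxy
    have h1 : p (T x) = p (T y) := by rw [hxy]
    simp only [T] at h1 hxy
    rw [hp.proj_ray x ht.le, hp.proj_ray y ht.le] at h1
    rw [h1, add_right_inj] at hxy
    have := smul_right_injective _ ht.ne' hxy
    simpa using this
  have hTl : LipschitzWith (1 + ‖t‖₊ * (1 + 1)) T :=
    hp.lipschitz.add ((lipschitzWith_smul t).comp (LipschitzWith.id.sub hp.lipschitz))
  have himg : T '' cthickening 1 K = cthickening t K := by
    ext y
    constructor
    · rintro ⟨x, hx, rfl⟩
      rw [hp.mem_cthickening_iff hK zero_le_one] at hx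
      rw [hp.mem_cthickening_iff hK ht.le]
      simp only [T]
      rw [hp.proj_ray x ht.le, add_sub_cancel_left, norm_smul, Real.norm_eq_abs, abs_of_pos ht]
      nlinarith
    · intro hy
      rw [hp.mem_cthickening_iff hK ht.le] at hy
      have hti : 0 ≤ t⁻¹ := (inv_pos.2 ht).le
      refine ⟨p y + t⁻¹ • (y - p y), ?_, ?_⟩
      · rw [hp.mem_cthickening_iff hK zero_le_one, hp.proj_ray y hti, add_sub_cancel_left,
          norm_smul, Real.norm_eq_abs, abs_of_nonneg hti]
        exact inv_mul_le_one_of_le₀ hy ht.le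
      · simp only [T]
        rw [hp.proj_ray y hti, add_sub_cancel_left, smul_smul, mul_inv_cancel₀ ht.ne']
        simp
  have hnull : volume (T '' (cthickening 1 K \ s)) = 0 := by
    have h0 : volume (cthickening 1 K \ s) = 0 := by
      refine measure_mono_null ?_ (ae_iff.1 (hp.lipschitz.ae_differentiableAt (μ := volume)))
      intro x hx hx'
      exact hx.2 ⟨hx.1, hx'⟩
    have := volume_image_le_of_lipschitz hTl (cthickening 1 K \ s)
    rw [h0, mul_zero] at this
    exact nonpos_iff_eq_zero.1 this
  have hvol : volume (cthickening t K) = volume (T '' s) := by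
    refine le_antisymm ?_ (measure_mono (himg ▸ image_mono inter_subset_left))
    calc volume (cthickening t K) ≤ volume (T '' s ∪ T '' (cthickening 1 K \ s)) := by
          rw [← image_union, union_sdiff_cancel inter_subset_left, himg]
      _ ≤ volume (T '' s) + volume (T '' (cthickening 1 K \ s)) := measure_union_le _ _
      _ = volume (T '' s) := by rw [hnull, add_zero]
  have hpos : ∀ x ∈ s,
      |(fderiv ℝ p x + t • (ContinuousLinearMap.id ℝ (E n) - fderiv ℝ p x)).det| • (1 : ℝ) =
      (fderiv ℝ p x + t • (ContinuousLinearMap.id ℝ (E n) - fderiv ℝ p x)).det := by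
    intro x hx
    have h := hx.2.hasFDerivAt
    rw [smul_eq_mul, mul_one, abs_of_pos]
    exact det_pos_of_inner (fun v => (fderiv_inner_bounds hp h v).1)
      (fun v => (fderiv_inner_bounds hp h v).2) ht
  have hfin : volume (T '' s) < ⊤ := by
    rw [← hvol]; exact hK.cthickening.measure_lt_top
  constructor
  · have h1 : IntegrableOn (fun _ => (1 : ℝ)) (T '' s) volume := integrableOn_const hfin.ne
    rw [integrableOn_image_iff_integrableOn_abs_det_fderiv_smul volume hsm hTd hTi.injOn] at h1
    exact h1.congr_fun hpos hsm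
  · have h1 := integral_image_eq_integral_abs_det_fderiv_smul volume hsm hTd hTi.injOn
      (fun _ => (1 : ℝ))
    rw [setIntegral_congr_fun hsm hpos] at h1
    rw [← h1, measureReal_def, hvol]
    simp [measureReal_def]

/-- Steiner's theorem. -/
theorem exists_steiner_poly {K : Set (E n)} (hK : IsCompact K) (hc : Convex ℝ K)
    (hne : K.Nonempty) :
    ∃ P : ℝ[X], P.natDegree ≤ n ∧ ∀ t : ℝ, 0 ≤ t → volume.real (cthickening t K) = P.eval t := by
  obtain ⟨p, hp⟩ := exists_isProj hK hc hne
  let v : ℕ → ℝ := fun i => (i : ℝ) + 1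
  have hv : Set.InjOn v (Finset.range (n + 1) : Finset ℕ) := by
    intro i _ j _ h
    simpa [v] using h
  have hv0 : ∀ i, 0 < v i := fun i => by positivity
  let P : ℝ[X] := Lagrange.interpolate (Finset.range (n + 1)) v
    fun i => volume.real (cthickening (v i) K)
  have hdeg : P.natDegree ≤ n := by
    have := Lagrange.degree_interpolate_lt (r := fun i => volume.real (cthickening (v i) K)) hv
    rw [Finset.card_range] at this
    exact natDegree_le_iff_degree_le.2 (Order.le_of_lt_succ (by exact_mod_cast this))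
  have hpos : ∀ t : ℝ, 0 < t → volume.real (cthickening t K) = P.eval t := by
    intro t ht
    have hP : P.eval t = ∑ i ∈ Finset.range (n + 1),
        (Lagrange.basis (Finset.range (n + 1)) v i).eval t *
          volume.real (cthickening (v i) K) := by
      simp [P, Lagrange.interpolate_apply, eval_finsetSum, mul_comm]
    rw [hP, (volume_cthickening_eq_integral hK hp ht).2]
    simp_rw [fun i => (volume_cthickening_eq_integral hK hp (hv0 i)).2, ← integral_const_mul]
    rw [← integral_finsetSum _ fun i _ =>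
      ((volume_cthickening_eq_integral hK hp (hv0 i)).1.const_mul _)]
    refine integral_congr_ae (Eventually.of_forall fun x => ?_)
    obtain ⟨q, hq, hq'⟩ := exists_det_poly (fderiv ℝ p x)
      (ContinuousLinearMap.id ℝ (E n) - fderiv ℝ p x)
    have hq2 := Lagrange.eq_interpolate (f := q) hv (by
      rw [Finset.card_range]
      exact lt_of_le_of_lt degree_le_natDegree (by exact_mod_cast Nat.lt_succ_of_le hq))
    simp only [← hq']
    conv_lhs => rw [hq2]
    simp [Lagrange.interpolate_apply, eval_finsetSum, mul_comm]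
  refine ⟨P, hdeg, fun t ht => ?_⟩
  rcases ht.eq_or_lt with rfl | ht
  · have h1 : Tendsto (fun r => volume.real (cthickening r K)) (𝓝[>] 0)
        (𝓝 (volume.real K)) :=
      ((ENNReal.tendsto_toReal hK.measure_lt_top.ne).comp
        (tendsto_measure_cthickening_of_isCompact hK)).mono_left nhdsWithin_le_nhds
    have h2 : Tendsto (fun r => P.eval r) (𝓝[>] 0) (𝓝 (P.eval 0)) :=
      (P.continuous.tendsto 0).mono_left nhdsWithin_le_nhds
    rw [cthickening_zero, hK.isClosed.closure_eq]
    refine tendsto_nhds_unique h1 (h2.congr' ?_)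
    filter_upwards [self_mem_nhdsWithin] with r hr
    exact (hpos r hr).symm
  · exact hpos t ht

end Pool.Agent.Shared.Steiner
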