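import Mathlib

/-!
The Wiener-Ikehara theorem and the prime number theorem in arithmetic progressions.
-/

set_option autoImplicit false

namespace Pool.Agent.Shared.PNTAP

open MeasureTheory Filter Topology Set Complex

noncomputable section

/-- the Fejer kernel -/
def fej (L y : ℝ) : ℝ := (2 - 2 * Real.cos (L * y)) / y ^ 2

lemma fej_nonneg (L y : ℝ) : 0 ≤ fej L y :=
  div_nonneg (by linarith [Real.cos_le_one (L * y)]) (sq_nonneg _)

lemma fej_mul_le (L y : ℝ) : fej L y * y ^ 2 ≤ 4 := by
  rcases eq_or_ne y 0 with rfl | hy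
  · simp
  · rw [fej, div_mul_cancel₀ _ (pow_ne_zero 2 hy)]
    linarith [Real.neg_one_le_cos (L * y)]

lemma fej_le (L y : ℝ) : fej L y ≤ L ^ 2 := by
  refine div_le_of_le_mul₀ (sq_nonneg _) (sq_nonneg _) ?_
  have := Real.one_sub_sq_div_two_le_cos (x := L * y)
  nlinarith

lemma measurable_fej (L : ℝ) : Measurable (fej L) := by
  unfold fej; fun_prop

lemma integrable_fej (L : ℝ) : Integrable (fej L) := by
  refine (integrable_inv_one_add_sq.const_mul (L ^ 2 + 4)).mono'
    (measurable_fej L).aestronglyMeasurable (Eventually.of_forall (fun y => ?_))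
  rw [Real.norm_of_nonneg (fej_nonneg L y), ← div_eq_mul_inv, le_div_iff₀ (by positivity)]
  linarith [fej_le L y, fej_mul_le L y]

lemma le_integral_fej {L : ℝ} (hL : 0 < L) : L / 3 ≤ ∫ y, fej L y := by
  have h1 : ∫ y, (Ioc 0 L⁻¹).indicator (fun _ => L ^ 2 / 3) y = L / 3 := by
    rw [integral_indicator_const _ measurableSet_Ioc, Real.volume_real_Ioc_of_le (by positivity)]
    simp only [sub_zero, smul_eq_mul]
    field_simp
  rw [← h1]
  refine integral_mono ((integrableOn_const (by simp)).integrable_indicator measurableSet_Ioc)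
    (integrable_fej L) (fun y => ?_)
  by_cases hy : y ∈ Ioc 0 L⁻¹
  · rw [indicator_of_mem hy, fej, le_div_iff₀ (pow_pos hy.1 2)]
    have h2 : L * y ≤ 1 := by
      have := mul_le_mul_of_nonneg_left hy.2 hL.le
      rwa [mul_inv_cancel₀ hL.ne'] at this
    have h3 := Real.cos_le_one_sub_mul_cos_sq (x := L * y) (by
      rw [abs_of_pos (mul_pos hL hy.1)]; linarith [Real.pi_gt_three])
    have h4 : 1 / 6 ≤ 2 / Real.pi ^ 2 := by
      rw [div_le_div_iff₀ (by norm_num) (by positivity)]
      nlinarith [Real.pi_lt_d2, Real.pi_pos]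
    nlinarith [sq_nonneg (L * y)]
  · rw [indicator_of_notMem hy]; exact fej_nonneg L y

lemma fej_eq {L y : ℝ} (hL : 0 ≤ L) (hy : y ≠ 0) :
    ∫ t in Ioc (-L) L, ((L - |t| : ℝ) : ℂ) * exp (I * t * y) = fej L y := by
  have hy' : (y : ℂ) ≠ 0 := by exact_mod_cast hy
  have hc : Continuous (fun t : ℝ => ((L - |t| : ℝ) : ℂ) * exp (I * t * y)) := by fun_prop
  have key : ∀ (σ a b : ℝ), ∫ t in a..b, ((L : ℂ) - σ * t) * exp (I * t * y) =
      ((L - σ * b) / (I * y) - σ / y ^ 2) * exp (I * b * y) -
        ((L - σ * a) / (I * y) - σ / y ^ 2) * exp (I * a * y) := by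
    intro σ a b
    refine intervalIntegral.integral_eq_sub_of_hasDerivAt
      (f := fun t : ℝ => ((L - σ * t) / (I * y) - σ / y ^ 2) * exp (I * t * y)) (fun t _ => ?_)
      (Continuous.intervalIntegrable (by fun_prop) _ _)
    have h1 : HasDerivAt (fun t : ℝ => (t : ℂ)) 1 t := ofRealCLM.hasDerivAt
    have h2 := ((((h1.const_mul (σ : ℂ)).const_sub (L : ℂ)).div_const (I * y)).sub_const
      ((σ : ℂ) / (y : ℂ) ^ 2)).mul ((h1.const_mul I).mul_const (y : ℂ)).cexp
    refine h2.congr_deriv ?_
    field_simp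
    ring_nf
    simp only [I_sq]
    ring
  rw [← intervalIntegral.integral_of_le (by linarith),
    ← intervalIntegral.integral_add_adjacent_intervals (b := 0) (hc.intervalIntegrable _ _)
      (hc.intervalIntegrable _ _),
    intervalIntegral.integral_congr (g := fun t : ℝ => ((L : ℂ) - (-1 : ℝ) * t) * exp (I * t * y))
      (fun t ht => by
        rw [uIcc_of_le (by linarith)] at ht
        simp [abs_of_nonpos ht.2]),
    intervalIntegral.integral_congr (a := 0)
      (g := fun t : ℝ => ((L : ℂ) - (1 : ℝ) * t) * exp (I * t * y))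
      (fun t ht => by
        rw [uIcc_of_le hL] at ht
        simp [abs_of_nonneg ht.1]), key, key, fej]
  push_cast
  rw [Complex.cos, show (L : ℂ) * y * I = I * L * y by ring,
    show -((L : ℂ) * y) * I = I * -L * y by ring]
  simp only [mul_zero, zero_mul, exp_zero]
  field_simp
  ring

section Tauber

variable {h : ℝ → ℝ} {B : ℝ} {G : ℂ → ℂ} (hm : Measurable h) (hB : ∀ u, |h u| ≤ B)
  (hG : ContinuousOn G {z | 0 ≤ z.re})
  (hL : ∀ z : ℂ, 0 < z.re → ∫ u in Ioi (0 : ℝ), (h u : ℂ) * exp (-z * u) = G z)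
include hm hB hL

lemma conv_eps {L ε : ℝ} (hL0 : 0 ≤ L) (hε : 0 < ε) (y : ℝ) :
    ∫ u in Ioi (0 : ℝ), (h u : ℂ) * exp (-ε * u) * fej L (y - u) =
      ∫ t in Ioc (-L) L, ((L - |t| : ℝ) : ℂ) * exp (I * t * y) * G (ε + I * t) := by
  have h1 : ∫ u in Ioi (0 : ℝ), (h u : ℂ) * exp (-ε * u) * fej L (y - u) =
      ∫ u in Ioi (0 : ℝ), ∫ t in Ioc (-L) L,
        (h u : ℂ) * exp (-ε * u) * (((L - |t| : ℝ) : ℂ) * exp (I * t * (y - u : ℝ))) := by
    refine integral_congr_ae (ae_restrict_of_ae ?_)
    filter_upwards [compl_mem_ae_iff.2 (measure_singleton (μ := volume) y)] with u hu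
    rw [integral_const_mul, fej_eq hL0 (sub_ne_zero.2 (Ne.symm hu))]
  rw [h1, integral_integral_swap]
  · refine integral_congr_ae (Eventually.of_forall (fun t => ?_))
    simp only
    rw [← hL _ (by simpa using hε), ← integral_const_mul]
    refine integral_congr_ae (Eventually.of_forall (fun u => ?_))
    have : exp (-ε * u) * exp (I * t * (y - u : ℝ)) = exp (I * t * y) * exp (-(ε + I * t) * u) := by
      rw [← exp_add, ← exp_add]; congr 1; push_cast; ring
    simp only
    linear_combination (h u : ℂ) * ((L - |t| : ℝ) : ℂ) * this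
  · have h2 : IntegrableOn (fun u : ℝ => B * Real.exp (-ε * u)) (Ioi 0) :=
      (exp_neg_integrableOn_Ioi 0 hε).const_mul B
    have h3 : IntegrableOn (fun t : ℝ => |L - (|t|)|) (Ioc (-L) L) :=
      (Continuous.integrableOn_Icc (by fun_prop)).mono_set Ioc_subset_Icc_self
    refine (h2.mul_prod h3).mono' (Measurable.aestronglyMeasurable (by
      unfold Function.uncurry; fun_prop)) (Eventually.of_forall (fun p => ?_))
    simp only [Function.uncurry, norm_mul, norm_real, Real.norm_eq_abs, norm_exp]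
    simp only [mul_re, I_re, I_im, ofReal_re, ofReal_im, neg_re, neg_im, mul_im, zero_mul, mul_zero,
      sub_zero, Real.exp_zero, mul_one, zero_add, sub_self]
    gcongr
    exact hB _

include hG

lemma conv_eq {L : ℝ} (hL0 : 0 ≤ L) (y : ℝ) :
    ∫ u in Ioi (0 : ℝ), (h u : ℂ) * fej L (y - u) =
      ∫ t in Ioc (-L) L, ((L - |t| : ℝ) : ℂ) * exp (I * t * y) * G (I * t) := by
  have he : Tendsto (fun n : ℕ => ((1 / ((n : ℝ) + 1) : ℝ) : ℂ)) atTop (𝓝 0) := by
    have := (continuous_ofReal.tendsto 0).comp tendsto_one_div_add_atTop_nhds_zero_nat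
    rw [ofReal_zero] at this
    exact this
  have hp : ∀ n : ℕ, (0 : ℝ) < 1 / ((n : ℝ) + 1) := fun n => by positivity
  have hK : IsCompact (Icc (0 : ℝ) 1 ×ℂ Icc (-L) L) := isCompact_Icc.reProdIm isCompact_Icc
  have hKs : Icc (0 : ℝ) 1 ×ℂ Icc (-L) L ⊆ {z | 0 ≤ z.re} := fun z hz => hz.1.1
  obtain ⟨M, hM⟩ := hK.exists_bound_of_continuousOn (hG.mono hKs)
  refine tendsto_nhds_unique (l := atTop) (f := fun n : ℕ => ∫ u in Ioi (0 : ℝ),
    (h u : ℂ) * exp (-(1 / ((n : ℝ) + 1) : ℝ) * u) * fej L (y - u)) ?_ ?_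
  · have := measurable_fej L
    refine tendsto_integral_of_dominated_convergence (fun u => B * fej L (y - u))
      (fun n => Measurable.aestronglyMeasurable (by fun_prop))
      (((integrable_fej L).comp_sub_left y).const_mul B).integrableOn
      (fun n => (ae_restrict_mem measurableSet_Ioi).mono (fun u hu => ?_))
      (Eventually.of_forall (fun u => ?_))
    · simp only [norm_mul, norm_real, Real.norm_eq_abs, norm_exp, abs_of_nonneg (fej_nonneg _ _)]
      refine mul_le_mul_of_nonneg_right ?_ (fej_nonneg _ _)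
      refine (mul_le_of_le_one_right (abs_nonneg _) ?_).trans (hB u)
      rw [Real.exp_le_one_iff, ← ofReal_neg, ← ofReal_mul, ofReal_re]
      exact mul_nonpos_of_nonpos_of_nonneg (by linarith [hp n]) (le_of_lt hu)
    · have := ((((he.neg.mul_const (u : ℂ)).cexp).const_mul (h u : ℂ)).mul_const
        (fej L (y - u) : ℂ))
      simpa using this
  · simp only [conv_eps hm hB hL hL0 (hp _)]
    refine tendsto_integral_of_dominated_convergence (fun t => |L - (|t|)| * M) (fun n => ?_)
      ((Continuous.integrableOn_Icc (by fun_prop)).mono_set Ioc_subset_Icc_self)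
      (fun n => (ae_restrict_mem measurableSet_Ioc).mono (fun t ht => ?_))
      (Eventually.of_forall (fun t => ?_))
    · refine Continuous.aestronglyMeasurable (Continuous.mul (by fun_prop)
        (hG.comp_continuous (by fun_prop) (fun t => ?_)))
      simp only [mem_ofPred_eq, add_re, ofReal_re, mul_re, I_re, I_im, ofReal_im, zero_mul, mul_zero,
        sub_zero, add_zero]
      exact (hp n).le
    · simp only [norm_mul, norm_real, Real.norm_eq_abs, norm_exp]
      simp only [mul_re, I_re, I_im, ofReal_re, ofReal_im, mul_im, zero_mul, mul_zero,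
        sub_zero, Real.exp_zero, mul_one, zero_add, sub_self]
      refine mul_le_mul_of_nonneg_left (hM _ ⟨?_, ?_⟩) (abs_nonneg _)
      · simp only [mem_preimage, add_re, ofReal_re, mul_re, I_re, I_im, ofReal_im, zero_mul,
          mul_zero, sub_zero, add_zero]
        exact ⟨(hp n).le, (div_le_one (by positivity)).2 (by simp)⟩
      · simpa using ⟨ht.1.le, ht.2⟩
    · refine Tendsto.const_mul _ ((hG (I * t) (by simp)).tendsto.comp ?_)
      refine tendsto_nhdsWithin_iff.2 ⟨by simpa using he.add_const (I * t),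
        Eventually.of_forall (fun n => ?_)⟩
      simp only [mem_ofPred_eq, add_re, ofReal_re, mul_re, I_re, I_im, ofReal_im, zero_mul, mul_zero,
        sub_zero, add_zero]
      exact (hp n).le

lemma conv_tendsto {L : ℝ} (hL0 : 0 ≤ L) :
    Tendsto (fun y => ∫ u in Ioi (0 : ℝ), h u * fej L (y - u)) atTop (𝓝 0) := by
  have h1 := (Real.tendsto_integral_exp_smul_cocompact
    ((Ioc (-L) L).indicator (fun t : ℝ => ((L - |t| : ℝ) : ℂ) * G (I * t)))).comp
    (show Tendsto (fun y : ℝ => y * -(2 * Real.pi)⁻¹) atTop (cocompact ℝ) from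
      (tendsto_id.atTop_mul_const_of_neg (neg_lt_zero.2 (by positivity))).mono_right
        atBot_le_cocompact)
  rw [← tendsto_ofReal_iff]
  refine h1.congr (fun y => ?_)
  rw [← integral_complex_ofReal]
  simp only [Function.comp]
  push_cast
  rw [conv_eq hm hB hG hL hL0, ← integral_indicator measurableSet_Ioc]
  refine integral_congr_ae (Eventually.of_forall (fun t => ?_))
  simp only [indicator, Circle.smul_def, Real.fourierChar_apply, smul_eq_mul]
  split_ifs
  · have : (((2 * Real.pi * -(t * (y * -(2 * Real.pi)⁻¹)) : ℝ) : ℂ) * I) = I * t * y := by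
      have := Real.pi_ne_zero
      rw [show 2 * Real.pi * -(t * (y * -(2 * Real.pi)⁻¹)) = t * y by field_simp]
      push_cast; ring
    rw [this]; push_cast; ring
  · simp

lemma not_ge_window {c δ : ℝ} (hc : 0 < c) (hδ : 0 < δ) :
    ∀ᶠ y in atTop, ∃ u, |y - u| ≤ δ ∧ h u < c := by
  set C := (B + c) * (4 * (1 + 1 / δ ^ 2)) with hC
  have hB0 : 0 ≤ B := (abs_nonneg _).trans (hB 0)
  obtain ⟨L, hL1, hL2⟩ : ∃ L : ℝ, 0 < L ∧ C * Real.pi + 1 ≤ c * (L / 3) :=
    ⟨3 * (C * Real.pi + 1) / c, by positivity, le_of_eq (by field_simp)⟩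
  filter_upwards [(conv_tendsto hm hB hG hL hL1.le).eventually_lt_const one_pos,
    eventually_gt_atTop δ] with y h1 h2
  by_contra hcon
  push Not at hcon
  rw [← integral_indicator measurableSet_Ioi] at h1
  have h3 : ∫ u, (c * fej L (y - u) - C * (1 + (y - u) ^ 2)⁻¹) ≤
      ∫ u, (Ioi 0).indicator (fun u => h u * fej L (y - u)) u := by
    refine integral_mono ((((integrable_fej L).comp_sub_left y).const_mul c).sub
      ((integrable_inv_one_add_sq.comp_sub_left y).const_mul C))
      ((((integrable_fej L).comp_sub_left y).bdd_mul hm.aestronglyMeasurable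
        (Eventually.of_forall hB)).indicator measurableSet_Ioi) (fun u => ?_)
    have a1 := fej_nonneg L (y - u)
    have a2 : 0 ≤ C * (1 + (y - u) ^ 2)⁻¹ := by positivity
    by_cases hu : |y - u| ≤ δ
    · simp only
      rw [indicator_of_mem (show u ∈ Ioi 0 by rw [mem_Ioi]; linarith [(abs_le.1 hu).2])]
      nlinarith [hcon u hu]
    · have a3 : (B + c) * fej L (y - u) ≤ C * (1 + (y - u) ^ 2)⁻¹ := by
        rw [hC, mul_assoc, ← div_eq_mul_inv]
        refine mul_le_mul_of_nonneg_left ?_ (by positivity)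
        rw [le_div_iff₀ (by positivity)]
        have b1 := fej_mul_le L (y - u)
        have b2 : δ ^ 2 ≤ (y - u) ^ 2 := by
          rw [← sq_abs (y - u)]; exact pow_le_pow_left₀ hδ.le (not_le.1 hu).le 2
        have b3 : fej L (y - u) ≤ 4 * (1 / δ ^ 2) := by
          rw [mul_one_div, le_div_iff₀ (by positivity)]; nlinarith
        nlinarith
      simp only [indicator]
      split_ifs <;> nlinarith [(abs_le.1 (hB u)).1]
  rw [integral_sub (((integrable_fej L).comp_sub_left y).const_mul c)
    ((integrable_inv_one_add_sq.comp_sub_left y).const_mul C), integral_const_mul,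
    integral_const_mul, integral_sub_left_eq_self (fej L),
    integral_sub_left_eq_self (fun v : ℝ => (1 + v ^ 2)⁻¹), integral_univ_inv_one_add_sq] at h3
  nlinarith [le_integral_fej hL1]

end Tauber

/-- The Wiener-Ikehara theorem for nonnegative coefficients with a Chebyshev bound. -/
theorem wiener_ikehara {f : ℕ → ℝ} (hf : ∀ n, 0 ≤ f n) {C A : ℝ}
    (hC : ∀ n : ℕ, ∑ k ∈ Finset.Icc 1 n, f k ≤ C * n) {G : ℂ → ℂ}
    (hG : ContinuousOn G {s | 1 ≤ s.re})
    (hL : ∀ s : ℂ, 1 < s.re → G s = LSeries (fun n => f n) s - A / (s - 1)) :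
    Tendsto (fun x : ℝ => (∑ k ∈ Finset.Icc 1 ⌊x⌋₊, f k) / x) atTop (𝓝 A) := by
  set S : ℝ → ℝ := fun x => ∑ k ∈ Finset.Icc 1 ⌊x⌋₊, f k with hS
  have hS0 : ∀ x, 0 ≤ S x := fun x => Finset.sum_nonneg (fun _ _ => hf _)
  have hSm : Monotone S := fun x y h => Finset.sum_le_sum_of_subset_of_nonneg
    (Finset.Icc_subset_Icc_right (Nat.floor_mono h)) (fun _ _ _ => hf _)
  have hC0 : 0 ≤ C := by simpa using (hf 1).trans (by simpa using hC 1)
  set H : ℝ → ℝ := fun u => S (Real.exp u) / Real.exp u with hH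
  have hH0 : ∀ u, 0 ≤ H u := fun u => div_nonneg (hS0 _) (Real.exp_pos _).le
  have hHC : ∀ u, H u ≤ C := fun u => (div_le_iff₀ (Real.exp_pos _)).2
    ((hC _).trans (mul_le_mul_of_nonneg_left (Nat.floor_le (Real.exp_pos _).le) hC0))
  have hHm : Measurable H := (hSm.measurable.comp Real.measurable_exp).div Real.measurable_exp
  have hB : ∀ u, |H u - A| ≤ C + |A| := fun u =>
    (abs_sub _ _).trans (by rw [abs_of_nonneg (hH0 u)]; linarith [hHC u])
  have hG' : ContinuousOn (fun z => (G (1 + z) - A) / (1 + z)) {z : ℂ | 0 ≤ z.re} := by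
    refine ((hG.comp (by fun_prop) (fun z hz => by simpa using hz)).sub continuousOn_const).div
      (by fun_prop) (fun z hz h => ?_)
    have := congrArg re h
    simp only [add_re, one_re, zero_re] at this
    linarith [show 0 ≤ z.re from hz]
  have hL' : ∀ z : ℂ, 0 < z.re → ∫ u in Ioi (0 : ℝ), ((H u - A : ℝ) : ℂ) * exp (-z * u) =
      (G (1 + z) - A) / (1 + z) := by
    intro z hz
    have hz0 : z ≠ 0 := ne_zero_of_re_pos hz
    have hz1 : 1 + z ≠ 0 := ne_zero_of_re_pos (by simp; linarith)
    have h1 := LSeries_eq_mul_integral_of_nonneg f zero_le_one (s := 1 + z) (by simpa using hz)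
      (Asymptotics.IsBigO.of_bound C (Eventually.of_forall (fun n => by
        rw [Real.norm_of_nonneg (Finset.sum_nonneg (fun _ _ => hf _))]
        simpa using hC n))) hf
    rw [← Real.exp_zero, ← integral_comp_exp_Ioi] at h1
    have h2 : ∫ u in Ioi (0 : ℝ), (H u : ℂ) * exp (-z * u) =
        LSeries (fun n => f n) (1 + z) / (1 + z) := by
      rw [h1, mul_div_cancel_left₀ _ hz1]
      refine integral_congr_ae (Eventually.of_forall (fun u => ?_))
      simp only [hH, hS, real_smul]
      push_cast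
      have hlog : log (exp (u : ℂ)) = u := by
        rw [← ofReal_exp, ← ofReal_log (Real.exp_pos _).le, Real.log_exp]
      rw [cpow_def_of_ne_zero (exp_ne_zero _), hlog,
        show (u : ℂ) * -(1 + z + 1) = -z * u - u - u by ring, exp_sub, exp_sub]
      field_simp
    have h3 := integrableOn_exp_mul_complex_Ioi (a := -z) (by simpa using hz) 0
    simp only [ofReal_sub, sub_mul]
    rw [integral_sub (h3.bdd_mul (c := C) (by fun_prop) (Eventually.of_forall (fun u => by
      rw [norm_real, Real.norm_of_nonneg (hH0 u)]; exact hHC u))) (h3.const_mul _), h2,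
      integral_const_mul, integral_exp_mul_complex_Ioi (by simpa using hz),
      hL _ (by simpa using hz)]
    simp only [ofReal_zero, mul_zero, exp_zero, add_sub_cancel_left]
    field_simp
    ring
  have hslow : ∀ u v, u ≤ v → H u * Real.exp (u - v) ≤ H v := by
    intro u v huv
    rw [hH, Real.exp_sub]
    simp only
    rw [div_mul_div_cancel₀ (Real.exp_pos _).ne']
    exact div_le_div_of_nonneg_right (hSm (Real.exp_le_exp.2 huv)) (Real.exp_pos _).le
  have hlim : Tendsto H atTop (𝓝 A) := by
    rw [Metric.tendsto_nhds]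
    intro ε hε
    set δ := ε / (4 * (C + 1)) with hδ
    have hδ0 : 0 < δ := by positivity
    have hδ1 : C * (2 * δ) ≤ ε / 2 := by
      rw [hδ, ← mul_assoc, mul_div_assoc', div_le_div_iff₀ (by positivity) (by positivity)]
      nlinarith
    have hs : ∀ u v, u ≤ v → v ≤ u + 2 * δ → H u - ε / 2 ≤ H v := by
      intro u v h1 h2
      have := Real.add_one_le_exp (u - v)
      nlinarith [hslow u v h1, hH0 u, hHC u]
    have e1 := not_ge_window (hHm.sub_const A) hB hG' hL' (half_pos hε) hδ0
    have e2 := not_ge_window (h := fun u => -(H u - A)) (hHm.sub_const A).neg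
      (fun u => by rw [abs_neg]; exact hB u) hG'.neg (fun z hz => by
        rw [Pi.neg_apply, ← hL' z hz, ← integral_neg]
        simp only [ofReal_neg, neg_mul]) (half_pos hε) hδ0
    filter_upwards [(tendsto_atTop_add_const_right _ δ tendsto_id).eventually e1,
      (tendsto_atTop_add_const_right _ (-δ) tendsto_id).eventually e2] with y ⟨u, a1, a2⟩ ⟨v, b1, b2⟩
    simp only [id, abs_le] at a1 b1
    have := hs y u (by linarith [a1.2]) (by linarith [a1.1])
    have := hs v y (by linarith [b1.1]) (by linarith [b1.2])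
    rw [Real.dist_eq, abs_lt]
    constructor <;> linarith
  refine (hlim.comp Real.tendsto_log_atTop).congr' ?_
  filter_upwards [eventually_gt_atTop 0] with x hx
  simp only [Function.comp, hH, Real.exp_log hx, hS]

open ArithmeticFunction in
/-- prime number theorem in arithmetic progressions, von Mangoldt form -/
theorem psi_ap {q : ℕ} [NeZero q] {a : ZMod q} (ha : IsUnit a) :
    Tendsto (fun x : ℝ => (∑ k ∈ Finset.Icc 1 ⌊x⌋₊, vonMangoldt.residueClass a k) / x) atTop
      (𝓝 (q.totient : ℝ)⁻¹) := by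
  refine wiener_ikehara (vonMangoldt.residueClass_nonneg a) (C := Real.log 4 + 4) (fun n => ?_)
    (vonMangoldt.continuousOn_LFunctionResidueClassAux a) (fun s hs => ?_)
  · refine le_trans ?_ (Chebyshev.psi_le_const_mul_self (Nat.cast_nonneg n))
    rw [Chebyshev.psi, Nat.floor_natCast]
    exact Finset.sum_le_sum (fun k _ => vonMangoldt.residueClass_le a k)
  · rw [vonMangoldt.eqOn_LFunctionResidueClassAux ha hs]
    simp

/-- the sum of `log p` over primes `p ≤ x` in the class `a` -/
def thetaAP {q : ℕ} (a : ZMod q) (x : ℝ) : ℝ :=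
  ∑ p ∈ (Finset.Icc 1 ⌊x⌋₊).filter (fun p : ℕ => p.Prime ∧ (p : ZMod q) = a), Real.log p

open ArithmeticFunction in
/-- prime number theorem in arithmetic progressions, Chebyshev theta form -/
theorem theta_ap {q : ℕ} [NeZero q] {a : ZMod q} (ha : IsUnit a) :
    Tendsto (fun x : ℝ => thetaAP a x / x) atTop (𝓝 (q.totient : ℝ)⁻¹) := by
  have h0 : Tendsto (fun x : ℝ => (Chebyshev.psi x - Chebyshev.theta x) / x) atTop (𝓝 0) := by
    have h1 := ((isLittleO_log_rpow_atTop (r := 1 / 2) (by norm_num)).tendsto_div_nhds_zero).const_mul 2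
    rw [mul_zero] at h1
    refine squeeze_zero' ?_ ?_ h1
    · filter_upwards [eventually_ge_atTop 0] with x hx
      exact div_nonneg (sub_nonneg.2 (Chebyshev.theta_le_psi x)) hx
    · filter_upwards [eventually_ge_atTop 1] with x hx
      refine (div_le_div_of_nonneg_right (Chebyshev.psi_sub_theta_le hx) (by linarith)).trans
        (le_of_eq ?_)
      rw [← Real.sqrt_eq_rpow]
      have h2 : 0 < √x := Real.sqrt_pos.2 (by linarith)
      nth_rewrite 3 [← Real.mul_self_sqrt (show 0 ≤ x by linarith)]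
      field_simp
  have h2 : ∀ x : ℝ, thetaAP a x = ∑ k ∈ Finset.Icc 1 ⌊x⌋₊,
      if k.Prime then vonMangoldt.residueClass a k else 0 := by
    intro x
    rw [thetaAP, Finset.sum_filter]
    refine Finset.sum_congr rfl (fun k _ => ?_)
    by_cases h1 : k.Prime <;> by_cases h2 : (k : ZMod q) = a <;>
      simp [h1, h2, vonMangoldt_apply_prime]
  refine tendsto_of_tendsto_of_tendsto_of_le_of_le' (by simpa using (psi_ap ha).sub h0) (psi_ap ha)
    ?_ ?_
  · filter_upwards [eventually_ge_atTop 0] with x hx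
    rw [← sub_div]
    refine div_le_div_of_nonneg_right ?_ hx
    rw [h2, Chebyshev.psi, Chebyshev.theta, Finset.sum_filter, ← Finset.sum_sub_distrib,
      show Finset.Ioc 0 ⌊x⌋₊ = Finset.Icc 1 ⌊x⌋₊ from rfl, ← Finset.sum_sub_distrib]
    refine Finset.sum_le_sum (fun k _ => ?_)
    split_ifs with h
    · rw [vonMangoldt_apply_prime h]; simp
    · linarith [vonMangoldt.residueClass_le a k]
  · filter_upwards [eventually_ge_atTop 0] with x hx
    refine div_le_div_of_nonneg_right ?_ hx
    rw [h2]
    refine Finset.sum_le_sum (fun k _ => ?_)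
    split_ifs
    · exact le_rfl
    · exact vonMangoldt.residueClass_nonneg a k

/-- scaled form: the sum of `log p` over primes `p ≤ c n` in the class `a` -/
theorem theta_ap_mul {q : ℕ} [NeZero q] {a : ZMod q} (ha : IsUnit a) {c : ℝ} (hc : 0 < c) :
    Tendsto (fun x : ℝ => thetaAP a (c * x) / x) atTop (𝓝 (c * (q.totient : ℝ)⁻¹)) := by
  refine (((theta_ap ha).comp (tendsto_id.const_mul_atTop hc)).const_mul c).congr' ?_
  filter_upwards [eventually_gt_atTop 0] with x hx
  simp only [Function.comp, id]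
  field_simp

/-- the prime number theorem -/
theorem theta_pnt : Tendsto (fun x : ℝ => Chebyshev.theta x / x) atTop (𝓝 1) := by
  have := theta_ap (q := 1) (a := 1) isUnit_one
  simp only [Nat.totient_one, Nat.cast_one, inv_one] at this
  refine this.congr (fun x => ?_)
  rw [thetaAP, Chebyshev.theta]
  simp only [Subsingleton.elim _ (1 : ZMod 1), and_true]
  rfl

end

end Pool.Agent.Shared.PNTAP
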