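import Mathlib

/-! For a number field `L`, the sum of `N P ^ (-s)` over the prime ideals of degree one is
asymptotic to `log (1 / (s - 1))` as `s → 1⁺`. -/

namespace Pool.Agent.Shared.PrimeZeta

open Finset Filter Topology NumberField Ideal

variable (L : Type*) [Field L] [NumberField L]

/-- The number of ideals of norm `n`. -/
noncomputable def nI (n : ℕ) : ℕ := Nat.card {I : Ideal (𝓞 L) // absNorm I = n}

/-- The sum of `c p * p ^ (-s)` over all primes `p`. -/
noncomputable def psum (c : ℕ → ℝ) (s : ℝ) : ℝ :=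
  ∑' n : ℕ, if n.Prime then c n * (n : ℝ) ^ (-s) else 0

/-- The ideals of norm `n`. -/
noncomputable def idl (n : ℕ) : Finset (Ideal (𝓞 L)) := (finite_setOfPred_absNorm_eq n).toFinset

variable {L}

theorem mem_idl {n : ℕ} {I : Ideal (𝓞 L)} : I ∈ idl L n ↔ absNorm I = n := by simp [idl]

theorem card_idl (n : ℕ) : (idl L n).card = nI L n := by
  rw [nI, idl, ← Set.ncard_eq_toFinset_card _ (finite_setOfPred_absNorm_eq n)]
  rfl

open scoped Classical in
theorem sum_biUnion_idl (S : Finset ℕ) (φ : ℕ → ℝ) :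
    ∑ I ∈ S.biUnion (idl L), φ (absNorm I) = ∑ n ∈ S, nI L n * φ n := by
  rw [sum_biUnion]
  · refine sum_congr rfl fun n _ => ?_
    rw [sum_congr rfl fun I hI => by rw [mem_idl.1 hI]]
    simp [card_idl]
  · intro a _ b _ hab
    simp only [Function.onFun]
    rw [disjoint_left]
    intro I h1 h2
    exact hab ((mem_idl.1 h1).symm.trans (mem_idl.1 h2))

theorem sum_le_tsum_idl (F : Finset (Ideal (𝓞 L))) (φ : ℕ → ℝ) (h0 : ∀ n, 0 ≤ φ n)
    (hs : Summable fun n => (nI L n : ℝ) * φ n) :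
    ∑ I ∈ F, φ (absNorm I) ≤ ∑' n, (nI L n : ℝ) * φ n := by
  classical
  calc ∑ I ∈ F, φ (absNorm I) ≤ ∑ I ∈ (F.image absNorm).biUnion (idl L), φ (absNorm I) := by
        refine sum_le_sum_of_subset_of_nonneg (fun I hI => ?_) fun _ _ _ => h0 _
        exact mem_biUnion.2 ⟨_, mem_image_of_mem _ hI, mem_idl.2 rfl⟩
    _ = _ := sum_biUnion_idl _ _
    _ ≤ _ := hs.sum_le_tsum _ fun n _ => mul_nonneg (by positivity) (h0 n)

theorem pr_spec (P : Ideal (𝓞 L)) (hP : P.IsMaximal) :
    (absNorm P).minFac.Prime ∧ (((absNorm P).minFac : ℕ) : 𝓞 L) ∈ P ∧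
      ∃ n, 0 < n ∧ absNorm P = (absNorm P).minFac ^ n := by
  obtain ⟨p, n, hn, hpP, hp, h⟩ := exists_prime_and_absNorm_eq_pow P
  have : (absNorm P).minFac = p := by rw [h, hp.pow_minFac hn.ne']
  rw [this]
  exact ⟨hp, hpP, n, hn, h⟩

theorem card_le_finrank (T : Finset (Ideal (𝓞 L))) (q : ℕ) (hT : ∀ P ∈ T, P.IsMaximal)
    (hq : ∀ P ∈ T, (absNorm P).minFac = q) : T.card ≤ Module.finrank ℤ (𝓞 L) := by
  rcases T.eq_empty_or_nonempty with rfl | ⟨P₀, h₀⟩
  · simp
  have hqp : q.Prime := hq P₀ h₀ ▸ (pr_spec P₀ (hT P₀ h₀)).1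
  have h1 : ∏ P ∈ T, P ∣ span {(q : 𝓞 L)} := by
    refine Finset.prod_dvd_of_coprime (fun P hP Q hQ hne => ?_) fun P hP => ?_
    · have := hT P hP
      have := hT Q hQ
      exact isCoprime_of_isMaximal hne
    · rw [dvd_iff_le, span_singleton_le_iff_mem, ← hq P hP]
      exact (pr_spec P (hT P hP)).2.1
  have h2 := map_dvd absNorm h1
  rw [map_prod, absNorm_span_natCast] at h2
  have h3 : q ^ T.card ∣ ∏ P ∈ T, absNorm P := by
    rw [← prod_const]
    exact prod_dvd_prod_of_dvd _ _ fun P hP => hq P hP ▸ Nat.minFac_dvd _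
  exact (Nat.pow_dvd_pow_iff_le_right hqp.one_lt).1 (h3.trans h2)

theorem nI_le {p : ℕ} (hp : p.Prime) : nI L p ≤ Module.finrank ℤ (𝓞 L) := by
  rw [← card_idl]
  refine card_le_finrank _ p (fun P hP => ?_) fun P hP => by rw [mem_idl.1 hP, hp.minFac_eq]
  have h := mem_idl.1 hP
  refine (isPrime_of_irreducible_absNorm (h ▸ hp)).isMaximal ?_
  rintro rfl
  rw [absNorm_bot] at h
  exact hp.ne_zero h.symm

theorem sum_inv_sq_le (S : Finset ℕ) : ∑ n ∈ S, 1 / (n : ℝ) ^ 2 ≤ 2 := by
  refine (sum_le_hasSum S (fun _ _ => by positivity) hasSum_zeta_two).trans ?_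
  have := Real.pi_lt_d2
  have := Real.pi_pos
  nlinarith

theorem sum_pr_le (T : Finset (Ideal (𝓞 L))) (hT : ∀ P ∈ T, P.IsMaximal) :
    ∑ P ∈ T, 1 / ((absNorm P).minFac : ℝ) ^ 2 ≤ 2 * (Module.finrank ℤ (𝓞 L) : ℝ) := by
  classical
  rw [← sum_fiberwise_of_maps_to (g := fun P : Ideal (𝓞 L) => (absNorm P).minFac)
    (t := T.image fun P => (absNorm P).minFac) fun P hP => mem_image_of_mem _ hP]
  calc _ ≤ ∑ q ∈ T.image fun P => (absNorm P).minFac,
          (Module.finrank ℤ (𝓞 L) : ℝ) * (1 / (q : ℝ) ^ 2) := by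
        refine sum_le_sum fun q _ => ?_
        rw [sum_congr rfl fun P hP => by rw [(mem_filter.1 hP).2], sum_const, nsmul_eq_mul]
        gcongr
        exact card_le_finrank _ q (fun P hP => hT P (mem_filter.1 hP).1)
          fun P hP => (mem_filter.1 hP).2
    _ ≤ _ := by
        rw [← mul_sum, mul_comm]
        gcongr
        exact sum_inv_sq_le _

theorem prod_one_add_le {s : ℝ} (hs : Summable fun n => (nI L n : ℝ) * (n : ℝ) ^ (-s))
    (T : Finset (Ideal (𝓞 L))) (hT : ∀ P ∈ T, P.IsMaximal) (hT0 : ∀ P ∈ T, P ≠ ⊥) :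
    ∏ P ∈ T, (1 + (absNorm P : ℝ) ^ (-s)) ≤ ∑' n, (nI L n : ℝ) * (n : ℝ) ^ (-s) := by
  classical
  rw [prod_one_add]
  have inj : Set.InjOn (fun U : Finset (Ideal (𝓞 L)) => ∏ P ∈ U, P) T.powerset := by
    have key : ∀ U ∈ T.powerset, ∀ V ∈ T.powerset, ∏ P ∈ U, P = ∏ P ∈ V, P → U ⊆ V := by
      intro U hU V hV h P hP
      have hPT := mem_powerset.1 hU hP
      have hp : Prime P := prime_of_isPrime (hT0 P hPT) (hT P hPT).isPrime
      have : P ∣ ∏ P ∈ V, P := h ▸ dvd_prod_of_mem _ hP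
      obtain ⟨Q, hQ, hPQ⟩ := (hp.dvd_finsetProd_iff _).1 this
      have := (hT Q (mem_powerset.1 hV hQ)).eq_of_le (hT P hPT).ne_top (dvd_iff_le.1 hPQ)
      exact this ▸ hQ
    intro U hU V hV h
    exact Subset.antisymm (key U hU V hV h) (key V hV U hU h.symm)
  refine le_trans (le_of_eq ?_) (sum_le_tsum_idl (T.powerset.image fun U => ∏ P ∈ U, P)
    (fun n => (n : ℝ) ^ (-s)) (fun n => by positivity) hs)
  rw [sum_image inj]
  refine sum_congr rfl fun U _ => ?_
  rw [map_prod, Nat.cast_prod, Real.finsetProd_rpow _ _ fun _ _ => by positivity]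

theorem two_le_absNorm (P : Ideal (𝓞 L)) (hP : P.IsMaximal) : 2 ≤ absNorm P := by
  obtain ⟨h1, -, n, hn, h⟩ := pr_spec P hP
  rw [h]
  exact h1.two_le.trans (Nat.le_self_pow hn.ne' _)

theorem rpow_le_half (P : Ideal (𝓞 L)) (hP : P.IsMaximal) {s : ℝ} (hs : 1 ≤ s) :
    (absNorm P : ℝ) ^ (-s) ≤ 1 / 2 := by
  have h2 : (2 : ℝ) ≤ absNorm P := by exact_mod_cast two_le_absNorm P hP
  calc (absNorm P : ℝ) ^ (-s) ≤ (absNorm P : ℝ) ^ (-1 : ℝ) :=
        Real.rpow_le_rpow_of_exponent_le (by linarith) (by linarith)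
    _ = 1 / absNorm P := by rw [Real.rpow_neg_one, one_div]
    _ ≤ 1 / 2 := by gcongr

theorem sum_le_prod_inv {s : ℝ} (hs : 1 ≤ s) (T : Finset (Ideal (𝓞 L))) :
    (∀ P ∈ T, P.IsMaximal) → ∀ F : Finset (Ideal (𝓞 L)), (∀ I ∈ F, I ≠ ⊥) →
      (∀ I ∈ F, ∀ P : Ideal (𝓞 L), P.IsMaximal → I ≤ P → P ∈ T) →
      ∑ I ∈ F, (absNorm I : ℝ) ^ (-s) ≤ ∏ P ∈ T, (1 - (absNorm P : ℝ) ^ (-s))⁻¹ := by
  classical
  induction T using Finset.induction_on with
  | empty =>
    intro _ F _ h
    have : F ⊆ {⊤} := by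
      intro I hI
      rw [mem_singleton]
      by_contra hne
      obtain ⟨P, hP, hle⟩ := exists_le_maximal I hne
      simpa using h I hI P hP hle
    refine (sum_le_sum_of_subset_of_nonneg this fun _ _ _ => by positivity).trans ?_
    simp
  | insert P T hPT ih =>
    intro hT
    have hP := hT P (mem_insert_self _ _)
    have ih := ih fun Q hQ => hT Q (mem_insert_of_mem hQ)
    rw [prod_insert hPT]
    set B := ∏ P ∈ T, (1 - (absNorm P : ℝ) ^ (-s))⁻¹ with hB
    set x := (absNorm P : ℝ) ^ (-s) with hx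
    have x0 : 0 ≤ x := by positivity
    have x1 : x ≤ 1 / 2 := rpow_le_half P hP hs
    suffices h : ∀ M : ℕ, ∀ F : Finset (Ideal (𝓞 L)), (∀ I ∈ F, absNorm I ≤ M) →
        (∀ I ∈ F, I ≠ ⊥) → (∀ I ∈ F, ∀ Q : Ideal (𝓞 L), Q.IsMaximal → I ≤ Q → Q ∈ insert P T) →
        ∑ I ∈ F, (absNorm I : ℝ) ^ (-s) ≤ (1 - x)⁻¹ * B from
      fun F => h (F.sup absNorm) F fun I hI => le_sup (f := absNorm) hI
    have B0 : 0 ≤ B := le_trans (by simp) (ih ∅ (by simp) (by simp))
    intro M
    induction M with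
    | zero =>
      intro F h1 h2 _
      have : F = ∅ := by
        rw [eq_empty_iff_forall_notMem]
        intro I hI
        exact h2 I hI (absNorm_eq_zero_iff.1 (Nat.le_zero.1 (h1 I hI)))
      rw [this, sum_empty]
      exact mul_nonneg (inv_nonneg.2 (by linarith)) B0
    | succ M ihM =>
      intro F h1 h2 h3
      rw [← sum_filter_add_sum_filter_not F fun I => P ∣ I]
      have e2 : ∑ I ∈ F.filter fun I => ¬P ∣ I, (absNorm I : ℝ) ^ (-s) ≤ B := by
        refine ih _ (fun I hI => h2 I (mem_filter.1 hI).1) fun I hI Q hQ hle => ?_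
        rcases mem_insert.1 (h3 I (mem_filter.1 hI).1 Q hQ hle) with rfl | h
        · exact ((mem_filter.1 hI).2 (dvd_iff_le.2 hle)).elim
        · exact h
      have ex : ∀ I : Ideal (𝓞 L), P ∣ I → ∃ J, I = P * J := fun I h => h
      choose! J hJ using ex
      have e1 : ∑ I ∈ F.filter fun I => P ∣ I, (absNorm I : ℝ) ^ (-s) ≤ x * ((1 - x)⁻¹ * B) := by
        have inj : Set.InjOn J (F.filter fun I => P ∣ I) := by
          intro I hI I' hI' h
          rw [hJ I (mem_filter.1 hI).2, hJ I' (mem_filter.1 hI').2, h]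
        have := ihM ((F.filter fun I => P ∣ I).image J) ?_ ?_ ?_
        · rw [sum_image inj] at this
          refine le_trans (le_of_eq ?_) (mul_le_mul_of_nonneg_left this x0)
          rw [mul_sum]
          refine sum_congr rfl fun I hI => ?_
          conv_lhs => rw [hJ I (mem_filter.1 hI).2]
          rw [map_mul, Nat.cast_mul, Real.mul_rpow (by positivity) (by positivity)]
        · intro I' hI'
          obtain ⟨I, hI, rfl⟩ := mem_image.1 hI'
          have a1 := h1 I (mem_filter.1 hI).1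
          rw [hJ I (mem_filter.1 hI).2, map_mul] at a1
          have a2 := two_le_absNorm P hP
          by_contra hc
          nlinarith
        · intro I' hI' h0
          obtain ⟨I, hI, rfl⟩ := mem_image.1 hI'
          apply h2 I (mem_filter.1 hI).1
          rw [hJ I (mem_filter.1 hI).2, h0, Ideal.mul_bot]
        · intro I' hI' Q hQ hle
          obtain ⟨I, hI, rfl⟩ := mem_image.1 hI'
          refine h3 I (mem_filter.1 hI).1 Q hQ ?_
          rw [hJ I (mem_filter.1 hI).2]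
          exact Ideal.mul_le_right.trans hle
      have : x * ((1 - x)⁻¹ * B) + B = (1 - x)⁻¹ * B := by
        have : 1 - x ≠ 0 := by linarith
        field_simp; ring
      linarith

theorem summable_psum {c : ℕ → ℝ} {B : ℝ} (hc : ∀ p, p.Prime → |c p| ≤ B) {s : ℝ} (hs : 1 < s) :
    Summable fun n : ℕ => if n.Prime then c n * (n : ℝ) ^ (-s) else 0 := by
  have B0 : 0 ≤ B := (abs_nonneg _).trans (hc 2 Nat.prime_two)
  refine Summable.of_norm_bounded (g := fun n : ℕ => B * (n : ℝ) ^ (-s))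
    ((Real.summable_nat_rpow.2 (by linarith)).mul_left B) fun n => ?_
  split_ifs with h
  · rw [norm_mul, Real.norm_eq_abs, Real.norm_of_nonneg (by positivity)]
    gcongr
    exact hc n h
  · simp only [norm_zero]; positivity

theorem abs_nI_le (p : ℕ) (hp : p.Prime) : |(nI L p : ℝ)| ≤ Module.finrank ℤ (𝓞 L) := by
  rw [abs_of_nonneg (by positivity)]
  exact_mod_cast nI_le hp

theorem psum_le_log {s : ℝ} (hs1 : 1 < s)
    (hs : Summable fun n => (nI L n : ℝ) * (n : ℝ) ^ (-s)) :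
    psum (fun n => nI L n) s ≤
      Real.log (∑' n, (nI L n : ℝ) * (n : ℝ) ^ (-s)) + 2 * Module.finrank ℤ (𝓞 L) := by
  classical
  refine (summable_psum abs_nI_le hs1).tsum_le_of_sum_le fun S => ?_
  rw [← sum_filter, ← sum_biUnion_idl (S.filter Nat.Prime) fun n => (n : ℝ) ^ (-s)]
  set T := (S.filter Nat.Prime).biUnion (idl L) with hTd
  have hp : ∀ P ∈ T, (absNorm P).Prime := by
    intro P hP
    obtain ⟨p, hp, h⟩ := mem_biUnion.1 hP
    rw [mem_idl.1 h]; exact (mem_filter.1 hp).2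
  have hT0 : ∀ P ∈ T, P ≠ ⊥ := by
    rintro P hP rfl
    exact (hp _ hP).ne_zero absNorm_bot
  have hT : ∀ P ∈ T, P.IsMaximal := fun P hP =>
    (isPrime_of_irreducible_absNorm (hp P hP)).isMaximal (hT0 P hP)
  have h1 := prod_one_add_le hs T hT hT0
  have h2 : ∑ P ∈ T, Real.log (1 + (absNorm P : ℝ) ^ (-s)) ≤
      Real.log (∑' n, (nI L n : ℝ) * (n : ℝ) ^ (-s)) := by
    rw [← Real.log_prod fun P _ => by positivity]
    exact Real.log_le_log (prod_pos fun P _ => by positivity) h1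
  have h3 := sum_pr_le T hT
  refine le_trans ?_ (add_le_add h2 h3)
  rw [← sum_add_distrib]
  refine sum_le_sum fun P hP => ?_
  rw [(hp P hP).minFac_eq]
  have p1 : (1 : ℝ) ≤ absNorm P := by exact_mod_cast (hp P hP).one_le
  have a1 : (absNorm P : ℝ) ^ (-s) ≤ 1 / absNorm P := by
    rw [one_div, ← Real.rpow_neg_one]
    exact Real.rpow_le_rpow_of_exponent_le p1 (by linarith)
  have a0 : 0 ≤ (absNorm P : ℝ) ^ (-s) := by positivity
  generalize (absNorm P : ℝ) ^ (-s) = x at a0 a1 ⊢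
  have a2 : x ^ 2 ≤ 1 / (absNorm P : ℝ) ^ 2 := by
    rw [← one_div_pow]; gcongr
  have a3 := Real.one_sub_inv_le_log_of_pos (x := 1 + x) (by positivity)
  have a4 : x - x ^ 2 ≤ 1 - (1 + x)⁻¹ := by
    rw [show 1 - (1 + x)⁻¹ = x / (1 + x) by field_simp; ring, le_div_iff₀ (by positivity)]
    nlinarith [pow_nonneg a0 3]
  linarith

theorem le_exp_psum {s : ℝ} (hs1 : 1 < s)
    (hs : Summable fun n => (nI L n : ℝ) * (n : ℝ) ^ (-s)) :
    ∑' n, (nI L n : ℝ) * (n : ℝ) ^ (-s) ≤
      Real.exp (psum (fun n => nI L n) s + 6 * Module.finrank ℤ (𝓞 L)) := by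
  classical
  refine hs.tsum_le_of_sum_le fun S => ?_
  rw [← sum_erase S (a := 0) (by simp [Real.zero_rpow (show -s ≠ 0 by linarith)]),
    ← sum_biUnion_idl (S.erase 0) fun n => (n : ℝ) ^ (-s)]
  set F := (S.erase 0).biUnion (idl L) with hF
  have hF0 : ∀ I ∈ F, I ≠ ⊥ := by
    rintro I hI rfl
    obtain ⟨n, hn, h⟩ := mem_biUnion.1 hI
    exact (mem_erase.1 hn).1 (by rw [← mem_idl.1 h, absNorm_bot])
  let T : Finset (Ideal (𝓞 L)) :=
    ((range (S.sup id + 1)).biUnion (idl L)).filter fun P => P.IsMaximal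
  have hT : ∀ P ∈ T, P.IsMaximal := fun P hP => (mem_filter.1 hP).2
  refine (sum_le_prod_inv hs1.le T hT F hF0 fun I hI P hP hle => ?_).trans ?_
  · refine mem_filter.2 ⟨mem_biUnion.2 ⟨absNorm P, ?_, mem_idl.2 rfl⟩, hP⟩
    obtain ⟨n, hn, h⟩ := mem_biUnion.1 hI
    have h1 : absNorm P ≤ absNorm I := Nat.le_of_dvd
      (Nat.pos_of_ne_zero fun h0 => hF0 I hI (absNorm_eq_zero_iff.1 h0))
      (absNorm_dvd_absNorm_of_le hle)
    have h2 : n ≤ S.sup id := le_sup (f := id) (mem_erase.1 hn).2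
    rw [mem_idl.1 h] at h1
    exact mem_range.2 (by omega)
  have h1 : ∑ P ∈ T, (if (absNorm P).Prime then (absNorm P : ℝ) ^ (-s) else 0) ≤
      psum (fun n => nI L n) s := by
    have := sum_le_tsum_idl T (fun n => if n.Prime then (n : ℝ) ^ (-s) else 0)
      (fun n => by positivity) (by simpa using summable_psum abs_nI_le hs1)
    simpa [psum] using this
  have h3 := sum_pr_le T hT
  calc ∏ P ∈ T, (1 - (absNorm P : ℝ) ^ (-s))⁻¹
      ≤ ∏ P ∈ T, Real.exp ((if (absNorm P).Prime then (absNorm P : ℝ) ^ (-s) else 0) +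
          3 * (1 / ((absNorm P).minFac : ℝ) ^ 2)) := by
        refine prod_le_prod (fun P hP => ?_) fun P hP => ?_
        · have := rpow_le_half P (hT P hP) hs1.le
          exact inv_nonneg.2 (by linarith)
        have x1 := rpow_le_half P (hT P hP) hs1.le
        obtain ⟨q1, -, n, hn, hq⟩ := pr_spec P (hT P hP)
        have p1 : (1 : ℝ) ≤ absNorm P := by
          exact_mod_cast (two_le_absNorm P (hT P hP)).trans' one_le_two
        have a1 : (absNorm P : ℝ) ^ (-s) ≤ 1 / absNorm P := by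
          rw [one_div, ← Real.rpow_neg_one]
          exact Real.rpow_le_rpow_of_exponent_le p1 (by linarith)
        have q0 : (0 : ℝ) < (absNorm P).minFac := by exact_mod_cast q1.pos
        have a2 : ((absNorm P : ℝ) ^ (-s)) ^ 2 ≤ 1 / ((absNorm P).minFac : ℝ) ^ 2 := by
          rw [← one_div_pow]
          gcongr
          refine a1.trans ?_
          gcongr
          exact Nat.minFac_le (by exact_mod_cast p1)
        have a3 : (absNorm P : ℝ) ^ (-s) ≤ (if (absNorm P).Prime then (absNorm P : ℝ) ^ (-s) else 0)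
            + 1 / ((absNorm P).minFac : ℝ) ^ 2 := by
          split_ifs with h
          · exact le_add_of_nonneg_right (by positivity)
          · rw [zero_add]
            refine a1.trans ?_
            have : n ≠ 1 := by
              rintro rfl
              rw [pow_one] at hq
              exact h (hq ▸ q1)
            have : (absNorm P).minFac ^ 2 ≤ absNorm P := by
              conv_rhs => rw [hq]
              exact Nat.pow_le_pow_right q1.pos (by omega)
            gcongr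
            exact_mod_cast this
        have a0 : 0 ≤ (absNorm P : ℝ) ^ (-s) := by positivity
        generalize (absNorm P : ℝ) ^ (-s) = x at a0 a2 a3 x1 ⊢
        calc (1 - x)⁻¹ ≤ 1 + (x + 2 * x ^ 2) := by
              rw [inv_le_iff_one_le_mul₀ (by linarith)]
              nlinarith [mul_nonneg (sq_nonneg x) (show 0 ≤ 1 - 2 * x by linarith)]
          _ ≤ Real.exp (x + 2 * x ^ 2) := by rw [add_comm]; exact Real.add_one_le_exp _
          _ ≤ _ := Real.exp_le_exp.2 (by linarith)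
    _ ≤ _ := by
        rw [← Real.exp_sum, sum_add_distrib, ← mul_sum]
        exact Real.exp_le_exp.2 (by linarith)

theorem zeta_real (L : Type*) [Field L] [NumberField L] :
    (∀ᶠ s : ℝ in 𝓝[>] 1, Summable fun n => (nI L n : ℝ) * (n : ℝ) ^ (-s)) ∧
    Tendsto (fun s : ℝ => (s - 1) * ∑' n, (nI L n : ℝ) * (n : ℝ) ^ (-s)) (𝓝[>] 1)
      (𝓝 (dedekindZeta_residue L)) := by
  have h := tendsto_sub_one_mul_dedekindZeta_nhdsGT L
  have e : ∀ s : ℝ, 1 < s → ∀ n, LSeries.term
      (fun n => (Nat.card {I : Ideal (𝓞 L) // absNorm I = n} : ℂ)) s n =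
      (((nI L n : ℝ) * (n : ℝ) ^ (-s) : ℝ) : ℂ) := by
    intro s hs n
    rw [LSeries.term_def]
    split_ifs with h0
    · simp [h0, Real.zero_rpow (show -s ≠ 0 by linarith)]
    · rw [Complex.ofReal_mul, Complex.ofReal_cpow (by positivity), Complex.ofReal_neg,
        Complex.cpow_neg, div_eq_mul_inv]
      simp [nI]
  have e' : ∀ s : ℝ, 1 < s → dedekindZeta L s =
      ((∑' n, (nI L n : ℝ) * (n : ℝ) ^ (-s) : ℝ) : ℂ) := by
    intro s hs
    rw [dedekindZeta, LSeries, Complex.ofReal_tsum]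
    exact tsum_congr (e s hs)
  have h2 : Tendsto (fun s : ℝ => (s - 1) * ∑' n, (nI L n : ℝ) * (n : ℝ) ^ (-s)) (𝓝[>] 1)
      (𝓝 (dedekindZeta_residue L)) := by
    have := (Complex.continuous_re.tendsto _).comp h
    rw [Complex.ofReal_re] at this
    refine this.congr' ?_
    filter_upwards [self_mem_nhdsWithin] with s hs
    simp only [Function.comp_apply]
    rw [e' s hs, ← Complex.ofReal_one, ← Complex.ofReal_sub, ← Complex.ofReal_mul,
      Complex.ofReal_re]
  refine ⟨?_, h2⟩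
  filter_upwards [h2.eventually_ne (dedekindZeta_residue_ne_zero L)] with s hs
  by_contra hc
  exact hs (by rw [tsum_eq_zero_of_not_summable hc, mul_zero])

theorem tendsto_log : Tendsto (fun s : ℝ => Real.log (1 / (s - 1))) (𝓝[>] 1) atTop := by
  refine Real.tendsto_log_atTop.comp ?_
  simp only [one_div]
  refine tendsto_inv_nhdsGT_zero.comp ?_
  rw [tendsto_nhdsWithin_iff]
  refine ⟨?_, by filter_upwards [self_mem_nhdsWithin] with s hs using sub_pos.2 (show 1 < s from hs)⟩
  have : Tendsto (fun s : ℝ => s - 1) (𝓝 1) (𝓝 (1 - 1)) := tendsto_id.sub_const 1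
  rw [sub_self] at this
  exact this.mono_left nhdsWithin_le_nhds

/-- The degree one primes of a number field have prime zeta function `∼ log (1 / (s - 1))`. -/
theorem tendsto_psum_nI (L : Type*) [Field L] [NumberField L] :
    Tendsto (fun s : ℝ => psum (fun n => nI L n) s / Real.log (1 / (s - 1))) (𝓝[>] 1) (𝓝 1) := by
  obtain ⟨h1, h2⟩ := zeta_real L
  have hρ := dedekindZeta_residue_pos L
  have h3 := (Real.continuousAt_log hρ.ne').tendsto.comp h2
  have lim : ∀ C : ℝ, Tendsto (fun s : ℝ => 1 + (Real.log ((s - 1) *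
      ∑' n, (nI L n : ℝ) * (n : ℝ) ^ (-s)) + C) / Real.log (1 / (s - 1))) (𝓝[>] 1) (𝓝 1) := by
    intro C
    have := ((h3.add_const C).div_atTop tendsto_log).const_add 1
    rwa [add_zero] at this
  refine tendsto_of_tendsto_of_tendsto_of_le_of_le' (lim (-(6 * Module.finrank ℤ (𝓞 L))))
    (lim (2 * Module.finrank ℤ (𝓞 L))) ?_ ?_
  all_goals
    filter_upwards [h1, self_mem_nhdsWithin, tendsto_log.eventually_gt_atTop 0,
      h2.eventually_const_lt hρ] with s hs hs1 hl hz
    have hs1 : 1 < s := hs1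
    have s0 : 0 < s - 1 := by linarith
    have z0 : 0 < ∑' n, (nI L n : ℝ) * (n : ℝ) ^ (-s) := pos_of_mul_pos_right hz s0.le
    rw [Real.log_mul s0.ne' z0.ne', one_add_div hl.ne']
    gcongr
    rw [one_div, Real.log_inv]
  · have := (Real.log_le_iff_le_exp z0).2 (le_exp_psum hs1 hs)
    linarith
  · have := psum_le_log hs1 hs
    linarith

end Pool.Agent.Shared.PrimeZeta
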