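import Mathlib
import Pool.Agent.Shared.PrimeZeta

/-! The Frobenius density theorem for finite Galois extensions of `ℚ` (Dirichlet density). -/

namespace Pool.Agent.Shared.FrobeniusDensity

open Finset Filter Topology NumberField Pool.Agent.Shared.PrimeZeta
open scoped Pointwise

/-- `c` is bounded on primes. -/
def Bdd (c : ℕ → ℝ) : Prop := ∃ B : ℝ, ∀ p, p.Prime → |c p| ≤ B

/-- `∑ c p * p ^ (-s) ∼ δ * log (1 / (s - 1))`. -/
def Lim (c : ℕ → ℝ) (δ : ℝ) : Prop :=
  Tendsto (fun s : ℝ => psum c s / Real.log (1 / (s - 1))) (𝓝[>] 1) (𝓝 δ)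

theorem Bdd.summable {c : ℕ → ℝ} (h : Bdd c) {s : ℝ} (hs : 1 < s) :
    Summable fun n : ℕ => if n.Prime then c n * (n : ℝ) ^ (-s) else 0 := by
  obtain ⟨B, hB⟩ := h
  exact summable_psum hB hs

theorem Bdd.add {c c' : ℕ → ℝ} (h : Bdd c) (h' : Bdd c') : Bdd fun n => c n + c' n := by
  obtain ⟨B, hB⟩ := h
  obtain ⟨B', hB'⟩ := h'
  exact ⟨B + B', fun p hp => (abs_add_le _ _).trans (add_le_add (hB p hp) (hB' p hp))⟩

theorem Bdd.mul {c : ℕ → ℝ} (h : Bdd c) (a : ℝ) : Bdd fun n => a * c n := by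
  obtain ⟨B, hB⟩ := h
  exact ⟨|a| * B, fun p hp => by rw [abs_mul]; gcongr; exact hB p hp⟩

theorem psum_add {c c' : ℕ → ℝ} (h : Bdd c) (h' : Bdd c') {s : ℝ} (hs : 1 < s) :
    psum (fun n => c n + c' n) s = psum c s + psum c' s := by
  unfold psum
  rw [← (h.summable hs).tsum_add (h'.summable hs)]
  refine tsum_congr fun n => ?_
  split_ifs <;> ring

theorem psum_mul (c : ℕ → ℝ) (a s : ℝ) : psum (fun n => a * c n) s = a * psum c s := by
  unfold psum
  rw [← tsum_mul_left]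
  refine tsum_congr fun n => ?_
  split_ifs <;> ring

theorem psum_mono {c c' : ℕ → ℝ} (h : Bdd c) (h' : Bdd c') (hle : ∀ p, p.Prime → c p ≤ c' p)
    {s : ℝ} (hs : 1 < s) : psum c s ≤ psum c' s := by
  refine (h.summable hs).tsum_le_tsum (fun n => ?_) (h'.summable hs)
  split_ifs with hn
  · gcongr; exact hle n hn
  · exact le_rfl

theorem Lim.add {c c' : ℕ → ℝ} {δ δ' : ℝ} (h : Bdd c) (h' : Bdd c') (l : Lim c δ) (l' : Lim c' δ') :
    Lim (fun n => c n + c' n) (δ + δ') := by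
  refine (Tendsto.add l l').congr' ?_
  filter_upwards [self_mem_nhdsWithin] with s hs
  rw [psum_add h h' hs, add_div]

theorem Lim.mul {c : ℕ → ℝ} {δ : ℝ} (l : Lim c δ) (a : ℝ) : Lim (fun n => a * c n) (a * δ) := by
  refine (Tendsto.const_mul a l).congr fun s => ?_
  rw [psum_mul, mul_div_assoc]

theorem lim_zero {c : ℕ → ℝ} (h : ∀ᶠ p in atTop, p.Prime → c p = 0) : Lim c 0 := by
  obtain ⟨N, hN⟩ := eventually_atTop.1 h
  have key : ∀ s : ℝ, 1 < s → |psum c s| ≤ ∑ n ∈ range N, |c n| := by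
    intro s hs
    rw [psum, tsum_eq_sum (s := range N)]
    · refine (abs_sum_le_sum_abs _ _).trans (sum_le_sum fun n _ => ?_)
      split_ifs with hn
      · rw [abs_mul]
        refine mul_le_of_le_one_right (abs_nonneg _) ?_
        rw [abs_of_nonneg (by positivity)]
        exact Real.rpow_le_one_of_one_le_of_nonpos (by exact_mod_cast hn.one_le) (by linarith)
      · simp
    · intro n hn
      split_ifs with hp
      · rw [hN n (by simpa using hn) hp, zero_mul]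
      · rfl
  have lim : Tendsto (fun s : ℝ => (∑ n ∈ range N, |c n|) / Real.log (1 / (s - 1))) (𝓝[>] 1)
      (𝓝 0) := tendsto_const_nhds.div_atTop tendsto_log
  refine squeeze_zero_norm' ?_ lim
  filter_upwards [self_mem_nhdsWithin, tendsto_log.eventually_gt_atTop 0] with s hs hl
  rw [Real.norm_eq_abs, abs_div, abs_of_pos hl]
  gcongr
  exact key s hs

theorem Lim.congr {c c' : ℕ → ℝ} {δ : ℝ} (h : Bdd c) (h' : Bdd c') (l : Lim c δ)
    (e : ∀ᶠ p in atTop, p.Prime → c' p = c p) : Lim c' δ := by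
  have := Lim.add h (h'.add (h.mul (-1))) l (lim_zero (c := fun n => c' n + -1 * c n) ?_)
  · simpa using this
  · filter_upwards [e] with p hp hpp
    rw [hp hpp]; ring

variable {K : Type*} [Field K] [NumberField K]

/-- `σ` is a Frobenius element at some prime above `p`. -/
def IsFrob (p : ℕ) (σ : K ≃ₐ[ℚ] K) : Prop :=
  ∃ P : Ideal (𝓞 K), P.IsPrime ∧ (p : 𝓞 K) ∈ P ∧ ∀ x : 𝓞 K, σ • x - x ^ p ∈ P

theorem coe_smul (σ : K ≃ₐ[ℚ] K) (x : 𝓞 K) : ((σ • x : 𝓞 K) : K) = σ x := rfl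

theorem one_mem_of_coprime {R : Type*} [CommRing R] {P : Ideal R} {a b : ℕ} (h : a.Coprime b)
    (ha : (a : R) ∈ P) (hb : (b : R) ∈ P) : (1 : R) ∈ P := by
  obtain ⟨u, v, e⟩ := Nat.isCoprime_iff_coprime.2 h
  have : (1 : R) = u * a + v * b := by
    have := congrArg (Int.cast : ℤ → R) e
    simpa using this.symm
  rw [this]
  exact P.add_mem (P.mul_mem_left _ ha) (P.mul_mem_left _ hb)

theorem under_eq {R : Type*} [CommRing R] {P : Ideal R} (hP : P ≠ ⊤) {p : ℕ} (hp : p.Prime)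
    (h : (p : R) ∈ P) : P.under ℤ = Ideal.span {(p : ℤ)} := by
  have : Fact p.Prime := ⟨hp⟩
  refine ((Int.ideal_span_isMaximal_of_prime p).eq_of_le (Ideal.comap_ne_top _ hP) ?_).symm
  rw [Ideal.span_singleton_le_iff_mem, Ideal.mem_comap]
  simpa using h

theorem exists_isFrob [IsGalois ℚ K] {p : ℕ} (hp : p.Prime) : ∃ σ : K ≃ₐ[ℚ] K, IsFrob p σ := by
  have : Fact p.Prime := ⟨hp⟩
  obtain ⟨P, hP, hPp⟩ := Ideal.exists_ideal_over_maximal_of_isIntegral (S := 𝓞 K)
    (Ideal.span {(p : ℤ)}) (by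
      rw [(RingHom.injective_iff_ker_eq_bot _).1 (algebraMap ℤ (𝓞 K)).injective_int]
      exact bot_le)
  have hp' : (p : 𝓞 K) ∈ P := by
    have : (p : ℤ) ∈ P.comap (algebraMap ℤ (𝓞 K)) := hPp ▸ Ideal.mem_span_singleton_self _
    simpa using this
  have : Finite (𝓞 K ⧸ P) := (Ideal.absNorm_ne_zero_iff P).1 (by
    have := two_le_absNorm P hP
    omega)
  obtain ⟨σ, hσ⟩ := IsArithFrobAt.exists_of_isInvariant ℤ (K ≃ₐ[ℚ] K) P
  refine ⟨σ, P, hP.isPrime, hp', fun x => ?_⟩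
  have := hσ x
  rwa [under_eq hP.ne_top hp hp', Int.card_ideal_quot] at this

theorem eventually_notMem {δ : 𝓞 K} (h : δ ≠ 0) : ∀ᶠ p : ℕ in atTop, p.Prime →
    ∀ P : Ideal (𝓞 K), P.IsPrime → (p : 𝓞 K) ∈ P → δ ∉ P := by
  filter_upwards [eventually_gt_atTop (Ideal.absNorm (Ideal.span {δ}))] with p hp hpp P hP h1 h2
  have h0 : Ideal.absNorm (Ideal.span {δ}) ≠ 0 := by
    rw [Ne, Ideal.absNorm_eq_zero_iff, Ideal.span_singleton_eq_bot]; exact h
  refine hP.ne_top ((Ideal.eq_top_iff_one _).2 (one_mem_of_coprime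
    ((Nat.coprime_of_lt_prime h0 hp hpp)) h1 ?_))
  exact (Ideal.span_singleton_le_iff_mem _).2 h2 (Ideal.absNorm_mem _)

theorem absNorm_eq_of_pow {L : Type*} [Field L] [NumberField L] {Q : Ideal (𝓞 L)}
    (hQ : Q.IsPrime) {p : ℕ} (hp : p.Prime) (h1 : (p : 𝓞 L) ∈ Q) (h2 : ∀ x, x ^ p - x ∈ Q) :
    Ideal.absNorm Q = p := by
  classical
  have hQ0 : Q ≠ ⊥ := by
    rintro rfl
    exact hp.ne_zero (by simpa using h1)
  have hM := hQ.isMaximal hQ0
  obtain ⟨q1, q2, n, hn, hq⟩ := pr_spec Q hM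
  have e : (Ideal.absNorm Q).minFac = p := by
    by_contra hne
    exact hQ.ne_top ((Ideal.eq_top_iff_one _).2
      (one_mem_of_coprime ((Nat.coprime_primes q1 hp).2 hne) q2 h1))
  rw [e] at hq
  have : Finite (𝓞 L ⧸ Q) := (Ideal.absNorm_ne_zero_iff Q).1 (by
    have := two_le_absNorm Q hM
    omega)
  let := Fintype.ofFinite (𝓞 L ⧸ Q)
  let := Ideal.Quotient.field Q
  have h3 : Ideal.absNorm Q ≤ p := by
    rw [Ideal.absNorm_apply, Submodule.cardQuot_apply, Nat.card_eq_fintype_card,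
      ← FiniteField.X_pow_card_sub_X_natDegree_eq (𝓞 L ⧸ Q) hp.one_lt]
    refine le_trans ?_ (Polynomial.card_roots' _)
    refine le_trans ?_ (Multiset.toFinset_card_le _)
    refine card_le_card fun y _ => ?_
    obtain ⟨x, rfl⟩ := Ideal.Quotient.mk_surjective y
    rw [Multiset.mem_toFinset,
      Polynomial.mem_roots (FiniteField.X_pow_card_sub_X_ne_zero _ hp.one_lt)]
    have := Ideal.Quotient.eq_zero_iff_mem.2 (h2 x)
    simpa using this
  rw [hq] at h3 ⊢
  have : n ≤ 1 := (Nat.pow_le_pow_iff_right hp.one_lt).1 (by rwa [pow_one])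
  rw [show n = 1 by omega, pow_one]

theorem exists_int_of_absNorm {L : Type*} [Field L] [NumberField L] {Q : Ideal (𝓞 L)} {p : ℕ}
    (hp : p.Prime) (h : Ideal.absNorm Q = p) (x : 𝓞 L) : ∃ n : ℤ, x - n ∈ Q := by
  have : Fact p.Prime := ⟨hp⟩
  have hQ : Q.IsPrime := Ideal.isPrime_of_irreducible_absNorm (h ▸ hp)
  rw [Ideal.absNorm_apply, Submodule.cardQuot_apply] at h
  obtain ⟨n, hn⟩ := mem_zmultiples_of_prime_card h (g := (1 : 𝓞 L ⧸ Q))
    (g' := Ideal.Quotient.mk Q x) one_ne_zero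
  refine ⟨n, ?_⟩
  rw [← Ideal.Quotient.eq, ← hn]
  simp

open scoped Classical in
theorem count_subgroup [IsGalois ℚ K] (H : Subgroup (K ≃ₐ[ℚ] K)) :
    ∀ᶠ p : ℕ in atTop, p.Prime → ∀ φ : K ≃ₐ[ℚ] K, IsFrob p φ →
      (univ.filter fun g : K ≃ₐ[ℚ] K => g⁻¹ * φ * g ∈ H).card =
        Nat.card H * nI (IntermediateField.fixedField H) p := by
  set L := IntermediateField.fixedField H with hL
  let j : 𝓞 L →+* 𝓞 K := algebraMap _ _
  have jH : ∀ h ∈ H, ∀ x, h • j x = j x := by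
    intro h hh x
    apply RingOfIntegers.ext
    exact (IntermediateField.mem_fixedField_iff H _).1 (x : L).2 h hh
  have sep0 : ∀ g : K ≃ₐ[ℚ] K, (∀ x, g • j x = j x) → g ∈ H := by
    intro g hg
    rw [← IntermediateField.fixingSubgroup_fixedField H, IntermediateField.mem_fixingSubgroup_iff]
    intro y hy
    have := (integralBasis L).ext (f₁ := g.toLinearMap ∘ₗ L.val.toLinearMap)
      (f₂ := L.val.toLinearMap) fun i => by
        rw [integralBasis_apply]
        exact congrArg (fun z : 𝓞 K => (z : K)) (hg _)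
    exact LinearMap.congr_fun this ⟨y, hy⟩
  have sep : ∀ᶠ p : ℕ in atTop, ∀ g g' : K ≃ₐ[ℚ] K, p.Prime → ∀ P : Ideal (𝓞 K), P.IsPrime →
      (p : 𝓞 K) ∈ P → (∀ x, g • j x - g' • j x ∈ P) → g⁻¹ * g' ∈ H := by
    rw [eventually_all]
    intro g
    rw [eventually_all]
    intro g'
    by_cases hg : g⁻¹ * g' ∈ H
    · exact Eventually.of_forall fun _ _ _ _ _ _ => hg
    · have : ∃ x, g • j x - g' • j x ≠ 0 := by
        by_contra hc
        push Not at hc
        refine hg (sep0 _ fun x => ?_)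
        rw [mul_smul, inv_smul_eq_iff]
        exact (sub_eq_zero.1 (hc x)).symm
      obtain ⟨x, hx⟩ := this
      filter_upwards [eventually_notMem hx] with p h hp P hP h1 h2
      exact (h hp P hP h1 (h2 x)).elim
  filter_upwards [sep] with p sep hp φ ⟨P, hP, hpP, hφ⟩
  let Q : (K ≃ₐ[ℚ] K) → Ideal (𝓞 L) := fun g =>
    (P.comap (MulSemiringAction.toRingHom (K ≃ₐ[ℚ] K) (𝓞 K) g)).comap j
  have memQ : ∀ g x, x ∈ Q g ↔ g • j x ∈ P := fun g x => Iff.rfl
  have hQ : ∀ g, (Q g).IsPrime := fun g => inferInstance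
  have smul_int : ∀ (g : K ≃ₐ[ℚ] K) (n : ℤ), g • (n : 𝓞 K) = n := fun g n =>
    map_intCast (MulSemiringAction.toRingHom (K ≃ₐ[ℚ] K) (𝓞 K) g) n
  have smul_nat : ∀ (g : K ≃ₐ[ℚ] K) (n : ℕ), g • (n : 𝓞 K) = n := fun g n =>
    map_natCast (MulSemiringAction.toRingHom (K ≃ₐ[ℚ] K) (𝓞 K) g) n
  rw [card_eq_sum_card_fiberwise (f := Q) (t := idl L p), ← card_idl, mul_comm, ← smul_eq_mul,
    ← sum_const]
  · refine sum_congr rfl fun I hI => ?_
    have hN := mem_idl.1 hI
    have hIp : I.IsPrime := Ideal.isPrime_of_irreducible_absNorm (hN ▸ hp)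
    have hI0 : I ≠ ⊥ := by
      rintro rfl
      rw [Ideal.absNorm_bot] at hN
      exact hp.ne_zero hN.symm
    have hIm := hIp.isMaximal hI0
    have hpI : (p : 𝓞 L) ∈ I := hN ▸ Ideal.absNorm_mem I
    obtain ⟨P', hP', e'⟩ := Ideal.exists_ideal_over_maximal_of_isIntegral (S := 𝓞 K) I (by
      rw [RingOfIntegers.ker_algebraMap_eq_bot]; exact bot_le)
    have hpP' : (p : 𝓞 K) ∈ P' := by
      have : (p : 𝓞 L) ∈ P'.comap (algebraMap (𝓞 L) (𝓞 K)) := e' ▸ hpI
      simpa using this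
    obtain ⟨g₀, hg₀⟩ := Algebra.IsInvariant.exists_smul_of_under_eq ℤ (𝓞 K) (K ≃ₐ[ℚ] K) P' P
      (by rw [under_eq hP'.ne_top hp hpP', under_eq hP.ne_top hp hpP])
    have Q0 : Q g₀ = I := by
      ext x
      rw [memQ, hg₀, Ideal.smul_mem_pointwise_smul_iff, ← e']
      rfl
    have key : ∀ g, Q g = I → ∀ x, ∃ n : ℤ, g • j x - n ∈ P ∧ g₀ • j x - n ∈ P := by
      intro g hg x
      obtain ⟨n, hn⟩ := exists_int_of_absNorm hp hN x
      refine ⟨n, ?_, ?_⟩
      · have := (memQ g _).1 (hg ▸ hn)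
        rwa [map_sub, smul_sub, map_intCast, smul_int] at this
      · have := (memQ g₀ _).1 (Q0 ▸ hn)
        rwa [map_sub, smul_sub, map_intCast, smul_int] at this
    have h0 : g₀⁻¹ * (φ * g₀) ∈ H := by
      refine sep _ _ hp P hP hpP fun x => ?_
      obtain ⟨n, hn, -⟩ := key g₀ Q0 x
      have a1 := hφ (g₀ • j x)
      have a2 : (g₀ • j x) ^ p - (n : 𝓞 K) ^ p ∈ P := Ideal.mem_of_dvd _ (sub_dvd_pow_sub_pow _ _ _) hn
      have a3 := hφ n
      rw [smul_int] at a3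
      have : g₀ • j x - (φ * g₀) • j x = (g₀ • j x - n) - (φ • g₀ • j x - (g₀ • j x) ^ p) -
          ((g₀ • j x) ^ p - (n : 𝓞 K) ^ p) + ((n : 𝓞 K) - n ^ p) := by
        rw [mul_smul]; ring
      rw [this]
      exact P.add_mem (P.sub_mem (P.sub_mem hn a1) a2) a3
    have : ((univ.filter fun g : K ≃ₐ[ℚ] K => g⁻¹ * φ * g ∈ H).filter fun g => Q g = I) =
        (univ : Finset H).image fun h : H => g₀ * h := by
      ext g
      simp only [mem_filter, mem_univ, true_and, mem_image]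
      constructor
      · rintro ⟨-, h2⟩
        refine ⟨⟨g₀⁻¹ * g, sep _ _ hp P hP hpP fun x => ?_⟩, by simp⟩
        obtain ⟨n, a1, a2⟩ := key g h2 x
        simpa using P.sub_mem a2 a1
      · rintro ⟨h, rfl⟩
        refine ⟨?_, ?_⟩
        · have : (g₀ * h)⁻¹ * φ * (g₀ * h) = (h : K ≃ₐ[ℚ] K)⁻¹ * (g₀⁻¹ * (φ * g₀)) * h := by group
          rw [this]
          exact H.mul_mem (H.mul_mem (H.inv_mem h.2) h0) h.2
        · rw [← Q0]
          ext x
          rw [memQ, memQ, mul_smul, jH _ h.2]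
    rw [this, card_image_of_injective _ fun a b hab => Subtype.ext (mul_left_cancel hab)]
    simp
  · intro g hg
    have hg : g⁻¹ * φ * g ∈ H := by simpa using hg
    refine mem_coe.2 (mem_idl.2 (absNorm_eq_of_pow (hQ g) hp ?_ fun x => ?_))
    · rw [memQ, map_natCast, smul_nat]; exact hpP
    · have a1 := jH _ hg x
      rw [mul_smul, mul_smul, inv_smul_eq_iff] at a1
      have a2 := hφ (g • j x)
      rw [a1] at a2
      rw [memQ, map_sub, map_pow, smul_sub, smul_pow', ← neg_sub]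
      exact P.neg_mem a2

open scoped Classical in
/-- **Frobenius density theorem.** -/
theorem frobenius_density [IsGalois ℚ K] (φ : ℕ → K ≃ₐ[ℚ] K) (hφ : ∀ p, p.Prime → IsFrob p (φ p))
    (S : Set (K ≃ₐ[ℚ] K)) (h1 : ∀ σ g, g⁻¹ * σ * g ∈ S ↔ σ ∈ S)
    (h2 : ∀ σ τ, Subgroup.zpowers σ = Subgroup.zpowers τ → σ ∈ S → τ ∈ S) :
    Lim (fun p => if φ p ∈ S then 1 else 0)
      (((univ.filter fun σ => σ ∈ S).card : ℝ) / Fintype.card (K ≃ₐ[ℚ] K)) := by
  let ν : ((K ≃ₐ[ℚ] K) → ℝ) → ℕ → ℝ := fun f p => ∑ g, f (g⁻¹ * φ p * g)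
  have bdd : ∀ f, Bdd (ν f) := fun f => ⟨∑ _g : K ≃ₐ[ℚ] K, ∑ σ, |f σ|, fun p _ =>
    (abs_sum_le_sum_abs _ _).trans (sum_le_sum fun g _ =>
      single_le_sum (f := fun σ => |f σ|) (fun _ _ => abs_nonneg _) (mem_univ _))⟩
  let M : Submodule ℝ ((K ≃ₐ[ℚ] K) → ℝ) :=
    { carrier := {f | Lim (ν f) (∑ σ, f σ)}
      add_mem' := by
        intro f f' hf hf'
        have := Lim.add (bdd f) (bdd f') hf hf'
        simpa [ν, sum_add_distrib] using this
      zero_mem' := by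
        have := lim_zero (c := ν 0) (Eventually.of_forall fun p _ => by simp [ν])
        simpa using this
      smul_mem' := by
        intro a f hf
        have := Lim.mul hf a
        simpa [ν, mul_sum] using this }
  have m1 : ∀ H : Subgroup (K ≃ₐ[ℚ] K), (fun σ => if σ ∈ H then (1 : ℝ) else 0) ∈ M := by
    intro H
    have l := Lim.mul (tendsto_psum_nI (IntermediateField.fixedField H)) (Nat.card H)
    have := l.congr (Bdd.mul ⟨_, abs_nI_le⟩ _) (bdd fun σ => if σ ∈ H then (1 : ℝ) else 0) ?_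
    · show Lim _ _
      convert this using 1
      simp [Fintype.card_subtype]
    · filter_upwards [count_subgroup H] with p h hp
      have := h hp _ (hφ p hp)
      simp only [ν, sum_boole, this]
      push_cast; rfl
  have m2 : ∀ C : Subgroup (K ≃ₐ[ℚ] K),
      (fun σ => if Subgroup.zpowers σ = C then (1 : ℝ) else 0) ∈ M := by
    intro C
    induction C using WellFoundedLT.induction with
    | ind C ih =>
      have : (fun σ => if Subgroup.zpowers σ = C then (1 : ℝ) else 0) =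
          (fun σ => if σ ∈ C then (1 : ℝ) else 0) - ∑ D ∈ univ.filter (· < C),
            (fun σ => if Subgroup.zpowers σ = D then (1 : ℝ) else 0) := by
        ext σ
        simp only [Pi.sub_apply, Finset.sum_apply, sum_ite_eq, mem_filter, mem_univ, true_and,
          ← Subgroup.zpowers_le]
        by_cases a : Subgroup.zpowers σ = C
        · simp [a]
        · simp [a, lt_iff_le_and_ne]
      rw [this]
      exact M.sub_mem (m1 C) (M.sum_mem fun D hD => ih D (mem_filter.1 hD).2)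
  have m3 : (fun σ => if σ ∈ S then (1 : ℝ) else 0) ∈ M := by
    have : (fun σ => if σ ∈ S then (1 : ℝ) else 0) =
        ∑ D ∈ univ.filter (fun D => ∃ τ ∈ S, Subgroup.zpowers τ = D),
          (fun σ => if Subgroup.zpowers σ = D then (1 : ℝ) else 0) := by
      ext σ
      simp only [Finset.sum_apply, sum_ite_eq, mem_filter, mem_univ, true_and]
      exact if_congr ⟨fun h => ⟨σ, h, rfl⟩, fun ⟨τ, h, e⟩ => h2 τ σ e h⟩ rfl rfl
    rw [this]
    exact M.sum_mem fun D _ => m2 D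
  have G0 : (Fintype.card (K ≃ₐ[ℚ] K) : ℝ) ≠ 0 := by exact_mod_cast Fintype.card_ne_zero
  have := Lim.mul (show Lim _ _ from m3) (Fintype.card (K ≃ₐ[ℚ] K) : ℝ)⁻¹
  convert this using 1
  · ext p
    simp only [ν, h1, sum_const, card_univ, nsmul_eq_mul]
    field_simp
  · simp [div_eq_inv_mul]

end Pool.Agent.Shared.FrobeniusDensity
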