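import Mathlib

set_option autoImplicit false

/-! Erdos-Gallai theorem (sufficiency), proof of Tripathi, Venugopalan and West.
Graphs on `range t` are symmetric 0/1 integer matrices with zero diagonal. -/

namespace Pool.Agent.Shared.ErdosGallai

open Finset

/-- symmetric 0/1 matrix with zero diagonal -/
structure Ok (A : ℕ → ℕ → ℤ) : Prop where
  zo : ∀ x y, A x y = 0 ∨ A x y = 1
  symm : ∀ x y, A x y = A y x
  diag : ∀ x, A x x = 0

def E (a b : ℕ) (x y : ℕ) : ℤ :=
  (if x = a ∧ y = b then 1 else 0) + (if x = b ∧ y = a then 1 else 0)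

def deg (t : ℕ) (A : ℕ → ℕ → ℤ) (x : ℕ) : ℤ := ∑ y ∈ range t, A x y

def I (a x : ℕ) : ℤ := if x = a then 1 else 0

lemma deg_add (t : ℕ) (A B : ℕ → ℕ → ℤ) (x : ℕ) : deg t (A + B) x = deg t A x + deg t B x := by
  simp [deg, sum_add_distrib]

lemma deg_sub (t : ℕ) (A B : ℕ → ℕ → ℤ) (x : ℕ) : deg t (A - B) x = deg t A x - deg t B x := by
  simp [deg, sum_sub_distrib]

lemma deg_E {t a b : ℕ} (ha : a < t) (hb : b < t) (x : ℕ) : deg t (E a b) x = I a x + I b x := by
  unfold deg E I
  rw [sum_add_distrib]
  congr 1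
  · by_cases h : x = a <;> simp [h, hb]
  · by_cases h : x = b <;> simp [h, ha]

lemma Ok.add {A : ℕ → ℕ → ℤ} (h : Ok A) {a b : ℕ} (hab : a ≠ b) (h0 : A a b = 0) :
    Ok (A + E a b) := by
  refine ⟨fun x y => ?_, fun x y => ?_, fun x => ?_⟩
  · have := h.zo x y
    have h1 := h.symm a b
    simp only [Pi.add_apply, E]
    split_ifs with h2 h3 h3
    · omega
    · obtain ⟨rfl, rfl⟩ := h2; omega
    · obtain ⟨rfl, rfl⟩ := h3; omega
    · omega
  · have := h.symm x y
    simp only [Pi.add_apply, E]
    split_ifs <;> omega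
  · have := h.diag x
    simp only [Pi.add_apply, E]
    split_ifs <;> omega

lemma Ok.sub {A : ℕ → ℕ → ℤ} (h : Ok A) {a b : ℕ} (h0 : A a b = 1) :
    Ok (A - E a b) := by
  have hab : a ≠ b := by rintro rfl; have := h.diag a; omega
  refine ⟨fun x y => ?_, fun x y => ?_, fun x => ?_⟩
  · have := h.zo x y
    have h1 := h.symm a b
    simp only [Pi.sub_apply, E]
    split_ifs with h2 h3 h3
    · omega
    · obtain ⟨rfl, rfl⟩ := h2; omega
    · obtain ⟨rfl, rfl⟩ := h3; omega
    · omega
  · have := h.symm x y
    simp only [Pi.sub_apply, E]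
    split_ifs <;> omega
  · have := h.diag x
    simp only [Pi.sub_apply, E]
    split_ifs <;> omega

lemma Ok.exists_nbr {A : ℕ → ℕ → ℤ} (h : Ok A) {t a b : ℕ} (ha : a < t) (hb : b < t)
    (hlt : deg t A b < deg t A a) : ∃ u < t, A a u = 1 ∧ A b u = 0 ∧ u ≠ b := by
  by_contra hc
  push Not at hc
  have e : deg t A a = ∑ u ∈ range t, A a (Equiv.swap a b u) := by
    unfold deg
    refine (sum_equiv (Equiv.swap a b) (fun i => ?_) (fun i _ => rfl)).symm
    simp only [mem_range, Equiv.swap_apply_def]
    split_ifs <;> omega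
  have : deg t A a ≤ deg t A b := by
    rw [e]
    refine sum_le_sum fun u hu => ?_
    rw [Equiv.swap_apply_def]
    split_ifs with h1 h2
    · subst h1; exact (h.symm _ _).le
    · subst h2; rw [h.diag, h.diag]
    · have := hc u (mem_range.1 hu)
      have h3 := h.zo a u
      have h4 := h.zo b u
      omega
  omega

lemma Ok.even_sum {A : ℕ → ℕ → ℤ} (h : Ok A) (t : ℕ) : Even (∑ x ∈ range t, deg t A x) := by
  unfold deg
  induction t with
  | zero => simp
  | succ t ih =>
    simp only [sum_range_succ, sum_add_distrib, h.diag, add_zero]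
    have : ∑ x ∈ range t, A x t = ∑ x ∈ range t, A t x := sum_congr rfl fun x _ => h.symm _ _
    rw [this, add_assoc]
    exact ih.add ⟨_, rfl⟩

/-- The invariant at critical index `r`. -/
structure Inv (t : ℕ) (d : ℕ → ℤ) (r : ℕ) (A : ℕ → ℕ → ℤ) : Prop where
  ok : Ok A
  le : ∀ x < t, deg t A x ≤ d x
  eq : ∀ x < r, deg t A x = d x
  ind : ∀ x y, r < x → r < y → A x y = 0

lemma step {t : ℕ} {d : ℕ → ℤ} (hanti : ∀ i j, i ≤ j → j < t → d j ≤ d i)
    (hev : Even (∑ x ∈ range t, d x)) {r : ℕ} (hr : r < t)
    (hEG : ∑ i ∈ range (r + 1), d i ≤ (r + 1) * r + ∑ k ∈ Ico (r + 1) t, min ((r : ℤ) + 1) (d k))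
    {A : ℕ → ℕ → ℤ} (h : Inv t d r A) (hlt : deg t A r < d r) :
    ∃ B, Inv t d r B ∧ deg t A r < deg t B r := by
  have ok := h.ok
  have big : ∀ i < r, deg t A r < deg t A i := fun i hi => by
    have := h.eq i hi; have := hanti i r hi.le hr; omega
  -- case 0
  by_cases c0 : ∃ i < t, i ≠ r ∧ A r i = 0 ∧ deg t A i < d i
  · obtain ⟨i, hi, hir, h0, hd⟩ := c0
    have hri : r < i := by
      by_contra hc
      have := h.eq i (by omega); omega
    refine ⟨A + E r i, ⟨ok.add hir.symm h0, fun x hx => ?_, fun x hx => ?_, fun x y hx hy => ?_⟩, ?_⟩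
    · have := h.le x hx
      rw [deg_add, deg_E hr hi]; unfold I
      split_ifs <;> subst_vars <;> omega
    · have := h.eq x hx
      rw [deg_add, deg_E hr hi]; unfold I
      split_ifs <;> omega
    · have := h.ind x y hx hy
      simp only [Pi.add_apply, E]; split_ifs <;> omega
    · rw [deg_add, deg_E hr hi]; unfold I
      split_ifs <;> omega
  push Not at c0
  -- case 1
  by_cases c1 : ∃ i < r, A r i = 0
  · obtain ⟨i, hi, h0⟩ := c1
    have hit : i < t := by omega
    obtain ⟨u, hu, hu1, hu0, hur⟩ := ok.exists_nbr hit hr (big i hi)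
    have hui : u ≠ i := by rintro rfl; have := ok.diag u; omega
    by_cases c2 : deg t A r + 2 ≤ d r
    · have o1 := ok.sub hu1
      have o2 := o1.add (a := r) (b := u) hur.symm (by simp only [Pi.sub_apply, E]; split_ifs <;> omega)
      have o3 := o2.add (a := r) (b := i) (by omega)
        (by simp only [Pi.sub_apply, Pi.add_apply, E]; split_ifs <;> omega)
      refine ⟨_, ⟨o3, fun x hx => ?_, fun x hx => ?_, fun x y hx hy => ?_⟩, ?_⟩
      · have := h.le x hx
        rw [deg_add, deg_add, deg_sub, deg_E hit hu, deg_E hr hu, deg_E hr hit]; unfold I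
        split_ifs <;> subst_vars <;> omega
      · have := h.eq x hx
        rw [deg_add, deg_add, deg_sub, deg_E hit hu, deg_E hr hu, deg_E hr hit]; unfold I
        split_ifs <;> omega
      · have := h.ind x y hx hy
        simp only [Pi.add_apply, Pi.sub_apply, E]; split_ifs <;> omega
      · rw [deg_add, deg_add, deg_sub, deg_E hit hu, deg_E hr hu, deg_E hr hit]; unfold I
        split_ifs <;> omega
    · have : ∃ k < t, k ≠ r ∧ deg t A k < d k := by
        by_contra hc
        push Not at hc
        have e : ∑ x ∈ range t, d x = ∑ x ∈ range t, (deg t A x + I r x) := by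
          refine sum_congr rfl fun x hx => ?_
          have hx := mem_range.1 hx
          have := h.le x hx
          have := hc x hx
          unfold I
          split_ifs <;> subst_vars <;> omega
        have e2 : ∑ x ∈ range t, I r x = 1 := by simp [I, hr]
        rw [sum_add_distrib, e2] at e
        obtain ⟨a, ha⟩ := hev
        obtain ⟨b, hb⟩ := ok.even_sum t
        omega
      obtain ⟨k, hk, hkr, hkd⟩ := this
      have hrk : A r k = 1 := by
        have := c0 k hk hkr; have := ok.zo r k; omega
      have hk2 : r < k := by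
        by_contra hc
        have := h.eq k (by omega); omega
      have huk : u ≠ k := by rintro rfl; omega
      have o0 := ok.sub hrk
      have o1 := o0.sub (a := i) (b := u) (by simp only [Pi.sub_apply, E]; split_ifs <;> omega)
      have o2 := o1.add (a := r) (b := u) hur.symm (by simp only [Pi.sub_apply, E]; split_ifs <;> omega)
      have o3 := o2.add (a := r) (b := i) (by omega)
        (by simp only [Pi.sub_apply, Pi.add_apply, E]; split_ifs <;> omega)
      refine ⟨_, ⟨o3, fun x hx => ?_, fun x hx => ?_, fun x y hx hy => ?_⟩, ?_⟩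
      · have := h.le x hx
        rw [deg_add, deg_add, deg_sub, deg_sub, deg_E hit hu, deg_E hr hu, deg_E hr hit,
          deg_E hr hk]; unfold I
        split_ifs <;> subst_vars <;> omega
      · have := h.eq x hx
        rw [deg_add, deg_add, deg_sub, deg_sub, deg_E hit hu, deg_E hr hu, deg_E hr hit,
          deg_E hr hk]; unfold I
        split_ifs <;> omega
      · have := h.ind x y hx hy
        simp only [Pi.add_apply, Pi.sub_apply, E]; split_ifs <;> omega
      · rw [deg_add, deg_add, deg_sub, deg_sub, deg_E hit hu, deg_E hr hu, deg_E hr hit,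
          deg_E hr hk]; unfold I
        split_ifs <;> omega
  push Not at c1
  have c1' : ∀ i < r, A r i = 1 := fun i hi => by
    have := c1 i hi; have := ok.zo r i; omega
  have degk : ∀ k, r < k → deg t A k = ∑ i ∈ range (r + 1), A k i := fun k hk => by
    unfold deg
    rw [← sum_range_add_sum_Ico _ (show r + 1 ≤ t by omega)]
    rw [sum_eq_zero (s := Ico (r + 1) t) fun y hy => h.ind k y hk (by have := mem_Ico.1 hy; omega)]
    simp
  -- case 2
  by_cases c2 : ∃ k < t, r < k ∧ deg t A k < d k ∧ deg t A k < r + 1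
  · obtain ⟨k, hk, hrk, hd, hd2⟩ := c2
    have hrk1 : A r k = 1 := by
      have := c0 k hk (by omega); have := ok.zo r k; omega
    have : ∃ i < r, A i k = 0 := by
      by_contra hc
      push Not at hc
      have : deg t A k = ∑ i ∈ range (r + 1), (1 : ℤ) := by
        rw [degk k hrk]
        refine sum_congr rfl fun i hi => ?_
        have hi := mem_range.1 hi
        rw [ok.symm]
        by_cases h1 : i = r
        · subst h1; exact hrk1
        · have := hc i (by omega); have := ok.zo i k; omega
      simp at this; omega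
    obtain ⟨i, hi, hik⟩ := this
    have hit : i < t := by omega
    obtain ⟨u, hu, hu1, hu0, hur⟩ := ok.exists_nbr hit hr (big i hi)
    have hui : u ≠ i := by rintro rfl; have := ok.diag u; omega
    have huk : u ≠ k := by rintro rfl; omega
    have o1 := ok.sub hu1
    have o2 := o1.add (a := r) (b := u) hur.symm (by simp only [Pi.sub_apply, E]; split_ifs <;> omega)
    have o3 := o2.add (a := i) (b := k) (by omega)
      (by simp only [Pi.sub_apply, Pi.add_apply, E]; split_ifs <;> omega)
    refine ⟨_, ⟨o3, fun x hx => ?_, fun x hx => ?_, fun x y hx hy => ?_⟩, ?_⟩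
    · have := h.le x hx
      rw [deg_add, deg_add, deg_sub, deg_E hit hu, deg_E hr hu, deg_E hit hk]; unfold I
      split_ifs <;> subst_vars <;> omega
    · have := h.eq x hx
      rw [deg_add, deg_add, deg_sub, deg_E hit hu, deg_E hr hu, deg_E hit hk]; unfold I
      split_ifs <;> omega
    · have := h.ind x y hx hy
      simp only [Pi.add_apply, Pi.sub_apply, E]; split_ifs <;> omega
    · rw [deg_add, deg_add, deg_sub, deg_E hit hu, deg_E hr hu, deg_E hit hk]; unfold I
      split_ifs <;> omega
  push Not at c2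
  -- case 3
  by_cases c3 : ∃ i < r, ∃ j < r, i ≠ j ∧ A i j = 0
  · obtain ⟨i, hi, j, hj, hij, h0⟩ := c3
    have hit : i < t := by omega
    have hjt : j < t := by omega
    obtain ⟨u, hu, hu1, hu0, hur⟩ := ok.exists_nbr hit hr (big i hi)
    obtain ⟨w, hw, hw1, hw0, hwr⟩ := ok.exists_nbr hjt hr (big j hj)
    have hu2 : r < u := by
      by_contra hc
      have := c1' u (by omega); omega
    have hw2 : r < w := by
      by_contra hc
      have := c1' w (by omega); omega
    have o0 := ok.sub hu1
    have o1 := o0.sub (a := j) (b := w) (by simp only [Pi.sub_apply, E]; split_ifs <;> omega)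
    have o2 := o1.add (a := r) (b := u) hur.symm (by simp only [Pi.sub_apply, E]; split_ifs <;> omega)
    have o3 := o2.add (a := i) (b := j) hij
      (by simp only [Pi.sub_apply, Pi.add_apply, E]; split_ifs <;> omega)
    refine ⟨_, ⟨o3, fun x hx => ?_, fun x hx => ?_, fun x y hx hy => ?_⟩, ?_⟩
    · have := h.le x hx
      rw [deg_add, deg_add, deg_sub, deg_sub, deg_E hit hu, deg_E hr hu, deg_E hit hjt,
        deg_E hjt hw]; unfold I
      split_ifs <;> subst_vars <;> omega
    · have := h.eq x hx
      rw [deg_add, deg_add, deg_sub, deg_sub, deg_E hit hu, deg_E hr hu, deg_E hit hjt,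
        deg_E hjt hw]; unfold I
      split_ifs <;> omega
    · have := h.ind x y hx hy
      simp only [Pi.add_apply, Pi.sub_apply, E]; split_ifs <;> omega
    · rw [deg_add, deg_add, deg_sub, deg_sub, deg_E hit hu, deg_E hr hu, deg_E hit hjt,
        deg_E hjt hw]; unfold I
      split_ifs <;> omega
  push Not at c3
  exfalso
  have full : ∀ i ≤ r, ∀ j ≤ r, A i j = 1 - I i j := fun i hi j hj => by
    unfold I
    split_ifs with h1
    · subst h1; rw [ok.diag]; rfl
    · by_cases h2 : i = r
      · subst h2; have := c1' j (by omega); omega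
      · by_cases h3 : j = r
        · subst h3; have := c1' i (by omega); have := ok.symm i j; omega
        · have := c3 i (by omega) j (by omega) (Ne.symm h1); have := ok.zo i j; omega
  have s1 : ∑ i ∈ range (r + 1), deg t A i
      = (r + 1) * r + ∑ k ∈ Ico (r + 1) t, deg t A k := by
    have e1 : ∀ i ∈ range (r + 1), deg t A i = r + ∑ k ∈ Ico (r + 1) t, A k i := fun i hi => by
      have hi := mem_range.1 hi
      unfold deg
      rw [← sum_range_add_sum_Ico _ (show r + 1 ≤ t by omega)]
      congr 1
      · rw [sum_congr rfl fun j hj => full i (by omega) j (by have := mem_range.1 hj; omega)]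
        simp [I, hi]
      · exact sum_congr rfl fun k _ => ok.symm _ _
    rw [sum_congr rfl e1, sum_add_distrib, sum_comm]
    congr 1
    · simp
    · exact sum_congr rfl fun k hk => (degk k (by have := mem_Ico.1 hk; omega)).symm
  have s2 : ∑ k ∈ Ico (r + 1) t, min ((r : ℤ) + 1) (d k) ≤ ∑ k ∈ Ico (r + 1) t, deg t A k := by
    refine sum_le_sum fun k hk => ?_
    have hk := mem_Ico.1 hk
    have := c2 k hk.2 (by omega)
    omega
  have s3 : ∑ i ∈ range (r + 1), deg t A i < ∑ i ∈ range (r + 1), d i := by
    rw [sum_range_succ, sum_range_succ, sum_congr rfl fun i hi => h.eq i (mem_range.1 hi)]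
    exact add_lt_add_right hlt _
  omega

/-- Erdos-Gallai, sufficiency. -/
theorem erdos_gallai {t : ℕ} {d : ℕ → ℤ} (hanti : ∀ i j, i ≤ j → j < t → d j ≤ d i)
    (h0 : ∀ i < t, 0 ≤ d i) (hev : Even (∑ x ∈ range t, d x))
    (hEG : ∀ r < t, ∑ i ∈ range (r + 1), d i
      ≤ (r + 1) * r + ∑ k ∈ Ico (r + 1) t, min ((r : ℤ) + 1) (d k)) :
    ∃ A, Ok A ∧ ∀ x < t, deg t A x = d x := by
  have main : ∀ r ≤ t, ∃ A, Inv t d r A := by
    intro r
    induction r with
    | zero =>
      intro _
      exact ⟨0, ⟨fun _ _ => Or.inl rfl, fun _ _ => rfl, fun _ => rfl⟩,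
        fun x hx => by simpa [deg] using h0 x hx, fun x hx => by omega, fun _ _ _ _ => rfl⟩
    | succ r ih =>
      intro hr
      obtain ⟨A, hA⟩ := ih (by omega)
      have : ∀ (n : ℕ) (A : ℕ → ℕ → ℤ), Inv t d r A → d r - deg t A r ≤ n →
          ∃ B, Inv t d r B ∧ deg t B r = d r := by
        intro n
        induction n with
        | zero => intro A hA h; exact ⟨A, hA, by have := hA.le r (by omega); omega⟩
        | succ n ihn =>
          intro A hA h
          by_cases hc : deg t A r < d r
          · obtain ⟨B, hB, hlt⟩ := step hanti hev (by omega) (hEG r (by omega)) hA hc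
            exact ihn B hB (by push_cast at h; omega)
          · exact ⟨A, hA, by have := hA.le r (by omega); omega⟩
      obtain ⟨B, hB, e⟩ := this (d r - deg t A r).toNat A hA (by omega)
      refine ⟨B, hB.ok, hB.le, fun x hx => ?_, fun x y hx hy => hB.ind x y (by omega) (by omega)⟩
      by_cases h1 : x = r
      · subst h1; exact e
      · exact hB.eq x (by omega)
  obtain ⟨A, hA⟩ := main t le_rfl
  exact ⟨A, hA.ok, hA.eq⟩

/-- Sequences with values in a band `[a, b]` (Zverovich-Zverovich type condition). -/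
theorem band {t : ℕ} {d : ℕ → ℤ} (a b : ℤ) (hanti : ∀ i j, i ≤ j → j < t → d j ≤ d i)
    (ha : 0 ≤ a) (h1 : ∀ i < t, a ≤ d i) (h2 : ∀ i < t, d i ≤ b)
    (hev : Even (∑ x ∈ range t, d x)) (hb : b + 1 ≤ t)
    (hq : ∀ k : ℤ, a < k → k * (a + b + 1) ≤ k * k + t * a) :
    ∃ A, Ok A ∧ ∀ x < t, deg t A x = d x := by
  refine erdos_gallai hanti (fun i hi => ha.trans (h1 i hi)) hev fun r hr => ?_
  have e1 : ∑ i ∈ range (r + 1), d i ≤ (r + 1) * b := by
    have := sum_le_card_nsmul (range (r + 1)) d b fun i hi => h2 i (by have := mem_range.1 hi; omega)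
    simpa using this
  have e2 : ((t : ℤ) - (r + 1)) * min ((r : ℤ) + 1) a
      ≤ ∑ k ∈ Ico (r + 1) t, min ((r : ℤ) + 1) (d k) := by
    have := card_nsmul_le_sum (Ico (r + 1) t) (fun k => min ((r : ℤ) + 1) (d k))
      (min ((r : ℤ) + 1) a) fun k hk => min_le_min le_rfl (h1 k (mem_Ico.1 hk).2)
    rw [Nat.card_Ico, nsmul_eq_mul, Nat.cast_sub (by omega)] at this
    simpa using this
  by_cases hc : a < (r : ℤ) + 1
  · rw [min_eq_right hc.le] at e2
    have := hq _ hc
    nlinarith
  · rw [min_eq_left (by omega)] at e2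
    have : (0 : ℤ) ≤ r := by omega
    nlinarith

end Pool.Agent.Shared.ErdosGallai
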