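import Mathlib

/-!
Brun's pure sieve for periodic predicates, Chinese remainder counting, and elementary bounds for
sums and products over primes.
-/

namespace Pool.Agent.Shared.BrunSieve

open Finset Function

/-- Chinese remainder count for two coprime periods -/
lemma count_mul_coprime {a b : ℕ} (ha : 0 < a) (hb : 0 < b) (hab : a.Coprime b)
    (A B : ℕ → Prop) [DecidablePred A] [DecidablePred B] (hA : Periodic A a) (hB : Periodic B b) :
    #{n ∈ range (a * b) | A n ∧ B n} = #{n ∈ range a | A n} * #{n ∈ range b | B n} := by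
  rw [← card_product]
  refine card_bij (fun n _ => (n % a, n % b)) ?_ ?_ ?_
  · intro n hn
    simp only [mem_filter, mem_range, mem_product] at hn ⊢
    exact ⟨⟨Nat.mod_lt _ ha, (hA.map_mod_nat n).symm ▸ hn.2.1⟩,
      ⟨Nat.mod_lt _ hb, (hB.map_mod_nat n).symm ▸ hn.2.2⟩⟩
  · intro n hn m hm h
    simp only [mem_filter, mem_range, Prod.mk.injEq] at hn hm h
    have h1 : n ≡ m [MOD a * b] := (Nat.modEq_and_modEq_iff_modEq_mul hab).1 ⟨h.1, h.2⟩
    exact Nat.ModEq.eq_of_lt_of_lt h1 hn.1 hm.1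
  · rintro ⟨u, v⟩ huv
    simp only [mem_filter, mem_range, mem_product] at huv
    obtain ⟨k, hk1, hk2⟩ := Nat.chineseRemainder hab u v
    have hab0 : 0 < a * b := Nat.mul_pos ha hb
    have e1 : k % (a * b) % a = u := by
      rw [Nat.mod_mul_right_mod]
      exact Eq.trans hk1 (Nat.mod_eq_of_lt huv.1.1)
    have e2 : k % (a * b) % b = v := by
      rw [Nat.mod_mul_left_mod]
      exact Eq.trans hk2 (Nat.mod_eq_of_lt huv.2.1)
    refine ⟨k % (a * b), ?_, by rw [e1, e2]⟩
    simp only [mem_filter, mem_range]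
    refine ⟨Nat.mod_lt _ hab0, ?_, ?_⟩
    · rw [← hA.map_mod_nat, e1]; exact huv.1.2
    · rw [← hB.map_mod_nat, e2]; exact huv.2.2

lemma periodic_forall (D : Finset ℕ) (A : ℕ → ℕ → Prop) (hA : ∀ r ∈ D, Periodic (A r) r) :
    Periodic (fun n => ∀ r ∈ D, A r n) (∏ r ∈ D, r) := by
  intro n
  refine propext (forall₂_congr fun r hr => ?_)
  obtain ⟨c, hc⟩ := dvd_prod_of_mem (fun r : ℕ => r) hr
  have := (hA r hr).nat_mul c n
  rw [hc, mul_comm r c]
  exact Iff.of_eq this

/-- Chinese remainder count for a finite set of primes -/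
lemma count_prod (D : Finset ℕ) (hD : ∀ r ∈ D, r.Prime) (A : ℕ → ℕ → Prop)
    [∀ r, DecidablePred (A r)] (hA : ∀ r ∈ D, Periodic (A r) r) :
    #{n ∈ range (∏ r ∈ D, r) | ∀ r ∈ D, A r n} = ∏ r ∈ D, #{n ∈ range r | A r n} := by
  induction D using Finset.induction_on with
  | empty => simp
  | insert r D hr ih =>
    have hD' : ∀ s ∈ D, s.Prime := fun s hs => hD s (mem_insert_of_mem hs)
    have hA' : ∀ s ∈ D, Periodic (A s) s := fun s hs => hA s (mem_insert_of_mem hs)
    have hrp := hD r (mem_insert_self _ _)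
    have hcop : r.Coprime (∏ s ∈ D, s) := Nat.Coprime.prod_right fun s hs =>
      (Nat.coprime_primes hrp (hD' s hs)).2 fun h => hr (h ▸ hs)
    rw [prod_insert hr, prod_insert hr, ← ih hD' hA', ← count_mul_coprime hrp.pos
      (prod_pos fun s hs => (hD' s hs).pos) hcop (A r) (fun n => ∀ s ∈ D, A s n)
      (hA r (mem_insert_self _ _)) (periodic_forall D A hA')]
    congr 1
    ext n
    simp only [mem_filter, forall_mem_insert]

lemma count_mul_period {d : ℕ} (P : ℕ → Prop) [DecidablePred P] (hP : Periodic P d) (k : ℕ) :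
    #{n ∈ range (k * d) | P n} = k * #{n ∈ range d | P n} := by
  induction k with
  | zero => simp
  | succ k ih =>
    have h := Nat.filter_Ico_card_eq_of_periodic (k * d) d P hP
    rw [Nat.count_eq_card_filter_range] at h
    rw [range_eq_Ico, add_mul, one_mul, ← Ico_union_Ico_eq_Ico (Nat.zero_le (k * d))
      (Nat.le_add_right _ d), filter_union, card_union_of_disjoint
      (disjoint_filter_filter (Ico_disjoint_Ico_consecutive _ _ _)), ← range_eq_Ico, ih, h]
    ring

/-- a periodic predicate in an initial interval -/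
lemma count_approx {d : ℕ} (hd : 0 < d) (P : ℕ → Prop) [DecidablePred P] (hP : Periodic P d)
    (Y : ℕ) : |(#{n ∈ range Y | P n} : ℝ) - Y * (#{n ∈ range d | P n} / d)| ≤
      #{n ∈ range d | P n} := by
  set ρ := #{n ∈ range d | P n} with hρ
  have h1 : Y / d * ρ ≤ #{n ∈ range Y | P n} := by
    rw [hρ, ← count_mul_period P hP]
    exact card_le_card (filter_subset_filter _ (range_mono (Nat.div_mul_le_self Y d)))
  have h2 : #{n ∈ range Y | P n} ≤ (Y / d + 1) * ρ := by
    rw [hρ, ← count_mul_period P hP]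
    refine card_le_card (filter_subset_filter _ (range_mono ?_))
    have := Nat.lt_div_mul_add (a := Y) hd
    rw [add_mul, one_mul]
    exact this.le
  have h3 : ((Y / d : ℕ) : ℝ) ≤ (Y : ℝ) / d := Nat.cast_div_le
  have h4 : (Y : ℝ) / d ≤ ((Y / d : ℕ) : ℝ) + 1 := by
    rw [div_le_iff₀ (by exact_mod_cast hd)]
    have := Nat.lt_div_mul_add (a := Y) hd
    have h5 : (Y : ℝ) ≤ ((Y / d * d + d : ℕ) : ℝ) := by exact_mod_cast this.le
    push_cast at h5
    linarith
  have h1' : ((Y / d : ℕ) : ℝ) * ρ ≤ #{n ∈ range Y | P n} := by exact_mod_cast h1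
  have h2' : (#{n ∈ range Y | P n} : ℝ) ≤ (((Y / d : ℕ) : ℝ) + 1) * ρ := by exact_mod_cast h2
  have hρ0 : (0 : ℝ) ≤ ρ := by positivity
  have e : (Y : ℝ) * (ρ / d) = (Y : ℝ) / d * ρ := by ring
  rw [e, abs_le]
  constructor <;> nlinarith

lemma bonf (T : Finset ℕ) (h : ℕ) (hh : Even h) :
    (if T = ∅ then (1 : ℝ) else 0) ≤
      ∑ D ∈ T.powerset, if #D ≤ h then (-1 : ℝ) ^ #D else 0 := by
  rw [sum_powerset_apply_card (fun m => if m ≤ h then (-1 : ℝ) ^ m else 0)]
  split_ifs with hT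
  · subst hT
    simp
  · obtain ⟨n, hn⟩ : ∃ n, #T = n + 1 := Nat.exists_eq_succ_of_ne_zero (card_ne_zero.2
      (nonempty_iff_ne_empty.2 hT))
    rw [hn]
    have e : ∑ m ∈ range (n + 1 + 1), (n + 1).choose m • (if m ≤ h then (-1 : ℝ) ^ m else 0) =
        ∑ m ∈ range (min h (n + 1) + 1), (-1 : ℝ) ^ m * (n + 1).choose m := by
      symm
      refine sum_subset_zero_on_sdiff (range_mono (by omega)) ?_ ?_
      · intro m hm
        simp only [mem_sdiff, mem_range] at hm
        rw [if_neg (by omega), smul_zero]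
      · intro m hm
        simp only [mem_range] at hm
        rw [if_pos (by omega), nsmul_eq_mul, mul_comm]
    have e2 := Int.alternating_sum_range_choose_eq_choose (n := n) (m := min h (n + 1))
    have e3 : ∑ m ∈ range (min h (n + 1) + 1), (-1 : ℝ) ^ m * (n + 1).choose m =
        (-1) ^ (min h (n + 1)) * n.choose (min h (n + 1)) := by exact_mod_cast e2
    rw [e, e3]
    rcases le_total h (n + 1) with h1 | h1
    · rw [min_eq_left h1, hh.neg_one_pow]
      positivity
    · rw [min_eq_right h1, Nat.choose_succ_self]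
      simp

/-- Brun's pure sieve -/
theorem brun (P : Finset ℕ) (hP : ∀ r ∈ P, r.Prime) (A : ℕ → ℕ → Prop)
    [∀ r, DecidablePred (A r)] (hA : ∀ r ∈ P, Periodic (A r) r) (g : ℕ → ℝ)
    (hg : ∀ r ∈ P, g r = #{n ∈ range r | A r n} / r) (z : ℕ) (hz1 : 1 ≤ z) (hz : ∀ r ∈ P, r ≤ z)
    (h : ℕ) (hh : Even h) (Y : ℕ) :
    (#{n ∈ range Y | ∀ r ∈ P, ¬ A r n} : ℝ) ≤
      Y * ∏ r ∈ P, (1 - g r) + (Y / 2 ^ h + z ^ h) * ∏ r ∈ P, (1 + 2 * g r) := by
  have hg0 : ∀ r ∈ P, 0 ≤ g r := fun r hr => by rw [hg r hr]; positivity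
  have hz0 : (0 : ℝ) < z := by exact_mod_cast hz1
  have step1 : (#{n ∈ range Y | ∀ r ∈ P, ¬ A r n} : ℝ) ≤ ∑ D ∈ P.powerset,
      (if #D ≤ h then (-1 : ℝ) ^ #D else 0) * #{n ∈ range Y | ∀ r ∈ D, A r n} := by
    have e1 : ∀ D ∈ P.powerset, (if #D ≤ h then (-1 : ℝ) ^ #D else 0) *
        #{n ∈ range Y | ∀ r ∈ D, A r n} = ∑ n ∈ range Y,
          if D ∈ (P.filter (fun r => A r n)).powerset then
            (if #D ≤ h then (-1 : ℝ) ^ #D else 0) else 0 := by
      intro D hD
      rw [← sum_filter, sum_const, nsmul_eq_mul, mul_comm]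
      congr 3
      refine filter_congr fun n _ => ?_
      simp only [mem_powerset] at hD ⊢
      exact ⟨fun H r hr => mem_filter.2 ⟨hD hr, H r hr⟩, fun H r hr => (mem_filter.1 (H hr)).2⟩
    rw [sum_congr rfl e1, sum_comm, card_filter]
    push_cast
    refine sum_le_sum fun n _ => ?_
    have hsub : (P.filter (fun r => A r n)).powerset ⊆ P.powerset :=
      powerset_mono.2 (filter_subset _ _)
    rw [← sum_filter, filter_mem_eq_inter, inter_eq_right.2 hsub]
    refine le_trans (le_of_eq ?_) (bonf _ h hh)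
    congr 1
    rw [filter_eq_empty_iff]
  have step2 : ∀ D ∈ P.powerset, (if #D ≤ h then (-1 : ℝ) ^ #D else 0) *
      #{n ∈ range Y | ∀ r ∈ D, A r n} ≤ Y * ∏ r ∈ D, (-g r) +
        (Y / 2 ^ h + z ^ h) * ∏ r ∈ D, (2 * g r) := by
    intro D hD
    have hDP : D ⊆ P := mem_powerset.1 hD
    have hG0 : 0 ≤ ∏ r ∈ D, g r := prod_nonneg fun r hr => hg0 r (hDP hr)
    have e1 : ∏ r ∈ D, (-g r) = (-1) ^ #D * ∏ r ∈ D, g r := by
      rw [← prod_const, ← prod_mul_distrib]
      exact prod_congr rfl fun r _ => by ring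
    have e2 : ∏ r ∈ D, (2 * g r) = 2 ^ #D * ∏ r ∈ D, g r := by
      rw [prod_mul_distrib, prod_const]
    have hY0 : (0 : ℝ) ≤ Y := by positivity
    have habs : |(-1 : ℝ) ^ #D| = 1 := by rw [abs_pow, abs_neg, abs_one, one_pow]
    rw [e1, e2]
    split_ifs with hc
    · have hap := count_approx (prod_pos fun r hr => (hP r (hDP hr)).pos)
        (fun n => ∀ r ∈ D, A r n) (periodic_forall D A fun r hr => hA r (hDP hr)) Y
      rw [count_prod D (fun r hr => hP r (hDP hr)) A fun r hr => hA r (hDP hr)] at hap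
      push_cast at hap
      rw [← prod_div_distrib, ← prod_congr rfl fun r hr => hg r (hDP hr)] at hap
      have e3 : ∏ r ∈ D, (#{n ∈ range r | A r n} : ℝ) ≤ z ^ h * ∏ r ∈ D, g r := by
        calc ∏ r ∈ D, (#{n ∈ range r | A r n} : ℝ) ≤ ∏ r ∈ D, (z * g r) := by
              refine prod_le_prod (fun r _ => by positivity) fun r hr => ?_
              have hr0 : (0 : ℝ) < r := by exact_mod_cast (hP r (hDP hr)).pos
              have hrz : (r : ℝ) ≤ z := by exact_mod_cast hz r (hDP hr)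
              rw [hg r (hDP hr), ← mul_div_assoc, le_div_iff₀ hr0, mul_comm]
              exact mul_le_mul_of_nonneg_right hrz (by positivity)
          _ = z ^ #D * ∏ r ∈ D, g r := by rw [prod_mul_distrib, prod_const]
          _ ≤ z ^ h * ∏ r ∈ D, g r := mul_le_mul_of_nonneg_right
              (pow_le_pow_right₀ (by exact_mod_cast hz1) hc) hG0
      have e4 : (-1 : ℝ) ^ #D * (#{n ∈ range Y | ∀ r ∈ D, A r n} - Y * ∏ r ∈ D, g r) ≤
          z ^ h * ∏ r ∈ D, g r := by
        refine (le_abs_self _).trans ?_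
        rw [abs_mul, habs, one_mul]
        exact hap.trans e3
      have e5 : (1 : ℝ) ≤ 2 ^ #D := one_le_pow₀ (by norm_num)
      have e6 : (0 : ℝ) ≤ Y / 2 ^ h * (2 ^ #D * ∏ r ∈ D, g r) := by positivity
      have e7 : (z : ℝ) ^ h * ∏ r ∈ D, g r ≤ z ^ h * (2 ^ #D * ∏ r ∈ D, g r) :=
        mul_le_mul_of_nonneg_left (le_mul_of_one_le_left hG0 e5) (by positivity)
      nlinarith
    · have e5 : (1 : ℝ) ≤ 2 ^ #D / 2 ^ h := by
        rw [le_div_iff₀ (by positivity), one_mul]
        exact pow_le_pow_right₀ (by norm_num) (by omega)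
      have e6 : (0 : ℝ) ≤ z ^ h * (2 ^ #D * ∏ r ∈ D, g r) := by positivity
      have e7 : -1 ≤ (-1 : ℝ) ^ #D := by have := abs_le.1 habs.le; exact this.1
      have e8 : 0 ≤ (Y * ∏ r ∈ D, g r) * ((-1 : ℝ) ^ #D + 2 ^ #D / 2 ^ h) :=
        mul_nonneg (by positivity) (by linarith)
      have e9 : Y * ((-1 : ℝ) ^ #D * ∏ r ∈ D, g r) + (Y / 2 ^ h + z ^ h) *
          (2 ^ #D * ∏ r ∈ D, g r) = (Y * ∏ r ∈ D, g r) * ((-1 : ℝ) ^ #D + 2 ^ #D / 2 ^ h) +
            z ^ h * (2 ^ #D * ∏ r ∈ D, g r) := by ring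
      rw [e9, zero_mul]
      linarith
  refine step1.trans ((sum_le_sum step2).trans (le_of_eq ?_))
  rw [sum_add_distrib, ← mul_sum, ← mul_sum, ← prod_one_add, ← prod_one_add]
  simp only [sub_eq_add_neg]

/-- sum of the reciprocals of the primes up to a power of two -/
lemma sum_inv_primes_le (n : ℕ) :
    ∑ r ∈ (range (2 ^ (n + 1) + 1)).filter Nat.Prime, (r : ℝ)⁻¹ ≤ 1 / 2 + 4 * (harmonic n : ℝ) := by
  induction n with
  | zero =>
    have : (range (2 ^ (0 + 1) + 1)).filter Nat.Prime = {2} := by decide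
    rw [this]
    norm_num
  | succ n ih =>
    set B := (Ico (2 ^ (n + 1) + 1) (2 ^ (n + 1 + 1) + 1)).filter Nat.Prime with hB
    have hle : 2 ^ (n + 1) + 1 ≤ 2 ^ (n + 1 + 1) + 1 := by
      have := Nat.pow_le_pow_right (show 0 < 2 by norm_num) (Nat.le_succ (n + 1))
      omega
    have e : (range (2 ^ (n + 1 + 1) + 1)).filter Nat.Prime =
        (range (2 ^ (n + 1) + 1)).filter Nat.Prime ∪ B := by
      rw [hB, ← filter_union, range_eq_Ico, range_eq_Ico, Ico_union_Ico_eq_Ico (Nat.zero_le _) hle]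
    have hdis : Disjoint ((range (2 ^ (n + 1) + 1)).filter Nat.Prime) B := by
      rw [hB, range_eq_Ico]
      exact disjoint_filter_filter (Ico_disjoint_Ico_consecutive _ _ _)
    have h1 : (2 ^ (n + 1)) ^ #B ≤ 4 ^ (2 ^ (n + 1 + 1)) := by
      refine le_trans ?_ (primorial_le_four_pow _)
      calc (2 ^ (n + 1)) ^ #B ≤ ∏ r ∈ B, r := pow_card_le_prod B (fun r => r) _ fun r hr => by
            simp only [hB, mem_filter, mem_Ico] at hr
            omega
        _ ≤ primorial (2 ^ (n + 1 + 1)) := by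
            unfold primorial
            refine prod_le_prod_of_subset_of_one_le' (by rw [e]; exact subset_union_right) ?_
            intro r hr _
            exact (mem_filter.1 hr).2.one_le
    have h2 : (n + 1) * #B ≤ 4 * 2 ^ (n + 1) := by
      rw [← pow_mul, show 4 = 2 ^ 2 by norm_num, ← pow_mul] at h1
      have := (Nat.pow_le_pow_iff_right (by norm_num)).1 h1
      rw [pow_succ 2 (n + 1)] at this
      omega
    have h3 : ∑ r ∈ B, (r : ℝ)⁻¹ ≤ 4 * ((n + 1 : ℕ) : ℝ)⁻¹ := by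
      have h4 : ∑ r ∈ B, (r : ℝ)⁻¹ ≤ #B • ((2 : ℝ) ^ (n + 1))⁻¹ := by
        refine sum_le_card_nsmul _ _ _ fun r hr => ?_
        simp only [hB, mem_filter, mem_Ico] at hr
        refine inv_anti₀ (by positivity) ?_
        exact_mod_cast (by omega : 2 ^ (n + 1) ≤ r)
      refine h4.trans ?_
      rw [nsmul_eq_mul, ← div_eq_mul_inv, ← div_eq_mul_inv,
        div_le_div_iff₀ (by positivity) (by positivity)]
      have : (((n + 1) * #B : ℕ) : ℝ) ≤ ((4 * 2 ^ (n + 1) : ℕ) : ℝ) := by exact_mod_cast h2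
      push_cast at this ⊢
      linarith
    rw [e, sum_union hdis, harmonic_succ]
    push_cast at h3 ⊢
    linarith

lemma exp_sum_inv_primes_le (n : ℕ) (hn : 1 ≤ n) :
    Real.exp (4 * ∑ r ∈ (range (2 ^ n + 1)).filter Nat.Prime, (r : ℝ)⁻¹) ≤
      Real.exp 18 * n ^ 16 := by
  have h1 : ∑ r ∈ (range (2 ^ n + 1)).filter Nat.Prime, (r : ℝ)⁻¹ ≤
      ∑ r ∈ (range (2 ^ (n + 1) + 1)).filter Nat.Prime, (r : ℝ)⁻¹ := by
    refine sum_le_sum_of_subset_of_nonneg (filter_subset_filter _ (range_mono ?_))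
      fun r _ _ => by positivity
    have := Nat.pow_le_pow_right (show 0 < 2 by norm_num) (Nat.le_succ n)
    omega
  have h2 := sum_inv_primes_le n
  have h3 := harmonic_le_one_add_log n
  have hn0 : (0 : ℝ) < n := by exact_mod_cast hn
  calc _ ≤ Real.exp (18 + 16 * Real.log n) := Real.exp_le_exp.2 (by linarith)
    _ = Real.exp 18 * n ^ 16 := by
      rw [Real.exp_add, show (16 : ℝ) * Real.log n = (16 : ℕ) * Real.log n by norm_num,
        ← Real.log_pow, Real.exp_log (by positivity)]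

/-- lower bound in Mertens' product -/
lemma log_le_prod_inv (z : ℕ) :
    Real.log (z + 1) ≤ ∏ r ∈ (range (z + 1)).filter Nat.Prime, (1 - (r : ℝ)⁻¹)⁻¹ := by
  let f : ℕ →* ℝ := ⟨⟨fun n => (n : ℝ)⁻¹, by simp⟩, fun a b => by simp [mul_comm]⟩
  have hf : ∀ {p : ℕ}, p.Prime → ‖f p‖ < 1 := by
    intro p hp
    have : (1 : ℝ) < p := by exact_mod_cast hp.one_lt
    show ‖(p : ℝ)⁻¹‖ < 1
    rw [norm_inv, Real.norm_natCast]
    exact inv_lt_one_of_one_lt₀ this
  have hs := (EulerProduct.summable_and_hasSum_factoredNumbers_prod_filter_prime_geometric hf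
    (range (z + 1))).2
  have hs2 : HasSum ((Nat.factoredNumbers (range (z + 1))).indicator fun n : ℕ => (n : ℝ)⁻¹)
      (∏ r ∈ (range (z + 1)).filter Nat.Prime, (1 - (r : ℝ)⁻¹)⁻¹) :=
    hasSum_subtype_iff_indicator.1 hs
  have h3 := sum_le_hasSum (Icc 1 z) (fun n _ => Set.indicator_nonneg
    (fun m _ => by positivity) n) hs2
  refine le_trans ?_ h3
  have h4 := log_add_one_le_harmonic z
  rw [harmonic_eq_sum_Icc] at h4
  push_cast at h4
  refine h4.trans (le_of_eq (sum_congr rfl fun n hn => ?_))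
  rw [Set.indicator_of_mem]
  simp only [mem_Icc] at hn
  rw [Nat.mem_factoredNumbers']
  intro p _ hp
  have := Nat.le_of_dvd (by omega) hp
  simp only [mem_range]
  omega

end Pool.Agent.Shared.BrunSieve
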