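import Pool.Agent.Shared.Brouwer

/-!
Unbundled null-homotopies of maps between subsets of normed spaces.
-/

set_option autoImplicit false
set_option linter.unusedSectionVars false

open Set Metric
open scoped Topology

namespace Pool.Agent.Shared.Brouwer

/-- `f`, seen as a map from `s` to `t`, is homotopic to a constant. -/
def NullIn {X Y : Type*} [TopologicalSpace X] [TopologicalSpace Y] (f : X → Y) (s : Set X)
    (t : Set Y) : Prop :=
  ∃ (H : ℝ × X → Y) (y : Y), ContinuousOn H (Icc 0 1 ×ˢ s) ∧ MapsTo H (Icc 0 1 ×ˢ s) t ∧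
    (∀ x ∈ s, H (0, x) = f x) ∧ (∀ x ∈ s, H (1, x) = y) ∧ y ∈ t

section Basic

variable {X Y Z : Type*} [TopologicalSpace X] [TopologicalSpace Y] [TopologicalSpace Z]

theorem NullIn.congr {f g : X → Y} {s : Set X} {t : Set Y} (h : NullIn f s t) (e : EqOn g f s) :
    NullIn g s t := by
  obtain ⟨H, y, h1, h2, h3, h4, h5⟩ := h
  exact ⟨H, y, h1, h2, fun x hx => (h3 x hx).trans (e hx).symm, h4, h5⟩

theorem NullIn.comp_left {f : X → Y} {s : Set X} {t : Set Y} (h : NullIn f s t) {g : Y → Z}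
    {u : Set Z} (hg : ContinuousOn g t) (hm : MapsTo g t u) : NullIn (fun x => g (f x)) s u := by
  obtain ⟨H, y, h1, h2, h3, h4, h5⟩ := h
  exact ⟨fun p => g (H p), g y, hg.comp h1 h2, hm.comp h2, fun x hx => by simp only [h3 x hx],
    fun x hx => by simp only [h4 x hx], hm h5⟩

theorem NullIn.mono {f : X → Y} {s : Set X} {t u : Set Y} (h : NullIn f s t) (htu : t ⊆ u) :
    NullIn f s u := h.comp_left continuousOn_id htu

theorem NullIn.comp_right {f : X → Y} {s : Set X} {t : Set Y} (h : NullIn f s t) {g : Z → X}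
    {r : Set Z} (hg : ContinuousOn g r) (hm : MapsTo g r s) : NullIn (fun x => f (g x)) r t := by
  obtain ⟨H, y, h1, h2, h3, h4, h5⟩ := h
  have hm' : MapsTo (fun p : ℝ × Z => (p.1, g p.2)) (Icc 0 1 ×ˢ r) (Icc 0 1 ×ˢ s) :=
    fun p hp => ⟨hp.1, hm hp.2⟩
  refine ⟨fun p => H (p.1, g p.2), y, h1.comp ?_ hm', h2.comp hm', fun x hx => h3 _ (hm hx),
    fun x hx => h4 _ (hm hx), h5⟩
  exact continuousOn_fst.prodMk (hg.comp continuousOn_snd (fun p hp => hp.2))

end Basic

section Normed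

variable {X Y : Type*} [TopologicalSpace X] [NormedAddCommGroup Y] [NormedSpace ℝ Y]

theorem NullIn.of_homotopy {f g : X → Y} {s : Set X} {t : Set Y} (h : NullIn g s t)
    (A : ℝ × X → Y) (hA : ContinuousOn A (Icc 0 1 ×ˢ s)) (hm : MapsTo A (Icc 0 1 ×ˢ s) t)
    (h0 : ∀ x ∈ s, A (0, x) = f x) (h1 : ∀ x ∈ s, A (1, x) = g x) : NullIn f s t := by
  obtain ⟨H, y, k1, k2, k3, k4, k5⟩ := h
  have m1 : MapsTo (fun p : ℝ × X => (min (2 * p.1) 1, p.2)) (Icc 0 1 ×ˢ s) (Icc 0 1 ×ˢ s) :=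
    fun p hp => ⟨⟨le_min (by linarith [hp.1.1]) zero_le_one, min_le_right _ _⟩, hp.2⟩
  have m2 : MapsTo (fun p : ℝ × X => (max (2 * p.1 - 1) 0, p.2)) (Icc 0 1 ×ˢ s) (Icc 0 1 ×ˢ s) :=
    fun p hp => ⟨⟨le_max_right _ _, max_le (by linarith [hp.1.2]) zero_le_one⟩, hp.2⟩
  have m3 : MapsTo (fun p : ℝ × X => ((0 : ℝ), p.2)) (Icc 0 1 ×ˢ s) (Icc 0 1 ×ˢ s) :=
    fun p hp => ⟨⟨le_rfl, zero_le_one⟩, hp.2⟩
  refine ⟨fun p => A (min (2 * p.1) 1, p.2) + H (max (2 * p.1 - 1) 0, p.2) - H (0, p.2), y,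
    ?_, ?_, ?_, ?_, k5⟩
  · exact ((hA.comp (by fun_prop) m1).add (k1.comp (by fun_prop) m2)).sub
      (k1.comp (by fun_prop) m3)
  · intro p hp
    by_cases hc : 2 * p.1 ≤ 1
    · have : max (2 * p.1 - 1) 0 = 0 := max_eq_right (by linarith)
      simp only [this, add_sub_cancel_right]
      exact hm (m1 hp)
    · have : min (2 * p.1) 1 = 1 := min_eq_right (by linarith)
      simp only [this, h1 _ hp.2, k3 _ hp.2, add_sub_cancel_left]
      exact k2 (m2 hp)
  · intro x hx
    simp [h0 x hx]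
  · intro x hx
    norm_num [h1 x hx, k3 x hx, k4 x hx]

theorem NullIn.of_segment {f g : X → Y} {s : Set X} {t : Set Y} (h : NullIn g s t)
    (hf : ContinuousOn f s) (hg : ContinuousOn g s)
    (hm : ∀ x ∈ s, ∀ τ : ℝ, 0 ≤ τ → τ ≤ 1 → (1 - τ) • f x + τ • g x ∈ t) : NullIn f s t := by
  refine h.of_homotopy (fun p => (1 - p.1) • f p.2 + p.1 • g p.2) ?_
    (fun p hp => hm _ hp.2 _ hp.1.1 hp.1.2) (by simp) (by simp)
  have hf' : ContinuousOn (fun p : ℝ × X => f p.2) (Icc 0 1 ×ˢ s) :=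
    hf.comp continuousOn_snd (fun p hp => hp.2)
  have hg' : ContinuousOn (fun p : ℝ × X => g p.2) (Icc 0 1 ×ˢ s) :=
    hg.comp continuousOn_snd (fun p hp => hp.2)
  exact (ContinuousOn.smul (by fun_prop) hf').add (ContinuousOn.smul (by fun_prop) hg')

theorem nullIn_const {s : Set X} {t : Set Y} {y : Y} (hy : y ∈ t) : NullIn (fun _ => y) s t :=
  ⟨fun _ => y, y, continuousOn_const, fun _ _ => hy, fun _ _ => rfl, fun _ _ => rfl, hy⟩

theorem nullIn_of_star {f : X → Y} {s : Set X} {t : Set Y} {y : Y} (hy : y ∈ t)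
    (hf : ContinuousOn f s)
    (hm : ∀ x ∈ s, ∀ τ : ℝ, 0 ≤ τ → τ ≤ 1 → (1 - τ) • f x + τ • y ∈ t) : NullIn f s t :=
  (nullIn_const hy).of_segment hf continuousOn_const hm

end Normed

section Sphere

theorem not_nullIn_sphere {E : Type*} [NormedAddCommGroup E] [InnerProductSpace ℝ E]
    [FiniteDimensional ℝ E] : ¬ NullIn (fun x : E => x) (sphere 0 1) {0}ᶜ := by
  classical
  rintro ⟨H, y, h1, h2, h3, h4, h5⟩
  let F : E → E := fun x => if ‖x‖ ≤ 1 / 2 then y else H (2 - 2 * ‖x‖, ‖x‖⁻¹ • x)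
  have hn : ∀ x : E, 1 / 2 ≤ ‖x‖ → ‖x‖⁻¹ • x ∈ sphere (0 : E) 1 := by
    intro x hx
    rw [mem_sphere_zero_iff_norm, norm_smul, norm_inv, norm_norm, inv_mul_cancel₀ (by linarith)]
  have hmaps : MapsTo (fun x : E => (2 - 2 * ‖x‖, ‖x‖⁻¹ • x))
      (closedBall 0 1 ∩ {x | 1 / 2 ≤ ‖x‖}) (Icc 0 1 ×ˢ sphere 0 1) := by
    rintro x ⟨hx1, hx2⟩
    rw [mem_closedBall_zero_iff] at hx1
    have hx2' : 1 / 2 ≤ ‖x‖ := hx2
    exact ⟨⟨by linarith, by linarith⟩, hn x hx2'⟩
  have hF : ContinuousOn F (closedBall 0 1) := by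
    have e : closedBall (0 : E) 1 =
        (closedBall 0 1 ∩ {x | ‖x‖ ≤ 1 / 2}) ∪ (closedBall 0 1 ∩ {x | 1 / 2 ≤ ‖x‖}) := by
      rw [← inter_union_distrib_left]
      exact (inter_eq_left.mpr fun x _ => le_total ‖x‖ (1 / 2)).symm
    rw [e]
    apply ContinuousOn.union_of_isClosed
    · exact (continuousOn_const (c := y)).congr (fun x hx => if_pos hx.2)
    · refine (h1.comp ?_ hmaps).congr ?_
      · refine ContinuousOn.prodMk (by fun_prop) (ContinuousOn.smul ?_ continuousOn_id)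
        refine continuous_norm.continuousOn.inv₀ fun x hx => ?_
        have : 1 / 2 ≤ ‖x‖ := hx.2
        linarith
      · intro x hx
        have hx2 : 1 / 2 ≤ ‖x‖ := hx.2
        simp only [F, Function.comp_apply]
        split_ifs with hc
        · have : 2 - 2 * ‖x‖ = 1 := by linarith
          rw [this, h4 _ (hn x hx2)]
        · rfl
    · exact isClosed_closedBall.inter (isClosed_le continuous_norm continuous_const)
    · exact isClosed_closedBall.inter (isClosed_le continuous_const continuous_norm)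
  obtain ⟨x, hx, hx0⟩ := exists_zero_of_eq_on_sphere F hF (by
    intro x hx
    have : ¬ ‖x‖ ≤ 1 / 2 := by rw [hx]; norm_num
    simp only [F, if_neg this, hx]
    norm_num
    exact h3 x (mem_sphere_zero_iff_norm.mpr hx))
  simp only [F] at hx0
  split_ifs at hx0 with hc
  · exact h5 hx0
  · exact h2 (hmaps ⟨hx, (not_le.mp hc).le⟩) hx0

/-- The level set of a continuous, positive, positively homogeneous function on a finite
dimensional space is not null-homotopic in the punctured space. -/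
theorem not_nullIn_level {V : Type*} [NormedAddCommGroup V] [NormedSpace ℝ V]
    [FiniteDimensional ℝ V] (N : V → ℝ) (hc : Continuous N) (hpos : ∀ x, x ≠ 0 → 0 < N x)
    (hhom : ∀ (t : ℝ) x, 0 < t → N (t • x) = t * N x) :
    ¬ NullIn (fun x : V => x) {x | N x = 1} {0}ᶜ := by
  intro h
  let e := toEuclidean (E := V)
  apply not_nullIn_sphere (E := EuclideanSpace ℝ (Fin (Module.finrank ℝ V)))
  have hne : ∀ u ∈ sphere (0 : EuclideanSpace ℝ (Fin (Module.finrank ℝ V))) 1, e.symm u ≠ 0 := by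
    intro u hu h0
    have : u = 0 := by simpa using h0
    simp [this] at hu
  have hcont : ContinuousOn (fun u => (N (e.symm u))⁻¹ • e.symm u)
      (sphere (0 : EuclideanSpace ℝ (Fin (Module.finrank ℝ V))) 1) :=
    ContinuousOn.smul ((hc.comp e.symm.continuous).continuousOn.inv₀
      (fun u hu => (hpos _ (hne u hu)).ne')) e.symm.continuous.continuousOn
  have h1 := (h.comp_right hcont (by
    intro u hu
    have := hpos _ (hne u hu)
    change N _ = 1
    rw [hhom _ _ (inv_pos.mpr this), inv_mul_cancel₀ this.ne'])).comp_left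
      (g := e) (u := {0}ᶜ) e.continuous.continuousOn (fun x hx => by simpa using hx)
  refine h1.of_segment continuousOn_id (e.continuous.comp_continuousOn hcont) ?_
  intro u hu τ h0 h1
  have hp := hpos _ (hne u hu)
  have hu0 : u ≠ 0 := by rintro rfl; simp at hu
  simp only [map_smul, ContinuousLinearEquiv.apply_symm_apply, smul_smul, ← add_smul,
    mem_compl_iff, mem_singleton_iff, smul_eq_zero, hu0, or_false]
  have := inv_pos.mpr hp
  rcases h1.lt_or_eq with h | h
  · nlinarith [mul_nonneg h0 this.le]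
  · subst h; simpa using hp.ne'

end Sphere

end Pool.Agent.Shared.Brouwer
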