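import Mathlib

/-!
A variable version of the local lemma, proved by counting (Rosenfeld style).

* `exists_avoid`: bad events `B i` on the finite product space `V → α`, each determined by the
  coordinates in `e i`, of probability at most `p i`.  If for every coordinate `v` the sum of
  `p i / γ ^ #(e i)` over the events using `v` is at most `1 - γ`, some point avoids all events.
* `exists_polychromatic`: a hypergraph in which every vertex has small weighted degree has a
  colouring with `c` colours in which every edge sees every colour.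
-/

set_option autoImplicit false

namespace Pool.Agent.Shared.CountingLLL

open Finset

section
variable {V α : Type*} [Fintype V] [DecidableEq V] [Fintype α] [DecidableEq α]

/-- Independence of an event not depending on the coordinates in `E` and an event depending only
on the coordinates in `E`. -/
theorem card_inter_mul (E : Finset V) (G B : Finset (V → α))
    (hG : ∀ φ ψ : V → α, (∀ v, v ∉ E → φ v = ψ v) → φ ∈ G → ψ ∈ G)
    (hB : ∀ φ ψ : V → α, (∀ v, v ∈ E → φ v = ψ v) → φ ∈ B → ψ ∈ B) :
    (G ∩ B).card * Fintype.card (V → α) = G.card * B.card := by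
  rw [← Finset.card_univ, ← Finset.card_product, ← Finset.card_product]
  let σ : (V → α) × (V → α) → (V → α) × (V → α) :=
    fun q => (E.piecewise q.2 q.1, E.piecewise q.1 q.2)
  have hσ : ∀ q, σ (σ q) = q := by
    intro q
    apply Prod.ext
    · funext v
      by_cases hv : v ∈ E <;> simp [σ, Finset.piecewise, hv]
    · funext v
      by_cases hv : v ∈ E <;> simp [σ, Finset.piecewise, hv]
  refine Finset.card_nbij' σ σ ?_ ?_ (fun q _ => hσ q) (fun q _ => hσ q)
  · intro q hq
    simp only [Finset.coe_product, Set.mem_prod, Finset.mem_coe, Finset.mem_inter] at hq ⊢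
    refine ⟨hG q.1 _ ?_ hq.1.1, hB q.1 _ ?_ hq.1.2⟩
    · intro v hv; simp [σ, Finset.piecewise, hv]
    · intro v hv; simp [σ, Finset.piecewise, hv]
  · intro q hq
    simp only [Finset.coe_product, Set.mem_prod, Finset.mem_coe, Finset.mem_inter] at hq ⊢
    refine ⟨⟨hG q.1 _ ?_ hq.1, hB q.2 _ ?_ hq.2⟩, Finset.mem_univ _⟩
    · intro v hv; simp [σ, Finset.piecewise, hv]
    · intro v hv; simp [σ, Finset.piecewise, hv]

/-- The points avoiding all events whose support lies inside `S`. -/
def good {ι : Type*} (s : Finset ι) (e : ι → Finset V) (B : ι → Finset (V → α)) (S : Finset V) :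
    Finset (V → α) :=
  Finset.univ.filter fun φ => ∀ i ∈ s, e i ⊆ S → φ ∉ B i

theorem mem_good {ι : Type*} {s : Finset ι} {e : ι → Finset V} {B : ι → Finset (V → α)}
    {S : Finset V} {φ : V → α} :
    φ ∈ good s e B S ↔ ∀ i ∈ s, e i ⊆ S → φ ∉ B i := by
  simp [good]

theorem good_step {ι : Type*} (s : Finset ι) (e : ι → Finset V) (B : ι → Finset (V → α))
    (hdep : ∀ i ∈ s, ∀ φ ψ : V → α, (∀ v, v ∈ e i → φ v = ψ v) → φ ∈ B i → ψ ∈ B i)
    (p : ι → ℝ) (hp0 : ∀ i ∈ s, 0 ≤ p i)
    (hp : ∀ i ∈ s, ((B i).card : ℝ) ≤ p i * Fintype.card (V → α))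
    (γ : ℝ) (hγ0 : 0 < γ) (hγ1 : γ ≤ 1)
    (h : ∀ v, ∑ i ∈ s, (if v ∈ e i then p i / γ ^ (e i).card else 0) ≤ 1 - γ) [Nonempty α] :
    ∀ (n : ℕ) (S : Finset V), S.card = n → ∀ v, v ∉ S →
      γ * ((good s e B S).card : ℝ) ≤ (good s e B (insert v S)).card := by
  classical
  intro n
  induction n using Nat.strong_induction_on with
  | _ n ih =>
  intro S hS v hv
  -- iterated form of the induction hypothesis
  have iter : ∀ (m : ℕ) (T : Finset V), T ⊆ S → (S \ T).card = m →
      γ ^ m * ((good s e B T).card : ℝ) ≤ (good s e B S).card := by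
    intro m
    induction m with
    | zero =>
      intro T hT hm
      have : T = S := by
        have h0 : S \ T = ∅ := Finset.card_eq_zero.1 hm
        exact Finset.Subset.antisymm hT (Finset.sdiff_eq_empty_iff_subset.1 h0)
      subst this
      simp
    | succ m ihm =>
      intro T hT hm
      obtain ⟨u, hu⟩ : (S \ T).Nonempty := Finset.card_pos.1 (by omega)
      have huS : u ∈ S := (Finset.mem_sdiff.1 hu).1
      have huT : u ∉ T := (Finset.mem_sdiff.1 hu).2
      have hlt : T.card < n := by
        rw [← hS]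
        exact Finset.card_lt_card ⟨hT, fun h' => huT (h' huS)⟩
      have h1 := ih T.card hlt T rfl u huT
      have h2 := ihm (insert u T) (Finset.insert_subset huS hT) (by
        have : S \ insert u T = (S \ T).erase u := by
          ext w; simp [Finset.mem_sdiff, Finset.mem_erase]; tauto
        rw [this, Finset.card_erase_of_mem hu]; omega)
      calc γ ^ (m + 1) * ((good s e B T).card : ℝ)
          = γ ^ m * (γ * ((good s e B T).card : ℝ)) := by ring
        _ ≤ γ ^ m * ((good s e B (insert u T)).card : ℝ) :=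
          mul_le_mul_of_nonneg_left h1 (pow_nonneg hγ0.le m)
        _ ≤ _ := h2
  have hN : (0 : ℝ) < Fintype.card (V → α) := by exact_mod_cast Fintype.card_pos
  -- each relevant event removes a small fraction
  have each : ∀ i ∈ s, (((good s e B (S \ e i)) ∩ B i).card : ℝ) ≤
      p i / γ ^ (e i).card * (good s e B S).card := by
    intro i hi
    have hind := card_inter_mul (e i) (good s e B (S \ e i)) (B i) (by
      intro φ ψ hφψ hφ
      rw [mem_good] at hφ ⊢
      intro j hj hsub hψ
      refine hφ j hj hsub (hdep j hj ψ φ ?_ hψ)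
      intro w hw
      exact (hφψ w (Finset.mem_sdiff.1 (hsub hw)).2).symm) (hdep i hi)
    have hind' : (((good s e B (S \ e i)) ∩ B i).card : ℝ) * Fintype.card (V → α) =
        (good s e B (S \ e i)).card * (B i).card := by exact_mod_cast hind
    have h3 : (((good s e B (S \ e i)) ∩ B i).card : ℝ) ≤ p i * (good s e B (S \ e i)).card := by
      apply le_of_mul_le_mul_right _ hN
      rw [hind']
      calc ((good s e B (S \ e i)).card : ℝ) * (B i).card
          ≤ (good s e B (S \ e i)).card * (p i * Fintype.card (V → α)) :=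
            mul_le_mul_of_nonneg_left (hp i hi) (Nat.cast_nonneg _)
        _ = _ := by ring
    have h4 := iter (S \ (S \ e i)).card (S \ e i) Finset.sdiff_subset rfl
    have h5 : (S \ (S \ e i)).card ≤ (e i).card := by
      apply Finset.card_le_card
      intro w hw
      simp only [Finset.mem_sdiff, not_and, not_not] at hw
      exact hw.2 hw.1
    have h6 : γ ^ (e i).card ≤ γ ^ (S \ (S \ e i)).card := pow_le_pow_of_le_one hγ0.le hγ1 h5
    have h7 : γ ^ (e i).card * ((good s e B (S \ e i)).card : ℝ) ≤ (good s e B S).card :=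
      le_trans (mul_le_mul_of_nonneg_right h6 (Nat.cast_nonneg _)) h4
    have hpos : 0 < γ ^ (e i).card := pow_pos hγ0 _
    calc (((good s e B (S \ e i)) ∩ B i).card : ℝ) ≤ p i * (good s e B (S \ e i)).card := h3
      _ = p i / γ ^ (e i).card * (γ ^ (e i).card * (good s e B (S \ e i)).card) := by
        field_simp
      _ ≤ _ := mul_le_mul_of_nonneg_left h7 (div_nonneg (hp0 i hi) hpos.le)
  -- covering
  have cover : good s e B S ⊆ good s e B (insert v S) ∪
      (s.filter fun i => v ∈ e i).biUnion fun i => (good s e B (S \ e i)) ∩ B i := by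
    intro φ hφ
    by_cases hg : φ ∈ good s e B (insert v S)
    · exact Finset.mem_union_left _ hg
    · apply Finset.mem_union_right
      rw [mem_good] at hg hφ
      push Not at hg
      obtain ⟨i, hi, hsub, hB⟩ := hg
      have hvi : v ∈ e i := by
        by_contra hvi
        refine hφ i hi ?_ hB
        intro w hw
        rcases Finset.mem_insert.1 (hsub hw) with rfl | h'
        · exact absurd hw hvi
        · exact h'
      refine Finset.mem_biUnion.2 ⟨i, Finset.mem_filter.2 ⟨hi, hvi⟩, Finset.mem_inter.2 ⟨?_, hB⟩⟩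
      rw [mem_good]
      intro j hj hjs
      exact hφ j hj (hjs.trans Finset.sdiff_subset)
  have hc1 : ((good s e B S).card : ℝ) ≤ (good s e B (insert v S)).card +
      ∑ i ∈ s.filter (fun i => v ∈ e i), (((good s e B (S \ e i)) ∩ B i).card : ℝ) := by
    have := (Finset.card_le_card cover).trans ((Finset.card_union_le _ _).trans
      (Nat.add_le_add_left Finset.card_biUnion_le _))
    exact_mod_cast this
  have hc2 : ∑ i ∈ s.filter (fun i => v ∈ e i), (((good s e B (S \ e i)) ∩ B i).card : ℝ) ≤
      (1 - γ) * (good s e B S).card := by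
    calc ∑ i ∈ s.filter (fun i => v ∈ e i), (((good s e B (S \ e i)) ∩ B i).card : ℝ)
        ≤ ∑ i ∈ s.filter (fun i => v ∈ e i), p i / γ ^ (e i).card * (good s e B S).card :=
          Finset.sum_le_sum fun i hi => each i (Finset.mem_filter.1 hi).1
      _ = (∑ i ∈ s, (if v ∈ e i then p i / γ ^ (e i).card else 0)) * (good s e B S).card := by
          rw [← Finset.sum_mul, Finset.sum_filter]
      _ ≤ _ := mul_le_mul_of_nonneg_right (h v) (Nat.cast_nonneg _)
  linarith

/-- Variable version of the local lemma. -/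
theorem exists_avoid {ι : Type*} (s : Finset ι) (e : ι → Finset V) (B : ι → Finset (V → α))
    (hne : ∀ i ∈ s, (e i).Nonempty)
    (hdep : ∀ i ∈ s, ∀ φ ψ : V → α, (∀ v, v ∈ e i → φ v = ψ v) → φ ∈ B i → ψ ∈ B i)
    (p : ι → ℝ) (hp0 : ∀ i ∈ s, 0 ≤ p i)
    (hp : ∀ i ∈ s, ((B i).card : ℝ) ≤ p i * Fintype.card (V → α))
    (γ : ℝ) (hγ0 : 0 < γ) (hγ1 : γ ≤ 1)
    (h : ∀ v, ∑ i ∈ s, (if v ∈ e i then p i / γ ^ (e i).card else 0) ≤ 1 - γ) [Nonempty α] :
    ∃ φ : V → α, ∀ i ∈ s, φ ∉ B i := by
  have key : ∀ S : Finset V, 0 < (good s e B S).card := by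
    intro S
    induction S using Finset.induction_on with
    | empty =>
      apply Finset.card_pos.2
      refine ⟨fun _ => Classical.arbitrary α, ?_⟩
      rw [mem_good]
      intro i hi hsub
      obtain ⟨w, hw⟩ := hne i hi
      exact absurd (hsub hw) (Finset.notMem_empty w)
    | insert v S hv ih =>
      have h1 := good_step s e B hdep p hp0 hp γ hγ0 hγ1 h S.card S rfl v hv
      have h2 : (0 : ℝ) < γ * ((good s e B S).card : ℝ) :=
        mul_pos hγ0 (by exact_mod_cast ih)
      exact_mod_cast lt_of_lt_of_le h2 h1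
  obtain ⟨φ, hφ⟩ := Finset.card_pos.1 (key Finset.univ)
  rw [mem_good] at hφ
  exact ⟨φ, fun i hi => hφ i hi (Finset.subset_univ _)⟩

end

/-- A hypergraph with nonempty edges in which each vertex `v` satisfies
`∑_{e ∋ v} (1 - 1/(2c)) ^ #e ≤ 1/(2c²)` has a colouring with `c` colours in which every edge sees
every colour. -/
theorem exists_polychromatic {V ι : Type*} [Fintype V] [DecidableEq V] (c : ℕ) (hc : 1 ≤ c)
    (s : Finset ι) (e : ι → Finset V) (hne : ∀ i ∈ s, (e i).Nonempty)
    (h : ∀ v, ∑ i ∈ s, (if v ∈ e i then (1 - 1 / (2 * (c : ℝ))) ^ (e i).card else 0)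
      ≤ 1 / (2 * (c : ℝ) ^ 2)) :
    ∃ φ : V → Fin c, ∀ i ∈ s, ∀ j : Fin c, ∃ v ∈ e i, φ v = j := by
  classical
  have : Nonempty (Fin c) := ⟨⟨0, hc⟩⟩
  have hcR : (1 : ℝ) ≤ c := by exact_mod_cast hc
  have hc0 : (0 : ℝ) < c := by linarith
  set γ : ℝ := 1 - 1 / (2 * (c : ℝ)) with hγ
  have hhalf : 1 / (2 * (c : ℝ)) ≤ 1 / 2 := by
    apply one_div_le_one_div_of_le <;> linarith
  have hpos' : 0 < 1 / (2 * (c : ℝ)) := by positivity
  have hγ0 : 0 < γ := by linarith
  have hγ1 : γ ≤ 1 := by linarith
  set q : ℝ := 1 - 1 / (c : ℝ) with hq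
  have hq0 : 0 ≤ q := by
    have : 1 / (c : ℝ) ≤ 1 := by rw [div_le_one hc0]; exact hcR
    linarith
  have hqγ : q / γ ≤ γ := by
    rw [div_le_iff₀ hγ0]
    have : γ * γ = q + (1 / (2 * (c : ℝ))) ^ 2 := by
      rw [hγ, hq]; field_simp; ring
    rw [this]
    have := sq_nonneg (1 / (2 * (c : ℝ)))
    linarith
  let B : ι × Fin c → Finset (V → Fin c) := fun ij =>
    Fintype.piFinset fun v => if v ∈ e ij.1 then Finset.univ.erase ij.2 else Finset.univ
  have memB : ∀ (ij : ι × Fin c) (φ : V → Fin c), φ ∈ B ij ↔ ∀ v ∈ e ij.1, φ v ≠ ij.2 := by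
    intro ij φ
    simp only [B, Fintype.mem_piFinset]
    constructor
    · intro hφ v hv
      have := hφ v
      rw [if_pos hv] at this
      exact (Finset.mem_erase.1 this).1
    · intro hφ v
      by_cases hv : v ∈ e ij.1
      · rw [if_pos hv]; exact Finset.mem_erase.2 ⟨hφ v hv, Finset.mem_univ _⟩
      · rw [if_neg hv]; exact Finset.mem_univ _
  obtain ⟨φ, hφ⟩ := exists_avoid (s ×ˢ (Finset.univ : Finset (Fin c))) (fun ij => e ij.1) B
    (fun ij hij => hne _ (Finset.mem_product.1 hij).1)
    (by
      intro ij _ φ ψ hφψ hφ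
      rw [memB] at hφ ⊢
      intro v hv
      rw [← hφψ v hv]; exact hφ v hv)
    (fun ij => q ^ (e ij.1).card) (fun ij _ => pow_nonneg hq0 _)
    (by
      intro ij _
      apply le_of_eq
      simp only [B, Fintype.card_piFinset, Fintype.card_fun, Fintype.card_fin]
      push_cast
      have h1 : ∀ v, ((if v ∈ e ij.1 then (Finset.univ : Finset (Fin c)).erase ij.2
          else Finset.univ).card : ℝ) = (if v ∈ e ij.1 then q else 1) * c := by
        intro v
        by_cases hv : v ∈ e ij.1
        · rw [if_pos hv, if_pos hv, Finset.card_erase_of_mem (Finset.mem_univ _)]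
          rw [Finset.card_univ, Fintype.card_fin, Nat.cast_sub hc, hq]
          field_simp
          simp
        · rw [if_neg hv, if_neg hv]; simp
      rw [Finset.prod_congr rfl fun v _ => h1 v, Finset.prod_mul_distrib, Finset.prod_const,
        Finset.card_univ, Finset.prod_ite_mem, Finset.univ_inter, Finset.prod_const])
    γ hγ0 hγ1
    (by
      intro v
      rw [Finset.sum_product]
      have h2 : ∀ i ∈ s, ∑ _j : Fin c, (if v ∈ e i then q ^ (e i).card / γ ^ (e i).card else 0)
          ≤ c * (if v ∈ e i then γ ^ (e i).card else 0) := by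
        intro i _
        rw [Finset.sum_const, Finset.card_univ, Fintype.card_fin, nsmul_eq_mul]
        apply mul_le_mul_of_nonneg_left _ hc0.le
        by_cases hv : v ∈ e i
        · rw [if_pos hv, if_pos hv, ← div_pow]
          exact pow_le_pow_left₀ (div_nonneg hq0 hγ0.le) hqγ _
        · rw [if_neg hv, if_neg hv]
      calc ∑ i ∈ s, ∑ _j : Fin c, (if v ∈ e i then q ^ (e i).card / γ ^ (e i).card else 0)
          ≤ ∑ i ∈ s, c * (if v ∈ e i then γ ^ (e i).card else 0) := Finset.sum_le_sum h2
        _ = c * ∑ i ∈ s, (if v ∈ e i then γ ^ (e i).card else 0) := by rw [Finset.mul_sum]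
        _ ≤ c * (1 / (2 * (c : ℝ) ^ 2)) := mul_le_mul_of_nonneg_left (h v) hc0.le
        _ = 1 - γ := by rw [hγ]; field_simp; ring)
  refine ⟨φ, fun i hi j => ?_⟩
  have := hφ (i, j) (Finset.mem_product.2 ⟨hi, Finset.mem_univ _⟩)
  rw [memB] at this
  push Not at this
  exact this

end Pool.Agent.Shared.CountingLLL
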