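import Pool.Agent.Shared.PolyTime.List

/-!
Entry point of the polynomial-time closure library; a few usage examples.
-/

namespace Pool.Agent.Shared.PolyTime

/-- Example: the degree of a vertex in an edge list. -/
def exDeg (E : List (ℕ × ℕ)) (v : ℕ) : ℕ := E.countP fun e => e.1 == v || e.2 == v

@[fun_prop] theorem exDeg_pt {α : Type} [N487b59b3 α] {E : α → List (ℕ × ℕ)} {v : α → ℕ}
    (hE : PT E) (hv : PT v) : PT (fun a => exDeg (E a) (v a)) := by
  unfold exDeg; fun_prop

example : N68a2faeb.IsPolyTime (fun p : List (ℕ × ℕ) × ℕ =>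
    (List.range p.1.length).map fun v => if exDeg p.1 v ≤ p.2 then (v, true) else (v * v, false)) :=
  PT.isPolyTime (by fun_prop)

end Pool.Agent.Shared.PolyTime
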