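import Mathlib

/-!
Elementary geometry of simplicial trees and of groups acting on them:
directions, concatenation of geodesics, axes of hyperbolic elements, Serre's lemma.
-/

set_option autoImplicit false

namespace Pool.Agent.Shared.GroupTree

open SimpleGraph

section Tree

variable {V : Type*} {T : SimpleGraph V}

/-- `w` is the neighbour of `x` on the geodesic from `x` to `y`. -/
def Toward (T : SimpleGraph V) (x w y : V) : Prop :=
  T.Adj x w ∧ T.dist w y + 1 = T.dist x y

theorem dist_zero_iff (hT : T.IsTree) {x y : V} : T.dist x y = 0 ↔ x = y :=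
  hT.connected.dist_eq_zero_iff

theorem dist_tri (hT : T.IsTree) (x y z : V) : T.dist x z ≤ T.dist x y + T.dist y z :=
  hT.connected.dist_triangle

theorem dist_adj {x y : V} (h : T.Adj x y) : T.dist x y = 1 :=
  dist_eq_one_iff_adj.2 h

theorem adj_cases (hT : T.IsTree) {x w : V} (h : T.Adj x w) (y : V) :
    T.dist x y = T.dist w y + 1 ∨ T.dist w y = T.dist x y + 1 := by
  have := hT.dist_eq_dist_add_one_of_adj y h
  rwa [dist_comm (u := y) (v := x), dist_comm (u := y) (v := w)] at this

theorem exists_toward (hT : T.IsTree) {x y : V} (h : x ≠ y) : ∃ w, Toward T x w y := by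
  obtain ⟨p, hp⟩ := hT.connected.exists_walk_length_eq_dist x y
  cases p with
  | nil => exact absurd rfl h
  | @cons _ w _ hadj q =>
    refine ⟨w, hadj, ?_⟩
    have h1 := dist_le q
    simp only [Walk.length_cons] at hp
    rcases adj_cases hT hadj y with h2 | h2 <;> omega

theorem toward_unique (hT : T.IsTree) {x w w' y : V} (h : Toward T x w y)
    (h' : Toward T x w' y) : w = w' := by
  obtain ⟨p, hp⟩ := hT.connected.exists_walk_length_eq_dist w y
  obtain ⟨p', hp'⟩ := hT.connected.exists_walk_length_eq_dist w' y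
  have h1 : (Walk.cons h.1 p).IsPath :=
    Walk.isPath_of_length_eq_dist _ (by simp only [Walk.length_cons]; have := h.2; omega)
  have h2 : (Walk.cons h'.1 p').IsPath :=
    Walk.isPath_of_length_eq_dist _ (by simp only [Walk.length_cons]; have := h'.2; omega)
  have h3 : Walk.cons h.1 p = Walk.cons h'.1 p' :=
    (hT.existsUnique_path x y).unique h1 h2
  have h4 := congrArg (fun q : T.Walk x y => q.getVert 1) h3
  simpa using h4

theorem toward_of_not (hT : T.IsTree) {x w y : V} (h : T.Adj x w) (hn : ¬ Toward T x w y) :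
    Toward T w x y := by
  refine ⟨h.symm, ?_⟩
  rcases adj_cases hT h y with h2 | h2
  · exact absurd ⟨h, h2.symm⟩ hn
  · exact h2.symm

theorem toward_of_le (hT : T.IsTree) {x w y : V} (h : T.Adj x w)
    (hle : T.dist w y ≤ T.dist x y) : Toward T x w y := by
  refine ⟨h, ?_⟩
  rcases adj_cases hT h y with h2 | h2 <;> omega

theorem Toward.ne {x w y : V} (h : Toward T x w y) : x ≠ y := by
  rintro rfl
  have := h.2
  simp at this

/-- Concatenation of geodesics leaving `v` in different directions. -/
theorem dist_add_of_not_toward (hT : T.IsTree) (y : V) :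
    ∀ (n : ℕ) (v w x : V), T.dist w x = n → Toward T v w x → ¬ Toward T v w y →
      T.dist x y = T.dist v x + T.dist v y := by
  intro n
  induction n with
  | zero =>
    intro v w x h0 h1 h2
    have hwx : w = x := (dist_zero_iff hT).1 h0
    subst hwx
    have h3 := (toward_of_not hT h1.1 h2).2
    have h4 := h1.2
    omega
  | succ n ih =>
    intro v w x h0 h1 h2
    have hwx : w ≠ x := by
      intro h
      rw [(dist_zero_iff hT).2 h] at h0
      omega
    obtain ⟨w2, hw2⟩ := exists_toward hT hwx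
    have h3 := toward_of_not hT h1.1 h2
    have h4 : ¬ Toward T w w2 y := by
      intro h5
      have h6 : w2 = v := toward_unique hT h5 h3
      subst h6
      have := hw2.2
      have := h1.2
      omega
    have h5 := ih w w2 x (by have := hw2.2; omega) hw2 h4
    have := h1.2
    have := h3.2
    omega

theorem dist_add (hT : T.IsTree) {v w x y : V} (h1 : Toward T v w x) (h2 : ¬ Toward T v w y) :
    T.dist x y = T.dist v x + T.dist v y :=
  dist_add_of_not_toward hT y _ v w x rfl h1 h2

theorem not_toward_of_ne (hT : T.IsTree) {v w w' y : V} (h : Toward T v w' y) (hne : w ≠ w') :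
    ¬ Toward T v w y := fun h' => hne (toward_unique hT h' h)

theorem toward_of_between (hT : T.IsTree) {x w v y : V} (h : Toward T x w v)
    (hb : T.dist x y = T.dist x v + T.dist v y) : Toward T x w y := by
  refine toward_of_le hT h.1 ?_
  have h1 := dist_tri hT w v y
  have h2 := h.2
  omega

/-- A geodesic segment, as a sequence of vertices. -/
theorem exists_geodesic (hT : T.IsTree) (y : V) :
    ∀ (n : ℕ) (x : V), T.dist x y = n → ∃ c : ℕ → V, c 0 = x ∧ c n = y ∧
      (∀ i, i < n → T.Adj (c i) (c (i + 1))) ∧ (∀ i, i ≤ n → T.dist (c i) y + i = n) ∧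
      (∀ i, i ≤ n → T.dist x (c i) = i) := by
  intro n
  induction n with
  | zero =>
    intro x h
    have hxy : x = y := (dist_zero_iff hT).1 h
    subst hxy
    refine ⟨fun _ => x, rfl, rfl, ?_, ?_, ?_⟩
    · intro i hi; omega
    · intro i hi; simp; omega
    · intro i hi; simp; omega
  | succ n ih =>
    intro x h
    have hxy : x ≠ y := by
      intro h'
      rw [(dist_zero_iff hT).2 h'] at h
      omega
    obtain ⟨w, hw⟩ := exists_toward hT hxy
    obtain ⟨c, c0, cn, cadj, cd, cd'⟩ := ih w (by have := hw.2; omega)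
    have key : ∀ i, i ≤ n + 1 → T.dist (Nat.casesOn i x c : V) y + i = n + 1 := by
      intro i hi
      cases i with
      | zero => simpa using h
      | succ i => have := cd i (by omega); simp only; omega
    refine ⟨fun i => Nat.casesOn i x c, rfl, cn, ?_, key, ?_⟩
    · intro i hi
      cases i with
      | zero => simpa [c0] using hw.1
      | succ i => exact cadj i (by omega)
    · intro i hi
      cases i with
      | zero => simp
      | succ i =>
        have h1 := cd' i (by omega)
        have h2 := dist_tri hT x w (c i)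
        have h3 := dist_adj hw.1
        have h4 := dist_tri hT x (c i) y
        have h5 := cd i (by omega)
        simp only
        omega

/-- A bi-infinite path without backtracking is a geodesic. -/
theorem dist_line (hT : T.IsTree) (L : ℤ → V) (hadj : ∀ s, T.Adj (L s) (L (s + 1)))
    (hnb : ∀ s, L (s - 1) ≠ L (s + 1)) (s : ℤ) :
    ∀ n : ℕ, T.dist (L (s + n)) (L s) = n := by
  have key : ∀ n : ℕ, T.dist (L (s + n)) (L s) = n ∧ T.dist (L (s + (n + 1 : ℕ))) (L s) = n + 1 := by
    intro n
    induction n with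
    | zero =>
      refine ⟨by simp, ?_⟩
      simpa using dist_adj (hadj s).symm
    | succ n ih =>
      refine ⟨ih.2, ?_⟩
      have e1 : s + ((n + 1 : ℕ) : ℤ) = s + n + 1 := by push_cast; ring
      have e2 : s + ((n + 1 + 1 : ℕ) : ℤ) = s + n + 1 + 1 := by push_cast; ring
      have h1 : Toward T (L (s + n + 1)) (L (s + n)) (L s) := by
        refine ⟨(hadj _).symm, ?_⟩
        have := ih.2
        rw [e1] at this
        rw [this, ih.1]
      have h2 : L (s + n + 1 + 1) ≠ L (s + n) := by
        have := hnb (s + n + 1)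
        rw [add_sub_cancel_right] at this
        exact this.symm
      have h3 := toward_of_not hT (hadj (s + n + 1)) (not_toward_of_ne hT h1 h2)
      have h4 := h3.2
      have h5 := ih.2
      rw [e1] at h5
      rw [e2]
      omega
  exact fun n => (key n).1

/-- A geodesic line in the tree. -/
def IsLine (T : SimpleGraph V) (L : ℤ → V) : Prop :=
  ∀ s t : ℤ, (T.dist (L s) (L t) : ℤ) = |s - t|

theorem isLine_of_adj (hT : T.IsTree) (L : ℤ → V) (hadj : ∀ s, T.Adj (L s) (L (s + 1)))
    (hnb : ∀ s, L (s - 1) ≠ L (s + 1)) : IsLine T L := by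
  intro s t
  rcases le_total s t with h | h
  · obtain ⟨n, rfl⟩ := Int.le.dest h
    rw [dist_comm, dist_line hT L hadj hnb s n]
    simp
  · obtain ⟨n, rfl⟩ := Int.le.dest h
    rw [dist_line hT L hadj hnb t n]
    simp

theorem IsLine.adj {L : ℤ → V} (hL : IsLine T L) (s : ℤ) : T.Adj (L s) (L (s + 1)) := by
  have := hL s (s + 1)
  simpa using this

theorem IsLine.toward_up {L : ℤ → V} (hL : IsLine T L) {s t : ℤ} (h : s < t) :
    Toward T (L s) (L (s + 1)) (L t) := by
  refine ⟨hL.adj s, ?_⟩
  have h1 := hL s t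
  have h2 := hL (s + 1) t
  rw [abs_of_nonpos (by omega)] at h1 h2
  omega

theorem IsLine.toward_down {L : ℤ → V} (hL : IsLine T L) {s t : ℤ} (h : t < s) :
    Toward T (L s) (L (s - 1)) (L t) := by
  refine ⟨?_, ?_⟩
  · have := (hL.adj (s - 1)).symm
    simpa using this
  have h1 := hL s t
  have h2 := hL (s - 1) t
  rw [abs_of_nonneg (by omega)] at h1 h2
  omega

theorem IsLine.injective {L : ℤ → V} (hL : IsLine T L) : Function.Injective L := by
  intro s t h
  have := hL s t
  rw [h, dist_self] at this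
  have h2 : |s - t| = 0 := by simpa using this.symm
  have := abs_eq_zero.1 h2
  omega

/-- Two lines that agree at two points agree between them. -/
theorem IsLine.eq_of_ends (hT : T.IsTree) {L L' : ℤ → V} (hL : IsLine T L) (hL' : IsLine T L')
    {s t : ℤ} (hs : L s = L' s) (ht : L t = L' t) (r : ℤ) (h1 : s ≤ r) (h2 : r ≤ t) :
    L r = L' r := by
  obtain ⟨n, rfl⟩ := Int.le.dest h1
  induction n with
  | zero => simpa using hs
  | succ n ih =>
    have h3 : s + n < t := by push_cast at h2; omega
    have h4 := ih (by omega) (by omega)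
    have h5 := hL.toward_up h3
    have h6 := hL'.toward_up h3
    rw [h4, ht] at h5
    have := toward_unique hT h5 h6
    have e : s + ((n + 1 : ℕ) : ℤ) = s + n + 1 := by push_cast; ring
    rw [e]; exact this

end Tree

section Action

variable {G V : Type*} [Group G] [MulAction G V] {T : SimpleGraph V}

/-- An action of `G` on the tree `T` by automorphisms, without inversions. -/
structure GTree (G : Type*) {V : Type*} [Group G] [MulAction G V] (T : SimpleGraph V) : Prop where
  tree : T.IsTree
  adj : ∀ (g : G) (x y : V), T.Adj x y → T.Adj (g • x) (g • y)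
  noinv : ∀ (g : G) (x y : V), T.Adj x y → g • x = y → g • y ≠ x

theorem GTree.dist_smul_le (h : GTree G T) (g : G) (x y : V) :
    T.dist (g • x) (g • y) ≤ T.dist x y := by
  obtain ⟨p, hp⟩ := h.tree.connected.exists_walk_length_eq_dist x y
  let f : T →g T := ⟨fun v => g • v, fun {a b} hab => h.adj g a b hab⟩
  have := dist_le (p.map f)
  rw [Walk.length_map, hp] at this
  exact this

theorem GTree.dist_smul (h : GTree G T) (g : G) (x y : V) :
    T.dist (g • x) (g • y) = T.dist x y := by
  refine le_antisymm (h.dist_smul_le g x y) ?_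
  have := h.dist_smul_le g⁻¹ (g • x) (g • y)
  simpa using this

theorem GTree.toward_smul (h : GTree G T) (g : G) {x w y : V} (hw : Toward T x w y) :
    Toward T (g • x) (g • w) (g • y) :=
  ⟨h.adj g _ _ hw.1, by rw [h.dist_smul, h.dist_smul]; exact hw.2⟩

theorem GTree.fix_toward (h : GTree G T) {g : G} {x w y : V} (hw : Toward T x w y)
    (hx : g • x = x) (hy : g • y = y) : g • w = w := by
  have := h.toward_smul g hw
  rw [hx, hy] at this
  exact toward_unique h.tree this hw

/-- Whatever fixes two distinct vertices fixes an edge. -/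
theorem GTree.exists_edge (h : GTree G T) {x y : V} (hxy : x ≠ y) :
    ∃ w, T.Adj x w ∧ ∀ g : G, g • x = x → g • y = y → g • w = w := by
  obtain ⟨w, hw⟩ := exists_toward h.tree hxy
  exact ⟨w, hw.1, fun g hx hy => h.fix_toward hw hx hy⟩

/-- `L` is an axis of `g`, on which `g` translates by `p > 0`. -/
structure IsAxis (T : SimpleGraph V) (g : G) (p : ℕ) (L : ℤ → V) : Prop where
  pos : 0 < p
  line : IsLine T L
  shift : ∀ s, L (s + p) = g • L s

theorem IsAxis.shift_inv {g : G} {p : ℕ} {L : ℤ → V} (hL : IsAxis T g p L) (s : ℤ) :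
    L (s - p) = g⁻¹ • L s := by
  have := hL.shift (s - p)
  rw [sub_add_cancel] at this
  rw [this, inv_smul_smul]

theorem IsAxis.shift_zpow {g : G} {p : ℕ} {L : ℤ → V} (hL : IsAxis T g p L) (n : ℤ) (s : ℤ) :
    L (s + n * p) = g ^ n • L s := by
  induction n using Int.induction_on with
  | zero => simp
  | succ n ih =>
    have e : s + ((n : ℤ) + 1) * p = s + n * p + p := by ring
    rw [e, hL.shift, ih, ← mul_smul, ← zpow_one_add, add_comm]
  | pred n ih =>
    have e : s + (-(n : ℤ) - 1) * p = s + -n * p - p := by ring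
    rw [e, hL.shift_inv, ih, ← mul_smul, ← zpow_neg_one, ← zpow_add]
    congr 2
    ring

theorem IsAxis.dist_on {g : G} {p : ℕ} {L : ℤ → V} (hL : IsAxis T g p L) (s : ℤ) :
    T.dist (L s) (g • L s) = p := by
  have := hL.line s (s + p)
  rw [hL.shift] at this
  simp at this
  exact this

theorem IsAxis.translate {g : G} {p : ℕ} {L : ℤ → V} (hL : IsAxis T g p L) (q : ℤ) :
    IsAxis T g p (fun s => L (s + q)) := by
  refine ⟨hL.pos, ?_, ?_⟩
  · intro s t
    rw [hL.line]
    congr 1
    ring
  · intro s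
    rw [← hL.shift]
    congr 1
    ring

theorem IsAxis.conj (h : GTree G T) {g : G} {p : ℕ} {L : ℤ → V} (hL : IsAxis T g p L) (x : G) :
    IsAxis T (x * g * x⁻¹) p (fun s => x • L s) := by
  refine ⟨hL.pos, ?_, ?_⟩
  · intro s t
    rw [h.dist_smul, hL.line]
  · intro s
    rw [hL.shift]
    simp [mul_smul]

/-- Two axes through the same base point coincide. -/
theorem IsAxis.eq_of_zero (h : GTree G T) {g : G} {p : ℕ} {L L' : ℤ → V} (hL : IsAxis T g p L)
    (hL' : IsAxis T g p L') (h0 : L 0 = L' 0) (s : ℤ) : L s = L' s := by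
  have hp : (0 : ℤ) < p := by exact_mod_cast hL.pos
  have h1 : ∀ n : ℤ, L (n * p) = L' (n * p) := by
    intro n
    have a := hL.shift_zpow n 0
    have b := hL'.shift_zpow n 0
    rw [zero_add] at a b
    rw [a, b, h0]
  refine IsLine.eq_of_ends h.tree hL.line hL'.line (h1 (s / p)) (h1 (s / p + 1)) s ?_ ?_
  · exact Int.ediv_mul_le s hp.ne'
  · exact (Int.lt_ediv_add_one_mul_self s hp).le

/-- Existence of an axis when `w` lies between `g⁻¹ w` and `g w`. -/
theorem GTree.exists_axis (h : GTree G T) {g : G} {w n : V} (h1 : Toward T w n (g • w))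
    (h2 : ¬ Toward T w n (g⁻¹ • w)) :
    ∃ L : ℤ → V, IsAxis T g (T.dist w (g • w)) L ∧ L 0 = w := by
  have hT := h.tree
  obtain ⟨c, c0, cp, cadj, cd, cd'⟩ := exists_geodesic hT (g • w) _ w rfl
  set p := T.dist w (g • w) with hpdef
  have hp : 0 < p := by have := h1.2; omega
  have hpz : (0 : ℤ) < p := by exact_mod_cast hp
  let L : ℤ → V := fun s => g ^ (s / p) • c (s % p).toNat
  have hL : ∀ (q : ℤ) (r : ℕ), r ≤ p → L (q * p + r) = g ^ q • c r := by
    intro q r hr
    rcases hr.lt_or_eq with hr | hr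
    · have e1 : (q * p + r) / (p : ℤ) = q := by
        rw [add_comm, Int.add_mul_ediv_right _ _ hpz.ne', Int.ediv_eq_zero_of_lt (by omega) (by omega)]
        simp
      have e2 : (q * p + r) % (p : ℤ) = r := by
        rw [add_comm, Int.add_mul_emod_self_right, Int.emod_eq_of_lt (by omega) (by omega)]
      simp only [L, e1, e2, Int.toNat_natCast]
    · have e0 : q * p + r = (q + 1) * (p : ℤ) := by rw [hr]; ring
      have e1 : (q * p + r) / (p : ℤ) = q + 1 := by
        rw [e0, Int.mul_ediv_cancel _ hpz.ne']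
      have e2 : (q * p + r) % (p : ℤ) = 0 := by
        rw [e0, Int.mul_emod_left]
      simp only [L, e1, e2, Int.toNat_zero, c0]
      rw [hr, cp, ← mul_smul, zpow_add_one]
  have hdec : ∀ s : ℤ, ∃ (q : ℤ) (r : ℕ), r < p ∧ s = q * p + r := by
    intro s
    refine ⟨s / p, (s % p).toNat, ?_, ?_⟩
    · have := Int.emod_lt_of_pos s hpz
      have := Int.emod_nonneg s hpz.ne'
      omega
    · have := Int.emod_nonneg s hpz.ne'
      rw [Int.toNat_of_nonneg this]
      have := Int.ediv_mul_add_emod s p
      omega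
  have hc1 : c 1 = n := by
    refine toward_unique hT ⟨?_, ?_⟩ h1
    · have := cadj 0 hp
      rwa [c0] at this
    · exact cd 1 hp
  have hcl : Toward T (g • w) (c (p - 1)) w := by
    refine ⟨?_, ?_⟩
    · have := cadj (p - 1) (by omega)
      rw [show p - 1 + 1 = p by omega, cp] at this
      exact this.symm
    · rw [dist_comm, cd' (p - 1) (by omega), dist_comm]
      omega
  refine ⟨L, ⟨hp, isLine_of_adj hT L ?_ ?_, ?_⟩, ?_⟩
  · intro s
    obtain ⟨q, r, hr, rfl⟩ := hdec s
    have e : q * p + r + 1 = q * p + ((r + 1 : ℕ) : ℤ) := by push_cast; ring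
    rw [e, hL q r hr.le, hL q (r + 1) hr]
    exact h.adj _ _ _ (cadj r hr)
  · intro s
    obtain ⟨q, r, hr, rfl⟩ := hdec s
    have e : q * p + r + 1 = q * p + ((r + 1 : ℕ) : ℤ) := by push_cast; ring
    rw [e, hL q (r + 1) hr]
    rcases Nat.eq_zero_or_pos r with rfl | hr0
    · have e' : q * p + ((0 : ℕ) : ℤ) - 1 = (q - 1) * p + ((p - 1 : ℕ) : ℤ) := by
        rw [Nat.cast_sub hp]; push_cast; ring
      rw [e', hL (q - 1) (p - 1) (by omega), zero_add, hc1, zpow_sub_one, mul_smul]
      intro heq
      have h3 : g⁻¹ • c (p - 1) = n := smul_left_cancel _ heq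
      have h4 := h.toward_smul g⁻¹ hcl
      rw [inv_smul_smul, h3] at h4
      exact h2 h4
    · have e' : q * p + (r : ℤ) - 1 = q * p + ((r - 1 : ℕ) : ℤ) := by
        rw [Nat.cast_sub hr0]; push_cast; ring
      rw [e', hL q (r - 1) (by omega)]
      intro heq
      have h3 : c (r - 1) = c (r + 1) := smul_left_cancel _ heq
      have h4 := cd (r - 1) (by omega)
      have h5 := cd (r + 1) (by omega)
      rw [h3] at h4
      omega
  · intro s
    obtain ⟨q, r, hr, rfl⟩ := hdec s
    have e : q * p + r + p = (q + 1) * p + (r : ℤ) := by ring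
    rw [e, hL (q + 1) r hr.le, hL q r hr.le, ← mul_smul, ← zpow_one_add, add_comm]
  · have := hL 0 0 hp.le
    simpa [c0] using this

/-- Off the axis the displacement is larger than the translation length. -/
theorem IsAxis.mem_or_lt (h : GTree G T) {g : G} {p : ℕ} {L : ℤ → V} (hL : IsAxis T g p L)
    (x : V) : (∃ s, x = L s) ∨ p < T.dist x (g • x) := by
  have hT := h.tree
  have hp : (0 : ℤ) < p := by exact_mod_cast hL.pos
  obtain ⟨s, hs⟩ : ∃ s : ℤ, ∀ t : ℤ, T.dist (L s) x ≤ T.dist (L t) x :=
    ⟨Function.argmin (fun t : ℤ => T.dist (L t) x), fun t =>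
      Function.argmin_le (fun t : ℤ => T.dist (L t) x) t⟩
  by_cases hx : L s = x
  · exact Or.inl ⟨s, hx.symm⟩
  right
  obtain ⟨m, hm⟩ := exists_toward hT hx
  have hm1 : L (s + 1) ≠ m := by
    intro e
    have := hs (s + 1)
    have := hm.2
    rw [e] at *
    omega
  have hm2 : L (s - 1) ≠ m := by
    intro e
    have := hs (s - 1)
    have := hm.2
    rw [e] at *
    omega
  have h1 : Toward T (L s) (L (s + 1)) (L (s + p)) := hL.line.toward_up (by omega)
  have h2 := dist_add hT h1 (not_toward_of_ne hT hm hm1)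
  have h3 : Toward T (L (s + p)) (L (s + p - 1)) (L s) := hL.line.toward_down (by omega)
  have h4 : Toward T (L (s + p)) (L (s + p - 1)) x :=
    toward_of_between hT h3 (by rw [h2, dist_comm (u := L s) (v := L (s + p))])
  have h5 := h.toward_smul g hm
  rw [← hL.shift] at h5
  have h6 : g • m ≠ L (s + p - 1) := by
    intro e
    have e2 : s + p - 1 = s - 1 + p := by ring
    rw [e2, hL.shift] at e
    exact hm2 (smul_left_cancel _ e).symm
  have h7 := dist_add hT h5 (not_toward_of_ne hT h4 h6)
  have h8 : T.dist (L s) (L (s + p)) = p := by rw [hL.shift]; exact hL.dist_on s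
  have h9 := hm.2
  rw [dist_comm]
  omega

theorem IsAxis.mem_of_dist (h : GTree G T) {g : G} {p : ℕ} {L : ℤ → V} (hL : IsAxis T g p L)
    {x : V} (hx : T.dist x (g • x) = p) : ∃ s, x = L s := by
  rcases hL.mem_or_lt h x with h1 | h1
  · exact h1
  · omega

theorem IsAxis.not_fix (h : GTree G T) {g : G} {p : ℕ} {L : ℤ → V} (hL : IsAxis T g p L)
    (x : V) : g • x ≠ x := by
  intro hx
  have hp := hL.pos
  rcases hL.mem_or_lt h x with ⟨s, rfl⟩ | h1
  · have := hL.dist_on s
    rw [hx, dist_self] at this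
    omega
  · rw [hx, dist_self] at h1
    omega

/-- An element fixes a vertex or has an axis. -/
theorem GTree.fix_or_axis (h : GTree G T) (g : G) :
    (∃ x : V, g • x = x) ∨ ∃ (p : ℕ) (L : ℤ → V), IsAxis T g p L := by
  have hT := h.tree
  have : Nonempty V := hT.connected.nonempty
  obtain ⟨w, hw⟩ : ∃ w : V, ∀ x : V, T.dist w (g • w) ≤ T.dist x (g • x) :=
    ⟨Function.argmin (fun x : V => T.dist x (g • x)), fun t =>
      Function.argmin_le (fun x : V => T.dist x (g • x)) t⟩
  by_cases h0 : w = g • w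
  · exact Or.inl ⟨w, h0.symm⟩
  right
  obtain ⟨n, hn⟩ := exists_toward hT h0
  have h2 : ¬ Toward T w n (g⁻¹ • w) := by
    intro h2
    have h3 := h.toward_smul g h2
    rw [smul_inv_smul] at h3
    by_cases h4 : g • w = n
    · have h5 := h3.2
      have h6 : T.dist (g • w) w = 1 := by rw [h4]; exact dist_adj hn.1.symm
      have h7 : g • n = w := (dist_zero_iff hT).1 (by omega)
      exact h.noinv g w n hn.1 h4 h7
    · obtain ⟨m, hm⟩ := exists_toward hT h4
      have h5 : Toward T (g • w) m w := by
        refine toward_of_between hT hm ?_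
        rw [dist_adj hn.1.symm, dist_comm (u := g • w) (v := w), dist_comm (u := g • w) (v := n)]
        exact hn.2.symm
      have h6 : m = g • n := toward_unique hT h5 h3
      have h7 := hw n
      have h8 := hm.2
      have h9 := hn.2
      rw [← h6, dist_comm (u := n) (v := m)] at h7
      rw [dist_comm (u := g • w) (v := n)] at h8
      omega
  obtain ⟨L, hL, -⟩ := h.exists_axis hn h2
  exact ⟨_, L, hL⟩

/-- An element commuting with `g` translates the axis of `g`. -/
theorem IsAxis.commute (h : GTree G T) {g : G} {p : ℕ} {L : ℤ → V} (hL : IsAxis T g p L)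
    {x : G} (hx : Commute x g) : ∃ q : ℤ, ∀ s, x • L s = L (s + q) := by
  have h1 := hL.conj h x
  have e : x * g * x⁻¹ = g := by rw [hx.eq]; simp
  rw [e] at h1
  obtain ⟨q, hq⟩ := hL.mem_of_dist h (h1.dist_on 0)
  refine ⟨q, fun s => ?_⟩
  exact h1.eq_of_zero h (hL.translate q) (by simpa using hq) s

theorem IsAxis.commutator_fix (h : GTree G T) {g : G} {p : ℕ} {L : ℤ → V} (hL : IsAxis T g p L)
    {x y : G} (hx : Commute x g) (hy : Commute y g) (s : ℤ) :
    (x * y * x⁻¹ * y⁻¹) • L s = L s := by
  obtain ⟨q, hq⟩ := hL.commute h hx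
  obtain ⟨r, hr⟩ := hL.commute h hy
  have h1 : ∀ s, x⁻¹ • L s = L (s - q) := by
    intro s
    rw [inv_smul_eq_iff, hq, sub_add_cancel]
  have h2 : ∀ s, y⁻¹ • L s = L (s - r) := by
    intro s
    rw [inv_smul_eq_iff, hr, sub_add_cancel]
  rw [mul_smul, mul_smul, mul_smul, h2, h1, hr, hq]
  congr 1
  ring

/-- An element of finite order fixes a vertex. -/
theorem GTree.fix_of_finOrder (h : GTree G T) {g : G} (hg : IsOfFinOrder g) :
    ∃ x : V, g • x = x := by
  rcases h.fix_or_axis g with h1 | ⟨p, L, hL⟩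
  · exact h1
  exfalso
  obtain ⟨n, hn, hgn⟩ := isOfFinOrder_iff_pow_eq_one.1 hg
  have h2 := hL.shift_zpow n 0
  rw [zpow_natCast, hgn, one_smul] at h2
  have h3 := hL.line.injective h2
  have hp := hL.pos
  have : (n : ℤ) * p = 0 := by omega
  have : n * p = 0 := by exact_mod_cast this
  have := Nat.mul_pos hn hp
  omega

/-- Serre's lemma: if `x`, `y` and `x * y` each fix a vertex, then `x` and `y` fix a common
vertex. -/
theorem GTree.serre (h : GTree G T) {x y : G} (hx : ∃ v : V, x • v = v) (hy : ∃ v : V, y • v = v)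
    (hxy : ∃ v : V, (x * y) • v = v) : ∃ v : V, x • v = v ∧ y • v = v := by
  have hT := h.tree
  obtain ⟨P0, hP0⟩ := hx
  obtain ⟨Q0, hQ0⟩ := hy
  let S := {pq : V × V // x • pq.1 = pq.1 ∧ y • pq.2 = pq.2}
  have : Nonempty S := ⟨⟨(P0, Q0), hP0, hQ0⟩⟩
  obtain ⟨⟨⟨P, Q⟩, hP, hQ⟩, hmin⟩ : ∃ w : S, ∀ w' : S, T.dist w.1.1 w.1.2 ≤ T.dist w'.1.1 w'.1.2 :=
    ⟨Function.argmin (fun w : S => T.dist w.1.1 w.1.2), fun t =>
      Function.argmin_le (fun w : S => T.dist w.1.1 w.1.2) t⟩
  simp only at hP hQ hmin
  by_cases hPQ : P = Q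
  · exact ⟨P, hP, hPQ ▸ hQ⟩
  exfalso
  obtain ⟨nP, hnP⟩ := exists_toward hT hPQ
  obtain ⟨nQ, hnQ⟩ := exists_toward hT (Ne.symm hPQ)
  have h1 : x • nP ≠ nP := by
    intro e
    have := hmin ⟨(nP, Q), e, hQ⟩
    have := hnP.2
    simp only at *
    omega
  have h2 : y • nQ ≠ nQ := by
    intro e
    have h3 := hmin ⟨(P, nQ), hP, e⟩
    have h4 := hnQ.2
    simp only at h3
    rw [dist_comm (u := nQ), dist_comm (u := Q)] at h4
    omega
  have key : ∀ x' : G, x' • P = P → x' • nP ≠ nP → Toward T Q nQ (x' • Q) := by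
    intro x' e1 e2
    have h3 := h.toward_smul x' hnP
    rw [e1] at h3
    have h4 := dist_add hT hnP (not_toward_of_ne hT h3 e2.symm)
    exact toward_of_between hT hnQ (by rw [h4, dist_comm (u := Q) (v := P)])
  have h3 : Toward T Q nQ ((x * y) • Q) := by
    rw [mul_smul, hQ]
    exact key x hP h1
  have h4 : ¬ Toward T Q nQ ((x * y)⁻¹ • Q) := by
    have h5 := key x⁻¹ (by rw [inv_smul_eq_iff, hP]) (by
      intro e
      rw [inv_smul_eq_iff] at e
      exact h1 e.symm)
    have h6 := h.toward_smul y⁻¹ h5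
    have e : y⁻¹ • Q = Q := by rw [inv_smul_eq_iff, hQ]
    rw [e, ← mul_smul, ← mul_inv_rev] at h6
    refine not_toward_of_ne hT h6 ?_
    intro e'
    rw [eq_inv_smul_iff] at e'
    exact h2 e'
  obtain ⟨L, hL, -⟩ := h.exists_axis h3 h4
  obtain ⟨v, hv⟩ := hxy
  exact hL.not_fix h v hv

end Action

end Pool.Agent.Shared.GroupTree
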