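import Pool.Agent.Shared.PolyTime.List

/-!
The converse of `PT.isPolyTime`: every function computed in polynomial time by one of the
multi-stack machines of Mathlib is `PT`.  So an assumed polynomial time algorithm can be used as a
subroutine in the closure library.
-/

set_option autoImplicit false

namespace Pool.Agent.Shared.PolyTime

open Function N487b59b3 Turing Turing.TM2

section
variable {α β : Type} [N487b59b3 α] [N487b59b3 β]

/-- Case analysis over finitely many values of a number. -/
theorem PT.finCases (G : ℕ → α → β) (hG : ∀ i, PT (G i)) {x : α → ℕ} (hx : PT x) (N : ℕ) :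
    PT (fun a => G (Min.min (x a) N) a) := by
  induction N with
  | zero => simpa using hG 0
  | succ N ih =>
    have h1 := hG (N + 1)
    have : PT (fun a => if x a ≤ N then G (Min.min (x a) N) a else G (N + 1) a) :=
      PT.ite (by fun_prop) ih h1
    refine this.of_eq fun a => ?_
    split_ifs with h
    · rw [min_eq_left h, min_eq_left (by omega)]
    · rw [min_eq_right (by omega)]

/-- A function that is constant from `N` on. -/
theorem PT.table (F : ℕ → β) (N : ℕ) (hF : ∀ n, N ≤ n → F n = F N) {x : α → ℕ} (hx : PT x) :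
    PT (fun a => F (x a)) :=
  (PT.finCases (fun i _ => F i) (fun i => PT.const (F i)) hx N).of_eq fun a => by
    rcases le_total (x a) N with h | h
    · rw [min_eq_left h]
    · rw [min_eq_right h, hF _ h]

/-- Two-argument version of `PT.table`. -/
theorem PT.table₂ (F : ℕ → ℕ → β) (N M : ℕ) (hF : ∀ n m, N ≤ n → F n m = F N m)
    (hF' : ∀ n m, M ≤ m → F n m = F n M) {x y : α → ℕ} (hx : PT x) (hy : PT y) :
    PT (fun a => F (x a) (y a)) :=
  (PT.finCases (fun i a => F i (y a)) (fun i => PT.table (F i) M (hF' i) hy) hx N).of_eq fun a => by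
    rcases le_total (x a) N with h | h
    · rw [min_eq_left h]
    · rw [min_eq_right h, hF _ _ h]

theorem sz_set_le (l : List β) (i : ℕ) (x d : β) (c : ℕ) (h : sz x ≤ sz (l.getD i d) + c) :
    sz (l.set i x) ≤ sz l + 2 * c := by
  induction l generalizing i with
  | nil => simp
  | cons y l ih =>
    cases i with
    | zero => simp at h ⊢; omega
    | succ i =>
      have := ih i (by simpa using h)
      simp; omega

end

namespace Conv

/-- A numbering of a finite type with a total decoder. -/
structure Num (X : Type) where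
  /-- the bound -/
  N : ℕ
  /-- the code -/
  c : X → ℕ
  /-- the decoder -/
  d : ℕ → X
  lt : ∀ x, c x < N
  dc : ∀ x, d (c x) = x
  const : ∀ n, N ≤ n → d n = d N

theorem exists_num (X : Type) [Fintype X] (x0 : X) : Nonempty (Num X) := by
  let e := Fintype.equivFin X
  refine ⟨⟨Fintype.card X, fun x => e x, fun n => if h : n < Fintype.card X then e.symm ⟨n, h⟩ else x0,
    fun x => (e x).2, fun x => by simp, fun n hn => by simp [not_lt.mpr hn]⟩⟩

variable {K : Type} [DecidableEq K] {Γ : K → Type} {Λ σ : Type}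

/-- The symbols pushed by a statement. -/
def Pushes (A : ∀ k, List (Γ k)) : Stmt Γ Λ σ → Prop
  | .push k f q => (∀ v, f v ∈ A k) ∧ Pushes A q
  | .peek _ _ q => Pushes A q
  | .pop _ _ q => Pushes A q
  | .load _ q => Pushes A q
  | .branch _ q₁ q₂ => Pushes A q₁ ∧ Pushes A q₂
  | .goto _ => True
  | .halt => True

omit [DecidableEq K] in
theorem Pushes.mono {A B : ∀ k, List (Γ k)} (h : ∀ k, A k ⊆ B k) {q : Stmt Γ Λ σ}
    (hq : Pushes A q) : Pushes B q := by
  induction q with
  | push k f q ih => exact ⟨fun v => h k (hq.1 v), ih hq.2⟩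
  | peek k f q ih => exact ih hq
  | pop k f q ih => exact ih hq
  | load f q ih => exact ih hq
  | branch f q₁ q₂ ih₁ ih₂ => exact ⟨ih₁ hq.1, ih₂ hq.2⟩
  | goto f => trivial
  | halt => trivial

theorem exists_pushes [Fintype σ] (q : Stmt Γ Λ σ) : ∃ A : ∀ k, List (Γ k), Pushes A q := by
  induction q with
  | push k f q ih =>
    obtain ⟨A, hA⟩ := ih
    refine ⟨update A k (Finset.univ.toList.map f ++ A k), fun v => by simp, hA.mono fun j => ?_⟩
    by_cases h : j = k
    · subst h; simp
    · simp [update_of_ne h]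
  | peek k f q ih => exact ih
  | pop k f q ih => exact ih
  | load f q ih => exact ih
  | branch f q₁ q₂ ih₁ ih₂ =>
    obtain ⟨A, hA⟩ := ih₁
    obtain ⟨B, hB⟩ := ih₂
    exact ⟨fun k => A k ++ B k, hA.mono fun k => by simp, hB.mono fun k => by simp⟩
  | goto f => exact ⟨fun _ => [], trivial⟩
  | halt => exact ⟨fun _ => [], trivial⟩

theorem exists_alphabet [Fintype σ] [Fintype Λ] (M : Λ → Stmt Γ Λ σ) (k₀ : K) [Fintype (Γ k₀)] :
    ∃ A : ∀ k, List (Γ k), (∀ l, Pushes A (M l)) ∧ ∀ x, x ∈ A k₀ := by
  choose B hB using fun l => exists_pushes (M l)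
  let C : ∀ k, List (Γ k) := fun k => Finset.univ.toList.flatMap fun l => B l k
  refine ⟨update C k₀ (Finset.univ.toList ++ C k₀), fun l => (hB l).mono fun j => ?_, by simp⟩
  have : B l j ⊆ C j := fun x hx => List.mem_flatMap.mpr ⟨l, by simp, hx⟩
  by_cases h : j = k₀
  · subst h; simpa using List.subset_append_of_subset_right _ this
  · simpa [update_of_ne h] using this

variable (A : ∀ k, List (Γ k)) (nK : Num K) (nL : Num Λ) (nS : Num σ)

open Classical in
/-- The code of a symbol. -/
noncomputable def cs (k : K) (x : Γ k) : ℕ := (A k).idxOf x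

/-- Decoding of the shifted code of the top of a stack. -/
def ds (k : K) (n : ℕ) : Option (Γ k) := if n = 0 then none else (A k)[n - 1]?

/-- The shifted code of the top of a stack. -/
def top (s : List ℕ) : ℕ := s.head?.elim 0 (fun n => n + 1)

/-- The code of the stacks. -/
noncomputable def encS (S : ∀ k, List (Γ k)) : List (List ℕ) :=
  (List.range nK.N).map fun i => (S (nK.d i)).map (cs A (nK.d i))

/-- The code of a configuration. -/
noncomputable def encC (c : Cfg Γ Λ σ) : ℕ × ℕ × List (List ℕ) :=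
  (c.l.elim 0 (fun l => nL.c l + 1), nS.c c.var, encS A nK c.stk)

/-- Execution of a statement on codes. -/
noncomputable def sim : Stmt Γ Λ σ → ℕ → List (List ℕ) → ℕ × ℕ × List (List ℕ)
  | .push k f q, v, S => sim q v (S.set (nK.c k) (cs A k (f (nS.d v)) :: S.getD (nK.c k) []))
  | .peek k f q, v, S => sim q (nS.c (f (nS.d v) (ds A k (top (S.getD (nK.c k) []))))) S
  | .pop k f q, v, S => sim q (nS.c (f (nS.d v) (ds A k (top (S.getD (nK.c k) [])))))
      (S.set (nK.c k) (S.getD (nK.c k) []).tail)
  | .load f q, v, S => sim q (nS.c (f (nS.d v))) S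
  | .branch f q₁ q₂, v, S => cond (f (nS.d v)) (sim q₁ v S) (sim q₂ v S)
  | .goto f, v, S => (nL.c (f (nS.d v)) + 1, v, S)
  | .halt, v, S => (0, v, S)

omit [DecidableEq K] in
theorem ds_const (k : K) (n : ℕ) (h : (A k).length + 1 ≤ n) :
    ds A k n = ds A k ((A k).length + 1) := by
  unfold ds
  rw [if_neg (by omega), if_neg (by omega), List.getElem?_eq_none (by omega),
    List.getElem?_eq_none (by omega)]

omit [DecidableEq K] in
theorem sim_pt (q : Stmt Γ Λ σ) : PT (fun p : ℕ × List (List ℕ) => sim A nK nL nS q p.1 p.2) := by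
  have htop : ∀ k, PT (fun p : ℕ × List (List ℕ) => top (p.2.getD (nK.c k) [])) := by
    intro k; unfold top; fun_prop
  have hpk : ∀ (k : K) (f : σ → Option (Γ k) → σ), PT (fun p : ℕ × List (List ℕ) =>
      nS.c (f (nS.d p.1) (ds A k (top (p.2.getD (nK.c k) []))))) := fun k f =>
    PT.table₂ (fun v n => nS.c (f (nS.d v) (ds A k n))) nS.N ((A k).length + 1)
      (fun n m h => by rw [nS.const n h]) (fun n m h => by rw [ds_const A k m h])
      (by fun_prop) (htop k)
  induction q with
  | push k f q ih =>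
    have h1 : PT (fun p : ℕ × List (List ℕ) => cs A k (f (nS.d p.1))) :=
      PT.table (fun v => cs A k (f (nS.d v))) nS.N (fun n h => by rw [nS.const n h]) (by fun_prop)
    exact ih.comp' (f := fun p : ℕ × List (List ℕ) =>
      (p.1, p.2.set (nK.c k) (cs A k (f (nS.d p.1)) :: p.2.getD (nK.c k) []))) (by fun_prop)
  | peek k f q ih =>
    have h1 := hpk k f
    exact ih.comp' (f := fun p : ℕ × List (List ℕ) =>
      (nS.c (f (nS.d p.1) (ds A k (top (p.2.getD (nK.c k) [])))), p.2)) (h1.pair (by fun_prop))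
  | pop k f q ih =>
    have h1 := hpk k f
    exact ih.comp' (f := fun p : ℕ × List (List ℕ) =>
      (nS.c (f (nS.d p.1) (ds A k (top (p.2.getD (nK.c k) [])))),
        p.2.set (nK.c k) (p.2.getD (nK.c k) []).tail)) (h1.pair (by fun_prop))
  | load f q ih =>
    have h1 : PT (fun p : ℕ × List (List ℕ) => nS.c (f (nS.d p.1))) :=
      PT.table (fun v => nS.c (f (nS.d v))) nS.N (fun n h => by rw [nS.const n h]) (by fun_prop)
    exact ih.comp' (f := fun p : ℕ × List (List ℕ) => (nS.c (f (nS.d p.1)), p.2))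
      (h1.pair (by fun_prop))
  | branch f q₁ q₂ ih₁ ih₂ =>
    have h1 : PT (fun p : ℕ × List (List ℕ) => f (nS.d p.1)) :=
      PT.table (fun v => f (nS.d v)) nS.N (fun n h => by rw [nS.const n h]) (by fun_prop)
    exact h1.cond ih₁ ih₂
  | goto f =>
    have h1 : PT (fun p : ℕ × List (List ℕ) => nL.c (f (nS.d p.1)) + 1) :=
      PT.table (fun v => nL.c (f (nS.d v)) + 1) nS.N (fun n h => by rw [nS.const n h])
        (by fun_prop)
    exact h1.pair (by fun_prop)
  | halt => unfold sim; fun_prop

omit [DecidableEq K] in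
theorem cs_le (k : K) (x : Γ k) : cs A k x ≤ (A k).length := by
  classical
  unfold cs
  exact List.idxOf_le_length

omit [DecidableEq K] in
theorem sim_size (q : Stmt Γ Λ σ) :
    ∃ C, ∀ v S, sz (sim A nK nL nS q v S) ≤ 2 * sz v + sz S + C := by
  have hs : ∀ x, sz (nS.c x) ≤ nS.N := fun x => (sz_nat_le _).trans (nS.lt x).le
  induction q with
  | push k f q ih =>
    obtain ⟨C, h⟩ := ih
    refine ⟨C + 2 * (2 * (A k).length + 1), fun v S => (h _ _).trans ?_⟩
    have h1 := (sz_nat_le _).trans (cs_le A k (f (nS.d v)))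
    have := sz_set_le S (nK.c k) (cs A k (f (nS.d v)) :: S.getD (nK.c k) []) []
      (2 * (A k).length + 1) (by simp only [sz_cons]; omega)
    omega
  | peek k f q ih =>
    obtain ⟨C, h⟩ := ih
    refine ⟨C + 2 * nS.N, fun v S => (h _ _).trans ?_⟩
    have := hs (f (nS.d v) (ds A k (top (S.getD (nK.c k) []))))
    omega
  | pop k f q ih =>
    obtain ⟨C, h⟩ := ih
    refine ⟨C + 2 * nS.N, fun v S => (h _ _).trans ?_⟩
    have h1 := hs (f (nS.d v) (ds A k (top (S.getD (nK.c k) []))))
    have := sz_set_le S (nK.c k) (S.getD (nK.c k) []).tail [] 0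
      (sz_sublist (List.tail_sublist _))
    omega
  | load f q ih =>
    obtain ⟨C, h⟩ := ih
    refine ⟨C + 2 * nS.N, fun v S => (h _ _).trans ?_⟩
    have := hs (f (nS.d v))
    omega
  | branch f q₁ q₂ ih₁ ih₂ =>
    obtain ⟨C, h⟩ := ih₁
    obtain ⟨D, h'⟩ := ih₂
    refine ⟨C + D, fun v S => ?_⟩
    have h1 := h v S
    have h2 := h' v S
    unfold sim
    cases f (nS.d v) <;> simp only [cond] <;> omega
  | goto f =>
    refine ⟨2 * nL.N + 2, fun v S => ?_⟩
    have h1 := sz_nat_le (nL.c (f (nS.d v)) + 1)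
    have h2 := nL.lt (f (nS.d v))
    simp only [sim, sz_pair]; omega
  | halt =>
    refine ⟨2, fun v S => ?_⟩
    have h1 := sz_nat_le 0
    simp only [sim, sz_pair]; omega

omit [DecidableEq K] in
theorem encS_get (S : ∀ k, List (Γ k)) (i : ℕ) :
    (encS A nK S)[i]? = if i < nK.N then some ((S (nK.d i)).map (cs A (nK.d i))) else none := by
  unfold encS
  rw [List.getElem?_map]
  split_ifs with h
  · rw [List.getElem?_range h]; rfl
  · rw [List.getElem?_eq_none (by simpa using h)]; rfl

omit [DecidableEq K] in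
theorem encS_getD (S : ∀ k, List (Γ k)) (k : K) :
    (encS A nK S).getD (nK.c k) [] = (S k).map (cs A k) := by
  have key : ∀ j, j = k → (S j).map (cs A j) = (S k).map (cs A k) := by rintro _ rfl; rfl
  rw [List.getD_eq_getElem?_getD, encS_get, if_pos (nK.lt k)]
  exact key _ (nK.dc k)

/-- The numbering of the stacks is onto below the bound. -/
def Onto (nK : Num K) : Prop := ∀ i < nK.N, nK.c (nK.d i) = i

theorem encS_set (hK : Onto nK) (S : ∀ k, List (Γ k)) (k : K) (s : List (Γ k)) :
    (encS A nK S).set (nK.c k) (s.map (cs A k)) = encS A nK (update S k s) := by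
  have key : ∀ j, j = k → (update S k s j).map (cs A j) = s.map (cs A k) := by
    rintro _ rfl; simp
  apply List.ext_getElem?
  intro i
  have hl : (encS A nK S).length = nK.N := by simp [encS]
  rw [List.getElem?_set, encS_get, encS_get, hl]
  by_cases h : nK.c k = i
  · subst h
    rw [if_pos rfl, if_pos (nK.lt k), if_pos (nK.lt k), key _ (nK.dc k)]
  · rw [if_neg h]
    split_ifs with hi
    · have : nK.d i ≠ k := fun h' => h (by rw [← h', hK i hi])
      rw [update_of_ne this]
    · rfl

omit [DecidableEq K] in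
theorem ds_top (k : K) (s : List (Γ k)) (hs : ∀ x ∈ s, x ∈ A k) :
    ds A k (top (s.map (cs A k))) = s.head? := by
  classical
  cases s with
  | nil => simp [ds, top]
  | cons x s =>
    have hx := hs x (by simp)
    simp [ds, top, cs, List.getElem?_idxOf hx]

theorem sim_spec (hK : Onto nK) (q : Stmt Γ Λ σ) (hq : Pushes A q) : ∀ (v : σ) (S : ∀ k, List (Γ k)),
    (∀ k, ∀ x ∈ S k, x ∈ A k) →
    sim A nK nL nS q (nS.c v) (encS A nK S) = encC A nK nL nS (stepAux q v S) ∧
      ∀ k, ∀ x ∈ (stepAux q v S).stk k, x ∈ A k := by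
  induction q with
  | push k f q ih =>
    intro v S hS
    rw [sim, encS_getD, nS.dc, ← List.map_cons, encS_set A nK hK, stepAux]
    refine ih hq.2 v _ fun j x hx => ?_
    by_cases h : j = k
    · subst h
      rw [update_self] at hx
      rcases List.mem_cons.mp hx with rfl | hx
      · exact hq.1 v
      · exact hS _ x hx
    · rw [update_of_ne h] at hx; exact hS _ x hx
  | peek k f q ih =>
    intro v S hS
    rw [sim, encS_getD, nS.dc, ds_top A k _ (hS k), stepAux]
    exact ih hq _ _ hS
  | pop k f q ih =>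
    intro v S hS
    rw [sim, encS_getD, nS.dc, ds_top A k _ (hS k), ← List.map_tail, encS_set A nK hK, stepAux]
    refine ih hq _ _ fun j x hx => ?_
    by_cases h : j = k
    · subst h
      rw [update_self] at hx
      exact hS _ x (List.mem_of_mem_tail hx)
    · rw [update_of_ne h] at hx; exact hS _ x hx
  | load f q ih =>
    intro v S hS
    rw [sim, nS.dc, stepAux]
    exact ih hq _ _ hS
  | branch f q₁ q₂ ih₁ ih₂ =>
    intro v S hS
    rw [sim, nS.dc, stepAux]
    cases f v
    · exact ih₂ hq.2 _ _ hS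
    · exact ih₁ hq.1 _ _ hS
  | goto f =>
    intro v S hS
    rw [sim, nS.dc, stepAux]
    exact ⟨rfl, hS⟩
  | halt =>
    intro v S hS
    rw [sim, stepAux]
    exact ⟨rfl, hS⟩

/-- One step on codes. -/
noncomputable def estep (M : Λ → Stmt Γ Λ σ) (c : ℕ × ℕ × List (List ℕ)) : ℕ × ℕ × List (List ℕ) :=
  if c.1 = 0 then c else sim A nK nL nS (M (nL.d (min (c.1 - 1) nL.N))) c.2.1 c.2.2

omit [DecidableEq K] in
theorem estep_pt (M : Λ → Stmt Γ Λ σ) : PT (estep A nK nL nS M) := by
  have h1 := PT.finCases (fun i (c : ℕ × ℕ × List (List ℕ)) => sim A nK nL nS (M (nL.d i)) c.2.1 c.2.2)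
    (fun i => (sim_pt A nK nL nS (M (nL.d i))).comp' (f := fun c : ℕ × ℕ × List (List ℕ) => c.2)
      (by fun_prop)) (x := fun c => c.1 - 1) (by fun_prop) nL.N
  exact PT.ite (by fun_prop) PT.id' h1

omit [DecidableEq K] in
theorem estep_size [Fintype Λ] (M : Λ → Stmt Γ Λ σ) :
    ∃ C, ∀ c, sz (estep A nK nL nS M c) ≤ sz c + C := by
  choose C hC using fun l => sim_size A nK nL nS (M l)
  refine ⟨∑ l, C l, fun c => ?_⟩
  unfold estep
  split_ifs
  · omega
  · refine (hC _ _ _).trans ?_
    have := Finset.single_le_sum (f := C) (fun _ _ => Nat.zero_le _)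
      (Finset.mem_univ (nL.d (min (c.1 - 1) nL.N)))
    rw [sz_prod c, sz_prod c.2]
    omega

theorem estep_iter (hK : Onto nK) (M : Λ → Stmt Γ Λ σ) (hM : ∀ l, Pushes A (M l)) (t : ℕ) :
    ∀ (c c' : Cfg Γ Λ σ), (∀ k, ∀ x ∈ c.stk k, x ∈ A k) →
      (flip bind (TM2.step M))^[t] (some c) = some c' →
      (estep A nK nL nS M)^[t] (encC A nK nL nS c) = encC A nK nL nS c' ∧
        ∀ k, ∀ x ∈ c'.stk k, x ∈ A k := by
  induction t with
  | zero =>
    intro c c' hc h
    obtain rfl : c = c' := Option.some.inj h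
    exact ⟨rfl, hc⟩
  | succ t ih =>
    rintro ⟨_ | l, v, S⟩ c' hc h
    · rw [iter_bind_succ] at h
      have : ∀ t, (flip bind (TM2.step M))^[t] none = none := fun t => iterate_fixed rfl t
      rw [show TM2.step M ⟨none, v, S⟩ = none from rfl, this] at h
      exact absurd h (by simp)
    · rw [iter_bind_succ] at h
      obtain ⟨h1, h2⟩ := sim_spec A nK nL nS hK (M l) (hM l) v S hc
      have h3 : estep A nK nL nS M (encC A nK nL nS ⟨some l, v, S⟩) =
          encC A nK nL nS (stepAux (M l) v S) := by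
        rw [← h1]
        simp [estep, encC, min_eq_left (nL.lt l).le, nL.dc]
      rw [iterate_succ_apply, h3]
      exact ih _ _ h2 h

theorem exists_num_onto (K : Type) [Fintype K] (k0 : K) : ∃ nK : Num K, Onto nK := by
  let e := Fintype.equivFin K
  refine ⟨⟨Fintype.card K, fun x => e x, fun n => if h : n < Fintype.card K then e.symm ⟨n, h⟩ else k0,
    fun x => (e x).2, fun x => by simp, fun n hn => by simp [not_lt.mpr hn]⟩, fun i hi => ?_⟩
  have hi' : i < Fintype.card K := hi
  simp [hi']

end Conv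

open Conv in
/-- The converse of `PT.isPolyTime`. -/
theorem pt_ofIsPolyTime {α β : Type} [N487b59b3 α] [N487b59b3 β] {f : α → β}
    (h : N68a2faeb.IsPolyTime f) : PT f := by
  obtain ⟨⟨⟨tm, ei, eo⟩, time, out⟩⟩ := h
  let _ := tm.kFin
  let _ := tm.ΛFin
  let _ := tm.σFin
  let _ := tm.Γk₀Fin
  obtain ⟨A, hA, hA0⟩ := exists_alphabet tm.m tm.k₀
  obtain ⟨nK, hK⟩ := exists_num_onto tm.K tm.k₀
  obtain ⟨nL⟩ := exists_num tm.Λ tm.main
  obtain ⟨nS⟩ := exists_num tm.σ tm.initialState
  obtain ⟨u, hu, hul⟩ := PT.unary_poly (α := α) time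
  obtain ⟨C, hC⟩ := estep_size A nK nL nS tm.m
  let s0 : α → ℕ × ℕ × List (List ℕ) := fun a => (nL.c tm.main + 1, nS.c tm.initialState,
    (encS A nK (fun _ => [])).set (nK.c tm.k₀) ((bitEncode (α := α) a).map fun b =>
      cond b (cs A tm.k₀ (ei.symm true)) (cs A tm.k₀ (ei.symm false))))
  have hs0 : PT s0 := by fun_prop
  have hinit : ∀ a : α, (initList tm (List.map ei.invFun (bitEncode (α := α) a))).stk =
      update (fun k => ([] : List (tm.Γ k))) tm.k₀ (List.map ei.invFun (bitEncode (α := α) a)) := by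
    intro a
    funext k
    by_cases hk : k = tm.k₀
    · subst hk; simp [initList]
    · simp [initList, hk]
  have he0 : ∀ a : α, s0 a = encC A nK nL nS (initList tm (List.map ei.invFun (bitEncode (α := α) a))) := by
    intro a
    unfold encC
    rw [hinit, ← encS_set A nK hK, List.map_map]
    refine Prod.ext rfl (Prod.ext rfl ?_)
    simp only [s0]
    congr 2
    funext b
    cases b <;> rfl
  have hit := PT.iterBits (estep_pt A nK nL nS tm.m) hu hs0
    (B := fun a => sz (s0 a) + (u a).length * C) (by fun_prop) (by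
      intro a i hi
      have : ∀ i, sz ((estep A nK nL nS tm.m)^[i] (s0 a)) ≤ sz (s0 a) + i * C := by
        intro i
        induction i with
        | zero => simp
        | succ i ih =>
          rw [iterate_succ_apply']
          have := hC ((estep A nK nL nS tm.m)^[i] (s0 a))
          nlinarith
      exact (this i).trans (by gcongr))
  let dec : ℕ → Bool := fun n => (ds A tm.k₁ (n + 1)).elim false eo
  have hdec : PT (fun p : α × ℕ => dec p.2) :=
    PT.table dec (A tm.k₁).length (fun n h => by
      simp only [dec]; rw [ds_const A tm.k₁ (n + 1) (by omega)]) (by fun_prop)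
  have hfin : PT (fun a =>
      (((estep A nK nL nS tm.m)^[(u a).length] (s0 a)).2.2.getD (nK.c tm.k₁) []).map dec) :=
    PT.map (h := fun _ n => dec n) (by fun_prop) hdec
  refine PT.of_bits hfin fun a => ?_
  obtain ⟨⟨t, ht⟩, hle⟩ := out a
  obtain ⟨h1, h2⟩ := estep_iter A nK nL nS hK tm.m hA t
    (initList tm (List.map ei.invFun (bitEncode (α := α) a)))
    (haltList tm (List.map eo.invFun (bitEncode (f a)))) (by
    intro k x hx
    rw [hinit] at hx
    by_cases hk : k = tm.k₀
    · subst hk; exact hA0 x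
    · rw [update_of_ne hk] at hx; simp at hx) ht
  obtain ⟨j, hj⟩ : ∃ j, (u a).length = j + t := ⟨(u a).length - t, by
    have : t ≤ time.eval (sz a) := hle
    rw [hul]; omega⟩
  rw [hj, iterate_add_apply, he0, h1, iterate_fixed (by simp [estep, encC, haltList])]
  have h3 : (haltList tm (List.map eo.invFun (bitEncode (f a)))).stk tm.k₁ =
      List.map eo.invFun (bitEncode (f a)) := by simp [haltList]
  have h4 := h2 tm.k₁
  simp only [encC]
  rw [encS_getD]
  rw [h3] at h4 ⊢
  rw [List.map_map, List.map_map]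
  conv_rhs => rw [← List.map_id (bitEncode (f a))]
  refine List.map_congr_left fun b hb => ?_
  have h5 := ds_top A tm.k₁ [eo.invFun b] (fun x hx => h4 x (by
    rw [List.mem_singleton.mp hx]; exact List.mem_map_of_mem hb))
  simp only [List.map_cons, List.map_nil, top, List.head?_cons, Option.elim_some] at h5
  simp only [comp, dec]
  rw [h5]
  exact eo.right_inv b

/-- The converse of `PT.isPolyTime`. -/
theorem PT.ofIsPolyTime {α β : Type} [N487b59b3 α] [N487b59b3 β] {f : α → β}
    (h : N68a2faeb.IsPolyTime f) : PT f := pt_ofIsPolyTime h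

theorem pt_iff_isPolyTime {α β : Type} [N487b59b3 α] [N487b59b3 β] {f : α → β} :
    PT f ↔ N68a2faeb.IsPolyTime f := ⟨PT.isPolyTime, PT.ofIsPolyTime⟩

end Pool.Agent.Shared.PolyTime
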