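import Mathlib

/-!
Elementary probabilistic method on the finite product space `P → F` with the uniform measure:
independence of events that depend on disjoint blocks of coordinates, and the union bound.
-/

namespace Pool.Agent.Shared.FunProb

open Finset

variable {P F : Type*} [Fintype P] [DecidableEq P] [Fintype F]

open Classical in
/-- Number of functions satisfying `E`. -/
noncomputable def cnt (E : (P → F) → Prop) : ℕ := (univ.filter E).card

/-- Uniform probability of the event `E`. -/
noncomputable def pr (E : (P → F) → Prop) : ℝ := (cnt E : ℝ) / Fintype.card (P → F)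

/-- The event `E` depends only on the coordinates in `T`. -/
def Dep (E : (P → F) → Prop) (T : Finset P) : Prop :=
  ∀ f g : P → F, (∀ x ∈ T, f x = g x) → E f → E g

omit [Fintype P] [DecidableEq P] [Fintype F] in
theorem Dep.not {E : (P → F) → Prop} {T : Finset P} (h : Dep E T) : Dep (fun f => ¬ E f) T :=
  fun f g hfg hf hg => hf (h g f (fun x hx => (hfg x hx).symm) hg)

omit [Fintype P] [DecidableEq P] [Fintype F] in
theorem Dep.mono {E : (P → F) → Prop} {T T' : Finset P} (h : Dep E T) (hT : T ⊆ T') : Dep E T' :=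
  fun f g hfg hf => h f g (fun x hx => hfg x (hT hx)) hf

omit [Fintype P] [Fintype F] in
theorem Dep.and {E E' : (P → F) → Prop} {T T' : Finset P} (h : Dep E T) (h' : Dep E' T') :
    Dep (fun f => E f ∧ E' f) (T ∪ T') :=
  fun f g hfg hf => ⟨h f g (fun x hx => hfg x (mem_union_left _ hx)) hf.1,
    h' f g (fun x hx => hfg x (mem_union_right _ hx)) hf.2⟩

theorem cnt_and {E E' : (P → F) → Prop} {T T' : Finset P} (h : Dep E T) (h' : Dep E' T')
    (hd : Disjoint T T') :
    cnt (fun f => E f ∧ E' f) * Fintype.card (P → F) = cnt E * cnt E' := by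
  classical
  unfold cnt
  rw [← card_univ, ← card_product, ← card_product]
  have key : ∀ f g : P → F, (∀ x ∈ T, f x = T.piecewise f g x) ∧
      (∀ x ∈ T', g x = T.piecewise f g x) := by
    intro f g
    refine ⟨fun x hx => by simp [piecewise, hx], fun x hx => ?_⟩
    have : x ∉ T := fun hx' => (disjoint_left.mp hd) hx' hx
    simp [piecewise, this]
  symm
  refine card_nbij' (fun p => (T.piecewise p.1 p.2, T.piecewise p.2 p.1))
    (fun p => (T.piecewise p.1 p.2, T.piecewise p.2 p.1)) ?_ ?_ ?_ ?_
  · intro p hp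
    simp only [coe_product, coe_filter, mem_univ, true_and, Set.mem_prod, Set.mem_ofPred_eq,
      coe_univ, Set.mem_univ, and_true] at hp ⊢
    exact ⟨h _ _ (key p.1 p.2).1 hp.1, h' _ _ (key p.1 p.2).2 hp.2⟩
  · intro p hp
    simp only [coe_product, coe_filter, mem_univ, true_and, Set.mem_prod, Set.mem_ofPred_eq,
      coe_univ, Set.mem_univ, and_true] at hp ⊢
    exact ⟨h _ _ (key p.1 p.2).1 hp.1, h' _ _ (key p.2 p.1).2 hp.2⟩
  · intro p _
    ext x <;> by_cases hx : x ∈ T <;> simp [piecewise, hx]
  · intro p _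
    ext x <;> by_cases hx : x ∈ T <;> simp [piecewise, hx]

variable [Nonempty F]

theorem card_pos' : (0 : ℝ) < Fintype.card (P → F) := by
  exact_mod_cast Fintype.card_pos

theorem pr_and {E E' : (P → F) → Prop} {T T' : Finset P} (h : Dep E T) (h' : Dep E' T')
    (hd : Disjoint T T') : pr (fun f => E f ∧ E' f) = pr E * pr E' := by
  have h1 := cnt_and h h' hd
  have h2 : (0 : ℝ) < Fintype.card (P → F) := card_pos'
  unfold pr
  have h3 : (cnt (fun f => E f ∧ E' f) : ℝ) * Fintype.card (P → F) = cnt E * cnt E' := by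
    exact_mod_cast h1
  field_simp
  linarith

theorem pr_not (E : (P → F) → Prop) : pr (fun f => ¬ E f) = 1 - pr E := by
  classical
  have h2 : (0 : ℝ) < Fintype.card (P → F) := card_pos'
  unfold pr cnt
  have h := card_filter_add_card_filter_not (s := (univ : Finset (P → F))) E
  rw [card_univ] at h
  have h3 : ((univ.filter E).card : ℝ) + (univ.filter (fun f => ¬ E f)).card
      = Fintype.card (P → F) := by exact_mod_cast h
  field_simp
  convert (eq_sub_of_add_eq' h3)

omit [Nonempty F] in
theorem pr_nonneg (E : (P → F) → Prop) : 0 ≤ pr E := by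
  unfold pr; positivity

theorem pr_le_one (E : (P → F) → Prop) : pr E ≤ 1 := by
  have := pr_nonneg (fun f => ¬ E f)
  rw [pr_not] at this
  linarith

theorem pr_true : pr (fun _ : P → F => True) = 1 := by
  have h2 : (0 : ℝ) < Fintype.card (P → F) := card_pos'
  unfold pr cnt
  simp only [filter_true, card_univ]
  field_simp

omit [Nonempty F] in
theorem pr_congr {E E' : (P → F) → Prop} (h : ∀ f, E f ↔ E' f) : pr E = pr E' := by
  have : E = E' := funext fun f => propext (h f)
  rw [this]

/-- Product formula for events depending on pairwise disjoint blocks. -/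
theorem pr_forall {ι : Type*} (J : Finset ι) (E : ι → (P → F) → Prop) (T : ι → Finset P)
    (hE : ∀ j ∈ J, Dep (E j) (T j)) (hT : ∀ j ∈ J, ∀ k ∈ J, j ≠ k → Disjoint (T j) (T k)) :
    pr (fun f => ∀ j ∈ J, E j f) = ∏ j ∈ J, pr (E j) := by
  classical
  induction J using Finset.induction_on with
  | empty => simpa using pr_true
  | insert a s ha ih =>
    rw [prod_insert ha, ← ih (fun j hj => hE j (mem_insert_of_mem hj))
      (fun j hj k hk => hT j (mem_insert_of_mem hj) k (mem_insert_of_mem hk))]
    rw [← pr_and (T := T a) (T' := s.biUnion T) (hE a (mem_insert_self _ _))]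
    · apply pr_congr
      intro f
      simp
    · intro f g hfg hf j hj
      exact hE j (mem_insert_of_mem hj) f g
        (fun x hx => hfg x (mem_biUnion.mpr ⟨j, hj, hx⟩)) (hf j hj)
    · rw [disjoint_biUnion_right]
      intro j hj
      exact hT a (mem_insert_self _ _) j (mem_insert_of_mem hj) (fun h => ha (h ▸ hj))

/-- A single coordinate takes a prescribed value with probability `1 / |F|`. -/
theorem pr_coord (w : P) (a : F) : pr (fun f : P → F => f w = a) = 1 / Fintype.card F := by
  classical
  have h2 : (0 : ℝ) < Fintype.card (P → F) := card_pos'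
  have hF : (0 : ℝ) < Fintype.card F := by exact_mod_cast Fintype.card_pos
  have hc : ∀ b : F, (univ.filter (fun f : P → F => f w = b)).card
      = (univ.filter (fun f : P → F => f w = a)).card := by
    intro b
    refine card_nbij' (fun f => Function.update f w a) (fun f => Function.update f w b)
      ?_ ?_ ?_ ?_
    · intro f _; simp
    · intro f _; simp
    · intro f hf
      simp only [coe_filter, mem_univ, true_and, Set.mem_ofPred_eq] at hf
      simp [← hf]
    · intro f hf
      simp only [coe_filter, mem_univ, true_and, Set.mem_ofPred_eq] at hf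
      simp [← hf]
  have hs : Fintype.card (P → F) = ∑ b : F, (univ.filter (fun f : P → F => f w = b)).card := by
    rw [← card_univ]
    exact card_eq_sum_card_fiberwise (f := fun f : P → F => f w) (fun _ _ => mem_univ _)
  simp only [hc, sum_const, card_univ, smul_eq_mul] at hs
  have hs' : (Fintype.card (P → F) : ℝ)
      = Fintype.card F * (univ.filter (fun f : P → F => f w = a)).card := by exact_mod_cast hs
  unfold pr cnt
  rw [div_eq_div_iff h2.ne' hF.ne', hs']
  simp only [one_mul]
  rw [mul_comm]

/-- No coordinate of the block `A` takes the value `a`. -/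
theorem pr_avoid (A : Finset P) (a : F) :
    pr (fun f : P → F => ∀ x ∈ A, f x ≠ a) = (1 - 1 / (Fintype.card F : ℝ)) ^ A.card := by
  rw [pr_forall A (fun x f => f x ≠ a) (fun x => {x})]
  · have : ∀ x ∈ A, pr (fun f : P → F => f x ≠ a) = 1 - 1 / (Fintype.card F : ℝ) := by
      intro x _
      rw [← pr_coord x a, ← pr_not]
    rw [prod_congr rfl this, prod_const]
  · intro x _ f g hfg hf
    rwa [← hfg x (mem_singleton_self x)]
  · intro x _ y _ hxy
    exact disjoint_singleton.mpr hxy

/-- Union bound. -/
theorem exists_forall_not {ρ : Type*} [Fintype ρ] (B : ρ → (P → F) → Prop) (ε : ℝ)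
    (hB : ∀ r, pr (B r) ≤ ε) (hε : Fintype.card ρ * ε < 1) : ∃ f, ∀ r, ¬ B r f := by
  classical
  have h2 : (0 : ℝ) < Fintype.card (P → F) := card_pos'
  by_contra hcon
  push Not at hcon
  have hsub : (univ : Finset (P → F)) ⊆ univ.biUnion (fun r => univ.filter (B r)) := by
    intro f _
    obtain ⟨r, hr⟩ := hcon f
    exact mem_biUnion.mpr ⟨r, mem_univ _, mem_filter.mpr ⟨mem_univ _, hr⟩⟩
  have h3 := (card_le_card hsub).trans card_biUnion_le
  rw [card_univ] at h3
  have h4 : (Fintype.card (P → F) : ℝ) ≤ ∑ r : ρ, ((univ.filter (B r)).card : ℝ) := by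
    exact_mod_cast h3
  have h5 : ∀ r, ((univ.filter (B r)).card : ℝ) ≤ ε * Fintype.card (P → F) := by
    intro r
    have := hB r
    unfold pr cnt at this
    rw [div_le_iff₀ h2] at this
    convert this
  have h6 : ∑ r : ρ, ((univ.filter (B r)).card : ℝ) ≤ Fintype.card ρ * (ε * Fintype.card (P → F)) := by
    calc _ ≤ ∑ _r : ρ, ε * (Fintype.card (P → F) : ℝ) := sum_le_sum fun r _ => h5 r
      _ = _ := by simp
  nlinarith

/-- The probabilistic method with independent trials: every requirement `r` has at least `M`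
independent trials, each succeeding with probability at least `δ`. -/
theorem exists_all_succeed {ρ ι : Type*} [Fintype ρ] (J : ρ → Finset ι)
    (E : ρ → ι → (P → F) → Prop) (T : ρ → ι → Finset P) (δ : ℝ) (M : ℕ) (hδ1 : δ ≤ 1)
    (hδ0 : 0 ≤ δ)
    (hE : ∀ r, ∀ j ∈ J r, Dep (E r j) (T r j))
    (hT : ∀ r, ∀ j ∈ J r, ∀ k ∈ J r, j ≠ k → Disjoint (T r j) (T r k))
    (hp : ∀ r, ∀ j ∈ J r, δ ≤ pr (E r j)) (hM : ∀ r, M ≤ (J r).card)
    (hε : Fintype.card ρ * (1 - δ) ^ M < 1) : ∃ f, ∀ r, ∃ j ∈ J r, E r j f := by
  obtain ⟨f, hf⟩ := exists_forall_not (fun r f => ∀ j ∈ J r, ¬ E r j f) ((1 - δ) ^ M) (by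
    intro r
    rw [pr_forall (J r) (fun j f => ¬ E r j f) (T r) (fun j hj => (hE r j hj).not) (hT r)]
    calc ∏ j ∈ J r, pr (fun f => ¬ E r j f) ≤ ∏ _j ∈ J r, (1 - δ) := by
          apply prod_le_prod (fun j _ => pr_nonneg _)
          intro j hj
          rw [pr_not]
          linarith [hp r j hj]
      _ = (1 - δ) ^ (J r).card := by rw [prod_const]
      _ ≤ (1 - δ) ^ M := pow_le_pow_of_le_one (by linarith) (by linarith) (hM r)) hε
  refine ⟨f, fun r => ?_⟩
  have := hf r
  push Not at this
  exact this

end Pool.Agent.Shared.FunProb
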