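import Mathlib

/-!
The Hasse-Davenport lifting theorem for Gauss sums.
-/

namespace Pool.Agent.Shared.HasseDavenport

open Finset Polynomial

variable {F : Type*} [Field F] {R : Type*} [CommRing R]

/-- the multiplicative function on monic polynomials attached to `χ` and `ψ`. -/
noncomputable def lam (χ : MulChar F R) (ψ : AddChar F R) (f : F[X]) : R :=
  χ ((-1) ^ f.natDegree * f.coeff 0) * ψ (-f.nextCoeff)

theorem lam_mul (χ : MulChar F R) (ψ : AddChar F R) {f g : F[X]} (hf : f.Monic) (hg : g.Monic) :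
    lam χ ψ (f * g) = lam χ ψ f * lam χ ψ g := by
  simp only [lam, hf.natDegree_mul hg, hf.nextCoeff_mul hg, mul_coeff_zero, pow_add, neg_add,
    AddChar.map_add_eq_mul, map_mul]
  ring

theorem lam_one (χ : MulChar F R) (ψ : AddChar F R) : lam χ ψ 1 = 1 := by
  have : (1 : F[X]).nextCoeff = 0 := by rw [← C_1, nextCoeff_C_eq_zero]
  simp [lam, this]

theorem lam_pow (χ : MulChar F R) (ψ : AddChar F R) {f : F[X]} (hf : f.Monic) (j : ℕ) :
    lam χ ψ (f ^ j) = lam χ ψ f ^ j := by
  induction j with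
  | zero => simp [lam_one]
  | succ j ih => rw [pow_succ, lam_mul χ ψ (hf.pow j) hf, ih, pow_succ]

theorem finite_le [Finite F] (n : ℕ) : {f : F[X] | f.natDegree ≤ n}.Finite := by
  have : Finite (degreeLT F (n + 1)) := Finite.of_equiv _ (degreeLTEquiv F (n + 1)).toEquiv.symm
  refine (Set.toFinite (degreeLT F (n + 1) : Set F[X])).subset fun f hf => ?_
  rw [SetLike.mem_coe, mem_degreeLT]
  exact degree_le_natDegree.trans_lt (by exact_mod_cast Nat.lt_succ_of_le hf)

theorem finite_monic [Finite F] (n : ℕ) : {f : F[X] | f.Monic ∧ f.natDegree = n}.Finite :=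
  (finite_le n).subset fun _ hf => hf.2.le

/-- monic polynomials of degree `n`. -/
noncomputable def mon (F : Type*) [Field F] [Finite F] (n : ℕ) : Finset F[X] :=
  (finite_monic n).toFinset

theorem mem_mon [Finite F] {n : ℕ} {f : F[X]} : f ∈ mon F n ↔ f.Monic ∧ f.natDegree = n := by
  simp [mon]

section

variable [Fintype F] (χ : MulChar F R) (ψ : AddChar F R)

theorem sum_zero : ∑ f ∈ mon F 0, lam χ ψ f = 1 := by
  have : mon F 0 = {1} := by
    ext f
    rw [mem_mon, mem_singleton]
    exact ⟨fun h => h.1.natDegree_eq_zero.1 h.2, fun h => by simp [h]⟩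
  rw [this, sum_singleton, lam_one]

theorem sum_one : ∑ f ∈ mon F 1, lam χ ψ f = gaussSum χ ψ := by
  symm
  refine sum_bij (fun a _ => X - C a) (fun a _ => mem_mon.2 ⟨monic_X_sub_C a, natDegree_X_sub_C a⟩)
    (fun a _ b _ h => by simpa using h) (fun f hf => ?_) fun a _ => ?_
  · obtain ⟨h1, h2⟩ := mem_mon.1 hf
    refine ⟨-f.coeff 0, mem_univ _, ?_⟩
    rw [map_neg, sub_neg_eq_add, ← h1.eq_X_add_C h2]
  · simp [lam, nextCoeff_X_sub_C]

theorem sum_two [IsDomain R] (hψ : ψ ≠ 1) (n : ℕ) : ∑ f ∈ mon F (n + 2), lam χ ψ f = 0 := by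
  obtain ⟨c, hc⟩ := AddChar.ne_one_iff.1 hψ
  have key : ∀ c : F, ∀ f ∈ mon F (n + 2), f + monomial (n + 1) c ∈ mon F (n + 2) := by
    intro c f hf
    obtain ⟨h1, h2⟩ := mem_mon.1 hf
    have h3 : (monomial (n + 1) c).degree < f.degree := by
      rw [degree_eq_natDegree h1.ne_zero, h2]
      exact (degree_monomial_le _ _).trans_lt (by exact_mod_cast Nat.lt_succ_self _)
    exact mem_mon.2 ⟨h1.add_of_left h3, by rw [natDegree_add_eq_left_of_degree_lt h3, h2]⟩
  have h : ∑ f ∈ mon F (n + 2), lam χ ψ f * ψ c = ∑ f ∈ mon F (n + 2), lam χ ψ f := by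
    refine sum_nbij' (fun f => f + monomial (n + 1) (-c)) (fun f => f + monomial (n + 1) c)
      (key _) (key _) (fun f _ => by simp) (fun f _ => by simp) fun f hf => ?_
    have h1 := (mem_mon.1 (key (-c) f hf)).2
    have h2 := (mem_mon.1 hf).2
    rw [lam, lam, nextCoeff_of_natDegree_pos (by omega), nextCoeff_of_natDegree_pos (by omega),
      h1, h2, mul_assoc, ← AddChar.map_add_eq_mul]
    simp [coeff_monomial, add_comm]
  rw [← sum_mul] at h
  have : (∑ f ∈ mon F (n + 2), lam χ ψ f) * (ψ c - 1) = 0 := by linear_combination h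
  exact (mul_eq_zero.1 this).resolve_right (sub_ne_zero.2 hc)

open scoped Classical in
theorem sum_dvd {P : F[X]} (hP : P.Monic) (n : ℕ) :
    ∑ f ∈ mon F n, (if P ∣ f then lam χ ψ f else 0) =
      if P.natDegree ≤ n then lam χ ψ P * ∑ g ∈ mon F (n - P.natDegree), lam χ ψ g else 0 := by
  rw [← sum_filter]
  split_ifs with h
  · rw [mul_sum]
    symm
    refine sum_bij (fun g _ => P * g) (fun g hg => ?_)
      (fun a _ b _ h => mul_left_cancel₀ hP.ne_zero h) (fun f hf => ?_)
      fun g hg => (lam_mul χ ψ hP (mem_mon.1 hg).1).symm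
    · obtain ⟨h1, h2⟩ := mem_mon.1 hg
      exact mem_filter.2 ⟨mem_mon.2 ⟨hP.mul h1, by rw [hP.natDegree_mul h1]; omega⟩,
        dvd_mul_right _ _⟩
    · obtain ⟨hf, g, rfl⟩ := mem_filter.1 hf
      obtain ⟨h1, h2⟩ := mem_mon.1 hf
      have h3 := hP.of_mul_monic_left h1
      rw [hP.natDegree_mul h3] at h2
      exact ⟨g, mem_mon.2 ⟨h3, by omega⟩, rfl⟩
  · refine sum_eq_zero fun f hf => absurd ?_ h
    obtain ⟨hf, hd⟩ := mem_filter.1 hf
    obtain ⟨h1, h2⟩ := mem_mon.1 hf
    exact h2 ▸ natDegree_le_of_dvd hd h1.ne_zero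

end

section

variable {Ω : Type*} [Field Ω] [Algebra F Ω]

theorem pow_dvd_iff [Finite F] {β : Ω} (hβ : IsIntegral F β) (j : ℕ) {f : F[X]} (hf : f ≠ 0) :
    minpoly F β ^ j ∣ f ↔ j ≤ rootMultiplicity β (f.map (algebraMap F Ω)) := by
  have hP := minpoly.monic hβ
  have h1 : rootMultiplicity β ((minpoly F β).map (algebraMap F Ω)) = 1 := by
    refine le_antisymm (rootMultiplicity_le_one_of_separable
      (PerfectField.separable_of_irreducible (minpoly.irreducible hβ)).map β) ?_
    rw [Nat.one_le_iff_ne_zero, ← Nat.pos_iff_ne_zero, rootMultiplicity_pos (hP.map _).ne_zero,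
      IsRoot.def, eval_map_algebraMap, minpoly.aeval]
  induction j generalizing f with
  | zero => simp
  | succ j ih =>
    have key : ∀ g : F[X], g ≠ 0 →
        rootMultiplicity β ((minpoly F β * g).map (algebraMap F Ω))
          = rootMultiplicity β (g.map (algebraMap F Ω)) + 1 := by
      intro g hg
      rw [Polynomial.map_mul, rootMultiplicity_mul (mul_ne_zero (hP.map _).ne_zero
        (Polynomial.map_ne_zero hg)), h1, add_comm]
    by_cases hd : minpoly F β ∣ f
    · obtain ⟨g, rfl⟩ := hd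
      have hg := right_ne_zero_of_mul hf
      rw [key g hg, pow_succ', mul_dvd_mul_iff_left hP.ne_zero, Nat.add_le_add_iff_right]
      exact ih hg
    · refine iff_of_false (fun h => hd ((dvd_pow_self _ j.succ_ne_zero).trans h)) fun h => hd ?_
      have h2 : 0 < rootMultiplicity β (f.map (algebraMap F Ω)) := by omega
      rw [rootMultiplicity_pos (Polynomial.map_ne_zero hf), IsRoot.def, eval_map_algebraMap] at h2
      exact minpoly.dvd F β h2

theorem finite_deg [Finite F] [Algebra.IsAlgebraic F Ω] (N : ℕ) :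
    {β : Ω | (minpoly F β).natDegree ≤ N}.Finite := by
  refine ((finite_le (F := F) N).biUnion fun f _ => f.rootSet_finite Ω).subset fun β hβ => ?_
  have hi : IsIntegral F β := Algebra.IsIntegral.isIntegral β
  exact Set.mem_biUnion hβ (mem_rootSet.2 ⟨minpoly.ne_zero hi, minpoly.aeval F β⟩)

open scoped Classical in
theorem count_eq [Finite F] [Algebra.IsAlgebraic F Ω] [IsAlgClosed Ω] (N : ℕ) {f : F[X]}
    (hf : f.Monic) (hN : f.natDegree ≤ N) :
    ∑ β ∈ (finite_deg (F := F) (Ω := Ω) N).toFinset, ∑ j ∈ range N,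
      (if minpoly F β ^ (j + 1) ∣ f then 1 else 0) = f.natDegree := by
  set g := f.map (algebraMap F Ω) with hg
  have hg0 : g ≠ 0 := (hf.map _).ne_zero
  have hcard : g.roots.card = f.natDegree := by
    rw [← (IsAlgClosed.splits g).natDegree_eq_card_roots, hg, hf.natDegree_map]
  have h1 : ∀ β : Ω, ∑ j ∈ range N, (if minpoly F β ^ (j + 1) ∣ f then 1 else 0)
      = g.roots.count β := by
    intro β
    have hi : IsIntegral F β := Algebra.IsIntegral.isIntegral β
    have h2 := Multiset.count_le_card β g.roots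
    rw [count_roots] at h2 ⊢
    simp only [pow_dvd_iff hi _ hf.ne_zero, ← hg]
    rw [← card_filter]
    have : (range N).filter (fun j => j + 1 ≤ rootMultiplicity β g)
        = range (rootMultiplicity β g) := by
      ext j
      simp only [mem_filter, mem_range]
      omega
    rw [this, card_range]
  simp only [h1]
  rw [← hcard]
  refine Multiset.sum_count_eq_card fun β hβ => ?_
  rw [mem_roots hg0, IsRoot.def, hg, eval_map_algebraMap] at hβ
  rw [Set.Finite.mem_toFinset]
  exact (natDegree_le_of_dvd (minpoly.dvd F β hβ) hf.ne_zero).trans hN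

end

theorem lam_minpoly {K : Type*} [Field K] [Algebra F K] [FiniteDimensional F K]
    (χ : MulChar F R) (ψ : AddChar F R) (x : K) :
    ∃ e, (minpoly F x).natDegree * e = Module.finrank F K ∧
      χ (Algebra.norm F x) * ψ (Algebra.trace F K x) = lam χ ψ (minpoly F x) ^ e := by
  have hi : IsIntegral F x := .of_finite F x
  refine ⟨Module.finrank (IntermediateField.adjoin F {x}) K, ?_, ?_⟩
  · rw [← IntermediateField.adjoin.finrank hi, Module.finrank_mul_finrank]
  · have h1 := Algebra.PowerBasis.norm_gen_eq_coeff_zero_minpoly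
      (IntermediateField.adjoin.powerBasis hi)
    rw [IntermediateField.adjoin.powerBasis_gen, IntermediateField.adjoin.powerBasis_dim,
      IntermediateField.minpoly_gen] at h1
    rw [Algebra.norm_eq_norm_adjoin, h1, trace_eq_finrank_mul_minpoly_nextCoeff, lam, map_pow,
      mul_pow, ← nsmul_eq_mul, AddChar.map_nsmul_eq_pow]

/-- The Hasse-Davenport lifting theorem. -/
theorem gaussSum_lift [Fintype F] [IsDomain R] {K : Type*} [Field K] [Fintype K] [Algebra F K]
    (χ : MulChar F R) (ψ : AddChar F R) (hψ : ψ ≠ 1) (χ' : MulChar K R) (ψ' : AddChar K R)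
    (h1 : ∀ x, χ' x = χ (Algebra.norm F x)) (h2 : ∀ x, ψ' x = ψ (Algebra.trace F K x)) :
    -gaussSum χ' ψ' = (-gaussSum χ ψ) ^ Module.finrank F K := by
  classical
  set N := Module.finrank F K with hN
  have hN0 : 0 < N := Module.finrank_pos
  let Ω := AlgebraicClosure K
  have : Algebra.IsAlgebraic F Ω := Algebra.IsAlgebraic.trans F K Ω
  have hi : ∀ β : Ω, IsIntegral F β := fun β => Algebra.IsIntegral.isIntegral β
  set T := (finite_deg (F := F) (Ω := Ω) N).toFinset with hT
  let G : ℕ → R := fun s => ∑ β ∈ T, ∑ j ∈ range N,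
    if (j + 1) * (minpoly F β).natDegree = s then lam χ ψ (minpoly F β) ^ (j + 1) else 0
  have hA : ∀ e n : ℕ, ∀ z : R, (if e ≤ n + 1 then z * ∑ g ∈ mon F (n + 1 - e), lam χ ψ g else 0)
      = (if e = n + 1 then z else 0) + gaussSum χ ψ * if e = n then z else 0 := by
    intro e n z
    by_cases e1 : e = n + 1
    · rw [if_pos e1.le, if_pos e1, if_neg (by omega), e1, Nat.sub_self, sum_zero]; simp
    by_cases e2 : e = n
    · rw [if_pos (by omega), if_neg e1, if_pos e2, e2, Nat.add_sub_cancel_left, sum_one]; ring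
    rw [if_neg e1, if_neg e2, mul_zero, add_zero]
    split_ifs with h
    · obtain ⟨i, hi⟩ : ∃ i, n + 1 - e = i + 2 := ⟨n - 1 - e, by omega⟩
      rw [hi, sum_two χ ψ hψ, mul_zero]
    · rfl
  have hrec : ∀ n, n + 1 ≤ N → ((n + 1 : ℕ) : R) * ∑ f ∈ mon F (n + 1), lam χ ψ f
      = G (n + 1) + gaussSum χ ψ * G n := by
    intro n hn
    have e1 : ((n + 1 : ℕ) : R) * ∑ f ∈ mon F (n + 1), lam χ ψ f
        = ∑ f ∈ mon F (n + 1), ∑ β ∈ T, ∑ j ∈ range N,
          if minpoly F β ^ (j + 1) ∣ f then lam χ ψ f else 0 := by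
      rw [mul_sum]
      refine sum_congr rfl fun f hf => ?_
      obtain ⟨h3, h4⟩ := mem_mon.1 hf
      rw [← h4, ← count_eq (Ω := Ω) N h3 (h4 ▸ hn)]
      push_cast
      simp only [sum_mul, ite_mul, one_mul, zero_mul, hT]
    rw [e1, sum_comm]
    simp only [G, mul_sum, ← sum_add_distrib]
    refine sum_congr rfl fun β _ => ?_
    rw [sum_comm]
    refine sum_congr rfl fun j _ => ?_
    have hP := minpoly.monic (hi β)
    rw [sum_dvd χ ψ (hP.pow _), hA, hP.natDegree_pow, lam_pow χ ψ hP]
  have hG0 : G 0 = 0 := by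
    refine sum_eq_zero fun β _ => sum_eq_zero fun j _ => if_neg ?_
    exact mul_ne_zero j.succ_ne_zero (minpoly.natDegree_pos (hi β)).ne'
  have hG : ∀ n, n + 1 ≤ N → -G (n + 1) = (-gaussSum χ ψ) ^ (n + 1) := by
    intro n
    induction n with
    | zero =>
      intro hn
      have := hrec 0 hn
      rw [hG0, sum_one] at this
      simp only [zero_add, Nat.cast_one, one_mul, mul_zero, add_zero] at this
      simp [this]
    | succ n ih =>
      intro hn
      have := hrec (n + 1) hn
      rw [sum_two χ ψ hψ, mul_zero] at this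
      rw [pow_succ, ← ih (by omega)]
      linear_combination this
  have hfin := hG (N - 1) (by omega)
  rw [Nat.sub_add_cancel hN0] at hfin
  rw [← hfin, gaussSum]
  congr 1
  have hmin : ∀ x : K, minpoly F (algebraMap K Ω x) = minpoly F x := fun x =>
    minpoly.algHom_eq (IsScalarTower.toAlgHom F K Ω) (algebraMap K Ω).injective x
  refine sum_of_injOn (algebraMap K Ω) (algebraMap K Ω).injective.injOn (fun x _ => ?_)
    (fun β _ hβ => ?_) fun x _ => ?_
  · rw [hT, Set.Finite.coe_toFinset, Set.mem_ofPred_eq, hmin]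
    exact minpoly.natDegree_le x
  · refine sum_eq_zero fun j _ => if_neg fun h => hβ ?_
    have h3 := (minpoly.irreducible (hi β)).natDegree_dvd_iff_dvd_X_pow_card_pow_sub_X.1
      (⟨j + 1, by rw [← h, mul_comm]⟩ : (minpoly F β).natDegree ∣ N)
    have h4 := aeval_eq_zero_of_dvd_aeval_eq_zero h3 (minpoly.aeval F β)
    rw [map_sub, map_pow, aeval_X, hN, ← Module.natCard_eq_pow_finrank,
      Nat.card_eq_fintype_card] at h4
    have h5 := (FiniteField.isSplittingField_sub K K).splits
    rw [Algebra.algebraMap_self, Polynomial.map_id] at h5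
    obtain ⟨x, hx⟩ := h5.mem_range_of_isRoot (i := algebraMap K Ω) (x := β)
      (FiniteField.X_pow_card_sub_X_ne_zero K Fintype.one_lt_card) (by simpa using h4)
    exact ⟨x, mem_coe.2 (mem_univ _), hx⟩
  · obtain ⟨e, he1, he2⟩ := lam_minpoly χ ψ x
    have hd := minpoly.natDegree_pos (IsIntegral.of_finite F x)
    have he0 : 0 < e := by
      rcases Nat.eq_zero_or_pos e with rfl | h
      · omega
      · exact h
    have he3 : e ≤ N := by rw [hN, ← he1]; exact Nat.le_mul_of_pos_left _ hd
    rw [h1, h2, he2, hmin, sum_eq_single (e - 1), Nat.sub_add_cancel he0,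
      if_pos (by rw [mul_comm, he1])]
    · intro j _ hj
      refine if_neg fun h => hj ?_
      rw [hN, ← he1, mul_comm, Nat.mul_right_inj hd.ne'] at h
      omega
    · intro h
      exact absurd (mem_range.2 (by omega)) h

end Pool.Agent.Shared.HasseDavenport
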