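import Mathlib

/-!
No retraction of a ball onto its sphere, and Brouwer's fixed point theorem (analytic proof).
-/

set_option autoImplicit false

open Set Metric MeasureTheory
open scoped InnerProductSpace NNReal Topology

namespace Pool.Agent.Shared.Brouwer

section Inner

variable {E : Type*} [NormedAddCommGroup E] [InnerProductSpace ℝ E] [FiniteDimensional ℝ E]

theorem det_poly (M : E →L[ℝ] E) : ∃ p : Polynomial ℝ, p.natDegree ≤ Module.finrank ℝ E ∧
    ∀ t : ℝ, p.eval t = (ContinuousLinearMap.id ℝ E + t • M).det := by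
  classical
  let b := Module.finBasis ℝ E
  let A := LinearMap.toMatrix b b (M : E →ₗ[ℝ] E)
  refine ⟨Matrix.det ((Polynomial.X : Polynomial ℝ) • A.map Polynomial.C +
    (1 : Matrix _ _ ℝ).map Polynomial.C), ?_, fun t => ?_⟩
  · simpa using Polynomial.natDegree_det_X_add_C_le A 1
  · rw [← Polynomial.coe_evalRingHom, RingHom.map_det, ContinuousLinearMap.det,
      ← LinearMap.det_toMatrix b]
    congr 1
    ext i j
    simp [A, Matrix.one_apply, add_comm, apply_ite (Polynomial.eval t)]
    ring

theorem no_smooth_retraction (r : E → E) (hr : ContDiff ℝ 1 r) (h1 : ∀ x, ‖r x‖ = 1)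
    (h2 : ∀ x, ‖x‖ = 1 → r x = x) : False := by
  classical
  borelize E
  let μ : Measure E := Measure.addHaar
  let g : E → E := fun x => r x - x
  have hg : ContDiff ℝ 1 g := hr.sub contDiff_id
  have hgd : Differentiable ℝ g := hg.differentiable (by norm_num)
  have hgc : Continuous (fderiv ℝ g) := hg.continuous_fderiv (by norm_num)
  obtain ⟨L, hL⟩ := (isCompact_closedBall (0 : E) 1).exists_bound_of_continuousOn hgc.continuousOn
  have hL0 : 0 ≤ L := (norm_nonneg _).trans (hL 0 (mem_closedBall_self zero_le_one))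
  have hlip : ∀ x ∈ ball (0 : E) 1, ∀ y ∈ ball (0 : E) 1, ‖g x - g y‖ ≤ L * ‖x - y‖ :=
    fun x hx y hy => (convex_closedBall (0 : E) 1).norm_image_sub_le_of_norm_fderiv_le
      (fun z _ => hgd z) hL (ball_subset_closedBall hy) (ball_subset_closedBall hx)
  have hdet : ∀ᶠ N in 𝓝 (ContinuousLinearMap.id ℝ E), 0 < N.det := by
    apply ContinuousLinearMap.continuous_det.continuousAt.eventually (lt_mem_nhds _)
    simp [ContinuousLinearMap.det]
  obtain ⟨δ, hδ, hδ'⟩ := Metric.eventually_nhds_iff.mp hdet
  let t₀ : ℝ := min δ 1 / (2 * (L + 1))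
  have ht₀ : 0 < t₀ := by positivity
  have ht₀L : t₀ * (L + 1) = min δ 1 / 2 := by simp only [t₀]; field_simp
  have hmin1 := min_le_left δ 1
  have hmin2 := min_le_right δ 1
  have hint : ∀ t : ℝ, IntegrableOn
      (fun x => (ContinuousLinearMap.id ℝ E + t • fderiv ℝ g x).det) (ball 0 1) μ := by
    intro t
    apply IntegrableOn.mono_set _ ball_subset_closedBall
    apply ContinuousOn.integrableOn_compact (isCompact_closedBall _ _)
    exact (ContinuousLinearMap.continuous_det.comp
      (continuous_const.add (hgc.const_smul t))).continuousOn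
  have key : ∀ t : ℝ, 0 ≤ t → t ≤ t₀ →
      ∫ x in ball (0 : E) 1, (ContinuousLinearMap.id ℝ E + t • fderiv ℝ g x).det ∂μ =
        μ.real (ball 0 1) := by
    intro t ht0 ht1
    have htL : t * (L + 1) ≤ min δ 1 / 2 := by
      rw [← ht₀L]; exact mul_le_mul_of_nonneg_right ht1 (by positivity)
    let f : E → E := fun x => x + t • g x
    have hf : ∀ x, HasFDerivAt f (ContinuousLinearMap.id ℝ E + t • fderiv ℝ g x) x := fun x =>
      (hasFDerivAt_id x).add ((hgd x).hasFDerivAt.const_smul t)
    have happ : ApproximatesLinearOn f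
        ((ContinuousLinearEquiv.refl ℝ E : E ≃L[ℝ] E) : E →L[ℝ] E) (ball 0 1) (1 / 2 : ℝ≥0) := by
      intro x hx y hy
      have : f x - f y - (x - y) = t • (g x - g y) := by simp only [f, smul_sub]; abel
      change ‖f x - f y - (x - y)‖ ≤ _
      rw [this, norm_smul, Real.norm_of_nonneg ht0]
      have h3 := hlip x hx y hy
      have h4 : t * L ≤ 1 / 2 := by nlinarith
      calc t * ‖g x - g y‖ ≤ t * (L * ‖x - y‖) := mul_le_mul_of_nonneg_left h3 ht0
        _ = (t * L) * ‖x - y‖ := by ring
        _ ≤ 1 / 2 * ‖x - y‖ := mul_le_mul_of_nonneg_right h4 (norm_nonneg _)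
        _ = _ := by simp
    have hc : Subsingleton E ∨ (1 / 2 : ℝ≥0) <
        ‖((ContinuousLinearEquiv.refl ℝ E : E ≃L[ℝ] E).symm : E →L[ℝ] E)‖₊⁻¹ := by
      rcases subsingleton_or_nontrivial E with h | h
      · exact Or.inl h
      · right
        simp only [ContinuousLinearEquiv.refl_symm, ContinuousLinearEquiv.coe_refl,
          ContinuousLinearMap.nnnorm_id, inv_one]
        norm_num
    have hinj : InjOn f (ball 0 1) := happ.injOn hc
    have hopen : IsOpen (f '' ball 0 1) :=
      happ.open_image (ContinuousLinearEquiv.refl ℝ E).toNonlinearRightInverse isOpen_ball hc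
    have hfc : Continuous f := continuous_id.add (hg.continuous.const_smul t)
    have ht1' : t < 1 := by nlinarith
    have hsub : f '' ball 0 1 ⊆ ball 0 1 := by
      rintro _ ⟨x, hx, rfl⟩
      rw [mem_ball_zero_iff] at hx ⊢
      have : f x = (1 - t) • x + t • r x := by simp only [f, g, smul_sub, sub_smul, one_smul]; abel
      rw [this]
      calc ‖(1 - t) • x + t • r x‖ ≤ ‖(1 - t) • x‖ + ‖t • r x‖ := norm_add_le _ _
        _ = (1 - t) * ‖x‖ + t := by
          rw [norm_smul, norm_smul, h1, Real.norm_of_nonneg ht0, Real.norm_of_nonneg (by linarith),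
            mul_one]
        _ < 1 := by nlinarith
    have hsup : ball (0 : E) 1 ⊆ f '' ball 0 1 := by
      apply (convex_ball (0 : E) 1).isPreconnected.subset_left_of_subset_union hopen
        ((isCompact_closedBall (0 : E) 1).image hfc).isClosed.isOpen_compl
      · exact disjoint_compl_right.mono_left (image_mono ball_subset_closedBall)
      · intro y hy
        by_cases hy' : y ∈ f '' closedBall 0 1
        · left
          obtain ⟨x, hx, rfl⟩ := hy'
          refine ⟨x, ?_, rfl⟩
          rw [mem_closedBall_zero_iff] at hx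
          rw [mem_ball_zero_iff] at hy ⊢
          rcases hx.lt_or_eq with h | h
          · exact h
          · have : f x = x := by simp [f, g, h2 x h]
            rwa [this] at hy
        · exact Or.inr hy'
      · have h0 : (0 : E) ∈ ball (0 : E) 1 := mem_ball_self one_pos
        exact ⟨f 0, hsub ⟨0, h0, rfl⟩, 0, h0, rfl⟩
    have hcv := integral_image_eq_integral_abs_det_fderiv_smul μ measurableSet_ball
      (fun x _ => (hf x).hasFDerivWithinAt) hinj (fun _ => (1 : ℝ))
    rw [Subset.antisymm hsub hsup] at hcv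
    simp only [integral_const, MeasurableSet.univ, measureReal_restrict_apply, univ_inter,
      smul_eq_mul, mul_one] at hcv
    rw [hcv]
    apply setIntegral_congr_fun measurableSet_ball
    intro x hx
    have : 0 < (ContinuousLinearMap.id ℝ E + t • fderiv ℝ g x).det := by
      apply hδ'
      rw [dist_eq_norm, add_sub_cancel_left, norm_smul, Real.norm_of_nonneg ht0]
      have := hL x (ball_subset_closedBall hx)
      nlinarith [mul_le_mul_of_nonneg_left this ht0]
    simp only [abs_of_pos this]
  let n := Module.finrank ℝ E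
  let s : Finset ℕ := Finset.range (n + 1)
  let v : ℕ → ℝ := fun j => j * (t₀ / (n + 1))
  have hv : InjOn v s := by
    intro a _ b _ h
    have : (t₀ / (n + 1)) ≠ 0 := by positivity
    exact_mod_cast mul_right_cancel₀ this h
  have hlag : ∀ x, (ContinuousLinearMap.id ℝ E + (1 : ℝ) • fderiv ℝ g x).det =
      ∑ j ∈ s, (Lagrange.basis s v j).eval 1 *
        (ContinuousLinearMap.id ℝ E + v j • fderiv ℝ g x).det := by
    intro x
    obtain ⟨p, hp1, hp2⟩ := det_poly (fderiv ℝ g x)
    have hdeg : p.degree < s.card := by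
      refine lt_of_le_of_lt Polynomial.degree_le_natDegree ?_
      simp only [s, Finset.card_range]
      exact_mod_cast Nat.lt_succ_of_le hp1
    rw [← hp2, Lagrange.eq_interpolate hv hdeg, Lagrange.interpolate_apply,
      Polynomial.eval_finsetSum]
    refine Finset.sum_congr rfl fun j _ => ?_
    rw [Polynomial.eval_mul, Polynomial.eval_C, hp2, mul_comm]
  have hzero : ∀ x, (ContinuousLinearMap.id ℝ E + (1 : ℝ) • fderiv ℝ g x).det = 0 := by
    intro x
    have hrd : HasFDerivAt r (ContinuousLinearMap.id ℝ E + (1 : ℝ) • fderiv ℝ g x) x := by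
      have := (hasFDerivAt_id x).add (hgd x).hasFDerivAt
      rw [one_smul]
      convert this using 1
      funext y
      simp [g]
    set D := ContinuousLinearMap.id ℝ E + (1 : ℝ) • fderiv ℝ g x with hD
    by_contra hne
    have hsurj : Function.Surjective D := by
      have : IsUnit (LinearMap.det (D : E →ₗ[ℝ] E)) := isUnit_iff_ne_zero.mpr hne
      intro y
      obtain ⟨w, hw⟩ := (LinearMap.equivOfIsUnitDet this).surjective y
      exact ⟨w, by simpa using hw⟩
    obtain ⟨w, hw⟩ := hsurj (r x)
    have h3 := hrd.norm_sq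
    have h4 : HasFDerivAt (fun y => ‖r y‖ ^ 2) (0 : E →L[ℝ] ℝ) x := by
      simp only [h1]
      exact hasFDerivAt_const _ _
    have h5 := congrArg (fun T : E →L[ℝ] ℝ => T w) (h3.unique h4)
    simp [hw, h1] at h5
  have hfinal : (0 : ℝ) = μ.real (ball 0 1) := by
    calc (0 : ℝ) = ∫ x in ball (0 : E) 1,
          (ContinuousLinearMap.id ℝ E + (1 : ℝ) • fderiv ℝ g x).det ∂μ := by simp only [hzero, integral_zero]
      _ = ∑ j ∈ s, (Lagrange.basis s v j).eval 1 * μ.real (ball 0 1) := by
        simp_rw [hlag]
        rw [integral_finsetSum _ (fun j _ => (hint (v j)).const_mul _)]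
        refine Finset.sum_congr rfl fun j hj => ?_
        rw [integral_const_mul, key (v j) (by positivity)]
        have hj' : (j : ℝ) ≤ n + 1 := by
          have := Finset.mem_range.mp hj
          exact_mod_cast this.le
        calc v j ≤ (n + 1) * (t₀ / (n + 1)) := mul_le_mul_of_nonneg_right hj' (by positivity)
          _ = t₀ := by field_simp
      _ = μ.real (ball 0 1) := by
        rw [← Finset.sum_mul, ← Polynomial.eval_finsetSum,
          Lagrange.sum_basis hv ⟨0, by simp [s]⟩]
        simp
  have hpos : 0 < μ.real (ball (0 : E) 1) :=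
    ENNReal.toReal_pos (measure_ball_pos μ 0 one_pos).ne' measure_ball_lt_top.ne
  exact hpos.ne hfinal

/-- A continuous map on the closed unit ball that is the identity on the sphere has a zero. -/
theorem exists_zero_of_eq_on_sphere (F : E → E) (hF : ContinuousOn F (closedBall 0 1))
    (h : ∀ x, ‖x‖ = 1 → F x = x) : ∃ x ∈ closedBall (0 : E) 1, F x = 0 := by
  classical
  by_contra hcon
  push Not at hcon
  let G : E → E := fun x => if ‖x‖ ≤ 1 then F x else x
  have hG : Continuous G := by
    apply continuous_if_le continuous_norm continuous_const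
    · simpa [closedBall] using hF
    · exact continuousOn_id
    · exact h
  have hG0 : ∀ x, G x ≠ 0 := by
    intro x
    simp only [G]
    split_ifs with hx
    · exact hcon x (mem_closedBall_zero_iff.mpr hx)
    · rintro rfl; simp at hx
  obtain ⟨k, hk1, hk2, hk3⟩ := (hG.sub continuous_id).exists_contDiff_approx 1
    (ε := fun x => ‖G x‖) hG.norm (fun x => norm_pos_iff.mpr (hG0 x))
  let P : E → E := fun x => x + k x
  have hP : ContDiff ℝ 1 P := contDiff_id.add hk1
  have hP0 : ∀ x, P x ≠ 0 := by
    intro x hx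
    have h1 := hk2 x
    have h2 : k x = -x := eq_neg_of_add_eq_zero_right hx
    have h3 : k x - (G x - x) = -G x := by rw [h2]; abel
    change dist (k x) (G x - x) < _ at h1
    rw [dist_eq_norm, h3, norm_neg] at h1
    exact lt_irrefl _ h1
  apply no_smooth_retraction (fun x => ‖P x‖⁻¹ • P x)
  · exact ((hP.norm ℝ hP0).inv (fun x => norm_ne_zero_iff.mpr (hP0 x))).smul hP
  · intro x
    rw [norm_smul, norm_inv, norm_norm, inv_mul_cancel₀ (norm_ne_zero_iff.mpr (hP0 x))]
  · intro x hx
    have hk : k x = 0 := by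
      by_contra hne
      have := hk3 hne
      simp [G, hx, h x hx] at this
    simp [P, hk, hx]

/-- Brouwer's fixed point theorem for the closed unit ball. -/
theorem fixed_point_closedBall (f : E → E) (hf : ContinuousOn f (closedBall 0 1))
    (hm : MapsTo f (closedBall 0 1) (closedBall 0 1)) : ∃ x ∈ closedBall (0 : E) 1, f x = x := by
  let ρ : E → E := fun x => (max 1 ‖(2 : ℝ) • x‖)⁻¹ • (2 : ℝ) • x
  have hρc : Continuous ρ := by
    apply Continuous.smul _ (by fun_prop)
    exact Continuous.inv₀ (by fun_prop) (fun x => (lt_max_of_lt_left one_pos).ne')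
  have hρm : ∀ x, ρ x ∈ closedBall (0 : E) 1 := by
    intro x
    have h0 : 0 < max 1 ‖(2 : ℝ) • x‖ := lt_max_of_lt_left one_pos
    rw [mem_closedBall_zero_iff, norm_smul, norm_inv, Real.norm_of_nonneg h0.le,
      inv_mul_le_iff₀ h0, mul_one]
    exact le_max_right _ _
  let F : E → E := fun x => ρ x - (min 1 (2 - 2 * ‖x‖)) • f (ρ x)
  have hFc : Continuous F :=
    hρc.sub (Continuous.smul (by fun_prop) (hf.comp_continuous hρc hρm))
  obtain ⟨x, hx, hx0⟩ := exists_zero_of_eq_on_sphere F hFc.continuousOn (by
    intro x hx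
    simp only [F, ρ, norm_smul, hx]
    norm_num [smul_smul])
  refine ⟨ρ x, hρm x, ?_⟩
  rw [mem_closedBall_zero_iff] at hx
  have h1 : ρ x = (min 1 (2 - 2 * ‖x‖)) • f (ρ x) := sub_eq_zero.mp hx0
  by_cases hc : 1 ≤ 2 - 2 * ‖x‖
  · rw [min_eq_left hc, one_smul] at h1
    exact h1.symm
  · exfalso
    push Not at hc
    have h2 : ‖ρ x‖ = 1 := by
      have h3 : ‖(2 : ℝ) • x‖ = 2 * ‖x‖ := by simp [norm_smul]
      have h4 : max 1 ‖(2 : ℝ) • x‖ = ‖(2 : ℝ) • x‖ := max_eq_right (by linarith)
      simp only [ρ]
      rw [h4, norm_smul, norm_inv, norm_norm, inv_mul_cancel₀ (by rw [h3]; linarith)]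
    have h5 := mem_closedBall_zero_iff.mp (hm (hρm x))
    rw [h1, min_eq_right hc.le, norm_smul, Real.norm_of_nonneg (by linarith)] at h2
    nlinarith [norm_nonneg (f (ρ x))]

end Inner

end Pool.Agent.Shared.Brouwer
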