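import Mathlib
import Pool.Agent.Lib.MP_d738f8_co.Nibble

/-! Rounding a fractional matching with a polynomial dependence between codegree and loss. -/

set_option autoImplicit false

namespace Pool.Agent.Shared.PolyNibble

open Finset Pool.Agent.Lib.MP_d738f8_co

theorem nibble_exp {r : ℕ} (hr : 1 ≤ r) {β : ℝ} (hβ : 0 < β) (T : ℕ) (hT1 : 1 ≤ T)
    (hT : Real.exp (-T) ≤ β / 4) {V : Type} [DecidableEq V] [Fintype V] (G : Finset (Finset V))
    (w : Finset V → ℝ) (hG : ∀ e ∈ G, e.card = r) (hw : ∀ e ∈ G, 0 ≤ w e)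
    (hl : ∀ v, load G w v ≤ 1) (hc : ∀ u v, u ≠ v → cod G w u v ≤
      β / (4 * T * (2 + 2 * T * (1 + 1 / (β / (8 * T)))) * 24 * r ^ 2) * Real.exp (-(r * T))) :
    ∃ M ⊆ G, (M : Set (Finset V)).PairwiseDisjoint id ∧
      ∑ e ∈ G, w e - β * Fintype.card V ≤ M.card := by
  have hr' : (1:ℝ) ≤ r := by exact_mod_cast hr
  have hT0 : (0:ℝ) < T := by exact_mod_cast hT1
  set γ : ℝ := β / (8 * T) with hγ
  have hγ0 : 0 < γ := by positivity
  set Λ : ℝ := 2 + 2 * T * (1 + 1 / γ) with hΛ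
  have hΛ0 : 0 < Λ := by positivity
  set η : ℝ := β / (4 * T * Λ * 24 * r ^ 2) with hη
  have hη0 : 0 < η := by positivity
  obtain ⟨N0, hN0⟩ := exists_nat_gt (16 * T * (Λ + 1) * r ^ 2 / β)
  set n : ℕ := Fintype.card V with hn
  set N : ℕ := 4 * n + r + N0 with hN
  have hNr : (N : ℝ) = 4 * n + r + N0 := by rw [hN]; push_cast; ring
  have hn0 : (0:ℝ) ≤ n := Nat.cast_nonneg _
  have hN00 : (0:ℝ) ≤ N0 := Nat.cast_nonneg _
  have hNpos : (0:ℝ) < N := by linarith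
  have hlam : 2 + 2 * ((T * N : ℕ) : ℝ) * (1 + 1 / γ) / N = Λ := by
    rw [hΛ]; push_cast; field_simp
  obtain ⟨M, hM1, hM2, hM3⟩ := nibble_ind (V := V) hr (N := N) (η := η) (γ := γ) (Λ := Λ) hNpos
    (by linarith) (by linarith) hη0.le hγ0 (T * N) hlam.le G w hG hw (by
      intro u v huv
      have h1 : (1 + ((r:ℝ) - 1) / N) ^ (T * N) ≤ Real.exp (r / N) ^ (T * N) := by
        refine pow_le_pow_left₀ (add_nonneg zero_le_one (div_nonneg (by linarith) hNpos.le)) ?_ _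
        have h2 := Real.add_one_le_exp (r / N)
        have h3 : ((r:ℝ) - 1) / N ≤ r / N := div_le_div_of_nonneg_right (by linarith) hNpos.le
        linarith
      rw [← Real.exp_nat_mul] at h1
      have h4 : ((T * N : ℕ) : ℝ) * (r / N) = r * T := by push_cast; field_simp
      rw [h4] at h1
      calc _ ≤ Real.exp (r * T) * (η * Real.exp (-(r * T))) :=
            mul_le_mul h1 (hc u v huv) (cod_nonneg hw u v) (Real.exp_pos _).le
        _ = η := by rw [mul_left_comm, ← Real.exp_add]; simp)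
  refine ⟨M, hM1, hM2, le_trans ?_ hM3⟩
  have hΦ : ∑ v, pen (load G w v) = 0 := by
    refine Finset.sum_eq_zero fun v _ => ?_
    unfold pen
    rw [max_eq_right (by linarith [hl v])]; simp
  have hW0 : 0 ≤ ∑ e ∈ G, w e := Finset.sum_nonneg hw
  have hW : ∑ e ∈ G, w e ≤ n := by
    have h1 : ∑ v, load G w v ≤ ∑ _v : V, (1:ℝ) := Finset.sum_le_sum fun v _ => hl v
    rw [sum_load hG] at h1
    have h2 : ∑ _v : V, (1:ℝ) = n := by simp [hn]
    have h3 := le_mul_of_one_le_left hW0 hr'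
    linarith
  have hP : (1 - 1 / (N:ℝ)) ^ (T * N) ≤ β / 4 := by
    have h0 : 0 ≤ 1 - 1 / (N:ℝ) := by
      have : 1 / (N:ℝ) ≤ 1 := by rw [div_le_one hNpos]; linarith
      linarith
    have h1 : (1 - 1 / (N:ℝ)) ^ (T * N) ≤ Real.exp (-(1 / N)) ^ (T * N) :=
      pow_le_pow_left₀ h0 (by have := Real.add_one_le_exp (-(1 / (N:ℝ))); linarith) _
    rw [← Real.exp_nat_mul] at h1
    have h2 : ((T * N : ℕ) : ℝ) * (-(1 / N)) = -T := by push_cast; field_simp
    rw [h2] at h1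
    exact h1.trans hT
  set P := (1 - 1 / (N:ℝ)) ^ (T * N)
  have hb : ((T * N : ℕ) : ℝ) * ((2 * γ + Λ * (24 * r ^ 2 * η + 4 * r ^ 2 / N) + 4 * r ^ 2 / N) / N)
      ≤ 3 * β / 4 := by
    have h1 : ((T * N : ℕ) : ℝ)
        * ((2 * γ + Λ * (24 * r ^ 2 * η + 4 * r ^ 2 / N) + 4 * r ^ 2 / N) / N)
        = T * (2 * γ) + T * Λ * 24 * r ^ 2 * η + 4 * T * (Λ + 1) * r ^ 2 / N := by
      push_cast; field_simp; ring
    have h2 : T * (2 * γ) = β / 4 := by rw [hγ]; field_simp; ring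
    have h3 : T * Λ * 24 * r ^ 2 * η = β / 4 := by rw [hη]; field_simp
    have h4 : 4 * T * (Λ + 1) * r ^ 2 / N ≤ β / 4 := by
      rw [div_lt_iff₀ hβ] at hN0
      rw [div_le_iff₀ hNpos]
      have : (N0:ℝ) * β ≤ N * β := mul_le_mul_of_nonneg_right (by linarith) hβ.le
      linarith
    linarith
  rw [hΦ]
  have h5 := mul_le_mul_of_nonneg_right hb hn0
  have h6 : P * ∑ e ∈ G, w e ≤ β / 4 * n := mul_le_mul hP hW hW0 (by positivity)
  linarith

/-- In an `r`-uniform hypergraph, a fractional matching with codegrees at most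
`1 / (10 ^ 6 * r ^ 2 * X ^ 5 * (8 * X) ^ (2 * r))` loses at most a fraction `1 / X` of the
vertices when it is rounded. -/
theorem nibble_poly {r : ℕ} (hr : 1 ≤ r) (X : ℕ) (hX : 1 ≤ X) {V : Type} [DecidableEq V]
    [Fintype V] (G : Finset (Finset V))
    (w : Finset V → ℝ) (hG : ∀ e ∈ G, e.card = r) (hw : ∀ e ∈ G, 0 ≤ w e)
    (hl : ∀ v, load G w v ≤ 1) (hc : ∀ u v, u ≠ v → cod G w u v ≤
      1 / (10 ^ 6 * r ^ 2 * X ^ 5 * (8 * X) ^ (2 * r))) :
    ∃ M ⊆ G, (M : Set (Finset V)).PairwiseDisjoint id ∧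
      ∑ e ∈ G, w e - Fintype.card V / X ≤ M.card := by
  have hX' : (1 : ℝ) ≤ X := by exact_mod_cast hX
  have hr' : (1 : ℝ) ≤ r := by exact_mod_cast hr
  set T := Nat.log 2 X + 3 with hT
  have h1 : 4 * X < 2 ^ T := by
    have := Nat.lt_pow_succ_log_self (b := 2) (by norm_num) X
    rw [hT, show Nat.log 2 X + 3 = (Nat.log 2 X).succ + 2 by omega, pow_add]; omega
  have h2 : 2 ^ T ≤ 8 * X := by
    have := Nat.pow_log_le_self 2 (x := X) (by omega)
    rw [hT, pow_add]; omega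
  have h3 : (T : ℝ) ≤ 8 * X := by exact_mod_cast (Nat.lt_two_pow_self.le.trans h2)
  have h1' : (4 * X : ℝ) ≤ 2 ^ T := by exact_mod_cast h1.le
  have h2' : (2 : ℝ) ^ T ≤ 8 * X := by exact_mod_cast h2
  have hT0 : (1 : ℝ) ≤ T := by exact_mod_cast (show 1 ≤ T by omega)
  obtain ⟨M, g1, g2, g3⟩ := nibble_exp hr (β := 1 / X) (by positivity) T (by omega) (by
    rw [Real.exp_neg, div_div, one_div]
    refine inv_anti₀ (by positivity) ?_
    calc (X : ℝ) * 4 ≤ 2 ^ T := by linarith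
      _ ≤ Real.exp 1 ^ T := pow_le_pow_left₀ (by norm_num) (by linarith [Real.add_one_le_exp 1]) _
      _ = _ := by rw [← Real.exp_nat_mul, mul_one]) G w hG hw hl (fun u v huv => by
    refine (hc u v huv).trans ?_
    rw [Real.exp_neg, div_div, ← div_eq_mul_inv, div_div]
    refine one_div_le_one_div_of_le (by positivity) ?_
    have h4 : Real.exp (r * T) ≤ (8 * X) ^ (2 * r) := by
      have h5 : Real.exp 1 ≤ 2 ^ 2 := by linarith [Real.exp_one_lt_d9]
      calc Real.exp (r * T) = Real.exp 1 ^ (r * T) := by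
            rw [← Real.exp_nat_mul]; push_cast; rw [mul_one]
        _ ≤ (2 ^ 2) ^ (r * T) := pow_le_pow_left₀ (Real.exp_pos _).le h5 _
        _ = (2 ^ T) ^ (2 * r) := by rw [← pow_mul, ← pow_mul]; congr 1; ring
        _ ≤ _ := pow_le_pow_left₀ (by positivity) h2' _
    have h5 : 1 / (1 / (X : ℝ) / (8 * T)) = 8 * T * X := by field_simp
    rw [h5]
    have h6 : 2 + 2 * (T : ℝ) * (1 + 8 * T * X) ≤ 1042 * X ^ 3 := by
      have h7 : 2 + 2 * (T : ℝ) * (1 + 8 * T * X) ≤ 2 + 2 * (8 * X) * (1 + 8 * (8 * X) * X) := by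
        gcongr
      have h8 : (X : ℝ) ≤ X ^ 3 := le_self_pow₀ hX' (by norm_num)
      nlinarith
    calc _ ≤ X * (4 * (8 * X) * (1042 * X ^ 3) * 24 * r ^ 2) * (8 * X : ℝ) ^ (2 * r) := by gcongr
      _ = 800256 * r ^ 2 * X ^ 5 * (8 * X) ^ (2 * r) := by ring
      _ ≤ _ := by gcongr; norm_num)
  exact ⟨M, g1, g2, by rwa [one_div_mul_eq_div] at g3⟩

end Pool.Agent.Shared.PolyNibble
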