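import Pool.Agent.Shared.PolyTimeConv

/-!
Exponential time by padding: if `A` is polynomial time on inputs padded with a string of length
`2 ^ s`, then `A` on the padded input is computed by a Mathlib machine in time
`2 ^ (d * s)` times a polynomial, where `d` depends on `A` only.
-/

set_option autoImplicit false

namespace Pool.Agent.Shared.PolyTime

open Function N487b59b3 Turing

theorem eval_mul_le (q : Polynomial ℕ) {d : ℕ} (hd : q.natDegree ≤ d) (x y : ℕ) (hy : 1 ≤ y) :
    q.eval (y * x) ≤ y ^ d * q.eval x := by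
  rw [Polynomial.eval_eq_sum_range, Polynomial.eval_eq_sum_range, Finset.mul_sum]
  refine Finset.sum_le_sum fun i hi => ?_
  have hi' : i ≤ d := by have := Finset.mem_range.mp hi; omega
  have := Nat.pow_le_pow_right hy hi'
  rw [mul_pow]
  calc q.coeff i * (y ^ i * x ^ i) = y ^ i * (q.coeff i * x ^ i) := by ring
    _ ≤ _ := Nat.mul_le_mul_right _ this

/-- A run of a program gives a run of its machine. -/
theorem Run.toTM2 {p : Prog} {x y : List Bool} {t : ℕ} (h : Run p (io x) (io y) t) :
    Nonempty (TM2OutputsInTime (machine p) x (some y) (t + 1)) := by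
  obtain ⟨t', ht, h1⟩ := h.sim (n := p.bound) (machine p).m (Nat.le_succ _) some .halt
    (fun l => rfl)
  refine ⟨{ steps := t' + 1, evals_in_steps := ?_, steps_le_m := by omega }⟩
  change (flip bind (machine p).step)^[t' + 1] (some (initList (machine p) x)) =
    some (haltList (machine p) y)
  rw [initList_machine, haltList_machine]
  exact h1

/-- The machine of a program with its alphabets. -/
def machineAux (p : Prog) : TM2ComputableAux Bool Bool :=
  ⟨machine p, Equiv.refl _, Equiv.refl _⟩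

variable {α β γ : Type} [N487b59b3 α] [N487b59b3 β] [N487b59b3 γ]

omit [N487b59b3 β] in
theorem iter_double (b : β) (i : ℕ) :
    (fun s : β × List Bool => (s.1, s.2 ++ s.2))^[i] (b, [true]) =
      (b, List.replicate (2 ^ i) true) := by
  induction i with
  | zero => rfl
  | succ i ih => rw [iterate_succ_apply', ih, List.replicate_append_replicate, pow_succ, mul_two]

/-- Padding. -/
theorem PT.exp_run {A : β × List Bool → γ} (hA : PT A) :
    ∃ d : ℕ, ∀ (h : α → β) (s : α → ℕ), PT h → PT s → PB s →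
      ∃ (p : Prog) (q : Polynomial ℕ), ∀ a, Run p (io (N487b59b3.bitEncode a))
        (io (N487b59b3.bitEncode (A (h a, List.replicate (2 ^ s a) true))))
        (2 ^ (d * s a) * q.eval (PolyTime.sz a)) := by
  have hD : PT (fun s : β × List Bool => (s.1, s.2 ++ s.2)) := by fun_prop
  obtain ⟨pD, qD, hD⟩ := hD
  obtain ⟨pA, qA, hA⟩ := hA
  refine ⟨Max.max qD.natDegree qA.natDegree, fun h s hh hs hsb => ?_⟩
  set d := Max.max qD.natDegree qA.natDegree with hd
  have hc : PT (fun a => List.replicate (s a) true) := PT.replicate hs hsb (PT.const _)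
  have hs0 : PT (fun a => (h a, [true])) := by fun_prop
  have hP := RP.pair hc.raw hs0
  have hl := hP.length
  obtain ⟨p0, g0, hg0, h0⟩ := hP.elim
  have hx : PB (fun a => 2 * PolyTime.sz (h a) + 4) := by fun_prop
  have hG : PBe N487b59b3.bitEncode (fun a => g0 a + ((delimit (List.replicate (s a) true) ++
      N487b59b3.bitEncode (h a, [true])).length + 3 +
        (s a * (qD.eval (2 * PolyTime.sz (h a) + 4) + 1) + 1)) +
      qA.eval (2 * PolyTime.sz (h a) + 4)) :=
    (hg0.add ((hl.add (PBe.const 3)).add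
      ((PBe.mul hsb ((PBe.eval hx qD).add (PBe.const 1))).add (PBe.const 1)))).add (PBe.eval hx qA)
  obtain ⟨q, hq⟩ := hG
  refine ⟨.seq (.seq p0 (.seq split (.loop 1 (.seq (.pop 1) (callAt 0 pD))))) pA, q, fun a => ?_⟩
  have s1 := h0 a
  rw [io_eq, io_eq] at s1
  have s2 := run_split (delimit (List.replicate (s a) true) ++ N487b59b3.bitEncode (h a, [true]))
  rw [fstR_delimit, sndR_delimit] at s2
  have hsz : ∀ i ≤ s a, PolyTime.sz (h a, List.replicate (2 ^ i) true) ≤
      2 ^ s a * (2 * PolyTime.sz (h a) + 4) := by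
    intro i hi
    rw [sz_pair, sz_listBool, List.length_replicate]
    have h1 : 2 ^ i ≤ 2 ^ s a := Nat.pow_le_pow_right (by norm_num) hi
    have h2 : 1 ≤ 2 ^ s a := Nat.one_le_two_pow
    nlinarith
  have s3 := RP.run_iter hD (2 ^ s a * (2 * PolyTime.sz (h a) + 4))
    (List.replicate (s a) true).reverse (h a, [true]) (by
      intro i hi
      rw [iter_double]
      exact hsz i (by simpa using hi))
  rw [List.length_reverse, List.length_replicate, iter_double] at s3
  have s4 := hA (h a, List.replicate (2 ^ s a) true)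
  rw [io_eq] at s4
  have s5 := Run.seq (Run.seq s1 (Run.seq s2 s3)) s4
  rw [← io_eq] at s5
  refine s5.mono ?_
  have h1 := hq a
  have hy : 1 ≤ 2 ^ s a := Nat.one_le_two_pow
  have h2 := eval_mul_le qD (d := d) (le_max_left _ _) (2 * PolyTime.sz (h a) + 4) _ hy
  have h3 := (eval_mono qA (hsz (s a) le_rfl)).trans
    (eval_mul_le qA (d := d) (le_max_right _ _) (2 * PolyTime.sz (h a) + 4) _ hy)
  rw [← pow_mul, mul_comm (s a) d] at h2 h3
  have hY : 1 ≤ 2 ^ (d * s a) := Nat.one_le_two_pow
  unfold PolyTime.sz at *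
  beta_reduce at h1
  set Y := 2 ^ (d * s a)
  set e1 := qD.eval (2 * (N487b59b3.bitEncode (h a)).length + 4)
  set e2 := qA.eval (2 * (N487b59b3.bitEncode (h a)).length + 4)
  set L := (delimit (List.replicate (s a) true) ++ N487b59b3.bitEncode (h a, [true])).length
  set E1 := qD.eval (2 ^ s a * (2 * (N487b59b3.bitEncode (h a)).length + 4))
  set E2 := qA.eval (N487b59b3.bitEncode (h a, List.replicate (2 ^ s a) true)).length
  calc g0 a + (L + 3 + (s a * (E1 + 1) + 1)) + E2
      ≤ Y * g0 a + (Y * (L + 3) + (s a * (Y * e1 + Y) + Y)) + Y * e2 := by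
        gcongr
        · exact Nat.le_mul_of_pos_left _ hY
        · exact Nat.le_mul_of_pos_left _ hY
    _ = Y * (g0 a + (L + 3 + (s a * (e1 + 1) + 1)) + e2) := by ring
    _ ≤ _ := Nat.mul_le_mul_left _ h1

/-- Padding, for the machines of Mathlib, with a real exponent. If `A` is polynomial time then
for every positive `δ` and all large `k`, whenever the logarithm of the padding is at most
`N / k + c`, the padded function is computed in time `2 ^ (δ N)` times a polynomial. -/
theorem PT.exp_tm2 {A : β × List Bool → γ} (hA : PT A) (δ : ℝ) (hδ : 0 < δ) :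
    ∃ k0 : ℕ, ∀ k, k0 ≤ k → ∀ (h : α → β) (s N : α → ℕ) (c : ℕ), PT h → PT s → PB s →
      (∀ a, s a ≤ N a / k + c) →
      ∃ (M : TM2ComputableAux Bool Bool) (q : Polynomial ℕ), ∀ a,
        Nonempty (TM2OutputsInTime M.tm (List.map M.inputAlphabet.invFun (N487b59b3.bitEncode a))
          (Option.some (List.map M.outputAlphabet.invFun
            (N487b59b3.bitEncode (A (h a, List.replicate (2 ^ s a) true)))))
          ⌊(2 : ℝ) ^ (δ * N a) * (q.eval (N487b59b3.bitEncode a).length : ℕ)⌋₊) := by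
  obtain ⟨d, hd⟩ := PT.exp_run (α := α) hA
  obtain ⟨k0, hk0⟩ := exists_nat_ge ((d : ℝ) / δ)
  refine ⟨k0, fun k hk h s N c hh hs hsb hsN => ?_⟩
  obtain ⟨p, q, hp⟩ := hd h s hh hs hsb
  refine ⟨machineAux p, Polynomial.C (2 ^ (d * c)) * q + 1, fun a => ?_⟩
  obtain ⟨⟨⟨t, ht⟩, hle⟩⟩ := (hp a).toTM2
  have e1 : ∀ l : List Bool, List.map (Equiv.refl Bool).invFun l = l := by
    intro l; simp
  refine ⟨{ steps := t, evals_in_steps := ?_, steps_le_m := ?_ }⟩
  · rw [← e1 (N487b59b3.bitEncode a),
      ← e1 (N487b59b3.bitEncode (A (h a, List.replicate (2 ^ s a) true)))] at ht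
    exact ht
  · refine hle.trans (Nat.le_floor ?_)
    have h1 : (d : ℝ) * ((N a / k : ℕ) : ℝ) ≤ δ * N a := by
      have h2 : (d : ℝ) ≤ δ * k := by
        rw [div_le_iff₀ hδ] at hk0
        have : (k0 : ℝ) ≤ k := by exact_mod_cast hk
        nlinarith
      have h3 : (k : ℝ) * ((N a / k : ℕ) : ℝ) ≤ N a := by exact_mod_cast Nat.mul_div_le (N a) k
      have h4 : (0 : ℝ) ≤ ((N a / k : ℕ) : ℝ) := Nat.cast_nonneg _
      nlinarith
    have h5 : ((2 ^ (d * (N a / k)) : ℕ) : ℝ) ≤ (2 : ℝ) ^ (δ * N a) := by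
      rw [Nat.cast_pow, Nat.cast_ofNat, ← Real.rpow_natCast]
      exact Real.rpow_le_rpow_of_exponent_le (by norm_num) (by push_cast; exact h1)
    have h6 : 2 ^ (d * s a) ≤ 2 ^ (d * (N a / k)) * 2 ^ (d * c) := by
      rw [← pow_add, ← mul_add]
      exact Nat.pow_le_pow_right (by norm_num) (Nat.mul_le_mul_left _ (hsN a))
    have h7 : 2 ^ (d * s a) * q.eval (PolyTime.sz a) + 1 ≤
        2 ^ (d * (N a / k)) * (2 ^ (d * c) * q.eval (PolyTime.sz a) + 1) := by
      have : 1 ≤ 2 ^ (d * (N a / k)) := Nat.one_le_two_pow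
      have := Nat.mul_le_mul_right (q.eval (PolyTime.sz a)) h6
      nlinarith
    have h8 : (Polynomial.C (2 ^ (d * c)) * q + 1).eval (N487b59b3.bitEncode a).length =
        2 ^ (d * c) * q.eval (PolyTime.sz a) + 1 := by simp [PolyTime.sz]
    rw [h8]
    calc ((2 ^ (d * s a) * q.eval (PolyTime.sz a) + 1 : ℕ) : ℝ)
        ≤ ((2 ^ (d * (N a / k)) * (2 ^ (d * c) * q.eval (PolyTime.sz a) + 1) : ℕ) : ℝ) := by
          exact_mod_cast h7
      _ ≤ _ := by
          rw [Nat.cast_mul]
          exact mul_le_mul_of_nonneg_right h5 (Nat.cast_nonneg _)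

end Pool.Agent.Shared.PolyTime
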