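import Mathlib

/-!
Augmented chain complexes over the field with two elements, with a basis permuted by a group.
The degree of a basis element is the number of its vertices; the empty simplex has degree zero.
-/

namespace Pool.Agent.Shared.Mod2

/-- The field with two elements. -/
abbrev F := ZMod 2

/-- Chains on a set. -/
abbrev Ch (B : Type) := B →₀ F

section Basic

variable {B B' : Type} {C C' : Type} [AddCommGroup C] [Module F C] [AddCommGroup C'] [Module F C']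

lemma aa (x : C) : x + x = 0 := ZModModule.add_self x

lemma eq_of_add_eq_zero {x y : C} (h : x + y = 0) : x = y := by
  linear_combination (norm := abel1) h - aa y

/-- The basis chain. -/
noncomputable def sg (b : B) : Ch B := Finsupp.single b 1

/-- Linear extension. -/
noncomputable def lin (φ : B → C) : Ch B →ₗ[F] C := Finsupp.linearCombination F φ

/-- Push forward of chains. -/
noncomputable def mp (f : B → B') : Ch B →ₗ[F] Ch B' := lin fun b => sg (f b)

/-- Chains supported in a set of basis elements. -/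
def sup (s : Set B) : Submodule F (Ch B) := Finsupp.supported F F s

@[simp] lemma lin_sg (φ : B → C) (b : B) : lin φ (sg b) = φ b := by simp [lin, sg]

@[simp] lemma mp_sg (f : B → B') (b : B) : mp f (sg b) = sg (f b) := lin_sg _ _

lemma sg_mem {s : Set B} {b : B} (h : b ∈ s) : sg b ∈ sup s := Finsupp.single_mem_supported _ _ h

lemma sup_mono {s t : Set B} (h : s ⊆ t) : sup s ≤ sup t := Finsupp.supported_mono h

lemma mem_sup' {s : Set B} {x : Ch B} : x ∈ sup s ↔ ∀ b, b ∉ s → x b = 0 :=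
  Finsupp.mem_supported' _ _

lemma sup_inter {s t : Set B} {x : Ch B} (h : x ∈ sup s) (h' : x ∈ sup t) : x ∈ sup (s ∩ t) := by
  rw [mem_sup'] at *
  intro b hb
  by_cases h1 : b ∈ s
  · exact h' b fun h2 => hb ⟨h1, h2⟩
  · exact h b h1

lemma mem_sup_univ (x : Ch B) : x ∈ sup (Set.univ : Set B) := mem_sup'.2 fun _ h => (h trivial).elim

lemma mem_sup_support (x : Ch B) : x ∈ sup (x.support : Set B) :=
  mem_sup'.2 fun _ h => by simpa using h

lemma eq_zero_of_mem {s : Set B} {x : Ch B} (h : x ∈ sup s) (hs : ∀ b, b ∉ s) : x = 0 :=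
  Finsupp.ext fun b => mem_sup'.1 h b (hs b)

lemma sup_ind {s : Set B} {P : Ch B → Prop} (h0 : P 0) (ha : ∀ x y, P x → P y → P (x + y))
    (h1 : ∀ b ∈ s, P (sg b)) {x : Ch B} (hx : x ∈ sup s) : P x := by
  rw [sup, Finsupp.supported_eq_span_single] at hx
  induction hx using Submodule.span_induction with
  | mem x h => obtain ⟨b, hb, rfl⟩ := h; exact h1 b hb
  | zero => exact h0
  | add x y _ _ a b => exact ha _ _ a b
  | smul c x _ a =>
    have : c = 0 ∨ c = 1 := by revert c; decide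
    rcases this with rfl | rfl
    · simpa using h0
    · simpa using a

lemma map_mem {s : Set B} {K : Submodule F C} {L : Ch B →ₗ[F] C} (h : ∀ b ∈ s, L (sg b) ∈ K)
    {x : Ch B} (hx : x ∈ sup s) : L x ∈ K :=
  sup_ind (P := fun x => L x ∈ K) (by simp) (fun _ _ a b => by rw [map_add]; exact K.add_mem a b)
    h hx

lemma map_eq {s : Set B} {L L' : Ch B →ₗ[F] C} (h : ∀ b ∈ s, L (sg b) = L' (sg b)) {x : Ch B}
    (hx : x ∈ sup s) : L x = L' x :=
  sup_ind (P := fun x => L x = L' x) (by simp) (fun _ _ a b => by rw [map_add, map_add, a, b]) h hx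

lemma map_eq' {L L' : Ch B →ₗ[F] C} (h : ∀ b, L (sg b) = L' (sg b)) (x : Ch B) : L x = L' x :=
  map_eq (fun b _ => h b) (mem_sup_univ x)

lemma map_zero' {s : Set B} {L : Ch B →ₗ[F] C} (h : ∀ b ∈ s, L (sg b) = 0) {x : Ch B}
    (hx : x ∈ sup s) : L x = 0 := map_eq (L' := 0) h hx

lemma lin_mem {s : Set B} {K : Submodule F C} {φ : B → C} (h : ∀ b ∈ s, φ b ∈ K)
    {x : Ch B} (hx : x ∈ sup s) : lin φ x ∈ K := map_mem (by simpa using h) hx

lemma lin_congr {s : Set B} {φ ψ : B → C} (h : ∀ b ∈ s, φ b = ψ b) {x : Ch B}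
    (hx : x ∈ sup s) : lin φ x = lin ψ x := map_eq (by simpa using h) hx

lemma lin_add (φ ψ : B → C) (x : Ch B) : lin (fun b => φ b + ψ b) x = lin φ x + lin ψ x :=
  map_eq' (L' := lin φ + lin ψ) (by simp) x

lemma map_lin (L : C →ₗ[F] C') (φ : B → C) (x : Ch B) : L (lin φ x) = lin (fun b => L (φ b)) x :=
  map_eq' (L := L ∘ₗ lin φ) (by simp) x

lemma lin_map (L : Ch B →ₗ[F] C) (x : Ch B) : lin (fun b => L (sg b)) x = L x :=
  map_eq' (by simp) x

lemma lin_mp (φ : B' → C) (f : B → B') (x : Ch B) : lin φ (mp f x) = lin (fun b => φ (f b)) x := by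
  rw [mp, map_lin]; simp

lemma mp_mp {B'' : Type} (g : B' → B'') (f : B → B') (x : Ch B) :
    mp g (mp f x) = mp (fun b => g (f b)) x := lin_mp _ _ _

lemma mp_id (x : Ch B) : mp (fun b => b) x = x := map_eq' (L' := LinearMap.id) (by simp) x

lemma mp_mem {s : Set B} {t : Set B'} {f : B → B'} (h : ∀ b ∈ s, f b ∈ t) {x : Ch B}
    (hx : x ∈ sup s) : mp f x ∈ sup t := lin_mem (fun b hb => sg_mem (h b hb)) hx

lemma mp_congr {s : Set B} {f g : B → B'} (h : ∀ b ∈ s, f b = g b) {x : Ch B}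
    (hx : x ∈ sup s) : mp f x = mp g x := lin_congr (fun b hb => by rw [h b hb]) hx

lemma sup_split {s t : Set B} {x : Ch B} (hx : x ∈ sup (s ∪ t)) :
    ∃ y ∈ sup s, ∃ z ∈ sup t, x = y + z := by
  refine sup_ind (P := fun x => ∃ y ∈ sup s, ∃ z ∈ sup t, x = y + z)
    ⟨0, zero_mem _, 0, zero_mem _, by simp⟩ ?_ ?_ hx
  · rintro _ _ ⟨y, a, z, b, rfl⟩ ⟨y', a', z', b', rfl⟩
    exact ⟨y + y', add_mem a a', z + z', add_mem b b', by abel⟩
  · rintro b (h | h)
    · exact ⟨sg b, sg_mem h, 0, zero_mem _, by simp⟩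
    · exact ⟨0, zero_mem _, sg b, sg_mem h, by simp⟩

lemma exists_mp {s : Set B} {t : Set B'} {f : B → B'} (h : ∀ c ∈ t, ∃ b ∈ s, f b = c) {y : Ch B'}
    (hy : y ∈ sup t) : ∃ x ∈ sup s, mp f x = y := by
  refine sup_ind (P := fun y => ∃ x ∈ sup s, mp f x = y) ⟨0, zero_mem _, by simp⟩ ?_ ?_ hy
  · rintro _ _ ⟨y, a, rfl⟩ ⟨y', a', rfl⟩
    exact ⟨y + y', add_mem a a', by simp⟩
  · intro c hc
    obtain ⟨b, hb, rfl⟩ := h c hc
    exact ⟨sg b, sg_mem hb, by simp⟩

lemma mp_eq_mapDomain (f : B → B') (x : Ch B) : mp f x = Finsupp.mapDomain f x :=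
  map_eq' (L' := Finsupp.lmapDomain F F f) (fun b => by rw [mp_sg]; simp [sg]) x

lemma mp_injective {f : B → B'} (hf : Function.Injective f) : Function.Injective (mp f) := by
  intro x y h
  rw [mp_eq_mapDomain, mp_eq_mapDomain] at h
  exact Finsupp.mapDomain_injective hf h

lemma mem_of_mp_mem {f : B → B'} (hf : Function.Injective f) {t : Set B'} {x : Ch B}
    (h : mp f x ∈ sup t) : x ∈ sup (f ⁻¹' t) := by
  rw [mem_sup'] at *
  intro b hb
  have := h (f b) hb
  rwa [mp_eq_mapDomain, Finsupp.mapDomain_apply hf] at this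

end Basic

/-- An equivariant choice. -/
lemma equiv_choice {H A X : Type} [Group H] (a : H →* Equiv.Perm A) (act : H → X → X)
    (hm : ∀ g h x, act (g * h) x = act g (act h x)) (R : A → X → Prop)
    (hR : ∀ h v x, R v x → R (a h v) (act h x))
    (hex : ∀ v, ∃ x, R v x ∧ ∀ h, a h v = v → act h x = x) :
    ∃ f : A → X, (∀ v, R v (f v)) ∧ ∀ h v, f (a h v) = act h (f v) := by
  choose x hx hx' using hex
  let s : Setoid A := ⟨fun v w => ∃ h, a h v = w, fun v => ⟨1, by simp⟩,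
    fun ⟨h, e⟩ => ⟨h⁻¹, by simp [← e]⟩, fun ⟨h, e⟩ ⟨k, e'⟩ => ⟨k * h, by simp [e, e']⟩⟩
  have h2 : ∀ v, ∃ h, a h (Quotient.mk s v).out = v := fun v => Quotient.mk_out (s := s) v
  choose g hg using h2
  refine ⟨fun v => act (g v) (x (Quotient.mk s v).out), fun v => ?_, fun h v => ?_⟩
  · have := hR (g v) _ _ (hx (Quotient.mk s v).out)
    rwa [hg] at this
  · have e : Quotient.mk s (a h v) = Quotient.mk s v := (Quotient.sound (s := s) (a := v) ⟨h, rfl⟩).symm
    have e1 := hg (a h v)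
    have e2 := hg v
    simp only [e] at e1 ⊢
    have e3 := hx' (Quotient.mk s v).out ((g (a h v))⁻¹ * (h * g v)) (by
      rw [map_mul, map_mul, map_inv, Equiv.Perm.mul_apply, Equiv.Perm.mul_apply, e2,
        Equiv.Perm.inv_eq_iff_eq, e1])
    rw [← hm]
    conv_lhs => rw [← e3, ← hm, mul_inv_cancel_left]

/-- An augmented based complex. -/
structure Cx (B : Type) where
  deg : B → ℕ
  d : Ch B →ₗ[F] Ch B
  b0 : B
  deg_b0 : deg b0 = 0
  eq_b0 : ∀ b, deg b = 0 → b = b0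
  dd : ∀ x, d (d x) = 0
  d_mem : ∀ b, d (sg b) ∈ sup {c | deg c + 1 = deg b}

variable {B B' B'' : Type} {X : Cx B} {X' : Cx B'} {X'' : Cx B''} {H K : Type} [Group H] [Group K]

/-- Chains of degree `k`. -/
def Cx.Gr (X : Cx B) (k : ℕ) : Submodule F (Ch B) := sup {b | X.deg b = k}

lemma Cx.d_b0 (X : Cx B) : X.d (sg X.b0) = 0 :=
  eq_zero_of_mem (X.d_mem _) fun b h => by simp [X.deg_b0] at h

lemma Cx.d_gr (X : Cx B) {k : ℕ} {x : Ch B} (h : x ∈ X.Gr (k + 1)) : X.d x ∈ X.Gr k :=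
  map_mem (fun b hb => sup_mono (fun c hc => by
    simp only [Set.mem_ofPred_eq] at *; omega) (X.d_mem b)) h

/-- Acyclicity. -/
def Cx.Acyc (X : Cx B) : Prop := ∀ k, ∀ x ∈ X.Gr k, X.d x = 0 → ∃ y ∈ X.Gr (k + 1), X.d y = x

/-- An action of a group on a based complex. -/
structure Act (X : Cx B) (H : Type) [Group H] where
  a : H →* Equiv.Perm B
  deg_a : ∀ h b, X.deg (a h b) = X.deg b
  d_a : ∀ h b, X.d (sg (a h b)) = mp (a h) (X.d (sg b))

/-- Restriction of an action along a homomorphism. -/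
def Act.comp (A : Act X H) (ι : K →* H) : Act X K :=
  ⟨A.a.comp ι, fun h => A.deg_a (ι h), fun h => A.d_a (ι h)⟩

@[simp] lemma Act.comp_a (A : Act X H) (ι : K →* H) (k : K) : (A.comp ι).a k = A.a (ι k) := rfl

lemma Act.d_mp (A : Act X H) (h : H) (x : Ch B) : X.d (mp (A.a h) x) = mp (A.a h) (X.d x) :=
  map_eq' (L := X.d ∘ₗ mp (A.a h)) (L' := mp (A.a h) ∘ₗ X.d) (fun b => by simp [A.d_a]) x

lemma Act.a_b0 (A : Act X H) (h : H) : A.a h X.b0 = X.b0 := X.eq_b0 _ (by rw [A.deg_a, X.deg_b0])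

lemma Act.mp_one (A : Act X H) (x : Ch B) : mp (A.a 1) x = x := by
  rw [map_one]; exact mp_id x

lemma Act.mp_mul (A : Act X H) (g h : H) (x : Ch B) :
    mp (A.a (g * h)) x = mp (A.a g) (mp (A.a h) x) := by rw [mp_mp, map_mul]; rfl

lemma Act.mp_gr (A : Act X H) (h : H) {k : ℕ} {x : Ch B} (hx : x ∈ X.Gr k) :
    mp (A.a h) x ∈ X.Gr k := mp_mem (fun b hb => (A.deg_a h b).trans hb) hx

/-- An invariant subcomplex on which the action is free. -/
structure Dom (A : Act X H) (D : Set B) : Prop where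
  b0 : X.b0 ∈ D
  inv : ∀ h, ∀ b ∈ D, A.a h b ∈ D
  face : ∀ b ∈ D, X.d (sg b) ∈ sup D
  free : ∀ h, ∀ b ∈ D, X.deg b ≠ 0 → A.a h b = b → h = 1

lemma Dom.comp {A : Act X H} {D : Set B} (hD : Dom A D) {ι : K →* H} (hι : Function.Injective ι) :
    Dom (A.comp ι) D :=
  ⟨hD.b0, fun h => hD.inv (ι h), hD.face, fun _ b hb h0 e =>
    hι ((hD.free _ b hb h0 e).trans (map_one ι).symm)⟩

lemma Dom.face' {A : Act X H} {D : Set B} (hD : Dom A D) {b : B} (hb : b ∈ D) :
    X.d (sg b) ∈ sup {c | c ∈ D ∧ X.deg c + 1 = X.deg b} := sup_inter (hD.face b hb) (X.d_mem b)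

/-- The recursive construction of equivariant maps out of a free complex. -/
theorem build {A : Act X H} {D : Set B} (hD : Dom A D) (A' : Act X' H) (θ : B → Ch B')
    (hθ : ∀ h, ∀ b ∈ D, θ (A.a h b) = mp (A'.a h) (θ b)) (P : B → Ch B' → Prop)
    (hP : ∀ h, ∀ b ∈ D, ∀ y, P b y → P (A.a h b) (mp (A'.a h) y)) (y0 : Ch B')
    (h0 : ∀ h, mp (A'.a h) y0 = y0) (h1 : P X.b0 y0) (h2 : X'.d y0 = θ X.b0)
    (step : ∀ b ∈ D, X.deg b ≠ 0 → ∀ φ : B → Ch B',
      (∀ c ∈ D, X.deg c < X.deg b → P c (φ c) ∧ X'.d (φ c) = lin φ (X.d (sg c)) + θ c) →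
      ∃ y, P b y ∧ X'.d y = lin φ (X.d (sg b)) + θ b) :
    ∃ φ : B → Ch B', φ X.b0 = y0 ∧ ∀ b ∈ D, (P b (φ b) ∧ X'.d (φ b) = lin φ (X.d (sg b)) + θ b) ∧
      ∀ h, φ (A.a h b) = mp (A'.a h) (φ b) := by
  let G : (B → Ch B') → B → Prop := fun φ b =>
    (P b (φ b) ∧ X'.d (φ b) = lin φ (X.d (sg b)) + θ b) ∧ ∀ h, φ (A.a h b) = mp (A'.a h) (φ b)
  have cg : ∀ φ φ' : B → Ch B', ∀ b ∈ D, (∀ c, X.deg c ≤ X.deg b → φ' c = φ c) → G φ b →
      G φ' b := by
    intro φ φ' b hb e ⟨⟨g1, g2⟩, g3⟩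
    refine ⟨⟨by rwa [e b le_rfl], ?_⟩, fun h => by rw [e b le_rfl, e _ (A.deg_a h b).le, g3]⟩
    rw [e b le_rfl, g2, lin_congr (fun c hc => e c (by
      simp only [Set.mem_ofPred_eq] at hc; omega)) (X.d_mem b)]
  have ext : ∀ k (φ : B → Ch B'), (∀ b ∈ D, X.deg b ≤ k → G φ b) →
      ∃ φ' : B → Ch B', (∀ b ∈ D, X.deg b ≤ k + 1 → G φ' b) ∧ ∀ b, X.deg b ≤ k → φ' b = φ b := by
    intro k φ hφ
    have hh := equiv_choice A.a (fun h (y : Option (Ch B')) => y.map (mp (A'.a h)))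
      (fun g h x => by cases x <;> simp [-map_mul, A'.mp_mul])
      (fun b y => b ∈ D → X.deg b = k + 1 →
        ∃ z, y = some z ∧ P b z ∧ X'.d z = lin φ (X.d (sg b)) + θ b) ?_ ?_
    · classical
      obtain ⟨f, f1, f2⟩ := hh
      have e1 : ∀ b, X.deg b ≤ k → (if X.deg b = k + 1 then (f b).getD 0 else φ b) = φ b :=
        fun b hb => if_neg (by omega)
      refine ⟨fun b => if X.deg b = k + 1 then (f b).getD 0 else φ b, fun b hb hk => ?_, e1⟩
      rcases hk.eq_or_lt with hk | hk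
      · obtain ⟨z, z1, z2, z3⟩ := f1 b hb hk
        refine ⟨⟨by simpa [hk, z1] using z2, ?_⟩, fun h => by simp [A.deg_a, hk, f2, z1]⟩
        simp only [hk, z1, if_true, Option.getD_some, z3]
        rw [lin_congr (fun c hc => e1 c (by
          simp only [Set.mem_ofPred_eq] at hc; omega)) (X.d_mem b)]
      · exact cg φ _ b hb (fun c hc => e1 c (by omega)) (hφ b hb (by omega))
    · intro h b y hy hb hk
      have hb' : b ∈ D := by simpa using hD.inv h⁻¹ _ hb
      rw [A.deg_a] at hk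
      obtain ⟨z, rfl, z2, z3⟩ := hy hb' hk
      refine ⟨_, rfl, hP h b hb' z z2, ?_⟩
      rw [A'.d_mp, z3, map_add, hθ h b hb', A.d_a, lin_mp, map_lin]
      congr 1
      exact lin_congr (fun c hc => ((hφ c hc.1 (by have := hc.2; omega)).2 h).symm) (hD.face' hb')
    · intro b
      by_cases hb : b ∈ D ∧ X.deg b = k + 1
      · obtain ⟨y, hy⟩ := step b hb.1 (by omega) φ fun c hc hk => (hφ c hc (by omega)).1
        refine ⟨some y, fun _ _ => ⟨y, rfl, hy⟩, fun h e => ?_⟩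
        rw [hD.free h b hb.1 (by omega) e]
        simp [-map_one, A'.mp_one]
      · exact ⟨none, fun a b => (hb ⟨a, b⟩).elim, fun _ _ => rfl⟩
  choose nx n1 n2 using ext
  have base : ∀ b ∈ D, X.deg b ≤ 0 → G (fun _ => y0) b := by
    intro b _ hb
    rw [X.eq_b0 b (by omega)]
    exact ⟨⟨h1, by rw [h2, X.d_b0]; simp⟩, fun h => (h0 h).symm⟩
  let Φ : ∀ k, {φ : B → Ch B' // ∀ b ∈ D, X.deg b ≤ k → G φ b} := fun k =>
    Nat.rec ⟨fun _ => y0, base⟩ (fun k φ => ⟨nx k φ.1 φ.2, n1 k φ.1 φ.2⟩) k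
  have st : ∀ k b, X.deg b ≤ k → (Φ k).1 b = (Φ (X.deg b)).1 b := by
    intro k b hk
    induction k, hk using Nat.le_induction with
    | base => rfl
    | succ k hk ih => rw [← ih]; exact n2 k _ (Φ k).2 b hk
  refine ⟨fun b => (Φ (X.deg b)).1 b, (st 0 _ X.deg_b0.le).symm, fun b hb => ?_⟩
  exact cg _ _ b hb (fun c hc => (st _ c hc).symm) ((Φ _).2 b hb le_rfl)

/-- Equivariant augmented chain maps on the subcomplex spanned by `D`. -/
structure CMap (A : Act X H) (A' : Act X' H) (D : Set B) (φ : B → Ch B') : Prop where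
  zero : φ X.b0 = sg X'.b0
  deg : ∀ b ∈ D, φ b ∈ X'.Gr (X.deg b)
  d : ∀ b ∈ D, X'.d (φ b) = lin φ (X.d (sg b))
  eqv : ∀ h, ∀ b ∈ D, φ (A.a h b) = mp (A'.a h) (φ b)

lemma CMap.d_lin {A : Act X H} {A' : Act X' H} {D : Set B} {φ : B → Ch B'} (h : CMap A A' D φ)
    {x : Ch B} (hx : x ∈ sup D) : X'.d (lin φ x) = lin φ (X.d x) :=
  map_eq (L := X'.d ∘ₗ lin φ) (L' := lin φ ∘ₗ X.d) (fun b hb => by simpa using h.d b hb) hx

lemma CMap.id (A : Act X H) (D : Set B) : CMap A A D sg :=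
  ⟨rfl, fun _ _ => sg_mem rfl, fun b _ => (lin_map LinearMap.id _).symm, fun h b _ => by simp⟩

lemma CMap.comp {A : Act X H} {A' : Act X' H} {A'' : Act X'' H} {D : Set B} {D' : Set B'}
    {φ : B → Ch B'} {ψ : B' → Ch B''} (h : CMap A A' D φ) (h' : CMap A' A'' D' ψ)
    (hD : ∀ b ∈ D, φ b ∈ sup D') : CMap A A'' D (fun b => lin ψ (φ b)) where
  zero := by rw [h.zero, lin_sg, h'.zero]
  deg b hb := lin_mem (s := D' ∩ {c | X'.deg c = X.deg b})
    (fun c hc => by rw [← hc.2]; exact h'.deg c hc.1) (sup_inter (hD b hb) (h.deg b hb))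
  d b hb := by rw [h'.d_lin (hD b hb), h.d b hb, map_lin]
  eqv g b hb := by
    rw [h.eqv g b hb, lin_mp, map_lin]
    exact lin_congr (fun c hc => h'.eqv g c hc) (hD b hb)

lemma CMap.res {A : Act X H} {A' : Act X' H} {D : Set B} {φ : B → Ch B'} (h : CMap A A' D φ)
    (ι : K →* H) : CMap (A.comp ι) (A'.comp ι) D φ := ⟨h.zero, h.deg, h.d, fun g => h.eqv (ι g)⟩

/-- Chain maps with carriers. -/
theorem exists_cmap' {A : Act X H} {D : Set B} (hD : Dom A D) (A' : Act X' H)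
    (P : B → Ch B' → Prop) (hP : ∀ h, ∀ b ∈ D, ∀ y, P b y → P (A.a h b) (mp (A'.a h) y))
    (h1 : P X.b0 (sg X'.b0))
    (step : ∀ b ∈ D, X.deg b ≠ 0 → ∀ φ : B → Ch B',
      (∀ c ∈ D, X.deg c + 1 = X.deg b → P c (φ c)) →
      lin φ (X.d (sg b)) ∈ X'.Gr (X.deg b - 1) → X'.d (lin φ (X.d (sg b))) = 0 →
      ∃ y ∈ X'.Gr (X.deg b), P b y ∧ X'.d y = lin φ (X.d (sg b))) :
    ∃ φ, CMap A A' D φ ∧ ∀ b ∈ D, P b (φ b) := by
  obtain ⟨φ, f0, f1⟩ := build hD A' (fun _ => 0) (by simp) (fun b y => y ∈ X'.Gr (X.deg b) ∧ P b y)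
    (fun h b hb y hy => ⟨by rw [A.deg_a]; exact A'.mp_gr h hy.1, hP h b hb y hy.2⟩) (sg X'.b0)
    (fun h => by simp [A'.a_b0]) ⟨sg_mem (X'.deg_b0.trans X.deg_b0.symm), h1⟩ X'.d_b0 (by
      intro b hb h0 φ hφ
      obtain ⟨y, y1, y2, y3⟩ := step b hb h0 φ (fun c hc e => (hφ c hc (by omega)).1.2)
        (lin_mem (fun c hc => by
          have := (hφ c hc.1 (by have := hc.2; omega)).1.1
          rwa [show X.deg c = X.deg b - 1 by have := hc.2; omega] at this) (hD.face' hb))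
        (by
          rw [map_eq (L := X'.d ∘ₗ lin φ) (L' := lin φ ∘ₗ X.d) (fun c hc => by
            simpa using (hφ c hc.1 (by have := hc.2; omega)).2) (hD.face' hb) |>.trans
            (LinearMap.comp_apply _ _ _) |> (LinearMap.comp_apply _ _ _).symm.trans, X.dd,
            map_zero])
      exact ⟨y, ⟨y1, y2⟩, by rw [y3, add_zero]⟩)
  exact ⟨φ, ⟨f0, fun b hb => (f1 b hb).1.1.1, fun b hb => by simpa using (f1 b hb).1.2,
    fun h b hb => (f1 b hb).2 h⟩, fun b hb => (f1 b hb).1.1.2⟩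

theorem exists_cmap {A : Act X H} {D : Set B} (hD : Dom A D) (A' : Act X' H) (hX : X'.Acyc) :
    ∃ φ, CMap A A' D φ := by
  obtain ⟨φ, h, -⟩ := exists_cmap' hD A' (fun _ _ => True) (by simp) trivial (by
    intro b _ h0 φ _ h1 h2
    obtain ⟨y, y1, y2⟩ := hX _ _ h1 h2
    exact ⟨y, by rwa [show X.deg b - 1 + 1 = X.deg b by omega] at y1, trivial, y2⟩)
  exact ⟨φ, h⟩

theorem exists_htpy {A : Act X H} {D : Set B} (hD : Dom A D) {A' : Act X' H} (hX : X'.Acyc)
    {φ ψ : B → Ch B'} (hφ : CMap A A' D φ) (hψ : CMap A A' D ψ) :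
    ∃ η : B → Ch B', ∀ b ∈ D, (η b ∈ X'.Gr (X.deg b + 1) ∧
      X'.d (η b) = lin η (X.d (sg b)) + (φ b + ψ b)) ∧ ∀ h, η (A.a h b) = mp (A'.a h) (η b) := by
  obtain ⟨η, -, h⟩ := build hD A' (fun b => φ b + ψ b)
    (fun h b hb => by rw [hφ.eqv h b hb, hψ.eqv h b hb, map_add])
    (fun b y => y ∈ X'.Gr (X.deg b + 1))
    (fun h b _ y hy => by rw [A.deg_a]; exact A'.mp_gr h hy) 0 (by simp) (zero_mem _)
    (by rw [hφ.zero, hψ.zero, aa, map_zero]) (by
      intro b hb h0 η hη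
      refine hX _ _ (add_mem (lin_mem (fun c hc => ?_) (hD.face' hb))
        (add_mem (hφ.deg b hb) (hψ.deg b hb))) ?_
      · rw [← hc.2]; exact (hη c hc.1 (by have := hc.2; omega)).1
      · have := map_eq (L := X'.d ∘ₗ lin η) (L' := lin η ∘ₗ X.d + (lin φ + lin ψ))
          (fun c hc => by simpa using (hη c hc.1 (by have := hc.2; omega)).2) (hD.face' hb)
        simp only [LinearMap.comp_apply, LinearMap.add_apply, X.dd, map_zero, zero_add] at this
        rw [map_add, this, map_add, hφ.d b hb, hψ.d b hb, aa])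
  exact ⟨η, h⟩

/-- Invariant cochains. -/
def Act.Inv (A : Act X H) (D : Set B) (μ : B → F) : Prop := ∀ h, ∀ b ∈ D, μ (A.a h b) = μ b

/-- Cocycles of degree `k`. -/
def Cx.Coc (X : Cx B) (k : ℕ) (μ : B → F) : Prop := ∀ b, X.deg b = k + 1 → lin μ (X.d (sg b)) = 0

/-- Coboundaries of invariant cochains, in degree `k`. -/
def Act.Cob (A : Act X H) (D : Set B) (k : ℕ) (μ : B → F) : Prop :=
  ∃ ν, A.Inv D ν ∧ ∀ b ∈ D, X.deg b = k → μ b = lin ν (X.d (sg b))

/-- Vanishing of equivariant cohomology in degree `k`. -/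
def Act.Van (A : Act X H) (k : ℕ) : Prop :=
  ∀ μ, A.Inv Set.univ μ → X.Coc k μ → A.Cob Set.univ k μ

lemma Act.Inv.lin_mp {A : Act X H} {μ : B → F} (h : A.Inv Set.univ μ) (g : H) (x : Ch B) :
    lin μ (mp (A.a g) x) = lin μ x := by
  rw [Mod2.lin_mp]; exact lin_congr (fun b hb => h g b hb) (mem_sup_univ x)

lemma Cx.Coc.lin_d {k : ℕ} {μ : B → F} (h : X.Coc k μ) {x : Ch B} (hx : x ∈ X.Gr (k + 1)) :
    lin μ (X.d x) = 0 := map_zero' (L := lin μ ∘ₗ X.d) h hx

lemma cob_lin_eq {D : Set B} {k : ℕ} {μ ν : B → F}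
    (h : ∀ b ∈ D, X.deg b = k → μ b = lin ν (X.d (sg b))) {x : Ch B}
    (hx : x ∈ sup {c | c ∈ D ∧ X.deg c = k}) : lin μ x = lin ν (X.d x) :=
  map_eq (L' := lin ν ∘ₗ X.d) (fun b hb => by simpa using h b hb.1 hb.2) hx

lemma Act.Cob.add {A : Act X H} {D : Set B} {k : ℕ} {μ ν : B → F} (h : A.Cob D k μ)
    (h' : A.Cob D k ν) : A.Cob D k (fun b => μ b + ν b) := by
  obtain ⟨α, a1, a2⟩ := h
  obtain ⟨β, b1, b2⟩ := h'
  exact ⟨fun b => α b + β b, fun g b hb => by simp only [a1 g b hb, b1 g b hb],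
    fun b hb hk => by rw [lin_add, ← a2 b hb hk, ← b2 b hb hk]⟩

lemma Act.Cob.congr {A : Act X H} {D : Set B} {k : ℕ} {μ ν : B → F} (h : A.Cob D k μ)
    (e : ∀ b ∈ D, X.deg b = k → ν b = μ b) : A.Cob D k ν := by
  obtain ⟨α, a1, a2⟩ := h
  exact ⟨α, a1, fun b hb hk => by rw [e b hb hk, a2 b hb hk]⟩

lemma Act.Cob.res {A : Act X H} {D : Set B} {k : ℕ} {μ : B → F} (h : A.Cob D k μ) (ι : K →* H) :
    (A.comp ι).Cob D k μ := by
  obtain ⟨α, a1, a2⟩ := h
  exact ⟨α, fun g => a1 (ι g), a2⟩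

lemma CMap.inv {A : Act X H} {A' : Act X' H} {D : Set B} {φ : B → Ch B'} (h : CMap A A' D φ)
    {μ : B' → F} (hμ : A'.Inv Set.univ μ) : A.Inv D fun b => lin μ (φ b) := fun g b hb => by
  simp only [h.eqv g b hb, hμ.lin_mp]

lemma CMap.coc {A : Act X H} {A' : Act X' H} {φ : B → Ch B'} (h : CMap A A' Set.univ φ) {k : ℕ}
    {μ : B' → F} (hμ : X'.Coc k μ) : X.Coc k fun b => lin μ (φ b) := fun b hb => by
  rw [← map_lin, ← h.d b trivial, hμ.lin_d (hb ▸ h.deg b trivial)]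

lemma CMap.cob {A : Act X H} {A' : Act X' H} {D : Set B} {φ : B → Ch B'} (h : CMap A A' D φ)
    {k : ℕ} {μ : B' → F} (hμ : A'.Cob Set.univ k μ) : A.Cob D k fun b => lin μ (φ b) := by
  obtain ⟨ν, n1, n2⟩ := hμ
  refine ⟨_, h.inv n1, fun b hb hk => ?_⟩
  rw [← map_lin, ← h.d b hb]
  exact cob_lin_eq n2 (sup_mono (fun c hc => And.intro trivial (hc.trans hk)) (h.deg b hb))

lemma cob_htpy {A : Act X H} {D : Set B} (hD : Dom A D) {A' : Act X' H} (hX : X'.Acyc)
    {φ ψ : B → Ch B'} (hφ : CMap A A' D φ) (hψ : CMap A A' D ψ) {k : ℕ} {μ : B' → F}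
    (h1 : A'.Inv Set.univ μ) (h2 : X'.Coc k μ) (h3 : A.Cob D k fun b => lin μ (φ b)) :
    A.Cob D k fun b => lin μ (ψ b) := by
  obtain ⟨η, hη⟩ := exists_htpy hD hX hφ hψ
  have : A.Cob D k fun b => lin μ (φ b) + lin μ (ψ b) := by
    refine ⟨fun b => lin μ (η b), fun g b hb => by simp only [(hη b hb).2, h1.lin_mp],
      fun b hb hk => ?_⟩
    have := h2.lin_d (hk ▸ (hη b hb).1.1)
    rw [(hη b hb).1.2, map_add, map_add, map_lin] at this
    exact (eq_of_add_eq_zero this).symm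
  exact (h3.add this).congr fun b _ _ => by rw [← add_assoc, aa, zero_add]

/-- A class pulled back through a group with vanishing cohomology is a coboundary. -/
theorem cob_of_factor {A : Act X H} {D : Set B} (hD : Dom A D) (θ : H →* K) {A' : Act X' K}
    (hD' : Dom A' Set.univ) (hX' : X'.Acyc) {A'' : Act X'' K} (hX'' : X''.Acyc) {k : ℕ}
    (hV : A'.Van k) {κ : B → Ch B''} (hκ : CMap A (A''.comp θ) D κ) {μ : B'' → F}
    (h1 : A''.Inv Set.univ μ) (h2 : X''.Coc k μ) : A.Cob D k fun b => lin μ (κ b) := by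
  obtain ⟨α, hα⟩ := exists_cmap hD (A'.comp θ) hX'
  obtain ⟨β, hβ⟩ := exists_cmap hD' A'' hX''
  refine cob_htpy hD hX'' (hα.comp (hβ.res θ) fun b _ => mem_sup_univ _) hκ
    (fun g => h1 (θ g)) h2 ?_
  simpa only [map_lin] using hα.cob ((hV _ (hβ.inv h1) (hβ.coc h2)).res θ)

theorem Act.Van.transfer {A : Act X H} (hD : Dom A Set.univ) (hX : X.Acyc) {A' : Act X' H}
    (hD' : Dom A' Set.univ) (hX' : X'.Acyc) {k : ℕ} (hV : A'.Van k) : A.Van k := fun μ h1 h2 => by
  simpa using cob_of_factor hD (MonoidHom.id H) hD' hX' (A'' := A) hX hV (CMap.id A _) h1 h2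

lemma Act.Van.of_range {A : Act X H} {K' : Type} [Group K'] {ι : K →* H} {ι' : K' →* H}
    (h : ∀ g, (∃ k, ι k = g) ↔ ∃ k, ι' k = g) {k : ℕ} (hV : (A.comp ι).Van k) :
    (A.comp ι').Van k := by
  intro μ h1 h2
  obtain ⟨ν, n1, n2⟩ := hV μ (fun g b hb => by
    obtain ⟨g', e⟩ := (h (ι g)).1 ⟨g, rfl⟩
    simpa [e] using h1 g' b hb) h2
  refine ⟨ν, fun g b hb => ?_, n2⟩
  obtain ⟨g', e⟩ := (h (ι' g)).2 ⟨g, rfl⟩
  simpa [e] using n1 g' b hb

/-- The stabiliser of a point. -/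
def stab {V : Type} (a : H →* Equiv.Perm V) (v : V) : Subgroup H where
  carrier := {h | a h v = v}
  mul_mem' := fun {g h} (x : a g v = v) (y : a h v = v) => by simp [x, y]
  one_mem' := by simp
  inv_mem' := fun {g} (x : a g v = v) => by
    simp only [Set.mem_ofPred_eq, map_inv, Equiv.Perm.inv_eq_iff_eq, x]

lemma mem_stab {V : Type} {a : H →* Equiv.Perm V} {v : V} {h : H} : h ∈ stab a v ↔ a h v = v :=
  Iff.rfl

/-- An equivariant family of primitives of an equivariant family of cochains. -/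
lemma cob_family (A : Act X H) {V : Type} (aV : H →* Equiv.Perm V) (S : V → Prop)
    (hS : ∀ h v, S (aV h v) → S v) (μ : V → B → F)
    (hμ : ∀ h v b, S v → μ (aV h v) (A.a h b) = μ v b) {k : ℕ}
    (h : ∀ v, S v → (A.comp (stab aV v).subtype).Cob Set.univ k (μ v)) :
    ∃ α : V → B → F, (∀ h v b, α (aV h v) (A.a h b) = α v b) ∧
      ∀ v b, S v → X.deg b = k → μ v b = lin (α v) (X.d (sg b)) := by
  have hh := equiv_choice aV (fun h (ν : B → F) b => ν (A.a h⁻¹ b)) (by simp)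
    (fun v ν => ∀ b, S v → X.deg b = k → μ v b = lin ν (X.d (sg b))) ?_ ?_
  · obtain ⟨α, a1, a2⟩ := hh
    exact ⟨α, fun h v b => by simp [a2], a1⟩
  · intro g v ν hν b hv hb
    have := hν (A.a g⁻¹ b) (hS g v hv) (by rw [A.deg_a, hb])
    rw [← hμ g _ _ (hS g v hv), A.d_a, lin_mp] at this
    simpa using this
  · intro v
    by_cases hv : S v
    · obtain ⟨ν, n1, n2⟩ := h v hv
      exact ⟨ν, fun b _ => n2 b trivial, fun g e => funext fun b =>
        n1 ⟨g⁻¹, (stab aV v).inv_mem e⟩ b trivial⟩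
    · exact ⟨0, fun _ h => (hv h).elim, fun _ _ => rfl⟩

/-- Vanishing of cohomology for a group acting on a tree. -/
theorem van_tree {A : Act X H} (hD : Dom A Set.univ) {V E : Type} (aV : H →* Equiv.Perm V)
    (aE : H →* Equiv.Perm E) (s t : E → V) (hs : ∀ h e, s (aE h e) = aV h (s e))
    (ht : ∀ h e, t (aE h e) = aV h (t e))
    (solve : ∀ η : E → F, ∃ ζ : V → F, ∀ e, ζ (s e) + ζ (t e) = η e)
    (conn : ∀ c : V → F, (∀ e, c (s e) = c (t e)) → ∀ v w, c v = c w) (v0 : V) {k : ℕ}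
    (hV : ∀ v, (A.comp (stab aV v).subtype).Van (k + 3))
    (hE : ∀ e, (A.comp (stab aE e).subtype).Van (k + 2)) : A.Van (k + 3) := by
  intro μ h1 h2
  obtain ⟨α, a1, a2⟩ := cob_family A aV (fun _ => True) (by simp) (fun _ => μ)
    (fun h _ b _ => h1 h b trivial) fun v _ => hV v μ (fun g => h1 g) h2
  obtain ⟨η, e1, e2⟩ := cob_family A aE (fun _ => True) (by simp)
    (fun e b => α (s e) b + α (t e) b) (fun h e b _ => by rw [hs, ht, a1, a1]) fun e _ => hE e _
      (fun g b _ => by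
        have x := a1 g (s e) b
        have y := a1 g (t e) b
        rw [← hs, mem_stab.1 g.2] at x
        rw [← ht, mem_stab.1 g.2] at y
        exact congrArg₂ _ x y)
      (fun b hb => by rw [lin_add, ← a2 _ b trivial hb, ← a2 _ b trivial hb, aa])
  obtain ⟨ζ, z1, z2⟩ := equiv_choice A.a (fun h (ν : V → F) v => ν (aV h⁻¹ v)) (by simp)
    (fun b ν => X.deg b = k + 1 → ∀ e, ν (s e) + ν (t e) = η e b)
    (fun g b ν hν hb e => by
      beta_reduce
      rw [← hs, ← ht, hν (by rw [← hb, A.deg_a]), ← e1 g]; simp)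
    (fun b => by
      by_cases hb : X.deg b = k + 1
      · obtain ⟨ζ, hζ⟩ := solve fun e => η e b
        exact ⟨ζ, fun _ => hζ, fun g e => by simp [hD.free g b trivial (by omega) e]⟩
      · exact ⟨0, fun h => (hb h).elim, fun _ _ => rfl⟩)
  let ψ : V → B → F := fun v b => α v b + lin (fun c => ζ c v) (X.d (sg b))
  have p1 : ∀ b, X.deg b = k + 2 → ∀ v w, ψ v b = ψ w b := by
    intro b hb
    refine conn _ fun e => eq_of_add_eq_zero ?_
    have x := e2 e b trivial hb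
    have y : lin (fun c => ζ c (s e) + ζ c (t e)) (X.d (sg b)) = lin (η e) (X.d (sg b)) :=
      lin_congr (fun c hc => z1 c (by simp only [Set.mem_ofPred_eq] at hc; omega) e) (X.d_mem b)
    rw [lin_add] at y
    simp only [ψ]
    linear_combination (norm := abel1) x + y + aa (lin (η e) (X.d (sg b)))
  have p2 : ∀ h v b, ψ (aV h v) (A.a h b) = ψ v b := by
    intro h v b
    simp only [ψ, a1, A.d_a, lin_mp, z2]
    simp
  classical
  refine ⟨fun b => if X.deg b = k + 2 then ψ v0 b else 0, fun g b _ => ?_, fun b _ hb => ?_⟩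
  · simp only [A.deg_a]
    split_ifs with hb
    · rw [p1 _ (by rw [A.deg_a, hb]) v0 (aV g v0), p2]
    · rfl
  · rw [lin_congr (ψ := ψ v0) (fun c hc => if_pos (by
      simp only [Set.mem_ofPred_eq] at hc; omega)) (X.d_mem b), lin_add, ← a2 v0 b trivial hb,
      ← map_lin, lin_map, X.dd, map_zero, add_zero]

section Lists

variable {V W : Type}

/-- The cone. -/
noncomputable def cone (a : V) : Ch (List V) →ₗ[F] Ch (List V) := mp (List.cons a)

/-- The boundary of a list. -/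
noncomputable def bdl : List V → Ch (List V)
  | [] => 0
  | a :: l => sg l + cone a (bdl l)

@[simp] lemma cone_sg (a : V) (l : List V) : cone a (sg l) = sg (a :: l) := mp_sg _ _

lemma d_cone (a : V) (x : Ch (List V)) : lin bdl (cone a x) = x + cone a (lin bdl x) :=
  map_eq' (L := lin bdl ∘ₗ cone a) (L' := LinearMap.id + cone a ∘ₗ lin bdl)
    (fun l => by simp [bdl]) x

lemma bdl_bdl (l : List V) : lin bdl (bdl l) = 0 := by
  induction l with
  | nil => simp [bdl]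
  | cons a l ih => rw [bdl, map_add, d_cone, ih, lin_sg, map_zero, add_zero, aa]

lemma bdl_mem (l : List V) : bdl l ∈ sup {c | c.Sublist l ∧ c.length + 1 = l.length} := by
  induction l with
  | nil => exact zero_mem _
  | cons a l ih =>
    refine add_mem (sg_mem ⟨List.sublist_cons_self a l, rfl⟩) (mp_mem (fun c hc => ?_) ih)
    exact ⟨hc.1.cons_cons a, congrArg (· + 1) hc.2⟩

lemma map_cone (g : V → W) (a : V) (x : Ch (List V)) :
    mp (List.map g) (cone a x) = cone (g a) (mp (List.map g) x) := by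
  simp only [cone, mp_mp, List.map_cons]

lemma map_bdl (g : V → W) (l : List V) : mp (List.map g) (bdl l) = bdl (l.map g) := by
  induction l with
  | nil => simp [bdl]
  | cons a l ih => simp [bdl, map_cone, ih]

lemma map_d (g : V → W) (x : Ch (List V)) :
    mp (List.map g) (lin bdl x) = lin bdl (mp (List.map g) x) :=
  map_eq' (L := mp (List.map g) ∘ₗ lin bdl) (L' := lin bdl ∘ₗ mp (List.map g))
    (fun l => by simp [map_bdl]) x

/-- The complex of lists. -/
noncomputable def LC (V : Type) : Cx (List V) where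
  deg := List.length
  d := lin bdl
  b0 := []
  deg_b0 := rfl
  eq_b0 _ h := List.length_eq_zero_iff.1 h
  dd x := map_zero' (L := lin bdl ∘ₗ lin bdl) (fun l _ => by simp [bdl_bdl]) (mem_sup_univ x)
  d_mem l := by rw [lin_sg]; exact sup_mono (fun c hc => hc.2) (bdl_mem l)

lemma cone_gr (a : V) {k : ℕ} {x : Ch (List V)} (hx : x ∈ (LC V).Gr k) :
    cone a x ∈ (LC V).Gr (k + 1) := mp_mem (fun _ hb => congrArg (· + 1) hb) hx

lemma LC_acyc (a : V) : (LC V).Acyc := fun _ x hx h =>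
  ⟨cone a x, cone_gr a hx, (d_cone a x).trans (by rw [show lin bdl x = 0 from h]; simp)⟩

/-- The action on lists. -/
noncomputable def LA (a : H →* Equiv.Perm V) : Act (LC V) H where
  a := { toFun := fun h => ⟨List.map (a h), List.map (a h).symm, fun l => by simp, fun l => by simp⟩
         map_one' := by ext l : 1; simp
         map_mul' := fun g h => by ext l : 1; simp }
  deg_a h l := List.length_map _
  d_a h l := by simpa [LC] using (map_bdl _ l).symm

lemma LA_a (a : H →* Equiv.Perm V) (h : H) (l : List V) : (LA a).a h l = l.map (a h) := rfl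

/-- The standard resolution. -/
noncomputable def std (H : Type) [Group H] : Act (LC H) H := LA (MulAction.toPermHom H H)

lemma std_dom : Dom (std H) Set.univ := by
  refine ⟨trivial, fun _ _ _ => trivial, fun _ _ => mem_sup_univ _, fun h l _ h0 e => ?_⟩
  cases l with
  | nil => exact (h0 rfl).elim
  | cons a l => simpa using List.head_eq_of_cons_eq e

/-- The mod 2 cohomology of every subgroup of `H` vanishes in degree `k - 1`. -/
def CD (H : Type) [Group H] (k : ℕ) : Prop := ∀ S : Subgroup H, ((std H).comp S.subtype).Van k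

lemma CD.van {k : ℕ} (h : CD H k) {ι : K →* H} (hι : Function.Injective ι) {A : Act X K}
    (hD : Dom A Set.univ) (hX : X.Acyc) : A.Van k :=
  Act.Van.transfer hD hX (std_dom.comp hι) (LC_acyc 1)
    ((h ι.range).of_range fun g => ⟨fun ⟨x, e⟩ => e ▸ x.2, fun e => ⟨⟨g, e⟩, rfl⟩⟩)

lemma CD.of_van {k : ℕ} {A : Act X H} (hD : Dom A Set.univ) (hX : X.Acyc)
    (h : ∀ S : Subgroup H, (A.comp S.subtype).Van k) : CD H k := fun S =>
  Act.Van.transfer (std_dom.comp S.subtype_injective) (LC_acyc 1) (hD.comp S.subtype_injective) hX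
    (h S)

lemma CD.inj {k : ℕ} (h : CD H k) {ι : K →* H} (hι : Function.Injective ι) : CD K k := fun S =>
  h.van (hι.comp S.subtype_injective) (ι := ι.comp S.subtype) (std_dom.comp S.subtype_injective)
    (LC_acyc 1)

end Lists

end Pool.Agent.Shared.Mod2
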