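import Pool.Agent.Shared.CookLevin.Machine

/-!
The Cook-Levin theorem for the classes of the Prelude.

* `cook_levin`: every language in `NP` reduces in polynomial time to CNF satisfiability;
* `cook_levin_e3`: the same with target formulas whose clauses have exactly three literals on
  three distinct variables, all smaller than three times the number of clauses.
-/

namespace Pool.Agent.Shared.CookLevin

open Turing Turing.TM2 Function Pool.Agent.Shared.PolyTime N487b59b3

theorem pt_eval {α : Type} [N487b59b3 α] (q : Polynomial ℕ) {g : α → ℕ} (hg : PT g) :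
    PT (fun a => q.eval (g a)) := by
  induction q using Polynomial.induction_on' with
  | add p q hp hq => simpa only [Polynomial.eval_add] using hp.add hq
  | monomial n c =>
    simp only [Polynomial.eval_monomial]
    exact (PT.const c).mul (hg.pow (PT.const n) (PB.const n))

theorem pb_eval {α : Type} [N487b59b3 α] (q : Polynomial ℕ) {g : α → ℕ} (hg : PB g) :
    PB (fun a => q.eval (g a)) := PBe.eval hg q

theorem cook_levin_tv {L : List Bool → Bool} (hL : L ∈ N68a2faeb.NP) :
    ∃ f : List Bool → CNF TV, PT f ∧ ∀ x, (L x = true ↔ Sat (f x)) := by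
  obtain ⟨p, R, ⟨M⟩, hR⟩ := hL
  let _ := M.tm.kFin
  let _ := M.tm.ΛFin
  let _ := M.tm.σFin
  let syms : List (Σ k, M.tm.Γ k) :=
    ((Finset.univ : Finset M.tm.Λ).toList.flatMap fun l => pushes (M.tm.m l)) ++
      [⟨M.tm.k₀, M.inputAlphabet.invFun true⟩, ⟨M.tm.k₀, M.inputAlphabet.invFun false⟩,
        ⟨M.tm.k₁, M.outputAlphabet.invFun true⟩]
  let c : ℕ := ((Finset.univ : Finset M.tm.Λ).sup fun l => bd (M.tm.m l)) + 1
  let D : Data :=
    { rules := rulesOf M.tm.m syms c
      c := c
      s := syms.length + 2 + Fintype.card (Option M.tm.Λ × M.tm.σ)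
      κ := Fintype.card M.tm.K + 1
      q0 := ctl (initList M.tm [])
      r0 := row M.tm.k₀
      r1 := row M.tm.k₁
      iT := code syms M.tm.k₀ (some (M.inputAlphabet.invFun true))
      iF := code syms M.tm.k₀ (some (M.inputAlphabet.invFun false))
      oF := code syms M.tm.k₁ (some (M.outputAlphabet.invFun false)) }
  let P : List Bool → List Bool := fun x => bitEncode (x, ([] : List Bool))
  let Ln : List Bool → ℕ := fun x => p.eval x.length
  let T : List Bool → ℕ := fun x => M.time.eval ((P x).length + 3 * Ln x)
  let N : List Bool → ℕ := fun x => (T x + 1) * c + 1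
  have hP : PT P := by unfold P; fun_prop
  have hLn : PT Ln := pt_eval p (by fun_prop)
  have bLn : PB Ln := pb_eval p (by fun_prop)
  have hT : PT T := pt_eval _ (by fun_prop)
  have bT : PB T := pb_eval _ (by fun_prop)
  have hN : PT N := by unfold N; fun_prop
  have bN : PB N := by unfold N; fun_prop
  refine ⟨fun x => formula D (P x) (Ln x) (T x) (N x), formula_pt D hP hLn hT hN bT bN,
    fun x => ?_⟩
  have henc : ∀ w : List Bool, bitEncode (x, w) = P x ++ encW w := by
    intro w
    simp only [P, enc_pair, enc_nil, List.append_nil, enc_listBool w, encW]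
  have hstk0 : ∀ s, (initList M.tm s).stk M.tm.k₀ = s := fun s => by
    unfold initList; exact dif_pos rfl
  have hstk0' : ∀ s k, k ≠ M.tm.k₀ → (initList M.tm s).stk k = [] := fun s k hk => by
    unfold initList; exact dif_neg hk
  have hstk1 : ∀ s, (haltList M.tm s).stk M.tm.k₁ = s := fun s => by
    unfold haltList; exact dif_pos rfl
  let C0 : List Bool → Cfg M.tm.Γ M.tm.Λ M.tm.σ := fun w =>
    initList M.tm ((P x ++ encW w).map M.inputAlphabet.invFun)
  have key := sat_formula (D := D) (P := P x) (L := Ln x) (T := T x) (N := N x)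
    (fun w t => view syms ((next M.tm.m)^[t] (C0 w))) ?_ ?_ (row_lt _) (Nat.lt_succ_self _)
  · rw [key, hR x]
    refine exists_congr fun w => and_congr_right fun hw => ?_
    have ho := M.outputsFun (x, w)
    have h1 : (N487b59b3.toEncoding (α := List Bool × List Bool)).encode (x, w)
        = P x ++ encW w := henc w
    have hlen : (encW w).length = 3 * w.length := by
      rw [← sz_listBool, sz, enc_listBool]; rfl
    have h2 : ho.steps ≤ T x := by
      refine ho.steps_le_m.trans (eval_mono _ ?_)
      rw [h1, List.length_append, hlen]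
      have : w.length ≤ Ln x := hw
      omega
    have h3 := ho.evals_in_steps
    generalize ho.steps = n at h2 h3
    rw [h1] at h3
    have h4 : (next M.tm.m)^[T x] (C0 w)
        = haltList M.tm [M.outputAlphabet.invFun (R (x, w))] :=
      iterate_next_of_le M.tm.m h2 h3 rfl
    change _ ↔ view syms ((next M.tm.m)^[T x] (C0 w)) (row M.tm.k₁) 0 ≠
      code syms M.tm.k₁ (some (M.outputAlphabet.invFun false))
    rw [h4, view_row, hstk1]
    cases R (x, w)
    · simp
    · simp only [List.getElem?_cons_zero, true_iff]
      intro h5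
      have h6 := code_inj (fun a ha => by
        cases ha
        exact List.mem_append_right _ (by simp)) h5
      have h7 := M.outputAlphabet.symm.injective (Option.some.inj h6)
      simp at h7
  · intro w
    refine isRun M.tm.m (fun l y hy => ?_) (Nat.succ_pos _) (fun l => ?_) rfl rfl rfl _ ?_
    · exact List.mem_append_left _ (List.mem_flatMap.2 ⟨l, by simp, hy⟩)
    · exact (Finset.le_sup (f := fun l => bd (M.tm.m l)) (Finset.mem_univ l)).trans
        (Nat.le_succ _)
    · intro k a ha
      by_cases hk : k = M.tm.k₀
      · subst hk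
        rw [hstk0] at ha
        obtain ⟨b, -, rfl⟩ := List.mem_map.1 ha
        cases b <;> exact List.mem_append_right _ (by simp)
      · rw [hstk0' _ _ hk] at ha
        simp at ha
  · intro w
    funext k j
    change view syms (C0 w) k j = _
    unfold init
    by_cases hk : k = D.r0
    · rw [if_pos hk, hk]
      change view syms (C0 w) (row M.tm.k₀) j = _
      rw [view_row, hstk0, List.getElem?_map]
      cases (P x ++ encW w)[j]? with
      | none => rfl
      | some b => cases b <;> rfl
    · rw [if_neg hk]
      by_cases h0 : k = 0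
      · subst h0
        rw [view_zero, zero_add]
        rfl
      · rw [if_neg (by omega)]
        rcases Nat.lt_or_ge k (Fintype.card M.tm.K + 1) with h1 | h1
        · obtain ⟨k', rfl⟩ := exists_row (K := M.tm.K) h0 h1
          rw [view_row, hstk0' _ _ (fun h => hk (by rw [h]))]
          rfl
        · unfold view
          rw [dif_neg (by omega), if_neg (by omega)]

/-- **Cook-Levin**: every language in `NP` reduces to CNF satisfiability. -/
theorem cook_levin {L : List Bool → Bool} (hL : L ∈ N68a2faeb.NP) :
    ∃ f : List Bool → CNF ℕ, PT f ∧ ∀ x, (L x = true ↔ Sat (f x)) := by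
  obtain ⟨f, hf, h⟩ := cook_levin_tv hL
  exact ⟨fun x => rename (f x), rename_pt hf, fun x => (h x).trans (sat_rename _).symm⟩

/-- **Cook-Levin**, target: clauses with exactly three literals on distinct small variables. -/
theorem cook_levin_e3 {L : List Bool → Bool} (hL : L ∈ N68a2faeb.NP) :
    ∃ f : List Bool → E3 ℕ, PT f ∧ ∀ x, Distinct3 (f x) ∧
      (∀ C ∈ f x, C.1.2 < 3 * (f x).length ∧ C.2.1.2 < 3 * (f x).length ∧
        C.2.2.2 < 3 * (f x).length) ∧ (L x = true ↔ Sat3 (f x)) := by
  obtain ⟨f, hf, h⟩ := cook_levin hL
  refine ⟨fun x => rename3 (toE3 (f x)), rename3_pt (toE3_pt hf), fun x =>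
    ⟨distinct3_rename3 (distinct3_toE3 _), lt_rename3 _, ?_⟩⟩
  rw [h x, sat3_rename3, sat3_toE3]

end Pool.Agent.Shared.CookLevin
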