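import Mathlib

/-!
Stickelberger's theorem on the prime factorisation of Gauss sums.
-/

namespace Pool.Agent.Shared.Stickelberger

open Finset

section

variable {F : Type*} [Field F] [Fintype F] {R : Type*} [CommRing R] [IsDomain R]

/-- every nontrivial additive character is `x ↦ ζ ^ Tr (c x)`. -/
theorem exists_trace_form (p f : ℕ) [hp : Fact p.Prime] [CharP F p]
    (hq : Fintype.card F = p ^ f) (ψ : AddChar F R) (hψ : ψ ≠ 1) :
    ∃ (ζ : R) (h : F → ℕ) (c : F), IsPrimitiveRoot ζ p ∧ c ≠ 0 ∧ (∀ x, ψ x = ζ ^ h x) ∧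
      ∀ x, (h x : F) = ∑ j ∈ range f, (c * x) ^ p ^ j := by
  classical
  have : NeZero p := ⟨hp.out.ne_zero⟩
  have hpow : ∀ x, ψ x ^ p = 1 := by
    intro x
    rw [← AddChar.map_nsmul_eq_pow, nsmul_eq_mul, CharP.cast_eq_zero, zero_mul,
      AddChar.map_zero_eq_one]
  obtain ⟨x0, hx0⟩ := AddChar.ne_one_iff.1 hψ
  have hζ : IsPrimitiveRoot (ψ x0) p := by
    have := IsPrimitiveRoot.orderOf (ψ x0)
    rwa [orderOf_eq_prime (hpow x0) hx0] at this
  choose h hlt hh using fun x => hζ.eq_pow_of_pow_eq_one (hpow x)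
  have hmod : ∀ a b : ℕ, ψ x0 ^ a = ψ x0 ^ b → (a : ZMod p) = b := by
    intro a b hab
    rw [ZMod.natCast_eq_natCast_iff, hζ.eq_orderOf]
    exact (hζ.isOfFinOrder hp.out.ne_zero).pow_inj_mod.1 hab
  let _ : Algebra (ZMod p) F := ZMod.algebra F p
  let H : F →+ ZMod p :=
    { toFun := fun x => (h x : ZMod p)
      map_zero' := by
        have := hmod (h 0) 0 (by rw [hh, AddChar.map_zero_eq_one, pow_zero])
        simpa using this
      map_add' := fun x y => by
        have := hmod (h (x + y)) (h x + h y) (by rw [pow_add, hh, hh, hh, AddChar.map_add_eq_mul])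
        simpa using this }
  let c : F := ((Algebra.traceForm (ZMod p) F).toDual
    (traceForm_nondegenerate (ZMod p) F)).symm (H.toZModLinearMap p)
  have hc : ∀ x, Algebra.trace (ZMod p) F (c * x) = (h x : ZMod p) := fun x =>
    LinearMap.BilinForm.apply_toDual_symm_apply (B := Algebra.traceForm (ZMod p) F) _ x
  have hf : Module.finrank (ZMod p) F = f := by
    have := Module.card_eq_pow_finrank (K := ZMod p) (V := F)
    rw [ZMod.card, hq] at this
    exact (Nat.pow_right_injective hp.out.two_le this).symm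
  refine ⟨ψ x0, h, c, hζ, ?_, fun x => (hh x).symm, fun x => ?_⟩
  · intro h0
    have h1 := hc x0
    rw [h0, zero_mul, map_zero, eq_comm, ZMod.natCast_eq_zero_iff] at h1
    have h2 := (hζ.pow_eq_one_iff_dvd _).2 h1
    rw [hh] at h2
    exact hx0 h2
  · have := FiniteField.algebraMap_trace_eq_sum_pow (ZMod p) F (c * x)
    rw [hc, hf, map_natCast, Nat.card_zmod] at this
    exact this

theorem sum_shift (p f : ℕ) (hq : Fintype.card F = p ^ f) (y : F) :
    ∑ j ∈ range f, (y ^ p) ^ p ^ j = ∑ j ∈ range f, y ^ p ^ j := by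
  have h1 := sum_range_succ (fun j => y ^ p ^ j) f
  have h2 := sum_range_succ' (fun j => y ^ p ^ j) f
  rw [h1, ← hq, FiniteField.pow_card, pow_zero, pow_one, add_left_inj] at h2
  rw [h2]
  refine sum_congr rfl fun j _ => ?_
  rw [← pow_mul, pow_succ']

theorem gauss_frob (p f : ℕ) [hp : Fact p.Prime] [CharP F p]
    (hq : Fintype.card F = p ^ f) (ψ : AddChar F R) (hψ : ψ ≠ 1) (χ : MulChar F R) :
    Associated (gaussSum (χ ^ p) ψ) (gaussSum χ ψ) := by
  obtain ⟨ζ, h, c, hζ, hc, h1, h2⟩ := exists_trace_form p f hq ψ hψ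
  have e : ∀ x, ψ (c ^ (p - 1) * x ^ p) = ψ x := by
    intro x
    have : (h (c ^ (p - 1) * x ^ p) : F) = h x := by
      rw [h2, h2, ← mul_assoc, ← pow_succ', Nat.sub_add_cancel hp.out.one_le, ← mul_pow,
        sum_shift p f hq]
    rw [CharP.natCast_eq_natCast F p] at this
    rw [h1, h1, pow_eq_pow_mod _ hζ.pow_eq_one, this, ← pow_eq_pow_mod _ hζ.pow_eq_one]
  have e2 : gaussSum (χ ^ p) ψ = gaussSum χ (ψ.mulShift (Units.mk0 (c ^ (p - 1))
      (pow_ne_zero _ hc))) := by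
    simp only [gaussSum, AddChar.mulShift_apply, Units.val_mk0]
    refine Fintype.sum_bijective (frobenius F p) (bijective_frobenius F p) _ _ fun x => ?_
    rw [frobenius_def, e, MulChar.pow_apply' _ hp.out.ne_zero, map_pow]
  rw [e2, ← gaussSum_mulShift χ ψ (Units.mk0 (c ^ (p - 1)) (pow_ne_zero _ hc))]
  exact (associated_unit_mul_left _ _ ((Units.isUnit _).map χ)).symm

theorem gauss_dvd (ψ : AddChar F R) (hψ : ψ ≠ 1) (χ φ : MulChar F R) :
    gaussSum (χ * φ) ψ ∣ gaussSum χ ψ * gaussSum φ ψ := by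
  rcases eq_or_ne (χ * φ) 1 with h | h
  · rw [h, gaussSum_one_left hψ]
    exact (isUnit_one.neg).dvd
  · exact ⟨_, (jacobiSum_mul_nontrivial h ψ).symm⟩

theorem gauss_compl (ψ : AddChar F R) (hψ : ψ ≠ 1) (χ : MulChar F R) (hχ : χ ≠ 1) :
    Associated (gaussSum χ ψ * gaussSum χ⁻¹ ψ) (Fintype.card F : R) := by
  rw [← gaussSum_mul_gaussSum_eq_card hχ (AddChar.IsPrimitive.of_ne_one hψ),
    ← mul_gaussSum_inv_eq_gaussSum χ⁻¹ ψ]
  exact Associated.mul_left _ (associated_unit_mul_left _ _ (isUnit_one.neg.map χ⁻¹))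

/-- Stickelberger's congruence for the inverse Teichmüller character. -/
theorem gauss_base (p f : ℕ) [hp : Fact p.Prime] [CharP F p]
    (hq : Fintype.card F = p ^ f) (ψ : AddChar F R) (hψ : ψ ≠ 1) {k : Type*} [Field k]
    (ρ : R →+* k) (hρ : ∀ x, ρ x ≠ 0 → IsUnit x) (ι : F →+* k) (ω : MulChar F R)
    (hω : ∀ x, ρ (ω x) = (ι x)⁻¹) : gaussSum ω ψ ^ (p - 1) ∣ (p : R) := by
  classical
  rcases eq_or_ne ω 1 with rfl | hω1
  · rw [gaussSum_one_left hψ]
    exact (isUnit_one.neg.pow _).dvd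
  obtain ⟨ζ, h, c, hζ, hc, h1, h2⟩ := exists_trace_form p f hq ψ hψ
  have : CharP k p := (ι.charP_iff_charP p).1 inferInstance
  have hρζ : ρ ζ = 1 := by
    have h3 : (ρ ζ - 1) ^ p = 0 := by
      rw [sub_pow_char, ← map_pow, hζ.pow_eq_one, map_one, one_pow, sub_self]
    exact sub_eq_zero.1 (pow_eq_zero_iff hp.out.ne_zero |>.1 h3)
  have hq2 : 2 < p ^ f := by
    rw [← hq]
    by_contra hle
    apply hω1
    have h3 : Fintype.card F - 1 = 1 := by
      have := Fintype.one_lt_card (α := F)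
      omega
    have := ω.orderOf_dvd_card_sub_one
    rwa [h3, Nat.dvd_one, orderOf_eq_one_iff] at this
  have hf : 0 < f := by
    rcases Nat.eq_zero_or_pos f with rfl | h
    · simp at hq2
    · exact h
  have e1 : gaussSum ω ψ = (ζ - 1) * ∑ x, ω x * ∑ i ∈ range (h x), ζ ^ i := by
    rw [mul_sum]
    have h0 := ω.sum_eq_zero_of_ne_one hω1
    rw [gaussSum, ← sub_zero (∑ a, ω a * ψ a), ← h0, ← sum_sub_distrib]
    refine sum_congr rfl fun x _ => ?_
    rw [mul_left_comm, mul_geom_sum, h1]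
    ring
  have e2 : ρ (∑ x, ω x * ∑ i ∈ range (h x), ζ ^ i) = ι (-c) := by
    have e3 : ∑ x : F, x⁻¹ * (h x : F) = -c := by
      simp only [h2, mul_sum]
      rw [sum_comm]
      obtain ⟨g, rfl⟩ := Nat.exists_eq_succ_of_ne_zero hf.ne'
      rw [sum_range_succ', sum_eq_zero, zero_add]
      · simp only [pow_zero, pow_one]
        rw [← add_sum_erase _ _ (mem_univ 0), inv_zero, zero_mul, zero_add,
          sum_congr rfl (g := fun _ => c), sum_const, card_erase_of_mem (mem_univ _), card_univ,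
          nsmul_eq_mul, Nat.cast_sub Fintype.card_pos, FiniteField.cast_card_eq_zero]
        · simp
        · intro x hx
          have := ne_of_mem_erase hx
          field_simp
      · intro j hj
        have hj' : p ^ (j + 1) < p ^ (g + 1) :=
          Nat.pow_lt_pow_right hp.out.one_lt (by simpa using hj)
        have h1j : 1 < p ^ (j + 1) := Nat.one_lt_pow (by omega) hp.out.one_lt
        have := FiniteField.sum_pow_lt_card_sub_one (K := F) (p ^ (j + 1) - 1) (by rw [hq, Nat.succ_eq_add_one]; omega)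
        rw [← mul_zero (c ^ p ^ (j + 1)), ← this, mul_sum]
        refine sum_congr rfl fun x _ => ?_
        rcases eq_or_ne x 0 with rfl | hx
        · rw [zero_pow (by omega)]; simp
        · rw [mul_pow, pow_sub₀ _ hx h1j.le]; ring
    rw [← e3]
    simp only [map_sum, map_mul, hω, map_pow, hρζ, one_pow, sum_const, card_range, nsmul_eq_mul,
      mul_one, map_inv₀, map_natCast]
  have e4 : IsUnit (∑ x, ω x * ∑ i ∈ range (h x), ζ ^ i) := by
    apply hρ
    rw [e2]
    exact (map_ne_zero ι).2 (neg_ne_zero.2 hc)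
  rw [e1, mul_pow, (e4.pow _).mul_right_dvd]
  obtain ⟨n, hn⟩ := Nat.exists_eq_succ_of_ne_zero hp.out.ne_zero
  have hζ' : IsPrimitiveRoot ζ (n + 1) := by rwa [hn] at hζ
  have e5 := hζ'.prod_pow_sub_one_eq_order
  have e6 : (ζ - 1) ^ n ∣ ∏ k ∈ range n, (ζ ^ (k + 1) - 1) := by
    rw [← card_range n, ← prod_const, card_range]
    exact prod_dvd_prod_of_dvd _ _ fun i _ => sub_one_dvd_pow_sub_one ζ (i + 1)
  have e7 : (p : R) = n + 1 := by rw [hn]; push_cast; rfl
  have e8 : p - 1 = n := by omega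
  rw [e7, e8, ← e5]
  exact e6.mul_left _

/-- the arithmetic step: no carry when the last digit is nonzero. -/
theorem mod_step (p f n i : ℕ) (hp : 1 < p) (hi : i < f) (hn : n + 1 < p ^ f - 1)
    (hpn : ¬ p ∣ n + 1) :
    p ^ i * n % (p ^ f - 1) + p ^ i ≤ p ^ i * (n + 1) % (p ^ f - 1) := by
  obtain ⟨d, rfl⟩ := Nat.exists_eq_add_of_lt hi
  set A := p ^ i with hA
  set B := p ^ (d + 1) with hB
  have hAB : p ^ (i + d + 1) = A * B := by rw [hA, hB, ← pow_add, add_assoc]
  rw [hAB] at hn ⊢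
  have hA0 : 0 < A := by positivity
  have hB0 : 0 < B := by positivity
  obtain ⟨u, v, hv, huv⟩ : ∃ u v, v < B ∧ n = B * u + v :=
    ⟨n / B, n % B, Nat.mod_lt _ hB0, (Nat.div_add_mod n B).symm⟩
  have hv1 : v + 1 < B := by
    refine lt_of_le_of_ne hv fun h => hpn ?_
    rw [huv, add_assoc, h, hB]
    exact Dvd.dvd.add (Dvd.dvd.mul_right (dvd_pow_self p (by omega)) _) (dvd_pow_self p (by omega))
  have hu : u < A := by
    by_contra h
    have : B * A ≤ B * u := Nat.mul_le_mul_left _ (not_lt.1 h)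
    rw [mul_comm B A] at this
    omega
  obtain ⟨M, hM⟩ : ∃ M, A * B = M + 1 := ⟨A * B - 1, by omega⟩
  rw [hM, Nat.add_sub_cancel] at hn ⊢
  have e1 : A * n = (u + A * v) + M * u := by
    rw [huv, mul_add, ← mul_assoc, hM]; ring
  have e2 : A * (n + 1) = (u + A * (v + 1)) + M * u := by
    rw [mul_add, e1]; ring
  have l2 : u + A * (v + 1) < M := by
    have h1 : A * (v + 1) + A ≤ A * B := by
      rw [← mul_add_one]; exact Nat.mul_le_mul_left _ hv1
    rcases lt_or_eq_of_le h1 with h | h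
    · omega
    · have h2 : v + 1 + 1 = B := by
        rw [← mul_add_one] at h
        exact Nat.eq_of_mul_eq_mul_left hA0 h
      refine lt_of_le_of_ne (by omega) fun h3 => ?_
      have h4 : u + 1 = A := by omega
      have h5 : B * (u + 1) = M + 1 := by rw [h4, mul_comm, hM]
      rw [mul_add_one] at h5
      omega
  rw [e1, e2, Nat.add_mul_mod_self_left, Nat.add_mul_mod_self_left, Nat.mod_eq_of_lt l2,
    Nat.mod_eq_of_lt (by rw [mul_add_one] at l2; omega), mul_add_one]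
  omega

theorem sum_mod_shift (p f M n : ℕ) (hM : p ^ f ≡ 1 [MOD M]) :
    ∑ i ∈ range f, p ^ i * (p * n) % M = ∑ i ∈ range f, p ^ i * n % M := by
  have h1 := sum_range_succ (fun i => p ^ i * n % M) f
  have h2 := sum_range_succ' (fun i => p ^ i * n % M) f
  have h3 : p ^ f * n % M = p ^ 0 * n % M := by
    rw [pow_zero]; exact hM.mul_right n
  rw [h1, h3, add_left_inj] at h2
  rw [h2]
  refine sum_congr rfl fun j _ => ?_
  rw [pow_succ, mul_assoc]

theorem gauss_bound (p f : ℕ) [hp : Fact p.Prime] [CharP F p]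
    (hq : Fintype.card F = p ^ f) (ψ : AddChar F R) (hψ : ψ ≠ 1) (ω : MulChar F R)
    (hω : gaussSum ω ψ ^ (p - 1) ∣ (p : R)) (n : ℕ) (hn : n < p ^ f - 1) :
    gaussSum (ω ^ n) ψ ^ (p ^ f - 1) ∣ (p : R) ^ (∑ i ∈ range f, p ^ i * n % (p ^ f - 1)) := by
  have hq1 : 1 ≤ p ^ f := Nat.one_le_pow _ _ hp.out.pos
  induction n using Nat.strong_induction_on with
  | _ n ih =>
  rcases n with _ | n
  · rw [pow_zero, gaussSum_one_left hψ]
    exact (isUnit_one.neg.pow _).dvd
  by_cases hpn : p ∣ n + 1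
  · obtain ⟨n', hn'⟩ := hpn
    have hlt : n' < n + 1 := by
      have := hp.out.two_le
      rcases Nat.eq_zero_or_pos n' with rfl | h
      · omega
      · nlinarith
    rw [hn', sum_mod_shift p f _ n' ((Nat.modEq_iff_dvd' hq1).2 dvd_rfl).symm, mul_comm p, pow_mul]
    exact ((gauss_frob p f hq ψ hψ _).pow_pow).dvd.trans (ih n' hlt (by omega))
  · have h1 := ih n (by omega) (by omega)
    have h2 : gaussSum ω ψ ^ (p ^ f - 1) ∣ (p : R) ^ (∑ i ∈ range f, p ^ i) := by
      have : p ^ f - 1 = (p - 1) * ∑ i ∈ range f, p ^ i := by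
        rw [mul_comm]; exact (geom_sum_mul_of_one_le hp.out.one_le f).symm
      rw [this, pow_mul]
      exact pow_dvd_pow_of_dvd hω _
    rw [pow_succ]
    refine (pow_dvd_pow_of_dvd (gauss_dvd ψ hψ _ _) _).trans ?_
    rw [mul_pow]
    refine (mul_dvd_mul h1 h2).trans ?_
    rw [← pow_add, ← sum_add_distrib]
    exact pow_dvd_pow _ (sum_le_sum fun i hi =>
      mod_step p f n i hp.out.one_lt (mem_range.1 hi) hn hpn)

theorem mod_compl (M a b : ℕ) (hab : M ∣ a + b) (ha : ¬ M ∣ a) : a % M + b % M = M := by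
  rcases Nat.eq_zero_or_pos M with rfl | hM
  · simpa using hab
  have h1 := Nat.mod_lt a hM
  have h2 := Nat.mod_lt b hM
  have h3 : a % M ≠ 0 := fun h => ha (Nat.dvd_of_mod_eq_zero h)
  have h4 : M ∣ a % M + b % M := by
    rw [Nat.dvd_iff_mod_eq_zero, ← Nat.add_mod]
    exact Nat.mod_eq_zero_of_dvd hab
  obtain ⟨c, hc⟩ := h4
  have : c = 1 := by
    rcases c with _ | _ | c
    · omega
    · rfl
    · nlinarith
  rw [hc, this, mul_one]

/-- Stickelberger's theorem for powers of the inverse Teichmüller character. -/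
theorem gauss_associated (p f : ℕ) [hp : Fact p.Prime] [CharP F p] (hp0 : (p : R) ≠ 0)
    (hq : Fintype.card F = p ^ f) (ψ : AddChar F R) (hψ : ψ ≠ 1) (ω : MulChar F R)
    (hω : gaussSum ω ψ ^ (p - 1) ∣ (p : R)) (ho : orderOf ω = p ^ f - 1) (n : ℕ)
    (hn : ¬ p ^ f - 1 ∣ n) :
    Associated (gaussSum (ω ^ n) ψ ^ (p ^ f - 1))
      ((p : R) ^ (∑ i ∈ range f, p ^ i * n % (p ^ f - 1))) := by
  set M := p ^ f - 1 with hM
  have hq1 : 1 < p ^ f := hq ▸ Fintype.one_lt_card
  have hM0 : 0 < M := by omega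
  have hr : n % M < M := Nat.mod_lt _ hM0
  have hr0 : n % M ≠ 0 := fun h => hn (Nat.dvd_of_mod_eq_zero h)
  have e0 : ω ^ n = ω ^ (n % M) := by rw [← ho, pow_mod_orderOf]
  have e1 : ∀ i, p ^ i * n % M = p ^ i * (n % M) % M := fun i => by
    rw [Nat.mul_mod_mod]
  simp only [e0, e1]
  generalize n % M = r at hr hr0
  have h1 := gauss_bound p f hq ψ hψ ω hω r hr
  have h2 := gauss_bound p f hq ψ hψ ω hω (M - r) (by omega)
  have e2 : ω ^ (M - r) = (ω ^ r)⁻¹ := by
    rw [eq_inv_iff_mul_eq_one, ← pow_add, Nat.sub_add_cancel hr.le, ← ho, pow_orderOf_eq_one]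
  have hne : ω ^ r ≠ 1 := pow_ne_one_of_lt_orderOf hr0 (ho ▸ hr)
  have h3 := (gauss_compl ψ hψ _ hne).pow_pow (n := M)
  rw [← e2, mul_pow, hq, Nat.cast_pow, ← pow_mul] at h3
  have hf : f ≠ 0 := by rintro rfl; simp at hq1
  have hcop : Nat.Coprime M p := by
    have : Nat.Coprime M (p ^ f) := by
      rw [hM]; exact (Nat.coprime_self_sub_left hq1.le).2 (by simp)
    exact Nat.Coprime.coprime_dvd_right (dvd_pow_self p hf) this
  have e3 : f * M = ∑ i ∈ range f, p ^ i * r % M + ∑ i ∈ range f, p ^ i * (M - r) % M := by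
    rw [← sum_add_distrib, sum_congr rfl (g := fun _ => M), sum_const, card_range, smul_eq_mul]
    intro i _
    apply mod_compl
    · rw [← mul_add, Nat.add_sub_cancel' hr.le]; exact dvd_mul_left _ _
    · intro h
      exact hr0 (Nat.eq_zero_of_dvd_of_lt ((hcop.pow_right i).dvd_of_dvd_mul_left h) hr)
  rw [e3, pow_add] at h3
  refine associated_of_dvd_dvd h1 ?_
  obtain ⟨d, hd⟩ := h2
  have hy : gaussSum (ω ^ (M - r)) ψ ^ M ≠ 0 := by
    intro h
    rw [← hM, h, zero_mul] at hd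
    exact pow_ne_zero _ hp0 hd
  have h4 := h3.symm.dvd
  rw [← hM] at hd
  rw [hd, mul_left_comm, mul_comm (gaussSum (ω ^ r) ψ ^ M), mul_dvd_mul_iff_left hy] at h4
  exact (dvd_mul_right _ _).trans h4

theorem exists_teich {k : Type*} [Field k] (ρ : R →+* k) (ι : F →+* k) (η : R)
    (hη : IsPrimitiveRoot η (Fintype.card F - 1)) :
    ∃ ω : MulChar F R, (∀ x, ρ (ω x) = (ι x)⁻¹) ∧ orderOf ω = Fintype.card F - 1 ∧
      ∀ χ : MulChar F R, ∃ r : ℕ, χ = ω ^ r := by
  classical
  obtain ⟨n, hn⟩ : ∃ n, Fintype.card F - 1 = n + 1 :=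
    ⟨Fintype.card F - 2, by have := Fintype.one_lt_card (α := F); omega⟩
  have hcu : Fintype.card Fˣ = n + 1 := by rw [Fintype.card_units, hn]
  rw [hn] at hη ⊢
  have hρη : IsPrimitiveRoot (ρ η) (n + 1) := by
    refine IsPrimitiveRoot.mk_of_lt _ (by omega) (by rw [← map_pow, hη.pow_eq_one, map_one]) ?_
    intro l hl0 hl h
    have h1 := congrArg ρ hη.prod_one_sub_pow_eq_order
    rw [map_prod, prod_eq_zero (i := l - 1) (mem_range.2 (by omega))
      (by rw [Nat.sub_add_cancel hl0, map_sub, map_one, map_pow, h, sub_self])] at h1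
    have h2 : ((n + 1 : ℕ) : F) = -1 := by
      rw [← hn, Nat.cast_sub Fintype.card_pos, FiniteField.cast_card_eq_zero]; simp
    have h3 := congrArg ι h2
    rw [map_natCast, map_neg, map_one] at h3
    rw [map_add, map_natCast, map_one] at h1
    push_cast at h3
    rw [h3] at h1
    exact one_ne_zero (neg_eq_zero.1 h1.symm)
  obtain ⟨g, hg⟩ := IsCyclic.exists_generator (α := Fˣ)
  have hgo : IsPrimitiveRoot (ι g)⁻¹ (n + 1) := by
    have h1 := IsPrimitiveRoot.orderOf g
    rw [orderOf_eq_card_of_forall_mem_zpowers hg, Nat.card_eq_fintype_card, hcu] at h1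
    exact ((IsPrimitiveRoot.coe_units_iff.2 h1).map_of_injective ι.injective).inv
  obtain ⟨c, -, hc⟩ := hρη.eq_pow_of_pow_eq_one hgo.pow_eq_one
  have hu : IsUnit η := hη.isUnit (by omega)
  have hmem : hu.unit ^ c ∈ rootsOfUnity (Fintype.card Fˣ) R := by
    rw [mem_rootsOfUnity, hcu, ← pow_mul, mul_comm, pow_mul]
    have : hu.unit ^ (n + 1) = 1 := Units.ext (by simpa using hη.pow_eq_one)
    rw [this, one_pow]
  set ω := MulChar.ofRootOfUnity hmem hg with hω
  have hωg : ω g = η ^ c := by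
    rw [hω, MulChar.ofRootOfUnity_spec]; simp
  have hprim : IsPrimitiveRoot (ω g) (n + 1) := by
    refine ⟨by rw [hωg, ← pow_mul, mul_comm, pow_mul, hη.pow_eq_one, one_pow], fun l hl => ?_⟩
    apply hgo.dvd_of_pow_eq_one
    rw [← hc, ← map_pow, ← hωg, ← map_pow, hl, map_one]
  refine ⟨ω, fun x => ?_, ?_, fun χ => ?_⟩
  · rcases eq_or_ne x 0 with rfl | hx
    · rw [MulChar.map_zero]; simp
    · obtain ⟨j, hj⟩ := (mem_powers_iff_mem_zpowers.2 (hg (Units.mk0 x hx)))
      have : x = (g : F) ^ j := by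
        have := congrArg Units.val hj
        simpa using this.symm
      rw [this, map_pow, map_pow, map_pow, hωg, map_pow, hc, inv_pow]
  · refine Nat.dvd_antisymm (hn ▸ ω.orderOf_dvd_card_sub_one) ?_
    apply hprim.dvd_of_pow_eq_one
    rw [← MulChar.pow_apply_coe, pow_orderOf_eq_one, MulChar.one_apply_coe]
  · have : χ g ^ (n + 1) = 1 := by
      rw [← map_pow, ← Units.val_pow_eq_pow_val, ← hcu, pow_card_eq_one, Units.val_one, map_one]
    obtain ⟨r, -, hr⟩ := hprim.eq_pow_of_pow_eq_one this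
    exact ⟨r, (MulChar.eq_iff hg _ _).2 (by rw [MulChar.pow_apply_coe, hr])⟩

/-- Stickelberger's theorem in a local domain. -/
theorem stickelberger_local (p f : ℕ) [hp : Fact p.Prime] [CharP F p] [IsLocalRing R]
    (hp0 : (p : R) ≠ 0) (hpu : ¬ IsUnit (p : R)) (hq : Fintype.card F = p ^ f) (η : R)
    (hη : IsPrimitiveRoot η (Fintype.card F - 1)) (χ : MulChar F R) :
    ∃ c d : ℕ, c.Coprime (orderOf χ) ∧ p ^ f - 1 = d * orderOf χ ∧
      ∀ (ψ : AddChar F R), ψ ≠ 1 → ∀ a : ℕ, ¬ orderOf χ ∣ a →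
        Associated (gaussSum (χ ^ a) ψ ^ (p ^ f - 1))
          ((p : R) ^ (d * ∑ i ∈ range f, p ^ i * (c * a) % orderOf χ)) := by
  let k := AlgebraicClosure (IsLocalRing.ResidueField R)
  let ρ : R →+* k := (algebraMap (IsLocalRing.ResidueField R) k).comp (IsLocalRing.residue R)
  have hρ : ∀ x, ρ x ≠ 0 → IsUnit x := by
    intro x hx
    by_contra h
    apply hx
    have : IsLocalRing.residue R x = 0 := (IsLocalRing.residue_eq_zero_iff _).2 h
    simp [ρ, this]
  have hpk : (p : k) = 0 := by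
    by_contra h
    exact hpu (hρ _ (by rwa [map_natCast]))
  have : CharP k p := (CharP.charP_iff_prime_eq_zero hp.out).2 hpk
  let _ : Algebra (ZMod p) F := ZMod.algebra F p
  let _ : Algebra (ZMod p) k := ZMod.algebra k p
  let ι : F →ₐ[ZMod p] k := IsAlgClosed.lift
  obtain ⟨ω, h1, h2, h3⟩ := exists_teich ρ (ι : F →+* k) η hη
  obtain ⟨r, rfl⟩ := h3 χ
  rw [hq] at h2
  have hq1 : 1 < p ^ f := hq ▸ Fintype.one_lt_card
  set M := p ^ f - 1 with hM
  have hM0 : 0 < M := by omega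
  have ho : orderOf (ω ^ r) = M / M.gcd r := by
    rw [(orderOf_pos_iff.1 (h2 ▸ hM0)).orderOf_pow, h2]
  have hg0 : 0 < M.gcd r := Nat.gcd_pos_of_pos_left _ hM0
  have e1 : M = M.gcd r * (M / M.gcd r) := (Nat.mul_div_cancel' (Nat.gcd_dvd_left _ _)).symm
  have e2 : r = M.gcd r * (r / M.gcd r) := (Nat.mul_div_cancel' (Nat.gcd_dvd_right _ _)).symm
  have e3 := (Nat.coprime_div_gcd_div_gcd hg0).symm
  rw [ho]
  generalize M / M.gcd r = m at *
  generalize r / M.gcd r = c at *
  generalize M.gcd r = d at *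
  refine ⟨c, d, e3, e1, fun ψ hψ a ha => ?_⟩
  have hb := gauss_base p f hq ψ hψ ρ hρ (ι : F →+* k) ω h1
  have := gauss_associated p f hp0 hq ψ hψ ω hb h2 (r * a) (by
    rw [← hM, e1, e2, mul_assoc, Nat.mul_dvd_mul_iff_left hg0]
    exact fun h => ha (e3.symm.dvd_of_dvd_mul_left h))
  rw [← pow_mul, mul_sum]
  rw [← hM] at this
  have e4 : ∀ i, p ^ i * (r * a) % M = d * (p ^ i * (c * a) % m) := by
    intro i
    rw [e1, e2, ← Nat.mul_mod_mul_left]
    congr 1
    ring
  simpa only [e4] using this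

omit [IsDomain R] in
theorem gauss_pow_eq [DecidableEq F] (χ : MulChar F R) (ψ : AddChar F R) (a : ℕ) :
    gaussSum (χ ^ a) ψ = ∑ x ∈ univ.erase 0, χ x ^ a * ψ x := by
  rw [gaussSum, ← add_sum_erase _ _ (mem_univ 0), MulChar.map_zero, zero_mul, zero_add]
  refine sum_congr rfl fun x hx => ?_
  exact congrArg (· * ψ x) (MulChar.pow_apply_coe χ a (Units.mk0 x (ne_of_mem_erase hx)))

omit [IsDomain R] in
theorem gauss_map {S : Type*} [CommRing S] (φ : R →+* S) (χ : MulChar F R) (ψ : AddChar F R)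
    (χ' : MulChar F S) (ψ' : AddChar F S) (h1 : ∀ x, χ' x = φ (χ x)) (h2 : ∀ x, ψ' x = φ (ψ x))
    (a : ℕ) : gaussSum (χ' ^ a) ψ' = φ (gaussSum (χ ^ a) ψ) := by
  classical
  simp only [gauss_pow_eq, map_sum, map_mul, map_pow, h1, h2]

omit [IsDomain R] [Fintype F] in
theorem orderOf_map {S : Type*} [CommRing S] (φ : R →+* S) (hφ : Function.Injective φ)
    (χ : MulChar F R) (χ' : MulChar F S) (h1 : ∀ x, χ' x = φ (χ x)) :
    orderOf χ' = orderOf χ := by
  rw [orderOf_eq_orderOf_iff]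
  intro n
  simp only [MulChar.ext_iff, MulChar.pow_apply_coe, MulChar.one_apply_coe, h1, ← map_pow]
  refine forall_congr' fun x => ?_
  rw [← map_one φ, hφ.eq_iff]

end

section

variable {F : Type*} [Field F] [Fintype F] {K : Type*} [Field K] [CharZero K]

open Polynomial in
/-- Galois conjugation of a multiplicative identity between Gauss sums. -/
theorem gauss_conj {I : Type*} (s : Finset I) (a : I → ℕ) (N Q M : ℕ) [NeZero M] (ζ : K)
    (hζ : IsPrimitiveRoot ζ M) (χ : MulChar F K) (ψ : AddChar F K)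
    (hχ : ∀ x, x ≠ 0 → χ x ^ M = 1) (hψ : ∀ x, ψ x ^ M = 1) (u : ℕ) (hu : u.Coprime M)
    (h : (∏ i ∈ s, gaussSum (χ ^ a i) ψ) ^ N = Q) :
    (∏ i ∈ s, gaussSum (χ ^ (u * a i)) (ψ ^ u)) ^ N = Q := by
  classical
  choose! e he using fun x (hx : x ≠ 0) => hζ.eq_pow_of_pow_eq_one (hχ x hx)
  choose b hb using fun x => hζ.eq_pow_of_pow_eq_one (hψ x)
  set P : ℤ[X] := (∏ i ∈ s, ∑ x ∈ univ.erase (0 : F), X ^ (e x * a i + b x)) ^ N - (Q : ℤ[X])
    with hP
  have key : ∀ v : ℕ, aeval (ζ ^ v) P =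
      (∏ i ∈ s, gaussSum (χ ^ (v * a i)) (ψ ^ v)) ^ N - Q := by
    intro v
    simp only [hP, map_sub, map_pow, map_prod, map_sum, aeval_X, map_natCast, gauss_pow_eq]
    congr 2
    refine prod_congr rfl fun i _ => sum_congr rfl fun x hx => ?_
    rw [AddChar.pow_apply, ← (he x (ne_of_mem_erase hx)).2, ← (hb x).2]
    ring
  have h1 : aeval ζ P = 0 := by
    have := key 1
    simp only [pow_one, one_mul] at this
    rw [this, h, sub_self]
  have hi : IsIntegral ℤ ζ := hζ.isIntegral (Nat.pos_of_ne_zero (NeZero.ne M))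
  have h2 := minpoly.isIntegrallyClosed_dvd hi h1
  rw [hζ.minpoly_eq_pow_coprime hu] at h2
  have h3 := aeval_eq_zero_of_dvd_aeval_eq_zero h2 (minpoly.aeval ℤ (ζ ^ u))
  rw [key, sub_eq_zero] at h3
  exact h3

theorem exists_valuationSubring (p : ℕ) (hp : p.Prime) :
    ∃ V : ValuationSubring K, ¬ IsUnit (p : V) := by
  have hI : Ideal.span {((p : ℕ) : (⊥ : Subring K))} ≠ ⊤ := by
    rw [Ne, Ideal.span_singleton_eq_top, isUnit_iff_exists_inv]
    rintro ⟨⟨y, hy⟩, h⟩
    obtain ⟨n, rfl⟩ := Subring.mem_bot.1 hy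
    have h1 : ((p * n : ℤ) : K) = (1 : ℤ) := by
      have := congrArg Subtype.val h
      simpa using this
    have h2 : (p : ℤ) * n = 1 := Int.cast_injective h1
    have h3 : IsUnit (p : ℤ) := IsUnit.of_mul_eq_one _ h2
    rw [Int.ofNat_isUnit, Nat.isUnit_iff] at h3
    exact hp.one_lt.ne' h3
  obtain ⟨V, -, hV⟩ := Ideal.image_subset_nonunits_valuationSubring _ hI
  refine ⟨V, ?_⟩
  have := hV ⟨_, Ideal.subset_span rfl, rfl⟩
  rw [map_natCast] at this
  have h2 : ((p : V) : K) ∈ V.nonunits := by simpa using this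
  rw [ValuationSubring.coe_mem_nonunits_iff] at h2
  exact h2

omit [CharZero K] in
theorem mem_of_pow_eq_one (V : ValuationSubring K) (x : K) (n : ℕ) (hn : n ≠ 0)
    (hx : x ^ n = 1) : x ∈ V := by
  rcases V.mem_or_inv_mem x with h | h
  · exact h
  · have h0 : x ≠ 0 := by rintro rfl; simp [hn] at hx
    have : x = x⁻¹ ^ (n - 1) := by
      rw [inv_pow, eq_comm, inv_eq_iff_eq_inv, eq_comm, inv_eq_iff_eq_inv, eq_comm]
      exact inv_eq_of_mul_eq_one_left (by
        rw [← pow_succ', Nat.sub_add_cancel (Nat.pos_of_ne_zero hn), hx])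
    rw [this]
    exact pow_mem h _

/-- Stickelberger's theorem: exponent form, over an algebraically closed field. -/
theorem stickelberger_closed [IsAlgClosed K] (p f : ℕ) [hp : Fact p.Prime] [CharP F p]
    (hq : Fintype.card F = p ^ f) (χ : MulChar F K) :
    ∃ c : ℕ, c.Coprime (orderOf χ) ∧ ∀ (ψ : AddChar F K), ψ ≠ 1 → ∀ {I : Type} (s : Finset I)
      (a : I → ℕ), (∀ i ∈ s, ¬ orderOf χ ∣ a i) → ∀ N e : ℕ, 0 < N →
      (∏ i ∈ s, gaussSum (χ ^ a i) ψ) ^ N = (p : K) ^ (e * N) →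
      ∑ i ∈ s, ∑ j ∈ range f, p ^ j * (c * a i) % orderOf χ = e * orderOf χ := by
  obtain ⟨V, hV⟩ := exists_valuationSubring (K := K) p hp.out
  have hq1 : 1 < Fintype.card F := Fintype.one_lt_card
  have : NeZero (Fintype.card F - 1) := ⟨by omega⟩
  obtain ⟨η, hη⟩ := HasEnoughRootsOfUnity.exists_primitiveRoot K (Fintype.card F - 1)
  have hηV : η ∈ V := mem_of_pow_eq_one V η _ (NeZero.ne _) hη.pow_eq_one
  have hη' : IsPrimitiveRoot (⟨η, hηV⟩ : V) (Fintype.card F - 1) :=
    IsPrimitiveRoot.of_map_of_injective (f := V.subtype) hη V.subtype_injective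
  have hχV : ∀ x, χ x ∈ V := by
    intro x
    rcases eq_or_ne x 0 with rfl | hx
    · rw [MulChar.map_zero]; exact zero_mem _
    · exact mem_of_pow_eq_one V _ _ (NeZero.ne (Fintype.card F - 1))
        (by rw [← map_pow, FiniteField.pow_card_sub_one_eq_one x hx, map_one])
  let χ' : MulChar F V :=
    { toFun := fun x => ⟨χ x, hχV x⟩
      map_one' := Subtype.ext (map_one χ)
      map_mul' := fun x y => Subtype.ext (map_mul χ x y)
      map_nonunit' := fun x hx => Subtype.ext (χ.map_nonunit hx) }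
  have ho : orderOf χ = orderOf χ' := orderOf_map V.subtype V.subtype_injective χ' χ fun _ => rfl
  have hp0 : (p : V) ≠ 0 := by
    intro h
    have := congrArg V.subtype h
    rw [map_natCast, map_zero, Nat.cast_eq_zero] at this
    exact hp.out.ne_zero this
  obtain ⟨c, d, h1, h2, h3⟩ := stickelberger_local p f hp0 hV hq _ hη' χ'
  rw [← ho] at h1 h2 h3
  refine ⟨c, h1, fun ψ hψ I s a ha N e hN h => ?_⟩
  have hψV : ∀ x, ψ x ∈ V := fun x => mem_of_pow_eq_one V _ p hp.out.ne_zero (by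
    rw [← AddChar.map_nsmul_eq_pow, nsmul_eq_mul, CharP.cast_eq_zero, zero_mul,
      AddChar.map_zero_eq_one])
  let ψ' : AddChar F V :=
    { toFun := fun x => ⟨ψ x, hψV x⟩
      map_zero_eq_one' := Subtype.ext ψ.map_zero_eq_one
      map_add_eq_mul' := fun x y => Subtype.ext (ψ.map_add_eq_mul x y) }
  have hψ' : ψ' ≠ 1 := by
    intro h
    apply hψ
    ext x
    exact congrArg (fun φ : AddChar F V => (φ x : K)) h
  have h4 : (∏ i ∈ s, gaussSum (χ' ^ a i) ψ') ^ N = (p : V) ^ (e * N) := by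
    apply V.subtype_injective
    rw [map_pow, map_pow, map_natCast, map_prod, ← h]
    congr 1
    exact prod_congr rfl fun i _ =>
      (gauss_map V.subtype χ' ψ' χ ψ (fun _ => rfl) (fun _ => rfl) _).symm
  have h5 := (Associated.prod s _ _ fun i hi => h3 ψ' hψ' (a i) (ha i hi)).pow_pow (n := N)
  rw [prod_pow, ← pow_mul, mul_comm _ N, pow_mul, h4, prod_pow_eq_pow_sum, ← pow_mul, ← pow_mul,
    ← mul_sum] at h5
  have h6 := le_antisymm ((pow_dvd_pow_iff hp0 hV).1 h5.dvd) ((pow_dvd_pow_iff hp0 hV).1 h5.symm.dvd)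
  have hd : 0 < d := by
    rcases Nat.eq_zero_or_pos d with rfl | h
    · omega
    · exact h
  rw [h2] at h6
  apply Nat.eq_of_mul_eq_mul_left (Nat.mul_pos hd hN)
  linarith

/-- If a power of a product of Gauss sums is the matching power of `p ^ e`, then all the
Stickelberger sums equal `e * m`. -/
theorem stickelberger_sum (p f m : ℕ) [hp : Fact p.Prime] [CharP F p] [NeZero m]
    (hq : Fintype.card F = p ^ f) (χ : MulChar F K) (hm : orderOf χ = m)
    (ψ : AddChar F K) (hψ : ψ ≠ 1) {I : Type} (s : Finset I) (a : I → ZMod m)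
    (ha : ∀ i ∈ s, a i ≠ 0) (N e : ℕ) (hN : 0 < N)
    (h : (∏ i ∈ s, gaussSum (χ ^ (a i).val) ψ) ^ N = (p : K) ^ (e * N)) (t : (ZMod m)ˣ) :
    ∑ i ∈ s, ∑ j ∈ range f, ((t : ZMod m) * p ^ j * a i).val = e * m := by
  let L := AlgebraicClosure K
  let φ : K →+* L := algebraMap K L
  let χ' : MulChar F L := χ.ringHomComp φ
  let ψ' : AddChar F L := φ.toMonoidHom.compAddChar ψ
  have ho : orderOf χ' = m := (orderOf_map φ φ.injective χ χ' fun _ => rfl).trans hm
  obtain ⟨c, hc, H⟩ := stickelberger_closed p f hq χ'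
  rw [ho] at hc H
  have h1 : (∏ i ∈ s, gaussSum (χ' ^ (a i).val) ψ') ^ N = ((p ^ (e * N) : ℕ) : L) := by
    have := congrArg φ h
    rw [map_pow, map_pow, map_natCast, map_prod] at this
    rw [Nat.cast_pow, ← this]
    congr 1
    exact prod_congr rfl fun i _ => gauss_map φ χ ψ χ' ψ' (fun _ => rfl) (fun _ => rfl) _
  have : NeZero (m * p) := ⟨mul_ne_zero (NeZero.ne m) hp.out.ne_zero⟩
  obtain ⟨ζ, hζ⟩ := HasEnoughRootsOfUnity.exists_primitiveRoot L (m * p)
  obtain ⟨u, hu⟩ := ZMod.unitsMap_surjective (dvd_mul_right m p)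
    (t * (ZMod.unitOfCoprime c hc)⁻¹)
  have hψp : ∀ x, ψ' x ^ p = 1 := fun x => by
    rw [← AddChar.map_nsmul_eq_pow, nsmul_eq_mul, CharP.cast_eq_zero, zero_mul,
      AddChar.map_zero_eq_one]
  have hcop := ZMod.val_coe_unit_coprime u
  set v := (u : ZMod (m * p)).val with hv
  have h2 := gauss_conj s (fun i => (a i).val) N _ (m * p) ζ hζ χ' ψ' (fun x hx => by
    rw [pow_mul, ← Units.val_mk0 hx, ← MulChar.pow_apply_coe, ← ho, pow_orderOf_eq_one,
      MulChar.one_apply_coe, one_pow]) (fun x => by rw [mul_comm, pow_mul, hψp, one_pow])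
    v hcop h1
  have hψ' : ψ' ^ v ≠ 1 := by
    obtain ⟨x, hx⟩ := AddChar.ne_one_iff.1 hψ
    refine AddChar.ne_one_iff.2 ⟨x, fun h => hx ?_⟩
    rw [AddChar.pow_apply] at h
    have h3 := (pow_eq_one_iff_of_coprime (Nat.Coprime.coprime_mul_left_right hcop)).1 ⟨h, hψp x⟩
    exact φ.injective (h3.trans (map_one φ).symm)
  have hvc : ((c : ZMod m) * v) = t := by
    have h3 := congrArg Units.val hu
    rw [ZMod.unitsMap_val, ZMod.cast_eq_val, ← hv, Units.val_mul] at h3
    rw [h3, mul_left_comm, ← ZMod.coe_unitOfCoprime c hc, Units.mul_inv, mul_one]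
  have h3 := H _ hψ' s (fun i => v * (a i).val) (fun i hi hd => ha i hi (by
    have := (Nat.Coprime.coprime_mul_right_right hcop).symm.dvd_of_dvd_mul_left hd
    rwa [← ZMod.natCast_eq_zero_iff, ZMod.natCast_zmod_val] at this)) N e hN
    (by rw [h2, Nat.cast_pow])
  rw [← h3]
  refine sum_congr rfl fun i _ => sum_congr rfl fun j _ => ?_
  rw [← ZMod.val_natCast, ← hvc]
  congr 1
  push_cast
  rw [ZMod.natCast_zmod_val]
  ring

end

end Pool.Agent.Shared.Stickelberger
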