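import Mathlib
import Pool.Agent.Shared.Stickelberger
import Pool.Agent.Shared.HasseDavenport

/-!
Weil's formula for the number of points of a Fermat hypersurface over all extensions of a
finite field, and the order of the zeta function at an integer.
-/

namespace Pool.Agent.Shared.FermatCount

open Finset

theorem sum_zmod_val {M : Type*} [AddCommMonoid M] (m : ℕ) [NeZero m] (g : ℕ → M) :
    ∑ a : ZMod m, g a.val = ∑ i ∈ range m, g i :=
  sum_nbij' (fun a => a.val) (fun i => (i : ZMod m)) (fun a _ => mem_range.2 (ZMod.val_lt a))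
    (fun _ _ => mem_univ _) (fun a _ => ZMod.natCast_zmod_val a)
    (fun _ hi => ZMod.val_cast_of_lt (mem_range.1 hi)) fun _ _ => rfl

section count

variable {K : Type*} [Field K] [Fintype K] [DecidableEq K] {m : ℕ} [NeZero m]

theorem card_roots (χ : MulChar K ℂ) (hχ : orderOf χ = m) (y : K) (hy : y ≠ 0) :
    ((univ.filter fun x : K => x ^ m = y).card : ℂ) = ∑ a : ZMod m, χ y ^ a.val := by
  have hm := NeZero.pos m
  have hpow : ∀ x : K, x ≠ 0 → χ x ^ m = 1 := fun x hx => by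
    rw [← Units.val_mk0 hx, ← MulChar.pow_apply_coe, ← hχ, pow_orderOf_eq_one,
      MulChar.one_apply_coe]
  rw [sum_zmod_val m fun i => χ y ^ i]
  by_cases h : χ y = 1
  · obtain ⟨g, hg⟩ := IsCyclic.exists_generator (α := Kˣ)
    obtain ⟨e, he⟩ := hχ ▸ χ.orderOf_dvd_card_sub_one
    have h1 := IsPrimitiveRoot.orderOf g
    rw [orderOf_eq_card_of_forall_mem_zpowers hg, Nat.card_eq_fintype_card, Fintype.card_units,
      he] at h1
    have he0 : 0 < m * e := by
      have := Fintype.one_lt_card (α := K)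
      omega
    have h2 : IsPrimitiveRoot ((g : K) ^ e) m :=
      (IsPrimitiveRoot.coe_units_iff.2 h1).pow he0 (mul_comm m e)
    obtain ⟨j, hj⟩ := mem_powers_iff_mem_zpowers.2 (hg (Units.mk0 y hy))
    have hj' : y = (g : K) ^ j := by simpa using (congrArg Units.val hj).symm
    obtain ⟨i, rfl⟩ : m ∣ j := by
      rw [← hχ, orderOf_dvd_iff_pow_eq_one, MulChar.eq_iff hg, MulChar.pow_apply_coe,
        MulChar.one_apply_coe, ← map_pow, ← hj', h]
    have h3 := h2.card_nthRoots y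
    rw [if_pos ⟨g ^ i, by rw [hj', ← pow_mul, mul_comm]⟩,
      ← Multiset.toFinset_card_of_nodup (h2.nthRoots_nodup hy)] at h3
    have h4 : (univ.filter fun x : K => x ^ m = y) = (Polynomial.nthRoots m y).toFinset := by
      ext x
      simp [Polynomial.mem_nthRoots hm]
    simp [h4, h3, h]
  · rw [filter_eq_empty_iff.2, geom_sum_eq h, hpow y hy]
    · simp
    · rintro x - rfl
      exact h (by rw [map_pow, hpow x (by rintro rfl; simp [hm.ne'] at hy)])

theorem sum_pow (χ : MulChar K ℂ) (hχ : orderOf χ = m) (ψ : AddChar K ℂ) (hψ : ψ ≠ 1)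
    (t : Kˣ) : ∑ x : K, ψ (t * x ^ m) =
      ∑ a ∈ univ.erase (0 : ZMod m), χ⁻¹ t ^ a.val * gaussSum (χ ^ a.val) ψ := by
  have h1 : ∑ x : K, ψ (t * x ^ m)
      = ∑ y : K, ((univ.filter fun x : K => x ^ m = y).card : ℂ) * ψ (t * y) := by
    rw [← sum_fiberwise univ fun x : K => x ^ m]
    refine sum_congr rfl fun y _ => ?_
    rw [sum_congr rfl fun x hx => by rw [(mem_filter.1 hx).2], sum_const, nsmul_eq_mul]
  have h2 : (univ.filter fun x : K => x ^ m = 0) = {0} := by
    ext x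
    simp [NeZero.ne m]
  have h3 : ∀ a : ZMod m, ∑ y ∈ univ.erase 0, χ y ^ a.val * ψ (t * y)
      = χ⁻¹ t ^ a.val * gaussSum (χ ^ a.val) ψ := by
    intro a
    rw [← MulChar.pow_apply_coe, inv_pow, ← gaussSum_mulShift_eq,
      Pool.Agent.Shared.Stickelberger.gauss_pow_eq]
    rfl
  rw [h1, ← add_sum_erase _ _ (mem_univ 0), h2,
    sum_congr rfl fun y hy => by rw [card_roots χ hχ y (ne_of_mem_erase hy), sum_mul],
    sum_comm, sum_congr rfl fun a _ => h3 a, ← add_sum_erase _ _ (mem_univ 0), ZMod.val_zero,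
    pow_zero, pow_zero, gaussSum_one_left hψ]
  simp

theorem affine_count (χ : MulChar K ℂ) (hχ : orderOf χ = m) (ψ : AddChar K ℂ) (hψ : ψ ≠ 1)
    (D : ℕ) : (Fintype.card K : ℂ) * (univ.filter fun v : Fin D → K => ∑ i, v i ^ m = 0).card
      = (Fintype.card K : ℂ) ^ D + (Fintype.card K - 1) *
        ∑ a ∈ univ.filter (fun a : Fin D → ZMod m => (∀ i, a i ≠ 0) ∧ ∑ i, a i = 0),
          ∏ i, gaussSum (χ ^ (a i).val) ψ := by
  have h1 : (Fintype.card K : ℂ) * (univ.filter fun v : Fin D → K => ∑ i, v i ^ m = 0).card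
      = ∑ t : K, ∏ _i : Fin D, ∑ x : K, ψ (t * x ^ m) := by
    have e1 : ∀ t : K, ∏ _i : Fin D, ∑ x : K, ψ (t * x ^ m)
        = ∑ v : Fin D → K, ψ (t * ∑ i, v i ^ m) := by
      intro t
      rw [prod_univ_sum, Fintype.piFinset_univ]
      refine sum_congr rfl fun v _ => ?_
      rw [mul_sum]
      exact (map_prod ψ.toMonoidHom (fun i => Multiplicative.ofAdd (t * v i ^ m)) univ).symm
    simp only [e1]
    rw [sum_comm]
    simp only [AddChar.sum_mulShift _ (AddChar.IsPrimitive.of_ne_one hψ)]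
    rw [card_filter]
    push_cast
    rw [mul_sum]
    simp only [mul_ite, mul_one, mul_zero]
  have h2 : ∀ S : ℕ, ∑ t : Kˣ, χ⁻¹ t ^ S = if m ∣ S then (Fintype.card K : ℂ) - 1 else 0 := by
    intro S
    have e1 : ∑ t : Kˣ, χ⁻¹ t ^ S = ∑ t : K, (χ⁻¹ ^ S) t := by
      refine sum_of_injOn Units.val Units.val_injective.injOn (fun _ _ => mem_coe.2 (mem_univ _))
        (fun y _ hy => ?_) fun v _ => (MulChar.pow_apply_coe _ _ _).symm
      exact MulChar.map_nonunit _ fun ⟨v, hv⟩ => hy ⟨v, mem_coe.2 (mem_univ _), hv⟩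
    rw [e1]
    split_ifs with h
    · rw [← hχ, ← orderOf_inv, orderOf_dvd_iff_pow_eq_one] at h
      rw [h, MulChar.sum_one_eq_card_units, Fintype.card_units, Nat.cast_sub Fintype.card_pos,
        Nat.cast_one]
    · rw [← hχ, ← orderOf_inv, orderOf_dvd_iff_pow_eq_one] at h
      exact MulChar.sum_eq_zero_of_ne_one h
  have h3 : ∑ t ∈ univ.erase (0 : K), ∏ _i : Fin D, ∑ x : K, ψ (t * x ^ m)
      = ∑ t : Kˣ, ∏ _i : Fin D, ∑ x : K, ψ (t * x ^ m) := by
    symm
    refine sum_bij (fun t _ => (t : K)) (fun t _ => by simp) (fun _ _ _ _ h => Units.ext h)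
      (fun t ht => ⟨Units.mk0 t (ne_of_mem_erase ht), mem_univ _, rfl⟩) fun _ _ => rfl
  rw [h1, ← add_sum_erase _ _ (mem_univ 0), h3]
  congr 1
  · simp
  simp only [sum_pow χ hχ ψ hψ, prod_univ_sum, prod_mul_distrib, prod_pow_eq_pow_sum]
  rw [sum_comm]
  simp only [← sum_mul, h2]
  rw [mul_sum, sum_filter]
  refine sum_subset_zero_on_sdiff (subset_univ _) (fun a ha => if_neg fun h => ?_) fun a ha => ?_
  · exact (mem_sdiff.1 ha).2 (Fintype.mem_piFinset.2 fun i => by simpa using h.1 i)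
  · have e1 : ∀ i, a i ≠ 0 := fun i => ne_of_mem_erase (Fintype.mem_piFinset.1 ha i)
    have e2 : m ∣ ∑ i, (a i).val ↔ ∑ i, a i = 0 := by
      rw [← ZMod.natCast_eq_zero_iff]; simp
    simp only [e2, e1, ne_eq, not_false_eq_true, implies_true, true_and, ite_mul, zero_mul]

theorem proj_count (D : ℕ) :
    (univ.filter fun v : Fin D → K => ∑ i, v i ^ m = 0).card = 1 + (Fintype.card K - 1) *
      Nat.card {P : Projectivization K (Fin D → K) // ∑ i, P.rep i ^ m = 0} := by
  have hs : ∀ (c : K) (v : Fin D → K), ∑ i, (c • v) i ^ m = c ^ m * ∑ i, v i ^ m := by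
    intro c v
    simp [mul_pow, mul_sum]
  let Φ : Kˣ × {P : Projectivization K (Fin D → K) // ∑ i, P.rep i ^ m = 0} →
      ((univ.filter fun v : Fin D → K => ∑ i, v i ^ m = 0).erase 0) := fun x =>
    ⟨(x.1 : K) • x.2.1.rep, mem_erase.2 ⟨smul_ne_zero x.1.ne_zero x.2.1.rep_nonzero,
      mem_filter.2 ⟨mem_univ _, by rw [hs, x.2.2, mul_zero]⟩⟩⟩
  have hΦ : Function.Bijective Φ := by
    constructor
    · rintro ⟨c, P, hP⟩ ⟨c', P', hP'⟩ h
      have h1 : (c : K) • P.rep = (c' : K) • P'.rep := congrArg Subtype.val h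
      have h2 : P = P' := by
        rw [← P.mk_rep, ← P'.mk_rep, Projectivization.mk_eq_mk_iff]
        refine ⟨c⁻¹ * c', ?_⟩
        rw [mul_smul, Units.smul_def c', ← h1, ← Units.smul_def, inv_smul_smul]
      subst h2
      rw [Units.ext (smul_left_injective K P.rep_nonzero h1)]
    · rintro ⟨v, hv⟩
      have hv0 := ne_of_mem_erase hv
      obtain ⟨c, hc⟩ := Projectivization.exists_smul_eq_mk_rep K v hv0
      refine ⟨⟨c⁻¹, Projectivization.mk K v hv0, ?_⟩, Subtype.ext ?_⟩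
      · rw [← hc, Units.smul_def, hs, (mem_filter.1 (mem_of_mem_erase hv)).2, mul_zero]
      · change ((c⁻¹ : Kˣ) : K) • (Projectivization.mk K v hv0).rep = v
        rw [← hc, ← Units.smul_def, inv_smul_smul]
  have h := Nat.card_eq_of_bijective Φ hΦ
  rw [Nat.card_prod, Nat.card_eq_finsetCard, Nat.card_units, Nat.card_eq_fintype_card] at h
  rw [h, add_comm, card_erase_add_one]
  simp [NeZero.ne m]

/-- Weil's formula. -/
theorem weil_count (χ : MulChar K ℂ) (hχ : orderOf χ = m) (ψ : AddChar K ℂ) (hψ : ψ ≠ 1)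
    (d : ℕ) :
    (Nat.card {P : Projectivization K (Fin (d + 2) → K) // ∑ i, P.rep i ^ m = 0} : ℂ)
      = ∑ i ∈ range (d + 1), (Fintype.card K : ℂ) ^ i +
        ∑ a ∈ univ.filter (fun a : Fin (d + 2) → ZMod m => (∀ i, a i ≠ 0) ∧ ∑ i, a i = 0),
          (∏ i, gaussSum (χ ^ (a i).val) ψ) / Fintype.card K := by
  have h1 := affine_count χ hχ ψ hψ (d + 2)
  rw [proj_count] at h1
  push_cast [Nat.cast_sub (Fintype.card_pos (α := K))] at h1
  have h2 := geom_sum_mul (Fintype.card K : ℂ) (d + 1)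
  have h3 : (Fintype.card K : ℂ) ≠ 0 := Nat.cast_ne_zero.2 Fintype.card_ne_zero
  have h4 : (Fintype.card K : ℂ) - 1 ≠ 0 := by
    rw [sub_ne_zero, Ne, Nat.cast_eq_one]
    exact Fintype.one_lt_card.ne'
  rw [← sum_div]
  field_simp
  apply mul_left_cancel₀ h4
  linear_combination h1 - (Fintype.card K : ℂ) * h2

end count

/-- Weil's formula over an arbitrary finite extension, in even dimension. -/
theorem weil_count_ext {F K : Type*} [Field F] [Fintype F] [Field K] [Finite K] (p : ℕ)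
    [Fact p.Prime] [CharP F p] [CharP K p] {m : ℕ} [NeZero m] (χ : MulChar F ℂ)
    (hχ : orderOf χ = m) (ψ : AddChar F ℂ) (hψ : ψ ≠ 1) (n E : ℕ)
    (hE : Nat.card K = Fintype.card F ^ E) :
    (Nat.card {P : Projectivization K (Fin (2 * n + 2) → K) // ∑ i, P.rep i ^ m = 0} : ℂ)
      = ∑ i ∈ range (2 * n + 1), ((Fintype.card F : ℂ) ^ i) ^ E +
        ∑ a ∈ univ.filter (fun a : Fin (2 * n + 2) → ZMod m => (∀ i, a i ≠ 0) ∧ ∑ i, a i = 0),
          ((∏ i, gaussSum (χ ^ (a i).val) ψ) / Fintype.card F) ^ E := by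
  classical
  have := Fintype.ofFinite K
  rw [Nat.card_eq_fintype_card] at hE
  let _ : Algebra (ZMod p) F := ZMod.algebra F p
  let _ : Algebra (ZMod p) K := ZMod.algebra K p
  have hp : 2 ≤ p := (Fact.out : p.Prime).two_le
  obtain ⟨σ⟩ : Nonempty (F →ₐ[ZMod p] K) := by
    refine FiniteField.nonempty_algHom_of_finrank_dvd ⟨E, ?_⟩
    apply Nat.pow_right_injective hp
    have h1 := Module.card_eq_pow_finrank (K := ZMod p) (V := F)
    have h2 := Module.card_eq_pow_finrank (K := ZMod p) (V := K)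
    rw [ZMod.card] at h1 h2
    simp only [pow_mul, ← h1, ← h2, hE]
  let _ : Algebra F K := σ.toRingHom.toAlgebra
  have hr : Module.finrank F K = E := by
    apply Nat.pow_right_injective (Fintype.one_lt_card (α := F))
    simp only [← Module.card_eq_pow_finrank, hE]
  let χ' : MulChar K ℂ :=
    { toFun := fun x => χ (Algebra.norm F x)
      map_one' := by simp
      map_mul' := fun x y => by simp
      map_nonunit' := fun x hx => by
        rw [isUnit_iff_ne_zero, not_not] at hx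
        rw [hx, Algebra.norm_zero, MulChar.map_zero] }
  let ψ' : AddChar K ℂ := ψ.compAddMonoidHom (Algebra.trace F K).toAddMonoidHom
  have hpow : ∀ l : ℕ, ∀ x, (χ' ^ l) x = (χ ^ l) (Algebra.norm F x) := by
    intro l x
    rcases eq_or_ne x 0 with rfl | hx
    · rw [Algebra.norm_zero, MulChar.map_zero, MulChar.map_zero]
    · exact (MulChar.pow_apply_coe χ' l (Units.mk0 x hx)).trans
        (MulChar.pow_apply_coe χ l (Units.map (Algebra.norm F (S := K)) (Units.mk0 x hx))).symm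
  have hχ' : orderOf χ' = m := by
    rw [← hχ, orderOf_eq_orderOf_iff]
    intro l
    simp only [MulChar.ext_iff, hpow, MulChar.one_apply_coe]
    refine ⟨fun h a => ?_, fun h a => h (Units.map (Algebra.norm F (S := K)) a)⟩
    obtain ⟨b, rfl⟩ := FiniteField.unitsMap_norm_surjective F K a
    exact h b
  have hψ' : ψ' ≠ 1 := by
    obtain ⟨c, hc⟩ := AddChar.ne_one_iff.1 hψ
    obtain ⟨b, rfl⟩ := Algebra.trace_surjective F K c
    exact AddChar.ne_one_iff.2 ⟨b, hc⟩
  rw [weil_count χ' hχ' ψ' hψ' (2 * n), hE]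
  push_cast
  congr 1
  · exact sum_congr rfl fun i _ => by rw [← pow_mul, ← pow_mul, mul_comm]
  refine sum_congr rfl fun a _ => ?_
  have h1 : ∀ g : Fin (2 * n + 2) → ℂ, ∏ i, g i = ∏ i, -g i := by
    intro g
    rw [prod_neg, card_univ, Fintype.card_fin, Even.neg_one_pow ⟨n + 1, by ring⟩, one_mul]
  rw [div_pow, h1, h1 fun i => gaussSum (χ ^ (a i).val) ψ, ← prod_pow]
  congr 1
  exact prod_congr rfl fun i _ => hr ▸ Pool.Agent.Shared.HasseDavenport.gaussSum_lift _ ψ hψ _ ψ'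
    (hpow _) fun _ => rfl

/-- The function with point counts `∑ α i ^ r` is meromorphic, with the expected poles. -/
theorem zeta_order {I : Type*} (S : Finset I) (α : I → ℂ) (q : ℕ) (hq : 1 < q) (d n : ℕ)
    (hα : ∀ i ∈ S, ‖α i‖ ≤ (q : ℝ) ^ d) (N : ℕ → ℂ) (hN : ∀ j, N j = ∑ i ∈ S, α i ^ (j + 1)) :
    ∃ ζ : ℂ → ℂ, Meromorphic ζ ∧
      (∀ s : ℂ, (d : ℝ) < s.re →
        ζ s = Complex.exp (∑' j : ℕ, N j * (q : ℂ) ^ (-((j + 1 : ℕ) : ℂ) * s) / (j + 1 : ℕ))) ∧
      meromorphicOrderAt ζ n = ((-∑ i ∈ S, if α i = (q : ℂ) ^ n then 1 else 0 : ℤ) : WithTop ℤ) := by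
  have hq0 : (q : ℂ) ≠ 0 := Nat.cast_ne_zero.2 (by omega)
  have hq1 : (1 : ℝ) < q := by exact_mod_cast hq
  have hd : ∀ (c s : ℂ), HasDerivAt (fun s : ℂ => 1 - c * (q : ℂ) ^ (-s))
      (c * (q : ℂ) ^ (-s) * Complex.log q) s := by
    intro c s
    have := (((hasDerivAt_neg s).const_cpow (c := (q : ℂ)) (Or.inl hq0)).const_mul c).const_sub 1
    refine this.congr_deriv ?_
    ring
  have han : ∀ (c s : ℂ), AnalyticAt ℂ (fun s : ℂ => 1 - c * (q : ℂ) ^ (-s)) s := fun c s =>
    Differentiable.analyticAt (fun z => (hd c z).differentiableAt) s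
  refine ⟨fun s => ∏ i ∈ S, (1 - α i * (q : ℂ) ^ (-s))⁻¹, fun s => ?_, fun s hs => ?_, ?_⟩
  · exact MeromorphicAt.fun_prod fun i _ => (han _ s).meromorphicAt.inv
  · have h1 : ∀ i ∈ S, ‖α i * (q : ℂ) ^ (-s)‖ < 1 := by
      intro i hi
      rw [norm_mul, Complex.norm_natCast_cpow_of_pos (by omega), Complex.neg_re]
      refine (mul_le_mul_of_nonneg_right (hα i hi) (by positivity)).trans_lt ?_
      rw [← Real.rpow_natCast, ← Real.rpow_add (by positivity)]
      exact Real.rpow_lt_one_of_one_lt_of_neg hq1 (by linarith)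
    have h2 := hasSum_sum fun i hi => Complex.hasSum_taylorSeries_neg_log' (h1 i hi)
    have h3 : ∀ j : ℕ, N j * (q : ℂ) ^ (-((j + 1 : ℕ) : ℂ) * s) / (j + 1 : ℕ)
        = ∑ i ∈ S, (α i * (q : ℂ) ^ (-s)) ^ (j + 1) / (j + 1) := by
      intro j
      rw [hN, neg_mul, ← mul_neg, Complex.cpow_nat_mul, sum_mul, sum_div]
      refine sum_congr rfl fun i _ => ?_
      rw [mul_pow, Nat.cast_succ]
    simp only [h3]
    rw [h2.tsum_eq, Complex.exp_sum]
    refine prod_congr rfl fun i hi => ?_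
    rw [Complex.exp_neg, Complex.exp_log]
    intro h
    have := h1 i hi
    rw [← sub_eq_zero.1 h] at this
    simp at this
  · rw [meromorphicOrderAt_fun_prod (f := fun i s => (1 - α i * (q : ℂ) ^ (-s))⁻¹)
      fun i _ => (han _ _).meromorphicAt.inv, ← sum_neg_distrib,
      WithTop.coe_sum]
    refine sum_congr rfl fun i _ => ?_
    have h1 : (q : ℂ) ^ (-(n : ℂ)) = ((q : ℂ) ^ n)⁻¹ := by
      rw [Complex.cpow_neg, Complex.cpow_natCast]
    rw [fun_meromorphicOrderAt_inv, (han _ _).meromorphicOrderAt_eq]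
    split_ifs with h
    · rw [(han _ _).analyticOrderAt_eq_one_of_zero_deriv_ne_zero]
      · rfl
      · rw [h, h1, mul_inv_cancel₀ (pow_ne_zero _ hq0), sub_self]
      · rw [(hd _ _).deriv, h, h1, mul_inv_cancel₀ (pow_ne_zero _ hq0), one_mul,
          ← Complex.natCast_log, Ne, Complex.ofReal_eq_zero]
        exact (Real.log_pos hq1).ne'
    · rw [(han _ _).analyticOrderAt_eq_zero.2]
      · rfl
      · rw [h1, sub_ne_zero, ← div_eq_mul_inv, ne_comm, Ne, div_eq_one_iff_eq (pow_ne_zero _ hq0)]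
        exact h

end Pool.Agent.Shared.FermatCount
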