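import Mathlib

/-!
The value of the odd Hurwitz zeta function at `0`, and the non-vanishing of
`∑ χ(j) j` for odd Dirichlet characters whose conductor is divisible by all primes of the level.
-/

namespace Pool.Agent.Shared.BernoulliOne

open Complex HurwitzZeta Set Filter Topology Asymptotics MeasureTheory
open scoped Real

theorem expZeta_one (a : ℝ) (ha : cexp (2 * π * I * a) ≠ 1) :
    expZeta a 1 = -log (1 - cexp (2 * π * I * a)) := by
  set z := cexp (2 * π * I * a) with hz
  have hz1 : ‖z‖ = 1 := by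
    rw [hz, show 2 * π * I * a = ((2 * π * a : ℝ) : ℂ) * I by push_cast; ring, norm_exp_ofReal_mul_I]
  have hzre : z.re < 1 := by
    have h1 : z.re ≤ 1 := (re_le_norm z).trans hz1.le
    refine lt_of_le_of_ne h1 fun h => ha ?_
    have h2 : z.re ^ 2 + z.im ^ 2 = 1 := by
      have := Complex.sq_norm z
      rw [hz1, normSq_apply] at this
      nlinarith
    have h3 : z.im = 0 := by rw [h] at h2; nlinarith [sq_nonneg z.im]
    exact Complex.ext h h3
  set c : ℝ := min 1 (1 - z.re) with hc
  have hc0 : 0 < c := lt_min one_pos (by linarith)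
  have hre : ∀ t : ℝ, 0 ≤ t → c ≤ (1 - z * (Real.exp (-t) : ℂ)).re := by
    intro t ht
    have e1 : Real.exp (-t) ≤ 1 := Real.exp_le_one_iff.2 (by linarith)
    have e0 : 0 < Real.exp (-t) := Real.exp_pos _
    simp only [sub_re, one_re, mul_re, ofReal_re, ofReal_im, mul_zero, sub_zero]
    rcases le_total z.re 0 with h | h
    · exact (min_le_left _ _).trans (by nlinarith)
    · exact (min_le_right _ _).trans (by nlinarith)
  have hne : ∀ t : ℝ, 0 ≤ t → 1 - z * (Real.exp (-t) : ℂ) ≠ 0 := by
    intro t ht h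
    have := hre t ht
    rw [h, zero_re] at this
    linarith
  set F : ℝ → ℂ := fun t => z * (Real.exp (-t) : ℂ) / (1 - z * (Real.exp (-t) : ℂ)) with hF
  have hFc : ContinuousOn F (Ici 0) := by
    refine ContinuousOn.div (by fun_prop) (by fun_prop) fun t ht => hne t ht
  have hFb : ∀ t : ℝ, 0 ≤ t → ‖F t‖ ≤ c⁻¹ * Real.exp (-t) := by
    intro t ht
    simp only [hF, norm_div, norm_mul, hz1, one_mul, norm_real, Real.norm_eq_abs,
      abs_of_pos (Real.exp_pos _)]
    rw [div_eq_inv_mul]
    refine mul_le_mul_of_nonneg_right ?_ (Real.exp_pos _).le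
    exact inv_anti₀ hc0 ((hre t ht).trans (re_le_norm _))
  have hli : LocallyIntegrableOn F (Ioi 0) :=
    (hFc.mono Ioi_subset_Ici_self).locallyIntegrableOn measurableSet_Ioi
  have htop : F =O[atTop] fun t => Real.exp (-1 * t) := by
    refine IsBigO.of_bound c⁻¹ ?_
    filter_upwards [eventually_ge_atTop 0] with t ht
    simpa [abs_of_pos (Real.exp_pos _)] using hFb t ht
  have hbot : F =O[𝓝[>] 0] (· ^ (-(0 : ℝ))) := by
    refine IsBigO.of_bound c⁻¹ ?_
    filter_upwards [self_mem_nhdsWithin] with t ht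
    have ht' : 0 ≤ t := le_of_lt ht
    refine (hFb t ht').trans ?_
    simp only [neg_zero, Real.rpow_zero, norm_one, mul_one]
    exact mul_le_of_le_one_right (inv_pos.2 hc0).le (Real.exp_le_one_iff.2 (by linarith))
  have hd : DifferentiableAt ℂ (mellin F) 1 :=
    mellin_differentiableAt_of_isBigO_rpow_exp one_pos hli htop hbot (by simp)
  have key : ∀ s : ℂ, 1 < s.re → mellin F s = Gamma s * expZeta a s := by
    intro s hs
    have h1 := hasSum_mellin (a := fun n : ℕ => z ^ (n + 1)) (p := fun n : ℕ => (n + 1 : ℝ))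
      (F := F) (s := s) (fun n => Or.inr (by positivity)) (by linarith) ?_ ?_
    · have h2 := (hasSum_expZeta_of_one_lt_re a hs)
      rw [← hasSum_nat_add_iff' 1] at h2
      have hs0 : s ≠ 0 := by rintro rfl; simp at hs; linarith
      simp only [Finset.range_one, Finset.sum_singleton, Nat.cast_zero, zero_cpow hs0, div_zero,
        sub_zero] at h2
      refine h1.unique ?_
      refine (h2.mul_left (Gamma s)).congr_fun fun n => ?_
      rw [mul_div_assoc, hz, ← Complex.exp_nat_mul]
      push_cast
      ring_nf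
    · intro t ht
      have hlt : ‖z * (Real.exp (-t) : ℂ)‖ < 1 := by
        rw [norm_mul, hz1, one_mul, norm_real, Real.norm_eq_abs, abs_of_pos (Real.exp_pos _)]
        exact Real.exp_lt_one_iff.2 (by simpa using ht)
      have := (hasSum_geometric_of_norm_lt_one hlt).mul_left (z * (Real.exp (-t) : ℂ))
      simp only [hF, div_eq_mul_inv]
      refine this.congr_fun fun n => ?_
      rw [← pow_succ', mul_pow, ← ofReal_pow, ← Real.exp_nat_mul]
      push_cast
      ring_nf
    · simp only [norm_pow, hz1, one_pow]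
      have := (summable_nat_add_iff 1).2 (Real.summable_one_div_nat_rpow.2 hs)
      simpa using this
  have ha0 : (a : UnitAddCircle) ≠ 0 := by
    intro h
    apply ha
    rw [AddCircle.coe_eq_zero_iff] at h
    obtain ⟨n, hn⟩ := h
    rw [hz, ← hn, zsmul_eq_mul, mul_one]
    push_cast
    rw [mul_comm]
    exact exp_int_mul_two_pi_mul_I n
  have lim : mellin F 1 = Gamma 1 * expZeta a 1 := by
    have t0 : Tendsto (fun x : ℝ => (x : ℂ)) (𝓝[>] 1) (𝓝 1) :=
      (continuous_ofReal.tendsto' 1 1 (by simp)).mono_left nhdsWithin_le_nhds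
    have t1 := hd.continuousAt.tendsto.comp t0
    have t2 : Tendsto (fun s => Gamma s * expZeta a s) (𝓝 1) (𝓝 (Gamma 1 * expZeta a 1)) := by
      refine ContinuousAt.tendsto (ContinuousAt.mul ?_ ?_)
      · refine (differentiableAt_Gamma 1 fun m h => ?_).continuousAt
        have := congrArg re h
        simp at this
        linarith [Nat.cast_nonneg (α := ℝ) m]
      · exact (differentiableAt_expZeta _ _ (Or.inr ha0)).continuousAt
    refine tendsto_nhds_unique_of_eventuallyEq t1 (t2.comp t0) ?_
    filter_upwards [self_mem_nhdsWithin] with x hx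
    exact key x (by simpa using hx)
  rw [Gamma_one, one_mul] at lim
  rw [← lim, mellin]
  simp only [sub_self, cpow_zero, one_smul]
  have := integral_Ioi_of_hasDerivAt_of_tendsto' (f := fun t : ℝ => log (1 - z * (Real.exp (-t) : ℂ)))
    (f' := F) (a := 0) (m := 0) ?_ ?_ ?_
  · simpa using this
  · intro t ht
    have d1 : HasDerivAt (fun t : ℝ => Real.exp (-t)) (-Real.exp (-t)) t := by
      simpa using (hasDerivAt_neg t).exp
    have d2 : HasDerivAt (fun t : ℝ => 1 - z * (Real.exp (-t) : ℂ)) (z * (Real.exp (-t) : ℂ)) t := by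
      have := (d1.ofReal_comp.const_mul z).const_sub 1
      refine this.congr_deriv ?_
      push_cast; ring
    exact d2.clog_real (Or.inl (hc0.trans_le (hre t ht)))
  · refine Integrable.mono' (g := fun t => c⁻¹ * Real.exp (-t)) ?_ hli.aestronglyMeasurable ?_
    · exact (integrableOn_exp_neg_Ioi 0).const_mul _
    · filter_upwards [ae_restrict_mem measurableSet_Ioi] with t ht
      exact hFb t (le_of_lt ht)
  · have t1 : Tendsto (fun t : ℝ => 1 - z * (Real.exp (-t) : ℂ)) atTop (𝓝 (1 - z * (0 : ℝ))) :=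
      ((continuous_ofReal.tendsto 0).comp Real.tendsto_exp_neg_atTop_nhds_zero).const_mul z
        |>.const_sub 1
    simp only [ofReal_zero, mul_zero, sub_zero] at t1
    have := t1.clog (Or.inl (by simp))
    simpa using this

theorem one_sub_exp (θ : ℝ) :
    1 - cexp (2 * θ * I) = ((2 * Real.sin θ : ℝ) : ℂ) * cexp ((θ - π / 2 : ℝ) * I) := by
  have h1 : cexp ((θ - π / 2 : ℝ) * I) = -I * cexp (θ * I) := by
    push_cast
    rw [sub_mul, sub_eq_add_neg, Complex.exp_add, ← neg_mul, ← neg_div, mul_comm]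
    congr 1
    rw [neg_div, neg_mul, Complex.exp_neg, exp_pi_div_two_mul_I, inv_I]
  rw [h1]
  push_cast
  rw [Complex.two_sin, show 2 * (θ : ℂ) * I = θ * I + θ * I by ring, Complex.exp_add]
  have h2 : cexp (-θ * I) * cexp (θ * I) = 1 := by rw [← Complex.exp_add]; simp
  linear_combination (-1 : ℂ) * h2 + (cexp (-θ * I) - cexp (θ * I)) * cexp (θ * I) * I_mul_I

theorem log_one_sub_exp (a : ℝ) (h0 : 0 < a) (h1 : a < 1) :
    cexp (2 * π * I * a) ≠ 1 ∧
    log (1 - cexp (2 * π * I * a)) = Real.log (2 * Real.sin (π * a)) + (π * a - π / 2 : ℝ) * I := by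
  have hs : 0 < 2 * Real.sin (π * a) :=
    mul_pos two_pos (Real.sin_pos_of_pos_of_lt_pi (by positivity) (by nlinarith [Real.pi_pos]))
  have e := one_sub_exp (π * a)
  rw [show (2 * ((π * a : ℝ) : ℂ) * I) = 2 * π * I * a by push_cast; ring] at e
  constructor
  · intro h
    rw [h, sub_self] at e
    exact mul_ne_zero (ofReal_ne_zero.2 hs.ne') (Complex.exp_ne_zero _) e.symm
  · rw [e, log_ofReal_mul hs (Complex.exp_ne_zero _), log_exp]
    · simp only [mul_im, ofReal_re, I_im, mul_one, ofReal_im, I_re, mul_zero, add_zero]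
      nlinarith [Real.pi_pos]
    · simp only [mul_im, ofReal_re, I_im, mul_one, ofReal_im, I_re, mul_zero, add_zero]
      nlinarith [Real.pi_pos]

theorem sinZeta_one (a : ℝ) (h0 : 0 < a) (h1 : a < 1) : sinZeta a 1 = π * (1 / 2 - a) := by
  have e1 := log_one_sub_exp a h0 h1
  have e2 := log_one_sub_exp (1 - a) (by linarith) (by linarith)
  have e3 : -(a : UnitAddCircle) = ((1 - a : ℝ) : UnitAddCircle) := by
    rw [AddCircle.coe_sub, AddCircle.coe_period, zero_sub]
  rw [sinZeta_eq, e3, expZeta_one a e1.1, expZeta_one _ e2.1, e1.2, e2.2,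
    show π * (1 - a) = π - π * a by ring, Real.sin_pi_sub]
  push_cast
  field_simp
  ring

theorem hurwitzZetaOdd_zero (a : ℝ) (h0 : 0 < a) (h1 : a < 1) :
    hurwitzZetaOdd a 0 = 1 / 2 - a := by
  have := hurwitzZetaOdd_one_sub (a : UnitAddCircle) (s := 1) (fun m h => by
    have := congrArg re h
    simp at this
    linarith [Nat.cast_nonneg (α := ℝ) m])
  rw [sub_self, sinZeta_one a h0 h1, Gamma_one, mul_one, mul_one, sin_pi_div_two, cpow_neg_one]
    at this
  rw [this]
  have : (π : ℂ) ≠ 0 := ofReal_ne_zero.2 Real.pi_pos.ne'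
  field_simp

open DirichletCharacter in
theorem LFunction_zero_ne_zero {N : ℕ} [NeZero N] (χ : DirichletCharacter ℂ N) (hχ : χ.Odd)
    (hp : χ.IsPrimitive) : LFunction χ 0 ≠ 0 := by
  have hne : χ ≠ 1 := by
    rintro rfl
    have : (1 : DirichletCharacter ℂ N) (-1) = -1 := hχ
    rw [MulChar.one_apply isUnit_one.neg] at this
    norm_num at this
  have hN : N ≠ 1 := by
    rintro rfl
    exact hne (level_one χ)
  have hp' : χ⁻¹.IsPrimitive := by
    rw [isPrimitive_def, conductor_inv]; exact hp
  have h1 := hp'.completedLFunction_one_sub 0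
  rw [sub_zero, inv_inv] at h1
  have h2 := LFunction_apply_one_ne_zero (χ := χ⁻¹) (by simpa using hne)
  rw [LFunction_eq_completed_div_gammaFactor _ _ (Or.inr hN)] at h2 ⊢
  refine div_ne_zero ?_ ?_
  · intro h
    rw [h, mul_zero] at h1
    rw [h1, zero_div] at h2
    exact h2 rfl
  · rw [hχ.gammaFactor_def]
    exact Gammaℝ_ne_zero_of_re_pos (by simp)

open DirichletCharacter in
/-- `B_{1,χ} ≠ 0` for an odd character whose conductor contains every prime of the level. -/
theorem sum_mul_val_ne_zero {N : ℕ} [NeZero N] (χ : DirichletCharacter ℂ N) (hχ : χ.Odd)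
    (hc : ∀ l : ℕ, l.Prime → l ∣ N → l ∣ χ.conductor) :
    ∑ j : ZMod N, χ j * (j.val : ℂ) ≠ 0 := by
  have : NeZero χ.conductor := ⟨χ.conductor_ne_zero⟩
  have hne : χ ≠ 1 := by
    rintro rfl
    have : (1 : DirichletCharacter ℂ N) (-1) = -1 := hχ
    rw [MulChar.one_apply isUnit_one.neg] at this
    norm_num at this
  have hodd : χ.primitiveCharacter.Odd := by
    have h := changeLevel_eq_cast_of_dvd χ.primitiveCharacter χ.conductor_dvd_level (-1)
    rw [changeLevel_primitiveCharacter] at h
    have h' : χ (-1) = -1 := hχ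
    simp only [Units.val_neg, Units.val_one] at h
    rw [h', ZMod.cast_neg χ.conductor_dvd_level, ZMod.cast_one χ.conductor_dvd_level] at h
    exact h.symm
  have h1 := LFunction_changeLevel χ.conductor_dvd_level χ.primitiveCharacter (s := 0)
    (Or.inr zero_ne_one)
  rw [changeLevel_primitiveCharacter, Finset.prod_eq_one, mul_one] at h1
  · have h2 := LFunction_zero_ne_zero _ hodd χ.primitiveCharacter_isPrimitive
    rw [← h1, LFunction, ZMod.LFunction_def_odd hχ.to_fun] at h2
    intro h
    apply h2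
    have h3 : ∑ j : ZMod N, χ j * hurwitzZetaOdd (ZMod.toAddCircle j) 0
        = ∑ j : ZMod N, (χ j * (1 / 2) - (N : ℂ)⁻¹ * (χ j * (j.val : ℂ))) := by
      refine Finset.sum_congr rfl fun j _ => ?_
      rcases eq_or_ne j 0 with rfl | hj
      · have hN : N ≠ 1 := by
          rintro rfl
          exact hne (level_one χ)
        rw [χ.map_zero' hN]; simp
      · have hN : (0 : ℝ) < N := Nat.cast_pos.2 (Nat.pos_of_ne_zero (NeZero.ne N))
        rw [ZMod.toAddCircle_apply, hurwitzZetaOdd_zero]
        · push_cast; ring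
        · exact div_pos (Nat.cast_pos.2 (Nat.pos_of_ne_zero ((ZMod.val_ne_zero j).2 hj))) hN
        · rw [div_lt_one hN]; exact_mod_cast ZMod.val_lt j
    rw [h3, Finset.sum_sub_distrib, ← Finset.mul_sum, h, ← Finset.sum_mul,
      χ.sum_eq_zero_of_ne_one hne]
    simp
  · intro l hl
    have hl' := Nat.prime_of_mem_primeFactors hl
    have : χ.primitiveCharacter l = 0 := by
      apply MulChar.map_nonunit
      rw [ZMod.isUnit_iff_coprime]
      intro hco
      have := hc l hl' (Nat.dvd_of_mem_primeFactors hl)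
      exact hl'.one_lt.ne' (Nat.Coprime.eq_one_of_dvd hco this)
    rw [this]; simp

end Pool.Agent.Shared.BernoulliOne
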