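import Mathlib
import Pool.Agent.Shared.Stickelberger

/-!
A product of Gauss sums whose Stickelberger sums are all balanced is a power of `q` times a root
of unity.
-/

namespace Pool.Agent.Shared.GaussKronecker

open Finset Pool.Agent.Shared.Stickelberger

variable {F : Type*} [Field F] [Fintype F]

omit [Fintype F] in
theorem exists_mulChar_lift {A B : Type*} [CommRing A] [CommRing B] (φ : A →+* B)
    (hφ : Function.Injective φ) (χ : MulChar F B) (h : ∀ x, ∃ y, φ y = χ x) :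
    ∃ χ' : MulChar F A, ∀ x, χ x = φ (χ' x) := by
  choose g hg using h
  exact ⟨{ toFun := g
           map_one' := hφ (by rw [hg, map_one, map_one])
           map_mul' := fun x y => hφ (by rw [map_mul, hg, hg, hg, map_mul])
           map_nonunit' := fun x hx => hφ (by rw [hg, map_zero, χ.map_nonunit hx]) },
    fun x => (hg x).symm⟩

omit [Fintype F] in
theorem exists_addChar_lift {A B : Type*} [CommRing A] [CommRing B] (φ : A →+* B)
    (hφ : Function.Injective φ) (ψ : AddChar F B) (hψ : ψ ≠ 1) (h : ∀ x, ∃ y, φ y = ψ x) :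
    ∃ ψ' : AddChar F A, ψ' ≠ 1 ∧ ∀ x, ψ x = φ (ψ' x) := by
  choose g hg using h
  refine ⟨{ toFun := g
            map_zero_eq_one' := hφ (by rw [hg, map_one, ψ.map_zero_eq_one])
            map_add_eq_mul' := fun x y => hφ (by rw [map_mul, hg, hg, hg, ψ.map_add_eq_mul]) },
    ?_, fun x => (hg x).symm⟩
  obtain ⟨x, hx⟩ := AddChar.ne_one_iff.1 hψ
  refine AddChar.ne_one_iff.2 ⟨x, fun h => hx ?_⟩
  have h' : g x = 1 := h
  rw [← hg, h', map_one]

theorem norm_gaussSum_sq (χ : MulChar F ℂ) (hχ : χ ≠ 1) (ψ : AddChar F ℂ) (hψ : ψ ≠ 1) :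
    ‖gaussSum χ ψ‖ ^ 2 = Fintype.card F := by
  have h := gaussSum_mul_gaussSum_eq_card hχ (AddChar.IsPrimitive.of_ne_one hψ)
  rw [← star_gaussSum_eq] at h
  have h2 := congrArg norm h
  rwa [norm_mul, norm_star, ← sq, Complex.norm_natCast] at h2

theorem norm_prod_gaussSum {m : ℕ} [NeZero m] (χ : MulChar F ℂ) (hχ : orderOf χ = m)
    (ψ : AddChar F ℂ) (hψ : ψ ≠ 1) {I : Type*} (s : Finset I) (a : I → ZMod m)
    (ha : ∀ i ∈ s, a i ≠ 0) (k : ℕ) (hk : s.card = 2 * k) :
    ‖∏ i ∈ s, gaussSum (χ ^ (a i).val) ψ‖ = (Fintype.card F : ℝ) ^ k := by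
  refine (pow_left_inj₀ (norm_nonneg _) (by positivity) two_ne_zero).1 ?_
  rw [norm_prod, ← prod_pow, prod_congr rfl fun i hi => norm_gaussSum_sq _
    (pow_ne_one_of_lt_orderOf ((ZMod.val_ne_zero _).2 (ha i hi)) (hχ ▸ ZMod.val_lt (a i))) ψ hψ,
    prod_const, hk, ← pow_mul, mul_comm]

theorem mulChar_pow_card {K : Type*} [Field K] (χ : MulChar F K) (x : F) (hx : x ≠ 0) :
    χ x ^ (Fintype.card F - 1) = 1 := by
  rw [← map_pow, FiniteField.pow_card_sub_one_eq_one x hx, map_one]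

omit [Fintype F] in
theorem addChar_pow_char {K : Type*} [Field K] (p : ℕ) [CharP F p] (ψ : AddChar F K) (x : F) :
    ψ x ^ p = 1 := by
  rw [← AddChar.map_nsmul_eq_pow, nsmul_eq_mul, CharP.cast_eq_zero, zero_mul,
    AddChar.map_zero_eq_one]

theorem isIntegral_quot {K : Type*} [Field K] [CharZero K] (p f m : ℕ) [hp : Fact p.Prime]
    [CharP F p] [NeZero m] (hq : Fintype.card F = p ^ f) (η : K)
    (hη : IsPrimitiveRoot η (Fintype.card F - 1)) (χ : MulChar F K) (hm : orderOf χ = m)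
    (ψ : AddChar F K) (hψ : ψ ≠ 1) {I : Type*} (s : Finset I) (a : I → ZMod m)
    (ha : ∀ i ∈ s, a i ≠ 0) (e : ℕ) (h : ∀ t : (ZMod m)ˣ,
      ∑ i ∈ s, ∑ j ∈ range f, ((t : ZMod m) * p ^ j * a i).val = e * m) :
    IsIntegral ℤ ((∏ i ∈ s, gaussSum (χ ^ (a i).val) ψ) / (p : K) ^ e) := by
  have hq1 : 1 < Fintype.card F := Fintype.one_lt_card
  have hq0 : Fintype.card F - 1 ≠ 0 := by omega
  have hpK : (p : K) ≠ 0 := Nat.cast_ne_zero.2 hp.out.ne_zero
  have key : ∀ V : ValuationSubring K,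
      (∏ i ∈ s, gaussSum (χ ^ (a i).val) ψ) / (p : K) ^ e ∈ V := by
    intro V
    obtain ⟨χ', hχ'⟩ := exists_mulChar_lift V.subtype V.subtype_injective χ fun x => by
      rcases eq_or_ne x 0 with rfl | hx
      · exact ⟨0, by rw [MulChar.map_zero, map_zero]⟩
      · exact ⟨⟨_, mem_of_pow_eq_one V _ _ hq0 (mulChar_pow_card χ x hx)⟩, rfl⟩
    obtain ⟨ψ', hψ', hψ''⟩ := exists_addChar_lift V.subtype V.subtype_injective ψ hψ fun x =>
      ⟨⟨_, mem_of_pow_eq_one V _ _ hp.out.ne_zero (addChar_pow_char p ψ x)⟩, rfl⟩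
    have hdvd : (p : V) ^ e ∣ ∏ i ∈ s, gaussSum (χ' ^ (a i).val) ψ' := by
      by_cases hV : IsUnit (p : V)
      · exact (hV.pow e).dvd
      have hη' : IsPrimitiveRoot (⟨η, mem_of_pow_eq_one V η _ hq0 hη.pow_eq_one⟩ : V)
          (Fintype.card F - 1) :=
        IsPrimitiveRoot.of_map_of_injective (f := V.subtype) hη V.subtype_injective
      have hp0 : (p : V) ≠ 0 := by
        intro h
        have := congrArg V.subtype h
        rw [map_natCast, map_zero] at this
        exact hpK this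
      have ho : orderOf χ' = m := (orderOf_map V.subtype V.subtype_injective χ' χ hχ').symm.trans hm
      obtain ⟨c, d, h1, h2, h3⟩ := stickelberger_local p f hp0 hV hq _ hη' χ'
      rw [ho] at h1 h2 h3
      have h5 := Associated.prod s _ _ fun i hi => h3 ψ' hψ' (a i).val fun hd => ha i hi (by
        rwa [← ZMod.natCast_eq_zero_iff, ZMod.natCast_zmod_val] at hd)
      have h6 : ∑ i ∈ s, ∑ j ∈ range f, p ^ j * (c * (a i).val) % m = e * m := by
        rw [← h (ZMod.unitOfCoprime c h1)]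
        refine sum_congr rfl fun i _ => sum_congr rfl fun j _ => ?_
        rw [← ZMod.val_natCast, ZMod.coe_unitOfCoprime]
        congr 1
        push_cast
        rw [ZMod.natCast_zmod_val]
        ring
      rw [prod_pow, prod_pow_eq_pow_sum, ← mul_sum, h6, mul_left_comm, ← h2, pow_mul] at h5
      exact (IsIntegrallyClosed.pow_dvd_pow_iff (hq ▸ hq0)).1 h5.symm.dvd
    obtain ⟨w, hw⟩ := hdvd
    have h7 := congrArg V.subtype hw
    rw [map_prod, map_mul, map_pow, map_natCast,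
      ← prod_congr rfl fun i _ => gauss_map V.subtype χ' ψ' χ ψ hχ' hψ'' (a i).val] at h7
    rw [h7, mul_div_cancel_left₀ _ (pow_ne_zero _ hpK)]
    exact w.2
  have h1 : (∏ i ∈ s, gaussSum (χ ^ (a i).val) ψ) / (p : K) ^ e ∈
      (integralClosure (Subring.closure (∅ : Set K)) K).toSubring := by
    rw [← iInf_valuationSubring_superset, Subring.mem_iInf]
    exact fun V => key V.1
  have : Algebra.IsIntegral ℤ (Subring.closure (∅ : Set K)) := ⟨fun y => by
    obtain ⟨n, hn⟩ : ∃ n : ℤ, (n : K) = y := by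
      exact Subring.mem_bot.1 ((Subring.closure_empty (R := K)).le y.2)
    have : y = algebraMap ℤ _ n := Subtype.ext (by simpa using hn.symm)
    rw [this]
    exact isIntegral_algebraMap⟩
  exact isIntegral_trans (A := Subring.closure (∅ : Set K)) _ h1

/-- Converse of `stickelberger_sum`. -/
theorem exists_pow_eq (p f m : ℕ) [hp : Fact p.Prime] [CharP F p] [NeZero m]
    (hq : Fintype.card F = p ^ f) (χ : MulChar F ℂ) (hm : orderOf χ = m)
    (ψ : AddChar F ℂ) (hψ : ψ ≠ 1) {I : Type*} (s : Finset I) (a : I → ZMod m)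
    (ha : ∀ i ∈ s, a i ≠ 0) (k : ℕ) (hk : s.card = 2 * k) (h : ∀ t : (ZMod m)ˣ,
      ∑ i ∈ s, ∑ j ∈ range f, ((t : ZMod m) * p ^ j * a i).val = f * k * m) :
    ∃ N, 0 < N ∧
      (∏ i ∈ s, gaussSum (χ ^ (a i).val) ψ) ^ N = (Fintype.card F : ℂ) ^ (k * N) := by
  have hq1 : 1 < Fintype.card F := Fintype.one_lt_card
  have hq0 : Fintype.card F - 1 ≠ 0 := by omega
  have : NeZero ((Fintype.card F - 1) * p) := ⟨mul_ne_zero hq0 hp.out.ne_zero⟩
  have hζ := Complex.isPrimitiveRoot_exp _ (NeZero.ne ((Fintype.card F - 1) * p))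
  set ζ := Complex.exp (2 * Real.pi * Complex.I / ((Fintype.card F - 1) * p : ℕ)) with hζdef
  let K := IntermediateField.adjoin ℚ {ζ}
  have hi : IsIntegral ℚ ζ := (hζ.isIntegral (NeZero.pos _)).tower_top
  have : FiniteDimensional ℚ K := IntermediateField.adjoin.finiteDimensional hi
  have : NumberField K := {}
  have hζK : ζ ∈ K := IntermediateField.mem_adjoin_simple_self ℚ ζ
  let ι : K →+* ℂ := algebraMap K ℂ
  have hmem : ∀ z : ℂ, z ^ ((Fintype.card F - 1) * p) = 1 → ∃ y, ι y = z := by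
    intro z hz
    obtain ⟨i, -, rfl⟩ := hζ.eq_pow_of_pow_eq_one hz
    exact ⟨⟨_, pow_mem hζK i⟩, rfl⟩
  obtain ⟨χ', hχ'⟩ := exists_mulChar_lift ι ι.injective χ fun x => by
    rcases eq_or_ne x 0 with rfl | hx
    · exact ⟨0, by rw [MulChar.map_zero, map_zero]⟩
    · exact hmem _ (by rw [pow_mul, mulChar_pow_card χ x hx, one_pow])
  obtain ⟨ψ', hψ', hψ''⟩ := exists_addChar_lift ι ι.injective ψ hψ fun x =>
    hmem _ (by rw [mul_comm, pow_mul, addChar_pow_char p ψ x, one_pow])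
  have ho : orderOf χ' = m := (orderOf_map ι ι.injective χ' χ hχ').symm.trans hm
  have hη : IsPrimitiveRoot (⟨ζ ^ p, pow_mem hζK p⟩ : K) (Fintype.card F - 1) :=
    IsPrimitiveRoot.of_map_of_injective (f := ι) (hζ.pow (NeZero.pos _) (mul_comm _ _))
      ι.injective
  have h1 := isIntegral_quot p f m hq _ hη χ' ho ψ' hψ' s a ha (f * k) h
  have hqR : (0 : ℝ) < (Fintype.card F : ℝ) ^ k := by positivity
  obtain ⟨N, hN, h2⟩ := NumberField.Embeddings.pow_eq_one_of_norm_eq_one K ℂ h1 fun φ => by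
    have e1 := norm_prod_gaussSum (χ'.ringHomComp φ)
      ((orderOf_map φ φ.injective χ' _ fun _ => rfl).trans ho) (φ.toMonoidHom.compAddChar ψ')
      (by
        obtain ⟨x, hx⟩ := AddChar.ne_one_iff.1 hψ'
        exact AddChar.ne_one_iff.2 ⟨x, fun h => hx (φ.injective (h.trans (map_one φ).symm))⟩)
      s a ha k hk
    rw [prod_congr rfl fun i _ => gauss_map φ χ' ψ' _ _ (fun _ => rfl) (fun _ => rfl) (a i).val,
      ← map_prod] at e1
    rw [map_div₀, norm_div, e1, map_pow, map_natCast, norm_pow, Complex.norm_natCast, pow_mul,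
      ← Nat.cast_pow p f, ← hq, div_self hqR.ne']
  refine ⟨N, hN, ?_⟩
  have h3 := congrArg ι h2
  rw [map_pow, map_div₀, map_prod, map_pow, map_natCast, map_one,
    ← prod_congr rfl fun i _ => gauss_map ι χ' ψ' χ ψ hχ' hψ'' (a i).val, div_pow,
    div_eq_one_iff_eq (pow_ne_zero _ (pow_ne_zero _ (Nat.cast_ne_zero.2 hp.out.ne_zero)))] at h3
  rw [h3, hq, Nat.cast_pow, ← pow_mul, ← pow_mul, mul_assoc]

end Pool.Agent.Shared.GaussKronecker
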