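import Pool.Agent.Shared.CookLevin

/-!
The number partitioning problem is hard for `NP`, also when the numbers are almost equal.
-/

set_option autoImplicit false

namespace Pool.Agent.Shared.PartitionNP

open Finset Pool.Agent.Shared.CookLevin Pool.Agent.Shared.PolyTime

/-- The numbers `a 0, ..., a (N - 1)` split into two parts of equal sum. -/
def Part (N : ℕ) (a : ℕ → ℕ) : Prop :=
  ∃ S ⊆ range N, 2 * ∑ p ∈ S, a p = ∑ p ∈ range N, a p

theorem digits_inj (B N : ℕ) : ∀ d d' : ℕ → ℕ, (∀ j < N, d j < B) → (∀ j < N, d' j < B) →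
    ∑ j ∈ range N, d j * B ^ j = ∑ j ∈ range N, d' j * B ^ j → ∀ j < N, d j = d' j := by
  induction N with
  | zero => intro d d' _ _ _ j hj; omega
  | succ N ih =>
    intro d d' hd hd' h
    have e : ∀ d : ℕ → ℕ, ∑ j ∈ range (N + 1), d j * B ^ j =
        d 0 + B * ∑ j ∈ range N, d (j + 1) * B ^ j := by
      intro d
      rw [sum_range_succ', mul_sum, add_comm]
      simp only [pow_zero, mul_one, pow_succ]
      congr 1
      exact sum_congr rfl fun j _ => by ring
    rw [e, e] at h
    have h0 := hd 0 (by omega)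
    have h0' := hd' 0 (by omega)
    have h1 : d 0 = d' 0 := by
      have := congrArg (· % B) h
      simpa [Nat.add_mul_mod_self_left, Nat.mod_eq_of_lt h0, Nat.mod_eq_of_lt h0'] using this
    rw [h1] at h
    have h2 := Nat.eq_of_mul_eq_mul_left (by omega) (Nat.add_left_cancel h)
    have h3 := ih (fun j => d (j + 1)) (fun j => d' (j + 1)) (fun j hj => hd _ (by omega))
      (fun j hj => hd' _ (by omega)) h2
    intro j hj
    cases j with
    | zero => exact h1
    | succ j => exact h3 j (by omega)

/-- numbers given by digits without carries -/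
theorem part_digits (B N D : ℕ) (dig : ℕ → ℕ → ℕ)
    (h : ∀ j < D, 2 * ∑ e ∈ range N, dig e j < B) :
    Part N (fun e => ∑ j ∈ range D, dig e j * B ^ j) ↔
      ∃ S ⊆ range N, ∀ j < D, 2 * ∑ e ∈ S, dig e j = ∑ e ∈ range N, dig e j := by
  refine exists_congr fun S => and_congr_right fun hS => ?_
  have e1 : 2 * ∑ e ∈ S, ∑ j ∈ range D, dig e j * B ^ j =
      ∑ j ∈ range D, (2 * ∑ e ∈ S, dig e j) * B ^ j := by
    rw [sum_comm, mul_sum]
    exact sum_congr rfl fun j _ => by rw [← sum_mul]; ring
  have e2 : ∑ e ∈ range N, ∑ j ∈ range D, dig e j * B ^ j =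
      ∑ j ∈ range D, (∑ e ∈ range N, dig e j) * B ^ j := by
    rw [sum_comm]
    exact sum_congr rfl fun j _ => by rw [← sum_mul]
  rw [e1, e2]
  constructor
  · refine digits_inj B D _ _ (fun j hj => ?_) (fun j hj => ?_)
    · have := sum_le_sum_of_subset (f := fun e => dig e j) hS
      have := h j hj
      omega
    · have := h j hj
      omega
  · intro h
    exact sum_congr rfl fun j hj => by rw [h j (mem_range.1 hj)]

/-- the item of a literal -/
def code (l : Bool × ℕ) : ℕ := 2 * l.2 + l.1.toNat

/-- indicator of equality -/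
def ind (e a : ℕ) : ℕ := if e = a then 1 else 0

/-- the clause number `j` -/
def cl (φ : E3 ℕ) (j : ℕ) : (Bool × ℕ) × (Bool × ℕ) × (Bool × ℕ) :=
  φ.getD j ((true, 0), (true, 0), (true, 0))

/-- digit `j` of item `e` -/
def dig (φ : E3 ℕ) (e j : ℕ) : ℕ :=
  if j < φ.length then
    ind e (code (cl φ j).1) + ind e (code (cl φ j).2.1) + ind e (code (cl φ j).2.2) +
      ind e (6 * φ.length + 2 * j) + ind e (6 * φ.length + 2 * j + 1) + ind e (8 * φ.length)
  else ind e (2 * (j - φ.length)) + ind e (2 * (j - φ.length) + 1)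

/-- indicator of membership -/
def chi (S : Finset ℕ) (a : ℕ) : ℕ := if a ∈ S then 1 else 0

theorem sum_ind (S : Finset ℕ) (a : ℕ) : ∑ e ∈ S, ind e a = chi S a := by
  unfold ind chi
  rw [sum_ite_eq']

theorem sum_dig (φ : E3 ℕ) (S : Finset ℕ) (j : ℕ) : ∑ e ∈ S, dig φ e j =
    if j < φ.length then
      chi S (code (cl φ j).1) + chi S (code (cl φ j).2.1) + chi S (code (cl φ j).2.2) +
      chi S (6 * φ.length + 2 * j) + chi S (6 * φ.length + 2 * j + 1) + chi S (8 * φ.length)
    else chi S (2 * (j - φ.length)) + chi S (2 * (j - φ.length) + 1) := by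
  unfold dig
  split_ifs <;> simp only [sum_add_distrib, sum_ind]

theorem cl_mem {φ : E3 ℕ} {j : ℕ} (h : j < φ.length) : cl φ j ∈ φ := by
  unfold cl
  rw [List.getD_eq_getElem _ _ h]
  exact List.getElem_mem h

theorem chi_le (S : Finset ℕ) (a : ℕ) : chi S a ≤ 1 := by unfold chi; split_ifs <;> omega

theorem code_lt {l : Bool × ℕ} {k : ℕ} (h : l.2 < 3 * k) : code l < 6 * k := by
  unfold code; have := Bool.toNat_le l.1; omega

theorem sum_dig_all {φ : E3 ℕ} (hφ : ∀ C ∈ φ, C.1.2 < 3 * φ.length ∧ C.2.1.2 < 3 * φ.length ∧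
    C.2.2.2 < 3 * φ.length) {j : ℕ} (hj : j < 4 * φ.length) :
    ∑ e ∈ range (8 * φ.length + 1), dig φ e j = if j < φ.length then 6 else 2 := by
  rw [sum_dig]
  have hc : ∀ a < 8 * φ.length + 1, chi (range (8 * φ.length + 1)) a = 1 := fun a ha =>
    if_pos (mem_range.2 ha)
  split_ifs with h
  · obtain ⟨h1, h2, h3⟩ := hφ _ (cl_mem h)
    have h1 := code_lt h1
    have h2 := code_lt h2
    have h3 := code_lt h3
    rw [hc _ (by omega), hc _ (by omega), hc _ (by omega), hc _ (by omega), hc _ (by omega),
      hc _ (by omega)]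
  · rw [hc _ (by omega), hc _ (by omega)]

theorem sat3_iff {φ : E3 ℕ} (hφ : ∀ C ∈ φ, C.1.2 < 3 * φ.length ∧ C.2.1.2 < 3 * φ.length ∧
    C.2.2.2 < 3 * φ.length) : Sat3 φ ↔
    Part (8 * φ.length + 1) (fun e => ∑ j ∈ range (4 * φ.length), dig φ e j * 16 ^ j) := by
  rw [part_digits _ _ _ _ (fun j hj => by rw [sum_dig_all hφ hj]; split_ifs <;> omega)]
  set k := φ.length with hk
  constructor
  · rintro ⟨τ, hτ⟩
    let tv : Bool × ℕ → ℕ := fun l => if τ l.2 = l.1 then 1 else 0
    let cnt : ℕ → ℕ := fun j => tv (cl φ j).1 + tv (cl φ j).2.1 + tv (cl φ j).2.2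
    let S := (range (8 * k + 1)).filter fun e =>
      if e < 6 * k then (τ (e / 2)).toNat = e % 2
      else e < 8 * k ∧ cnt ((e - 6 * k) / 2) + e % 2 ≤ 2
    have hl : ∀ l : Bool × ℕ, l.2 < 3 * k → chi S (code l) = tv l := by
      intro l hl
      have h1 := code_lt hl
      have h2 : code l / 2 = l.2 := by unfold code; have := Bool.toNat_le l.1; omega
      have h3 : code l % 2 = l.1.toNat := by unfold code; have := Bool.toNat_le l.1; omega
      simp only [chi, S, tv, mem_filter, mem_range, if_pos h1, h2, h3]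
      refine if_congr ?_ rfl rfl
      rw [and_iff_right (by omega)]
      cases τ l.2 <;> cases l.1 <;> simp
    refine ⟨S, filter_subset _ _, fun j hj => ?_⟩
    rw [sum_dig_all hφ hj, sum_dig, ← hk]
    split_ifs with h
    · obtain ⟨h1, h2, h3⟩ := hφ _ (cl_mem h)
      rw [hl _ h1, hl _ h2, hl _ h3]
      have c1 : chi S (6 * k + 2 * j) = if cnt j ≤ 2 then 1 else 0 := by
        have e1 : (6 * k + 2 * j - 6 * k) / 2 = j := by omega
        have e2 : (6 * k + 2 * j) % 2 = 0 := by omega
        simp only [chi, S, mem_filter, mem_range, if_neg (show ¬ 6 * k + 2 * j < 6 * k by omega),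
          e1, e2]
        refine if_congr ?_ rfl rfl
        omega
      have c2 : chi S (6 * k + 2 * j + 1) = if cnt j ≤ 1 then 1 else 0 := by
        have e1 : (6 * k + 2 * j + 1 - 6 * k) / 2 = j := by omega
        have e2 : (6 * k + 2 * j + 1) % 2 = 1 := by omega
        simp only [chi, S, mem_filter, mem_range,
          if_neg (show ¬ 6 * k + 2 * j + 1 < 6 * k by omega), e1, e2]
        refine if_congr ?_ rfl rfl
        omega
      have c3 : chi S (8 * k) = 0 := by
        simp only [chi, S, mem_filter, mem_range, if_neg (show ¬ 8 * k < 6 * k by omega)]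
        rw [if_neg (by omega)]
      have c4 : 1 ≤ cnt j := by
        simp only [cnt, tv]
        rcases hτ _ (cl_mem h) with h | h | h <;> rw [if_pos h] <;> omega
      have c5 : cnt j ≤ 3 := by
        simp only [cnt, tv]
        split_ifs <;> omega
      rw [c1, c2, c3]
      change 2 * (cnt j + _ + _ + 0) = 6
      split_ifs <;> omega
    · have h1 := hl (false, j - k) (by simp only; omega)
      have h2 := hl (true, j - k) (by simp only; omega)
      simp only [code, Bool.toNat_false, Bool.toNat_true, add_zero] at h1 h2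
      rw [h1, h2]
      simp only [tv]
      cases τ (j - k) <;> simp
  · rintro ⟨S, -, hS⟩
    have hv : ∀ v < 3 * k, chi S (2 * v) + chi S (2 * v + 1) = 1 := by
      intro v hv
      have := hS (k + v) (by omega)
      rw [sum_dig_all hφ (by omega), sum_dig, ← hk, if_neg (by omega), if_neg (by omega),
        Nat.add_sub_cancel_left] at this
      omega
    refine ⟨fun v => decide (chi S (2 * v + 1) + chi S (8 * k) = 1), fun C hC => ?_⟩
    obtain ⟨j, hj, rfl⟩ := List.getElem_of_mem hC
    have hc : cl φ j = φ[j] := by unfold cl; rw [List.getD_eq_getElem _ _ hj]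
    have h0 := hS j (by omega)
    rw [sum_dig_all hφ (by omega), sum_dig, ← hk, if_pos hj, if_pos hj, hc] at h0
    have hl : ∀ l : Bool × ℕ, l.2 < 3 * k → chi S (code l) + chi S (8 * k) = 1 →
        decide (chi S (2 * l.2 + 1) + chi S (8 * k) = 1) = l.1 := by
      rintro ⟨b, v⟩ hl h
      have h1 := hv v hl
      have h2 := chi_le S (8 * k)
      cases b
      · simp only [code, Bool.toNat_false, add_zero] at h
        simp only [decide_eq_false_iff_not]
        omega
      · simpa [code] using h
    obtain ⟨h1, h2, h3⟩ := hφ _ hC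
    have a1 := chi_le S (code φ[j].1)
    have a2 := chi_le S (code φ[j].2.1)
    have a3 := chi_le S (code φ[j].2.2)
    have a4 := chi_le S (6 * k + 2 * j)
    have a5 := chi_le S (6 * k + 2 * j + 1)
    have a6 := chi_le S (8 * k)
    by_contra hcon
    push Not at hcon
    have b1 := mt (hl _ h1) hcon.1
    have b2 := mt (hl _ h2) hcon.2.1
    have b3 := mt (hl _ h3) hcon.2.2
    omega

/-- padding with zeros and adding a large constant -/
theorem part_shift (N M : ℕ) (a : ℕ → ℕ) (hM : ∑ p ∈ range N, a p < M) :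
    Part N a ↔ Part (2 * (N + 1)) (fun p => M + if p < N then a p else 0) := by
  have e : ∀ S : Finset ℕ, ∑ p ∈ S, (M + if p < N then a p else 0) =
      S.card * M + ∑ p ∈ S ∩ range N, a p := by
    intro S
    rw [sum_add_distrib, sum_const, smul_eq_mul, ← sum_filter]
    congr 2
    ext p
    simp
  have e0 : range (2 * (N + 1)) ∩ range N = range N := by
    ext p; simp only [mem_inter, mem_range]; omega
  unfold Part
  simp only [e, e0, card_range]
  constructor
  · rintro ⟨S, hS, h⟩
    have hc : S.card ≤ N := by simpa using card_le_card hS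
    have hd : Disjoint S (Ico N (N + (N + 1 - S.card))) := by
      rw [disjoint_left]
      intro p hp hp'
      have := mem_range.1 (hS hp)
      have := (mem_Ico.1 hp').1
      omega
    refine ⟨S ∪ Ico N (N + (N + 1 - S.card)), fun p hp => ?_, ?_⟩
    · rcases mem_union.1 hp with hp | hp
      · have := mem_range.1 (hS hp); simp only [mem_range]; omega
      · have := (mem_Ico.1 hp).2; simp only [mem_range]; omega
    · have e1 : (S ∪ Ico N (N + (N + 1 - S.card))) ∩ range N = S := by
        ext p
        simp only [mem_inter, mem_union, mem_Ico, mem_range]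
        constructor
        · rintro ⟨h | h, h'⟩
          · exact h
          · omega
        · exact fun h => ⟨Or.inl h, mem_range.1 (hS h)⟩
      rw [e1, card_union_of_disjoint hd, Nat.card_Ico]
      have e2 : S.card + (N + (N + 1 - S.card) - N) = N + 1 := by omega
      rw [e2, mul_add, h]
      ring
  · rintro ⟨S, -, h⟩
    refine ⟨S ∩ range N, inter_subset_right, ?_⟩
    have h1 : ∑ p ∈ S ∩ range N, a p ≤ ∑ p ∈ range N, a p :=
      sum_le_sum_of_subset inter_subset_right
    rcases lt_trichotomy S.card (N + 1) with hc | hc | hc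
    · have : S.card * M ≤ N * M := Nat.mul_le_mul_right _ (by omega)
      nlinarith
    · rw [hc] at h
      nlinarith
    · have : (N + 2) * M ≤ S.card * M := Nat.mul_le_mul_right _ (by omega)
      have e1 : (N + 2) * M = N * M + 2 * M := by ring
      have e2 : 2 * (N + 1) * M = 2 * (N * M) + 2 * M := by ring
      omega

/-- the numbers of the reduction -/
def num (φ : E3 ℕ) (e : ℕ) : ℕ :=
  ((List.range (4 * φ.length)).map fun j => dig φ e j * 16 ^ (min j (4 * φ.length))).sum

theorem list_sum_range (N : ℕ) (g : ℕ → ℕ) :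
    ((List.range N).map g).sum = ∑ j ∈ range N, g j := by
  induction N with
  | zero => simp
  | succ N ih => rw [List.range_succ, List.map_append, List.sum_append, ih, sum_range_succ]; simp

theorem num_eq (φ : E3 ℕ) (e : ℕ) :
    num φ e = ∑ j ∈ range (4 * φ.length), dig φ e j * 16 ^ j := by
  unfold num
  rw [list_sum_range]
  exact sum_congr rfl fun j hj => by rw [min_eq_left (mem_range.1 hj).le]

@[fun_prop] theorem num_pt {α : Type} [N487b59b3 α] {φ : α → E3 ℕ} {e : α → ℕ} (h : PT φ)
    (he : PT e) : PT (fun a => num (φ a) (e a)) := by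
  unfold num dig cl ind code; fun_prop

/-- Number partitioning is hard for `NP`. -/
theorem partition_hard {L : List Bool → Bool} (hL : L ∈ N68a2faeb.NP) :
    ∃ (N : List Bool → ℕ) (a : List Bool → ℕ → ℕ), PT N ∧ PB N ∧
      PT (fun q : List Bool × ℕ => a q.1 q.2) ∧ ∀ x, 1 ≤ N x ∧ (L x = true ↔ Part (N x) (a x)) := by
  obtain ⟨f, hf, h⟩ := cook_levin_e3 hL
  refine ⟨fun x => 8 * (f x).length + 1, fun x => num (f x), by fun_prop, by fun_prop,
    by fun_prop, fun x => ⟨Nat.le_add_left _ _, ?_⟩⟩
  obtain ⟨-, h1, h2⟩ := h x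
  rw [h2, sat3_iff h1]
  simp only [← num_eq]

/-- Number partitioning is hard for `NP` for an even number `2 * (k + 1)` of numbers in an
interval `[M, M + w]` with `n * (k + 1) * w < M`. -/
theorem partition_hard_near {L : List Bool → Bool} (hL : L ∈ N68a2faeb.NP) (n : ℕ) (hn : 1 ≤ n) :
    ∃ (k : List Bool → ℕ) (b : List Bool → ℕ → ℕ), PT k ∧ PB k ∧
      PT (fun q : List Bool × ℕ => b q.1 q.2) ∧ ∀ x, 1 ≤ k x ∧
        (∃ M w, n * (k x + 1) * w < M ∧ ∀ p < 2 * (k x + 1), M ≤ b x p ∧ b x p ≤ M + w) ∧
        (L x = true ↔ Part (2 * (k x + 1)) (b x)) := by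
  obtain ⟨N, a, hN, hN', ha, h⟩ := partition_hard hL
  let W : List Bool → ℕ := fun x => ((List.range (N x)).map (a x)).sum
  have hW : PT W := PT.sum (PT.map (h := a) (PT.range hN hN') ha)
  refine ⟨N, fun x p => (n * (N x + 1) * W x + 1) + if p < N x then a x p else 0, hN, hN',
    PT.add (by fun_prop) (PT.ite (by fun_prop) ha (by fun_prop)), fun x => ⟨(h x).1,
      ⟨n * (N x + 1) * W x + 1, W x, by omega, fun p _ => ⟨Nat.le_add_right _ _, ?_⟩⟩, ?_⟩⟩
  · beta_reduce
    split_ifs with hp
    · have : a x p ≤ W x := by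
        simp only [W, list_sum_range]
        exact single_le_sum (f := a x) (fun _ _ => Nat.zero_le _) (mem_range.2 hp)
      omega
    · omega
  · rw [(h x).2]
    refine part_shift _ _ _ ?_
    rw [← list_sum_range]
    have : 1 * W x ≤ n * (N x + 1) * W x := Nat.mul_le_mul_right _ (Nat.mul_pos hn (by omega))
    change W x < _
    omega

end Pool.Agent.Shared.PartitionNP
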