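import Pool.Agent.Shared.LDefin

/-!
A toolkit of predicates and operations definable over `L`, including `∈`-recursion.
-/

universe u

namespace Pool.Agent.Shared.LDefs

open ZFSet

theorem Dfn.rename {P : E.{u} → Prop} (h : Dfn P) :
    ∀ σ : ℕ → ℕ, Dfn (fun v => P (fun i => v (σ i))) := by
  induction h with
  | mem i j => exact fun σ => .mem _ _
  | eq i j => exact fun σ => .eq _ _
  | eqc i c hc => exact fun σ => .eqc _ c hc
  | not _ ih => exact fun σ => (ih σ).not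
  | and _ _ ih1 ih2 => exact fun σ => (ih1 σ).and (ih2 σ)
  | @ex' P _ ih =>
    intro σ
    refine (ih (fun i => match i with | 0 => 0 | i + 1 => σ i + 1)).ex'.congr fun v _ => ?_
    refine exists_congr fun x => and_congr_right fun _ => iff_of_eq (congrArg P ?_)
    funext i
    cases i <;> rfl
  | congr _ hPQ ih => exact fun σ => (ih σ).congr fun v hv => hPQ _ (fun i => hv _)

/-- Operations definable over `L`, under which `L` is closed. -/
def Tm (t : E.{u} → ZFSet.{u}) : Prop :=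
  (∀ v, EL v → t v ∈ L) ∧ Dfn (fun w => w 0 = t (tl w))

lemma Tm.mem_L {t : E.{u} → ZFSet.{u}} (h : Tm t) {v : E.{u}} (hv : EL v) : t v ∈ L := h.1 v hv

lemma Tm.rename {t : E.{u} → ZFSet.{u}} (h : Tm t) (σ : ℕ → ℕ) :
    Tm (fun v => t (fun i => v (σ i))) :=
  ⟨fun _ hv => h.1 _ (fun _ => hv _),
    h.2.rename (fun i => match i with | 0 => 0 | i + 1 => σ i + 1)⟩

lemma Tm.var (i : ℕ) : Tm.{u} (fun v => v i) := ⟨fun _ hv => hv i, .eq 0 (i + 1)⟩

lemma Tm.const {c : ZFSet.{u}} (hc : c ∈ L) : Tm (fun _ => c) := ⟨fun _ _ => hc, .eqc 0 c hc⟩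

lemma Tm.tl {t : E.{u} → ZFSet.{u}} (h : Tm t) : Tm (fun v => t (tl v)) := h.rename (· + 1)

lemma Dfn.tl {P : E.{u} → Prop} (h : Dfn P) : Dfn (fun v => P (tl v)) := h.rename (· + 1)

lemma Tm.congr {s t : E.{u} → ZFSet.{u}} (h : Tm s) (e : ∀ v, EL v → s v = t v) : Tm t :=
  ⟨fun v hv => e v hv ▸ h.1 v hv, h.2.congr fun w hw => by rw [e _ hw.tl]⟩

lemma Tm.lift {F : ZFSet.{u} → E.{u} → ZFSet.{u}} (h : Tm (fun w => F (w 0) (LDefs.tl w))) :
    Tm (fun w => F (w 0) (LDefs.tl (LDefs.tl w))) :=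
  h.rename (fun i => match i with | 0 => 0 | i + 1 => i + 2)

lemma Dfn.lift {F : ZFSet.{u} → E.{u} → Prop} (h : Dfn (fun w => F (w 0) (LDefs.tl w))) :
    Dfn (fun w => F (w 0) (LDefs.tl (LDefs.tl w))) :=
  h.rename (fun i => match i with | 0 => 0 | i + 1 => i + 2)

lemma Dfn.ex {P : ZFSet.{u} → E.{u} → Prop} (h : Dfn (fun w => P (w 0) (LDefs.tl w))) :
    Dfn (fun v => ∃ x ∈ L, P x v) := h.ex'

lemma Dfn.subst {P : ZFSet.{u} → E.{u} → Prop} {t : E.{u} → ZFSet.{u}}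
    (h : Dfn (fun w => P (w 0) (LDefs.tl w))) (ht : Tm t) : Dfn (fun v => P (t v) v) :=
  (ht.2.and h).ex'.congr fun v hv =>
    ⟨fun ⟨_, _, e, hP⟩ => by
      simp only [cons_zero, tl_cons] at e hP
      exact e ▸ hP, fun hP => ⟨t v, ht.1 v hv, rfl, hP⟩⟩

lemma Tm.subst {F : ZFSet.{u} → E.{u} → ZFSet.{u}} {t : E.{u} → ZFSet.{u}}
    (h : Tm (fun w => F (w 0) (LDefs.tl w))) (ht : Tm t) : Tm (fun v => F (t v) v) := by
  refine ⟨fun v hv => h.1 (cons (t v) v) (hv.cons (ht.1 v hv)), ?_⟩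
  refine Dfn.subst (P := fun x w => w 0 = F x (LDefs.tl w)) ?_ ht.tl
  exact h.2.rename (fun i => match i with | 0 => 1 | 1 => 0 | i + 2 => i + 2)

lemma Dfn.mem' {s t : E.{u} → ZFSet.{u}} (hs : Tm s) (ht : Tm t) : Dfn (fun v => s v ∈ t v) :=
  Dfn.subst (P := fun y v => s v ∈ y)
    (Dfn.subst (P := fun x w => x ∈ w 0) (.mem 0 1) hs.tl) ht

lemma Dfn.eq' {s t : E.{u} → ZFSet.{u}} (hs : Tm s) (ht : Tm t) : Dfn (fun v => s v = t v) :=
  Dfn.subst (P := fun y v => s v = y)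
    (Dfn.subst (P := fun x w => x = w 0) (.eq 0 1) hs.tl) ht

lemma Dfn.or {P Q : E.{u} → Prop} (hP : Dfn P) (hQ : Dfn Q) : Dfn (fun v => P v ∨ Q v) :=
  (hP.not.and hQ.not).not.congr fun _ _ => by tauto

lemma Dfn.imp {P Q : E.{u} → Prop} (hP : Dfn P) (hQ : Dfn Q) : Dfn (fun v => P v → Q v) :=
  (hP.and hQ.not).not.congr fun _ _ => by tauto

lemma Dfn.iff {P Q : E.{u} → Prop} (hP : Dfn P) (hQ : Dfn Q) : Dfn (fun v => P v ↔ Q v) :=
  ((hP.imp hQ).and (hQ.imp hP)).congr fun _ _ => by tauto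

lemma Dfn.all {P : ZFSet.{u} → E.{u} → Prop} (h : Dfn (fun w => P (w 0) (LDefs.tl w))) :
    Dfn (fun v => ∀ x ∈ L, P x v) :=
  (Dfn.ex (P := fun x v => ¬ P x v) h.not).not.congr fun _ _ => by push Not; rfl

lemma Dfn.bex {P : ZFSet.{u} → E.{u} → Prop} {t : E.{u} → ZFSet.{u}} (ht : Tm t)
    (h : Dfn (fun w => P (w 0) (LDefs.tl w))) : Dfn (fun v => ∃ x ∈ t v, P x v) :=
  (Dfn.ex (P := fun x v => x ∈ t v ∧ P x v) ((Dfn.mem' (.var 0) ht.tl).and h)).congr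
    fun v hv => ⟨fun ⟨x, _, h⟩ => ⟨x, h⟩, fun ⟨x, h⟩ => ⟨x, L_trans (ht.1 v hv) h.1, h⟩⟩

lemma Dfn.ball {P : ZFSet.{u} → E.{u} → Prop} {t : E.{u} → ZFSet.{u}} (ht : Tm t)
    (h : Dfn (fun w => P (w 0) (LDefs.tl w))) : Dfn (fun v => ∀ x ∈ t v, P x v) :=
  (Dfn.bex (P := fun x v => ¬ P x v) ht h.not).not.congr fun _ _ => by push Not; rfl

lemma Dfn.subset {s t : E.{u} → ZFSet.{u}} (hs : Tm s) (ht : Tm t) :
    Dfn (fun v => s v ⊆ t v) :=
  (Dfn.ball (P := fun x v => x ∈ t v) hs (Dfn.mem' (.var 0) ht.tl)).congr fun _ _ => Iff.rfl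

lemma Tm.ofMem {t : E.{u} → ZFSet.{u}} {P : ZFSet.{u} → E.{u} → Prop}
    (hP : Dfn (fun w => P (w 0) (LDefs.tl w))) (hL : ∀ v, EL v → ∀ x ∈ t v, x ∈ L)
    (h : ∀ v, EL v → ∀ x ∈ L, (x ∈ t v ↔ P x v)) : Tm t := by
  have h1 : ∀ v, EL v → t v ∈ L := fun v hv => comprehension hP hv (hL v hv) (h v hv)
  refine ⟨h1, ?_⟩
  refine (Dfn.all (P := fun x w => x ∈ w 0 ↔ P x (LDefs.tl w))
    ((Dfn.mem 0 1).iff hP.lift)).congr fun w hw => ⟨fun H => ?_, fun H x hx => ?_⟩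
  · ext x
    constructor
    · intro hx
      have := L_trans (hw 0) hx
      exact (h _ hw.tl x this).2 ((H x this).1 hx)
    · intro hx
      have := hL _ hw.tl x hx
      exact (H x this).2 ((h _ hw.tl x this).1 hx)
  · rw [H, h _ hw.tl x hx]

lemma Tm.sep {P : ZFSet.{u} → E.{u} → Prop} {t : E.{u} → ZFSet.{u}} (ht : Tm t)
    (h : Dfn (fun w => P (w 0) (LDefs.tl w))) : Tm (fun v => (t v).sep (fun x => P x v)) :=
  Tm.ofMem (P := fun x v => x ∈ t v ∧ P x v) ((Dfn.mem' (.var 0) ht.tl).and h)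
    (fun v hv _ hx => L_trans (ht.1 v hv) (mem_sep.1 hx).1) (fun _ _ _ _ => mem_sep)

lemma empty_mem_L : (∅ : ZFSet.{u}) ∈ L := by
  have : Lset.{u} 0 = ∅ := by ext x; simp [mem_Lset]
  exact this ▸ Lset_mem_L 0

lemma Tm.empty : Tm.{u} (fun _ => ∅) := .const empty_mem_L

lemma Tm.insert {s t : E.{u} → ZFSet.{u}} (hs : Tm s) (ht : Tm t) :
    Tm (fun v => insert (s v) (t v)) :=
  Tm.ofMem (P := fun x v => x = s v ∨ x ∈ t v)
    ((Dfn.eq' (.var 0) hs.tl).or (Dfn.mem' (.var 0) ht.tl))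
    (fun v hv x hx => by
      rcases mem_insert_iff.1 hx with rfl | hx
      exacts [hs.1 v hv, L_trans (ht.1 v hv) hx]) (fun _ _ _ _ => mem_insert_iff)

lemma Tm.singleton {s : E.{u} → ZFSet.{u}} (hs : Tm s) : Tm (fun v => {s v}) :=
  (hs.insert .empty).congr fun _ _ => by ext; simp

lemma Tm.pair {s t : E.{u} → ZFSet.{u}} (hs : Tm s) (ht : Tm t) :
    Tm (fun v => pair (s v) (t v)) :=
  hs.singleton.insert (hs.insert ht.singleton).singleton

lemma Tm.sUnion {s : E.{u} → ZFSet.{u}} (hs : Tm s) : Tm (fun v => ⋃₀ (s v)) :=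
  Tm.ofMem (P := fun x v => ∃ z ∈ s v, x ∈ z) (Dfn.bex hs.tl (Dfn.mem 1 0))
    (fun v hv x hx => by
      obtain ⟨z, hz, hx⟩ := mem_sUnion.1 hx
      exact L_trans (L_trans (hs.1 v hv) hz) hx) (fun _ _ _ _ => mem_sUnion)

lemma Tm.union {s t : E.{u} → ZFSet.{u}} (hs : Tm s) (ht : Tm t) : Tm (fun v => s v ∪ t v) :=
  (hs.insert ht.singleton).sUnion

lemma Tm.diff {s t : E.{u} → ZFSet.{u}} (hs : Tm s) (ht : Tm t) : Tm (fun v => s v \ t v) :=
  Tm.sep (P := fun x v => x ∉ t v) hs (Dfn.mem' (.var 0) ht.tl).not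

lemma Tm.inter {s t : E.{u} → ZFSet.{u}} (hs : Tm s) (ht : Tm t) : Tm (fun v => s v ∩ t v) :=
  Tm.sep (P := fun x v => x ∈ t v) hs (Dfn.mem' (.var 0) ht.tl)

/-- Image of a set under an operation. -/
noncomputable def img (F : ZFSet.{u} → ZFSet.{u}) (s : ZFSet.{u}) : ZFSet.{u} :=
  range (fun y : s => F y)

@[simp] lemma mem_img {F : ZFSet.{u} → ZFSet.{u}} {s z : ZFSet.{u}} :
    z ∈ img F s ↔ ∃ y ∈ s, F y = z := by simp [img]

lemma Tm.img {F : ZFSet.{u} → E.{u} → ZFSet.{u}} {s : E.{u} → ZFSet.{u}} (hs : Tm s)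
    (h : Tm (fun w => F (w 0) (LDefs.tl w))) : Tm (fun v => img (fun y => F y v) (s v)) :=
  Tm.ofMem (P := fun x v => ∃ y ∈ s v, F y v = x)
    (Dfn.bex hs.tl (Dfn.eq' h.lift (.var 1)))
    (fun v hv x hx => by
      obtain ⟨y, hy, rfl⟩ := mem_img.1 hx
      exact h.1 (cons y v) (hv.cons (L_trans (hs.1 v hv) hy))) (fun _ _ _ _ => mem_img)

/-- Indexed union over a set. -/
noncomputable def bun (s : ZFSet.{u}) (F : ZFSet.{u} → ZFSet.{u}) : ZFSet.{u} := ⋃₀ (img F s)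

@[simp] lemma mem_bun {F : ZFSet.{u} → ZFSet.{u}} {s z : ZFSet.{u}} :
    z ∈ bun s F ↔ ∃ y ∈ s, z ∈ F y := by simp [bun]

lemma Tm.bun {F : ZFSet.{u} → E.{u} → ZFSet.{u}} {s : E.{u} → ZFSet.{u}} (hs : Tm s)
    (h : Tm (fun w => F (w 0) (LDefs.tl w))) : Tm (fun v => bun (s v) (fun y => F y v)) :=
  (hs.img h).sUnion

/-- First projection of a Kuratowski pair. -/
def fst (p : ZFSet.{u}) : ZFSet.{u} := ⋃₀ ((⋃₀ p).sep fun x => ∀ z ∈ p, x ∈ z)

/-- Second projection of a Kuratowski pair. -/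
def snd (p : ZFSet.{u}) : ZFSet.{u} := ⋃₀ ((⋃₀ p).sep fun y => p = pair (fst p) y)

/-- Value of a set function. -/
def app (f x : ZFSet.{u}) : ZFSet.{u} := ⋃₀ ((⋃₀ (⋃₀ f)).sep fun y => pair x y ∈ f)

/-- Definition by cases. -/
def cases (P : Prop) (a b : ZFSet.{u}) : ZFSet.{u} := a.sep (fun _ => P) ∪ b.sep (fun _ => ¬ P)

@[simp] lemma fst_pair (a b : ZFSet.{u}) : fst (pair a b) = a := by
  have : (⋃₀ (pair a b)).sep (fun x => ∀ z ∈ pair a b, x ∈ z) = {a} := by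
    ext x
    simp only [pair, mem_sep, mem_sUnion, mem_pair, mem_singleton, forall_eq_or_imp, forall_eq,
      exists_eq_or_imp, exists_eq_left]
    tauto
  rw [fst, this, sUnion_singleton]

@[simp] lemma snd_pair (a b : ZFSet.{u}) : snd (pair a b) = b := by
  have : (⋃₀ (pair a b)).sep (fun y => pair a b = pair (fst (pair a b)) y) = {b} := by
    ext x
    simp only [fst_pair, pair_inj, true_and, mem_sep, mem_singleton]
    constructor
    · exact fun h => h.2.symm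
    · rintro rfl
      simp [pair]
  rw [snd, this, sUnion_singleton]

@[simp] lemma fst_empty : fst (∅ : ZFSet.{u}) = ∅ := by simp [fst]
@[simp] lemma snd_empty : snd (∅ : ZFSet.{u}) = ∅ := by simp [snd]

lemma app_eq {f x y : ZFSet.{u}} (h : pair x y ∈ f) (hu : ∀ y', pair x y' ∈ f → y' = y) :
    app f x = y := by
  have : (⋃₀ (⋃₀ f)).sep (fun y => pair x y ∈ f) = {y} := by
    ext z
    simp only [mem_sep, mem_singleton]
    constructor
    · exact fun h => hu z h.2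
    · rintro rfl
      refine ⟨mem_sUnion.2 ⟨{x, z}, mem_sUnion.2 ⟨_, h, by simp [pair]⟩, by simp⟩, h⟩
  rw [app, this, sUnion_singleton]

lemma cases_pos {P : Prop} (h : P) (a b : ZFSet.{u}) : cases P a b = a := by
  ext; simp [cases, h]

lemma cases_neg {P : Prop} (h : ¬ P) (a b : ZFSet.{u}) : cases P a b = b := by
  ext; simp [cases, h]

lemma Tm.fst {s : E.{u} → ZFSet.{u}} (hs : Tm s) : Tm (fun v => fst (s v)) :=
  (Tm.sep (P := fun x v => ∀ z ∈ s v, x ∈ z) hs.sUnion (Dfn.ball hs.tl (.mem 1 0))).sUnion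

lemma Tm.snd {s : E.{u} → ZFSet.{u}} (hs : Tm s) : Tm (fun v => snd (s v)) :=
  (Tm.sep (P := fun y v => s v = ZFSet.pair (LDefs.fst (s v)) y) hs.sUnion
    (Dfn.eq' hs.tl (hs.tl.fst.pair (.var 0)))).sUnion

lemma Tm.app {s t : E.{u} → ZFSet.{u}} (hs : Tm s) (ht : Tm t) :
    Tm (fun v => app (s v) (t v)) :=
  (Tm.sep (P := fun y v => ZFSet.pair (t v) y ∈ s v) hs.sUnion.sUnion
    (Dfn.mem' (ht.tl.pair (.var 0)) hs.tl)).sUnion

lemma Tm.cases {P : E.{u} → Prop} {s t : E.{u} → ZFSet.{u}} (hP : Dfn P) (hs : Tm s)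
    (ht : Tm t) : Tm (fun v => cases (P v) (s v) (t v)) :=
  (Tm.sep (P := fun _ v => P v) hs hP.tl).union (Tm.sep (P := fun _ v => ¬ P v) ht hP.tl.not)

/-- The constructible power set. -/
def powL (s : ZFSet.{u}) : ZFSet.{u} := s.powerset.sep (· ∈ L)

lemma mem_powL {s x : ZFSet.{u}} : x ∈ powL s ↔ x ⊆ s ∧ x ∈ L := by simp [powL]

lemma Tm.powL {s : E.{u} → ZFSet.{u}} (hs : Tm s) : Tm (fun v => powL (s v)) :=
  Tm.ofMem (P := fun x v => x ⊆ s v) (Dfn.subset (.var 0) hs.tl)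
    (fun _ _ _ hx => (mem_powL.1 hx).2) (fun _ _ _ hx => by simp [mem_powL, hx])

/-- Graph of an operation restricted to a set. -/
noncomputable def gr (F : ZFSet.{u} → ZFSet.{u}) (s : ZFSet.{u}) : ZFSet.{u} :=
  img (fun y => pair y (F y)) s

lemma app_gr {F : ZFSet.{u} → ZFSet.{u}} {s y : ZFSet.{u}} (hy : y ∈ s) :
    app (gr F s) y = F y := by
  apply app_eq
  · exact mem_img.2 ⟨y, hy, rfl⟩
  · intro y' h
    obtain ⟨z, _, e⟩ := mem_img.1 h
    obtain ⟨rfl, rfl⟩ := pair_inj.1 e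
    rfl

lemma gr_congr {F G : ZFSet.{u} → ZFSet.{u}} {s : ZFSet.{u}} (h : ∀ y ∈ s, F y = G y) :
    gr F s = gr G s := by
  ext z
  simp only [gr, mem_img]
  exact exists_congr fun y => and_congr_right fun hy => by rw [h y hy]

lemma Tm.gr {F : ZFSet.{u} → E.{u} → ZFSet.{u}} {s : E.{u} → ZFSet.{u}} (hs : Tm s)
    (h : Tm (fun w => F (w 0) (LDefs.tl w))) : Tm (fun v => gr (fun y => F y v) (s v)) :=
  Tm.img (F := fun y v => ZFSet.pair y (F y v)) hs ((Tm.var 0).pair h)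

/-- `∈`-recursion. -/
noncomputable def zrec (G : ZFSet.{u} → ZFSet.{u} → ZFSet.{u}) : ZFSet.{u} → ZFSet.{u} :=
  mem_wf.fix fun x ih => G x (range fun y : x => pair y (ih y y.2))

lemma zrec_eq (G : ZFSet.{u} → ZFSet.{u} → ZFSet.{u}) (x : ZFSet.{u}) :
    zrec G x = G x (gr (zrec G) x) := by
  rw [zrec, WellFounded.fix_eq]; rfl

theorem Tm.zrec' {G : E.{u} → ZFSet.{u} → ZFSet.{u} → ZFSet.{u}}
    (hG : Tm (fun w => G (LDefs.tl (LDefs.tl w)) (w 1) (w 0))) :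
    Tm (fun w => zrec (G (LDefs.tl w)) (w 0)) := by
  -- a general form of the definability of `G`
  have hG' : ∀ (σ : ℕ → ℕ) {a h : E.{u} → ZFSet.{u}}, Tm a → Tm h →
      Tm (fun w => G (fun i => w (σ i)) (a w) (h w)) := by
    intro σ a h ha hh
    refine Tm.subst (F := fun x w => G (fun i => w (σ i)) x (h w)) ?_ ha
    refine Tm.subst (F := fun y w => G (fun i => w (σ i + 1)) (w 0) y) ?_ hh.tl
    exact hG.rename (fun i => match i with | 0 => 0 | 1 => 1 | i + 2 => σ i + 2)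
  -- approximations
  let Ap : E.{u} → ZFSet.{u} → ZFSet.{u} → Prop := fun v T h =>
    ∀ y ∈ T, y ⊆ T ∧ LDefs.app h y = G v y (LDefs.gr (fun z => LDefs.app h z) y)
  have huniq : ∀ v T h, Ap v T h → ∀ y ∈ T, LDefs.app h y = zrec (G v) y := by
    intro v T h H y
    induction y using ZFSet.inductionOn with
    | h y ih =>
      intro hy
      rw [(H y hy).2, zrec_eq, gr_congr (fun z hz => ih z hz ((H y hy).1 hz))]
  let Q : ZFSet.{u} → ZFSet.{u} → E.{u} → Prop := fun u y v =>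
    ∃ T ∈ L, ∃ h ∈ L, Ap v T h ∧ y ⊆ T ∧ u = G v y (LDefs.gr (fun z => LDefs.app h z) y)
  have hQ1 : ∀ u y v, Q u y v → u = zrec (G v) y := by
    rintro u y v ⟨T, -, h, -, H, hy, rfl⟩
    rw [zrec_eq, gr_congr (fun z hz => huniq v T h H z (hy hz))]
  have hQd : Dfn (fun w => Q (w 0) (w 1) (LDefs.tl (LDefs.tl w))) := by
    refine Dfn.ex (Dfn.ex (Dfn.and (Dfn.ball (.var 1) (Dfn.and ?_ ?_)) (Dfn.and ?_ ?_)))
    · exact Dfn.subset (.var 0) (.var 2)
    · exact Dfn.eq' ((Tm.var 1).app (.var 0))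
        (hG' (· + 5) (.var 0) (Tm.gr (.var 0) ((Tm.var 2).app (.var 0))))
    · exact Dfn.subset (.var 3) (.var 1)
    · exact Dfn.eq' (.var 2) (hG' (· + 4) (.var 3) (Tm.gr (.var 3) ((Tm.var 1).app (.var 0))))
  have hAp : ∀ v (o : Ordinal.{u}), Ap v (Lset o) (LDefs.gr (zrec (G v)) (Lset o)) := by
    intro v o y hy
    have hy' := isTransitive_Lset o y hy
    refine ⟨hy', ?_⟩
    rw [app_gr hy, zrec_eq, gr_congr (fun z hz => app_gr (hy' hz))]
  have hstep : ∀ v, EL v → ∀ o : Ordinal.{u}, LDefs.gr (zrec (G v)) (Lset o) ∈ L →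
      ∀ y ∈ L, y ⊆ Lset o → zrec (G v) y ∈ L ∧ Q (zrec (G v) y) y v := by
    intro v hv o ho y hy hyo
    have e : zrec (G v) y =
        G v y (LDefs.gr (fun z => LDefs.app (LDefs.gr (zrec (G v)) (Lset o)) z) y) := by
      rw [zrec_eq, gr_congr (fun z hz => app_gr (hyo hz))]
    refine ⟨?_, Lset o, Lset_mem_L o, _, ho, hAp v o, hyo, e⟩
    rw [e]
    have hgL : LDefs.gr (fun z => LDefs.app (LDefs.gr (zrec (G v)) (Lset o)) z) y ∈ L :=
      (Tm.gr (F := fun z _ => LDefs.app (LDefs.gr (zrec (G v)) (Lset o)) z) (s := fun _ => y)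
        (Tm.const hy) ((Tm.const ho).app (.var 0))).1 v hv
    exact hG.1 (cons _ (cons y v)) ((hv.cons hy).cons hgL)
  have hgr : ∀ v, EL v → ∀ o : Ordinal.{u}, LDefs.gr (zrec (G v)) (Lset o) ∈ L := by
    intro v hv o
    induction o using WellFoundedLT.induction with
    | ind o ih =>
      have h1 : ∀ y ∈ Lset o, zrec (G v) y ∈ L ∧ Q (zrec (G v) y) y v := by
        intro y hy
        obtain ⟨a, ha, hya⟩ := mem_Lset.1 hy
        exact hstep v hv a (ih a ha) y ⟨o, hy⟩ (mem_Def.1 hya).1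
      refine comprehension (P := fun w => ∃ y ∈ Lset o, ∃ u ∈ L, Q u y (LDefs.tl w) ∧
        w 0 = ZFSet.pair y u) ?_ hv ?_ ?_
      · refine Dfn.bex (.const (Lset_mem_L o)) (Dfn.ex (Dfn.and ?_ ?_))
        · exact hQd.rename (fun i => match i with | 0 => 0 | 1 => 1 | i + 2 => i + 3)
        · exact Dfn.eq' (.var 2) ((Tm.var 1).pair (.var 0))
      · intro x hx
        obtain ⟨y, hy, rfl⟩ := mem_img.1 hx
        exact ((Tm.const (c := y) ⟨o, hy⟩).pair (Tm.const (h1 y hy).1)).1 v hv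
      · intro x _
        simp only [LDefs.gr, mem_img, cons_zero, tl_cons]
        constructor
        · rintro ⟨y, hy, rfl⟩
          exact ⟨y, hy, _, (h1 y hy).1, (h1 y hy).2, rfl⟩
        · rintro ⟨y, hy, u, -, hu, rfl⟩
          exact ⟨y, hy, by rw [hQ1 u y v hu]⟩
  have hall : ∀ v, EL v → ∀ y ∈ L, zrec (G v) y ∈ L ∧ Q (zrec (G v) y) y v := by
    intro v hv y hy
    obtain ⟨o, ho⟩ := hy
    exact hstep v hv o (hgr v hv o) y ⟨o, ho⟩ (isTransitive_Lset o y ho)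
  refine ⟨fun w hw => (hall _ hw.tl _ (hw 0)).1, hQd.congr fun w hw => ⟨hQ1 _ _ _, fun h => ?_⟩⟩
  rw [h]
  exact (hall _ hw.tl.tl _ (hw 1)).2

theorem Tm.zrec {G : E.{u} → ZFSet.{u} → ZFSet.{u} → ZFSet.{u}} {t : E.{u} → ZFSet.{u}}
    (hG : Tm (fun w => G (LDefs.tl (LDefs.tl w)) (w 1) (w 0))) (ht : Tm t) :
    Tm (fun v => zrec (G v) (t v)) :=
  Tm.subst (F := fun x v => LDefs.zrec (G v) x) hG.zrec' ht

/-- An environment of empty sets. -/
def e0 : E.{u} := fun _ => ∅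

lemma EL_e0 : EL.{u} e0 := fun _ => empty_mem_L

lemma Tm.closed {c : ZFSet.{u}} (h : Tm (fun _ => c)) : c ∈ L := h.1 e0 EL_e0

theorem toZFSet_mem_L (o : Ordinal.{u}) : o.toZFSet ∈ L := by
  induction o using WellFoundedLT.induction with
  | ind o ih =>
    obtain ⟨γ, hγ⟩ := exists_bound_set (A := o.toZFSet) (fun x hx => by
      obtain ⟨a, ha, rfl⟩ := Ordinal.mem_toZFSet_iff.1 hx
      exact ih a ha)
    have hO : (Lset γ).sep (fun x => x.IsOrdinal) ∈ L := by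
      refine Tm.closed ((Tm.sep (P := fun x _ => (∀ y ∈ x, y ⊆ x) ∧ ∀ y ∈ x, ∀ z ∈ y, z ⊆ y)
        (.const (Lset_mem_L γ)) ?_).congr fun _ _ => ?_)
      · exact (Dfn.ball (.var 0) (Dfn.subset (.var 0) (.var 1))).and
          (Dfn.ball (.var 0) (Dfn.ball (.var 0) (Dfn.subset (.var 0) (.var 1))))
      · congr 1
        ext x
        rw [isOrdinal_iff_forall_mem_isTransitive]
        rfl
    have hord : ((Lset γ).sep (fun x => x.IsOrdinal)).IsOrdinal := by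
      rw [isOrdinal_iff_forall_mem_isOrdinal]
      refine ⟨fun x hx y hy => ?_, fun x hx => (mem_sep.1 hx).2⟩
      exact mem_sep.2 ⟨isTransitive_Lset γ x (mem_sep.1 hx).1 hy, (mem_sep.1 hx).2.mem hy⟩
    have hsub : o.toZFSet ⊆ (Lset γ).sep (fun x => x.IsOrdinal) := fun x hx =>
      mem_sep.2 ⟨hγ hx, (isOrdinal_toZFSet o).mem hx⟩
    rcases ((isOrdinal_toZFSet o).subset_iff_eq_or_mem hord).1 hsub with h | h
    · exact h ▸ hO
    · exact L_trans hO h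

end Pool.Agent.Shared.LDefs
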