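import Mathlib

set_option autoImplicit false

/-!
An adaptive form of the local lemma, through the independence polynomial at negative weights.
`N a` is the closed neighbourhood of `a`.  The region `Reg N p` (all the polynomials positive) is
kept when the weights on a clique are replaced by a random choice whose averages do not increase.
-/

namespace Pool.Agent.Shared.AdaptiveLLL

open Finset

variable {ι : Type*} [DecidableEq ι]

/-- Independent sets for the closed neighbourhoods `N`. -/
def Ind (N : ι → Finset ι) (T : Finset ι) : Prop := ∀ a ∈ T, ∀ b ∈ T, a ≠ b → b ∉ N a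

open Classical in
/-- The independence polynomial of `S` at the weights `-p`. -/
noncomputable def Z (N : ι → Finset ι) (p : ι → ℝ) (S : Finset ι) : ℝ :=
  ∑ T ∈ S.powerset, if Ind N T then ∏ a ∈ T, (-p a) else 0

/-- The region: nonnegative weights and all the polynomials positive. -/
def Reg (N : ι → Finset ι) (p : ι → ℝ) : Prop := (∀ a, 0 ≤ p a) ∧ ∀ S, 0 < Z N p S

variable {N : ι → Finset ι}

omit [DecidableEq ι] in
theorem Z_empty (p : ι → ℝ) : Z N p ∅ = 1 := by
  have : Ind N ∅ := by intro a ha; simp at ha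
  simp [Z, this]

omit [DecidableEq ι] in
theorem Z_congr {p q : ι → ℝ} {S : Finset ι} (h : ∀ a ∈ S, p a = q a) : Z N p S = Z N q S := by
  unfold Z
  refine sum_congr rfl (fun T hT => ?_)
  have hT' := mem_powerset.mp hT
  rw [prod_congr rfl (fun a ha => by rw [h a (hT' ha)])]

theorem Z_rec (hr : ∀ a, a ∈ N a) (hs : ∀ a b, a ∈ N b → b ∈ N a) (p : ι → ℝ) {S : Finset ι}
    {a : ι} (ha : a ∈ S) : Z N p S = Z N p (S.erase a) - p a * Z N p (S \ N a) := by
  classical
  have h1 : S = insert a (S.erase a) := (insert_erase ha).symm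
  have hna : a ∉ S.erase a := notMem_erase a S
  conv_lhs => rw [h1]
  unfold Z
  rw [sum_powerset_insert hna, sub_eq_add_neg]
  congr 1
  have hsub : (S \ N a).powerset ⊆ (S.erase a).powerset := by
    apply powerset_mono.mpr
    intro b hb
    rw [mem_sdiff] at hb
    exact mem_erase.mpr ⟨fun h => hb.2 (h ▸ hr a), hb.1⟩
  rw [← neg_mul, mul_sum, ← sum_subset hsub]
  · refine sum_congr rfl (fun T hT => ?_)
    have hT' := mem_powerset.mp hT
    have haT : a ∉ T := fun h => (mem_sdiff.mp (hT' h)).2 (hr a)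
    have hiff : Ind N (insert a T) ↔ Ind N T := by
      constructor
      · intro h b hb c hc hbc
        exact h b (mem_insert_of_mem hb) c (mem_insert_of_mem hc) hbc
      · intro h b hb c hc hbc
        rcases mem_insert.mp hb with rfl | hb'
        · rcases mem_insert.mp hc with rfl | hc'
          · exact absurd rfl hbc
          · exact (mem_sdiff.mp (hT' hc')).2
        · rcases mem_insert.mp hc with rfl | hc'
          · exact fun h' => (mem_sdiff.mp (hT' hb')).2 (hs _ _ h')
          · exact h b hb' c hc' hbc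
    by_cases hI : Ind N T
    · rw [if_pos (hiff.mpr hI), if_pos hI, prod_insert haT]
    · rw [if_neg (fun h => hI (hiff.mp h)), if_neg hI, mul_zero]
  · intro T hT hT2
    have hT' := mem_powerset.mp hT
    rw [if_neg]
    intro h
    apply hT2
    rw [mem_powerset]
    intro b hb
    have hb' := mem_erase.mp (hT' hb)
    exact mem_sdiff.mpr ⟨hb'.2, h a (mem_insert_self a T) b (mem_insert_of_mem hb) (Ne.symm hb'.1)⟩

theorem erase_sdiff (hr : ∀ a, a ∈ N a) (S : Finset ι) (a : ι) : S.erase a \ N a = S \ N a := by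
  ext b
  simp only [mem_sdiff, mem_erase]
  constructor
  · exact fun h => ⟨h.1.2, h.2⟩
  · exact fun h => ⟨⟨fun e => h.2 (e ▸ hr a), h.1⟩, h.2⟩

theorem Reg.lt_one (hr : ∀ a, a ∈ N a) (hs : ∀ a b, a ∈ N b → b ∈ N a) {p : ι → ℝ}
    (h : Reg N p) (a : ι) : p a < 1 := by
  have h1 := h.2 {a}
  rw [Z_rec hr hs p (mem_singleton_self a)] at h1
  have h2 : ({a} : Finset ι) \ N a = ∅ := by
    rw [sdiff_eq_empty_iff_subset]; simpa using hr a
  rw [h2, erase_singleton, Z_empty] at h1
  linarith

/-- Log-submodularity inside the region. -/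
theorem Reg.submod (hr : ∀ a, a ∈ N a) (hs : ∀ a b, a ∈ N b → b ∈ N a) {p : ι → ℝ}
    (h : Reg N p) : ∀ (m : ℕ) (S' : Finset ι), S'.card ≤ m → ∀ S ⊆ S', ∀ A : Finset ι,
      Z N p (S \ A) * Z N p S' ≤ Z N p (S' \ A) * Z N p S := by
  intro m
  induction m with
  | zero =>
    intro S' hS' S hS A
    have : S' = ∅ := card_eq_zero.mp (by omega)
    subst this
    have : S = ∅ := subset_empty.mp hS
    subst this
    exact le_rfl
  | succ m ih =>
    intro S' hS' S hS A
    by_cases hd : Disjoint S' A
    · rw [sdiff_eq_self_of_disjoint hd, sdiff_eq_self_of_disjoint (hd.mono_left hS), mul_comm]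
    obtain ⟨a, haS, haA⟩ := not_disjoint_iff.mp hd
    have hc : (S'.erase a).card ≤ m := by rw [card_erase_of_mem haS]; omega
    have hsub : S.erase a ⊆ S'.erase a := erase_subset_erase a hS
    have e1 : ∀ U : Finset ι, U.erase a \ A = U \ A := by
      intro U; ext b
      simp only [mem_sdiff, mem_erase]
      constructor
      · exact fun h => ⟨h.1.2, h.2⟩
      · exact fun h => ⟨⟨fun e => h.2 (e ▸ haA), h.1⟩, h.2⟩
    have i1 := ih _ hc _ hsub A
    rw [e1, e1] at i1
    have i2 : Z N p (S.erase a) * Z N p S' ≤ Z N p (S'.erase a) * Z N p S := by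
      rw [Z_rec hr hs p haS]
      by_cases ha : a ∈ S
      · have i3 := ih _ hc _ hsub (N a)
        rw [erase_sdiff hr, erase_sdiff hr] at i3
        rw [Z_rec hr hs p ha]
        have := mul_le_mul_of_nonneg_left i3 (h.1 a)
        nlinarith
      · rw [erase_eq_of_notMem ha]
        have := mul_nonneg (h.2 S).le (mul_nonneg (h.1 a) (h.2 (S' \ N a)).le)
        nlinarith
    have p1 := h.2 (S.erase a)
    have p2 := h.2 (S'.erase a)
    have p3 := h.2 (S \ A)
    have p4 := h.2 S'
    have p5 := h.2 (S' \ A)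
    have p6 := h.2 S
    have := mul_le_mul i1 i2 (by positivity) (by positivity)
    have h7 : 0 < Z N p (S.erase a) * Z N p (S'.erase a) := by positivity
    refine le_of_mul_le_mul_right ?_ h7
    nlinarith

/-- Expansion along a clique `K`. -/
theorem Z_clique (hr : ∀ a, a ∈ N a) (hs : ∀ a b, a ∈ N b → b ∈ N a) (p : ι → ℝ) :
    ∀ K : Finset ι, (∀ a ∈ K, K ⊆ N a) → ∀ S : Finset ι,
      Z N p S = Z N p (S \ K) - ∑ a ∈ K ∩ S, p a * Z N p (S \ N a) := by
  intro K
  induction K using Finset.induction_on with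
  | empty => intro _ S; simp
  | insert c K hc ih =>
    intro hK S
    have hK' : ∀ a ∈ K, K ⊆ N a := fun a ha =>
      (subset_insert c K).trans (hK a (mem_insert_of_mem ha))
    by_cases hcS : c ∈ S
    · rw [Z_rec hr hs p hcS, ih hK' (S.erase c), insert_inter_of_mem hcS,
        sum_insert (fun h => hc (mem_inter.mp h).1)]
      have e1 : S.erase c \ K = S \ insert c K := by
        ext b; simp only [mem_sdiff, mem_erase, mem_insert]; tauto
      have e2 : K ∩ S.erase c = K ∩ S := by
        ext b; simp only [mem_inter, mem_erase]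
        constructor
        · exact fun h => ⟨h.1, h.2.2⟩
        · exact fun h => ⟨h.1, fun e => hc (e ▸ h.1), h.2⟩
      have e3 : ∀ a ∈ K ∩ S, S.erase c \ N a = S \ N a := by
        intro a ha
        have : c ∈ N a := hK a (mem_insert_of_mem (mem_inter.mp ha).1) (mem_insert_self c K)
        ext b; simp only [mem_sdiff, mem_erase]
        constructor
        · exact fun h => ⟨h.1.2, h.2⟩
        · exact fun h => ⟨⟨fun e => h.2 (e ▸ this), h.1⟩, h.2⟩
      rw [e1, e2, sum_congr rfl (fun a ha => by rw [e3 a ha])]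
      ring
    · rw [ih hK' S, insert_inter_of_notMem hcS]
      have e1 : S \ K = S \ insert c K := by
        ext b; simp only [mem_sdiff, mem_insert]
        constructor
        · exact fun h => ⟨h.1, fun h' => h'.elim (fun e => hcS (e ▸ h.1)) h.2⟩
        · exact fun h => ⟨h.1, fun h' => h.2 (Or.inr h')⟩
      rw [e1]

/-- Changing the weights on a clique keeps the region as soon as the full polynomial stays
positive. -/
theorem Reg.change [Fintype ι] (hr : ∀ a, a ∈ N a) (hs : ∀ a b, a ∈ N b → b ∈ N a) {p q : ι → ℝ}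
    (h : Reg N p) {K : Finset ι} (hK : ∀ a ∈ K, K ⊆ N a) (hq : ∀ a, 0 ≤ q a)
    (hpq : ∀ a, a ∉ K → q a = p a)
    (hpos : ∑ a ∈ K, q a * Z N p (univ \ N a) < Z N p (univ \ K)) : Reg N q := by
  refine ⟨hq, fun S => ?_⟩
  rw [Z_clique hr hs q K hK S]
  have e0 : Z N q (S \ K) = Z N p (S \ K) := Z_congr (fun a ha => hpq a (mem_sdiff.mp ha).2)
  have e1 : ∀ a ∈ K ∩ S, q a * Z N q (S \ N a) = q a * Z N p (S \ N a) := by
    intro a ha
    rw [Z_congr (fun b hb => hpq b (fun hb' => (mem_sdiff.mp hb).2 (hK a (mem_inter.mp ha).1 hb')))]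
  rw [e0, sum_congr rfl e1]
  have p0 := h.2 (univ \ K)
  have p1 := h.2 (S \ K)
  have key : (∑ a ∈ K ∩ S, q a * Z N p (S \ N a)) * Z N p (univ \ K) ≤
      (∑ a ∈ K, q a * Z N p (univ \ N a)) * Z N p (S \ K) := by
    rw [sum_mul, sum_mul]
    refine (sum_le_sum (fun a ha => ?_)).trans
      (sum_le_sum_of_subset_of_nonneg inter_subset_left (fun a _ _ =>
        mul_nonneg (mul_nonneg (hq a) (h.2 _).le) p1.le))
    have hKa := hK a (mem_inter.mp ha).1
    have i := h.submod hr hs _ (univ \ K) le_rfl (S \ K)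
      (sdiff_subset_sdiff (subset_univ S) Subset.rfl) (N a)
    have e : ∀ U : Finset ι, (U \ K) \ N a = U \ N a := by
      intro U; ext b; simp only [mem_sdiff]
      constructor
      · exact fun h => ⟨h.1.1, h.2⟩
      · exact fun h => ⟨⟨h.1, fun h' => h.2 (hKa h')⟩, h.2⟩
    rw [e, e] at i
    have := mul_le_mul_of_nonneg_left i (hq a)
    nlinarith
  have := mul_lt_mul_of_pos_right hpos p1
  have h3 : (∑ a ∈ K ∩ S, q a * Z N p (S \ N a)) * Z N p (univ \ K) <
      Z N p (S \ K) * Z N p (univ \ K) := by nlinarith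
  have := lt_of_mul_lt_mul_right h3 p0.le
  linarith

/-- The adaptive step: if a random choice `y` replaces the weights on a clique by `q y` and the
average of each weight does not increase, some choice keeps the region. -/
theorem Reg.step [Fintype ι] {κ : Type*} (hr : ∀ a, a ∈ N a) (hs : ∀ a b, a ∈ N b → b ∈ N a)
    {p : ι → ℝ} (h : Reg N p) {K : Finset ι} (hK : ∀ a ∈ K, K ⊆ N a) (Y : Finset κ)
    (μ : κ → ℝ) (hμ : ∀ y ∈ Y, 0 ≤ μ y) (hμ1 : ∑ y ∈ Y, μ y = 1) (q : κ → ι → ℝ)
    (hq : ∀ y a, 0 ≤ q y a) (hav : ∀ a ∈ K, ∑ y ∈ Y, μ y * q y a ≤ p a) :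
    ∃ y ∈ Y, Reg N (fun a => if a ∈ K then q y a else p a) := by
  have h0 := h.2 univ
  rw [Z_clique hr hs p K hK univ, inter_univ] at h0
  have hne : Y.Nonempty := by
    rw [nonempty_iff_ne_empty]; rintro rfl; simp at hμ1
  obtain ⟨y, hy, hmin⟩ := exists_min_image Y (fun y => ∑ a ∈ K, q y a * Z N p (univ \ N a)) hne
  refine ⟨y, hy, h.change hr hs hK (fun a => ?_) (fun a ha => if_neg ha) ?_⟩
  · split_ifs
    · exact hq y a
    · exact h.1 a
  · rw [sum_congr rfl (fun a ha => by rw [if_pos ha])]
    have h1 : ∑ a ∈ K, q y a * Z N p (univ \ N a) ≤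
        ∑ z ∈ Y, μ z * ∑ a ∈ K, q z a * Z N p (univ \ N a) := by
      calc _ = ∑ z ∈ Y, μ z * ∑ a ∈ K, q y a * Z N p (univ \ N a) := by
            rw [← sum_mul, hμ1, one_mul]
        _ ≤ _ := sum_le_sum (fun z hz => mul_le_mul_of_nonneg_left (hmin z hz) (hμ z hz))
    have h2 : ∑ z ∈ Y, μ z * ∑ a ∈ K, q z a * Z N p (univ \ N a) =
        ∑ a ∈ K, (∑ z ∈ Y, μ z * q z a) * Z N p (univ \ N a) := by
      simp_rw [mul_sum, sum_mul]
      rw [sum_comm]
      exact sum_congr rfl (fun a _ => sum_congr rfl (fun z _ => by ring))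
    have h3 : ∑ a ∈ K, (∑ z ∈ Y, μ z * q z a) * Z N p (univ \ N a) ≤
        ∑ a ∈ K, p a * Z N p (univ \ N a) :=
      sum_le_sum (fun a ha => mul_le_mul_of_nonneg_right (hav a ha) (h.2 _).le)
    linarith

/-- The symmetric local lemma condition puts the weights inside the region. -/
theorem reg_init (hr : ∀ a, a ∈ N a) (hs : ∀ a b, a ∈ N b → b ∈ N a) {p : ι → ℝ} {D : ℕ}
    (hD : ∀ a, (N a).card ≤ D) (hp0 : ∀ a, 0 ≤ p a) (hp : ∀ a, 4 * D * p a ≤ 1) (hD1 : 1 ≤ D) :
    Reg N p := by
  have hDr : (1 : ℝ) ≤ D := by exact_mod_cast hD1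
  set x : ℝ := 1 / (2 * D) with hx
  have hx0 : 0 < x := by positivity
  have hxD : x * D = 1 / 2 := by rw [hx]; field_simp
  have hx1 : x ≤ 1 / 2 := by nlinarith
  have hB : 1 / 2 ≤ (1 - x) ^ D := by
    have := one_add_mul_le_pow (a := -x) (by linarith) D
    have e : (1 : ℝ) + -x = 1 - x := by ring
    rw [e] at this
    nlinarith
  have main : ∀ (m : ℕ) (S : Finset ι), S.card ≤ m →
      0 < Z N p S ∧ ∀ A : Finset ι, (1 - x) ^ A.card * Z N p (S \ A) ≤ Z N p S := by
    intro m
    induction m with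
    | zero =>
      intro S hS
      have : S = ∅ := card_eq_zero.mp (by omega)
      subst this
      refine ⟨by rw [Z_empty]; norm_num, fun A => ?_⟩
      rw [empty_sdiff, Z_empty, mul_one]
      exact pow_le_one₀ (by linarith) (by linarith)
    | succ m ih =>
      intro S hS
      have one : ∀ a ∈ S, (1 - x) * Z N p (S.erase a) ≤ Z N p S := by
        intro a ha
        have hc : (S.erase a).card ≤ m := by rw [card_erase_of_mem ha]; omega
        have i1 := (ih _ hc).2 (N a)
        rw [erase_sdiff hr] at i1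
        have hc2 : (S \ N a).card ≤ m := by
          rw [← erase_sdiff hr]; exact (card_le_card sdiff_subset).trans hc
        have p2 := (ih _ hc2).1
        have i2 : (1 - x) ^ D ≤ (1 - x) ^ (N a).card :=
          pow_le_pow_of_le_one (by linarith) (by linarith) (hD a)
        have i3 : Z N p (S \ N a) ≤ 2 * Z N p (S.erase a) := by nlinarith
        have i4 : 2 * p a ≤ x := by
          rw [hx, le_div_iff₀ (by positivity)]; have := hp a; linarith
        have p1 := (ih _ hc).1
        rw [Z_rec hr hs p ha]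
        have := mul_le_mul_of_nonneg_left i3 (hp0 a)
        nlinarith
      have pos : 0 < Z N p S := by
        rcases S.eq_empty_or_nonempty with rfl | ⟨a, ha⟩
        · rw [Z_empty]; norm_num
        · have hc : (S.erase a).card ≤ m := by rw [card_erase_of_mem ha]; omega
          have := one a ha
          have p1 := (ih _ hc).1
          nlinarith
      refine ⟨pos, fun A => ?_⟩
      by_cases hd : Disjoint S A
      · rw [sdiff_eq_self_of_disjoint hd]
        have : (1 - x) ^ A.card ≤ 1 := pow_le_one₀ (by linarith) (by linarith)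
        nlinarith
      · obtain ⟨a, haS, haA⟩ := not_disjoint_iff.mp hd
        have hc : (S.erase a).card ≤ m := by rw [card_erase_of_mem haS]; omega
        have i1 := (ih _ hc).2 (A.erase a)
        have e : S.erase a \ A.erase a = S \ A := by
          ext b; simp only [mem_sdiff, mem_erase]
          constructor
          · exact fun h => ⟨h.1.2, fun h' => h.2 ⟨h.1.1, h'⟩⟩
          · exact fun h => ⟨⟨fun e => h.2 (e ▸ haA), h.1⟩, fun h' => h.2 h'.2⟩
        rw [e] at i1
        rw [← card_erase_add_one haA, pow_succ]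
        have := mul_le_mul_of_nonneg_left i1 (by linarith : 0 ≤ 1 - x)
        have := one a haS
        nlinarith
  exact ⟨hp0, fun S => (main _ S le_rfl).1⟩

end Pool.Agent.Shared.AdaptiveLLL
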