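import Mathlib

/-!
Selberg's upper bound sieve in orthogonal form, with lower bounds for the main sum.
-/

namespace Pool.Agent.Shared.SelbergUpper

open Finset Function

lemma crt_two {a b : ℕ} (ha : 0 < a) (hb : 0 < b) (hab : a.Coprime b) {f g : ℕ → ℝ}
    (hf : Periodic f a) (hg : Periodic g b) :
    ∑ t ∈ range (a * b), f t * g t = (∑ t ∈ range a, f t) * ∑ t ∈ range b, g t := by
  rw [sum_mul_sum, ← sum_product']
  refine sum_bij (fun n _ => (n % a, n % b)) ?_ ?_ ?_ ?_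
  · intro n _
    simp [Nat.mod_lt _ ha, Nat.mod_lt _ hb]
  · intro n hn m hm h
    simp only [mem_range, Prod.mk.injEq] at hn hm h
    exact Nat.ModEq.eq_of_lt_of_lt ((Nat.modEq_and_modEq_iff_modEq_mul hab).1 ⟨h.1, h.2⟩) hn hm
  · rintro ⟨u, v⟩ huv
    simp only [mem_range, mem_product] at huv
    obtain ⟨k, hk1, hk2⟩ := Nat.chineseRemainder hab u v
    refine ⟨k % (a * b), mem_range.2 (Nat.mod_lt _ (Nat.mul_pos ha hb)), Prod.ext ?_ ?_⟩
    · exact (Nat.mod_mul_right_mod ..).trans (Eq.trans hk1 (Nat.mod_eq_of_lt huv.1))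
    · exact (Nat.mod_mul_left_mod ..).trans (Eq.trans hk2 (Nat.mod_eq_of_lt huv.2))
  · intro n _
    simp only [hf.map_mod_nat, hg.map_mod_nat]

lemma periodic_prod (S : Finset ℕ) {f : ℕ → ℕ → ℝ} (hf : ∀ p ∈ S, Periodic (f p) p) :
    Periodic (fun t => ∏ p ∈ S, f p t) (∏ p ∈ S, p) := fun t => prod_congr rfl fun p hp => by
  obtain ⟨k, hk⟩ := dvd_prod_of_mem (fun p => p) hp
  rw [hk, mul_comm]
  exact (hf p hp).nat_mul k t

lemma crt (S : Finset ℕ) (hS : ∀ p ∈ S, p.Prime) {f : ℕ → ℕ → ℝ} (hf : ∀ p ∈ S, Periodic (f p) p) :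
    ∑ t ∈ range (∏ p ∈ S, p), ∏ p ∈ S, f p t = ∏ p ∈ S, ∑ t ∈ range p, f p t := by
  induction S using Finset.induction_on with
  | empty => simp
  | insert p S hp ih =>
    have h1 := fun r hr => hS r (mem_insert_of_mem (b := p) hr)
    have h2 := fun r hr => hf r (mem_insert_of_mem (b := p) hr)
    simp only [prod_insert hp]
    rw [crt_two (hS p (mem_insert_self _ _)).pos (prod_pos fun r hr => (h1 r hr).pos)
      (Nat.Coprime.prod_right fun r hr => (Nat.coprime_primes (hS p (mem_insert_self _ _))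
        (h1 r hr)).2 fun e => hp (e ▸ hr)) (hf p (mem_insert_self _ _)) (periodic_prod S h2),
      ih h1 h2]

lemma per_le {D : ℕ} (hD : 0 < D) {f : ℕ → ℝ} (hf : Periodic f D) {M : ℝ} (hM : ∀ t, |f t| ≤ M)
    (N : ℕ) : ∑ t ∈ range N, f t ≤ N * ((∑ t ∈ range D, f t) / D) + 2 * D * M := by
  have h1 : ∀ k, ∑ t ∈ range (k * D), f t = k * ∑ t ∈ range D, f t := fun k => by
    induction k with
    | zero => simp
    | succ k ih =>
      rw [add_mul, one_mul, sum_range_add, ih,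
        sum_congr rfl fun t _ => (add_comm (k * D) t ▸ hf.nat_mul k t : f (k * D + t) = f t)]
      push_cast; ring
  have h2 : ∀ (r s : ℕ), |∑ t ∈ range r, f (s + t)| ≤ r * M := fun r s =>
    (abs_sum_le_sum_abs _ _).trans (by simpa using sum_le_card_nsmul (range r) _ M fun t _ => hM _)
  have hD' : (0 : ℝ) < D := by exact_mod_cast hD
  have h3 := h2 D 0
  simp only [zero_add] at h3
  have h4 : |(∑ t ∈ range D, f t) / D| ≤ M := by
    rw [abs_div, abs_of_pos hD', div_le_iff₀ hD']; linarith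
  have h5 : ((N % D : ℕ) : ℝ) ≤ D := by exact_mod_cast (Nat.mod_lt _ hD).le
  have hM0 : 0 ≤ M := (abs_nonneg _).trans (hM 0)
  conv_lhs => rw [← Nat.div_add_mod' N D, sum_range_add, h1]
  conv_rhs => rw [← Nat.div_add_mod' N D]
  have h6 := (abs_le.1 (h2 (N % D) (N / D * D))).2
  have h7 := mul_le_mul_of_nonneg_left (abs_le.1 h4).1 (Nat.cast_nonneg (α := ℝ) (N % D))
  have h8 := mul_le_mul_of_nonneg_right h5 hM0
  push_cast
  rw [add_mul, mul_assoc, mul_div_cancel₀ _ hD'.ne']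
  linarith

lemma inj_sum {A : Finset (Finset ℕ)} (hA : ∀ S ∈ A, ∀ p ∈ S, p.Prime) {B : Finset ℕ}
    (hB : ∀ S ∈ A, ∏ p ∈ S, p ∈ B) {F : ℕ → ℝ} (hF : ∀ d, 0 ≤ F d) :
    ∑ S ∈ A, F (∏ p ∈ S, p) ≤ ∑ d ∈ B, F d := by
  rw [← sum_image (g := fun S : Finset ℕ => ∏ p ∈ S, p) fun S hS T hT h => by
    rw [← Nat.primeFactors_prod (hA S hS), ← Nat.primeFactors_prod (hA T hT)]
    exact congrArg _ h]
  exact sum_le_sum_of_subset_of_nonneg (image_subset_iff.2 hB) fun _ _ _ => hF _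

/-- sets of primes with small product -/
noncomputable def Sm (P : Finset ℕ) (z : ℝ) : Finset (Finset ℕ) :=
  P.powerset.filter fun S => ∏ p ∈ S, (p : ℝ) ≤ z

/-- the main sum -/
noncomputable def G (P : Finset ℕ) (w : ℕ → ℝ) (z : ℝ) : ℝ := ∑ S ∈ Sm P z, ∏ p ∈ S, w p

lemma G_nonneg {P : Finset ℕ} {w : ℕ → ℝ} (hw : ∀ p ∈ P, 0 ≤ w p) (z : ℝ) : 0 ≤ G P w z :=
  sum_nonneg fun _ hS => prod_nonneg fun p hp => hw p (mem_powerset.1 (mem_filter.1 hS).1 hp)

lemma G_mono {P : Finset ℕ} {w : ℕ → ℝ} (hw : ∀ p ∈ P, 0 ≤ w p) {y z : ℝ} (h : y ≤ z) :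
    G P w y ≤ G P w z :=
  sum_le_sum_of_subset_of_nonneg (monotone_filter_right _ fun _ _ hS => hS.trans h)
    fun _ hS _ => prod_nonneg fun p hp => hw p (mem_powerset.1 (mem_filter.1 hS).1 hp)

lemma one_le_G {P : Finset ℕ} {w : ℕ → ℝ} (hw : ∀ p ∈ P, 0 ≤ w p) {z : ℝ} (h : 1 ≤ z) :
    1 ≤ G P w z := by
  have := single_le_sum (f := fun S : Finset ℕ => ∏ p ∈ S, w p) (s := Sm P z) (a := ∅)
    (fun _ hS => prod_nonneg fun p hp => hw p (mem_powerset.1 (mem_filter.1 hS).1 hp))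
    (by simpa [Sm] using h)
  simpa [G] using this

lemma G_insert {P : Finset ℕ} {p : ℕ} (hp : p ∉ P) (h0 : 0 < p) (w : ℕ → ℝ) (z : ℝ) :
    G (insert p P) w z = G P w z + w p * G P w (z / p) := by
  simp only [G, Sm, sum_filter]
  rw [sum_powerset_insert hp, mul_sum]
  congr 1
  refine sum_congr rfl fun S hS => ?_
  have : p ∉ S := fun h => hp (mem_powerset.1 hS h)
  simp only [prod_insert this, le_div_iff₀' (show (0 : ℝ) < p by exact_mod_cast h0), mul_ite,
    mul_zero]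

lemma G_mul (P : Finset ℕ) (hP : ∀ p ∈ P, 0 < p) {u v w : ℕ → ℝ} (hu : ∀ p ∈ P, 0 ≤ u p)
    (hv : ∀ p ∈ P, 0 ≤ v p) (hw : ∀ p ∈ P, u p + v p + u p * v p ≤ w p) {y z : ℝ} (hy : 0 ≤ y)
    (hz : 0 ≤ z) : G P u y * G P v z ≤ G P w (y * z) := by
  induction P using Finset.induction_on generalizing y z with
  | empty =>
    simp only [G, Sm, powerset_empty, sum_filter, sum_singleton, prod_empty]
    split_ifs with h1 h2 h3 <;> try norm_num
    exact h3 (one_le_mul_of_one_le_of_one_le h1 h2)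
  | insert p P hp ih =>
    have m := fun r hr => mem_insert_of_mem (a := r) (b := p) (s := P) hr
    have p0 := hP p (mem_insert_self _ _)
    have p1 : (1 : ℝ) ≤ p := by exact_mod_cast p0
    have ih' := fun {y z : ℝ} => ih (fun r hr => hP r (m r hr)) (fun r hr => hu r (m r hr))
      (fun r hr => hv r (m r hr)) (fun r hr => hw r (m r hr)) (y := y) (z := z)
    have w0 : ∀ r ∈ P, 0 ≤ w r := fun r hr =>
      le_trans (by have := hu r (m r hr); have := hv r (m r hr); positivity) (hw r (m r hr))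
    have a1 := ih' hy hz
    have a2 := ih' (y := y / p) (by positivity) hz
    have a3 := ih' (z := z / p) hy (by positivity)
    have a4 := (ih' (y := y / p) (z := z / p) (by positivity) (by positivity)).trans
      (G_mono w0 (show y / p * (z / p) ≤ y * z / p by
        rw [mul_div_assoc]; gcongr; exact div_le_self hy p1))
    rw [div_mul_eq_mul_div] at a2
    rw [← mul_div_assoc] at a3
    have u0 := hu p (mem_insert_self _ _)
    have v0 := hv p (mem_insert_self _ _)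
    simp only [G_insert hp p0]
    nlinarith [mul_le_mul_of_nonneg_left a2 u0, mul_le_mul_of_nonneg_left a3 v0,
      mul_le_mul_of_nonneg_left a4 (mul_nonneg u0 v0),
      mul_le_mul_of_nonneg_right (hw p (mem_insert_self _ _)) (G_nonneg w0 (y * z / p))]

lemma G_le (P : Finset ℕ) (hP : ∀ p ∈ P, 0 < p) {u v : ℕ → ℝ} (β : ℕ → ℝ) (hu : ∀ p ∈ P, 0 ≤ u p)
    (hv : ∀ p ∈ P, 0 ≤ v p) (hβ : ∀ p ∈ P, 0 ≤ β p) (h : ∀ p ∈ P, u p ≤ v p + β p) {z : ℝ}
    (hz : 0 ≤ z) : G P u z ≤ G P v z * ∏ p ∈ P, (1 + β p) := by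
  induction P using Finset.induction_on generalizing z with
  | empty => simp [G, Sm, sum_filter]
  | insert p P hp ih =>
    have m := fun r hr => mem_insert_of_mem (a := r) (b := p) (s := P) hr
    have p0 := hP p (mem_insert_self _ _)
    have p1 : (1 : ℝ) ≤ p := by exact_mod_cast p0
    have ih' := fun {z : ℝ} => ih (fun r hr => hP r (m r hr)) (fun r hr => hu r (m r hr))
      (fun r hr => hv r (m r hr)) (fun r hr => hβ r (m r hr)) (fun r hr => h r (m r hr)) (z := z)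
    have v0 := hv p (mem_insert_self _ _)
    have b0 := hβ p (mem_insert_self _ _)
    have q0 : 0 ≤ ∏ p ∈ P, (1 + β p) := prod_nonneg fun r hr => by linarith [hβ r (m r hr)]
    have a2 := G_mono (fun r hr => hv r (m r hr)) (div_le_self hz p1)
    have a3 := G_nonneg (fun r hr => hv r (m r hr)) (z / p)
    have a4 := mul_le_mul_of_nonneg_left (ih' (z := z / p) (by positivity))
      (hu p (mem_insert_self _ _))
    have a5 : G P v z + u p * G P v (z / p) ≤ (G P v z + v p * G P v (z / p)) * (1 + β p) := by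
      nlinarith [mul_le_mul_of_nonneg_left a2 b0, mul_nonneg (mul_nonneg v0 b0) a3,
        mul_le_mul_of_nonneg_right (h p (mem_insert_self _ _)) a3]
    simp only [G_insert hp p0, prod_insert hp]
    nlinarith [mul_le_mul_of_nonneg_right a5 q0, ih' hz]

lemma sum_inv_sq (n : ℕ) : ∑ m ∈ Icc 1 n, 1 / (m : ℝ) ^ 2 ≤ 2 := by
  have h3 : ∀ k : ℕ, ∑ m ∈ Icc 1 (k + 1), 1 / (m : ℝ) ^ 2 ≤ 2 - 1 / ((k : ℝ) + 1) := fun k => by
    induction k with
    | zero => norm_num
    | succ k ih =>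
      rw [sum_Icc_succ_top (by omega)]
      push_cast
      have : 1 / ((k : ℝ) + 1 + 1) ^ 2 ≤ 1 / (k + 1) - 1 / (k + 1 + 1) := by
        rw [div_sub_div _ _ (by positivity) (by positivity), div_le_div_iff₀ (by positivity)
          (by positivity)]
        nlinarith [Nat.cast_nonneg (α := ℝ) k]
      linarith
  exact (sum_le_sum_of_subset_of_nonneg (Icc_subset_Icc_right (Nat.le_succ _))
      fun _ _ _ => by positivity).trans ((h3 _).trans (sub_le_self _ (by positivity)))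

lemma log_le_G {P : Finset ℕ} {y : ℝ} (hy : 1 ≤ y) (hP : ∀ p : ℕ, p.Prime → (p : ℝ) ≤ y → p ∈ P) :
    Real.log y ≤ 2 * G P (fun p => 1 / p) y := by
  classical
  have h1 : Real.log y ≤ ∑ m ∈ Icc 1 ⌊y⌋₊, 1 / (m : ℝ) := by
    refine (Real.log_le_log (by linarith) (Nat.lt_floor_add_one y).le).trans ?_
    have := log_add_one_le_harmonic ⌊y⌋₊
    rw [harmonic_eq_sum_Icc] at this
    simpa using this
  choose! a b hab using fun m (hm : 0 < m) => Nat.sq_mul_squarefree_of_pos hm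
  have h2 : ∑ m ∈ Icc 1 ⌊y⌋₊, 1 / (m : ℝ) ≤ ∑ x ∈ Icc 1 ⌊y⌋₊ ×ˢ Sm P y,
      1 / (x.1 : ℝ) ^ 2 * ∏ p ∈ x.2, 1 / (p : ℝ) := by
    have e : ∀ m ∈ Icc 1 ⌊y⌋₊, ∏ p ∈ (a m).primeFactors, p = a m := fun m hm =>
      Nat.prod_primeFactors_of_squarefree (hab m (mem_Icc.1 hm).1).2.2.2
    have e2 : ∑ m ∈ Icc 1 ⌊y⌋₊, 1 / (m : ℝ) = ∑ m ∈ Icc 1 ⌊y⌋₊,
        (fun x : ℕ × Finset ℕ => 1 / (x.1 : ℝ) ^ 2 * ∏ p ∈ x.2, 1 / (p : ℝ))
          (b m, (a m).primeFactors) := sum_congr rfl fun m hm => by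
      simp only [one_div, prod_inv_distrib]
      rw [← Nat.cast_prod, e m hm, ← mul_inv]
      exact_mod_cast congrArg (fun k : ℕ => (k : ℝ)⁻¹) (hab m (mem_Icc.1 hm).1).2.2.1.symm
    rw [e2, ← sum_image (g := fun m => (b m, (a m).primeFactors))
      (f := fun x : ℕ × Finset ℕ => 1 / (x.1 : ℝ) ^ 2 * ∏ p ∈ x.2, 1 / (p : ℝ)) fun m hm k hk h => by
      rw [← (hab m (mem_Icc.1 hm).1).2.2.1, ← (hab k (mem_Icc.1 hk).1).2.2.1, ← e m hm, ← e k hk,
        (Prod.mk.inj h).1, (Prod.mk.inj h).2]]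
    refine sum_le_sum_of_subset_of_nonneg (image_subset_iff.2 fun m hm => ?_)
      fun _ _ _ => by positivity
    obtain ⟨a0, b0, a1, -⟩ := hab m (mem_Icc.1 hm).1
    have m1 := (mem_Icc.1 hm).2
    have a2 : (a m : ℝ) ≤ y := (Nat.le_floor_iff (by linarith)).1 (by nlinarith [Nat.pow_pos (n := 2) b0])
    refine mem_product.2 ⟨mem_Icc.2 ⟨b0, by nlinarith⟩, mem_filter.2 ⟨mem_powerset.2 fun p hp =>
      hP p (Nat.prime_of_mem_primeFactors hp) (le_trans ?_ a2), ?_⟩⟩
    · exact_mod_cast Nat.le_of_mem_primeFactors hp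
    · rwa [← Nat.cast_prod, e m hm]
  have h4 := sum_inv_sq ⌊y⌋₊
  rw [sum_product] at h2
  dsimp only at h2
  rw [← sum_mul_sum] at h2
  exact h1.trans (h2.trans (mul_le_mul_of_nonneg_right h4 (G_nonneg (fun _ _ => by positivity) _)))

/-- Selberg's sieve: `e p` is the indicator of the classes removed modulo `p`, of density `α p` -/
theorem sieve (P : Finset ℕ) (hP : ∀ p ∈ P, p.Prime) (e : ℕ → ℕ → Prop) [∀ p t, Decidable (e p t)]
    (he : ∀ p ∈ P, ∀ t, e p (t + p) ↔ e p t) (α : ℕ → ℝ)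
    (hα : ∀ p ∈ P, (#{t ∈ range p | e p t} : ℝ) = α p * p) (hα' : ∀ p ∈ P, 1 ≤ p * (1 - α p))
    {z : ℝ} (hz : 1 ≤ z) (N : ℕ) :
    (#{t ∈ range N | ∀ p ∈ P, ¬ e p t} : ℝ) ≤ N / G P (fun p => α p / (1 - α p)) z + 2 * z ^ 6 := by
  have p0 : ∀ p ∈ P, (0 : ℝ) < p := fun p hp => by exact_mod_cast (hP p hp).pos
  have a0 : ∀ p ∈ P, 0 ≤ α p := fun p hp =>
    nonneg_of_mul_nonneg_left (hα p hp ▸ Nat.cast_nonneg _) (p0 p hp)
  have a1 : ∀ p ∈ P, 0 < 1 - α p := fun p hp =>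
    pos_of_mul_pos_left (lt_of_lt_of_le one_pos (by simpa [mul_comm] using hα' p hp)) (p0 p hp).le
  set g : ℕ → ℝ := fun p => α p / (1 - α p) with hg
  have g0 : ∀ p ∈ P, 0 ≤ g p := fun p hp => div_nonneg (a0 p hp) (a1 p hp).le
  have G1 := one_le_G g0 hz
  let η : ℕ → ℕ → ℝ := fun p t => (α p - if e p t then 1 else 0) / (1 - α p)
  have s1 : ∀ p ∈ P, ∑ t ∈ range p, (if e p t then (1 : ℝ) else 0) = α p * p := fun p hp => by
    rw [sum_boole, hα p hp]
  have m1 : ∀ p ∈ P, ∑ t ∈ range p, η p t = 0 := fun p hp => by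
    simp only [η, ← sum_div, sum_sub_distrib, s1 p hp]
    simp [mul_comm]
  have m2 : ∀ p ∈ P, ∑ t ∈ range p, η p t * η p t = p * g p := fun p hp => by
    have : ∀ t, η p t * η p t = (α p ^ 2 + (1 - 2 * α p) * if e p t then 1 else 0) / (1 - α p) ^ 2 :=
      fun t => by
        simp only [η]
        rw [div_mul_div_comm, ← sq, ← sq]
        split_ifs <;> ring_nf
    have h1 := (a1 p hp).ne'
    simp only [this, ← sum_div, sum_add_distrib, ← mul_sum, s1 p hp, hg]
    simp only [sum_const, card_range, nsmul_eq_mul]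
    field_simp
    ring
  have b1 : ∀ p ∈ P, ∀ t, |η p t| ≤ p := fun p hp t => by
    simp only [η]
    rw [abs_div, abs_of_pos (a1 p hp), div_le_iff₀ (a1 p hp)]
    refine le_trans (abs_le.2 ?_) (hα' p hp)
    have := a0 p hp
    have := a1 p hp
    split_ifs <;> constructor <;> linarith
  have sub : ∀ S ∈ Sm P z, S ⊆ P := fun S hS => mem_powerset.1 (mem_filter.1 hS).1
  have b2 : ∀ S ∈ Sm P z, ∀ t, |∏ p ∈ S, η p t| ≤ z := fun S hS t => by
    rw [abs_prod]
    exact (prod_le_prod (fun _ _ => abs_nonneg _) fun p hp => b1 p (sub S hS hp) t).trans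
      (mem_filter.1 hS).2
  have key : ∀ S ∈ Sm P z, ∀ T ∈ Sm P z, ∑ t ∈ range N, (∏ p ∈ S, η p t) * ∏ p ∈ T, η p t ≤
      N * (if S = T then ∏ p ∈ S, g p else 0) + 2 * z ^ 4 := fun S hS T hT => by
    have u : S ∪ T ⊆ P := union_subset (sub S hS) (sub T hT)
    have e1 : ∀ t, (∏ p ∈ S, η p t) * ∏ p ∈ T, η p t =
        ∏ p ∈ S ∪ T, (if p ∈ S then η p t else 1) * if p ∈ T then η p t else 1 := fun t => by
      rw [prod_mul_distrib, prod_ite_mem, prod_ite_mem, union_inter_cancel_left,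
        union_inter_cancel_right]
    have per : ∀ p ∈ S ∪ T, Periodic
        (fun t => (if p ∈ S then η p t else 1) * if p ∈ T then η p t else 1) p := fun p hp t => by
      simp only [η, he p (u hp) t]
    have D0 : 0 < ∏ p ∈ S ∪ T, p := prod_pos fun p hp => (hP p (u hp)).pos
    have D1 : ((∏ p ∈ S ∪ T, p : ℕ) : ℝ) ≤ z * z := by
      have : ∏ p ∈ S ∪ T, p ≤ (∏ p ∈ S, p) * ∏ p ∈ T, p := by
        rw [← prod_union_inter]
        exact Nat.le_mul_of_pos_right _ (prod_pos fun p hp =>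
          (hP p (sub S hS (mem_inter.1 hp).1)).pos)
      refine (Nat.cast_le.2 this).trans ?_
      push_cast
      exact mul_le_mul (mem_filter.1 hS).2 (mem_filter.1 hT).2 (by positivity) (by linarith)
    have := per_le D0 (periodic_prod _ per) (M := z * z) (fun t => by
      rw [← e1, abs_mul]
      exact mul_le_mul (b2 S hS t) (b2 T hT t) (abs_nonneg _) (by linarith)) N
    rw [crt _ (fun p hp => hP p (u hp)) per] at this
    simp only [e1]
    refine this.trans (add_le_add (le_of_eq ?_) (by nlinarith [mul_pos (by linarith : 0 < z) (by linarith : 0 < z)]))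
    congr 1
    split_ifs with h
    · subst h
      rw [union_self, div_eq_iff (by exact_mod_cast (prod_pos fun p hp => (hP p (sub S hS hp)).pos).ne'),
        Nat.cast_prod, ← prod_mul_distrib]
      refine prod_congr rfl fun p hp => ?_
      simp only [if_pos hp, m2 p (sub S hS hp), mul_comm]
    · obtain ⟨p, hp⟩ : ∃ p, ¬ (p ∈ S ↔ p ∈ T) := not_forall.1 fun h' => h (Finset.ext h')
      have hp' : p ∈ S ∪ T := by rw [mem_union]; tauto
      rw [prod_eq_zero hp', zero_div]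
      by_cases h1 : p ∈ S
      · simp only [if_pos h1, if_neg (show p ∉ T by tauto), mul_one, m1 p (u hp')]
      · simp only [if_neg h1, if_pos (show p ∈ T by tauto), one_mul, m1 p (u hp')]
  have cnt : (#(Sm P z) : ℝ) ≤ z := by
    have := inj_sum (A := Sm P z) (fun S hS p hp => hP p (sub S hS hp)) (B := Icc 1 ⌊z⌋₊)
      (fun S hS => mem_Icc.2 ⟨prod_pos fun p hp => (hP p (sub S hS hp)).pos,
        Nat.le_floor (by simpa using (mem_filter.1 hS).2)⟩) (F := fun _ => 1) fun _ => zero_le_one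
    simpa using this.trans (by simpa using Nat.floor_le (by linarith))
  have up : ∑ t ∈ range N, (∑ S ∈ Sm P z, ∏ p ∈ S, η p t) ^ 2 ≤ N * G P g z + 2 * z ^ 6 := by
    simp only [sq (∑ S ∈ Sm P z, _), sum_mul_sum]
    rw [sum_comm]
    refine (sum_le_sum fun S hS => (sum_comm.trans_le (sum_le_sum (key S hS)))).trans ?_
    simp only [sum_add_distrib, ← mul_sum, sum_ite_eq, sum_const, nsmul_eq_mul]
    rw [sum_congr rfl fun S hS => if_pos hS]
    have := mul_le_mul cnt cnt (Nat.cast_nonneg _) (by linarith)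
    have z4 : 0 < z ^ 4 := by positivity
    unfold G
    nlinarith
  have low : (#{t ∈ range N | ∀ p ∈ P, ¬ e p t} : ℝ) * G P g z ^ 2 ≤
      ∑ t ∈ range N, (∑ S ∈ Sm P z, ∏ p ∈ S, η p t) ^ 2 := by
    rw [← nsmul_eq_mul, ← sum_const]
    refine (le_of_eq (sum_congr rfl fun t ht => ?_)).trans
      (sum_le_sum_of_subset_of_nonneg (filter_subset _ _) fun _ _ _ => sq_nonneg _)
    congr 1
    refine sum_congr rfl fun S hS => prod_congr rfl fun p hp => ?_
    simp only [η, if_neg ((mem_filter.1 ht).2 p (sub S hS hp)), sub_zero, hg]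
  have G2 : 0 < G P g z ^ 2 := by positivity
  refine le_of_mul_le_mul_right (low.trans (up.trans ?_)) G2
  have : (N : ℝ) / G P g z * G P g z ^ 2 = N * G P g z := by field_simp
  have z6 : 0 < z ^ 6 := by positivity
  nlinarith [mul_le_mul_of_nonneg_left (one_le_pow₀ (n := 2) G1) z6.le]

end Pool.Agent.Shared.SelbergUpper
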