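import Pool.Agent.Shared.TwoLogsProd

/-!
An effective lower bound for linear forms in many logarithms of positive integers, obtained from
the bound for two logarithms by simultaneous Dirichlet approximation.
-/

set_option autoImplicit false

namespace Pool.Agent.Shared.TwoLogsProd

open Finset

theorem exists_uv {ι : Type} [Fintype ι] (p : ι → ℕ) {D M : ℕ} (hD : Fintype.card ι ≤ D)
    (hp : ∀ i, 1 ≤ p i) (hp' : ∀ i, p i ≤ 2 ^ D) (e : ι → ℤ) (he : ∀ i, |e i| ≤ M) :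
    ∃ u v : ℕ, 1 ≤ u ∧ 1 ≤ v ∧ u ≤ 2 ^ (D ^ 2 * M) ∧ v ≤ 2 ^ (D ^ 2 * M) ∧
      Real.log u - Real.log v = ∑ i, e i * Real.log (p i) := by
  have b : ∀ f : ι → ℕ, (∀ i, f i ≤ M) → 1 ≤ ∏ i, p i ^ f i ∧ ∏ i, p i ^ f i ≤ 2 ^ (D ^ 2 * M) ∧
      Real.log ((∏ i, p i ^ f i : ℕ) : ℝ) = ∑ i, f i * Real.log (p i) := by
    intro f hf
    refine ⟨prod_pos fun i _ => Nat.pow_pos (hp i), ?_, ?_⟩
    · refine (prod_le_pow_card _ _ (2 ^ (D * M)) fun i _ => ?_).trans ?_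
      · rw [pow_mul]
        exact (Nat.pow_le_pow_left (hp' i) _).trans (Nat.pow_le_pow_right (by positivity) (hf i))
      · rw [← pow_mul, card_univ]
        refine Nat.pow_le_pow_right (by norm_num) ?_
        calc _ ≤ D * M * D := Nat.mul_le_mul_left _ hD
          _ = _ := by ring
    · push_cast
      rw [Real.log_prod fun i _ => by have := hp i; positivity]
      simp only [Real.log_pow]
  obtain ⟨a1, a2, a3⟩ := b (fun i => (e i).toNat) fun i => by have := abs_le.1 (he i); omega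
  obtain ⟨b1, b2, b3⟩ := b (fun i => (-e i).toNat) fun i => by have := abs_le.1 (he i); omega
  refine ⟨_, _, a1, b1, a2, b2, ?_⟩
  rw [a3, b3, ← sum_sub_distrib]
  refine sum_congr rfl fun i _ => ?_
  rw [← sub_mul]
  congr 1
  exact_mod_cast Int.toNat_sub_toNat_neg (e i)

theorem dirichlet {ι : Type} [Fintype ι] (b : ι → ℤ) {B Q : ℕ} (hB : 1 ≤ B) (hQ : 1 ≤ Q) :
    ∃ k : ℕ, 1 ≤ k ∧ k ≤ Q ^ Fintype.card ι ∧ ∃ e : ι → ℤ, ∀ i, Q * |k * b i - e i * B| ≤ B := by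
  classical
  have hB' : (0 : ℤ) < B := by exact_mod_cast hB
  have hlt : ∀ z : ℤ, (Q * (z % B) / B).toNat < Q := by
    intro z
    have h1 := Int.emod_lt_of_pos z hB'
    have h2 : Q * (z % B) / B < Q := by
      rw [Int.ediv_lt_iff_lt_mul hB']
      have : (0 : ℤ) < Q := by exact_mod_cast hQ
      nlinarith
    omega
  let f : Fin (Q ^ Fintype.card ι + 1) → ι → Fin Q :=
    fun k i => ⟨(Q * (((k : ℕ) * b i) % B) / B).toNat, hlt _⟩
  have key : ∀ k1 k2 : Fin (Q ^ Fintype.card ι + 1), k1 < k2 → f k1 = f k2 →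
      ∃ k : ℕ, 1 ≤ k ∧ k ≤ Q ^ Fintype.card ι ∧
        ∃ e : ι → ℤ, ∀ i, Q * |k * b i - e i * B| ≤ B := by
    intro k1 k2 hk h
    have hk' : (k1 : ℕ) < k2 := hk
    refine ⟨k2 - k1, by omega, by have := k2.2; omega,
      fun i => (k2 : ℕ) * b i / B - (k1 : ℕ) * b i / B, fun i => ?_⟩
    have h1 : (Q * (((k1 : ℕ) * b i) % B) / B).toNat = (Q * (((k2 : ℕ) * b i) % B) / B).toNat :=
      congrArg Fin.val (congrFun h i)
    have h2 : ∀ z : ℤ, 0 ≤ Q * (z % B) / B := fun z =>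
      Int.ediv_nonneg (mul_nonneg (by positivity) (Int.emod_nonneg _ hB'.ne')) hB'.le
    have h3 : Q * (((k1 : ℕ) * b i) % B) / B = Q * (((k2 : ℕ) * b i) % B) / B := by
      have := h2 ((k1 : ℕ) * b i)
      have := h2 ((k2 : ℕ) * b i)
      omega
    have h4 : (((k2 : ℕ) - (k1 : ℕ) : ℕ) : ℤ) * b i -
        ((k2 : ℕ) * b i / B - (k1 : ℕ) * b i / B) * B =
        ((k2 : ℕ) * b i) % B - ((k1 : ℕ) * b i) % B := by
      rw [Int.emod_def, Int.emod_def, Nat.cast_sub hk'.le]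
      ring
    rw [h4, ← Nat.abs_cast (R := ℤ) Q, ← abs_mul, mul_sub]
    set x := (Q : ℤ) * (((k1 : ℕ) * b i) % B)
    set y := (Q : ℤ) * (((k2 : ℕ) * b i) % B)
    have a1 := Int.emod_lt_of_pos x hB'
    have a2 := Int.emod_lt_of_pos y hB'
    have a3 := Int.emod_nonneg x hB'.ne'
    have a4 := Int.emod_nonneg y hB'.ne'
    rw [Int.emod_def] at a1 a2 a3 a4
    rw [h3] at a1 a3
    rw [abs_le]
    constructor <;> linarith
  obtain ⟨k1, k2, hne, h⟩ := Fintype.exists_ne_map_eq_of_card_lt f (by simp)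
  rcases lt_or_gt_of_ne hne with hk | hk
  · exact key k1 k2 hk h
  · exact key k2 k1 hk h.symm

theorem many_logs {ι : Type} [Fintype ι] (p : ι → ℕ) {D B Q n : ℕ} (hD : Fintype.card ι ≤ D)
    (hD1 : 1 ≤ D) (hp : ∀ i, 1 ≤ p i) (hp' : ∀ i, p i ≤ 2 ^ D) (b : ι → ℤ) (hb : ∀ i, |b i| ≤ B)
    (hQ : 2 ≤ Q) (hQB : Q ^ D ≤ B) (hn : 64 ≤ n) (hnB : 2 * D ^ 2 * B ≤ 2 ^ n)
    (hne : ∑ i, b i * Real.log (p i) ≠ 0) :
    ∃ E : ℕ, Q * E ≤ 2 ^ 28 * n ^ 3 * D ^ 4 * (Q ^ (2 * D + 1) + B) ∧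
      1 ≤ 2 ^ E * |∑ i, b i * Real.log (p i)| := by
  have hB : 1 ≤ B := (Nat.one_le_pow _ _ (by omega)).trans hQB
  obtain ⟨k, hk1, hk2, e, he⟩ := dirichlet b hB (Q := Q) (by omega)
  have hk3 : k ≤ Q ^ D := hk2.trans (Nat.pow_le_pow_right (by omega) hD)
  have hB' : (0 : ℤ) < B := by exact_mod_cast hB
  have hQ' : (2 : ℤ) ≤ Q := by exact_mod_cast hQ
  have hk' : (1 : ℤ) ≤ k := by exact_mod_cast hk1
  have he1 : ∀ i, |e i| ≤ k := by
    intro i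
    have h1 : |e i * B| ≤ |k * b i| + |k * b i - e i * B| := by
      have := abs_sub (k * b i) (k * b i - e i * B)
      rwa [sub_sub_cancel] at this
    rw [abs_mul, abs_mul, Nat.abs_cast, Nat.abs_cast] at h1
    have h2 := he i
    have h3 := hb i
    have h4 := abs_nonneg (k * b i - e i * B)
    have h5 : |e i| * B < (k + 1) * B := by nlinarith
    have := lt_of_mul_lt_mul_right h5 hB'.le
    omega
  obtain ⟨a, ha⟩ : ∃ a, a = B / k := ⟨_, rfl⟩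
  have ha1 : k * a ≤ B := ha ▸ Nat.mul_div_le B k
  have ha2 : B < k * (a + 1) := ha ▸ Nat.lt_mul_div_succ B hk1
  have haB : a ≤ B := ha ▸ Nat.div_le_self _ _
  have he2 : ∀ i, |-(b i - a * e i)| ≤ ((k + a / Q : ℕ) : ℤ) := by
    intro i
    have h1 : B * (b i - a * e i) = (B - k * a) * b i + a * (k * b i - e i * B) := by ring
    have h2 : (0 : ℤ) ≤ B - k * a := by
      have : ((k * a : ℕ) : ℤ) ≤ B := by exact_mod_cast ha1
      push_cast at this; linarith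
    have h3 : (B : ℤ) - k * a ≤ k := by
      have : (B : ℤ) < ((k * (a + 1) : ℕ) : ℤ) := by exact_mod_cast ha2
      push_cast at this; linarith
    have h4 := (congrArg abs h1).le.trans (abs_add_le _ _)
    rw [abs_mul, abs_mul, abs_mul, Nat.abs_cast, Nat.abs_cast, abs_of_nonneg h2] at h4
    have h5 : (B - k * a) * |b i| ≤ k * B := mul_le_mul h3 (hb i) (abs_nonneg _) (by positivity)
    have h6 : (a : ℤ) * (Q * |k * b i - e i * B|) ≤ a * B :=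
      mul_le_mul_of_nonneg_left (he i) (by positivity)
    have h7 : B * (Q * |b i - a * e i|) ≤ B * (Q * k + a) := by nlinarith
    have h8 := le_of_mul_le_mul_left h7 hB'
    have h9 : (a : ℤ) < Q * ((a / Q : ℕ) + 1) := by
      exact_mod_cast Nat.lt_mul_div_succ a (by omega : 0 < Q)
    rw [abs_neg]
    have h10 : Q * |b i - a * e i| < Q * (((k + a / Q : ℕ) : ℤ) + 1) := by
      rw [Nat.cast_add]; linarith
    have := lt_of_mul_lt_mul_left h10 (by linarith)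
    omega
  obtain ⟨u1, v1, a1, a2, a3, a4, a5⟩ := exists_uv p hD hp hp' e he1
  obtain ⟨u2, v2, b1, b2, b3, b4, b5⟩ := exists_uv p hD hp hp' _ he2
  have hΛ : a * (Real.log u1 - Real.log v1) - (Real.log u2 - Real.log v2) =
      ∑ i, b i * Real.log (p i) := by
    rw [a5, b5, mul_sum, ← sum_sub_distrib]
    refine sum_congr rfl fun i _ => ?_
    push_cast
    ring
  have hD2 : 1 ≤ D ^ 2 := Nat.one_le_pow _ _ hD1
  have haQ : a / Q ≤ B := (Nat.div_le_self _ _).trans haB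
  have c1 : D ^ 2 * (k + a / Q) ≤ 2 ^ n := by
    refine le_trans ?_ hnB
    calc _ ≤ D ^ 2 * (2 * B) := Nat.mul_le_mul_left _ (by omega)
      _ = _ := by ring
  have := two_logs_prod (a := a) hn a1 a2 b1 b2 a3 a4 b3 b4 (Nat.mul_pos hD2 hk1)
    (Nat.mul_pos hD2 (Nat.add_pos_left hk1 _))
    ((Nat.mul_le_mul_left _ (Nat.le_add_right _ _)).trans c1) c1
    (haB.trans (le_trans (by nlinarith) hnB)) (hΛ ▸ hne)
  rw [hΛ] at this
  refine ⟨_, ?_, this⟩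
  have c2 : Q * (k * (k + a / Q)) ≤ Q ^ (2 * D + 1) + B := by
    have c3 : k * k ≤ Q ^ D * Q ^ D := Nat.mul_le_mul hk3 hk3
    have c4 : k * (Q * (a / Q)) ≤ k * a := Nat.mul_le_mul_left _ (Nat.mul_div_le a Q)
    calc _ = Q * (k * k) + k * (Q * (a / Q)) := by ring
      _ ≤ Q * (Q ^ D * Q ^ D) + B := Nat.add_le_add (Nat.mul_le_mul_left _ c3) (c4.trans ha1)
      _ = _ := by ring
  calc _ = 2 ^ 28 * n ^ 3 * D ^ 4 * (Q * (k * (k + a / Q))) := by ring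
    _ ≤ _ := Nat.mul_le_mul_left _ c2

theorem sq_le_two_pow' (m : ℕ) (hm : 4 ≤ m) : m ^ 2 ≤ 2 ^ m := by
  induction m, hm using Nat.le_induction with
  | base => norm_num
  | succ n hn ih =>
    rw [pow_succ 2 n]
    nlinarith

theorem solve_aux {l D n Q : ℕ} (hD1 : 1 ≤ D) (hn : n = l + 3 * D + 64)
    (hQ : Q = 2 ^ 29 * n ^ 3 * D ^ 5) (h1 : 2 ^ l ≤ Q ^ (2 * D + 1)) : l + 1 ≤ 2 ^ 20 * D ^ 2 := by
  obtain ⟨m, hm⟩ : ∃ m, m = Nat.sqrt n := ⟨_, rfl⟩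
  have hm1 : m * m ≤ n := hm ▸ Nat.sqrt_le n
  have hm2 : n < (m + 1) * (m + 1) := hm ▸ Nat.lt_succ_sqrt n
  have hm3 : 8 ≤ m := by
    by_contra hc
    have : (m + 1) * (m + 1) ≤ 8 * 8 := Nat.mul_le_mul (by omega) (by omega)
    omega
  have hm4 : n ≤ 2 ^ (m + 1) := hm2.le.trans (by rw [← sq]; exact sq_le_two_pow' _ (by omega))
  have h2 : Q ≤ 2 ^ (8 * m + 37) := by
    have : D ≤ 2 ^ (m + 1) := le_trans (by omega) hm4
    calc Q = 2 ^ 29 * n ^ 3 * D ^ 5 := hQ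
      _ ≤ 2 ^ 29 * (2 ^ (m + 1)) ^ 3 * (2 ^ (m + 1)) ^ 5 := by gcongr
      _ = _ := by ring
  have h3 : 2 ^ l ≤ 2 ^ ((8 * m + 37) * (2 * D + 1)) := by
    rw [pow_mul]
    exact h1.trans (Nat.pow_le_pow_left h2 _)
  have h4 := (Nat.pow_le_pow_iff_right (by norm_num)).1 h3
  clear h1 h2 h3 hQ hm4 hm
  have h5 : (8 * m + 37) * (2 * D + 1) ≤ (13 * m) * (3 * D) := Nat.mul_le_mul (by omega) (by omega)
  have h6 : 8 * D ≤ m * D := Nat.mul_le_mul_right _ hm3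
  have h7 : m * m ≤ m * (100 * D) := by nlinarith
  have h8 : m ≤ 100 * D := Nat.le_of_mul_le_mul_left h7 (by omega)
  have h9 : (m + 1) * (m + 1) ≤ (101 * D) * (101 * D) := Nat.mul_le_mul (by omega) (by omega)
  nlinarith

/-- Effective bound: a nonzero linear form in at most `D` logarithms of integers at most `2^D`
with coefficients at most `D T` cannot be smaller than `2^(-T)` when `T` is large. -/
theorem baker_gap {ι : Type} [Fintype ι] (p : ι → ℕ) {D T : ℕ} (hD : Fintype.card ι ≤ D)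
    (hD1 : 1 ≤ D) (hp : ∀ i, 1 ≤ p i) (hp' : ∀ i, p i ≤ 2 ^ D) (b : ι → ℤ)
    (hb : ∀ i, |b i| ≤ D * T) (hne : ∑ i, b i * Real.log (p i) ≠ 0)
    (hT : 2 ^ T * |∑ i, b i * Real.log (p i)| < 1) : T ≤ 2 ^ (2 ^ 20 * D ^ 2) := by
  obtain ⟨l, hl⟩ : ∃ l, l = Nat.log 2 T := ⟨_, rfl⟩
  have hl1 : T < 2 ^ (l + 1) := hl ▸ Nat.lt_pow_succ_log_self (by norm_num) T
  rcases Nat.eq_zero_or_pos T with rfl | hT0
  · exact Nat.zero_le _
  have hl2 : 2 ^ l ≤ T := hl ▸ Nat.pow_log_le_self 2 hT0.ne'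
  obtain ⟨n, hn⟩ : ∃ n, n = l + 3 * D + 64 := ⟨_, rfl⟩
  obtain ⟨Q, hQ⟩ : ∃ Q, Q = 2 ^ 29 * n ^ 3 * D ^ 5 := ⟨_, rfl⟩
  have hn3 : 1 ≤ n ^ 3 := Nat.one_le_pow _ _ (by omega)
  have hD5 : 1 ≤ D ^ 5 := Nat.one_le_pow _ _ hD1
  have hQ2 : 2 ≤ Q := by
    have : 1 ≤ n ^ 3 * D ^ 5 := Nat.mul_pos hn3 hD5
    rw [hQ, mul_assoc]; omega
  have h1 : T ≤ Q ^ (2 * D + 1) := by
    by_cases hc : Q ^ D ≤ D * T
    · obtain ⟨E, hE1, hE2⟩ := many_logs p (B := D * T) (n := n) hD hD1 hp hp' b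
        (by simpa using hb) hQ2 hc (by omega)
        (by
          have e1 : D ≤ 2 ^ D := Nat.lt_two_pow_self.le
          calc 2 * D ^ 2 * (D * T) = 2 * D ^ 3 * T := by ring
            _ ≤ 2 * (2 ^ D) ^ 3 * 2 ^ (l + 1) := by gcongr
            _ = 2 ^ (l + 3 * D + 2) := by ring
            _ ≤ _ := Nat.pow_le_pow_right (by norm_num) (by omega)) hne
      have h2 : T < E := by
        by_contra h3
        have : (2 : ℝ) ^ E ≤ 2 ^ T := pow_le_pow_right₀ (by norm_num) (by omega)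
        have := mul_le_mul_of_nonneg_right this (abs_nonneg (∑ i, b i * Real.log (p i)))
        linarith
      have h3 : D ^ 4 ≤ D ^ 5 := Nat.pow_le_pow_right hD1 (by norm_num)
      have h4 : 2 * (2 ^ 28 * n ^ 3 * D ^ 4 * (Q ^ (2 * D + 1) + D * T)) ≤
          Q * (Q ^ (2 * D + 1) + T) := by
        calc _ = 2 ^ 29 * n ^ 3 * D ^ 4 * Q ^ (2 * D + 1) + 2 ^ 29 * n ^ 3 * D ^ 5 * T := by ring
          _ ≤ 2 ^ 29 * n ^ 3 * D ^ 5 * Q ^ (2 * D + 1) + 2 ^ 29 * n ^ 3 * D ^ 5 * T := by gcongr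
          _ = _ := by rw [← hQ]; ring
      have h5 : Q * (2 * E) ≤ Q * (Q ^ (2 * D + 1) + T) := by
        calc _ = 2 * (Q * E) := by ring
          _ ≤ _ := (Nat.mul_le_mul_left 2 hE1).trans h4
      have := Nat.le_of_mul_le_mul_left h5 (by omega)
      omega
    · have h2 : T ≤ D * T := Nat.le_mul_of_pos_left _ hD1
      have h3 : Q ^ D ≤ Q ^ (2 * D + 1) := Nat.pow_le_pow_right (by omega) (by omega)
      omega
  exact hl1.le.trans (Nat.pow_le_pow_right (by norm_num) (solve_aux hD1 hn hQ (hl2.trans h1)))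

end Pool.Agent.Shared.TwoLogsProd
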