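import Pool.Agent.Shared.SubspaceMain

/-!
The Subspace Theorem in an ultrapower of the rationals; S-units with nonstandard exponents and
their linear independence (finiteness of S-unit equations).
-/

set_option autoImplicit false

namespace Pool.Agent.Shared.Subspace

open Finset Filter Topology

noncomputable section

variable {ι : Type} {U : Ultrafilter ι} {l : ι → ℝ}

/-- the ultrapower of the rationals -/
def KK (U : Ultrafilter ι) : Type := (U : Filter ι).Germ ℚ

instance : Field (KK U) := inferInstanceAs (Field ((U : Filter ι).Germ ℚ))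

/-- the class of a sequence -/
def gm (U : Ultrafilter ι) : (ι → ℚ) →+* KK U := Germ.coeRingHom (U : Filter ι)

lemma gm_eq {f g : ι → ℚ} : gm U f = gm U g ↔ ∀ᶠ j in (U : Filter ι), f j = g j := Germ.coe_eq

lemma gm_surj (ξ : KK U) : ∃ f, gm U f = ξ := Quotient.exists_rep ξ

instance : CharZero (KK U) :=
  ((gm U).comp (Pi.constRingHom ι ℚ)).charZero_iff (RingHom.injective _) |>.1 inferInstance

lemma gm_smul (c : ℚ) (f : ι → ℚ) : gm U (c • f) = c • gm U f := map_rat_smul (gm U) c f

lemma gm_eq_zero {f : ι → ℚ} : gm U f = 0 ↔ ∀ᶠ j in (U : Filter ι), f j = 0 := by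
  rw [← map_zero (gm U), gm_eq]; rfl

lemma gm_ne_zero {f : ι → ℚ} (h : ∀ᶠ j in (U : Filter ι), f j ≠ 0) : gm U f ≠ 0 := by
  rw [Ne, gm_eq_zero]
  intro h'
  obtain ⟨j, h1, h2⟩ := (h.and h').exists
  exact h1 h2

/-- asymptotic upper bound for the size of an element of the ultrapower -/
def GLe (l : ι → ℝ) (v : AbsoluteValue ℚ ℝ) (ξ : KK U) (c : ℝ) : Prop :=
  ∀ f, gm U f = ξ → SB U l (fun j => v (f j)) c

lemma GLe_gm {v : AbsoluteValue ℚ ℝ} {f : ι → ℚ} {c : ℝ} :
    GLe l v (gm U f) c ↔ SB U l (fun j => v (f j)) c := by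
  refine ⟨fun h => h f rfl, fun h g hg => h.of_le ?_⟩
  filter_upwards [gm_eq.1 hg] with j hj using by rw [hj]

section GLe

variable (hl : Tendsto l U atTop) {v : AbsoluteValue ℚ ℝ} {ξ ζ : KK U} {c c' : ℝ}
include hl

lemma GLe.mono (h : GLe l v ξ c) (hc : c ≤ c') : GLe l v ξ c' :=
  fun f hf => (h f hf).mono hl hc

omit hl in
lemma GLe.mul (h : GLe l v ξ c) (h' : GLe l v ζ c') : GLe l v (ξ * ζ) (c + c') := by
  obtain ⟨f, rfl⟩ := gm_surj ξ
  obtain ⟨g, rfl⟩ := gm_surj ζ
  rw [← map_mul, GLe_gm]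
  simpa using (GLe_gm.1 h).mul (GLe_gm.1 h') (Eventually.of_forall (fun _ => v.nonneg _))

lemma GLe.add (h : GLe l v ξ c) (h' : GLe l v ζ c) : GLe l v (ξ + ζ) c := by
  obtain ⟨f, rfl⟩ := gm_surj ξ
  obtain ⟨g, rfl⟩ := gm_surj ζ
  rw [← map_add, GLe_gm]
  exact (((GLe_gm.1 h).add hl (GLe_gm.1 h'))).of_le (Eventually.of_forall (fun _ => v.add_le _ _))

lemma GLe.smul (h : GLe l v ξ c) (a : ℚ) : GLe l v (a • ξ) c := by
  obtain ⟨f, rfl⟩ := gm_surj ξ
  rw [← gm_smul, GLe_gm]
  simpa using (GLe_gm.1 h).const_mul hl (Eventually.of_forall (fun _ => v.nonneg _)) (v a)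

omit hl in
lemma GLe_zero : GLe l v (0 : KK U) c := by
  rw [← map_zero (gm U), GLe_gm]; simpa using SB_zero

lemma GLe_one : GLe l v (1 : KK U) 0 := by
  rw [← map_one (gm U), GLe_gm]; simpa using SB_const hl 1

lemma GLe.neg (h : GLe l v ξ c) : GLe l v (-ξ) c := by
  rw [← neg_one_smul ℚ ξ]; exact h.smul hl _

lemma GLe.sum {α : Type*} (s : Finset α) {f : α → KK U} (h : ∀ a ∈ s, GLe l v (f a) c) :
    GLe l v (∑ a ∈ s, f a) c := by
  classical
  induction s using Finset.induction_on with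
  | empty => simpa using GLe_zero
  | insert a s ha ih =>
    rw [Finset.sum_insert ha]
    exact (h a (Finset.mem_insert_self _ _)).add hl
      (ih (fun b hb => h b (Finset.mem_insert_of_mem hb)))

end GLe

variable {P : Type} [Fintype P] (F : PrimeFam P)

/-- S-integers of the ultrapower -/
def GO (U : Ultrafilter ι) : Subring (KK U) where
  carrier := {ξ | ∃ f, gm U f = ξ ∧ ∀ᶠ j in (U : Filter ι), f j ∈ F.OS}
  mul_mem' := by
    rintro _ _ ⟨f, rfl, hf⟩ ⟨g, rfl, hg⟩
    exact ⟨f * g, map_mul _ _ _, (hf.and hg).mono (fun j h => F.OS.mul_mem h.1 h.2)⟩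
  one_mem' := ⟨1, map_one _, Eventually.of_forall (fun _ => F.OS.one_mem)⟩
  add_mem' := by
    rintro _ _ ⟨f, rfl, hf⟩ ⟨g, rfl, hg⟩
    exact ⟨f + g, map_add _ _ _, (hf.and hg).mono (fun j h => F.OS.add_mem h.1 h.2)⟩
  zero_mem' := ⟨0, map_zero _, Eventually.of_forall (fun _ => F.OS.zero_mem)⟩
  neg_mem' := by
    rintro _ ⟨f, rfl, hf⟩
    exact ⟨-f, map_neg _ _, hf.mono (fun j h => F.OS.neg_mem h)⟩

/-- The Subspace Theorem in the ultrapower. -/
theorem subspace_germ (hl : Tendsto l U atTop) {κ : Type} [Fintype κ] [DecidableEq κ]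
    (ξ : κ → KK U) (hO : ∀ i, ξ i ∈ GO F U) (b : Option P → κ → KK U)
    (hb : ∀ v i, b v i ∈ Submodule.span ℚ (Set.range ξ))
    (hspan : ∀ v i, ξ i ∈ Submodule.span ℚ (Set.range (b v)))
    (c : Option P → κ → ℝ) (hc : ∑ v, ∑ i, c v i < 0)
    (hle : ∀ v i, GLe l (F.av v) (b v i) (c v i)) : ¬ LinearIndependent ℚ ξ := by
  intro hind
  choose x hx hxO using hO
  choose L hL using fun v i => (Submodule.mem_span_range_iff_exists_fun ℚ).1 (hb v i)
  choose M hM using fun v i => (Submodule.mem_span_range_iff_exists_fun ℚ).1 (hspan v i)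
  have hdet : ∀ v, (Matrix.of (L v)).det ≠ 0 := by
    intro v
    have h1 : Matrix.of (M v) * Matrix.of (L v) = 1 := by
      ext i k
      have h2 := hM v i
      simp only [← hL v, Finset.smul_sum, smul_smul] at h2
      rw [Finset.sum_comm] at h2
      simp only [← Finset.sum_smul] at h2
      have h3 : ∑ k, ((∑ m, M v i m * L v m k) - if i = k then 1 else 0) • ξ k = 0 := by
        simp only [sub_smul, Finset.sum_sub_distrib, h2]
        simp
      have := Fintype.linearIndependent_iff.1 hind _ h3 k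
      rw [Matrix.mul_apply, Matrix.one_apply]
      simpa [sub_eq_zero] using this
    exact (Matrix.isUnit_det_of_left_inverse h1).ne_zero
  obtain ⟨a, ha0, ha⟩ := subspace_ultra U hl F (fun v => Matrix.of (L v)) hdet c hc
    (fun j k => x k j) (Filter.eventually_all.2 hxO) (fun v i => by
      refine hle v i (fun j => (Matrix.of (L v)).mulVec (fun k => x k j) i) ?_
      rw [← hL v i]
      simp only [← hx, ← gm_smul, ← map_sum]
      congr 1
      funext j
      simp [Matrix.mulVec, dotProduct])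
  apply ha0
  funext k
  refine Fintype.linearIndependent_iff.1 hind a ?_ k
  simp only [← hx, ← gm_smul, ← map_sum]
  rw [gm_eq_zero]
  simpa using ha

/-- the S-unit with given exponents -/
def PrimeFam.unit (e : P → ℤ) : ℚ := ∏ a, (F.pr a : ℚ) ^ e a

lemma PrimeFam.unit_add (e e' : P → ℤ) : F.unit (e + e') = F.unit e * F.unit e' := by
  simp only [PrimeFam.unit, Pi.add_apply, ← Finset.prod_mul_distrib]
  exact Finset.prod_congr rfl (fun a _ => zpow_add₀ (F.pr_ne_zero a) _ _)

lemma PrimeFam.unit_ne_zero (e : P → ℤ) : F.unit e ≠ 0 :=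
  Finset.prod_ne_zero_iff.2 (fun a _ => zpow_ne_zero _ (F.pr_ne_zero a))

@[simp] lemma PrimeFam.unit_zero : F.unit 0 = 1 := by simp [PrimeFam.unit]

lemma PrimeFam.unit_mem (e : P → ℤ) : F.unit e ∈ F.OS :=
  F.OS.prod_mem (fun a _ => F.zpow_mem a _)

/-- logarithm of the absolute value of a prime -/
def PrimeFam.lg (v : Option P) (a : P) : ℝ := Real.log (F.av v (F.pr a))

lemma PrimeFam.sum_lg (a : P) : ∑ v, F.lg v a = 0 := by
  unfold PrimeFam.lg
  rw [← Real.log_prod (fun v _ => ((F.av v).pos (F.pr_ne_zero a)).ne'), F.prod_av_pr, Real.log_one]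

lemma PrimeFam.av_unit (v : Option P) (e : P → ℤ) :
    F.av v (F.unit e) = Real.exp (∑ a, e a * F.lg v a) := by
  rw [PrimeFam.unit, map_prod, Real.exp_sum]
  refine Finset.prod_congr rfl (fun a _ => ?_)
  rw [map_zpow₀, PrimeFam.lg, ← Real.log_zpow, Real.exp_log]
  exact zpow_pos ((F.av v).pos (F.pr_ne_zero a)) _

omit [Fintype P] in
lemma PrimeFam.lg_some (b a : P) [Decidable (b = a)] :
    F.lg (some b) a = if b = a then -Real.log (F.pr a) else 0 := by
  unfold PrimeFam.lg
  split_ifs with h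
  · subst h; rw [F.av_self, Real.log_inv]
  · rw [F.av_other h, Real.log_one]

omit [Fintype P] in
lemma PrimeFam.lg_none (a : P) : F.lg none a = Real.log (F.pr a) := by
  unfold PrimeFam.lg; rw [F.av_none_pr]

/-- S-unit of the ultrapower -/
def mon (U : Ultrafilter ι) (e : ι → P → ℤ) : KK U := gm U (fun j => F.unit (e j))

lemma mon_add (e e' : ι → P → ℤ) : mon F U (e + e') = mon F U e * mon F U e' := by
  rw [mon, mon, mon, ← map_mul]
  congr 1
  funext j
  exact F.unit_add _ _

lemma mon_ne_zero (e : ι → P → ℤ) : mon F U e ≠ 0 :=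
  gm_ne_zero (Eventually.of_forall (fun _ => F.unit_ne_zero _))

lemma mon_zero : mon F U 0 = 1 := by
  rw [mon, ← map_one (gm U)]; congr 1; funext j; simp

lemma mon_mem (e : ι → P → ℤ) : mon F U e ∈ GO F U :=
  ⟨_, rfl, Eventually.of_forall (fun _ => F.unit_mem _)⟩

/-- exponent sequences of size `O(l)` -/
def EE (P : Type) (U : Ultrafilter ι) (l : ι → ℝ) : AddSubgroup (ι → P → ℤ) where
  carrier := {e | ∀ a, ∃ A : ℝ, ∀ᶠ j in (U : Filter ι), |(e j a : ℝ) / l j| ≤ A}
  add_mem' := by
    intro e e' he he' a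
    obtain ⟨A, hA⟩ := he a
    obtain ⟨B, hB⟩ := he' a
    refine ⟨A + B, ?_⟩
    filter_upwards [hA, hB] with j h1 h2
    simp only [Pi.add_apply, Int.cast_add, add_div]
    exact (abs_add_le _ _).trans (add_le_add h1 h2)
  zero_mem' := fun a => ⟨0, by simp⟩
  neg_mem' := by
    intro e he a
    obtain ⟨A, hA⟩ := he a
    exact ⟨A, hA.mono (fun j h => by simpa [neg_div] using h)⟩

/-- standard part of the normalised exponent -/
def st (e : EE P U l) (a : P) : ℝ := limUnder (U : Filter ι) (fun j => (e.1 j a : ℝ) / l j)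

omit [Fintype P] in
lemma tendsto_st (e : EE P U l) (a : P) :
    Tendsto (fun j => (e.1 j a : ℝ) / l j) U (𝓝 (st e a)) := by
  obtain ⟨A, hA⟩ := e.2 a
  refine tendsto_nhds_limUnder ?_
  obtain ⟨r, -, hr⟩ := (isCompact_Icc (a := -A) (b := A)).ultrafilter_le_nhds
    (U.map (fun j => (e.1 j a : ℝ) / l j)) (by
      rw [Ultrafilter.coe_map, le_principal_iff, Filter.mem_map]
      exact hA.mono (fun j h => abs_le.1 h))
  exact ⟨r, hr⟩

omit [Fintype P] in
lemma st_add (e e' : EE P U l) (a : P) : st (e + e') a = st e a + st e' a := by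
  refine tendsto_nhds_unique (tendsto_st (e + e') a) ?_
  have := (tendsto_st e a).add (tendsto_st e' a)
  simpa [add_div] using this

omit [Fintype P] in
lemma st_eq {e : EE P U l} {a : P} {r : ℝ} (h : Tendsto (fun j => (e.1 j a : ℝ) / l j) U (𝓝 r)) :
    st e a = r := tendsto_nhds_unique (tendsto_st e a) h

/-- logarithmic size of a nonstandard S-unit -/
def lam0 (v : Option P) : EE P U l →+ ℝ :=
  AddMonoidHom.mk' (fun e => ∑ a, st e a * F.lg v a) (fun e e' => by
    simp only [st_add, add_mul, Finset.sum_add_distrib])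

lemma lam0_apply (v : Option P) (e : EE P U l) : lam0 F v e = ∑ a, st e a * F.lg v a := rfl

lemma sum_lam0 (e : EE P U l) : ∑ v, lam0 F v e = 0 := by
  simp only [lam0_apply]
  rw [Finset.sum_comm]
  simp only [← Finset.mul_sum, F.sum_lg, mul_zero, Finset.sum_const_zero]

lemma lam0_some (b : P) (e : EE P U l) : lam0 F (some b) e = -(st e b * Real.log (F.pr b)) := by
  classical
  rw [lam0_apply, Finset.sum_eq_single b]
  · simp [F.lg_some]
  · intro a _ ha; simp [F.lg_some, ha.symm]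
  · simp

lemma GLe_mon (hl : Tendsto l U atTop) (v : Option P) (e : EE P U l) :
    GLe l (F.av v) (mon F U e.1) (lam0 F v e) := by
  rw [mon, GLe_gm]
  intro ε hε
  have h1 : Tendsto (fun j => ∑ a, (e.1 j a : ℝ) / l j * F.lg v a) U (𝓝 (lam0 F v e)) :=
    tendsto_finsetSum _ (fun a _ => (tendsto_st e a).mul_const _)
  filter_upwards [h1.eventually_le_const (lt_add_of_pos_right _ hε), hl.eventually_gt_atTop 0]
    with j h2 h3
  rw [F.av_unit]
  refine Real.exp_le_exp.2 (le_trans (le_of_eq ?_) (mul_le_mul_of_nonneg_right h2 h3.le))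
  rw [Finset.sum_mul]
  refine Finset.sum_congr rfl (fun a _ => ?_)
  field_simp

/-- constant exponent sequences -/
def E0 (P : Type) (U : Ultrafilter ι) (l : ι → ℝ) : AddSubgroup (EE P U l) where
  carrier := {e | ∃ c : P → ℤ, ∀ᶠ j in (U : Filter ι), e.1 j = c}
  add_mem' := by
    rintro e e' ⟨c, hc⟩ ⟨c', hc'⟩
    exact ⟨c + c', (hc.and hc').mono (fun j h => by rw [← h.1, ← h.2]; rfl)⟩
  zero_mem' := ⟨0, by simp⟩
  neg_mem' := by
    rintro e ⟨c, hc⟩
    exact ⟨-c, hc.mono (fun j h => by rw [← h]; rfl)⟩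

/-- nonstandard S-units modulo standard ones -/
abbrev GG (P : Type) (U : Ultrafilter ι) (l : ι → ℝ) : Type := EE P U l ⧸ E0 P U l

lemma lam0_E0 (hl : Tendsto l U atTop) (v : Option P) (e : EE P U l) (he : e ∈ E0 P U l) :
    lam0 F v e = 0 := by
  obtain ⟨c, hc⟩ := he
  rw [lam0_apply]
  refine Finset.sum_eq_zero (fun a _ => ?_)
  have : st e a = 0 := st_eq ((hl.const_div_atTop (c a : ℝ)).congr'
    (hc.mono (fun j h => by simp only [h])))
  rw [this, zero_mul]

/-- logarithmic size on the quotient -/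
def lam (hl : Tendsto l U atTop) (v : Option P) : GG P U l →+ ℝ :=
  QuotientAddGroup.lift _ (lam0 F v) (lam0_E0 F hl v)

lemma lam_mk (hl : Tendsto l U atTop) (v : Option P) (e : EE P U l) :
    lam F hl v (e : GG P U l) = lam0 F v e := rfl

/-- a representative S-unit for each class -/
def mo (γ : GG P U l) : KK U := mon F U γ.out.1

lemma lam_out (hl : Tendsto l U atTop) (v : Option P) (γ : GG P U l) :
    lam0 F v γ.out = lam F hl v γ := by
  rw [← lam_mk F hl, QuotientAddGroup.out_eq']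

lemma sum_lam (hl : Tendsto l U atTop) (γ : GG P U l) : ∑ v, lam F hl v γ = 0 := by
  simp only [← lam_out, sum_lam0]

lemma GLe_mo (hl : Tendsto l U atTop) (v : Option P) (γ : GG P U l) :
    GLe l (F.av v) (mo F γ) (lam F hl v γ) := by
  rw [← lam_out]; exact GLe_mon F hl v _

lemma mo_ne_zero (γ : GG P U l) : mo F γ ≠ 0 := mon_ne_zero F _

lemma mo_mem (γ : GG P U l) : mo F γ ∈ GO F U := mon_mem F _

lemma mon_eq_smul (e : EE P U l) : ∃ c : ℚ, c ≠ 0 ∧ mon F U e.1 = c • mo F (e : GG P U l) := by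
  have h1 : ((e : GG P U l).out : GG P U l) = e := QuotientAddGroup.out_eq' _
  obtain ⟨c, hc⟩ := QuotientAddGroup.eq.1 h1
  refine ⟨F.unit c, F.unit_ne_zero c, ?_⟩
  rw [mo, mon, mon, ← gm_smul, gm_eq]
  filter_upwards [hc] with j hj
  rw [Pi.smul_apply, smul_eq_mul, ← F.unit_add, ← hj]
  congr 1
  simp

lemma mo_mul (γ γ' : GG P U l) : ∃ c : ℚ, c ≠ 0 ∧ mo F γ * mo F γ' = c • mo F (γ + γ') := by
  obtain ⟨c, hc, h⟩ := mon_eq_smul F (γ.out + γ'.out)
  refine ⟨c, hc, ?_⟩
  rw [QuotientAddGroup.mk_add, QuotientAddGroup.out_eq', QuotientAddGroup.out_eq'] at h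
  rw [← h, mo, mo, ← mon_add]; rfl

omit [Fintype P] in
lemma eventually_const_of_bdd [Finite P] {e : ι → P → ℤ} {b : ℝ}
    (h : ∀ᶠ j in (U : Filter ι), ∀ a, |(e j a : ℝ)| ≤ b) :
    ∃ c : P → ℤ, ∀ᶠ j in (U : Filter ι), e j = c := by
  classical
  have := Fintype.ofFinite P
  obtain ⟨c, hc⟩ := ultra_exists U
    (α := Fintype.piFinset (fun _ : P => Finset.Icc (-⌈b⌉) ⌈b⌉)) (p := fun j c => e j = c.1)
    (h.mono (fun j hj => ⟨⟨e j, Fintype.mem_piFinset.2 (fun a => by
      have h1 : |e j a| ≤ ⌈b⌉ := by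
        have := (hj a).trans (Int.le_ceil b)
        exact_mod_cast this
      exact Finset.mem_Icc.2 (abs_le.1 h1))⟩, rfl⟩))
  exact ⟨c.1, hc⟩

/-- S-units that are pairwise non-proportional over the standard rationals are independent. -/
theorem mo_linearIndependent : LinearIndependent ℚ (mo F : GG P U l → KK U) := by
  classical
  suffices h : ∀ s : Finset (GG P U l), LinearIndepOn ℚ (mo F) (s : Set (GG P U l)) from
    linearIndependent_iff_finset_linearIndependent.2 h
  intro s
  induction s using Finset.induction_on with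
  | empty => simp
  | insert g s hg ih =>
    rw [Finset.coe_insert]
    refine ih.insert (fun hmem => ?_)
    obtain ⟨c, hc⟩ := (Submodule.mem_span_image_finset_iff_exists_fun' ℚ).1 hmem
    set s' := s.filter (fun γ => c γ ≠ 0) with hs'
    have hc' : ∑ γ ∈ s', c γ • mo F γ = mo F g := by
      rw [← hc, hs', Finset.sum_filter_of_ne]
      intro γ _ h h0; rw [h0, zero_smul] at h; exact h rfl
    have hne : s'.Nonempty := by
      by_contra h
      rw [Finset.not_nonempty_iff_eq_empty] at h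
      rw [h, Finset.sum_empty] at hc'
      exact mo_ne_zero F g hc'.symm
    let e : GG P U l → ι → P → ℤ := fun γ => γ.out.1 - g.out.1
    have he : ∀ γ, mon F U (e γ) = mo F γ * mon F U (-g.out.1) := by
      intro γ; rw [mo, ← mon_add]; congr 1
    have hone : ∑ γ ∈ s', c γ • mon F U (e γ) = 1 := by
      simp only [he, ← smul_mul_assoc, ← Finset.sum_mul, hc']
      rw [mo, ← mon_add, add_neg_cancel, mon_zero]
    let l' : ι → ℝ := fun j => ∑ γ ∈ s', ∑ a, |(e γ j a : ℝ)|
    have hle : ∀ γ ∈ s', ∀ j a, |(e γ j a : ℝ)| ≤ l' j := by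
      intro γ hγ j a
      exact le_trans (Finset.single_le_sum (f := fun a => |(e γ j a : ℝ)|)
        (fun _ _ => abs_nonneg _) (Finset.mem_univ a))
        (Finset.single_le_sum (f := fun γ => ∑ a, |(e γ j a : ℝ)|)
          (fun _ _ => Finset.sum_nonneg (fun _ _ => abs_nonneg _)) hγ)
    have hl' : Tendsto l' U atTop := by
      rw [tendsto_atTop]
      intro b
      by_contra hcon
      rw [← Ultrafilter.eventually_not] at hcon
      obtain ⟨γ, hγ⟩ := hne
      obtain ⟨c0, hc0⟩ := eventually_const_of_bdd (U := U) (e := e γ) (b := b)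
        (hcon.mono (fun j hj a => (hle γ hγ j a).trans (not_le.1 hj).le))
      have h1 : (g.out : GG P U l) = γ.out := QuotientAddGroup.eq.2 ⟨c0, hc0.mono (fun j hj => by
        rw [← hj]; simp [e, sub_eq_neg_add])⟩
      rw [QuotientAddGroup.out_eq', QuotientAddGroup.out_eq'] at h1
      exact hg (h1 ▸ (Finset.mem_filter.1 hγ).1)
    let e' : s' → EE P U l' := fun γ => ⟨e γ.1, fun a => ⟨1, by
      filter_upwards [hl'.eventually_gt_atTop 0] with j hj
      rw [abs_div, abs_of_pos hj, div_le_one hj]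
      exact hle γ.1 γ.2 j a⟩⟩
    obtain ⟨γ1, a1, h1⟩ : ∃ γ a, st (e' γ) a ≠ 0 := by
      by_contra hcon
      push Not at hcon
      have h2 : Tendsto (fun j => ∑ γ : s', ∑ a, |((e' γ).1 j a : ℝ) / l' j|) U
          (𝓝 (∑ γ : s', ∑ a, |st (e' γ) a|)) :=
        tendsto_finsetSum _ (fun γ _ => tendsto_finsetSum _ (fun a _ => (tendsto_st _ a).abs))
      simp only [hcon, abs_zero, Finset.sum_const_zero] at h2
      have h3 : Tendsto (fun j => ∑ γ : s', ∑ a, |((e' γ).1 j a : ℝ) / l' j|) U (𝓝 1) := by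
        refine tendsto_const_nhds.congr' ?_
        filter_upwards [hl'.eventually_gt_atTop 0] with j hj
        simp only [abs_div, abs_of_pos hj, ← Finset.sum_div, e']
        rw [Finset.sum_coe_sort s' (fun γ => ∑ a, |(e γ j a : ℝ)|)]
        exact (div_self hj.ne').symm
      exact one_ne_zero (tendsto_nhds_unique h3 h2)
    obtain ⟨v1, hv1⟩ : ∃ v, 0 < lam0 F v (e' γ1) := by
      by_contra hcon
      push Not at hcon
      have h2 := (Finset.sum_eq_zero_iff_of_nonpos (fun v _ => hcon v)).1 (sum_lam0 F (e' γ1))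
        (some a1) (Finset.mem_univ _)
      rw [lam0_some, neg_eq_zero] at h2
      exact (mul_ne_zero h1 (Real.log_pos (by linarith [F.two_le a1])).ne') h2
    have hone' : ∑ γ : s', c γ.1 • mon F U (e γ.1) = 1 := by
      rw [← hone]; exact Finset.sum_coe_sort s' (fun γ => c γ • mon F U (e γ))
    refine subspace_germ F hl' (fun γ : s' => mon F U (e γ.1)) (fun γ => mon_mem F _)
      (fun v γ => if v = v1 ∧ γ = γ1 then 1 else mon F U (e γ.1)) (fun v γ => ?_) (fun v γ => ?_)
      (fun v γ => lam0 F v (e' γ) - if v = v1 ∧ γ = γ1 then lam0 F v1 (e' γ1) else 0) ?_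
      (fun v γ => ?_) ?_
    · split_ifs
      · rw [← hone']
        exact Submodule.sum_mem _ (fun γ _ => Submodule.smul_mem _ _
          (Submodule.subset_span ⟨γ, rfl⟩))
      · exact Submodule.subset_span ⟨γ, rfl⟩
    · have hgen : ∀ γ : s', ¬ (v = v1 ∧ γ = γ1) → mon F U (e γ.1) ∈ Submodule.span ℚ
          (Set.range (fun γ : s' => if v = v1 ∧ γ = γ1 then 1 else mon F U (e γ.1))) :=
        fun γ h => Submodule.subset_span ⟨γ, if_neg h⟩
      by_cases h : v = v1 ∧ γ = γ1
      · obtain ⟨rfl, rfl⟩ := h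
        have hc1 : c γ.1 ≠ 0 := (Finset.mem_filter.1 γ.2).2
        have h2 : mon F U (e γ.1) = (c γ.1)⁻¹ •
            (1 - ∑ γ' ∈ Finset.univ.erase γ, c γ'.1 • mon F U (e γ'.1)) := by
          rw [← hone', ← Finset.add_sum_erase _ _ (Finset.mem_univ γ), add_sub_cancel_right,
            smul_smul, inv_mul_cancel₀ hc1, one_smul]
        rw [h2]
        refine Submodule.smul_mem _ _ (Submodule.sub_mem _
          (Submodule.subset_span ⟨γ, if_pos ⟨rfl, rfl⟩⟩)
          (Submodule.sum_mem _ (fun γ' hγ' => Submodule.smul_mem _ _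
            (hgen γ' (fun h => Finset.ne_of_mem_erase hγ' h.2)))))
      · exact hgen γ h
    · simp only [Finset.sum_sub_distrib]
      rw [Finset.sum_comm (f := fun v γ => lam0 F v (e' γ))]
      simp only [sum_lam0, Finset.sum_const_zero, ite_and, Finset.sum_ite_eq', Finset.mem_univ,
        if_true, Finset.sum_ite_irrel]
      linarith
    · split_ifs with h
      · obtain ⟨rfl, rfl⟩ := h
        rw [sub_self]; exact GLe_one hl'
      · rw [sub_zero]; exact GLe_mon F hl' v (e' γ)
    · have h2 : LinearIndependent ℚ (fun γ : s' => mo F γ.1) :=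
        ih.mono (fun γ hγ => (Finset.mem_filter.1 hγ).1)
      have h3 := h2.map' (LinearMap.mulRight ℚ (mon F U (-g.out.1)))
        (LinearMap.ker_eq_bot.2 (mul_left_injective₀ (mon_ne_zero F _)))
      simp only [he]
      exact h3

end

end Pool.Agent.Shared.Subspace
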