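import Pool.Agent.Shared.PolyTime

/-!
Integer arithmetic for the polynomial-time closure library.
-/

namespace Pool.Agent.Shared.PolyTime

open N487b59b3

variable {α : Type} [N487b59b3 α]

theorem enc_int (z : ℤ) : bitEncode z = bitEncode (z.toNat, (-z).toNat) := rfl

theorem sz_int (z : ℤ) : sz z = 2 * sz z.toNat + 1 + sz (-z).toNat := sz_pair _ _

theorem natAbs_lt_sz (z : ℤ) : z.natAbs < 2 ^ sz z := by
  have h1 : z.toNat < 2 ^ sz z := Nat.size_le.1 (by rw [sz_int z, ← sz_nat]; omega)
  have h2 : (-z).toNat < 2 ^ sz z := Nat.size_le.1 (by rw [sz_int z, ← sz_nat]; omega)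
  omega

theorem sz_int_le {z : ℤ} {w : ℕ} (h : z.natAbs < 2 ^ w) : sz z ≤ 3 * w + 1 := by
  have h1 : sz z.toNat ≤ w := by rw [sz_nat, Nat.size_le]; omega
  have h2 : sz (-z).toNat ≤ w := by rw [sz_nat, Nat.size_le]; omega
  rw [sz_int]; omega

/-- Division of an integer by the positive part of another one, rounding towards zero. -/
def idiv (x d : ℤ) : ℤ := (x.toNat / d.toNat : ℕ) - ((-x).toNat / d.toNat : ℕ)

theorem idiv_mul {d : ℤ} (hd : 0 < d) (z : ℤ) : idiv (d * z) d = z := by
  obtain ⟨n, rfl⟩ := Int.eq_ofNat_of_zero_le hd.le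
  have hn : 0 < n := by exact_mod_cast hd
  unfold idiv
  obtain ⟨k, rfl | rfl⟩ := Int.eq_nat_or_neg z
  · rw [← Nat.cast_mul, Int.toNat_neg_natCast, Int.toNat_natCast, Int.toNat_natCast,
      Nat.mul_div_cancel_left _ hn]
    simp
  · rw [mul_neg, neg_neg, ← Nat.cast_mul, Int.toNat_neg_natCast, Int.toNat_natCast,
      Int.toNat_natCast, Nat.mul_div_cancel_left _ hn]
    simp

namespace PT

theorem intParts {f : α → ℤ} (hf : PT f) : PT fun a => ((f a).toNat, (-f a).toNat) :=
  hf.of_enc fun _ => rfl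

@[fun_prop] theorem intToNat {f : α → ℤ} (hf : PT f) : PT fun a => (f a).toNat :=
  hf.intParts.fst

theorem natSub {f g : α → ℕ} (hf : PT f) (hg : PT g) : PT fun a => (f a : ℤ) - g a :=
  (pair (hf.sub hg) (hg.sub hf)).of_enc fun a => by
    rw [enc_int]; congr 2 <;> omega

@[fun_prop] theorem intNeg {f : α → ℤ} (hf : PT f) : PT fun a => -f a :=
  (natSub hf.intParts.snd hf.intParts.fst).of_eq fun a => by simp only; omega

@[fun_prop] theorem natCast {f : α → ℕ} (hf : PT f) : PT fun a => (f a : ℤ) :=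
  (natSub hf (const 0)).of_eq fun a => by simp

@[fun_prop] theorem intAdd {f g : α → ℤ} (hf : PT f) (hg : PT g) : PT fun a => f a + g a :=
  (natSub (hf.intToNat.add hg.intToNat) (hf.intNeg.intToNat.add hg.intNeg.intToNat)).of_eq
    fun a => by omega

@[fun_prop] theorem intSub {f g : α → ℤ} (hf : PT f) (hg : PT g) : PT fun a => f a - g a :=
  (hf.intAdd hg.intNeg).of_eq fun a => by omega

@[fun_prop] theorem intMul {f g : α → ℤ} (hf : PT f) (hg : PT g) : PT fun a => f a * g a :=
  (natSub ((hf.intToNat.mul hg.intToNat).add (hf.intNeg.intToNat.mul hg.intNeg.intToNat))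
    ((hf.intToNat.mul hg.intNeg.intToNat).add (hf.intNeg.intToNat.mul hg.intToNat))).of_eq
    fun a => by
      have h1 := Int.toNat_sub_toNat_neg (f a)
      have h2 := Int.toNat_sub_toNat_neg (g a)
      push_cast
      conv_rhs => rw [← h1, ← h2]
      ring

@[fun_prop] theorem natAbs {f : α → ℤ} (hf : PT f) : PT fun a => (f a).natAbs :=
  (hf.intToNat.add hf.intNeg.intToNat).of_eq fun a => by omega

theorem intLe {f g : α → ℤ} {inst : ∀ a, Decidable (f a ≤ g a)} (hf : PT f)
    (hg : PT g) : PT fun a => @decide (f a ≤ g a) (inst a) :=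
  (decide_eq (inst := fun _ => inferInstance) (hf.intSub hg).intToNat (const 0)).of_eq fun a => by
    simp only [decide_eq_decide]; omega

theorem intLt {f g : α → ℤ} {inst : ∀ a, Decidable (f a < g a)} (hf : PT f)
    (hg : PT g) : PT fun a => @decide (f a < g a) (inst a) :=
  (intLe (inst := fun _ => inferInstance) (hf.intAdd (const 1)) hg).of_eq fun a => by
    simp only [decide_eq_decide]; omega

@[fun_prop] theorem idiv {f g : α → ℤ} (hf : PT f) (hg : PT g) :
    PT fun a => idiv (f a) (g a) :=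
  natSub (hf.intToNat.div hg.intToNat) (hf.intNeg.intToNat.div hg.intToNat)

@[fun_prop] theorem intSum {l : α → List ℤ} (hl : PT l) : PT fun a => (l a).sum :=
  (natSub (sum (map (h := fun _ z => z.toNat) hl (by fun_prop)))
    (sum (map (h := fun _ z => (-z).toNat) hl (by fun_prop)))).of_eq fun a => by
      induction l a with
      | nil => simp
      | cons z m ih => simp only [List.map_cons, List.sum_cons]; omega

end PT

end Pool.Agent.Shared.PolyTime
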