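import Mathlib

set_option autoImplicit false

namespace Pool.Agent.Shared.TwoLogs

open Finset

theorem max_mod {f : ℂ → ℂ} (hf : Differentiable ℂ f) {T M : ℝ} (hT : 0 < T)
    (hM : ∀ u : ℂ, ‖u‖ = T → ‖f u‖ ≤ M) {w : ℂ} (hw : ‖w‖ ≤ T) : ‖f w‖ ≤ M := by
  refine Complex.norm_le_of_forall_mem_frontier_norm_le (U := Metric.ball 0 T)
    Metric.isBounded_ball hf.diffContOnCl ?_ ?_
  · intro z hz
    rw [frontier_ball _ hT.ne'] at hz
    exact hM z (by simpa using hz)
  · rw [closure_ball _ hT.ne']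
    simpa using hw

/-- Extrapolation from approximate zeros (Newton interpolation and the maximum principle). -/
theorem interp {ρ : ℝ} (hρ : 1 ≤ ρ) (Z : Finset ℂ) : ∀ (f : ℂ → ℂ), Differentiable ℂ f →
    ∀ ε M : ℝ, 0 ≤ ε → (∀ z ∈ Z, ‖z‖ ≤ ρ) → (∀ z ∈ Z, ∀ z' ∈ Z, z ≠ z' → 1 ≤ ‖z - z'‖) →
    (∀ z ∈ Z, ‖f z‖ ≤ ε) → (∀ u : ℂ, ‖u‖ = 9 * ρ → ‖f u‖ ≤ M) → ∀ w : ℂ, ‖w‖ ≤ ρ →
    ‖f w‖ ≤ ε * (5 * ρ) ^ Z.card + M / 2 ^ Z.card := by
  classical
  induction Z using Finset.induction_on with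
  | empty =>
    intro f hf ε M hε _ _ _ hM w hw
    have := max_mod hf (by linarith) hM (w := w) (by linarith)
    simp only [card_empty, pow_zero, mul_one, div_one]
    linarith
  | insert a Z ha ih =>
    intro f hf ε M hε h1 h2 h3 hM w hw
    have hg : Differentiable ℂ (dslope f a) := by
      rw [← differentiableOn_univ] at hf ⊢
      exact (Complex.differentiableOn_dslope Filter.univ_mem).2 hf
    have ha1 := h1 a (mem_insert_self _ _)
    have ha3 := h3 a (mem_insert_self _ _)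
    have haM := max_mod hf (by linarith) hM (w := a) (by linarith)
    have hM0 : 0 ≤ M := (norm_nonneg _).trans haM
    have key : ∀ u, ‖u - a‖ * ‖dslope f a u‖ = ‖f u - f a‖ := fun u => by
      rw [← sub_smul_dslope f a u, norm_smul]
    have := ih (dslope f a) hg (2 * ε) (M / (4 * ρ)) (by linarith)
      (fun z hz => h1 z (mem_insert_of_mem hz))
      (fun z hz z' hz' => h2 z (mem_insert_of_mem hz) z' (mem_insert_of_mem hz'))
      (fun z hz => by
        have b1 := h2 z (mem_insert_of_mem hz) a (mem_insert_self _ _) (fun e => ha (e ▸ hz))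
        have b2 := key z
        have b3 := norm_sub_le (f z) (f a)
        have b4 := h3 z (mem_insert_of_mem hz)
        nlinarith [norm_nonneg (dslope f a z)])
      (fun u hu => by
        have b1 : 8 * ρ ≤ ‖u - a‖ := by
          have := norm_sub_norm_le u a
          linarith
        have b2 := key u
        have b3 := norm_sub_le (f u) (f a)
        have b4 := hM u hu
        rw [le_div_iff₀ (by linarith)]
        nlinarith [norm_nonneg (dslope f a u)]) w hw
    rw [card_insert_of_notMem ha]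
    have c1 : ‖f w‖ ≤ ε + 2 * ρ * ‖dslope f a w‖ := by
      have b1 : ‖w - a‖ ≤ 2 * ρ := (norm_sub_le _ _).trans (by linarith)
      have b2 := key w
      have b3 : ‖f w‖ ≤ ‖f w - f a‖ + ‖f a‖ := by
        simpa using norm_add_le (f w - f a) (f a)
      nlinarith [norm_nonneg (dslope f a w)]
    have c2 : 1 ≤ (5 * ρ) ^ Z.card := one_le_pow₀ (by linarith)
    have c3 : 2 * ρ * (M / (4 * ρ) / 2 ^ Z.card) = M / 2 ^ (Z.card + 1) := by
      field_simp
      ring
    have c4 : 2 * ρ * ‖dslope f a w‖ ≤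
        2 * ρ * (2 * ε * (5 * ρ) ^ Z.card + M / (4 * ρ) / 2 ^ Z.card) := by gcongr
    rw [mul_add, c3] at c4
    have c5 : ε * 1 ≤ ε * (ρ * (5 * ρ) ^ Z.card) := by
      gcongr
      nlinarith
    rw [pow_succ]
    nlinarith

attribute [local instance] Matrix.seminormedAddCommGroup in
/-- Siegel's lemma with twice as many unknowns as equations. -/
theorem siegel_two {α β : Type} [Fintype α] [Fintype β] (A : α → β → ℤ)
    (hn : Fintype.card β = 2 * Fintype.card α) (hm : 0 < Fintype.card α) {H : ℝ} (hH : 1 ≤ H)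
    (hA : ∀ i j, |(A i j : ℝ)| ≤ H) :
    ∃ t : β → ℤ, t ≠ 0 ∧ (∀ i, ∑ j, A i j * t j = 0) ∧
      ∀ j, |(t j : ℝ)| ≤ Fintype.card β * H := by
  obtain ⟨t, h0, h1, h2⟩ := Int.Matrix.exists_ne_zero_int_vec_norm_le (Matrix.of A) (by omega) hm
  refine ⟨t, h0, fun i => congrFun h1 i, fun j => ?_⟩
  have h3 : ‖Matrix.of A‖ ≤ H := by
    rw [Matrix.norm_le_iff (by linarith)]
    intro i j
    rw [Matrix.of_apply, Int.norm_eq_abs]
    exact hA i j
  have h6 : (Fintype.card α : ℝ) / (Fintype.card β - Fintype.card α) = 1 := by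
    have : (0 : ℝ) < Fintype.card α := by exact_mod_cast hm
    rw [hn, div_eq_one_iff_eq (by push_cast; linarith)]
    push_cast
    ring
  rw [h6, Real.rpow_one] at h2
  calc |(t j : ℝ)| = ‖t j‖ := (Int.norm_eq_abs _).symm
    _ ≤ ‖t‖ := norm_le_pi_norm t j
    _ ≤ _ := h2
    _ ≤ _ := by gcongr; exact max_le hH h3

/-- The zero estimate, by divisibility. -/
theorem zero_est {K L b r₀ : ℕ} (hb : 1 ≤ b) (p : Fin K × Fin L → ℤ)
    (h1 : ∀ r < r₀ + K, ∑ j : Fin K × Fin L, ((r * b : ℕ) : ℤ) ^ (j.1 : ℕ) * 2 ^ (j.2 * r) * p j = 0)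
    (h2 : ∀ r < r₀ + K, ∀ l, |∑ i : Fin K, p (i, l) * ((r * b : ℕ) : ℤ) ^ (i : ℕ)| < 2 ^ r₀) :
    p = 0 := by
  have key : ∀ n : ℕ, ∀ l : Fin L, (l : ℕ) = n → ∀ i, p (i, l) = 0 := by
    intro n
    induction n using Nat.strong_induction_on with
    | _ n ih =>
      rintro l rfl
      have : (fun i => p (i, l)) = 0 := by
        refine Matrix.eq_zero_of_forall_index_sum_mul_pow_eq_zero
          (f := fun i : Fin K => (((r₀ + i) * b : ℕ) : ℤ)) ?_ ?_
        · intro i i' h
          have h' : (r₀ + i) * b = (r₀ + i') * b := Nat.cast_injective (R := ℤ) h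
          have := Nat.eq_of_mul_eq_mul_right hb h'
          exact Fin.ext (by omega)
        · intro j
          set r := r₀ + j with hr
          have hrK : r < r₀ + K := by have := j.2; omega
          have a1 := h1 r hrK
          rw [Fintype.sum_prod_type_right, ← Finset.add_sum_erase _ _ (mem_univ l)] at a1
          have a2 : (2 : ℤ) ^ ((l + 1) * r) ∣ ∑ l' ∈ univ.erase l, ∑ i : Fin K,
              ((r * b : ℕ) : ℤ) ^ (i : ℕ) * 2 ^ (l' * r) * p (i, l') := by
            refine Finset.dvd_sum fun l' hl' => Finset.dvd_sum fun i _ => ?_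
            rcases lt_or_gt_of_ne (Finset.ne_of_mem_erase hl') with h | h
            · rw [ih l' h l' rfl i, mul_zero]; exact dvd_zero _
            · exact Dvd.dvd.mul_right (Dvd.dvd.mul_left
                (pow_dvd_pow _ (Nat.mul_le_mul_right _ h)) _) _
          have a3 : ∑ i : Fin K, ((r * b : ℕ) : ℤ) ^ (i : ℕ) * 2 ^ (l * r) * p (i, l) =
              2 ^ (l * r) * ∑ i : Fin K, p (i, l) * ((r * b : ℕ) : ℤ) ^ (i : ℕ) := by
            rw [Finset.mul_sum]
            exact Finset.sum_congr rfl fun i _ => by ring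
          rw [a3] at a1
          rw [eq_neg_of_add_eq_zero_right a1, dvd_neg, add_mul, one_mul, pow_add,
            mul_dvd_mul_iff_left (by positivity)] at a2
          refine Int.eq_zero_of_abs_lt_dvd a2 ((h2 r hrK l).trans_le ?_)
          exact pow_le_pow_right₀ (by norm_num) (by omega)
      exact fun i => congrFun this i
  funext j
  exact key j.2 j.2 rfl j.1

theorem log_sub_log_ge {x y : ℕ} (hx : 1 ≤ x) (h : x < y) :
    (1 : ℝ) / y ≤ Real.log y - Real.log x := by
  have hx' : (1 : ℝ) ≤ x := by exact_mod_cast hx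
  have h' : (x : ℝ) + 1 ≤ y := by exact_mod_cast h
  rw [← Real.log_div (by linarith) (by linarith)]
  refine le_trans ?_ (Real.one_sub_inv_le_log_of_pos (div_pos (by linarith) (by linarith)))
  rw [inv_div, div_le_iff₀ (by linarith), sub_mul, div_mul_cancel₀ _ (by linarith)]
  linarith

/-- Liouville's bound -/
theorem liouville {u v R : ℕ} (hu : 1 ≤ u) (huR : u ≤ R) (hvR : v ≤ R) :
    (1 : ℝ) / 3 ^ R ≤ |v * Real.log 2 - u * Real.log 3| := by
  have e1 : (v : ℝ) * Real.log 2 = Real.log ((2 ^ v : ℕ) : ℝ) := by simp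
  have e2 : (u : ℝ) * Real.log 3 = Real.log ((3 ^ u : ℕ) : ℝ) := by simp
  have hne : 2 ^ v ≠ 3 ^ u := by
    intro h
    rcases Nat.eq_zero_or_pos v with rfl | hv
    · have : 1 < 3 ^ u := Nat.one_lt_pow (by omega) (by norm_num)
      omega
    · have h2 : 2 ∣ 3 ^ u := h ▸ dvd_pow_self 2 hv.ne'
      have := Nat.prime_two.dvd_of_dvd_pow h2
      omega
  have b1 : ((2 ^ v : ℕ) : ℝ) ≤ 3 ^ R := by
    push_cast
    exact (pow_le_pow_left₀ (by norm_num) (by norm_num) v).trans
      (pow_le_pow_right₀ (by norm_num) hvR)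
  have b2 : ((3 ^ u : ℕ) : ℝ) ≤ 3 ^ R := by
    push_cast
    exact pow_le_pow_right₀ (by norm_num) huR
  rw [e1, e2]
  rcases lt_or_gt_of_ne hne with h | h
  · rw [abs_sub_comm]
    refine le_trans ?_ ((log_sub_log_ge (Nat.one_le_two_pow) h).trans (le_abs_self _))
    exact one_div_le_one_div_of_le (by positivity) b2
  · refine le_trans ?_ ((log_sub_log_ge (Nat.one_le_pow _ _ (by norm_num)) h).trans
      (le_abs_self _))
    exact one_div_le_one_div_of_le (by positivity) b1

end Pool.Agent.Shared.TwoLogs
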