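import Mathlib
import Pool.Agent.Shared.TwoLogsAux

set_option autoImplicit false

namespace Pool.Agent.Shared.TwoLogs

open Finset

theorem norm_sum_le_card {ι E : Type} [Fintype ι] [SeminormedAddCommGroup E] (g : ι → E) {B : ℝ}
    (h : ∀ j, ‖g j‖ ≤ B) : ‖∑ j, g j‖ ≤ Fintype.card ι * B := by
  refine (norm_sum_le_of_le _ fun j _ => h j).trans ?_
  simp

/-- the integer values of the auxiliary function -/
def F {K L : ℕ} (a b : ℕ) (p : Fin K × Fin L → ℤ) (r s : ℕ) : ℤ :=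
  ∑ j : Fin K × Fin L, ((r * b + s * a : ℕ) : ℤ) ^ (j.1 : ℕ) * 2 ^ (j.2 * r) * 3 ^ (j.2 * s) * p j

/-- the auxiliary function -/
noncomputable def aux {K L : ℕ} (b : ℕ) (p : Fin K × Fin L → ℤ) (u : ℂ) : ℂ :=
  ∑ j : Fin K × Fin L, (p j : ℂ) * u ^ (j.1 : ℕ) *
    Complex.exp ((((j.2 : ℕ) * Real.log 2 / b : ℝ) : ℂ) * u)

theorem aux_diff {K L : ℕ} (b : ℕ) (p : Fin K × Fin L → ℤ) : Differentiable ℂ (aux b p) := by
  unfold aux
  fun_prop

theorem pow_le_aux {x : ℝ} {w i K : ℕ} (hx0 : 0 ≤ x) (hx : x ≤ 2 ^ w) (hi : i ≤ K) :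
    x ^ i ≤ 2 ^ (w * K) := by
  rw [pow_mul]
  exact (pow_le_pow_left₀ hx0 hx i).trans (pow_le_pow_right₀ (one_le_pow₀ (by norm_num)) hi)

theorem aux_bound {K L b w h R : ℕ} (hb : 1 ≤ b) (p : Fin K × Fin L → ℤ)
    (hp : ∀ j, |(p j : ℝ)| ≤ 2 ^ h) (hKL : K * L ≤ 2 ^ w) (hR : 36 * R * b ≤ 2 ^ w)
    (u : ℂ) (hu : ‖u‖ = 36 * R * b) : ‖aux b p u‖ ≤ 2 ^ (w + h + w * K + 36 * L * R) := by
  have hb' : (1 : ℝ) ≤ b := by exact_mod_cast hb
  refine (norm_sum_le_card _ (B := 2 ^ h * 2 ^ (w * K) * 2 ^ (36 * L * R)) fun j => ?_).trans ?_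
  · rw [norm_mul, norm_mul, norm_pow, hu]
    have a1 : ‖(p j : ℂ)‖ ≤ 2 ^ h := by
      rw [Complex.norm_intCast]; exact hp j
    have a2 : ((36 : ℝ) * R * b) ^ (j.1 : ℕ) ≤ 2 ^ (w * K) :=
      pow_le_aux (by positivity) (by exact_mod_cast hR) j.1.2.le
    have a3 : ‖Complex.exp ((((j.2 : ℕ) * Real.log 2 / b : ℝ) : ℂ) * u)‖ ≤ 2 ^ (36 * L * R) := by
      refine (Complex.norm_exp_le_exp_norm _).trans ?_
      have hl := Real.log_pos (by norm_num : (1 : ℝ) < 2)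
      rw [norm_mul, hu, Complex.norm_real, Real.norm_of_nonneg (by positivity),
        ← Real.exp_log (by positivity : (0 : ℝ) < 2 ^ (36 * L * R)), Real.exp_le_exp,
        Real.log_pow]
      have a4 : ((j.2 : ℕ) : ℝ) ≤ L := by exact_mod_cast j.2.2.le
      have a5 : ((j.2 : ℕ) : ℝ) * Real.log 2 / b * (36 * R * b) =
          36 * (j.2 : ℕ) * R * Real.log 2 := by field_simp
      rw [a5]
      push_cast
      gcongr
    gcongr
  · rw [Fintype.card_prod, Fintype.card_fin, Fintype.card_fin, pow_add, pow_add, pow_add]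
    have : ((K * L : ℕ) : ℝ) ≤ 2 ^ w := by exact_mod_cast hKL
    calc _ ≤ (2 : ℝ) ^ w * (2 ^ h * 2 ^ (w * K) * 2 ^ (36 * L * R)) := by gcongr
      _ = _ := by ring

theorem six_le {l r s L R : ℕ} (hl : l ≤ L) (hr : r ≤ R) (hs : s ≤ R) :
    (2 : ℝ) ^ (l * r) * 3 ^ (l * s) ≤ 2 ^ (3 * L * R) := by
  have a1 : (2 : ℝ) ^ (l * r) ≤ 2 ^ (L * R) :=
    pow_le_pow_right₀ (by norm_num) (Nat.mul_le_mul hl hr)
  have a2 : (3 : ℝ) ^ (l * s) ≤ 4 ^ (L * R) :=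
    (pow_le_pow_left₀ (by norm_num) (by norm_num) _).trans
      (pow_le_pow_right₀ (by norm_num) (Nat.mul_le_mul hl hs))
  calc _ ≤ (2 : ℝ) ^ (L * R) * 4 ^ (L * R) := by gcongr
    _ = _ := by rw [← mul_pow, mul_assoc, pow_mul 2 3]; norm_num

theorem aux_approx {K L a b w h R r s : ℕ} (hb : 1 ≤ b) (hab : a ≤ 3 * b)
    (p : Fin K × Fin L → ℤ) (hp : ∀ j, |(p j : ℝ)| ≤ 2 ^ h) (hKL : K * L ≤ 2 ^ w)
    (hR : 36 * R * b ≤ 2 ^ w) (hLR : L * R ≤ 2 ^ w) (hr : r ≤ R) (hs : s ≤ R)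
    (hΛ : 2 ^ w * |a * Real.log 2 - b * Real.log 3| ≤ 1) :
    ‖aux b p ((r * b + s * a : ℕ) : ℂ) - F a b p r s‖ ≤
      2 ^ (w + h + w * K + 3 * L * R + w + 1) * |a * Real.log 2 - b * Real.log 3| := by
  have hb' : (1 : ℝ) ≤ b := by exact_mod_cast hb
  set Λ := a * Real.log 2 - b * Real.log 3 with hΛ'
  unfold aux F
  rw [Int.cast_sum, ← Finset.sum_sub_distrib]
  refine (norm_sum_le_card _
    (B := 2 ^ h * 2 ^ (w * K) * 2 ^ (3 * L * R) * (2 * (2 ^ w * |Λ|))) fun j => ?_).trans ?_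
  · have e1 : (((j.2 : ℕ) * Real.log 2 / b : ℝ) : ℂ) * ((r * b + s * a : ℕ) : ℂ) =
        ((((j.2 * r : ℕ) * Real.log 2 + (j.2 * s : ℕ) * Real.log 3 +
          (j.2 * s : ℕ) * Λ / b : ℝ)) : ℂ) := by
      rw [← Complex.ofReal_natCast, ← Complex.ofReal_mul]
      congr 1
      rw [hΛ']
      push_cast
      field_simp
      ring
    have e2 : (p j : ℂ) * ((r * b + s * a : ℕ) : ℂ) ^ (j.1 : ℕ) *
        Complex.exp ((((j.2 : ℕ) * Real.log 2 / b : ℝ) : ℂ) * ((r * b + s * a : ℕ) : ℂ)) -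
        ((((r * b + s * a : ℕ) : ℤ) ^ (j.1 : ℕ) * 2 ^ (j.2 * r) * 3 ^ (j.2 * s) * p j : ℤ) : ℂ) =
        (((p j : ℝ) * ((r * b + s * a : ℕ) : ℝ) ^ (j.1 : ℕ) * (2 ^ (j.2 * r) * 3 ^ (j.2 * s)) *
          (Real.exp ((j.2 * s : ℕ) * Λ / b) - 1) : ℝ) : ℂ) := by
      rw [e1, ← Complex.ofReal_exp, Real.exp_add, Real.exp_add, ← Real.log_pow, ← Real.log_pow,
        Real.exp_log (by positivity), Real.exp_log (by positivity)]
      push_cast
      ring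
    rw [e2, Complex.norm_real, Real.norm_eq_abs, abs_mul, abs_mul, abs_mul, abs_pow,
      Nat.abs_cast, abs_of_nonneg (by positivity : (0 : ℝ) ≤ 2 ^ (j.2 * r) * 3 ^ (j.2 * s))]
    have a2 : ((r * b + s * a : ℕ) : ℝ) ^ (j.1 : ℕ) ≤ 2 ^ (w * K) := by
      refine pow_le_aux (by positivity) ?_ j.1.2.le
      have : r * b + s * a ≤ 2 ^ w := by
        have := Nat.mul_le_mul hr (le_refl b)
        have := Nat.mul_le_mul hs hab
        nlinarith
      exact_mod_cast this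
    have a3 := six_le j.2.2.le hr hs
    have a4 : |((j.2 * s : ℕ) : ℝ) * Λ / b| ≤ 2 ^ w * |Λ| := by
      rw [abs_div, abs_mul, Nat.abs_cast, Nat.abs_cast]
      refine (div_le_self (by positivity) hb').trans ?_
      have : (j.2 : ℕ) * s ≤ 2 ^ w := (Nat.mul_le_mul j.2.2.le hs).trans hLR
      have : (((j.2 : ℕ) * s : ℕ) : ℝ) ≤ 2 ^ w := by exact_mod_cast this
      gcongr
    have a5 := (Real.abs_exp_sub_one_le (a4.trans hΛ)).trans
      (mul_le_mul_of_nonneg_left a4 (by norm_num))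
    have a6 := hp j
    gcongr
  · rw [Fintype.card_prod, Fintype.card_fin, Fintype.card_fin]
    have : ((K * L : ℕ) : ℝ) ≤ 2 ^ w := by exact_mod_cast hKL
    calc _ ≤ (2 : ℝ) ^ w * (2 ^ h * 2 ^ (w * K) * 2 ^ (3 * L * R) * (2 * (2 ^ w * |Λ|))) := by
          gcongr
      _ = _ := by ring

theorem step {K L a b w h R R₁ : ℕ} (hb : 1 ≤ b) (hab : a ≤ 3 * b)
    (p : Fin K × Fin L → ℤ) (hp : ∀ j, |(p j : ℝ)| ≤ 2 ^ h) (hKL : K * L ≤ 2 ^ w)
    (hR₁ : 36 * R₁ * b ≤ 2 ^ w) (hLR : L * R₁ ≤ 2 ^ w) (hR0 : 1 ≤ R) (hR : R ≤ R₁)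
    (hinj : ∀ r < R₁, ∀ s < R₁, ∀ r' < R₁, ∀ s' < R₁, r * b + s * a = r' * b + s' * a →
      r = r' ∧ s = s')
    (hΛ : 2 ^ (w + h + w * K + 3 * L * R₁ + w + 1 + w * R₁ ^ 2 + 2) *
      |a * Real.log 2 - b * Real.log 3| ≤ 1)
    (hbig : w + h + w * K + 36 * L * R + 2 ≤ R ^ 2)
    (h0 : ∀ r < R, ∀ s < R, F a b p r s = 0) : ∀ r ≤ R, ∀ s ≤ R, F a b p r s = 0 := by
  classical
  intro r hr s hs
  set Λ := |a * Real.log 2 - b * Real.log 3| with hΛ'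
  have hΛ0 : 0 ≤ Λ := abs_nonneg _
  have hb' : (1 : ℝ) ≤ b := by exact_mod_cast hb
  have hR0' : (1 : ℝ) ≤ R := by exact_mod_cast hR0
  have hΛ1 : 2 ^ w * Λ ≤ 1 := by
    refine le_trans ?_ hΛ
    gcongr
    · norm_num
    · omega
  set ε := 2 ^ (w + h + w * K + 3 * L * R₁ + w + 1) * Λ with hε
  have hε0 : 0 ≤ ε := by positivity
  have hε1 : ε * 2 ^ (w * R₁ ^ 2) ≤ 1 / 4 := by
    rw [pow_add, pow_add] at hΛ
    rw [hε]
    nlinarith
  have happ : ∀ r ≤ R, ∀ s ≤ R, ‖aux b p ((r * b + s * a : ℕ) : ℂ) - F a b p r s‖ ≤ ε :=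
    fun r hr s hs => aux_approx hb hab p hp hKL hR₁ hLR (hr.trans hR) (hs.trans hR) hΛ1
  have hnorm : ∀ r ≤ R, ∀ s ≤ R, ‖((r * b + s * a : ℕ) : ℂ)‖ ≤ 4 * R * b := by
    intro r hr s hs
    rw [Complex.norm_natCast]
    have : r * b + s * a ≤ 4 * R * b := by
      have := Nat.mul_le_mul hr (le_refl b)
      have := Nat.mul_le_mul hs hab
      nlinarith
    exact_mod_cast this
  let Z : Finset ℂ := (range R ×ˢ range R).image fun x => ((x.1 * b + x.2 * a : ℕ) : ℂ)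
  have hZ : Z.card = R ^ 2 := by
    rw [card_image_of_injOn, card_product, card_range, sq]
    rintro ⟨r, s⟩ h1 ⟨r', s'⟩ h2 h3
    simp only [coe_product, coe_range, Set.mem_prod, Set.mem_Iio] at h1 h2
    obtain ⟨rfl, rfl⟩ := hinj r (by omega) s (by omega) r' (by omega) s' (by omega)
      (Nat.cast_injective (R := ℂ) h3)
    rfl
  have hR' : 36 * R * b ≤ 2 ^ w := le_trans (by gcongr) hR₁
  have key := interp (ρ := 4 * R * b) (by nlinarith) Z (aux b p) (aux_diff b p) ε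
    (2 ^ (w + h + w * K + 36 * L * R)) hε0
    (by
      intro z hz
      obtain ⟨⟨r, s⟩, h1, rfl⟩ := mem_image.1 hz
      simp only [mem_product, mem_range] at h1
      exact hnorm r h1.1.le s h1.2.le)
    (by
      intro z hz z' hz' hne
      obtain ⟨x, -, rfl⟩ := mem_image.1 hz
      obtain ⟨y, -, rfl⟩ := mem_image.1 hz'
      have : ((x.1 * b + x.2 * a : ℕ) : ℂ) - ((y.1 * b + y.2 * a : ℕ) : ℂ) =
          ((((x.1 * b + x.2 * a : ℕ) : ℤ) - ((y.1 * b + y.2 * a : ℕ) : ℤ) : ℤ) : ℂ) := by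
        push_cast; ring
      rw [this, Complex.norm_intCast]
      have h2 : ((x.1 * b + x.2 * a : ℕ) : ℤ) - ((y.1 * b + y.2 * a : ℕ) : ℤ) ≠ 0 := by
        intro h3
        apply hne
        rw [← sub_eq_zero, this, h3, Int.cast_zero]
      exact_mod_cast Int.one_le_abs h2)
    (by
      intro z hz
      obtain ⟨⟨r, s⟩, h1, rfl⟩ := mem_image.1 hz
      simp only [mem_product, mem_range] at h1
      have := happ r h1.1.le s h1.2.le
      rwa [h0 r h1.1 s h1.2, Int.cast_zero, sub_zero] at this)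
    (fun u hu => aux_bound hb p hp hKL hR' u (by rw [hu]; ring)) _ (hnorm r hr s hs)
  rw [hZ] at key
  have b1 : ((5 : ℝ) * (4 * R * b)) ^ R ^ 2 ≤ 2 ^ (w * R₁ ^ 2) := by
    refine pow_le_aux (by positivity) ?_ (Nat.pow_le_pow_left hR 2)
    have : 5 * (4 * R * b) ≤ 2 ^ w := by nlinarith
    exact_mod_cast this
  have b2 : (2 : ℝ) ^ (w + h + w * K + 36 * L * R) / 2 ^ R ^ 2 ≤ 1 / 4 := by
    rw [div_le_iff₀ (by positivity)]
    have : (2 : ℝ) ^ (w + h + w * K + 36 * L * R + 2) ≤ 2 ^ R ^ 2 :=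
      pow_le_pow_right₀ (by norm_num) hbig
    rw [pow_add] at this
    linarith
  have b3 : ε * (5 * (4 * R * b)) ^ R ^ 2 ≤ 1 / 4 := le_trans (by gcongr) hε1
  have b4 : ε ≤ 1 / 4 := le_trans (le_mul_of_one_le_right hε0 (one_le_pow₀ (by norm_num))) hε1
  have b5 := happ r hr s hs
  have b6 : ‖((F a b p r s : ℤ) : ℂ)‖ < 1 := by
    have := norm_sub_norm_le (((F a b p r s : ℤ) : ℂ)) (aux b p ((r * b + s * a : ℕ) : ℂ))
    rw [norm_sub_rev] at this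
    linarith
  rw [Complex.norm_intCast] at b6
  exact Int.abs_lt_one_iff.1 (by exact_mod_cast b6)

theorem noninj {a b R r s r' s' : ℕ} (hb : 1 ≤ b) (hr : r < R) (hs' : s' < R) (hss : s < s')
    (h : r * b + s * a = r' * b + s' * a) :
    1 ≤ 2 ^ (3 * R) * |a * Real.log 2 - b * Real.log 3| := by
  obtain ⟨u, rfl⟩ := Nat.exists_eq_add_of_lt hss
  have hrr : r' ≤ r := by
    by_contra hc
    have : (r + 1) * b ≤ r' * b := Nat.mul_le_mul_right _ (by omega)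
    nlinarith
  obtain ⟨v, rfl⟩ := Nat.exists_eq_add_of_le hrr
  have e : v * b = (u + 1) * a := by nlinarith
  have e' : (v : ℝ) * b = (u + 1) * a := by exact_mod_cast e
  have a1 := liouville (u := u + 1) (v := v) (R := R) (by omega) (by omega) (by omega)
  have a2 : ((u + 1 : ℕ) : ℝ) * |a * Real.log 2 - b * Real.log 3| =
      b * |v * Real.log 2 - (u + 1 : ℕ) * Real.log 3| := by
    rw [← Nat.abs_cast (R := ℝ) (u + 1), ← abs_mul, ← Nat.abs_cast (R := ℝ) b, ← abs_mul,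
      Nat.abs_cast, Nat.abs_cast]
    congr 1
    push_cast
    linear_combination (-Real.log 2) * e'
  have hb' : (1 : ℝ) ≤ b := by exact_mod_cast hb
  have a3 : ((u + 1 : ℕ) : ℝ) ≤ 2 ^ R := by
    have : u + 1 ≤ 2 ^ R := le_trans (by omega) Nat.lt_two_pow_self.le
    exact_mod_cast this
  have a4 : (3 : ℝ) ^ R ≤ 4 ^ R := pow_le_pow_left₀ (by norm_num) (by norm_num) _
  have a5 : (2 : ℝ) ^ (3 * R) = 4 ^ R * 2 ^ R := by rw [← mul_pow, pow_mul]; norm_num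
  rw [div_le_iff₀ (by positivity)] at a1
  set Λ := |a * Real.log 2 - b * Real.log 3|
  set Γ := |v * Real.log 2 - (u + 1 : ℕ) * Real.log 3|
  have hΛ : 0 ≤ Λ := abs_nonneg _
  have hΓ : 0 ≤ Γ := abs_nonneg _
  calc (1 : ℝ) ≤ Γ * 3 ^ R := a1
    _ ≤ (b * Γ) * 4 ^ R := by gcongr; nlinarith
    _ ≤ (2 ^ R * Λ) * 4 ^ R := by rw [← a2]; gcongr
    _ = _ := by rw [a5]; ring

theorem core {n a b : ℕ} (hn : 2 ^ 30 * n ^ 2 ≤ 2 ^ n) (hn1 : 1 ≤ n) (hb : 1 ≤ b)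
    (hbn : b ≤ 2 ^ n) : 1 ≤ 2 ^ (2 ^ 48 * n ^ 5) * |a * Real.log 2 - b * Real.log 3| := by
  by_contra hcon
  push Not at hcon
  set Λ := |a * Real.log 2 - b * Real.log 3| with hΛ'
  have hΛ0 : 0 ≤ Λ := abs_nonneg _
  have hmono : ∀ V ≤ 2 ^ 48 * n ^ 5, 2 ^ V * Λ < 1 := fun V hV =>
    lt_of_le_of_lt (by gcongr; norm_num) hcon
  have n2 : n ≤ n ^ 2 := by nlinarith
  have n3 : n ^ 2 ≤ n ^ 3 := Nat.pow_le_pow_right hn1 (by norm_num)
  have n5 : n ^ 3 ≤ n ^ 5 := Nat.pow_le_pow_right hn1 (by norm_num)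
  have hab : a ≤ 3 * b := by
    have a1 := hmono 1 (by omega)
    have a2 := le_abs_self (a * Real.log 2 - b * Real.log 3)
    have a3 : Real.log 3 ≤ 2 * Real.log 2 := by
      rw [← Real.log_rpow (by norm_num)]
      exact Real.log_le_log (by norm_num) (by norm_num)
    have a4 := Real.log_two_gt_d9
    have a5 : (a : ℝ) * Real.log 2 < (2 * b + 1) * Real.log 2 := by
      have : (b : ℝ) * Real.log 3 ≤ b * (2 * Real.log 2) := by gcongr
      nlinarith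
    have a6 : (a : ℝ) < 2 * b + 1 := lt_of_mul_lt_mul_right a5 (by linarith)
    have a7 : a < 2 * b + 1 := by exact_mod_cast a6
    omega
  obtain ⟨K, hK⟩ : ∃ K, K = 614400 * n := ⟨_, rfl⟩
  obtain ⟨L, hL⟩ : ∃ L, L = 48 * n := ⟨_, rfl⟩
  obtain ⟨R₀, hR₀⟩ : ∃ R, R = 3840 * n := ⟨_, rfl⟩
  obtain ⟨R₁, hR₁⟩ : ∃ R, R = 2 ^ 23 * n ^ 2 := ⟨_, rfl⟩
  obtain ⟨w, hw⟩ : ∃ w, w = 3 * n := ⟨_, rfl⟩
  have hw2 : 2 ^ n * 2 ^ n ≤ 2 ^ w := by
    rw [← pow_add]; exact Nat.pow_le_pow_right (by norm_num) (by omega)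
  have hn2 : n ≤ 2 ^ n := Nat.lt_two_pow_self.le
  have c1 : 36 * R₁ * b ≤ 2 ^ w :=
    le_trans (Nat.mul_le_mul (by omega) hbn) hw2
  have c2 : K * L ≤ 2 ^ w := by
    have : K * L = 29491200 * n ^ 2 := by rw [hK, hL]; ring
    have : 2 ^ n * 1 ≤ 2 ^ n * 2 ^ n := Nat.mul_le_mul_left _ Nat.one_le_two_pow
    omega
  have c3 : L * R₁ ≤ 2 ^ w := by
    have : L * R₁ = (48 * 2 ^ 23 * n ^ 2) * n := by rw [hR₁, hL]; ring
    rw [this]
    exact le_trans (Nat.mul_le_mul (by omega) hn2) hw2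
  have c4 : R₀ ≤ R₁ := by omega
  have hinj : ∀ r < R₁, ∀ s < R₁, ∀ r' < R₁, ∀ s' < R₁, r * b + s * a = r' * b + s' * a →
      r = r' ∧ s = s' := by
    intro r hr s hs r' hr' s' hs' h
    have a1 := hmono (3 * R₁) (by omega)
    rcases lt_trichotomy s s' with h1 | rfl | h1
    · exact absurd (noninj hb hr hs' h1 h) (not_le.2 a1)
    · exact ⟨Nat.eq_of_mul_eq_mul_right hb (by omega), rfl⟩
    · exact absurd (noninj hb hr' hs h1 h.symm) (not_le.2 a1)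
  obtain ⟨p, hp0, hp1, hp2⟩ := siegel_two (α := Fin R₀ × Fin R₀) (β := Fin K × Fin L)
    (fun i j => ((i.1 * b + i.2 * a : ℕ) : ℤ) ^ (j.1 : ℕ) * 2 ^ ((j.2 : ℕ) * i.1) *
      3 ^ ((j.2 : ℕ) * i.2))
    (by simp only [Fintype.card_prod, Fintype.card_fin]; rw [hK, hL, hR₀]; ring)
    (by simp only [Fintype.card_prod, Fintype.card_fin]; exact Nat.mul_pos (by omega) (by omega))
    (H := 2 ^ (w * K) * 2 ^ (3 * L * R₀))
    (one_le_mul_of_one_le_of_one_le (one_le_pow₀ (by norm_num)) (one_le_pow₀ (by norm_num)))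
    (by
      intro i j
      have a2 : ((i.1 * b + i.2 * a : ℕ) : ℝ) ^ (j.1 : ℕ) ≤ 2 ^ (w * K) := by
        refine pow_le_aux (by positivity) ?_ j.1.2.le
        have : i.1 * b + i.2 * a ≤ 2 ^ w := by
          have := Nat.mul_le_mul (i.1.2.le.trans c4) (le_refl b)
          have := Nat.mul_le_mul (i.2.2.le.trans c4) hab
          nlinarith
        exact_mod_cast this
      have a3 := six_le j.2.2.le i.1.2.le i.2.2.le
      rw [Int.cast_mul, Int.cast_mul, Int.cast_pow, Int.cast_pow, Int.cast_pow, Int.cast_natCast,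
        Int.cast_ofNat, Int.cast_ofNat, abs_of_nonneg (by positivity), mul_assoc]
      gcongr)
  obtain ⟨h, hh⟩ : ∃ h, h = w + w * K + 3 * L * R₀ := ⟨_, rfl⟩
  have hp : ∀ j, |(p j : ℝ)| ≤ 2 ^ h := by
    intro j
    refine (hp2 j).trans ?_
    rw [Fintype.card_prod, Fintype.card_fin, Fintype.card_fin, hh, add_assoc, pow_add, pow_add]
    have : ((K * L : ℕ) : ℝ) ≤ 2 ^ w := by exact_mod_cast c2
    gcongr
  have d1 : w * K = 1843200 * n ^ 2 := by rw [hw, hK]; ring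
  have d2 : 3 * L * R₀ = 552960 * n ^ 2 := by rw [hL, hR₀]; ring
  have d3 : 3 * L * R₁ = 144 * 2 ^ 23 * n ^ 3 := by rw [hL, hR₁]; ring
  have d4 : w * R₁ ^ 2 = 3 * 2 ^ 46 * n ^ 5 := by rw [hw, hR₁]; ring
  have hall : ∀ R, R₀ ≤ R → R ≤ R₁ → ∀ r < R, ∀ s < R, F a b p r s = 0 := by
    intro R hR
    induction R, hR using Nat.le_induction with
    | base => exact fun _ r hr s hs => hp1 (⟨r, hr⟩, ⟨s, hs⟩)
    | succ R hR ih =>
      intro hR' r hr s hs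
      refine step hb hab p hp c2 c1 c3 (R := R) (by omega) (by omega) hinj
        (hmono _ (by omega)).le ?_ (ih (by omega)) r (by omega) s (by omega)
      have e1 : 36 * L * R = 1728 * (n * R) := by rw [hL]; ring
      have e2 : 3840 * (n * R) ≤ R ^ 2 := by nlinarith
      have e3 : 3840 * n ^ 2 ≤ n * R := by nlinarith
      omega
  refine hp0 (zero_est (r₀ := w + h + w * K + 1) hb p ?_ ?_)
  · intro r hr
    simpa [F] using hall R₁ c4 le_rfl r (by omega) 0 (by omega)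
  · intro r hr l
    have a1 : ‖∑ i : Fin K, (p (i, l) : ℝ) * ((r * b : ℕ) : ℝ) ^ (i : ℕ)‖ ≤
        Fintype.card (Fin K) * (2 ^ h * 2 ^ (w * K)) := by
      refine norm_sum_le_card _ fun i => ?_
      rw [Real.norm_eq_abs, abs_mul, abs_pow, Nat.abs_cast]
      have a2 : ((r * b : ℕ) : ℝ) ^ (i : ℕ) ≤ 2 ^ (w * K) := by
        refine pow_le_aux (by positivity) ?_ i.2.le
        have : r * b ≤ 2 ^ w := le_trans (Nat.mul_le_mul_right _ (by omega)) c1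
        exact_mod_cast this
      have := hp (i, l)
      gcongr
    have a3 : ((Fintype.card (Fin K) : ℕ) : ℝ) ≤ 2 ^ w := by
      rw [Fintype.card_fin]
      have : K ≤ 2 ^ w := le_trans (Nat.le_mul_of_pos_right _ (by omega)) c2
      exact_mod_cast this
    have a4 : ‖∑ i : Fin K, (p (i, l) : ℝ) * ((r * b : ℕ) : ℝ) ^ (i : ℕ)‖ <
        2 ^ (w + h + w * K + 1) := by
      refine lt_of_le_of_lt (a1.trans (mul_le_mul_of_nonneg_right a3 (by positivity))) ?_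
      rw [← pow_add, ← pow_add]
      exact pow_lt_pow_right₀ (by norm_num) (by omega)
    rw [Real.norm_eq_abs] at a4
    exact_mod_cast a4

theorem sq_le_two_pow (n : ℕ) (hn : 64 ≤ n) : 2 ^ 30 * n ^ 2 ≤ 2 ^ n := by
  induction n, hn using Nat.le_induction with
  | base => norm_num
  | succ n hn ih =>
    rw [pow_succ 2 n]
    nlinarith

/-- Gelfond's lower bound for a linear form in `log 2` and `log 3`. -/
theorem two_logs {n a b : ℕ} (hn : 1 ≤ n) (hb : 1 ≤ b) (hbn : b ≤ 2 ^ n) :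
    1 ≤ 2 ^ (2 ^ 78 * n ^ 5) * |a * Real.log 2 - b * Real.log 3| := by
  have := core (n := 64 * n) (a := a) (sq_le_two_pow _ (by omega)) (by omega) hb
    (hbn.trans (Nat.pow_le_pow_right (by norm_num) (by omega)))
  rwa [show 2 ^ 48 * (64 * n) ^ 5 = 2 ^ 78 * n ^ 5 by ring] at this

end Pool.Agent.Shared.TwoLogs
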