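import Pool.Agent.Shared.SubspaceGerm

/-!
Sums of S-integers of prescribed sizes with product formula equality: a grading of the ultrapower.
-/

set_option autoImplicit false

namespace Pool.Agent.Shared.Subspace

open Finset Filter Topology

noncomputable section

variable {ι : Type} {U : Ultrafilter ι} {l : ι → ℝ} {P : Type} [Fintype P] (F : PrimeFam P)

/-- S-integers of the ultrapower up to a standard denominator -/
def GQ (U : Ultrafilter ι) : Submodule ℚ (KK U) where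
  carrier := {ξ | ∃ n : ℕ, n ≠ 0 ∧ (n : KK U) * ξ ∈ GO F U}
  add_mem' := by
    rintro a b ⟨n, hn, ha⟩ ⟨m, hm, hb⟩
    refine ⟨n * m, mul_ne_zero hn hm, ?_⟩
    have : ((n * m : ℕ) : KK U) * (a + b) = m * (n * a) + n * (m * b) := by push_cast; ring
    rw [this]
    exact add_mem (mul_mem (natCast_mem _ _) ha) (mul_mem (natCast_mem _ _) hb)
  zero_mem' := ⟨1, one_ne_zero, by simp⟩
  smul_mem' := by
    rintro q a ⟨n, hn, ha⟩
    refine ⟨n * q.den, mul_ne_zero hn q.den_nz, ?_⟩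
    have : ((n * q.den : ℕ) : KK U) * (q • a) = q.num * (n * a) := by
      have h1 : (q.den : KK U) ≠ 0 := Nat.cast_ne_zero.2 q.den_nz
      rw [Rat.smul_def, Rat.cast_def]
      push_cast
      field_simp
    rw [this]
    exact mul_mem (intCast_mem _ _) ha

lemma mem_GQ_of_GO {ξ : KK U} (h : ξ ∈ GO F U) : ξ ∈ GQ F U := ⟨1, one_ne_zero, by simpa using h⟩

lemma mul_mem_GQ {a b : KK U} (ha : a ∈ GQ F U) (hb : b ∈ GQ F U) : a * b ∈ GQ F U := by
  obtain ⟨n, hn, ha⟩ := ha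
  obtain ⟨m, hm, hb⟩ := hb
  refine ⟨n * m, mul_ne_zero hn hm, ?_⟩
  have : ((n * m : ℕ) : KK U) * (a * b) = (n * a) * (m * b) := by push_cast; ring
  rw [this]
  exact mul_mem ha hb

lemma replace_GO (hl : Tendsto l U atTop) {κ : Type} [Fintype κ] (ξ : κ → KK U)
    (hind : LinearIndependent ℚ ξ) (hO : ∀ i, ξ i ∈ GO F U) (c : Option P → κ → ℝ)
    (hc : ∀ v i, GLe l (F.av v) (ξ i) (c v i)) (a : κ → ℚ) (i1 : κ) (ha : a i1 ≠ 0)
    (v1 : Option P) {τ : ℝ} (hτ : GLe l (F.av v1) (∑ i, a i • ξ i) τ) :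
    c v1 i1 ≤ τ + ∑ v, ∑ i, c v i := by
  classical
  by_contra hcon
  refine subspace_germ F hl ξ hO (fun v i => if v = v1 ∧ i = i1 then ∑ i, a i • ξ i else ξ i)
    (fun v i => ?_) (fun v i => ?_)
    (fun v i => c v i - if v = v1 ∧ i = i1 then c v1 i1 - τ else 0) ?_ (fun v i => ?_) hind
  · split_ifs
    · exact Submodule.sum_mem _ (fun i _ => Submodule.smul_mem _ _
        (Submodule.subset_span ⟨i, rfl⟩))
    · exact Submodule.subset_span ⟨i, rfl⟩
  · have hgen : ∀ i, ¬ (v = v1 ∧ i = i1) → ξ i ∈ Submodule.span ℚ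
        (Set.range (fun i => if v = v1 ∧ i = i1 then ∑ i, a i • ξ i else ξ i)) :=
      fun i h => Submodule.subset_span ⟨i, if_neg h⟩
    by_cases h : v = v1 ∧ i = i1
    · obtain ⟨rfl, rfl⟩ := h
      have h2 : ξ i = (a i)⁻¹ • (∑ i, a i • ξ i - ∑ i' ∈ univ.erase i, a i' • ξ i') := by
        rw [← add_sum_erase _ _ (mem_univ i), add_sub_cancel_right,
          smul_smul, inv_mul_cancel₀ ha, one_smul]
      rw [h2]
      refine Submodule.smul_mem _ _ (Submodule.sub_mem _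
        (Submodule.subset_span ⟨i, if_pos ⟨rfl, rfl⟩⟩)
        (Submodule.sum_mem _ (fun i' hi' => Submodule.smul_mem _ _
          (hgen i' (fun h => ne_of_mem_erase hi' h.2)))))
    · exact hgen i h
  · simp only [sum_sub_distrib, ite_and, sum_ite_eq', mem_univ, if_true, sum_ite_irrel,
      sum_const_zero]
    linarith
  · split_ifs with h
    · obtain ⟨rfl, rfl⟩ := h
      rw [sub_sub_cancel]; exact hτ
    · rw [sub_zero]; exact hc v i

/-- A combination of independent elements cannot be much smaller than one of its terms. -/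
theorem replace (hl : Tendsto l U atTop) {κ : Type} [Fintype κ] (ξ : κ → KK U)
    (hind : LinearIndependent ℚ ξ) (hQ : ∀ i, ξ i ∈ GQ F U) (c : Option P → κ → ℝ)
    (hc : ∀ v i, GLe l (F.av v) (ξ i) (c v i)) (a : κ → ℚ) (i1 : κ) (ha : a i1 ≠ 0)
    (v1 : Option P) {τ : ℝ} (hτ : GLe l (F.av v1) (∑ i, a i • ξ i) τ) :
    c v1 i1 ≤ τ + ∑ v, ∑ i, c v i := by
  choose n hn hO using hQ
  have hn' : ∀ i, (n i : ℚ) ≠ 0 := fun i => Nat.cast_ne_zero.2 (hn i)
  refine replace_GO F hl (fun i => (n i : ℚ) • ξ i)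
    (hind.units_smul (fun i => Units.mk0 _ (hn' i))) (fun i => ?_) c
    (fun v i => (hc v i).smul hl _) (fun i => a i * (n i : ℚ)⁻¹) i1
    (mul_ne_zero ha (inv_ne_zero (hn' i1))) v1 ?_
  · rw [Rat.smul_def, Rat.cast_natCast]; exact hO i
  · simpa only [smul_smul, inv_mul_cancel_right₀ (hn' _)] using hτ

/-- size vectors satisfying the product formula -/
def ZS (P : Type) [Fintype P] : AddSubgroup (Option P → ℝ) where
  carrier := {μ | ∑ v, μ v = 0}
  add_mem' := fun {a b} ha hb => by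
    simp only [Set.mem_ofPred_eq, Pi.add_apply, sum_add_distrib] at ha hb ⊢
    rw [ha, hb, add_zero]
  zero_mem' := by simp
  neg_mem' := fun {a} ha => by
    simp only [Set.mem_ofPred_eq, Pi.neg_apply, sum_neg_distrib] at ha ⊢
    rw [ha, neg_zero]

/-- size vector of an S-unit -/
def lamv (e : EE P U l) : ZS P := ⟨fun v => lam0 F v e, sum_lam0 F e⟩

/-- elements with prescribed sizes -/
def WW (hl : Tendsto l U atTop) (μ : ZS P) : Submodule ℚ (KK U) where
  carrier := {ξ | ξ ∈ GQ F U ∧ ∀ v, GLe l (F.av v) ξ (μ.1 v)}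
  add_mem' := fun ha hb => ⟨add_mem ha.1 hb.1, fun v => (ha.2 v).add hl (hb.2 v)⟩
  zero_mem' := ⟨zero_mem _, fun _ => GLe_zero⟩
  smul_mem' := fun c _ ha => ⟨Submodule.smul_mem _ c ha.1, fun v => (ha.2 v).smul hl c⟩

variable (hl : Tendsto l U atTop)

lemma mul_mem_WW {μ ν : ZS P} {a b : KK U} (ha : a ∈ WW F hl μ) (hb : b ∈ WW F hl ν) :
    a * b ∈ WW F hl (μ + ν) := ⟨mul_mem_GQ F ha.1 hb.1, fun v => (ha.2 v).mul (hb.2 v)⟩

lemma mon_mem_WW (e : EE P U l) : mon F U e.1 ∈ WW F hl (lamv F e) :=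
  ⟨mem_GQ_of_GO F (mon_mem F _), fun v => GLe_mon F hl v e⟩

lemma WW_indep (y : ZS P → KK U) (hy : ∀ μ, y μ ∈ WW F hl μ) (s : Finset (ZS P))
    (h0 : ∀ μ ∈ s, y μ ≠ 0) : LinearIndepOn ℚ y (s : Set (ZS P)) := by
  classical
  induction s using Finset.induction_on with
  | empty => simp
  | insert g s hg ih =>
    have ih' := ih (fun μ h => h0 μ (mem_insert_of_mem h))
    rw [coe_insert]
    refine ih'.insert (fun hmem => ?_)
    obtain ⟨c, hc⟩ := (Submodule.mem_span_image_finset_iff_exists_fun ℚ).1 hmem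
    obtain ⟨μ1, h1⟩ : ∃ μ, c μ ≠ 0 := by
      by_contra hcon
      push Not at hcon
      simp only [hcon, zero_smul, sum_const_zero] at hc
      exact h0 g (mem_insert_self _ _) hc.symm
    obtain ⟨v, hv⟩ : ∃ v, g.1 v < μ1.1.1 v := by
      by_contra hcon
      push Not at hcon
      have h2 : μ1.1.1 = g.1 := by
        funext v
        exact (sum_eq_sum_iff_of_le (fun v _ => hcon v)).1 (μ1.1.2.trans g.2.symm) v (mem_univ v)
      exact hg (Subtype.ext h2 ▸ μ1.2)
    have h3 := replace F hl (fun μ : s => y μ.1) ih' (fun μ => (hy μ.1).1)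
      (fun v μ => μ.1.1 v) (fun v μ => (hy μ.1).2 v) c μ1 h1 v (τ := g.1 v)
      (by rw [hc]; exact (hy g).2 v)
    rw [sum_comm] at h3
    have h4 : ∑ μ : s, ∑ v, μ.1.1 v = 0 := sum_eq_zero (fun μ _ => μ.1.2)
    linarith

/-- sums of elements with size vectors in `Λ` -/
def MM (Λ : Set (ZS P)) : Submodule ℚ (KK U) :=
  Submodule.span ℚ {ξ | ∃ μ ∈ Λ, ξ ∈ WW F hl μ}

lemma mem_MM {Λ : Set (ZS P)} {μ : ZS P} (h : μ ∈ Λ) {ξ : KK U} (hξ : ξ ∈ WW F hl μ) :
    ξ ∈ MM F hl Λ := Submodule.subset_span ⟨μ, h, hξ⟩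

lemma MM_mono {Λ Λ' : Set (ZS P)} (h : Λ ⊆ Λ') : MM F hl Λ ≤ MM F hl Λ' :=
  Submodule.span_mono (fun _ ⟨μ, h1, h2⟩ => ⟨μ, h h1, h2⟩)

lemma mul_mem_MM {Λ Λ' : Set (ZS P)} {μ : ZS P} (h : ∀ ν ∈ Λ, μ + ν ∈ Λ') {a ξ : KK U}
    (ha : a ∈ WW F hl μ) (hξ : ξ ∈ MM F hl Λ) : a * ξ ∈ MM F hl Λ' := by
  induction hξ using Submodule.span_induction with
  | mem y hy =>
    obtain ⟨ν, h1, h2⟩ := hy
    exact mem_MM F hl (h ν h1) (mul_mem_WW F hl ha h2)
  | zero => simp
  | add y z _ _ hy hz => rw [mul_add]; exact add_mem hy hz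
  | smul c y _ hy => rw [mul_smul_comm]; exact Submodule.smul_mem _ _ hy

lemma GLe_of_mem_MM {Λ : Set (ZS P)} (v : Option P) {τ : ℝ} (h : ∀ μ ∈ Λ, μ.1 v ≤ τ) {ξ : KK U}
    (hξ : ξ ∈ MM F hl Λ) : GLe l (F.av v) ξ τ := by
  induction hξ using Submodule.span_induction with
  | mem y hy =>
    obtain ⟨ν, h1, h2⟩ := hy
    exact (h2.2 v).mono hl (h ν h1)
  | zero => exact GLe_zero
  | add y z _ _ hy hz => exact hy.add hl hz
  | smul c y _ hy => exact hy.smul hl c

lemma exists_graded {Λ : Set (ZS P)} {ξ : KK U} (hξ : ξ ∈ MM F hl Λ) :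
    ∃ f : ZS P →₀ KK U, (∀ μ, f μ ∈ WW F hl μ) ∧ (∀ μ ∈ f.support, μ ∈ Λ) ∧
      f.sum (fun _ y => y) = ξ := by
  classical
  induction hξ using Submodule.span_induction with
  | mem y hy =>
    obtain ⟨ν, h1, h2⟩ := hy
    refine ⟨Finsupp.single ν y, fun μ => ?_, fun μ hμ => ?_, by simp⟩
    · rw [Finsupp.single_apply]
      split_ifs with h
      · exact h ▸ h2
      · exact zero_mem _
    · rw [mem_singleton.1 (Finsupp.support_single_subset hμ)]; exact h1
  | zero => exact ⟨0, fun _ => zero_mem _, by simp, by simp⟩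
  | add y z _ _ hy hz =>
    obtain ⟨f, h1, h2, rfl⟩ := hy
    obtain ⟨g, h3, h4, rfl⟩ := hz
    refine ⟨f + g, fun μ => add_mem (h1 μ) (h3 μ), fun μ hμ => ?_,
      Finsupp.sum_add_index' (fun _ => rfl) (fun _ _ _ => rfl)⟩
    rcases mem_union.1 (Finsupp.support_add hμ) with h | h
    · exact h2 μ h
    · exact h4 μ h
  | smul c y _ hy =>
    obtain ⟨f, h1, h2, rfl⟩ := hy
    refine ⟨c • f, fun μ => Submodule.smul_mem _ _ (h1 μ),
      fun μ hμ => h2 μ (Finsupp.support_smul hμ), ?_⟩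
    rw [Finsupp.sum_smul_index' (fun _ => rfl), Finsupp.smul_sum]

/-- a graded sum is as large as its largest term -/
theorem MM_restrict {Λ : Set (ZS P)} {ξ : KK U} (hξ : ξ ∈ MM F hl Λ) (v : Option P) {τ : ℝ}
    (hτ : GLe l (F.av v) ξ τ) : ξ ∈ MM F hl (Λ ∩ {μ | μ.1 v ≤ τ}) := by
  obtain ⟨f, h1, h2, rfl⟩ := exists_graded F hl hξ
  refine Submodule.sum_mem _ (fun μ hμ => mem_MM F hl (Set.mem_inter (h2 μ hμ) ?_) (h1 μ))
  have h3 := replace F hl (fun μ : f.support => f μ.1)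
    (WW_indep F hl f h1 _ (fun μ => Finsupp.mem_support_iff.1)) (fun μ => (h1 μ.1).1)
    (fun v μ => μ.1.1 v) (fun v μ => (h1 μ.1).2 v) (fun _ => 1) ⟨μ, hμ⟩ one_ne_zero v (τ := τ)
    (by simp only [one_smul]; rw [sum_coe_sort f.support f]; exact hτ)
  rw [sum_comm] at h3
  have h4 : ∑ μ : f.support, ∑ v, μ.1.1 v = 0 := sum_eq_zero (fun μ _ => μ.1.2)
  rw [h4, add_zero] at h3
  exact h3

/-- an element that is too well approximated by graded sums is a graded sum -/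
theorem mem_MM_of_approx {X ξ : KK U} (hX : X ∈ GQ F U) (η : Option P → ℝ)
    (hη : ∀ v, GLe l (F.av v) X (η v)) (hξ : ξ ∈ MM F hl Set.univ) (v : Option P) {τ : ℝ}
    (hτ : GLe l (F.av v) (X + ξ) τ) (h : τ + ∑ v, η v < η v) : X ∈ MM F hl Set.univ := by
  obtain ⟨f, h1, -, rfl⟩ := exists_graded F hl hξ
  by_contra hcon
  have hind : LinearIndependent ℚ (fun μ : f.support => f μ.1) :=
    WW_indep F hl f h1 _ (fun μ => Finsupp.mem_support_iff.1)
  have h2 := hind.option (x := X) (fun hmem => hcon (Submodule.span_le.2 (by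
    rintro _ ⟨μ, rfl⟩
    exact mem_MM F hl (Set.mem_univ _) (h1 μ.1)) hmem))
  have h3 := replace F hl _ h2 (fun o => by
      cases o with
      | none => exact hX
      | some μ => exact (h1 μ.1).1)
    (fun v o => Option.casesOn' o (η v) (fun μ => μ.1.1 v)) (fun v o => by
      cases o with
      | none => exact hη v
      | some μ => exact (h1 μ.1).2 v) (fun _ => 1) none one_ne_zero v (τ := τ) (by
      simp only [one_smul, Fintype.sum_option, Option.casesOn'_none, Option.casesOn'_some]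
      rw [sum_coe_sort f.support f]; exact hτ)
  simp only [Fintype.sum_option (α := f.support), Option.casesOn'_none, Option.casesOn'_some,
    sum_add_distrib] at h3
  rw [sum_comm] at h3
  have h4 : ∑ μ : f.support, ∑ v, μ.1.1 v = 0 := sum_eq_zero (fun μ _ => μ.1.2)
  linarith

end

end Pool.Agent.Shared.Subspace
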