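import Mathlib

/-!
Holomorphy of parametric integrals under a uniform integrable bound, and shifting a line integral
inside a horizontal strip.
-/

namespace Pool.Agent.Shared.HoloIntegral

open MeasureTheory Filter Topology Set Metric

/-- The derivative in a parameter of a family of measurable functions is measurable. -/
theorem aesm_deriv {𝕜 : Type*} [RCLike 𝕜] {α : Type*} [MeasurableSpace α] {μ : Measure α}
    {F : 𝕜 → α → ℂ} [NormedSpace 𝕜 ℂ] {F' : α → ℂ} {x₀ : 𝕜}
    (hm : ∀ᶠ x in 𝓝 x₀, AEStronglyMeasurable (F x) μ)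
    (hd : ∀ᵐ a ∂μ, HasDerivAt (fun x => F x a) (F' a) x₀) : AEStronglyMeasurable F' μ := by
  have h0 : AEStronglyMeasurable (F x₀) μ := hm.self_of_nhds
  have hcg : (𝓝[≠] x₀).IsCountablyGenerated := inferInstance
  obtain ⟨u, hu⟩ := (𝓝[≠] x₀).exists_seq_tendsto
  have hu2 : Tendsto u atTop (𝓝 x₀) := hu.mono_right nhdsWithin_le_nhds
  obtain ⟨N, hN⟩ := eventually_atTop.mp (hu2.eventually hm)
  refine aestronglyMeasurable_of_tendsto_ae atTop
    (f := fun n a => (u (n + N) - x₀)⁻¹ • (F (u (n + N)) a - F x₀ a)) (fun n => ?_) ?_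
  · exact ((hN (n + N) (by omega)).sub h0).const_smul _
  · filter_upwards [hd] with a ha
    have := (hasDerivAt_iff_tendsto_slope.mp ha).comp (hu.comp (tendsto_add_atTop_nat N))
    simpa [Function.comp_def, slope_def_module] using this

/-- A parametric integral of holomorphic functions with a uniform integrable bound is
holomorphic. -/
theorem differentiableOn_integral {α : Type*} [MeasurableSpace α] {μ : Measure α}
    {F : ℂ → α → ℂ} {U : Set ℂ} (hU : IsOpen U) {b : α → ℝ}
    (hm : ∀ w ∈ U, AEStronglyMeasurable (F w) μ)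
    (hd : ∀ᵐ a ∂μ, DifferentiableOn ℂ (fun w => F w a) U)
    (hb : ∀ᵐ a ∂μ, ∀ w ∈ U, ‖F w a‖ ≤ b a) (hi : Integrable b μ) :
    DifferentiableOn ℂ (fun w => ∫ a, F w a ∂μ) U := by
  intro w₀ hw₀
  obtain ⟨ε, hε, hball⟩ := Metric.isOpen_iff.mp hU w₀ hw₀
  have hr : 0 < ε / 3 := by positivity
  have hsub : ∀ w ∈ ball w₀ (ε / 3), closedBall w (ε / 3) ⊆ U := by
    intro w hw z hz
    apply hball
    rw [mem_ball] at hw ⊢
    rw [mem_closedBall] at hz
    linarith [dist_triangle z w w₀]
  have hm' : ∀ᶠ w in 𝓝 w₀, AEStronglyMeasurable (F w) μ :=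
    mem_of_superset (hU.mem_nhds hw₀) hm
  have key := hasDerivAt_integral_of_dominated_loc_of_deriv_le (μ := μ) (F := F) (x₀ := w₀)
    (F' := fun w a => deriv (fun z => F z a) w) (bound := fun a => b a / (ε / 3))
    (ball_mem_nhds w₀ hr) hm'
    (hi.mono' (hm w₀ hw₀) (hb.mono fun a ha => ha w₀ hw₀))
    (aesm_deriv hm' (hd.mono fun a ha =>
      (ha.differentiableAt (hU.mem_nhds hw₀)).hasDerivAt))
    (by
      filter_upwards [hd, hb] with a ha hba w hw
      refine Complex.norm_deriv_le_of_forall_mem_sphere_norm_le hr ?_ fun z hz =>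
        hba z (hsub w hw (sphere_subset_closedBall hz))
      exact (ha.mono ((closure_ball_subset_closedBall).trans (hsub w hw))).diffContOnCl)
    (hi.div_const _)
    (by
      filter_upwards [hd] with a ha w hw
      exact (ha.differentiableAt (hU.mem_nhds (hsub w hw (mem_closedBall_self hr.le)))).hasDerivAt)
  exact key.2.differentiableAt.differentiableWithinAt

/-- The open horizontal strip of half-width `a`. -/
def strip (a : ℝ) : Set ℂ := {z | |z.im| < a}

lemma isOpen_strip (a : ℝ) : IsOpen (strip a) :=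
  isOpen_lt (continuous_abs.comp Complex.continuous_im) continuous_const

lemma convex_strip (a : ℝ) : Convex ℝ (strip a) := by
  have : strip a = {z : ℂ | -a < z.im} ∩ {z : ℂ | z.im < a} := by
    ext z; simp [strip, abs_lt]
  rw [this]
  exact (convex_halfSpace_im_gt _).inter (convex_halfSpace_im_lt _)

lemma add_mem_strip {a : ℝ} {w : ℂ} (hw : w ∈ strip a) (x : ℝ) : (x : ℂ) + w ∈ strip a := by
  simpa [strip] using hw

lemma sub_mem_strip {a : ℝ} {w : ℂ} (hw : w ∈ strip a) (x : ℝ) : w - (x : ℂ) ∈ strip a := by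
  simpa [strip] using hw

lemma ofReal_mem_strip {a : ℝ} (ha : 0 < a) (x : ℝ) : (x : ℂ) ∈ strip a := by
  simpa [strip] using ha

/-- Shifting the line of integration inside a strip. The bound `b` has to dominate `f` at all
points with real part within distance one. -/
theorem integral_shift {f : ℂ → ℂ} {a : ℝ} (ha : 0 < a) (hf : DifferentiableOn ℂ f (strip a))
    {b : ℝ → ℝ} (hi : Integrable b)
    (hb : ∀ (x : ℝ), ∀ z ∈ strip a, |z.re - x| < 1 → ‖f z‖ ≤ b x) {y : ℝ} (hy : |y| < a) :
    ∫ x : ℝ, f (x + y * Complex.I) = ∫ x : ℝ, f x := by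
  set U : Set ℂ := strip a ∩ {w | |w.re| < 1} with hUdef
  have hUo : IsOpen U := (isOpen_strip a).inter
    (isOpen_lt (continuous_abs.comp Complex.continuous_re) continuous_const)
  have hUc : Convex ℝ U := by
    refine (convex_strip a).inter ?_
    have : {w : ℂ | |w.re| < 1} = {z : ℂ | -1 < z.re} ∩ {z : ℂ | z.re < 1} := by
      ext z; simp [abs_lt]
    rw [this]
    exact (convex_halfSpace_re_gt _).inter (convex_halfSpace_re_lt _)
  have hH : DifferentiableOn ℂ (fun w => ∫ x : ℝ, f (x + w)) U := by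
    refine differentiableOn_integral hUo (b := b) (fun w hw => ?_)
      (Eventually.of_forall fun x => ?_) (Eventually.of_forall fun x w hw => ?_) hi
    · refine Continuous.aestronglyMeasurable ?_
      exact hf.continuousOn.comp_continuous (by fun_prop) fun x => add_mem_strip hw.1 x
    · exact hf.comp (by fun_prop) fun w hw => add_mem_strip hw.1 x
    · exact hb x _ (add_mem_strip hw.1 x) (by simpa using hw.2)
  have h0 : (0 : ℂ) ∈ U := ⟨by simpa [strip] using ha, by simp⟩
  have hfr : ∃ᶠ z in 𝓝[≠] (0 : ℂ), (fun w => ∫ x : ℝ, f (x + w)) z = (fun _ => ∫ x : ℝ, f x) z := by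
    have ht : Tendsto (fun t : ℝ => (t : ℂ)) (𝓝[≠] 0) (𝓝[≠] 0) := by
      refine tendsto_nhdsWithin_iff.mpr ⟨?_, ?_⟩
      · exact (Complex.continuous_ofReal.tendsto' 0 0 (by simp)).mono_left nhdsWithin_le_nhds
      · filter_upwards [self_mem_nhdsWithin] with t ht
        simpa using ht
    refine ht.frequently (Eventually.of_forall fun t => ?_).frequently
    have := integral_add_right_eq_self (μ := (volume : Measure ℝ)) (fun x : ℝ => f x) t
    simpa using this
  have := (hH.analyticOnNhd hUo).eqOn_of_preconnected_of_frequently_eq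
    (analyticOnNhd_const (v := ∫ x : ℝ, f x)) hUc.isPreconnected h0 hfr
    (show (y * Complex.I : ℂ) ∈ U from ⟨by simpa [strip] using hy, by simp⟩)
  exact this

end Pool.Agent.Shared.HoloIntegral
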