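import Pool.Agent.Shared.PolyTimeConv

/-!
Clocked simulation: for every multi-stack machine `M` of Mathlib there is a polynomial time
function which, given an input and a clock in unary, returns the output of `M` when `M` halts
within the clock, and never returns a wrong output.
-/

set_option autoImplicit false

namespace Pool.Agent.Shared.PolyTime

open Function N487b59b3 Turing Turing.TM2

/-- The machine `M` on the input string `a` halts with output string `b` within `T` steps. -/
def Outputs (M : TM2ComputableAux Bool Bool) (a b : List Bool) (T : ℕ) : Prop :=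
  Nonempty (TM2OutputsInTime M.tm (a.map M.inputAlphabet.invFun)
    (some (b.map M.outputAlphabet.invFun)) T)

theorem iter_early_some {σ : Type} (f : σ → Option σ) (t j : ℕ) (a b : σ)
    (h : (flip bind f)^[j + 1 + t] (some a) = some b) :
    ∃ c, (flip bind f)^[t] (some a) = some c ∧ f c ≠ none := by
  rw [iterate_add_apply] at h
  have hn : ∀ t, (flip bind f)^[t] none = none := fun t => iterate_fixed rfl t
  cases hc : (flip bind f)^[t] (some a) with
  | none => rw [hc, hn] at h; simp at h
  | some c =>
    refine ⟨c, rfl, fun h0 => ?_⟩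
    rw [hc, iter_bind_succ, h0, hn] at h
    simp at h

open Conv in
theorem exists_clocked (M : TM2ComputableAux Bool Bool) :
    ∃ run : List Bool × List Bool → Option (List Bool), PT run ∧
      ∀ a u b T, Outputs M a b T →
        (T ≤ u.length → run (a, u) = some b) ∧ ∀ b', run (a, u) = some b' → b' = b := by
  obtain ⟨tm, ei, eo⟩ := M
  let _ := tm.kFin
  let _ := tm.ΛFin
  let _ := tm.σFin
  let _ := tm.Γk₀Fin
  obtain ⟨A, hA, hA0⟩ := exists_alphabet tm.m tm.k₀
  obtain ⟨nK, hK⟩ := exists_num_onto tm.K tm.k₀
  obtain ⟨nL⟩ := exists_num tm.Λ tm.main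
  obtain ⟨nS⟩ := exists_num tm.σ tm.initialState
  obtain ⟨C, hC⟩ := estep_size A nK nL nS tm.m
  let s0 : List Bool × List Bool → ℕ × ℕ × List (List ℕ) := fun a =>
    (nL.c tm.main + 1, nS.c tm.initialState,
    (encS A nK (fun _ => [])).set (nK.c tm.k₀) (a.1.map fun b =>
      cond b (cs A tm.k₀ (ei.symm true)) (cs A tm.k₀ (ei.symm false))))
  have hs0 : PT s0 := by fun_prop
  have hinit : ∀ a : List Bool, (initList tm (List.map ei.invFun a)).stk =
      update (fun k => ([] : List (tm.Γ k))) tm.k₀ (List.map ei.invFun a) := by
    intro a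
    funext k
    by_cases hk : k = tm.k₀
    · subst hk; simp [initList]
    · simp [initList, hk]
  have he0 : ∀ a u : List Bool, s0 (a, u) = encC A nK nL nS (initList tm (List.map ei.invFun a)) := by
    intro a u
    unfold encC
    rw [hinit, ← encS_set A nK hK, List.map_map]
    refine Prod.ext rfl (Prod.ext rfl ?_)
    simp only [s0]
    congr 2
    funext b
    cases b <;> rfl
  have hit := PT.iterBits (estep_pt A nK nL nS tm.m) (c := fun a : List Bool × List Bool => a.2)
    (by fun_prop) hs0
    (B := fun a => sz (s0 a) + a.2.length * C) (by fun_prop) (by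
      intro a i hi
      have : ∀ i, sz ((estep A nK nL nS tm.m)^[i] (s0 a)) ≤ sz (s0 a) + i * C := by
        intro i
        induction i with
        | zero => simp
        | succ i ih =>
          rw [iterate_succ_apply']
          have := hC ((estep A nK nL nS tm.m)^[i] (s0 a))
          nlinarith
      exact (this i).trans (by gcongr))
  let dec : ℕ → Bool := fun n => (ds A tm.k₁ (n + 1)).elim false eo
  have hdec : PT (fun p : (List Bool × List Bool) × ℕ => dec p.2) :=
    PT.table dec (A tm.k₁).length (fun n h => by
      simp only [dec]; rw [ds_const A tm.k₁ (n + 1) (by omega)]) (by fun_prop)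
  have hfin : PT (fun a : List Bool × List Bool =>
      (((estep A nK nL nS tm.m)^[a.2.length] (s0 a)).2.2.getD (nK.c tm.k₁) []).map dec) :=
    PT.map (h := fun _ n => dec n) (by fun_prop) hdec
  refine ⟨fun a => if ((estep A nK nL nS tm.m)^[a.2.length] (s0 a)).1 = 0 then
    some ((((estep A nK nL nS tm.m)^[a.2.length] (s0 a)).2.2.getD (nK.c tm.k₁) []).map dec)
    else none, PT.ite (by fun_prop) hfin.some (PT.const _), ?_⟩
  rintro a u b T ⟨⟨⟨t, ht⟩, hle⟩⟩
  have hc0 : ∀ k, ∀ x ∈ (initList tm (List.map ei.invFun a)).stk k, x ∈ A k := by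
    intro k x hx
    rw [hinit] at hx
    by_cases hk : k = tm.k₀
    · subst hk; exact hA0 x
    · rw [update_of_ne hk] at hx; simp at hx
  have key : t ≤ u.length → (if ((estep A nK nL nS tm.m)^[u.length] (s0 (a, u))).1 = 0 then
      some ((((estep A nK nL nS tm.m)^[u.length] (s0 (a, u))).2.2.getD (nK.c tm.k₁) []).map dec)
      else none) = some b := by
    intro htu
    obtain ⟨h1, h2⟩ := estep_iter A nK nL nS hK tm.m hA t
      (initList tm (List.map ei.invFun a)) (haltList tm (List.map eo.invFun b)) hc0 ht
    obtain ⟨j, hj⟩ : ∃ j, u.length = j + t := ⟨u.length - t, by omega⟩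
    rw [hj, iterate_add_apply, he0, h1, iterate_fixed (by simp [estep, encC, haltList])]
    rw [if_pos (by simp [encC, haltList])]
    have h3 : (haltList tm (List.map eo.invFun b)).stk tm.k₁ = List.map eo.invFun b := by
      simp [haltList]
    have h4 := h2 tm.k₁
    simp only [encC]
    rw [encS_getD]
    rw [h3] at h4 ⊢
    rw [List.map_map, List.map_map]
    conv_rhs => rw [← List.map_id b]
    congr 1
    refine List.map_congr_left fun c hb => ?_
    have h5 := ds_top A tm.k₁ [eo.invFun c] (fun x hx => h4 x (by
      rw [List.mem_singleton.mp hx]; exact List.mem_map_of_mem hb))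
    simp only [List.map_cons, List.map_nil, top, List.head?_cons, Option.elim_some] at h5
    simp only [comp, dec]
    rw [h5]
    exact eo.right_inv c
  refine ⟨fun hT => key (le_trans hle hT), fun b' hb' => ?_⟩
  rcases le_or_gt t u.length with h | h
  · simp only at hb'
    rw [key h] at hb'
    exact (Option.some.inj hb').symm
  · exfalso
    obtain ⟨j, hj⟩ : ∃ j, t = j + 1 + u.length := ⟨t - u.length - 1, by omega⟩
    rw [hj] at ht
    obtain ⟨c, hc1, hc2⟩ := iter_early_some _ _ _ _ _ ht
    obtain ⟨h1, -⟩ := estep_iter A nK nL nS hK tm.m hA u.length _ c hc0 hc1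
    simp only at hb'
    rw [he0, h1] at hb'
    obtain ⟨l, v, S⟩ := c
    cases l with
    | none => exact hc2 rfl
    | some l => simp [encC] at hb'

end Pool.Agent.Shared.PolyTime
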