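import Mathlib

/-!
An elementary proof of a covering form of Shelah's revised GCH.

For a strong limit cardinal `χ` of countable cofinality and any `μ ≥ χ`, every set of size at most
`μ` has a family of at most `μ` subsets of size `< χ` such that every subset of size `< χ` is
covered by at most `σ` of them, for some `σ < χ`.
-/

set_option autoImplicit false

namespace Pool.Agent.Shared.RevisedGCH

open Cardinal Set Filter

universe u

lemma iUnion_le {W ι : Type u} {μ : Cardinal.{u}} (hμ : ℵ₀ ≤ μ) (f : ι → Set W) (hι : #ι ≤ μ)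
    (hf : ∀ i, #(f i) ≤ μ) : #(⋃ i, f i) ≤ μ :=
  (mk_iUnion_le f).trans (mul_le_of_le hμ hι (ciSup_le' hf))

lemma iUnion_nat_le {W : Type u} {μ : Cardinal.{u}} (hμ : ℵ₀ ≤ μ) (f : ℕ → Set W)
    (hf : ∀ i, #(f i) ≤ μ) : #(⋃ i, f i) ≤ μ := by
  have h : (⋃ i, f i) = ⋃ i : ULift.{u} ℕ, f i.down := by
    ext x
    simp only [mem_iUnion]
    exact ⟨fun ⟨i, hi⟩ => ⟨⟨i⟩, hi⟩, fun ⟨i, hi⟩ => ⟨i.down, hi⟩⟩
  rw [h]
  exact iUnion_le hμ _ (by simpa using hμ) (fun i => hf _)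

lemma mk_pi_set_le {K W : Type u} (p : K → Set W) {ρ : Cardinal.{u}} (hp : ∀ j, #(p j) ≤ ρ) :
    #{t : K → W | ∀ j, t j ∈ p j} ≤ ρ ^ #K := by
  have h1 : #{t : K → W | ∀ j, t j ∈ p j} ≤ #(∀ j, p j) := by
    apply mk_le_of_injective (f := fun t j => ⟨t.1 j, t.2 j⟩)
    intro t t' h
    apply Subtype.ext
    funext j
    exact congrArg Subtype.val (congrFun h j)
  refine h1.trans ?_
  rw [mk_pi, ← prod_const']
  exact prod_le_prod _ _ hp

section Coinitial

variable {K W : Type u} [LinearOrder W] [WellFoundedLT W]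

lemma coinitial [Infinite K] (S : Set (K → W)) :
    ∃ S0 ⊆ S, #S0 ≤ 2 ^ #K ∧ ∀ h ∈ S, ∃ h0 ∈ S0, h0 ≤ h := by
  classical
  rcases S.eq_empty_or_nonempty with rfl | ⟨y0, hy0⟩
  · exact ⟨∅, subset_rfl, by simp, by simp⟩
  let op : (Σ A : Set K, (A → (K → W))) → (K → W) := fun z =>
    if h : ∃ y ∈ S, ∀ j : z.1, y j < z.2 j j then h.choose else y0
  have hopS : ∀ z, op z ∈ S := by
    intro z
    simp only [op]
    split_ifs with h
    · exact h.choose_spec.1
    · exact hy0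
  have hop : ∀ (A : Set K) (v : A → (K → W)), (∃ y ∈ S, ∀ j : A, y j < v j j) →
      ∀ j : A, op ⟨A, v⟩ j < v j j := by
    intro A v h j
    simp only [op, dif_pos h]
    exact h.choose_spec.2 j
  let ev : WType (fun A : Set K => (A : Type u)) → (K → W) := WType.elim _ op
  refine ⟨range ev, ?_, ?_, ?_⟩
  · rintro _ ⟨⟨A, f⟩, rfl⟩
    exact hopS _
  · refine mk_range_le.trans (WType.cardinalMk_le_of_le ?_)
    have hK : ℵ₀ ≤ #K := aleph0_le_mk K
    have h2 : ℵ₀ ≤ (2 : Cardinal) ^ #K := hK.trans (cantor _).le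
    calc (sum fun A : Set K => ((2 : Cardinal) ^ #K) ^ #A)
        ≤ sum fun _ : Set K => (2 : Cardinal) ^ #K := by
          apply sum_le_sum
          intro A
          calc ((2 : Cardinal) ^ #K) ^ #A ≤ ((2 : Cardinal) ^ #K) ^ #K :=
                power_le_power_left (power_ne_zero _ two_ne_zero) (mk_set_le A)
            _ = 2 ^ #K := by rw [← power_mul, mul_eq_self hK]
      _ = 2 ^ #K := by rw [sum_const', mk_set, mul_eq_self h2]
  · intro h hh
    let A : Set K := {j | ∃ t, h j < ev t j}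
    have hmin : ∀ j : A, ∃ t, h j < ev t j ∧ ∀ t', h j < ev t' j → ev t j ≤ ev t' j := by
      intro j
      obtain ⟨t0, ht0⟩ := j.2
      obtain ⟨w, ⟨t, ht, rfl⟩, hw⟩ := WellFounded.has_min (wellFounded_lt (α := W))
        {w | ∃ t, h j < ev t j ∧ ev t j = w} ⟨_, t0, ht0, rfl⟩
      exact ⟨t, ht, fun t' ht' => not_lt.mp (hw _ ⟨t', ht', rfl⟩)⟩
    choose t ht1 ht2 using hmin
    refine ⟨ev ⟨A, t⟩, ⟨_, rfl⟩, fun j => ?_⟩
    by_contra hlt
    have hlt' : h j < ev ⟨A, t⟩ j := not_le.mp hlt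
    have hj : j ∈ A := ⟨_, hlt'⟩
    have h1 := hop A (fun j => ev (t j)) ⟨h, hh, ht1⟩ ⟨j, hj⟩
    exact absurd (ht2 ⟨j, hj⟩ _ hlt') (not_le.mpr h1)

lemma antichain_le [Infinite K] (S : Set (K → W))
    (hS : ∀ h ∈ S, ∀ h' ∈ S, h ≤ h' → h = h') : #S ≤ 2 ^ #K := by
  obtain ⟨S0, h1, h2, h3⟩ := coinitial S
  refine (mk_le_mk_of_subset (fun h hh => ?_)).trans h2
  obtain ⟨h0, hh0, hle⟩ := h3 h hh
  rwa [← hS h0 (h1 hh0) h hh hle]

end Coinitial

section Families

variable {K W : Type u} [LinearOrder W]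

/-- An almost disjoint family of functions below `g`, modulo the filter `D`. -/
def AD (D : Filter K) (g : K → W) {X : Type u} (a : X → K → W) : Prop :=
  (∀ x, ∀ᶠ j in D, a x j < g j) ∧ ∀ x y, x ≠ y → ∀ᶠ j in D, a x j ≠ a y j

/-- There is no almost disjoint family of size larger than `μ` below `g`. -/
def NoBig (D : Filter K) (g : K → W) (μ : Cardinal.{u}) : Prop :=
  ∀ (Y : Type u) (c : Y → K → W), AD D g c → #Y ≤ μ

lemma AD.comp {D : Filter K} {g : K → W} {X Y : Type u} {a : X → K → W} (h : AD D g a)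
    {f : Y → X} (hf : Function.Injective f) : AD D g (fun y => a (f y)) :=
  ⟨fun _ => h.1 _, fun _ _ hxy => h.2 _ _ (hf.ne hxy)⟩

lemma wf_lt [WellFoundedLT W] (D : Filter K) [CountableInterFilter D] [D.NeBot] :
    WellFounded (fun f g : K → W => ∀ᶠ j in D, f j < g j) := by
  rw [wellFounded_iff_isEmpty_descending_chain]
  refine ⟨fun ⟨f, hf⟩ => ?_⟩
  obtain ⟨j, hj⟩ := (eventually_countable_forall.mpr hf).exists
  exact (wellFounded_iff_isEmpty_descending_chain.mp (wellFounded_lt (α := W))).false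
    ⟨fun n => f n j, hj⟩

omit [LinearOrder W] in
lemma count {D : Filter K} {X : Type u} {a : X → K → W}
    (ha : ∀ x y, x ≠ y → ∀ᶠ j in D, a x j ≠ a y j) {A : Set K} (hA : ∃ᶠ j in D, j ∈ A)
    (p : K → Set W) {ρ : Cardinal.{u}} (hρ : ρ ≠ 0) (hp : ∀ j ∈ A, #(p j) ≤ ρ) :
    #{x | ∀ j ∈ A, a x j ∈ p j} ≤ ρ ^ #K := by
  have h1 : #{x | ∀ j ∈ A, a x j ∈ p j} ≤ #{t : A → W | ∀ j : A, t j ∈ p j} := by
    apply mk_le_of_injective (f := fun x => ⟨fun j => a x.1 j, fun j => x.2 j j.2⟩)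
    intro x y h
    apply Subtype.ext
    by_contra hne
    obtain ⟨j, hj1, hj2⟩ := (hA.and_eventually (ha _ _ hne)).exists
    exact hj2 (congrFun (congrArg Subtype.val h) ⟨j, hj1⟩)
  refine h1.trans ((mk_pi_set_le (fun j : A => p j) (fun j => hp j j.2)).trans ?_)
  exact power_le_power_left hρ (mk_set_le A)

lemma exists_rank_pred {Y : Type u} (r : Y → Y → Prop) [IsWellFounded Y r]
    (htr : ∀ a b c, r a b → r b c → r a c) (y : Y) :
    ∀ o < IsWellFounded.rank r y, ∃ y', r y' y ∧ IsWellFounded.rank r y' = o := by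
  induction y using IsWellFounded.induction r with
  | ind y ih =>
    intro o ho
    rw [IsWellFounded.rank_eq, Ordinal.lt_iSup_iff] at ho
    obtain ⟨⟨b, hb⟩, hob⟩ := ho
    rcases (Order.lt_succ_iff.mp hob).eq_or_lt with h | h
    · exact ⟨b, hb, h.symm⟩
    · obtain ⟨y', h1, h2⟩ := ih b hb o h
      exact ⟨y', htr _ _ _ h1 hb, h2⟩

lemma exists_minimal [WellFoundedLT W] [Infinite K] (D : Filter K) [CountableInterFilter D]
    [D.NeBot] {μ : Cardinal.{u}} (hμ : 2 ^ #K ≤ μ) {X : Type u} (hX : #X = μ)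
    {g0 : K → W} {a0 : X → K → W} (h0 : AD D g0 a0) :
    ∃ g : K → W, (∃ a : X → K → W, AD D g a) ∧ NoBig D g μ := by
  have hμ0 : ℵ₀ ≤ μ := ((aleph0_le_mk K).trans (cantor _).le).trans hμ
  obtain ⟨g, hg, hmin⟩ := (wf_lt (W := W) D).has_min {g | ∃ a : X → K → W, AD D g a} ⟨g0, a0, h0⟩
  refine ⟨g, hg, fun Y c hc => ?_⟩
  let r : Y → Y → Prop := fun y y' => ∀ᶠ j in D, c y j < c y' j
  have hwf : IsWellFounded Y r := ⟨InvImage.wf c (wf_lt D)⟩
  have htr : ∀ a b c, r a b → r b c → r a c := by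
    intro a b c' h1 h2
    filter_upwards [h1, h2] with j k1 k2 using k1.trans k2
  have hpred : ∀ y, #{y' | r y' y} < μ := by
    intro y
    by_contra hge
    rw [not_lt, ← hX] at hge
    obtain ⟨e⟩ := hge
    refine hmin (c y) ⟨fun x => c (e x).1, fun x => (e x).2, fun x x' hne => hc.2 _ _ ?_⟩ (hc.1 y)
    intro h
    exact hne (e.injective (Subtype.ext h))
  have hrank : ∀ y, IsWellFounded.rank r y < μ.ord := by
    intro y
    rw [Cardinal.lt_ord, ← mk_toType]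
    refine lt_of_le_of_lt ?_ (hpred y)
    have hex : ∀ i : (IsWellFounded.rank r y).ToType, ∃ y', r y' y ∧
        IsWellFounded.rank r y' = (i.toOrd : Ordinal) :=
      fun i => exists_rank_pred r htr y _ i.toOrd.2
    choose f hf1 hf2 using hex
    apply mk_le_of_injective (f := fun i => ⟨f i, hf1 i⟩)
    intro i i' h
    have h1 : f i = f i' := congrArg Subtype.val h
    have h2 : (i.toOrd : Ordinal) = i'.toOrd := by rw [← hf2, ← hf2, h1]
    exact Ordinal.ToType.mk.symm.injective (Subtype.ext h2)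
  have hinj : Function.Injective c := by
    intro y y' h
    by_contra hne
    obtain ⟨j, hj⟩ := (hc.2 _ _ hne).exists
    exact hj (congrFun h j)
  have hlev : ∀ o : Ordinal.{u}, #{y | IsWellFounded.rank r y = o} ≤ μ := by
    intro o
    rw [← mk_image_eq_of_injOn c _ hinj.injOn]
    refine (antichain_le _ ?_).trans hμ
    rintro _ ⟨y, hy, rfl⟩ _ ⟨y', hy', rfl⟩ hle
    by_contra hne
    have hne' : y ≠ y' := fun h => hne (by rw [h])
    have : r y y' := by
      filter_upwards [hc.2 _ _ hne'] with j hj using lt_of_le_of_ne (hle j) hj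
    have := IsWellFounded.rank_lt_of_rel (r := r) this
    rw [hy, hy'] at this
    exact lt_irrefl _ this
  have hcov : (univ : Set Y) =
      ⋃ i : μ.ord.ToType, {y | IsWellFounded.rank r y = (i.toOrd : Ordinal)} := by
    ext y
    simp only [mem_univ, mem_iUnion, mem_ofPred_eq, true_iff]
    exact ⟨Ordinal.ToType.mk ⟨_, hrank y⟩, by simp [Ordinal.ToType.toOrd]⟩
  rw [← mk_univ, hcov]
  exact iUnion_le hμ0 _ (by simp) (fun i => hlev _)

lemma glue (D : Filter K) [CountableInterFilter D] (g : K → W) (A : ℕ → Set K)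
    (hA : ∀ j, ∃ n, j ∈ A n) {Y : Type u} (c : ℕ → Y → K → W)
    (hc : ∀ n, AD (D ⊓ 𝓟 (A n)) g (c n)) : ∃ c' : Y → K → W, AD D g c' := by
  choose n hn using hA
  refine ⟨fun y j => c (n j) y j, fun y => ?_, fun y y' hne => ?_⟩
  · have h1 : ∀ m, ∀ᶠ j in D, j ∈ A m → c m y j < g j :=
      fun m => eventually_inf_principal.mp ((hc m).1 y)
    filter_upwards [eventually_countable_forall.mpr h1] with j hj using hj _ (hn j)
  · have h1 : ∀ m, ∀ᶠ j in D, j ∈ A m → c m y j ≠ c m y' j :=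
      fun m => eventually_inf_principal.mp ((hc m).2 y y' hne)
    filter_upwards [eventually_countable_forall.mpr h1] with j hj using hj _ (hn j)

lemma exists_maximal (D : Filter K) [D.NeBot] (g : K → W) {μ : Cardinal.{u}} (h : NoBig D g μ) :
    ∃ U : Set (K → W), #U ≤ μ ∧
      ∀ b : K → W, (∀ᶠ j in D, b j < g j) → ∃ v ∈ U, ∃ᶠ j in D, b j = v j := by
  let S : Set (Set (K → W)) := {U | (∀ v ∈ U, ∀ᶠ j in D, v j < g j) ∧
    U.Pairwise (fun v v' => ∀ᶠ j in D, v j ≠ v' j)}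
  obtain ⟨U, hU⟩ := zorn_subset S (by
    intro c hc hchain
    refine ⟨⋃₀ c, ⟨?_, ?_⟩, fun s hs => subset_sUnion_of_mem hs⟩
    · rintro v ⟨s, hs, hv⟩
      exact (hc hs).1 v hv
    · rintro v ⟨s, hs, hv⟩ v' ⟨s', hs', hv'⟩ hne
      rcases hchain.total hs hs' with h1 | h1
      · exact (hc hs').2 (h1 hv) hv' hne
      · exact (hc hs).2 hv (h1 hv') hne)
  refine ⟨U, h U (fun v => v.1) ⟨fun v => hU.prop.1 v.1 v.2, fun v v' hne =>
    hU.prop.2 v.2 v'.2 (fun h' => hne (Subtype.ext h'))⟩, fun b hb => ?_⟩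
  by_contra hcon
  have hcon' : ∀ v ∈ U, ∀ᶠ j in D, b j ≠ v j := by
    intro v hv
    by_contra h1
    exact hcon ⟨v, hv, h1⟩
  have hmem : insert b U ∈ S := by
    refine ⟨?_, ?_⟩
    · rintro v (rfl | hv)
      · exact hb
      · exact hU.prop.1 v hv
    · rintro v (rfl | hv) v' (rfl | hv') hne
      · exact absurd rfl hne
      · exact hcon' v' hv'
      · exact (hcon' v hv).mono (fun j hj => hj.symm)
      · exact hU.prop.2 hv hv' hne
  have hb' : b ∈ U := hU.mem_of_prop_insert hmem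
  obtain ⟨j, hj⟩ := (hcon' b hb').exists
  exact hj rfl

end Families

/-- `χ` is an uncountable strong limit cardinal with the cofinal sequence `b`. -/
structure SL (χ : Cardinal.{u}) (b : ℕ → Cardinal.{u}) : Prop where
  aleph0_lt : ℵ₀ < χ
  two_pow : ∀ a < χ, 2 ^ a < χ
  b_lt : ∀ n, b n < χ
  b_inf : ∀ n, ℵ₀ ≤ b n
  cofinal : ∀ a < χ, ∃ n, a ≤ b n

lemma SL.pow_lt {χ : Cardinal.{u}} {b : ℕ → Cardinal.{u}} (h : SL χ b) {a c : Cardinal.{u}}
    (ha : a < χ) (hc : c < χ) : a ^ c < χ := by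
  calc a ^ c ≤ (2 ^ a) ^ c := power_le_power_right (cantor a).le
    _ = 2 ^ (a * c) := by rw [← power_mul]
    _ < χ := h.two_pow _ (mul_lt_of_lt h.aleph0_lt.le ha hc)

/-- The covering property. -/
def Cov (χ μ σ : Cardinal.{u}) {W : Type u} (S : Set W) : Prop :=
  ∃ P : Set (Set W), #P ≤ μ ∧ (∀ p ∈ P, #p < χ) ∧
    ∀ B ⊆ S, #B < χ → ∃ Q ⊆ P, #Q ≤ σ ∧ B ⊆ ⋃₀ Q

/-- The covering property, with the covering family indexed by the set itself. -/
def DecCov (χ σ : Cardinal.{u}) {W : Type u} (S : Set W) : Prop :=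
  ∃ d : W → Set W, (∀ w, #(d w) < χ) ∧
    ∀ B ⊆ S, #B < χ → ∃ Q ⊆ S, #Q ≤ σ ∧ ∀ x ∈ B, ∃ w ∈ Q, x ∈ d w

lemma Cov.transport {χ μ σ : Cardinal.{u}} {W W' : Type u} {S : Set W} {S' : Set W'}
    (h : Cov χ μ σ S) (f : W' → W) (hf : InjOn f S') (hm : MapsTo f S' S) : Cov χ μ σ S' := by
  obtain ⟨P, h1, h2, h3⟩ := h
  refine ⟨(fun p => S' ∩ f ⁻¹' p) '' P, mk_image_le.trans h1, ?_, fun B hB hBc => ?_⟩
  · rintro _ ⟨p, hp, rfl⟩
    refine lt_of_le_of_lt ?_ (h2 p hp)
    apply mk_le_of_injective (f := fun x => ⟨f x.1, x.2.2⟩)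
    intro x y hxy
    exact Subtype.ext (hf x.2.1 y.2.1 (congrArg Subtype.val hxy))
  · obtain ⟨Q, hQ1, hQ2, hQ3⟩ := h3 (f '' B) (by
      rintro _ ⟨x, hx, rfl⟩
      exact hm (hB hx)) (mk_image_le.trans_lt hBc)
    refine ⟨(fun p => S' ∩ f ⁻¹' p) '' Q, image_mono hQ1, mk_image_le.trans hQ2, fun x hx => ?_⟩
    obtain ⟨p, hp, hxp⟩ := hQ3 ⟨x, hx, rfl⟩
    exact ⟨_, ⟨p, hp, rfl⟩, hB hx, hxp⟩

lemma DecCov.mono {χ σ σ' : Cardinal.{u}} {W : Type u} {S : Set W} (h : DecCov χ σ S)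
    (hσ : σ ≤ σ') : DecCov χ σ' S := by
  obtain ⟨d, h1, h2⟩ := h
  refine ⟨d, h1, fun B hB hBc => ?_⟩
  obtain ⟨Q, hQ1, hQ2, hQ3⟩ := h2 B hB hBc
  exact ⟨Q, hQ1, hQ2.trans hσ, hQ3⟩

lemma DecCov.of_small {χ : Cardinal.{u}} {W : Type u} {S : Set W} (h : #S < χ) :
    DecCov χ 1 S := by
  refine ⟨fun _ => S, fun _ => h, fun B hB _ => ?_⟩
  rcases B.eq_empty_or_nonempty with rfl | ⟨x, hx⟩
  · exact ⟨∅, empty_subset _, by simp, by simp⟩
  · exact ⟨{x}, by simpa using hB hx, by simp, fun y hy => ⟨x, rfl, hB hy⟩⟩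

lemma Cov.decCov {χ σ : Cardinal.{u}} (hχ : 0 < χ) {W : Type u} {S : Set W}
    (h : Cov χ (#S) σ S) : DecCov χ σ S := by
  classical
  obtain ⟨P, ⟨e⟩, h2, h3⟩ := h
  let code : P → W := fun p => (e p).1
  have hcode : Function.Injective code := fun p q hpq => e.injective (Subtype.ext hpq)
  refine ⟨Function.extend code (fun p => p.1) (fun _ => ∅), fun w => ?_, fun B hB hBc => ?_⟩
  · by_cases hw : ∃ p, code p = w
    · obtain ⟨p, rfl⟩ := hw
      rw [hcode.extend_apply]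
      exact h2 p.1 p.2
    · rw [Function.extend_apply' _ _ _ hw]
      simpa using hχ
  · obtain ⟨Q, hQ1, hQ2, hQ3⟩ := h3 B hB hBc
    refine ⟨range (fun q : Q => code ⟨q.1, hQ1 q.2⟩), ?_, mk_range_le.trans hQ2, fun x hx => ?_⟩
    · rintro _ ⟨q, rfl⟩
      exact (e _).2
    · obtain ⟨p, hp, hxp⟩ := hQ3 hx
      refine ⟨_, ⟨⟨p, hp⟩, rfl⟩, ?_⟩
      rw [hcode.extend_apply]
      exact hxp

lemma pullback {χ : Cardinal.{u}} {b : ℕ → Cardinal.{u}} (hχ : SL χ b) {μ σ : Cardinal.{u}}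
    (hμ : χ ≤ μ) (hσ : ℵ₀ ≤ σ) {K W : Type u} [LinearOrder W] (hK : #K < χ)
    (D : Filter K) [CountableInterFilter D] [D.NeBot] (g : K → W)
    (hD : ∀ᶠ j in D, DecCov χ σ (Iio (g j))) {X : Type u} {a : X → K → W} (ha : AD D g a)
    (hno : NoBig D g μ) : Cov χ μ (σ ^ #K) (univ : Set X) := by
  classical
  have hμ0 : ℵ₀ ≤ μ := hχ.aleph0_lt.le.trans hμ
  have hχ0 : 0 < χ := aleph0_pos.trans hχ.aleph0_lt
  have hex : ∀ j, ∃ d : W → Set W, (∀ w, #(d w) < χ) ∧ (DecCov χ σ (Iio (g j)) →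
      ∀ B ⊆ Iio (g j), #B < χ → ∃ Q ⊆ Iio (g j), #Q ≤ σ ∧ ∀ x ∈ B, ∃ w ∈ Q, x ∈ d w) := by
    intro j
    by_cases h : DecCov χ σ (Iio (g j))
    · obtain ⟨d, h1, h2⟩ := h
      exact ⟨d, h1, fun _ => h2⟩
    · exact ⟨fun _ => ∅, fun _ => by simpa using hχ0, fun h' => absurd h' h⟩
  choose d hd1 hd2 using hex
  obtain ⟨U, hU1, hU2⟩ := exists_maximal D g hno
  let pp : U × Set K → Set X := fun z => {x | ∀ j ∈ z.2, a x j ∈ d j (z.1.1 j)}
  have hkey : ∀ t : K → W, (∀ᶠ j in D, t j < g j) → ∃ p ∈ range pp, #p < χ ∧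
      ∀ x, (∀ j, t j < g j → a x j ∈ d j (t j)) → x ∈ p := by
    intro t ht
    obtain ⟨v, hv, hfr⟩ := hU2 t ht
    have hr : ∃ r, ∃ᶠ j in D, j ∈ {j | t j = v j ∧ t j < g j ∧ #(d j (v j)) ≤ b r} := by
      by_contra hcon
      have h1 : ∀ r, ∀ᶠ j in D, ¬ (t j = v j ∧ t j < g j ∧ #(d j (v j)) ≤ b r) := by
        intro r
        by_contra h2
        exact hcon ⟨r, h2⟩
      obtain ⟨j, hj1, hj2, hj3⟩ :=
        (hfr.and_eventually (ht.and (eventually_countable_forall.mpr h1))).exists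
      obtain ⟨r, hr⟩ := hχ.cofinal _ (hd1 j (v j))
      exact hj3 r ⟨hj1, hj2, hr⟩
    obtain ⟨r, hr⟩ := hr
    refine ⟨pp (⟨v, hv⟩, {j | t j = v j ∧ t j < g j ∧ #(d j (v j)) ≤ b r}), ⟨_, rfl⟩, ?_, ?_⟩
    · refine lt_of_le_of_lt (count ha.2 hr (fun j => d j (v j)) (ρ := b r)
        (aleph0_pos.trans_le (hχ.b_inf r)).ne' (fun j hj => hj.2.2)) ?_
      exact hχ.pow_lt (hχ.b_lt r) hK
    · intro x hx j hj
      have := hx j hj.2.1
      rw [hj.1] at this
      exact this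
  choose! p hp1 hp2 hp3 using hkey
  refine ⟨{q | q ∈ range pp ∧ #q < χ}, ?_, fun q hq => hq.2, fun B _ hB => ?_⟩
  · refine (mk_le_mk_of_subset (fun q hq => hq.1)).trans (mk_range_le.trans ?_)
    rw [mk_prod, lift_id, lift_id, mk_set]
    exact mul_le_of_le hμ0 hU1 ((hχ.two_pow _ hK).le.trans hμ)
  · have hQ : ∀ j, ∃ Q ⊆ Iio (g j), #Q ≤ σ ∧ (DecCov χ σ (Iio (g j)) →
        ∀ x ∈ B, a x j < g j → ∃ w ∈ Q, a x j ∈ d j w) := by
      intro j
      by_cases h : DecCov χ σ (Iio (g j))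
      · obtain ⟨Q, h1, h2, h3⟩ := hd2 j h (((fun x => a x j) '' B) ∩ Iio (g j))
          inter_subset_right
          ((mk_le_mk_of_subset inter_subset_left).trans_lt (mk_image_le.trans_lt hB))
        exact ⟨Q, h1, h2, fun _ x hx hlt => h3 _ ⟨⟨x, hx, rfl⟩, hlt⟩⟩
      · exact ⟨∅, empty_subset _, by simp, fun h' => absurd h' h⟩
    choose Q hQ1 hQ2 hQ3 using hQ
    let T : Set (K → W) := {t | ∀ j, t j ∈ insert (g j) (Q j)}
    have hT : #T ≤ σ ^ #K := mk_pi_set_le _ (fun j => mk_insert_le.trans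
      (add_le_of_le hσ (hQ2 j) (one_le_aleph0.trans hσ)))
    refine ⟨p '' {t | t ∈ T ∧ ∀ᶠ j in D, t j < g j}, ?_,
      mk_image_le.trans ((mk_le_mk_of_subset (fun t ht => ht.1)).trans hT), fun x hx => ?_⟩
    · rintro _ ⟨t, ht, rfl⟩
      exact ⟨hp1 t ht.2, hp2 t ht.2⟩
    · have hsel : ∀ j, ∃ w ∈ insert (g j) (Q j), (w < g j → a x j ∈ d j w) ∧
          (DecCov χ σ (Iio (g j)) → a x j < g j → w < g j) := by
        intro j
        by_cases h : DecCov χ σ (Iio (g j)) ∧ a x j < g j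
        · obtain ⟨w, hw1, hw2⟩ := hQ3 j h.1 x hx h.2
          exact ⟨w, Or.inr hw1, fun _ => hw2, fun _ _ => hQ1 j hw1⟩
        · exact ⟨g j, Or.inl rfl, fun h' => absurd h' (lt_irrefl _),
            fun h1 h2 => absurd ⟨h1, h2⟩ h⟩
      choose t ht1 ht2 ht3 using hsel
      have hev : ∀ᶠ j in D, t j < g j := by
        filter_upwards [hD, ha.1 x] with j h1 h2 using ht3 j h1 h2
      exact ⟨p t, ⟨t, ⟨ht1, hev⟩, rfl⟩, hp3 t hev x ht2⟩

lemma mk_filter_le (K : Type u) : #(Filter K) ≤ 2 ^ ((2 : Cardinal.{u}) ^ #K) := by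
  rw [← mk_set, ← mk_set]
  exact mk_le_of_injective (f := fun D : Filter K => D.sets) (fun _ _ h => Filter.filter_eq h)

lemma step_two {χ : Cardinal.{u}} {b : ℕ → Cardinal.{u}} (hχ : SL χ b) {μ : Cardinal.{u}}
    (hμ : χ ≤ μ) {W : Type u} [LinearOrder W] [NoMaxOrder W] (hW : #W ≤ μ)
    (H : ∀ (n : ℕ) (D : Filter (b n).out), CountableInterFilter D → D.NeBot →
      ∀ g : (b n).out → W, NoBig D g μ)
    (S : Set W) (hS : ∀ w ∈ S, Cov χ μ ℵ₀ (Iio w)) : Cov χ μ ℵ₀ S := by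
  classical
  have hμ0 : ℵ₀ ≤ μ := hχ.aleph0_lt.le.trans hμ
  by_cases hC : ∃ C : Set W, #C < χ ∧ ∀ x ∈ S, ∃ c ∈ C, x < c
  · obtain ⟨C, hC1, hC2⟩ := hC
    have hex : ∀ (n : ℕ) (D : Filter (b n).out) (g : (b n).out → W),
        ∃ U : Set ((b n).out → W), #U ≤ μ ∧ (CountableInterFilter D → D.NeBot →
          ∀ t : (b n).out → W, (∀ᶠ j in D, t j < g j) → ∃ v ∈ U, ∃ᶠ j in D, t j = v j) := by
      intro n D g
      by_cases h : CountableInterFilter D ∧ D.NeBot
      · obtain ⟨h1, h2⟩ := h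
        obtain ⟨U, hU1, hU2⟩ := exists_maximal D g (H n D h1 h2 g)
        exact ⟨U, hU1, fun _ _ => hU2⟩
      · exact ⟨∅, by simp, fun h1 h2 => absurd ⟨h1, h2⟩ h⟩
    choose U hU1 hU2 using hex
    let P : Set (Set W) := ⋃ n : ℕ, ⋃ D : Filter (b n).out,
      ⋃ g : {g : (b n).out → W | ∀ j, g j ∈ C}, range '' (U n D g.1)
    refine ⟨P, ?_, ?_, fun B hB hBc => ?_⟩
    · refine iUnion_nat_le hμ0 _ (fun n => iUnion_le hμ0 _ ?_ (fun D => iUnion_le hμ0 _ ?_
        (fun g => mk_image_le.trans (hU1 n D g.1))))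
      · refine (mk_filter_le _).trans ?_
        rw [mk_out]
        exact (hχ.two_pow _ (hχ.two_pow _ (hχ.b_lt n))).le.trans hμ
      · refine (mk_pi_set_le (fun _ => C) (fun _ => le_rfl)).trans ?_
        rw [mk_out]
        exact (hχ.pow_lt hC1 (hχ.b_lt n)).le.trans hμ
    · intro p hp
      simp only [P, mem_iUnion] at hp
      obtain ⟨n, D, g, v, -, rfl⟩ := hp
      refine mk_range_le.trans_lt ?_
      rw [mk_out]
      exact hχ.b_lt n
    · rcases B.eq_empty_or_nonempty with rfl | hBne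
      · exact ⟨∅, empty_subset _, by simp, by simp⟩
      obtain ⟨n, hn⟩ := hχ.cofinal _ hBc
      rw [← mk_out (b n)] at hn
      obtain ⟨e⟩ := hn
      have : Nonempty B := hBne.to_subtype
      let a : (b n).out → W := fun j => (Function.invFun e j).1
      have ha1 : ∀ j, a j ∈ B := fun j => (Function.invFun e j).2
      have ha2 : ∀ x ∈ B, ∃ j, a j = x := fun x hx =>
        ⟨e ⟨x, hx⟩, by simp only [a]; rw [Function.leftInverse_invFun e.injective]⟩
      let J : Set (Set (b n).out) := {Y | ∃ Q ⊆ P, Q.Countable ∧ ∀ j ∈ Y, a j ∈ ⋃₀ Q}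
      have hJ1 : ∀ T : Set (Set (b n).out), T.Countable → (∀ s ∈ T, s ∈ J) → ⋃₀ T ∈ J := by
        intro T hT hTJ
        choose! Q hQ1 hQ2 hQ3 using hTJ
        refine ⟨⋃ s ∈ T, Q s, iUnion₂_subset hQ1, hT.biUnion hQ2, ?_⟩
        rintro j ⟨s, hs, hj⟩
        obtain ⟨q, hq, hjq⟩ := hQ3 s hs j hj
        exact ⟨q, mem_biUnion hs hq, hjq⟩
      have hJ2 : ∀ t ∈ J, ∀ s ⊆ t, s ∈ J := by
        rintro t ⟨Q, h1, h2, h3⟩ s hs
        exact ⟨Q, h1, h2, fun j hj => h3 j (hs hj)⟩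
      by_cases huniv : (univ : Set (b n).out) ∈ J
      · obtain ⟨Q, h1, h2, h3⟩ := huniv
        refine ⟨Q, h1, le_aleph0_iff_set_countable.mpr h2, fun x hx => ?_⟩
        obtain ⟨j, rfl⟩ := ha2 x hx
        exact h3 j (mem_univ j)
      · exfalso
        let D := Filter.ofCountableUnion J hJ1 hJ2
        have hne : D.NeBot := by
          rw [← Filter.forall_mem_nonempty_iff_neBot]
          intro s hs
          rw [Filter.mem_ofCountableUnion] at hs
          by_contra hemp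
          rw [not_nonempty_iff_eq_empty] at hemp
          rw [hemp, compl_empty] at hs
          exact huniv hs
        choose g hg1 hg2 using fun j => hC2 (a j) (hB (ha1 j))
        obtain ⟨v, hv, hfr⟩ := hU2 n D g inferInstance hne a (Eventually.of_forall hg2)
        apply hfr
        show {j | ¬ a j = v j} ∈ D
        rw [Filter.mem_ofCountableUnion]
        refine ⟨{range v}, ?_, countable_singleton _, fun j hj => ?_⟩
        · rintro _ rfl
          simp only [P, mem_iUnion]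
          exact ⟨n, D, ⟨g, hg1⟩, v, hv, rfl⟩
        · have : a j = v j := by simpa using hj
          rw [this]
          exact ⟨_, rfl, j, rfl⟩
  · choose! P hP1 hP2 hP3 using hS
    refine ⟨⋃ w : S, P w, iUnion_le hμ0 _ ((mk_set_le S).trans hW) (fun w => hP1 w w.2), ?_,
      fun B hB hBc => ?_⟩
    · intro p hp
      obtain ⟨w, hw⟩ := mem_iUnion.mp hp
      exact hP2 w w.2 p hw
    · choose s hs using fun w : W => exists_gt w
      have : ¬ ∀ x ∈ S, ∃ c ∈ s '' B, x < c := fun h => hC ⟨_, mk_image_le.trans_lt hBc, h⟩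
      push Not at this
      obtain ⟨w, hw, hw2⟩ := this
      obtain ⟨Q, h1, h2, h3⟩ := hP3 w hw B
        (fun x hx => (hs x).trans_le (hw2 _ ⟨x, hx, rfl⟩)) hBc
      exact ⟨Q, h1.trans (subset_iUnion (fun w : S => P w) ⟨w, hw⟩), h2, h3⟩

/-- The revised GCH, covering form. -/
theorem revised_gch {χ : Cardinal.{u}} {b : ℕ → Cardinal.{u}} (hχ : SL χ b) (μ : Cardinal.{u}) :
    χ ≤ μ → ∀ {W : Type u} (S : Set W), #S ≤ μ → ∃ σ < χ, Cov χ μ σ S := by
  induction μ using WellFoundedLT.induction with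
  | ind μ ih =>
    intro hμ W' S' hS'
    have hμ0 : ℵ₀ ≤ μ := hχ.aleph0_lt.le.trans hμ
    suffices h : ∃ σ < χ, Cov χ μ σ (univ : Set μ.ord.ToType) by
      obtain ⟨σ, h1, h2⟩ := h
      refine ⟨σ, h1, ?_⟩
      rw [← mk_ord_toType μ] at hS'
      obtain ⟨e⟩ := hS'
      have : Nonempty μ.ord.ToType := by
        rw [Ordinal.nonempty_toType_iff]
        simpa using (aleph0_pos.trans_le hμ0).ne'
      classical
      refine h2.transport (fun x => if h : x ∈ S' then e ⟨x, h⟩ else Classical.arbitrary _) ?_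
        (fun _ _ => mem_univ _)
      intro x hx y hy hxy
      simp only [dif_pos hx, dif_pos hy] at hxy
      exact congrArg Subtype.val (e.injective hxy)
    have := Cardinal.noMaxOrder hμ0
    by_cases H : ∀ (n : ℕ) (D : Filter (b n).out), CountableInterFilter D → D.NeBot →
        ∀ g : (b n).out → μ.ord.ToType, NoBig D g μ
    · refine ⟨ℵ₀, hχ.aleph0_lt, step_two hχ hμ (by simp) H _ (fun w _ => ?_)⟩
      induction w using WellFoundedLT.induction with
      | ind w ihw => exact step_two hχ hμ (by simp) H _ (fun w' hw' => ihw w' hw' (mem_univ _))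
    · push Not at H
      obtain ⟨n, D, hD1, hD2, g0, hg0⟩ := H
      have hK : #(b n).out < χ := by rw [mk_out]; exact hχ.b_lt n
      have : Infinite (b n).out := by
        rw [← aleph0_le_mk_iff, mk_out]; exact hχ.b_inf n
      obtain ⟨Y, c, hc, hY⟩ : ∃ (Y : Type u) (c : Y → (b n).out → μ.ord.ToType),
          AD D g0 c ∧ μ < #Y := by
        by_contra hcon
        apply hg0
        intro Y c hc
        by_contra h
        exact hcon ⟨Y, c, hc, not_le.mp h⟩
      obtain ⟨e⟩ : #μ.ord.ToType ≤ #Y := by rw [mk_ord_toType]; exact hY.le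
      obtain ⟨g, ⟨a, ha⟩, hno⟩ := exists_minimal D ((hχ.two_pow _ hK).le.trans hμ)
        (mk_ord_toType μ) (hc.comp e.injective)
      have hA : ∀ j, ∃ m, j ∈ {j | DecCov χ (b m) (Iio (g j))} := by
        intro j
        by_cases hs : #(Iio (g j)) < χ
        · exact ⟨0, (DecCov.of_small hs).mono (one_le_aleph0.trans (hχ.b_inf 0))⟩
        · obtain ⟨σ, h1, h2⟩ := ih #(Iio (g j)) (by simpa using mk_Iio_lt (g j)) (not_lt.mp hs)
            (Iio (g j)) le_rfl
          obtain ⟨m, hm⟩ := hχ.cofinal σ h1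
          exact ⟨m, (h2.decCov (aleph0_pos.trans hχ.aleph0_lt)).mono hm⟩
      obtain ⟨m, hm⟩ : ∃ m, ¬ ∃ c : (Order.succ μ).out → (b n).out → μ.ord.ToType,
          AD (D ⊓ 𝓟 {j | DecCov χ (b m) (Iio (g j))}) g c := by
        by_contra hcon
        push Not at hcon
        choose c hc using hcon
        obtain ⟨c', hc'⟩ := glue D g _ hA c hc
        have := hno _ c' hc'
        rw [mk_out] at this
        exact absurd this (not_le.mpr (Order.lt_succ μ))
      have hne : (D ⊓ 𝓟 {j | DecCov χ (b m) (Iio (g j))}).NeBot := by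
        by_contra hbot
        rw [not_neBot] at hbot
        apply hm
        rw [hbot]
        exact ⟨fun _ => g, fun _ => eventually_bot, fun _ _ _ => eventually_bot⟩
      have hno' : NoBig (D ⊓ 𝓟 {j | DecCov χ (b m) (Iio (g j))}) g μ := by
        intro Y c hc
        by_contra h
        have h1 : #(Order.succ μ).out ≤ #Y := by
          rw [mk_out]; exact Order.succ_le_of_lt (not_le.mp h)
        obtain ⟨e⟩ := h1
        exact hm ⟨_, hc.comp e.injective⟩
      refine ⟨b m ^ #(b n).out, hχ.pow_lt (hχ.b_lt m) hK,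
        pullback hχ hμ (hχ.b_inf m) hK _ g ?_ (a := a) ?_ hno'⟩
      · exact eventually_inf_principal.mpr (Eventually.of_forall (fun _ h => h))
      · exact ⟨fun x => (ha.1 x).filter_mono inf_le_left,
          fun x y h => (ha.2 x y h).filter_mono inf_le_left⟩

lemma SL_beth_omega : SL (beth Ordinal.omega0.{u}) (fun n : ℕ => beth n) := by
  have hsl : IsStrongLimit (beth Ordinal.omega0.{u}) :=
    isStrongLimit_beth.mpr Ordinal.isSuccLimit_omega0.isSuccPrelimit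
  refine ⟨?_, fun a ha => hsl.isStrongPrelimit ha, fun n => beth_lt_beth.mpr (Ordinal.natCast_lt_omega0 n),
    fun n => aleph0_le_beth _, fun a ha => ?_⟩
  · rw [← beth_zero]
    exact beth_lt_beth.mpr Ordinal.omega0_pos
  · rw [beth_limit Ordinal.isSuccLimit_omega0] at ha
    obtain ⟨⟨o, ho⟩, h⟩ := exists_lt_of_lt_ciSup' ha
    obtain ⟨n, rfl⟩ := Ordinal.lt_omega0.mp ho
    exact ⟨n, h.le⟩

end Pool.Agent.Shared.RevisedGCH
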