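import Pool.Agent.Shared.WittDefs

/-!
Basic calculus in the Witt ring defined in `Pool.Agent.Shared.WittDefs`.
-/

namespace Pool.Agent.Shared.WittRing

open Matrix
open Pool.Agent.Shared.WittDefs (sym wittRel v)

universe u

section defs

variable (F : Type u) [Field F]

/-- The Witt ring. -/
def W : Type u := MonoidAlgebra ℤ Fˣ ⧸ wittRel F

/-- The quotient ring structure. -/
noncomputable instance : CommRing (W F) :=
  inferInstanceAs (CommRing (MonoidAlgebra ℤ Fˣ ⧸ wittRel F))

/-- The quotient map. -/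
noncomputable def mk : MonoidAlgebra ℤ Fˣ →+* W F := Ideal.Quotient.mk (wittRel F)

/-- The fundamental ideal, generated by the classes of the even-dimensional forms. -/
noncomputable def fundIdeal : Ideal (W F) :=
  Ideal.span {x | ∃ (n : ℕ) (a : Fin n → Fˣ), Even n ∧ x = mk F (sym F a)}

/-- The identification with the quotient ring. -/
noncomputable def quotEquiv : (MonoidAlgebra ℤ Fˣ ⧸ wittRel F) ≃+* W F :=
  { Equiv.refl _ with
    map_mul' := fun _ _ => rfl
    map_add' := fun _ _ => rfl }

lemma fundIdeal_eq_map : fundIdeal F = (WittDefs.fundIdeal F).map (quotEquiv F) := by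
  rw [WittDefs.fundIdeal, Ideal.map_span, fundIdeal]
  congr 1
  ext x
  constructor
  · rintro ⟨n, a, hn, rfl⟩
    exact ⟨_, ⟨n, a, hn, rfl⟩, rfl⟩
  · rintro ⟨_, ⟨n, a, hn, rfl⟩, rfl⟩
    exact ⟨n, a, hn, rfl⟩

lemma pow_eq_bot_iff (n : ℕ) : WittDefs.fundIdeal F ^ n = ⊥ ↔ fundIdeal F ^ n = ⊥ := by
  have : ∀ (R S : Type u) [CommRing R] [CommRing S] (e : R ≃+* S) (J : Ideal R),
      J ^ n = ⊥ ↔ (J.map e) ^ n = ⊥ := by
    intro R S _ _ e J
    rw [← Ideal.map_pow, Ideal.map_eq_bot_iff_of_injective e.injective]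
  rw [fundIdeal_eq_map]
  exact this (MonoidAlgebra ℤ Fˣ ⧸ wittRel F) (W F) (quotEquiv F) (WittDefs.fundIdeal F)

end defs

variable {F : Type u} [Field F]

/-- The class of the one-dimensional form. -/
noncomputable def cls (a : Fˣ) : W F := mk F (MonoidAlgebra.of ℤ Fˣ a)

lemma mk_eq_iff (x y : MonoidAlgebra ℤ Fˣ) : mk F x = mk F y ↔ x - y ∈ wittRel F :=
  Ideal.Quotient.eq

lemma mk_surjective : Function.Surjective (mk F) := Ideal.Quotient.mk_surjective

lemma cls_mul (a b : Fˣ) : cls (a * b) = cls a * cls b := by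
  simp only [cls, map_mul]

lemma cls_one : cls (1 : Fˣ) = 1 := by
  simp only [cls, map_one]

lemma mk_sym {n : ℕ} (a : Fin n → Fˣ) :
    mk F (sym F a) = ∑ i, cls (a i) := by
  simp only [sym, map_sum, cls]

lemma equivalent_of_matrix {n : ℕ} (a b : Fin n → Fˣ) (P : Matrix (Fin n) (Fin n) F)
    (h : Pᵀ * diagonal (fun i => (a i : F)) * P = diagonal (fun i => (b i : F))) :
    (QuadraticMap.weightedSumSquares F b).Equivalent (QuadraticMap.weightedSumSquares F a) := by
  have hdet : IsUnit P.det := by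
    have := congrArg Matrix.det h
    simp only [det_mul, det_transpose, det_diagonal] at this
    rw [isUnit_iff_ne_zero]
    intro h0
    rw [h0] at this
    simp only [zero_mul] at this
    exact (Finset.prod_ne_zero_iff.2 fun i _ => (b i).ne_zero) this.symm
  have key : ∀ (c : Fin n → Fˣ) (x : Fin n → F), QuadraticMap.weightedSumSquares F c x =
      x ⬝ᵥ (diagonal (fun i => (c i : F)) *ᵥ x) := by
    intro c x
    simp only [QuadraticMap.weightedSumSquares_apply, dotProduct, mulVec_diagonal, Units.smul_def,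
      smul_eq_mul]
    exact Finset.sum_congr rfl fun i _ => by ring
  refine ⟨⟨Matrix.toLinearEquiv' P (Matrix.invertibleOfIsUnitDet P hdet), fun x => ?_⟩⟩
  change QuadraticMap.weightedSumSquares F a (P *ᵥ x) = _
  rw [key, key, ← h, ← mulVec_mulVec, ← mulVec_mulVec, dotProduct_mulVec x Pᵀ, vecMul_transpose]

lemma matrix_of_equivalent (h2 : (2 : F) ≠ 0) {n : ℕ} (a b : Fin n → Fˣ)
    (h : (QuadraticMap.weightedSumSquares F b).Equivalent (QuadraticMap.weightedSumSquares F a)) :
    ∃ P : Matrix (Fin n) (Fin n) F,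
      Pᵀ * diagonal (fun i => (a i : F)) * P = diagonal (fun i => (b i : F)) := by
  let _ : Invertible (2 : F) := invertibleOfNonzero h2
  have key : ∀ c : Fin n → Fˣ, QuadraticForm.toMatrix' (QuadraticMap.weightedSumSquares F c) =
      diagonal (fun i => (c i : F)) := by
    intro c
    ext i j
    rw [QuadraticForm.toMatrix', LinearMap.toMatrix₂'_apply, QuadraticMap.associated_apply]
    simp only [QuadraticMap.weightedSumSquares_apply, Units.smul_def, smul_eq_mul, Pi.add_apply,
      ← Finset.sum_sub_distrib, Module.End.smul_def, QuadraticMap.half_moduleEnd_apply_eq_half_smul]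
    have : ∀ k, (c k : F) * (((Pi.single i (1 : F) : Fin n → F) k + (Pi.single j (1 : F) : Fin n → F) k) *
        ((Pi.single i (1 : F) : Fin n → F) k + (Pi.single j (1 : F) : Fin n → F) k)) -
        (c k : F) * ((Pi.single i (1 : F) : Fin n → F) k * (Pi.single i (1 : F) : Fin n → F) k) -
        (c k : F) * ((Pi.single j (1 : F) : Fin n → F) k * (Pi.single j (1 : F) : Fin n → F) k) =
        2 * ((Pi.single i (1 : F) : Fin n → F) k * ((c k : F) * (Pi.single j (1 : F) : Fin n → F) k)) :=
      fun k => by ring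
    simp only [this, ← Finset.mul_sum]
    rw [← mul_assoc, invOf_mul_self, one_mul]
    by_cases hij : i = j
    · subst hij; simp [Pi.single_apply]
    · simp [Pi.single_apply, hij, Ne.symm hij]
  obtain ⟨e⟩ := h
  refine ⟨LinearMap.toMatrix' (e.toLinearEquiv : (Fin n → F) →ₗ[F] (Fin n → F)), ?_⟩
  rw [← key, ← key, ← QuadraticForm.toMatrix'_comp]
  congr 1
  ext x
  simp

lemma sum_cls_eq_of_matrix {n : ℕ} (a b : Fin n → Fˣ) (P : Matrix (Fin n) (Fin n) F)
    (h : Pᵀ * diagonal (fun i => (a i : F)) * P = diagonal (fun i => (b i : F))) :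
    ∑ i, cls (b i) = ∑ i, cls (a i) := by
  rw [← mk_sym, ← mk_sym, mk_eq_iff]
  exact Ideal.subset_span (Or.inl ⟨n, b, a, equivalent_of_matrix a b P h, rfl⟩)

lemma cls_neg_one : cls (-1 : Fˣ) = -1 := by
  have : mk F (sym F ![1, -1]) = 0 :=
    Ideal.Quotient.eq_zero_iff_mem.2 (Ideal.subset_span (Or.inr rfl))
  rw [mk_sym] at this
  simp only [Fin.sum_univ_two, cons_val_zero, cons_val_one, cls_one] at this
  linear_combination this

lemma cls_neg (a : Fˣ) : cls (-a) = - cls a := by
  rw [← neg_one_mul a, cls_mul, cls_neg_one, neg_one_mul]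

lemma cls_mul_self (a : Fˣ) : cls (a * a) = 1 := by
  have := sum_cls_eq_of_matrix (F := F) ![1] ![a * a] !![(a : F)] (by
    ext i j; fin_cases i; fin_cases j; simp [Matrix.mul_apply])
  simpa [cls_one] using this

lemma cls_sq (a : Fˣ) : cls a * cls a = 1 := by rw [← cls_mul, cls_mul_self]

lemma cls_inv (a : Fˣ) : cls a⁻¹ = cls a := by
  have : cls a⁻¹ = cls a⁻¹ * cls (a * a) := by rw [cls_mul_self, mul_one]
  rw [this, ← cls_mul]; simp

/-- If `b = X ^ 2 - a Y ^ 2` then `b ⟨1, -a⟩ = ⟨1, -a⟩`. -/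
lemma cls_norm (a b : Fˣ) (X Y : F) (h : (b : F) = X ^ 2 - a * Y ^ 2) :
    (1 - cls a) * (1 - cls b) = 0 := by
  have := sum_cls_eq_of_matrix (F := F) ![1, -a] ![b, -(a * b)] !![X, a * Y; Y, X] (by
    ext i j; fin_cases i <;> fin_cases j <;> simp [Matrix.mul_apply, Fin.sum_univ_two, h] <;> ring)
  simp only [Fin.sum_univ_two, cons_val_zero, cons_val_one, cls_one, cls_neg, cls_mul] at this
  linear_combination -this

/-- The fundamental ideal is generated by the binary forms `⟨1, -a⟩`. -/
lemma fundIdeal_eq : fundIdeal F = Ideal.span (Set.range fun a : Fˣ => 1 - cls a) := by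
  apply le_antisymm
  · rw [fundIdeal, Ideal.span_le]
    rintro x ⟨n, a, ⟨m, hm⟩, rfl⟩
    rw [mk_sym]
    have h1 : ∑ i, cls (a i) = (m : W F) * (1 - cls (-1)) - ∑ i, (1 - cls (a i)) := by
      have h3 : ∑ i, (1 - cls (a i)) = (n : W F) - ∑ i, cls (a i) := by
        have : ∀ (R : Type u) [CommRing R] (g : Fin n → R), ∑ i, (1 - g i) = (n : R) - ∑ i, g i := by
          intro R _ g; simp
        exact this _ _
      rw [h3, cls_neg_one, show (n : W F) = m + m by rw [hm]; push_cast; rfl]
      ring
    rw [h1]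
    exact Ideal.sub_mem _ (Ideal.mul_mem_left _ _ (Ideal.subset_span ⟨_, rfl⟩))
      (Ideal.sum_mem _ fun i _ => Ideal.subset_span ⟨_, rfl⟩)
  · rw [Ideal.span_le]
    rintro x ⟨a, rfl⟩
    refine Ideal.subset_span ⟨2, ![1, -a], even_two, ?_⟩
    rw [mk_sym]
    simp [cls_one, cls_neg, sub_eq_add_neg]

lemma one_sub_cls_mem (a : Fˣ) : 1 - cls a ∈ fundIdeal F := by
  rw [fundIdeal_eq]; exact Ideal.subset_span ⟨_, rfl⟩

lemma two_mem : (2 : W F) ∈ fundIdeal F := by
  have := one_sub_cls_mem (-1 : Fˣ)
  rwa [cls_neg_one, sub_neg_eq_add, one_add_one_eq_two] at this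

lemma v_le_iff (n : ℕ) : v F ≤ n ↔ fundIdeal F ^ (n + 1) = ⊥ := by
  simp only [v, iSup_le_iff, Set.mem_ofPred_eq, Nat.cast_le, Ne, pow_eq_bot_iff]
  constructor
  · intro h
    by_contra hne
    have := h _ hne
    omega
  · intro h m hm
    by_contra hlt
    apply hm
    rw [eq_bot_iff, ← h]
    exact Ideal.pow_le_pow_right (by omega)

/-- Every element of the Witt ring is an integral combination of one-dimensional classes. -/
lemma induction_on {p : W F → Prop} (x : W F) (h1 : ∀ a, p (cls a)) (h0 : p 0)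
    (hadd : ∀ x y, p x → p y → p (x + y)) : p x := by
  obtain ⟨z, rfl⟩ := mk_surjective x
  have hneg : ∀ a, p (- cls a) := fun a => by rw [← cls_neg]; exact h1 _
  have hnat : ∀ (k : ℕ) (y : W F), p y → p (k • y) := by
    intro k y hy
    induction k with
    | zero => simpa using h0
    | succ k ih => rw [succ_nsmul]; exact hadd _ _ ih hy
  induction z using MonoidAlgebra.induction_linear with
  | zero => simpa using h0
  | add x y hx hy => rw [map_add]; exact hadd _ _ hx hy
  | single a k =>
    have : mk F (MonoidAlgebra.single a k) = k • cls a := by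
      rw [cls, ← map_zsmul]; simp
    rw [this]
    obtain ⟨m, rfl | rfl⟩ := Int.eq_nat_or_neg k
    · rw [natCast_zsmul]; exact hnat _ _ (h1 a)
    · rw [neg_smul, ← smul_neg, natCast_zsmul]; exact hnat _ _ (hneg a)

/-- A monoid homomorphism compatible with the relations induces a ring homomorphism on `W`. -/
noncomputable def lift {R : Type*} [CommRing R] (f : Fˣ →* R) (h2 : (2 : F) ≠ 0)
    (hf : ∀ (n : ℕ) (a b : Fin n → Fˣ) (P : Matrix (Fin n) (Fin n) F),
      Pᵀ * diagonal (fun i => (a i : F)) * P = diagonal (fun i => (b i : F)) →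
        ∑ i, f (b i) = ∑ i, f (a i))
    (hn : f (-1) = -1) : W F →+* R :=
  Ideal.Quotient.lift _ (MonoidAlgebra.lift ℤ R Fˣ f).toRingHom (by
    intro x hx
    have : wittRel F ≤ RingHom.ker (MonoidAlgebra.lift ℤ R Fˣ f).toRingHom := by
      rw [wittRel, Ideal.span_le]
      rintro x (⟨n, a, b, hab, rfl⟩ | rfl)
      · obtain ⟨P, hP⟩ := matrix_of_equivalent h2 b a hab
        have := hf n b a P hP
        simp [sym, this]
      · simp [sym, hn]
    exact this hx)

lemma lift_cls {R : Type*} [CommRing R] (f : Fˣ →* R) (h2 : (2 : F) ≠ 0) (hf) (hn) (a : Fˣ) :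
    lift f h2 hf hn (cls a) = f a := by
  change (MonoidAlgebra.lift ℤ R Fˣ f).toRingHom (MonoidAlgebra.of ℤ Fˣ a) = _
  simp

/-- `cls` as a monoid homomorphism. -/
noncomputable def clsHom (F : Type u) [Field F] : Fˣ →* W F where
  toFun := cls
  map_one' := cls_one
  map_mul' := cls_mul

/-- Scalar extension along a field homomorphism. -/
noncomputable def map {K : Type*} [Field K] (φ : F →+* K) (h2 : (2 : F) ≠ 0) : W F →+* W K :=
  lift (R := W K) ((clsHom K).comp (Units.map φ.toMonoidHom)) h2
    (fun n a b P hP => by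
      apply sum_cls_eq_of_matrix (fun i => Units.map φ.toMonoidHom (a i))
        (fun i => Units.map φ.toMonoidHom (b i)) (P.map φ)
      have := congrArg (fun M : Matrix (Fin n) (Fin n) F => M.map φ) hP
      simp only [Matrix.map_mul] at this
      rw [Matrix.diagonal_map (map_zero φ), Matrix.diagonal_map (map_zero φ),
        Matrix.transpose_map] at this
      exact this)
    (by
      have : Units.map φ.toMonoidHom (-1) = -1 := by ext; simp
      change cls (Units.map φ.toMonoidHom (-1)) = _
      rw [this, cls_neg_one])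

lemma map_cls {K : Type*} [Field K] (φ : F →+* K) (h2 : (2 : F) ≠ 0) (a : Fˣ) :
    map φ h2 (cls a) = cls (Units.map φ.toMonoidHom a) := by
  rw [map, lift_cls]; rfl

lemma map_fundIdeal_le {K : Type*} [Field K] (φ : F →+* K) (h2 : (2 : F) ≠ 0) :
    (fundIdeal F).map (map φ h2) ≤ fundIdeal K := by
  rw [fundIdeal_eq, Ideal.map_span, Ideal.span_le]
  rintro _ ⟨_, ⟨a, rfl⟩, rfl⟩
  simp only [map_sub, map_one, map_cls]
  exact one_sub_cls_mem _

lemma eq_one_of_character (h2 : (2 : F) ≠ 0) (h : fundIdeal F = ⊥) {R : Type*} [CommRing R]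
    (f : Fˣ →* R) (hf : ∀ x y, (1 - f x) * (1 - f y) = 0) (hsq : ∀ x, f x * f x = 1)
    (hn : f (-1) = -1) (a : Fˣ) : f a = 1 := by
  have hsum : ∀ (n : ℕ) (c : Fin n → Fˣ), ∑ i, f (c i) = n - 1 + f (∏ i, c i) := by
    intro n c
    induction n with
    | zero => simp
    | succ n ih =>
      rw [Fin.sum_univ_succ, Fin.prod_univ_succ, ih, map_mul]
      push_cast
      linear_combination - hf (c 0) (∏ i : Fin n, c i.succ)
  have hl : ∀ (n : ℕ) (a b : Fin n → Fˣ) (P : Matrix (Fin n) (Fin n) F),
      Pᵀ * diagonal (fun i => (a i : F)) * P = diagonal (fun i => (b i : F)) →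
        ∑ i, f (b i) = ∑ i, f (a i) := by
    intro n a b P hP
    have hd := congrArg Matrix.det hP
    simp only [det_mul, det_transpose, det_diagonal] at hd
    have h0 : P.det ≠ 0 := by
      intro h0
      rw [h0] at hd
      simp only [zero_mul] at hd
      exact (Finset.prod_ne_zero_iff.2 fun i _ => (b i).ne_zero) hd.symm
    have : ∏ i, b i = Units.mk0 _ h0 * (∏ i, a i) * Units.mk0 _ h0 := by
      ext; simp [hd]
    rw [hsum, hsum, this, map_mul, map_mul]
    linear_combination f (∏ i, a i) * hsq (Units.mk0 _ h0)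
  have h1 := one_sub_cls_mem a
  rw [h, Ideal.mem_bot] at h1
  have := congrArg (lift f h2 hl hn) h1
  rw [map_sub, map_one, lift_cls, map_zero] at this
  linear_combination -this

/-- If the fundamental ideal vanishes, every element is a square. -/
lemma isSquare_of_fundIdeal_eq_bot (h2 : (2 : F) ≠ 0) (h : fundIdeal F = ⊥) (a : F) :
    IsSquare a := by
  classical
  by_contra ha
  have ha0 : a ≠ 0 := by rintro rfl; exact ha IsSquare.zero
  obtain ⟨ε, hε⟩ : ∃ ε : Additive Fˣ →+ ZMod 2, ε (Additive.ofMul (Units.mk0 a ha0)) ≠ 0 := by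
    let N : AddSubgroup (Additive Fˣ) := (nsmulAddMonoidHom 2 : Additive Fˣ →+ Additive Fˣ).range
    let _ : Module (ZMod 2) (Additive Fˣ ⧸ N) := QuotientAddGroup.zmodModule
      (fun x => ⟨x, rfl⟩)
    have hne : (QuotientAddGroup.mk (Additive.ofMul (Units.mk0 a ha0)) : Additive Fˣ ⧸ N) ≠ 0 := by
      intro h0
      obtain ⟨x, hx⟩ := (QuotientAddGroup.eq_zero_iff _).1 h0
      apply ha
      refine ⟨(x.toMul : Fˣ), ?_⟩
      have := congrArg (fun y : Additive Fˣ => ((y.toMul : Fˣ) : F)) hx
      simp only [nsmulAddMonoidHom_apply, toMul_nsmul, toMul_ofMul, Units.val_mk0,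
        Units.val_pow_eq_pow_val] at this
      rw [← this, sq]
    obtain ⟨g, hg⟩ := Module.Projective.exists_dual_ne_zero (V := Additive Fˣ ⧸ N) (ZMod 2) hne
    exact ⟨g.toAddMonoidHom.comp (QuotientAddGroup.mk' N), hg⟩
  have main : ∀ (R : Type) [CommRing R] (σ : R), σ * σ = 1 → 2 * σ = 2 →
      (if ε (Additive.ofMul (-1)) = 0 then (1 : R) else σ) = -1 → σ = 1 := by
    intro R _ σ h1 h3 h4
    let f : Fˣ →* R :=
      { toFun := fun x => if ε (Additive.ofMul x) = 0 then 1 else σ
        map_one' := by simp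
        map_mul' := by
          intro x y
          rw [ofMul_mul, map_add]
          generalize ε (Additive.ofMul x) = s
          generalize ε (Additive.ofMul y) = t
          have hz : ∀ z : ZMod 2, z = 0 ∨ z = 1 := by decide
          have h11 : (1 : ZMod 2) + 1 = 0 := by decide
          rcases hz s with rfl | rfl <;> rcases hz t with rfl | rfl <;> simp [h1, h11] }
    have hf : ∀ x, f x = 1 ∨ f x = σ := fun x => by
      change (if _ then _ else _) = _ ∨ (if _ then _ else _) = _
      split_ifs <;> simp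
    have := eq_one_of_character h2 h f
      (fun x y => by
        rcases hf x with hx | hx <;> rcases hf y with hy | hy <;> rw [hx, hy]
        · simp
        · simp
        · simp
        · linear_combination h1 - h3)
      (fun x => by rcases hf x with hx | hx <;> rw [hx] <;> simp [h1]) h4 (Units.mk0 a ha0)
    change (if _ then _ else _) = _ at this
    rwa [if_neg hε] at this
  by_cases hm : ε (Additive.ofMul (-1)) = 0
  · have := main (DualNumber (ZMod 2)) (1 + DualNumber.eps) (by ext <;> simp; decide)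
      (by
        have h3 : (2 : DualNumber (ZMod 2)) = 1 + 1 := by norm_num
        rw [h3]; ext <;> simp; decide)
      (by rw [if_pos hm]; ext <;> simp)
    have := congrArg TrivSqZeroExt.snd this
    simp at this
  · have := main (ZMod 4) (-1) (by decide) (by decide) (by rw [if_neg hm])
    revert this
    decide

end Pool.Agent.Shared.WittRing
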