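import Mathlib

/-!
Legendre three-square theorem (sufficiency): every natural number that is 1 or 2 mod 4, or 3 mod 8,
is a sum of three squares.  Route: Dirichlet primes, a pigeonhole solution of a Legendre conic,
and the Aubry-Davenport-Cassels descent.
-/

set_option autoImplicit false

namespace Pool.Agent.Shared.ThreeSquares

lemma near (x : ℤ) (W : ℤ) (hW : 0 < W) : ∃ a : ℤ, 4 * (x - a * W) ^ 2 ≤ W ^ 2 := by
  refine ⟨(2 * x + W) / (2 * W), ?_⟩
  have h1 := Int.emod_nonneg (2 * x + W) (show (2 * W) ≠ 0 by omega)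
  have h2 := Int.emod_lt_of_pos (2 * x + W) (show 0 < 2 * W by omega)
  have h3 := Int.mul_ediv_add_emod (2 * x + W) (2 * W)
  set q := (2 * x + W) / (2 * W)
  set r := (2 * x + W) % (2 * W)
  have h4 : 2 * (x - q * W) = r - W := by linarith
  have h5 : 4 * (x - q * W) ^ 2 = (r - W) ^ 2 := by rw [← h4]; ring
  rw [h5]
  nlinarith

/-- Aubry-Davenport-Cassels descent for three squares. -/
lemma descent (n : ℤ) : ∀ (W : ℕ), 0 < W → ∀ x y z : ℤ, x ^ 2 + y ^ 2 + z ^ 2 = n * (W : ℤ) ^ 2 →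
    ∃ a b c : ℤ, a ^ 2 + b ^ 2 + c ^ 2 = n := by
  intro W
  induction W using Nat.strong_induction_on with
  | _ W ih =>
    intro hW x y z h
    have hW' : (0 : ℤ) < W := by exact_mod_cast hW
    obtain ⟨a, ha⟩ := near x W hW'
    obtain ⟨b, hb⟩ := near y W hW'
    obtain ⟨c, hc⟩ := near z W hW'
    set V : ℤ := W * (a ^ 2 + b ^ 2 + c ^ 2) + n * W - 2 * (x * a + y * b + z * c) with hV
    have key : (x - a * W) ^ 2 + (y - b * W) ^ 2 + (z - c * W) ^ 2 = W * V := by
      rw [hV]; linear_combination h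
    have hV0 : 0 ≤ V := by
      by_contra hneg
      push Not at hneg
      have : (W : ℤ) * V < 0 := mul_neg_of_pos_of_neg hW' hneg
      nlinarith [sq_nonneg (x - a * W), sq_nonneg (y - b * W), sq_nonneg (z - c * W)]
    have hVW : V < W := by
      by_contra hge
      push Not at hge
      have : (W : ℤ) * W ≤ W * V := mul_le_mul_of_nonneg_left hge hW'.le
      nlinarith
    rcases hV0.eq_or_lt with h0 | hpos
    · have h1 : (x - a * W) ^ 2 + (y - b * W) ^ 2 + (z - c * W) ^ 2 = 0 := by rw [key, ← h0]; ring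
      have hx : x - a * W = 0 := by
        nlinarith [sq_nonneg (x - a * W), sq_nonneg (y - b * W), sq_nonneg (z - c * W)]
      have hy : y - b * W = 0 := by
        nlinarith [sq_nonneg (x - a * W), sq_nonneg (y - b * W), sq_nonneg (z - c * W)]
      have hz : z - c * W = 0 := by
        nlinarith [sq_nonneg (x - a * W), sq_nonneg (y - b * W), sq_nonneg (z - c * W)]
      refine ⟨a, b, c, ?_⟩
      have hx' : x = a * W := by linarith
      have hy' : y = b * W := by linarith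
      have hz' : z = c * W := by linarith
      have h2 : (a ^ 2 + b ^ 2 + c ^ 2) * (W : ℤ) ^ 2 = n * (W : ℤ) ^ 2 := by
        rw [← h, hx', hy', hz']; ring
      exact mul_right_cancel₀ (by positivity) h2
    · obtain ⟨V', hV'⟩ := Int.eq_ofNat_of_zero_le hV0
      have hlt : V' < W := by rw [hV'] at hVW; exact_mod_cast hVW
      have hp : 0 < V' := by rw [hV'] at hpos; exact_mod_cast hpos
      set A : ℤ := a ^ 2 + b ^ 2 + c ^ 2 - n
      set B : ℤ := 2 * (n * W - (x * a + y * b + z * c))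
      refine ih V' hlt hp (A * x + B * a) (A * y + B * b) (A * z + B * c) ?_
      rw [← hV', hV]
      simp only [A, B]
      linear_combination (a ^ 2 + b ^ 2 + c ^ 2 - n) ^ 2 * h

lemma dvd_congr' {a b b' : ℤ} (h : a ∣ b) (e : b = b') : a ∣ b' := e ▸ h

/-- Pigeonhole: a small nonzero solution of two congruences. -/
lemma thue3 (n c : ℕ) (hn : 0 < n) (hc : 0 < c) (r : ℤ) :
    ∃ z w u : ℤ, (z ≠ 0 ∨ w ≠ 0 ∨ u ≠ 0) ∧ z ^ 2 ≤ n * c ∧ w ^ 2 ≤ c ∧ u ^ 2 ≤ n ∧
      (n : ℤ) ∣ z - u ∧ (c : ℤ) ∣ z - r * w := by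
  have : NeZero n := ⟨hn.ne'⟩
  have : NeZero c := ⟨hc.ne'⟩
  set A := Nat.sqrt (n * c)
  set B := Nat.sqrt c
  set C := Nat.sqrt n
  let f : Fin (A + 1) × Fin (B + 1) × Fin (C + 1) → ZMod n × ZMod c :=
    fun t => ((((t.1 : ℕ) : ℤ) - ((t.2.2 : ℕ) : ℤ) : ℤ), (((t.1 : ℕ) : ℤ) - r * ((t.2.1 : ℕ) : ℤ) : ℤ))
  have hcard : Fintype.card (ZMod n × ZMod c) <
      Fintype.card (Fin (A + 1) × Fin (B + 1) × Fin (C + 1)) := by
    simp only [Fintype.card_prod, ZMod.card, Fintype.card_fin]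
    have h1 : n * c < (A + 1) * (A + 1) := Nat.lt_succ_sqrt (n * c)
    have h2 : c < (B + 1) * (B + 1) := Nat.lt_succ_sqrt c
    have h3 : n < (C + 1) * (C + 1) := Nat.lt_succ_sqrt n
    have h4 : n * c < ((B + 1) * (C + 1)) * ((B + 1) * (C + 1)) := by
      calc n * c < ((C + 1) * (C + 1)) * ((B + 1) * (B + 1)) :=
            Nat.mul_lt_mul'' h3 h2
        _ = _ := by ring
    by_contra hle
    push Not at hle
    have h5 : ((A + 1) * ((B + 1) * (C + 1))) * ((A + 1) * ((B + 1) * (C + 1))) ≤ (n * c) * (n * c) :=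
      Nat.mul_le_mul hle hle
    have h6 : (n * c) * (n * c) < ((A + 1) * (A + 1)) * (((B + 1) * (C + 1)) * ((B + 1) * (C + 1))) :=
      Nat.mul_lt_mul'' h1 h4
    have h7 : ((A + 1) * ((B + 1) * (C + 1))) * ((A + 1) * ((B + 1) * (C + 1))) =
        ((A + 1) * (A + 1)) * (((B + 1) * (C + 1)) * ((B + 1) * (C + 1))) := by ring
    omega
  obtain ⟨s, t, hne, hst⟩ := Fintype.exists_ne_map_eq_of_card_lt f hcard
  have bound : ∀ (m : ℕ) (i j : Fin (Nat.sqrt m + 1)), (((i : ℕ) : ℤ) - ((j : ℕ) : ℤ)) ^ 2 ≤ m := by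
    intro m i j
    have hi : ((i : ℕ) : ℤ) ≤ Nat.sqrt m := by have := i.2; exact_mod_cast (by omega : (i : ℕ) ≤ _)
    have hj : ((j : ℕ) : ℤ) ≤ Nat.sqrt m := by have := j.2; exact_mod_cast (by omega : (j : ℕ) ≤ _)
    have hm : ((Nat.sqrt m : ℕ) : ℤ) * (Nat.sqrt m : ℕ) ≤ m := by exact_mod_cast Nat.sqrt_le m
    have hi0 : (0 : ℤ) ≤ (i : ℕ) := by positivity
    have hj0 : (0 : ℤ) ≤ (j : ℕ) := by positivity
    nlinarith
  refine ⟨((s.1 : ℕ) : ℤ) - (t.1 : ℕ), ((s.2.1 : ℕ) : ℤ) - (t.2.1 : ℕ), ((s.2.2 : ℕ) : ℤ) - (t.2.2 : ℕ),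
    ?_, ?_, bound c _ _, bound n _ _, ?_, ?_⟩
  · by_contra hall
    push Not at hall
    obtain ⟨h1, h2, h3⟩ := hall
    apply hne
    refine Prod.ext (Fin.ext ?_) (Prod.ext (Fin.ext ?_) (Fin.ext ?_)) <;> omega
  · have := bound (n * c) s.1 t.1
    exact_mod_cast this
  · have h1 := congrArg Prod.fst hst
    simp only [f] at h1
    rw [ZMod.intCast_eq_intCast_iff_dvd_sub] at h1
    have := dvd_neg.mpr h1
    refine (dvd_congr' this ?_)
    ring
  · have h1 := congrArg Prod.snd hst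
    simp only [f] at h1
    rw [ZMod.intCast_eq_intCast_iff_dvd_sub] at h1
    have := dvd_neg.mpr h1
    refine (dvd_congr' this ?_)
    ring

/-- Core step: an auxiliary non-square sum of two squares `c` with `c = -1 mod n` and `n` a square
mod `c` makes `n` a sum of three squares. -/
lemma core (n c : ℕ) (hn : 0 < n) (hc : 0 < c) (hsq : ¬ IsSquare c) (h1 : n ∣ c + 1) (r : ℤ)
    (hr : (c : ℤ) ∣ r ^ 2 - n) (a b : ℤ) (hab : (c : ℤ) = a ^ 2 + b ^ 2) :
    ∃ x y z : ℤ, x ^ 2 + y ^ 2 + z ^ 2 = n := by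
  obtain ⟨z, w, u, hne, hz, hw, hu, d1, d2⟩ := thue3 n c hn hc r
  have hn' : (0 : ℤ) < n := by exact_mod_cast hn
  have hc' : (0 : ℤ) < c := by exact_mod_cast hc
  have h1' : (n : ℤ) ∣ (c : ℤ) + 1 := by exact_mod_cast h1
  have hcop : IsCoprime (n : ℤ) (c : ℤ) := by
    obtain ⟨k, hk⟩ := h1'
    exact ⟨k, -1, by linarith⟩
  have hw' : w ^ 2 < c := by
    rcases hw.eq_or_lt with h | h
    · exfalso; apply hsq
      refine ⟨w.natAbs, ?_⟩
      have : ((w.natAbs * w.natAbs : ℕ) : ℤ) = c := by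
        rw [Int.natAbs_mul_self]; linarith
      exact_mod_cast this.symm
    · exact h
  set V : ℤ := z ^ 2 + c * u ^ 2 - n * w ^ 2 with hV
  have dn : (n : ℤ) ∣ V := by
    have e : V = (z - u) * (z + u) + (c + 1) * u ^ 2 - n * w ^ 2 := by rw [hV]; ring
    rw [e]
    exact dvd_sub (dvd_add (d1.mul_right _) (h1'.mul_right _)) (dvd_mul_right _ _)
  have dc : (c : ℤ) ∣ V := by
    have e : V = (z - r * w) * (z + r * w) + (r ^ 2 - n) * w ^ 2 + c * u ^ 2 := by rw [hV]; ring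
    rw [e]
    exact dvd_add (dvd_add (d2.mul_right _) (hr.mul_right _)) (dvd_mul_right _ _)
  obtain ⟨k, hk⟩ := hcop.mul_dvd dn dc
  have hnc : (0 : ℤ) < n * c := mul_pos hn' hc'
  have hlow : -(n * c : ℤ) < V := by
    have : (n : ℤ) * w ^ 2 < n * c := mul_lt_mul_of_pos_left hw' hn'
    have : (0 : ℤ) ≤ c * u ^ 2 := by positivity
    nlinarith [sq_nonneg z]
  have hup : V < 2 * (n * c) := by
    have e1 : (c : ℤ) * u ^ 2 ≤ c * n := mul_le_mul_of_nonneg_left hu hc'.le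
    have e2 : (0 : ℤ) ≤ n * w ^ 2 := by positivity
    by_contra hge
    push Not at hge
    have hz' : z ^ 2 = n * c := by nlinarith
    have hu' : (c : ℤ) * u ^ 2 = c * n := by nlinarith
    have hu'' : u ^ 2 = n := mul_left_cancel₀ hc'.ne' hu'
    have hu0 : u ≠ 0 := by rintro rfl; simp at hu''; omega
    have hdv : u ^ 2 ∣ z ^ 2 := ⟨c, by rw [hz', hu'']⟩
    obtain ⟨t, ht⟩ := (Int.pow_dvd_pow_iff (by norm_num : 2 ≠ 0)).mp hdv
    apply hsq
    refine ⟨t.natAbs, ?_⟩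
    have e3 : u ^ 2 * (t * t) = u ^ 2 * c := by rw [hu'', ← hz', ht, ← hu'']; ring
    have e4 : t * t = c := mul_left_cancel₀ (pow_ne_zero 2 hu0) e3
    have : ((t.natAbs * t.natAbs : ℕ) : ℤ) = c := by rw [Int.natAbs_mul_self]; exact e4
    exact_mod_cast this.symm
  have hk0 : -1 < k := by
    by_contra h; push Not at h
    nlinarith
  have hk2 : k < 2 := by
    by_contra h; push Not at h
    nlinarith
  have hk01 : k = 0 ∨ k = 1 := by omega
  rcases hk01 with rfl | rfl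
  · have e : z ^ 2 + c * u ^ 2 = n * w ^ 2 := by linarith
    have hw0 : w ≠ 0 := by
      rintro rfl
      have e2 : (0 : ℤ) ≤ c * u ^ 2 := by positivity
      have hz0 : z = 0 := by nlinarith [sq_nonneg z]
      have hu0 : (c : ℤ) * u ^ 2 = 0 := by nlinarith [sq_nonneg z]
      have hu1 : u = 0 := by
        rcases mul_eq_zero.mp hu0 with h | h
        · omega
        · exact pow_eq_zero_iff (by norm_num) |>.mp h
      simp [hz0, hu1] at hne
    refine descent n w.natAbs (Int.natAbs_pos.mpr hw0) z (a * u) (b * u) ?_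
    rw [Int.natAbs_sq, ← e, hab]; ring
  · have e : z ^ 2 + c * u ^ 2 = n * (w ^ 2 + c) := by linarith
    have hp : 0 < w ^ 2 + c := by positivity
    refine descent n (w ^ 2 + c).natAbs (Int.natAbs_pos.mpr hp.ne') (z * w - c * u)
      (a * (z + u * w)) (b * (z + u * w)) ?_
    rw [Int.natAbs_sq]
    linear_combination (w ^ 2 + c) * e - (z + u * w) ^ 2 * hab

lemma not_isSquare_two_mul {p : ℕ} (hp : p % 2 = 1) : ¬ IsSquare (2 * p) := by
  rintro ⟨t, ht⟩
  have h2 : t % 2 = 0 := by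
    rcases Nat.mod_two_eq_zero_or_one t with h | h
    · exact h
    · have : (t * t) % 2 = 1 := by rw [Nat.mul_mod, h]
      omega
  obtain ⟨s, rfl⟩ : 2 ∣ t := Nat.dvd_of_mod_eq_zero h2
  have : 2 * p = 4 * (s * s) := by rw [ht]; ring
  omega

/-- From a Jacobi symbol equal to one at a prime to a square root. -/
lemma exists_root {p : ℕ} (hp : p.Prime) (n : ℕ) (h : jacobiSym n p = 1) :
    ∃ r : ℤ, (p : ℤ) ∣ r ^ 2 - n := by
  have := Fact.mk hp
  have h1 : IsSquare (((n : ℤ)) : ZMod p) := ZMod.isSquare_of_jacobiSym_eq_one h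
  obtain ⟨r, hr⟩ := h1
  refine ⟨(r.val : ℤ), ?_⟩
  rw [← ZMod.intCast_zmod_eq_zero_iff_dvd]
  push_cast at hr ⊢
  simp [hr, sq]

/-- A prime with prescribed residues modulo 8 and modulo an odd number. -/
lemma exists_prime (m : ℕ) (hm : m % 2 = 1) (e : ℕ) (he : e % 2 = 1) (s : ℕ) (hs : s.Coprime m) :
    ∃ p : ℕ, p.Prime ∧ p % 8 = e % 8 ∧ p ≡ s [MOD m] := by
  have hco : Nat.Coprime 8 m := by
    have : Nat.Coprime 2 m := (Nat.coprime_two_left).mpr (Nat.odd_iff.mpr hm)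
    exact Nat.Coprime.pow_left 3 this
  obtain ⟨a, ha1, ha2⟩ := Nat.chineseRemainder hco e s
  have hm0 : 8 * m ≠ 0 := by omega
  have hac : a.Coprime (8 * m) := by
    refine Nat.Coprime.mul_right ?_ ?_
    · have h2 : Nat.Coprime a 2 := by
        rw [Nat.coprime_two_right, Nat.odd_iff]
        have : a % 8 = e % 8 := ha1
        omega
      exact Nat.Coprime.pow_right 3 h2
    · rw [Nat.Coprime, ha2.gcd_eq]; exact hs
  obtain ⟨p, -, hp, hpa⟩ := Nat.forall_exists_prime_gt_and_modEq 0 hm0 hac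
  refine ⟨p, hp, ?_, ?_⟩
  · exact (hpa.of_mul_right m).trans ha1
  · exact (hpa.of_mul_left 8).trans ha2

lemma jac_neg_one {m p : ℕ} (h : m ∣ p + 1) : jacobiSym p m = jacobiSym (-1) m := by
  apply jacobiSym.mod_left'
  have h' : (m : ℤ) ∣ (p : ℤ) + 1 := by exact_mod_cast h
  exact (Int.emod_emod_of_dvd _ dvd_rfl).symm.trans
    (by
      have : (p : ℤ) ≡ -1 [ZMOD m] := (Int.modEq_iff_dvd.mpr (by
        have := dvd_neg.mpr h'
        refine dvd_congr' this ?_; ring))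
      rw [Int.emod_emod_of_dvd _ dvd_rfl]; exact this)

lemma dvd_succ_of_modEq {m p : ℕ} (hm : 0 < m) (h : p ≡ m - 1 [MOD m]) : m ∣ p + 1 := by
  have h1 : p + 1 ≡ (m - 1) + 1 [MOD m] := h.add_right 1
  rw [Nat.sub_add_cancel hm] at h1
  exact (Nat.modEq_zero_iff_dvd).mp (h1.trans (Nat.modEq_zero_iff_dvd.mpr dvd_rfl))

lemma coprime_pred {m : ℕ} (hm : 0 < m) : (m - 1).Coprime m := by
  obtain ⟨k, rfl⟩ : ∃ k, m = k + 1 := ⟨m - 1, by omega⟩
  simp

/-- Legendre three-square theorem, integer form. -/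
theorem three_squares_int (n : ℕ) (h : n % 4 = 1 ∨ n % 4 = 2 ∨ n % 8 = 3) :
    ∃ x y z : ℤ, x ^ 2 + y ^ 2 + z ^ 2 = n := by
  have hn : 0 < n := by omega
  rcases h with h | h | h
  · obtain ⟨p, hp, hp8, hpn⟩ := exists_prime n (by omega) 1 (by norm_num) (n - 1) (coprime_pred hn)
    have := Fact.mk hp
    have hd := dvd_succ_of_modEq hn hpn
    have hj : jacobiSym n p = 1 := by
      rw [← jacobiSym.quadratic_reciprocity_one_mod_four (by omega : p % 4 = 1)
        (Nat.odd_iff.mpr (by omega)), jac_neg_one hd,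
        jacobiSym.at_neg_one (Nat.odd_iff.mpr (by omega)), ZMod.χ₄_nat_one_mod_four h]
    obtain ⟨r, hr⟩ := exists_root hp n hj
    obtain ⟨a, b, hab⟩ := Nat.Prime.sq_add_sq (p := p) (by omega)
    exact core n p hn hp.pos hp.prime.not_isSquare hd r hr a b (by exact_mod_cast hab.symm)
  · obtain ⟨m, rfl⟩ : ∃ m, n = 2 * m := ⟨n / 2, by omega⟩
    have hm : m % 2 = 1 := by omega
    have hm0 : 0 < m := by omega
    obtain ⟨p, hp, hp8, hpn⟩ := exists_prime m hm (if m % 4 = 1 then 1 else 5)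
      (by split_ifs <;> norm_num) (m - 1) (coprime_pred hm0)
    have := Fact.mk hp
    have hd := dvd_succ_of_modEq hm0 hpn
    have hp4 : p % 4 = 1 := by split_ifs at hp8 <;> omega
    have hpo : Odd p := Nat.odd_iff.mpr (by omega)
    have hj : jacobiSym ((2 * m : ℕ) : ℤ) p = 1 := by
      push_cast
      rw [jacobiSym.mul_left, ← jacobiSym.quadratic_reciprocity_one_mod_four hp4
        (Nat.odd_iff.mpr hm), jac_neg_one hd, jacobiSym.at_neg_one (Nat.odd_iff.mpr hm),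
        jacobiSym.at_two hpo, ZMod.χ₈_nat_eq_if_mod_eight]
      by_cases h1 : m % 4 = 1
      · rw [if_pos h1] at hp8
        rw [ZMod.χ₄_nat_one_mod_four h1, if_neg (by omega), if_pos (by omega)]; norm_num
      · rw [if_neg h1] at hp8
        rw [ZMod.χ₄_nat_three_mod_four (by omega), if_neg (by omega), if_neg (by omega)]; norm_num
    obtain ⟨r, hr⟩ := exists_root hp (2 * m) hj
    obtain ⟨a, b, hab⟩ := Nat.Prime.sq_add_sq (p := p) (by omega)
    have hd2 : 2 * m ∣ p + 1 := by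
      refine Nat.Coprime.mul_dvd_of_dvd_of_dvd ?_ (by omega) hd
      exact (Nat.coprime_two_left).mpr (Nat.odd_iff.mpr hm)
    exact core (2 * m) p hn hp.pos hp.prime.not_isSquare hd2 r hr a b (by exact_mod_cast hab.symm)
  · have hno : Odd n := Nat.odd_iff.mpr (by omega)
    obtain ⟨s, hs⟩ : ∃ s, n = 2 * s + 1 := ⟨n / 2, by omega⟩
    have hsc : s.Coprime n := by rw [hs]; simp [Nat.Coprime]
    obtain ⟨p, hp, hp8, hpn⟩ := exists_prime n (by omega) 1 (by norm_num) s hsc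
    have := Fact.mk hp
    have hd : n ∣ 2 * p + 1 := by
      have h1 : 2 * p + 1 ≡ 2 * s + 1 [MOD n] := (hpn.mul_left 2).add_right 1
      rw [← hs] at h1
      exact (Nat.modEq_zero_iff_dvd).mp (h1.trans (Nat.modEq_zero_iff_dvd.mpr dvd_rfl))
    have hj : jacobiSym n p = 1 := by
      rw [← jacobiSym.quadratic_reciprocity_one_mod_four (by omega : p % 4 = 1) hno]
      have h1 := jac_neg_one hd
      push_cast at h1
      rw [jacobiSym.mul_left, jacobiSym.at_neg_one hno, jacobiSym.at_two hno,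
        ZMod.χ₈_nat_eq_if_mod_eight, ZMod.χ₄_nat_three_mod_four (by omega), if_neg (by omega),
        if_neg (by omega)] at h1
      linarith
    obtain ⟨r, hr⟩ := exists_root hp n hj
    obtain ⟨a, b, hab⟩ := Nat.Prime.sq_add_sq (p := p) (by omega)
    have hab' : (p : ℤ) = a ^ 2 + b ^ 2 := by exact_mod_cast hab.symm
    have hpo : (p : ℤ) % 2 = 1 := by omega
    have hn2 : (n : ℤ) % 2 = 1 := by omega
    have hcop : IsCoprime (2 : ℤ) (p : ℤ) := by
      rw [Int.isCoprime_iff_gcd_eq_one]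
      have : Nat.Coprime 2 p := (Nat.coprime_two_left).mpr (Nat.odd_iff.mpr (by omega))
      exact_mod_cast this
    obtain ⟨r', hr1, hr2⟩ : ∃ r' : ℤ, r' % 2 = 1 ∧ (p : ℤ) ∣ r' ^ 2 - n := by
      rcases Int.emod_two_eq_zero_or_one r with h0 | h0
      · refine ⟨r + p, by omega, ?_⟩
        have e : (r + p) ^ 2 - n = (r ^ 2 - n) + p * (2 * r + p) := by ring
        rw [e]; exact dvd_add hr (dvd_mul_right _ _)
      · exact ⟨r, h0, hr⟩
    have h2 : (2 : ℤ) ∣ r' ^ 2 - n := by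
      obtain ⟨t, rfl⟩ : ∃ t, r' = 2 * t + 1 := ⟨r' / 2, by omega⟩
      have e : (2 * t + 1) ^ 2 = 4 * (t * t + t) + 1 := by ring
      rw [e]; omega
    refine core n (2 * p) hn (by have := hp.pos; omega) (not_isSquare_two_mul (by omega)) hd r' ?_
      (a + b) (a - b) ?_
    · push_cast; exact hcop.mul_dvd h2 hr2
    · push_cast; rw [hab']; ring

/-- Legendre three-square theorem. -/
theorem three_squares (n : ℕ) (h : n % 4 = 1 ∨ n % 4 = 2 ∨ n % 8 = 3) :
    ∃ x y z : ℕ, x ^ 2 + y ^ 2 + z ^ 2 = n := by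
  obtain ⟨x, y, z, e⟩ := three_squares_int n h
  refine ⟨x.natAbs, y.natAbs, z.natAbs, ?_⟩
  have : ((x.natAbs ^ 2 + y.natAbs ^ 2 + z.natAbs ^ 2 : ℕ) : ℤ) = n := by
    push_cast; simp only [sq_abs]; exact e
  exact_mod_cast this

end Pool.Agent.Shared.ThreeSquares
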