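import Pool.Agent.Lib.MP_ebcb3a_lc.Dpr

/-!
The theorem of Matiyasevich, Robinson, Davis and Putnam for Mathlib's `REPred`: every recursively
enumerable set of natural numbers is Diophantine.
-/

namespace Pool.Agent.Shared.MRDP

open Pool.Agent.HAEP

/-- The standard model of arithmetic. -/
def std : Mod where
  M := ⟨ℕ, 0, Nat.succ, (· + ·), (· * ·), fun _ f => f.elim⟩
  succ_ne_zero := Nat.succ_ne_zero
  succ_inj := fun _ _ => Nat.succ.inj
  add_zero := Nat.add_zero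
  add_succ := Nat.add_succ
  mul_zero := Nat.mul_zero
  mul_succ := Nat.mul_succ
  ind := fun _ _ h0 hs a => Nat.rec h0 hs a

abbrev Z : Type := ZZ std

theorem io_nat (n : ℕ) : io (M := std) n = (n : Z) := by
  induction n with
  | zero => exact (map_zero _).trans Nat.cast_zero.symm
  | succ n ih => rw [Nat.cast_succ, ← ih, ← map_one (io (M := std)), ← map_add]; rfl

theorem nonneg {z : Z} (h : 0 ≤ z) : ∃ n : ℕ, z = n := by
  obtain ⟨n, rfl⟩ := nonneg_iff.1 h
  exact ⟨n, io_nat n⟩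

variable {V W : Type}

/-- Polynomial functions of natural numbers. -/
def TN (f : (V → ℕ) → ℕ) : Prop := ∃ g, UT g ∧ ∀ ρ, (f ρ : Z) = g std fun v => (ρ v : Z)

/-- Diophantine relations between natural numbers. -/
def DN (R : (V → ℕ) → Prop) : Prop := ∃ P, UD P ∧ ∀ ρ, R ρ ↔ P std fun v => (ρ v : Z)

namespace TN

variable {f g : (V → ℕ) → ℕ}

theorem var (v : V) : TN fun ρ => ρ v := ⟨_, .var v, fun _ => rfl⟩
theorem zero : TN (V := V) fun _ => 0 := ⟨_, .zero, fun _ => Nat.cast_zero⟩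
theorem one : TN (V := V) fun _ => 1 := ⟨_, .one, fun _ => Nat.cast_one⟩
theorem add (hf : TN f) (hg : TN g) : TN fun ρ => f ρ + g ρ := by
  obtain ⟨a, ha, e⟩ := hf; obtain ⟨b, hb, e'⟩ := hg
  exact ⟨_, ha.add hb, fun ρ => by rw [Nat.cast_add, e, e']⟩
theorem mul (hf : TN f) (hg : TN g) : TN fun ρ => f ρ * g ρ := by
  obtain ⟨a, ha, e⟩ := hf; obtain ⟨b, hb, e'⟩ := hg
  exact ⟨_, ha.mul hb, fun ρ => by rw [Nat.cast_mul, e, e']⟩

end TN

namespace DN

variable {f g : (V → ℕ) → ℕ} {P Q : (V → ℕ) → Prop}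

theorem of_iff (h : DN P) (e : ∀ ρ, Q ρ ↔ P ρ) : DN Q := by
  rwa [show Q = P from funext fun ρ => propext (e ρ)]

theorem eq (hf : TN f) (hg : TN g) : DN fun ρ => f ρ = g ρ := by
  obtain ⟨a, ha, e⟩ := hf; obtain ⟨b, hb, e'⟩ := hg
  exact ⟨_, .eq ha hb, fun ρ => by rw [← e, ← e', Nat.cast_inj]⟩
theorem le (hf : TN f) (hg : TN g) : DN fun ρ => f ρ ≤ g ρ := by
  obtain ⟨a, ha, e⟩ := hf; obtain ⟨b, hb, e'⟩ := hg
  exact ⟨_, .le ha hb, fun ρ => by rw [← e, ← e', Nat.cast_le]⟩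
theorem lt (hf : TN f) (hg : TN g) : DN fun ρ => f ρ < g ρ := by
  obtain ⟨a, ha, e⟩ := hf; obtain ⟨b, hb, e'⟩ := hg
  exact ⟨_, .lt ha hb, fun ρ => by rw [← e, ← e', Nat.cast_lt]⟩
theorem and (h : DN P) (k : DN Q) : DN fun ρ => P ρ ∧ Q ρ := by
  obtain ⟨a, ha, e⟩ := h; obtain ⟨b, hb, e'⟩ := k
  exact ⟨_, ha.and hb, fun ρ => and_congr (e ρ) (e' ρ)⟩
theorem or (h : DN P) (k : DN Q) : DN fun ρ => P ρ ∨ Q ρ := by
  obtain ⟨a, ha, e⟩ := h; obtain ⟨b, hb, e'⟩ := k
  exact ⟨_, ha.or hb, fun ρ => or_congr (e ρ) (e' ρ)⟩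

theorem elim_eta {α : Type} (ρ : Option V → α) :
    (fun o : Option V => o.elim (ρ none) fun v => ρ (some v)) = ρ := by
  funext o; cases o <;> rfl

theorem elim_cast (x : ℕ) (ρ : V → ℕ) : (fun o : Option V => ((o.elim x ρ : ℕ) : Z)) =
    fun o : Option V => o.elim (x : Z) fun v => (ρ v : Z) := by
  funext o; cases o <;> rfl

theorem ex {R : ℕ → (V → ℕ) → Prop}
    (h : DN fun ρ : Option V → ℕ => R (ρ none) fun v => ρ (some v)) : DN fun ρ => ∃ x, R x ρ := by
  obtain ⟨P, hP, e⟩ := h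
  refine ⟨_, UD.ex (R := fun M x ρ => 0 ≤ x ∧ P M fun o => o.elim x ρ)
    (((UD.le .zero (.var none)).and hP).of_iff fun M ρ => by rw [elim_eta]), fun ρ => ?_⟩
  constructor
  · rintro ⟨x, hx⟩
    exact ⟨x, Nat.cast_nonneg x, elim_cast x ρ ▸ (e fun o => o.elim x ρ).1 hx⟩
  · rintro ⟨x, h0, hx⟩
    obtain ⟨x, rfl⟩ := nonneg h0
    exact ⟨x, (e fun o => o.elim x ρ).2 (elim_cast x ρ ▸ hx)⟩

theorem ball {R : ℕ → (V → ℕ) → Prop}
    (h : DN fun ρ : Option V → ℕ => R (ρ none) fun v => ρ (some v)) (hf : TN f) :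
    DN fun ρ => ∀ y < f ρ, R y ρ := by
  obtain ⟨P, hP, e⟩ := h
  obtain ⟨b, hb, e'⟩ := hf
  refine ⟨_, UD.ball (P := fun M x ρ => P M fun o => o.elim x ρ)
    (hP.of_iff fun M ρ => by rw [elim_eta]) hb, fun ρ => ?_⟩
  rw [← e']
  constructor
  · refine fun h => ⟨Nat.cast_nonneg _, fun y y0 hy => ?_⟩
    obtain ⟨y, rfl⟩ := nonneg y0
    exact elim_cast y ρ ▸ (e fun o => o.elim y ρ).1 (h y (Nat.cast_lt.1 hy))
  · exact fun h y hy => (e fun o => o.elim y ρ).2
      (elim_cast y ρ ▸ h.2 y (Nat.cast_nonneg _) (Nat.cast_lt.2 hy))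

theorem comp (h : DN P) (σ : V → (W → ℕ) → ℕ) (hσ : ∀ v, TN (σ v)) :
    DN fun ρ => P fun v => σ v ρ := by
  obtain ⟨P, hP, e⟩ := h
  choose g hg e' using hσ
  exact ⟨_, hP.comp g hg, fun ρ => by simp only [e, e']⟩

theorem pair {a b c : (V → ℕ) → ℕ} (ha : TN a) (hb : TN b) (hc : TN c) :
    DN fun ρ => c ρ = Nat.pair (a ρ) (b ρ) :=
  (((lt ha hb).and (eq hc ((hb.mul hb).add ha))).or
    ((le hb ha).and (eq hc (((ha.mul ha).add ha).add hb)))).of_iff fun ρ => by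
    unfold Nat.pair
    split_ifs with h
    · simp [h, not_le.2 h]
    · simp [h, not_lt.1 h]

/-- Goedel's beta function. -/
def bt (c d i : ℕ) : ℕ := c % ((i + 1) * d + 1)

theorem beta {x c d i : (V → ℕ) → ℕ} (hx : TN x) (hc : TN c) (hd : TN d) (hi : TN i) :
    DN fun ρ => x ρ = bt (c ρ) (d ρ) (i ρ) := by
  have k : DN fun ρ : Fin 4 → ℕ => ρ 0 < (ρ 3 + 1) * ρ 2 + 1 ∧
      ∃ q, ρ 1 = ((ρ 3 + 1) * ρ 2 + 1) * q + ρ 0 := by
    repeat' first
      | with_reducible apply DN.and | with_reducible apply DN.ex | with_reducible apply DN.eq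
      | with_reducible apply DN.lt | with_reducible apply TN.add | with_reducible apply TN.mul
      | exact TN.var _ | exact TN.one
  refine (k.comp ![x, c, d, i] fun v => by fin_cases v <;> assumption).of_iff fun ρ => ?_
  simp only [bt, Matrix.cons_val]
  constructor
  · intro h
    exact ⟨h ▸ Nat.mod_lt _ (Nat.succ_pos _), _, by rw [h]; exact (Nat.div_add_mod _ _).symm⟩
  · rintro ⟨h, q, e⟩
    rw [e, Nat.mul_add_mod, Nat.mod_eq_of_lt h]

theorem exists_bt (s : ℕ → ℕ) (n : ℕ) : ∃ c d, ∀ i ≤ n, bt c d i = s i := by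
  refine ⟨(Nat.unbeta (List.ofFn fun i : Fin (n + 1) => s i)).unpair.1,
    (Nat.unbeta (List.ofFn fun i : Fin (n + 1) => s i)).unpair.2, fun i hi => ?_⟩
  have := Nat.beta_unbeta_coe (List.ofFn fun i : Fin (n + 1) => s i) ⟨i, by simp; omega⟩
  rw [Fin.getElem_fin, List.getElem_ofFn] at this
  exact this

end DN

/-- The graph of `f` is Diophantine. -/
def Gr (f : ℕ →. ℕ) : Prop := DN fun ρ : Bool → ℕ => ρ true ∈ f (ρ false)

theorem Gr.ap {f : ℕ →. ℕ} (h : Gr f) {a b : (V → ℕ) → ℕ} (ha : TN a) (hb : TN b) :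
    DN fun ρ => b ρ ∈ f (a ρ) :=
  DN.comp h (fun v => cond v b a) fun v => by cases v <;> assumption

theorem mem_prec (f g : ℕ →. ℕ) (a n y : ℕ) :
    y ∈ (n.rec (f a) fun y IH => IH.bind fun i => g (Nat.pair a (Nat.pair y i)) : Part ℕ) ↔
      ∃ s : ℕ → ℕ, s 0 ∈ f a ∧ (∀ i < n, s (i + 1) ∈ g (Nat.pair a (Nat.pair i (s i)))) ∧
        y = s n := by
  induction n generalizing y with
  | zero => exact ⟨fun h => ⟨fun _ => y, h, by simp, rfl⟩, fun ⟨s, h, _, e⟩ => e ▸ h⟩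
  | succ n ih =>
    simp only [Part.mem_bind_iff, ih]
    constructor
    · rintro ⟨_, ⟨s, h0, hs, rfl⟩, hy⟩
      refine ⟨Function.update s (n + 1) y, by simpa using h0, fun i hi => ?_, by simp⟩
      rw [Function.update_of_ne (by omega : i ≠ n + 1)]
      rcases (Nat.lt_succ_iff.1 hi).lt_or_eq with h | rfl
      · rw [Function.update_of_ne (by omega)]; exact hs i h
      · simpa using hy
    · rintro ⟨s, h0, hs, rfl⟩
      exact ⟨_, ⟨s, h0, fun i hi => hs i (by omega), rfl⟩, hs n (by omega)⟩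

theorem gr_partrec {f : ℕ →. ℕ} (hf : Nat.Partrec f) : Gr f := by
  induction hf with
  | zero => exact (DN.eq (.var true) .zero).of_iff fun ρ => by simp [pure, PFun.pure]
  | succ => exact (DN.eq (.var true) ((TN.var false).add .one)).of_iff fun ρ => by simp
  | left =>
    refine (DN.ex (R := fun b ρ => ρ false = Nat.pair (ρ true) b)
      (DN.pair (.var _) (.var _) (.var _))).of_iff fun ρ => ?_
    simp only [PFun.coe_val, Part.mem_some_iff]
    exact ⟨fun h => ⟨_, by rw [h, Nat.pair_unpair]⟩, fun ⟨b, h⟩ => by simp [h]⟩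
  | right =>
    refine (DN.ex (R := fun b ρ => ρ false = Nat.pair b (ρ true))
      (DN.pair (.var _) (.var _) (.var _))).of_iff fun ρ => ?_
    simp only [PFun.coe_val, Part.mem_some_iff]
    exact ⟨fun h => ⟨_, by rw [h, Nat.pair_unpair]⟩, fun ⟨b, h⟩ => by simp [h]⟩
  | @pair f g _ _ hf hg =>
    refine DN.of_iff (P := fun ρ => ∃ a b, a ∈ f (ρ false) ∧ b ∈ g (ρ false) ∧
      ρ true = Nat.pair a b) (.ex (.ex ((hf.ap (.var _) (.var _)).and
        ((hg.ap (.var _) (.var _)).and (.pair (.var _) (.var _) (.var _)))))) fun ρ => ?_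
    simp [Seq.seq, eq_comm]
  | @comp f g _ _ hf hg =>
    refine DN.of_iff (P := fun ρ => ∃ a, a ∈ g (ρ false) ∧ ρ true ∈ f a)
      (.ex ((hg.ap (.var _) (.var _)).and (hf.ap (.var _) (.var _)))) fun ρ => ?_
    simp
  | @prec f g _ _ hf hg =>
    refine DN.of_iff (P := fun ρ => ∃ a n c d, ρ false = Nat.pair a n ∧
      (∃ x, x = DN.bt c d 0 ∧ x ∈ f a) ∧ (∀ i < n, ∃ x y u v, x = DN.bt c d i ∧
        y = DN.bt c d (i + 1) ∧ u = Nat.pair i x ∧ v = Nat.pair a u ∧ y ∈ g v) ∧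
        ρ true = DN.bt c d n) ?_ fun ρ => ?_
    · repeat' first
        | with_reducible apply DN.and | with_reducible apply DN.ex | with_reducible apply DN.ball
        | with_reducible apply DN.pair | with_reducible apply DN.beta
        | with_reducible apply hf.ap | with_reducible apply hg.ap | with_reducible apply TN.add
        | exact TN.var _ | exact TN.one | exact TN.zero
    · simp only [Nat.unpaired, exists_and_left, exists_eq_left]
      refine (mem_prec f g _ _ _).trans ⟨?_, ?_⟩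
      · rintro ⟨s, h0, hs, e⟩
        obtain ⟨c, d, k⟩ := DN.exists_bt s (ρ false).unpair.2
        refine ⟨_, _, (Nat.pair_unpair _).symm, c, d, by rwa [k 0 (by omega)], fun i hi => ?_,
          by rwa [k _ le_rfl]⟩
        rw [k i hi.le, k (i + 1) hi]; exact hs i hi
      · rintro ⟨a, n, e, c, d, h0, hs, e'⟩
        simp only [e, Nat.unpair_pair]
        exact ⟨DN.bt c d, h0, hs, e'⟩
  | @rfind f _ hf =>
    refine DN.of_iff (P := fun ρ => (∃ u, u = Nat.pair (ρ false) (ρ true) ∧ 0 ∈ f u) ∧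
      ∀ i < ρ true, ∃ u k, u = Nat.pair (ρ false) i ∧ k + 1 ∈ f u) ?_ fun ρ => ?_
    · repeat' first
        | with_reducible apply DN.and | with_reducible apply DN.ex | with_reducible apply DN.ball
        | with_reducible apply DN.pair | with_reducible apply hf.ap | with_reducible apply TN.add
        | exact TN.var _ | exact TN.one | exact TN.zero
    · simp only [Nat.mem_rfind, exists_and_left, exists_eq_left, Part.map_eq_map, Part.mem_map_iff,
        decide_eq_true_eq, decide_eq_false_iff_not, exists_eq_right]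
      refine and_congr_right fun _ => ⟨fun h i hi => ?_, fun h i hi => ?_⟩
      · obtain ⟨a, ha, h0⟩ := h hi
        obtain ⟨k, rfl⟩ := Nat.exists_eq_succ_of_ne_zero h0
        exact ⟨k, ha⟩
      · obtain ⟨k, hk⟩ := h i hi
        exact ⟨_, hk, k.succ_ne_zero⟩

theorem ut_poly {f : (M : Mod) → (V → ZZ M) → ZZ M} (h : UT f) :
    ∃ p : MvPolynomial V ℤ, ∀ M ρ, f M ρ = MvPolynomial.aeval ρ p := by
  induction h with
  | var v => exact ⟨.X v, fun _ _ => by simp⟩
  | zero => exact ⟨0, fun _ _ => by simp⟩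
  | one => exact ⟨1, fun _ _ => by simp⟩
  | add _ _ a b =>
    obtain ⟨p, a⟩ := a; obtain ⟨q, b⟩ := b; exact ⟨p + q, fun _ _ => by simp [a, b]⟩
  | mul _ _ a b =>
    obtain ⟨p, a⟩ := a; obtain ⟨q, b⟩ := b; exact ⟨p * q, fun _ _ => by simp [a, b]⟩
  | neg _ a => obtain ⟨p, a⟩ := a; exact ⟨-p, fun _ _ => by simp [a]⟩

theorem DN.poly {R : (V → ℕ) → Prop} (h : DN R) : ∃ (m : ℕ) (p : MvPolynomial (V ⊕ Fin m) ℤ),
    ∀ ρ, R ρ ↔ ∃ w : Fin m → ℕ,
      MvPolynomial.aeval (fun o => ((Sum.elim ρ w o : ℕ) : ℤ)) p = 0 := by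
  obtain ⟨P, ⟨m, f, hf, e⟩, e'⟩ := h
  obtain ⟨p, hp⟩ := ut_poly hf
  refine ⟨m, p, fun ρ => ?_⟩
  have key : ∀ w : Fin m → ℕ, f std (Sum.elim (fun v => (ρ v : Z)) fun i => (w i : Z)) =
      ((MvPolynomial.aeval (fun o => ((Sum.elim ρ w o : ℕ) : ℤ)) p : ℤ) : Z) := fun w => by
    have := MvPolynomial.comp_aeval_apply (fun o => ((Sum.elim ρ w o : ℕ) : ℤ))
      (Algebra.ofId ℤ Z) p
    rw [hp]
    refine Eq.trans ?_ this.symm
    congr 2
    funext o; cases o <;> simp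
  rw [e', e]
  constructor
  · rintro ⟨w, h0, h⟩
    choose n hn using fun i => nonneg (h0 i)
    obtain rfl : w = fun i => (n i : Z) := funext hn
    exact ⟨n, by exact_mod_cast (key n).symm.trans h⟩
  · rintro ⟨w, h⟩
    exact ⟨_, fun i => Nat.cast_nonneg (w i), by rw [key, h, Int.cast_zero]⟩

/-- MRDP with unknowns in the natural numbers. -/
theorem mrdp_nat {S : ℕ → Prop} (h : REPred S) :
    ∃ (m : ℕ) (p : MvPolynomial (Unit ⊕ Fin m) ℤ), ∀ a : ℕ, S a ↔ ∃ w : Fin m → ℕ,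
      MvPolynomial.aeval (fun o => ((Sum.elim (fun _ => a) w o : ℕ) : ℤ)) p = 0 := by
  have k := gr_partrec (Partrec.nat_iff.1 (h.map (Computable.const 0).to₂))
  obtain ⟨m, p, e⟩ := (DN.ex (R := fun y (ρ : Unit → ℕ) =>
    y ∈ (Part.assert (S (ρ ())) fun _ => Part.some ()).map fun _ => 0)
    (k.ap (.var (some ())) (.var none))).poly
  refine ⟨m, p, fun a => Iff.trans ?_ (e fun _ => a)⟩
  simp [Part.mem_assert_iff]

/-- MRDP with integer unknowns, which may moreover be taken positive. -/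
theorem mrdp_int {S : ℕ → Prop} (h : REPred S) :
    ∃ (m : ℕ) (p : MvPolynomial (Option (Fin m)) ℤ), ∀ a : ℕ,
      (S a → ∃ x : Fin m → ℤ, (∀ i, 1 ≤ x i) ∧
        MvPolynomial.eval (fun o : Option (Fin m) => o.elim (a : ℤ) x) p = 0) ∧
      ((∃ x : Fin m → ℤ, MvPolynomial.eval (fun o : Option (Fin m) => o.elim (a : ℤ) x) p = 0) →
        S a) := by
  obtain ⟨m, p, e⟩ := mrdp_nat h
  let E := Fintype.equivFin (Option (Fin m × Fin 4))
  let σ : Unit ⊕ Fin m → MvPolynomial (Option (Fin (Fintype.card (Option (Fin m × Fin 4))))) ℤ :=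
    Sum.elim (fun _ => .X none) fun i =>
      ∑ t : Fin 4, (.X (some (E (some (i, t)))) - .X (some (E none))) ^ 2
  have key : ∀ (a : ℕ) x (w : Fin m → ℕ),
      (∀ i, (w i : ℤ) = ∑ t : Fin 4, (x (E (some (i, t))) - x (E none)) ^ 2) →
      MvPolynomial.eval (fun o => o.elim (a : ℤ) x) (MvPolynomial.aeval σ p) =
        MvPolynomial.aeval (fun o => ((Sum.elim (fun _ => a) w o : ℕ) : ℤ)) p := by
    intro a x w hw
    have := MvPolynomial.comp_aeval_apply σ
      (MvPolynomial.aeval (R := ℤ) fun o => o.elim (a : ℤ) x) p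
    refine Eq.trans ?_ (this.trans ?_)
    · rfl
    · congr 2
      funext o; cases o <;> simp [σ, hw]
  refine ⟨_, MvPolynomial.aeval σ p, fun a => ⟨fun ha => ?_, fun ⟨x, hx⟩ => ?_⟩⟩
  · obtain ⟨w, hw⟩ := (e a).1 ha
    have : ∀ i, ∃ u : Fin 4 → ℕ, w i = ∑ t, u t ^ 2 := fun i => by
      obtain ⟨a, b, c, d, h⟩ := Nat.sum_four_squares (w i)
      exact ⟨![a, b, c, d], by simp [Fin.sum_univ_four, h]⟩
    choose u hu using this
    refine ⟨fun j => (E.symm j).elim 1 fun q => (u q.1 q.2 : ℤ) + 1, fun j => ?_, ?_⟩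
    · beta_reduce
      cases E.symm j <;> simp
    · rw [key a _ w fun i => by simp [hu], hw]
  · refine (e a).2 ⟨fun i => (∑ t : Fin 4, (x (E (some (i, t))) - x (E none)) ^ 2).toNat, ?_⟩
    rw [← key a x _ fun i => Int.toNat_of_nonneg (by positivity), hx]

end Pool.Agent.Shared.MRDP
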