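import Mathlib

/-!
Hoffman's circulation theorem with integer bounds and demands, on a finite multidigraph
`s t : E → V`.
-/

namespace Pool.Agent.Shared.HoffmanCirc

open Finset

variable {V E : Type} [Fintype V] [DecidableEq V] [Fintype E]

/-- contribution of one arc to the capacity of the cut of `X` -/
def ctr (s t : E → V) (l u : E → ℤ) (X : Finset V) (e : E) : ℤ :=
  (if s e ∈ X ∧ t e ∉ X then u e else 0) - (if t e ∈ X ∧ s e ∉ X then l e else 0)

lemma sum_ctr (s t : E → V) (l u : E → ℤ) (X : Finset V) :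
    ∑ e, ctr s t l u X e =
      ∑ e with s e ∈ X ∧ t e ∉ X, u e - ∑ e with t e ∈ X ∧ s e ∉ X, l e := by
  simp only [ctr, sum_sub_distrib, sum_filter]

lemma ctr_sub (s t : E → V) {l u : E → ℤ} (X Y : Finset V) (e : E) (h : l e ≤ u e) :
    ctr s t l u (X ∩ Y) e + ctr s t l u (X ∪ Y) e ≤ ctr s t l u X e + ctr s t l u Y e := by
  unfold ctr
  by_cases h1 : s e ∈ X <;> by_cases h2 : t e ∈ X <;> by_cases h3 : s e ∈ Y <;>
    by_cases h4 : t e ∈ Y <;> simp [h1, h2, h3, h4] <;> linarith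

lemma aux (s t : E → V) (b : V → ℤ) (hb : ∑ v, b v = 0) : ∀ (n : ℕ) (l u : E → ℤ),
    ∑ e, (u e - l e) = n → (∀ e, l e ≤ u e) →
    (∀ X : Finset V, ∑ v ∈ X, b v ≤ ∑ e, ctr s t l u X e) →
    ∃ f : E → ℤ, (∀ e, l e ≤ f e ∧ f e ≤ u e) ∧
      ∀ X : Finset V, ∑ v ∈ X, b v = ∑ e, ctr s t f f X e := by
  classical
  intro n
  induction n with
  | zero =>
    intro l u hn hlu h
    have heq : u = l := by
      funext e
      have := (sum_eq_zero_iff_of_nonneg fun e _ => sub_nonneg.mpr (hlu e)).mp hn e (mem_univ e)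
      linarith
    subst heq
    refine ⟨u, fun e => ⟨le_rfl, le_rfl⟩, fun X => le_antisymm (h X) ?_⟩
    have h1 := h Xᶜ
    have h2 : ∑ e, ctr s t u u Xᶜ e = - ∑ e, ctr s t u u X e := by
      rw [← sum_neg_distrib]
      refine sum_congr rfl fun e _ => ?_
      unfold ctr
      by_cases h1 : s e ∈ X <;> by_cases h2 : t e ∈ X <;> simp [h1, h2]
    have h3 := sum_add_sum_compl X b
    linarith
  | succ n ih =>
    intro l u hn hlu h
    obtain ⟨e, he⟩ : ∃ e, l e < u e := by
      by_contra hne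
      push Not at hne
      have : ∑ e, (u e - l e) ≤ 0 := sum_nonpos fun e _ => sub_nonpos.mpr (hne e)
      omega
    let δ : E → ℤ := Pi.single e 1
    have hδ : ∑ x, δ x = 1 := by simp [δ]
    have hδ' : ∀ x, 0 ≤ δ x ∧ δ x ≤ u x - l x := by
      intro x
      by_cases hx : x = e
      · subst hx; simp only [δ, Pi.single_eq_same]; omega
      · simp only [δ, Pi.single_eq_of_ne hx]; have := hlu x; omega
    by_cases h1 : ∀ X : Finset V, ∑ v ∈ X, b v ≤ ∑ x, ctr s t (l + δ) u X x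
    · obtain ⟨f, hf, hf'⟩ := ih (l + δ) u (by
        have : ∑ x, (u x - (l + δ) x) = ∑ x, (u x - l x) - ∑ x, δ x := by
          rw [← sum_sub_distrib]; exact sum_congr rfl fun x _ => by simp only [Pi.add_apply]; ring
        rw [this, hn, hδ]; push_cast; ring)
        (fun x => by have := hδ' x; simp only [Pi.add_apply]; omega) h1
      exact ⟨f, fun x => ⟨by have := hδ' x; have := (hf x).1; simp only [Pi.add_apply] at this; omega,
        (hf x).2⟩, hf'⟩
    by_cases h2 : ∀ X : Finset V, ∑ v ∈ X, b v ≤ ∑ x, ctr s t l (u - δ) X x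
    · obtain ⟨f, hf, hf'⟩ := ih l (u - δ) (by
        have : ∑ x, ((u - δ) x - l x) = ∑ x, (u x - l x) - ∑ x, δ x := by
          rw [← sum_sub_distrib]; exact sum_congr rfl fun x _ => by simp only [Pi.sub_apply]; ring
        rw [this, hn, hδ]; push_cast; ring)
        (fun x => by have := hδ' x; simp only [Pi.sub_apply]; omega) h2
      exact ⟨f, fun x => ⟨(hf x).1,
        by have := hδ' x; have := (hf x).2; simp only [Pi.sub_apply] at this; omega⟩, hf'⟩
    exfalso
    push Not at h1 h2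
    obtain ⟨X, hX⟩ := h1
    obtain ⟨Y, hY⟩ := h2
    have e1 : ∑ x, ctr s t (l + δ) u X x =
        ∑ x, ctr s t l u X x - (if t e ∈ X ∧ s e ∉ X then 1 else 0) := by
      have : (if t e ∈ X ∧ s e ∉ X then (1 : ℤ) else 0) =
          ∑ x, if t x ∈ X ∧ s x ∉ X then δ x else 0 := by
        rw [sum_eq_single e]
        · simp [δ]
        · intro x _ hx; simp [δ, hx]
        · simp
      rw [this, ← sum_sub_distrib]
      refine sum_congr rfl fun x _ => ?_
      simp only [ctr, Pi.add_apply]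
      split_ifs <;> ring
    have e2 : ∑ x, ctr s t l (u - δ) Y x =
        ∑ x, ctr s t l u Y x - (if s e ∈ Y ∧ t e ∉ Y then 1 else 0) := by
      have : (if s e ∈ Y ∧ t e ∉ Y then (1 : ℤ) else 0) =
          ∑ x, if s x ∈ Y ∧ t x ∉ Y then δ x else 0 := by
        rw [sum_eq_single e]
        · simp [δ]
        · intro x _ hx; simp [δ, hx]
        · simp
      rw [this, ← sum_sub_distrib]
      refine sum_congr rfl fun x _ => ?_
      simp only [ctr, Pi.sub_apply]
      split_ifs <;> ring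
    have hX0 := h X
    have hY0 := h Y
    have k1 : t e ∈ X ∧ s e ∉ X := by
      by_contra hc; rw [e1, if_neg hc] at hX; omega
    have k2 : s e ∈ Y ∧ t e ∉ Y := by
      by_contra hc; rw [e2, if_neg hc] at hY; omega
    rw [e1, if_pos k1] at hX
    rw [e2, if_pos k2] at hY
    have k3 : ∑ x, (ctr s t l u (X ∩ Y) x + ctr s t l u (X ∪ Y) x) <
        ∑ x, (ctr s t l u X x + ctr s t l u Y x) := by
      refine sum_lt_sum (fun x _ => ctr_sub s t X Y x (hlu x)) ⟨e, mem_univ e, ?_⟩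
      simp [ctr, k1.1, k1.2, k2.1, k2.2]
      linarith
    rw [sum_add_distrib, sum_add_distrib] at k3
    have k4 := h (X ∩ Y)
    have k5 := h (X ∪ Y)
    have k6 := sum_union_inter (s₁ := X) (s₂ := Y) (f := b)
    omega

/-- Hoffman's theorem: integer bounds `l ≤ u`, net out-flow `b` with total zero. -/
theorem hoffman (s t : E → V) (l u : E → ℤ) (b : V → ℤ) (hb : ∑ v, b v = 0)
    (hlu : ∀ e, l e ≤ u e)
    (h : ∀ X : Finset V, ∑ v ∈ X, b v ≤
      ∑ e with s e ∈ X ∧ t e ∉ X, u e - ∑ e with t e ∈ X ∧ s e ∉ X, l e) :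
    ∃ f : E → ℤ, (∀ e, l e ≤ f e ∧ f e ≤ u e) ∧
      ∀ v, ∑ e with s e = v, f e - ∑ e with t e = v, f e = b v := by
  obtain ⟨f, hf, hf'⟩ := aux s t b hb (∑ e, (u e - l e)).toNat l u
    (Int.toNat_of_nonneg (sum_nonneg fun e _ => sub_nonneg.mpr (hlu e))).symm hlu
    (fun X => by rw [sum_ctr]; exact h X)
  refine ⟨f, hf, fun v => ?_⟩
  have := hf' {v}
  rw [sum_singleton] at this
  rw [this, sum_filter, sum_filter, ← sum_sub_distrib]
  refine sum_congr rfl fun e _ => ?_
  unfold ctr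
  by_cases h1 : s e = v <;> by_cases h2 : t e = v <;> simp [h1, h2]

/-- Hoffman's circulation theorem. -/
theorem hoffman_circ (s t : E → V) (l u : E → ℤ) (hlu : ∀ e, l e ≤ u e)
    (h : ∀ X : Finset V,
      ∑ e with t e ∈ X ∧ s e ∉ X, l e ≤ ∑ e with s e ∈ X ∧ t e ∉ X, u e) :
    ∃ f : E → ℤ, (∀ e, l e ≤ f e ∧ f e ≤ u e) ∧
      ∀ v, ∑ e with s e = v, f e = ∑ e with t e = v, f e := by
  obtain ⟨f, hf, hf'⟩ := hoffman s t l u 0 (by simp) hlu (fun X => by simpa using h X)
  exact ⟨f, hf, fun v => by simpa [sub_eq_zero] using hf' v⟩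

end Pool.Agent.Shared.HoffmanCirc
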