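import Pool.Agent.Shared.TJoinBasic

/-!
The Edmonds-Johnson theorem for postman sets: if `x ≥ 0` has weight at least one on every odd
cut, then for every `w ≥ 0` there is a set `J` meeting every cut with the parity of the cut and
with `w(J) ≤ w · x`.
-/

namespace Pool.Agent.Shared.TJoin

open Finset

set_option linter.unusedSectionVars false
set_option linter.unusedSimpArgs false

variable {V E : Type} [Fintype V] [DecidableEq V] [Fintype E] [DecidableEq E]

lemma exists_dir (S : Finset E) (W : Finset V) (h : W.card < S.card) (st : V → Finset E) :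
    ∃ d : E → ℝ, d ≠ 0 ∧ (∀ e ∉ S, d e = 0) ∧ ∀ y ∈ W, ∑ e ∈ st y, d e = 0 := by
  let v : S → (W → ℝ) := fun e y => if (e : E) ∈ st y then 1 else 0
  have hnl : ¬ LinearIndependent ℝ v := by
    intro hl
    have := hl.fintype_card_le_finrank
    simp at this
    omega
  obtain ⟨g, hg, i, hi⟩ := Fintype.not_linearIndependent_iff.mp hnl
  refine ⟨fun e => if he : e ∈ S then g ⟨e, he⟩ else 0, fun h0 => hi ?_, fun e he => by simp [he],
    fun y hy => ?_⟩
  · have := congrFun h0 i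
    simpa using this
  · have := congrFun hg ⟨y, hy⟩
    simp only [Finset.sum_apply, Pi.smul_apply, v, smul_eq_mul, mul_ite, mul_one, mul_zero,
      Pi.zero_apply] at this
    refine Eq.trans ?_ this
    beta_reduce
    have h1 : ∑ e ∈ st y, (if he : e ∈ S then g ⟨e, he⟩ else 0) =
        ∑ e ∈ S, if e ∈ st y then (if he : e ∈ S then g ⟨e, he⟩ else 0) else 0 := by
      rw [← sum_filter]
      symm
      refine sum_subset (fun e he => (mem_filter.mp he).2) fun e he he' => ?_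
      have : e ∉ S := fun h => he' (mem_filter.mpr ⟨h, he⟩)
      simp [this]
    rw [h1, ← sum_coe_sort S]
    refine sum_congr rfl fun e _ => ?_
    simp

lemma exists_step {I : Type} [Fintype I] (a b : I → ℝ) (ha : ∀ i, 0 ≤ a i)
    (hab : ∀ i, a i = 0 → b i = 0) (hb : ∃ i, b i < 0) :
    ∃ τ : ℝ, 0 < τ ∧ (∀ i, 0 ≤ a i + τ * b i) ∧ ∃ i, a i ≠ 0 ∧ a i + τ * b i = 0 := by
  classical
  obtain ⟨i0, hi0⟩ := hb
  obtain ⟨i, hi, hmin⟩ := exists_min_image (univ.filter fun i => b i < 0) (fun i => a i / (-b i))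
    ⟨i0, by simp [hi0]⟩
  have hbi : b i < 0 := (mem_filter.mp hi).2
  have hai : a i ≠ 0 := fun h => hbi.ne (hab i h)
  have hai' : 0 < a i := lt_of_le_of_ne (ha i) hai.symm
  refine ⟨a i / (-b i), div_pos hai' (by linarith), fun j => ?_, i, hai, ?_⟩
  · by_cases hj : b j < 0
    · have := hmin j (by simp [hj])
      rw [le_div_iff₀ (by linarith)] at this
      linarith
    · have : 0 ≤ a i / (-b i) * b j := mul_nonneg (div_pos hai' (by linarith)).le (not_lt.mp hj)
      linarith [ha j]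
  · field_simp [hbi.ne]
    ring

/-- slack of the constraints -/
noncomputable def slack (s t : E → V) (x : E → ℝ) : E ⊕ (V → ZMod 2) → ℝ
  | Sum.inl e => x e
  | Sum.inr c => if par s t univ c = 1 then ∑ e ∈ cut s t c, x e - 1 else 0

open Classical in
/-- number of slack constraints -/
noncomputable def mu (s t : E → V) (x : E → ℝ) : ℕ :=
  (univ.filter fun i => slack s t x i ≠ 0).card

/-- feasibility -/
def Feas (s t : E → V) (x : E → ℝ) : Prop :=
  (∀ e, 0 ≤ x e) ∧ ∀ c, par s t univ c = 1 → 1 ≤ ∑ e ∈ cut s t c, x e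

lemma exists_move {s t : E → V} {x w d : E → ℝ} (hx : Feas s t x) (hw : ∀ e, 0 ≤ w e)
    (hd : d ≠ 0) (hs : ∀ e, x e = 0 → d e = 0)
    (ht : ∀ c, par s t univ c = 1 → ∑ e ∈ cut s t c, x e = 1 → ∑ e ∈ cut s t c, d e = 0) :
    ∃ x', Feas s t x' ∧ ∑ e, w e * x' e ≤ ∑ e, w e * x e ∧ mu s t x' < mu s t x := by
  classical
  obtain ⟨d', hd1, hd2, hs', ht'⟩ : ∃ d' : E → ℝ, ∑ e, w e * d' e ≤ 0 ∧ (∃ e, d' e < 0) ∧
      (∀ e, x e = 0 → d' e = 0) ∧
      ∀ c, par s t univ c = 1 → ∑ e ∈ cut s t c, x e = 1 → ∑ e ∈ cut s t c, d' e = 0 := by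
    have hneg : (∀ e, x e = 0 → (-d) e = 0) ∧ ∀ c, par s t univ c = 1 →
        ∑ e ∈ cut s t c, x e = 1 → ∑ e ∈ cut s t c, (-d) e = 0 :=
      ⟨fun e he => by simp [hs e he], fun c h1 h2 => by simp [sum_neg_distrib, ht c h1 h2]⟩
    have hsum : ∑ e, w e * (-d) e = - ∑ e, w e * d e := by simp [sum_neg_distrib]
    obtain ⟨e0, he0⟩ := Function.ne_iff.mp hd
    simp only [Pi.zero_apply] at he0
    rcases lt_trichotomy (∑ e, w e * d e) 0 with h | h | h
    · refine ⟨d, h.le, ?_, hs, ht⟩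
      by_contra hn
      push Not at hn
      exact absurd (sum_nonneg fun e _ => mul_nonneg (hw e) (hn e)) (not_le.mpr h)
    · rcases lt_or_gt_of_ne he0 with h' | h'
      · exact ⟨d, h.le, ⟨e0, h'⟩, hs, ht⟩
      · exact ⟨-d, by rw [hsum, h]; simp, ⟨e0, by simpa using h'⟩, hneg.1, hneg.2⟩
    · refine ⟨-d, by rw [hsum]; linarith, ?_, hneg.1, hneg.2⟩
      by_contra hn
      push Not at hn
      have := sum_nonneg fun e (_ : e ∈ univ) => mul_nonneg (hw e) (hn e)
      rw [hsum] at this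
      linarith
  let b : E ⊕ (V → ZMod 2) → ℝ := fun i => match i with
    | Sum.inl e => d' e
    | Sum.inr c => if par s t univ c = 1 then ∑ e ∈ cut s t c, d' e else 0
  have ha : ∀ i, 0 ≤ slack s t x i := by
    rintro (e | c)
    · exact hx.1 e
    · simp only [slack]
      split_ifs with h
      · linarith [hx.2 c h]
      · exact le_rfl
  have hab : ∀ i, slack s t x i = 0 → b i = 0 := by
    rintro (e | c)
    · exact hs' e
    · simp only [slack, b]
      split_ifs with h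
      · intro h'; exact ht' c h (by linarith)
      · simp
  obtain ⟨e1, he1⟩ := hd2
  obtain ⟨τ, hτ, h1, i, hi, hi0⟩ := exists_step (slack s t x) b ha hab ⟨Sum.inl e1, he1⟩
  have hsl : ∀ i, slack s t (fun e => x e + τ * d' e) i = slack s t x i + τ * b i := by
    rintro (e | c)
    · rfl
    · simp only [slack, b]
      split_ifs with h
      · rw [sum_add_distrib, ← mul_sum]; ring
      · simp
  refine ⟨fun e => x e + τ * d' e, ⟨fun e => h1 (Sum.inl e), fun c hc => ?_⟩, ?_, ?_⟩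
  · have := h1 (Sum.inr c)
    rw [← hsl] at this
    simp only [slack, hc, if_true] at this
    linarith
  · have : ∑ e, w e * (x e + τ * d' e) = ∑ e, w e * x e + τ * ∑ e, w e * d' e := by
      rw [mul_sum, ← sum_add_distrib]; refine sum_congr rfl fun e _ => by ring
    rw [this]
    nlinarith
  · unfold mu
    refine card_lt_card ⟨fun j hj => ?_, fun hsub => ?_⟩
    · rw [mem_filter] at hj ⊢
      refine ⟨hj.1, fun h0 => hj.2 ?_⟩
      rw [hsl, h0, hab j h0]; simp
    · have := hsub (mem_filter.mpr ⟨mem_univ i, hi⟩)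
      rw [mem_filter, hsl] at this
      exact this.2 hi0

lemma side (good : Finset E → Prop) (D I : Finset E) (hDI : Disjoint D I) (x w : E → ℝ)
    (hx : ∀ e, 0 ≤ x e) (hw : ∀ e, 0 ≤ w e) (hD : ∑ e ∈ D, x e = 1)
    (hodd : ∀ J, good J → Odd (J ∩ D).card)
    (IH : ∀ w' : E → ℝ, (∀ e, 0 ≤ w' e) → ∃ J, good J ∧ ∑ e ∈ J, w' e ≤ ∑ e, w' e * x e)
    (L : ℝ) (hL : ∑ e ∈ I, w e * x e < L) :
    ∃ a : E → ℝ, (∀ e, 0 ≤ a e) ∧
      (∀ e, a e < L → ∃ J, good J ∧ J ∩ D = {e} ∧ ∑ f ∈ J ∩ I, w f ≤ a e) ∧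
      ∑ e ∈ D, x e * a e ≤ ∑ e ∈ I, w e * x e := by
  classical
  have h0 : 0 ≤ ∑ e ∈ I, w e * x e := sum_nonneg fun e _ => mul_nonneg (hw e) (hx e)
  have hex : ∀ e : E, ∃ a : ℝ, 0 ≤ a ∧ a ≤ L ∧
      (a < L → ∃ J, good J ∧ J ∩ D = {e} ∧ ∑ f ∈ J ∩ I, w f ≤ a) ∧
      ∀ J, good J → J ∩ D = {e} → a ≤ ∑ f ∈ J ∩ I, w f := by
    intro e
    by_cases h : (univ.filter fun J : Finset E => good J ∧ J ∩ D = {e}).Nonempty
    · obtain ⟨J, hJ, hmin⟩ := exists_min_image _ (fun J => ∑ f ∈ J ∩ I, w f) h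
      rw [mem_filter] at hJ
      refine ⟨min L (∑ f ∈ J ∩ I, w f), le_min (by linarith) (sum_nonneg fun f _ => hw f),
        min_le_left _ _, fun h' => ⟨J, hJ.2.1, hJ.2.2, ?_⟩, fun J' h1 h2 => ?_⟩
      · rcases min_choice L (∑ f ∈ J ∩ I, w f) with h'' | h''
        · rw [h''] at h'; exact absurd h' (lt_irrefl _)
        · rw [h'']
      · exact (min_le_right _ _).trans (hmin J' (mem_filter.mpr ⟨mem_univ _, h1, h2⟩))
    · refine ⟨L, by linarith, le_rfl, fun h' => absurd h' (lt_irrefl _), fun J h1 h2 => ?_⟩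
      exact absurd ⟨J, mem_filter.mpr ⟨mem_univ _, h1, h2⟩⟩ h
  choose a ha0 haL ha1 ha2 using hex
  refine ⟨a, ha0, ha1, ?_⟩
  set K := 2 * L + 1 with hK
  let w' : E → ℝ := fun e => (if e ∈ D then K - a e else 0) + (if e ∈ I then w e else 0)
  obtain ⟨J, hJ, hJw⟩ := IH w' (fun e => by
    have := haL e
    have := hw e
    simp only [w']
    split_ifs <;> linarith)
  have e1 : ∑ e, w' e * x e = K - ∑ e ∈ D, x e * a e + ∑ e ∈ I, w e * x e := by
    simp only [w', add_mul, sum_add_distrib, ite_mul, zero_mul, sum_ite_mem, univ_inter]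
    congr 1
    simp only [sub_mul, sum_sub_distrib, ← mul_sum, hD, mul_one]
    congr 1
    exact sum_congr rfl fun e _ => mul_comm _ _
  have e2 : ∑ e ∈ J, w' e = ∑ e ∈ J ∩ D, (K - a e) + ∑ e ∈ J ∩ I, w e := by
    simp only [w', sum_add_distrib, sum_ite_mem]
  have hxa : 0 ≤ ∑ e ∈ D, x e * a e := sum_nonneg fun e _ => mul_nonneg (hx e) (ha0 e)
  have hJI : 0 ≤ ∑ e ∈ J ∩ I, w e := sum_nonneg fun e _ => hw e
  have hc : (J ∩ D).card = 1 := by
    by_contra hne
    obtain ⟨k, hk⟩ := hodd J hJ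
    have h3 : 3 ≤ (J ∩ D).card := by omega
    have : ((J ∩ D).card : ℝ) * (K - L) ≤ ∑ e ∈ J ∩ D, (K - a e) := by
      rw [← nsmul_eq_mul]
      exact card_nsmul_le_sum _ _ _ fun e _ => by linarith [haL e]
    have h3' : (3 : ℝ) ≤ (J ∩ D).card := by exact_mod_cast h3
    have : 3 * (K - L) ≤ ((J ∩ D).card : ℝ) * (K - L) :=
      mul_le_mul_of_nonneg_right h3' (by linarith)
    linarith
  obtain ⟨e, he⟩ := card_eq_one.mp hc
  have := ha2 e J hJ he
  rw [e2, e1, he, sum_singleton] at hJw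
  linarith

/-- the star of a vertex -/
def star (s t : E → V) (v : V) : Finset E := cut s t (Pi.single v 1)

lemma mem_star {s t : E → V} {v : V} {e : E} :
    e ∈ star s t v ↔ (s e = v ∧ t e ≠ v) ∨ (s e ≠ v ∧ t e = v) := by
  unfold star
  rw [mem_cut]
  by_cases h1 : s e = v <;> by_cases h2 : t e = v <;> simp [h1, h2]

lemma cut_add_one (s t : E → V) (c : V → ZMod 2) : cut s t (c + 1) = cut s t c := by
  ext e; simp [mem_cut]

lemma trivial_cut {s t : E → V} {A : Finset V} (hs : ∀ e, s e ∈ A) (ht : ∀ e, t e ∈ A)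
    {c : V → ZMod 2} (hc : par s t univ c = 1)
    (h : (A.filter fun v => c v = 1).card ≤ 1 ∨ (A.filter fun v => c v = 0).card ≤ 1) :
    ∃ v ∈ A, cut s t c = star s t v := by
  have key : ∀ c : V → ZMod 2, (cut s t c).Nonempty → (A.filter fun v => c v = 1).card ≤ 1 →
      ∃ v ∈ A, cut s t c = star s t v := by
    intro c hne h
    obtain ⟨e, he⟩ := hne
    rw [mem_cut] at he
    obtain ⟨v, hvA, hv⟩ : ∃ v ∈ A, c v = 1 := by
      rcases z2_cases (c (s e)) with h1 | h1
      · rcases z2_cases (c (t e)) with h2 | h2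
        · exact absurd (h1.trans h2.symm) he
        · exact ⟨_, ht e, h2⟩
      · exact ⟨_, hs e, h1⟩
    have hag : ∀ u ∈ A, c u = (Pi.single v 1 : V → ZMod 2) u := by
      intro u hu
      by_cases huv : u = v
      · subst huv; simp [hv]
      · rcases z2_cases (c u) with h1 | h1
        · simp [h1, huv]
        · exact absurd (card_le_one.mp h u (mem_filter.mpr ⟨hu, h1⟩) v (mem_filter.mpr ⟨hvA, hv⟩))
            huv
    refine ⟨v, hvA, ?_⟩
    ext f
    rw [star, mem_cut, mem_cut, hag _ (hs f), hag _ (ht f)]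
  have hne : (cut s t c).Nonempty := by
    rw [par_univ_eq_one] at hc
    exact card_pos.mp hc.pos
  rcases h with h | h
  · exact key c hne h
  · rw [← cut_add_one] at hne ⊢
    refine key _ hne ?_
    have : (A.filter fun v => (c + 1) v = 1) = A.filter fun v => c v = 0 := by
      ext v; simp
    rwa [this]

lemma star_count (s t : E → V) (W : Finset V) (S : Finset E) :
    ∑ v ∈ W, (star s t v ∩ S).card ≤ 2 * S.card := by
  have h1 : ∀ v, (star s t v ∩ S).card = ∑ e ∈ S, if e ∈ star s t v then 1 else 0 := by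
    intro v
    rw [← card_filter]
    congr 1
    ext e; simp [and_comm]
  simp only [h1]
  rw [sum_comm, mul_comm, ← smul_eq_mul, ← sum_const]
  refine sum_le_sum fun e _ => ?_
  rw [← card_filter]
  refine (card_le_card (t := {s e, t e}) fun v hv => ?_).trans card_le_two
  have := mem_star.mp (mem_filter.mp hv).2
  simp only [mem_insert, mem_singleton]
  rcases this with h | h
  · exact Or.inl h.1.symm
  · exact Or.inr h.2.symm

/-- the direction when every tight odd cut is a star -/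
lemma exists_dir_star {s t : E → V} {x : E → ℝ} (hx : Feas s t x)
    (hS : ∃ e, 0 < x e ∧ x e < 1)
    (hst : ∀ c, par s t univ c = 1 → ∑ e ∈ cut s t c, x e = 1 → ∃ v, cut s t c = star s t v) :
    ∃ d : E → ℝ, d ≠ 0 ∧ (∀ e, x e = 0 → d e = 0) ∧
      ∀ c, par s t univ c = 1 → ∑ e ∈ cut s t c, x e = 1 → ∑ e ∈ cut s t c, d e = 0 := by
  classical
  set S : Finset E := univ.filter fun e => 0 < x e ∧ x e < 1 with hSdef
  have hmS : ∀ e, e ∈ S ↔ 0 < x e ∧ x e < 1 := fun e => by simp [hSdef]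
  set W : Finset V := univ.filter fun v => Odd (star s t v).card ∧ ∑ e ∈ star s t v, x e = 1 ∧
    (star s t v ∩ S).Nonempty with hWdef
  suffices h : ∃ d : E → ℝ, d ≠ 0 ∧ (∀ e ∉ S, d e = 0) ∧ ∀ y ∈ W, ∑ e ∈ star s t y, d e = 0 by
    obtain ⟨d, hd, h1, h2⟩ := h
    refine ⟨d, hd, fun e he => h1 e (fun h => by rw [hmS] at h; linarith [h.1]), fun c hc hc1 => ?_⟩
    obtain ⟨v, hv⟩ := hst c hc hc1
    rw [par_univ_eq_one] at hc
    rw [hv] at hc hc1 ⊢
    by_cases hne : (star s t v ∩ S).Nonempty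
    · exact h2 v (mem_filter.mpr ⟨mem_univ _, hc, hc1, hne⟩)
    · refine sum_eq_zero fun e he => h1 e fun h => hne ⟨e, mem_inter.mpr ⟨he, h⟩⟩
  by_cases hlt : W.card < S.card
  · exact exists_dir S W hlt (star s t)
  have hpos : ∀ v ∈ W, ∀ e ∈ star s t v, 0 < x e → e ∈ S := by
    intro v hv e he hxe
    obtain ⟨-, -, h1, f, hf⟩ := mem_filter.mp hv
    obtain ⟨hf1, hf2⟩ := mem_inter.mp hf
    by_cases hef : e = f
    · rw [hef]; exact hf2
    rw [hmS] at hf2 ⊢
    refine ⟨hxe, ?_⟩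
    have : ∑ g ∈ ({e, f} : Finset E), x g ≤ ∑ g ∈ star s t v, x g :=
      sum_le_sum_of_subset_of_nonneg (by
        intro g hg
        simp only [mem_insert, mem_singleton] at hg
        rcases hg with rfl | rfl <;> assumption) fun g _ _ => hx.1 g
    rw [sum_pair hef] at this
    linarith [hf2.1]
  have htwo : ∀ v ∈ W, 2 ≤ (star s t v ∩ S).card := by
    intro v hv
    have hp := hpos v hv
    obtain ⟨-, -, h1, hne⟩ := mem_filter.mp hv
    by_contra hlt2
    have hc1 : (star s t v ∩ S).card = 1 := by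
      have := card_pos.mpr hne
      omega
    obtain ⟨f, hf⟩ := card_eq_one.mp hc1
    have hfm : f ∈ star s t v ∩ S := by rw [hf]; exact mem_singleton_self f
    have h2 : ∑ g ∈ star s t v ∩ S, x g = ∑ g ∈ star s t v, x g := by
      refine sum_subset inter_subset_left fun g hg hg' => ?_
      by_contra h0
      exact hg' (mem_inter.mpr ⟨hg, hp g hg (lt_of_le_of_ne (hx.1 g) (Ne.symm h0))⟩)
    rw [hf, sum_singleton] at h2
    have := ((hmS f).mp (mem_inter.mp hfm).2).2
    linarith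
  have heq : ∀ v ∈ W, (star s t v ∩ S).card = 2 := by
    have h1 := star_count s t W S
    have h2 : ∑ _v ∈ W, 2 = ∑ v ∈ W, (star s t v ∩ S).card := by
      refine le_antisymm (sum_le_sum htwo) ?_
      simp only [sum_const, smul_eq_mul]
      omega
    intro v hv
    exact ((sum_eq_sum_iff_of_le htwo).mp h2 v hv).symm
  obtain ⟨J, hJP, hJ⟩ := exists_join_subset (univ.filter fun e => 0 < x e) s t (by
    intro c hc
    by_contra hn
    push Not at hn
    have h1 := hx.2 c hc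
    have : ∑ e ∈ cut s t c, x e = 0 := sum_eq_zero fun e he => by
      by_contra h0
      exact mem_cut.mp he (hn e (mem_filter.mpr ⟨mem_univ _,
        lt_of_le_of_ne (hx.1 e) (Ne.symm h0)⟩))
    linarith)
  refine ⟨fun e => if e ∈ S then (if e ∈ J then 1 else -1) else 0, fun h0 => ?_,
    fun e he => by simp [he], fun v hv => ?_⟩
  · obtain ⟨e, he⟩ := hS
    have := congrFun h0 e
    simp only [(hmS e).mpr he, if_true, Pi.zero_apply] at this
    split_ifs at this <;> norm_num at this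
  · have hodd : Odd (J ∩ star s t v).card := by
      have h1 := (mem_filter.mp hv).2.1
      unfold star at h1 ⊢
      rw [← par_univ_eq_one, ← hJ, par_eq_one] at h1
      exact h1
    have hsub : J ∩ star s t v = (star s t v ∩ S).filter fun e => e ∈ J := by
      ext e
      simp only [mem_inter, mem_filter]
      constructor
      · rintro ⟨h1, h2⟩
        exact ⟨⟨h2, hpos v hv e h2 (mem_filter.mp (hJP h1)).2⟩, h1⟩
      · rintro ⟨⟨h1, -⟩, h2⟩
        exact ⟨h2, h1⟩
    have hsum := card_filter_add_card_filter_not (s := star s t v ∩ S) (fun e => e ∈ J)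
    rw [heq v hv] at hsum
    rw [hsub] at hodd
    obtain ⟨k, hk⟩ := hodd
    rw [sum_ite_mem, sum_ite]
    simp only [sum_const, nsmul_eq_mul]
    have h1 : ((star s t v ∩ S).filter fun e => e ∈ J).card = 1 := by omega
    have h2 : ((star s t v ∩ S).filter fun e => ¬ e ∈ J).card = 1 := by omega
    rw [h1, h2]; norm_num

lemma par_congr {s t : E → V} {J J' : Finset E} {c : V → ZMod 2}
    (h : ∀ e, c (s e) ≠ c (t e) → (e ∈ J ↔ e ∈ J')) : par s t J c = par s t J' c := by
  rw [par_eq_card, par_eq_card]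
  congr 2
  ext e
  simp only [mem_inter, mem_cut]
  constructor
  · rintro ⟨h1, h2⟩; exact ⟨(h e h2).mp h1, h2⟩
  · rintro ⟨h1, h2⟩; exact ⟨(h e h2).mpr h1, h2⟩

/-- the statement proved by induction -/
def EJ (s t : E → V) : Prop := ∀ x w : E → ℝ, Feas s t x → (∀ e, 0 ≤ w e) →
  ∃ J : Finset E, (∀ c, par s t J c = par s t univ c) ∧ ∑ e ∈ J, w e ≤ ∑ e, w e * x e

/-- edges inside the shore coloured one -/
def inside (s t : E → V) (c : V → ZMod 2) : Finset E :=
  univ.filter fun e => c (s e) = 1 ∧ c (t e) = 1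

lemma half {s t : E → V} {A : Finset V} (hs : ∀ e, s e ∈ A) (ht : ∀ e, t e ∈ A)
    (IH : ∀ (s' t' : E → V) (A' : Finset V), A'.card < A.card → (∀ e, s' e ∈ A') →
      (∀ e, t' e ∈ A') → EJ s' t')
    {x w : E → ℝ} (hx : Feas s t x) (hw : ∀ e, 0 ≤ w e) {c0 : V → ZMod 2}
    (hc : par s t univ c0 = 1) (htight : ∑ e ∈ cut s t c0, x e = 1)
    (h2 : 1 < (A.filter fun v => c0 v = 0).card) (L : ℝ) (hL : ∑ e, w e * x e < L) :
    ∃ a : E → ℝ, (∀ e, 0 ≤ a e) ∧
      (∀ e, a e < L → ∃ J : Finset E, (∀ c, par s t J (c * c0) = par s t univ (c * c0)) ∧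
        J ∩ cut s t c0 = {e} ∧ ∑ f ∈ J ∩ inside s t c0, w f ≤ a e) ∧
      ∑ e ∈ cut s t c0, x e * a e ≤ ∑ e ∈ inside s t c0, w e * x e := by
  obtain ⟨z, hz, z', hz', hzz⟩ := one_lt_card.mp h2
  rw [mem_filter] at hz hz'
  let φ : V → V := fun v => if c0 v = 0 then z else v
  have hφ : ∀ v ∈ A, φ v ∈ A.erase z' := by
    intro v hv
    simp only [φ]
    split_ifs with h
    · exact mem_erase.mpr ⟨hzz, hz.1⟩
    · exact mem_erase.mpr ⟨fun h' => h (h' ▸ hz'.2), hv⟩
  have hej := IH (φ ∘ s) (φ ∘ t) (A.erase z') (card_erase_lt_of_mem hz'.1)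
    (fun e => hφ _ (hs e)) (fun e => hφ _ (ht e))
  have hcφ : ∀ c : V → ZMod 2, (c * c0) ∘ φ = c * c0 := by
    intro c; funext v
    simp only [Function.comp, φ, Pi.mul_apply]
    split_ifs with h
    · rw [h, hz.2]; simp
    · rfl
  refine side (fun J => ∀ c, par s t J (c * c0) = par s t univ (c * c0)) (cut s t c0)
    (inside s t c0) ?_ x w hx.1 hw htight ?_ ?_ L ?_
  · rw [disjoint_left]
    intro e he he'
    rw [mem_cut] at he
    obtain ⟨h1, h2⟩ := (mem_filter.mp he').2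
    exact he (h1.trans h2.symm)
  · intro J hJ
    have := hJ 1
    rw [one_mul, hc, par_eq_one] at this
    exact this
  · intro w' hw'
    obtain ⟨J, hJ, hJw⟩ := hej x w' ⟨hx.1, fun c hc => hx.2 (c ∘ φ) hc⟩ hw'
    refine ⟨J, fun c => ?_, hJw⟩
    have : par s t J ((c * c0) ∘ φ) = par s t univ ((c * c0) ∘ φ) := hJ (c * c0)
    rwa [hcφ] at this
  · refine lt_of_le_of_lt ?_ hL
    exact sum_le_sum_of_subset_of_nonneg (subset_univ _) fun e _ _ => mul_nonneg (hw e) (hx.1 e)

lemma glue {s t : E → V} {A : Finset V} (hs : ∀ e, s e ∈ A) (ht : ∀ e, t e ∈ A)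
    (IH : ∀ (s' t' : E → V) (A' : Finset V), A'.card < A.card → (∀ e, s' e ∈ A') →
      (∀ e, t' e ∈ A') → EJ s' t')
    {x w : E → ℝ} (hx : Feas s t x) (hw : ∀ e, 0 ≤ w e) {c0 : V → ZMod 2}
    (hc : par s t univ c0 = 1) (htight : ∑ e ∈ cut s t c0, x e = 1)
    (h0 : 1 < (A.filter fun v => c0 v = 0).card) (h1 : 1 < (A.filter fun v => c0 v = 1).card) :
    ∃ J : Finset E, (∀ c, par s t J c = par s t univ c) ∧ ∑ e ∈ J, w e ≤ ∑ e, w e * x e := by
  set W := ∑ e, w e * x e with hW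
  have hc' : par s t univ (c0 + 1) = 1 := by
    rw [par_univ_eq_one, cut_add_one, ← par_univ_eq_one]; exact hc
  obtain ⟨a, ha0, ha1, ha2⟩ := half hs ht IH hx hw hc htight h0 (W + 1) (by linarith)
  obtain ⟨b, hb0, hb1, hb2⟩ := half hs ht IH hx hw hc' (by rw [cut_add_one]; exact htight) (by
    have : (A.filter fun v => (c0 + 1) v = 0) = A.filter fun v => c0 v = 1 := by
      ext v
      simp only [mem_filter, Pi.add_apply, Pi.one_apply]
      rcases z2_cases (c0 v) with h | h <;> simp [h, z2_self]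
    rwa [this]) (W + 1) (by linarith)
  rw [cut_add_one] at hb1 hb2
  set D := cut s t c0 with hD
  set I := inside s t c0 with hI
  set I' := inside s t (c0 + 1) with hI'
  have hmD : ∀ e, e ∈ D ↔ c0 (s e) ≠ c0 (t e) := fun e => mem_cut
  have hmI : ∀ e, e ∈ I ↔ c0 (s e) = 1 ∧ c0 (t e) = 1 := fun e => by simp [hI, inside]
  have hmI' : ∀ e, e ∈ I' ↔ c0 (s e) = 0 ∧ c0 (t e) = 0 := fun e => by simp [hI', inside]
  have htri : ∀ e, (e ∈ D ∧ e ∉ I ∧ e ∉ I') ∨ (e ∉ D ∧ e ∈ I ∧ e ∉ I') ∨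
      (e ∉ D ∧ e ∉ I ∧ e ∈ I') := by
    intro e
    rw [hmD, hmI, hmI']
    rcases z2_cases (c0 (s e)) with h | h <;> rcases z2_cases (c0 (t e)) with h' | h' <;>
      simp [h, h']
  have hsplit : ∀ (J : Finset E) (g : E → ℝ),
      ∑ e ∈ J, g e = ∑ e ∈ J ∩ D, g e + ∑ e ∈ J ∩ I, g e + ∑ e ∈ J ∩ I', g e := by
    intro J g
    simp only [← sum_ite_mem, ← sum_add_distrib]
    refine sum_congr rfl fun e _ => ?_
    rcases htri e with h | h | h <;> simp [h.1, h.2.1, h.2.2]
  have hne : D.Nonempty := by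
    rw [par_univ_eq_one] at hc
    exact card_pos.mp hc.pos
  obtain ⟨e, heD, hmin⟩ := exists_min_image D (fun e => a e + b e + w e) hne
  have hle : a e + b e + w e ≤ W := by
    have e1 : ∑ f ∈ D, x f * (a e + b e + w e) ≤ ∑ f ∈ D, x f * (a f + b f + w f) :=
      sum_le_sum fun f hf => mul_le_mul_of_nonneg_left (hmin f hf) (hx.1 f)
    rw [← sum_mul, htight, one_mul] at e1
    have e2 := hsplit univ (fun e => w e * x e)
    simp only [univ_inter] at e2
    have e3 : ∑ f ∈ D, x f * (a f + b f + w f) =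
        ∑ f ∈ D, x f * a f + ∑ f ∈ D, x f * b f + ∑ f ∈ D, w f * x f := by
      simp only [← sum_add_distrib]
      exact sum_congr rfl fun f _ => by ring
    linarith
  obtain ⟨J1, hJ1, hJ1D, hJ1w⟩ := ha1 e (by linarith [hb0 e, hw e])
  obtain ⟨J2, hJ2, hJ2D, hJ2w⟩ := hb1 e (by linarith [ha0 e, hw e])
  have k1 : ∀ f ∈ D, f ∈ J1 ↔ f = e := fun f hf => by
    rw [← mem_singleton, ← hJ1D, mem_inter]; simp [hf]
  have k2 : ∀ f ∈ D, f ∈ J2 ↔ f = e := fun f hf => by
    rw [← mem_singleton, ← hJ2D, mem_inter]; simp [hf]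
  let J : Finset E := univ.filter fun f => (f ∈ I' ∧ f ∈ J2) ∨ (f ∉ I' ∧ f ∈ J1)
  have hmJ : ∀ f, f ∈ J ↔ (f ∈ I' ∧ f ∈ J2) ∨ (f ∉ I' ∧ f ∈ J1) := fun f => by simp [J]
  refine ⟨J, fun c => ?_, ?_⟩
  · have hdec : c = c * c0 + c * (c0 + 1) := by
      funext v
      simp only [Pi.add_apply, Pi.mul_apply, Pi.one_apply]
      have := z2_self (c v * c0 v)
      linear_combination -this
    rw [hdec, par_add, par_add, ← hJ1, ← hJ2]
    congr 1
    · refine par_congr fun f hf => ?_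
      have : f ∉ I' := fun h => by
        rw [hmI'] at h
        simp [h.1, h.2] at hf
      simp [hmJ, this]
    · refine par_congr fun f hf => ?_
      have : f ∉ I := fun h => by
        rw [hmI] at h
        simp [h.1, h.2, z2_self] at hf
      rcases htri f with h | h | h
      · rw [hmJ, k2 f h.1, k1 f h.1]; simp [h.2.2]
      · exact absurd h.2.1 this
      · simp [hmJ, h.2.2]
  · have e1 : J ∩ D = {e} := by
      rw [← hJ1D]; ext f
      rcases htri f with h | h | h <;> simp [hmJ, h.1, h.2.1, h.2.2]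
    have e2 : J ∩ I = J1 ∩ I := by
      ext f
      rcases htri f with h | h | h <;> simp [hmJ, h.1, h.2.1, h.2.2]
    have e3 : J ∩ I' = J2 ∩ I' := by
      ext f
      rcases htri f with h | h | h <;> simp [hmJ, h.1, h.2.1, h.2.2]
    rw [hsplit J, e1, e2, e3, sum_singleton]
    linarith

lemma ej_aux : ∀ (n : ℕ) (s t : E → V) (A : Finset V), A.card = n → (∀ e, s e ∈ A) →
    (∀ e, t e ∈ A) → EJ s t := by
  intro n
  induction n using Nat.strong_induction_on with
  | _ n IHn =>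
  intro s t A hA hs ht x w hx hw
  induction hm : mu s t x using Nat.strong_induction_on generalizing x with
  | _ m IHm =>
  by_cases hnt : ∃ c0, par s t univ c0 = 1 ∧ ∑ e ∈ cut s t c0, x e = 1 ∧
      1 < (A.filter fun v => c0 v = 0).card ∧ 1 < (A.filter fun v => c0 v = 1).card
  · obtain ⟨c0, h1, h2, h3, h4⟩ := hnt
    exact glue hs ht (fun s' t' A' h hs' ht' => IHn A'.card (hA ▸ h) s' t' A' rfl hs' ht')
      hx hw h1 h2 h3 h4
  by_cases hS : ∃ e, 0 < x e ∧ x e < 1
  · obtain ⟨d, hd, hd1, hd2⟩ := exists_dir_star hx hS (by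
      intro c hc h1
      obtain ⟨v, -, hv⟩ := trivial_cut hs ht hc (by
        by_contra hn
        push Not at hn
        exact hnt ⟨c, hc, h1, hn.2, hn.1⟩)
      exact ⟨v, hv⟩)
    obtain ⟨x', hx', hle, hmu⟩ := exists_move hx hw hd hd1 hd2
    obtain ⟨J, hJ, hJw⟩ := IHm _ (hm ▸ hmu) x' hx' rfl
    exact ⟨J, hJ, hJw.trans hle⟩
  · push Not at hS
    obtain ⟨J, hJP, hJ⟩ := exists_join_subset (univ.filter fun e => 1 ≤ x e) s t (by
      intro c hc
      by_contra hn
      push Not at hn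
      have h1 := hx.2 c hc
      have : ∑ e ∈ cut s t c, x e = 0 := sum_eq_zero fun e he => by
        by_contra h0
        exact mem_cut.mp he (hn e (mem_filter.mpr ⟨mem_univ _,
          hS e (lt_of_le_of_ne (hx.1 e) (Ne.symm h0))⟩))
      linarith)
    refine ⟨J, hJ, le_trans (sum_le_sum fun e he => ?_)
      (sum_le_sum_of_subset_of_nonneg (subset_univ J) fun e _ _ => mul_nonneg (hw e) (hx.1 e))⟩
    have := (mem_filter.mp (hJP he)).2
    nlinarith [hw e]

/-- The Edmonds-Johnson theorem for postman sets. -/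
theorem edmonds_johnson (s t : E → V) (x w : E → ℝ) (hx : Feas s t x) (hw : ∀ e, 0 ≤ w e) :
    ∃ J : Finset E, (∀ c, par s t J c = par s t univ c) ∧ ∑ e ∈ J, w e ≤ ∑ e, w e * x e :=
  ej_aux _ s t univ rfl (fun _ => mem_univ _) (fun _ => mem_univ _) x w hx hw

/-- The Edmonds-Johnson theorem, with tight cuts met exactly once. -/
theorem edmonds_johnson_tight (s t : E → V) (x w : E → ℝ) (hx : Feas s t x) (hw : ∀ e, 0 ≤ w e) :
    ∃ J : Finset E, (∀ c, par s t J c = par s t univ c) ∧ ∑ e ∈ J, w e ≤ ∑ e, w e * x e ∧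
      ∀ c, par s t univ c = 1 → ∑ e ∈ cut s t c, x e = 1 → (J ∩ cut s t c).card = 1 := by
  classical
  set T : Finset (V → ZMod 2) :=
    univ.filter fun c => par s t univ c = 1 ∧ ∑ e ∈ cut s t c, x e = 1 with hT
  set W := ∑ e, w e * x e with hW
  have hW0 : 0 ≤ W := sum_nonneg fun e _ => mul_nonneg (hw e) (hx.1 e)
  let n : E → ℝ := fun e => ∑ c ∈ T, if e ∈ cut s t c then 1 else 0
  have hn : ∀ e, 0 ≤ n e := fun e => sum_nonneg fun c _ => by split_ifs <;> norm_num
  obtain ⟨J, hJ, hJw⟩ := edmonds_johnson s t x (fun e => w e + (W + 1) * n e) hx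
    (fun e => add_nonneg (hw e) (mul_nonneg (by linarith) (hn e)))
  have e1 : ∑ e, n e * x e = ∑ _c ∈ T, (1 : ℝ) := by
    simp only [n, sum_mul]
    rw [sum_comm]
    refine sum_congr rfl fun c hc => ?_
    simp only [ite_mul, one_mul, zero_mul, sum_ite_mem, univ_inter]
    exact (mem_filter.mp hc).2.2
  have e2 : ∑ e ∈ J, n e = ∑ c ∈ T, ((J ∩ cut s t c).card : ℝ) := by
    simp only [n]
    rw [sum_comm]
    refine sum_congr rfl fun c _ => ?_
    simp only [sum_ite_mem, sum_const, nsmul_eq_mul, mul_one]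
  have e3 : ∑ e, (w e + (W + 1) * n e) * x e = W + (W + 1) * ∑ _c ∈ T, (1 : ℝ) := by
    rw [← e1, mul_sum, hW, ← sum_add_distrib]
    exact sum_congr rfl fun e _ => by ring
  rw [e3, sum_add_distrib, ← mul_sum, e2] at hJw
  have h1 : ∀ c ∈ T, 1 ≤ (J ∩ cut s t c).card := by
    intro c hc
    have := (mem_filter.mp hc).2.1
    rw [← hJ, par_eq_one] at this
    exact this.pos
  have h1' : ∀ c ∈ T, (1 : ℝ) ≤ (J ∩ cut s t c).card := fun c hc => by exact_mod_cast h1 c hc
  have h2 := sum_le_sum h1'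
  have hwJ : 0 ≤ ∑ e ∈ J, w e := sum_nonneg fun e _ => hw e
  refine ⟨J, hJ, by nlinarith, fun c hc hc1 => ?_⟩
  have hcT : c ∈ T := mem_filter.mpr ⟨mem_univ _, hc, hc1⟩
  by_contra hne
  have h3 : 2 ≤ (J ∩ cut s t c).card := by have := h1 c hcT; omega
  have h3' : (2 : ℝ) ≤ (J ∩ cut s t c).card := by exact_mod_cast h3
  have h4 := sum_le_sum fun c' (hc' : c' ∈ T.erase c) => h1' c' (mem_of_mem_erase hc')
  rw [← add_sum_erase _ _ hcT, ← add_sum_erase _ _ hcT] at hJw
  nlinarith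

/-- Iteration step: if every odd cut inside `P` has at least `k` edges, there is a postman set
meeting `P` in weight at most `w(P)/k` and containing no odd cut of size `k > 1` inside `P`. -/
theorem exists_join_inter (s t : E → V) (P : Finset E) (k : ℕ) (hk : 1 < k) (w : E → ℝ)
    (hw : ∀ e, 0 ≤ w e)
    (hP : ∀ c, Odd (cut s t c).card → cut s t c ⊆ P → k ≤ (cut s t c).card) :
    ∃ J : Finset E, (∀ c, par s t J c = par s t univ c) ∧
      k * ∑ e ∈ P ∩ J, w e ≤ ∑ e ∈ P, w e ∧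
      ∀ c, Odd (cut s t c).card → cut s t c ⊆ P ∩ J → k + 1 ≤ (cut s t c).card := by
  have hk0 : (0 : ℝ) < k := by exact_mod_cast (by omega : 0 < k)
  let x : E → ℝ := fun e => if e ∈ P then (k : ℝ)⁻¹ else 1
  have hx0 : ∀ e, 0 ≤ x e := fun e => by
    simp only [x]; split_ifs
    · positivity
    · norm_num
  have hxP : ∀ c, cut s t c ⊆ P → ∑ e ∈ cut s t c, x e = (cut s t c).card * (k : ℝ)⁻¹ := by
    intro c hc
    rw [← nsmul_eq_mul, ← sum_const]
    exact sum_congr rfl fun e he => by simp [x, hc he]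
  obtain ⟨J, hJ, hJw, hJt⟩ := edmonds_johnson_tight s t x (fun e => if e ∈ P then w e else 0)
    ⟨hx0, fun c hc => by
      by_cases h : cut s t c ⊆ P
      · rw [hxP c h, ← div_eq_mul_inv, le_div_iff₀ hk0, one_mul]
        exact_mod_cast hP c (par_univ_eq_one.mp hc) h
      · obtain ⟨e, he, heP⟩ := not_subset.mp h
        have := single_le_sum (f := x) (fun e _ => hx0 e) he
        simpa [x, heP] using this⟩
    (fun e => by split_ifs; exacts [hw e, le_rfl])
  refine ⟨J, hJ, ?_, fun c hc hsub => ?_⟩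
  · have e1 : ∑ e, (if e ∈ P then w e else 0) * x e = (∑ e ∈ P, w e) * (k : ℝ)⁻¹ := by
      simp only [ite_mul, zero_mul, sum_ite_mem, univ_inter, sum_mul]
      exact sum_congr rfl fun e he => by simp [x, he]
    rw [e1, sum_ite_mem, inter_comm, ← div_eq_mul_inv, le_div_iff₀ hk0] at hJw
    linarith
  · have h1 : cut s t c ⊆ P := hsub.trans inter_subset_left
    have h2 := hP c hc h1
    by_contra hlt
    have h3 : (cut s t c).card = k := by omega
    have := hJt c (par_univ_eq_one.mpr hc) (by rw [hxP c h1, h3]; field_simp)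
    rw [inter_eq_right.mpr (hsub.trans inter_subset_right)] at this
    omega

/-- The complement of a postman set carries a circulation with values `1, -1`. -/
theorem exists_orient_compl (s t : E → V) (J : Finset E)
    (hJ : ∀ c, par s t J c = par s t univ c) :
    ∃ f : E → ℤ, Circ s t f ∧ (∀ e ∉ J, f e = 1 ∨ f e = -1) ∧ ∀ e ∈ J, f e = 0 := by
  obtain ⟨f, hf, h1, h0⟩ := exists_orient _ Jᶜ s t rfl (by
    intro c
    have h := hJ c
    unfold par at h ⊢
    rw [← sum_add_sum_compl J] at h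
    simpa using h)
  exact ⟨f, hf, fun e he => h1 e (mem_compl.mpr he), fun e he => h0 e (by simpa using he)⟩

end Pool.Agent.Shared.TJoin
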