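import Mathlib

/-!
A Jordan-type lemma: two paths in the closed upper half-plane with interleaved real end points meet.
-/

set_option autoImplicit false

namespace Pool.Agent.Shared.PlaneArcs

open Complex

lemma log_diff (φ : ℝ → ℂ) (hφ : Continuous φ) (u : ℂ)
    (h : ∀ t, u * exp (φ t) ∈ slitPlane) :
    φ 1 - φ 0 = log (u * exp (φ 1)) - log (u * exp (φ 0)) := by
  have hc : Continuous fun t => φ t - log (u * exp (φ t)) := by
    refine hφ.sub ?_
    exact Continuous.clog (by fun_prop) h
  have hu : u ≠ 0 := by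
    intro h0
    have := h 0
    rw [h0, zero_mul] at this
    exact slitPlane_ne_zero this rfl
  have key : ∀ t, exp (φ t - log (u * exp (φ t))) = u⁻¹ := by
    intro t
    rw [exp_sub, exp_log (slitPlane_ne_zero (h t))]
    field_simp [exp_ne_zero]
  have := isCoveringMap_exp.const_of_comp hc (fun a a' => by
    apply Subtype.ext; simp only [key]) 1 0
  linear_combination this

lemma im_log_I_mul_pos {r : ℝ} (hr : 0 < r) : (log (I * r)).im = Real.pi / 2 := by
  rw [log_im, mul_comm, arg_real_mul _ hr, arg_I]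

lemma im_log_I_mul_neg {r : ℝ} (hr : r < 0) : (log (I * r)).im = -(Real.pi / 2) := by
  have : I * (r : ℂ) = ((-r : ℝ) : ℂ) * (-I) := by push_cast; ring
  rw [log_im, this, arg_real_mul _ (by linarith), arg_neg_I]

lemma mem_slit_of_im_nonpos {z : ℂ} (hz : z ≠ 0) (h : z.im ≤ 0) : I * z ∈ slitPlane := by
  rw [mem_slitPlane_iff]
  simp only [mul_re, I_re, zero_mul, I_im, one_mul, zero_sub, mul_im, zero_add]
  rcases h.eq_or_lt with h0 | h0
  · right
    intro h1
    exact hz (Complex.ext h1 h0)
  · left; linarith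

/-- Two paths in the closed upper half-plane with interleaved real end points meet. -/
theorem two_paths {a b c d : ℝ} (hab : a < b) (hbc : b < c) (hcd : c < d)
    (α : Path (a : ℂ) c) (β : Path (b : ℂ) d) (hα : ∀ t, 0 ≤ (α t).im)
    (hβ : ∀ t, 0 ≤ (β t).im) : ∃ s t, α s = β t := by
  by_contra hne
  push Not at hne
  have hα' : ∀ s : ℝ, 0 ≤ (α.extend s).im := fun s => hα _
  have hβ' : ∀ s : ℝ, 0 ≤ (β.extend s).im := fun s => hβ _
  have hne' : ∀ s t : ℝ, α.extend s - β.extend t ≠ 0 := fun s t => sub_ne_zero.mpr (hne _ _)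
  have hsc : IsSimplyConnected (Set.univ : Set (ℝ × ℝ)) := by
    have : ContractibleSpace (Set.univ : Set (ℝ × ℝ)) :=
      (convex_univ : Convex ℝ (Set.univ : Set (ℝ × ℝ))).contractibleSpace ⟨0, trivial⟩
    exact SimplyConnectedSpace.ofContractible _
  obtain ⟨f, hf, hfe⟩ := exists_continuousOn_eqOn_exp_comp hsc isOpen_univ
    (g := fun p : ℝ × ℝ => α.extend p.1 - β.extend p.2)
    (Continuous.continuousOn (by fun_prop)) (by
      rintro ⟨p, -, hp⟩; exact hne' _ _ hp)
  have hf' : Continuous f := continuousOn_univ.mp hf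
  have he : ∀ s t, exp (f (s, t)) = α.extend s - β.extend t := fun s t => hfe (Set.mem_univ _)
  have s1 := log_diff (fun s => f (s, 0)) (by fun_prop) (-I) (fun s => by
    rw [he, show -I * (α.extend s - β.extend 0) = I * (-(α.extend s - β.extend 0)) by ring]
    refine mem_slit_of_im_nonpos (neg_ne_zero.mpr (hne' _ _)) ?_
    simpa using hα' s)
  have s2 := log_diff (fun t => f (1, t)) (by fun_prop) I (fun t => by
    rw [he]
    refine mem_slit_of_im_nonpos (hne' _ _) ?_
    simpa using hβ' t)
  have s3 := log_diff (fun s => f (s, 1)) (by fun_prop) (-I) (fun s => by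
    rw [he, show -I * (α.extend s - β.extend 1) = I * (-(α.extend s - β.extend 1)) by ring]
    refine mem_slit_of_im_nonpos (neg_ne_zero.mpr (hne' _ _)) ?_
    simpa using hα' s)
  have s4 := log_diff (fun t => f (0, t)) (by fun_prop) I (fun t => by
    rw [he]
    refine mem_slit_of_im_nonpos (hne' _ _) ?_
    simpa using hβ' t)
  simp only [he, Path.extend_zero, Path.extend_one] at s1 s2 s3 s4
  have e1 : -I * ((c : ℂ) - b) = I * ((b - c : ℝ) : ℂ) := by push_cast; ring
  have e2 : -I * ((a : ℂ) - b) = I * ((b - a : ℝ) : ℂ) := by push_cast; ring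
  have e3 : I * ((c : ℂ) - d) = I * ((c - d : ℝ) : ℂ) := by push_cast; ring
  have e4 : I * ((c : ℂ) - b) = I * ((c - b : ℝ) : ℂ) := by push_cast; ring
  have e5 : -I * ((c : ℂ) - d) = I * ((d - c : ℝ) : ℂ) := by push_cast; ring
  have e6 : -I * ((a : ℂ) - d) = I * ((d - a : ℝ) : ℂ) := by push_cast; ring
  have e7 : I * ((a : ℂ) - d) = I * ((a - d : ℝ) : ℂ) := by push_cast; ring
  have e8 : I * ((a : ℂ) - b) = I * ((a - b : ℝ) : ℂ) := by push_cast; ring
  rw [e1, e2] at s1
  rw [e3, e4] at s2
  rw [e5, e6] at s3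
  rw [e7, e8] at s4
  have t1 := congrArg im s1
  have t2 := congrArg im s2
  have t3 := congrArg im s3
  have t4 := congrArg im s4
  rw [sub_im, sub_im, im_log_I_mul_neg (by linarith), im_log_I_mul_pos (by linarith)] at t1 t2
  rw [sub_im, sub_im, im_log_I_mul_pos (by linarith), im_log_I_mul_pos (by linarith)] at t3
  rw [sub_im, sub_im, im_log_I_mul_neg (by linarith), im_log_I_mul_neg (by linarith)] at t4
  linarith [Real.pi_pos]

/-- Set version: if two disjoint subsets of the closed upper half-plane join `x` to `x'` and `y`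
to `y'`, then these pairs of real numbers are disjoint and not interleaved. -/
theorem not_interleaved {S T : Set ℂ} (hS : ∀ z ∈ S, 0 ≤ z.im) (hT : ∀ z ∈ T, 0 ≤ z.im)
    (hST : Disjoint S T) {x x' y y' : ℝ} (hx : JoinedIn S (x : ℂ) x') (hy : JoinedIn T (y : ℂ) y') :
    0 < (x - y) * (x - y') * (x' - y) * (x' - y') := by
  have aux : ∀ {S T : Set ℂ}, (∀ z ∈ S, 0 ≤ z.im) → (∀ z ∈ T, 0 ≤ z.im) → Disjoint S T →
      ∀ {a b c d : ℝ}, JoinedIn S (a : ℂ) c → JoinedIn T (b : ℂ) d → a < b → b < c → c < d →
      False := by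
    intro S T hS hT hST a b c d h1 h2 hab hbc hcd
    obtain ⟨α, hα⟩ := h1
    obtain ⟨β, hβ⟩ := h2
    obtain ⟨s, t, hst⟩ := two_paths hab hbc hcd α β (fun t => hS _ (hα t)) (fun t => hT _ (hβ t))
    exact Set.disjoint_left.mp hST (hα s) (hst ▸ hβ t)
  have ne : ∀ {u v : ℝ}, (u : ℂ) ∈ S → (v : ℂ) ∈ T → u ≠ v := by
    intro u v hu hv h
    exact Set.disjoint_left.mp hST hu (h ▸ hv)
  have n1 := ne hx.source_mem hy.source_mem
  have n2 := ne hx.source_mem hy.target_mem
  have n3 := ne hx.target_mem hy.source_mem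
  have n4 := ne hx.target_mem hy.target_mem
  have a1 := aux hS hT hST hx hy
  have a2 := aux hS hT hST hx hy.symm
  have a3 := aux hS hT hST hx.symm hy
  have a4 := aux hS hT hST hx.symm hy.symm
  have b1 := aux hT hS hST.symm hy hx
  have b2 := aux hT hS hST.symm hy hx.symm
  have b3 := aux hT hS hST.symm hy.symm hx
  have b4 := aux hT hS hST.symm hy.symm hx.symm
  rcases lt_or_gt_of_ne n1 with h1 | h1 <;> rcases lt_or_gt_of_ne n2 with h2 | h2 <;>
    rcases lt_or_gt_of_ne n3 with h3 | h3 <;> rcases lt_or_gt_of_ne n4 with h4 | h4 <;>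
    first
    | exact mul_pos (mul_pos (mul_pos (by linarith) (by linarith)) (by linarith)) (by linarith)
    | exact mul_pos (mul_pos (mul_pos_of_neg_of_neg (by linarith) (by linarith)) (by linarith))
        (by linarith)
    | exact mul_pos_of_neg_of_neg (mul_neg_of_pos_of_neg (mul_pos (by linarith) (by linarith))
        (by linarith)) (by linarith)
    | exact mul_pos_of_neg_of_neg (mul_neg_of_pos_of_neg
        (mul_pos_of_neg_of_neg (by linarith) (by linarith)) (by linarith)) (by linarith)
    | exact mul_pos (mul_pos_of_neg_of_neg (mul_neg_of_neg_of_pos (by linarith) (by linarith))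
        (by linarith)) (by linarith)
    | exact mul_pos (mul_pos_of_neg_of_neg (mul_neg_of_pos_of_neg (by linarith) (by linarith))
        (by linarith)) (by linarith)
    | exact mul_pos_of_neg_of_neg (mul_neg_of_neg_of_pos
        (mul_neg_of_neg_of_pos (by linarith) (by linarith)) (by linarith)) (by linarith)
    | exact mul_pos_of_neg_of_neg (mul_neg_of_neg_of_pos
        (mul_neg_of_pos_of_neg (by linarith) (by linarith)) (by linarith)) (by linarith)
    | exact (a1 (by linarith) (by linarith) (by linarith)).elim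
    | exact (a2 (by linarith) (by linarith) (by linarith)).elim
    | exact (a3 (by linarith) (by linarith) (by linarith)).elim
    | exact (a4 (by linarith) (by linarith) (by linarith)).elim
    | exact (b1 (by linarith) (by linarith) (by linarith)).elim
    | exact (b2 (by linarith) (by linarith) (by linarith)).elim
    | exact (b3 (by linarith) (by linarith) (by linarith)).elim
    | exact (b4 (by linarith) (by linarith) (by linarith)).elim

end Pool.Agent.Shared.PlaneArcs
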