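import Pool.Agent.Shared.Tucker

/-!
A Schrijver type strengthening of the Lovasz-Kneser theorem: the alternate halves of the
`2a`-subsets of `range (2a + r)` need `r + 2` colours.
-/

namespace Pool.Agent.Shared.Schrijver

open Pool.Agent.Shared.Tucker

/-- entries at even (`true`) or odd (`false`) positions -/
def half : List ℕ → Bool → List ℕ
  | [], _ => []
  | x :: t, true => x :: half t false
  | _ :: t, false => half t true

theorem half_length (a : ℕ) (L : List ℕ) (hL : L.length = 2 * a) (b : Bool) :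
    (half L b).length = a := by
  have key : ∀ L : List ℕ, (half L true).length = (L.length + 1) / 2 ∧
      (half L false).length = L.length / 2 := by
    intro L
    induction L with
    | nil => simp [half]
    | cons x t ih =>
      simp only [half, List.length_cons]
      omega
  have := key L
  cases b <;> omega

theorem half_sublist (L : List ℕ) (b : Bool) : (half L b).Sublist L := by
  induction L generalizing b with
  | nil => simp [half]
  | cons x t ih =>
    cases b
    · exact (ih true).cons x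
    · exact (ih false).cons_cons x

def AltL : List ℕ → SV → Prop
  | [], _ => True
  | x :: t, X => x ∈ X.1 ∧ AltL t X.swap

theorem AltL.half {L : List ℕ} {X : SV} (h : AltL L X) :
    (∀ x ∈ half L true, x ∈ X.1) ∧ (∀ x ∈ half L false, x ∈ X.2) := by
  induction L generalizing X with
  | nil => simp [Schrijver.half]
  | cons x t ih =>
    have := ih h.2
    refine ⟨fun y hy => ?_, fun y hy => this.1 y hy⟩
    rcases List.mem_cons.1 hy with rfl | hy
    · exact h.1
    · exact this.2 y hy

theorem AltL.mono {L : List ℕ} {X Y : SV} (h : AltL L X) (hXY : X ≤ Y) : AltL L Y := by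
  induction L generalizing X Y with
  | nil => trivial
  | cons x t ih => exact ⟨hXY.1 h.1, ih h.2 ⟨hXY.2, hXY.1⟩⟩

theorem AltL.mem {L : List ℕ} {X : SV} (h : AltL L X) : ∀ x ∈ L, x ∈ X.1 ∪ X.2 := by
  induction L generalizing X with
  | nil => simp
  | cons x t ih =>
    intro y hy
    rcases List.mem_cons.1 hy with rfl | hy
    · exact Finset.mem_union_left _ h.1
    · have := ih h.2 y hy
      rwa [Finset.union_comm] at this

theorem AltL.take {L : List ℕ} {X : SV} (h : AltL L X) (j : ℕ) : AltL (L.take j) X := by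
  induction L generalizing X j with
  | nil => simpa using h
  | cons x t ih =>
    cases j with
    | zero => trivial
    | succ j => exact ⟨h.1, ih h.2 j⟩

def Alt (X : SV) (j : ℕ) : Prop := ∃ L : List ℕ, L.Pairwise (· < ·) ∧ AltL L X ∧ L.length = j

theorem Alt.le {X : SV} {j i : ℕ} (h : Alt X j) (hi : i ≤ j) : Alt X i := by
  obtain ⟨L, h1, h2, h3⟩ := h
  exact ⟨L.take i, h1.sublist (List.take_sublist _ _), h2.take i, by simp; omega⟩

theorem Alt.succ {N : ℕ} {X : SV} (hX : Good N X) {j : ℕ} (h1 : Alt X j) (h2 : Alt X.swap j) :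
    Alt X (j + 1) ∨ Alt X.swap (j + 1) := by
  obtain ⟨m, hm, hmin⟩ := Finset.exists_min_image _ id hX.2.2.2
  have key : ∀ Y : SV, Disjoint Y.1 Y.2 → m ∈ Y.1 → (∀ x ∈ Y.1 ∪ Y.2, m ≤ x) → Alt Y.swap j →
      Alt Y (j + 1) := by
    rintro Y hd hmY hle ⟨L, p1, p2, p3⟩
    refine ⟨m :: L, ?_, ⟨hmY, p2⟩, by simp [p3]⟩
    cases L with
    | nil => simp
    | cons x t =>
      have hx : m < x := by
        have hx2 : x ∈ Y.2 := p2.1
        refine lt_of_le_of_ne (hle x (Finset.mem_union_right _ hx2)) ?_
        rintro rfl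
        exact Finset.disjoint_left.1 hd hmY hx2
      refine List.pairwise_cons.2 ⟨fun y hy => ?_, p1⟩
      rcases List.mem_cons.1 hy with rfl | hy
      · exact hx
      · exact hx.trans ((List.pairwise_cons.1 p1).1 y hy)
  rcases Finset.mem_union.1 hm with h | h
  · exact Or.inl (key X hX.1 h hmin h2)
  · refine Or.inr (key X.swap hX.1.symm h (fun x hx => hmin x ?_) h1)
    rwa [Finset.union_comm] at hx

/-- one of the two alternate halves of `Y` -/
def mem (Y : Finset ℕ) (b : Bool) : Finset ℕ := (half (Y.sort (· ≤ ·)) b).toFinset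

/-- the family of alternate halves of `2a`-subsets of `range (2a + r)` -/
def fam (a r : ℕ) : Finset (Finset ℕ) :=
  (((Finset.range (2 * a + r)).powersetCard (2 * a)) ×ˢ (Finset.univ : Finset Bool)).image
    (fun p => mem p.1 p.2)

theorem card_fam (a r : ℕ) : (fam a r).card ≤ 2 * (2 * a + r).choose r := by
  refine Finset.card_image_le.trans ?_
  rw [Finset.card_product, Finset.card_powersetCard, Finset.card_range, Finset.card_univ,
    Fintype.card_bool, Nat.choose_symm_add]
  omega

theorem fam_spec {a r : ℕ} {F : Finset ℕ} (h : F ∈ fam a r) :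
    F.card = a ∧ ∀ x ∈ F, x < 2 * a + r := by
  obtain ⟨⟨Y, b⟩, hY, rfl⟩ := Finset.mem_image.1 h
  have hY' := Finset.mem_powersetCard.1 (Finset.mem_product.1 hY).1
  have hs := half_sublist (Y.sort (· ≤ ·)) b
  constructor
  · simp only [mem]
    rw [List.toFinset_card_of_nodup (hs.nodup (Finset.sort_nodup _ _))]
    exact half_length a _ (by rw [Finset.length_sort]; exact hY'.2) b
  · intro x hx
    have : x ∈ Y := by
      have := hs.subset (List.mem_toFinset.1 hx)
      simpa using this
    simpa using hY'.1 this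

theorem exists_fam {a r : ℕ} {X : SV} (hX : Good (2 * a + r) X) (h : Alt X (2 * a)) :
    (∃ F ∈ fam a r, F ⊆ X.1) ∧ (∃ F ∈ fam a r, F ⊆ X.2) := by
  obtain ⟨L, p1, p2, p3⟩ := h
  have hnd : L.Nodup := p1.imp fun h => ne_of_lt h
  have hs : (L.toFinset).sort (· ≤ ·) = L := by
    rw [List.toFinset_sort _ hnd]
    exact p1.imp fun h => le_of_lt h
  have hm : ∀ b, mem L.toFinset b ∈ fam a r := by
    intro b
    refine Finset.mem_image.2 ⟨(L.toFinset, b), Finset.mem_product.2 ⟨?_, by simp⟩, rfl⟩
    refine Finset.mem_powersetCard.2 ⟨fun x hx => ?_, ?_⟩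
    · have := p2.mem x (List.mem_toFinset.1 hx)
      rcases Finset.mem_union.1 this with h | h
      · exact Finset.mem_range.2 (hX.2.1 x h)
      · exact Finset.mem_range.2 (hX.2.2.1 x h)
    · rw [List.toFinset_card_of_nodup hnd, p3]
  refine ⟨⟨_, hm true, fun x hx => ?_⟩, ⟨_, hm false, fun x hx => ?_⟩⟩
  · simp only [mem, hs, List.mem_toFinset] at hx
    exact p2.half.1 x hx
  · simp only [mem, hs, List.mem_toFinset] at hx
    exact p2.half.2 x hx

theorem schrijver_aux (a r : ℕ) (ha : 1 ≤ a) (c : Finset ℕ → ℕ)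
    (hc : ∀ F ∈ fam a r, c F ≤ r)
    (hp : ∀ F ∈ fam a r, ∀ F' ∈ fam a r, Disjoint F F' → c F ≠ c F') : False := by
  classical
  set p : SV → ℕ := fun X => Nat.findGreatest (Alt X) (2 * a) with hp0
  have p_spec : ∀ X, Alt X (p X) := fun X =>
    Nat.findGreatest_spec (P := Alt X) (Nat.zero_le _) ⟨[], List.Pairwise.nil, trivial, rfl⟩
  have p_le : ∀ X, p X ≤ 2 * a := fun X => Nat.findGreatest_le _
  have p_ge : ∀ X j, j ≤ 2 * a → Alt X j → j ≤ p X := fun X j h1 h2 => Nat.le_findGreatest h1 h2
  have p_mono : ∀ X Y, X ≤ Y → p X ≤ p Y := by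
    intro X Y h
    obtain ⟨L, h1, h2, h3⟩ := p_spec X
    exact p_ge Y _ (p_le X) ⟨L, h1, h2.mono h, h3⟩
  set q : Finset ℕ → ℕ := fun A => ((fam a r).filter (· ⊆ A)).sup c with hq
  have q_mono : ∀ A B, A ⊆ B → q A ≤ q B := by
    intro A B h
    refine Finset.sup_mono fun F hF => ?_
    rw [Finset.mem_filter] at hF ⊢
    exact ⟨hF.1, hF.2.trans h⟩
  have q_le : ∀ A, q A ≤ r := fun A =>
    Finset.sup_le fun F hF => hc F (Finset.mem_filter.1 hF).1
  have q_att : ∀ A, (∃ F ∈ fam a r, F ⊆ A) → ∃ F ∈ fam a r, F ⊆ A ∧ q A = c F := by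
    rintro A ⟨F, h1, h2⟩
    obtain ⟨F', hF', e⟩ := Finset.exists_mem_eq_sup ((fam a r).filter (· ⊆ A))
      ⟨F, Finset.mem_filter.2 ⟨h1, h2⟩⟩ c
    exact ⟨F', (Finset.mem_filter.1 hF').1, (Finset.mem_filter.1 hF').2, e⟩
  set w : SV → ℕ := fun X => if p X = 2 * a ∨ p X.swap = 2 * a then 2 * a - 1 + q X.1 else p X
    with hw
  refine (tucker (2 * a + r) (by omega) w ?_ ?_).elim ?_
  rotate_left 2
  · rintro X ⟨-, hX⟩
    have h1 := q_le X.1
    have h2 := p_le X
    simp only [hw] at hX
    split_ifs at hX with h <;> omega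
  · intro X Y _ _ h
    have h1 := p_mono X Y h
    have h2 := p_mono X.swap Y.swap ⟨h.2, h.1⟩
    have h3 := q_mono X.1 Y.1 h.1
    have h4 := p_le X
    have h5 := p_le Y
    have h6 := p_le Y.swap
    simp only [hw]
    split_ifs <;> omega
  · intro X hX
    simp only [hw, Prod.swap_swap, Prod.fst_swap]
    by_cases h : p X = 2 * a ∨ p X.swap = 2 * a
    · rw [if_pos h, if_pos h.symm]
      have : (∃ F ∈ fam a r, F ⊆ X.1) ∧ (∃ F ∈ fam a r, F ⊆ X.2) := by
        rcases h with h | h
        · exact exists_fam hX (h ▸ p_spec X)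
        · exact (exists_fam hX.swap (h ▸ p_spec X.swap)).symm
      obtain ⟨F, f1, f2, f3⟩ := q_att _ this.1
      obtain ⟨F', g1, g2, g3⟩ := q_att _ this.2
      have := hp F f1 F' g1 (Finset.disjoint_of_subset_left f2
        (Finset.disjoint_of_subset_right g2 hX.1))
      omega
    · rw [if_neg h, if_neg (fun h' => h h'.symm)]
      intro e
      have h1 := p_le X
      rcases Alt.succ hX (p_spec X) (e ▸ p_spec X.swap) with h2 | h2
      · have := p_ge _ _ (by omega) h2; omega
      · have := p_ge _ _ (by omega) h2; omega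

/-- **Schrijver type theorem.** A colouring of the family in which disjoint members get different
colours uses at least `r + 2` colours. -/
theorem schrijver (a r : ℕ) (ha : 1 ≤ a) (c : Finset ℕ → ℕ)
    (hp : ∀ F ∈ fam a r, ∀ F' ∈ fam a r, Disjoint F F' → c F ≠ c F') :
    r + 2 ≤ ((fam a r).image c).card := by
  by_contra hlt
  set S := (fam a r).image c with hS
  refine schrijver_aux a r ha (fun F => (S.filter (· < c F)).card) (fun F hF => ?_) ?_
  · have : (S.filter (· < c F)).card < S.card := by
      refine Finset.card_lt_card ⟨Finset.filter_subset _ _, fun h => ?_⟩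
      have := h (Finset.mem_image_of_mem c hF)
      simp at this
    omega
  · intro F hF F' hF' hd
    have key : ∀ x y, x ∈ S → x < y → (S.filter (· < x)).card < (S.filter (· < y)).card := by
      intro x y hx hxy
      refine Finset.card_lt_card ⟨fun z hz => ?_, fun h => ?_⟩
      · rw [Finset.mem_filter] at hz ⊢
        exact ⟨hz.1, hz.2.trans hxy⟩
      · have := h (Finset.mem_filter.2 ⟨hx, hxy⟩)
        simp at this
    rcases lt_or_gt_of_ne (hp F hF F' hF' hd) with h | h
    · exact (key _ _ (Finset.mem_image_of_mem c hF) h).ne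
    · exact (key _ _ (Finset.mem_image_of_mem c hF') h).ne'

end Pool.Agent.Shared.Schrijver
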