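import Pool.Agent.Lib.MP_c8786f_co.W5.Komlos

/-! Vector balancing with a dimension free constant, and bitwise rounding inside groups. -/

namespace Pool.Agent.Shared.Komlos

open Finset

theorem komlos {ι κ : Type} [Fintype ι] [Fintype κ] (v : κ → ι → ℝ) (θ : ℝ) (hθ : 0 ≤ θ)
    (hv : ∀ j, ∑ i, v j i ^ 2 ≤ θ ^ 2) :
    ∃ ε : κ → ℝ, (∀ j, ε j = 1 ∨ ε j = -1) ∧ ∀ i, |∑ j, ε j * v j i| ≤ 100 * θ := by
  rcases hθ.eq_or_lt with rfl | hθ
  · refine ⟨fun _ => 1, fun _ => Or.inl rfl, fun i => ?_⟩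
    have : ∀ j, v j i = 0 := fun j => by
      have h1 := single_le_sum (f := fun i => v j i ^ 2) (fun i _ => sq_nonneg _) (mem_univ i)
      have h2 := hv j
      exact pow_eq_zero_iff two_ne_zero |>.mp (le_antisymm (by linarith) (sq_nonneg _))
    simp [this]
  · exact Pool.Agent.Lib.MP_c8786f_co.W5.komlos_sign v hθ hv

/-- a set that meets every group in an even number of points is paired up inside the groups -/
lemma exists_pairing {I W : Type} [DecidableEq I] [DecidableEq W] (gr : I → W) :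
    ∀ (n : ℕ) (S : Finset I), S.card = n → (∀ w, Even (S.filter fun i => gr i = w).card) →
      ∃ P : Finset (I × I), (∀ q ∈ P, gr q.1 = gr q.2) ∧
        (∀ i, ∑ q ∈ P, ((if i = q.1 then 1 else 0) + (if i = q.2 then 1 else 0) : ℤ) =
          if i ∈ S then 1 else 0) := by
  intro n
  induction n using Nat.strong_induction_on with
  | _ n ih =>
  intro S hn hS
  rcases S.eq_empty_or_nonempty with rfl | ⟨a, ha⟩
  · exact ⟨∅, by simp, by simp⟩
  obtain ⟨b, hb, hab, hg⟩ : ∃ b ∈ S, b ≠ a ∧ gr b = gr a := by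
    by_contra h
    push Not at h
    have : (S.filter fun i => gr i = gr a) = {a} := by
      ext i
      simp only [mem_filter, mem_singleton]
      exact ⟨fun hi => by_contra fun h2 => h i hi.1 h2 hi.2, fun hi => by rw [hi]; exact ⟨ha, rfl⟩⟩
    have h2 := hS (gr a)
    rw [this, card_singleton] at h2
    exact Nat.not_even_one h2
  have hb' : b ∈ S.erase a := mem_erase.mpr ⟨hab, hb⟩
  obtain ⟨P, h1, h2⟩ := ih ((S.erase a).erase b).card
    (by rw [← hn]; exact (card_erase_le).trans_lt (card_erase_lt_of_mem ha)) _ rfl (fun w => by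
      have h3 := hS w
      rw [filter_erase, filter_erase]
      by_cases hw : gr a = w
      · have h4 : a ∈ S.filter fun i => gr i = w := mem_filter.mpr ⟨ha, hw⟩
        have h5 : b ∈ (S.filter fun i => gr i = w).erase a :=
          mem_erase.mpr ⟨hab, mem_filter.mpr ⟨hb, hg.trans hw⟩⟩
        have h6 := card_erase_add_one h4
        have h7 := card_erase_add_one h5
        rw [← h6, ← h7] at h3
        exact (Nat.even_add.mp (show Even (_ + 2) from h3)).mpr even_two
      · rw [erase_eq_of_notMem (a := a) (by simp [hw]), erase_eq_of_notMem (by simp [hg, hw])]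
        exact h3)
  have hn' : (a, b) ∉ P := fun h => by
    have h3 := h2 a
    have h4 := single_le_sum (f := fun q : I × I =>
      ((if a = q.1 then 1 else 0) + (if a = q.2 then 1 else 0) : ℤ))
      (fun q _ => by positivity) h
    rw [h3] at h4
    simp [hab.symm] at h4
  refine ⟨insert (a, b) P, fun q hq => ?_, fun i => ?_⟩
  · rcases mem_insert.mp hq with rfl | hq
    · exact hg.symm
    · exact h1 q hq
  · rw [sum_insert hn', h2]
    by_cases h3 : i = a
    · simp [h3, ha, hab.symm]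
    · by_cases h4 : i = b
      · simp [h4, hb, hab]
      · simp [h3, h4]

theorem round_groups {ι I W F : Type} [Fintype ι] [Fintype I] [DecidableEq W]
    [AddCommGroup F] [Module ℝ F] (A : Submodule ℝ (ι → ℝ)) (bd : (ι → ℝ) →ₗ[ℝ] F)
    (π : I → F) (gr : I → W) (θ : ℝ) (hθ : 0 ≤ θ)
    (h : ∀ i i', gr i = gr i' → ∃ k ∈ A, bd k = π i - π i' ∧ ∑ e, k e ^ 2 ≤ θ ^ 2)
    (N : ℕ) (y : I → ℤ) (hy : ∀ w, (2 ^ N : ℤ) ∣ ∑ i with gr i = w, y i) :
    ∃ (z : I → ℤ) (k : ι → ℝ), k ∈ A ∧
      (∀ i (a : ℤ), (a * 2 ^ N ≤ y i → a ≤ z i) ∧ (y i ≤ a * 2 ^ N → z i ≤ a)) ∧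
      bd k = ∑ i, ((z i : ℝ) - y i / 2 ^ N) • π i ∧ ∀ e, |k e| ≤ 100 * θ := by
  classical
  suffices H : ∃ (z : I → ℤ) (k : ι → ℝ), k ∈ A ∧
      (∀ i (a : ℤ), (a * 2 ^ N ≤ y i → a ≤ z i) ∧ (y i ≤ a * 2 ^ N → z i ≤ a)) ∧
      bd k = ∑ i, ((z i : ℝ) - y i / 2 ^ N) • π i ∧
      ∀ e, |k e| ≤ 100 * θ * (1 - 1 / 2 ^ N) by
    obtain ⟨z, k, h1, h2, h3, h4⟩ := H
    refine ⟨z, k, h1, h2, h3, fun e => (h4 e).trans ?_⟩
    have : (0 : ℝ) ≤ 1 / 2 ^ N := by positivity
    nlinarith
  induction N generalizing y with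
  | zero => exact ⟨y, 0, A.zero_mem, fun i a => by simp, by simp, by simp⟩
  | succ N ih =>
    obtain ⟨P, hP1, hP2⟩ := exists_pairing gr _ (univ.filter fun i => Odd (y i)) rfl (fun w => by
      have h1 : Even (∑ i with gr i = w, y i) :=
        even_iff_two_dvd.mpr ((dvd_pow_self 2 (Nat.succ_ne_zero N)).trans (hy w))
      have h2 : ((∑ i with gr i = w, y i : ℤ) : ZMod 2) = 0 := h1.intCast_zmod_two
      have h3 : ∀ i, ((y i : ℤ) : ZMod 2) = if Odd (y i) then 1 else 0 := fun i => by
        split_ifs with h4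
        · exact h4.intCast_zmod_two
        · exact (Int.not_odd_iff_even.mp h4).intCast_zmod_two
      rw [Int.cast_sum, sum_congr rfl fun i _ => h3 i, sum_boole, filter_comm] at h2
      exact (ZMod.natCast_eq_zero_iff_even).mp h2)
    choose kk hk1 hk2 hk3 using fun q : P => h q.1.1 q.1.2 (hP1 q.1 q.2)
    obtain ⟨ε, hε, hb⟩ := komlos kk θ hθ hk3
    choose η hη hη' using fun q : P => show ∃ η : ℤ, (η = 1 ∨ η = -1) ∧ (η : ℝ) = ε q from by
      rcases hε q with h1 | h1
      · exact ⟨1, Or.inl rfl, by simp [h1]⟩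
      · exact ⟨-1, Or.inr rfl, by simp [h1]⟩
    let c : I → ℤ := fun i =>
      ∑ q : P, η q * ((if i = q.1.1 then 1 else 0) - (if i = q.1.2 then 1 else 0))
    have hP3 : ∀ i, ∑ q : P, ((if i = q.1.1 then 1 else 0) + (if i = q.1.2 then 1 else 0) : ℤ) =
        if Odd (y i) then 1 else 0 := fun i => by
      rw [sum_coe_sort P fun q =>
        ((if i = q.1 then 1 else 0) + (if i = q.2 then 1 else 0) : ℤ), hP2]
      simp
    have c1 : ∀ i, |c i| ≤ if Odd (y i) then 1 else 0 := fun i => by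
      rw [← hP3]
      refine (abs_sum_le_sum_abs _ _).trans (sum_le_sum fun q _ => ?_)
      rcases hη q with h1 | h1 <;> rw [h1] <;> split_ifs <;> simp
    have c2 : ∀ i, Even (y i + c i) := fun i => by
      have h1 : Even (c i + if Odd (y i) then 1 else 0) := by
        rw [← hP3, ← sum_add_distrib]
        refine Finset.even_sum _ fun q _ => ?_
        rcases hη q with h1 | h1 <;> rw [h1] <;> split_ifs <;> decide
      split_ifs at h1 with h2
      · exact h2.add_odd (by simpa [Int.even_add_one] using h1)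
      · exact (Int.not_odd_iff_even.mp h2).add (by simpa using h1)
    choose y' hy' using c2
    have c3 : ∀ w, ∑ i with gr i = w, c i = 0 := fun w => by
      rw [sum_comm]
      refine sum_eq_zero fun q _ => ?_
      rw [← mul_sum, sum_sub_distrib, sum_ite_eq', sum_ite_eq']
      simp [hP1 q.1 q.2]
    obtain ⟨z, k, h1, h2, h3, h4⟩ := ih y' fun w => by
      have h5 := hy w
      have h6 : ∑ i with gr i = w, y i = 2 * ∑ i with gr i = w, y' i := by
        rw [← add_zero (∑ i with gr i = w, y i), ← c3 w, ← sum_add_distrib, mul_sum]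
        exact sum_congr rfl fun i _ => by rw [hy', two_mul]
      rw [h6, pow_succ, mul_comm] at h5
      exact (mul_dvd_mul_iff_left two_ne_zero).mp h5
    refine ⟨z, k + (1 / 2 ^ (N + 1) : ℝ) • ∑ q, ε q • kk q, A.add_mem h1 (A.smul_mem _
      (A.sum_mem fun q _ => A.smul_mem _ (hk1 q))), fun i a => ?_, ?_, fun e => ?_⟩
    · have h5 := c1 i
      have h6 := hy' i
      rw [pow_succ, ← mul_assoc]
      refine ⟨fun h7 => (h2 i a).1 ?_, fun h7 => (h2 i a).2 ?_⟩ <;> split_ifs at h5 with h8 <;>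
        rw [abs_le] at h5 <;> omega
    · have h5 : ∑ q, ε q • (π q.1.1 - π q.1.2) = ∑ i, (c i : ℝ) • π i := by
        simp only [c, Int.cast_sum, sum_smul]
        rw [sum_comm]
        refine sum_congr rfl fun q _ => ?_
        simp [hη', mul_smul, ← smul_sum, sub_smul, ite_smul]
      rw [map_add, h3, map_smul, map_sum]
      simp only [map_smul, hk2]
      rw [h5, smul_sum, ← sum_add_distrib]
      refine sum_congr rfl fun i _ => ?_
      rw [smul_smul, ← add_smul]
      congr 1
      have h6 : (y i : ℝ) + c i = y' i + y' i := by exact_mod_cast hy' i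
      rw [show (c i : ℝ) = 2 * y' i - y i by linarith]
      field_simp
      ring
    · have h5 := hb e
      have h6 : (0 : ℝ) < 1 / 2 ^ (N + 1) := by positivity
      rw [Pi.add_apply, Pi.smul_apply, Finset.sum_apply, smul_eq_mul]
      refine (abs_add_le _ _).trans ?_
      rw [abs_mul, abs_of_pos h6]
      simp only [Pi.smul_apply, smul_eq_mul]
      have h7 : (1 : ℝ) / 2 ^ N = 2 * (1 / 2 ^ (N + 1)) := by field_simp; ring
      have h8 := h4 e
      rw [h7] at h8
      nlinarith [mul_le_mul_of_nonneg_left h5 h6.le]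

end Pool.Agent.Shared.Komlos
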