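import Pool.Agent.Shared.LInner

/-!
The principle of choice holds in `L`.
-/

universe u

namespace Pool.Agent.Shared.LDefs

open ZFSet

/-- The set of entries of a list. -/
def toSet (l : List ZFSet.{u}) : ZFSet.{u} := l.foldr insert ∅

/-- The first entry of a list which lies in `S`. -/
def pick (S : ZFSet.{u}) (l : List ZFSet.{u}) : ZFSet.{u} :=
  l.foldr (fun a r => cases (a ∈ S) a r) ∅

lemma mem_toSet {x : ZFSet.{u}} : ∀ {l : List ZFSet.{u}}, x ∈ toSet l ↔ x ∈ l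
  | [] => by simp [toSet]
  | a :: l => by
    have := mem_toSet (x := x) (l := l)
    simp only [toSet, List.foldr_cons, mem_insert_iff, List.mem_cons] at this ⊢
    rw [this]

lemma pick_mem {S : ZFSet.{u}} : ∀ {l : List ZFSet.{u}}, (∃ z ∈ l, z ∈ S) → pick S l ∈ S
  | [], h => by simp at h
  | a :: l, h => by
    by_cases ha : a ∈ S
    · simpa only [pick, List.foldr_cons, cases_pos ha] using ha
    · have := pick_mem (S := S) (l := l) (by simpa [ha] using h)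
      simpa only [pick, List.foldr_cons, cases_neg ha] using this

lemma Tm.toSet : ∀ {fs : List (E.{u} → ZFSet.{u})}, (∀ f ∈ fs, Tm f) →
    Tm (fun v => toSet (fs.map (· v)))
  | [], _ => Tm.empty
  | f :: _, h => (h f List.mem_cons_self).insert
      (Tm.toSet fun g hg => h g (List.mem_cons_of_mem _ hg))

lemma Tm.pick {s : E.{u} → ZFSet.{u}} (hs : Tm s) : ∀ {fs : List (E.{u} → ZFSet.{u})},
    (∀ f ∈ fs, Tm f) → Tm (fun v => pick (s v) (fs.map (· v)))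
  | [], _ => Tm.empty
  | f :: _, h => Tm.cases (Dfn.mem' (h f List.mem_cons_self) hs) (h f List.mem_cons_self)
      (hs.pick fun g hg => h g (List.mem_cons_of_mem _ hg))

/-- The basic operations. -/
noncomputable def ops (x y : ZFSet.{u}) : List ZFSet.{u} :=
  [pair x y, pr0 x, prS x y, memR x (fst y) (snd y), eqR x (fst y) (snd y), negR x y, x ∩ y,
    exR x y, sect x (fst y) (snd y), Lz x]

lemma ops_tm {s t : E.{u} → ZFSet.{u}} (hs : Tm s) (ht : Tm t) :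
    ∃ fs : List (E.{u} → ZFSet.{u}), (∀ f ∈ fs, Tm f) ∧ ∀ v, ops (s v) (t v) = fs.map (· v) := by
  refine ⟨[fun v => pair (s v) (t v), fun v => pr0 (s v), fun v => prS (s v) (t v),
    fun v => memR (s v) (fst (t v)) (snd (t v)), fun v => eqR (s v) (fst (t v)) (snd (t v)),
    fun v => negR (s v) (t v), fun v => s v ∩ t v, fun v => exR (s v) (t v),
    fun v => sect (s v) (fst (t v)) (snd (t v)), fun v => Lz (s v)], ?_, fun v => rfl⟩
  simp only [List.forall_mem_cons]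
  exact ⟨hs.pair ht, hs.pr0, hs.prS ht, hs.memR ht.fst ht.snd, hs.eqR ht.fst ht.snd, hs.negR ht,
    hs.inter ht, hs.exR ht, hs.sect ht.fst ht.snd, hs.Lz, by simp⟩

lemma Tm.toSet_ops {s t : E.{u} → ZFSet.{u}} (hs : Tm s) (ht : Tm t) :
    Tm (fun v => LDefs.toSet (ops (s v) (t v))) := by
  obtain ⟨fs, h1, h2⟩ := ops_tm hs ht
  simpa only [h2] using Tm.toSet h1

lemma Tm.pick_ops {r s t : E.{u} → ZFSet.{u}} (hr : Tm r) (hs : Tm s) (ht : Tm t) :
    Tm (fun v => LDefs.pick (r v) (ops (s v) (t v))) := by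
  obtain ⟨fs, h1, h2⟩ := ops_tm hs ht
  simpa only [h2] using hr.pick h1

/-- One step of the fine hierarchy. -/
noncomputable def Kstep (b A : ZFSet.{u}) : ZFSet.{u} :=
  insert b (bun A fun x => bun A fun y => toSet (ops x y))

lemma mem_Kstep {b A z : ZFSet.{u}} :
    z ∈ Kstep b A ↔ z = b ∨ ∃ x ∈ A, ∃ y ∈ A, z ∈ toSet (ops x y) := by
  simp only [Kstep, mem_insert_iff, mem_bun]

lemma Tm.Kstep {s t : E.{u} → ZFSet.{u}} (hs : Tm s) (ht : Tm t) :
    Tm (fun v => Kstep (s v) (t v)) :=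
  hs.insert (Tm.bun (F := fun x v => LDefs.bun (t v) fun y => LDefs.toSet (ops x y)) ht
    (Tm.bun (F := fun y w => LDefs.toSet (ops (w 0) y)) ht.tl ((Tm.var 1).toSet_ops (.var 0))))

/-- The fine hierarchy. -/
noncomputable def K : ZFSet.{u} → ZFSet.{u} := hier Kstep

lemma Tm.K {s : E.{u} → ZFSet.{u}} (hs : Tm s) : Tm (fun v => K (s v)) :=
  Tm.hier (S := fun _ b A => LDefs.Kstep b A) ((Tm.var 1).Kstep (.var 0)) hs

/-- Sets appearing in the fine hierarchy. -/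
def KK (x : ZFSet.{u}) : Prop := ∃ o : Ordinal.{u}, x ∈ K o.toZFSet

lemma KK_ord (o : Ordinal.{u}) : KK o.toZFSet :=
  ⟨o + 1, mem_hier_ord.2 ⟨o, lt_add_one o, mem_Kstep.2 (Or.inl rfl)⟩⟩

lemma KK.op {x y z : ZFSet.{u}} (hx : KK x) (hy : KK y) (hz : z ∈ ops x y) : KK z := by
  obtain ⟨a, ha⟩ := hx
  obtain ⟨b, hb⟩ := hy
  exact ⟨max a b + 1, mem_hier_ord.2 ⟨max a b, lt_add_one _, mem_Kstep.2 (Or.inr
    ⟨x, hier_ord_mono (le_max_left _ _) ha, y, hier_ord_mono (le_max_right _ _) hb,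
      mem_toSet.2 hz⟩)⟩⟩

lemma KK.pair {x y : ZFSet.{u}} (hx : KK x) (hy : KK y) : KK (pair x y) :=
  hx.op hy (by simp [ops])

lemma KK.get {M : ZFSet.{u}} (hM : KK M) : ∀ i, KK (gr (get i) (Lists M))
  | 0 => hM.op hM (z := pr0 M) (by simp [ops])
  | i + 1 => prS_get M i ▸ hM.op (hM.get i) (by simp [ops])

lemma KK.rel {M : ZFSet.{u}} (hM : KK M) (φ : Fml) : KK (Rel M φ) := by
  induction φ with
  | mem i j => exact memR_eq M i j ▸ hM.op ((hM.get i).pair (hM.get j)) (by simp [ops])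
  | eq i j => exact eqR_eq M i j ▸ hM.op ((hM.get i).pair (hM.get j)) (by simp [ops])
  | neg φ ih => exact negR_eq M φ ▸ hM.op ih (by simp [ops])
  | and φ ψ ih1 ih2 => exact inter_eq M φ ψ ▸ ih1.op ih2 (by simp [ops])
  | ex φ ih => exact exR_eq M φ ▸ hM.op ih (by simp [ops])

lemma KK_code : ∀ {l : List ZFSet.{u}}, (∀ x ∈ l, KK x) → KK (code l)
  | [], _ => by simpa [code] using KK_ord.{u} 0
  | x :: _, h => (h x List.mem_cons_self).pair
      (KK_code fun y hy => h y (List.mem_cons_of_mem _ hy))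

theorem KK_of_mem_L {x : ZFSet.{u}} (hx : x ∈ L) : KK x := by
  obtain ⟨o, ho⟩ := hx
  induction o using WellFoundedLT.induction generalizing x with
  | ind o ih =>
    obtain ⟨a, ha, hx⟩ := mem_Lset.1 ho
    obtain ⟨φ, l, hl, rfl⟩ := mem_Def_iff.1 hx
    have hM : KK (Lset a) := Lz_toZFSet a ▸ (KK_ord a).op (KK_ord a) (by simp [ops])
    exact hM.op ((hM.rel φ).pair (KK_code fun p hp => ih a ha (hl p hp))) (by simp [ops])

/-- The least element of `a` with property `P`. -/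
def least (a : ZFSet.{u}) (P : ZFSet.{u} → Prop) : ZFSet.{u} :=
  ⋃₀ (a.sep fun b => P b ∧ ∀ c ∈ b, ¬ P c)

lemma least_spec {o : Ordinal.{u}} {P : ZFSet.{u} → Prop} (h : ∃ a < o, P a.toZFSet) :
    ∃ a < o, P a.toZFSet ∧ (∀ b < a, ¬ P b.toZFSet) ∧ least o.toZFSet P = a.toZFSet := by
  obtain ⟨a, ⟨ha, hP⟩, hmin⟩ := wellFounded_lt.has_min {a | a < o ∧ P a.toZFSet} h
  have hmin' : ∀ b < a, ¬ P b.toZFSet := fun b hb hb' => hmin b ⟨hb.trans ha, hb'⟩ hb
  refine ⟨a, ha, hP, hmin', ?_⟩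
  have : (o.toZFSet.sep fun b => P b ∧ ∀ c ∈ b, ¬ P c) = {a.toZFSet} := by
    ext z
    rw [mem_sep, mem_singleton]
    constructor
    · rintro ⟨hz, h1, h2⟩
      obtain ⟨b, hb, rfl⟩ := Ordinal.mem_toZFSet_iff.1 hz
      rcases lt_trichotomy a b with h | h | h
      · exact absurd hP (h2 _ (Ordinal.toZFSet_mem_toZFSet_iff.2 h))
      · rw [h]
      · exact absurd h1 (hmin' b h)
    · rintro rfl
      refine ⟨Ordinal.toZFSet_mem_toZFSet_iff.2 ha, hP, fun c hc => ?_⟩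
      obtain ⟨b, hb, rfl⟩ := Ordinal.mem_toZFSet_iff.1 hc
      exact hmin' b hb
  rw [least, this, sUnion_singleton]

lemma Tm.least {P : ZFSet.{u} → E.{u} → Prop} {t : E.{u} → ZFSet.{u}} (ht : Tm t)
    (h : Dfn (fun w => P (w 0) (LDefs.tl w))) : Tm (fun v => least (t v) (fun x => P x v)) :=
  (Tm.sep (P := fun b v => P b v ∧ ∀ c ∈ b, ¬ P c v) ht
    (h.and (Dfn.ball (P := fun c w => ¬ P c (LDefs.tl w)) (.var 0) h.lift.not))).sUnion

/-- The first stage where `S` is met. -/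
noncomputable def lst (a S : ZFSet.{u}) : ZFSet.{u} :=
  least a fun b => ∃ z ∈ Kstep b (K b), z ∈ S

/-- Candidates for the first argument. -/
noncomputable def cd1 (A S : ZFSet.{u}) : ZFSet.{u} :=
  A.sep fun x => ∃ y ∈ A, ∃ z ∈ toSet (ops x y), z ∈ S

/-- Candidates for the second argument. -/
noncomputable def cd2 (A S x : ZFSet.{u}) : ZFSet.{u} :=
  A.sep fun y => ∃ z ∈ toSet (ops x y), z ∈ S

/-- The chosen element. -/
noncomputable def ch (b c S : ZFSet.{u}) : ZFSet.{u} :=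
  cases (b ∈ S) b (pick S (ops (app c (cd1 (K b) S)) (app c (cd2 (K b) S (app c (cd1 (K b) S))))))

/-- The choice functions on the fine hierarchy. -/
noncomputable def Cz : ZFSet.{u} → ZFSet.{u} :=
  zrec fun a h => gr (fun S => ch (lst a S) (app h (lst a S)) S) (powL (K a))

lemma Tm.lst {s t : E.{u} → ZFSet.{u}} (hs : Tm s) (ht : Tm t) : Tm (fun v => lst (s v) (t v)) :=
  Tm.least (P := fun b v => ∃ z ∈ LDefs.Kstep b (LDefs.K b), z ∈ t v) hs
    (Dfn.bex (P := fun z w => z ∈ t (LDefs.tl w)) ((Tm.var 0).Kstep (Tm.var 0).K)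
      (Dfn.mem' (.var 0) ht.tl.tl))

lemma Tm.cd1 {s t : E.{u} → ZFSet.{u}} (hs : Tm s) (ht : Tm t) : Tm (fun v => cd1 (s v) (t v)) :=
  Tm.sep (P := fun x v => ∃ y ∈ s v, ∃ z ∈ LDefs.toSet (ops x y), z ∈ t v) hs
    (Dfn.bex (P := fun y w => ∃ z ∈ LDefs.toSet (ops (w 0) y), z ∈ t (LDefs.tl w)) hs.tl
      (Dfn.bex (P := fun z w => z ∈ t (LDefs.tl (LDefs.tl w))) ((Tm.var 1).toSet_ops (.var 0))
        (Dfn.mem' (.var 0) ht.tl.tl.tl)))

lemma Tm.cd2 {s t r : E.{u} → ZFSet.{u}} (hs : Tm s) (ht : Tm t) (hr : Tm r) :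
    Tm (fun v => cd2 (s v) (t v) (r v)) :=
  Tm.sep (P := fun y v => ∃ z ∈ LDefs.toSet (ops (r v) y), z ∈ t v) hs
    (Dfn.bex (P := fun z w => z ∈ t (LDefs.tl w)) (hr.tl.toSet_ops (.var 0))
      (Dfn.mem' (.var 0) ht.tl.tl))

lemma Tm.ch {s t r : E.{u} → ZFSet.{u}} (hs : Tm s) (ht : Tm t) (hr : Tm r) :
    Tm (fun v => ch (s v) (t v) (r v)) :=
  Tm.cases (Dfn.mem' hs hr) hs (hr.pick_ops (ht.app (hs.K.cd1 hr))
    (ht.app (hs.K.cd2 hr (ht.app (hs.K.cd1 hr)))))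

lemma Tm.Cz {s : E.{u} → ZFSet.{u}} (hs : Tm s) : Tm (fun v => Cz (s v)) :=
  Tm.zrec (G := fun _ a h => LDefs.gr (fun S => LDefs.ch (LDefs.lst a S)
      (LDefs.app h (LDefs.lst a S)) S) (LDefs.powL (LDefs.K a)))
    (Tm.gr (F := fun S w => LDefs.ch (LDefs.lst (w 1) S) (LDefs.app (w 0) (LDefs.lst (w 1) S)) S)
      (Tm.var 1).K.powL (((Tm.var 2).lst (.var 0)).ch ((Tm.var 1).app ((Tm.var 2).lst (.var 0)))
        (.var 0))) hs

lemma Cz_spec (o : Ordinal.{u}) : ∀ S ∈ L, S ⊆ K o.toZFSet → (∃ z, z ∈ S) →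
    app (Cz o.toZFSet) S ∈ S := by
  induction o using WellFoundedLT.induction with
  | ind o ih =>
    rintro S hS hsub ⟨z, hz⟩
    rw [Cz, zrec_eq, app_gr (mem_powL.2 ⟨hsub, hS⟩)]
    obtain ⟨a, ha, hP, -, e⟩ := least_spec (o := o)
      (P := fun b => ∃ z ∈ Kstep b (K b), z ∈ S) (by
        obtain ⟨a, ha, h⟩ := mem_hier_ord.1 (hsub hz)
        exact ⟨a, ha, z, h, hz⟩)
    rw [lst, e, app_gr (Ordinal.toZFSet_mem_toZFSet_iff.2 ha), ch]
    by_cases hb : a.toZFSet ∈ S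
    · rwa [cases_pos hb]
    rw [cases_neg hb]
    obtain ⟨z, hz1, hz2⟩ := hP
    rcases mem_Kstep.1 hz1 with rfl | ⟨x, hx, y, hy, hz1⟩
    · exact absurd hz2 hb
    have hK : K a.toZFSet ∈ L := Tm.closed (Tm.const (toZFSet_mem_L a)).K
    have h1 := ih a ha (cd1 (K a.toZFSet) S) (Tm.closed ((Tm.const hK).cd1 (.const hS)))
      (fun _ h => (mem_sep.1 h).1) ⟨x, mem_sep.2 ⟨hx, y, hy, z, hz1, hz2⟩⟩
    obtain ⟨hx', y', hy', h2⟩ := mem_sep.1 h1
    have h3 := ih a ha (cd2 (K a.toZFSet) S (app (Cz a.toZFSet) (cd1 (K a.toZFSet) S)))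
      (Tm.closed ((Tm.const hK).cd2 (.const hS) (.const (L_trans hK hx'))))
      (fun _ h => (mem_sep.1 h).1) ⟨y', mem_sep.2 ⟨hy', h2⟩⟩
    obtain ⟨-, z', h4, h5⟩ := mem_sep.1 h3
    exact pick_mem ⟨z', mem_toSet.1 h4, h5⟩

/-- Choice in `L`. -/
theorem choice_L {B : ZFSet.{u}} (hB : B ∈ L) :
    ∃ c ∈ L, ∀ S ∈ L, S ⊆ B → (∃ z, z ∈ S) → app c S ∈ S := by
  choose g hg using fun x : B => KK_of_mem_L (L_trans hB x.2)
  refine ⟨Cz (iSup g).toZFSet, Tm.closed (Tm.const (toZFSet_mem_L _)).Cz, fun S hS hsub h => ?_⟩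
  exact Cz_spec _ S hS (fun x hx => hier_ord_mono (Ordinal.le_iSup g ⟨x, hsub hx⟩)
    (hg ⟨x, hsub hx⟩)) h

end Pool.Agent.Shared.LDefs
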