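import Pool.Agent.Shared.LDefs

/-!
Basic facts on `L`, predicates definable over `L`, reflection and comprehension.
-/

universe u

namespace Pool.Agent.Shared.LDefs

open ZFSet

lemma mem_Def {M A : ZFSet.{u}} : A ∈ Def M ↔ A ⊆ M ∧ ∃ (φ : Fml) (l : List ZFSet.{u}),
    (∀ p ∈ l, p ∈ M) ∧ ∀ x ∈ M, (x ∈ A ↔ Sat M φ (x :: l)) := by
  simp [Def]

lemma mem_Lset {o : Ordinal.{u}} {x : ZFSet.{u}} : x ∈ Lset o ↔ ∃ a < o, x ∈ Def (Lset a) := by
  rw [Lset]; simp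

lemma self_mem_Def (M : ZFSet.{u}) : M ∈ Def M :=
  mem_Def.2 ⟨subset_rfl, .eq 0 0, [], by simp, fun x hx => by simp [Sat, hx]⟩

lemma subset_Def {M : ZFSet.{u}} (hM : M.IsTransitive) : M ⊆ Def M := fun a ha =>
  mem_Def.2 ⟨hM a ha, .mem 0 1, [a], by simpa, fun x _ => by simp [Sat]⟩

lemma isTransitive_Lset (o : Ordinal.{u}) : (Lset o).IsTransitive := by
  induction o using WellFoundedLT.induction with
  | ind o ih =>
    intro x hx y hy
    obtain ⟨a, ha, hxa⟩ := mem_Lset.1 hx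
    exact mem_Lset.2 ⟨a, ha, subset_Def (ih a ha) ((mem_Def.1 hxa).1 hy)⟩

lemma Lset_mono {a b : Ordinal.{u}} (h : a ≤ b) : Lset a ⊆ Lset b := fun x hx => by
  obtain ⟨c, hc, hx⟩ := mem_Lset.1 hx
  exact mem_Lset.2 ⟨c, hc.trans_le h, hx⟩

lemma Def_subset_Lset {a b : Ordinal.{u}} (h : a < b) : Def (Lset a) ⊆ Lset b := fun _ hx =>
  mem_Lset.2 ⟨a, h, hx⟩

lemma Def_mem_L {a : Ordinal.{u}} {x : ZFSet.{u}} (h : x ∈ Def (Lset a)) : x ∈ L :=
  ⟨a + 1, Def_subset_Lset (lt_add_one a) h⟩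

lemma Lset_mem_L (a : Ordinal.{u}) : Lset a ∈ L := Def_mem_L (self_mem_Def _)

lemma L_trans {x y : ZFSet.{u}} (hx : x ∈ L) (hy : y ∈ x) : y ∈ L := by
  obtain ⟨o, ho⟩ := hx
  exact ⟨o, isTransitive_Lset o x ho hy⟩

lemma exists_bound {ι : Type*} [Small.{u} ι] (f : ι → ZFSet.{u}) (hf : ∀ i, f i ∈ L) :
    ∃ o : Ordinal.{u}, ∀ i, f i ∈ Lset o := by
  choose g hg using hf
  exact ⟨iSup g, fun i => Lset_mono (Ordinal.le_iSup g i) (hg i)⟩

lemma exists_bound_set {A : ZFSet.{u}} (hA : ∀ x ∈ A, x ∈ L) : ∃ o : Ordinal.{u}, A ⊆ Lset o := by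
  obtain ⟨o, ho⟩ := exists_bound (fun x : A => (x : ZFSet)) (fun x => hA x x.2)
  exact ⟨o, fun x hx => ho ⟨x, hx⟩⟩

lemma exists_bound_list (l : List ZFSet.{u}) (hl : ∀ x ∈ l, x ∈ L) :
    ∃ o : Ordinal.{u}, ∀ x ∈ l, x ∈ Lset o := by
  induction l with
  | nil => exact ⟨0, by simp⟩
  | cons a l ih =>
    obtain ⟨o, ho⟩ := ih (fun x hx => hl x (List.mem_cons_of_mem _ hx))
    obtain ⟨o', ho'⟩ := hl a List.mem_cons_self
    refine ⟨max o o', fun x hx => ?_⟩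
    rcases List.mem_cons.1 hx with rfl | hx
    · exact Lset_mono (le_max_right _ _) ho'
    · exact Lset_mono (le_max_left _ _) (ho x hx)

/-- Environments. -/
abbrev E := ℕ → ZFSet.{u}

/-- Push a value on an environment. -/
def cons (x : ZFSet.{u}) (v : E.{u}) : E.{u}
  | 0 => x
  | n + 1 => v n

/-- Drop the first value of an environment. -/
abbrev tl (v : E.{u}) : E.{u} := fun i => v (i + 1)

@[simp] lemma cons_zero (x : ZFSet.{u}) (v : E.{u}) : cons x v 0 = x := rfl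
@[simp] lemma cons_succ (x : ZFSet.{u}) (v : E.{u}) (n : ℕ) : cons x v (n + 1) = v n := rfl
@[simp] lemma tl_cons (x : ZFSet.{u}) (v : E.{u}) : tl (cons x v) = v := rfl

/-- All values of the environment are constructible. -/
def EL (v : E.{u}) : Prop := ∀ i, v i ∈ L

lemma EL.cons {x : ZFSet.{u}} {v : E.{u}} (hv : EL v) (hx : x ∈ L) : EL (cons x v)
  | 0 => hx
  | n + 1 => hv n

lemma EL.tl {v : E.{u}} (hv : EL v) : EL (tl v) := fun i => hv (i + 1)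

/-- Predicates definable over `L`, with constructible parameters. -/
inductive Dfn : (E.{u} → Prop) → Prop
  | mem (i j : ℕ) : Dfn (fun v => v i ∈ v j)
  | eq (i j : ℕ) : Dfn (fun v => v i = v j)
  | eqc (i : ℕ) (c : ZFSet.{u}) : c ∈ L → Dfn (fun v => v i = c)
  | not {P} : Dfn P → Dfn (fun v => ¬ P v)
  | and {P Q} : Dfn P → Dfn Q → Dfn (fun v => P v ∧ Q v)
  | ex' {P} : Dfn P → Dfn (fun v => ∃ x ∈ L, P (cons x v))
  | congr {P Q} : Dfn P → (∀ v, EL v → (P v ↔ Q v)) → Dfn Q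

/-- Push a list on an environment. -/
def push : List ZFSet.{u} → E.{u} → E.{u}
  | [], v => v
  | x :: xs, v => cons x (push xs v)

lemma EL.push {v : E.{u}} (hv : EL v) : ∀ {xs : List ZFSet.{u}}, (∀ x ∈ xs, x ∈ L) →
    EL (push xs v)
  | [], _ => hv
  | x :: _, h => (hv.push (fun y hy => h y (List.mem_cons_of_mem _ hy))).cons
      (h x List.mem_cons_self)

lemma idx_const (c : ZFSet.{u}) (l : List ZFSet.{u}) (hc : c ∈ l) : ∀ k : ℕ, ∃ j, ∀ xs : List ZFSet.{u},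
    xs.length = k → (xs ++ l).getD j ∅ = c
  | 0 => by
    obtain ⟨j, hj, rfl⟩ := List.mem_iff_getElem.1 hc
    refine ⟨j, fun xs hxs => ?_⟩
    rw [List.length_eq_zero_iff.1 hxs]
    simp [hj]
  | k + 1 => by
    obtain ⟨j, hj⟩ := idx_const c l hc k
    refine ⟨j + 1, fun xs hxs => ?_⟩
    obtain ⟨x, xs', rfl⟩ := List.exists_cons_of_length_eq_add_one hxs
    simpa using hj xs' (by simpa using hxs)

lemma idx_var (v : E.{u}) : ∀ (k i : ℕ), ∃ m, ∀ l : List ZFSet.{u}, v m ∈ l → ∃ j,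
    ∀ xs : List ZFSet.{u}, xs.length = k → (xs ++ l).getD j ∅ = push xs v i
  | 0, i => ⟨i, fun l hl => by
      obtain ⟨j, hj⟩ := idx_const _ l hl 0
      refine ⟨j, fun xs hxs => ?_⟩
      rw [hj xs hxs, List.length_eq_zero_iff.1 hxs]; rfl⟩
  | k + 1, 0 => ⟨0, fun l _ => ⟨0, fun xs hxs => by
      obtain ⟨x, xs', rfl⟩ := List.exists_cons_of_length_eq_add_one hxs
      rfl⟩⟩
  | k + 1, i + 1 => by
    obtain ⟨m, hm⟩ := idx_var v k i
    refine ⟨m, fun l hl => ?_⟩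
    obtain ⟨j, hj⟩ := hm l hl
    refine ⟨j + 1, fun xs hxs => ?_⟩
    obtain ⟨x, xs', rfl⟩ := List.exists_cons_of_length_eq_add_one hxs
    simpa [push] using hj xs' (by simpa using hxs)

/-- `γ` is a nonzero limit closed under `g`. -/
def Closed (g : Ordinal.{u} → Ordinal.{u}) (γ : Ordinal.{u}) : Prop :=
  0 < γ ∧ (∀ β < γ, β + 1 < γ) ∧ ∀ β < γ, g β < γ

lemma Closed.mono {g g' : Ordinal.{u} → Ordinal.{u}} {γ : Ordinal.{u}} (h : Closed g' γ)
    (hg : ∀ β, g β ≤ g' β) : Closed g γ :=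
  ⟨h.1, h.2.1, fun β hβ => (hg β).trans_lt (h.2.2 β hβ)⟩

lemma Closed.exists_lt {g : Ordinal.{u} → Ordinal.{u}} {γ : Ordinal.{u}} (h : Closed g γ) :
    ∀ xs : List ZFSet.{u}, (∀ x ∈ xs, x ∈ Lset γ) → ∃ β < γ, ∀ x ∈ xs, x ∈ Lset β
  | [], _ => ⟨0, h.1, by simp⟩
  | x :: xs, hx => by
    obtain ⟨β, hβ, h1⟩ := h.exists_lt xs (fun y hy => hx y (List.mem_cons_of_mem _ hy))
    obtain ⟨a, ha, h2⟩ := mem_Lset.1 (hx x List.mem_cons_self)
    refine ⟨max β (a + 1), max_lt hβ (h.2.1 a ha), fun y hy => ?_⟩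
    rcases List.mem_cons.1 hy with rfl | hy
    · exact Lset_mono (le_max_right _ _) (Def_subset_Lset (lt_add_one a) h2)
    · exact Lset_mono (le_max_left _ _) (h1 y hy)

lemma exists_closed (g : Ordinal.{u} → Ordinal.{u}) (α : Ordinal.{u}) :
    ∃ γ, α ≤ γ ∧ Closed g γ := by
  let s : ℕ → Ordinal.{u} := fun n => Nat.rec (α + 1)
    (fun _ t => max (⨆ β : Set.Iio t, (g β + 1)) (t + 1)) n
  have hs : ∀ n, s (n + 1) = max (⨆ β : Set.Iio (s n), (g β + 1)) (s n + 1) := fun n => rfl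
  have h0 : α + 1 ≤ iSup s := Ordinal.le_iSup s 0
  refine ⟨iSup s, (lt_add_one α).le.trans h0, ?_, ?_, ?_⟩
  · exact lt_of_lt_of_le (lt_of_le_of_lt zero_le (lt_add_one α)) h0
  · intro β hβ
    obtain ⟨n, hn⟩ := Ordinal.lt_iSup_iff.1 hβ
    refine lt_of_lt_of_le ?_ (Ordinal.le_iSup s (n + 1))
    rw [hs]
    exact lt_of_lt_of_le (lt_of_le_of_lt (Order.add_one_le_of_lt hn) (lt_add_one _))
      (le_max_right _ _)
  · intro β hβ
    have aux : ∀ t : Ordinal.{u}, β < t → g β + 1 ≤ ⨆ β : Set.Iio t, (g β + 1) := fun t ht =>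
      Ordinal.le_iSup (fun β : Set.Iio t => g β + 1) ⟨β, ht⟩
    obtain ⟨n, hn⟩ := Ordinal.lt_iSup_iff.1 hβ
    refine lt_of_lt_of_le ?_ (Ordinal.le_iSup s (n + 1))
    rw [hs]
    refine lt_of_lt_of_le (lt_add_one _) (le_trans ?_ (le_max_left _ _))
    exact aux _ hn

theorem reflect {P : E.{u} → Prop} (h : Dfn P) (v : E.{u}) (hv : EL v) : ∀ k : ℕ,
    ∃ (C : List ZFSet.{u}) (g : Ordinal.{u} → Ordinal.{u}), (∀ c ∈ C, c ∈ L) ∧
      ∀ γ, Closed g γ → ∀ l : List ZFSet.{u}, (∀ c ∈ C, c ∈ l) → ∃ φ : Fml,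
        ∀ xs : List ZFSet.{u}, xs.length = k → (∀ x ∈ xs, x ∈ Lset γ) →
          (P (push xs v) ↔ Sat (Lset γ) φ (xs ++ l)) := by
  induction h with
  | mem i j =>
    intro k
    obtain ⟨m, hm⟩ := idx_var v k i
    obtain ⟨n, hn⟩ := idx_var v k j
    refine ⟨[v m, v n], id, by simpa using ⟨hv m, hv n⟩, fun γ _ l hl => ?_⟩
    obtain ⟨a, ha⟩ := hm l (hl _ (by simp))
    obtain ⟨b, hb⟩ := hn l (hl _ (by simp))
    exact ⟨.mem a b, fun xs hxs _ => by simp only [Sat, ha xs hxs, hb xs hxs]⟩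
  | eq i j =>
    intro k
    obtain ⟨m, hm⟩ := idx_var v k i
    obtain ⟨n, hn⟩ := idx_var v k j
    refine ⟨[v m, v n], id, by simpa using ⟨hv m, hv n⟩, fun γ _ l hl => ?_⟩
    obtain ⟨a, ha⟩ := hm l (hl _ (by simp))
    obtain ⟨b, hb⟩ := hn l (hl _ (by simp))
    exact ⟨.eq a b, fun xs hxs _ => by simp only [Sat, ha xs hxs, hb xs hxs]⟩
  | eqc i c hc =>
    intro k
    obtain ⟨m, hm⟩ := idx_var v k i
    refine ⟨[v m, c], id, by simpa using ⟨hv m, hc⟩, fun γ _ l hl => ?_⟩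
    obtain ⟨a, ha⟩ := hm l (hl _ (by simp))
    obtain ⟨b, hb⟩ := idx_const c l (hl _ (by simp)) k
    exact ⟨.eq a b, fun xs hxs _ => by simp only [Sat, ha xs hxs, hb xs hxs]⟩
  | not _ ih =>
    intro k
    obtain ⟨C, g, hC, H⟩ := ih k
    refine ⟨C, g, hC, fun γ hγ l hl => ?_⟩
    obtain ⟨φ, hφ⟩ := H γ hγ l hl
    exact ⟨.neg φ, fun xs hxs hx => by simp only [Sat, hφ xs hxs hx]⟩
  | and _ _ ih1 ih2 =>
    intro k
    obtain ⟨C1, g1, hC1, H1⟩ := ih1 k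
    obtain ⟨C2, g2, hC2, H2⟩ := ih2 k
    refine ⟨C1 ++ C2, fun β => max (g1 β) (g2 β), ?_, fun γ hγ l hl => ?_⟩
    · intro c hc
      rcases List.mem_append.1 hc with h | h
      exacts [hC1 c h, hC2 c h]
    obtain ⟨φ, hφ⟩ := H1 γ (hγ.mono fun β => le_max_left _ _) l
      (fun c hc => hl c (List.mem_append_left _ hc))
    obtain ⟨ψ, hψ⟩ := H2 γ (hγ.mono fun β => le_max_right _ _) l
      (fun c hc => hl c (List.mem_append_right _ hc))
    exact ⟨.and φ ψ, fun xs hxs hx => by simp only [Sat, hφ xs hxs hx, hψ xs hxs hx]⟩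
  | @ex' P _ ih =>
    intro k
    obtain ⟨C, g, hC, H⟩ := ih (k + 1)
    have hw : ∀ xs : List ZFSet.{u}, ∃ o : Ordinal.{u},
        (∃ x ∈ L, P (cons x (push xs v))) → ∃ x ∈ Lset o, P (cons x (push xs v)) := by
      intro xs
      by_cases hx : ∃ x ∈ L, P (cons x (push xs v))
      · obtain ⟨x, ⟨o, ho⟩, hP⟩ := hx
        exact ⟨o, fun _ => ⟨x, ho, hP⟩⟩
      · exact ⟨0, fun h => absurd h hx⟩
    choose w hw using hw
    refine ⟨C, fun β => max (g β) (⨆ ys : List (Lset β), w (ys.map Subtype.val)), hC,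
      fun γ hγ l hl => ?_⟩
    obtain ⟨φ, hφ⟩ := H γ (hγ.mono fun β => le_max_left _ _) l hl
    refine ⟨.ex φ, fun xs hxs hx => ?_⟩
    have key : ∀ x ∈ Lset γ, (P (cons x (push xs v)) ↔ Sat (Lset γ) φ (x :: (xs ++ l))) := by
      intro x hxγ
      refine hφ (x :: xs) (by simp [hxs]) ?_
      intro y hy
      rcases List.mem_cons.1 hy with rfl | hy
      exacts [hxγ, hx y hy]
    simp only [Sat]
    constructor
    · intro h1
      obtain ⟨x, hx1, hx2⟩ := hw xs h1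
      obtain ⟨β, hβ, hxβ⟩ := hγ.exists_lt xs hx
      have h2 : w xs ≤ γ := by
        refine le_trans ?_ ((le_max_right _ _).trans (hγ.2.2 β hβ).le)
        have h3 := Ordinal.le_iSup (fun ys : List (Lset β) => w (ys.map Subtype.val))
          (xs.attachWith (· ∈ Lset β) hxβ)
        simpa using h3
      exact ⟨x, Lset_mono h2 hx1, (key x (Lset_mono h2 hx1)).1 hx2⟩
    · rintro ⟨x, hx1, hx2⟩
      exact ⟨x, ⟨γ, hx1⟩, (key x hx1).2 hx2⟩
  | congr _ hPQ ih =>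
    intro k
    obtain ⟨C, g, hC, H⟩ := ih k
    refine ⟨C, g, hC, fun γ hγ l hl => ?_⟩
    obtain ⟨φ, hφ⟩ := H γ hγ l hl
    exact ⟨φ, fun xs hxs hx => by
      rw [← hφ xs hxs hx, hPQ _ (hv.push fun x h => ⟨γ, hx x h⟩)]⟩

/-- Comprehension: a set of constructible sets which is definable over `L` is constructible. -/
theorem comprehension {P : E.{u} → Prop} (h : Dfn P) {v : E.{u}} (hv : EL v) {A : ZFSet.{u}}
    (hA : ∀ x ∈ A, x ∈ L) (hP : ∀ x ∈ L, (x ∈ A ↔ P (cons x v))) : A ∈ L := by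
  obtain ⟨C, g, hC, H⟩ := reflect h v hv 1
  obtain ⟨o1, ho1⟩ := exists_bound_set hA
  obtain ⟨o2, ho2⟩ := exists_bound_list C hC
  obtain ⟨γ, hγ1, hγ⟩ := exists_closed g (max o1 o2)
  obtain ⟨φ, hφ⟩ := H γ hγ C (fun _ hc => hc)
  refine Def_mem_L (a := γ) (mem_Def.2 ⟨ho1.trans (Lset_mono ((le_max_left _ _).trans hγ1)),
    φ, C, fun p hp => Lset_mono ((le_max_right _ _).trans hγ1) (ho2 p hp), fun x hx => ?_⟩)
  rw [hP x ⟨γ, hx⟩]
  exact hφ [x] rfl (by simpa using hx)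

end Pool.Agent.Shared.LDefs
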