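import Mathlib

/-!
Gödel's constructible universe inside `ZFSet`.
-/

universe u

namespace Pool.Agent.Shared.LDefs

/-- Formulas of the language of set theory, with de Bruijn variables. -/
inductive Fml : Type
  | mem (i j : ℕ) : Fml
  | eq (i j : ℕ) : Fml
  | neg (φ : Fml) : Fml
  | and (φ ψ : Fml) : Fml
  | ex (φ : Fml) : Fml

/-- Satisfaction in the structure `(M, ∈)`; variable `i` denotes entry `i` of the list
(and `∅` if the list is too short). -/
def Sat (M : ZFSet.{u}) : Fml → List ZFSet.{u} → Prop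
  | .mem i j, l => l.getD i ∅ ∈ l.getD j ∅
  | .eq i j, l => l.getD i ∅ = l.getD j ∅
  | .neg φ, l => ¬ Sat M φ l
  | .and φ ψ, l => Sat M φ l ∧ Sat M ψ l
  | .ex φ, l => ∃ x ∈ M, Sat M φ (x :: l)

/-- The set of subsets of `M` that are first order definable over `(M, ∈)` with parameters
from `M`. -/
def Def (M : ZFSet.{u}) : ZFSet.{u} :=
  M.powerset.sep fun A => ∃ (φ : Fml) (l : List ZFSet.{u}), (∀ p ∈ l, p ∈ M) ∧
    ∀ x ∈ M, (x ∈ A ↔ Sat M φ (x :: l))

/-- The constructible hierarchy: `L_α = ⋃_{β < α} Def (L_β)`. -/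
noncomputable def Lset (o : Ordinal.{u}) : ZFSet.{u} :=
  ZFSet.iUnion fun a : Set.Iio o => Def (Lset a)
termination_by o
decreasing_by exact a.2

/-- The constructible universe, as a class of sets. -/
def L : Set ZFSet.{u} := {x | ∃ o : Ordinal.{u}, x ∈ Lset o}

end Pool.Agent.Shared.LDefs
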