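import Pool.Agent.Shared.LTool

/-!
Hierarchies definable over `L`; the operations `Def` and `α ↦ L_α` are definable over `L`.
-/

universe u

namespace Pool.Agent.Shared.LDefs

open ZFSet

/-- The hierarchy `H a = ⋃_{b ∈ a} S b (H b)`. -/
noncomputable def hier (S : ZFSet.{u} → ZFSet.{u} → ZFSet.{u}) : ZFSet.{u} → ZFSet.{u} :=
  zrec (fun a h => bun a (fun b => S b (app h b)))

lemma mem_hier {S : ZFSet.{u} → ZFSet.{u} → ZFSet.{u}} {a x : ZFSet.{u}} :
    x ∈ hier S a ↔ ∃ b ∈ a, x ∈ S b (hier S b) := by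
  rw [hier, zrec_eq, mem_bun]
  exact exists_congr fun b => and_congr_right fun hb => by rw [app_gr hb]

lemma hier_mono {S : ZFSet.{u} → ZFSet.{u} → ZFSet.{u}} {a b : ZFSet.{u}} (h : a ⊆ b) :
    hier S a ⊆ hier S b := fun _ hx => by
  obtain ⟨c, hc, hx⟩ := mem_hier.1 hx
  exact mem_hier.2 ⟨c, h hc, hx⟩

lemma hier_ind {S : ZFSet.{u} → ZFSet.{u} → ZFSet.{u}} {P : ZFSet.{u} → Prop}
    (h : ∀ b A, (∀ x ∈ A, P x) → ∀ x ∈ S b A, P x) (a : ZFSet.{u}) : ∀ x ∈ hier S a, P x := by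
  induction a using ZFSet.inductionOn with
  | h a ih =>
    intro x hx
    obtain ⟨b, hb, hx⟩ := mem_hier.1 hx
    exact h b _ (ih b hb) x hx

/-- Binary operations with parameters, definable over `L`. -/
def Tm2 (S : E.{u} → ZFSet.{u} → ZFSet.{u} → ZFSet.{u}) : Prop :=
  Tm (fun w => S (tl (tl w)) (w 1) (w 0))

lemma Tm2.apply {G : E.{u} → ZFSet.{u} → ZFSet.{u} → ZFSet.{u}} (hG : Tm2 G) (σ : ℕ → ℕ)
    {a h : E.{u} → ZFSet.{u}} (ha : Tm a) (hh : Tm h) :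
    Tm (fun w => G (fun i => w (σ i)) (a w) (h w)) := by
  refine Tm.subst (F := fun x w => G (fun i => w (σ i)) x (h w)) ?_ ha
  refine Tm.subst (F := fun y w => G (fun i => w (σ i + 1)) (w 0) y) ?_ hh.tl
  exact Tm.rename hG (fun i => match i with | 0 => 0 | 1 => 1 | i + 2 => σ i + 2)

lemma Tm.hier {S : E.{u} → ZFSet.{u} → ZFSet.{u} → ZFSet.{u}} {t : E.{u} → ZFSet.{u}}
    (hS : Tm2 S) (ht : Tm t) : Tm (fun v => hier (S v) (t v)) :=
  Tm.zrec (G := fun v a h => LDefs.bun a (fun b => S v b (LDefs.app h b)))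
    (Tm.bun (F := fun b w => S (LDefs.tl (LDefs.tl w)) b (LDefs.app (w 0) b)) (.var 1)
      (hS.apply (· + 3) (.var 0) ((Tm.var 1).app (.var 0)))) ht

lemma mem_hier_ord {S : ZFSet.{u} → ZFSet.{u} → ZFSet.{u}} {o : Ordinal.{u}} {x : ZFSet.{u}} :
    x ∈ hier S o.toZFSet ↔ ∃ a < o, x ∈ S a.toZFSet (hier S a.toZFSet) := by
  rw [mem_hier]
  constructor
  · rintro ⟨b, hb, hx⟩
    obtain ⟨a, ha, rfl⟩ := Ordinal.mem_toZFSet_iff.1 hb
    exact ⟨a, ha, hx⟩
  · rintro ⟨a, ha, hx⟩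
    exact ⟨_, Ordinal.toZFSet_mem_toZFSet_iff.2 ha, hx⟩

lemma hier_ord_mono {S : ZFSet.{u} → ZFSet.{u} → ZFSet.{u}} {a b : Ordinal.{u}} (h : a ≤ b) :
    hier S a.toZFSet ⊆ hier S b.toZFSet :=
  hier_mono (Ordinal.toZFSet_subset_toZFSet_iff.2 h)

/-- The von Neumann natural numbers. -/
noncomputable def nat (n : ℕ) : ZFSet.{u} := (n : Ordinal.{u}).toZFSet

/-- The set of von Neumann natural numbers. -/
noncomputable def om : ZFSet.{u} := (Ordinal.omega0.{u}).toZFSet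

lemma nat_mem_L (n : ℕ) : nat.{u} n ∈ L := toZFSet_mem_L _

lemma om_mem_L : om.{u} ∈ L := toZFSet_mem_L _

lemma nat_inj {m n : ℕ} : nat.{u} m = nat n ↔ m = n := by
  simp [nat, Ordinal.toZFSet_injective.eq_iff]

lemma nat_mem_nat {m n : ℕ} : nat.{u} m ∈ nat n ↔ m < n := by
  simp [nat, Ordinal.toZFSet_mem_toZFSet_iff]

lemma mem_nat {n : ℕ} {x : ZFSet.{u}} : x ∈ nat n ↔ ∃ m < n, nat m = x := by
  rw [nat, Ordinal.mem_toZFSet_iff]
  constructor
  · rintro ⟨a, ha, rfl⟩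
    obtain ⟨m, rfl⟩ := Ordinal.lt_omega0.1 (ha.trans (Ordinal.natCast_lt_omega0 n))
    exact ⟨m, by exact_mod_cast ha, rfl⟩
  · rintro ⟨m, hm, rfl⟩
    exact ⟨m, by exact_mod_cast hm, rfl⟩

lemma mem_om {x : ZFSet.{u}} : x ∈ om ↔ ∃ m, nat m = x := by
  rw [om, Ordinal.mem_toZFSet_iff]
  constructor
  · rintro ⟨a, ha, rfl⟩
    obtain ⟨m, rfl⟩ := Ordinal.lt_omega0.1 ha
    exact ⟨m, rfl⟩
  · rintro ⟨m, rfl⟩
    exact ⟨m, Ordinal.natCast_lt_omega0 m, rfl⟩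

lemma nat_mem_om (n : ℕ) : nat.{u} n ∈ om := mem_om.2 ⟨n, rfl⟩

lemma nat_zero : nat.{u} 0 = ∅ := by simp [nat]

lemma nat_succ (n : ℕ) : nat.{u} (n + 1) = insert (nat n) (nat n) := by
  simp [nat]

lemma nat_subset {m n : ℕ} (h : m ≤ n) : nat.{u} m ⊆ nat n :=
  Ordinal.toZFSet_subset_toZFSet_iff.2 (by exact_mod_cast h)

lemma clo_step {S : ZFSet.{u} → ZFSet.{u} → ZFSet.{u}} {x : ZFSet.{u}} (h : x ∈ hier S om) :
    ∃ n, x ∈ hier S (nat n) := by
  obtain ⟨b, hb, hx⟩ := mem_hier.1 h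
  obtain ⟨m, rfl⟩ := mem_om.1 hb
  exact ⟨m + 1, mem_hier.2 ⟨nat m, nat_mem_nat.2 (Nat.lt_succ_self m), hx⟩⟩

lemma clo0 {S : ZFSet.{u} → ZFSet.{u} → ZFSet.{u}} {z : ZFSet.{u}} (h : ∀ b A, z ∈ S b A) :
    z ∈ hier S om := mem_hier.2 ⟨nat 0, nat_mem_om 0, h _ _⟩

lemma clo2 {S : ZFSet.{u} → ZFSet.{u} → ZFSet.{u}} {x y z : ZFSet.{u}} (hx : x ∈ hier S om)
    (hy : y ∈ hier S om) (h : ∀ b A, x ∈ A → y ∈ A → z ∈ S b A) : z ∈ hier S om := by
  obtain ⟨m, hm⟩ := clo_step hx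
  obtain ⟨n, hn⟩ := clo_step hy
  exact mem_hier.2 ⟨nat (max m n), nat_mem_om _, h _ _
    (hier_mono (nat_subset (le_max_left _ _)) hm) (hier_mono (nat_subset (le_max_right _ _)) hn)⟩

lemma clo1 {S : ZFSet.{u} → ZFSet.{u} → ZFSet.{u}} {x z : ZFSet.{u}} (hx : x ∈ hier S om)
    (h : ∀ b A, x ∈ A → z ∈ S b A) : z ∈ hier S om :=
  clo2 hx hx fun b A h1 _ => h b A h1

/-- Lists as nested pairs. -/
def code : List ZFSet.{u} → ZFSet.{u}
  | [] => ∅
  | x :: l => pair x (code l)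

lemma pair_ne_empty (a b : ZFSet.{u}) : pair a b ≠ ∅ := fun h => by
  have : ({a} : ZFSet.{u}) ∈ pair a b := by simp [pair]
  rw [h] at this
  exact notMem_empty _ this

lemma code_inj : ∀ {l l' : List ZFSet.{u}}, code l = code l' → l = l'
  | [], [], _ => rfl
  | [], _ :: _, h => absurd h.symm (pair_ne_empty _ _)
  | _ :: _, [], h => absurd h (pair_ne_empty _ _)
  | _ :: _, _ :: _, h => by
    obtain ⟨h1, h2⟩ := pair_inj.1 h
    rw [h1, code_inj h2]

lemma snd_code (l : List ZFSet.{u}) : snd (code l) = code l.tail := by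
  cases l <;> simp [code]

lemma code_mem_L : ∀ {l : List ZFSet.{u}}, (∀ x ∈ l, x ∈ L) → code l ∈ L
  | [], _ => empty_mem_L
  | x :: _, h => Tm.closed ((Tm.const (h x List.mem_cons_self)).pair
      (Tm.const (code_mem_L fun y hy => h y (List.mem_cons_of_mem _ hy))))

/-- The set of codes of lists over `M`. -/
noncomputable def Lists (M : ZFSet.{u}) : ZFSet.{u} :=
  hier (fun _ A => insert ∅ (bun M fun x => img (fun z => pair x z) A)) om

lemma mem_Lists {M z : ZFSet.{u}} :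
    z ∈ Lists M ↔ ∃ l : List ZFSet.{u}, (∀ p ∈ l, p ∈ M) ∧ z = code l := by
  constructor
  · refine hier_ind (P := fun z => ∃ l : List ZFSet.{u}, (∀ p ∈ l, p ∈ M) ∧ z = code l) ?_ _ z
    intro _ A hA x hx
    rcases mem_insert_iff.1 hx with rfl | hx
    · exact ⟨[], by simp, rfl⟩
    · obtain ⟨p, hp, hx⟩ := mem_bun.1 hx
      obtain ⟨z, hz, rfl⟩ := mem_img.1 hx
      obtain ⟨l, hl, rfl⟩ := hA z hz
      refine ⟨p :: l, fun q hq => ?_, rfl⟩
      rcases List.mem_cons.1 hq with rfl | hq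
      exacts [hp, hl q hq]
  · rintro ⟨l, hl, rfl⟩
    induction l with
    | nil => exact clo0 fun _ _ => mem_insert_iff.2 (Or.inl rfl)
    | cons p l ih =>
      refine clo1 (ih fun q hq => hl q (List.mem_cons_of_mem _ hq)) fun _ A hA => ?_
      exact mem_insert_iff.2 (Or.inr (mem_bun.2 ⟨p, hl p List.mem_cons_self,
        mem_img.2 ⟨_, hA, rfl⟩⟩))

lemma code_mem_Lists {M : ZFSet.{u}} {l : List ZFSet.{u}} (hl : ∀ p ∈ l, p ∈ M) :
    code l ∈ Lists M := mem_Lists.2 ⟨l, hl, rfl⟩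

lemma Tm.Lists {s : E.{u} → ZFSet.{u}} (hs : Tm s) : Tm (fun v => Lists (s v)) :=
  Tm.hier (S := fun v _ A => Insert.insert ∅ (LDefs.bun (s v) fun x =>
      LDefs.img (fun z => ZFSet.pair x z) A))
    (Tm.empty.insert (Tm.bun (F := fun x w => LDefs.img (fun z => ZFSet.pair x z) (w 0)) hs.tl.tl
      (Tm.img (F := fun z w => ZFSet.pair (w 0) z) (.var 1) ((Tm.var 1).pair (.var 0)))))
    (.const om_mem_L)

/-- Entry of a coded list. -/
def get : ℕ → ZFSet.{u} → ZFSet.{u}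
  | 0, z => fst z
  | i + 1, z => get i (snd z)

lemma get_code : ∀ (i : ℕ) (l : List ZFSet.{u}), get i (code l) = l.getD i ∅
  | 0, [] => by simp [get, code]
  | 0, _ :: _ => by simp [get, code]
  | i + 1, l => by
    rw [get, snd_code, get_code i]
    cases l <;> simp

/-- The first projection on lists over `M`. -/
noncomputable def pr0 (M : ZFSet.{u}) : ZFSet.{u} := gr fst (Lists M)

/-- The next projection on lists over `M`. -/
noncomputable def prS (M P : ZFSet.{u}) : ZFSet.{u} := gr (fun z => app P (snd z)) (Lists M)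

lemma prS_get (M : ZFSet.{u}) (i : ℕ) : prS M (gr (get i) (Lists M)) = gr (get (i + 1)) (Lists M) := by
  refine gr_congr fun z hz => ?_
  obtain ⟨l, hl, rfl⟩ := mem_Lists.1 hz
  rw [app_gr]
  · rfl
  · rw [snd_code]
    exact code_mem_Lists fun p hp => hl p (List.mem_of_mem_tail hp)

lemma Tm.pr0 {s : E.{u} → ZFSet.{u}} (hs : Tm s) : Tm (fun v => pr0 (s v)) :=
  Tm.gr (F := fun z _ => LDefs.fst z) hs.Lists (Tm.var 0).fst

lemma Tm.prS {s t : E.{u} → ZFSet.{u}} (hs : Tm s) (ht : Tm t) : Tm (fun v => prS (s v) (t v)) :=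
  Tm.gr (F := fun z v => LDefs.app (t v) (LDefs.snd z)) hs.Lists (ht.tl.app (Tm.var 0).snd)

/-- The set of all projections on lists over `M`. -/
noncomputable def Projs (M : ZFSet.{u}) : ZFSet.{u} :=
  hier (fun _ A => insert (pr0 M) (img (fun P => prS M P) A)) om

lemma mem_Projs {M P : ZFSet.{u}} : P ∈ Projs M ↔ ∃ i, P = gr (get i) (Lists M) := by
  constructor
  · refine hier_ind (P := fun P => ∃ i, P = gr (get i) (Lists M)) ?_ _ P
    intro _ A hA x hx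
    rcases mem_insert_iff.1 hx with rfl | hx
    · exact ⟨0, rfl⟩
    · obtain ⟨Q, hQ, rfl⟩ := mem_img.1 hx
      obtain ⟨i, rfl⟩ := hA Q hQ
      exact ⟨i + 1, prS_get M i⟩
  · rintro ⟨i, rfl⟩
    induction i with
    | zero => exact clo0 fun _ _ => mem_insert_iff.2 (Or.inl rfl)
    | succ i ih =>
      exact clo1 ih fun _ A hA => mem_insert_iff.2 (Or.inr (mem_img.2 ⟨_, hA, prS_get M i⟩))

lemma Tm.Projs {s : E.{u} → ZFSet.{u}} (hs : Tm s) : Tm (fun v => Projs (s v)) :=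
  Tm.hier (S := fun v _ A => Insert.insert (LDefs.pr0 (s v))
      (LDefs.img (fun P => LDefs.prS (s v) P) A))
    (hs.tl.tl.pr0.insert (Tm.img (F := fun P w => LDefs.prS (s (LDefs.tl (LDefs.tl w))) P) (.var 0)
      (hs.tl.tl.tl.prS (.var 0))))
    (.const om_mem_L)

/-- The relation defined by a formula. -/
noncomputable def Rel (M : ZFSet.{u}) (φ : Fml) : ZFSet.{u} :=
  (Lists M).sep fun z => ∃ l, z = code l ∧ Sat M φ l

lemma code_mem_Rel {M : ZFSet.{u}} {φ : Fml} {l : List ZFSet.{u}} (hl : ∀ p ∈ l, p ∈ M) :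
    code l ∈ Rel M φ ↔ Sat M φ l := by
  rw [Rel, mem_sep]
  constructor
  · rintro ⟨-, l', e, h⟩
    rw [code_inj e]; exact h
  · exact fun h => ⟨code_mem_Lists hl, l, rfl, h⟩

lemma eq_Rel {M R : ZFSet.{u}} {φ : Fml} (h1 : R ⊆ Lists M)
    (h2 : ∀ l : List ZFSet.{u}, (∀ p ∈ l, p ∈ M) → (code l ∈ R ↔ Sat M φ l)) : R = Rel M φ := by
  ext z
  constructor
  · intro hz
    obtain ⟨l, hl, rfl⟩ := mem_Lists.1 (h1 hz)
    exact (code_mem_Rel hl).2 ((h2 l hl).1 hz)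
  · intro hz
    obtain ⟨l, hl, rfl⟩ := mem_Lists.1 (mem_sep.1 hz).1
    exact (h2 l hl).2 ((code_mem_Rel hl).1 hz)

/-- Atomic membership relation. -/
noncomputable def memR (M P Q : ZFSet.{u}) : ZFSet.{u} := (Lists M).sep fun z => app P z ∈ app Q z

/-- Atomic equality relation. -/
noncomputable def eqR (M P Q : ZFSet.{u}) : ZFSet.{u} := (Lists M).sep fun z => app P z = app Q z

/-- Complement of a relation. -/
noncomputable def negR (M R : ZFSet.{u}) : ZFSet.{u} := Lists M \ R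

/-- Projection of a relation. -/
noncomputable def exR (M R : ZFSet.{u}) : ZFSet.{u} := (Lists M).sep fun z => ∃ x ∈ M, pair x z ∈ R

/-- Section of a relation. -/
def sect (M R z : ZFSet.{u}) : ZFSet.{u} := M.sep fun x => pair x z ∈ R

lemma memR_eq (M : ZFSet.{u}) (i j : ℕ) :
    memR M (gr (get i) (Lists M)) (gr (get j) (Lists M)) = Rel M (.mem i j) :=
  eq_Rel (fun _ h => (mem_sep.1 h).1) fun l hl => by
    have := code_mem_Lists hl
    simp only [memR, mem_sep, this, true_and, app_gr this, get_code, Sat]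

lemma eqR_eq (M : ZFSet.{u}) (i j : ℕ) :
    eqR M (gr (get i) (Lists M)) (gr (get j) (Lists M)) = Rel M (.eq i j) :=
  eq_Rel (fun _ h => (mem_sep.1 h).1) fun l hl => by
    have := code_mem_Lists hl
    simp only [eqR, mem_sep, this, true_and, app_gr this, get_code, Sat]

lemma negR_eq (M : ZFSet.{u}) (φ : Fml) : negR M (Rel M φ) = Rel M (.neg φ) :=
  eq_Rel (fun _ h => (mem_sdiff.1 h).1) fun l hl => by
    simp only [negR, mem_sdiff, code_mem_Lists hl, true_and, code_mem_Rel hl, Sat]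

lemma inter_eq (M : ZFSet.{u}) (φ ψ : Fml) : Rel M φ ∩ Rel M ψ = Rel M (.and φ ψ) :=
  eq_Rel (fun _ h => (mem_sep.1 (mem_inter.1 h).1).1) fun l hl => by
    simp only [mem_inter, code_mem_Rel hl, Sat]

lemma exR_eq (M : ZFSet.{u}) (φ : Fml) : exR M (Rel M φ) = Rel M (.ex φ) :=
  eq_Rel (fun _ h => (mem_sep.1 h).1) fun l hl => by
    simp only [exR, mem_sep, code_mem_Lists hl, true_and, Sat]
    refine exists_congr fun x => and_congr_right fun hx => ?_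
    refine code_mem_Rel (l := x :: l) fun q hq => ?_
    rcases List.mem_cons.1 hq with rfl | hq
    exacts [hx, hl q hq]

lemma Tm.memR {s t r : E.{u} → ZFSet.{u}} (hs : Tm s) (ht : Tm t) (hr : Tm r) :
    Tm (fun v => memR (s v) (t v) (r v)) :=
  Tm.sep (P := fun z v => LDefs.app (t v) z ∈ LDefs.app (r v) z) hs.Lists
    (Dfn.mem' (ht.tl.app (.var 0)) (hr.tl.app (.var 0)))

lemma Tm.eqR {s t r : E.{u} → ZFSet.{u}} (hs : Tm s) (ht : Tm t) (hr : Tm r) :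
    Tm (fun v => eqR (s v) (t v) (r v)) :=
  Tm.sep (P := fun z v => LDefs.app (t v) z = LDefs.app (r v) z) hs.Lists
    (Dfn.eq' (ht.tl.app (.var 0)) (hr.tl.app (.var 0)))

lemma Tm.negR {s t : E.{u} → ZFSet.{u}} (hs : Tm s) (ht : Tm t) :
    Tm (fun v => negR (s v) (t v)) := hs.Lists.diff ht

lemma Tm.exR {s t : E.{u} → ZFSet.{u}} (hs : Tm s) (ht : Tm t) :
    Tm (fun v => exR (s v) (t v)) :=
  Tm.sep (P := fun z v => ∃ x ∈ s v, ZFSet.pair x z ∈ t v) hs.Lists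
    (Dfn.bex (P := fun x w => ZFSet.pair x (w 0) ∈ t (LDefs.tl w)) hs.tl
      (Dfn.mem' ((Tm.var 0).pair (.var 1)) ht.tl.tl))

lemma Tm.sect {s t r : E.{u} → ZFSet.{u}} (hs : Tm s) (ht : Tm t) (hr : Tm r) :
    Tm (fun v => sect (s v) (t v) (r v)) :=
  Tm.sep (P := fun x v => ZFSet.pair x (r v) ∈ t v) hs (Dfn.mem' ((Tm.var 0).pair hr.tl) ht.tl)

/-- One step in the construction of the definable relations. -/
noncomputable def Dstep (M A : ZFSet.{u}) : ZFSet.{u} :=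
  (bun (Projs M) fun P => bun (Projs M) fun Q => {memR M P Q, eqR M P Q}) ∪
    (bun A fun R => bun A fun S => {negR M R, R ∩ S, exR M R})

/-- The set of definable relations. -/
noncomputable def Rels (M : ZFSet.{u}) : ZFSet.{u} := hier (fun _ A => Dstep M A) om

lemma mem_Rels {M R : ZFSet.{u}} : R ∈ Rels M ↔ ∃ φ, R = Rel M φ := by
  constructor
  · refine hier_ind (P := fun R => ∃ φ, R = Rel M φ) ?_ _ R
    intro _ A hA x hx
    simp only [Dstep, mem_union, mem_bun, mem_insert_iff, mem_singleton, mem_Projs] at hx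
    rcases hx with ⟨_, ⟨i, rfl⟩, _, ⟨j, rfl⟩, rfl | rfl⟩ | ⟨R, hR, S, hS, h⟩
    · exact ⟨_, memR_eq M i j⟩
    · exact ⟨_, eqR_eq M i j⟩
    · obtain ⟨φ, rfl⟩ := hA R hR
      obtain ⟨ψ, rfl⟩ := hA S hS
      rcases h with rfl | rfl | rfl
      exacts [⟨_, negR_eq M φ⟩, ⟨_, inter_eq M φ ψ⟩, ⟨_, exR_eq M φ⟩]
  · rintro ⟨φ, rfl⟩
    induction φ with
    | mem i j =>
      refine clo0 fun _ A => ?_
      simp only [Dstep, mem_union, mem_bun, mem_insert_iff, mem_singleton, mem_Projs]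
      exact Or.inl ⟨_, ⟨i, rfl⟩, _, ⟨j, rfl⟩, Or.inl (memR_eq M i j).symm⟩
    | eq i j =>
      refine clo0 fun _ A => ?_
      simp only [Dstep, mem_union, mem_bun, mem_insert_iff, mem_singleton, mem_Projs]
      exact Or.inl ⟨_, ⟨i, rfl⟩, _, ⟨j, rfl⟩, Or.inr (eqR_eq M i j).symm⟩
    | neg φ ih =>
      refine clo1 ih fun _ A h => ?_
      simp only [Dstep, mem_union, mem_bun, mem_insert_iff, mem_singleton]
      exact Or.inr ⟨_, h, _, h, Or.inl (negR_eq M φ).symm⟩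
    | and φ ψ ih1 ih2 =>
      refine clo2 ih1 ih2 fun _ A h1 h2 => ?_
      simp only [Dstep, mem_union, mem_bun, mem_insert_iff, mem_singleton]
      exact Or.inr ⟨_, h1, _, h2, Or.inr (Or.inl (inter_eq M φ ψ).symm)⟩
    | ex φ ih =>
      refine clo1 ih fun _ A h => ?_
      simp only [Dstep, mem_union, mem_bun, mem_insert_iff, mem_singleton]
      exact Or.inr ⟨_, h, _, h, Or.inr (Or.inr (exR_eq M φ).symm)⟩

lemma Tm.Dstep {s t : E.{u} → ZFSet.{u}} (hs : Tm s) (ht : Tm t) :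
    Tm (fun v => Dstep (s v) (t v)) := by
  refine Tm.union ?_ ?_
  · refine Tm.bun (F := fun P v => LDefs.bun (LDefs.Projs (s v)) fun Q =>
      {LDefs.memR (s v) P Q, LDefs.eqR (s v) P Q}) hs.Projs ?_
    refine Tm.bun (F := fun Q w => {LDefs.memR (s (LDefs.tl w)) (w 0) Q,
      LDefs.eqR (s (LDefs.tl w)) (w 0) Q}) hs.tl.Projs ?_
    exact (hs.tl.tl.memR (.var 1) (.var 0)).insert (hs.tl.tl.eqR (.var 1) (.var 0)).singleton
  · refine Tm.bun (F := fun R v => LDefs.bun (t v) fun S =>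
      {LDefs.negR (s v) R, R ∩ S, LDefs.exR (s v) R}) ht ?_
    refine Tm.bun (F := fun S w => {LDefs.negR (s (LDefs.tl w)) (w 0), w 0 ∩ S,
      LDefs.exR (s (LDefs.tl w)) (w 0)}) ht.tl ?_
    exact (hs.tl.tl.negR (.var 1)).insert (((Tm.var 1).inter (.var 0)).insert
      (hs.tl.tl.exR (.var 1)).singleton)

lemma Tm.Rels {s : E.{u} → ZFSet.{u}} (hs : Tm s) : Tm (fun v => Rels (s v)) :=
  Tm.hier (S := fun v _ A => LDefs.Dstep (s v) A) (hs.tl.tl.Dstep (.var 0)) (.const om_mem_L)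

lemma mem_Def_iff {M A : ZFSet.{u}} : A ∈ Def M ↔ ∃ (φ : Fml) (l : List ZFSet.{u}),
    (∀ p ∈ l, p ∈ M) ∧ A = sect M (Rel M φ) (code l) := by
  have key : ∀ (φ : Fml) (l : List ZFSet.{u}), (∀ p ∈ l, p ∈ M) → ∀ x ∈ M,
      (x ∈ sect M (Rel M φ) (code l) ↔ Sat M φ (x :: l)) := by
    intro φ l hl x hx
    rw [sect, mem_sep, and_iff_right hx]
    refine code_mem_Rel (l := x :: l) fun q hq => ?_
    rcases List.mem_cons.1 hq with rfl | hq
    exacts [hx, hl q hq]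
  rw [mem_Def]
  constructor
  · rintro ⟨h, φ, l, hl, H⟩
    refine ⟨φ, l, hl, ?_⟩
    ext x
    constructor
    · exact fun hx => (key φ l hl x (h hx)).2 ((H x (h hx)).1 hx)
    · exact fun hx => (H x (mem_sep.1 hx).1).2 ((key φ l hl x (mem_sep.1 hx).1).1 hx)
  · rintro ⟨φ, l, hl, rfl⟩
    exact ⟨fun _ h => (mem_sep.1 h).1, φ, l, hl, key φ l hl⟩

theorem Tm.Def {s : E.{u} → ZFSet.{u}} (hs : Tm s) : Tm (fun v => Def (s v)) := by
  refine (Tm.bun (F := fun R v => LDefs.img (fun z => LDefs.sect (s v) R z) (LDefs.Lists (s v)))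
    hs.Rels (Tm.img (F := fun z w => LDefs.sect (s (LDefs.tl w)) (w 0) z) hs.tl.Lists
      (hs.tl.tl.sect (.var 1) (.var 0)))).congr fun v _ => ?_
  ext A
  simp only [mem_bun, mem_img, mem_Rels, mem_Lists, mem_Def_iff]
  constructor
  · rintro ⟨_, ⟨φ, rfl⟩, _, ⟨l, hl, rfl⟩, rfl⟩
    exact ⟨φ, l, hl, rfl⟩
  · rintro ⟨φ, l, hl, rfl⟩
    exact ⟨_, ⟨φ, rfl⟩, _, ⟨l, hl, rfl⟩, rfl⟩

/-- The constructible hierarchy, indexed by sets. -/
noncomputable def Lz : ZFSet.{u} → ZFSet.{u} := hier fun _ A => Def A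

lemma Lz_toZFSet (o : Ordinal.{u}) : Lz o.toZFSet = Lset o := by
  induction o using WellFoundedLT.induction with
  | ind o ih =>
    ext x
    rw [Lz, mem_hier_ord, mem_Lset]
    exact exists_congr fun a => and_congr_right fun ha => by rw [← ih a ha]; rfl

theorem Tm.Lz {s : E.{u} → ZFSet.{u}} (hs : Tm s) : Tm (fun v => Lz (s v)) :=
  Tm.hier (S := fun _ _ A => LDefs.Def A) (Tm.var 0).Def hs

end Pool.Agent.Shared.LDefs
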