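import Pool.Agent.Shared.LChoice

/-!
Absoluteness of well-foundedness between `L` and `V`, and dependent choice in `L`.
-/

universe u

namespace Pool.Agent.Shared.LDefs

open ZFSet

lemma sUnion_nat_succ (n : ℕ) : ⋃₀ (nat.{u} (n + 1)) = nat n := by
  ext x
  simp only [mem_sUnion, mem_nat]
  constructor
  · rintro ⟨_, ⟨m, hm, rfl⟩, hx⟩
    obtain ⟨k, hk, rfl⟩ := mem_nat.1 hx
    exact ⟨k, by omega, rfl⟩
  · rintro ⟨k, hk, rfl⟩
    exact ⟨nat n, ⟨n, by omega, rfl⟩, nat_mem_nat.2 hk⟩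

/-- The graph of a sequence, as a set of pairs. -/
noncomputable def graphSeq (t : ℕ → ZFSet.{u}) : ZFSet.{u} := range fun n : ℕ => pair (nat n) (t n)

lemma app_graphSeq (t : ℕ → ZFSet.{u}) (n : ℕ) : app (graphSeq t) (nat n) = t n := by
  apply app_eq
  · exact mem_range.2 ⟨n, rfl⟩
  · intro y h
    obtain ⟨m, e⟩ := mem_range.1 h
    obtain ⟨h1, rfl⟩ := pair_inj.1 e
    rw [nat_inj.1 h1]

/-- Iterating an operation definable over `L` gives a constructible sequence. -/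
theorem iterate_mem_L {F : ZFSet.{u} → ZFSet.{u}} (hF : Tm (fun v => F (v 0))) {s : ZFSet.{u}}
    (hs : s ∈ L) : graphSeq (fun n => F^[n] s) ∈ L := by
  let T : ZFSet.{u} → ZFSet.{u} := zrec fun a h => cases (a = ∅) s (F (app h (⋃₀ a)))
  have hT : Tm (fun v => T (v 0)) :=
    Tm.zrec (G := fun _ a h => cases (a = ∅) s (F (app h (⋃₀ a))))
      (Tm.cases (Dfn.eq' (.var 1) .empty) (.const hs)
        (Tm.subst (F := fun x _ => F x) hF ((Tm.var 0).app (Tm.var 1).sUnion))) (.var 0)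
  have hn : ∀ n, T (nat n) = F^[n] s := by
    intro n
    induction n with
    | zero => simp only [T]; rw [zrec_eq, cases_pos nat_zero]; rfl
    | succ n ih =>
      have h1 : nat.{u} n ∈ nat (n + 1) := nat_mem_nat.2 (Nat.lt_succ_self n)
      have h2 : nat.{u} (n + 1) ≠ ∅ := fun h => notMem_empty _ (h ▸ h1)
      simp only [T] at ih ⊢
      rw [zrec_eq, cases_neg h2, sUnion_nat_succ, app_gr h1, ih, Function.iterate_succ_apply']
  have : graphSeq (fun n => F^[n] s) = gr T om := by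
    ext p
    simp only [graphSeq, gr, mem_range, mem_img, mem_om]
    constructor
    · rintro ⟨n, rfl⟩
      exact ⟨_, ⟨n, rfl⟩, by rw [hn]⟩
    · rintro ⟨_, ⟨n, rfl⟩, rfl⟩
      exact ⟨n, by rw [hn]⟩
  rw [this]
  exact Tm.closed (Tm.gr (F := fun y _ => T y) (.const om_mem_L) hT)

/-- If a constructible relation on a constructible set has an infinite chain, then it has a
constructible infinite chain with the same starting point. -/
theorem branch_L {B R : ZFSet.{u}} (hB : B ∈ L) (hR : R ∈ L) (s : ℕ → ZFSet.{u})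
    (hs : ∀ n, s n ∈ B) (hsR : ∀ n, pair (s n) (s (n + 1)) ∈ R) :
    ∃ t : ℕ → ZFSet.{u}, t 0 = s 0 ∧ (∀ n, pair (t n) (t (n + 1)) ∈ R) ∧ graphSeq t ∈ L := by
  let W : ZFSet.{u} → ZFSet.{u} := hier fun _ A => B.sep fun a => ∀ b ∈ B, pair a b ∈ R → b ∈ A
  have hW : ∀ o : Ordinal.{u}, W o.toZFSet ∈ L := fun o =>
    Tm.closed (Tm.hier (S := fun _ _ A => B.sep fun a => ∀ b ∈ B, pair a b ∈ R → b ∈ A)
      (Tm.sep (P := fun a w => ∀ b ∈ B, pair a b ∈ R → b ∈ w 0) (.const hB)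
        (Dfn.ball (P := fun b w => pair (w 0) b ∈ R → b ∈ w 1) (.const hB)
          ((Dfn.mem' ((Tm.var 1).pair (.var 0)) (.const hR)).imp (.mem 0 2))))
      (.const (toZFSet_mem_L o)))
  have h0 : ∀ (o : Ordinal.{u}) n, s n ∉ W o.toZFSet := by
    intro o
    induction o using WellFoundedLT.induction with
    | ind o ih =>
      intro n hn
      obtain ⟨a, ha, h⟩ := mem_hier_ord.1 hn
      exact ih a ha (n + 1) ((mem_sep.1 h).2 _ (hs _) (hsR n))
  have hb : ∀ x : B, ∃ o : Ordinal.{u}, (∃ a : Ordinal.{u}, x.1 ∈ W a.toZFSet) →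
      x.1 ∈ W o.toZFSet := by
    intro x
    by_cases h : ∃ a : Ordinal.{u}, x.1 ∈ W a.toZFSet
    · obtain ⟨a, ha⟩ := h
      exact ⟨a, fun _ => ha⟩
    · exact ⟨0, fun h' => absurd h' h⟩
  choose g hg using hb
  let N : ZFSet.{u} := B \ W (iSup g).toZFSet
  have hN : N ∈ L := Tm.closed ((Tm.const hB).diff (.const (hW _)))
  have hsucc : ∀ a ∈ N, ∃ b, b ∈ N.sep fun b => pair a b ∈ R := by
    intro a ha
    obtain ⟨ha1, ha2⟩ := mem_sdiff.1 ha
    by_contra hc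
    refine ha2 (hier_ord_mono (Ordinal.le_iSup g ⟨a, ha1⟩) (hg ⟨a, ha1⟩ ⟨iSup g + 1, ?_⟩))
    refine mem_hier_ord.2 ⟨iSup g, lt_add_one _, mem_sep.2 ⟨ha1, fun b hb hab => ?_⟩⟩
    by_contra hb'
    exact hc ⟨b, mem_sep.2 ⟨mem_sdiff.2 ⟨hb, hb'⟩, hab⟩⟩
  obtain ⟨c, hc, hch⟩ := choice_L hN
  let F : ZFSet.{u} → ZFSet.{u} := fun a => app c (N.sep fun b => pair a b ∈ R)
  have hsep : Tm (fun v => N.sep fun b => pair (v 0) b ∈ R) :=
    Tm.sep (P := fun b v => pair (v 0) b ∈ R) (.const hN)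
      (Dfn.mem' ((Tm.var 1).pair (.var 0)) (.const hR))
  have hF : Tm (fun v => F (v 0)) := (Tm.const hc).app hsep
  have hFN : ∀ a ∈ N, F a ∈ N ∧ pair a (F a) ∈ R := fun a ha =>
    mem_sep.1 (hch _ (hsep.1 (fun _ => a) fun _ => L_trans hN ha) (fun _ h => (mem_sep.1 h).1)
      (hsucc a ha))
  have hit : ∀ n, F^[n] (s 0) ∈ N := by
    intro n
    induction n with
    | zero => exact mem_sdiff.2 ⟨hs 0, h0 _ 0⟩
    | succ n ih => rw [Function.iterate_succ_apply']; exact (hFN _ ih).1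
  refine ⟨fun n => F^[n] (s 0), rfl, fun n => ?_, iterate_mem_L hF (L_trans hB (hs 0))⟩
  simp only [Function.iterate_succ_apply']
  exact (hFN _ (hit n)).2

end Pool.Agent.Shared.LDefs
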