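import Pool.Agent.Shared.Mod2Sing

/-! Homotopy invariance, Mayer-Vietoris, excision and the local homology of Euclidean space. -/

namespace Pool.Agent.Shared.Mod2

open Set Topology Metric

variable {Y Y' : Type} [TopologicalSpace Y] [TopologicalSpace Y']

/-- Boundaries in a subset. -/
def Bd (s : Set Y) (k : ℕ) (z : Ch (Sx Y)) : Prop := ∃ b ∈ Cs s (k + 1), sd b = z

/-- The reduced homology of `s` vanishes in dimension `k - 1`. -/
def Z0 (s : Set Y) (k : ℕ) : Prop := ∀ z ∈ Cs s k, sd z = 0 → Bd s k z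

/-- The reduced homology of `s` has two elements in dimension `k - 1`. -/
def Z1 (s : Set Y) (k : ℕ) : Prop :=
  ∃ z₀ ∈ Cs s k, sd z₀ = 0 ∧ ¬ Bd s k z₀ ∧ ∀ z ∈ Cs s k, sd z = 0 → Bd s k z ∨ Bd s k (z + z₀)

lemma Bd.add {s : Set Y} {k : ℕ} {x y : Ch (Sx Y)} (h : Bd s k x) (h' : Bd s k y) :
    Bd s k (x + y) := by
  obtain ⟨a, a1, rfl⟩ := h
  obtain ⟨b, b1, rfl⟩ := h'
  exact ⟨a + b, add_mem a1 b1, map_add _ _ _⟩

lemma Bd.cancel {s : Set Y} {k : ℕ} {x y : Ch (Sx Y)} (h : Bd s k (x + y)) (h' : Bd s k y) :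
    Bd s k x := by simpa only [add_assoc, aa, add_zero] using h.add h'

lemma Bd.map {s : Set Y} {t : Set Y'} {k : ℕ} {x : Ch (Sx Y)} (h : Bd s k x) {g : C(Y, Y')}
    (hg : MapsTo g s t) : Bd t k (cm g x) := by
  obtain ⟨a, a1, rfl⟩ := h
  exact ⟨cm g a, cm_mem hg a1, (cm_sd g a).symm⟩

lemma Bd.mono {s t : Set Y} {k : ℕ} {x : Ch (Sx Y)} (h : Bd s k x) (e : s ⊆ t) : Bd t k x :=
  let ⟨a, a1, a2⟩ := h; ⟨a, Cs_mono e _ a1, a2⟩

/-- A deformation retraction of `t` onto `s`. -/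
structure Retr (s : Set Y) (t : Set Y') (g : C(Y, Y')) (r : C(Y', Y)) (H : C(I × Y', Y')) :
    Prop where
  hg : MapsTo g s t
  hr : MapsTo r t s
  rg : ∀ y, r (g y) = y
  h0 : ∀ y, H (0, y) = g (r y)
  h1 : ∀ y, H (1, y) = y
  hH : ∀ c, ∀ y ∈ t, H (c, y) ∈ t

section Retr

variable {s : Set Y} {t : Set Y'} {g : C(Y, Y')} {r : C(Y', Y)} {H : C(I × Y', Y')} {k : ℕ}

lemma Retr.bd (h : Retr s t g r H) {z : Ch (Sx Y')} (hz : z ∈ Cs t k) (h0 : sd z = 0) :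
    Bd t k (z + cm g (cm r z)) := by
  refine ⟨prism H z, prism_mem h.hH hz, ?_⟩
  rw [prism_eq (f := g.comp r) (g := ContinuousMap.id _) h.h0 h.h1, h0, map_zero, zero_add, cm_id,
    cm_cm, add_comm]

lemma Retr.z0 (h : Retr s t g r H) (h0 : Z0 s k) : Z0 t k := fun z hz e =>
  (h.bd hz e).cancel ((h0 _ (cm_mem h.hr hz) (by rw [← cm_sd, e, map_zero])).map h.hg)

lemma Retr.z1 (h : Retr s t g r H) (h0 : Z1 s k) : Z1 t k := by
  obtain ⟨z₀, a1, a2, a3, a4⟩ := h0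
  refine ⟨cm g z₀, cm_mem h.hg a1, by rw [← cm_sd, a2, map_zero], fun e => a3 ?_, fun z hz e => ?_⟩
  · have := e.map h.hr
    rwa [cm_cm, show r.comp g = ContinuousMap.id _ from ContinuousMap.ext h.rg, cm_id] at this
  · refine (a4 _ (cm_mem h.hr hz) (by rw [← cm_sd, e, map_zero])).imp
      (fun b => (h.bd hz e).cancel (b.map h.hg)) fun b => ?_
    have := (h.bd hz e).add (b.map h.hg)
    rwa [map_add, add_assoc, ← add_assoc (cm g _), aa, zero_add] at this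

end Retr

lemma z0_point (k : ℕ) : Z0 (univ : Set (Sp 1)) k := by
  intro z hz h0
  have e : ∀ σ : Sx (Sp 1), re (vert σ) = σ := by
    rintro ⟨k, σ⟩
    rw [vert, ev, List.map_ofFn, re_ofFn]
    exact congrArg _ (Subsingleton.elim _ _)
  have h1 : mp vert z ∈ (LC _).Gr k := by
    refine mp_mem ?_ hz
    exact fun σ hσ => ((List.length_map _).trans (ev_length _)).trans hσ.1
  refine ⟨mp re (cone (stdSimplex.vertex 0) (mp vert z)), re_mem (cone_gr _ h1), ?_⟩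
  rw [sd_re, d_cone, ← vert_sd, h0, map_zero, map_zero, add_zero, mp_mp]
  simp only [e, mp_id]

lemma z0_of_contr {s : Set Y} {y₀ : Y} (hy : y₀ ∈ s) (H : C(I × Y, Y)) (h0 : ∀ y, H (0, y) = y₀)
    (h1 : ∀ y, H (1, y) = y) (hH : ∀ c, ∀ y ∈ s, H (c, y) ∈ s) (k : ℕ) : Z0 s k :=
  Retr.z0 (g := .const _ y₀) (r := .const _ (stdSimplex.vertex 0)) (H := H)
    ⟨fun _ _ => hy, fun _ _ => mem_univ _, fun _ => Subsingleton.elim _ _, h0, h1, hH⟩ (z0_point k)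

lemma z0_univ [ContractibleSpace Y] (k : ℕ) : Z0 (univ : Set Y) k := by
  obtain ⟨y, ⟨H⟩⟩ := id_nullhomotopic Y
  exact z0_of_contr (y₀ := y) (mem_univ _) H.symm.toContinuousMap H.symm.apply_zero H.symm.apply_one
    (fun _ _ _ => mem_univ _) k

lemma SC_acyc [ContractibleSpace Y] : (SC Y).Acyc := by
  intro k x hx h
  rw [Gr_eq] at hx ⊢
  exact z0_univ k x hx h

section MV

variable {U W : Set Y} {k : ℕ}

lemma mv_split (hU : IsOpen U) (hW : IsOpen W) {z : Ch (Sx Y)} (hz : z ∈ Cs (U ∪ W) (k + 1))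
    (h0 : sd z = 0) : ∃ u ∈ Cs U (k + 1), ∃ w ∈ Cs W (k + 1), sd u = sd w ∧
      Bd (U ∪ W) (k + 1) (u + w + z) := by
  obtain ⟨T, h1, u, hu, w, hw, e⟩ := small2 hU hW hz
  rw [h0, map_zero, add_zero] at e
  refine ⟨u, hu, w, hw, eq_of_add_eq_zero ?_, T z, h1 _ _ _ hz, ?_⟩
  · rw [← map_add, ← e, map_add, h0, sd_sd, add_zero]
  · rw [← e]; linear_combination (norm := abel1) - aa z

lemma mv_bd (zU : Z0 U (k + 1)) (zW : Z0 W (k + 1)) {u w : Ch (Sx Y)} (hu : u ∈ Cs U (k + 1))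
    (hw : w ∈ Cs W (k + 1)) (e : sd u = sd w) (h : Bd (U ∩ W) k (sd u)) :
    Bd (U ∪ W) (k + 1) (u + w) := by
  obtain ⟨b, b1, b2⟩ := h
  have := ((zU _ (add_mem hu (Cs_mono inter_subset_left _ b1)) (by rw [map_add, b2, aa])).mono
    (subset_union_left (t := W))).add ((zW _ (add_mem hw (Cs_mono inter_subset_right _ b1))
      (by rw [map_add, b2, e, aa])).mono subset_union_right)
  convert this using 1
  linear_combination (norm := abel1) - aa b

lemma mv_z0 (hU : IsOpen U) (hW : IsOpen W) (zU : ∀ k, Z0 U k) (zW : ∀ k, Z0 W k)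
    (h : Z0 (U ∩ W) k) : Z0 (U ∪ W) (k + 1) := by
  intro z hz h0
  obtain ⟨u, hu, w, hw, e, b⟩ := mv_split hU hW hz h0
  rw [add_comm _ z] at b
  exact b.cancel (mv_bd (zU _) (zW _) hu hw e
    (h _ (Cs_inter (sd_mem hu) (e ▸ sd_mem hw)) (sd_sd _)))

lemma mv_z1 (hU : IsOpen U) (hW : IsOpen W) (zU : ∀ k, Z0 U k) (zW : ∀ k, Z0 W k)
    (h : Z1 (U ∩ W) k) : Z1 (U ∪ W) (k + 1) := by
  obtain ⟨c, c1, c2, c3, c4⟩ := h
  obtain ⟨u₀, u1, u2⟩ := zU k c (Cs_mono inter_subset_left _ c1) c2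
  obtain ⟨w₀, w1, w2⟩ := zW k c (Cs_mono inter_subset_right _ c1) c2
  refine ⟨u₀ + w₀, add_mem (Cs_mono subset_union_left _ u1) (Cs_mono subset_union_right _ w1),
    by rw [map_add, u2, w2, aa], ?_, fun z hz h0 => ?_⟩
  · rintro ⟨e, e1, e2⟩
    obtain ⟨T, h1, a, ha, b, hb, e3⟩ := small2 hU hW e1
    have e4 := congrArg sd e3
    simp only [map_add, sd_sd, e2] at e4
    have e5 : u₀ + sd (a + T u₀) = w₀ + sd (b + T w₀) := by
      simp only [map_add]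
      linear_combination (norm := abel1) e4 + aa (sd a) - aa w₀ - aa (sd (T w₀))
    refine c3 ⟨u₀ + sd (a + T u₀), Cs_inter (add_mem u1 (sd_mem (add_mem ha (h1 _ _ _ u1)))) ?_, ?_⟩
    · rw [e5]; exact add_mem w1 (sd_mem (add_mem hb (h1 _ _ _ w1)))
    · rw [map_add, sd_sd, u2, add_zero]
  · obtain ⟨u, hu, w, hw, e, b⟩ := mv_split hU hW hz h0
    rw [add_comm _ z] at b
    refine (c4 _ (Cs_inter (sd_mem hu) (e ▸ sd_mem hw)) (sd_sd _)).imp
      (fun x => b.cancel (mv_bd (zU _) (zW _) hu hw e x)) fun x => ?_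
    have := b.add (mv_bd (zU _) (zW _) (add_mem hu u1) (add_mem hw w1)
      (by rw [map_add, map_add, e, u2, w2]) (by rwa [map_add, u2]))
    convert this using 1
    linear_combination (norm := abel1) - aa u - aa w

end MV

/-- The punctured space has the homology of a sphere with `m` as the number of vertices. -/
def LH (E : Type) [NormedAddCommGroup E] (m : ℕ) : Prop :=
  (∀ k, k ≠ m → Z0 ({0}ᶜ : Set E) k) ∧ Z1 ({0}ᶜ : Set E) m

variable {E : Type} [NormedAddCommGroup E] [NormedSpace ℝ E]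

lemma z0_star {s : Set E} {p : E} (hp : p ∈ s)
    (h : ∀ c : ℝ, 0 < c → c ≤ 1 → ∀ y ∈ s, c • y + (1 - c) • p ∈ s) (k : ℕ) : Z0 s k := by
  refine z0_of_contr hp ⟨fun x => (x.1 : ℝ) • x.2 + (1 - (x.1 : ℝ)) • p, by fun_prop⟩ (by simp)
    (by simp) (fun c y hy => ?_) k
  rcases c.2.1.eq_or_lt with e | e
  · simpa [← e] using hp
  · exact h c e c.2.2 y hy

lemma LH.step {m : ℕ} (h : LH E m) : LH (E × ℝ) (m + 1) := by
  let U : Set (E × ℝ) := {p | p.1 ≠ 0 ∨ 0 < p.2}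
  let W : Set (E × ℝ) := {p | p.1 ≠ 0 ∨ p.2 < 0}
  have h1 : IsOpen {p : E × ℝ | p.1 ≠ 0} := isOpen_ne_fun continuous_fst continuous_const
  have hU : IsOpen U := h1.union (isOpen_lt continuous_const continuous_snd)
  have hW : IsOpen W := h1.union (isOpen_lt continuous_snd continuous_const)
  have zU : ∀ k, Z0 U k := z0_star (p := (0, 1)) (Or.inr one_pos) (by
    rintro c c0 c1 y (e | e)
    · exact Or.inl (by simp [e, c0.ne'])
    · exact Or.inr (by simp; nlinarith [mul_pos c0 e]))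
  have zW : ∀ k, Z0 W k := z0_star (p := (0, -1)) (Or.inr (by simp)) (by
    rintro c c0 c1 y (e | e)
    · exact Or.inl (by simp [e, c0.ne'])
    · exact Or.inr (by simp; nlinarith [mul_neg_of_pos_of_neg c0 e]))
  have e1 : ({0}ᶜ : Set (E × ℝ)) = U ∪ W := by
    ext ⟨x, y⟩
    simp only [mem_compl_iff, mem_singleton_iff, Prod.mk_eq_zero, U, W, mem_union, mem_ofPred_eq]
    rcases lt_trichotomy y 0 with e | e | e
    · simp [e, e.ne]
    · simp [e]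
    · simp [e, e.ne']
  have e2 : U ∩ W = {p | p.1 ≠ 0} := by
    ext ⟨x, y⟩
    simp only [U, W, mem_inter_iff, mem_ofPred_eq]
    exact ⟨fun ⟨a, b⟩ => a.elim id fun a => b.elim id fun b => (lt_asymm a b).elim,
      fun a => ⟨Or.inl a, Or.inl a⟩⟩
  have R : Retr ({0}ᶜ : Set E) (U ∩ W) ⟨fun x => (x, 0), by fun_prop⟩ ⟨Prod.fst, by fun_prop⟩
      ⟨fun x => (x.2.1, (x.1 : ℝ) * x.2.2), by fun_prop⟩ := by
    rw [e2]
    exact ⟨fun _ h => h, fun _ h => h, fun _ => rfl, by simp, by simp, fun _ _ h => h⟩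
  rw [LH, e1]
  refine ⟨?_, mv_z1 hU hW zU zW (R.z1 h.2)⟩
  rintro (_ | k) hk
  · intro z hz h0
    exact (zU 0 z (Cs_zero (U ∪ W) U ▸ hz) h0).mono subset_union_left
  · exact mv_z0 hU hW zU zW (R.z0 (h.1 k (by omega)))

lemma LH.equiv {E' : Type} [NormedAddCommGroup E'] [NormedSpace ℝ E'] {m : ℕ} (h : LH E m)
    (e : E ≃L[ℝ] E') : LH E' m := by
  have R : Retr ({0}ᶜ : Set E) ({0}ᶜ : Set E') ⟨e, e.continuous⟩ ⟨e.symm, e.symm.continuous⟩
      ⟨Prod.snd, by fun_prop⟩ :=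
    ⟨fun _ h => by simpa using h, fun _ h => by simpa using h, by simp, by simp, by simp,
      fun _ _ h => h⟩
  exact ⟨fun k hk => R.z0 (h.1 k hk), R.z1 h.2⟩

theorem lh (m : ℕ) : ∀ (E : Type) [NormedAddCommGroup E] [NormedSpace ℝ E] [FiniteDimensional ℝ E],
    Module.finrank ℝ E = m → LH E m := by
  induction m with
  | zero =>
    intro E _ _ _ h
    have := Module.finrank_zero_iff.1 h
    have e : ({0}ᶜ : Set E) = ∅ := eq_empty_of_forall_notMem fun x hx => hx (Subsingleton.elim _ _)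
    have b0 : ∀ k, Bd (∅ : Set E) k 0 := fun k => ⟨0, zero_mem _, map_zero _⟩
    rw [LH, e]
    refine ⟨?_, sg (SC E).b0, sg_mem ⟨rfl, fun t : Sp 0 => isEmptyElim t⟩, (SC E).d_b0, ?_, ?_⟩
    · rintro (_ | k) hk z hz -
      · exact (hk rfl).elim
      · rw [Cs_empty hz]; exact b0 _
    · rintro ⟨b, b1, b2⟩
      rw [Cs_empty b1, map_zero] at b2
      exact Finsupp.single_ne_zero.2 one_ne_zero b2.symm
    · intro z hz _
      have : z = 0 ∨ z = sg (SC E).b0 := by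
        refine sup_ind (P := fun z => z = 0 ∨ z = sg (SC E).b0) (Or.inl rfl) ?_
          (fun b hb => Or.inr (by rw [(SC E).eq_b0 b hb.1])) hz
        rintro _ _ (rfl | rfl) (rfl | rfl) <;> simp [aa]
      rcases this with rfl | rfl
      · exact Or.inl (b0 _)
      · exact Or.inr (by rw [aa]; exact b0 _)
  | succ m ih =>
    intro E _ _ _ h
    exact (ih (Fin m → ℝ) (by simp)).step.equiv (ContinuousLinearEquiv.ofFinrankEq (by simp [h]))

/-- The chain `z` is trivial in the homology relative to the complement of `K`. -/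
def Tr (K : Set Y) (k : ℕ) (z : Ch (Sx Y)) : Prop := ∃ b ∈ Cs univ (k + 1), z + sd b ∈ Cs Kᶜ k

lemma Tr.mono {K L : Set Y} {k : ℕ} {z : Ch (Sx Y)} (h : Tr K k z) (e : L ⊆ K) : Tr L k z :=
  let ⟨b, b1, b2⟩ := h; ⟨b, b1, Cs_mono (compl_subset_compl.2 e) _ b2⟩

lemma Tr.add {K : Set Y} {k : ℕ} {x y : Ch (Sx Y)} (h : Tr K k x) (h' : Tr K k y) :
    Tr K k (x + y) := by
  obtain ⟨a, a1, a2⟩ := h
  obtain ⟨b, b1, b2⟩ := h'
  exact ⟨a + b, add_mem a1 b1, by rw [map_add, add_add_add_comm]; exact add_mem a2 b2⟩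

lemma Tr.cancel {K : Set Y} {k : ℕ} {x y : Ch (Sx Y)} (h : Tr K k (x + y)) (h' : Tr K k y) :
    Tr K k x := by simpa only [add_assoc, aa, add_zero] using h.add h'

lemma Tr.cancel' {K : Set Y} {k : ℕ} {x y : Ch (Sx Y)} (h : Tr K k (x + y)) (h' : Tr K k x) :
    Tr K k y := (add_comm x y ▸ h).cancel h'

lemma Tr.of_mem {K : Set Y} {k : ℕ} {x : Ch (Sx Y)} (h : x ∈ Cs Kᶜ k) : Tr K k x :=
  ⟨0, zero_mem _, by simpa using h⟩

lemma Tr.of_bd (K : Set Y) {k : ℕ} {x : Ch (Sx Y)} (h : x ∈ Cs univ (k + 1)) : Tr K k (sd x) :=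
  ⟨x, h, by rw [aa]; exact zero_mem _⟩

lemma Tr.map {K : Set Y} {L : Set Y'} {k : ℕ} {x : Ch (Sx Y)} (h : Tr K k x) {g : C(Y, Y')}
    (hg : MapsTo g Kᶜ Lᶜ) : Tr L k (cm g x) := by
  obtain ⟨a, a1, a2⟩ := h
  exact ⟨cm g a, cm_mem (mapsTo_univ _ _) a1, by rw [← cm_sd, ← map_add]; exact cm_mem hg a2⟩

section Excision

variable {φ : C(Y', Y)} {K : Set Y'} {k : ℕ}

lemma exists_cm (hφ : IsEmbedding φ) {x : Ch (Sx Y)} (hx : x ∈ Cs (range φ) k) :
    ∃ u ∈ Cs univ k, cm φ u = x := by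
  refine exists_mp ?_ hx
  rintro ⟨k, σ⟩ ⟨rfl, h⟩
  choose τ hτ using h
  have e : φ ∘ τ = σ := funext hτ
  exact ⟨⟨k, τ, hφ.continuous_iff.2 (e ▸ σ.continuous)⟩, ⟨rfl, fun _ => trivial⟩,
    congrArg (Sigma.mk k) (ContinuousMap.ext hτ)⟩

lemma mem_of_cm (hφ : Function.Injective φ) {s : Set Y} {u : Ch (Sx Y')} (h : cm φ u ∈ Cs s k) :
    u ∈ Cs (φ ⁻¹' s) k := by
  refine mem_of_mp_mem ?_ h
  rintro ⟨k, σ⟩ ⟨k', σ'⟩ e
  obtain rfl : k = k' := congrArg Sigma.fst e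
  have := eq_of_heq (Sigma.mk.inj e).2
  exact congrArg _ (ContinuousMap.ext fun t => hφ (ContinuousMap.congr_fun this t))

lemma mem_of_cm' (hφ : Function.Injective φ) {u : Ch (Sx Y')} (h : cm φ u ∈ Cs (φ '' K)ᶜ k) :
    u ∈ Cs Kᶜ k := by
  refine Cs_mono ?_ _ (mem_of_cm hφ h)
  exact fun y hy e => hy ⟨y, e, rfl⟩

lemma mapsTo_compl (hφ : Function.Injective φ) : MapsTo φ Kᶜ (φ '' K)ᶜ := by
  rintro y hy ⟨x, hx, e⟩
  exact hy (hφ e ▸ hx)

lemma range_union : range φ ∪ (φ '' K)ᶜ = univ :=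
  eq_univ_of_forall fun _ => (em _).imp_left fun h => image_subset_range _ _ h

lemma exc_surj (hφ : IsOpenEmbedding φ) (hK : IsClosed (φ '' K)) {z : Ch (Sx Y)}
    (h1 : z ∈ Cs univ (k + 1)) (h2 : sd z ∈ Cs (φ '' K)ᶜ k) :
    ∃ u ∈ Cs univ (k + 1), sd u ∈ Cs Kᶜ k ∧ Tr (φ '' K) (k + 1) (z + cm φ u) := by
  obtain ⟨T, t1, u', hu, w, hw, e⟩ := small2 hφ.isOpen_range hK.isOpen_compl
    (by rw [range_union]; exact h1 : z ∈ Cs _ _)
  obtain ⟨u, u1, rfl⟩ := exists_cm hφ.isEmbedding hu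
  refine ⟨u, u1, mem_of_cm' hφ.injective ?_, T z, t1 _ _ _ h1, ?_⟩
  · have e1 := congrArg sd e
    simp only [map_add, sd_sd] at e1
    have : cm φ (sd u) = sd z + sd (T (sd z)) + sd w := by
      rw [cm_sd]; linear_combination (norm := abel1) - e1 - aa (sd w)
    rw [this]
    exact add_mem (add_mem h2 (sd_mem (t1 _ _ _ h2))) (sd_mem hw)
  · have : z + cm φ u + sd (T z) = w + T (sd z) := by
      linear_combination (norm := abel1) e + aa (cm φ u) - aa (T (sd z))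
    rw [this]
    exact add_mem hw (t1 _ _ _ h2)

lemma exc_inj (hφ : IsOpenEmbedding φ) (hK : IsClosed (φ '' K)) {u : Ch (Sx Y')}
    (h1 : u ∈ Cs univ k) (h2 : Tr (φ '' K) k (cm φ u)) : Tr K k u := by
  obtain ⟨b, b1, b2⟩ := h2
  obtain ⟨T, t1, a, ha, w, hw, e⟩ := small2 hφ.isOpen_range hK.isOpen_compl
    (by rw [range_union]; exact b1 : b ∈ Cs _ _)
  obtain ⟨x, x1, x2⟩ := exists_cm hφ.isEmbedding
    (add_mem ha (t1 _ _ _ (cm_mem (mapsTo_range _ _) h1)))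
  refine ⟨x, x1, mem_of_cm' hφ.injective ?_⟩
  have e1 := congrArg sd e
  simp only [map_add, sd_sd] at e1
  have : cm φ (u + sd x) = (cm φ u + sd b) + sd (w + T (cm φ u + sd b)) := by
    simp only [map_add, cm_sd, x2]
    linear_combination (norm := abel1) - e1 - aa (sd w)
  rw [this]
  exact add_mem b2 (sd_mem (add_mem hw (t1 _ _ _ b2)))

end Excision

lemma exists_compact {s : Set Y} {k : ℕ} {x : Ch (Sx Y)} (hx : x ∈ Cs s k) :
    ∃ C, IsCompact C ∧ C ⊆ s ∧ x ∈ Cs C k := by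
  refine sup_ind (P := fun x => ∃ C, IsCompact C ∧ C ⊆ s ∧ x ∈ Cs C k)
    ⟨∅, isCompact_empty, empty_subset _, zero_mem _⟩ ?_ ?_ hx
  · rintro x y ⟨C, c1, c2, c3⟩ ⟨D, d1, d2, d3⟩
    exact ⟨C ∪ D, c1.union d1, union_subset c2 d2,
      add_mem (Cs_mono subset_union_left _ c3) (Cs_mono subset_union_right _ d3)⟩
  · rintro σ ⟨h, h'⟩
    exact ⟨range σ.2, isCompact_range σ.2.continuous, range_subset_iff.2 h',
      sg_mem ⟨h, fun t => ⟨t, rfl⟩⟩⟩

lemma tr_iff [ContractibleSpace Y] {K : Set Y} {k : ℕ} {z : Ch (Sx Y)} (h : z ∈ Cs univ (k + 1)) :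
    Tr K (k + 1) z ↔ Bd Kᶜ k (sd z) := by
  refine ⟨fun ⟨b, _, b2⟩ => ⟨_, b2, by rw [map_add, sd_sd, add_zero]⟩, fun ⟨c, c1, c2⟩ => ?_⟩
  obtain ⟨b, b1, b2⟩ := z0_univ _ _ (add_mem h (Cs_mono (subset_univ _) _ c1))
    (by rw [map_add, c2, aa])
  exact ⟨b, b1, by rwa [b2, ← add_assoc, aa, zero_add]⟩

lemma tr_convex {A : Set E} (h1 : Convex ℝ A) (h2 : IsCompact A) {y : E} (hy : y ∈ A) {k : ℕ}
    {z : Ch (Sx E)} (h3 : sd z ∈ Cs Aᶜ k) (h4 : Tr {y} (k + 1) z) : Tr A (k + 1) z := by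
  obtain ⟨b, b1, b2⟩ := h4
  obtain ⟨C, c1, c2, c3⟩ := exists_compact b2
  obtain ⟨ε, e0, e1⟩ := Metric.isOpen_iff.1 c1.isClosed.isOpen_compl y fun h => c2 h rfl
  obtain ⟨R, r0, r1⟩ := h2.isBounded.subset_ball_lt 0 y
  let H : C(I × E, E) := ⟨fun x => y + (1 + x.1 * (R / ε)) • (x.2 - y), by fun_prop⟩
  let g : C(E, E) := ⟨fun x => y + (1 + R / ε) • (x - y), by fun_prop⟩
  have e := prism_eq (H := H) (f := ContinuousMap.id E) (g := g) (by simp [H]) (by simp [H, g])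
    (z + sd b)
  rw [cm_id] at e
  refine ⟨b + prism H (z + sd b), add_mem b1 (prism_mem (fun _ _ _ => mem_univ _) b2), ?_⟩
  have : z + sd (b + prism H (z + sd b)) = prism H (sd z) + cm g (z + sd b) := by
    rw [map_add, e, map_add sd, sd_sd, add_zero]
    linear_combination (norm := abel1) aa z + aa (sd b)
  rw [this]
  refine add_mem (prism_mem (t := Aᶜ) (fun c x hx h => ?_) h3) (cm_mem (fun x hx h => ?_) c3)
  · apply hx
    have p : 0 < 1 + (c : ℝ) * (R / ε) := by have := c.2.1; positivity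
    have q : (1 + (c : ℝ) * (R / ε))⁻¹ ≤ 1 :=
      inv_le_one_of_one_le₀ (le_add_of_nonneg_right (by have := c.2.1; positivity))
    convert h1.add_smul_sub_mem hy h ⟨(inv_pos.2 p).le, q⟩ using 1
    simp [H, smul_smul, inv_mul_cancel₀ p.ne']
  · have a := r1 h
    have a' : ε ≤ ‖x - y‖ := by
      by_contra n
      exact e1 (by rw [mem_ball, dist_eq_norm]; exact not_le.1 n) hx
    simp only [g, ContinuousMap.coe_mk, mem_ball, dist_eq_norm, add_sub_cancel_left, norm_smul,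
      Real.norm_eq_abs] at a
    rw [abs_of_pos (by positivity)] at a
    have := mul_le_mul_of_nonneg_left a' (show 0 ≤ 1 + R / ε by positivity)
    rw [add_mul, div_mul_cancel₀ _ e0.ne'] at this
    linarith

end Pool.Agent.Shared.Mod2
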