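import Pool.Agent.Shared.Mod2Local

/-! The mod 2 fundamental class of a compact topological manifold, vanishing of homology above the
dimension, and coverings. -/

namespace Pool.Agent.Shared.Mod2

open Set Topology Metric

/-- Locally Euclidean spaces modelled on `E`. -/
def LE (E Y : Type) [NormedAddCommGroup E] [TopologicalSpace Y] : Prop :=
  ∀ y : Y, ∃ φ : C(E, Y), IsOpenEmbedding φ ∧ φ 0 = y

variable {E Y Y' : Type} [NormedAddCommGroup E] [NormedSpace ℝ E] [TopologicalSpace Y]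
  [TopologicalSpace Y'] {m : ℕ}

lemma le_shrink {φ : E → Y} {a : E} {U : Set E} (hU : U ∈ 𝓝 a)
    (h : IsOpenEmbedding (U.domRestrict φ)) : ∃ ψ : C(E, Y), IsOpenEmbedding ψ ∧ ψ 0 = φ a := by
  obtain ⟨r, r0, r1⟩ := Metric.mem_nhds_iff.1 hU
  let e := OpenPartialHomeomorph.univBall (E := E) a r
  have e1 : IsOpenEmbedding e := e.isOpenEmbedding (OpenPartialHomeomorph.univBall_source a r)
  have e2 : ∀ x, e x ∈ U := fun x => r1 (OpenPartialHomeomorph.univBall_target a r0 ▸
    e.map_source (by rw [OpenPartialHomeomorph.univBall_source]; trivial))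
  have e3 : IsOpenEmbedding (U.codRestrict e e2) :=
    ⟨e1.isEmbedding.codRestrict U e2, by
      convert e1.isOpen_range.preimage (continuous_subtype_val (p := (· ∈ U))) using 1
      ext x
      exact ⟨fun ⟨y, hy⟩ => ⟨y, congrArg Subtype.val hy⟩, fun ⟨y, hy⟩ => ⟨y, Subtype.ext hy⟩⟩⟩
  exact ⟨⟨_, (h.comp e3).continuous⟩, h.comp e3,
    congrArg φ (OpenPartialHomeomorph.univBall_apply_zero a r)⟩

lemma le_of_charted [ChartedSpace E Y] : LE E Y := by
  intro y
  let c := (chartAt E y).symm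
  obtain ⟨ψ, h1, h2⟩ := le_shrink (φ := c) (a := chartAt E y y) (U := c.source)
    (c.open_source.mem_nhds (mem_chart_target E y)) c.isOpenEmbedding_restrict
  exact ⟨ψ, h1, h2.trans ((chartAt E y).left_inv (mem_chart_source E y))⟩

omit [NormedSpace ℝ E] in
lemma LE.prod {E' : Type} [NormedAddCommGroup E'] (h : LE E Y) (h' : LE E' Y') :
    LE (E × E') (Y × Y') := fun y => by
  obtain ⟨φ, a, b⟩ := h y.1
  obtain ⟨ψ, c, d⟩ := h' y.2
  exact ⟨φ.prodMap ψ, a.prodMap c, Prod.ext b d⟩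

section

variable [T2Space Y]

lemma loc_high (hE : LH E m) (hY : LE E Y) {y : Y} {k : ℕ} (hk : k ≠ m) {z : Ch (Sx Y)}
    (h1 : z ∈ Cs univ (k + 1)) (h2 : sd z ∈ Cs {y}ᶜ k) : Tr {y} (k + 1) z := by
  obtain ⟨φ, a, rfl⟩ := hY y
  rw [← image_singleton] at h2 ⊢
  obtain ⟨u, u1, u2, u3⟩ := exc_surj a (by simp) h1 h2
  exact u3.cancel (((tr_iff u1).2 (hE.1 k hk _ u2 (sd_sd _))).map (mapsTo_compl a.injective))

lemma loc_two (hE : LH E m) (hY : LE E Y) {y : Y} {z z' : Ch (Sx Y)}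
    (h1 : z ∈ Cs univ (m + 1)) (h2 : sd z ∈ Cs {y}ᶜ m) (h3 : ¬ Tr {y} (m + 1) z)
    (h1' : z' ∈ Cs univ (m + 1)) (h2' : sd z' ∈ Cs {y}ᶜ m) (h3' : ¬ Tr {y} (m + 1) z') :
    Tr {y} (m + 1) (z + z') := by
  obtain ⟨φ, a, rfl⟩ := hY y
  rw [← image_singleton] at *
  obtain ⟨u, u1, u2, u3⟩ := exc_surj a (by simp) h1 h2
  obtain ⟨v, v1, v2, v3⟩ := exc_surj a (by simp) h1' h2'
  obtain ⟨c, -, -, -, c4⟩ := hE.2
  have b1 := (c4 _ u2 (sd_sd _)).resolve_left fun e =>
    h3 (u3.cancel (((tr_iff u1).2 e).map (mapsTo_compl a.injective)))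
  have b2 := (c4 _ v2 (sd_sd _)).resolve_left fun e =>
    h3' (v3.cancel (((tr_iff v1).2 e).map (mapsTo_compl a.injective)))
  have b3 := ((tr_iff (add_mem u1 v1)).2 (by
    convert b1.add b2 using 1
    rw [map_add]; linear_combination (norm := abel1) - aa c)).map (mapsTo_compl a.injective)
  refine Tr.cancel ?_ b3
  rw [map_add, add_add_add_comm]
  exact u3.add v3

/-- Classes that vanish at each point of `K` vanish on `K`. -/
def PP (m : ℕ) (K : Set Y) : Prop := ∀ k, m ≤ k → ∀ z ∈ Cs univ (k + 1), sd z ∈ Cs Kᶜ k →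
  (∀ y ∈ K, Tr {y} (k + 1) z) → Tr K (k + 1) z

omit [T2Space Y] in
lemma glue {K L : Set Y} (hK : IsClosed K) (hL : IsClosed L) {k : ℕ} {x y : Ch (Sx Y)}
    (hx : sd x ∈ Cs Kᶜ k) (hy : sd y ∈ Cs Lᶜ k) (h : Tr (K ∩ L) (k + 1) (x + y)) :
    ∃ a ∈ Cs Kᶜ (k + 1), ∃ b ∈ Cs Lᶜ (k + 1), ∃ e ∈ Cs univ (k + 2), x + a = y + b + sd e := by
  obtain ⟨e, e1, e2⟩ := h
  rw [compl_inter] at e2
  obtain ⟨T, t1, a, ha, b, hb, e3⟩ := small2 hK.isOpen_compl hL.isOpen_compl e2
  refine ⟨a + T (sd x), add_mem ha (t1 _ _ _ hx), b + T (sd y), add_mem hb (t1 _ _ _ hy),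
    e + T (x + y + sd e), add_mem e1 (t1 _ _ _ (Cs_mono (subset_univ _) _ e2)), ?_⟩
  rw [map_add sd (x + y), sd_sd, add_zero, map_add sd x, map_add T (sd x)] at e3
  rw [map_add]
  linear_combination (norm := abel1) e3 + aa a - aa y - aa (T (sd y)) - aa (sd e) -
    aa (sd (T (x + y + sd e)))

lemma PP.union (hE : LH E m) (hY : LE E Y) {K L : Set Y} (hK : IsClosed K) (hL : IsClosed L)
    (p1 : PP m K) (p2 : PP m L) (p3 : PP m (K ∩ L)) : PP m (K ∪ L) := by
  intro k hk z h1 h2 h3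
  obtain ⟨b, b1, b2⟩ := p1 k hk z h1 (Cs_mono (compl_subset_compl.2 subset_union_left) _ h2)
    fun y hy => h3 y (Or.inl hy)
  obtain ⟨c, c1, c2⟩ := p2 k hk z h1 (Cs_mono (compl_subset_compl.2 subset_union_right) _ h2)
    fun y hy => h3 y (Or.inr hy)
  have h4 : sd (b + c) ∈ Cs (K ∩ L)ᶜ (k + 1) := by
    have : sd (b + c) = z + sd b + (z + sd c) := by
      rw [map_add]; linear_combination (norm := abel1) - aa z
    rw [this]
    exact add_mem (Cs_mono (compl_subset_compl.2 inter_subset_left) _ b2)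
      (Cs_mono (compl_subset_compl.2 inter_subset_right) _ c2)
  obtain ⟨e, e1, e2⟩ := p3 (k + 1) (by omega) _ (add_mem b1 c1) h4 fun y hy =>
    loc_high hE hY (by omega) (add_mem b1 c1)
      (Cs_mono (compl_subset_compl.2 (singleton_subset_iff.2 hy)) _ h4)
  rw [compl_inter] at e2
  obtain ⟨T, t1, u, hu, v, hv, e3⟩ := small2 hK.isOpen_compl hL.isOpen_compl e2
  have e4 := congrArg sd e3
  have e5 : T (sd (b + c + sd e)) = T (z + sd b) + T (z + sd c) := by
    simp only [map_add, sd_sd, map_zero]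
    linear_combination (norm := abel1) - aa (T z)
  rw [e5] at e4
  simp only [map_add sd, sd_sd] at e4
  refine ⟨b + (u + T (z + sd b)), add_mem b1 (Cs_mono (subset_univ _) _
    (add_mem hu (t1 _ _ _ b2))), ?_⟩
  rw [compl_union, map_add, ← add_assoc]
  refine Cs_inter (add_mem b2 (sd_mem (add_mem hu (t1 _ _ _ b2)))) ?_
  have : z + sd b + sd (u + T (z + sd b)) = z + sd c + sd (v + T (z + sd c)) := by
    simp only [map_add sd]
    linear_combination (norm := abel1) e4 + aa (sd u) - aa (sd c) - aa (sd (T (z + sd c)))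
  rw [this]
  exact add_mem c2 (sd_mem (add_mem hv (t1 _ _ _ c2)))

lemma tr_chart {φ : C(E, Y)} (hφ : IsOpenEmbedding φ) {A : Set E} (h1 : Convex ℝ A)
    (h2 : IsCompact A) {a : E} (ha : a ∈ A) {k : ℕ} {z : Ch (Sx Y)} (h3 : z ∈ Cs univ (k + 1))
    (h4 : sd z ∈ Cs (φ '' A)ᶜ k) (h5 : Tr {φ a} (k + 1) z) : Tr (φ '' A) (k + 1) z := by
  obtain ⟨u, u1, u2, u3⟩ := exc_surj hφ (h2.image φ.continuous).isClosed h3 h4
  have := (u3.mono (singleton_subset_iff.2 (mem_image_of_mem _ ha))).cancel' h5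
  rw [← image_singleton] at this
  exact u3.cancel ((tr_convex h1 h2 ha u2 (exc_inj hφ (by simp) u1 this)).map
    (mapsTo_compl hφ.injective))

omit [T2Space Y] in
lemma pp_empty : PP m (∅ : Set Y) := fun _ _ _ h _ _ => Tr.of_mem (by rwa [compl_empty])

lemma pp_fin (hE : LH E m) (hY : LE E Y) {φ : C(E, Y)} (hφ : IsOpenEmbedding φ) {ι : Type}
    (t : Finset ι) : ∀ A : ι → Set E, (∀ i, Convex ℝ (A i) ∧ IsCompact (A i)) →
      PP m (⋃ i ∈ t, φ '' A i) := by
  classical
  induction t using Finset.induction_on with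
  | empty => intro A _; simpa using pp_empty
  | insert i t _ ih =>
    intro A hA
    rw [Finset.set_biUnion_insert]
    refine PP.union hE hY ((hA i).2.image φ.continuous).isClosed
      (t.isCompact_biUnion fun j _ => (hA j).2.image φ.continuous).isClosed ?_ (ih A hA) ?_
    · intro k _ z h1 h2 h3
      rcases (A i).eq_empty_or_nonempty with e | ⟨a, ha⟩
      · exact Tr.of_mem (by simpa [e] using h1)
      · exact tr_chart hφ (hA i).1 (hA i).2 ha h1 h2 (h3 _ ⟨a, ha, rfl⟩)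
    · simpa only [inter_iUnion, ← image_inter hφ.injective] using
        ih (fun j => A i ∩ A j) fun j => ⟨(hA i).1.inter (hA j).1, (hA i).2.inter (hA j).2⟩

variable [ProperSpace E]

lemma pp_chart (hE : LH E m) (hY : LE E Y) {φ : C(E, Y)} (hφ : IsOpenEmbedding φ) {K : Set E}
    (hK : IsCompact K) : PP m (φ '' K) := by
  intro k hk z h1 h2 h3
  obtain ⟨C, c1, c2, c3⟩ := exists_compact h2
  have : ∀ a, ∃ r, 0 < r ∧ (a ∈ K → φ '' closedBall a r ⊆ Cᶜ) := fun a => by
    by_cases ha : a ∈ K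
    · obtain ⟨r, r0, r1⟩ := Metric.nhds_basis_closedBall.mem_iff.1
        ((c1.isClosed.isOpen_compl.preimage φ.continuous).mem_nhds
          (show φ a ∈ Cᶜ from fun h => c2 h ⟨a, ha, rfl⟩))
      exact ⟨r, r0, fun _ => image_subset_iff.2 r1⟩
    · exact ⟨1, one_pos, fun h => (ha h).elim⟩
  choose r r0 r1 using this
  obtain ⟨t, t1, t2⟩ := hK.elim_nhds_subcover (fun a => closedBall a (r a))
    fun a _ => closedBall_mem_nhds a (r0 a)
  refine (pp_fin hE hY hφ t (fun a => closedBall a (r a))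
    (fun a => ⟨convex_closedBall _ _, isCompact_closedBall _ _⟩) k hk z h1 (Cs_mono ?_ _ c3)
    ?_).mono (by simpa only [← image_iUnion₂] using image_mono t2)
  · exact subset_compl_comm.1 (iUnion₂_subset fun a ha => r1 a (t1 a ha))
  · intro y hy
    obtain ⟨a, ha, hy⟩ := mem_iUnion₂.1 hy
    exact (tr_chart hφ (convex_closedBall _ _) (isCompact_closedBall _ _)
      (mem_closedBall_self (r0 a).le) h1 (Cs_mono (subset_compl_comm.1 (r1 a (t1 a ha))) _ c3)
      (h3 _ ⟨a, t1 a ha, rfl⟩)).mono (singleton_subset_iff.2 hy)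

omit [T2Space Y] [NormedSpace ℝ E] [ProperSpace E] in
lemma exists_cover {φ : Y → C(E, Y)} (h : ∀ y, IsOpenEmbedding (φ y) ∧ φ y 0 = y) {r : ℝ}
    (r0 : 0 < r) {K : Set Y} (hK : IsCompact K) : ∃ t : Finset Y, K ⊆ ⋃ y ∈ t, φ y '' ball 0 r := by
  obtain ⟨t, -, t2⟩ := hK.elim_nhds_subcover (fun y => φ y '' ball 0 r) fun y _ =>
    ((h y).1.isOpenMap _ isOpen_ball).mem_nhds ⟨0, mem_ball_self r0, (h y).2⟩
  exact ⟨t, t2⟩

theorem pp_all (hE : LH E m) (hY : LE E Y) {K : Set Y} (hK : IsCompact K) : PP m K := by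
  classical
  have hY' := hY
  choose φ h using hY'
  have sub : ∀ y K, IsCompact K → K ⊆ φ y '' closedBall 0 1 → PP m K := fun y K hK e => by
    have := pp_chart hE hY (h y).1
      ((isCompact_closedBall 0 1).inter_left (hK.isClosed.preimage (φ y).continuous))
    rwa [image_preimage_inter, inter_eq_left.2 e] at this
  obtain ⟨t, ht⟩ := exists_cover h one_pos hK
  replace ht : K ⊆ ⋃ y ∈ t, φ y '' closedBall 0 1 :=
    ht.trans (iUnion₂_mono fun _ _ => image_mono ball_subset_closedBall)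
  induction t using Finset.induction_on generalizing K with
  | empty => rw [show K = ∅ by simpa using ht]; exact pp_empty
  | insert y t _ ih =>
    rw [Finset.set_biUnion_insert] at ht
    have c1 := hK.inter ((isCompact_closedBall 0 1).image (φ y).continuous)
    have c2 := hK.inter
      (t.isCompact_biUnion fun j _ => (isCompact_closedBall 0 1).image (φ j).continuous)
    rw [← inter_eq_left.2 ht, inter_union_distrib_left]
    exact PP.union hE hY c1.isClosed c2.isClosed (sub y _ c1 inter_subset_right)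
      (ih c2 inter_subset_right)
      (sub y _ (c1.inter c2) (inter_subset_left.trans inter_subset_right))

/-- The mod 2 fundamental class. -/
theorem exists_fund [CompactSpace Y] (hE : LH E (m + 1)) (hY : LE E Y) :
    ∃ z ∈ Cs (univ : Set Y) (m + 2), sd z = 0 ∧ ∀ y, ¬ Tr {y} (m + 2) z := by
  classical
  have hY' := hY
  choose φ h using hY'
  obtain ⟨c, c1, c2, c3, -⟩ := hE.2
  obtain ⟨u, u1, u2⟩ := z0_univ _ c (Cs_mono (subset_univ _) _ c1) c2
  obtain ⟨C, d1, d2, d3⟩ := exists_compact c1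
  obtain ⟨r, r0, r1⟩ := Metric.nhds_basis_closedBall.mem_iff.1
    (d1.isClosed.isOpen_compl.mem_nhds (show (0 : E) ∈ Cᶜ from fun h => d2 h rfl))
  have u3 : sd u ∈ Cs (closedBall 0 r)ᶜ (m + 1) := u2 ▸ Cs_mono (subset_compl_comm.1 r1) _ d3
  have key : ∀ t : Finset Y, ∃ z ∈ Cs (univ : Set Y) (m + 2),
      sd z ∈ Cs (⋃ y ∈ t, φ y '' closedBall 0 r)ᶜ (m + 1) ∧
      ∀ y ∈ ⋃ y ∈ t, φ y '' closedBall 0 r, ¬ Tr {y} (m + 2) z := by
    intro t
    induction t using Finset.induction_on with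
    | empty => exact ⟨0, zero_mem _, by simp, by simp⟩
    | insert y t _ ih =>
      obtain ⟨z, z1, z2, z3⟩ := ih
      rw [Finset.set_biUnion_insert]
      have k1 := (isCompact_closedBall 0 r).image (φ y).continuous
      have k2 := t.isCompact_biUnion fun j _ => (isCompact_closedBall 0 r).image (φ j).continuous
      have w1 : cm (φ y) u ∈ Cs univ (m + 2) := cm_mem (mapsTo_univ _ _) u1
      have w2 : sd (cm (φ y) u) ∈ Cs (φ y '' closedBall 0 r)ᶜ (m + 1) := by
        rw [← cm_sd]; exact cm_mem (mapsTo_compl (h y).1.injective) u3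
      have w3 : ∀ x ∈ φ y '' closedBall 0 r, ¬ Tr {x} (m + 2) (cm (φ y) u) := by
        rintro _ ⟨a, ha, rfl⟩ e
        rw [← image_singleton] at e
        have := (tr_convex (convex_closedBall _ _) (isCompact_closedBall _ _) ha u3
          (exc_inj (h y).1 (by simp) u1 e)).mono
          (singleton_subset_iff.2 (mem_closedBall_self r0.le))
        exact c3 (u2 ▸ (tr_iff u1).1 this)
      obtain ⟨a, ha, b, hb, e, he, e1⟩ := glue k1.isClosed k2.isClosed w2 z2
        (pp_all hE hY (k1.inter k2) _ le_rfl _ (add_mem w1 z1) (by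
          rw [map_add]
          exact add_mem (Cs_mono (compl_subset_compl.2 inter_subset_left) _ w2)
            (Cs_mono (compl_subset_compl.2 inter_subset_right) _ z2)) fun x hx =>
          loc_two hE hY w1 (Cs_mono (compl_subset_compl.2 (singleton_subset_iff.2 hx.1)) _ w2)
            (w3 x hx.1) z1 (Cs_mono (compl_subset_compl.2 (singleton_subset_iff.2 hx.2)) _ z2)
            (z3 x hx.2))
      refine ⟨cm (φ y) u + a, add_mem w1 (Cs_mono (subset_univ _) _ ha), ?_, ?_⟩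
      · rw [compl_union]
        refine Cs_inter (by rw [map_add]; exact add_mem w2 (sd_mem ha)) ?_
        rw [e1, map_add, sd_sd, add_zero, map_add]
        exact add_mem z2 (sd_mem hb)
      · rintro x (hx | hx) e
        · exact w3 x hx (e.cancel ((Tr.of_mem ha).mono (singleton_subset_iff.2 hx)))
        · rw [e1] at e
          exact z3 x hx ((e.cancel (Tr.of_bd _ he)).cancel
            ((Tr.of_mem hb).mono (singleton_subset_iff.2 hx)))
  obtain ⟨t, ht⟩ := exists_cover h r0 isCompact_univ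
  obtain ⟨z, z1, z2, z3⟩ := key t
  rw [univ_subset_iff.1 (ht.trans (iUnion₂_mono fun _ _ => image_mono ball_subset_closedBall))]
    at z2 z3
  exact ⟨z, z1, Cs_empty (by simpa using z2), fun y => z3 y trivial⟩

instance (k : ℕ) : PreconnectedSpace (Sp k) :=
  Subtype.preconnectedSpace (convex_stdSimplex ℝ _).isPreconnected

/-- Homology vanishes above the dimension. -/
theorem z0_high (hE : LH E m) (hY : LE E Y) {k : ℕ} (hk : m < k) : Z0 (univ : Set Y) (k + 1) := by
  intro z hz h0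
  have hY' := hY
  choose φ h using hY'
  obtain ⟨C, c1, -, c3⟩ := exists_compact hz
  obtain ⟨t, ht⟩ := exists_cover h one_pos c1
  set U := ⋃ y ∈ t, φ y '' ball 0 1
  set K := ⋃ y ∈ t, φ y '' closedBall 0 1
  have hU : IsOpen U := isOpen_biUnion fun y _ => (h y).1.isOpenMap _ isOpen_ball
  have hK : IsCompact K :=
    t.isCompact_biUnion fun j _ => (isCompact_closedBall 0 1).image (φ j).continuous
  have hUK : U ⊆ K := iUnion₂_mono fun _ _ => image_mono ball_subset_closedBall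
  have all : ∀ (L : Set Y), IsCompact L → ∀ j, m < j → ∀ x ∈ Cs univ (j + 1), sd x ∈ Cs Lᶜ j →
      Tr L (j + 1) x := fun L hL j hj x h1 h2 => pp_all hE hY hL j hj.le x h1 h2 fun y hy =>
    loc_high hE hY hj.ne' h1 (Cs_mono (compl_subset_compl.2 (singleton_subset_iff.2 hy)) _ h2)
  obtain ⟨b, b1, b2⟩ := all K hK k hk z hz (by rw [h0]; exact zero_mem _)
  have e0 : (K \ U)ᶜ = U ∪ Kᶜ := by rw [sdiff_eq, compl_inter, compl_compl, union_comm]
  obtain ⟨e, -, e2⟩ := all _ (hK.diff hU) (k + 1) (by omega) b b1 (by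
    have : sd b = z + (z + sd b) := by rw [← add_assoc, aa, zero_add]
    rw [this, e0]
    exact add_mem (Cs_mono (ht.trans subset_union_left) _ c3) (Cs_mono subset_union_right _ b2))
  obtain ⟨u, hu, v, hv, e3⟩ := sup_split (s := {σ | σ.1 = k + 2 ∧ ∀ t, σ.2 t ∈ U})
    (t := {σ | σ.1 = k + 2 ∧ ∀ t, σ.2 t ∈ Kᶜ}) (sup_mono (fun σ hσ => by
      have := (isPreconnected_range σ.2.continuous).subset_or_subset hU hK.isClosed.isOpen_compl
        (disjoint_compl_right.mono_left hUK) (e0 ▸ range_subset_iff.2 hσ.2)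
      exact this.imp (fun x => ⟨hσ.1, range_subset_iff.1 x⟩) fun x => ⟨hσ.1, range_subset_iff.1 x⟩)
      e2)
  have e4 := congrArg sd e3
  simp only [map_add, sd_sd] at e4
  refine ⟨u, Cs_mono (subset_univ U) _ hu, eq_of_add_eq_zero (Cs_empty (k := k) ?_)⟩
  rw [← (disjoint_compl_right.mono_left hUK).inter_eq]
  refine Cs_inter (add_mem (sd_mem hu) (Cs_mono ht _ c3)) ?_
  have : sd u + z = z + sd b + sd v := by linear_combination (norm := abel1) - e4 - aa (sd v)
  rw [this]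
  exact add_mem b2 (sd_mem hv)

end

omit [NormedSpace ℝ E] in
/-- A map that is a homeomorphism over a chart preserves local nontriviality. -/
lemma not_tr_map [T1Space Y] [T1Space Y'] {f : C(Y, Y')} {φ : C(E, Y)} (h1 : IsOpenEmbedding φ)
    (h2 : IsOpenEmbedding (f.comp φ)) (h3 : ∀ y, f y = f (φ 0) → y = φ 0) {k : ℕ} {z : Ch (Sx Y)}
    (z1 : z ∈ Cs univ (k + 1)) (z2 : sd z = 0) (z3 : ¬ Tr {φ 0} (k + 1) z) :
    ¬ Tr {f (φ 0)} (k + 1) (cm f z) := by
  intro e
  obtain ⟨u, u1, -, u3⟩ := exc_surj (K := {0}) h1 (by simp) z1 (by rw [z2]; exact zero_mem _)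
  have a := u3.map (L := {f (φ 0)}) (g := f) fun y hy e => hy (by simpa using h3 y e)
  rw [map_add, cm_cm] at a
  have b := exc_inj (K := {0}) h2 (by simp) u1 (by simpa using a.cancel' e)
  exact z3 (by simpa using u3.cancel (b.map (mapsTo_compl h1.injective)))

section Covering

variable {G : Type} [Group G] [MulAction G Y]

/-- The action of a group of homeomorphisms on singular chains. -/
noncomputable def sAct (G Y : Type) [Group G] [TopologicalSpace Y] [MulAction G Y]
    [ContinuousConstSMul G Y] : Act (SC Y) G where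
  a := { toFun := fun g => ⟨smap ⟨(g • ·), continuous_const_smul g⟩,
          smap ⟨(g⁻¹ • ·), continuous_const_smul _⟩,
          fun σ => congrArg (Sigma.mk σ.1) (ContinuousMap.ext fun _ => inv_smul_smul g _),
          fun σ => congrArg (Sigma.mk σ.1) (ContinuousMap.ext fun _ => smul_inv_smul g _)⟩
         map_one' := Equiv.ext fun σ =>
          congrArg (Sigma.mk σ.1) (ContinuousMap.ext fun _ => one_smul G _)
         map_mul' := fun g h => Equiv.ext fun σ =>
          congrArg (Sigma.mk σ.1) (ContinuousMap.ext fun _ => mul_smul g h _) }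
  deg_a _ _ := rfl
  d_a g σ := (congrArg sd (cm_sg ⟨(g • ·), continuous_const_smul g⟩ σ)).symm.trans (cm_sd _ (sg σ)).symm

lemma sAct_free [ContinuousConstSMul G Y] (h : ∀ (g : G) (y : Y), g • y = y → g = 1) (g : G)
    (σ : Sx Y) (h0 : σ.1 ≠ 0) (e : (sAct G Y).a g σ = σ) : g = 1 := by
  obtain ⟨_ | k, σ⟩ := σ
  · exact (h0 rfl).elim
  · exact h g _ (ContinuousMap.congr_fun (eq_of_heq (Sigma.mk.inj e).2) (stdSimplex.vertex 0))

lemma sAct_dom [ContinuousConstSMul G Y] (h : ∀ (g : G) (y : Y), g • y = y → g = 1) :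
    Dom (sAct G Y) univ :=
  ⟨trivial, fun _ _ _ => trivial, fun _ _ => mem_sup_univ _, fun g σ _ => sAct_free h g σ⟩

lemma exists_lift {p : Y → Y'} (hp : IsCoveringMap p) (hs : Function.Surjective p) {k : ℕ}
    (σ : C(Sp k, Y')) : ∃ τ : C(Sp k, Y), p ∘ τ = σ := by
  cases k with
  | zero => exact ⟨⟨isEmptyElim, continuous_of_discreteTopology⟩, funext isEmptyElim⟩
  | succ k =>
    have := (convex_stdSimplex ℝ (Fin (k + 1))).contractibleSpace ⟨_, (stdSimplex.vertex 0).2⟩
    have := (convex_stdSimplex ℝ (Fin (k + 1))).locallyPathConnectedSpace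
    obtain ⟨e, he⟩ := hs (σ (stdSimplex.vertex 0))
    obtain ⟨τ, h, -⟩ := hp.existsUnique_continuousMap_lifts σ _ e he
    exact ⟨τ, h.2⟩

lemma exists_smul {p : Y → Y'} (hp : IsQuotientCoveringMap p G) {k : ℕ} {σ τ : C(Sp k, Y)}
    (h : p ∘ σ = p ∘ τ) : ∃ g : G, ∀ t, g • σ t = τ t := by
  cases k with
  | zero => exact ⟨1, isEmptyElim⟩
  | succ k =>
    have := hp.toContinuousConstSMul
    obtain ⟨g, hg⟩ := hp.apply_eq_iff_mem_orbit.1 (congrFun h (stdSimplex.vertex 0)).symm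
    exact ⟨g, congrFun (hp.isCoveringMap.eq_of_comp_eq (σ.continuous.const_smul g) τ.continuous
      (funext fun t => (hp.map_smul g).trans (congrFun h t)) _ hg)⟩

lemma descend {B B' : Type} (q : B → B') (μ : B → F) (h : ∀ b c, q b = q c → μ b = μ c) :
    ∃ ν : B' → F, ∀ b, ν (q b) = μ b := by
  classical
  refine ⟨fun c => if e : ∃ b, q b = c then μ e.choose else 0, fun b => ?_⟩
  have e : ∃ c, q c = q b := ⟨b, rfl⟩
  simp only [e, dif_pos]
  exact h _ _ e.choose_spec

lemma exists_factor {A B : Type} [AddCommGroup A] [Module F A] [AddCommGroup B] [Module F B]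
    (f : A →ₗ[F] B) (φ : A →ₗ[F] F) (h : ∀ x, f x = 0 → φ x = 0) :
    ∃ L : B →ₗ[F] F, L ∘ₗ f = φ := by
  have : φ ∈ LinearMap.range f.dualMap := by
    rw [LinearMap.range_dualMap_eq_dualAnnihilator_ker, Submodule.mem_dualAnnihilator]
    exact h
  exact this

lemma van_of_z0 [ContinuousConstSMul G Y] {p : C(Y, Y')} (hp : IsQuotientCoveringMap p G) {k : ℕ}
    (h : Z0 (univ : Set Y') k) : (sAct G Y).Van k := by
  intro μ h1 h2
  obtain ⟨ν, hν⟩ := descend (smap p) μ (by
    rintro ⟨j, σ⟩ ⟨j', τ⟩ e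
    obtain rfl : j = j' := congrArg Sigma.fst e
    obtain ⟨g, hg⟩ := exists_smul hp (σ := σ) (τ := τ)
      (congrArg DFunLike.coe (eq_of_heq (Sigma.mk.inj e).2))
    rw [← h1 g _ trivial]
    exact congrArg μ (congrArg (Sigma.mk j) (ContinuousMap.ext hg)))
  have n1 : ∀ x, lin ν (cm p x) = lin μ x := fun x => by simp only [cm, lin_mp, hν]
  have n2 : ∀ x ∈ Cs (univ : Set Y') (k + 1), lin ν (sd x) = 0 := by
    intro x hx
    refine map_zero' (L := lin ν ∘ₗ sd) ?_ hx
    rintro ⟨j, σ⟩ ⟨rfl, -⟩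
    obtain ⟨τ, hτ⟩ := exists_lift hp.isCoveringMap hp.surjective σ
    have : (⟨_, σ⟩ : Sx Y') = smap p ⟨_, τ⟩ :=
      congrArg (Sigma.mk _) (ContinuousMap.ext fun t => (congrFun hτ t).symm)
    rw [this, ← cm_sg, LinearMap.comp_apply, ← cm_sd, n1]
    exact h2 _ rfl
  let S := Cs (univ : Set Y') k
  obtain ⟨L, hL⟩ := exists_factor (A := S) (B := Ch (Sx Y')) (sd ∘ₗ S.subtype)
    (lin ν ∘ₗ S.subtype) (by
      rintro ⟨x, hx⟩ e
      obtain ⟨b, b1, b2⟩ := h x hx e
      exact (congrArg (lin ν) b2.symm).trans (n2 b b1))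
  refine ⟨fun b => L (sg (smap p b)), fun g b _ => ?_, fun b _ hb => ?_⟩
  · exact congrArg (fun x => L (sg x))
      (congrArg (Sigma.mk b.1) (ContinuousMap.ext fun t => hp.map_smul g))
  · have e : L (sd (sg (smap p b))) = lin ν (sg (smap p b)) :=
      LinearMap.congr_fun hL ⟨sg (smap p b), sg_mem ⟨hb, fun _ => trivial⟩⟩
    rw [lin_sg, hν, ← cm_sg, ← cm_sd] at e
    rw [← e, ← lin_mp (fun b => L (sg b)), lin_map]
    rfl

lemma LE.lift {p : Y → Y'} (hp : IsCoveringMap p) (h : LE E Y') (y : Y) :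
    ∃ φ : C(E, Y), IsLocalHomeomorph φ ∧ Function.Injective (p ∘ φ) ∧ φ 0 = y := by
  obtain ⟨ψ, a, b⟩ := h (p y)
  obtain ⟨φ, ⟨c, d⟩, -⟩ := hp.existsUnique_continuousMap_lifts ψ 0 y b.symm
  exact ⟨φ, IsLocalHomeomorph.of_comp (d ▸ a.isLocalHomeomorph) hp.isLocalHomeomorph φ.continuous,
    d ▸ a.injective, c⟩

/-- The deck group of a contractible covering of a manifold has no cohomology above the
dimension. -/
theorem cd_deck [ProperSpace E] [T2Space Y'] [ContractibleSpace Y] {p : Y → Y'}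
    (hp : IsQuotientCoveringMap p G) (hE : LH E m) (hY : LE E Y') {k : ℕ} (hk : m < k) :
    CD G (k + 1) := by
  have := hp.toContinuousConstSMul
  have fr : ∀ (g : G) (y : Y), g • y = y → g = 1 := fun g y e => by
    obtain ⟨U, u1, u2⟩ := hp.disjoint y
    exact u2 g ⟨y, ⟨y, mem_of_mem_nhds u1, e⟩, mem_of_mem_nhds u1⟩
  refine CD.of_van (sAct_dom fr) SC_acyc fun S => ?_
  have : ContinuousConstSMul S Y := ⟨fun g => continuous_const_smul g.1⟩
  let q : C(Y, MulAction.orbitRel.Quotient S Y) := ⟨Quotient.mk _, continuous_quotient_mk'⟩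
  have hq : IsQuotientCoveringMap q S := ⟨isQuotientMap_quotient_mk', inferInstance,
    Quotient.eq, fun y => (hp.disjoint y).imp fun U u => ⟨u.1, fun g e => Subtype.ext (u.2 g e)⟩⟩
  have pq : ∀ x y, q x = q y → p x = p y := fun x y e => by
    obtain ⟨g, rfl⟩ := hq.apply_eq_iff_mem_orbit.1 e
    exact hp.map_smul g.1
  have : T2Space (MulAction.orbitRel.Quotient S Y) := by
    refine t2Space_iff_disjoint_nhds.2 fun a b n => ?_
    obtain ⟨x, rfl⟩ := hq.surjective a
    obtain ⟨y, rfl⟩ := hq.surjective b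
    have key : ∀ U V : Set Y, U ∈ 𝓝 x → V ∈ 𝓝 y → (∀ u ∈ U, ∀ v ∈ V, q u ≠ q v) →
        Disjoint (𝓝 (q x)) (𝓝 (q y)) := fun U V hU hV h => by
      refine Filter.disjoint_of_disjoint_of_mem ?_ (hq.isCoveringMap.isOpenMap.image_mem_nhds hU)
        (hq.isCoveringMap.isOpenMap.image_mem_nhds hV)
      exact disjoint_left.2 fun _ ⟨u, hu, e⟩ ⟨v, hv, e'⟩ => h u hu v hv (e.trans e'.symm)
    by_cases e : p x = p y
    · obtain ⟨g, rfl⟩ := hp.apply_eq_iff_mem_orbit.1 e
      obtain ⟨U, u1, u2⟩ := hp.disjoint y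
      refine key _ U (smul_mem_nhds_smul g u1) u1 ?_
      rintro _ ⟨u, hu, rfl⟩ v hv e
      obtain ⟨s, hs⟩ := hq.apply_eq_iff_mem_orbit.1 e
      have := u2 (g⁻¹ * s) ⟨u, ⟨v, hv, by
        simp only [mul_smul]; exact inv_smul_eq_iff.2 hs⟩, hu⟩
      exact n (hq.apply_eq_iff_mem_orbit.2 ⟨s, by rw [inv_mul_eq_one.1 this]; rfl⟩)
    · obtain ⟨u, v, u1, v1, u2, v2, d⟩ := t2_separation e
      exact key _ _ ((u1.preimage hp.continuous).mem_nhds u2) ((v1.preimage hp.continuous).mem_nhds v2)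
        fun a ha b hb e => disjoint_left.1 d ha (pq _ _ e ▸ hb)
  refine van_of_z0 hq (z0_high hE (fun a => ?_) hk)
  obtain ⟨y, rfl⟩ := hq.surjective a
  obtain ⟨φ, a, b, c⟩ := hY.lift hp.isCoveringMap y
  exact ⟨q.comp φ, (hq.isCoveringMap.isLocalHomeomorph.comp a).isOpenEmbedding_of_injective
    fun u v e => b (pq _ _ e), congrArg q c⟩

/-- The group of deck transformations. -/
def deck (p : Y → Y') : Subgroup (Y ≃ₜ Y) where
  carrier := {g | ∀ y, p (g y) = p y}
  mul_mem' := fun {g h} a b y => (a (h y)).trans (b y)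
  one_mem' := fun _ => rfl
  inv_mem' := fun {g} a y => by simpa using (a (g⁻¹ y)).symm

instance (p : Y → Y') : MulAction (deck p) Y where
  smul g y := g.1 y
  one_smul _ := rfl
  mul_smul _ _ _ := rfl

theorem deck_quotient [ContractibleSpace Y] {p : Y → Y'} (hp : IsCoveringMap p)
    (hs : Function.Surjective p) [LocallyPathConnectedSpace Y] :
    IsQuotientCoveringMap p (deck p) := by
  have lift : ∀ x y, p y = p x → ∃ f : C(Y, Y), f x = y ∧ p ∘ f = p := fun x y e =>
    (hp.existsUnique_continuousMap_lifts ⟨p, hp.continuous⟩ x y e).exists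
  refine (isQuotientCoveringMap_iff_isCoveringMap_and _ _).2 ⟨hp, hs, ⟨fun g => g.1.continuous⟩,
    ⟨fun a b c e => Subtype.ext (Homeomorph.ext (congrFun (hp.eq_of_comp_eq a.1.continuous
      b.1.continuous (funext fun y => (a.2 y).trans (b.2 y).symm) c e)))⟩, fun {x y} => ⟨fun e => ?_, ?_⟩⟩
  · obtain ⟨f, f1, f2⟩ := lift y x e
    obtain ⟨g, g1, g2⟩ := lift x y e.symm
    have h1 := hp.eq_of_comp_eq (g.continuous.comp f.continuous) continuous_id
      (by rw [← Function.comp_assoc, g2, f2]; rfl) y (by simp [f1, g1])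
    have h2 := hp.eq_of_comp_eq (f.continuous.comp g.continuous) continuous_id
      (by rw [← Function.comp_assoc, f2, g2]; rfl) x (by simp [f1, g1])
    exact ⟨⟨⟨⟨f, g, congrFun h1, congrFun h2⟩, f.continuous, g.continuous⟩, congrFun f2⟩, f1⟩
  · rintro ⟨g, rfl⟩
    exact g.2 y

end Covering

end Pool.Agent.Shared.Mod2
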