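import Pool.Agent.Shared.Mod2Cx

/-! Singular chains with coefficients in the field with two elements: boundary, subdivision and
prism operators. -/

namespace Pool.Agent.Shared.Mod2

open Set

/-- The unit interval. -/
abbrev I : Set ℝ := unitInterval

/-- The standard simplex with `k` vertices. -/
abbrev Sp (k : ℕ) : Set (Fin k → ℝ) := stdSimplex ℝ (Fin k)

instance (k : ℕ) : Fact (Convex ℝ (Sp k)) := ⟨convex_stdSimplex ℝ _⟩

instance {A : Type} [NormedAddCommGroup A] [NormedSpace ℝ A] {V : Set A} [h : Fact (Convex ℝ V)] :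
    Fact (Convex ℝ (V ×ˢ I)) := ⟨h.1.prod (convex_Icc 0 1)⟩

instance : IsEmpty (Sp 0) := ⟨fun t => by simpa using t.2.2⟩

/-- Singular simplices. -/
abbrev Sx (Y : Type) [TopologicalSpace Y] : Type := Σ k : ℕ, C(Sp k, Y)

variable {Y Y' Y'' : Type} [TopologicalSpace Y] [TopologicalSpace Y'] [TopologicalSpace Y'']

/-- The image of a singular simplex. -/
def smap (g : C(Y, Y')) (σ : Sx Y) : Sx Y' := ⟨σ.1, g.comp σ.2⟩

/-- The induced map on singular chains. -/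
noncomputable def cm (g : C(Y, Y')) : Ch (Sx Y) →ₗ[F] Ch (Sx Y') := mp (smap g)

@[simp] lemma cm_sg (g : C(Y, Y')) (σ : Sx Y) : cm g (sg σ) = sg (smap g σ) := mp_sg _ _

lemma cm_cm (g : C(Y', Y'')) (f : C(Y, Y')) (x : Ch (Sx Y)) : cm g (cm f x) = cm (g.comp f) x :=
  mp_mp _ _ _

lemma cm_id (x : Ch (Sx Y)) : cm (ContinuousMap.id Y) x = x := mp_id x

section Affine

variable {A A' : Type} [NormedAddCommGroup A] [NormedSpace ℝ A] [NormedAddCommGroup A']
  [NormedSpace ℝ A'] {V : Set A} {V' : Set A'} [hV : Fact (Convex ℝ V)] [Fact (Convex ℝ V')]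

/-- The affine simplex with given vertices. -/
noncomputable def aff {k : ℕ} (v : Fin k → V) : C(Sp k, V) :=
  ⟨fun t => ⟨∑ i, t.1 i • (v i).1,
    hV.1.sum_mem (fun i _ => t.2.1 i) t.2.2 fun i _ => (v i).2⟩,
    Continuous.subtype_mk (continuous_finsetSum _ fun i _ =>
      ((continuous_apply i).comp continuous_subtype_val).smul continuous_const) _⟩

lemma aff_val {k : ℕ} (v : Fin k → V) (t : Sp k) : (aff v t).1 = ∑ i, t.1 i • (v i).1 := rfl

/-- The affine simplex whose vertices are given by a list. -/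
noncomputable def re (l : List V) : Sx V := ⟨l.length, aff l.get⟩

lemma re_ofFn {k : ℕ} (v : Fin k → V) : re (List.ofFn v) = ⟨k, aff v⟩ := by
  have : ∀ (l : List V) (h : k = l.length), re l = ⟨k, aff fun i => l.get (i.cast h)⟩ := by
    rintro l rfl; rfl
  rw [this _ List.length_ofFn.symm]
  simp

/-- Maps that preserve convex combinations. -/
def IsAff (g : C(V, V')) : Prop := ∀ k (v : Fin k → V), g.comp (aff v) = aff (g ∘ v)

lemma isAff_of {g : C(V, V')} (L : A →ₗ[ℝ] A') (c : A') (h : ∀ x, (g x).1 = L x + c) :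
    IsAff g := by
  intro k v
  refine ContinuousMap.ext fun t => Subtype.ext ?_
  simp only [ContinuousMap.comp_apply, h, aff_val, map_sum, map_smul, Function.comp_apply,
    smul_add, Finset.sum_add_distrib, ← Finset.sum_smul, t.2.2, one_smul]

lemma isAff_aff {k : ℕ} (v : Fin k → V) : IsAff (aff v) :=
  isAff_of (Fintype.linearCombination ℝ fun i => (v i).1) 0 fun t => by
    simp [aff_val, Fintype.linearCombination_apply]

lemma IsAff.smap_re {g : C(V, V')} (h : IsAff g) (l : List V) : smap g (re l) = re (l.map g) := by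
  conv_rhs => rw [← List.ofFn_get l, List.map_ofFn, re_ofFn, ← h]
  rfl

lemma IsAff.cm_re {g : C(V, V')} (h : IsAff g) (x : Ch (List V)) :
    cm g (mp re x) = mp re (mp (List.map g) x) := by
  simp only [cm, mp_mp, h.smap_re]

/-- The list of vertices of the standard simplex. -/
noncomputable def ev (k : ℕ) : List (Sp k) := List.ofFn stdSimplex.vertex

lemma ev_length (k : ℕ) : (ev k).length = k := List.length_ofFn

lemma aff_vertex {k : ℕ} (v : Fin k → V) (i : Fin k) : aff v (stdSimplex.vertex i) = v i := by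
  refine Subtype.ext ?_
  simp [aff_val, Pi.single_apply]

lemma map_ev (l : List V) : (ev l.length).map (aff l.get) = l := by
  conv_rhs => rw [← List.ofFn_get l]
  rw [ev, List.map_ofFn]
  congr 1
  exact funext fun i => aff_vertex _ i

lemma re_ev (k : ℕ) : re (ev k) = ⟨k, ContinuousMap.id _⟩ := by
  rw [ev, re_ofFn]
  congr 1
  refine ContinuousMap.ext fun t => Subtype.ext (funext fun j => ?_)
  simp [aff_val, Finset.sum_apply, Pi.single_apply]

lemma smap_re_ev (σ : Sx Y) : smap σ.2 (re (ev σ.1)) = σ := by rw [re_ev]; rfl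

/-- The natural operator defined by a family of affine chains in the standard simplices. -/
noncomputable def op (u : ∀ k, Ch (List (Sp k))) : Ch (Sx Y) →ₗ[F] Ch (Sx Y) :=
  lin fun σ => cm σ.2 (mp re (u σ.1))

lemma op_sg (u : ∀ k, Ch (List (Sp k))) (σ : Sx Y) : op u (sg σ) = cm σ.2 (mp re (u σ.1)) :=
  lin_sg _ _

lemma cm_op (u : ∀ k, Ch (List (Sp k))) (g : C(Y, Y')) (x : Ch (Sx Y)) :
    cm g (op u x) = op u (cm g x) :=
  map_eq' (L := cm g ∘ₗ op u) (L' := op u ∘ₗ cm g) (fun σ => by simp [op_sg, cm_cm, smap]) x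

lemma op_re (u : ∀ k, Ch (List (Sp k))) (l : List V) :
    op u (sg (re l)) = mp re (mp (List.map (aff l.get)) (u l.length)) := by
  rw [op_sg, ← (isAff_aff _).cm_re]; rfl

/-- The singular boundary. -/
noncomputable def sd : Ch (Sx Y) →ₗ[F] Ch (Sx Y) := op fun k => bdl (ev k)

lemma cm_sd (g : C(Y, Y')) (x : Ch (Sx Y)) : cm g (sd x) = sd (cm g x) := cm_op _ g x

lemma sd_re (x : Ch (List V)) : sd (mp re x) = mp re (lin bdl x) :=
  map_eq' (L := sd ∘ₗ mp re) (L' := mp re ∘ₗ lin bdl)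
    (fun l => by simp [sd, op_re, map_bdl, map_ev]) x

lemma sd_sd (x : Ch (Sx Y)) : sd (sd x) = 0 :=
  map_zero' (L := sd ∘ₗ sd) (fun σ _ => by
    rw [LinearMap.comp_apply, sd, op_sg, ← sd, ← cm_sd, sd_re, bdl_bdl, map_zero, map_zero])
    (mem_sup_univ x)

/-- Chains of degree `k` in the subset `s`. -/
def Cs (s : Set Y) (k : ℕ) : Submodule F (Ch (Sx Y)) := sup {σ | σ.1 = k ∧ ∀ t, σ.2 t ∈ s}

lemma Cs_mono {s t : Set Y} (h : s ⊆ t) (k : ℕ) : Cs s k ≤ Cs t k :=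
  sup_mono fun _ hσ => ⟨hσ.1, fun x => h (hσ.2 x)⟩

lemma Cs_inter {s t : Set Y} {k : ℕ} {x : Ch (Sx Y)} (h : x ∈ Cs s k) (h' : x ∈ Cs t k) :
    x ∈ Cs (s ∩ t) k := by
  refine sup_mono ?_ (sup_inter h h')
  exact fun _ hσ => ⟨hσ.1.1, fun x => ⟨hσ.1.2 x, hσ.2.2 x⟩⟩

lemma cm_mem {g : C(Y, Y')} {s : Set Y} {t : Set Y'} (h : MapsTo g s t) {k : ℕ} {x : Ch (Sx Y)}
    (hx : x ∈ Cs s k) : cm g x ∈ Cs t k := by
  refine mp_mem ?_ hx
  exact fun _ hσ => ⟨hσ.1, fun y => h (hσ.2 y)⟩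

lemma re_mem {k : ℕ} {x : Ch (List V)} (hx : x ∈ (LC V).Gr k) : mp re x ∈ Cs univ k := by
  refine mp_mem ?_ hx
  exact fun _ hl => ⟨hl, fun _ => trivial⟩

lemma op_mem {u : ∀ k, Ch (List (Sp k))} {k k' : ℕ} (hu : u k ∈ (LC _).Gr k') {s : Set Y}
    {x : Ch (Sx Y)} (hx : x ∈ Cs s k) : op u x ∈ Cs s k' := by
  refine lin_mem ?_ hx
  rintro ⟨k, σ⟩ ⟨rfl, h⟩
  exact cm_mem (fun t _ => h t) (re_mem hu)

lemma ev_gr (k : ℕ) : sg (ev k) ∈ (LC _).Gr k := sg_mem (ev_length k)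

lemma sd_mem {s : Set Y} {k : ℕ} {x : Ch (Sx Y)} (hx : x ∈ Cs s (k + 1)) : sd x ∈ Cs s k :=
  op_mem (by simpa [LC] using (LC _).d_gr (ev_gr (k + 1))) hx

lemma sd_zero {s : Set Y} {x : Ch (Sx Y)} (hx : x ∈ Cs s 0) : sd x = 0 := by
  refine map_zero' ?_ hx
  rintro ⟨k, σ⟩ ⟨rfl, -⟩
  simp [sd, op_sg, ev, bdl]

lemma Cs_zero (s t : Set Y) : Cs s 0 = Cs t 0 := by
  have : ∀ s t : Set Y, Cs s 0 ≤ Cs t 0 := fun s t => sup_mono (by
    rintro ⟨k, σ⟩ ⟨rfl, -⟩
    exact ⟨rfl, fun x => isEmptyElim x⟩)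
  exact le_antisymm (this _ _) (this _ _)

lemma Cs_empty {k : ℕ} {x : Ch (Sx Y)} (hx : x ∈ Cs ∅ (k + 1)) : x = 0 := by
  refine eq_zero_of_mem hx ?_
  rintro ⟨k, σ⟩ ⟨rfl, h⟩
  exact h (stdSimplex.vertex 0)

/-- The singular complex. -/
noncomputable def SC (Y : Type) [TopologicalSpace Y] : Cx (Sx Y) where
  deg σ := σ.1
  d := sd
  b0 := ⟨0, ⟨isEmptyElim, continuous_of_discreteTopology⟩⟩
  deg_b0 := rfl
  eq_b0 := by
    rintro ⟨k, σ⟩ rfl
    exact congrArg _ (ContinuousMap.ext fun t => isEmptyElim t)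
  dd := sd_sd
  d_mem := by
    rintro ⟨_ | k, σ⟩
    · rw [sd_zero (s := univ) (sg_mem ⟨rfl, fun _ => trivial⟩)]; exact zero_mem _
    · exact sup_mono (fun c hc => congrArg (· + 1) hc.1)
        (sd_mem (s := univ) (sg_mem ⟨rfl, fun _ => trivial⟩))

lemma Gr_eq (k : ℕ) : (SC Y).Gr k = Cs univ k := by simp [Cx.Gr, Cs, SC]

/-- The barycentre. -/
noncomputable def bary (a : V) (l : List V) : V := aff (a :: l).get stdSimplex.barycenter

lemma IsAff.bary {g : C(V, V')} (h : IsAff g) (a : V) (l : List V) :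
    g (bary a l) = bary (g a) (l.map g) := by
  have e := h.smap_re (a :: l)
  have : ∀ (k k' : ℕ) (f : C(Sp (k + 1), V')) (f' : C(Sp (k' + 1), V')),
      (⟨k + 1, f⟩ : Sx V') = ⟨k' + 1, f'⟩ →
        f stdSimplex.barycenter = f' stdSimplex.barycenter := by
    intro k k' f f' e
    obtain rfl : k = k' := Nat.succ_injective (congrArg Sigma.fst e)
    rw [eq_of_heq (Sigma.mk.inj e).2]
  exact this _ _ _ _ e

/-- Barycentric subdivision of affine chains. -/
noncomputable def SL : ℕ → Ch (List V) →ₗ[F] Ch (List V)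
  | 0 => LinearMap.id
  | k + 1 => lin fun l => match l with
    | [] => 0
    | a :: l => cone (bary a l) (SL k (bdl (a :: l)))

/-- The homotopy between the identity and the subdivision. -/
noncomputable def TL : ℕ → Ch (List V) →ₗ[F] Ch (List V)
  | 0 => 0
  | k + 1 => lin fun l => match l with
    | [] => 0
    | a :: l => cone (bary a l) (sg (a :: l) + TL k (bdl (a :: l)))

lemma bdl_gr {W : Type} {k : ℕ} {l : List W} (h : l.length = k + 1) : bdl l ∈ (LC W).Gr k := by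
  simpa [LC] using (LC W).d_gr (k := k) (sg_mem h)

lemma SL_gr (k : ℕ) {x : Ch (List V)} (hx : x ∈ (LC V).Gr k) : SL k x ∈ (LC V).Gr k := by
  induction k generalizing x with
  | zero => exact hx
  | succ k ih =>
    refine lin_mem ?_ hx
    rintro (_ | ⟨a, l⟩) h
    · exact zero_mem _
    · exact cone_gr _ (ih (bdl_gr h))

lemma TL_gr (k : ℕ) {x : Ch (List V)} (hx : x ∈ (LC V).Gr k) : TL k x ∈ (LC V).Gr (k + 1) := by
  induction k generalizing x with
  | zero => exact zero_mem _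
  | succ k ih =>
    refine lin_mem ?_ hx
    rintro (_ | ⟨a, l⟩) h
    · exact zero_mem _
    · exact cone_gr _ (add_mem (sg_mem h) (ih (bdl_gr h)))

lemma IsAff.SL {g : C(V, V')} (h : IsAff g) (k : ℕ) (x : Ch (List V)) :
    mp (List.map g) (SL k x) = SL k (mp (List.map g) x) := by
  induction k generalizing x with
  | zero => rfl
  | succ k ih =>
    refine map_eq' (L := mp (List.map g) ∘ₗ Mod2.SL (k + 1))
      (L' := Mod2.SL (k + 1) ∘ₗ mp (List.map g)) ?_ x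
    rintro (_ | ⟨a, l⟩) <;> simp [Mod2.SL, map_cone, ih, map_bdl, h.bary]

lemma IsAff.TL {g : C(V, V')} (h : IsAff g) (k : ℕ) (x : Ch (List V)) :
    mp (List.map g) (TL k x) = TL k (mp (List.map g) x) := by
  induction k generalizing x with
  | zero => simp [Mod2.TL]
  | succ k ih =>
    refine map_eq' (L := mp (List.map g) ∘ₗ Mod2.TL (k + 1))
      (L' := Mod2.TL (k + 1) ∘ₗ mp (List.map g)) ?_ x
    rintro (_ | ⟨a, l⟩) <;> simp [Mod2.TL, map_cone, ih, map_bdl, h.bary]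

lemma TL_eq (k : ℕ) {x : Ch (List V)} (hx : x ∈ (LC V).Gr k) :
    lin bdl (TL k x) = TL (k - 1) (lin bdl x) + (x + SL k x) := by
  induction k generalizing x with
  | zero => simp [TL, SL, aa]
  | succ k ih =>
    refine map_eq (s := {l | l.length = k + 1}) (L := lin bdl ∘ₗ TL (k + 1))
      (L' := TL k ∘ₗ lin bdl + (LinearMap.id + SL (k + 1))) ?_ hx |>.trans (by
        rw [Nat.add_sub_cancel]; rfl) |> (LinearMap.comp_apply _ _ _).symm.trans
    rintro (_ | ⟨a, l⟩) h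
    · cases h
    · simp only [LinearMap.comp_apply, LinearMap.add_apply, LinearMap.id_apply, TL, SL, lin_sg,
        d_cone, map_add, ih (bdl_gr h), bdl_bdl, map_zero]
      linear_combination (norm := abel1) aa (cone (bary a l) (bdl (a :: l)))

/-- Barycentric subdivision. -/
noncomputable def sS : Ch (Sx Y) →ₗ[F] Ch (Sx Y) := op fun k => SL k (sg (ev k))

/-- The homotopy between the identity and the subdivision. -/
noncomputable def sT : Ch (Sx Y) →ₗ[F] Ch (Sx Y) := op fun k => TL k (sg (ev k))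

lemma sS_re {k : ℕ} {x : Ch (List V)} (hx : x ∈ (LC V).Gr k) : sS (mp re x) = mp re (SL k x) := by
  refine map_eq (L := sS ∘ₗ mp re) (L' := mp re ∘ₗ SL k) ?_ hx
  rintro l rfl
  simp [sS, op_re, (isAff_aff _).SL, map_ev, LC]

lemma sT_re {k : ℕ} {x : Ch (List V)} (hx : x ∈ (LC V).Gr k) : sT (mp re x) = mp re (TL k x) := by
  refine map_eq (L := sT ∘ₗ mp re) (L' := mp re ∘ₗ TL k) ?_ hx
  rintro l rfl
  simp [sT, op_re, (isAff_aff _).TL, map_ev, LC]

lemma sT_eq (x : Ch (Sx Y)) : sd (sT x) = sT (sd x) + (x + sS x) := by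
  refine map_eq' (L := sd ∘ₗ sT) (L' := sT ∘ₗ sd + (LinearMap.id + sS)) (fun σ => ?_) x
  have e : sT (mp re (bdl (ev σ.1))) = mp re (TL (σ.1 - 1) (bdl (ev σ.1))) :=
    sT_re (sup_mono (fun c hc => by
      have := hc.2; rw [ev_length] at this; exact Nat.eq_sub_of_add_eq this) (bdl_mem _))
  simp only [LinearMap.comp_apply, LinearMap.add_apply, LinearMap.id_apply]
  rw [sT, op_sg, ← cm_sd, sd_re, TL_eq _ (ev_gr _), sd, op_sg, ← cm_op, ← sT, e, sS, op_sg]
  simp [smap_re_ev]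

lemma dist_aff_le {k : ℕ} {v : Fin k → V} {c : V} {ρ : ℝ} (h : ∀ i, dist (v i) c ≤ ρ) (t : Sp k) :
    dist (aff v t) c ≤ ρ :=
  (convex_closedBall (c : A) ρ).sum_mem (fun i _ => t.2.1 i) t.2.2 fun i _ => h i

lemma dist_bary_le {K : ℕ} {δ : ℝ} {a : V} {l : List V} (hK : (a :: l).length ≤ K)
    (h : ∀ x ∈ a :: l, ∀ y ∈ a :: l, dist x y ≤ δ) {y : V} (hy : y ∈ a :: l) :
    dist y (bary a l) ≤ (1 - 1 / K) * δ := by
  obtain ⟨i, rfl⟩ := List.get_of_mem hy
  let n := (a :: l).length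
  have n0 : (0 : ℝ) < n := by exact_mod_cast i.pos
  have hδ : 0 ≤ δ := dist_nonneg.trans (h _ hy _ hy)
  have e : ((bary a l : V) : A) - ((a :: l).get i : V) =
      ∑ j : Fin n, (n : ℝ)⁻¹ • ((((a :: l).get j : V) : A) - ((a :: l).get i : V)) := by
    rw [bary, aff_val]
    simp only [smul_sub, Finset.sum_sub_distrib, Finset.sum_const, Finset.card_univ,
      Fintype.card_fin, ← Nat.cast_smul_eq_nsmul ℝ, smul_smul, mul_inv_cancel₀ n0.ne', one_smul]
    congr 2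
    ext j
    congr 1
    exact (stdSimplex.barycenter_apply j).trans (by simp [n])
  rw [dist_comm, Subtype.dist_eq, dist_eq_norm, e, ← Finset.sum_erase _ (a := i) (by simp)]
  refine (norm_sum_le_of_le _ (n := fun _ => (n : ℝ)⁻¹ * δ) fun j _ => ?_).trans ?_
  · rw [norm_smul, norm_inv, Real.norm_natCast, ← dist_eq_norm]
    gcongr
    exact h _ (List.get_mem _ _) _ (List.get_mem _ _)
  · rw [Finset.sum_const, Finset.card_erase_of_mem (Finset.mem_univ _), Finset.card_univ,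
      Fintype.card_fin, nsmul_eq_mul, Nat.cast_sub i.pos, ← mul_assoc, sub_mul,
      mul_inv_cancel₀ n0.ne', Nat.cast_one, ← div_eq_mul_inv]
    gcongr

lemma SL_small {K : ℕ} {δ : ℝ} (k : ℕ) (hk : k ≤ K) (l : List V) (hl : l.length = k)
    (h : ∀ x ∈ l, ∀ y ∈ l, dist x y ≤ δ) :
    SL k (sg l) ∈ sup {l' | (∀ x ∈ l', ∀ y ∈ l', dist x y ≤ (1 - 1 / K) * δ) ∧
      ∀ c ρ, (∀ x ∈ l, dist x c ≤ ρ) → ∀ x ∈ l', dist x c ≤ ρ} := by
  induction k generalizing l with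
  | zero =>
    rw [List.length_eq_zero_iff.1 hl]
    exact sg_mem ⟨by simp, by simp⟩
  | succ k ih =>
    obtain ⟨a, l, rfl⟩ := List.exists_cons_of_length_eq_add_one hl
    have h1 : SL k (bdl (a :: l)) ∈ sup {l' | (∀ x ∈ l', ∀ y ∈ l', dist x y ≤ (1 - 1 / K) * δ) ∧
        ∀ c ρ, (∀ x ∈ a :: l, dist x c ≤ ρ) → ∀ x ∈ l', dist x c ≤ ρ} :=
      map_mem (fun f hf => sup_mono (fun l' hl' => And.intro hl'.1 fun c ρ e =>
        hl'.2 c ρ fun x hx => e x (hf.1.subset hx))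
        (ih (by omega) f (by have := hf.2; omega) fun x hx y hy =>
          h x (hf.1.subset hx) y (hf.1.subset hy))) (bdl_mem _)
    simp only [SL, lin_sg]
    refine mp_mem (fun l' hl' => ?_) h1
    have h2 := hl'.2 _ _ fun y hy => dist_bary_le (hl ▸ hk) h hy
    have h3 : 0 ≤ (1 - 1 / K) * δ := dist_nonneg.trans (dist_bary_le (hl ▸ hk) h List.mem_cons_self)
    refine ⟨?_, fun c ρ e => List.forall_mem_cons.2 ⟨dist_aff_le (fun i => e _ (List.get_mem _ i)) _,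
      hl'.2 c ρ e⟩⟩
    simp only [List.forall_mem_cons, dist_self]
    exact ⟨⟨h3, fun y hy => by rw [dist_comm]; exact h2 y hy⟩, fun x hx => ⟨h2 x hx, hl'.1 x hx⟩⟩

lemma sS_mem {s : Set Y} {k : ℕ} {x : Ch (Sx Y)} (hx : x ∈ Cs s k) : sS x ∈ Cs s k :=
  op_mem (SL_gr k (ev_gr k)) hx

lemma sT_mem {s : Set Y} {k : ℕ} {x : Ch (Sx Y)} (hx : x ∈ Cs s k) : sT x ∈ Cs s (k + 1) :=
  op_mem (TL_gr k (ev_gr k)) hx

lemma sd_sS (x : Ch (Sx Y)) : sd (sS x) = sS (sd x) := by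
  have a := congrArg sd (sT_eq x)
  have b := sT_eq (sd x)
  simp only [map_add, sd_sd, map_zero, zero_add] at a b
  linear_combination (norm := abel1) - a - b - aa (sd x) - aa (sS (sd x))

lemma exists_iter (n : ℕ) : ∃ T : Ch (Sx Y) →ₗ[F] Ch (Sx Y),
    (∀ x, sd (T x) = T (sd x) + (x + (sS ^ n) x)) ∧
    ∀ s k, ∀ x ∈ Cs s k, T x ∈ Cs s (k + 1) ∧ (sS ^ n) x ∈ Cs s k := by
  induction n with
  | zero => exact ⟨0, fun x => by simp [aa], fun s k x hx => ⟨zero_mem _, hx⟩⟩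
  | succ n ih =>
    obtain ⟨T, h1, h2⟩ := ih
    refine ⟨sT + T ∘ₗ sS, fun x => ?_, fun s k x hx =>
      ⟨add_mem (sT_mem hx) (h2 s k _ (sS_mem hx)).1, (h2 s k _ (sS_mem hx)).2⟩⟩
    simp only [LinearMap.add_apply, LinearMap.comp_apply, map_add, h1, sT_eq, sd_sS, pow_succ,
      Module.End.mul_apply]
    linear_combination (norm := abel1) aa (sS x)

lemma small_sg {ι : Type} {U : ι → Set Y} (hU : ∀ i, IsOpen (U i)) {k : ℕ} (σ : C(Sp (k + 1), Y))
    (h : ∀ t, σ t ∈ ⋃ i, U i) :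
    ∃ n, (sS ^ n) (sg ⟨k + 1, σ⟩) ∈ sup {τ : Sx Y | τ.1 = k + 1 ∧ ∃ i, ∀ t, τ.2 t ∈ U i} := by
  obtain ⟨δ, hδ, h1⟩ := lebesgue_number_lemma_of_metric (isCompact_univ (X := Sp (k + 1)))
    (c := fun i => σ ⁻¹' U i) (fun i => (hU i).preimage σ.continuous)
    (fun t _ => by simpa using h t)
  set θ : ℝ := 1 - 1 / (k + 1 : ℕ) with hθ
  have t0 : 0 ≤ θ := sub_nonneg.2 ((div_le_one (by positivity)).2 (by simp))
  have t1 : θ < 1 := sub_lt_self _ (by positivity)
  have key : ∀ n, ∃ y ∈ sup {l : List (Sp (k + 1)) | l.length = k + 1 ∧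
      ∀ x ∈ l, ∀ y ∈ l, dist x y ≤ θ ^ n * 2}, (sS ^ n) (sg ⟨k + 1, σ⟩) = cm σ (mp re y) := by
    intro n
    induction n with
    | zero =>
      refine ⟨sg (ev _), sg_mem ⟨ev_length _, fun x _ y _ => ?_⟩, by
        simpa using congrArg sg (smap_re_ev ⟨k + 1, σ⟩).symm⟩
      have := dist_triangle_right x.1 y.1 0
      have a := Metric.mem_closedBall.1 (stdSimplex_subset_closedBall x.2)
      have b := Metric.mem_closedBall.1 (stdSimplex_subset_closedBall y.2)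
      rw [Subtype.dist_eq]; linarith
    | succ n ih =>
      obtain ⟨y, y1, y2⟩ := ih
      have y3 : y ∈ (LC _).Gr (k + 1) := sup_mono (fun l hl => hl.1) y1
      refine ⟨SL (k + 1) y, sup_inter (SL_gr _ y3) (map_mem (fun l hl => sup_mono
        (fun l' hl' => ?_) (SL_small _ le_rfl l hl.1 hl.2)) y1), ?_⟩
      · intro x hx y hy
        rw [pow_succ', mul_assoc]
        exact hl'.1 x hx y hy
      · rw [pow_succ', Module.End.mul_apply, y2, sS, ← cm_op, ← sS, sS_re y3]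
  obtain ⟨n, hn⟩ := exists_pow_lt_of_lt_one (half_pos hδ) t1
  obtain ⟨y, y1, y2⟩ := key n
  refine ⟨n, ?_⟩
  rw [y2, cm, mp_mp]
  refine mp_mem (fun l hl => ?_) y1
  refine ⟨hl.1, ?_⟩
  obtain ⟨a, ha⟩ := List.exists_mem_of_length_eq_add_one hl.1
  obtain ⟨i, hi⟩ := h1 a trivial
  refine ⟨i, fun t => hi ?_⟩
  exact lt_of_le_of_lt (dist_aff_le (fun j => hl.2 _ (List.get_mem _ j) a ha) t) (by linarith)

/-- Every chain is homologous to a chain of small simplices, by a natural homotopy. -/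
theorem small {ι : Type} [Nonempty ι] {U : ι → Set Y} (hU : ∀ i, IsOpen (U i)) {k : ℕ}
    {x : Ch (Sx Y)} (hx : x ∈ Cs (⋃ i, U i) k) : ∃ T : Ch (Sx Y) →ₗ[F] Ch (Sx Y),
      (∀ s k, ∀ x ∈ Cs s k, T x ∈ Cs s (k + 1)) ∧
      x + sd (T x) + T (sd x) ∈ sup {τ : Sx Y | τ.1 = k ∧ ∃ i, ∀ t, τ.2 t ∈ U i} := by
  have st : ∀ n, ∀ y ∈ sup {τ : Sx Y | τ.1 = k ∧ ∃ i, ∀ t, τ.2 t ∈ U i},
      (sS ^ n) y ∈ sup {τ : Sx Y | τ.1 = k ∧ ∃ i, ∀ t, τ.2 t ∈ U i} := by
    intro n y hy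
    obtain ⟨T, -, h2⟩ := exists_iter (Y := Y) n
    refine map_mem ?_ hy
    rintro τ ⟨h, i, hi⟩
    refine sup_mono ?_ (h2 (U i) k _ (sg_mem ⟨h, hi⟩)).2
    exact fun c hc => ⟨hc.1, i, hc.2⟩
  obtain ⟨n, hn⟩ : ∃ n, (sS ^ n) x ∈ sup {τ : Sx Y | τ.1 = k ∧ ∃ i, ∀ t, τ.2 t ∈ U i} := by
    refine sup_ind (P := fun x => ∃ n, (sS ^ n) x ∈ _) ⟨0, zero_mem _⟩ ?_ ?_ hx
    · rintro x y ⟨n, hn⟩ ⟨m, hm⟩
      refine ⟨m + n, ?_⟩
      rw [map_add]
      refine add_mem (by rw [pow_add]; exact st m _ hn) (by rw [add_comm, pow_add]; exact st n _ hm)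
    · rintro ⟨_ | k, σ⟩ ⟨rfl, h⟩
      · exact ⟨0, sg_mem ⟨rfl, Classical.arbitrary ι, fun t => isEmptyElim t⟩⟩
      · exact small_sg hU σ h
  obtain ⟨T, h1, h2⟩ := exists_iter (Y := Y) n
  refine ⟨T, fun s k x hx => (h2 s k x hx).1, ?_⟩
  convert hn using 1
  rw [h1]
  linear_combination (norm := abel1) aa x + aa (T (sd x))

theorem small2 {U W : Set Y} (hU : IsOpen U) (hW : IsOpen W) {k : ℕ} {x : Ch (Sx Y)}
    (hx : x ∈ Cs (U ∪ W) k) : ∃ T : Ch (Sx Y) →ₗ[F] Ch (Sx Y),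
      (∀ s k, ∀ x ∈ Cs s k, T x ∈ Cs s (k + 1)) ∧
      ∃ u ∈ Cs U k, ∃ w ∈ Cs W k, x + sd (T x) + T (sd x) = u + w := by
  obtain ⟨T, h1, h2⟩ := small (U := fun b : Bool => cond b U W) (by rintro (_ | _) <;> assumption)
    (by rwa [← union_eq_iUnion]) (x := x) (k := k)
  refine ⟨T, h1, sup_split (sup_mono ?_ h2)⟩
  rintro τ ⟨h, _ | _, h'⟩
  · exact Or.inr ⟨h, h'⟩
  · exact Or.inl ⟨h, h'⟩

/-- The prism over a list. -/
noncomputable def PL {W W' : Type} (i j : W → W') : List W → Ch (List W')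
  | [] => 0
  | a :: l => cone (i a) (sg ((a :: l).map j) + PL i j l)

lemma PL_gr {W W' : Type} (i j : W → W') (l : List W) : PL i j l ∈ (LC W').Gr (l.length + 1) := by
  induction l with
  | nil => exact zero_mem _
  | cons a l ih => exact cone_gr _ (add_mem (sg_mem (List.length_map _)) ih)

lemma PL_eq {W W' : Type} (i j : W → W') (l : List W) :
    lin bdl (PL i j l) = lin (PL i j) (bdl l) + (sg (l.map i) + sg (l.map j)) := by
  induction l with
  | nil => simp [PL, bdl, aa]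
  | cons a l ih =>
    have e : ∀ x, lin (PL i j) (cone a x) =
        cone (i a) (cone (j a) (mp (List.map j) x)) + cone (i a) (lin (PL i j) x) := fun x =>
      map_eq' (L := lin (PL i j) ∘ₗ cone a) (L' := cone (i a) ∘ₗ cone (j a) ∘ₗ mp (List.map j) +
        cone (i a) ∘ₗ lin (PL i j)) (fun l => by simp [PL]) x
    rw [PL, d_cone]
    simp only [bdl, map_add, ih, lin_sg, e, cone_sg, List.map_cons, map_bdl]
    linear_combination (norm := abel1) aa (sg (i a :: l.map j))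

lemma map_PL {W W' W'' : Type} (i j : W → W') (g : W' → W'') (l : List W) :
    mp (List.map g) (PL i j l) = PL (g ∘ i) (g ∘ j) l := by
  induction l with
  | nil => simp [PL]
  | cons a l ih => simp [PL, map_cone, ih]

lemma PL_map {W W' W'' : Type} (i j : W' → W'') (g : W → W') (l : List W) :
    PL i j (l.map g) = PL (i ∘ g) (j ∘ g) l := by
  induction l with
  | nil => simp [PL]
  | cons a l ih => simp [PL, ih]

/-- A slice of the cylinder. -/
def slice (V : Set A) (c : I) : C(V, V ×ˢ I) := ⟨fun x => ⟨(x, c), x.2, c.2⟩, by fun_prop⟩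

lemma isAff_slice (c : I) : IsAff (slice V c) :=
  isAff_of (LinearMap.inl ℝ A ℝ) (0, c) fun x => by simp [slice]

/-- The map of cylinders. -/
def cyl (g : C(V, V')) : C(V ×ˢ I, V' ×ˢ I) :=
  ⟨fun x => ⟨(g ⟨x.1.1, x.2.1⟩, x.1.2), (g _).2, x.2.2⟩, by fun_prop⟩

/-- A homotopy restricted to the cylinder over a convex set. -/
def cylH (H : C(I × Y, Y')) (σ : C(V, Y)) : C(V ×ˢ I, Y') :=
  ⟨fun x => H (⟨x.1.2, x.2.2⟩, σ ⟨x.1.1, x.2.1⟩), by fun_prop⟩

/-- The prism operator. -/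
noncomputable def prism (H : C(I × Y, Y')) : Ch (Sx Y) →ₗ[F] Ch (Sx Y') :=
  lin fun σ => cm (cylH H σ.2) (mp re (PL (slice _ 0) (slice _ 1) (ev σ.1)))

lemma prism_re (H : C(I × Y, Y')) (σ : C(V, Y)) (x : Ch (List V)) :
    prism H (cm σ (mp re x)) = cm (cylH H σ) (mp re (lin (PL (slice V 0) (slice V 1)) x)) := by
  refine map_eq' (L := prism H ∘ₗ cm σ ∘ₗ mp re)
    (L' := cm (cylH H σ) ∘ₗ mp re ∘ₗ lin (PL (slice V 0) (slice V 1))) (fun l => ?_) x
  have h : IsAff (cyl (aff l.get)) :=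
    isAff_of ((Fintype.linearCombination ℝ fun i => (l.get i).1).prodMap LinearMap.id) 0 fun t => by
      simp [cyl, aff_val, Fintype.linearCombination_apply]
  simp only [LinearMap.comp_apply, mp_sg, cm_sg, prism, lin_sg]
  conv_rhs => rw [← map_ev l, PL_map]
  have e : cm (cyl (aff l.get)) (mp re (PL (slice _ 0) (slice _ 1) (ev l.length))) =
      mp re (PL (slice V 0 ∘ aff l.get) (slice V 1 ∘ aff l.get) (ev l.length)) := by
    rw [h.cm_re, map_PL]; rfl
  rw [← e, cm_cm]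
  rfl

lemma prism_mem {H : C(I × Y, Y')} {s : Set Y} {t : Set Y'} (h : ∀ c, ∀ y ∈ s, H (c, y) ∈ t)
    {k : ℕ} {x : Ch (Sx Y)} (hx : x ∈ Cs s k) : prism H x ∈ Cs t (k + 1) := by
  refine lin_mem ?_ hx
  rintro ⟨k, σ⟩ ⟨rfl, e⟩
  refine cm_mem (s := univ) (g := cylH H σ) (fun y _ => h _ _ (e _)) (re_mem ?_)
  simpa only [ev_length] using PL_gr (slice _ 0) (slice _ 1) (ev k)

lemma prism_eq {H : C(I × Y, Y')} {f g : C(Y, Y')} (h0 : ∀ y, H (0, y) = f y)
    (h1 : ∀ y, H (1, y) = g y) (x : Ch (Sx Y)) :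
    sd (prism H x) = prism H (sd x) + (cm f x + cm g x) := by
  refine map_eq' (L := sd ∘ₗ prism H) (L' := prism H ∘ₗ sd + (cm f + cm g)) (fun σ => ?_) x
  have e : ∀ (c : I) (f : C(Y, Y')), (∀ y, H (c, y) = f y) →
      smap (cylH H σ.2) (re ((ev σ.1).map (slice _ c))) = smap f σ := fun c f h => by
    rw [← (isAff_slice c).smap_re, re_ev]
    exact congrArg (Sigma.mk σ.1) (ContinuousMap.ext fun t => h _)
  simp only [LinearMap.comp_apply, LinearMap.add_apply]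
  rw [show sd (sg σ) = _ from op_sg _ σ, prism_re, prism, lin_sg, ← cm_sd, sd_re, PL_eq]
  simp [e 0 f h0, e 1 g h1]

/-- The list of vertices of a singular simplex. -/
noncomputable def vert (σ : Sx Y) : List Y := (ev σ.1).map σ.2

lemma vert_sd (x : Ch (Sx Y)) : mp vert (sd x) = lin bdl (mp vert x) := by
  refine map_eq' (L := mp vert ∘ₗ sd) (L' := lin bdl ∘ₗ mp vert) (fun σ => ?_) x
  simp only [LinearMap.comp_apply, sd, op_sg, cm, mp_mp, mp_sg, lin_sg, vert, ← map_bdl]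
  congr 2
  ext l : 1
  conv_rhs => rw [← map_ev l, List.map_map]
  rfl

end Affine

end Pool.Agent.Shared.Mod2
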