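import Pool.Agent.Shared.BrunSieve
import Pool.Agent.Shared.PNTAP

/-!
Counting primes in progressions, Brun's bound for prime pairs `q, m q + 1`, and integers `N` with
many divisors of the form `l - 1`, `l` prime (after Prachar, Erdos-Pomerance-Schmutz).
-/

namespace Pool.Agent.Shared.SmoothShift

open Finset Function Filter Topology BrunSieve PNTAP

/-- the primes up to `X` -/
abbrev PR (X : ℕ) : Finset ℕ := (range (X + 1)).filter Nat.Prime

lemma count_two {r m : ℕ} (hr : r.Prime) (hm : ¬ r ∣ m) :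
    #{n ∈ range r | r ∣ n ∨ r ∣ m * n + 1} = 2 := by
  have := Fact.mk hr
  have hm' : (m : ZMod r) ≠ 0 := by rwa [Ne, ZMod.natCast_eq_zero_iff]
  have h0 : (-(m : ZMod r)⁻¹).val ≠ 0 := by simpa using hm'
  rw [← card_pair h0.symm]
  congr 1
  ext n
  simp only [mem_filter, mem_range, mem_insert, mem_singleton]
  constructor
  · rintro ⟨hn, h | h⟩
    · exact Or.inl (Nat.eq_zero_of_dvd_of_lt h hn)
    · right
      rw [← ZMod.natCast_eq_zero_iff] at h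
      push_cast at h
      have : (n : ZMod r) = -(m : ZMod r)⁻¹ := by
        field_simp
        linear_combination h
      rw [← this, ZMod.val_cast_of_lt hn]
  · rintro (rfl | rfl)
    · exact ⟨hr.pos, Or.inl (dvd_zero _)⟩
    · refine ⟨ZMod.val_lt _, Or.inr ?_⟩
      rw [← ZMod.natCast_eq_zero_iff]
      push_cast
      rw [ZMod.natCast_zmod_val]
      field_simp
      ring

/-- Brun's bound for prime pairs -/
lemma twin_le (m T z h Y : ℕ) (hm1 : 1 ≤ m) (hmT : m ≤ T) (hTz : T ≤ z) (hh : Even h) :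
    (#{q ∈ range Y | q.Prime ∧ (m * q + 1).Prime ∧ z < q} : ℝ) ≤
      Y * (Real.exp (4 * ∑ r ∈ PR T, (r : ℝ)⁻¹) / Real.log (z + 1) ^ 2) +
        (Y / 2 ^ h + z ^ h) * Real.exp (4 * ∑ r ∈ PR z, (r : ℝ)⁻¹) := by
  set P := (PR z).filter (fun r => T < r) with hPdef
  have hP : ∀ r ∈ P, r.Prime ∧ r ≤ z ∧ T < r := by
    intro r hr
    simp only [hPdef, mem_filter, mem_range] at hr
    exact ⟨hr.1.2, by omega, hr.2⟩
  have hb := brun P (fun r hr => (hP r hr).1) (fun r n => r ∣ n ∨ r ∣ m * n + 1)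
    (fun r _ n => by
      have e : m * (n + r) + 1 = m * n + 1 + r * m := by ring
      simp only [e, Nat.dvd_add_self_right, Nat.dvd_add_left (dvd_mul_right r m)])
    (fun r => 2 * (r : ℝ)⁻¹) (fun r hr => by
      rw [count_two (hP r hr).1 fun hd => by
        have := Nat.le_of_dvd hm1 hd
        have := (hP r hr).2.2
        omega]
      norm_num [div_eq_mul_inv]) z (by omega) (fun r hr => (hP r hr).2.1) h hh Y
  have h1 : #{q ∈ range Y | q.Prime ∧ (m * q + 1).Prime ∧ z < q} ≤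
      #{n ∈ range Y | ∀ r ∈ P, ¬ (r ∣ n ∨ r ∣ m * n + 1)} := by
    refine card_le_card fun q hq => ?_
    simp only [mem_filter] at hq ⊢
    obtain ⟨hq0, hq1, hq2, hq3⟩ := hq
    refine ⟨hq0, fun r hr => ?_⟩
    obtain ⟨hr1, hr2, -⟩ := hP r hr
    rintro (hd | hd)
    · have := (Nat.prime_dvd_prime_iff_eq hr1 hq1).1 hd
      omega
    · have := (Nat.prime_dvd_prime_iff_eq hr1 hq2).1 hd
      nlinarith
  have hinv : ∀ r : ℕ, r.Prime → (0 : ℝ) < (r : ℝ)⁻¹ ∧ (r : ℝ)⁻¹ ≤ 1 / 2 := fun r hr => by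
    have : (2 : ℝ) ≤ r := by exact_mod_cast hr.two_le
    exact ⟨by positivity, by rw [one_div]; exact inv_anti₀ (by norm_num) this⟩
  have hlog : 0 < Real.log (z + 1) := Real.log_pos (by
    have : (1 : ℝ) ≤ z := by exact_mod_cast (by omega : 1 ≤ z)
    linarith)
  have h2 : ∏ r ∈ P, (1 - (r : ℝ)⁻¹) ≤
      Real.exp (2 * ∑ r ∈ PR T, (r : ℝ)⁻¹) / Real.log (z + 1) := by
    have e1 := log_le_prod_inv z
    rw [← prod_filter_mul_prod_filter_not _ (fun r => T < r)] at e1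
    have e2 : (PR z).filter (fun r => ¬ T < r) = PR T := by
      ext r
      simp only [mem_filter, mem_range]
      constructor
      · rintro ⟨⟨-, h2⟩, h3⟩; exact ⟨by omega, h2⟩
      · rintro ⟨h2, h3⟩; exact ⟨⟨by omega, h3⟩, by omega⟩
    rw [e2] at e1
    have e3 : ∏ r ∈ PR T, (1 - (r : ℝ)⁻¹)⁻¹ ≤ Real.exp (2 * ∑ r ∈ PR T, (r : ℝ)⁻¹) := by
      rw [mul_sum]
      refine le_trans (prod_le_prod (fun r hr => ?_) fun r hr => ?_)
        (Real.prod_one_add_le_exp_sum _ fun r => by positivity)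
      · have := hinv r (mem_filter.1 hr).2
        exact inv_nonneg.2 (by linarith)
      · have := hinv r (mem_filter.1 hr).2
        rw [inv_eq_one_div (1 - _), div_le_iff₀ (by linarith)]
        nlinarith
    have e4 : 0 < ∏ r ∈ P, (1 - (r : ℝ)⁻¹) := prod_pos fun r hr => by
      have := hinv r (hP r hr).1
      linarith
    rw [prod_inv_distrib] at e1
    rw [le_div_iff₀ hlog]
    calc _ ≤ (∏ r ∈ P, (1 - (r : ℝ)⁻¹)) * ((∏ r ∈ P, (1 - (r : ℝ)⁻¹))⁻¹ *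
          ∏ r ∈ PR T, (1 - (r : ℝ)⁻¹)⁻¹) := mul_le_mul_of_nonneg_left e1 e4.le
      _ = ∏ r ∈ PR T, (1 - (r : ℝ)⁻¹)⁻¹ := by rw [mul_inv_cancel_left₀ e4.ne']
      _ ≤ _ := e3
  have h3 : ∏ r ∈ P, (1 - 2 * (r : ℝ)⁻¹) ≤
      Real.exp (4 * ∑ r ∈ PR T, (r : ℝ)⁻¹) / Real.log (z + 1) ^ 2 := by
    calc ∏ r ∈ P, (1 - 2 * (r : ℝ)⁻¹) ≤ ∏ r ∈ P, (1 - (r : ℝ)⁻¹) ^ 2 := by
          refine prod_le_prod (fun r hr => ?_) fun r _ => by nlinarith [sq_nonneg (r : ℝ)⁻¹]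
          have := hinv r (hP r hr).1
          linarith
      _ = (∏ r ∈ P, (1 - (r : ℝ)⁻¹)) ^ 2 := prod_pow _ _ _
      _ ≤ (Real.exp (2 * ∑ r ∈ PR T, (r : ℝ)⁻¹) / Real.log (z + 1)) ^ 2 := by
          refine pow_le_pow_left₀ (prod_nonneg fun r hr => ?_) h2 2
          have := hinv r (hP r hr).1
          linarith
      _ = _ := by
          rw [div_pow, ← Real.exp_nat_mul]
          congr 2
          push_cast
          ring
  have h4 : ∏ r ∈ P, (1 + 2 * (2 * (r : ℝ)⁻¹)) ≤ Real.exp (4 * ∑ r ∈ PR z, (r : ℝ)⁻¹) := by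
    refine (Real.prod_one_add_le_exp_sum _ fun r => by positivity).trans (Real.exp_le_exp.2 ?_)
    rw [mul_sum]
    refine le_trans (le_of_eq (sum_congr rfl fun r _ => by ring))
      (sum_le_sum_of_subset_of_nonneg (filter_subset _ _) fun r _ _ => by positivity)
  refine le_trans (by exact_mod_cast h1) (hb.trans (add_le_add ?_ ?_))
  · exact mul_le_mul_of_nonneg_left h3 (by positivity)
  · exact mul_le_mul_of_nonneg_left h4 (by positivity)

/-- the primes up to `X` in a residue class -/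
abbrev PA {M : ℕ} (a : ZMod M) (X : ℕ) : Finset ℕ := (PR X).filter (fun p : ℕ => (p : ZMod M) = a)

lemma thetaAP_eq {M : ℕ} (a : ZMod M) (X : ℕ) : thetaAP a X = ∑ p ∈ PA a X, Real.log p := by
  unfold thetaAP
  rw [Nat.floor_natCast]
  refine sum_congr ?_ fun _ _ => rfl
  ext p
  simp only [mem_filter, mem_Icc, mem_range]
  constructor
  · rintro ⟨⟨-, h1⟩, h2, h3⟩; exact ⟨⟨by omega, h2⟩, h3⟩
  · rintro ⟨⟨h1, h2⟩, h3⟩; exact ⟨⟨h2.one_le, by omega⟩, h2, h3⟩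

/-- lower bound for the number of primes in a progression -/
lemma PA_ge {M : ℕ} [NeZero M] {a : ZMod M} (ha : IsUnit a) :
    ∀ᶠ X : ℕ in atTop, 0.9 * (M.totient : ℝ)⁻¹ * X / Real.log X ≤ #(PA a X) := by
  have hφ : (0 : ℝ) < (M.totient : ℝ)⁻¹ := by
    have := Nat.totient_pos.2 (NeZero.pos M)
    positivity
  have h1 := ((theta_ap ha).comp tendsto_natCast_atTop_atTop).eventually
    (lt_mem_nhds (show 0.9 * (M.totient : ℝ)⁻¹ < (M.totient : ℝ)⁻¹ by linarith))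
  filter_upwards [h1, eventually_ge_atTop 2] with X h hX
  have hX' : (2 : ℝ) ≤ X := by exact_mod_cast hX
  have hlog : 0 < Real.log X := Real.log_pos (by linarith)
  simp only [comp] at h
  rw [lt_div_iff₀ (by linarith), thetaAP_eq] at h
  rw [div_le_iff₀ hlog]
  refine h.le.trans ?_
  rw [← nsmul_eq_mul]
  refine sum_le_card_nsmul _ _ _ fun p hp => ?_
  simp only [mem_filter, mem_range] at hp
  exact Real.log_le_log (by exact_mod_cast hp.1.2.pos) (by exact_mod_cast (by omega : p ≤ X))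

lemma PA_one (X : ℕ) : PA (1 : ZMod 1) X = PR X :=
  filter_true_of_mem fun _ _ => Subsingleton.elim _ _

/-- upper bound for the number of primes in a progression -/
lemma PA_le {M : ℕ} [NeZero M] {a : ZMod M} (ha : IsUnit a) :
    ∀ᶠ X : ℕ in atTop, (#(PA a X) : ℝ) ≤ 3 * (M.totient : ℝ)⁻¹ * #(PR X) := by
  set c : ℝ := (M.totient : ℝ)⁻¹ with hc
  have hφ : (0 : ℝ) < c := by
    have := Nat.totient_pos.2 (NeZero.pos M)
    positivity
  have h1 := ((theta_ap ha).comp tendsto_natCast_atTop_atTop).eventually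
    (gt_mem_nhds (show c < 1.1 * c by linarith))
  have h2 := PA_ge (M := 1) (a := 1) isUnit_one
  have h3 := ((isLittleO_log_rpow_atTop (r := 1 / 2) (by norm_num)).tendsto_div_nhds_zero.comp
    tendsto_natCast_atTop_atTop).eventually (gt_mem_nhds (show (0 : ℝ) < 0.2 * c by linarith))
  filter_upwards [h1, h2, h3, eventually_ge_atTop 2] with X h1 h2 h3 hX
  have hX' : (2 : ℝ) ≤ X := by exact_mod_cast hX
  have hlog : 0 < Real.log X := Real.log_pos (by linarith)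
  simp only [comp] at h1 h3
  rw [PA_one, Nat.totient_one, Nat.cast_one, inv_one, mul_one, div_le_iff₀ hlog] at h2
  rw [div_lt_iff₀ (by linarith), thetaAP_eq] at h1
  have hs : 1 ≤ √(X : ℝ) := Real.one_le_sqrt.2 (by linarith)
  rw [← Real.sqrt_eq_rpow, div_lt_iff₀ (by linarith)] at h3
  have h4 : (#((PA a X).filter fun p : ℕ => (p : ℝ) ≤ √(X : ℝ)) : ℝ) ≤ 2 * √(X : ℝ) := by
    have : ((PA a X).filter fun p : ℕ => (p : ℝ) ≤ √(X : ℝ)) ⊆ range (⌊√(X : ℝ)⌋₊ + 1) := by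
      intro p hp
      have := Nat.le_floor (mem_filter.1 hp).2
      simp only [mem_range]
      omega
    have h5 := card_le_card this
    rw [card_range] at h5
    have h6 : (#((PA a X).filter fun p : ℕ => (p : ℝ) ≤ √(X : ℝ)) : ℝ) ≤
        ((⌊√(X : ℝ)⌋₊ + 1 : ℕ) : ℝ) := by exact_mod_cast h5
    push_cast at h6
    linarith [Nat.floor_le (Real.sqrt_nonneg (X : ℝ))]
  have h5 : (#((PA a X).filter fun p : ℕ => ¬ (p : ℝ) ≤ √(X : ℝ)) : ℝ) * (Real.log X / 2) ≤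
      ∑ p ∈ PA a X, Real.log p := by
    refine le_trans ?_ (sum_le_sum_of_subset_of_nonneg (filter_subset
      (fun p : ℕ => ¬ (p : ℝ) ≤ √(X : ℝ)) _) fun p _ _ => Real.log_natCast_nonneg p)
    rw [← nsmul_eq_mul]
    refine card_nsmul_le_sum _ _ _ fun p hp => ?_
    rw [← Real.log_sqrt (by linarith)]
    exact Real.log_le_log (by linarith) (not_le.1 (mem_filter.1 hp).2).le
  have h6 : (#(PA a X) : ℝ) = #((PA a X).filter fun p : ℕ => (p : ℝ) ≤ √(X : ℝ)) +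
      #((PA a X).filter fun p : ℕ => ¬ (p : ℝ) ≤ √(X : ℝ)) := by
    exact_mod_cast (card_filter_add_card_filter_not _).symm
  have h7 : √(X : ℝ) * √(X : ℝ) = X := Real.mul_self_sqrt (by linarith)
  refine le_of_mul_le_mul_right ?_ hlog
  have h8 : 2 * √(X : ℝ) * Real.log X ≤ 0.4 * c * X := by nlinarith
  have h9 := mul_le_mul_of_nonneg_right h4 hlog.le
  have h10 := mul_le_mul_of_nonneg_left h2 hφ.le
  rw [h6]
  nlinarith

lemma dvd_factorial_pow {n y s : ℕ} (hn : n ≠ 0) (hns : n ≤ 2 ^ s)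
    (h : ∀ q, q.Prime → q ∣ n → q ≤ y) : n ∣ y.factorial ^ s := by
  rw [Nat.dvd_iff_prime_pow_dvd_dvd]
  intro p k hp hk
  rcases Nat.eq_zero_or_pos k with rfl | hk0
  · simp
  have h1 : p ∣ y.factorial := (hp.dvd_factorial).2 (h p hp ((dvd_pow_self p hk0.ne').trans hk))
  have h2 : k ≤ s := by
    have := (Nat.pow_le_pow_left hp.two_le k).trans ((Nat.le_of_dvd (by omega) hk).trans hns)
    exact (Nat.pow_le_pow_iff_right (by norm_num)).1 this
  exact (pow_dvd_pow_of_dvd h1 k).trans (pow_dvd_pow _ h2)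

lemma bad_le (s y T z h : ℕ) (hx : 2 ^ s = T * y) (hTz : T ≤ z) (hzy : z ≤ y) (hh : Even h) :
    (#((PR (2 ^ s)).filter fun l => ¬ l - 1 ∣ y.factorial ^ s) : ℝ) ≤
      2 * (T * y) * (1 + Real.log T) *
        (Real.exp (4 * ∑ r ∈ PR T, (r : ℝ)⁻¹) / Real.log (z + 1) ^ 2 +
          Real.exp (4 * ∑ r ∈ PR z, (r : ℝ)⁻¹) / 2 ^ h) +
        T * (z ^ h * Real.exp (4 * ∑ r ∈ PR z, (r : ℝ)⁻¹)) := by
  set F := Real.exp (4 * ∑ r ∈ PR T, (r : ℝ)⁻¹) / Real.log (z + 1) ^ 2 with hF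
  set E := Real.exp (4 * ∑ r ∈ PR z, (r : ℝ)⁻¹) with hE
  have hF0 : 0 ≤ F := by positivity
  have hE0 : 0 ≤ E := by positivity
  have hy : 0 < y := Nat.pos_of_ne_zero fun h0 => by simp [h0] at hx
  have hsub : ((PR (2 ^ s)).filter fun l => ¬ l - 1 ∣ y.factorial ^ s) ⊆
      (Icc 1 T).biUnion fun m => ({q ∈ range (T * y / m + 1) |
        q.Prime ∧ (m * q + 1).Prime ∧ z < q} : Finset ℕ).image fun q => m * q + 1 := by
    intro l hl
    simp only [mem_filter, mem_range] at hl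
    obtain ⟨⟨hl1, hl2⟩, hl3⟩ := hl
    have h2 := hl2.two_le
    have h3 : ¬ ∀ q, q.Prime → q ∣ l - 1 → q ≤ y := fun H =>
      hl3 (dvd_factorial_pow (by omega) (by omega) H)
    push Not at h3
    obtain ⟨q, hq, ⟨m, hm⟩, hqy⟩ := h3
    have hm0 : 0 < m := Nat.pos_of_ne_zero fun h0 => by rw [h0] at hm; omega
    have hl : m * q + 1 = l := by rw [mul_comm]; omega
    have hle : m * q ≤ T * y := by omega
    simp only [mem_biUnion, mem_Icc, mem_image, mem_filter, mem_range]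
    refine ⟨m, ⟨hm0, ?_⟩, q, ⟨?_, hq, hl ▸ hl2, by omega⟩, hl⟩
    · by_contra hc
      push Not at hc
      nlinarith
    · have := (Nat.le_div_iff_mul_le hm0).2 (by rw [mul_comm]; exact hle : q * m ≤ T * y)
      omega
  have h1 := (card_le_card hsub).trans (card_biUnion_le.trans
    (sum_le_sum fun m _ => card_image_le))
  have h2 : ∀ m ∈ Icc 1 T, (#{q ∈ range (T * y / m + 1) | q.Prime ∧ (m * q + 1).Prime ∧ z < q} : ℝ)
      ≤ 2 * (T * y) * (F + E / 2 ^ h) * (m : ℝ)⁻¹ + z ^ h * E := by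
    intro m hm
    simp only [mem_Icc] at hm
    have hm0 : (0 : ℝ) < m := by exact_mod_cast hm.1
    have h3 : ((T * y / m + 1 : ℕ) : ℝ) ≤ 2 * (T * y) * (m : ℝ)⁻¹ := by
      have h4 : ((T * y / m : ℕ) : ℝ) ≤ ((T * y : ℕ) : ℝ) / m := Nat.cast_div_le
      have h5 : (1 : ℝ) ≤ ((T * y : ℕ) : ℝ) / m := by
        rw [le_div_iff₀ hm0, one_mul]
        exact_mod_cast hm.2.trans (Nat.le_mul_of_pos_right T hy)
      push_cast at h4 h5 ⊢
      rw [div_eq_mul_inv] at h4 h5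
      linarith
    refine (twin_le m T z h _ hm.1 hm.2 hTz hh).trans ?_
    rw [← hF, ← hE]
    have h6 := mul_le_mul_of_nonneg_right h3 (show 0 ≤ F + E / 2 ^ h by positivity)
    calc _ = ((T * y / m + 1 : ℕ) : ℝ) * (F + E / 2 ^ h) + z ^ h * E := by ring
      _ ≤ _ := by linarith
  have h3 : ∑ m ∈ Icc 1 T, (m : ℝ)⁻¹ ≤ 1 + Real.log T := by
    have := harmonic_le_one_add_log T
    rw [harmonic_eq_sum_Icc] at this
    push_cast at this
    exact this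
  refine le_trans (by exact_mod_cast h1) ((sum_le_sum h2).trans ?_)
  rw [sum_add_distrib, ← mul_sum, sum_const, Nat.card_Icc, nsmul_eq_mul, Nat.add_sub_cancel]
  have := mul_le_mul_of_nonneg_left h3 (show 0 ≤ 2 * ((T : ℝ) * y) * (F + E / 2 ^ h) by positivity)
  linarith

lemma bad_le' (w y : ℕ) (hw : 10 ≤ w) (hx : 2 ^ 2 ^ (5 * w) = 2 ^ (20 * w) * y) :
    (#((PR (2 ^ 2 ^ (5 * w))).filter fun l => ¬ l - 1 ∣ y.factorial ^ 2 ^ (5 * w)) : ℝ) ≤
      Real.exp 18 * (168 * 20 ^ 16 + 43) * w ^ 17 * ((2 : ℝ) ^ w) ^ 14 * y := by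
  have hw2 : w < 2 ^ w := Nat.lt_two_pow_self
  have hb : 1024 ≤ 2 ^ w := (Nat.pow_le_pow_right (by norm_num) hw : 2 ^ 10 ≤ 2 ^ w)
  have e3 : 2 ^ (3 * w) = (2 ^ w) ^ 3 := by rw [← pow_mul, mul_comm]
  have e5 : 2 ^ (5 * w) = (2 ^ w) ^ 5 := by rw [← pow_mul, mul_comm]
  have hk : 2 ^ (3 * w) * (60 * w) + 54 * w + 20 * w ≤ 2 ^ (5 * w) := by
    rw [e3, e5]
    generalize 2 ^ w = b at hw2 hb
    have h1 : b ^ 3 * (60 * w) ≤ b ^ 3 * (60 * b) := by gcongr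
    have h2 : b ≤ b ^ 4 := Nat.le_self_pow (by norm_num) b
    have h3 : 1024 * b ^ 4 ≤ b ^ 5 := by rw [pow_succ b 4, mul_comm]; gcongr
    nlinarith
  have hy : y = 2 ^ (2 ^ (5 * w) - 20 * w) := by
    have : 2 ^ 2 ^ (5 * w) = 2 ^ (20 * w) * 2 ^ (2 ^ (5 * w) - 20 * w) := by
      rw [← pow_add]; congr 1; omega
    rw [this] at hx
    exact (Nat.eq_of_mul_eq_mul_left (by positivity) hx).symm
  have hu : 20 * w ≤ 2 ^ (3 * w) := by
    rw [e3]
    generalize 2 ^ w = b at hw2 hb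
    have : 1024 * b ≤ b ^ 3 := by nlinarith [Nat.mul_le_mul hb hb]
    omega
  have hzy : (2 ^ 2 ^ (3 * w)) ^ (60 * w) * (2 ^ w) ^ 54 ≤ y := by
    rw [hy, ← pow_mul, ← pow_mul, ← pow_add]
    exact Nat.pow_le_pow_right (by norm_num) (by omega)
  have hzy2 : 2 ^ 2 ^ (3 * w) ≤ y := by
    rw [hy]
    refine Nat.pow_le_pow_right (by norm_num) ?_
    have : 2 ^ (3 * w) ≤ 2 ^ (3 * w) * (60 * w) := Nat.le_mul_of_pos_right _ (by omega)
    omega
  have hb := bad_le (2 ^ (5 * w)) y (2 ^ (20 * w)) (2 ^ 2 ^ (3 * w)) (60 * w) hx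
    (Nat.pow_le_pow_right (by norm_num) hu) hzy2 ⟨30 * w, by ring⟩
  refine hb.trans ?_
  have hF := exp_sum_inv_primes_le (20 * w) (by omega)
  have hE := exp_sum_inv_primes_le (2 ^ (3 * w)) Nat.one_le_two_pow
  set F := Real.exp (4 * ∑ r ∈ PR (2 ^ (20 * w)), (r : ℝ)⁻¹)
  set E := Real.exp (4 * ∑ r ∈ PR (2 ^ 2 ^ (3 * w)), (r : ℝ)⁻¹)
  set a : ℝ := 2 ^ w with ha
  have ha1 : 1 ≤ a := one_le_pow₀ (by norm_num)
  have hw1 : (1 : ℝ) ≤ w := by exact_mod_cast (by omega : 1 ≤ w)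
  have hl2 : Real.log 2 ≤ 1 := by linarith [Real.log_two_lt_d9]
  have hl2' : 1 / 2 ≤ Real.log 2 := by linarith [Real.log_two_gt_d9]
  have c20 : ((2 ^ (20 * w) : ℕ) : ℝ) = a ^ 20 := by push_cast; rw [ha, ← pow_mul, mul_comm]
  have c3 : ((2 ^ (3 * w) : ℕ) : ℝ) = a ^ 3 := by push_cast; rw [ha, ← pow_mul, mul_comm]
  have c60 : (2 : ℝ) ^ (60 * w) = a ^ 60 := by rw [ha, ← pow_mul, mul_comm]
  have k1 : 1 + Real.log ((2 ^ (20 * w) : ℕ) : ℝ) ≤ 21 * w := by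
    push_cast
    rw [Real.log_pow]
    push_cast
    nlinarith
  have k2 : a ^ 3 / 2 ≤ Real.log (((2 ^ 2 ^ (3 * w) : ℕ) : ℝ) + 1) := by
    refine le_trans ?_ (Real.log_le_log (by positivity) (le_add_of_nonneg_right zero_le_one))
    rw [Nat.cast_pow, Real.log_pow, c3, Nat.cast_ofNat]
    nlinarith [pow_pos (show 0 < a by linarith) 3]
  have k3 : F / Real.log (((2 ^ 2 ^ (3 * w) : ℕ) : ℝ) + 1) ^ 2 ≤
      Real.exp 18 * (20 * w) ^ 16 / (a ^ 3 / 2) ^ 2 := by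
    push_cast at hF
    gcongr
  have k4 : E ≤ Real.exp 18 * a ^ 48 := by
    rw [c3, ← pow_mul] at hE
    exact hE
  have k5 : ((2 ^ 2 ^ (3 * w) : ℕ) : ℝ) ^ (60 * w) * a ^ 54 ≤ y := by
    rw [ha]
    exact_mod_cast hzy
  have hZ : 0 ≤ ((2 ^ 2 ^ (3 * w) : ℕ) : ℝ) ^ (60 * w) := by positivity
  have hG : 0 ≤ F / Real.log (((2 ^ 2 ^ (3 * w) : ℕ) : ℝ) + 1) ^ 2 := by positivity
  generalize ((2 ^ 2 ^ (3 * w) : ℕ) : ℝ) ^ (60 * w) = Z at k5 hZ ⊢
  generalize F / Real.log (((2 ^ 2 ^ (3 * w) : ℕ) : ℝ) + 1) ^ 2 = G at k3 hG ⊢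
  generalize 1 + Real.log ((2 ^ (20 * w) : ℕ) : ℝ) = H at k1 ⊢
  rw [c20, c60]
  have hy0 : (0 : ℝ) ≤ y := by positivity
  have hE0 : 0 ≤ E := by positivity
  have hw17 : (w : ℝ) ≤ w ^ 17 := le_self_pow₀ hw1 (by norm_num)
  have t1 : G + E / a ^ 60 ≤ Real.exp 18 * (4 * 20 ^ 16 * w ^ 16 + w ^ 16) / a ^ 6 := by
    have e1 : Real.exp 18 * (20 * w) ^ 16 / (a ^ 3 / 2) ^ 2 =
        Real.exp 18 * (4 * 20 ^ 16 * w ^ 16) / a ^ 6 := by field_simp; ring
    have e2 : E / a ^ 60 ≤ Real.exp 18 * w ^ 16 / a ^ 6 := by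
      rw [div_le_div_iff₀ (by positivity) (by positivity)]
      have e3 : (1 : ℝ) ≤ w ^ 16 := one_le_pow₀ hw1
      calc E * a ^ 6 ≤ Real.exp 18 * a ^ 48 * a ^ 6 := by gcongr
        _ = Real.exp 18 * 1 * a ^ 54 := by ring
        _ ≤ Real.exp 18 * w ^ 16 * a ^ 60 := by gcongr; norm_num
    rw [mul_add, add_div, ← e1]
    linarith
  have hG0 : 0 ≤ Real.exp 18 * (4 * 20 ^ 16 * (w : ℝ) ^ 16 + w ^ 16) / a ^ 6 := by positivity
  have t2 : 2 * (a ^ 20 * y) * H * (G + E / a ^ 60) ≤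
      2 * (a ^ 20 * y) * (21 * w) * (Real.exp 18 * (4 * 20 ^ 16 * w ^ 16 + w ^ 16) / a ^ 6) := by
    gcongr
  have t3 : a ^ 20 * (Z * E) ≤ Real.exp 18 * w ^ 17 * a ^ 14 * y := by
    calc a ^ 20 * (Z * E) ≤ a ^ 20 * (Z * (Real.exp 18 * a ^ 48)) := by gcongr
      _ = Real.exp 18 * 1 * a ^ 14 * (Z * a ^ 54) := by ring
      _ ≤ _ := by gcongr; exact hw1.trans hw17
  have t4 : 2 * (a ^ 20 * y) * (21 * w) * (Real.exp 18 * (4 * 20 ^ 16 * w ^ 16 + w ^ 16) / a ^ 6) =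
      Real.exp 18 * (168 * 20 ^ 16 + 42) * w ^ 17 * a ^ 14 * y := by
    field_simp
    ring
  nlinarith

/-- integers with many divisors `l - 1`, `l` prime, `l = 1` modulo a given number -/
theorem exists_many_shifted (N0 : ℕ) (hN0 : 0 < N0) (K : ℕ) :
    ∃ N : ℕ, 0 < N ∧ ∃ L : Finset ℕ, (∀ l ∈ L, l.Prime ∧ N0 ∣ l - 1 ∧ l - 1 ∣ N) ∧
      K * (N + 1) ^ K ≤ 2 ^ #L := by
  have : NeZero N0 := ⟨hN0.ne'⟩
  set c : ℝ := (N0.totient : ℝ)⁻¹ with hc
  have hc0 : 0 < c := by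
    have := Nat.totient_pos.2 hN0
    positivity
  set C : ℝ := Real.exp 18 * (168 * 20 ^ 16 + 43) with hC
  have hC0 : 0 < C := by positivity
  have t1 : Tendsto (fun w : ℕ => 2 ^ 2 ^ (5 * w)) atTop atTop :=
    (tendsto_pow_atTop_atTop_of_one_lt (r := 2) one_lt_two).comp
      ((tendsto_pow_atTop_atTop_of_one_lt (r := 2) one_lt_two).comp
        (tendsto_id.const_mul_atTop' (by norm_num)))
  have h1 := t1.eventually (PA_ge (M := N0) (a := 1) isUnit_one)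
  have h2 := (tendsto_pow_const_div_const_pow_of_one_lt 17 (r := 2) one_lt_two).eventually
    (gt_mem_nhds (show (0 : ℝ) < 0.4 * c / C by positivity))
  have h3 := (tendsto_pow_atTop_atTop_of_one_lt (r := (2 : ℝ)) one_lt_two).eventually_ge_atTop
    (6 * K / c)
  obtain ⟨w, h1, h2, h3, hw⟩ := (h1.and (h2.and (h3.and (eventually_ge_atTop 10)))).exists
  have hw2 : w < 2 ^ w := Nat.lt_two_pow_self
  have hs : 20 * w ≤ 2 ^ (5 * w) := by
    have hb : 1024 ≤ 2 ^ w := (Nat.pow_le_pow_right (by norm_num) hw : 2 ^ 10 ≤ 2 ^ w)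
    have : 2 ^ (w + w) ≤ 2 ^ (5 * w) := Nat.pow_le_pow_right (by norm_num) (by omega)
    rw [pow_add] at this
    nlinarith
  set s := 2 ^ (5 * w) with hsdef
  set y := 2 ^ (s - 20 * w) with hy
  have hx : 2 ^ s = 2 ^ (20 * w) * y := by rw [hy, ← pow_add]; congr 1; omega
  have hb := bad_le' w y hw hx
  rw [← hC, ← hsdef] at hb
  set L := (PA (1 : ZMod N0) (2 ^ s)).filter fun l => l - 1 ∣ y.factorial ^ s with hL
  refine ⟨y.factorial ^ s, by positivity, L, fun l hl => ?_, ?_⟩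
  · simp only [hL, mem_filter] at hl
    refine ⟨hl.1.1.2, ?_, hl.2⟩
    have h4 : (l : ZMod N0) = ((1 : ℕ) : ZMod N0) := by rw [hl.1.2, Nat.cast_one]
    exact (Nat.modEq_iff_dvd' hl.1.1.2.one_le).1 ((ZMod.natCast_eq_natCast_iff _ _ _).1 h4).symm
  set a : ℝ := 2 ^ w with ha
  have ha1 : 1 ≤ a := one_le_pow₀ (by norm_num)
  have hy1 : (1 : ℝ) ≤ y := by exact_mod_cast Nat.one_le_two_pow
  have cs : (s : ℝ) = a ^ 5 := by rw [hsdef]; push_cast; rw [ha, ← pow_mul, mul_comm]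
  have cx : ((2 ^ s : ℕ) : ℝ) = a ^ 20 * y := by rw [hx]; push_cast; rw [ha, ← pow_mul, mul_comm w]
  have h5 : (#(PA (1 : ZMod N0) (2 ^ s)) : ℝ) ≤
      #L + #((PR (2 ^ s)).filter fun l => ¬ l - 1 ∣ y.factorial ^ s) := by
    rw [← card_filter_add_card_filter_not (s := PA (1 : ZMod N0) (2 ^ s))
      (fun l => l - 1 ∣ y.factorial ^ s)]
    push_cast
    gcongr
    exact filter_subset _ _
  have h6 : 0.9 * c * a ^ 15 * y ≤ #(PA (1 : ZMod N0) (2 ^ s)) := by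
    refine le_trans ?_ h1
    have hlog : Real.log ((2 ^ s : ℕ) : ℝ) ≤ a ^ 5 := by
      rw [Nat.cast_pow, Real.log_pow, cs, Nat.cast_ofNat]
      nlinarith [Real.log_two_lt_d9, pow_pos (show 0 < a by linarith) 5]
    have hlog0 : 0 < Real.log ((2 ^ s : ℕ) : ℝ) := Real.log_pos (by
      exact_mod_cast Nat.one_lt_two_pow (by omega))
    rw [le_div_iff₀ hlog0]
    calc _ ≤ 0.9 * c * a ^ 15 * y * a ^ 5 := by gcongr
      _ = _ := by rw [cx]; ring
  have h7 : C * w ^ 17 ≤ 0.4 * c * a := by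
    rw [div_lt_div_iff₀ (by positivity) hC0] at h2
    linarith
  have h8 : 6 * K ≤ c * a := by
    rw [div_le_iff₀ hc0] at h3
    linarith
  have h9 : (3 * K * (a ^ 10 * y) : ℝ) ≤ #L := by
    have e1 : C * w ^ 17 * a ^ 14 * y ≤ 0.4 * c * a * a ^ 14 * y := by gcongr
    have e2 : a ^ 11 ≤ a ^ 15 := pow_le_pow_right₀ ha1 (by norm_num)
    have e3 : 6 * K * (a ^ 10 * y) ≤ c * a * (a ^ 10 * y) := by gcongr
    have e4 : c * a ^ 11 * y ≤ c * a ^ 15 * y := by gcongr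
    nlinarith
  have h10 : 3 * K * (s ^ 2 * y) ≤ #L := by
    have : ((3 * K * (s ^ 2 * y) : ℕ) : ℝ) ≤ #L := by
      push_cast
      rw [cs, ← pow_mul]
      exact h9
    exact_mod_cast this
  have h11 : y.factorial ^ s ≤ 2 ^ (s ^ 2 * y) := by
    calc y.factorial ^ s ≤ (y ^ y) ^ s := Nat.pow_le_pow_left (Nat.factorial_le_pow y) s
      _ ≤ ((2 ^ s) ^ y) ^ s := by
          gcongr
          exact Nat.pow_le_pow_right (by norm_num) (Nat.sub_le _ _)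
      _ = 2 ^ (s ^ 2 * y) := by rw [← pow_mul, ← pow_mul]; congr 1; ring
  have h12 : 1 ≤ s ^ 2 * y := Nat.succ_le_of_lt (by positivity)
  have h13 : y.factorial ^ s + 1 ≤ 2 ^ (s ^ 2 * y + 1) := by
    have := Nat.one_le_two_pow (n := s ^ 2 * y)
    rw [pow_succ]
    omega
  calc K * (y.factorial ^ s + 1) ^ K ≤ 2 ^ K * (2 ^ (s ^ 2 * y + 1)) ^ K := by
        gcongr
        exact Nat.lt_two_pow_self.le
    _ = 2 ^ (K + (s ^ 2 * y + 1) * K) := by rw [← pow_mul, ← pow_add]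
    _ ≤ 2 ^ #L := Nat.pow_le_pow_right (by norm_num) (by nlinarith)

end Pool.Agent.Shared.SmoothShift
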