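import Mathlib

/-!
A small structured language of multi-stack programs with step counting, and its compilation to
Mathlib's `Turing.TM2` machines with a factor two in the running time.

An atomic action sees the finite control state and the top symbol of every stack, and returns the
new control state, for every stack a number of symbols to drop, and a list of symbols to push.
-/

set_option autoImplicit false
set_option linter.unusedSectionVars false

namespace Pool.Agent.Shared.StackProg

open Function

/-- The outcome of an atomic action. -/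
structure Out (σ K Γ : Type) where
  /-- new control state -/
  st : σ
  /-- number of symbols dropped from each stack -/
  pop : K → ℕ
  /-- symbols pushed on each stack after dropping -/
  push : K → List Γ

variable {σ K Γ : Type}

/-- The top symbols of all stacks. -/
def tops (S : K → List Γ) : K → Option Γ := fun k => (S k).head?

/-- The effect of an action on the stacks. -/
def Out.app (o : Out σ K Γ) (S : K → List Γ) : K → List Γ :=
  fun k => o.push k ++ (S k).drop (o.pop k)

/-- The action that does nothing. -/
def Out.skip (s : σ) : Out σ K Γ := ⟨s, fun _ => 0, fun _ => []⟩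

@[simp] theorem Out.skip_app (s : σ) (S : K → List Γ) : (Out.skip s : Out σ K Γ).app S = S := by
  funext k; simp [Out.app, Out.skip]

@[simp] theorem Out.skip_st (s : σ) : (Out.skip s : Out σ K Γ).st = s := rfl

/-- Structured programs. -/
inductive Prog (σ K Γ : Type) : Type
  | act (f : σ → (K → Option Γ) → Out σ K Γ) : Prog σ K Γ
  | seq (p q : Prog σ K Γ) : Prog σ K Γ
  | ite (c : σ → (K → Option Γ) → Bool) (p q : Prog σ K Γ) : Prog σ K Γ
  | loop (c : σ → (K → Option Γ) → Bool) (p : Prog σ K Γ) : Prog σ K Γ

/-- Program counters. -/
def PC : Prog σ K Γ → Type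
  | .act _ => Unit
  | .seq p q => PC p ⊕ PC q
  | .ite _ p q => Option (PC p ⊕ PC q)
  | .loop _ p => Option (PC p)

theorem finite_PC : ∀ p : Prog σ K Γ, Finite (PC p)
  | .act _ => inferInstanceAs (Finite Unit)
  | .seq p q => by
      have := finite_PC p; have := finite_PC q
      exact inferInstanceAs (Finite (PC p ⊕ PC q))
  | .ite _ p q => by
      have := finite_PC p; have := finite_PC q
      exact inferInstanceAs (Finite (Option (PC p ⊕ PC q)))
  | .loop _ p => by
      have := finite_PC p
      exact inferInstanceAs (Finite (Option (PC p)))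

/-- The initial program counter. -/
def start : (p : Prog σ K Γ) → PC p
  | .act _ => ()
  | .seq p _ => Sum.inl (start p)
  | .ite _ _ _ => none
  | .loop _ _ => none

/-- One step of the control: next program counter (or `none` when finished) and action. -/
def next : (p : Prog σ K Γ) → PC p → σ → (K → Option Γ) → Option (PC p) × Out σ K Γ
  | .act f, _, s, tp => (none, f s tp)
  | .seq p q, Sum.inl x, s, tp =>
      (some (((next p x s tp).1.map Sum.inl).getD (Sum.inr (start q))), (next p x s tp).2)
  | .seq _ q, Sum.inr x, s, tp => ((next q x s tp).1.map Sum.inr, (next q x s tp).2)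
  | .ite c p q, none, s, tp =>
      (some (some (if c s tp then Sum.inl (start p) else Sum.inr (start q))), Out.skip s)
  | .ite _ p _, some (Sum.inl x), s, tp =>
      ((next p x s tp).1.map (fun y => some (Sum.inl y)), (next p x s tp).2)
  | .ite _ _ q, some (Sum.inr x), s, tp =>
      ((next q x s tp).1.map (fun y => some (Sum.inr y)), (next q x s tp).2)
  | .loop c p, none, s, tp => (if c s tp then some (some (start p)) else none, Out.skip s)
  | .loop _ p, some x, s, tp => (some ((next p x s tp).1), (next p x s tp).2)

/-- One step on configurations; finished configurations stay fixed. -/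
def step (p : Prog σ K Γ) : Option (PC p) × σ × (K → List Γ) → Option (PC p) × σ × (K → List Γ)
  | (none, a) => (none, a)
  | (some x, s, S) => ((next p x s (tops S)).1, (next p x s (tops S)).2.st,
      (next p x s (tops S)).2.app S)

/-- `p` started with control state `s` and stacks `S` finishes within `t` steps with control
state `s'` and stacks `S'`. -/
def Runs (p : Prog σ K Γ) (s : σ) (S : K → List Γ) (s' : σ) (S' : K → List Γ) (t : ℕ) : Prop :=
  (step p)^[t] (some (start p), s, S) = (none, s', S')

theorem iterate_step_none (p : Prog σ K Γ) (a : σ × (K → List Γ)) (t : ℕ) :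
    (step p)^[t] (none, a) = (none, a) :=
  iterate_fixed rfl t

theorem Runs.mono {p : Prog σ K Γ} {s s' : σ} {S S' : K → List Γ} {t t' : ℕ}
    (h : Runs p s S s' S' t) (ht : t ≤ t') : Runs p s S s' S' t' := by
  obtain ⟨u, rfl⟩ := Nat.exists_eq_add_of_le ht
  unfold Runs at *
  rw [add_comm, iterate_add_apply, h, iterate_step_none]

theorem Runs.congr {p : Prog σ K Γ} {s s' s'' : σ} {S S' S'' : K → List Γ} {t t' : ℕ}
    (h : Runs p s S s' S' t) (hs : s' = s'') (hS : S' = S'') (ht : t ≤ t') :
    Runs p s S s'' S'' t' := by
  subst hs hS; exact h.mono ht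

theorem lift {p P : Prog σ K Γ} (emb : PC p → PC P) (cont : Option (PC P))
    (H : ∀ x s tp, next P (emb x) s tp =
      (((next p x s tp).1.map (fun y => some (emb y))).getD cont, (next p x s tp).2)) :
    ∀ (t : ℕ) (x : PC p) (a b : σ × (K → List Γ)), (step p)^[t] (some x, a) = (none, b) →
      ∃ t' ≤ t, (step P)^[t'] (some (emb x), a) = (cont, b) := by
  intro t
  induction t with
  | zero => intro x a b h; simp at h
  | succ t ih =>
    rintro x ⟨s, S⟩ b h
    rw [iterate_succ_apply] at h
    simp only [step] at h
    rcases hn : (next p x s (tops S)).1 with _ | y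
    · rw [hn, iterate_step_none] at h
      refine ⟨1, by omega, ?_⟩
      simp only [iterate_one, step, H, hn, Option.map_none, Option.getD_none]
      rw [← (Prod.mk.inj h).2]
    · rw [hn] at h
      obtain ⟨t', ht', h'⟩ := ih y _ b h
      refine ⟨t' + 1, by omega, ?_⟩
      rw [iterate_succ_apply]
      simp only [step, H, hn, Option.map_some, Option.getD_some]
      exact h'

theorem Runs.act (f : σ → (K → Option Γ) → Out σ K Γ) (s : σ) (S : K → List Γ) :
    Runs (.act f) s S (f s (tops S)).st ((f s (tops S)).app S) 1 := rfl

theorem Runs.act' {f : σ → (K → Option Γ) → Out σ K Γ} {s s' : σ} {S S' : K → List Γ}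
    (hs : (f s (tops S)).st = s') (hS : (f s (tops S)).app S = S') :
    Runs (.act f) s S s' S' 1 := by
  subst hs hS; exact Runs.act f s S

theorem Runs.seq {p q : Prog σ K Γ} {s s' s'' : σ} {S S' S'' : K → List Γ} {t u : ℕ}
    (h1 : Runs p s S s' S' t) (h2 : Runs q s' S' s'' S'' u) :
    Runs (.seq p q) s S s'' S'' (t + u) := by
  obtain ⟨t', ht', h1'⟩ := lift (p := p) (P := .seq p q) Sum.inl (some (Sum.inr (start q)))
    (by
      intro x s tp
      simp only [next]
      cases (next p x s tp).1 <;> rfl) t _ _ _ h1
  obtain ⟨u', hu', h2'⟩ := lift (p := q) (P := .seq p q) Sum.inr none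
    (by
      intro x s tp
      simp only [next]
      cases (next q x s tp).1 <;> rfl) u _ _ _ h2
  have : Runs (.seq p q) s S s'' S'' (u' + t') := by
    unfold Runs
    rw [iterate_add_apply]
    exact (congrArg _ h1').trans h2'
  exact this.mono (by omega)

theorem Runs.ite_true {c : σ → (K → Option Γ) → Bool} {p q : Prog σ K Γ} {s s' : σ}
    {S S' : K → List Γ} {t : ℕ} (hc : c s (tops S) = true) (h : Runs p s S s' S' t) :
    Runs (.ite c p q) s S s' S' (t + 1) := by
  obtain ⟨t', ht', h'⟩ := lift (p := p) (P := .ite c p q) (fun y => some (Sum.inl y)) none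
    (by
      intro x s tp
      simp only [next]
      cases (next p x s tp).1 <;> rfl) t _ _ _ h
  have : Runs (.ite c p q) s S s' S' (t' + 1) := by
    unfold Runs
    rw [iterate_succ_apply]
    simp only [start, step, next, hc, if_true, Out.skip_st, Out.skip_app]
    exact h'
  exact this.mono (by omega)

theorem Runs.ite_false {c : σ → (K → Option Γ) → Bool} {p q : Prog σ K Γ} {s s' : σ}
    {S S' : K → List Γ} {t : ℕ} (hc : c s (tops S) = false) (h : Runs q s S s' S' t) :
    Runs (.ite c p q) s S s' S' (t + 1) := by
  obtain ⟨t', ht', h'⟩ := lift (p := q) (P := .ite c p q) (fun y => some (Sum.inr y)) none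
    (by
      intro x s tp
      simp only [next]
      cases (next q x s tp).1 <;> rfl) t _ _ _ h
  have : Runs (.ite c p q) s S s' S' (t' + 1) := by
    unfold Runs
    rw [iterate_succ_apply]
    simp only [start, step, next, hc, Out.skip_st, Out.skip_app]
    exact h'
  exact this.mono (by omega)

theorem Runs.loop_false {c : σ → (K → Option Γ) → Bool} {p : Prog σ K Γ} {s : σ}
    {S : K → List Γ} (hc : c s (tops S) = false) : Runs (.loop c p) s S s S 1 := by
  unfold Runs
  simp only [iterate_one, start, step, next, hc, Out.skip_st, Out.skip_app]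
  rfl

theorem Runs.loop_true {c : σ → (K → Option Γ) → Bool} {p : Prog σ K Γ} {s s' s'' : σ}
    {S S' S'' : K → List Γ} {t u : ℕ} (hc : c s (tops S) = true) (h1 : Runs p s S s' S' t)
    (h2 : Runs (.loop c p) s' S' s'' S'' u) : Runs (.loop c p) s S s'' S'' (t + u + 1) := by
  obtain ⟨t', ht', h'⟩ := lift (p := p) (P := .loop c p) some (some none)
    (by
      intro x s tp
      simp only [next]
      cases (next p x s tp).1 <;> rfl) t _ _ _ h1
  have : Runs (.loop c p) s S s'' S'' (u + t' + 1) := by
    unfold Runs
    rw [iterate_succ_apply]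
    simp only [start, step, next, hc, if_true, Out.skip_st, Out.skip_app]
    rw [iterate_add_apply]
    exact (congrArg _ h').trans h2
  exact this.mono (by omega)

/-! ### Generic loops -/

section Loops

variable [DecidableEq K]

/-- The test that stack `a` is not empty. -/
def ne (a : K) : σ → (K → Option Γ) → Bool := fun _ tp => (tp a).isSome

theorem ne_true {a : K} {s : σ} {S : K → List Γ} {x : Γ} {l : List Γ} (h : S a = x :: l) :
    ne a s (tops S) = true := by simp [ne, tops, h]

theorem ne_false {a : K} {s : σ} {S : K → List Γ} (h : S a = []) :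
    ne a s (tops S) = false := by simp [ne, tops, h]

/-- The program that does nothing. -/
def skip : Prog σ K Γ := .act fun s _ => Out.skip s

theorem runs_skip (s : σ) (S : K → List Γ) : Runs skip s S s S 1 :=
  Runs.act' rfl (Out.skip_app _ _)

/-- Empty stack `a`; for each symbol `x` removed, drop `n s x k` symbols from stack `k` and push
`g s x k` on it. -/
def eachG (a : K) (n : σ → Γ → K → ℕ) (g : σ → Γ → K → List Γ) : Prog σ K Γ :=
  .loop (ne a) (.act fun s tp => match tp a with
    | some x => ⟨s, fun k => if k = a then 1 else n s x k, fun k => if k = a then [] else g s x k⟩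
    | none => Out.skip s)

theorem runs_eachG (a : K) (n : σ → Γ → K → ℕ) (g : σ → Γ → K → List Γ) (s : σ) :
    ∀ (l : List Γ) (S : K → List Γ), S a = l →
      Runs (eachG a n g) s S s
        (fun k => if k = a then [] else
          l.foldl (fun acc x => g s x k ++ acc.drop (n s x k)) (S k)) (2 * l.length + 1) := by
  intro l
  induction l with
  | nil =>
    intro S h
    refine (Runs.loop_false (ne_false h)).congr rfl ?_ (by simp)
    funext k
    by_cases hk : k = a
    · simp [hk, h]
    · simp [hk]
  | cons x l ih =>
    intro S h
    have h1 : Runs (.act fun s tp => match tp a with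
        | some x => (⟨s, fun k => if k = a then 1 else n s x k,
            fun k => if k = a then [] else g s x k⟩ : Out σ K Γ)
        | none => Out.skip s) s S s
        (fun k => if k = a then l else g s x k ++ (S k).drop (n s x k)) 1 := by
      refine Runs.act' (by simp [tops, h]) ?_
      funext k
      by_cases hk : k = a
      · simp [tops, h, hk, Out.app]
      · simp [tops, h, hk, Out.app]
    refine (Runs.loop_true (ne_true h) h1 (ih _ (by simp))).congr rfl ?_ (by simp; omega)
    funext k
    by_cases hk : k = a
    · simp [hk]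
    · simp [hk]

theorem foldl_push {β : Type} (f : β → List Γ) :
    ∀ (l : List β) (init : List Γ),
      l.foldl (fun acc x => f x ++ acc) init = l.reverse.flatMap f ++ init := by
  intro l
  induction l with
  | nil => simp
  | cons x l ih => intro init; simp [ih]

theorem foldl_drop {β : Type} (f : β → ℕ) :
    ∀ (l : List β) (init : List Γ),
      l.foldl (fun acc x => acc.drop (f x)) init = init.drop (l.map f).sum := by
  intro l
  induction l with
  | nil => simp
  | cons x l ih => intro init; simp [ih]

/-- Empty stack `a`; for each symbol `x` removed, push `g s x k` on stack `k`. -/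
def each (a : K) (g : σ → Γ → K → List Γ) : Prog σ K Γ := eachG a (fun _ _ _ => 0) g

theorem runs_each (a : K) (g : σ → Γ → K → List Γ) (s : σ) (S : K → List Γ) :
    Runs (each a g) s S s
      (fun k => if k = a then [] else (S a).reverse.flatMap (fun x => g s x k) ++ S k)
      (2 * (S a).length + 1) := by
  refine (runs_eachG a _ g s _ S rfl).congr rfl ?_ le_rfl
  funext k
  simp only [List.drop_zero, foldl_push]

/-- Empty stack `a`; for each symbol `x` removed, drop `n s x k` symbols from stack `k`. -/
def eachDrop (a : K) (n : σ → Γ → K → ℕ) : Prog σ K Γ := eachG a n (fun _ _ _ => [])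

theorem runs_eachDrop (a : K) (n : σ → Γ → K → ℕ) (s : σ) (S : K → List Γ) :
    Runs (eachDrop a n) s S s
      (fun k => if k = a then [] else (S k).drop ((S a).map (fun x => n s x k)).sum)
      (2 * (S a).length + 1) := by
  refine (runs_eachG a n _ s _ S rfl).congr rfl ?_ le_rfl
  funext k
  simp only [List.nil_append, foldl_drop]

/-- Move the whole of stack `a` onto stack `b`, reversing it. -/
def moveAll (a b : K) : Prog σ K Γ := each a (fun _ x k => if k = b then [x] else [])

theorem runs_moveAll {a b : K} (hab : a ≠ b) (s : σ) (S : K → List Γ) :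
    Runs (moveAll a b) s S s (update (update S a []) b ((S a).reverse ++ S b))
      (2 * (S a).length + 1) := by
  refine (runs_each a _ s S).congr rfl ?_ le_rfl
  funext k
  by_cases hk : k = a
  · subst hk; simp [hab]
  · by_cases hk' : k = b
    · subst hk'; simp [hk]
    · simp [hk, hk']

/-- Move one symbol, if there is one, from stack `a` to stack `b`. -/
def move1 (a b : K) : Prog σ K Γ :=
  .act fun s tp => ⟨s, fun k => if k = a then 1 else 0,
    fun k => if k = b then (tp a).toList else []⟩

theorem runs_move1 {a b : K} (hab : a ≠ b) (s : σ) (S : K → List Γ) :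
    Runs (move1 a b) s S s (update (update S a (S a).tail) b ((S a).head?.toList ++ S b)) 1 := by
  refine Runs.act' rfl ?_
  funext k
  by_cases hk : k = a
  · subst hk; simp [hab, Out.app]
  · by_cases hk' : k = b
    · subst hk'; simp [hk, Out.app, tops]
    · simp [hk, hk', Out.app]

/-- Move symbols from `a` to `b` as long as the top of `a` satisfies `c`. -/
def moveWhile (a b : K) (c : Γ → Bool) : Prog σ K Γ :=
  .loop (fun _ tp => (tp a).any c) (move1 a b)

theorem runs_moveWhile {a b : K} (hab : a ≠ b) (c : Γ → Bool) (s : σ) (rest : List Γ)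
    (hrest : rest.head?.any c = false) :
    ∀ (l : List Γ) (S : K → List Γ), (∀ x ∈ l, c x = true) → S a = l ++ rest →
      Runs (moveWhile a b c) s S s (update (update S a rest) b (l.reverse ++ S b))
        (2 * l.length + 1) := by
  intro l
  induction l with
  | nil =>
    intro S _ h
    refine (Runs.loop_false (by simpa [tops, h] using hrest)).congr rfl ?_ (by simp)
    funext k
    by_cases hk : k = a
    · subst hk; simp [hab, h]
    · by_cases hk' : k = b
      · subst hk'; simp
      · simp [hk, hk']
  | cons x l ih =>
    intro S hl h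
    have h1 := runs_move1 hab s S
    have h2 := ih (update (update S a (S a).tail) b ((S a).head?.toList ++ S b))
      (fun y hy => hl y (List.mem_cons_of_mem _ hy)) (by simp [hab, h])
    refine (Runs.loop_true (by simp [tops, h, hl]) h1 h2).congr rfl ?_ (by simp; omega)
    funext k
    by_cases hk : k = a
    · subst hk; simp [hab]
    · by_cases hk' : k = b
      · subst hk'; simp [h]
      · simp [hk, hk']

end Loops

/-! ### Compilation to `Turing.TM2` -/

section Compile

open Turing Turing.TM2

variable [DecidableEq K] {Λ : Type}

/-- Read the top of every stack in the list into the variable. -/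
def peekAll : List K → Stmt (fun _ : K => Γ) Λ (σ × (K → Option Γ)) →
    Stmt (fun _ : K => Γ) Λ (σ × (K → Option Γ))
  | [], q => q
  | k :: ks, q => .peek k (fun v x => (v.1, update v.2 k x)) (peekAll ks q)

/-- Drop `n` symbols from stack `k`. -/
def popN {τ : Type} (k : K) : ℕ → Stmt (fun _ : K => Γ) Λ τ → Stmt (fun _ : K => Γ) Λ τ
  | 0, q => q
  | n + 1, q => .pop k (fun v _ => v) (popN k n q)

/-- Push the list, last symbol ending on top. -/
def pushR {τ : Type} (k : K) : List Γ → Stmt (fun _ : K => Γ) Λ τ → Stmt (fun _ : K => Γ) Λ τ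
  | [], q => q
  | a :: l, q => .push k (fun _ => a) (pushR k l q)

/-- Perform the action on every stack of the list. -/
def doAll {τ : Type} (o : Out σ K Γ) : List K → Stmt (fun _ : K => Γ) Λ τ →
    Stmt (fun _ : K => Γ) Λ τ
  | [], q => q
  | k :: ks, q => popN k (o.pop k) (pushR k (o.push k).reverse (doAll o ks q))

theorem stepAux_peekAll (S : K → List Γ) (q : Stmt (fun _ : K => Γ) Λ (σ × (K → Option Γ))) :
    ∀ (ks : List K) (v : σ × (K → Option Γ)),
      stepAux (peekAll ks q) v S = stepAux q (v.1, fun k => if k ∈ ks then tops S k else v.2 k) S := by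
  intro ks
  induction ks with
  | nil => intro v; simp [peekAll]
  | cons k ks ih =>
    intro v
    simp only [peekAll, stepAux, ih]
    congr 2
    funext j
    by_cases h1 : j ∈ ks
    · simp [h1]
    · by_cases h2 : j = k
      · subst h2; simp [h1, tops]
      · simp [h1, h2]

theorem stepAux_popN {τ : Type} (k : K) (q : Stmt (fun _ : K => Γ) Λ τ) (v : τ) :
    ∀ (n : ℕ) (S : K → List Γ),
      stepAux (popN k n q) v S = stepAux q v (update S k ((S k).drop n)) := by
  intro n
  induction n with
  | zero => intro S; simp [popN]
  | succ n ih =>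
    intro S
    simp only [popN, stepAux, ih]
    congr 1
    simp [List.drop_tail]

theorem stepAux_pushR {τ : Type} (k : K) (q : Stmt (fun _ : K => Γ) Λ τ) (v : τ) :
    ∀ (l : List Γ) (S : K → List Γ),
      stepAux (pushR k l q) v S = stepAux q v (update S k (l.reverse ++ S k)) := by
  intro l
  induction l with
  | nil => intro S; simp [pushR]
  | cons a l ih =>
    intro S
    simp only [pushR, stepAux, ih]
    congr 1
    simp

theorem stepAux_doAll {τ : Type} (o : Out σ K Γ) (q : Stmt (fun _ : K => Γ) Λ τ) (v : τ) :
    ∀ (ks : List K), ks.Nodup → ∀ S : K → List Γ,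
      stepAux (doAll o ks q) v S = stepAux q v (fun k => if k ∈ ks then o.app S k else S k) := by
  intro ks
  induction ks with
  | nil => intro _ S; simp [doAll]
  | cons k ks ih =>
    intro hnd S
    rw [List.nodup_cons] at hnd
    simp only [doAll, stepAux_popN, stepAux_pushR, ih hnd.2]
    congr 1
    funext j
    by_cases h2 : j = k
    · subst h2
      simp [hnd.1, Out.app]
    · by_cases h1 : j ∈ ks
      · simp [h1, h2, Out.app]
      · simp [h1, h2]

variable [Fintype K]

/-- The compiled machine. -/
noncomputable def compile (p : Prog σ K Γ) : PC p × Option (σ × (K → Option Γ)) →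
    Stmt (fun _ : K => Γ) (PC p × Option (σ × (K → Option Γ))) (σ × (K → Option Γ))
  | (x, none) => peekAll (Finset.univ : Finset K).toList (.goto fun v => (x, some v))
  | (x, some v) => doAll (next p x v.1 v.2).2 (Finset.univ : Finset K).toList
      (.load (fun _ => ((next p x v.1 v.2).2.st, v.2))
        (match (next p x v.1 v.2).1 with
          | none => .halt
          | some y => .goto fun _ => (y, none)))

theorem compile_two_steps (p : Prog σ K Γ) (x : PC p) (s : σ) (tp : K → Option Γ)
    (S : K → List Γ) :
    (fun d : Option (Cfg (fun _ : K => Γ) _ _) => d.bind (TM2.step (compile p)))^[2]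
        (some ⟨some (x, none), (s, tp), S⟩) =
      some ⟨(step p (some x, s, S)).1.map (fun y => (y, none)),
        ((step p (some x, s, S)).2.1, tops S), (step p (some x, s, S)).2.2⟩ := by
  simp only [iterate_succ_apply, iterate_zero, id, Option.bind_some, TM2.step, compile,
    stepAux_peekAll, stepAux, Finset.mem_toList, Finset.mem_univ, if_true,
    stepAux_doAll _ _ _ _ (Finset.nodup_toList _), step]
  cases (next p x s (tops S)).1 <;> rfl

theorem compile_runs (p : Prog σ K Γ) :
    ∀ (t : ℕ) (x : PC p) (s : σ) (tp : K → Option Γ) (S : K → List Γ) (s' : σ) (S' : K → List Γ),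
      (step p)^[t] (some x, s, S) = (none, s', S') →
      ∃ t' ≤ 2 * t, ∃ tp', (fun d : Option (Cfg (fun _ : K => Γ) _ _) =>
          d.bind (TM2.step (compile p)))^[t'] (some ⟨some (x, none), (s, tp), S⟩) =
        some ⟨none, (s', tp'), S'⟩ := by
  intro t
  induction t with
  | zero => intro x s tp S s' S' h; simp at h
  | succ t ih =>
    intro x s tp S s' S' h
    rw [iterate_succ_apply] at h
    have h2 := compile_two_steps p x s tp S
    rcases hst : step p (some x, s, S) with ⟨_ | y, s1, S1⟩
    · rw [hst, iterate_step_none] at h
      rw [hst] at h2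
      refine ⟨2, by omega, tops S, ?_⟩
      rw [h2]
      obtain ⟨rfl, rfl⟩ := Prod.mk.inj (Prod.mk.inj h).2
      rfl
    · rw [hst] at h h2
      obtain ⟨t', ht', tp', h'⟩ := ih y s1 (tops S) S1 s' S' h
      refine ⟨t' + 2, by omega, tp', ?_⟩
      rw [iterate_add_apply, h2]
      exact h'

/-- A program that decides `L` in time `cost` yields a `TM2` machine deciding `L` with exact
halting time at most `2 * cost`. -/
theorem exists_tm2 [Fintype σ] [Fintype Γ] {α : Type} (p : Prog σ K Γ) (s₀ : σ) (k0 : K)
    (enc : α → Γ) (acc : σ → Bool) (L : List α → Prop) (cost : List α → ℕ)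
    (h : ∀ w, ∃ s' S', Runs p s₀ (update (fun _ => []) k0 (w.map enc)) s' S' (cost w) ∧
      (acc s' = true ↔ L w)) :
    ∃ (Λ : Type) (_ : Inhabited Λ) (_ : Fintype Λ) (τ : Type) (_ : Inhabited τ) (_ : Fintype τ)
      (M : Λ → Stmt (fun _ : K => Γ) Λ τ) (acc' : τ → Bool) (T : List α → ℕ),
      (∀ w : List α,
        (∃ c : Cfg (fun _ : K => Γ) Λ τ,
          (fun d : Option (Cfg (fun _ : K => Γ) Λ τ) => d.bind (TM2.step M))^[T w]
            (some (TM2.init k0 (w.map enc) : Cfg (fun _ : K => Γ) Λ τ)) = some c ∧
          c.l = none ∧ (acc' c.var = true ↔ L w)) ∧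
        (∀ t < T w, ∀ c : Cfg (fun _ : K => Γ) Λ τ,
          (fun d : Option (Cfg (fun _ : K => Γ) Λ τ) => d.bind (TM2.step M))^[t]
            (some (TM2.init k0 (w.map enc) : Cfg (fun _ : K => Γ) Λ τ)) = some c →
          c.l ≠ none)) ∧
      ∀ w, T w ≤ 2 * cost w := by
  classical
  have := finite_PC p
  choose s' S' hrun hacc using h
  choose T hT tp' hT' using fun w => compile_runs p (cost w) (start p) s₀ (fun _ => none) _
    (s' w) (S' w) (hrun w)
  refine ⟨PC p × Option (σ × (K → Option Γ)), ⟨(start p, none)⟩, Fintype.ofFinite _,
    σ × (K → Option Γ), ⟨(s₀, fun _ => none)⟩, Fintype.ofFinite _, compile p,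
    fun v => acc v.1, T, fun w => ⟨⟨_, hT' w, rfl, hacc w⟩, ?_⟩, hT⟩
  intro t ht c hc hl
  obtain ⟨u, hu⟩ := Nat.exists_eq_add_of_lt ht
  have h1 := hT' w
  rw [hu, show t + u + 1 = u + 1 + t by omega, iterate_add_apply] at h1
  have hc' : (fun d : Option (Cfg (fun _ : K => Γ) _ _) => d.bind (TM2.step (compile p)))^[t]
      (some ⟨some (start p, none), (s₀, fun _ => none),
        update (fun _ => []) k0 (w.map enc)⟩) = some c := hc
  rw [hc', iterate_succ_apply] at h1
  obtain ⟨l, v, S⟩ := c
  simp only at hl
  subst hl
  simp only [Option.bind_some, TM2.step] at h1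
  rw [iterate_fixed (by rfl)] at h1
  cases h1

end Compile

end Pool.Agent.Shared.StackProg
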