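import Pool.Agent.Shared.SubspaceRoth

/-!
The auxiliary polynomial and the zero lemma for the Subspace Theorem.
-/

set_option autoImplicit false

namespace Pool.Agent.Shared.Subspace

open MvPolynomial Finset

noncomputable section

variable {T κ : Type} [Fintype T] [Fintype κ] [DecidableEq T] [DecidableEq κ]

/-- blockwise linear change of variables -/
def lin (M : T → Matrix κ κ ℚ) : MvPolynomial (T × κ) ℚ →ₐ[ℚ] MvPolynomial (T × κ) ℚ :=
  aeval (fun x => ∑ I, C (M x.1 x.2 I) * X (x.1, I))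

omit [Fintype T] [DecidableEq T] [DecidableEq κ] in
lemma lin_X (M : T → Matrix κ κ ℚ) (x : T × κ) :
    lin M (X x) = ∑ I, C (M x.1 x.2 I) * X (x.1, I) := by simp [lin]

omit [Fintype T] [DecidableEq T] [DecidableEq κ] in
lemma lin_lin (A B : T → Matrix κ κ ℚ) (F : MvPolynomial (T × κ) ℚ) :
    lin A (lin B F) = lin (fun h => B h * A h) F := by
  have : (lin A).comp (lin B) = lin (fun h => B h * A h) := by
    refine MvPolynomial.algHom_ext (fun x => ?_)
    rw [AlgHom.comp_apply, lin_X, lin_X, map_sum]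
    simp only [map_mul, lin_X, algHom_C, algebraMap_eq, Matrix.mul_apply, map_sum,
      Finset.mul_sum, Finset.sum_mul]
    rw [Finset.sum_comm]
    refine Finset.sum_congr rfl (fun _ _ => Finset.sum_congr rfl (fun _ _ => by ring))
  exact congrArg (fun f : MvPolynomial (T × κ) ℚ →ₐ[ℚ] MvPolynomial (T × κ) ℚ => f F) this

omit [Fintype T] [DecidableEq T] in
lemma lin_one (F : MvPolynomial (T × κ) ℚ) : lin (fun _ => 1) F = F := by
  have : lin (fun _ : T => (1 : Matrix κ κ ℚ)) = AlgHom.id ℚ _ := by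
    refine MvPolynomial.algHom_ext (fun x => ?_)
    rw [lin_X, Finset.sum_eq_single x.2]
    · simp
    · intro b _ hb
      simp [hb.symm]
    · simp
  rw [this]; rfl

omit [Fintype T] [DecidableEq T] [DecidableEq κ] in
lemma lin_mem_cf {S : Subring ℚ} {M : T → Matrix κ κ ℚ} (hM : ∀ h i j, M h i j ∈ S)
    {F : MvPolynomial (T × κ) ℚ} (hF : F ∈ cf _ S) : lin M F ∈ cf _ S :=
  aeval_mem_cf hF (fun _ => Subring.sum_mem _ (fun _ _ =>
    Subring.mul_mem _ (C_mem_cf (hM _ _ _)) (X_mem_cf _)))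

omit [Fintype T] [DecidableEq T] [DecidableEq κ] in
lemma nrm_lin_le {v : AbsoluteValue ℚ ℝ} {w w' : T × κ → ℝ} (hw : ∀ s, 0 ≤ w' s)
    (M : T → Matrix κ κ ℚ) (F : MvPolynomial (T × κ) ℚ)
    (h : ∀ x : T × κ, ∑ I, v (M x.1 x.2 I) * w' (x.1, I) ≤ w x) :
    nrm v w' (lin M F) ≤ nrm v w F := by
  refine nrm_aeval_le hw F _ (fun x => le_trans ?_ (h x))
  refine (nrm_sum_le hw _ _).trans (Finset.sum_le_sum (fun I _ => ?_))
  refine (nrm_mul_le hw _ _).trans (le_of_eq ?_)
  rw [nrm_C, nrm_X]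

/-- multihomogeneous of multidegree `d` -/
def MH (d : T → ℕ) (F : MvPolynomial (T × κ) ℚ) : Prop :=
  ∀ K, coeff K F ≠ 0 → ∀ h, ∑ i, K (h, i) = d h

omit [DecidableEq κ] in
lemma weight_single (K : T × κ →₀ ℕ) (h : T) :
    (Finsupp.weight (fun x : T × κ => (Pi.single x.1 1 : T → ℕ)) K) h = ∑ i, K (h, i) := by
  rw [Finsupp.weight_apply, Finsupp.sum_fintype _ _ (fun _ => by simp), Finset.sum_apply,
    Fintype.sum_prod_type, Finset.sum_eq_single h]
  · simp
  · intro b _ hb
    simp [hb.symm]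
  · simp

omit [DecidableEq κ] in
lemma mh_iff (d : T → ℕ) (F : MvPolynomial (T × κ) ℚ) :
    MH d F ↔ IsWeightedHomogeneous (fun x : T × κ => (Pi.single x.1 1 : T → ℕ)) F d := by
  constructor
  · intro h K hK
    funext g
    rw [weight_single]
    exact h K hK g
  · intro h K hK g
    rw [← weight_single, h hK]

omit [DecidableEq κ] in
lemma MH.lin {d : T → ℕ} {F : MvPolynomial (T × κ) ℚ} (hF : MH d F) (M : T → Matrix κ κ ℚ) :
    MH d (lin M F) := by
  rw [mh_iff] at hF ⊢
  rw [F.as_sum, map_sum]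
  refine IsWeightedHomogeneous.sum _ _ _ (fun K hK => ?_)
  rw [Subspace.lin, aeval_monomial, algebraMap_eq]
  refine IsWeightedHomogeneous.C_mul ?_ _
  rw [← hF (mem_support_iff.1 hK), Finsupp.weight_apply]
  refine IsWeightedHomogeneous.prod _ _ _ (fun x _ => ?_)
  refine IsWeightedHomogeneous.pow ?_ _
  refine IsWeightedHomogeneous.sum _ _ _ (fun I _ => ?_)
  exact (isWeightedHomogeneous_X ℚ (fun x : T × κ => (Pi.single x.1 1 : T → ℕ)) (x.1, I)).C_mul _

omit [DecidableEq T] [DecidableEq κ] in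
lemma MH.mw_const {d : T → ℕ} {F : MvPolynomial (T × κ) ℚ} (hF : MH d F) {K : T × κ →₀ ℕ}
    (hK : coeff K F ≠ 0) (c : ℝ) : mw (fun _ => c) K = c ^ (∑ h, d h) := by
  rw [mw_eq_prod, Finset.prod_pow_eq_pow_sum, Fintype.sum_prod_type]
  congr 1
  exact Finset.sum_congr rfl (fun h _ => hF K hK h)

omit [DecidableEq T] [DecidableEq κ] in
lemma MH.nrm_const {v : AbsoluteValue ℚ ℝ} {d : T → ℕ} {F : MvPolynomial (T × κ) ℚ} (hF : MH d F)
    (c : ℝ) : nrm v (fun _ => c) F = c ^ (∑ h, d h) * nrm v (fun _ => 1) F := by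
  unfold nrm
  rw [Finset.mul_sum]
  refine Finset.sum_congr rfl (fun K hK => ?_)
  rw [hF.mw_const (mem_support_iff.1 hK), mw_one]; ring

section Counting

omit [Fintype T] [DecidableEq T] in
lemma sum_antidiag (n : ℕ) (i : κ) :
    (Fintype.card κ) * ∑ a ∈ Finset.piAntidiag (Finset.univ : Finset κ) n, a i =
      n * (Finset.piAntidiag (Finset.univ : Finset κ) n).card := by
  have h1 : ∀ i', ∑ a ∈ Finset.piAntidiag (Finset.univ : Finset κ) n, a i' =
      ∑ a ∈ Finset.piAntidiag (Finset.univ : Finset κ) n, a i := by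
    intro i'
    refine Finset.sum_nbij' (fun a => a ∘ Equiv.swap i i') (fun a => a ∘ Equiv.swap i i')
      ?_ ?_ ?_ ?_ ?_
    · intro a ha
      simp only [Finset.mem_piAntidiag, Finset.mem_univ, implies_true, and_true] at ha ⊢
      rw [← ha]; exact Equiv.sum_comp (Equiv.swap i i') a
    · intro a ha
      simp only [Finset.mem_piAntidiag, Finset.mem_univ, implies_true, and_true] at ha ⊢
      rw [← ha]; exact Equiv.sum_comp (Equiv.swap i i') a
    · intro a _; funext x; simp
    · intro a _; funext x; simp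
    · intro a _; simp
  calc (Fintype.card κ) * ∑ a ∈ Finset.piAntidiag (Finset.univ : Finset κ) n, a i
      = ∑ i' : κ, ∑ a ∈ Finset.piAntidiag (Finset.univ : Finset κ) n, a i' := by
        rw [Finset.sum_congr rfl (fun i' _ => h1 i')]; simp
    _ = ∑ a ∈ Finset.piAntidiag (Finset.univ : Finset κ) n, ∑ i' : κ, a i' := Finset.sum_comm
    _ = ∑ _a ∈ Finset.piAntidiag (Finset.univ : Finset κ) n, n := by
        refine Finset.sum_congr rfl (fun a ha => ?_)
        exact (Finset.mem_piAntidiag.1 ha).1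
    _ = _ := by simp [mul_comm]

omit [Fintype κ] [DecidableEq κ] in
lemma sum_sq_le {α : Type} (A : T → Finset α) (Z : T → α → ℝ)
    (h0 : ∀ h, ∑ a ∈ A h, Z h a = 0) (h1 : ∀ h, ∀ a ∈ A h, |Z h a| ≤ 1) :
    ∑ J ∈ Fintype.piFinset A, (∑ h, Z h (J h)) ^ 2 ≤
      Fintype.card T * (Fintype.piFinset A).card := by
  have cross : ∀ h h', h ≠ h' → ∑ J ∈ Fintype.piFinset A, Z h (J h) * Z h' (J h') = 0 := by
    intro h h' hne
    have := Finset.prod_univ_sum A
      (fun g a => (if g = h then Z h a else 1) * (if g = h' then Z h' a else 1))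
    rw [Finset.prod_eq_zero (Finset.mem_univ h) (by simp [hne, h0])] at this
    rw [this]
    refine Finset.sum_congr rfl (fun J _ => ?_)
    rw [Finset.prod_mul_distrib, Finset.prod_ite_eq', Finset.prod_ite_eq']
    simp
  calc ∑ J ∈ Fintype.piFinset A, (∑ h, Z h (J h)) ^ 2
      = ∑ J ∈ Fintype.piFinset A, ∑ h, ∑ h', Z h (J h) * Z h' (J h') := by
        refine Finset.sum_congr rfl (fun J _ => ?_)
        rw [sq, Finset.sum_mul_sum]
    _ = ∑ h, ∑ h', ∑ J ∈ Fintype.piFinset A, Z h (J h) * Z h' (J h') := by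
        rw [Finset.sum_comm]
        exact Finset.sum_congr rfl (fun h _ => Finset.sum_comm)
    _ = ∑ h, ∑ J ∈ Fintype.piFinset A, Z h (J h) * Z h (J h) := by
        refine Finset.sum_congr rfl (fun h _ => ?_)
        rw [Finset.sum_eq_single h]
        · intro b _ hb; exact cross h b hb.symm
        · simp
    _ ≤ ∑ _h : T, ∑ _J ∈ Fintype.piFinset A, (1 : ℝ) := by
        refine Finset.sum_le_sum (fun h _ => Finset.sum_le_sum (fun J hJ => ?_))
        have := h1 h (J h) (Fintype.mem_piFinset.1 hJ h)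
        have h2 := abs_le.1 this
        nlinarith
    _ = _ := by simp

/-- multi-indices of multidegree `d` -/
def JJ (κ : Type) [Fintype κ] [DecidableEq κ] (d : T → ℕ) : Finset (T → κ → ℕ) :=
  Fintype.piFinset (fun h => Finset.piAntidiag (Finset.univ : Finset κ) (d h))

lemma mem_JJ {d : T → ℕ} {J : T → κ → ℕ} : J ∈ JJ κ d ↔ ∀ h, ∑ i, J h i = d h := by
  simp [JJ, Fintype.mem_piFinset, Finset.mem_piAntidiag]

lemma card_JJ_le (d : T → ℕ) : (JJ κ d).card ≤ (2 ^ Fintype.card κ) ^ (∑ h, d h) := by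
  rw [JJ, Fintype.card_piFinset, ← Finset.prod_pow_eq_pow_sum]
  refine Finset.prod_le_prod' (fun h _ => ?_)
  have h1 : Finset.piAntidiag (Finset.univ : Finset κ) (d h) ⊆
      Fintype.piFinset (fun _ => Finset.range (d h + 1)) := by
    intro a ha
    rw [Fintype.mem_piFinset]
    intro i
    have h2 : ∑ i, a i = d h := (Finset.mem_piAntidiag.1 ha).1
    have h3 : a i ≤ ∑ i, a i := Finset.single_le_sum (f := a) (fun _ _ => Nat.zero_le _)
      (Finset.mem_univ i)
    rw [Finset.mem_range]; omega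
  refine (Finset.card_le_card h1).trans ?_
  rw [Fintype.card_piFinset, Finset.prod_const, Finset.card_range, Finset.card_univ,
    ← pow_mul, mul_comm, pow_mul]
  exact Nat.pow_le_pow_left (Nat.lt_two_pow_self) _

lemma JJ_nonempty [Nonempty κ] (d : T → ℕ) : (JJ κ d).Nonempty := by
  obtain ⟨i⟩ := ‹Nonempty κ›
  exact ⟨fun h => Pi.single i (d h), mem_JJ.2 (fun h => by simp)⟩

open Classical in
lemma card_bad_le (d : T → ℕ) (hd : ∀ h, 0 < d h) (i : κ) {ε : ℝ} (hε : 0 < ε)
    (hT : 0 < Fintype.card T) :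
    (((JJ κ d).filter (fun J => ∑ h, (J h i : ℝ) / d h <
      Fintype.card T / Fintype.card κ - ε * Fintype.card T)).card : ℝ) *
      (ε ^ 2 * Fintype.card T) ≤ (JJ κ d).card := by
  have hN : (0 : ℝ) < Fintype.card κ := by
    have : 0 < Fintype.card κ := Fintype.card_pos_iff.2 ⟨i⟩
    exact_mod_cast this
  have hm : (0 : ℝ) < Fintype.card T := by exact_mod_cast hT
  have key := sum_sq_le (fun h => Finset.piAntidiag (Finset.univ : Finset κ) (d h))
    (fun h a => (a i : ℝ) / d h - 1 / Fintype.card κ)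
    (fun h => by
      have h1 := congrArg (Nat.cast : ℕ → ℝ) (sum_antidiag (d h) i)
      push_cast at h1
      have h2 : (0 : ℝ) < d h := by exact_mod_cast hd h
      rw [Finset.sum_sub_distrib, ← Finset.sum_div, Finset.sum_const, nsmul_eq_mul]
      field_simp
      linarith)
    (fun h a ha => by
      have h2 : (0 : ℝ) < d h := by exact_mod_cast hd h
      have h3 : a i ≤ d h := by
        rw [← (Finset.mem_piAntidiag.1 ha).1]
        exact Finset.single_le_sum (f := a) (fun _ _ => Nat.zero_le _) (Finset.mem_univ i)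
      have h4 : (a i : ℝ) / d h ≤ 1 := by
        rw [div_le_one h2]; exact_mod_cast h3
      have h5 : (0 : ℝ) ≤ (a i : ℝ) / d h := by positivity
      have h6 : (1 : ℝ) / Fintype.card κ ≤ 1 := by
        rw [div_le_one hN]
        have : 1 ≤ Fintype.card κ := Fintype.card_pos_iff.2 ⟨i⟩
        exact_mod_cast this
      have h7 : (0 : ℝ) ≤ 1 / Fintype.card κ := by positivity
      rw [abs_le]; constructor <;> linarith)
  set bad := (JJ κ d).filter (fun J => ∑ h, (J h i : ℝ) / d h <
      Fintype.card T / Fintype.card κ - ε * Fintype.card T) with hbad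
  have h8 : ∑ _J ∈ bad, (ε * Fintype.card T) ^ 2 ≤
      ∑ J ∈ bad, (∑ h, ((J h i : ℝ) / d h - 1 / Fintype.card κ)) ^ 2 := by
    refine Finset.sum_le_sum (fun J hJ => ?_)
    have h9 := (Finset.mem_filter.1 hJ).2
    rw [Finset.sum_sub_distrib, Finset.sum_const, Finset.card_univ, nsmul_eq_mul, mul_one_div]
    have : 0 < ε * Fintype.card T := by positivity
    nlinarith
  have h10 : ∑ J ∈ bad, (∑ h, ((J h i : ℝ) / d h - 1 / Fintype.card κ)) ^ 2 ≤
      ∑ J ∈ JJ κ d, (∑ h, ((J h i : ℝ) / d h - 1 / Fintype.card κ)) ^ 2 :=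
    Finset.sum_le_sum_of_subset_of_nonneg (Finset.filter_subset _ _) (fun _ _ _ => sq_nonneg _)
  rw [Finset.sum_const, nsmul_eq_mul] at h8
  have h11 : (bad.card : ℝ) * (ε * Fintype.card T) ^ 2 ≤ Fintype.card T * (JJ κ d).card :=
    h8.trans (h10.trans key)
  have h12 : Fintype.card T * ((bad.card : ℝ) * (ε ^ 2 * Fintype.card T)) ≤
      Fintype.card T * (JJ κ d).card := by nlinarith
  exact le_of_mul_le_mul_left h12 hm

end Counting

/-- Siegel's lemma in a convenient form -/
lemma siegel {α β : Type} [Fintype α] [Fintype β] (A : Matrix α β ℤ)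
    (h2 : 2 * Fintype.card α ≤ Fintype.card β) (hβ : 0 < Fintype.card β) {B : ℝ} (hB : 1 ≤ B)
    (hA : ∀ i j, |(A i j : ℝ)| ≤ B) :
    ∃ t : β → ℤ, t ≠ 0 ∧ A.mulVec t = 0 ∧ ∀ j, |(t j : ℝ)| ≤ Fintype.card β * B := by
  classical
  have hβ' : (1 : ℝ) ≤ Fintype.card β := by exact_mod_cast hβ
  rcases Nat.eq_zero_or_pos (Fintype.card α) with h0 | h0
  · have := Fintype.card_eq_zero_iff.1 h0
    obtain ⟨j⟩ := Fintype.card_pos_iff.1 hβ
    refine ⟨fun _ => 1, fun h => one_ne_zero (congrFun h j), Subsingleton.elim _ _, fun j => ?_⟩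
    simp only [Int.cast_one, abs_one]
    nlinarith
  · let _ := Matrix.seminormedAddCommGroup (m := α) (n := β) (α := ℤ)
    obtain ⟨t, ht0, ht, hn⟩ := Int.Matrix.exists_ne_zero_int_vec_norm_le A (by omega) h0
    refine ⟨t, ht0, ht, fun j => ?_⟩
    have h1 : |(t j : ℝ)| ≤ ‖t‖ := by
      have := norm_le_pi_norm t j
      rwa [Int.norm_eq_abs] at this
    have hA' : ‖A‖ ≤ B := by
      rw [Matrix.norm_le_iff (by linarith)]
      intro i j
      rw [Int.norm_eq_abs]; exact hA i j
    have h3 : max 1 ‖A‖ ≤ B := max_le hB hA'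
    have h4 : (1 : ℝ) ≤ Fintype.card β * max 1 ‖A‖ := by
      have := le_max_left 1 ‖A‖
      nlinarith
    have h5 : (Fintype.card α : ℝ) / (Fintype.card β - Fintype.card α) ≤ 1 := by
      have h6 : (2 * Fintype.card α : ℝ) ≤ Fintype.card β := by exact_mod_cast h2
      have h7 : (0 : ℝ) < Fintype.card α := by exact_mod_cast h0
      rw [div_le_one (by linarith)]; linarith
    refine h1.trans (hn.trans ?_)
    refine (Real.rpow_le_rpow_of_exponent_le h4 h5).trans ?_
    rw [Real.rpow_one]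
    exact mul_le_mul_of_nonneg_left h3 (by linarith)

/-- exponent vector attached to a multi-index -/
def monJ (J : T → κ → ℕ) : T × κ →₀ ℕ := Finsupp.equivFunOnFinite.symm (fun x => J x.1 x.2)

omit [DecidableEq T] [DecidableEq κ] in
@[simp] lemma monJ_apply (J : T → κ → ℕ) (x : T × κ) : monJ J x = J x.1 x.2 := rfl

omit [DecidableEq T] [DecidableEq κ] in
lemma monJ_inj : Function.Injective (monJ : (T → κ → ℕ) → _) := by
  intro J J' h
  funext a b
  exact congrArg (fun f : T × κ →₀ ℕ => f (a, b)) h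

/-- the auxiliary polynomial -/
theorem exists_aux {V : Type} [Fintype V] [Nonempty κ] (M : V → Matrix κ κ ℚ)
    (hM : ∀ v i j, M v i j ∈ Zr) {C1 : ℝ} (hC1 : 1 ≤ C1) (hMC : ∀ v i, ∑ j, vinf (M v i j) ≤ C1)
    (d : T → ℕ) (hd : ∀ h, 0 < d h) {ε : ℝ} (hε : 0 < ε) (hT : 0 < Fintype.card T)
    (hm : 2 * Fintype.card V * Fintype.card κ ≤ ε ^ 2 * Fintype.card T) :
    ∃ P : MvPolynomial (T × κ) ℚ, P ≠ 0 ∧ P ∈ cf _ Zr ∧ MH d P ∧
      L1 P ≤ (4 ^ Fintype.card κ * C1) ^ (∑ h, d h) ∧
      ∀ v K, coeff K (lin (fun _ => M v) P) ≠ 0 → ∀ i,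
        Fintype.card T / Fintype.card κ - ε * Fintype.card T ≤ ∑ h, (K (h, i) : ℝ) / d h := by
  classical
  let bad : Finset (T → κ → ℕ) := (JJ κ d).filter (fun J => ∃ i, ∑ h, (J h i : ℝ) / d h <
      Fintype.card T / Fintype.card κ - ε * Fintype.card T)
  have hbad : (bad.card : ℝ) * (ε ^ 2 * Fintype.card T) ≤ Fintype.card κ * (JJ κ d).card := by
    have h1 : bad ⊆ Finset.univ.biUnion (fun i => (JJ κ d).filter (fun J =>
        ∑ h, (J h i : ℝ) / d h < Fintype.card T / Fintype.card κ - ε * Fintype.card T)) := by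
      intro J hJ
      obtain ⟨h1, i, h2⟩ := Finset.mem_filter.1 hJ
      exact Finset.mem_biUnion.2 ⟨i, Finset.mem_univ _, Finset.mem_filter.2 ⟨h1, h2⟩⟩
    have h2 := (Finset.card_le_card h1).trans Finset.card_biUnion_le
    have h3 : (bad.card : ℝ) ≤ ∑ i : κ, (((JJ κ d).filter (fun J =>
        ∑ h, (J h i : ℝ) / d h <
          Fintype.card T / Fintype.card κ - ε * Fintype.card T)).card : ℝ) := by
      exact_mod_cast h2
    refine (mul_le_mul_of_nonneg_right h3 (by positivity)).trans ?_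
    rw [Finset.sum_mul]
    refine (Finset.sum_le_sum (fun i _ => card_bad_le d hd i hε hT)).trans (le_of_eq ?_)
    simp
  have hmon : ∀ J : JJ κ d, MH d (monomial (monJ J.1) (1 : ℚ)) := by
    intro J K hK h
    rw [coeff_monomial] at hK
    have : monJ J.1 = K := by by_contra hc; simp [hc] at hK
    rw [← this]
    exact mem_JJ.1 J.2 h
  have hint : ∀ (x : V × bad) (J : JJ κ d), ∃ z : ℤ,
      (z : ℚ) = coeff (monJ x.2.1) (lin (fun _ => M x.1) (monomial (monJ J.1) 1)) :=
    fun x J => lin_mem_cf (fun _ i j => hM x.1 i j) (monomial_mem_cf _ Zr.one_mem) _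
  choose A hA using hint
  have hcard : 2 * Fintype.card (V × bad) ≤ Fintype.card (JJ κ d) := by
    rw [Fintype.card_prod, Fintype.card_coe, Fintype.card_coe]
    have hN : (0 : ℝ) < Fintype.card κ := by
      have : 0 < Fintype.card κ := Fintype.card_pos
      exact_mod_cast this
    have h1 : (bad.card : ℝ) * (2 * Fintype.card V * Fintype.card κ) ≤
        Fintype.card κ * (JJ κ d).card :=
      (mul_le_mul_of_nonneg_left hm (by positivity)).trans hbad
    have h2 : (Fintype.card κ : ℝ) * (2 * (Fintype.card V * bad.card)) ≤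
        Fintype.card κ * (JJ κ d).card := by nlinarith
    have h3 := le_of_mul_le_mul_left h2 hN
    exact_mod_cast h3
  obtain ⟨t, ht0, ht, htb⟩ := siegel (Matrix.of A) hcard
    (by rw [Fintype.card_coe]; exact (JJ_nonempty d).card_pos)
    (B := C1 ^ (∑ h, d h)) (one_le_pow₀ hC1) (fun x J => by
      have h1 := coeff_le_L1 (lin (fun _ => M x.1) (monomial (monJ J.1) (1 : ℚ))) (monJ x.2.1)
      rw [← hA x J, vinf_apply, Rat.cast_intCast] at h1
      refine h1.trans ?_
      refine (nrm_lin_le (w := fun _ => C1) (fun _ => zero_le_one) _ _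
        (fun y => by simpa using hMC x.1 y.2)).trans (le_of_eq ?_)
      rw [(hmon J).nrm_const, nrm_monomial]; simp)
  have hcJ : ((JJ κ d).card : ℝ) ≤ (2 ^ Fintype.card κ) ^ (∑ h, d h) := by
    exact_mod_cast card_JJ_le d
  refine ⟨∑ J : JJ κ d, monomial (monJ J.1) (t J : ℚ), ?_, ?_, ?_, ?_, ?_⟩
  · obtain ⟨J, hJ⟩ := Function.ne_iff.1 ht0
    intro h0
    have := congrArg (coeff (monJ J.1)) h0
    rw [coeff_sum, Finset.sum_eq_single J] at this
    · simp at this; exact hJ this
    · intro J' _ hne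
      rw [coeff_monomial, if_neg]
      intro h; exact hne (Subtype.ext (monJ_inj h))
    · simp
  · exact Subring.sum_mem _ (fun J _ => monomial_mem_cf _ (intCast_mem_Zr _))
  · intro K hK h
    rw [coeff_sum] at hK
    obtain ⟨J, _, hJ⟩ := Finset.exists_ne_zero_of_sum_ne_zero hK
    rw [coeff_monomial] at hJ
    have : monJ J.1 = K := by by_contra hc; simp [hc] at hJ
    rw [← this]
    exact mem_JJ.1 J.2 h
  · refine (nrm_sum_le (fun _ => zero_le_one) _ _).trans ?_
    have h1 : ∀ J : JJ κ d, nrm vinf (fun _ => 1) (monomial (monJ J.1) (t J : ℚ)) ≤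
        (2 ^ Fintype.card κ) ^ (∑ h, d h) * C1 ^ (∑ h, d h) := by
      intro J
      rw [nrm_monomial, mw_one, mul_one, vinf_apply, Rat.cast_intCast]
      refine (htb J).trans ?_
      rw [Fintype.card_coe]
      exact mul_le_mul_of_nonneg_right hcJ (by positivity)
    refine (Finset.sum_le_sum (fun J _ => h1 J)).trans ?_
    rw [Finset.sum_const, Finset.card_univ, Fintype.card_coe, nsmul_eq_mul]
    refine (mul_le_mul_of_nonneg_right hcJ (by positivity)).trans (le_of_eq ?_)
    rw [← mul_assoc, ← mul_pow, ← mul_pow, ← mul_pow]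
    norm_num
  · intro v K hK i
    by_contra hlt
    push Not at hlt
    apply hK
    have hP : MH d (∑ J : JJ κ d, monomial (monJ J.1) (t J : ℚ)) := by
      intro K hK h
      rw [coeff_sum] at hK
      obtain ⟨J, _, hJ⟩ := Finset.exists_ne_zero_of_sum_ne_zero hK
      rw [coeff_monomial] at hJ
      have : monJ J.1 = K := by by_contra hc; simp [hc] at hJ
      rw [← this]
      exact mem_JJ.1 J.2 h
    have hKJ : (fun h i => K (h, i)) ∈ bad :=
      Finset.mem_filter.2 ⟨mem_JJ.2 ((hP.lin _) K hK), i, hlt⟩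
    have h1 := congrFun ht (v, ⟨_, hKJ⟩)
    have hK' : monJ (fun h i => K (h, i)) = K := by ext x; rfl
    simp only [Matrix.mulVec, dotProduct, Matrix.of_apply, Pi.zero_apply] at h1
    have h2 := congrArg (Int.cast : ℤ → ℚ) h1
    push_cast at h2
    rw [map_sum, coeff_sum, ← h2]
    refine Finset.sum_congr rfl (fun J _ => ?_)
    rw [hA, hK']
    have : monomial (monJ J.1) (t J : ℚ) = (t J : ℚ) • monomial (monJ J.1) (1 : ℚ) := by
      simp [smul_monomial]
    rw [this, map_smul, coeff_smul, smul_eq_mul, mul_comm]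

end

end Pool.Agent.Shared.Subspace
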