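import Pool.Agent.Shared.SubspaceAux

/-!
The zero lemma (generalized Roth lemma) and the core contradiction of the Subspace Theorem.
-/

set_option autoImplicit false

namespace Pool.Agent.Shared.Subspace

open MvPolynomial Finset

noncomputable section

section Zero

variable {T κ : Type} [Fintype T] [Fintype κ] [DecidableEq T] [DecidableEq κ]

/-- specialisation map: keep `i0` as inner variable, set `i1` to one -/
def spec (i0 i1 : κ) : MvPolynomial (T × κ) ℚ →ₐ[ℚ] MvPolynomial (T × κ) (MvPolynomial T ℚ) :=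
  aeval (fun x => if x.2 = i0 then C (X x.1) else if x.2 = i1 then 1 else X x)

/-- exponents of the killed variables -/
def kill (i0 i1 : κ) (K : T × κ →₀ ℕ) : T × κ →₀ ℕ :=
  Finsupp.equivFunOnFinite.symm (fun x => if x.2 = i0 then 0 else if x.2 = i1 then 0 else K x)

/-- exponents in direction `i0` -/
def col (i0 : κ) (K : T × κ →₀ ℕ) : T →₀ ℕ :=
  Finsupp.equivFunOnFinite.symm (fun h => K (h, i0))

omit [DecidableEq T] in
lemma kill_apply (i0 i1 : κ) (K : T × κ →₀ ℕ) (x : T × κ) :
    kill i0 i1 K x = if x.2 = i0 then 0 else if x.2 = i1 then 0 else K x := rfl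

omit [DecidableEq T] [Fintype κ] [DecidableEq κ] in
@[simp] lemma col_apply (i0 : κ) (K : T × κ →₀ ℕ) (h : T) : col i0 K h = K (h, i0) := rfl

omit [DecidableEq T] in
lemma spec_monomial (i0 i1 : κ) (K : T × κ →₀ ℕ) (c : ℚ) :
    spec i0 i1 (monomial K c) = monomial (kill i0 i1 K) (monomial (col i0 K) c) := by
  rw [spec, aeval_monomial, monomial_eq, monomial_eq,
    Finsupp.prod_fintype _ _ (fun _ => pow_zero _), Finsupp.prod_fintype _ _ (fun _ => pow_zero _),
    Finsupp.prod_fintype _ _ (fun _ => pow_zero _), map_mul, mul_assoc]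
  congr 1
  have h1 : (C (∏ h, X h ^ (col i0 K) h) : MvPolynomial (T × κ) (MvPolynomial T ℚ)) =
      ∏ x : T × κ, if x.2 = i0 then C (X x.1) ^ K x else 1 := by
    rw [Fintype.prod_prod_type, map_prod]
    refine Finset.prod_congr rfl (fun h _ => ?_)
    rw [Finset.prod_ite_eq']
    simp
  rw [h1, ← Finset.prod_mul_distrib]
  refine Finset.prod_congr rfl (fun x _ => ?_)
  rw [kill_apply]
  split_ifs <;> simp

omit [Fintype T] [Fintype κ] [DecidableEq T] [DecidableEq κ] in
lemma coeff_min {σ B : Type} [CommRing B] (ψ : B →+* MvPolynomial σ B) (H : MvPolynomial σ B)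
    (K0 : σ →₀ ℕ) (hmin : ∀ K ∈ H.support, K ≤ K0 → K = K0) :
    coeff K0 (eval₂Hom ψ X H) = constantCoeff (ψ (coeff K0 H)) := by
  classical
  conv_lhs => rw [H.as_sum, map_sum, coeff_sum]
  have h1 : ∀ K, coeff K0 (eval₂Hom ψ X (monomial K (coeff K H))) =
      if K ≤ K0 then coeff (K0 - K) (ψ (coeff K H)) else 0 := by
    intro K
    rw [eval₂Hom_monomial, mul_comm]
    have : (K.prod fun i k => (X i : MvPolynomial σ B) ^ k) = monomial K 1 := by
      rw [monomial_eq]; simp
    rw [this, coeff_monomial_mul']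
    simp
  rw [Finset.sum_congr rfl (fun K _ => h1 K), Finset.sum_eq_single K0]
  · simp [constantCoeff_eq]
  · intro K hK hne
    rw [if_neg (fun h => hne (hmin K hK h))]
  · intro hK
    rw [notMem_support_iff.1 hK]; simp

theorem zero_lemma_aux {i0 i1 k0 : κ} (hi : i1 ≠ i0) (d : T → ℕ) (Z : T → Matrix κ κ ℚ)
    (r : T → κ → ℚ) (hZ : ∀ h, IsUnit (Z h).det) (hr : ∀ h, Matrix.vecMul (r h) (Z h) = Pi.single k0 1)
    (hr0 : ∀ h, r h i0 = 1) (P : MvPolynomial (T × κ) ℚ) (hP0 : P ≠ 0) (hPZ : P ∈ cf _ Zr)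
    (hPd : MH d P) {θ : ℝ}
    (hθ : ∀ K, coeff K (lin Z P) ≠ 0 → θ ≤ ∑ h, (K (h, k0) : ℝ) / d h) :
    ∃ F : MvPolynomial T ℚ, F ≠ 0 ∧ F ∈ cf _ Zr ∧ DegLE d F ∧ L1 F ≤ L1 P ∧
      Ind d θ (shift (fun h => -r h i1) F) := by
  classical
  have hsp : spec i0 i1 P = ∑ K ∈ P.support,
      monomial (kill i0 i1 K) (monomial (col i0 K) (coeff K P)) := by
    conv_lhs => rw [P.as_sum, map_sum]
    exact Finset.sum_congr rfl (fun K _ => spec_monomial _ _ _ _)
  have hcoeff : ∀ K0, coeff K0 (spec i0 i1 P) =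
      ∑ K ∈ P.support with kill i0 i1 K = K0, monomial (col i0 K) (coeff K P) := by
    intro K0
    rw [hsp, coeff_sum, Finset.sum_filter]
    exact Finset.sum_congr rfl (fun K _ => coeff_monomial _ _ _)
  have hne : spec i0 i1 P ≠ 0 := by
    obtain ⟨K0, hK0⟩ := ne_zero_iff.1 hP0
    intro h0
    have h1 := hcoeff (kill i0 i1 K0)
    rw [h0, coeff_zero] at h1
    have h2 := congrArg (coeff (col i0 K0)) h1
    rw [coeff_zero, coeff_sum, Finset.sum_eq_single K0] at h2
    · simp at h2; exact hK0 h2.symm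
    · intro K hK hne
      rw [coeff_monomial, if_neg]
      intro hc
      apply hne
      obtain ⟨hK1, hK2⟩ := Finset.mem_filter.1 hK
      have key : ∀ h i, i ≠ i1 → K (h, i) = K0 (h, i) := by
        intro h i h1
        by_cases h0 : i = i0
        · subst h0
          exact congrArg (fun f : T →₀ ℕ => f h) hc
        · have := congrArg (fun f : T × κ →₀ ℕ => f (h, i)) hK2
          simpa [kill_apply, h0, h1] using this
      ext ⟨h, i⟩
      by_cases h1 : i = i1
      · subst h1
        have e1 := hPd K (mem_support_iff.1 hK1) h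
        have e2 := hPd K0 hK0 h
        rw [← Finset.add_sum_erase _ _ (Finset.mem_univ i)] at e1 e2
        have e3 : ∑ x ∈ Finset.univ.erase i, K (h, x) = ∑ x ∈ Finset.univ.erase i, K0 (h, x) :=
          Finset.sum_congr rfl (fun x hx => key h x (Finset.ne_of_mem_erase hx))
        omega
      · exact key h i h1
    · intro hK
      exact absurd (by simpa using hK0) hK
  obtain ⟨K0, hK0⟩ := Finset.exists_minimal (support_nonempty.2 hne)
  refine ⟨coeff K0 (spec i0 i1 P), mem_support_iff.1 hK0.1, ?_, ?_, ?_, ?_⟩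
  · rw [hcoeff]
    exact Subring.sum_mem _ (fun K _ => monomial_mem_cf _ (hPZ K))
  · rw [hcoeff]
    refine DegLE.sum _ (fun K hK a ha h => ?_)
    rw [coeff_monomial] at ha
    have : col i0 K = a := by by_contra hc; simp [hc] at ha
    rw [← this, col_apply, ← hPd K (mem_support_iff.1 (Finset.mem_filter.1 hK).1) h]
    exact Finset.single_le_sum (f := fun i => K (h, i)) (fun _ _ => Nat.zero_le _)
      (Finset.mem_univ i0)
  · rw [hcoeff]
    refine (nrm_sum_le (fun _ => zero_le_one) _ _).trans ?_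
    simp only [nrm_monomial]
    simp only [L1, nrm, mw_one]
    exact Finset.sum_le_sum_of_subset_of_nonneg (Finset.filter_subset _ _)
      (fun _ _ _ => by simp)
  · let ψ : MvPolynomial T ℚ →ₐ[ℚ] MvPolynomial (T × κ) (MvPolynomial T ℚ) :=
      aeval (fun h => C (X h - C (r h i1)) -
        ∑ i ∈ (Finset.univ.erase i0).erase i1, C (C (r h i)) * X (h, i))
    let Ψ : MvPolynomial (T × κ) (MvPolynomial T ℚ) →+*
      MvPolynomial (T × κ) (MvPolynomial T ℚ) := eval₂Hom ψ.toRingHom X
    have h1 : coeff K0 (Ψ (spec i0 i1 P)) = shift (fun h => -r h i1) (coeff K0 (spec i0 i1 P)) := by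
      rw [coeff_min ψ.toRingHom _ K0 (fun K hK hle => le_antisymm hle (hK0.2 hK hle))]
      have : (constantCoeff : MvPolynomial (T × κ) (MvPolynomial T ℚ) →+* _).comp ψ.toRingHom =
          (shift (fun h => -r h i1)).toRingHom := by
        refine MvPolynomial.ringHom_ext (fun c => ?_) (fun h => ?_)
        · simp [ψ, shift]
        · simp [ψ, shift, sub_eq_add_neg]
      exact congrArg (fun f : MvPolynomial T ℚ →+* MvPolynomial T ℚ =>
        f (coeff K0 (spec i0 i1 P))) this
    rw [← h1]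
    let Θ : MvPolynomial (T × κ) ℚ →+* MvPolynomial (T × κ) (MvPolynomial T ℚ) :=
      Ψ.comp ((spec i0 i1).toRingHom.comp (lin (fun h => (Z h)⁻¹)).toRingHom)
    have hΘ : ∀ G, Θ G = Ψ (spec i0 i1 (lin (fun h => (Z h)⁻¹) G)) := fun _ => rfl
    have h2 : Ψ (spec i0 i1 P) = Θ (lin Z P) := by
      rw [hΘ, lin_lin]
      have : (fun h => Z h * (Z h)⁻¹) = fun _ => 1 := by
        funext h; exact Matrix.mul_nonsing_inv _ (hZ h)
      rw [this, lin_one]
    have h3 : ∀ h, Θ (X (h, k0)) = C (X h) := by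
      intro h
      have hrow : ∀ I, (Z h)⁻¹ k0 I = r h I := by
        intro I
        have e1 : r h = Matrix.vecMul (Pi.single k0 1) (Z h)⁻¹ := by
          rw [← hr h, Matrix.vecMul_vecMul, Matrix.mul_nonsing_inv _ (hZ h), Matrix.vecMul_one]
        rw [e1]; simp
      rw [hΘ, lin_X]
      simp only [hrow]
      rw [← Finset.add_sum_erase _ _ (Finset.mem_univ i0),
        ← Finset.add_sum_erase _ _ (Finset.mem_erase.2 ⟨hi, Finset.mem_univ i1⟩), hr0]
      simp only [map_add, map_mul, map_sum]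
      have e0 : Ψ (spec i0 i1 (X (h, i0))) = C (X h - C (r h i1)) -
          ∑ i ∈ (Finset.univ.erase i0).erase i1, C (C (r h i)) * X (h, i) := by
        simp [spec, Ψ, ψ]
      have e1 : Ψ (spec i0 i1 (X (h, i1))) = 1 := by simp [spec, hi]
      have e2 : ∀ c : ℚ, Ψ (spec i0 i1 (C c : MvPolynomial (T × κ) ℚ)) = C (C c) := by
        intro c; simp [spec, Ψ, ψ]
      have e3 : ∑ i ∈ (Finset.univ.erase i0).erase i1,
          Ψ (spec i0 i1 (C (r h i) : MvPolynomial (T × κ) ℚ)) * Ψ (spec i0 i1 (X (h, i))) =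
          ∑ i ∈ (Finset.univ.erase i0).erase i1, C (C (r h i)) * X (h, i) := by
        refine Finset.sum_congr rfl (fun i hi' => ?_)
        have a1 := Finset.ne_of_mem_erase hi'
        have a2 := Finset.ne_of_mem_erase (Finset.mem_of_mem_erase hi')
        rw [e2]
        simp [spec, Ψ, a1, a2]
      rw [e0, e1, e2, e2, e3]
      simp
    rw [h2, (lin Z P).as_sum, map_sum, coeff_sum]
    refine Ind.sum _ (fun K hK => ?_)
    have h4 : (∏ h, X (h, k0) ^ K (h, k0) : MvPolynomial (T × κ) ℚ) ∣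
        monomial K (coeff K (lin Z P)) := by
      rw [monomial_eq, Finsupp.prod_fintype _ _ (fun _ => pow_zero _), Fintype.prod_prod_type]
      refine Dvd.dvd.mul_left (Finset.prod_dvd_prod_of_dvd _ _ (fun h _ => ?_)) _
      exact Finset.dvd_prod_of_mem (fun i => (X (h, i) : MvPolynomial (T × κ) ℚ) ^ K (h, i))
        (Finset.mem_univ k0)
    obtain ⟨G, hG⟩ := h4
    rw [hG, map_mul, map_prod]
    simp only [map_pow, h3]
    have e4 : (∏ h, (C (X h) : MvPolynomial (T × κ) (MvPolynomial T ℚ)) ^ K (h, k0)) =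
        C (∏ h, X h ^ K (h, k0)) := by simp
    rw [e4, coeff_C_mul]
    have h5 : Ind d (∑ h, (K (h, k0) : ℝ) / d h)
        (∏ h, (X h : MvPolynomial T ℚ) ^ K (h, k0)) := by
      refine Ind.prod _ (fun h _ a ha => ?_)
      rw [X_pow_eq_monomial, coeff_monomial] at ha
      have : Finsupp.single h (K (h, k0)) = a := by by_contra hc; simp [hc] at ha
      rw [← this]
      refine le_trans (le_of_eq ?_) (Finset.single_le_sum
        (f := fun s => ((Finsupp.single h (K (h, k0)) : T →₀ ℕ) s : ℝ) / d s)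
        (fun _ _ => by positivity) (Finset.mem_univ h))
      simp
    have h6 := h5.mul (ind_zero (d := d) (coeff K0 (Θ G)))
    rw [add_zero] at h6
    exact h6.mono (hθ K (mem_support_iff.1 hK))

end Zero

lemma abs_le_vinf (v : AbsoluteValue ℚ ℝ) {x : ℚ} (hx : x ∈ Zr) : v x ≤ vinf x := by
  obtain ⟨z, rfl⟩ := mem_Zr.1 hx
  have h1 : ∀ n : ℕ, v (n : ℚ) ≤ n := by
    intro n
    induction n with
    | zero => simp
    | succ n ih =>
      push_cast
      exact (v.add_le _ _).trans (by rw [map_one]; linarith)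
  rw [vinf_apply, Rat.cast_intCast]
  obtain ⟨n, rfl | rfl⟩ := Int.eq_nat_or_neg z
  · simpa using h1 n
  · simpa using h1 n

lemma nrm_le_L1 {σ : Type*} (v : AbsoluteValue ℚ ℝ) {F : MvPolynomial σ ℚ} (hF : F ∈ cf σ Zr) :
    nrm v (fun _ => 1) F ≤ L1 F :=
  Finset.sum_le_sum (fun K _ => mul_le_mul_of_nonneg_right (abs_le_vinf v (hF K)) (by simp))

lemma exponent_le {κ : Type} [Fintype κ] (c s : κ → ℝ) {cm a m : ℝ} (hc : ∀ i, c i ≤ cm)
    (hs : ∀ i, a ≤ s i) (hsum : ∑ i, s i = m) :
    ∑ i, c i * s i ≤ a * ∑ i, c i + cm * (m - Fintype.card κ * a) := by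
  have h1 : ∑ i, c i * s i = a * ∑ i, c i + ∑ i, c i * (s i - a) := by
    rw [Finset.mul_sum, ← Finset.sum_add_distrib]
    exact Finset.sum_congr rfl (fun i _ => by ring)
  have h2 : ∑ i, c i * (s i - a) ≤ ∑ i, cm * (s i - a) :=
    Finset.sum_le_sum (fun i _ => mul_le_mul_of_nonneg_right (hc i) (by linarith [hs i]))
  rw [← Finset.mul_sum, Finset.sum_sub_distrib, hsum, Finset.sum_const, Finset.card_univ,
    nsmul_eq_mul] at h2
  linarith

/-- The core of the proof of the Subspace Theorem. -/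
theorem core {V κ : Type} [Fintype V] [Fintype κ] [DecidableEq κ]
    (av : V → AbsoluteValue ℚ ℝ) (O : Subring ℚ) (hO : ∀ x ∈ O, x ≠ 0 → 1 ≤ ∏ v, av v x)
    {i0 i1 k0 : κ} (hi : i1 ≠ i0) (M : V → Matrix κ κ ℚ) (hM : ∀ v i j, M v i j ∈ Zr)
    {C0 : ℝ} (hC0 : 1 ≤ C0) (c : V → κ → ℝ) (hc : ∑ v, ∑ i, c v i < 0) {hh : ℝ} (hhh : 0 < hh) :
    ∃ (m : ℕ) (η ls : ℝ), 0 < η ∧ ∀ (l : TT m → ℝ) (Z : TT m → Matrix κ κ ℚ)
      (W : V → TT m → Matrix κ κ ℚ) (r : TT m → κ → ℚ),
      (∀ h, ls ≤ l h) → (∀ h h', rkT m h < rkT m h' → l h ≤ η * l h') →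
      (∀ v h, M v * W v h = Z h) → (∀ h, IsUnit (Z h).det) → (∀ h i j, Z h i j ∈ O) →
      (∀ h, Matrix.vecMul (r h) (Z h) = Pi.single k0 1) → (∀ h, r h i0 = 1) →
      (∀ v h i I, I ≠ k0 → av v (W v h i I) ≤ C0 * Real.exp (c v i * l h)) →
      (∀ v h i, av v (W v h i k0) ≤ C0) →
      (∀ h, Real.exp (hh * l h) ≤ (r h i1).den) → False := by
  classical
  have : Nonempty κ := ⟨i0⟩
  set δ : ℝ := -∑ v, ∑ i, c v i with hδdef
  have hδ : 0 < δ := by linarith
  set N : ℝ := (Fintype.card κ : ℝ) with hNdef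
  have hN : 1 ≤ N := by
    have : 1 ≤ Fintype.card κ := Fintype.card_pos
    rw [hNdef]; exact_mod_cast this
  set S : ℝ := (Fintype.card V : ℝ) + 1 with hSdef
  have hS : 1 ≤ S := by rw [hSdef]; linarith [(Nat.cast_nonneg (Fintype.card V) : (0 : ℝ) ≤ _)]
  have hS' : (Fintype.card V : ℝ) ≤ S := by linarith
  set cm : ℝ := 1 + ∑ v, ∑ i, |c v i| with hcmdef
  have hcm : ∀ v i, |c v i| ≤ cm := by
    intro v i
    have h1 : |c v i| ≤ ∑ i, |c v i| :=
      Finset.single_le_sum (f := fun i => |c v i|) (fun _ _ => abs_nonneg _) (Finset.mem_univ i)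
    have h2 : ∑ i, |c v i| ≤ ∑ v, ∑ i, |c v i| :=
      Finset.single_le_sum (f := fun v => ∑ i, |c v i|)
        (fun _ _ => Finset.sum_nonneg (fun _ _ => abs_nonneg _)) (Finset.mem_univ v)
    linarith
  have hcm1 : 1 ≤ cm := by
    have : 0 ≤ ∑ v, ∑ i, |c v i| :=
      Finset.sum_nonneg (fun _ _ => Finset.sum_nonneg (fun _ _ => abs_nonneg _))
    linarith
  set C1 : ℝ := 1 + ∑ v, ∑ i, ∑ j, vinf (M v i j) with hC1def
  have hMC : ∀ v i, ∑ j, vinf (M v i j) ≤ C1 := by
    intro v i
    have h1 : ∑ j, vinf (M v i j) ≤ ∑ i, ∑ j, vinf (M v i j) :=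
      Finset.single_le_sum (f := fun i => ∑ j, vinf (M v i j))
        (fun _ _ => Finset.sum_nonneg (fun _ _ => vinf.nonneg _)) (Finset.mem_univ i)
    have h2 : ∑ i, ∑ j, vinf (M v i j) ≤ ∑ v, ∑ i, ∑ j, vinf (M v i j) :=
      Finset.single_le_sum (f := fun v => ∑ i, ∑ j, vinf (M v i j))
        (fun _ _ => Finset.sum_nonneg (fun _ _ => Finset.sum_nonneg (fun _ _ => vinf.nonneg _)))
        (Finset.mem_univ v)
    linarith
  have hC1 : 1 ≤ C1 := by
    have : 0 ≤ ∑ v, ∑ i, ∑ j, vinf (M v i j) :=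
      Finset.sum_nonneg (fun _ _ => Finset.sum_nonneg (fun _ _ =>
        Finset.sum_nonneg (fun _ _ => vinf.nonneg _)))
    linarith
  set ε : ℝ := min (1 / (2 * N)) (δ / (8 * N ^ 2 * S * cm)) with hεdef
  have hε : 0 < ε := lt_min (by positivity) (by positivity)
  have hε1 : ε * (2 * N) ≤ 1 := by
    have : ε ≤ 1 / (2 * N) := min_le_left _ _
    rwa [le_div_iff₀ (by positivity)] at this
  have hε2 : ε * (8 * N ^ 2 * S * cm) ≤ δ := by
    have : ε ≤ δ / (8 * N ^ 2 * S * cm) := min_le_right _ _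
    rwa [le_div_iff₀ (by positivity)] at this
  obtain ⟨m, hm⟩ := exists_nat_ge (max (max (8 * N * S * cm / δ) (2 * S * N / ε ^ 2)) 1)
  have hm1 : 8 * N * S * cm ≤ m * δ := by
    have : 8 * N * S * cm / δ ≤ m := le_trans (le_trans (le_max_left _ _) (le_max_left _ _)) hm
    rwa [div_le_iff₀ hδ] at this
  have hm2 : 2 * S * N ≤ m * ε ^ 2 := by
    have : 2 * S * N / ε ^ 2 ≤ m := le_trans (le_trans (le_max_right _ _) (le_max_left _ _)) hm
    rwa [div_le_iff₀ (by positivity)] at this
  have hm3 : (1 : ℝ) ≤ m := le_trans (le_max_right _ _) hm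
  obtain ⟨ηR, hηR, HR⟩ := roth_lemma m 1 one_pos
  set C2 : ℝ := 4 ^ Fintype.card κ * C1 with hC2def
  have hC2 : 1 ≤ C2 := by
    have : (1 : ℝ) ≤ 4 ^ Fintype.card κ := one_le_pow₀ (by norm_num)
    nlinarith
  set C3 : ℝ := (3 * N * C0) * (C1 * C2) with hC3def
  have hC3 : 1 ≤ C3 := by
    have h1 : 1 ≤ 3 * N * C0 := by nlinarith
    have h2 : 1 ≤ C1 * C2 := by nlinarith
    nlinarith
  have hL2 : 0 ≤ Real.log C2 := Real.log_nonneg hC2
  have hL3 : 0 ≤ Real.log C3 := Real.log_nonneg hC3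
  set ls : ℝ := max (max (16 * N * S * Real.log C3 / δ) (2 * m * (Real.log C2 + 1) / (ηR * hh))) 1
    with hlsdef
  have hls1 : 16 * N * S * Real.log C3 ≤ ls * δ := by
    have : 16 * N * S * Real.log C3 / δ ≤ ls := le_trans (le_max_left _ _) (le_max_left _ _)
    rwa [div_le_iff₀ hδ] at this
  have hls2 : 2 * m * (Real.log C2 + 1) ≤ ls * (ηR * hh) := by
    have : 2 * m * (Real.log C2 + 1) / (ηR * hh) ≤ ls :=
      le_trans (le_max_right _ _) (le_max_left _ _)
    rwa [div_le_iff₀ (by positivity)] at this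
  have hls3 : 1 ≤ ls := le_max_right _ _
  refine ⟨m, ηR / 2, ls, by positivity, fun l Z W r hl hlr hMW hZ hZO hr hr0 hW hWk hq => ?_⟩
  have hl1 : ∀ h, 1 ≤ l h := fun h => hls3.trans (hl h)
  set D : ℝ := cm * (∑ h, l h) ^ 2 + 1 with hDdef
  have hD : ∀ h, cm * l h ^ 2 ≤ D := by
    intro h
    have h1 : l h ≤ ∑ h, l h :=
      Finset.single_le_sum (f := l) (fun h _ => by linarith [hl1 h]) (Finset.mem_univ h)
    have h2 : l h ^ 2 ≤ (∑ h, l h) ^ 2 := pow_le_pow_left₀ (by linarith [hl1 h]) h1 2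
    nlinarith
  have hD0 : 0 < D := by positivity
  have hDl : ∀ h, l h ≤ D := by
    intro h
    have := hD h
    have := hl1 h
    nlinarith
  set d : TT m → ℕ := fun h => ⌈D / l h⌉₊ with hddef
  have hd1 : ∀ h, D ≤ d h * l h := by
    intro h
    have := Nat.le_ceil (D / l h)
    rwa [div_le_iff₀ (by linarith [hl1 h])] at this
  have hd2 : ∀ h, d h * l h ≤ D + l h := by
    intro h
    have h1 := (Nat.ceil_lt_add_one (a := D / l h) (by have := hl1 h; positivity)).le
    have h2 := mul_le_mul_of_nonneg_right h1 (by linarith [hl1 h] : 0 ≤ l h)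
    rwa [add_mul, div_mul_cancel₀ _ (by linarith [hl1 h]), one_mul] at h2
  have hdpos : ∀ h, 0 < d h := by
    intro h
    exact Nat.ceil_pos.2 (by have := hl1 h; positivity)
  have hdR : ∀ h, (0 : ℝ) < d h := fun h => by exact_mod_cast hdpos h
  have hsumd : ls * ∑ h, (d h : ℝ) ≤ 2 * m * D := by
    rw [Finset.mul_sum]
    have h1 : ∀ h, ls * (d h : ℝ) ≤ 2 * D := by
      intro h
      have := hd2 h
      have := hDl h
      have := mul_le_mul_of_nonneg_left (hl h) (hdR h).le
      nlinarith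
    refine (Finset.sum_le_sum (fun h _ => h1 h)).trans (le_of_eq ?_)
    rw [Finset.sum_const, Finset.card_univ, card_TT, nsmul_eq_mul]; ring
  obtain ⟨P, hP0, hPZ, hPd, hPL, hPv⟩ := exists_aux (T := TT m) M hM hC1 hMC d hdpos hε
    (by rw [card_TT]; exact_mod_cast hm3) (by rw [card_TT]; nlinarith)
  rw [card_TT] at hPv
  -- the zero lemma
  obtain ⟨K, hK, hKw⟩ : ∃ K, coeff K (lin Z P) ≠ 0 ∧ ∑ h, (K (h, k0) : ℝ) / d h < 1 := by
    by_contra hcon
    push Not at hcon
    obtain ⟨F, hF0, hFZ, hFd, hFL, hFI⟩ := zero_lemma_aux hi d Z r hZ hr hr0 P hP0 hPZ hPd hcon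
    refine HR d _ F hdpos (fun h h' hh' => ?_) hF0 hFZ hFd (fun h => ?_) hFI
    · have h1 := hlr h h' hh'
      have h2 := hd1 h
      have h3 := hd2 h'
      have h4 := hDl h'
      have h5 : (d h' : ℝ) * l h' ≤ (ηR * d h) * l h' := by
        have := mul_le_mul_of_nonneg_left h1 (hdR h).le
        nlinarith
      exact le_of_mul_le_mul_right h5 (by linarith [hl1 h'])
    · have h1 : Real.log (L1 F) ≤ (∑ h, (d h : ℝ)) * Real.log C2 := by
        refine (Real.log_le_log (lt_of_lt_of_le one_pos (one_le_L1 hFZ hF0))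
          (hFL.trans hPL)).trans (le_of_eq ?_)
        rw [Real.log_pow]; push_cast; rfl
      have h2 : hh * l h ≤ Real.log ((-r h i1).den) := by
        rw [Rat.neg_den, Real.le_log_iff_exp_le (by exact_mod_cast (r h i1).den_pos)]
        exact hq h
      have h3 : ηR * hh * D ≤ ηR * d h * Real.log ((-r h i1).den) := by
        have := mul_le_mul_of_nonneg_left h2 (mul_nonneg hηR.le (hdR h).le)
        have := mul_le_mul_of_nonneg_left (hd1 h) (mul_nonneg hηR.le hhh.le)
        nlinarith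
      have h4 : ls * ((∑ h, (d h : ℝ)) * (Real.log C2 + 1)) ≤ ls * (ηR * hh * D) := by
        have := mul_le_mul_of_nonneg_right hsumd (by linarith : 0 ≤ Real.log C2 + 1)
        have := mul_le_mul_of_nonneg_right hls2 hD0.le
        nlinarith
      have h5 := le_of_mul_le_mul_left h4 (by linarith)
      nlinarith
  have hKO : coeff K (lin Z P) ∈ O :=
    lin_mem_cf hZO (fun K => by
      obtain ⟨z, hz⟩ := mem_Zr.1 (hPZ K)
      rw [← hz]; exact intCast_mem O z) K
  have hprod := hO _ hKO hK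
  -- upper bounds
  set a : ℝ := m / N - ε * m with hadef
  have hup : ∀ v, av v (coeff K (lin Z P)) ≤
      Real.exp ((∑ h, (d h : ℝ)) * Real.log C3 + D * (a * ∑ i, c v i + cm * (m - N * a) + cm)) := by
    intro v
    let σw : TT m × κ → ℝ := fun x => if x.2 = k0 then Real.exp (-cm * (D / d x.1)) else 1
    have hσ : ∀ x, 0 ≤ σw x := fun x => by
      simp only [σw]; split_ifs <;> positivity
    let w : TT m × κ → ℝ := fun x => (3 * N * C0) * Real.exp (c v x.2 * (D / d x.1))
    set Pv := lin (fun _ => M v) P with hPvdef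
    have e1 : lin Z P = lin (W v) Pv := by
      rw [hPvdef, lin_lin]; simp only [hMW]
    have h1 : nrm (av v) σw (lin Z P) ≤ nrm (av v) w Pv := by
      rw [e1]
      refine nrm_lin_le hσ _ _ (fun x => ?_)
      have h2 : ∀ I, av v (W v x.1 x.2 I) * σw (x.1, I) ≤
          3 * C0 * Real.exp (c v x.2 * (D / d x.1)) := by
        intro I
        have hx := Real.exp_pos (c v x.2 * (D / d x.1))
        by_cases hI : I = k0
        · subst hI
          simp only [σw, if_true]
          have h3 : Real.exp (-cm * (D / d x.1)) ≤ Real.exp (c v x.2 * (D / d x.1)) := by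
            refine Real.exp_le_exp.2 (mul_le_mul_of_nonneg_right ?_ (by have := hdR x.1; positivity))
            linarith [(abs_le.1 (hcm v x.2)).1]
          have h4 := mul_le_mul (hWk v x.1 x.2) h3 (Real.exp_pos _).le (by linarith)
          nlinarith
        · simp only [σw, if_neg hI, mul_one]
          refine (hW v x.1 x.2 I hI).trans ?_
          have h3 : c v x.2 * l x.1 ≤ 1 + c v x.2 * (D / d x.1) := by
            have h4 : 0 ≤ l x.1 - D / d x.1 := by
              rw [sub_nonneg, div_le_iff₀ (hdR x.1)]; linarith [hd1 x.1]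
            have h5 : (l x.1 - D / d x.1) * d x.1 ≤ l x.1 := by
              rw [sub_mul, div_mul_cancel₀ _ (hdR x.1).ne']; linarith [hd2 x.1]
            have h6 : cm * (l x.1 - D / d x.1) ≤ 1 := by
              have h7 : cm * (l x.1 - D / d x.1) * (d x.1 * l x.1) ≤ 1 * (d x.1 * l x.1) := by
                have h8 := mul_le_mul_of_nonneg_left h5
                  (mul_nonneg (by linarith : 0 ≤ cm) (by linarith [hl1 x.1] : 0 ≤ l x.1))
                have := hD x.1
                have := hd1 x.1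
                nlinarith
              exact le_of_mul_le_mul_right h7 (mul_pos (hdR x.1) (by linarith [hl1 x.1]))
            have h9 := mul_le_mul_of_nonneg_right (abs_le.1 (hcm v x.2)).2 h4
            nlinarith
          have h10 : Real.exp (c v x.2 * l x.1) ≤ 3 * Real.exp (c v x.2 * (D / d x.1)) := by
            refine (Real.exp_le_exp.2 h3).trans ?_
            rw [Real.exp_add]
            have := Real.exp_one_lt_d9
            nlinarith
          nlinarith
      refine (Finset.sum_le_sum (fun I _ => h2 I)).trans (le_of_eq ?_)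
      rw [Finset.sum_const, Finset.card_univ, nsmul_eq_mul]
      simp only [w]; ring
    have hPvd : MH d Pv := hPd.lin _
    have h2 : nrm (av v) w Pv ≤ (3 * N * C0) ^ (∑ h, d h) *
        Real.exp (D * (a * ∑ i, c v i + cm * (m - N * a))) * nrm (av v) (fun _ => 1) Pv := by
      unfold nrm
      rw [Finset.mul_sum]
      refine Finset.sum_le_sum (fun J hJ => ?_)
      rw [mw_one, mul_one, mul_comm]
      refine mul_le_mul_of_nonneg_right ?_ ((av v).nonneg _)
      have hJ' := mem_support_iff.1 hJ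
      have e2 : mw w J = (3 * N * C0) ^ (∑ h, d h) *
          Real.exp (D * ∑ i, c v i * ∑ h, (J (h, i) : ℝ) / d h) := by
        rw [← hPvd.mw_const hJ', mw_eq_prod, mw_eq_prod]
        simp only [w, mul_pow, Finset.prod_mul_distrib, ← Real.exp_nat_mul, ← Real.exp_sum]
        congr 2
        rw [Fintype.sum_prod_type, Finset.sum_comm, Finset.mul_sum]
        refine Finset.sum_congr rfl (fun i _ => ?_)
        rw [Finset.mul_sum, Finset.mul_sum]
        exact Finset.sum_congr rfl (fun h _ => by ring)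
      rw [e2]
      refine mul_le_mul_of_nonneg_left (Real.exp_le_exp.2
        (mul_le_mul_of_nonneg_left ?_ hD0.le)) (by positivity)
      refine exponent_le (c v) _ (fun i => (abs_le.1 (hcm v i)).2) (hPv v J hJ') ?_
      rw [Finset.sum_comm]
      have : ∀ h, ∑ i, (J (h, i) : ℝ) / d h = 1 := by
        intro h
        rw [← Finset.sum_div, div_eq_one_iff_eq (hdR h).ne']
        exact_mod_cast hPvd J hJ' h
      simp [this, card_TT]
    have h3 : nrm (av v) (fun _ => 1) Pv ≤ (C1 * C2) ^ (∑ h, d h) := by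
      refine (nrm_lin_le (w := fun _ => C1) (fun _ => zero_le_one) _ _ (fun x => ?_)).trans ?_
      · refine le_trans (Finset.sum_le_sum (fun I _ => ?_)) (hMC v x.2)
        rw [mul_one]; exact abs_le_vinf _ (hM _ _ _)
      · rw [hPd.nrm_const, mul_pow]
        exact mul_le_mul_of_nonneg_left ((nrm_le_L1 _ hPZ).trans hPL) (by positivity)
    have h4 : Real.exp (-(cm * D)) ≤ mw σw K := by
      have e3 : mw σw K = Real.exp (-cm * D * ∑ h, (K (h, k0) : ℝ) / d h) := by
        rw [mw_eq_prod, Fintype.prod_prod_type, Finset.mul_sum, Real.exp_sum]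
        refine Finset.prod_congr rfl (fun h _ => ?_)
        rw [Finset.prod_eq_single k0]
        · simp only [σw, if_true, ← Real.exp_nat_mul]; congr 1; ring
        · intro b _ hb; simp [σw, hb]
        · simp
      rw [e3]
      refine Real.exp_le_exp.2 ?_
      have : 0 < cm * D := by positivity
      nlinarith
    have h5 := coeff_le_nrm (v := av v) hσ (lin Z P) K
    have h6 : av v (coeff K (lin Z P)) * Real.exp (-(cm * D)) ≤
        C3 ^ (∑ h, d h) * Real.exp (D * (a * ∑ i, c v i + cm * (m - N * a))) := by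
      refine (mul_le_mul_of_nonneg_left h4 ((av v).nonneg _)).trans (h5.trans (h1.trans
        (h2.trans ?_)))
      refine (mul_le_mul_of_nonneg_left h3 (by positivity)).trans (le_of_eq ?_)
      rw [hC3def, mul_pow (3 * N * C0)]; ring
    have e4 : C3 ^ (∑ h, d h) = Real.exp ((∑ h, (d h : ℝ)) * Real.log C3) := by
      rw [← Nat.cast_sum, Real.exp_nat_mul, Real.exp_log (by linarith)]
    rw [e4, ← Real.exp_add, Real.exp_neg, mul_inv_le_iff₀ (Real.exp_pos _), ← Real.exp_add] at h6
    refine h6.trans (le_of_eq ?_)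
    congr 1; ring
  have h7 : ∏ v, av v (coeff K (lin Z P)) ≤ ∏ v,
      Real.exp ((∑ h, (d h : ℝ)) * Real.log C3 + D * (a * ∑ i, c v i + cm * (m - N * a) + cm)) :=
    Finset.prod_le_prod (fun v _ => (av v).nonneg _) (fun v _ => hup v)
  rw [← Real.exp_sum] at h7
  have h8 := Real.one_le_exp_iff.1 (hprod.trans h7)
  have e5 : ∑ v, ((∑ h, (d h : ℝ)) * Real.log C3 + D * (a * ∑ i, c v i + cm * (m - N * a) + cm))
      = Fintype.card V * ((∑ h, (d h : ℝ)) * Real.log C3 + D * (cm * (m - N * a) + cm))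
        - D * a * δ := by
    rw [hδdef]
    simp only [mul_add, Finset.sum_add_distrib, Finset.sum_const, Finset.card_univ, nsmul_eq_mul,
      ← Finset.mul_sum]
    ring
  rw [e5] at h8
  have hNa : m - N * a = N * ε * m := by
    rw [hadef]; field_simp; ring
  have ha : m ≤ 2 * N * a := by
    have : 2 * N * a = 2 * m - ε * (2 * N) * m := by rw [hadef]; field_simp
    nlinarith
  rw [hNa] at h8
  have hX : 0 ≤ (∑ h, (d h : ℝ)) * Real.log C3 + D * (cm * (N * ε * m) + cm) := by
    have : 0 ≤ ∑ h, (d h : ℝ) := Finset.sum_nonneg (fun _ _ => by positivity)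
    positivity
  have h9 := mul_le_mul_of_nonneg_right hS' hX
  -- each term is at most `δ m D / (8 N)`
  have t1 : 8 * N * (S * ((∑ h, (d h : ℝ)) * Real.log C3)) ≤ δ * m * D := by
    have h10 : ls * (8 * N * (S * ((∑ h, (d h : ℝ)) * Real.log C3))) ≤ ls * (δ * m * D) := by
      have a1 := mul_le_mul_of_nonneg_right hsumd
        (by positivity : 0 ≤ 8 * N * S * Real.log C3)
      have a2 := mul_le_mul_of_nonneg_right hls1 (by positivity : 0 ≤ m * D)
      nlinarith
    exact le_of_mul_le_mul_left h10 (by linarith)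
  have t2 : 8 * N * (S * (D * (cm * (N * ε * m)))) ≤ δ * m * D := by
    have := mul_le_mul_of_nonneg_right hε2 (by positivity : 0 ≤ m * D)
    nlinarith
  have t3 : 8 * N * (S * (D * cm)) ≤ δ * m * D := by
    have := mul_le_mul_of_nonneg_right hm1 hD0.le
    nlinarith
  have t4 : 4 * (δ * m * D) ≤ 8 * N * (D * a * δ) := by
    have := mul_le_mul_of_nonneg_right ha (by positivity : 0 ≤ 4 * δ * D)
    nlinarith
  have t5 : 0 < δ * m * D := by positivity
  have t6 : 8 * N * (D * a * δ) ≤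
      8 * N * (S * ((∑ h, (d h : ℝ)) * Real.log C3 + D * (cm * (N * ε * m) + cm))) :=
    mul_le_mul_of_nonneg_left (by linarith) (by positivity)
  nlinarith

end

end Pool.Agent.Shared.Subspace
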