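import Pool.Agent.Shared.SubspaceCore

/-!
The hyperplane (penultimate minimum) case of the parametric Subspace Theorem, along an ultrafilter.
-/

set_option autoImplicit false

namespace Pool.Agent.Shared.Subspace

open Finset Filter

noncomputable section

/-- `f j ≤ exp ((c + o(1)) * l j)` along `U` -/
def SB {ι : Type*} (U : Filter ι) (l : ι → ℝ) (f : ι → ℝ) (c : ℝ) : Prop :=
  ∀ ε : ℝ, 0 < ε → ∀ᶠ j in U, f j ≤ Real.exp ((c + ε) * l j)

section SBlemmas

variable {ι : Type*} {U : Filter ι} {l : ι → ℝ} {f g : ι → ℝ} {c c' : ℝ}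

lemma SB.of_le (hg : SB U l g c) (h : ∀ᶠ j in U, f j ≤ g j) : SB U l f c := fun ε hε => by
  filter_upwards [hg ε hε, h] with j h1 h2 using h2.trans h1

lemma SB.mono (hl : Tendsto l U atTop) (hf : SB U l f c) (h : c ≤ c') : SB U l f c' :=
  fun ε hε => by
  filter_upwards [hf ε hε, hl.eventually_ge_atTop 0] with j h1 h2
  exact h1.trans (Real.exp_le_exp.2 (mul_le_mul_of_nonneg_right (by linarith) h2))

lemma SB.of_forall (hf : ∀ ε : ℝ, 0 < ε → SB U l f (c + ε)) : SB U l f c := fun ε hε => by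
  have := hf (ε / 2) (by positivity) (ε / 2) (by positivity)
  rwa [add_assoc, add_halves] at this

lemma SB_const (hl : Tendsto l U atTop) (C : ℝ) : SB U l (fun _ => C) 0 := fun ε hε => by
  have h1 : Tendsto (fun j => Real.exp ((0 + ε) * l j)) U atTop :=
    Real.tendsto_exp_atTop.comp (hl.const_mul_atTop (by linarith))
  exact h1.eventually_ge_atTop C

lemma SB_exp (hl : Tendsto l U atTop) (c : ℝ) : SB U l (fun j => Real.exp (c * l j)) c :=
  fun ε hε => by
  filter_upwards [hl.eventually_ge_atTop 0] with j h2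
  exact Real.exp_le_exp.2 (mul_le_mul_of_nonneg_right (by linarith) h2)

lemma SB.mul (hf : SB U l f c) (hg : SB U l g c') (h0 : ∀ᶠ j in U, 0 ≤ g j) :
    SB U l (fun j => f j * g j) (c + c') := fun ε hε => by
  filter_upwards [hf (ε / 2) (by positivity), hg (ε / 2) (by positivity), h0] with j h1 h2 h3
  refine (mul_le_mul h1 h2 h3 (Real.exp_pos _).le).trans (le_of_eq ?_)
  rw [← Real.exp_add]; congr 1; ring

lemma SB.const_mul (hl : Tendsto l U atTop) (hf : SB U l f c) (h0 : ∀ᶠ j in U, 0 ≤ f j) (C : ℝ) :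
    SB U l (fun j => C * f j) c := by
  simpa using (SB_const hl C).mul hf h0

lemma SB.add (hl : Tendsto l U atTop) (hf : SB U l f c) (hg : SB U l g c) :
    SB U l (fun j => f j + g j) c := fun ε hε => by
  filter_upwards [hf (ε / 2) (by positivity), hg (ε / 2) (by positivity),
    SB_const hl 2 (ε / 2) (by positivity)] with j h1 h2 h3
  have e : Real.exp ((c + ε) * l j) = Real.exp ((0 + ε / 2) * l j) * Real.exp ((c + ε / 2) * l j) := by
    rw [← Real.exp_add]; congr 1; ring
  rw [e]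
  have := Real.exp_pos ((c + ε / 2) * l j)
  nlinarith

lemma SB_zero : SB U l (fun _ => 0) c := fun _ _ => Eventually.of_forall (fun _ => (Real.exp_pos _).le)

lemma SB.sum (hl : Tendsto l U atTop) {α : Type*} (s : Finset α) {F : α → ι → ℝ}
    (h : ∀ a ∈ s, SB U l (F a) c) : SB U l (fun j => ∑ a ∈ s, F a j) c := by
  classical
  induction s using Finset.induction_on with
  | empty => simpa using SB_zero
  | insert a s ha ih =>
    simp only [Finset.sum_insert ha]
    exact (h a (Finset.mem_insert_self _ _)).add hl (ih (fun b hb => h b (Finset.mem_insert_of_mem hb)))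

lemma SB.prod (hl : Tendsto l U atTop) {α : Type*} (s : Finset α) {F : α → ι → ℝ} {e : α → ℝ}
    (h : ∀ a ∈ s, SB U l (F a) (e a)) (h0 : ∀ a ∈ s, ∀ᶠ j in U, 0 ≤ F a j) :
    SB U l (fun j => ∏ a ∈ s, F a j) (∑ a ∈ s, e a) := by
  classical
  induction s using Finset.induction_on with
  | empty => simpa using SB_const hl 1
  | insert a s ha ih =>
    simp only [Finset.sum_insert ha, Finset.prod_insert ha]
    refine (h a (Finset.mem_insert_self _ _)).mul
      (ih (fun b hb => h b (Finset.mem_insert_of_mem hb))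
        (fun b hb => h0 b (Finset.mem_insert_of_mem hb))) ?_
    have := (Filter.eventually_all_finset s).2 (fun b hb => h0 b (Finset.mem_insert_of_mem hb))
    filter_upwards [this] with j hj using Finset.prod_nonneg hj

lemma SB.pow (hl : Tendsto l U atTop) (hf : SB U l f c) (h0 : ∀ᶠ j in U, 0 ≤ f j) (n : ℕ) :
    SB U l (fun j => f j ^ n) (n * c) := by
  simpa using SB.prod hl (Finset.range n) (F := fun _ => f) (e := fun _ => c) (fun _ _ => hf)
    (fun _ _ => h0)

lemma SB.lt_one (hl : Tendsto l U atTop) (hf : SB U l f c) (hc : c < 0) : ∀ᶠ j in U, f j < 1 := by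
  filter_upwards [hf (-c / 2) (by linarith), hl.eventually_gt_atTop 0] with j h1 h2
  refine h1.trans_lt ?_
  rw [Real.exp_lt_one_iff]
  nlinarith

lemma SB.nonneg_of_one_le [U.NeBot] (hl : Tendsto l U atTop) (hf : SB U l f c)
    (h : ∀ᶠ j in U, 1 ≤ f j) : 0 ≤ c := by
  by_contra hc
  push Not at hc
  obtain ⟨j, h1, h2⟩ := ((hf.lt_one hl hc).and h).exists
  linarith

end SBlemmas

lemma ultra_exists {ι α : Type*} [Finite α] (U : Ultrafilter ι) {p : ι → α → Prop}
    (h : ∀ᶠ j in (U : Filter ι), ∃ a, p j a) : ∃ a, ∀ᶠ j in (U : Filter ι), p j a := by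
  by_contra hc
  push Not at hc
  have h1 : ∀ a, ∀ᶠ j in (U : Filter ι), ¬ p j a := hc
  obtain ⟨j, ⟨a, ha⟩, h2⟩ := (h.and (Filter.eventually_all.2 h1)).exists
  exact h2 a ha

lemma av_det_le {n : Type*} [Fintype n] [DecidableEq n] (v : AbsoluteValue ℚ ℝ)
    (A : Matrix n n ℚ) : v A.det ≤ ∑ p : Equiv.Perm n, ∏ i, v (A (p i) i) := by
  rw [Matrix.det_apply]
  refine (v.sum_le _ _).trans (Finset.sum_le_sum (fun p _ => le_of_eq ?_))
  rw [← map_prod]
  rcases Int.units_eq_one_or (Equiv.Perm.sign p) with h | h <;> rw [h] <;> simp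

lemma exists_den {α : Type*} [Finite α] (x : α → ℚ) : ∃ D : ℕ, 0 < D ∧ ∀ a, (D : ℚ) * x a ∈ Zr := by
  classical
  have := Fintype.ofFinite α
  refine ⟨∏ a, (x a).den, Finset.prod_pos (fun a _ => (x a).den_pos), fun a => ?_⟩
  rw [← Finset.prod_erase_mul _ _ (Finset.mem_univ a), Nat.cast_mul, mul_assoc, Rat.den_mul_eq_num]
  exact Zr.mul_mem (natCast_mem Zr _) (intCast_mem_Zr _)

lemma exists_chain {ι : Type*} {U : Filter ι} [U.NeBot] {l : ι → ℝ} (hl : Tendsto l U atTop)
    {p : ι → Prop} (hp : ∀ᶠ j in U, p j) {η : ℝ} (hη : 0 < η) : ∀ m, ∃ js : TT m → ι,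
      (∀ h, p (js h)) ∧ ∀ h h', rkT m h < rkT m h' → l (js h) ≤ η * l (js h')
  | 0 => ⟨fun e => e.elim, fun e => e.elim, fun e => e.elim⟩
  | m + 1 => by
    obtain ⟨js, h1, h2⟩ := exists_chain hl hp hη m
    obtain ⟨j, hj1, hj2⟩ := (hp.and (hl.eventually_ge_atTop ((∑ h, |l (js h)|) / η))).exists
    refine ⟨Sum.elim js (fun _ => j), ?_, ?_⟩
    · rintro (h | h)
      · exact h1 h
      · exact hj1
    · rintro (h | h) (h' | h') hh
      · exact h2 h h' hh
      · rw [div_le_iff₀ hη] at hj2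
        have : |l (js h)| ≤ ∑ h, |l (js h)| :=
          Finset.single_le_sum (f := fun h => |l (js h)|) (fun _ _ => abs_nonneg _)
            (Finset.mem_univ h)
        have h3 := le_abs_self (l (js h))
        simp only [Sum.elim_inl, Sum.elim_inr]
        linarith
      · exact absurd (lt_trans hh (rkT_lt m h')) (lt_irrefl _)
      · exact absurd hh (lt_irrefl _)

lemma one_le_av_mul {V : Type} [Fintype V] (av : V → AbsoluteValue ℚ ℝ) (O : Subring ℚ)
    (hO : ∀ x ∈ O, x ≠ 0 → 1 ≤ ∏ v, av v x) {x : ℚ} (hx : x ∈ Zr) (h0 : x ≠ 0) (v : V) :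
    1 ≤ av v x * vinf x ^ Fintype.card V := by
  classical
  have h1 := one_le_vinf hx h0
  have hxO : x ∈ O := by
    obtain ⟨z, rfl⟩ := mem_Zr.1 hx
    exact intCast_mem O z
  refine (hO x hxO h0).trans ?_
  rw [← Finset.mul_prod_erase _ _ (Finset.mem_univ v)]
  refine mul_le_mul_of_nonneg_left ?_ ((av v).nonneg _)
  calc ∏ w ∈ Finset.univ.erase v, av w x ≤ ∏ _w ∈ Finset.univ.erase v, vinf x :=
        Finset.prod_le_prod (fun _ _ => (av _).nonneg _) (fun _ _ => abs_le_vinf _ hx)
    _ = vinf x ^ (Finset.univ.erase v).card := by simp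
    _ ≤ _ := pow_le_pow_right₀ h1 (Finset.card_le_univ _)

section Hyper

variable {ι : Type*} {V κ : Type} [Fintype V] [Fintype κ] [DecidableEq κ]

lemma SB_adj {U : Filter ι} {l : ι → ℝ} (hl : Tendsto l U atTop) (v : AbsoluteValue ℚ ℝ) (k0 : κ)
    (W : ι → Matrix κ κ ℚ) (c : κ → ℝ)
    (hW : ∀ i I, I ≠ k0 → SB U l (fun j => v (W j i I)) (c i)) (i : κ) :
    SB U l (fun j => v ((W j).adjugate k0 i)) (∑ i', c i' - c i) := by
  simp only [Matrix.adjugate_apply]
  refine SB.of_le ?_ (Eventually.of_forall (fun j => av_det_le v _))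
  refine SB.sum hl _ (fun p _ => ?_)
  by_cases hp : p k0 = i
  · have h1 := SB.prod hl Finset.univ
      (F := fun I j => v (((W j).updateRow i (Pi.single k0 1)) (p I) I))
      (e := fun I => if I = k0 then 0 else c (p I)) (fun I _ => by
        by_cases hI : I = k0
        · subst hI
          simpa [hp] using SB_const hl 1
        · have : p I ≠ i := fun h => hI (p.injective (h.trans hp.symm))
          simpa [hI, Matrix.updateRow_ne this] using hW (p I) I hI)
      (fun _ _ => Eventually.of_forall (fun _ => v.nonneg _))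
    refine h1.mono hl (le_of_eq ?_)
    rw [← Equiv.sum_comp p c, ← Finset.add_sum_erase _ _ (Finset.mem_univ k0),
      ← Finset.add_sum_erase _ (fun x => c (p x)) (Finset.mem_univ k0), hp, if_pos rfl]
    rw [Finset.sum_congr rfl (fun x hx => if_neg (Finset.ne_of_mem_erase hx))]
    ring
  · refine SB_zero.of_le (Eventually.of_forall (fun j => le_of_eq ?_))
    refine Finset.prod_eq_zero (Finset.mem_univ (p.symm i)) ?_
    have : p.symm i ≠ k0 := fun h => hp (by rw [← h]; simp)
    simp [this]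

theorem hyper_large (U : Ultrafilter ι) {l : ι → ℝ} (hl : Tendsto l U atTop)
    (av : V → AbsoluteValue ℚ ℝ) (O : Subring ℚ) (hO : ∀ x ∈ O, x ≠ 0 → 1 ≤ ∏ v, av v x)
    (k0 : κ) (M : V → Matrix κ κ ℚ) (hM : ∀ v, (M v).det ≠ 0) (c : V → κ → ℝ)
    (hc : ∑ v, ∑ i, c v i < 0) (Z : ι → Matrix κ κ ℚ) (W : V → ι → Matrix κ κ ℚ)
    (hMW : ∀ v j, M v * W v j = Z j) (hZO : ∀ᶠ j in (U : Filter ι), ∀ i I, Z j i I ∈ O)
    (hW : ∀ v i I, I ≠ k0 → SB U l (fun j => av v (W v j i I)) (c v i))
    (i0 i1 : κ) (hi0 : ∀ᶠ j in (U : Filter ι), (Z j).adjugate k0 i0 ≠ 0) {hh : ℝ} (hhh : 0 < hh)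
    (hi1 : ∀ᶠ j in (U : Filter ι),
      Real.exp (hh * l j) < ((Z j).adjugate k0 i1 / (Z j).adjugate k0 i0).den) : False := by
  classical
  have hi : i1 ≠ i0 := by
    rintro rfl
    obtain ⟨j, h1, h2, h3⟩ := (hi0.and (hi1.and (hl.eventually_ge_atTop 0))).exists
    rw [div_self h1] at h2
    have := mul_nonneg hhh.le h3
    simp at h2
    linarith
  obtain ⟨D0, hD0, hD0Z⟩ := exists_den (fun x : V × κ × κ => M x.1 x.2.1 x.2.2)
  have hD0' : (D0 : ℚ) ≠ 0 := by exact_mod_cast hD0.ne'
  set M' : V → Matrix κ κ ℚ := fun v => (D0 : ℚ) • M v with hM'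
  have hM'u : ∀ v, IsUnit (M' v).det := by
    intro v
    rw [hM', Matrix.det_smul]
    exact (mul_ne_zero (pow_ne_zero _ hD0') (hM v)).isUnit
  set ε : ℝ := (-∑ v, ∑ i, c v i) / (2 * (Fintype.card V * Fintype.card κ + 1)) with hε
  have hε0 : 0 < ε := div_pos (by linarith) (by positivity)
  have hc' : ∑ v, ∑ i, (c v i + ε) < 0 := by
    simp only [Finset.sum_add_distrib, Finset.sum_const, Finset.card_univ, nsmul_eq_mul]
    have h1 : ε * (2 * (Fintype.card V * Fintype.card κ + 1)) = -∑ v, ∑ i, c v i := by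
      rw [hε]; field_simp
    nlinarith
  set C0 : ℝ := 1 + ∑ v, av v (D0 : ℚ)⁻¹ + ∑ v, ∑ i, av v ((M' v)⁻¹ i i0) with hC0
  have p1 : 0 ≤ ∑ v, av v (D0 : ℚ)⁻¹ := Finset.sum_nonneg (fun _ _ => (av _).nonneg _)
  have p2 : 0 ≤ ∑ v, ∑ i, av v ((M' v)⁻¹ i i0) :=
    Finset.sum_nonneg (fun _ _ => Finset.sum_nonneg (fun _ _ => (av _).nonneg _))
  have hC1 : ∀ v, av v (D0 : ℚ)⁻¹ ≤ C0 := by
    intro v
    have := Finset.single_le_sum (f := fun v => av v (D0 : ℚ)⁻¹) (fun _ _ => (av _).nonneg _)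
      (Finset.mem_univ v)
    linarith
  have hC2 : ∀ v i, av v ((M' v)⁻¹ i i0) ≤ C0 := by
    intro v i
    have a1 := Finset.single_le_sum (f := fun i => av v ((M' v)⁻¹ i i0))
      (fun _ _ => (av _).nonneg _) (Finset.mem_univ i)
    have a2 := Finset.single_le_sum (f := fun v => ∑ i, av v ((M' v)⁻¹ i i0))
      (fun _ _ => Finset.sum_nonneg (fun _ _ => (av _).nonneg _)) (Finset.mem_univ v)
    linarith
  obtain ⟨m, η, ls, hη, H⟩ := core av O hO (k0 := k0) hi M' (fun v i j => hD0Z (v, i, j))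
    (C0 := C0) (by linarith) (fun v i => c v i + ε) hc' hhh
  have hWe : ∀ᶠ j in (U : Filter ι), ∀ x : V × κ × κ, x.2.2 ≠ k0 →
      av x.1 (W x.1 j x.2.1 x.2.2) ≤ Real.exp ((c x.1 x.2.1 + ε) * l j) := by
    refine Filter.eventually_all.2 (fun x => ?_)
    by_cases hx : x.2.2 = k0
    · simp [hx]
    · filter_upwards [hW x.1 x.2.1 x.2.2 hx ε hε0] with j hj _ using hj
  obtain ⟨js, hjs, hch⟩ := exists_chain hl
    (hZO.and (hi0.and (hi1.and (hWe.and (hl.eventually_ge_atTop ls))))) hη m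
  set Z' : TT m → Matrix κ κ ℚ := fun h => (Z (js h)).updateCol k0 (Pi.single i0 1) with hZ'
  refine H (fun h => l (js h)) Z' (fun v h => (M' v)⁻¹ * Z' h)
    (fun h i => (Z (js h)).adjugate k0 i / (Z (js h)).adjugate k0 i0)
    (fun h => (hjs h).2.2.2.2) hch (fun v h => ?_) (fun h => ?_) (fun h i I => ?_) (fun h => ?_)
    (fun h => div_self (hjs h).2.1) (fun v h i I hI => ?_) (fun v h i => ?_)
    (fun h => (hjs h).2.2.1.le)
  · rw [← Matrix.mul_assoc, Matrix.mul_nonsing_inv _ (hM'u v), Matrix.one_mul]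
  · rw [hZ']
    simp only
    rw [← Matrix.cramer_apply, Matrix.cramer_eq_adjugate_mulVec]
    simpa using (hjs h).2.1
  · rw [hZ']
    simp only [Matrix.updateCol_apply]
    split_ifs
    · rw [Pi.single_apply]
      split_ifs
      · exact O.one_mem
      · exact O.zero_mem
    · exact (hjs h).1 i I
  · funext I
    simp only [Matrix.vecMul, dotProduct, hZ', Matrix.updateCol_apply]
    by_cases hI : I = k0
    · subst hI
      simp [Pi.single_apply, div_self (hjs h).2.1]
    · simp only [if_neg hI, Pi.single_apply, div_mul_eq_mul_div, ← Finset.sum_div]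
      have := congrFun (congrFun (Matrix.adjugate_mul (Z (js h))) k0) I
      rw [Matrix.mul_apply] at this
      rw [this]
      simp [Ne.symm hI]
  · have e1 : ((M' v)⁻¹ * Z' h) i I = (D0 : ℚ)⁻¹ * W v (js h) i I := by
      have e2 : ((M' v)⁻¹ * Z' h) i I = ((M' v)⁻¹ * Z (js h)) i I := by
        simp [Matrix.mul_apply, hZ', hI]
      have e3 : Z (js h) = M' v * ((D0 : ℚ)⁻¹ • W v (js h)) := by
        rw [hM', Matrix.smul_mul, Matrix.mul_smul, smul_smul, mul_inv_cancel₀ hD0', one_smul, hMW]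
      rw [e2, e3, ← Matrix.mul_assoc, Matrix.nonsing_inv_mul _ (hM'u v), Matrix.one_mul]
      simp
    rw [e1, map_mul]
    exact mul_le_mul (hC1 v) ((hjs h).2.2.2.1 (v, i, I) hI) ((av v).nonneg _) (by linarith)
  · have e1 : ((M' v)⁻¹ * Z' h) i k0 = (M' v)⁻¹ i i0 := by
      simp [Matrix.mul_apply, hZ', Pi.single_apply]
    rw [e1]; exact hC2 v i

/-- The hyperplane theorem. -/
theorem hyper (U : Ultrafilter ι) {l : ι → ℝ} (hl : Tendsto l U atTop)
    (av : V → AbsoluteValue ℚ ℝ) (O : Subring ℚ) (hO : ∀ x ∈ O, x ≠ 0 → 1 ≤ ∏ v, av v x)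
    (k0 : κ) (M : V → Matrix κ κ ℚ) (hM : ∀ v, (M v).det ≠ 0) (c : V → κ → ℝ)
    (hc : ∑ v, ∑ i, c v i < 0) (Z : ι → Matrix κ κ ℚ) (W : V → ι → Matrix κ κ ℚ)
    (hMW : ∀ v j, M v * W v j = Z j) (hZ : ∀ᶠ j in (U : Filter ι), (Z j).det ≠ 0)
    (hZO : ∀ᶠ j in (U : Filter ι), ∀ i I, Z j i I ∈ O)
    (hW : ∀ v i I, I ≠ k0 → SB U l (fun j => av v (W v j i I)) (c v i)) :
    ∃ y : κ → ℚ, y ≠ 0 ∧ ∀ᶠ j in (U : Filter ι), ∀ I, I ≠ k0 → ∑ i, y i * Z j i I = 0 := by
  classical
  have : Nonempty κ := ⟨k0⟩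
  set y : ι → κ → ℚ := fun j i => (Z j).adjugate k0 i with hy
  have hy0 : ∀ j, (Z j).det ≠ 0 → y j ≠ 0 := by
    intro j hj h0
    have := congrFun (congrFun (Matrix.adjugate_mul (Z j)) k0) k0
    rw [Matrix.mul_apply] at this
    have h1 : ∀ i, (Z j).adjugate k0 i = 0 := fun i => congrFun h0 i
    simp [h1] at this
    exact hj this.symm
  have hyO : ∀ j, (∀ i I, Z j i I ∈ O) → ∀ i, y j i ∈ O := by
    intro j hj i
    simp only [hy]
    rw [Matrix.adjugate_apply]
    refine det_mem_subring _ _ (fun a b => ?_)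
    rw [Matrix.updateRow_apply]
    split_ifs
    · rw [Pi.single_apply]
      split_ifs
      · exact O.one_mem
      · exact O.zero_mem
    · exact hj a b
  obtain ⟨i0, hi0⟩ := ultra_exists U (p := fun j i0 => ∀ i, |y j i| ≤ |y j i0|)
    (Eventually.of_forall (fun j => by
      obtain ⟨i, _, hi⟩ := Finset.exists_max_image Finset.univ (fun i => |y j i|) Finset.univ_nonempty
      exact ⟨i, fun i' => hi i' (Finset.mem_univ _)⟩))
  have hi0' : ∀ᶠ j in (U : Filter ι), y j i0 ≠ 0 := by
    filter_upwards [hi0, hZ] with j h1 h2 h3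
    apply hy0 j h2
    funext i
    have := h1 i
    rw [h3, abs_zero] at this
    exact abs_nonpos_iff.1 this
  set δ : ℝ := -∑ v, ∑ i, c v i with hδdef
  have hδ : 0 < δ := by linarith
  set S : ℕ := Fintype.card V with hS
  set N : ℕ := Fintype.card κ with hN
  set hh : ℝ := δ / (2 * (S * ((S + 1) * N) + 1)) with hhdef
  have hhh : 0 < hh := by positivity
  have hA : ∀ᶠ j in (U : Filter ι), ∀ i, ((y j i / y j i0).den : ℝ) ≤ Real.exp (hh * l j) := by
    refine Filter.eventually_all.2 (fun i1 => ?_)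
    by_contra hcon
    rw [← Ultrafilter.eventually_not] at hcon
    exact hyper_large U hl av O hO k0 M hM c hc Z W hMW hZO hW i0 i1 hi0' hhh
      (hcon.mono (fun j hj => not_le.1 hj))
  set u : V → ι → κ → ℚ := fun v j => Matrix.vecMul (y j) (M v) with hu
  have hu1 : ∀ v j i, u v j i = (M v).det * (W v j).adjugate k0 i := by
    intro v j i
    have e1 : (Z j).adjugate * M v = (M v).det • (W v j).adjugate := by
      rw [← hMW v j, Matrix.adjugate_mul_distrib, Matrix.mul_assoc, Matrix.adjugate_mul,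
        Matrix.mul_smul, Matrix.mul_one]
    have := congrFun (congrFun e1 k0) i
    rw [Matrix.mul_apply] at this
    simpa [hu, hy, Matrix.vecMul, dotProduct] using this
  have hu2 : ∀ v i, SB U l (fun j => av v (u v j i)) (∑ i', c v i' - c v i) := by
    intro v i
    have := (SB_adj hl (av v) k0 (W v) (c v) (hW v) i).const_mul hl
      (Eventually.of_forall (fun _ => (av v).nonneg _)) (av v (M v).det)
    simpa [hu1] using this
  set II : V → Finset κ := fun v => Finset.univ.filter (fun i => ∀ᶠ j in (U : Filter ι), u v j i ≠ 0)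
    with hII
  have hpat : ∀ᶠ j in (U : Filter ι), ∀ v i, i ∉ II v → u v j i = 0 := by
    refine Filter.eventually_all.2 (fun v => Filter.eventually_all.2 (fun i => ?_))
    by_cases h : i ∈ II v
    · simp [h]
    · have h1 : ¬ ∀ᶠ j in (U : Filter ι), u v j i ≠ 0 := by simpa [hII] using h
      rw [← Ultrafilter.eventually_not] at h1
      filter_upwards [h1] with j hj _ using not_not.1 hj
  have hne : ∀ v, (II v).Nonempty := by
    intro v
    obtain ⟨j, h1, h2⟩ := (hpat.and hZ).exists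
    by_contra hcon
    rw [Finset.not_nonempty_iff_eq_empty] at hcon
    have h3 : Matrix.vecMul (y j) (M v) = 0 := by
      funext i; exact h1 v i (by simp [hcon])
    exact hy0 j h2 (Matrix.eq_zero_of_vecMul_eq_zero (hM v) h3)
  choose iv hiv hivmax using fun v => Finset.exists_max_image (II v) (c v) (hne v)
  obtain ⟨D0, hD0, hD0Z⟩ := exists_den (fun x : V × κ × κ => M x.1 x.2.1 x.2.2)
  set Dn : ι → ℕ := fun j => ∏ i, (y j i / y j i0).den with hDn
  have hDnS : SB U l (fun j => (Dn j : ℝ)) (N * hh) := by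
    refine (SB_exp hl (N * hh)).of_le ?_
    filter_upwards [hA] with j hj
    rw [hDn]
    push_cast
    refine (Finset.prod_le_prod (fun _ _ => by positivity) (fun i _ => hj i)).trans (le_of_eq ?_)
    rw [Finset.prod_const, Finset.card_univ, ← Real.exp_nat_mul, mul_assoc]
  have hs : ∀ v, SB U l (fun j => av v (y j i0)) (∑ i', c v i' - c v (iv v) + (S + 1) * (N * hh)) := by
    intro v
    set C : ℝ := ∑ k, vinf (D0 * M v k (iv v)) with hC
    have hC0 : 0 ≤ C := Finset.sum_nonneg (fun _ _ => vinf.nonneg _)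
    have h1 := ((hu2 v (iv v)).mul (hDnS.pow hl (Eventually.of_forall (fun _ => by positivity)) (S + 1))
      (Eventually.of_forall (fun _ => by positivity))).const_mul hl
      (Eventually.of_forall (fun _ => by have := (av v).nonneg (u v ‹_› (iv v)); positivity))
      (D0 * C ^ S)
    push_cast at h1
    refine h1.of_le ?_
    have h2 : ∀ᶠ j in (U : Filter ι), u v j (iv v) ≠ 0 := by
      simpa [hII] using hiv v
    filter_upwards [h2, hi0, hi0'] with j hj1 hj2 hj3
    have hDn0 : (0 : ℚ) < Dn j := by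
      have : 0 < Dn j := Finset.prod_pos (fun i _ => Rat.den_pos _)
      exact_mod_cast this
    set ω : ℚ := ∑ k, (Dn j * (y j k / y j i0)) * (D0 * M v k (iv v)) with hω
    have hyZ : ∀ k, (Dn j : ℚ) * (y j k / y j i0) ∈ Zr := by
      intro k
      simp only [hDn]
      rw [← Finset.prod_erase_mul _ _ (Finset.mem_univ k), Nat.cast_mul, mul_assoc,
        Rat.den_mul_eq_num]
      exact Zr.mul_mem (natCast_mem Zr _) (intCast_mem_Zr _)
    have hωZ : ω ∈ Zr := Zr.sum_mem (fun k _ => Zr.mul_mem (hyZ k) (hD0Z (v, k, iv v)))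
    have hωe : y j i0 * ω = (Dn j * D0 : ℕ) * u v j (iv v) := by
      simp only [hω, hu, Matrix.vecMul, dotProduct, Finset.mul_sum]
      refine Finset.sum_congr rfl (fun k _ => ?_)
      push_cast
      field_simp
    have hω0 : ω ≠ 0 := by
      intro h
      rw [h, mul_zero] at hωe
      refine (mul_ne_zero ?_ hj1) hωe.symm
      push_cast
      exact mul_ne_zero hDn0.ne' (by exact_mod_cast hD0.ne')
    have hωb : vinf ω ≤ Dn j * C := by
      rw [hω, hC, Finset.mul_sum]
      refine (vinf.sum_le _ _).trans (Finset.sum_le_sum (fun k _ => ?_))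
      rw [map_mul]
      refine mul_le_mul_of_nonneg_right ?_ (vinf.nonneg _)
      rw [map_mul, vinf_apply, vinf_apply, Rat.cast_natCast, Nat.abs_cast]
      refine mul_le_of_le_one_right (by positivity) ?_
      have : |y j k / y j i0| ≤ 1 := by
        rw [abs_div, div_le_one (abs_pos.2 hj3)]; exact hj2 k
      exact_mod_cast this
    have h3 := one_le_av_mul av O hO hωZ hω0 v
    have h4 : av v (y j i0) * av v ω ≤ (Dn j * D0) * av v (u v j (iv v)) := by
      rw [← map_mul, hωe, map_mul]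
      refine mul_le_mul_of_nonneg_right ?_ ((av v).nonneg _)
      refine (abs_le_vinf _ (natCast_mem Zr _)).trans (le_of_eq ?_)
      rw [vinf_apply, Rat.cast_natCast, Nat.abs_cast]; push_cast; ring
    have h5 : vinf ω ^ S ≤ (Dn j * C) ^ S := pow_le_pow_left₀ (vinf.nonneg _) hωb _
    calc av v (y j i0) ≤ av v (y j i0) * (av v ω * vinf ω ^ S) :=
          le_mul_of_one_le_right ((av v).nonneg _) h3
      _ = (av v (y j i0) * av v ω) * vinf ω ^ S := by ring
      _ ≤ ((Dn j * D0) * av v (u v j (iv v))) * (Dn j * C) ^ S :=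
          mul_le_mul h4 h5 (pow_nonneg (vinf.nonneg _) _)
            (by have := (av v).nonneg (u v j (iv v)); positivity)
      _ = _ := by rw [mul_pow]; ring
  have hsum := (SB.prod hl Finset.univ (fun v _ => hs v)
    (fun v _ => Eventually.of_forall (fun _ => (av v).nonneg _))).nonneg_of_one_le hl (by
      filter_upwards [hZO, hi0'] with j h1 h2 using hO _ (hyO j h1 i0) h2)
  have hneg : ∑ v, c v (iv v) < 0 := by
    simp only [Finset.sum_add_distrib, Finset.sum_sub_distrib, Finset.sum_const, Finset.card_univ,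
      nsmul_eq_mul] at hsum
    have h1 : hh * (2 * (S * ((S + 1) * N) + 1)) = δ := by rw [hhdef]; field_simp
    rw [← hS] at hsum
    nlinarith
  obtain ⟨j0, hj1, hj2, hj3⟩ := (hpat.and (hZ.and hZO)).exists
  refine ⟨y j0, hy0 j0 hj2, Filter.eventually_all.2 (fun I => ?_)⟩
  by_cases hI : I = k0
  · simp [hI]
  have h1 : ∀ v, SB U l (fun j => av v (∑ i, y j0 i * Z j i I)) (c v (iv v)) := by
    intro v
    have e1 : ∀ j, ∑ i, y j0 i * Z j i I = ∑ i ∈ II v, u v j0 i * W v j i I := by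
      intro j
      have e2 : ∑ i, y j0 i * Z j i I = ∑ i, u v j0 i * W v j i I := by
        have := congrFun (Matrix.vecMul_vecMul (y j0) (M v) (W v j)) I
        rw [hMW] at this
        exact this.symm
      rw [e2]
      refine (Finset.sum_subset (Finset.subset_univ _) (fun i _ hi => ?_)).symm
      rw [hj1 v i hi, zero_mul]
    refine SB.of_le (g := fun j => ∑ i ∈ II v, av v (u v j0 i) * av v (W v j i I)) ?_
      (Eventually.of_forall (fun j => by
        rw [e1]
        refine ((av v).sum_le _ _).trans (le_of_eq ?_)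
        simp))
    refine SB.sum hl _ (fun i hi => ?_)
    exact ((hW v i I hI).const_mul hl (Eventually.of_forall (fun _ => (av v).nonneg _)) _).mono hl
      (hivmax v i hi)
  have h2 := (SB.prod hl Finset.univ (fun v _ => h1 v)
    (fun v _ => Eventually.of_forall (fun _ => (av v).nonneg _))).lt_one hl hneg
  filter_upwards [h2, hZO] with j a1 a2 _
  by_contra hne
  have := hO _ (O.sum_mem (fun i _ => O.mul_mem (hyO j0 hj3 i) (a2 i I))) hne
  linarith

end Hyper

end

end Pool.Agent.Shared.Subspace
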