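import Mathlib

/-!
A reduced basis of a rational lattice (a combination of Minkowski's second theorem and
Davenport's lemma, with constants depending only on the dimension).
-/

set_option autoImplicit false

namespace Pool.Agent.Shared.Subspace

open Finset

variable {ι : Type} [Fintype ι] [DecidableEq ι]

omit [DecidableEq ι] in
lemma exists_shortest (Λ : AddSubgroup (ι → ℚ)) (D : ℕ) (hD : 0 < D)
    (hΛ : ∀ x ∈ Λ, ∀ i, ∃ z : ℤ, (D : ℚ) * x i = z) (hne : ∃ x ∈ Λ, x ≠ 0) :
    ∃ x ∈ Λ, ∃ i0, x i0 ≠ 0 ∧ (∀ i, |x i| ≤ |x i0|) ∧ ∀ y ∈ Λ, y ≠ 0 → ∃ i, |x i0| ≤ |y i| := by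
  classical
  have hD' : (0 : ℚ) < D := by exact_mod_cast hD
  have hex : ∃ n : ℕ, ∃ x ∈ Λ, x ≠ 0 ∧ ∀ i, (D : ℚ) * |x i| ≤ n := by
    obtain ⟨x, hx, hx0⟩ := hne
    obtain ⟨n, hn⟩ := exists_nat_ge ((D : ℚ) * ∑ i, |x i|)
    refine ⟨n, x, hx, hx0, fun i => le_trans ?_ hn⟩
    exact mul_le_mul_of_nonneg_left (Finset.single_le_sum (f := fun i => |x i|)
      (fun _ _ => abs_nonneg _) (Finset.mem_univ i)) hD'.le
  obtain ⟨x, hx, hx0, hxn⟩ := Nat.find_spec hex
  obtain ⟨i1, hi1⟩ := Function.ne_iff.1 hx0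
  obtain ⟨i0, -, hi0⟩ := Finset.exists_max_image Finset.univ (fun i => |x i|) ⟨i1, Finset.mem_univ _⟩
  have hpos : 0 < |x i0| := lt_of_lt_of_le (abs_pos.2 hi1) (hi0 i1 (Finset.mem_univ _))
  refine ⟨x, hx, i0, abs_pos.1 hpos, fun i => hi0 i (Finset.mem_univ _), fun y hy hy0 => ?_⟩
  by_contra hc
  push Not at hc
  have hn0 : 0 < Nat.find hex := by
    have h1 := hxn i0
    have : (0 : ℚ) < Nat.find hex := lt_of_lt_of_le (mul_pos hD' hpos) h1
    exact_mod_cast this
  refine Nat.find_min hex (m := Nat.find hex - 1) (by omega) ⟨y, hy, hy0, fun i => ?_⟩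
  obtain ⟨z, hz⟩ := hΛ y hy i
  have h1 : (D : ℚ) * |y i| = |z| := by
    rw [← abs_of_pos hD', ← abs_mul, hz]; simp
  have h2 : (D : ℚ) * |y i| < Nat.find hex :=
    lt_of_lt_of_le (mul_lt_mul_of_pos_left (hc i) hD') (hxn i0)
  rw [h1] at h2 ⊢
  have h3 : |z| < (Nat.find hex : ℤ) := by exact_mod_cast h2
  have h4 : |z| ≤ ((Nat.find hex - 1 : ℕ) : ℤ) := by omega
  exact_mod_cast h4

theorem reduce_aux (n : ℕ) : ∀ (s : Finset ι), s.card = n → ∀ (Λ : AddSubgroup (ι → ℚ)) (D : ℕ),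
    0 < D → (∀ x ∈ Λ, ∀ i, ∃ z : ℤ, (D : ℚ) * x i = z) → (∀ x ∈ Λ, ∀ i, i ∉ s → x i = 0) →
    ∃ (m : ℕ) (h : Fin m → ι → ℚ) (π : Fin m → ι) (d : Fin m → ℚ),
      (∀ j, h j ∈ Λ) ∧ (∀ x ∈ Λ, ∃ a : Fin m → ℤ, x = ∑ j, (a j : ℚ) • h j) ∧
      Function.Injective π ∧ (∀ j, π j ∈ s) ∧ (∀ j, 0 < d j) ∧
      (∀ j i, |h j i| ≤ 2 ^ m * d j) ∧ (∀ j i, |h j (π i)| ≤ 2 ^ m * d i) ∧
      |(Matrix.of fun j i => h j (π i)).det| = ∏ j, d j ∧
      ∀ r : ℚ, (∀ x ∈ Λ, x ≠ 0 → ∃ i, r ≤ |x i|) → ∀ j, r ≤ 2 ^ m * d j := by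
  induction n with
  | zero =>
    intro s hs Λ D _ _ h0
    refine ⟨0, Fin.elim0, Fin.elim0, Fin.elim0, fun j => j.elim0, fun x hx => ⟨Fin.elim0, ?_⟩,
      fun j => j.elim0, fun j => j.elim0, fun j => j.elim0, fun j => j.elim0, fun j => j.elim0,
      by simp, fun _ _ j => j.elim0⟩
    funext i
    simpa using h0 x hx i (by simp [Finset.card_eq_zero.1 hs])
  | succ n ih =>
    intro s hs Λ D hD hΛ h0
    by_cases hne : ∃ x ∈ Λ, x ≠ 0
    swap
    · push Not at hne
      exact ⟨0, Fin.elim0, Fin.elim0, Fin.elim0, fun j => j.elim0,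
        fun x hx => ⟨Fin.elim0, by simpa using hne x hx⟩,
        fun j => j.elim0, fun j => j.elim0, fun j => j.elim0, fun j => j.elim0, fun j => j.elim0,
        by simp, fun _ _ j => j.elim0⟩
    obtain ⟨x0, hx0, i0, hi0, hmax, hshort⟩ := exists_shortest Λ D hD hΛ hne
    have hi0s : i0 ∈ s := by
      by_contra hc; exact hi0 (h0 x0 hx0 i0 hc)
    let P : (ι → ℚ) →+ (ι → ℚ) :=
      { toFun := fun x => x - (x i0 / x0 i0) • x0
        map_zero' := by simp
        map_add' := fun x y => by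
          simp only [Pi.add_apply, add_div, add_smul]; abel }
    have hP : ∀ x, P x = x - (x i0 / x0 i0) • x0 := fun _ => rfl
    have hPi0 : ∀ x, P x i0 = 0 := by
      intro x; rw [hP]; simp [hi0]
    obtain ⟨z0, hz0⟩ := hΛ x0 hx0 i0
    have hD' : (D : ℚ) ≠ 0 := by exact_mod_cast hD.ne'
    have hz00 : z0 ≠ 0 := by
      rintro rfl
      exact (mul_ne_zero hD' hi0) (by simpa using hz0)
    have lift : ∀ w ∈ Λ.map P, ∃ y ∈ Λ, ∃ θ : ℚ, |θ| ≤ 1 / 2 ∧ y = w + θ • x0 := by
      rintro _ ⟨y, hy, rfl⟩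
      refine ⟨y - (round (y i0 / x0 i0)) • x0, Λ.sub_mem hy (Λ.zsmul_mem hx0 _),
        y i0 / x0 i0 - round (y i0 / x0 i0), abs_sub_round _, ?_⟩
      rw [hP, sub_smul, ← Int.cast_smul_eq_zsmul ℚ]; abel
    obtain ⟨m, h', π', d', h1, h2, h3, h4, h5, h6, h7, h8, h9⟩ :=
      ih (s.erase i0) (by rw [Finset.card_erase_of_mem hi0s, hs]; rfl) (Λ.map P)
        (D * z0.natAbs) (Nat.mul_pos hD (Int.natAbs_pos.2 hz00))
        (by
          rintro _ ⟨y, hy, rfl⟩ i
          obtain ⟨z1, hz1⟩ := hΛ y hy i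
          obtain ⟨z2, hz2⟩ := hΛ y hy i0
          obtain ⟨z3, hz3⟩ := hΛ x0 hx0 i
          refine ⟨z0.sign * (z0 * z1 - z2 * z3), ?_⟩
          have e1 : ((z0.natAbs : ℕ) : ℚ) = z0.sign * z0 := by
            have := congrArg (Int.cast : ℤ → ℚ) (Int.sign_mul_self_eq_natAbs z0)
            rw [Int.cast_mul, Int.cast_natCast] at this
            exact this.symm
          rw [hP]
          push_cast
          rw [e1, ← hz0, ← hz1, ← hz2, ← hz3]
          simp only [Pi.sub_apply, Pi.smul_apply, smul_eq_mul]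
          field_simp)
        (by
          rintro _ ⟨y, hy, rfl⟩ i hi
          by_cases hii : i = i0
          · rw [hii]; exact hPi0 y
          · have : i ∉ s := fun h => hi (Finset.mem_erase.2 ⟨hii, h⟩)
            rw [hP]; simp [h0 y hy i this, h0 x0 hx0 i this])
    choose y hy θ hθ hyθ using fun j => lift (h' j) (h1 j)
    have hh0 : ∀ j, h' j i0 = 0 := by
      intro j
      obtain ⟨w, _, hw⟩ := h1 j
      rw [← hw]; exact hPi0 w
    have hd0 : 0 < |x0 i0| := abs_pos.2 hi0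
    have hd0' : ∀ j, |x0 i0| ≤ 2 ^ (m + 1) * d' j := by
      intro j
      have := h9 (|x0 i0| / 2) (fun w hw hw0 => by
        obtain ⟨u, hu, θ, hθ, huθ⟩ := lift w hw
        have hu0 : u ≠ 0 := by
          intro h
          have h10 := congrFun huθ i0
          obtain ⟨w', _, hw'⟩ := hw
          rw [h, Pi.add_apply, ← hw', hPi0] at h10
          have h11 : θ = 0 := by simpa [hi0] using h10
          rw [h, h11] at huθ
          exact hw0 (by simpa using huθ.symm)
        obtain ⟨i, hi⟩ := hshort u hu hu0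
        refine ⟨i, ?_⟩
        have h12 : |u i| ≤ |w i| + |θ| * |x0 i| := by
          rw [huθ, Pi.add_apply, Pi.smul_apply, smul_eq_mul, ← abs_mul]
          exact abs_add_le _ _
        have h13 : |θ| * |x0 i| ≤ 1 / 2 * |x0 i0| :=
          mul_le_mul hθ (hmax i) (abs_nonneg _) (by norm_num)
        linarith) j
      rw [pow_succ]; linarith
    have hyb : ∀ j i, |y j i| ≤ |h' j i| + |x0 i0| / 2 := by
      intro j i
      have h12 : |y j i| ≤ |h' j i| + |θ j| * |x0 i| := by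
        rw [hyθ, Pi.add_apply, Pi.smul_apply, smul_eq_mul, ← abs_mul]
        exact abs_add_le _ _
      have h13 : |θ j| * |x0 i| ≤ 1 / 2 * |x0 i0| :=
        mul_le_mul (hθ j) (hmax i) (abs_nonneg _) (by norm_num)
      linarith
    have h2m : (1 : ℚ) ≤ 2 ^ (m + 1) := one_le_pow₀ (by norm_num)
    refine ⟨m + 1, Fin.cons x0 y, Fin.cons i0 π', Fin.cons |x0 i0| d', ?_, ?_, ?_, ?_, ?_, ?_, ?_,
      ?_, ?_⟩
    · intro j
      refine Fin.cases ?_ (fun j => ?_) j
      · exact hx0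
      · exact hy j
    · intro x hx
      obtain ⟨a, ha⟩ := h2 (P x) ⟨x, hx, rfl⟩
      set t : ℚ := x i0 / x0 i0 - ∑ j, a j * θ j with ht
      have e1 : x - ∑ j, (a j : ℚ) • y j = t • x0 := by
        have e2 : x = P x + (x i0 / x0 i0) • x0 := by rw [hP]; abel
        rw [ht, sub_smul, Finset.sum_smul]
        simp only [hyθ, smul_add, Finset.sum_add_distrib, smul_smul, ← ha]
        rw [hP]; abel
      have e3 : t • x0 ∈ Λ := by
        rw [← e1]
        refine Λ.sub_mem hx (Λ.sum_mem (fun j _ => ?_))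
        rw [Int.cast_smul_eq_zsmul]
        exact Λ.zsmul_mem (hy j) _
      have e4 : t = round t := by
        by_contra hc
        have h10 : (t - round t) • x0 ∈ Λ := by
          rw [sub_smul, Int.cast_smul_eq_zsmul]
          exact Λ.sub_mem e3 (Λ.zsmul_mem hx0 _)
        obtain ⟨i, hi⟩ := hshort _ h10 (smul_ne_zero (sub_ne_zero.2 hc) (fun h => hi0 (by simp [h])))
        rw [Pi.smul_apply, smul_eq_mul, abs_mul] at hi
        have h13 : |t - round t| * |x0 i| ≤ 1 / 2 * |x0 i0| :=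
          mul_le_mul (abs_sub_round t) (hmax i) (abs_nonneg _) (by norm_num)
        linarith
      refine ⟨Fin.cons (round t) a, ?_⟩
      rw [Fin.sum_univ_succ]
      simp only [Fin.cons_zero, Fin.cons_succ]
      rw [← e4, ← e1]; abel
    · rw [Fin.cons_injective_iff]
      refine ⟨?_, h3⟩
      rintro ⟨j, hj⟩
      exact (Finset.mem_erase.1 (h4 j)).1 hj
    · intro j
      refine Fin.cases ?_ (fun j => ?_) j
      · exact hi0s
      · exact Finset.mem_of_mem_erase (h4 j)
    · intro j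
      refine Fin.cases ?_ (fun j => ?_) j
      · exact hd0
      · exact h5 j
    · intro j i
      refine Fin.cases ?_ (fun j => ?_) j
      · simp only [Fin.cons_zero]
        have := hmax i
        nlinarith
      · simp only [Fin.cons_succ]
        have := hyb j i
        have := h6 j i
        have := hd0' j
        rw [pow_succ] at *
        linarith
    · intro j i
      refine Fin.cases ?_ (fun j => ?_) j <;> refine Fin.cases ?_ (fun i => ?_) i
      · simp only [Fin.cons_zero]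
        nlinarith
      · simp only [Fin.cons_zero, Fin.cons_succ]
        exact (hmax _).trans (hd0' i)
      · simp only [Fin.cons_zero, Fin.cons_succ]
        have := hyb j i0
        rw [hh0, abs_zero] at this
        nlinarith
      · simp only [Fin.cons_succ]
        have := hyb j (π' i)
        have := h7 j i
        have := hd0' i
        rw [pow_succ] at *
        linarith
    · have e1 : (Matrix.of fun (j i : Fin (m + 1)) =>
          (Fin.cons x0 y : Fin (m + 1) → ι → ℚ) j ((Fin.cons i0 π' : Fin (m + 1) → ι) i)).det =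
          (Matrix.of fun (j i : Fin (m + 1)) =>
          (Fin.cons x0 h' : Fin (m + 1) → ι → ℚ) j ((Fin.cons i0 π' : Fin (m + 1) → ι) i)).det := by
        refine Matrix.det_eq_of_forall_row_eq_smul_add_const (Fin.cons 0 θ) 0 (by simp)
          (fun j i => ?_)
        refine Fin.cases ?_ (fun j => ?_) j
        · simp
        · simp [hyθ]
      rw [e1, Matrix.det_succ_column_zero, Fin.sum_univ_succ, Fin.prod_univ_succ]
      simp only [Matrix.of_apply, Fin.cons_zero, Fin.cons_succ, hh0, mul_zero, zero_mul,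
        Finset.sum_const_zero, add_zero, Fin.val_zero, pow_zero, one_mul, abs_mul]
      rw [← h8]
      congr 2
    · intro r hr j
      obtain ⟨i, hi⟩ := hr x0 hx0 (fun h => hi0 (by simp [h]))
      have h10 : r ≤ |x0 i0| := hi.trans (hmax i)
      refine Fin.cases ?_ (fun j => ?_) j
      · simp only [Fin.cons_zero]
        nlinarith
      · simp only [Fin.cons_succ]
        exact h10.trans (hd0' j)

/-- reduced basis of a full rank lattice -/
theorem reduce (Λ : AddSubgroup (ι → ℚ)) (D : ℕ) (hD : 0 < D)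
    (hΛ : ∀ x ∈ Λ, ∀ i, ∃ z : ℤ, (D : ℚ) * x i = z)
    (hfull : ∃ y : ι → ι → ℚ, (∀ j, y j ∈ Λ) ∧ (Matrix.of y).det ≠ 0) :
    ∃ (h : ι → ι → ℚ) (d : ι → ℚ), (∀ j, h j ∈ Λ) ∧
      (∀ x ∈ Λ, ∃ a : ι → ℤ, x = ∑ j, (a j : ℚ) • h j) ∧ (∀ j, 0 < d j) ∧
      (∀ j i, |h j i| ≤ 2 ^ Fintype.card ι * d j) ∧ (∀ j i, |h j i| ≤ 2 ^ Fintype.card ι * d i) ∧
      |(Matrix.of h).det| = ∏ j, d j := by
  obtain ⟨m, h, π, d, h1, h2, h3, -, h5, h6, h7, h8, -⟩ :=
    reduce_aux _ Finset.univ rfl Λ D hD hΛ (fun x _ i hi => absurd (Finset.mem_univ i) hi)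
  obtain ⟨y, hy, hdet⟩ := hfull
  have hm1 : m ≤ Fintype.card ι := by simpa using Fintype.card_le_of_injective π h3
  have hm2 : Fintype.card ι ≤ m := by
    choose a ha using fun j => h2 (y j) (hy j)
    have e : Matrix.of y = (Matrix.of fun j k => (a j k : ℚ)) * Matrix.of h := by
      ext j i
      rw [Matrix.mul_apply, Matrix.of_apply, ha j, Finset.sum_apply]
      simp
    have r1 : (Matrix.of y).rank = Fintype.card ι :=
      Matrix.rank_of_isUnit _ ((Matrix.isUnit_iff_isUnit_det _).2 hdet.isUnit)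
    have r2 := Matrix.rank_mul_le_left (Matrix.of fun j k => (a j k : ℚ)) (Matrix.of h)
    have r3 := Matrix.rank_le_card_width (Matrix.of fun j k => (a j k : ℚ))
    rw [← e, r1] at r2
    simpa using r2.trans r3
  have hm : m = Fintype.card ι := le_antisymm hm1 hm2
  have hb : Function.Bijective π :=
    (Fintype.bijective_iff_injective_and_card π).2 ⟨h3, by simp [hm]⟩
  let e := Equiv.ofBijective π hb
  refine ⟨fun j => h (e.symm j), fun j => d (e.symm j), fun j => h1 _, fun x hx => ?_,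
    fun j => h5 _, fun j i => hm ▸ h6 _ _, fun j i => ?_, ?_⟩
  · obtain ⟨a, ha⟩ := h2 x hx
    refine ⟨fun j => a (e.symm j), ?_⟩
    rw [ha]
    exact (Equiv.sum_comp e.symm (fun j => (a j : ℚ) • h j)).symm
  · have := h7 (e.symm j) (e.symm i)
    rw [show π (e.symm i) = i from e.apply_symm_apply i] at this
    exact hm ▸ this
  · rw [Equiv.prod_comp e.symm d, ← h8, ← Matrix.det_submatrix_equiv_self e]
    congr 2
    ext j i
    simp [e]

end Pool.Agent.Shared.Subspace
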