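import Pool.Agent.Shared.SubspacePlaces

/-!
The parametric `p`-adic Subspace Theorem over the rationals (linear forms with rational
coefficients), stated along an ultrafilter.
-/

set_option autoImplicit false

namespace Pool.Agent.Shared.Subspace

open Finset Filter

noncomputable section

section Compound

variable {n : ℕ} (p : ℕ)

/-- increasing enumeration of a `p`-subset -/
def enum (J : Set.powersetCard (Fin n) p) : Fin p → Fin n :=
  Set.powersetCard.ofFinEmbEquiv.symm J

lemma enum_inj (J : Set.powersetCard (Fin n) p) : Function.Injective (enum p J) :=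
  (Set.powersetCard.ofFinEmbEquiv.symm J).injective

lemma enum_mem (J : Set.powersetCard (Fin n) p) (a : Fin p) : enum p J a ∈ J.1 :=
  (Set.powersetCard.mem_range_ofFinEmbEquiv_symm_iff_mem J _).1 ⟨a, rfl⟩

lemma exists_enum {J : Set.powersetCard (Fin n) p} {i : Fin n} (h : i ∈ J.1) :
    ∃ a, enum p J a = i :=
  (Set.powersetCard.mem_range_ofFinEmbEquiv_symm_iff_mem J _).2 h

lemma sum_enum (J : Set.powersetCard (Fin n) p) (f : Fin n → ℝ) :
    ∑ a, f (enum p J a) = ∑ i ∈ J.1, f i := by
  refine Finset.sum_nbij (enum p J) (fun a _ => enum_mem p J a) (enum_inj p J).injOn ?_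
    (fun _ _ => rfl)
  intro i hi
  obtain ⟨a, ha⟩ := exists_enum p hi
  exact ⟨a, by simp, ha⟩

/-- compound matrix -/
def cpd (A : Matrix (Fin n) (Fin n) ℚ) :
    Matrix (Set.powersetCard (Fin n) p) (Set.powersetCard (Fin n) p) ℚ :=
  Matrix.of fun J I => (Matrix.of fun a b => A (enum p J b) (enum p I a)).det

open Classical in
lemma cpd_eq (A : Matrix (Fin n) (Fin n) ℚ) : cpd p A =
    LinearMap.toMatrix ((Pi.basisFun ℚ (Fin n)).exteriorPower p)
      ((Pi.basisFun ℚ (Fin n)).exteriorPower p) (exteriorPower.map p (Matrix.toLin' A)) := by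
  ext J I
  rw [LinearMap.toMatrix_apply, exteriorPower.basis_apply, exteriorPower.ιMulti_family,
    exteriorPower.map_apply_ιMulti, exteriorPower.basis_repr_apply,
    exteriorPower.ιMultiDual_apply_ιMulti, cpd, Matrix.of_apply]
  congr 1
  ext a b
  simp [enum]

open Classical in
lemma cpd_mul (A B : Matrix (Fin n) (Fin n) ℚ) : cpd p (A * B) = cpd p A * cpd p B := by
  rw [cpd_eq, cpd_eq, cpd_eq, Matrix.toLin'_mul, exteriorPower.map_comp,
    LinearMap.toMatrix_comp _ ((Pi.basisFun ℚ (Fin n)).exteriorPower p)]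

open Classical in
lemma cpd_one : cpd p (1 : Matrix (Fin n) (Fin n) ℚ) = 1 := by
  rw [cpd_eq, Matrix.toLin'_one, exteriorPower.map_id, LinearMap.toMatrix_id]

open Classical in
lemma cpd_det_ne_zero {A : Matrix (Fin n) (Fin n) ℚ} (h : A.det ≠ 0) : (cpd p A).det ≠ 0 := by
  have h1 : cpd p A * cpd p A⁻¹ = 1 := by
    rw [← cpd_mul, Matrix.mul_nonsing_inv _ h.isUnit, cpd_one]
  exact (Matrix.isUnit_det_of_right_inverse h1).ne_zero

lemma sum_subsets_nonpos (f : Fin n → ℝ) (hf : ∑ i, f i ≤ 0) :
    ∑ J : Set.powersetCard (Fin n) p, ∑ i ∈ J.1, f i ≤ 0 := by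
  classical
  let cnt : Fin n → ℕ := fun i =>
    (Finset.univ.filter (fun J : Set.powersetCard (Fin n) p => i ∈ J.1)).card
  have h1 : ∀ i i', cnt i = cnt i' := by
    intro i i'
    refine Finset.card_nbij' (fun J => Set.powersetCard.map p (Equiv.swap i i').toEmbedding J)
      (fun J => Set.powersetCard.map p (Equiv.swap i i').toEmbedding J) ?_ ?_ ?_ ?_
    · intro J hJ
      simp only [Finset.coe_filter, Finset.mem_univ, true_and, Set.mem_ofPred_eq,
        Set.powersetCard.val_map, Finset.mem_map_equiv] at hJ ⊢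
      simpa using hJ
    · intro J hJ
      simp only [Finset.coe_filter, Finset.mem_univ, true_and, Set.mem_ofPred_eq,
        Set.powersetCard.val_map, Finset.mem_map_equiv] at hJ ⊢
      simpa using hJ
    · intro J _
      ext x
      simp [Set.powersetCard.val_map]
    · intro J _
      ext x
      simp [Set.powersetCard.val_map]
  have h2 : ∑ J : Set.powersetCard (Fin n) p, ∑ i ∈ J.1, f i = ∑ i, cnt i * f i := by
    have : ∀ J : Set.powersetCard (Fin n) p, ∑ i ∈ J.1, f i = ∑ i, if i ∈ J.1 then f i else 0 := by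
      intro J; simp
    rw [Finset.sum_congr rfl (fun J _ => this J), Finset.sum_comm]
    refine Finset.sum_congr rfl (fun i _ => ?_)
    rw [← Finset.sum_filter, Finset.sum_const, nsmul_eq_mul]
  rw [h2]
  rcases Nat.eq_zero_or_pos n with rfl | hn
  · simp
  · rw [Finset.sum_congr rfl (fun i _ => by rw [h1 i ⟨0, hn⟩]), ← Finset.mul_sum]
    exact mul_nonpos_of_nonneg_of_nonpos (by positivity) hf

/-- a fixed hyperplane in the compound space gives a fixed hyperplane -/
lemma exists_functional (I0 : Set.powersetCard (Fin n) p) (a0 : Fin p)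
    (y : Set.powersetCard (Fin n) p → ℚ) (hy : y ≠ 0) :
    ∃ φ : (Fin n → ℚ) →ₗ[ℚ] ℚ, φ ≠ 0 ∧ ∀ (H : Matrix (Fin n) (Fin n) ℚ) (a : Fin n → ℚ),
      H.det ≠ 0 → (∀ I, I ≠ I0 → ∑ J, y J * cpd p H J I = 0) → (∀ l ∈ I0.1, a l = 0) →
      φ (H.mulVec a) = 0 := by
  classical
  obtain ⟨J0, hJ0⟩ := Function.ne_iff.1 hy
  let X0 : Matrix (Fin n) (Fin n) ℚ :=
    Matrix.of fun k l => if ∃ a, l = enum p I0 a ∧ k = enum p J0 a then 1 else 0
  have hX0 : ∀ J, cpd p X0 J I0 = (1 : Matrix _ _ ℚ) J J0 := by
    intro J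
    rw [← cpd_one p, cpd, cpd, Matrix.of_apply, Matrix.of_apply]
    congr 1
    ext a b
    simp only [Matrix.of_apply, X0, Matrix.one_apply, (enum_inj p I0).eq_iff]
    simp
  let B : Set.powersetCard (Fin n) p → Matrix (Fin p) (Fin p) ℚ :=
    fun J => Matrix.of fun a b => X0 (enum p J b) (enum p I0 a)
  let ψ : Set.powersetCard (Fin n) p → (Fin n → ℚ) →ₗ[ℚ] ℚ := fun J =>
    { toFun := fun u => ((B J).updateRow a0 (fun b => u (enum p J b))).det
      map_add' := fun u u' => Matrix.det_updateRow_add (B J) a0 (fun b => u (enum p J b))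
        (fun b => u' (enum p J b))
      map_smul' := fun c u => Matrix.det_updateRow_smul (B J) a0 c (fun b => u (enum p J b)) }
  have hψ : ∀ J u, ψ J u = cpd p (X0.updateCol (enum p I0 a0) u) J I0 := by
    intro J u
    simp only [ψ, LinearMap.coe_mk, AddHom.coe_mk, cpd, Matrix.of_apply]
    congr 1
    ext a b
    simp only [Matrix.updateRow_apply, Matrix.of_apply, Matrix.updateCol_apply, B,
      (enum_inj p I0).eq_iff]
  refine ⟨∑ J, y J • ψ J, fun h0 => hJ0 ?_, fun H a hH hy' ha => ?_⟩
  · have := congrArg (fun φ : (Fin n → ℚ) →ₗ[ℚ] ℚ => φ (fun k => X0 k (enum p I0 a0))) h0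
    simp only [LinearMap.sum_apply, LinearMap.smul_apply, hψ, Matrix.updateCol_eq_self, hX0,
      smul_eq_mul, LinearMap.zero_apply, Matrix.one_apply] at this
    simpa using this
  · simp only [LinearMap.sum_apply, LinearMap.smul_apply, hψ, smul_eq_mul]
    set X := X0.updateCol (enum p I0 a0) (H.mulVec a) with hX
    have e1 : X = H * (H⁻¹ * X) := by
      rw [← Matrix.mul_assoc, Matrix.mul_nonsing_inv _ hH.isUnit, Matrix.one_mul]
    have e2 : cpd p (H⁻¹ * X) I0 I0 = 0 := by
      rw [cpd, Matrix.of_apply]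
      refine Matrix.det_eq_zero_of_row_eq_zero a0 (fun b => ?_)
      have e3 : (H⁻¹ * X) (enum p I0 b) (enum p I0 a0) = H⁻¹.mulVec (H.mulVec a) (enum p I0 b) := by
        simp only [Matrix.mul_apply, hX, Matrix.updateCol_self]
        rfl
      rw [Matrix.of_apply, e3, Matrix.mulVec_mulVec, Matrix.nonsing_inv_mul _ hH.isUnit,
        Matrix.one_mulVec]
      exact ha _ (enum_mem p I0 b)
    rw [e1, cpd_mul]
    simp only [Matrix.mul_apply (M := cpd p H), Finset.mul_sum]
    rw [Finset.sum_comm]
    refine Finset.sum_eq_zero (fun I _ => ?_)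
    simp only [← mul_assoc, ← Finset.sum_mul]
    by_cases hI : I = I0
    · rw [hI, e2, mul_zero]
    · rw [hy' I hI, zero_mul]

end Compound

lemma exists_exponent {ι : Type*} (U : Ultrafilter ι) {l : ι → ℝ} (hl : Tendsto l U atTop)
    {d : ι → ℝ} (hd : ∀ j, 0 < d j) {A B : ℝ} (hA : SB U l d A) (hB : SB U l (fun j => (d j)⁻¹) B) :
    ∃ μ : ℝ, SB U l d μ ∧ SB U l (fun j => (d j)⁻¹) (-μ) := by
  have hbdd : BddBelow {c | SB (U : Filter ι) l d c} := by
    refine ⟨-B, fun c hc => ?_⟩
    have := (SB.mul hc hB (Eventually.of_forall (fun j => (inv_pos.2 (hd j)).le))).nonneg_of_one_le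
      hl (Eventually.of_forall (fun j => by rw [mul_inv_cancel₀ (hd j).ne']))
    linarith
  refine ⟨sInf {c | SB (U : Filter ι) l d c}, SB.of_forall (fun ε hε => ?_), SB.of_forall (fun ε hε => ?_)⟩
  · obtain ⟨c, hc, hc'⟩ := exists_lt_of_csInf_lt (s := {c | SB (U : Filter ι) l d c}) ⟨A, hA⟩
      (lt_add_of_pos_right _ hε)
    exact SB.mono hl hc hc'.le
  · have h1 : ¬ SB U l d (sInf {c | SB (U : Filter ι) l d c} - ε) := fun h => by
      have := csInf_le hbdd h
      linarith
    obtain ⟨ε', hε', h2⟩ : ∃ ε' : ℝ, 0 < ε' ∧ ¬ ∀ᶠ j in (U : Filter ι),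
        d j ≤ Real.exp ((sInf {c | SB (U : Filter ι) l d c} - ε + ε') * l j) := by
      by_contra hcon
      exact h1 (fun ε' hε' => by_contra (fun h => hcon ⟨ε', hε', h⟩))
    refine SB.mono hl ((SB_exp hl (-(sInf {c | SB (U : Filter ι) l d c} - ε + ε'))).of_le ?_) (by linarith)
    filter_upwards [Ultrafilter.eventually_not.2 h2] with j hj
    rw [neg_mul, Real.exp_neg]
    exact inv_anti₀ (Real.exp_pos _) (not_le.1 hj).le

/-- The parametric Subspace Theorem along an ultrafilter (explicit boxes). -/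
theorem subspace_box {ι : Type*} (U : Ultrafilter ι) {l : ι → ℝ} (hl : Tendsto l U atTop)
    {P : Type} [Fintype P] (F : PrimeFam P) {n : ℕ} (L : Option P → Matrix (Fin n) (Fin n) ℚ)
    (hL : ∀ v, (L v).det ≠ 0) (c : Option P → Fin n → ℝ) (hc : ∑ v, ∑ i, c v i < 0)
    (x : ι → Fin n → ℚ) (hxO : ∀ᶠ j in (U : Filter ι), ∀ k, x j k ∈ F.OS)
    (hx : ∀ᶠ j in (U : Filter ι), ∀ v i, F.av v ((L v).mulVec (x j) i) ≤ Real.exp (c v i * l j)) :
    ∃ φ : (Fin n → ℚ) →ₗ[ℚ] ℚ, φ ≠ 0 ∧ ∀ᶠ j in (U : Filter ι), φ (x j) = 0 := by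
  classical
  obtain ⟨C1, C2, C3, C4, HB⟩ := exists_basis F L hL
  choose H d hd hH hHO hLa hL1 hL2 hup hlow hrep using
    fun j => HB (fun v i => Real.exp (c v i * l j)) (fun _ _ => Real.exp_pos _)
  set δ : ℝ := -∑ v, ∑ i, c v i with hδdef
  have hδ : 0 < δ := by linarith
  have hββ : ∀ j, ∏ v, ∏ i, Real.exp (c v i * l j) = Real.exp (-δ * l j) := by
    intro j
    simp only [← Real.exp_sum, hδdef, neg_neg, Finset.sum_mul]
  simp only [hββ] at hup hlow
  set cm : ℝ := ∑ v, ∑ i, |c v i| with hcmdef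
  have hcm : ∀ v i, c v i ≤ cm := by
    intro v i
    have h1 : |c v i| ≤ ∑ i, |c v i| :=
      Finset.single_le_sum (f := fun i => |c v i|) (fun _ _ => abs_nonneg _) (Finset.mem_univ i)
    have h2 : ∑ i, |c v i| ≤ ∑ v, ∑ i, |c v i| :=
      Finset.single_le_sum (f := fun v => ∑ i, |c v i|)
        (fun _ _ => Finset.sum_nonneg (fun _ _ => abs_nonneg _)) (Finset.mem_univ v)
    linarith [le_abs_self (c v i)]
  have ev0 : ∀ {f : ι → ℝ}, (∀ j, 0 ≤ f j) → ∀ᶠ j in (U : Filter ι), 0 ≤ f j :=
    fun h => Eventually.of_forall h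
  -- lower bounds for the minima
  have hdinv : ∀ m, ∃ B, SB U l (fun j => (d j m)⁻¹) B := by
    intro m
    let β' : ι → Option P → Fin n → ℝ := fun j v i =>
      (match v with | none => C1 | some _ => 1) * Real.exp (c v i * l j)
    let g : ι → Option P → Fin n → ℝ := fun j v k => ∑ i, F.av v ((L v)⁻¹ k i) * |β' j v i|
    have hg0 : ∀ j v k, 0 ≤ g j v k := fun j v k =>
      Finset.sum_nonneg (fun i _ => mul_nonneg ((F.av v).nonneg _) (abs_nonneg _))
    have hg : ∀ v k, SB U l (fun j => g j v k) cm := by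
      intro v k
      refine SB.sum hl _ (fun i _ => SB.const_mul hl ?_ (ev0 (fun _ => abs_nonneg _)) _)
      simp only [β', abs_mul, Real.abs_exp]
      exact ((SB_exp hl _).mono hl (hcm v i)).const_mul hl (ev0 (fun _ => (Real.exp_pos _).le)) _
    refine ⟨∑ _v : Option P, cm, SB.of_le (g := fun j => ∑ k, ∏ v, g j v k)
      (SB.sum hl _ (fun k _ => SB.prod hl _ (fun v _ => hg v k)
        (fun v _ => ev0 (fun j => hg0 j v k)))) (Eventually.of_forall (fun j => ?_))⟩
    obtain ⟨k, hk⟩ : ∃ k, H j k m ≠ 0 := by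
      by_contra hcon
      push Not at hcon
      exact hH j (Matrix.det_eq_zero_of_column_eq_zero m hcon)
    have h1 := F.one_le_prod (hHO j k m) hk
    have h2 : ∀ v, F.av v (H j k m) ≤ ∑ i, F.av v ((L v)⁻¹ k i) * F.av v ((L v * H j) i m) := by
      intro v
      have e : H j k m = ∑ i, (L v)⁻¹ k i * (L v * H j) i m := by
        rw [← Matrix.mul_apply, ← Matrix.mul_assoc, Matrix.nonsing_inv_mul _ (hL v).isUnit,
          Matrix.one_mul]
      conv_lhs => rw [e]
      refine ((F.av v).sum_le _ _).trans (le_of_eq ?_)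
      simp
    have h3 : F.av none (H j k m) ≤ g j none k * d j m := by
      refine (h2 none).trans ?_
      simp only [g, Finset.sum_mul]
      refine Finset.sum_le_sum (fun i _ => ?_)
      rw [mul_assoc]
      refine mul_le_mul_of_nonneg_left ((hL1 j i m).trans ?_) ((F.av _).nonneg _)
      rw [← mul_assoc]
      exact mul_le_mul_of_nonneg_right (le_abs_self _) (hd j m).le
    have h4 : ∀ a, F.av (some a) (H j k m) ≤ g j (some a) k := by
      intro a
      refine (h2 _).trans (Finset.sum_le_sum (fun i _ => ?_))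
      refine mul_le_mul_of_nonneg_left ((hLa j a i m).trans ?_) ((F.av _).nonneg _)
      simp [β']
    have h5 : 1 ≤ (∏ v, g j v k) * d j m := by
      refine h1.trans ?_
      rw [Fintype.prod_option, Fintype.prod_option]
      have h6 : ∏ a, F.av (some a) (H j k m) ≤ ∏ a, g j (some a) k :=
        Finset.prod_le_prod (fun _ _ => (F.av _).nonneg _) (fun a _ => h4 a)
      refine (mul_le_mul h3 h6 (Finset.prod_nonneg (fun _ _ => (F.av _).nonneg _))
        (mul_nonneg (hg0 _ _ _) (hd j m).le)).trans (le_of_eq (by ring))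
    have h7 : (d j m)⁻¹ ≤ ∏ v, g j v k := by
      rw [inv_le_iff_one_le_mul₀ (hd j m)]; exact h5
    exact h7.trans (Finset.single_le_sum (f := fun k => ∏ v, g j v k)
      (fun k _ => Finset.prod_nonneg (fun v _ => hg0 j v k)) (Finset.mem_univ k))
  choose B hB using hdinv
  have hdup : ∀ m, ∃ A, SB U l (fun j => d j m) A := by
    intro m
    have h1 := ((SB_exp hl δ).mul (SB.prod hl (Finset.univ.erase m) (fun m' _ => hB m')
      (fun m' _ => ev0 (fun j => (inv_pos.2 (hd j m')).le)))
      (ev0 (fun j => Finset.prod_nonneg (fun m' _ => (inv_pos.2 (hd j m')).le)))).const_mul hl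
      (ev0 (fun j => mul_nonneg (Real.exp_pos _).le
        (Finset.prod_nonneg (fun m' _ => (inv_pos.2 (hd j m')).le)))) C2
    refine ⟨_, h1.of_le (Eventually.of_forall (fun j => ?_))⟩
    have h2 := hup j
    rw [← Finset.mul_prod_erase _ _ (Finset.mem_univ m), neg_mul, Real.exp_neg] at h2
    have h3 : 0 < ∏ m' ∈ Finset.univ.erase m, d j m' := Finset.prod_pos (fun m' _ => hd j m')
    have h4 := Real.exp_pos (δ * l j)
    rw [Finset.prod_inv_distrib]
    have h5 := mul_le_mul_of_nonneg_right h2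
      (mul_nonneg h4.le (inv_pos.2 h3).le)
    refine le_trans (le_of_eq ?_) h5
    field_simp
  have hμ : ∀ m, ∃ μ : ℝ, SB U l (fun j => d j m) μ ∧ SB U l (fun j => (d j m)⁻¹) (-μ) := by
    intro m
    obtain ⟨A, hA⟩ := hdup m
    exact exists_exponent U hl (fun j => hd j m) hA (hB m)
  choose μ hμ1 hμ2 using hμ
  have hsum1 : ∑ m, μ m ≤ δ := by
    have h1 := ((SB_exp hl δ).mul (SB.prod hl Finset.univ (fun m' _ => hμ2 m')
      (fun m' _ => ev0 (fun j => (inv_pos.2 (hd j m')).le)))
      (ev0 (fun j => Finset.prod_nonneg (fun m' _ => (inv_pos.2 (hd j m')).le)))).const_mul hl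
      (ev0 (fun j => mul_nonneg (Real.exp_pos _).le
        (Finset.prod_nonneg (fun m' _ => (inv_pos.2 (hd j m')).le)))) C2
    have h2 := h1.nonneg_of_one_le hl (Eventually.of_forall (fun j => by
      have h2 := hup j
      rw [neg_mul, Real.exp_neg] at h2
      have h3 : 0 < ∏ m', d j m' := Finset.prod_pos (fun m' _ => hd j m')
      have h4 := Real.exp_pos (δ * l j)
      rw [Finset.prod_inv_distrib]
      have h5 := mul_le_mul_of_nonneg_right h2 (mul_nonneg h4.le (inv_pos.2 h3).le)
      refine le_trans (le_of_eq ?_) h5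
      field_simp))
    rw [Finset.sum_neg_distrib] at h2
    linarith
  have hsum2 : δ ≤ ∑ m, μ m := by
    have h1 := ((SB.prod hl Finset.univ (fun m' _ => hμ1 m')
      (fun m' _ => ev0 (fun j => (hd j m').le))).mul (SB_exp hl (-δ))
      (ev0 (fun j => (Real.exp_pos _).le))).const_mul hl
      (ev0 (fun j => mul_nonneg (Finset.prod_nonneg (fun m' _ => (hd j m').le))
        (Real.exp_pos _).le)) C3
    have h2 := h1.nonneg_of_one_le hl (Eventually.of_forall hlow)
    linarith
  set I0s : Finset (Fin n) := Finset.univ.filter (fun m => 0 < μ m) with hI0s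
  have hI0ne : I0s.Nonempty := by
    by_contra hcon
    rw [Finset.not_nonempty_iff_eq_empty, hI0s, Finset.filter_eq_empty_iff] at hcon
    have : ∑ m, μ m ≤ 0 := Finset.sum_nonpos (fun m hm => not_lt.1 (hcon hm))
    linarith
  obtain ⟨m0, hm0, hm0min⟩ := Finset.exists_min_image I0s μ hI0ne
  have hgap : 0 < μ m0 := (Finset.mem_filter.1 hm0).2
  set p := I0s.card with hp
  let I0 : Set.powersetCard (Fin n) p := ⟨I0s, rfl⟩
  obtain ⟨a0, -⟩ := exists_enum p (J := I0) hm0
  let ch : Option P → Set.powersetCard (Fin n) p → ℝ := fun v J =>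
    match v with
    | none => ∑ i ∈ J.1, (c none i + μ i) - if J = I0 then μ m0 else 0
    | some a => ∑ i ∈ J.1, c (some a) i
  have hch : ∑ v, ∑ J, ch v J < 0 := by
    have h1 := sum_subsets_nonpos p (fun i => ∑ v, c v i + μ i) (by
      rw [Finset.sum_add_distrib, Finset.sum_comm]; linarith)
    rw [Fintype.sum_option]
    simp only [ch, Finset.sum_sub_distrib, Finset.sum_ite_eq', Finset.mem_univ, if_true]
    simp only [Fintype.sum_option, Finset.sum_add_distrib] at h1 ⊢
    have e : ∑ a : P, ∑ J : Set.powersetCard (Fin n) p, ∑ i ∈ J.1, c (some a) i =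
        ∑ J : Set.powersetCard (Fin n) p, ∑ i ∈ J.1, ∑ a : P, c (some a) i := by
      rw [Finset.sum_comm]
      exact Finset.sum_congr rfl (fun J _ => Finset.sum_comm)
    linarith
  obtain ⟨y, hy0, hy⟩ := hyper U hl F.av F.OS (fun x hx h0 => F.one_le_prod hx h0) I0
    (fun v => cpd p (L v)⁻¹)
    (fun v => cpd_det_ne_zero p (Matrix.isUnit_nonsing_inv_det _ (hL v).isUnit).ne_zero)
    ch hch (fun j => cpd p (H j)) (fun v j => cpd p (L v * H j))
    (fun v j => by
      rw [← cpd_mul, ← Matrix.mul_assoc, Matrix.nonsing_inv_mul _ (hL v).isUnit, Matrix.one_mul])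
    (Eventually.of_forall (fun j => cpd_det_ne_zero p (hH j)))
    (Eventually.of_forall (fun j J I => det_mem_subring _ _ (fun _ _ => hHO j _ _)))
    (fun v J I hI => by
      simp only [cpd, Matrix.of_apply]
      refine SB.of_le ?_ (Eventually.of_forall (fun j =>
        (le_of_eq (congrArg _ (Matrix.det_transpose _).symm)).trans (av_det_le _ _)))
      refine SB.sum hl _ (fun σ _ => ?_)
      simp only [Matrix.transpose_apply, Matrix.of_apply]
      rcases v with _ | a
      · have k1 : ∀ i m, SB U l (fun j => F.av none ((L none * H j) i m)) (c none i + μ m) :=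
          fun i m => (((SB_exp hl _).mul (hμ1 m) (ev0 (fun j => (hd j m).le))).const_mul hl
            (ev0 (fun j => mul_nonneg (Real.exp_pos _).le (hd j m).le)) C1).of_le
            (Eventually.of_forall (fun j => hL1 j i m))
        have k2 : ∀ i m, SB U l (fun j => F.av none ((L none * H j) i m)) (c none i + μ i) :=
          fun i m => (((SB_exp hl _).mul (hμ1 i) (ev0 (fun j => (hd j i).le))).const_mul hl
            (ev0 (fun j => mul_nonneg (Real.exp_pos _).le (hd j i).le)) C1).of_le
            (Eventually.of_forall (fun j => hL2 j i m))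
        by_cases hJ : J = I0
        · obtain ⟨i1, hi1, hi1'⟩ := (Set.powersetCard.exists_mem_notMem_iff_ne I I0).1 hI
          obtain ⟨b1, rfl⟩ := exists_enum p (J := I) hi1
          have hμneg : μ (enum p I b1) ≤ 0 := by
            by_contra hcon
            exact hi1' (Finset.mem_filter.2 ⟨Finset.mem_univ _, not_le.1 hcon⟩)
          have h1 := SB.prod hl Finset.univ
            (F := fun b j => F.av none ((L none * H j) (enum p J (σ b)) (enum p I b)))
            (e := fun b => c none (enum p J (σ b)) + μ (enum p J (σ b)) - if b = b1 then μ m0 else 0)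
            (fun b _ => by
              by_cases hb : b = b1
              · subst hb
                refine (k1 _ _).mono hl ?_
                have := hm0min (enum p J (σ b)) (by rw [hJ]; exact enum_mem p I0 _)
                simp only [if_true]; linarith
              · simpa [hb] using k2 _ _)
            (fun _ _ => ev0 (fun _ => (F.av _).nonneg _))
          refine h1.mono hl (le_of_eq ?_)
          simp only [ch, if_pos hJ, Finset.sum_sub_distrib, Finset.sum_ite_eq', Finset.mem_univ,
            if_true]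
          rw [Equiv.sum_comp σ (fun b => c none (enum p J b) + μ (enum p J b)),
            sum_enum p J (fun i => c none i + μ i)]
        · have h1 := SB.prod hl Finset.univ
            (F := fun b j => F.av none ((L none * H j) (enum p J (σ b)) (enum p I b)))
            (e := fun b => c none (enum p J (σ b)) + μ (enum p J (σ b)))
            (fun b _ => k2 _ _) (fun _ _ => ev0 (fun _ => (F.av _).nonneg _))
          refine h1.mono hl (le_of_eq ?_)
          simp only [ch, if_neg hJ, sub_zero]
          rw [Equiv.sum_comp σ (fun b => c none (enum p J b) + μ (enum p J b)),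
            sum_enum p J (fun i => c none i + μ i)]
      · have h1 := SB.prod hl Finset.univ
          (F := fun b j => F.av (some a) ((L (some a) * H j) (enum p J (σ b)) (enum p I b)))
          (e := fun b => c (some a) (enum p J (σ b)))
          (fun b _ => (SB_exp hl _).of_le (Eventually.of_forall (fun j => hLa j a _ _)))
          (fun _ _ => ev0 (fun _ => (F.av _).nonneg _))
        refine h1.mono hl (le_of_eq ?_)
        simp only [ch]
        rw [Equiv.sum_comp σ (fun b => c (some a) (enum p J b)), sum_enum p J (c (some a))])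
  obtain ⟨φ, hφ0, hφ⟩ := exists_functional p I0 a0 y hy0
  refine ⟨φ, hφ0, ?_⟩
  have hsmall : ∀ᶠ j in (U : Filter ι), ∀ m ∈ I0s, C4 * (d j m)⁻¹ < 1 :=
    (Filter.eventually_all_finset _).2 (fun m hm =>
      ((hμ2 m).const_mul hl (ev0 (fun j => (inv_pos.2 (hd j m)).le)) C4).lt_one hl
        (by linarith [(Finset.mem_filter.1 hm).2]))
  filter_upwards [hy, hxO, hx, hsmall] with j h1 h2 h3 h4
  obtain ⟨a, ha1, ha2⟩ := hrep j (x j) h2 h3
  rw [ha1]
  refine hφ (H j) _ (hH j) h1 (fun m hm => ?_)
  have h5 := h4 m hm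
  have h6 := ha2 m
  have h7 := hd j m
  rw [← div_eq_mul_inv, div_lt_one h7] at h5
  have h8 : |(a m : ℝ)| < 1 := by
    by_contra hcon
    push Not at hcon
    nlinarith
  have h9 : |a m| < 1 := by exact_mod_cast h8
  have : a m = 0 := Int.abs_lt_one_iff.1 h9
  simp [this]

/-- The parametric Subspace Theorem along an ultrafilter. -/
theorem subspace_ultra {ι : Type*} (U : Ultrafilter ι) {l : ι → ℝ} (hl : Tendsto l U atTop)
    {P : Type} [Fintype P] (F : PrimeFam P) {κ : Type} [Fintype κ] [DecidableEq κ]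
    (L : Option P → Matrix κ κ ℚ)
    (hL : ∀ v, (L v).det ≠ 0) (c : Option P → κ → ℝ) (hc : ∑ v, ∑ i, c v i < 0)
    (x : ι → κ → ℚ) (hxO : ∀ᶠ j in (U : Filter ι), ∀ k, x j k ∈ F.OS)
    (hx : ∀ v i, SB U l (fun j => F.av v ((L v).mulVec (x j) i)) (c v i)) :
    ∃ a : κ → ℚ, a ≠ 0 ∧ ∀ᶠ j in (U : Filter ι), ∑ k, a k * x j k = 0 := by
  classical
  let e := Fintype.equivFin κ
  set ε : ℝ := (-∑ v, ∑ i, c v i) / (2 * (Fintype.card (Option P) * Fintype.card κ + 1)) with hε
  have hε0 : 0 < ε := div_pos (by linarith) (by positivity)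
  have hc' : ∑ v, ∑ i, (c v (e.symm i) + ε) < 0 := by
    have : ∀ v, ∑ i, (c v (e.symm i) + ε) = ∑ i, (c v i + ε) :=
      fun v => Equiv.sum_comp e.symm (fun i => c v i + ε)
    simp only [this]
    simp only [Finset.sum_add_distrib, Finset.sum_const, Finset.card_univ, nsmul_eq_mul]
    have h1 : ε * (2 * (Fintype.card (Option P) * Fintype.card κ + 1)) = -∑ v, ∑ i, c v i := by
      rw [hε]; field_simp
    nlinarith
  obtain ⟨φ, hφ0, hφ⟩ := subspace_box U hl F (fun v => Matrix.reindex e e (L v))
    (fun v => by rw [Matrix.det_reindex_self]; exact hL v) (fun v i => c v (e.symm i) + ε) hc'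
    (fun j k => x j (e.symm k)) (hxO.mono (fun j hj k => hj _)) (by
      refine Filter.eventually_all.2 (fun v => Filter.eventually_all.2 (fun i => ?_))
      filter_upwards [hx v (e.symm i) ε hε0] with j hj
      refine le_trans (le_of_eq ?_) hj
      congr 1
      simp only [Matrix.mulVec, dotProduct, Matrix.reindex_apply, Matrix.submatrix_apply]
      exact Equiv.sum_comp e.symm (fun k => L v (e.symm i) k * x j k))
  refine ⟨fun k => φ (Pi.single (e k) 1), fun h0 => hφ0 ?_, hφ.mono (fun j hj => ?_)⟩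
  · refine (Pi.basisFun ℚ _).ext (fun k => ?_)
    have := congrFun h0 (e.symm k)
    simpa using this
  · rw [LinearMap.pi_apply_eq_sum_univ] at hj
    rw [← hj, ← Equiv.sum_comp e]
    refine Finset.sum_congr rfl (fun k _ => ?_)
    simp only [Equiv.symm_apply_apply, smul_eq_mul, mul_comm (x j k)]
    congr 2
    funext i
    simp [Pi.single_apply, eq_comm]

end

end Pool.Agent.Shared.Subspace
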