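import Pool.Agent.Shared.SubspaceGerm

/-!
The ring spanned by nonstandard S-units and the almost orthogonality of its free modules.
-/

set_option autoImplicit false

namespace Pool.Agent.Shared.Subspace

open Finset Filter Topology
open scoped Pointwise

noncomputable section

lemma exists_folner {G : Type*} [AddCommGroup G] [DecidableEq G] (T : Finset G) :
    ∃ A : Finset G, A.Nonempty ∧ (A + T).card ≤ 2 * A.card := by
  let B : ℕ → Finset G := fun k =>
    (Fintype.piFinset (fun _ : T => range (k + 1))).image (fun n => ∑ t, n t • t.1)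
  have hB : ∀ k, (B k).card ≤ (k + 1) ^ T.card := by
    intro k
    refine card_image_le.trans (le_of_eq ?_)
    simp
  have hne : ∀ k, (B k).Nonempty := fun k =>
    ⟨_, mem_image_of_mem _ (Fintype.mem_piFinset.2 (fun _ => mem_range.2 (Nat.succ_pos k)))⟩
  have hsub : ∀ k, B k + T ⊆ B (k + 1) := by
    intro k g hg
    obtain ⟨a, ha, t, ht, rfl⟩ := mem_add.1 hg
    obtain ⟨n, hn, rfl⟩ := mem_image.1 ha
    refine mem_image.2 ⟨fun s => n s + if s = ⟨t, ht⟩ then 1 else 0,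
      Fintype.mem_piFinset.2 (fun s => ?_), ?_⟩
    · have := mem_range.1 (Fintype.mem_piFinset.1 hn s)
      rw [mem_range]; split_ifs <;> omega
    · simp [add_smul, sum_add_distrib, ite_smul]
  by_contra hcon
  push Not at hcon
  have h2 : ∀ k, 2 ^ k ≤ (B k).card := by
    intro k
    induction k with
    | zero => exact (hne 0).card_pos
    | succ k ih =>
      have := (hcon _ (hne k)).trans_le (card_le_card (hsub k))
      rw [pow_succ]; omega
  have h3 := (tendsto_pow_const_div_const_pow_of_one_lt T.card (r := 2) one_lt_two).comp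
    (tendsto_add_atTop_nat 1)
  obtain ⟨k, hk⟩ := (h3.eventually_lt_const (show (0 : ℝ) < 1 / 2 by norm_num)).exists
  have h4 : ((2 : ℝ)) ^ k ≤ ((k + 1 : ℕ) : ℝ) ^ T.card := by exact_mod_cast (h2 k).trans (hB k)
  simp only [Function.comp] at hk
  rw [div_lt_iff₀ (by positivity), pow_succ] at hk
  linarith

variable {ι : Type} {U : Ultrafilter ι} {l : ι → ℝ} {P : Type}

lemma exists_sepG (T : Finset (GG P U l)) : ∃ f : GG P U l →+ ℚ, Set.InjOn f T := by
  classical
  let W : Submodule ℚ (ι → P → ℚ) :=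
    { carrier := {e | ∃ c : P → ℚ, ∀ᶠ j in (U : Filter ι), e j = c}
      add_mem' := by
        rintro e e' ⟨c, hc⟩ ⟨c', hc'⟩
        exact ⟨c + c', (hc.and hc').mono (fun j h => by rw [← h.1, ← h.2]; rfl)⟩
      zero_mem' := ⟨0, by simp⟩
      smul_mem' := by
        rintro a e ⟨c, hc⟩
        exact ⟨a • c, hc.mono (fun j h => by rw [← h]; rfl)⟩ }
  let g : EE P U l →+ (ι → P → ℚ) :=
    AddMonoidHom.mk' (fun e j a => (e.1 j a : ℚ)) (fun e e' => by funext j a; simp)
  have hg : ∀ e, g e ∈ W ↔ e ∈ E0 P U l := by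
    intro e
    constructor
    · rintro ⟨c, hc⟩
      obtain ⟨j0, hj0⟩ := hc.exists
      refine ⟨e.1 j0, hc.mono (fun j hj => ?_)⟩
      funext a
      have : g e j a = g e j0 a := by rw [hj, hj0]
      exact_mod_cast (show (e.1 j a : ℚ) = e.1 j0 a from this)
    · rintro ⟨c, hc⟩
      exact ⟨fun a => c a, hc.mono (fun j hj => by rw [← hj]; rfl)⟩
  let emb : GG P U l →+ ((ι → P → ℚ) ⧸ W) :=
    QuotientAddGroup.lift _ (W.mkQ.toAddMonoidHom.comp g) (fun e he => by
      simpa using (hg e).2 he)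
  have hemb : ∀ γ, emb γ = 0 → γ = 0 := by
    intro γ
    induction γ using QuotientAddGroup.induction_on with
    | H e =>
      intro h
      refine (QuotientAddGroup.eq_zero_iff e).2 ((hg e).1 ?_)
      simpa [emb] using h
  obtain ⟨f, hf⟩ := Module.exists_dual_forall_apply_ne_zero (K := ℚ)
    (fun p : T.offDiag => emb (p.1.1 - p.1.2))
    (fun p h => (mem_offDiag.1 p.2).2.2 (sub_eq_zero.1 (hemb _ h)))
  refine ⟨f.toAddMonoidHom.comp emb, fun a ha b hb hab => ?_⟩
  by_contra hne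
  refine hf ⟨(a, b), mem_offDiag.2 ⟨ha, hb, hne⟩⟩ ?_
  simp only [map_sub]
  exact sub_eq_zero.2 hab

variable [Fintype P] (F : PrimeFam P)

/-- rational span of the S-units with classes in `S` -/
def RS (S : Set (GG P U l)) : Submodule ℚ (KK U) := Submodule.span ℚ (mo F '' S)

/-- evaluation of a formal combination of S-units -/
def ev : (GG P U l →₀ ℚ) →ₗ[ℚ] KK U := Finsupp.linearCombination ℚ (mo F)

lemma ev_injective : Function.Injective (ev F : (GG P U l →₀ ℚ) → KK U) := mo_linearIndependent F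

lemma ev_eq (φ : GG P U l →₀ ℚ) : ev F φ = ∑ γ ∈ φ.support, φ γ • mo F γ := by
  rw [ev, Finsupp.linearCombination_apply]; rfl

lemma mem_RS {S : Set (GG P U l)} {r : KK U} :
    r ∈ RS F S ↔ ∃ φ : GG P U l →₀ ℚ, (∀ γ ∈ φ.support, γ ∈ S) ∧ ev F φ = r :=
  Finsupp.mem_span_image_iff_linearCombination ℚ

lemma ev_mem_RS {S : Set (GG P U l)} {φ : GG P U l →₀ ℚ} :
    ev F φ ∈ RS F S ↔ ∀ γ ∈ φ.support, γ ∈ S := by
  rw [mem_RS]
  constructor
  · rintro ⟨ψ, h1, h2⟩
    rwa [← ev_injective F h2]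
  · exact fun h => ⟨φ, h, rfl⟩

lemma RS_mono {S S' : Set (GG P U l)} (h : S ⊆ S') : RS F S ≤ RS F S' :=
  Submodule.span_mono (Set.image_mono h)

lemma mem_RS_inter {S S' : Set (GG P U l)} {r : KK U} (h : r ∈ RS F S) (h' : r ∈ RS F S') :
    r ∈ RS F (S ∩ S') := by
  obtain ⟨φ, h1, rfl⟩ := (mem_RS F).1 h
  exact (ev_mem_RS F).2 (fun γ hγ => ⟨h1 γ hγ, (ev_mem_RS F).1 h' γ hγ⟩)

lemma mo_mem_RS {S : Set (GG P U l)} {γ : GG P U l} (h : γ ∈ S) : mo F γ ∈ RS F S :=
  Submodule.subset_span ⟨γ, h, rfl⟩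

lemma mon_mem_RS {S : Set (GG P U l)} {e : EE P U l} (h : (e : GG P U l) ∈ S) :
    mon F U e.1 ∈ RS F S := by
  obtain ⟨c, -, hc⟩ := mon_eq_smul F e
  rw [hc]; exact Submodule.smul_mem _ _ (mo_mem_RS F h)

lemma one_mem_RS {S : Set (GG P U l)} (h : 0 ∈ S) : (1 : KK U) ∈ RS F S := by
  rw [← mon_zero F]; exact mon_mem_RS F (e := 0) h

lemma mul_mem_RS {S S' S'' : Set (GG P U l)} (h : ∀ γ ∈ S, ∀ γ' ∈ S', γ + γ' ∈ S'')
    {r r' : KK U} (hr : r ∈ RS F S) (hr' : r' ∈ RS F S') : r * r' ∈ RS F S'' := by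
  obtain ⟨φ, h1, rfl⟩ := (mem_RS F).1 hr
  obtain ⟨ψ, h2, rfl⟩ := (mem_RS F).1 hr'
  rw [ev_eq, ev_eq, sum_mul_sum]
  refine Submodule.sum_mem _ (fun γ hγ => Submodule.sum_mem _ (fun γ' hγ' => ?_))
  obtain ⟨c, -, hc⟩ := mo_mul F γ γ'
  rw [smul_mul_smul_comm, hc]
  exact Submodule.smul_mem _ _ (Submodule.smul_mem _ _ (mo_mem_RS F (h _ (h1 _ hγ) _ (h2 _ hγ'))))

lemma GLe_of_mem_RS (hl : Tendsto l U atTop) (v : Option P) {τ : ℝ} {r : KK U}
    (hr : r ∈ RS F (lam F hl v ⁻¹' Set.Iic τ)) : GLe l (F.av v) r τ := by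
  obtain ⟨φ, h1, rfl⟩ := (mem_RS F).1 hr
  rw [ev_eq]
  exact GLe.sum hl _ (fun γ hγ => ((GLe_mo F hl v γ).mono hl (h1 γ hγ)).smul hl _)

/-- the algebra spanned by the S-units of size `exp (O l)` -/
def RR (U : Ultrafilter ι) (l : ι → ℝ) : Subalgebra ℚ (KK U) :=
  (RS F (Set.univ : Set (GG P U l))).toSubalgebra (one_mem_RS F trivial)
    (fun _ _ => mul_mem_RS F (fun _ _ _ _ => Set.mem_univ _))

lemma mem_RR {r : KK U} : r ∈ RR F U l ↔ r ∈ RS F (Set.univ : Set (GG P U l)) := Iff.rfl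

lemma mem_RR_of_RS {S : Set (GG P U l)} {r : KK U} (h : r ∈ RS F S) : r ∈ RR F U l :=
  RS_mono F (Set.subset_univ _) h

lemma exists_ev {r : KK U} (h : r ∈ RR F U l) : ∃ φ : GG P U l →₀ ℚ, ev F φ = r := by
  obtain ⟨φ, -, h⟩ := (mem_RS F).1 h
  exact ⟨φ, h⟩

/-- Almost orthogonality. -/
theorem orth (hl : Tendsto l U atTop) {ρ : Type} [Fintype ρ] (e : ρ → KK U)
    (he : LinearIndependent (RR F U l) e) (hO : ∀ i, e i ∈ GO F U) (η : Option P → ℝ)
    (hη : ∀ v i, GLe l (F.av v) (e i) (η v)) (hη0 : 0 ≤ ∑ v, η v)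
    (r : ρ → KK U) (hr : ∀ i, r i ∈ RR F U l) (v0 : Option P) (τ : ℝ)
    (hτ : GLe l (F.av v0) (∑ i, r i * e i) τ) (i0 : ρ) :
    r i0 ∈ RS F (lam F hl v0 ⁻¹' Set.Iic (τ - η v0 + 2 * Fintype.card ρ * ∑ v, η v)) := by
  classical
  choose φ hφ using fun i => exists_ev F (hr i)
  rw [← hφ, ev_mem_RS]
  intro γ0 hγ0
  by_contra hcon
  simp only [Set.mem_preimage, Set.mem_Iic, not_le] at hcon
  set T := Finset.univ.biUnion (fun i => (φ i).support) with hT
  have hmemT : ∀ i, ∀ δ ∈ (φ i).support, δ ∈ T := fun i δ h =>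
    mem_biUnion.2 ⟨i, mem_univ _, h⟩
  obtain ⟨A, hAne, hA⟩ := exists_folner T
  obtain ⟨f, hf⟩ := exists_sepG T
  let key : GG P U l → ℝ ×ₗ ℚ := fun γ => toLex (lam F hl v0 γ, f γ)
  obtain ⟨γ1, hγ1, hmax⟩ := exists_max_image (φ i0).support key ⟨γ0, hγ0⟩
  have hle1 : lam F hl v0 γ0 ≤ lam F hl v0 γ1 := (Prod.Lex.toLex_le_toLex'.1 (hmax γ0 hγ0)).1
  have hkey : ∀ δ ∈ (φ i0).support, δ ≠ γ1 → ∀ γ, key (γ + δ - γ1) < key γ := by
    intro δ hδ hne γ
    have h1 := Prod.Lex.toLex_le_toLex'.1 (hmax δ hδ)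
    have h2 : f δ ≠ f γ1 := fun h => hne (hf (hmemT _ _ hδ) (hmemT _ _ hγ1) h)
    refine Prod.Lex.toLex_lt_toLex'.2 ⟨?_, fun h => ?_⟩
    · simp only [map_sub, map_add]; linarith [h1.1]
    · simp only [map_sub, map_add] at h ⊢
      have := lt_of_le_of_ne (h1.2 (by linarith)) h2
      linarith
  choose cc hcc0 hcc using mo_mul (U := U) (l := l) F
  set E := ∑ i, r i * e i with hE
  have hexp : ∀ γ, mo F γ * E =
      ∑ i, ∑ δ ∈ (φ i).support, (φ i δ * cc γ δ) • (mo F (γ + δ) * e i) := by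
    intro γ
    rw [hE, mul_sum]
    refine sum_congr rfl (fun i _ => ?_)
    rw [← hφ, ev_eq, sum_mul, mul_sum]
    refine sum_congr rfl (fun δ _ => ?_)
    rw [smul_mul_assoc, mul_smul_comm, ← mul_assoc, hcc, smul_mul_assoc, smul_smul]
  let ξ : ↥(A + T) × ρ → KK U := fun p => mo F p.1.1 * e p.2
  let Q : Option P → ↥(A + T) × ρ → Prop := fun v p => v = v0 ∧ p.2 = i0 ∧ p.1.1 - γ1 ∈ A
  let b : Option P → ↥(A + T) × ρ → KK U := fun v p =>
    if Q v p then mo F (p.1.1 - γ1) * E else ξ p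
  set g := lam F hl v0 γ1 + η v0 - τ with hg
  have hcard : (0 : ℝ) ≤ Fintype.card ρ := Nat.cast_nonneg _
  have hg0 : 2 * Fintype.card ρ * ∑ v, η v < g := by linarith
  refine subspace_germ F hl ξ (fun p => (GO F U).mul_mem (mo_mem F _) (hO _)) b (fun v p => ?_)
    (fun v p => ?_) (fun v p => lam F hl v p.1.1 + η v - if Q v p then g else 0) ?_
    (fun v p => ?_) ?_
  · simp only [b]
    split_ifs with h
    · rw [hexp]
      refine Submodule.sum_mem _ (fun i _ => Submodule.sum_mem _ (fun δ hδ =>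
        Submodule.smul_mem _ _ (Submodule.subset_span
          ⟨(⟨_, add_mem_add h.2.2 (hmemT i δ hδ)⟩, i), rfl⟩)))
    · exact Submodule.subset_span ⟨p, rfl⟩
  · have hgen : ∀ p, ¬ Q v p → ξ p ∈ Submodule.span ℚ (Set.range (b v)) :=
      fun p h => Submodule.subset_span ⟨p, if_neg h⟩
    by_cases hQ : Q v p
    swap
    · exact hgen p hQ
    obtain ⟨rfl, hp2, hp1⟩ := hQ
    have hall : ∀ γ ∈ A, mo F (γ + γ1) * e i0 ∈ Submodule.span ℚ (Set.range (b v)) := by
      by_contra hbad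
      push Not at hbad
      obtain ⟨γ', hγ'A, hγ'⟩ := hbad
      obtain ⟨γ, hγ, hmin⟩ := exists_min_image (A.filter (fun γ =>
        mo F (γ + γ1) * e i0 ∉ Submodule.span ℚ (Set.range (b v)))) key
        ⟨γ', mem_filter.2 ⟨hγ'A, hγ'⟩⟩
      obtain ⟨hγA, hγ⟩ := mem_filter.1 hγ
      apply hγ
      have h1 : mo F γ * E ∈ Submodule.span ℚ (Set.range (b v)) := by
        refine Submodule.subset_span ⟨(⟨γ + γ1, add_mem_add hγA (hmemT _ _ hγ1)⟩, i0), ?_⟩
        simp only [b]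
        rw [if_pos ⟨rfl, rfl, by simpa using hγA⟩, add_sub_cancel_right]
      rw [hexp, ← add_sum_erase _ _ (mem_univ i0), ← add_sum_erase _ _ hγ1, add_assoc] at h1
      refine (Submodule.smul_mem_iff _ (mul_ne_zero (Finsupp.mem_support_iff.1 hγ1)
        (hcc0 γ γ1))).1 ((Submodule.add_mem_iff_left _ (Submodule.add_mem _ ?_ ?_)).1 h1)
      · refine Submodule.sum_mem _ (fun δ hδ => Submodule.smul_mem _ _ ?_)
        obtain ⟨hne, hδ⟩ := mem_erase.1 hδ
        by_cases h2 : γ + δ - γ1 ∈ A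
        · by_contra h3
          refine absurd (hmin (γ + δ - γ1) (mem_filter.2 ⟨h2, ?_⟩)) (not_le.2 (hkey δ hδ hne γ))
          rwa [sub_add_cancel]
        · exact hgen (⟨_, add_mem_add hγA (hmemT _ δ hδ)⟩, i0) (fun h => h2 h.2.2)
      · refine Submodule.sum_mem _ (fun i hi => Submodule.sum_mem _ (fun δ hδ =>
          Submodule.smul_mem _ _ ?_))
        exact hgen (⟨_, add_mem_add hγA (hmemT _ δ hδ)⟩, i) (fun h => ne_of_mem_erase hi h.2.1)
    have := hall _ hp1
    rwa [sub_add_cancel, ← hp2] at this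
  · simp only [sum_sub_distrib, sum_add_distrib]
    rw [sum_comm (f := fun v (p : ↥(A + T) × ρ) => lam F hl v p.1.1)]
    simp only [sum_lam, sum_const_zero, sum_const, card_univ, Fintype.card_prod, Fintype.card_coe,
      nsmul_eq_mul, ← mul_sum, zero_add]
    have h1 : (A.card : ℝ) * g ≤ ∑ v, ∑ p, if Q v p then g else 0 := by
      have hg1 : 0 ≤ g := le_trans (by positivity) hg0.le
      refine le_trans ?_ (single_le_sum (f := fun v => ∑ p, if Q v p then g else 0)
        (fun v _ => sum_nonneg (fun p _ => by split_ifs <;> simp [hg1])) (mem_univ v0))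
      rw [← sum_filter, sum_const, nsmul_eq_mul]
      refine mul_le_mul_of_nonneg_right ?_ hg1
      have : A.card ≤ (univ.filter (Q v0)).card := by
        rw [← card_attach]
        refine card_le_card_of_injOn
          (fun γ => (⟨γ.1 + γ1, add_mem_add γ.2 (hmemT _ _ hγ1)⟩, i0)) (fun γ _ => ?_)
          (fun γ _ γ' _ h => ?_)
        · simp [Q]
        · exact Subtype.ext (add_right_cancel (congrArg (fun p => p.1.1) h))
      exact_mod_cast this
    have h2 : ((A + T).card : ℝ) ≤ 2 * A.card := by exact_mod_cast hA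
    have h3 : (0 : ℝ) < A.card := by exact_mod_cast hAne.card_pos
    have h4 := mul_le_mul_of_nonneg_right h2 (mul_nonneg hcard hη0)
    have h5 := mul_lt_mul_of_pos_left hg0 h3
    push_cast
    nlinarith
  · simp only [b]
    split_ifs with h
    · obtain ⟨rfl, -, -⟩ := h
      refine ((GLe_mo F hl v _).mul hτ).mono hl (le_of_eq ?_)
      rw [map_sub, hg]; ring
    · rw [sub_zero]; exact (GLe_mo F hl v _).mul (hη v _)
  · have h1 : LinearIndependent ℚ
        (fun γ : ↥(A + T) => (⟨mo F γ.1, mo_mem_RS F trivial⟩ : RR F U l)) :=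
      LinearIndependent.of_comp (RR F U l).val.toLinearMap
        ((mo_linearIndependent F).comp _ Subtype.val_injective)
    exact linearIndependent_smul h1 he

lemma linearIndependent_one : LinearIndependent (RR F U l) (fun _ : Unit => (1 : KK U)) := by
  rw [linearIndependent_unique_iff]; exact one_ne_zero

/-- an element of the unit algebra is as large as its largest term -/
theorem orth_one (hl : Tendsto l U atTop) {r : KK U} (hr : r ∈ RR F U l) (v : Option P) {τ : ℝ}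
    (hτ : GLe l (F.av v) r τ) : r ∈ RS F (lam F hl v ⁻¹' Set.Iic τ) := by
  have := orth F hl (fun _ : Unit => (1 : KK U)) (linearIndependent_one F)
    (fun _ => (GO F U).one_mem) (fun _ => 0) (fun _ _ => GLe_one hl) (by simp) (fun _ => r)
    (fun _ => hr) v τ (by simpa using hτ) ()
  simpa using this

end

end Pool.Agent.Shared.Subspace
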