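import Pool.Agent.Shared.SubspaceHyper
import Pool.Agent.Shared.SubspaceLattice

/-!
Places of a finite set of primes, S-integers, and adapted bases of S-adic boxes.
-/

set_option autoImplicit false

namespace Pool.Agent.Shared.Subspace

open Finset

noncomputable section

/-- a finite family of distinct primes -/
structure PrimeFam (P : Type) where
  /-- the primes -/
  pr : P → ℕ
  prime : ∀ a, (pr a).Prime
  inj : Function.Injective pr

namespace PrimeFam

variable {P : Type} (F : PrimeFam P)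

instance fact (a : P) : Fact (F.pr a).Prime := ⟨F.prime a⟩

/-- the absolute values: the real one and the `p`-adic ones -/
def av : Option P → AbsoluteValue ℚ ℝ
  | none => vinf
  | some a => Rat.AbsoluteValue.padic (F.pr a)

lemma av_none : F.av none = vinf := rfl

lemma av_some (a : P) (x : ℚ) : F.av (some a) x = (padicNorm (F.pr a) x : ℝ) := rfl

lemma two_le (a : P) : (2 : ℝ) ≤ F.pr a := by exact_mod_cast (F.prime a).two_le

lemma pr_pos (a : P) : (0 : ℝ) < F.pr a := by linarith [F.two_le a]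

lemma pr_ne_zero (a : P) : (F.pr a : ℚ) ≠ 0 := by exact_mod_cast (F.prime a).ne_zero

lemma av_self (a : P) : F.av (some a) (F.pr a) = (F.pr a : ℝ)⁻¹ := by
  rw [av_some, padicNorm.padicNorm_p_of_prime]; simp

lemma av_other {a b : P} (h : b ≠ a) : F.av (some b) (F.pr a) = 1 := by
  rw [av_some, padicNorm.padicNorm_of_prime_of_ne (fun h' => h (F.inj h'))]; simp

lemma av_none_pr (a : P) : F.av none (F.pr a) = F.pr a := by
  rw [av_none, vinf_apply]; simp

lemma av_add_le_max (a : P) (x y : ℚ) :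
    F.av (some a) (x + y) ≤ max (F.av (some a) x) (F.av (some a) y) := by
  simp only [av_some]
  exact_mod_cast padicNorm.nonarchimedean

lemma av_le_one (a : P) {x : ℚ} (hx : x ∈ Zr) : F.av (some a) x ≤ 1 := by
  obtain ⟨z, rfl⟩ := mem_Zr.1 hx
  exact Rat.AbsoluteValue.padic_le_one _ z

variable [Fintype P]

lemma prod_av_pr (a : P) : ∏ v, F.av v (F.pr a) = 1 := by
  classical
  rw [Fintype.prod_option, av_none_pr, Finset.prod_eq_single a, av_self,
    mul_inv_cancel₀ (F.pr_pos a).ne']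
  · intro b _ hb; exact F.av_other hb
  · simp

lemma prod_av_mul (x y : ℚ) : ∏ v, F.av v (x * y) = (∏ v, F.av v x) * ∏ v, F.av v y := by
  simp [Finset.prod_mul_distrib]

lemma one_le_prod_int (z : ℤ) (hz : z ≠ 0) : 1 ≤ ∏ v, F.av v z := by
  induction h : z.natAbs using Nat.strong_induction_on generalizing z with
  | _ n ih =>
    by_cases hd : ∃ a, (F.pr a : ℤ) ∣ z
    · obtain ⟨a, w, rfl⟩ := hd
      have hw : w ≠ 0 := right_ne_zero_of_mul hz
      push_cast
      rw [prod_av_mul, prod_av_pr, one_mul]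
      refine ih w.natAbs ?_ w hw rfl
      rw [← h, Int.natAbs_mul, Int.natAbs_natCast]
      have := (F.prime a).two_le
      have := Int.natAbs_pos.2 hw
      nlinarith
    · push Not at hd
      rw [Fintype.prod_option, Finset.prod_eq_one (fun a _ => by
        rw [av_some, (padicNorm.int_eq_one_iff z).2 (hd a)]; simp), mul_one]
      exact one_le_vinf (intCast_mem_Zr z) (by exact_mod_cast hz)

/-- product of the primes -/
def NN : ℚ := ∏ a, (F.pr a : ℚ)

lemma NN_ne_zero : F.NN ≠ 0 := Finset.prod_ne_zero_iff.2 (fun a _ => F.pr_ne_zero a)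

lemma NN_mem_Zr : F.NN ∈ Zr := Zr.prod_mem (fun _ _ => natCast_mem Zr _)

lemma prod_av_NN : ∏ v, F.av v F.NN = 1 := by
  simp only [NN, map_prod]
  rw [Finset.prod_comm]
  exact Finset.prod_eq_one (fun a _ => F.prod_av_pr a)

lemma prod_av_NN_pow (M : ℕ) : ∏ v, F.av v (F.NN ^ M) = 1 := by
  simp only [map_pow, Finset.prod_pow, prod_av_NN, one_pow]

lemma av_NN (a : P) : F.av (some a) F.NN = (F.pr a : ℝ)⁻¹ := by
  classical
  rw [NN, map_prod, Finset.prod_eq_single a, av_self]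
  · intro b _ hb; exact F.av_other hb.symm
  · simp

/-- the ring of S-integers -/
def OS : Subring ℚ where
  carrier := {x | ∃ M : ℕ, F.NN ^ M * x ∈ Zr}
  mul_mem' := by
    rintro x y ⟨M, hM⟩ ⟨K, hK⟩
    refine ⟨M + K, ?_⟩
    have := Zr.mul_mem hM hK
    rwa [show F.NN ^ M * x * (F.NN ^ K * y) = F.NN ^ (M + K) * (x * y) by ring] at this
  one_mem' := ⟨0, by simp⟩
  add_mem' := by
    rintro x y ⟨M, hM⟩ ⟨K, hK⟩
    refine ⟨M + K, ?_⟩
    have := Zr.add_mem (Zr.mul_mem (Zr.pow_mem F.NN_mem_Zr K) hM)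
      (Zr.mul_mem (Zr.pow_mem F.NN_mem_Zr M) hK)
    rwa [show F.NN ^ K * (F.NN ^ M * x) + F.NN ^ M * (F.NN ^ K * y) = F.NN ^ (M + K) * (x + y) by
      ring] at this
  zero_mem' := ⟨0, by simp⟩
  neg_mem' := by
    rintro x ⟨M, hM⟩
    exact ⟨M, by rw [mul_neg]; exact Zr.neg_mem hM⟩

lemma mem_OS_of_Zr {x : ℚ} (hx : x ∈ Zr) : x ∈ F.OS := ⟨0, by simpa using hx⟩

lemma one_le_prod {x : ℚ} (hx : x ∈ F.OS) (h0 : x ≠ 0) : 1 ≤ ∏ v, F.av v x := by
  obtain ⟨M, z, hz⟩ := hx
  have hz' : (z : ℚ) = F.NN ^ M * x := hz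
  have h1 := F.one_le_prod_int z (by
    rintro rfl
    exact (mul_ne_zero (pow_ne_zero M F.NN_ne_zero) h0) (by simpa using hz'.symm))
  rwa [hz', prod_av_mul, prod_av_NN_pow, one_mul] at h1

lemma inv_pr_mem (a : P) : (F.pr a : ℚ)⁻¹ ∈ F.OS := by
  classical
  refine ⟨1, ?_⟩
  rw [pow_one, NN, ← Finset.prod_erase_mul _ _ (Finset.mem_univ a), mul_assoc,
    mul_inv_cancel₀ (F.pr_ne_zero a), mul_one]
  exact Zr.prod_mem (fun _ _ => natCast_mem Zr _)

lemma zpow_mem (a : P) (e : ℤ) : (F.pr a : ℚ) ^ e ∈ F.OS := by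
  obtain ⟨n, rfl | rfl⟩ := Int.eq_nat_or_neg e
  · rw [zpow_natCast]; exact F.OS.pow_mem (natCast_mem _ _) _
  · rw [zpow_neg, zpow_natCast, ← inv_pow]; exact F.OS.pow_mem (F.inv_pr_mem a) _

lemma mem_Zr_of_le_one {y : ℚ} (hy : y ∈ F.OS) (h : ∀ a, F.av (some a) y ≤ 1) : y ∈ Zr := by
  obtain ⟨M, hM⟩ := hy
  induction M with
  | zero => simpa using hM
  | succ M ih =>
    apply ih
    obtain ⟨z, hz⟩ := mem_Zr.1 hM
    have h1 : ∀ a, (F.pr a : ℤ) ∣ z := by
      intro a
      rw [← padicNorm.int_lt_one_iff]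
      have h2 : F.av (some a) z < 1 := by
        rw [hz, map_mul, map_pow, av_NN]
        have h3 : (F.pr a : ℝ)⁻¹ < 1 := inv_lt_one_of_one_lt₀ (by linarith [F.two_le a])
        have h4 : ((F.pr a : ℝ)⁻¹) ^ (M + 1) < 1 :=
          pow_lt_one₀ (by have := F.pr_pos a; positivity) h3 (by omega)
        have h5 : 0 ≤ ((F.pr a : ℝ)⁻¹) ^ (M + 1) := by have := F.pr_pos a; positivity
        have := h a
        nlinarith
      rw [av_some] at h2
      exact_mod_cast h2
    have h2 : (∏ a, (F.pr a : ℤ)) ∣ z := by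
      refine Finset.prod_dvd_of_coprime (fun a _ b _ hab => ?_) (fun a _ => h1 a)
      rw [Function.onFun, Nat.isCoprime_iff_coprime]
      exact (Nat.coprime_primes (F.prime a) (F.prime b)).2 (fun h => hab (F.inj h))
    obtain ⟨w, hw⟩ := h2
    refine ⟨w, ?_⟩
    have h3 : (z : ℚ) = F.NN * w := by rw [hw, NN]; push_cast; rfl
    rw [h3, pow_succ] at hz
    have := F.NN_ne_zero
    apply mul_left_cancel₀ this
    simp only [eq_intCast]
    linarith

omit [Fintype P] in
lemma exists_NN_pow_le {B : ℝ} (hB : 0 < B) : ∃ M : ℕ, ∀ a, ((F.pr a : ℝ)⁻¹) ^ M ≤ B := by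
  obtain ⟨M, hM⟩ := exists_pow_lt_of_lt_one hB (by norm_num : (1 / 2 : ℝ) < 1)
  refine ⟨M, fun a => le_trans (pow_le_pow_left₀ (by have := F.pr_pos a; positivity) ?_ M) hM.le⟩
  rw [one_div]
  exact inv_anti₀ (by norm_num) (F.two_le a)

lemma exists_den_OS (B : ℝ) : ∃ D : ℕ, 0 < D ∧ ∀ x ∈ F.OS, (∀ a, F.av (some a) x ≤ B) →
    (D : ℚ) * x ∈ Zr := by
  obtain ⟨M, hM⟩ := F.exists_NN_pow_le (B := (1 + |B|)⁻¹) (by positivity)
  refine ⟨(∏ a, F.pr a) ^ M, pow_pos (Finset.prod_pos (fun a _ => (F.prime a).pos)) _,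
    fun x hx hB => ?_⟩
  have e : (((∏ a, F.pr a) ^ M : ℕ) : ℚ) = F.NN ^ M := by rw [NN]; push_cast; rfl
  rw [e]
  refine F.mem_Zr_of_le_one (F.OS.mul_mem (F.OS.pow_mem (F.mem_OS_of_Zr F.NN_mem_Zr) _) hx)
    (fun a => ?_)
  rw [map_mul, map_pow, av_NN]
  have h1 : F.av (some a) x ≤ 1 + |B| := by linarith [hB a, le_abs_self B]
  refine (mul_le_mul (hM a) h1 ((F.av _).nonneg _) (by positivity)).trans (le_of_eq ?_)
  field_simp

lemma exists_scalar (a : P) {t B : ℝ} (ht : 0 < t) (hB : 0 < B) :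
    ∃ s ∈ F.OS, t ≤ F.pr a * F.av (some a) s ∧ F.av (some a) s ≤ t ∧
      ∀ b, b ≠ a → F.av (some b) s ≤ B := by
  classical
  obtain ⟨M, hM⟩ := F.exists_NN_pow_le hB
  obtain ⟨n, hn1, hn2⟩ := exists_mem_Ico_zpow ht (by linarith [F.two_le a] : (1 : ℝ) < F.pr a)
  have hp := F.pr_pos a
  have e1 : F.av (some a) ((F.pr a : ℚ) ^ (-n) * (F.NN * (F.pr a : ℚ)⁻¹) ^ M) = (F.pr a : ℝ) ^ n := by
    rw [map_mul, map_pow, map_mul, map_zpow₀, map_inv₀, av_self, av_NN]
    simp [hp.ne']
  refine ⟨(F.pr a : ℚ) ^ (-n) * (F.NN * (F.pr a : ℚ)⁻¹) ^ M,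
    F.OS.mul_mem (F.zpow_mem a _) (F.OS.pow_mem
      (F.OS.mul_mem (F.mem_OS_of_Zr F.NN_mem_Zr) (F.inv_pr_mem a)) _), ?_, ?_, fun b hb => ?_⟩
  · rw [e1, zpow_add_one₀ hp.ne'] at *
    linarith
  · rw [e1]; exact hn1
  · rw [map_mul, map_pow, map_mul, map_zpow₀, map_inv₀, F.av_other hb, av_NN]
    simpa using hM b

end PrimeFam

lemma exists_small {α : Type} [Finite α] (β c : α → ℝ) (hβ : ∀ a, 0 < β a) (hc : ∀ a, 0 ≤ c a) :
    ∃ B : ℝ, 0 < B ∧ ∀ a, B * c a ≤ β a := by
  have := Fintype.ofFinite α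
  rcases isEmpty_or_nonempty α with h | h
  · exact ⟨1, one_pos, fun a => h.elim a⟩
  obtain ⟨a0, -, ha0⟩ := Finset.exists_min_image Finset.univ (fun a => β a / (1 + c a))
    Finset.univ_nonempty
  refine ⟨β a0 / (1 + c a0), div_pos (hβ a0) (by linarith [hc a0]), fun a => ?_⟩
  have h1 := ha0 a (Finset.mem_univ a)
  have h2 := mul_le_mul_of_nonneg_right h1 (hc a)
  refine h2.trans ?_
  rw [div_mul_eq_mul_div, div_le_iff₀ (by linarith [hc a])]
  have := hβ a
  nlinarith

lemma av_det_le_prod {n : Type*} [Fintype n] [DecidableEq n] (v : AbsoluteValue ℚ ℝ)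
    (A : Matrix n n ℚ) (β : n → ℝ) (h : ∀ i j, v (A i j) ≤ β i) :
    v A.det ≤ (Fintype.card n).factorial * ∏ i, β i := by
  refine (av_det_le v A).trans ?_
  have : ∀ p : Equiv.Perm n, ∏ i, v (A (p i) i) ≤ ∏ i, β i := by
    intro p
    rw [← Equiv.prod_comp p β]
    exact Finset.prod_le_prod (fun _ _ => v.nonneg _) (fun i _ => h _ _)
  refine (Finset.sum_le_sum (fun p _ => this p)).trans (le_of_eq ?_)
  simp [Fintype.card_perm]

/-- An adapted basis of the S-adic box. -/
theorem exists_basis {P : Type} [Fintype P] (F : PrimeFam P) {n : Type} [Fintype n] [DecidableEq n]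
    (L : Option P → Matrix n n ℚ) (hL : ∀ v, (L v).det ≠ 0) :
    ∃ C1 C2 C3 C4 : ℝ, ∀ β : Option P → n → ℝ, (∀ v i, 0 < β v i) →
      ∃ (H : Matrix n n ℚ) (d : n → ℝ), (∀ l, 0 < d l) ∧ H.det ≠ 0 ∧ (∀ k l, H k l ∈ F.OS) ∧
        (∀ a i l, F.av (some a) ((L (some a) * H) i l) ≤ β (some a) i) ∧
        (∀ i l, vinf ((L none * H) i l) ≤ C1 * (β none i * d l)) ∧
        (∀ i l, vinf ((L none * H) i l) ≤ C1 * (β none i * d i)) ∧
        (∏ l, d l) * ∏ v, ∏ i, β v i ≤ C2 ∧ 1 ≤ C3 * ((∏ l, d l) * ∏ v, ∏ i, β v i) ∧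
        ∀ x : n → ℚ, (∀ k, x k ∈ F.OS) → (∀ v i, F.av v ((L v).mulVec x i) ≤ β v i) →
          ∃ a : n → ℤ, x = H.mulVec (fun l => (a l : ℚ)) ∧ ∀ l, |(a l : ℝ)| * d l ≤ C4 := by
  classical
  obtain ⟨D0, hD0, hD0Z⟩ := exists_den (fun x : Option P × n × n => (L x.1)⁻¹ x.2.1 x.2.2)
  have hD0' : (D0 : ℚ) ≠ 0 := by exact_mod_cast hD0.ne'
  have hLu : ∀ v, IsUnit (L v).det := fun v => (hL v).isUnit
  set N := Fintype.card n with hN
  refine ⟨2 * 2 ^ N,
    vinf (L none).det * ∏ a, ((F.pr a / F.av (some a) D0) ^ N * F.av (some a) (L (some a)).det),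
    (∏ v, (F.av v (L v).det)⁻¹) * (2 ^ N * ∏ _a : P, (N.factorial : ℝ)),
    N.factorial * (2 ^ N) ^ N, fun β hβ => ?_⟩
  have hρ : ∀ i, ∃ ρ : ℚ, β none i < ρ ∧ (ρ : ℝ) < 2 * β none i :=
    fun i => exists_rat_btwn (by linarith [hβ none i])
  choose ρ hρ1 hρ2 using hρ
  have hρR : ∀ i, (0 : ℝ) < ρ i := fun i => (hβ none i).trans (hρ1 i)
  have hρ0 : ∀ i, 0 < ρ i := fun i => by exact_mod_cast hρR i
  set A : Matrix n n ℚ := Matrix.diagonal (fun i => (ρ i)⁻¹) * L none with hA
  have hAdet : A.det = (∏ i, (ρ i)⁻¹) * (L none).det := by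
    rw [hA, Matrix.det_mul, Matrix.det_diagonal]
  have hAdet0 : A.det ≠ 0 := by
    rw [hAdet]
    exact mul_ne_zero (Finset.prod_ne_zero_iff.2 (fun i _ => inv_ne_zero (hρ0 i).ne')) (hL none)
  have hAx : ∀ x i, (L none).mulVec x i = ρ i * A.mulVec x i := by
    intro x i
    rw [hA, ← Matrix.mulVec_mulVec, Matrix.mulVec_diagonal, ← mul_assoc,
      mul_inv_cancel₀ (hρ0 i).ne', one_mul]
  have hAinj : Function.Injective A.mulVec :=
    Matrix.mulVec_injective_of_isUnit ((Matrix.isUnit_iff_isUnit_det _).2 hAdet0.isUnit)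
  let Λ0 : AddSubgroup (n → ℚ) :=
    { carrier := {x | (∀ k, x k ∈ F.OS) ∧
        ∀ a i, F.av (some a) ((L (some a)).mulVec x i) ≤ β (some a) i}
      add_mem' := by
        rintro x y ⟨hx1, hx2⟩ ⟨hy1, hy2⟩
        refine ⟨fun k => F.OS.add_mem (hx1 k) (hy1 k), fun a i => ?_⟩
        rw [Matrix.mulVec_add, Pi.add_apply]
        exact (F.av_add_le_max a _ _).trans (max_le (hx2 a i) (hy2 a i))
      zero_mem' := ⟨fun k => F.OS.zero_mem, fun a i => by simpa using (hβ _ _).le⟩
      neg_mem' := by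
        rintro x ⟨hx1, hx2⟩
        refine ⟨fun k => F.OS.neg_mem (hx1 k), fun a i => ?_⟩
        rw [Matrix.mulVec_neg, Pi.neg_apply, AbsoluteValue.map_neg]
        exact hx2 a i }
  let Λ : AddSubgroup (n → ℚ) := Λ0.map A.mulVecLin.toAddMonoidHom
  -- bounded denominators
  obtain ⟨D1, hD1, hD1Z⟩ := F.exists_den_OS
    (∑ a, ∑ k, ∑ i, F.av (some a) ((L (some a))⁻¹ k i) * β (some a) i)
  obtain ⟨D2, hD2, hD2Z⟩ := exists_den (fun x : n × n => A x.1 x.2)
  have hden : ∀ x ∈ Λ, ∀ i, ∃ z : ℤ, ((D2 * D1 : ℕ) : ℚ) * x i = z := by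
    rintro _ ⟨x, ⟨hx1, hx2⟩, rfl⟩ i
    have h1 : ∀ k, (D1 : ℚ) * x k ∈ Zr := by
      intro k
      refine hD1Z _ (hx1 k) (fun a => ?_)
      have e : x k = ∑ i, (L (some a))⁻¹ k i * (L (some a)).mulVec x i := by
        have : x = (L (some a))⁻¹.mulVec ((L (some a)).mulVec x) := by
          rw [Matrix.mulVec_mulVec, Matrix.nonsing_inv_mul _ (hLu _), Matrix.one_mulVec]
        exact congrFun this k
      have h2 : F.av (some a) (x k) ≤ ∑ i, F.av (some a) ((L (some a))⁻¹ k i) * β (some a) i := by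
        rw [e]
        refine ((F.av _).sum_le _ _).trans (Finset.sum_le_sum (fun i _ => ?_))
        rw [map_mul]
        exact mul_le_mul_of_nonneg_left (hx2 a i) ((F.av _).nonneg _)
      have nn : ∀ a k i, 0 ≤ F.av (some a) ((L (some a))⁻¹ k i) * β (some a) i :=
        fun a k i => mul_nonneg ((F.av _).nonneg _) (hβ _ _).le
      refine h2.trans (le_trans (Finset.single_le_sum
        (f := fun k => ∑ i, F.av (some a) ((L (some a))⁻¹ k i) * β (some a) i)
        (fun k _ => Finset.sum_nonneg (fun i _ => nn a k i)) (Finset.mem_univ k))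
        (Finset.single_le_sum
        (f := fun a => ∑ k, ∑ i, F.av (some a) ((L (some a))⁻¹ k i) * β (some a) i)
        (fun a _ => Finset.sum_nonneg (fun k _ => Finset.sum_nonneg (fun i _ => nn a k i)))
        (Finset.mem_univ a)))
    have h3 : ((D2 * D1 : ℕ) : ℚ) * A.mulVec x i ∈ Zr := by
      have : ((D2 * D1 : ℕ) : ℚ) * A.mulVec x i = ∑ k, (D2 * A i k) * (D1 * x k) := by
        simp only [Matrix.mulVec, dotProduct, Finset.mul_sum]
        refine Finset.sum_congr rfl (fun k _ => ?_)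
        push_cast; ring
      rw [this]
      exact Zr.sum_mem (fun k _ => Zr.mul_mem (hD2Z (i, k)) (h1 k))
    obtain ⟨z, hz⟩ := mem_Zr.1 h3
    exact ⟨z, hz.symm⟩
  -- scalar matrices in the lattice
  obtain ⟨B0, hB0, hB0'⟩ := exists_small (fun x : P × n × n => β (some x.1) x.2.1)
    (fun x => F.av (some x.1) (L (some x.1) x.2.1 x.2.2)) (fun x => hβ _ _)
    (fun x => (F.av _).nonneg _)
  obtain ⟨M, hM⟩ := F.exists_NN_pow_le hB0
  have hY0 : ∀ j, (fun k => (F.NN ^ M • (1 : Matrix n n ℚ)) k j) ∈ Λ0 := by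
    intro j
    refine ⟨fun k => ?_, fun a i => ?_⟩
    · simp only [Matrix.smul_apply, smul_eq_mul, Matrix.one_apply]
      refine F.OS.mul_mem (F.OS.pow_mem (F.mem_OS_of_Zr F.NN_mem_Zr) _) ?_
      split_ifs
      · exact F.OS.one_mem
      · exact F.OS.zero_mem
    · have e : (L (some a)).mulVec (fun k => (F.NN ^ M • (1 : Matrix n n ℚ)) k j) i =
          F.NN ^ M * L (some a) i j := by
        simp [Matrix.mulVec, dotProduct, Matrix.one_apply, mul_comm]
      rw [e, map_mul, map_pow, F.av_NN]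
      exact (mul_le_mul_of_nonneg_right (hM a) ((F.av _).nonneg _)).trans (hB0' (a, i, j))
  have hdetT : ∀ (Y : Matrix n n ℚ),
      (Matrix.of fun j => A.mulVec (fun k => Y k j)).det = A.det * Y.det := by
    intro Y
    rw [← Matrix.det_mul, ← Matrix.det_transpose]
    congr 1
  obtain ⟨h, d, h1, h2, h3, h4, h5, h6⟩ := reduce Λ (D2 * D1) (Nat.mul_pos hD2 hD1) hden
    ⟨fun j => A.mulVec (fun k => (F.NN ^ M • (1 : Matrix n n ℚ)) k j),
      fun j => ⟨_, hY0 j, rfl⟩, by
        rw [hdetT, Matrix.det_smul, Matrix.det_one, mul_one]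
        exact mul_ne_zero hAdet0 (pow_ne_zero _ (pow_ne_zero _ F.NN_ne_zero))⟩
  choose g hg hgh using h1
  have hgh' : ∀ j, A.mulVec (g j) = h j := hgh
  set H : Matrix n n ℚ := Matrix.of fun k l => g l k with hH
  have hHd : A.det * H.det = (Matrix.of h).det := by
    rw [← hdetT]
    congr 1
    ext j i
    rw [Matrix.of_apply, Matrix.of_apply, ← hgh' j]
    rfl
  have hdpos : 0 < ∏ j, d j := Finset.prod_pos (fun j _ => h3 j)
  have hH0 : H.det ≠ 0 := by
    intro h0
    rw [← hHd, h0, mul_zero, abs_zero] at h6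
    linarith
  have hgen : ∀ x ∈ Λ0, ∃ a : n → ℤ, x = H.mulVec (fun l => (a l : ℚ)) ∧
      A.mulVec x = ∑ j, (a j : ℚ) • h j := by
    intro x hx
    obtain ⟨a, ha⟩ := h2 _ ⟨x, hx, rfl⟩
    refine ⟨a, hAinj ?_, ha⟩
    have e : H.mulVec (fun l => (a l : ℚ)) = ∑ j, (a j : ℚ) • g j := by
      funext k
      simp [hH, Matrix.mulVec, dotProduct, mul_comm]
    rw [e, Matrix.mulVec_sum]
    simp only [Matrix.mulVec_smul, hgh']
    exact ha
  have hdiv : ∀ Y : Matrix n n ℚ, (∀ j, (fun k => Y k j) ∈ Λ0) → ∃ z ∈ Zr, Y.det = H.det * z := by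
    intro Y hY
    choose a ha _ using fun j => hgen _ (hY j)
    refine ⟨(Matrix.of fun l j => (a j l : ℚ)).det,
      det_mem_subring _ _ (fun _ _ => intCast_mem_Zr _), ?_⟩
    rw [← Matrix.det_mul]
    congr 1
    ext k j
    exact congrFun (ha j) k
  have hLH : ∀ v i l, (L v * H) i l = (L v).mulVec (g l) i := fun v i l => rfl
  have hR : ∀ i l, vinf ((L none * H) i l) = ρ i * |(h l i : ℝ)| := by
    intro i l
    rw [hLH, hAx, hgh', vinf_apply]
    push_cast
    rw [abs_mul, abs_of_pos (hρR i)]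
  have hinf : vinf (L none).det * vinf H.det = (∏ i, (ρ i : ℝ)) * ∏ l, (d l : ℝ) := by
    have e1 : (L none).det * H.det = (∏ i, ρ i) * (Matrix.of h).det := by
      rw [← hHd, hAdet, ← mul_assoc, ← mul_assoc, ← Finset.prod_mul_distrib]
      rw [Finset.prod_eq_one (fun i _ => mul_inv_cancel₀ (hρ0 i).ne'), one_mul]
    rw [← map_mul, e1, vinf_apply, Rat.cast_mul, abs_mul, ← Rat.cast_abs (Matrix.of h).det, h6]
    push_cast
    rw [abs_of_pos (Finset.prod_pos (fun i _ => hρR i))]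
  have hβp : ∀ v, 0 < ∏ i, β v i := fun v => Finset.prod_pos (fun i _ => hβ v i)
  have hdR : 0 < ∏ l, (d l : ℝ) := Finset.prod_pos (fun l _ => by exact_mod_cast h3 l)
  refine ⟨H, fun l => d l, fun l => Rat.cast_pos.2 (h3 l), hH0, fun k l => (hg l).1 k,
    fun a i l => (hg l).2 a i, fun i l => ?_, fun i l => ?_, ?_, ?_, fun x hx1 hx2 => ?_⟩
  · rw [hR]
    have a1 : |(h l i : ℝ)| ≤ 2 ^ N * d l := by exact_mod_cast h4 l i
    have := mul_le_mul (hρ2 i).le a1 (abs_nonneg _) (by linarith [hβ none i])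
    linarith
  · rw [hR]
    have a1 : |(h l i : ℝ)| ≤ 2 ^ N * d i := by exact_mod_cast h5 l i
    have := mul_le_mul (hρ2 i).le a1 (abs_nonneg _) (by linarith [hβ none i])
    linarith
  · have hunit : ∏ v, F.av v H.det ≤ 1 := by
      obtain ⟨z, hz, hz'⟩ := hdiv _ hY0
      rw [Matrix.det_smul, Matrix.det_one, mul_one, ← pow_mul] at hz'
      have h7 := F.prod_av_NN_pow (M * Fintype.card n)
      rw [hz', F.prod_av_mul] at h7
      have h8 := F.one_le_prod (F.mem_OS_of_Zr hz) (by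
        rintro rfl
        exact (pow_ne_zero _ F.NN_ne_zero) (hz'.trans (mul_zero _)))
      have h9 : 0 ≤ ∏ v, F.av v H.det := Finset.prod_nonneg (fun _ _ => (F.av _).nonneg _)
      nlinarith
    have hloc : ∀ a, ∏ i, β (some a) i ≤
        ((F.pr a / F.av (some a) D0) ^ N * F.av (some a) (L (some a)).det) *
          F.av (some a) H.det := by
      intro a
      obtain ⟨B, hB, hB'⟩ := exists_small (fun x : P × n × n => β (some x.1) x.2.1)
        (fun x => F.av (some x.1) ((L (some x.1) * ((D0 : ℚ) • (L (some a))⁻¹)) x.2.1 x.2.2))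
        (fun x => hβ _ _) (fun x => (F.av _).nonneg _)
      choose s hs1 hs2 hs3 hs4 using fun j => F.exists_scalar a (hβ (some a) j) hB
      set Y : Matrix n n ℚ := ((D0 : ℚ) • (L (some a))⁻¹) * Matrix.diagonal s with hY
      have hLY : L (some a) * Y = Matrix.diagonal (fun j => D0 * s j) := by
        rw [hY, ← Matrix.mul_assoc, Matrix.mul_smul, Matrix.mul_nonsing_inv _ (hLu _),
          Matrix.smul_mul, Matrix.one_mul]
        ext i j
        by_cases hij : i = j <;> simp [hij]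
      have hYΛ : ∀ j, (fun k => Y k j) ∈ Λ0 := by
        intro j
        refine ⟨fun k => ?_, fun b i => ?_⟩
        · show Y k j ∈ F.OS
          rw [hY, Matrix.mul_diagonal]
          exact F.OS.mul_mem (F.mem_OS_of_Zr (hD0Z (some a, k, j))) (hs1 j)
        · have e : (L (some b)).mulVec (fun k => Y k j) i = (L (some b) * Y) i j := rfl
          rw [e]
          by_cases hb : b = a
          · subst hb
            rw [hLY, Matrix.diagonal_apply]
            split_ifs with hij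
            · rw [map_mul]
              have := mul_le_mul (F.av_le_one b (natCast_mem Zr D0)) (hs3 i) ((F.av _).nonneg _)
                zero_le_one
              linarith
            · simpa using (hβ _ _).le
          · rw [hY, ← Matrix.mul_assoc, Matrix.mul_diagonal, map_mul, mul_comm]
            exact (mul_le_mul_of_nonneg_right (hs4 j b hb) ((F.av _).nonneg _)).trans
              (hB' (b, i, j))
      obtain ⟨z, hz, hz'⟩ := hdiv Y hYΛ
      have e1 := congrArg Matrix.det hLY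
      rw [Matrix.det_mul, Matrix.det_diagonal, hz'] at e1
      have e2 := congrArg (F.av (some a)) e1
      rw [map_mul, map_mul, map_prod] at e2
      have hD : 0 < F.av (some a) D0 := (F.av _).pos hD0'
      have h7 : ∏ i, β (some a) i ≤ ∏ i, (F.pr a / F.av (some a) D0) * F.av (some a) (D0 * s i) := by
        refine Finset.prod_le_prod (fun i _ => (hβ _ _).le) (fun i _ => ?_)
        rw [map_mul]
        refine (hs2 i).trans (le_of_eq ?_)
        field_simp
      rw [Finset.prod_mul_distrib, Finset.prod_const, Finset.card_univ, ← e2, ← hN] at h7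
      refine h7.trans ?_
      rw [mul_assoc]
      refine mul_le_mul_of_nonneg_left ?_ (by have := F.pr_pos a; positivity)
      refine mul_le_mul_of_nonneg_left ?_ ((F.av _).nonneg _)
      exact mul_le_of_le_one_right ((F.av _).nonneg _) (F.av_le_one a hz)
    rw [Fintype.prod_option] at hunit ⊢
    have h7 : ∏ a, ∏ i, β (some a) i ≤
        (∏ a, ((F.pr a / F.av (some a) D0) ^ N * F.av (some a) (L (some a)).det)) *
          ∏ a, F.av (some a) H.det := by
      rw [← Finset.prod_mul_distrib]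
      exact Finset.prod_le_prod (fun a _ => (hβp _).le) (fun a _ => hloc a)
    have h8 : (∏ l, (d l : ℝ)) * ∏ i, β none i ≤ vinf (L none).det * vinf H.det := by
      rw [hinf, mul_comm]
      exact mul_le_mul_of_nonneg_right
        (Finset.prod_le_prod (fun i _ => (hβ _ _).le) (fun i _ => (hρ1 i).le)) hdR.le
    have h9 : 0 ≤ vinf (L none).det *
        ∏ a, ((F.pr a / F.av (some a) D0) ^ N * F.av (some a) (L (some a)).det) := by
      refine mul_nonneg (vinf.nonneg _) (Finset.prod_nonneg (fun a _ => ?_))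
      have := F.pr_pos a
      have := (F.av (some a)).nonneg D0
      have := (F.av (some a)).nonneg (L (some a)).det
      positivity
    have h10 := mul_le_mul h8 h7 (Finset.prod_nonneg (fun a _ => (hβp _).le))
      (mul_nonneg (vinf.nonneg _) (vinf.nonneg _))
    have h11 := mul_le_mul_of_nonneg_left hunit h9
    rw [F.av_none] at h11
    nlinarith
  · have h7 := F.one_le_prod (det_mem_subring F.OS H (fun k l => (hg l).1 k)) hH0
    have e1 : ∏ v, F.av v H.det = (∏ v, (F.av v (L v).det)⁻¹) * ∏ v, F.av v (L v * H).det := by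
      rw [← Finset.prod_mul_distrib]
      refine Finset.prod_congr rfl (fun v _ => ?_)
      rw [Matrix.det_mul, map_mul, ← mul_assoc, inv_mul_cancel₀ ((F.av v).pos (hL v)).ne', one_mul]
    rw [e1] at h7
    refine h7.trans ?_
    rw [mul_assoc]
    refine mul_le_mul_of_nonneg_left ?_
      (Finset.prod_nonneg (fun v _ => inv_nonneg.2 ((F.av v).nonneg _)))
    rw [Fintype.prod_option, Fintype.prod_option]
    have h8 : F.av none (L none * H).det ≤ 2 ^ N * ((∏ l, (d l : ℝ)) * ∏ i, β none i) := by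
      rw [Matrix.det_mul, map_mul, F.av_none, hinf]
      have : ∏ i, (ρ i : ℝ) ≤ 2 ^ N * ∏ i, β none i := by
        refine (Finset.prod_le_prod (fun i _ => (hρR i).le) (fun i _ => (hρ2 i).le)).trans
          (le_of_eq ?_)
        rw [Finset.prod_mul_distrib, Finset.prod_const, Finset.card_univ]
      nlinarith
    have h9 : ∏ a, F.av (some a) (L (some a) * H).det ≤
        (∏ _a : P, (N.factorial : ℝ)) * ∏ a, ∏ i, β (some a) i := by
      rw [← Finset.prod_mul_distrib]
      exact Finset.prod_le_prod (fun a _ => (F.av _).nonneg _)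
        (fun a _ => av_det_le_prod _ _ _ (fun i l => (hg l).2 a i))
    refine (mul_le_mul h8 h9 (Finset.prod_nonneg (fun a _ => (F.av _).nonneg _))
      (by have := hβp none; positivity)).trans (le_of_eq ?_)
    ring
  · obtain ⟨a, ha1, ha2⟩ := hgen x ⟨hx1, fun a i => hx2 (some a) i⟩
    refine ⟨a, ha1, fun l => ?_⟩
    have e1 := Matrix.det_updateRow_sum (Matrix.of h) l (fun j => (a j : ℚ))
    have e2 : ∑ k, (a k : ℚ) • (Matrix.of h) k = A.mulVec x := ha2.symm
    rw [e2] at e1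
    have h7 := av_det_le_prod vinf ((Matrix.of h).updateRow l (A.mulVec x))
      (fun i => if i = l then 2 ^ N else 2 ^ N * d i) (fun i j => by
        rw [Matrix.updateRow_apply]
        split_ifs with hil
        · have b1 := hx2 none j
          rw [hAx, F.av_none, map_mul, vinf_apply, abs_of_pos (hρR j)] at b1
          have b2 := hρ1 j
          have b3 : vinf (A.mulVec x j) ≤ 1 := by
            by_contra hc
            push Not at hc
            have := hρR j
            nlinarith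
          exact b3.trans (one_le_pow₀ (by norm_num))
        · rw [vinf_apply, Matrix.of_apply]
          exact_mod_cast h4 i j)
    rw [e1, smul_eq_mul, map_mul, vinf_apply, vinf_apply, ← Rat.cast_abs (Matrix.of h).det, h6,
      ← Finset.mul_prod_erase _ _ (Finset.mem_univ l),
      ← Finset.mul_prod_erase _ _ (Finset.mem_univ l), if_pos rfl,
      Finset.prod_congr rfl (fun x hx => if_neg (Finset.ne_of_mem_erase hx)),
      Finset.prod_mul_distrib, Finset.prod_const, Finset.card_erase_of_mem (Finset.mem_univ l),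
      Finset.card_univ, ← hN] at h7
    push_cast at h7
    have h8 : 0 < ∏ i ∈ Finset.univ.erase l, (d i : ℝ) :=
      Finset.prod_pos (fun l _ => by exact_mod_cast h3 l)
    have hN1 : 1 ≤ N := Fintype.card_pos_iff.2 ⟨l⟩
    have e3 : (2 ^ N : ℝ) * (2 ^ N) ^ (N - 1) = (2 ^ N) ^ N := by
      rw [← pow_succ', Nat.sub_add_cancel hN1]
    have h9 : (|(a l : ℝ)| * d l) * ∏ i ∈ Finset.univ.erase l, (d i : ℝ) ≤
        (N.factorial * (2 ^ N) ^ N) * ∏ i ∈ Finset.univ.erase l, (d i : ℝ) := by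
      rw [← e3]; linarith
    exact le_of_mul_le_mul_right h9 h8

end

end Pool.Agent.Shared.Subspace
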