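import Mathlib

/-!
Polynomial tools for the Subspace Theorem: weighted l1 norms, coefficient subrings,
Hasse derivatives, shifts, index predicate, tensor products.
-/

set_option autoImplicit false

namespace Pool.Agent.Shared.Subspace

open MvPolynomial Finset

noncomputable section

variable {σ τ : Type*}

/-- weight of a monomial -/
def mw (w : σ → ℝ) (K : σ →₀ ℕ) : ℝ := K.prod (fun s e => w s ^ e)

lemma mw_nonneg {w : σ → ℝ} (hw : ∀ s, 0 ≤ w s) (K : σ →₀ ℕ) : 0 ≤ mw w K :=
  Finset.prod_nonneg (fun s _ => pow_nonneg (hw s) _)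

lemma mw_add (w : σ → ℝ) (K L : σ →₀ ℕ) : mw w (K + L) = mw w K * mw w L := by
  unfold mw
  exact Finsupp.prod_add_index' (fun _ => pow_zero _) (fun _ _ _ => pow_add _ _ _)

@[simp] lemma mw_zero (w : σ → ℝ) : mw w 0 = 1 := by simp [mw]

@[simp] lemma mw_single (w : σ → ℝ) (s : σ) (e : ℕ) : mw w (Finsupp.single s e) = w s ^ e := by
  unfold mw
  exact Finsupp.prod_single_index (pow_zero _)

@[simp] lemma mw_one (K : σ →₀ ℕ) : mw (fun _ => (1 : ℝ)) K = 1 := by simp [mw, Finsupp.prod]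

lemma mw_eq_prod [Fintype σ] (w : σ → ℝ) (K : σ →₀ ℕ) : mw w K = ∏ s, w s ^ K s := by
  unfold mw
  exact Finsupp.prod_fintype _ _ (fun _ => pow_zero _)

/-- weighted l1 norm of a polynomial with respect to an absolute value -/
def nrm (v : AbsoluteValue ℚ ℝ) (w : σ → ℝ) (F : MvPolynomial σ ℚ) : ℝ :=
  ∑ K ∈ F.support, v (coeff K F) * mw w K

variable {v : AbsoluteValue ℚ ℝ} {w : σ → ℝ}

lemma nrm_eq_of_subset {F : MvPolynomial σ ℚ} {s : Finset (σ →₀ ℕ)} (h : F.support ⊆ s) :
    nrm v w F = ∑ K ∈ s, v (coeff K F) * mw w K := by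
  unfold nrm
  refine Finset.sum_subset h (fun K _ hK => ?_)
  rw [notMem_support_iff.1 hK]; simp

lemma nrm_nonneg (hw : ∀ s, 0 ≤ w s) (F : MvPolynomial σ ℚ) : 0 ≤ nrm v w F :=
  Finset.sum_nonneg (fun K _ => mul_nonneg (v.nonneg _) (mw_nonneg hw K))

@[simp] lemma nrm_zero : nrm v w (0 : MvPolynomial σ ℚ) = 0 := by simp [nrm]

lemma nrm_monomial (K : σ →₀ ℕ) (c : ℚ) : nrm v w (monomial K c) = v c * mw w K := by
  classical
  rw [nrm_eq_of_subset (s := {K}) support_monomial_subset]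
  simp

lemma nrm_C (c : ℚ) : nrm v w (C c : MvPolynomial σ ℚ) = v c := by
  rw [← monomial_zero', nrm_monomial]; simp

lemma nrm_one : nrm v w (1 : MvPolynomial σ ℚ) = 1 := by
  rw [← C_1, nrm_C]; simp

lemma nrm_X (s : σ) : nrm v w (X s : MvPolynomial σ ℚ) = w s := by
  rw [X, nrm_monomial]; simp

lemma coeff_le_nrm (hw : ∀ s, 0 ≤ w s) (F : MvPolynomial σ ℚ) (K : σ →₀ ℕ) :
    v (coeff K F) * mw w K ≤ nrm v w F := by
  by_cases hK : K ∈ F.support
  · exact Finset.single_le_sum (f := fun K => v (coeff K F) * mw w K)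
      (fun K _ => mul_nonneg (v.nonneg _) (mw_nonneg hw K)) hK
  · rw [notMem_support_iff.1 hK]; simpa using nrm_nonneg hw F

lemma nrm_add_le (hw : ∀ s, 0 ≤ w s) (F G : MvPolynomial σ ℚ) :
    nrm v w (F + G) ≤ nrm v w F + nrm v w G := by
  classical
  rw [nrm_eq_of_subset (F := F + G) (s := F.support ∪ G.support) support_add,
    nrm_eq_of_subset (F := F) (s := F.support ∪ G.support) subset_union_left,
    nrm_eq_of_subset (F := G) (s := F.support ∪ G.support) subset_union_right,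
    ← Finset.sum_add_distrib]
  refine Finset.sum_le_sum (fun K _ => ?_)
  rw [coeff_add, ← add_mul]
  exact mul_le_mul_of_nonneg_right (v.add_le _ _) (mw_nonneg hw K)

lemma nrm_sum_le (hw : ∀ s, 0 ≤ w s) {ι : Type*} (s : Finset ι) (F : ι → MvPolynomial σ ℚ) :
    nrm v w (∑ i ∈ s, F i) ≤ ∑ i ∈ s, nrm v w (F i) := by
  classical
  induction s using Finset.induction_on with
  | empty => simp
  | insert a s ha ih =>
    rw [Finset.sum_insert ha, Finset.sum_insert ha]
    exact (nrm_add_le hw _ _).trans (by linarith)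

lemma nrm_mul_le (hw : ∀ s, 0 ≤ w s) (F G : MvPolynomial σ ℚ) :
    nrm v w (F * G) ≤ nrm v w F * nrm v w G := by
  classical
  have h : F * G = ∑ K ∈ F.support, ∑ L ∈ G.support,
      monomial (K + L) (coeff K F * coeff L G) := by
    conv_lhs => rw [F.as_sum, G.as_sum]
    rw [Finset.sum_mul_sum]
    simp only [monomial_mul]
  rw [h]
  refine (nrm_sum_le hw _ _).trans ?_
  unfold nrm
  rw [Finset.sum_mul_sum]
  refine Finset.sum_le_sum (fun K _ => ?_)
  refine (nrm_sum_le hw _ _).trans (le_of_eq ?_)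
  refine Finset.sum_congr rfl (fun L _ => ?_)
  rw [nrm_monomial, mw_add, map_mul]; ring

lemma nrm_prod_le (hw : ∀ s, 0 ≤ w s) {ι : Type*} (s : Finset ι) (F : ι → MvPolynomial σ ℚ) :
    nrm v w (∏ i ∈ s, F i) ≤ ∏ i ∈ s, nrm v w (F i) := by
  classical
  induction s using Finset.induction_on with
  | empty => simp [nrm_one]
  | insert a s ha ih =>
    rw [Finset.prod_insert ha, Finset.prod_insert ha]
    exact (nrm_mul_le hw _ _).trans (mul_le_mul_of_nonneg_left ih (nrm_nonneg hw _))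

lemma nrm_pow_le (hw : ∀ s, 0 ≤ w s) (F : MvPolynomial σ ℚ) (n : ℕ) :
    nrm v w (F ^ n) ≤ nrm v w F ^ n := by
  have := nrm_prod_le (v := v) hw (Finset.range n) (fun _ => F)
  simpa using this

lemma nrm_smul (c : ℚ) (F : MvPolynomial σ ℚ) : nrm v w (c • F) = v c * nrm v w F := by
  rw [nrm_eq_of_subset (F := c • F) (s := F.support) support_smul]
  unfold nrm
  rw [Finset.mul_sum]
  refine Finset.sum_congr rfl (fun K _ => ?_)
  rw [coeff_smul, smul_eq_mul, map_mul]; ring

lemma nrm_neg (F : MvPolynomial σ ℚ) : nrm v w (-F) = nrm v w F := by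
  rw [← neg_one_smul ℚ F, nrm_smul]; simp

lemma nrm_det_le (hw : ∀ s, 0 ≤ w s) {n : Type*} [Fintype n] [DecidableEq n]
    (M : Matrix n n (MvPolynomial σ ℚ)) {B : ℝ} (hB : ∀ i j, nrm v w (M i j) ≤ B) :
    nrm v w M.det ≤ (Fintype.card n).factorial * B ^ Fintype.card n := by
  rw [Matrix.det_apply]
  refine (nrm_sum_le hw _ _).trans ?_
  have : ∀ p : Equiv.Perm n, nrm v w (Equiv.Perm.sign p • ∏ i, M (p i) i) ≤ B ^ Fintype.card n := by
    intro p
    have h1 : nrm v w (Equiv.Perm.sign p • ∏ i, M (p i) i) = nrm v w (∏ i, M (p i) i) := by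
      rcases Int.units_eq_one_or (Equiv.Perm.sign p) with h | h <;> rw [h]
      · simp
      · simp [nrm_neg]
    rw [h1]
    refine (nrm_prod_le hw _ _).trans ?_
    rw [← Finset.card_univ, ← Finset.prod_const]
    exact Finset.prod_le_prod (fun i _ => nrm_nonneg hw _) (fun i _ => hB _ _)
  refine (Finset.sum_le_sum (fun p _ => this p)).trans (le_of_eq ?_)
  simp [Fintype.card_perm]

/-- comparison of norms along an injection of monomials -/
lemma nrm_one_le_of_inj {F : MvPolynomial σ ℚ} {G : MvPolynomial τ ℚ}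
    (φ : (τ →₀ ℕ) → (σ →₀ ℕ)) (hφ : Function.Injective φ) {B : ℝ} (hB : 0 ≤ B)
    (h : ∀ a, v (coeff a G) ≤ B * v (coeff (φ a) F)) :
    nrm v (fun _ => 1) G ≤ B * nrm v (fun _ => 1) F := by
  classical
  rw [nrm_eq_of_subset (F := F) (s := F.support ∪ G.support.image φ) subset_union_left]
  unfold nrm
  simp only [mw_one, mul_one]
  calc ∑ K ∈ G.support, v (coeff K G) ≤ ∑ K ∈ G.support, B * v (coeff (φ K) F) :=
        Finset.sum_le_sum (fun K _ => h K)
    _ = B * ∑ K ∈ G.support.image φ, v (coeff K F) := by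
        rw [Finset.sum_image (fun a _ b _ hab => hφ hab), Finset.mul_sum]
    _ ≤ _ := by
        refine mul_le_mul_of_nonneg_left ?_ hB
        exact Finset.sum_le_sum_of_subset_of_nonneg subset_union_right
          (fun _ _ _ => v.nonneg _)

/-- polynomials with coefficients in a subring -/
def cf (σ : Type*) (S : Subring ℚ) : Subring (MvPolynomial σ ℚ) where
  carrier := {F | ∀ K, coeff K F ∈ S}
  mul_mem' := by
    classical
    intro F G hF hG K
    rw [coeff_mul]
    exact S.sum_mem (fun x _ => S.mul_mem (hF _) (hG _))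
  one_mem' := by
    classical
    intro K
    rw [coeff_one]
    split_ifs
    · exact S.one_mem
    · exact S.zero_mem
  add_mem' := fun hF hG K => by rw [coeff_add]; exact S.add_mem (hF _) (hG _)
  zero_mem' := fun K => by simp
  neg_mem' := fun hF K => by rw [coeff_neg]; exact S.neg_mem (hF _)

lemma mem_cf {S : Subring ℚ} {F : MvPolynomial σ ℚ} : F ∈ cf σ S ↔ ∀ K, coeff K F ∈ S := Iff.rfl

lemma monomial_mem_cf {S : Subring ℚ} (K : σ →₀ ℕ) {c : ℚ} (hc : c ∈ S) :
    monomial K c ∈ cf σ S := by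
  classical
  intro L
  rw [coeff_monomial]
  split_ifs
  · exact hc
  · exact S.zero_mem

lemma C_mem_cf {S : Subring ℚ} {c : ℚ} (hc : c ∈ S) : (C c : MvPolynomial σ ℚ) ∈ cf σ S :=
  monomial_mem_cf 0 hc

lemma X_mem_cf {S : Subring ℚ} (s : σ) : (X s : MvPolynomial σ ℚ) ∈ cf σ S :=
  monomial_mem_cf _ S.one_mem

lemma aeval_mem_cf {S : Subring ℚ} {F : MvPolynomial σ ℚ} (hF : F ∈ cf σ S)
    {g : σ → MvPolynomial τ ℚ} (hg : ∀ s, g s ∈ cf τ S) : aeval g F ∈ cf τ S := by
  rw [F.as_sum, map_sum]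
  refine Subring.sum_mem _ (fun K _ => ?_)
  rw [aeval_monomial]
  refine Subring.mul_mem _ (C_mem_cf (hF K)) ?_
  exact Subring.prod_mem _ (fun s _ => Subring.pow_mem _ (hg s) _)

lemma det_mem_subring {R : Type*} [CommRing R] {n : Type*} [Fintype n] [DecidableEq n]
    (S : Subring R) (M : Matrix n n R) (h : ∀ i j, M i j ∈ S) : M.det ∈ S := by
  rw [Matrix.det_apply]
  refine S.sum_mem (fun p _ => ?_)
  have : ∏ i, M (p i) i ∈ S := S.prod_mem (fun i _ => h _ _)
  rcases Int.units_eq_one_or (Equiv.Perm.sign p) with h | h <;> rw [h]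
  · simpa using this
  · simpa using this

/-- norm of a substitution -/
lemma nrm_aeval_le {w' : τ → ℝ} (hw : ∀ s, 0 ≤ w' s) (F : MvPolynomial σ ℚ)
    (g : σ → MvPolynomial τ ℚ) {w : σ → ℝ} (hg : ∀ s, nrm v w' (g s) ≤ w s) :
    nrm v w' (aeval g F) ≤ nrm v w F := by
  conv_lhs => rw [F.as_sum, map_sum]
  refine (nrm_sum_le hw _ _).trans (Finset.sum_le_sum (fun K _ => ?_))
  rw [aeval_monomial]
  refine (nrm_mul_le hw _ _).trans ?_
  rw [algebraMap_eq, nrm_C]
  refine mul_le_mul_of_nonneg_left ?_ (v.nonneg _)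
  refine (nrm_prod_le hw _ _).trans ?_
  refine Finset.prod_le_prod (fun s _ => nrm_nonneg hw _) (fun s _ => ?_)
  exact (nrm_pow_le hw _ _).trans (pow_le_pow_left₀ (nrm_nonneg hw _) (hg s) _)

section Hasse

variable [Fintype σ]

/-- product of binomial coefficients -/
def bin (J a : σ →₀ ℕ) : ℕ := ∏ s, (J s).choose (a s)

/-- Hasse derivative -/
def hasse (a : σ →₀ ℕ) : MvPolynomial σ ℚ →ₗ[ℚ] MvPolynomial σ ℚ :=
  (basisMonomials σ ℚ).constr ℚ (fun J => monomial (J - a) (bin J a : ℚ))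

lemma hasse_monomial (a J : σ →₀ ℕ) (c : ℚ) :
    hasse a (monomial J c) = monomial (J - a) (c * bin J a) := by
  have h1 : monomial J c = c • (basisMonomials σ ℚ) J := by
    simp [smul_monomial]
  rw [h1, map_smul, hasse, Module.Basis.constr_basis, smul_monomial, smul_eq_mul]

lemma bin_eq_zero {J a : σ →₀ ℕ} (h : ¬ a ≤ J) : bin J a = 0 := by
  rw [Finsupp.le_def] at h
  push Not at h
  obtain ⟨s, hs⟩ := h
  exact Finset.prod_eq_zero (Finset.mem_univ s) (Nat.choose_eq_zero_of_lt hs)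

lemma coeff_hasse (a K : σ →₀ ℕ) (F : MvPolynomial σ ℚ) :
    coeff K (hasse a F) = (bin (K + a) a : ℚ) * coeff (K + a) F := by
  classical
  induction F using MvPolynomial.induction_on' with
  | add p q hp hq => rw [map_add, coeff_add, coeff_add, hp, hq]; ring
  | monomial J c =>
    rw [hasse_monomial, coeff_monomial, coeff_monomial]
    by_cases h : a ≤ J
    · by_cases h2 : J = K + a
      · subst h2; simp [mul_comm]
      · have : J - a ≠ K := by
          intro h3; apply h2; rw [← h3, tsub_add_cancel_of_le h]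
        simp [this, h2]
    · have h2 : J ≠ K + a := by
        intro h3; apply h; rw [h3]; exact le_add_self
      simp [bin_eq_zero h, h2]

@[simp] lemma bin_zero (J : σ →₀ ℕ) : bin J 0 = 1 := by simp [bin]

@[simp] lemma hasse_zero (F : MvPolynomial σ ℚ) : hasse 0 F = F := by
  ext K; simp [coeff_hasse]

lemma hasse_succ (a : σ →₀ ℕ) (s : σ) (F : MvPolynomial σ ℚ) :
    ((a s : ℚ) + 1) • hasse (a + Finsupp.single s 1) F = pderiv s (hasse a F) := by
  classical
  ext K
  rw [coeff_smul, coeff_pderiv, coeff_hasse, coeff_hasse, smul_eq_mul]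
  have e : K + (a + Finsupp.single s 1) = K + Finsupp.single s 1 + a := by abel
  rw [e]
  have key : (a s + 1) * bin (K + Finsupp.single s 1 + a) (a + Finsupp.single s 1)
      = bin (K + Finsupp.single s 1 + a) a * (K s + 1) := by
    unfold bin
    rw [← Finset.mul_prod_erase _ _ (Finset.mem_univ s),
      ← Finset.mul_prod_erase _ (fun t => ((K + Finsupp.single s 1 + a : σ →₀ ℕ) t).choose (a t))
        (Finset.mem_univ s)]
    have h1 : ∏ t ∈ Finset.univ.erase s,
        ((K + Finsupp.single s 1 + a : σ →₀ ℕ) t).choose ((a + Finsupp.single s 1 : σ →₀ ℕ) t)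
        = ∏ t ∈ Finset.univ.erase s,
          ((K + Finsupp.single s 1 + a : σ →₀ ℕ) t).choose (a t) := by
      refine Finset.prod_congr rfl (fun t ht => ?_)
      have : t ≠ s := Finset.ne_of_mem_erase ht
      simp [this.symm]
    rw [h1]
    have h2 := Nat.choose_succ_right_eq (K s + 1 + a s) (a s)
    simp only [Finsupp.coe_add, Pi.add_apply, Finsupp.single_eq_same]
    have h3 : K s + 1 + a s - a s = K s + 1 := by omega
    rw [h3] at h2
    rw [← mul_assoc, mul_comm (a s + 1), h2]; ring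
  have key' := congrArg (Nat.cast : ℕ → ℚ) key
  push_cast at key'
  linear_combination (coeff (K + Finsupp.single s 1 + a) F) * key'

/-- translation of the variables -/
def shift (ρ : σ → ℚ) : MvPolynomial σ ℚ →ₐ[ℚ] MvPolynomial σ ℚ :=
  aeval (fun s => X s + C (ρ s))

omit [Fintype σ] in
lemma pderiv_shift (ρ : σ → ℚ) (s : σ) (F : MvPolynomial σ ℚ) :
    pderiv s (shift ρ F) = shift ρ (pderiv s F) := by
  classical
  induction F using MvPolynomial.induction_on with
  | C c => simp [shift]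
  | add p q hp hq => simp [map_add, hp, hq]
  | mul_X p t hp =>
    rw [map_mul, pderiv_mul, pderiv_mul, hp, map_add, map_mul, map_mul]
    congr 1
    congr 1
    by_cases h : t = s
    · subst h; simp [shift]
    · simp [shift, pderiv_X_of_ne h]

lemma hasse_shift (ρ : σ → ℚ) (a : σ →₀ ℕ) (F : MvPolynomial σ ℚ) :
    hasse a (shift ρ F) = shift ρ (hasse a F) := by
  classical
  suffices h : ∀ n : ℕ, ∀ a : σ →₀ ℕ, ∑ s, a s = n → hasse a (shift ρ F) = shift ρ (hasse a F) from
    h _ a rfl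
  intro n
  induction n with
  | zero =>
    intro a ha
    have : a = 0 := by
      ext s
      exact (Finset.sum_eq_zero_iff.1 ha) s (Finset.mem_univ s)
    subst this; simp
  | succ n ih =>
    intro a ha
    obtain ⟨s, hs⟩ : ∃ s, a s ≠ 0 := by
      by_contra hcon
      push Not at hcon
      simp [hcon] at ha
    obtain ⟨b, rfl⟩ : ∃ b, a = b + Finsupp.single s 1 :=
      ⟨a - Finsupp.single s 1, (tsub_add_cancel_of_le (by
        rw [Finsupp.single_le_iff]; omega)).symm⟩
    have hb : ∑ t, b t = n := by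
      simp only [Finsupp.coe_add, Pi.add_apply, Finset.sum_add_distrib] at ha
      have : ∑ t, (Finsupp.single s 1 : σ →₀ ℕ) t = 1 := by
        simp [Finsupp.single_apply]
      omega
    have h1 := hasse_succ b s (shift ρ F)
    have h2 := hasse_succ b s F
    rw [ih b hb, pderiv_shift, ← h2, map_smul] at h1
    have hne : ((b s : ℚ) + 1) ≠ 0 := by positivity
    exact smul_right_injective _ hne h1

lemma hasse_mem_cf {S : Subring ℚ} (a : σ →₀ ℕ) {F : MvPolynomial σ ℚ} (hF : F ∈ cf σ S) :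
    hasse a F ∈ cf σ S := by
  intro K
  rw [coeff_hasse]
  exact S.mul_mem (natCast_mem S _) (hF _)

end Hasse

/-- all exponents bounded by `d` -/
def DegLE (d : σ → ℕ) (F : MvPolynomial σ ℚ) : Prop := ∀ a, coeff a F ≠ 0 → ∀ s, a s ≤ d s

lemma DegLE.mul {d e : σ → ℕ} {F G : MvPolynomial σ ℚ} (hF : DegLE d F) (hG : DegLE e G) :
    DegLE (fun s => d s + e s) (F * G) := by
  classical
  intro a ha s
  rw [coeff_mul] at ha
  obtain ⟨⟨x, y⟩, hxy, h⟩ := Finset.exists_ne_zero_of_sum_ne_zero ha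
  rw [Finset.HasAntidiagonal.mem_antidiagonal] at hxy
  have h1 := hF x (left_ne_zero_of_mul h) s
  have h2 := hG y (right_ne_zero_of_mul h) s
  have h3 : x s + y s = a s := by rw [← hxy]; rfl
  simp only
  omega

lemma DegLE.sum {d : σ → ℕ} {ι : Type*} (t : Finset ι) {F : ι → MvPolynomial σ ℚ}
    (hF : ∀ i ∈ t, DegLE d (F i)) : DegLE d (∑ i ∈ t, F i) := by
  intro a ha
  rw [coeff_sum] at ha
  obtain ⟨i, hi, h⟩ := Finset.exists_ne_zero_of_sum_ne_zero ha
  exact hF i hi a h

lemma DegLE.prod {d : σ → ℕ} {ι : Type*} (t : Finset ι) {F : ι → MvPolynomial σ ℚ}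
    (hF : ∀ i ∈ t, DegLE d (F i)) : DegLE (fun s => t.card * d s) (∏ i ∈ t, F i) := by
  classical
  induction t using Finset.induction_on with
  | empty =>
    intro a ha s
    rw [Finset.prod_empty, coeff_one] at ha
    have : 0 = a := by by_contra h; simp [h] at ha
    subst this; simp
  | insert i t hi ih =>
    rw [Finset.prod_insert hi, Finset.card_insert_of_notMem hi]
    have := (hF i (Finset.mem_insert_self _ _)).mul
      (ih (fun j hj => hF j (Finset.mem_insert_of_mem hj)))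
    intro a ha s
    have h := this a ha s
    simp only at h ⊢
    nlinarith

lemma DegLE.neg {d : σ → ℕ} {F : MvPolynomial σ ℚ} (hF : DegLE d F) : DegLE d (-F) := by
  intro a ha
  rw [coeff_neg] at ha
  exact hF a (neg_ne_zero.1 ha)

lemma DegLE.det {d : σ → ℕ} {n : Type*} [Fintype n] [DecidableEq n]
    (M : Matrix n n (MvPolynomial σ ℚ)) (h : ∀ i j, DegLE d (M i j)) :
    DegLE (fun s => Fintype.card n * d s) M.det := by
  rw [Matrix.det_apply]
  refine DegLE.sum _ (fun p _ => ?_)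
  have : DegLE (fun s => Fintype.card n * d s) (∏ i, M (p i) i) :=
    DegLE.prod Finset.univ (fun i _ => h _ _)
  rcases Int.units_eq_one_or (Equiv.Perm.sign p) with h | h <;> rw [h]
  · simpa using this
  · simpa using this.neg

lemma DegLE.hasse [Fintype σ] {d : σ → ℕ} {F : MvPolynomial σ ℚ} (hF : DegLE d F)
    (a : σ →₀ ℕ) : DegLE d (hasse a F) := by
  intro K hK s
  rw [coeff_hasse] at hK
  have := hF _ (right_ne_zero_of_mul hK) s
  simp only [Finsupp.coe_add, Pi.add_apply] at this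
  omega

/-- the usual absolute value on the rationals, with real values -/
def vinf : AbsoluteValue ℚ ℝ := Rat.AbsoluteValue.real

lemma vinf_apply (x : ℚ) : vinf x = |(x : ℝ)| := by
  simp [vinf, Rat.AbsoluteValue.real_eq_abs]

/-- l1 norm of the coefficient vector -/
def L1 (F : MvPolynomial σ ℚ) : ℝ := nrm vinf (fun _ => 1) F

lemma L1_hasse_le [Fintype σ] {d : σ → ℕ} {F : MvPolynomial σ ℚ} (hF : DegLE d F)
    (a : σ →₀ ℕ) : L1 (hasse a F) ≤ 2 ^ (∑ s, d s) * L1 F := by
  refine nrm_one_le_of_inj (fun K => K + a) (add_left_injective a) (by positivity) (fun K => ?_)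
  rw [coeff_hasse, map_mul]
  by_cases h : coeff (K + a) F = 0
  · simp [h]
  refine mul_le_mul_of_nonneg_right ?_ (vinf.nonneg _)
  rw [vinf_apply]
  have h1 : bin (K + a) a ≤ 2 ^ (∑ s, d s) := by
    unfold bin
    rw [← Finset.prod_pow_eq_pow_sum]
    refine Finset.prod_le_prod' (fun s _ => ?_)
    exact (Nat.choose_le_two_pow _ _).trans (Nat.pow_le_pow_right (by norm_num) (hF _ h s))
  rw [Rat.cast_natCast, abs_of_nonneg (by positivity)]
  exact_mod_cast h1

section Index

variable [Fintype σ]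

/-- weighted order of a multi-index -/
def wt (d : σ → ℕ) (a : σ →₀ ℕ) : ℝ := ∑ s, (a s : ℝ) / d s

lemma wt_nonneg (d : σ → ℕ) (a : σ →₀ ℕ) : 0 ≤ wt d a :=
  Finset.sum_nonneg (fun s _ => by positivity)

lemma wt_add (d : σ → ℕ) (a b : σ →₀ ℕ) : wt d (a + b) = wt d a + wt d b := by
  simp [wt, add_div, Finset.sum_add_distrib]

/-- index at the origin is at least `θ` -/
def Ind (d : σ → ℕ) (θ : ℝ) (F : MvPolynomial σ ℚ) : Prop := ∀ a, coeff a F ≠ 0 → θ ≤ wt d a

variable {d : σ → ℕ}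

lemma Ind.mono {θ θ' : ℝ} {F : MvPolynomial σ ℚ} (h : Ind d θ F) (h' : θ' ≤ θ) : Ind d θ' F :=
  fun a ha => h'.trans (h a ha)

lemma ind_zero (F : MvPolynomial σ ℚ) : Ind d 0 F := fun a _ => wt_nonneg d a

lemma Ind.max {θ θ' : ℝ} {F : MvPolynomial σ ℚ} (h : Ind d θ F) (h' : Ind d θ' F) :
    Ind d (max θ θ') F := fun a ha => max_le (h a ha) (h' a ha)

lemma Ind.mul {θ θ' : ℝ} {F G : MvPolynomial σ ℚ} (hF : Ind d θ F) (hG : Ind d θ' G) :
    Ind d (θ + θ') (F * G) := by
  classical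
  intro a ha
  rw [coeff_mul] at ha
  obtain ⟨⟨x, y⟩, hxy, h⟩ := Finset.exists_ne_zero_of_sum_ne_zero ha
  rw [Finset.HasAntidiagonal.mem_antidiagonal] at hxy
  have h1 := hF x (left_ne_zero_of_mul h)
  have h2 := hG y (right_ne_zero_of_mul h)
  rw [← hxy, wt_add]
  exact add_le_add h1 h2

lemma Ind.sum {θ : ℝ} {ι : Type*} (t : Finset ι) {F : ι → MvPolynomial σ ℚ}
    (hF : ∀ i ∈ t, Ind d θ (F i)) : Ind d θ (∑ i ∈ t, F i) := by
  intro a ha
  rw [coeff_sum] at ha
  obtain ⟨i, hi, h⟩ := Finset.exists_ne_zero_of_sum_ne_zero ha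
  exact hF i hi a h

lemma Ind.prod {ι : Type*} (t : Finset ι) {θ : ι → ℝ} {F : ι → MvPolynomial σ ℚ}
    (hF : ∀ i ∈ t, Ind d (θ i) (F i)) : Ind d (∑ i ∈ t, θ i) (∏ i ∈ t, F i) := by
  classical
  induction t using Finset.induction_on with
  | empty => simpa using ind_zero _
  | insert i t hi ih =>
    rw [Finset.prod_insert hi, Finset.sum_insert hi]
    exact (hF i (Finset.mem_insert_self _ _)).mul
      (ih (fun j hj => hF j (Finset.mem_insert_of_mem hj)))

lemma Ind.neg {θ : ℝ} {F : MvPolynomial σ ℚ} (hF : Ind d θ F) : Ind d θ (-F) := by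
  intro a ha
  rw [coeff_neg] at ha
  exact hF a (neg_ne_zero.1 ha)

lemma Ind.det {n : Type*} [Fintype n] [DecidableEq n] (r c : n → ℝ)
    (M : Matrix n n (MvPolynomial σ ℚ)) (h : ∀ i j, Ind d (r i + c j) (M i j)) :
    Ind d (∑ i, r i + ∑ j, c j) M.det := by
  rw [Matrix.det_apply]
  refine Ind.sum _ (fun p _ => ?_)
  have h1 : Ind d (∑ i, (r (p i) + c i)) (∏ i, M (p i) i) :=
    Ind.prod Finset.univ (fun i _ => h _ _)
  rw [Finset.sum_add_distrib, Equiv.sum_comp p r] at h1
  rcases Int.units_eq_one_or (Equiv.Perm.sign p) with h | h <;> rw [h]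
  · simpa using h1
  · simpa using h1.neg

lemma Ind.hasse {θ : ℝ} {F : MvPolynomial σ ℚ} (hF : Ind d θ F) (a : σ →₀ ℕ) :
    Ind d (θ - wt d a) (hasse a F) := by
  intro K hK
  rw [coeff_hasse] at hK
  have := hF _ (right_ne_zero_of_mul hK)
  rw [wt_add] at this
  linarith

end Index

section Tens

/-- product of polynomials in separate variables -/
def tens (U : MvPolynomial σ ℚ) (V : MvPolynomial τ ℚ) : MvPolynomial (σ ⊕ τ) ℚ :=
  rename Sum.inl U * rename Sum.inr V

lemma tens_monomial (a : σ →₀ ℕ) (b : τ →₀ ℕ) (x y : ℚ) :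
    tens (monomial a x) (monomial b y) = monomial (a.sumElim b) (x * y) := by
  rw [tens, rename_monomial, rename_monomial, monomial_mul, Finsupp.sumElim_eq_add]

lemma sumElim_inj {a a' : σ →₀ ℕ} {b b' : τ →₀ ℕ} :
    a.sumElim b = a'.sumElim b' ↔ a = a' ∧ b = b' := by
  constructor
  · intro h
    constructor
    · ext s; exact congrArg (fun f : σ ⊕ τ →₀ ℕ => f (Sum.inl s)) h
    · ext s; exact congrArg (fun f : σ ⊕ τ →₀ ℕ => f (Sum.inr s)) h
  · rintro ⟨rfl, rfl⟩; rfl

lemma exists_sumElim (K : σ ⊕ τ →₀ ℕ) : ∃ a b, K = Finsupp.sumElim a b :=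
  ⟨_, _, (Finsupp.comapDomain_sumElim_comapDomain K).symm⟩

lemma coeff_tens (U : MvPolynomial σ ℚ) (V : MvPolynomial τ ℚ) (a : σ →₀ ℕ) (b : τ →₀ ℕ) :
    coeff (a.sumElim b) (tens U V) = coeff a U * coeff b V := by
  classical
  induction U using MvPolynomial.induction_on' with
  | add p q hp hq =>
    have : tens (p + q) V = tens p V + tens q V := by simp [tens, add_mul]
    rw [this, coeff_add, coeff_add, hp, hq]; ring
  | monomial a' x =>
    induction V using MvPolynomial.induction_on' with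
    | add p q hp hq =>
      have : tens (monomial a' x) (p + q) = tens (monomial a' x) p + tens (monomial a' x) q := by
        simp [tens, mul_add]
      rw [this, coeff_add, coeff_add, hp, hq]; ring
    | monomial b' y =>
      rw [tens_monomial, coeff_monomial, coeff_monomial, coeff_monomial]
      simp only [sumElim_inj]
      by_cases h1 : a' = a <;> by_cases h2 : b' = b <;> simp [h1, h2]

lemma hasse_tens [Fintype σ] [Fintype τ] (U : MvPolynomial σ ℚ) (V : MvPolynomial τ ℚ)
    (a : σ →₀ ℕ) (b : τ →₀ ℕ) :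
    hasse (a.sumElim b) (tens U V) = tens (hasse a U) (hasse b V) := by
  ext K
  obtain ⟨a', b', rfl⟩ := exists_sumElim K
  rw [coeff_hasse, ← Finsupp.sumElim_add, coeff_tens, coeff_tens, coeff_hasse, coeff_hasse]
  have : bin ((a' + a).sumElim (b' + b)) (a.sumElim b) = bin (a' + a) a * bin (b' + b) b := by
    unfold bin
    rw [Fintype.prod_sum_type]
    rfl
  rw [this]; push_cast; ring

lemma shift_tens (ρ : σ ⊕ τ → ℚ) (U : MvPolynomial σ ℚ) (V : MvPolynomial τ ℚ) :
    shift ρ (tens U V) = tens (shift (fun s => ρ (Sum.inl s)) U) (shift (fun s => ρ (Sum.inr s)) V) := by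
  have h1 : (shift ρ).comp (rename Sum.inl) =
      (rename Sum.inl).comp (shift (fun s => ρ (Sum.inl s))) := by
    ext s; simp [shift]
  have h2 : (shift ρ).comp (rename Sum.inr) =
      (rename Sum.inr).comp (shift (fun s => ρ (Sum.inr s))) := by
    ext s; simp [shift]
  rw [tens, tens, map_mul]
  congr 1
  · exact congrArg (fun f : MvPolynomial σ ℚ →ₐ[ℚ] MvPolynomial (σ ⊕ τ) ℚ => f U) h1
  · exact congrArg (fun f : MvPolynomial τ ℚ →ₐ[ℚ] MvPolynomial (σ ⊕ τ) ℚ => f V) h2

lemma wt_sumElim [Fintype σ] [Fintype τ] (d : σ ⊕ τ → ℕ) (a : σ →₀ ℕ) (b : τ →₀ ℕ) :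
    wt d (a.sumElim b) = wt (fun s => d (Sum.inl s)) a + wt (fun s => d (Sum.inr s)) b := by
  unfold wt
  rw [Fintype.sum_sum_type]
  rfl

end Tens

end

end Pool.Agent.Shared.Subspace
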