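import Pool.Agent.Shared.SubspaceOrth

/-!
Rigidity: integral points of a finitely generated module over the expanding S-units satisfy
relations with coefficients of bounded range.
-/

set_option autoImplicit false

namespace Pool.Agent.Shared.Subspace

open Finset Filter Topology

noncomputable section

lemma exists_relation {K : Type*} [Field K] (A : ℝ → AddSubgroup K) (hmono : Monotone A)
    (hmul : ∀ a b x y, x ∈ A a → y ∈ A b → x * y ∈ A (a + b)) (hone : 1 ∈ A 0) (n : ℕ) :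
    ∀ C, 0 ≤ C → ∃ C', 0 ≤ C' ∧ ∀ M : Fin (n + 1) → Fin n → K, (∀ t i, M t i ∈ A C) →
      ∃ κ : Fin (n + 1) → K, (∀ t, κ t ∈ A C') ∧ κ ≠ 0 ∧ ∀ i, ∑ t, κ t * M t i = 0 := by
  induction n with
  | zero =>
    intro C _
    exact ⟨0, le_rfl, fun M _ => ⟨fun _ => 1, fun _ => hone,
      fun h => one_ne_zero (congrFun h 0), fun i => i.elim0⟩⟩
  | succ n ih =>
    intro C hC
    obtain ⟨C', hC', H⟩ := ih (C + C) (by linarith)
    refine ⟨C' + C, by linarith, fun M hM => ?_⟩
    obtain ⟨p, π, hπ0, hπ, hp⟩ : ∃ p π, π ≠ 0 ∧ π ∈ A C ∧ ∀ t, π * M t 0 = M t 0 * M p 0 := by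
      by_cases h : ∀ t, M t 0 = 0
      · exact ⟨0, 1, one_ne_zero, hmono hC hone, fun t => by simp [h]⟩
      · push Not at h
        obtain ⟨p, hp⟩ := h
        exact ⟨p, M p 0, hp, hM _ _, fun t => mul_comm _ _⟩
    obtain ⟨κ, h1, h2, h3⟩ := H
      (fun t i => π * M (p.succAbove t) i.succ - M (p.succAbove t) 0 * M p i.succ)
      (fun t i => sub_mem (hmul _ _ _ _ hπ (hM _ _)) (hmul _ _ _ _ (hM _ _) (hM _ _)))
    refine ⟨p.insertNth (-∑ t, κ t * M (p.succAbove t) 0) (fun t => κ t * π), ?_, ?_, ?_⟩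
    · refine p.succAboveCases ?_ (fun t => ?_)
      · rw [Fin.insertNth_apply_same]
        exact neg_mem (sum_mem (fun t _ => hmul _ _ _ _ (h1 t) (hM _ _)))
      · rw [Fin.insertNth_apply_succAbove]
        exact hmul _ _ _ _ (h1 t) hπ
    · intro h
      apply h2
      funext t
      have := congrFun h (p.succAbove t)
      rw [Fin.insertNth_apply_succAbove] at this
      exact (mul_eq_zero.1 this).resolve_right hπ0
    · intro i
      rw [Fin.sum_univ_succAbove _ p]
      simp only [Fin.insertNth_apply_same, Fin.insertNth_apply_succAbove]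
      refine i.cases ?_ (fun i => ?_)
      · simp only [mul_assoc, hp, neg_mul, sum_mul, neg_add_cancel]
      · rw [← h3 i]
        simp only [mul_sub, sum_sub_distrib, neg_mul, sum_mul, mul_assoc]
        ring

variable {ι : Type} {U : Ultrafilter ι} {l : ι → ℝ} {P : Type} [Fintype P] (F : PrimeFam P)

/-- span of the S-units whose size at `v` lies in `[-C, C]` -/
def RI (hl : Tendsto l U atTop) (v : Option P) (C : ℝ) : Submodule ℚ (KK U) :=
  RS F (lam F hl v ⁻¹' Set.Icc (-C) C)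

lemma RI_mono (hl : Tendsto l U atTop) (v : Option P) : Monotone (RI F hl v) :=
  fun _ _ h => RS_mono F (Set.preimage_mono (Set.Icc_subset_Icc (neg_le_neg h) h))

lemma mul_mem_RI (hl : Tendsto l U atTop) (v : Option P) {a b : ℝ} {x y : KK U}
    (hx : x ∈ RI F hl v a) (hy : y ∈ RI F hl v b) : x * y ∈ RI F hl v (a + b) := by
  refine mul_mem_RS F (fun γ h γ' h' => ?_) hx hy
  simp only [Set.mem_preimage, Set.mem_Icc, map_add] at h h' ⊢
  constructor <;> linarith [h.1, h.2, h'.1, h'.2]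

lemma exists_mem_RI (hl : Tendsto l U atTop) (v : Option P) {x : KK U} (hx : x ∈ RR F U l) :
    ∃ C, x ∈ RI F hl v C := by
  obtain ⟨φ, rfl⟩ := exists_ev F hx
  refine ⟨∑ γ ∈ φ.support, |lam F hl v γ|, (ev_mem_RS F).2 (fun γ hγ => abs_le.1 ?_)⟩
  exact single_le_sum (f := fun γ => |lam F hl v γ|) (fun _ _ => abs_nonneg _) hγ

lemma exists_mem_RI_finite (hl : Tendsto l U atTop) (v : Option P) {α : Type} [Fintype α]
    {x : α → KK U} (hx : ∀ a, x a ∈ RR F U l) : ∃ C, 0 ≤ C ∧ ∀ a, x a ∈ RI F hl v C := by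
  choose C hC using fun a => exists_mem_RI F hl v (hx a)
  refine ⟨∑ a, |C a|, sum_nonneg (fun _ _ => abs_nonneg _), fun a => RI_mono F hl v ?_ (hC a)⟩
  exact (le_abs_self _).trans
    (single_le_sum (f := fun a => |C a|) (fun _ _ => abs_nonneg _) (mem_univ a))

/-- the algebra spanned by the S-units that do not contract at `v` -/
def RP (hl : Tendsto l U atTop) (v : Option P) : Subalgebra ℚ (KK U) :=
  (RS F (lam F hl v ⁻¹' Set.Ici 0)).toSubalgebra (one_mem_RS F (by simp))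
    (fun _ _ => mul_mem_RS F (fun γ h γ' h' => by
      simp only [Set.mem_preimage, Set.mem_Ici, map_add] at h h' ⊢
      linarith))

lemma mon_mem_RP (hl : Tendsto l U atTop) (v : Option P) {e : EE P U l} (h : 0 ≤ lam0 F v e) :
    mon F U e.1 ∈ RP F hl v := mon_mem_RS F (e := e) h

/-- Rigidity. -/
theorem rigid (hl : Tendsto l U atTop) (w : Option P) {β : Type} [Fintype β] (g : β → KK U)
    (hO : ∀ b, g b ∈ GO F U) (η : Option P → ℝ) (hη : ∀ v b, GLe l (F.av v) (g b) (η v))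
    (hη0 : 0 ≤ ∑ v, η v) :
    ∃ (n : ℕ) (C : ℝ), 0 ≤ C ∧ ∀ X : Fin (n + 1) → KK U,
      (∀ t, X t ∈ Submodule.span (RP F hl w) (Set.range g)) → (∀ t, GLe l (F.av w) (X t) 0) →
      ∃ κ : Fin (n + 1) → KK U, (∀ t, κ t ∈ RI F hl w C) ∧ κ ≠ 0 ∧ ∑ t, κ t * X t = 0 := by
  classical
  obtain ⟨s, hs, hmax⟩ := exists_maximal_linearIndepOn (RR F U l) g
  have h1 : ∀ b, ∃ a : RR F U l, a ≠ 0 ∧ a • g b ∈ Submodule.span (RR F U l) (g '' s) := by
    intro b
    by_cases hb : b ∈ s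
    · exact ⟨1, one_ne_zero, Submodule.smul_mem _ _ (Submodule.subset_span ⟨b, hb, rfl⟩)⟩
    · exact hmax b hb
  choose a ha0 ha using h1
  set d : RR F U l := ∏ b, a b with hd
  have hd0 : (d : KK U) ≠ 0 := by
    have : d ≠ 0 := prod_ne_zero_iff.2 (fun b _ => ha0 b)
    exact fun h => this (Subtype.ext h)
  let n := Fintype.card s
  let q : Fin n ≃ s := (Fintype.equivFin s).symm
  let e : Fin n → KK U := fun i => g (q i).1
  have he : LinearIndependent (RR F U l) e := hs.comp _ q.injective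
  have h2 : ∀ b, ∃ r : Fin n → RR F U l, ∑ i, r i • e i = d • g b := by
    intro b
    rw [← Submodule.mem_span_range_iff_exists_fun]
    have : Set.range e = g '' s := by
      ext y
      constructor
      · rintro ⟨i, rfl⟩; exact ⟨_, (q i).2, rfl⟩
      · rintro ⟨b, hb, rfl⟩; exact ⟨q.symm ⟨b, hb⟩, by simp [e]⟩
    rw [this, hd, ← mul_prod_erase _ _ (mem_univ b), mul_comm, mul_smul]
    exact Submodule.smul_mem _ _ (ha b)
  choose r hr using h2
  obtain ⟨C1, hC1, hr1⟩ := exists_mem_RI_finite F hl w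
    (x := fun p : β × Fin n => (r p.1 p.2 : KK U)) (fun p => (r p.1 p.2).2)
  obtain ⟨C2, hd2⟩ := exists_mem_RI F hl w d.2
  set C3 := C1 + |C2 + 0 - η w + 2 * Fintype.card (Fin n) * ∑ v, η v| with hC3
  obtain ⟨C, hC, H⟩ := exists_relation (fun C => (RI F hl w C).toAddSubgroup)
    (fun _ _ h => RI_mono F hl w h) (fun _ _ _ _ => mul_mem_RI F hl w)
    (one_mem_RS F (by simp)) n C3 (by positivity)
  refine ⟨n, C, hC, fun X hX hX0 => ?_⟩
  have h3 : ∀ y ∈ Submodule.span (RP F hl w) (Set.range g), ∃ φ : Fin n → KK U,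
      (∀ i, φ i ∈ RS F (lam F hl w ⁻¹' Set.Ici (-C1))) ∧ ∑ i, φ i * e i = d * y := by
    intro y hy
    induction hy using Submodule.span_induction with
    | mem y hy =>
      obtain ⟨b, rfl⟩ := hy
      exact ⟨fun i => r b i, fun i => RS_mono F (fun γ h => h.1) (hr1 (b, i)), hr b⟩
    | zero => exact ⟨0, fun i => Submodule.zero_mem _, by simp⟩
    | add y z _ _ hy hz =>
      obtain ⟨φ, h1, h2⟩ := hy
      obtain ⟨ψ, h3, h4⟩ := hz
      exact ⟨φ + ψ, fun i => Submodule.add_mem _ (h1 i) (h3 i), by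
        simp only [Pi.add_apply, add_mul, sum_add_distrib, h2, h4, mul_add]⟩
    | smul c y _ hy =>
      obtain ⟨φ, h1, h2⟩ := hy
      refine ⟨fun i => c * φ i, fun i => mul_mem_RS F (fun γ h γ' h' => ?_) c.2 (h1 i), ?_⟩
      · simp only [Set.mem_preimage, Set.mem_Ici, map_add] at h h' ⊢
        linarith
      · simp only [mul_assoc, ← mul_sum, h2]
        change _ = _ * ((c : KK U) * y)
        ring
  choose φ hφ1 hφ2 using fun t => h3 _ (hX t)
  obtain ⟨κ, h4, h5, h6⟩ := H φ (fun t i => by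
    have h4 := orth F hl e he (fun i => hO _) η (fun v i => hη v _) hη0 (φ t)
      (fun i => mem_RR_of_RS F (hφ1 t i)) w (C2 + 0) (by
        rw [hφ2]
        exact (GLe_of_mem_RS F hl w (RS_mono F (fun γ h => h.2) hd2)).mul (hX0 t)) i
    refine RS_mono F (fun γ h => ?_) (mem_RS_inter F (hφ1 t i) h4)
    simp only [Set.mem_inter_iff, Set.mem_preimage, Set.mem_Ici, Set.mem_Iic, Set.mem_Icc] at h ⊢
    have := abs_nonneg (C2 + 0 - η w + 2 * Fintype.card (Fin n) * ∑ v, η v)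
    have := le_abs_self (C2 + 0 - η w + 2 * Fintype.card (Fin n) * ∑ v, η v)
    constructor <;> linarith [h.1, h.2])
  refine ⟨κ, h4, h5, mul_left_cancel₀ hd0 ?_⟩
  rw [mul_zero, mul_sum]
  simp only [mul_left_comm (d : KK U), ← hφ2, mul_sum, ← mul_assoc]
  rw [sum_comm]
  simp only [← sum_mul, h6, zero_mul, sum_const_zero]

/-- A sum of well separated terms, each slightly perturbed, does not vanish. -/
theorem separated_sum (hl : Tendsto l U atTop) (w v : Option P) {α : Type} [Fintype α] {C c : ℝ}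
    (hc : 0 < c) (κ : α → KK U) (hκ : ∀ i, κ i ∈ RI F hl w C) (hκ0 : κ ≠ 0)
    (g : α → EE P U l) (hg : ∀ i i', i ≠ i' → 2 * C < |lam0 F w (g i) - lam0 F w (g i')|)
    (ε : α → KK U) (hε : ∀ i, GLe l (F.av v) (ε i) (-c)) :
    ∑ i, κ i * mon F U (g i).1 * (1 + ε i) ≠ 0 := by
  classical
  intro h0
  have h1 : ∀ i, κ i * mon F U (g i).1 ∈
      RS F (lam F hl w ⁻¹' Set.Icc (lam0 F w (g i) - C) (lam0 F w (g i) + C)) := by
    intro i
    refine mul_mem_RS F (S' := {(g i : GG P U l)}) (fun γ h γ' h' => ?_) (hκ i)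
      (mon_mem_RS F rfl)
    rw [Set.mem_singleton_iff.1 h']
    simp only [Set.mem_preimage, Set.mem_Icc, map_add, lam_mk] at h ⊢
    constructor <;> linarith [h.1, h.2]
  choose ψ hψ1 hψ2 using fun i => (mem_RS F).1 (h1 i)
  obtain ⟨i0, hi0⟩ := Function.ne_iff.1 hκ0
  have hne : (univ.biUnion (fun i => (ψ i).support)).Nonempty := by
    have : ψ i0 ≠ 0 := by
      intro h
      have := hψ2 i0
      rw [h, map_zero] at this
      exact mul_ne_zero hi0 (mon_ne_zero F _) this.symm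
    obtain ⟨γ, hγ⟩ := Finsupp.support_nonempty_iff.2 this
    exact ⟨γ, mem_biUnion.2 ⟨i0, mem_univ _, hγ⟩⟩
  obtain ⟨γ1, hγ1, hmax⟩ := exists_max_image _ (lam F hl v) hne
  obtain ⟨i1, -, hγ1⟩ := mem_biUnion.1 hγ1
  have h2 : ∀ i, GLe l (F.av v) (ev F (ψ i)) (lam F hl v γ1) := fun i =>
    GLe_of_mem_RS F hl v ((ev_mem_RS F).2 (fun γ hγ => hmax γ (mem_biUnion.2 ⟨i, mem_univ _, hγ⟩)))
  have h3 : ev F (∑ i, ψ i) = -∑ i, ev F (ψ i) * ε i := by
    rw [map_sum, eq_neg_iff_add_eq_zero, ← sum_add_distrib, ← h0]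
    exact sum_congr rfl (fun i _ => by rw [hψ2]; ring)
  have h4 : GLe l (F.av v) (ev F (∑ i, ψ i)) (lam F hl v γ1 + -c) := by
    rw [h3]; exact (GLe.sum hl _ (fun i _ => (h2 i).mul (hε i))).neg hl
  have h5 := (ev_mem_RS F).1 (orth_one F hl ((ev_mem_RS F).2 (fun _ _ => trivial)) v h4) γ1 (by
    rw [Finsupp.mem_support_iff, Finsupp.finsetSum_apply, sum_eq_single i1]
    · exact Finsupp.mem_support_iff.1 hγ1
    · intro i _ hi
      by_contra h
      have a1 := hψ1 i γ1 (Finsupp.mem_support_iff.2 h)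
      have a2 := hψ1 i1 γ1 hγ1
      simp only [Set.mem_preimage, Set.mem_Icc] at a1 a2
      refine absurd (hg i i1 hi) (not_lt.2 (abs_le.2 ⟨?_, ?_⟩)) <;> linarith [a1.1, a1.2, a2.1, a2.2]
    · simp)
  simp only [Set.mem_preimage, Set.mem_Iic] at h5
  linarith

end

end Pool.Agent.Shared.Subspace
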