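import Pool.Agent.Shared.SubspaceWronski

/-!
Roth's lemma (qualitative form).
-/

set_option autoImplicit false

namespace Pool.Agent.Shared.Subspace

open MvPolynomial Finset

noncomputable section

/-- the integers inside the rationals -/
def Zr : Subring ℚ := (Int.castRingHom ℚ).range

lemma mem_Zr {x : ℚ} : x ∈ Zr ↔ ∃ z : ℤ, (z : ℚ) = x := Iff.rfl

lemma intCast_mem_Zr (z : ℤ) : (z : ℚ) ∈ Zr := ⟨z, rfl⟩

lemma one_le_vinf {x : ℚ} (hx : x ∈ Zr) (h0 : x ≠ 0) : 1 ≤ vinf x := by
  obtain ⟨z, rfl⟩ := mem_Zr.1 hx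
  rw [vinf_apply, Rat.cast_intCast, ← Int.cast_abs]
  have : z ≠ 0 := by rintro rfl; simp at h0
  exact_mod_cast Int.one_le_abs this

lemma coeff_le_L1 {σ : Type*} (F : MvPolynomial σ ℚ) (K : σ →₀ ℕ) : vinf (coeff K F) ≤ L1 F := by
  simpa [L1] using coeff_le_nrm (v := vinf) (w := fun _ => 1) (fun _ => zero_le_one) F K

lemma one_le_L1 {σ : Type*} {F : MvPolynomial σ ℚ} (hF : F ∈ cf σ Zr) (h0 : F ≠ 0) : 1 ≤ L1 F := by
  obtain ⟨K, hK⟩ := ne_zero_iff.1 h0
  exact (one_le_vinf (hF K) hK).trans (coeff_le_L1 F K)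

lemma shift_shift_neg {σ : Type*} (ρ : σ → ℚ) (F : MvPolynomial σ ℚ) :
    shift (fun s => -ρ s) (shift ρ F) = F := by
  have : (shift (fun s => -ρ s)).comp (shift ρ) = AlgHom.id ℚ _ := by
    ext s; simp [shift]
  exact congrArg (fun f : MvPolynomial σ ℚ →ₐ[ℚ] MvPolynomial σ ℚ => f F) this

lemma shift_ne_zero {σ : Type*} (ρ : σ → ℚ) {F : MvPolynomial σ ℚ} (h : F ≠ 0) :
    shift ρ F ≠ 0 := by
  intro h0
  apply h
  rw [← shift_shift_neg ρ F, h0, map_zero]

/-- one variable case -/
lemma roth_one (V : MvPolynomial Unit ℚ) (hV : V ∈ cf Unit Zr) (h0 : V ≠ 0) (ρ : Unit → ℚ)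
    (r : ℕ) (hr : ∀ a, coeff a (shift ρ V) ≠ 0 → r ≤ a ()) : ((ρ ()).den : ℝ) ^ r ≤ L1 V := by
  set p : Polynomial ℚ := uniqueAlgEquiv ℚ Unit V with hp
  have hp0 : p ≠ 0 := by
    rw [hp]; exact (map_ne_zero_iff _ (uniqueAlgEquiv ℚ Unit).injective).2 h0
  have h1 : uniqueAlgEquiv ℚ Unit (shift ρ V) = Polynomial.taylor (ρ ()) p := by
    have : (uniqueAlgEquiv ℚ Unit).toAlgHom.comp (shift ρ) =
        (Polynomial.taylorAlgHom (ρ ())).comp (uniqueAlgEquiv ℚ Unit).toAlgHom := by
      ext s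
      simp [shift]
    exact congrArg (fun f : MvPolynomial Unit ℚ →ₐ[ℚ] Polynomial ℚ => f V) this
  have h2 : Polynomial.X ^ r ∣ Polynomial.taylor (ρ ()) p := by
    rw [Polynomial.X_pow_dvd_iff]
    intro e he
    rw [← h1, coeff_uniqueAlgEquiv]
    by_contra hne
    have := hr _ hne
    simp at this
    omega
  have h3 : (Polynomial.X - Polynomial.C (ρ ())) ^ r ∣ p := by
    obtain ⟨g, hg⟩ := h2
    have := congrArg (Polynomial.taylor (-ρ ())) hg
    rw [Polynomial.taylor_taylor, neg_add_cancel, Polynomial.taylor_zero, Polynomial.taylor_mul,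
      Polynomial.taylor_X_pow] at this
    refine ⟨Polynomial.taylor (-ρ ()) g, ?_⟩
    rw [this, map_neg, sub_eq_add_neg]
  obtain ⟨pz, hpz⟩ : ∃ pz : Polynomial ℤ, pz.map (Int.castRingHom ℚ) = p := by
    rw [← Polynomial.mem_lifts, Polynomial.lifts_iff_coeff_lifts]
    intro n
    rw [hp, coeff_uniqueAlgEquiv]
    exact hV _
  set l : Polynomial ℤ := Polynomial.C ((ρ ()).den : ℤ) * Polynomial.X - Polynomial.C (ρ ()).num
    with hl
  have hlp : l.IsPrimitive := by
    rw [Polynomial.isPrimitive_iff_isUnit_of_C_dvd]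
    intro c hc
    rw [Polynomial.C_dvd_iff_dvd_coeff] at hc
    have c1 := hc 1
    have c0 := hc 0
    rw [hl, Polynomial.coeff_sub, Polynomial.coeff_C_mul, Polynomial.coeff_C] at c1 c0
    simp at c1 c0
    have hcop : IsCoprime (ρ ()).num ((ρ ()).den : ℤ) := by
      rw [Int.isCoprime_iff_gcd_eq_one]
      exact (ρ ()).reduced
    exact hcop.isUnit_of_dvd' c0 c1
  have hlr : (l ^ r).IsPrimitive := by
    induction r with
    | zero => simp
    | succ n _ =>
      clear * - hlp
      induction n with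
      | zero => simpa using hlp
      | succ n ih => rw [pow_succ]; exact ih.mul hlp
  have h4 : l ^ r ∣ pz := by
    rw [Polynomial.IsPrimitive.Int.dvd_iff_map_cast_dvd_map_cast _ _ hlr, hpz,
      Polynomial.map_pow]
    have : l.map (Int.castRingHom ℚ) =
        Polynomial.C ((ρ ()).den : ℚ) * (Polynomial.X - Polynomial.C (ρ ())) := by
      rw [hl, mul_sub, ← Polynomial.C_mul, Rat.den_mul_eq_num]
      simp
    rw [this, mul_pow, ← Polynomial.C_pow]
    exact (Polynomial.C_mul_dvd (pow_ne_zero _ (by exact_mod_cast (ρ ()).den_ne_zero))).2 h3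
  have hll : l.leadingCoeff = (ρ ()).den := by
    rw [hl, sub_eq_add_neg, ← Polynomial.C_neg]
    exact Polynomial.leadingCoeff_linear (by exact_mod_cast (ρ ()).den_ne_zero)
  have h5 : (((ρ ()).den : ℤ)) ^ r ∣ pz.leadingCoeff := by
    obtain ⟨g, hg⟩ := h4
    rw [hg, Polynomial.leadingCoeff_mul, Polynomial.leadingCoeff_pow, hll]
    exact dvd_mul_right _ _
  have hpz0 : pz ≠ 0 := by rintro rfl; simp at hpz; exact hp0 hpz.symm
  have h6 : (((ρ ()).den : ℤ)) ^ r ≤ |pz.leadingCoeff| :=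
    Int.le_of_dvd (abs_pos.2 (Polynomial.leadingCoeff_ne_zero.2 hpz0)) ((dvd_abs _ _).2 h5)
  have h7 : (pz.leadingCoeff : ℚ) = coeff (Finsupp.single default pz.natDegree) V := by
    rw [← coeff_uniqueAlgEquiv, ← hp, ← hpz, Polynomial.coeff_map]
    rfl
  have h8 := coeff_le_L1 V (Finsupp.single default pz.natDegree)
  rw [← h7, vinf_apply, Rat.cast_intCast] at h8
  refine le_trans ?_ h8
  exact_mod_cast h6

lemma tens_sum_left {σ τ ι : Type*} (s : Finset ι) (f : ι → MvPolynomial σ ℚ)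
    (V : MvPolynomial τ ℚ) : tens (∑ i ∈ s, f i) V = ∑ i ∈ s, tens (f i) V := by
  simp [tens, Finset.sum_mul]

/-- decomposition into independent tensors -/
lemma exists_decomp {σ : Type*} (F : MvPolynomial (σ ⊕ Unit) ℚ) (d0 : ℕ)
    (hd : ∀ a, coeff a F ≠ 0 → a (Sum.inr ()) ≤ d0) :
    ∃ t : ℕ, t ≤ d0 + 1 ∧ ∃ (U : Fin t → MvPolynomial σ ℚ) (V : Fin t → MvPolynomial Unit ℚ),
      LinearIndependent ℚ U ∧ LinearIndependent ℚ V ∧ F = ∑ k, tens (U k) (V k) := by
  classical
  let S : Fin (d0 + 1) → MvPolynomial σ ℚ := fun e =>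
    ∑ K ∈ F.support with K (Sum.inr ()) = (e : ℕ),
      monomial (Finsupp.comapDomain Sum.inl K Sum.inl_injective.injOn) (coeff K F)
  let mon : Fin (d0 + 1) → MvPolynomial Unit ℚ := fun e => monomial (Finsupp.single () e) 1
  have hF : F = ∑ e, tens (S e) (mon e) := by
    have h1 : ∀ e : Fin (d0 + 1), tens (S e) (mon e) =
        ∑ K ∈ F.support with K (Sum.inr ()) = (e : ℕ), monomial K (coeff K F) := by
      intro e
      simp only [S, mon]
      rw [tens_sum_left]
      refine Finset.sum_congr rfl (fun K hK => ?_)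
      rw [tens_monomial, mul_one]
      congr 2
      ext s
      rcases s with s | s
      · simp
      · simp [(Finset.mem_filter.1 hK).2]
    rw [Finset.sum_congr rfl (fun e _ => h1 e)]
    conv_lhs => rw [F.as_sum]
    let g : (σ ⊕ Unit →₀ ℕ) → Fin (d0 + 1) := fun K => ⟨min (K (Sum.inr ())) d0, by omega⟩
    rw [← Finset.sum_fiberwise (s := F.support) (g := g)]
    refine Finset.sum_congr rfl (fun e _ => Finset.sum_congr ?_ (fun _ _ => rfl))
    refine Finset.filter_congr (fun K hK => ?_)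
    have := hd K (mem_support_iff.1 hK)
    simp only [g, Fin.ext_iff, min_eq_left this]
  let W := Submodule.span ℚ (Set.range S)
  have : FiniteDimensional ℚ W := FiniteDimensional.span_of_finite ℚ (Set.finite_range S)
  let b := Module.finBasis ℚ W
  let S' : Fin (d0 + 1) → W := fun e => ⟨S e, Submodule.subset_span ⟨e, rfl⟩⟩
  refine ⟨Module.finrank ℚ W, ?_, fun k => (b k : MvPolynomial σ ℚ),
    fun k => ∑ e, b.repr (S' e) k • mon e, ?_, ?_, ?_⟩
  · have := finrank_range_le_card (R := ℚ) S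
    rw [Fintype.card_fin] at this
    exact this
  · exact b.linearIndependent.map' W.subtype (Submodule.ker_subtype W)
  · rw [Fintype.linearIndependent_iff]
    intro g hg k
    let ψ : W →ₗ[ℚ] ℚ := ∑ k, g k • b.coord k
    have h1 : ∀ e, ψ (S' e) = 0 := by
      intro e
      have := congrArg (coeff (Finsupp.single () (e : ℕ))) hg
      rw [coeff_sum, coeff_zero] at this
      rw [← this]
      simp only [ψ, LinearMap.sum_apply, LinearMap.smul_apply, Module.Basis.coord_apply,
        smul_eq_mul, coeff_smul, coeff_sum, mon, coeff_monomial]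
      refine Finset.sum_congr rfl (fun k _ => ?_)
      congr 1
      rw [Finset.sum_eq_single e]
      · simp
      · intro e' _ hne
        have : (Finsupp.single () (e' : ℕ)) ≠ Finsupp.single () (e : ℕ) := by
          intro h
          exact hne (Fin.ext (Finsupp.single_injective () h))
        simp [this]
      · simp
    have h2 : ∀ x (hx : x ∈ W), ψ ⟨x, hx⟩ = 0 := by
      intro x hx
      induction hx using Submodule.span_induction with
      | mem x hx => obtain ⟨e, rfl⟩ := hx; exact h1 e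
      | zero => exact map_zero ψ
      | add x y hx hy ihx ihy =>
        have : (⟨x + y, W.add_mem hx hy⟩ : W) = ⟨x, hx⟩ + ⟨y, hy⟩ := rfl
        rw [this, map_add, ihx, ihy, add_zero]
      | smul c x hx ih =>
        have : (⟨c • x, W.smul_mem c hx⟩ : W) = c • ⟨x, hx⟩ := rfl
        rw [this, map_smul, ih, smul_zero]
    have h3 := h2 (b k).1 (b k).2
    simpa [ψ, Finsupp.single_apply] using h3
  · rw [hF]
    have h1 : ∀ e, S e = ∑ k, b.repr (S' e) k • (b k : MvPolynomial σ ℚ) := by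
      intro e
      have := congrArg W.subtype (b.sum_repr (S' e))
      rw [map_sum] at this
      exact this.symm
    rw [Finset.sum_congr rfl (fun e _ => by rw [h1 e, tens_sum_left])]
    rw [Finset.sum_comm]
    refine Finset.sum_congr rfl (fun k _ => ?_)
    simp [tens, Finset.mul_sum]

/-- statement of Roth's lemma for a ranked set of variables -/
def RothProp (σ : Type) [Fintype σ] (rk : σ → ℕ) : Prop :=
  ∀ θ : ℝ, 0 < θ → ∃ η : ℝ, 0 < η ∧ ∀ (d : σ → ℕ) (ρ : σ → ℚ) (F : MvPolynomial σ ℚ),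
    (∀ s, 0 < d s) → (∀ s s', rk s < rk s' → (d s' : ℝ) ≤ η * d s) → F ≠ 0 → F ∈ cf σ Zr →
    DegLE d F → (∀ s, Real.log (L1 F) + ∑ s', (d s' : ℝ) ≤ η * d s * Real.log (ρ s).den) →
    ¬ Ind d θ (shift ρ F)

lemma rothProp_empty (σ : Type) [Fintype σ] [IsEmpty σ] (rk : σ → ℕ) : RothProp σ rk := by
  intro θ hθ
  refine ⟨1, one_pos, fun d ρ F _ _ hF _ _ _ hI => ?_⟩
  obtain ⟨a, ha⟩ := ne_zero_iff.1 (shift_ne_zero ρ hF)
  have := hI a ha
  simp [wt] at this
  linarith

lemma sum_max_ge {θ : ℝ} (hθ : 0 < θ) (hθ1 : θ ≤ 1) {t d0 : ℕ} (hd0 : 0 < d0) (ht : t ≤ d0 + 1) :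
    t * θ ^ 2 / 8 ≤ ∑ j : Fin t, max (θ - (j : ℝ) / d0) 0 := by
  have hd : (0 : ℝ) < d0 := by exact_mod_cast hd0
  set c := min t (⌊θ * d0 / 2⌋₊ + 1) with hc
  have h1 : (t : ℝ) * θ / 4 ≤ c := by
    rw [hc, Nat.cast_min]
    refine le_min ?_ ?_
    · have : (0 : ℝ) ≤ t := by positivity
      nlinarith
    · have h2 := Nat.lt_floor_add_one (θ * d0 / 2)
      have h3 : (t : ℝ) ≤ 2 * d0 := by
        have : t ≤ 2 * d0 := by omega
        exact_mod_cast this
      push_cast
      nlinarith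
  rw [Fin.sum_univ_eq_sum_range (fun j => max (θ - (j : ℝ) / d0) 0) t]
  have h2 : ∑ j ∈ Finset.range c, max (θ - (j : ℝ) / d0) 0 ≤
      ∑ j ∈ Finset.range t, max (θ - (j : ℝ) / d0) 0 :=
    Finset.sum_le_sum_of_subset_of_nonneg (Finset.range_subset_range.2 (min_le_left _ _))
      (fun _ _ _ => le_max_right _ _)
  have h3 : ∑ j ∈ Finset.range c, θ / 2 ≤ ∑ j ∈ Finset.range c, max (θ - (j : ℝ) / d0) 0 := by
    refine Finset.sum_le_sum (fun j hj => le_max_of_le_left ?_)
    have hj' : j ≤ ⌊θ * d0 / 2⌋₊ := by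
      have := Finset.mem_range.1 hj
      omega
    have h4 : (j : ℝ) ≤ θ * d0 / 2 :=
      le_trans (by exact_mod_cast hj') (Nat.floor_le (by positivity))
    have : (j : ℝ) / d0 ≤ θ / 2 := by
      rw [div_le_iff₀ hd]; linarith
    linarith
  rw [Finset.sum_const, Finset.card_range, nsmul_eq_mul] at h3
  nlinarith

lemma log_factorial_le (t : ℕ) : Real.log (t.factorial : ℝ) ≤ (t : ℝ) * t := by
  have h1 : (t.factorial : ℝ) ≤ (t : ℝ) ^ t := by exact_mod_cast Nat.factorial_le_pow t
  refine (Real.log_le_log (by exact_mod_cast t.factorial_pos) h1).trans ?_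
  rw [Real.log_pow]
  refine mul_le_mul_of_nonneg_left ?_ (by positivity)
  rcases Nat.eq_zero_or_pos t with rfl | h
  · simp
  · have := Real.log_le_sub_one_of_pos (x := (t : ℝ)) (by exact_mod_cast h)
    linarith

theorem rothProp_step (σ : Type) [Fintype σ] (rk : σ → ℕ) (N : ℕ) (hN : ∀ s, rk s < N)
    (h : RothProp σ rk) : RothProp (σ ⊕ Unit) (Sum.elim rk (fun _ => N)) := by
  classical
  intro θ0 hθ0
  set θ := min θ0 1 with hθdef
  have hθ : 0 < θ := lt_min hθ0 one_pos
  have hθ1 : θ ≤ 1 := min_le_right _ _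
  obtain ⟨η', hη', H⟩ := h (θ ^ 2 / 16) (by positivity)
  set η := min (η' / 4) (θ ^ 2 / 100) with hηdef
  have hη : 0 < η := lt_min (by positivity) (by positivity)
  have hη1 : η ≤ η' / 4 := min_le_left _ _
  have hη2 : η ≤ θ ^ 2 / 100 := min_le_right _ _
  refine ⟨η, hη, fun d ρ F hd hrk hF0 hFZ hFd hH hI0 => ?_⟩
  have hI : Ind d θ (shift ρ F) := hI0.mono (min_le_left _ _)
  set d0 := d (Sum.inr ()) with hd0
  obtain ⟨t, ht, U, V, hU, hV, hUV⟩ := exists_decomp F d0 (fun a ha => hFd a ha _)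
  have ht0 : 0 < t := by
    rcases Nat.eq_zero_or_pos t with rfl | h
    · simp at hUV; exact absurd hUV hF0
    · exact h
  obtain ⟨a, ha, hUd⟩ := exists_wronskian U hU
  obtain ⟨b, hb, hVd⟩ := exists_wronskian V hV
  set Uh := (Matrix.of fun i k => hasse (a i) (U k)).det with hUh
  set Vh := (Matrix.of fun i k => hasse (b i) (V k)).det with hVh
  set M : Matrix (Fin t) (Fin t) (MvPolynomial (σ ⊕ Unit) ℚ) :=
    Matrix.of fun i j => hasse ((a i).sumElim (b j)) F with hM
  have hW : M.det = tens Uh Vh := by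
    have : M = ((rename Sum.inl : MvPolynomial σ ℚ →ₐ[ℚ] _).mapMatrix
        (Matrix.of fun i k => hasse (a i) (U k))) *
        ((rename Sum.inr : MvPolynomial Unit ℚ →ₐ[ℚ] _).mapMatrix
        (Matrix.of fun i k => hasse (b i) (V k))).transpose := by
      ext1 i j
      rw [hM, Matrix.of_apply, hUV, map_sum, Matrix.mul_apply]
      refine Finset.sum_congr rfl (fun k _ => ?_)
      rw [hasse_tens]
      simp [tens]
    rw [this, Matrix.det_mul, Matrix.det_transpose, ← AlgHom.map_det, ← AlgHom.map_det]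
    rfl
  -- properties of the Wronskian
  have hWZ : M.det ∈ cf (σ ⊕ Unit) Zr :=
    det_mem_subring _ _ (fun i j => hasse_mem_cf _ hFZ)
  have hWd : DegLE (fun s => t * d s) M.det := by
    have := DegLE.det (d := d) M (fun i j => hFd.hasse _)
    simpa using this
  have hL1F : 1 ≤ L1 F := one_le_L1 hFZ hF0
  set D : ℝ := ∑ s', (d s' : ℝ) with hD
  have hd0pos : (0 : ℝ) < d0 := by exact_mod_cast hd _
  have hd0D : (d0 : ℝ) ≤ D :=
    Finset.single_le_sum (f := fun s => (d s : ℝ)) (fun s _ => by positivity) (Finset.mem_univ _)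
  have htR : (0 : ℝ) < t := by exact_mod_cast ht0
  have ht2 : (t : ℝ) ≤ 2 * d0 := by
    have h1 := hd (Sum.inr ())
    have : t ≤ 2 * d0 := by omega
    exact_mod_cast this
  have hlogF : 0 ≤ Real.log (L1 F) := Real.log_nonneg hL1F
  have hWL : ∀ G : ℝ, 0 < G → G ≤ L1 M.det → Real.log G ≤ t * (Real.log (L1 F) + 3 * D) := by
    intro G hG hGW
    have h1 : L1 M.det ≤ (t.factorial : ℝ) * (2 ^ (∑ s, d s) * L1 F) ^ t := by
      have := nrm_det_le (v := vinf) (w := fun _ => 1) (fun _ => zero_le_one) M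
        (B := 2 ^ (∑ s, d s) * L1 F) (fun i j => L1_hasse_le hFd _)
      rw [Fintype.card_fin] at this
      exact this
    refine (Real.log_le_log hG (hGW.trans h1)).trans ?_
    rw [Real.log_mul (by positivity) (by positivity), Real.log_pow,
      Real.log_mul (by positivity) (by positivity), Real.log_pow]
    have h2 := log_factorial_le t
    have h3 : Real.log 2 ≤ 1 := by
      have := Real.log_le_sub_one_of_pos (x := 2) (by norm_num); linarith
    have h4 : ((∑ s, d s : ℕ) : ℝ) = D := by rw [hD]; push_cast; rfl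
    rw [h4]
    have h5 : D * Real.log 2 ≤ D := by nlinarith
    nlinarith
  obtain ⟨a0, ha0⟩ := ne_zero_iff.1 hUd
  obtain ⟨b0, hb0⟩ := ne_zero_iff.1 hVd
  -- the first factor
  set Us := coeff b0 Vh • Uh with hUs
  have hUsc : ∀ K, coeff K Us = coeff (K.sumElim b0) M.det := by
    intro K; rw [hW, coeff_tens, hUs, coeff_smul, smul_eq_mul, mul_comm]
  have hUs0 : Us ≠ 0 := smul_ne_zero hb0 hUd
  have hUsZ : Us ∈ cf σ Zr := fun K => by rw [hUsc]; exact hWZ _
  have hUsL : L1 Us ≤ L1 M.det := by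
    have := nrm_one_le_of_inj (v := vinf) (F := M.det) (G := Us) (fun K => K.sumElim b0)
      (fun K K' h => (sumElim_inj.1 h).1) zero_le_one (fun K => by rw [hUsc, one_mul])
    simpa [L1] using this
  have hDsplit : D = ∑ s, (d (Sum.inl s) : ℝ) + d0 := by
    rw [hD, Fintype.sum_sum_type]; simp [hd0]
  have hnI := H (fun s => t * d (Sum.inl s)) (fun s => ρ (Sum.inl s)) Us
    (fun s => Nat.mul_pos ht0 (hd _))
    (fun s s' hss => by
      have := hrk (Sum.inl s) (Sum.inl s') hss
      have h2 : (0 : ℝ) ≤ d (Sum.inl s) := by positivity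
      push_cast
      have h3 : η * d (Sum.inl s) ≤ η' * d (Sum.inl s) :=
        mul_le_mul_of_nonneg_right (by linarith) h2
      nlinarith)
    hUs0 hUsZ
    (fun K hK s => by rw [hUsc] at hK; exact hWd _ hK (Sum.inl s))
    (fun s => by
      have h1 := hWL _ (lt_of_lt_of_le one_pos (one_le_L1 hUsZ hUs0)) hUsL
      have h2 := hH (Sum.inl s)
      have h3 : ∑ s', ((t * d (Sum.inl s') : ℕ) : ℝ) ≤ t * D := by
        push_cast
        rw [← Finset.mul_sum, hDsplit]
        nlinarith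
      have h4 : 0 ≤ (d (Sum.inl s) : ℝ) * Real.log (ρ (Sum.inl s)).den :=
        mul_nonneg (by positivity) (Real.log_natCast_nonneg _)
      have h5 : η * (d (Sum.inl s) * Real.log (ρ (Sum.inl s)).den) ≤
          η' / 4 * (d (Sum.inl s) * Real.log (ρ (Sum.inl s)).den) :=
        mul_le_mul_of_nonneg_right hη1 h4
      have h6 : Real.log (L1 F) + 4 * D ≤
          η' * (d (Sum.inl s) * Real.log (ρ (Sum.inl s)).den) := by nlinarith
      have h7 := mul_le_mul_of_nonneg_left h6 htR.le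
      push_cast at h3 ⊢
      nlinarith)
  unfold Ind at hnI
  push Not at hnI
  obtain ⟨a1, ha1, ha1w⟩ := hnI
  have ha1' : coeff a1 (shift (fun s => ρ (Sum.inl s)) Uh) ≠ 0 := by
    rw [hUs, map_smul, coeff_smul] at ha1
    exact right_ne_zero_of_smul ha1
  have ha1w' : wt (fun s => d (Sum.inl s)) a1 < t * (θ ^ 2 / 16) := by
    have : wt (fun s => d (Sum.inl s)) a1 = t * wt (fun s => t * d (Sum.inl s)) a1 := by
      unfold wt
      rw [Finset.mul_sum]
      refine Finset.sum_congr rfl (fun s _ => ?_)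
      have : (0 : ℝ) < d (Sum.inl s) := by exact_mod_cast hd _
      push_cast
      field_simp
    rw [this]
    exact mul_lt_mul_of_pos_left ha1w htR
  -- the second factor
  set Vs := coeff a0 Uh • Vh with hVs
  have hVsc : ∀ K, coeff K Vs = coeff (a0.sumElim K) M.det := by
    intro K; rw [hW, coeff_tens, hVs, coeff_smul, smul_eq_mul]
  have hVs0 : Vs ≠ 0 := smul_ne_zero ha0 hVd
  have hVsZ : Vs ∈ cf Unit Zr := fun K => by rw [hVsc]; exact hWZ _
  have hVsL : L1 Vs ≤ L1 M.det := by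
    have := nrm_one_le_of_inj (v := vinf) (F := M.det) (G := Vs) (fun K => a0.sumElim K)
      (fun K K' h => (sumElim_inj.1 h).2) zero_le_one (fun K => by rw [hVsc, one_mul])
    simpa [L1] using this
  obtain ⟨b1, hb1, hb1min⟩ := Finset.exists_min_image
    (shift (fun s => ρ (Sum.inr s)) Vs).support (fun K => K ())
    (support_nonempty.2 (shift_ne_zero _ hVs0))
  have hq := roth_one Vs hVsZ hVs0 (fun s => ρ (Sum.inr s)) (b1 ())
    (fun K hK => hb1min K (mem_support_iff.2 hK))
  have hb1' : coeff b1 (shift (fun s => ρ (Sum.inr s)) Vh) ≠ 0 := by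
    rw [mem_support_iff, hVs, map_smul, coeff_smul] at hb1
    exact right_ne_zero_of_smul hb1
  have hb1w : (b1 () : ℝ) / d0 ≤ 3 * t * η := by
    have h1 := hWL _ (pow_pos (by exact_mod_cast (ρ (Sum.inr ())).den_pos) _) (hq.trans hVsL)
    rw [Real.log_pow] at h1
    have h2 := hH (Sum.inr ())
    rw [← hd0] at h2
    set Lq := Real.log ((ρ (Sum.inr ())).den : ℝ) with hLq
    have hLq0 : 0 < Lq := by
      by_contra hc
      push Not at hc
      have : η * d0 * Lq ≤ 0 := mul_nonpos_of_nonneg_of_nonpos (by positivity) hc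
      linarith
    rw [div_le_iff₀ hd0pos]
    have h3 : (b1 () : ℝ) * Lq ≤ (3 * t * η * d0) * Lq := by nlinarith
    exact le_of_mul_le_mul_right h3 hLq0
  -- lower bound for the index of the Wronskian
  have hlow : Ind d (∑ _i : Fin t, (-η) + ∑ j : Fin t, max (θ - (j : ℝ) / d0) 0)
      (shift ρ M.det) := by
    rw [AlgHom.map_det]
    refine Ind.det _ _ _ (fun i j => ?_)
    have e : (shift ρ).mapMatrix M i j = hasse ((a i).sumElim (b j)) (shift ρ F) := by
      rw [hasse_shift]; simp [hM]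
    rw [e]
    have h1 := (hI.hasse ((a i).sumElim (b j))).max (ind_zero _)
    refine h1.mono ?_
    rw [wt_sumElim]
    have h2 : wt (fun s => d (Sum.inl s)) (a i) ≤ η := by
      have h3 : ∀ s, (a i s : ℝ) / d (Sum.inl s) ≤ a i s * (η / d0) := by
        intro s
        have h4 := hrk (Sum.inl s) (Sum.inr ()) (hN s)
        have h5 : (0 : ℝ) < d (Sum.inl s) := by exact_mod_cast hd _
        rw [div_eq_mul_one_div]
        refine mul_le_mul_of_nonneg_left ?_ (by positivity)
        rw [div_le_div_iff₀ h5 hd0pos]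
        simpa using h4
      refine (Finset.sum_le_sum (fun s _ => h3 s)).trans ?_
      rw [← Finset.sum_mul]
      have h6 : ∑ s, (a i s : ℝ) ≤ d0 := by
        have h7 := ha i
        have h8 := i.2
        have : ∑ s, a i s ≤ d0 := by omega
        exact_mod_cast this
      calc (∑ s, (a i s : ℝ)) * (η / d0) ≤ d0 * (η / d0) :=
            mul_le_mul_of_nonneg_right h6 (by positivity)
        _ = η := by field_simp
    have h3 : wt (fun s => d (Sum.inr s)) (b j) ≤ (j : ℝ) / d0 := by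
      have h4 := hb j
      simp only [wt, Finset.univ_unique, Finset.sum_singleton] at h4 ⊢
      refine div_le_div_of_nonneg_right ?_ hd0pos.le
      exact_mod_cast h4
    rcases le_total (θ - (j : ℝ) / d0) 0 with h4 | h4
    · rw [max_eq_right h4]
      exact le_max_of_le_right (by linarith)
    · rw [max_eq_left h4]
      exact le_max_of_le_left (by linarith)
  have hfin := hlow (a1.sumElim b1) (by
    rw [hW, shift_tens, coeff_tens]; exact mul_ne_zero ha1' hb1')
  rw [wt_sumElim] at hfin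
  have h9 : wt (fun s => d (Sum.inr s)) b1 = (b1 () : ℝ) / d0 := by simp [wt, hd0]
  have h10 := sum_max_ge hθ hθ1 (hd _) ht
  rw [h9, Finset.sum_const, Finset.card_univ, Fintype.card_fin, nsmul_eq_mul] at hfin
  rw [← hd0] at h10
  have h11 : (t : ℝ) * η ≤ t * (θ ^ 2 / 100) := mul_le_mul_of_nonneg_left hη2 htR.le
  have h12 : 0 < (t : ℝ) * θ ^ 2 := by positivity
  nlinarith

/-- index types with `m` elements -/
def TT : ℕ → Type
  | 0 => Empty
  | m + 1 => TT m ⊕ Unit

instance instFintypeTT : ∀ m, Fintype (TT m)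
  | 0 => inferInstanceAs (Fintype Empty)
  | m + 1 => @instFintypeSum _ _ (instFintypeTT m) _

/-- rank function on `TT m` -/
def rkT : ∀ m, TT m → ℕ
  | 0 => fun e => e.elim
  | m + 1 => Sum.elim (rkT m) (fun _ => m)

lemma rkT_lt : ∀ m (s : TT m), rkT m s < m
  | 0, s => s.elim
  | m + 1, Sum.inl s => (rkT_lt m s).trans (Nat.lt_succ_self m)
  | m + 1, Sum.inr _ => Nat.lt_succ_self m

lemma card_TT : ∀ m, Fintype.card (TT m) = m
  | 0 => Fintype.card_eq_zero_iff.2 (inferInstanceAs (IsEmpty Empty))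
  | m + 1 => by
    have := @Fintype.card_sum (TT m) Unit (instFintypeTT m) _
    rw [card_TT m] at this
    exact this

/-- Roth's lemma. -/
theorem roth_lemma : ∀ m, RothProp (TT m) (rkT m)
  | 0 => @rothProp_empty _ _ (inferInstanceAs (IsEmpty Empty)) _
  | m + 1 => rothProp_step (TT m) (rkT m) m (rkT_lt m) (roth_lemma m)

end

end Pool.Agent.Shared.Subspace
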