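import Pool.Agent.Shared.SubspacePoly

/-!
Generalized Wronskians: linearly independent polynomials have a nonzero generalized Wronskian.
-/

set_option autoImplicit false

namespace Pool.Agent.Shared.Subspace

open MvPolynomial Finset

noncomputable section

variable {σ : Type*} [Fintype σ]

/-- span of the binomial functions of order at most `n` -/
def binSpan (σ : Type*) [Fintype σ] (n : ℕ) : Submodule ℚ ((σ →₀ ℕ) → ℚ) :=
  Submodule.span ℚ {f | ∃ a : σ →₀ ℕ, ∑ s, a s ≤ n ∧ f = fun J => (bin J a : ℚ)}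

lemma bin_succ (J a : σ →₀ ℕ) (s : σ) :
    (J s : ℚ) * bin J a = (a s + 1) * bin J (a + Finsupp.single s 1) + a s * bin J a := by
  classical
  unfold bin
  rw [← Finset.mul_prod_erase _ _ (Finset.mem_univ s),
    ← Finset.mul_prod_erase _ (fun t => (J t).choose ((a + Finsupp.single s 1 : σ →₀ ℕ) t))
      (Finset.mem_univ s)]
  have h1 : ∏ t ∈ Finset.univ.erase s, (J t).choose ((a + Finsupp.single s 1 : σ →₀ ℕ) t)
      = ∏ t ∈ Finset.univ.erase s, (J t).choose (a t) := by
    refine Finset.prod_congr rfl (fun t ht => ?_)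
    have : t ≠ s := Finset.ne_of_mem_erase ht
    simp [this.symm]
  rw [h1]
  simp only [Finsupp.coe_add, Pi.add_apply, Finsupp.single_eq_same]
  have h2 : ((J s).choose (a s + 1) : ℚ) * (a s + 1) = (J s).choose (a s) * (J s - a s) := by
    by_cases h : a s ≤ J s
    · have := congrArg (Nat.cast : ℕ → ℚ) (Nat.choose_succ_right_eq (J s) (a s))
      push_cast [Nat.cast_sub h] at this
      exact this
    · push Not at h
      rw [Nat.choose_eq_zero_of_lt h, Nat.choose_eq_zero_of_lt (by omega)]; simp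
  push_cast
  linear_combination (-(∏ t ∈ Finset.univ.erase s, ((J t).choose (a t) : ℚ))) * h2

lemma binSpan_mono {n m : ℕ} (h : n ≤ m) : binSpan σ n ≤ binSpan σ m :=
  Submodule.span_mono (fun _ ⟨a, ha, hf⟩ => ⟨a, ha.trans h, hf⟩)

lemma binSpan_mul {n : ℕ} {f : (σ →₀ ℕ) → ℚ} (hf : f ∈ binSpan σ n) (s : σ) (c : ℚ) :
    (fun J => ((J s : ℚ) - c) * f J) ∈ binSpan σ (n + 1) := by
  classical
  induction hf using Submodule.span_induction with
  | mem f hf =>
    obtain ⟨a, ha, rfl⟩ := hf
    have e : (fun J : σ →₀ ℕ => ((J s : ℚ) - c) * (bin J a : ℚ)) =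
        ((a s : ℚ) + 1) • (fun J : σ →₀ ℕ => (bin J (a + Finsupp.single s 1) : ℚ))
          + ((a s : ℚ) - c) • (fun J : σ →₀ ℕ => (bin J a : ℚ)) := by
      funext J
      simp only [Pi.add_apply, Pi.smul_apply, smul_eq_mul]
      linear_combination bin_succ J a s
    rw [e]
    refine Submodule.add_mem _ (Submodule.smul_mem _ _ (Submodule.subset_span ⟨_, ?_, rfl⟩))
      (Submodule.smul_mem _ _ (Submodule.subset_span ⟨_, by omega, rfl⟩))
    simp only [Finsupp.coe_add, Pi.add_apply, Finset.sum_add_distrib]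
    have : ∑ t, (Finsupp.single s 1 : σ →₀ ℕ) t = 1 := by simp [Finsupp.single_apply]
    omega
  | zero =>
    have := (binSpan σ (n + 1)).zero_mem
    refine (congrArg (· ∈ binSpan σ (n + 1)) ?_).mp this
    funext J; simp
  | add f g _ _ hf hg =>
    have := (binSpan σ (n + 1)).add_mem hf hg
    refine (congrArg (· ∈ binSpan σ (n + 1)) ?_).mp this
    funext J; simp only [Pi.add_apply]; ring
  | smul a f _ hf =>
    have := (binSpan σ (n + 1)).smul_mem a hf
    refine (congrArg (· ∈ binSpan σ (n + 1)) ?_).mp this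
    funext J; simp only [Pi.smul_apply, smul_eq_mul]; ring

lemma exists_sep (γ : σ →₀ ℕ) : ∀ (n : ℕ) (β : Fin n → σ →₀ ℕ), (∀ i, β i ≠ γ) →
    ∃ g ∈ binSpan σ n, (∀ i, g (β i) = 0) ∧ g γ ≠ 0 := by
  intro n
  induction n with
  | zero =>
    intro β _
    exact ⟨fun J => (bin J 0 : ℚ), Submodule.subset_span ⟨0, by simp, rfl⟩,
      fun i => i.elim0, by simp⟩
  | succ n ih =>
    intro β hβ
    obtain ⟨g, hg, h1, h2⟩ := ih (fun i => β i.succ) (fun i => hβ _)
    obtain ⟨s, hs⟩ : ∃ s, β 0 s ≠ γ s := by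
      by_contra hcon
      push Not at hcon
      exact hβ 0 (Finsupp.ext hcon)
    refine ⟨_, binSpan_mul hg s (β 0 s), fun i => ?_, ?_⟩
    · refine Fin.cases ?_ (fun j => ?_) i
      · simp
      · simp [h1 j]
    · refine mul_ne_zero (sub_ne_zero.2 ?_) h2
      exact_mod_cast hs.symm

lemma exists_bin_det : ∀ (t : ℕ) (α : Fin t → σ →₀ ℕ), Function.Injective α →
    ∃ a : Fin t → σ →₀ ℕ, (∀ i, ∑ s, a i s ≤ i) ∧
      (Matrix.of fun i k => (bin (α k) (a i) : ℚ)).det ≠ 0 := by
  intro t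
  induction t with
  | zero => intro α _; exact ⟨fun i => i.elim0, fun i => i.elim0, by simp⟩
  | succ t ih =>
    intro α hα
    obtain ⟨a', ha', hdet⟩ := ih (fun k => α k.castSucc) (hα.comp (Fin.castSucc_injective t))
    let cof : Fin (t + 1) → ℚ := fun k => (-1) ^ ((Fin.last t : ℕ) + k : ℕ) *
      (Matrix.of fun (i : Fin t) (l : Fin t) => (bin (α (k.succAbove l)) (a' i) : ℚ)).det
    let Φ : ((σ →₀ ℕ) → ℚ) →ₗ[ℚ] ℚ := ∑ k, cof k • LinearMap.proj (α k)
    have hΦ : ∀ f, Φ f = ∑ k, cof k * f (α k) := by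
      intro f; simp [Φ]
    by_contra hcon
    push Not at hcon
    have hz : ∀ a : σ →₀ ℕ, ∑ s, a s ≤ t → Φ (fun J => (bin J a : ℚ)) = 0 := by
      intro a ha
      have h1 := hcon (Fin.snoc a' a) (fun i => by
        refine Fin.lastCases ?_ (fun j => ?_) i
        · simpa using ha
        · simpa using ha' j)
      rw [Matrix.det_succ_row _ (Fin.last t)] at h1
      rw [hΦ, ← h1]
      refine Finset.sum_congr rfl (fun k _ => ?_)
      have : (Matrix.of fun (i k : Fin (t + 1)) =>
          (bin (α k) ((Fin.snoc a' a : Fin (t + 1) → σ →₀ ℕ) i) : ℚ)).submatrix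
          (Fin.last t).succAbove k.succAbove =
          Matrix.of fun (i : Fin t) (l : Fin t) => (bin (α (k.succAbove l)) (a' i) : ℚ) := by
        ext i l
        simp [Fin.succAbove_last]
      rw [this]
      simp only [cof, Matrix.of_apply, Fin.snoc_last]
      ring
    have hz2 : ∀ g ∈ binSpan σ t, Φ g = 0 := by
      intro g hg
      have : binSpan σ t ≤ LinearMap.ker Φ := by
        refine Submodule.span_le.2 ?_
        rintro _ ⟨a, ha, rfl⟩
        exact hz a ha
      exact this hg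
    obtain ⟨g, hg, h1, h2⟩ := exists_sep (α (Fin.last t)) t (fun k => α k.castSucc)
      (fun i h => (Fin.castSucc_lt_last i).ne (hα h))
    have h3 := hz2 g hg
    rw [hΦ, Fin.sum_univ_castSucc] at h3
    simp only [h1, mul_zero, Finset.sum_const_zero, zero_add] at h3
    refine (mul_ne_zero ?_ h2) h3
    refine mul_ne_zero (pow_ne_zero _ (by norm_num)) ?_
    simpa [Fin.succAbove_last] using hdet

omit [Fintype σ] in
lemma exists_lead (m : MonomialOrder σ) : ∀ (t : ℕ) (W : Submodule ℚ (MvPolynomial σ ℚ)),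
    FiniteDimensional ℚ W → t ≤ Module.finrank ℚ W →
    ∃ ψ : Fin t → MvPolynomial σ ℚ, (∀ k, ψ k ∈ W ∧ ψ k ≠ 0) ∧
      Function.Injective (fun k => m.degree (ψ k)) := by
  intro t
  induction t with
  | zero => intro W _ _; exact ⟨fun i => i.elim0, fun i => i.elim0, fun i => i.elim0⟩
  | succ t ih =>
    intro W hW ht
    obtain ⟨ψ0, hψ0W, hψ0⟩ : ∃ ψ0 ∈ W, ψ0 ≠ 0 := by
      by_contra hcon
      push Not at hcon
      have : W = ⊥ := (Submodule.eq_bot_iff W).2 hcon
      subst this
      simp at ht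
    let f : W →ₗ[ℚ] ℚ := (lcoeff ℚ (m.degree ψ0)).domRestrict W
    let W' : Submodule ℚ (MvPolynomial σ ℚ) := (LinearMap.ker f).map W.subtype
    have h1 : Module.finrank ℚ W' = Module.finrank ℚ (LinearMap.ker f) :=
      Submodule.finrank_map_subtype_eq W _
    have h2 := LinearMap.finrank_range_add_finrank_ker f
    have h3 : Module.finrank ℚ (LinearMap.range f) ≤ 1 := by
      simpa using Submodule.finrank_le (LinearMap.range f)
    obtain ⟨ψ, hψ, hinj⟩ := ih W' inferInstance (by omega)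
    have hW' : ∀ x ∈ W', x ∈ W ∧ coeff (m.degree ψ0) x = 0 := by
      rintro _ ⟨y, hy, rfl⟩
      exact ⟨y.2, hy⟩
    refine ⟨Fin.cons ψ0 ψ, fun k => ?_, ?_⟩
    · refine Fin.cases ?_ (fun j => ?_) k
      · exact ⟨hψ0W, hψ0⟩
      · exact ⟨(hW' _ (hψ j).1).1, (hψ j).2⟩
    · have e : (fun k => m.degree ((Fin.cons ψ0 ψ : Fin (t + 1) → MvPolynomial σ ℚ) k)) =
          Fin.cons (m.degree ψ0) (fun k => m.degree (ψ k)) := by
        funext k
        refine Fin.cases ?_ (fun j => ?_) k <;> simp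
      rw [e, Fin.cons_injective_iff]
      refine ⟨?_, hinj⟩
      rintro ⟨j, hj⟩
      have h4 := (hW' _ (hψ j).1).2
      rw [← hj] at h4
      exact (m.coeff_degree_ne_zero_iff.2 (hψ j).2) h4

open scoped MonomialOrder in
omit [Fintype σ] in
lemma coeff_prod_of_degree_le (m : MonomialOrder σ) {ι : Type*} (s : Finset ι)
    (P : ι → MvPolynomial σ ℚ) (d : ι → σ →₀ ℕ) (h : ∀ i ∈ s, m.degree (P i) ≼[m] d i) :
    m.degree (∏ i ∈ s, P i) ≼[m] ∑ i ∈ s, d i ∧
      coeff (∑ i ∈ s, d i) (∏ i ∈ s, P i) = ∏ i ∈ s, coeff (d i) (P i) := by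
  classical
  induction s using Finset.induction_on with
  | empty => simp
  | insert a s ha ih =>
    obtain ⟨h1, h2⟩ := ih (fun i hi => h i (Finset.mem_insert_of_mem hi))
    have h3 := h a (Finset.mem_insert_self _ _)
    rw [Finset.prod_insert ha, Finset.sum_insert ha, Finset.prod_insert ha]
    refine ⟨m.degree_mul_le.trans ?_, ?_⟩
    · rw [map_add, map_add]; exact add_le_add h3 h1
    · rw [m.coeff_mul_of_add_of_degree_le h3 h1, h2]

lemma coeff_euler (a J : σ →₀ ℕ) (F : MvPolynomial σ ℚ) :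
    coeff J (monomial a 1 * hasse a F) = (bin J a : ℚ) * coeff J F := by
  classical
  rw [coeff_monomial_mul']
  split_ifs with h
  · rw [coeff_hasse, tsub_add_cancel_of_le h, one_mul]
  · simp [bin_eq_zero h]

/-- Generalized Wronskian lemma. -/
theorem exists_wronskian {t : ℕ} (φ : Fin t → MvPolynomial σ ℚ) (hφ : LinearIndependent ℚ φ) :
    ∃ a : Fin t → σ →₀ ℕ, (∀ i, ∑ s, a i s ≤ i) ∧
      (Matrix.of fun i k => hasse (a i) (φ k)).det ≠ 0 := by
  classical
  let _ : LinearOrder σ := LinearOrder.lift' (Fintype.equivFin σ) (Fintype.equivFin σ).injective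
  let m : MonomialOrder σ := MonomialOrder.lex
  let W := Submodule.span ℚ (Set.range φ)
  have hW : Module.finrank ℚ W = t := by
    rw [finrank_span_eq_card hφ]; simp
  obtain ⟨ψ, hψ, hinj⟩ := exists_lead m t W
    (FiniteDimensional.span_of_finite ℚ (Set.finite_range φ)) hW.ge
  obtain ⟨a, ha, hdet⟩ := exists_bin_det t _ hinj
  refine ⟨a, ha, fun h0 => ?_⟩
  choose A hA using fun k => (Submodule.mem_span_range_iff_exists_fun ℚ).1 (hψ k).1
  have h1 : (Matrix.of fun i k => hasse (a i) (ψ k)) =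
      (Matrix.of fun i k => hasse (a i) (φ k)) * (Matrix.of fun l k => C (A k l)) := by
    ext1 i k
    rw [Matrix.mul_apply, Matrix.of_apply, ← hA k, map_sum]
    refine Finset.sum_congr rfl (fun l _ => ?_)
    rw [map_smul, Matrix.of_apply, Matrix.of_apply, smul_eq_C_mul, mul_comm]
  have h2 : (Matrix.of fun i k => monomial (a i) (1 : ℚ) * hasse (a i) (ψ k)).det = 0 := by
    have : (Matrix.of fun i k => monomial (a i) (1 : ℚ) * hasse (a i) (ψ k)) =
        Matrix.diagonal (fun i => monomial (a i) (1 : ℚ)) *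
          (Matrix.of fun i k => hasse (a i) (ψ k)) := by
      ext1 i k
      simp [Matrix.diagonal_mul]
    rw [this, h1, Matrix.det_mul, Matrix.det_mul, h0]; simp
  have h3 := congrArg (coeff (∑ k, m.degree (ψ k))) h2
  rw [Matrix.det_apply, coeff_sum, coeff_zero] at h3
  have h4 : ∀ p : Equiv.Perm (Fin t), coeff (∑ k, m.degree (ψ k))
      (Equiv.Perm.sign p • ∏ k, (Matrix.of fun i k =>
        monomial (a i) (1 : ℚ) * hasse (a i) (ψ k)) (p k) k) =
      (Equiv.Perm.sign p • ∏ k, (Matrix.of fun i k =>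
        (bin (m.degree (ψ k)) (a i) : ℚ)) (p k) k) * ∏ k, coeff (m.degree (ψ k)) (ψ k) := by
    intro p
    have h5 := (coeff_prod_of_degree_le m Finset.univ
      (fun k => monomial (a (p k)) (1 : ℚ) * hasse (a (p k)) (ψ k)) (fun k => m.degree (ψ k))
      (fun k _ => by
        rw [m.degree_le_iff]
        intro c hc
        refine m.le_degree ?_
        rw [mem_support_iff] at hc ⊢
        rw [coeff_euler] at hc
        exact right_ne_zero_of_mul hc)).2
    simp only [coeff_euler] at h5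
    rw [Finset.prod_mul_distrib (f := fun k => (bin (m.degree (ψ k)) (a (p k)) : ℚ))] at h5
    simp only [Matrix.of_apply]
    rcases Int.units_eq_one_or (Equiv.Perm.sign p) with h | h <;> rw [h]
    · simpa using h5
    · simpa using h5
  rw [Finset.sum_congr rfl (fun p _ => h4 p), ← Finset.sum_mul, ← Matrix.det_apply] at h3
  refine (mul_ne_zero hdet ?_) h3
  exact Finset.prod_ne_zero_iff.2 (fun k _ => m.coeff_degree_ne_zero_iff.2 (hψ k).2)

end

end Pool.Agent.Shared.Subspace
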