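import Mathlib

/-!
Multigraphs given by `s t : E → V`.  Cuts of 2-colourings, parities, postman sets
(complements of even subgraphs), Eulerian orientations and halving of circulations.
-/

namespace Pool.Agent.Shared.TJoin

open Finset

set_option linter.unusedSectionVars false

variable {V E : Type} [Fintype V] [DecidableEq V] [Fintype E] [DecidableEq E]

/-- the edge cut of a 2-colouring -/
def cut (s t : E → V) (c : V → ZMod 2) : Finset E := univ.filter fun e => c (s e) ≠ c (t e)

/-- parity of the number of edges of `K` in the cut of `c` -/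
def par (s t : E → V) (K : Finset E) (c : V → ZMod 2) : ZMod 2 := ∑ e ∈ K, (c (s e) + c (t e))

lemma mem_cut {s t : E → V} {c : V → ZMod 2} {e : E} : e ∈ cut s t c ↔ c (s e) ≠ c (t e) := by
  simp [cut]

lemma z2_add (a b : ZMod 2) : a + b = if a ≠ b then 1 else 0 := by
  revert a b; decide

lemma z2_cases (a : ZMod 2) : a = 0 ∨ a = 1 := by revert a; decide

lemma z2_self (a : ZMod 2) : a + a = 0 := by revert a; decide

lemma par_eq_card (s t : E → V) (K : Finset E) (c : V → ZMod 2) :
    par s t K c = ((K ∩ cut s t c).card : ZMod 2) := by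
  unfold par
  rw [Finset.sum_congr rfl fun e _ => z2_add (c (s e)) (c (t e)), ← Finset.sum_filter]
  simp only [sum_const, nsmul_eq_mul, mul_one]
  congr 2
  ext e; simp [cut]

lemma par_add (s t : E → V) (K : Finset E) (c c' : V → ZMod 2) :
    par s t K (c + c') = par s t K c + par s t K c' := by
  unfold par
  rw [← sum_add_distrib]
  refine sum_congr rfl fun e _ => ?_
  simp only [Pi.add_apply]; ring

lemma par_smul (s t : E → V) (K : Finset E) (r : ZMod 2) (c : V → ZMod 2) :
    par s t K (r • c) = r * par s t K c := by
  unfold par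
  rw [mul_sum]
  refine sum_congr rfl fun e _ => ?_
  simp only [Pi.smul_apply, smul_eq_mul]; ring

lemma par_univ_eq_one {s t : E → V} {c : V → ZMod 2} :
    par s t univ c = 1 ↔ Odd (cut s t c).card := by
  rw [par_eq_card, univ_inter]
  exact ZMod.natCast_eq_one_iff_odd

lemma par_eq_one {s t : E → V} {K : Finset E} {c : V → ZMod 2} :
    par s t K c = 1 ↔ Odd (K ∩ cut s t c).card := by
  rw [par_eq_card]
  exact ZMod.natCast_eq_one_iff_odd

/-- A set meeting every odd cut contains a postman set. -/
lemma exists_join_subset (P : Finset E) : ∀ (s t : E → V),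
    (∀ c, par s t univ c = 1 → ∃ e ∈ P, c (s e) ≠ c (t e)) →
    ∃ J ⊆ P, ∀ c, par s t J c = par s t univ c := by
  induction P using Finset.induction_on with
  | empty =>
    intro s t h
    refine ⟨∅, Subset.rfl, fun c => ?_⟩
    rcases z2_cases (par s t univ c) with h0 | h1
    · rw [h0]; simp [par]
    · obtain ⟨e, he, _⟩ := h c h1
      simp at he
  | insert e P he ih =>
    intro s t h
    set a := s e with ha
    set b := t e with hb
    let φ : V → V := fun v => if v = b then a else v
    have hφa : φ a = a := by simp [φ]
    have hφb : φ b = a := by simp [φ]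
    obtain ⟨J, hJP, hJ⟩ := ih (φ ∘ s) (φ ∘ t) (by
      intro c hc
      obtain ⟨e', he', hne⟩ := h (c ∘ φ) hc
      rcases mem_insert.mp he' with rfl | he'
      · exact absurd (by simp only [Function.comp, ← ha, ← hb, hφa, hφb]) hne
      · exact ⟨e', he', hne⟩)
    have hJ' : ∀ c : V → ZMod 2, par s t J (c ∘ φ) = par s t univ (c ∘ φ) := hJ
    let β : V → ZMod 2 := Pi.single b 1
    have hdec : ∀ c : V → ZMod 2, c = c ∘ φ + (c a + c b) • β := by
      intro c; funext v
      by_cases hv : v = b
      · subst hv
        simp only [Pi.add_apply, Function.comp, hφb, Pi.smul_apply, β, Pi.single_eq_same,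
          smul_eq_mul, mul_one]
        rw [← add_assoc, z2_self, zero_add]
      · simp [φ, β, hv]
    have heJ : e ∉ J := fun h' => he (hJP h')
    by_cases hβ : par s t J β = par s t univ β
    · refine ⟨J, hJP.trans (subset_insert _ _), fun c => ?_⟩
      rw [hdec c, par_add, par_add, par_smul, par_smul, hJ', hβ]
    · refine ⟨insert e J, insert_subset_insert _ hJP, fun c => ?_⟩
      have h1 : par s t (insert e J) (c ∘ φ) = par s t J (c ∘ φ) := by
        unfold par
        rw [sum_insert heJ]
        simp only [Function.comp, ← ha, ← hb, hφa, hφb, z2_self, zero_add]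
      by_cases hab : a = b
      · have : c a + c b = 0 := by rw [hab, z2_self]
        rw [hdec c, this, zero_smul, add_zero, h1, hJ']
      · have h2 : par s t (insert e J) β = par s t univ β := by
          have : par s t (insert e J) β = 1 + par s t J β := by
            unfold par
            rw [sum_insert heJ]
            simp [β, ← ha, ← hb, hab]
          rw [this]
          revert hβ
          generalize par s t J β = p
          generalize par s t univ β = q
          revert p q; decide
        rw [hdec c, par_add, par_add, par_smul, par_smul, h1, hJ', h2]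

/-- circulation, in potential form -/
def Circ (s t : E → V) (f : E → ℤ) : Prop := ∀ p : V → ℤ, ∑ e, f e * (p (s e) - p (t e)) = 0

lemma Circ.vertex {s t : E → V} {f : E → ℤ} (h : Circ s t f) (v : V) :
    ∑ e with s e = v, f e = ∑ e with t e = v, f e := by
  have := h (fun y => if y = v then 1 else 0)
  simp only [mul_sub, sum_sub_distrib, mul_ite, mul_one, mul_zero] at this
  rw [sum_filter, sum_filter]
  linarith

/-- Every even subgraph has an Eulerian orientation. -/
lemma exists_orient : ∀ (n : ℕ) (K : Finset E) (s t : E → V), K.card = n →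
    (∀ c, par s t K c = 0) →
    ∃ f : E → ℤ, Circ s t f ∧ (∀ e ∈ K, f e = 1 ∨ f e = -1) ∧ ∀ e ∉ K, f e = 0 := by
  intro n
  induction n with
  | zero =>
    intro K s t hK _
    rw [card_eq_zero] at hK
    subst hK
    exact ⟨0, fun p => by simp, by simp, by simp⟩
  | succ n ih =>
    intro K s t hK hev
    obtain ⟨e, he⟩ : K.Nonempty := card_pos.mp (by omega)
    by_cases hl : s e = t e
    · obtain ⟨f, hf, h1, h0⟩ := ih (K.erase e) s t (by rw [card_erase_of_mem he]; omega) (by
        intro c
        have := hev c
        unfold par at this ⊢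
        rw [← add_sum_erase _ _ he, hl, z2_self, zero_add] at this
        exact this)
      refine ⟨Function.update f e 1, fun p => ?_, fun e' he' => ?_, fun e' he' => ?_⟩
      · rw [← hf p]
        refine sum_congr rfl fun e' _ => ?_
        by_cases h : e' = e
        · subst h; simp [hl]
        · simp [h]
      · by_cases h : e' = e
        · subst h; simp
        · simp only [Function.update_of_ne h]; exact h1 e' (mem_erase.mpr ⟨h, he'⟩)
      · have h : e' ≠ e := fun h => he' (h ▸ he)
        simp only [Function.update_of_ne h]; exact h0 e' (fun h' => he' (mem_of_mem_erase h'))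
    · set v := t e with hv
      have hc := hev (Pi.single v 1)
      rw [par_eq_card] at hc
      have hev' : Even (K ∩ cut s t (Pi.single v 1)).card := ZMod.natCast_eq_zero_iff_even.mp hc
      have hem : e ∈ K ∩ cut s t (Pi.single v 1) := by
        simp [mem_cut, he, ← hv, hl]
      have h2 : 1 < (K ∩ cut s t (Pi.single v 1)).card := by
        have := card_pos.mpr ⟨e, hem⟩
        obtain ⟨k, hk⟩ := hev'
        omega
      obtain ⟨e2, he2, hne⟩ := exists_mem_ne h2 e
      obtain ⟨he2K, he2c⟩ := mem_inter.mp he2
      rw [mem_cut] at he2c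
      obtain ⟨b, ε, hε, hb, hb2⟩ : ∃ (b : V) (ε : ℤ), (ε = 1 ∨ ε = -1) ∧
          (∀ p : V → ℤ, ε * (p (s e2) - p (t e2)) = p v - p b) ∧
          (∀ c : V → ZMod 2, c (s e2) + c (t e2) = c v + c b) := by
        by_cases h : s e2 = v
        · exact ⟨t e2, 1, Or.inl rfl, fun p => by rw [h]; ring, fun c => by rw [h]⟩
        · have h' : t e2 = v := by
            by_contra h'
            simp [h, h'] at he2c
          exact ⟨s e2, -1, Or.inr rfl, fun p => by rw [h']; ring, fun c => by rw [h', add_comm]⟩
      have hee : e ∈ K.erase e2 := mem_erase.mpr ⟨hne.symm, he⟩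
      obtain ⟨f, hf, h1, h0⟩ := ih (K.erase e2) s (Function.update t e b)
        (by rw [card_erase_of_mem he2K]; omega) (by
        intro c
        have := hev c
        unfold par at this ⊢
        rw [← add_sum_erase _ _ he2K, ← add_sum_erase _ _ hee, hb2] at this
        rw [← add_sum_erase _ _ hee, Function.update_self]
        have h3 : ∑ x ∈ (K.erase e2).erase e, (c (s x) + c (Function.update t e b x)) =
            ∑ x ∈ (K.erase e2).erase e, (c (s x) + c (t x)) :=
          sum_congr rfl fun x hx => by rw [Function.update_of_ne (ne_of_mem_erase hx)]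
        rw [h3, ← this, ← hv]
        have := z2_self (c v)
        linear_combination -this)
      have hf2 : f e2 = 0 := h0 e2 (notMem_erase _ _)
      refine ⟨Function.update f e2 (ε * f e), fun p => ?_, fun e' he' => ?_, fun e' he' => ?_⟩
      · have := hf p
        have hee' : e ∈ univ.erase e2 := mem_erase.mpr ⟨hne.symm, mem_univ _⟩
        rw [← add_sum_erase _ _ (mem_univ e2), ← add_sum_erase _ _ hee', hf2,
          Function.update_self] at this
        rw [← add_sum_erase _ _ (mem_univ e2), ← add_sum_erase _ _ hee', Function.update_self,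
          Function.update_of_ne hne.symm]
        have h3 : ∑ x ∈ (univ.erase e2).erase e, Function.update f e2 (ε * f e) x * (p (s x) - p (t x)) =
            ∑ x ∈ (univ.erase e2).erase e, f x * (p (s x) - p (Function.update t e b x)) :=
          sum_congr rfl fun x hx => by
            rw [Function.update_of_ne (ne_of_mem_erase hx),
              Function.update_of_ne (ne_of_mem_erase (mem_of_mem_erase hx))]
        rw [h3, ← hv]
        have h4 := hb p
        linear_combination this + f e * h4
      · by_cases h : e' = e2
        · subst h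
          rw [Function.update_self]
          rcases hε with rfl | rfl <;> rcases h1 e hee with h | h <;> simp [h]
        · rw [Function.update_of_ne h]; exact h1 e' (mem_erase.mpr ⟨h, he'⟩)
      · have h : e' ≠ e2 := fun h => he' (h ▸ he2K)
        rw [Function.update_of_ne h]; exact h0 e' (fun h' => he' (mem_of_mem_erase h'))

/-- Halving an integer circulation. -/
lemma Circ.halve {s t : E → V} {y : E → ℤ} (hy : Circ s t y) :
    ∃ a b : E → ℤ, Circ s t a ∧ Circ s t b ∧ ∀ e, a e + b e = y e ∧ |a e - b e| ≤ 1 := by
  obtain ⟨g, hg, h1, h0⟩ := exists_orient _ (univ.filter fun e => Odd (y e)) s t rfl (by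
    intro c
    have := hy (fun v => ((c v).val : ℤ))
    have h2 := congrArg (Int.cast : ℤ → ZMod 2) this
    push_cast at h2
    simp only [ZMod.natCast_val, ZMod.cast_id', id_eq] at h2
    unfold par
    rw [sum_filter]
    refine Eq.trans ?_ h2
    refine sum_congr rfl fun e _ => ?_
    split_ifs with h
    · rw [(ZMod.intCast_eq_one_iff_odd).mpr h, one_mul, sub_eq_add_neg, ZMod.neg_eq_self_mod_two]
    · rw [Int.not_odd_iff_even] at h
      rw [(ZMod.intCast_eq_zero_iff_even).mpr h, zero_mul])
  have hpar : ∀ e, 2 * ((y e + g e) / 2) = y e + g e ∧ 2 * ((y e - g e) / 2) = y e - g e ∧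
      |g e| ≤ 1 := by
    intro e
    by_cases h : Odd (y e)
    · obtain ⟨k, hk⟩ := h
      rcases h1 e (by simp [hk]) with h' | h' <;> rw [h', hk] <;> refine ⟨by omega, by omega, by simp⟩
    · have h' := h0 e (by simpa using h)
      rw [Int.not_odd_iff_even] at h
      obtain ⟨k, hk⟩ := h
      rw [h', hk]; refine ⟨by omega, by omega, by simp⟩
  refine ⟨fun e => (y e + g e) / 2, fun e => (y e - g e) / 2, fun p => ?_, fun p => ?_, fun e => ?_⟩
  · have : 2 * ∑ e, (y e + g e) / 2 * (p (s e) - p (t e)) = 0 := by
      rw [mul_sum]
      have h3 := hy p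
      have h4 := hg p
      rw [← add_zero (0 : ℤ)]
      nth_rewrite 1 [← h3]
      rw [← h4, ← sum_add_distrib]
      refine sum_congr rfl fun e _ => ?_
      rw [← mul_assoc, (hpar e).1]; ring
    beta_reduce
    omega
  · have : 2 * ∑ e, (y e - g e) / 2 * (p (s e) - p (t e)) = 0 := by
      rw [mul_sum]
      have h3 := hy p
      have h4 := hg p
      rw [← sub_zero (0 : ℤ)]
      nth_rewrite 1 [← h3]
      rw [← h4, ← sum_sub_distrib]
      refine sum_congr rfl fun e _ => ?_
      rw [← mul_assoc, (hpar e).2.1]; ring
    beta_reduce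
    omega
  · obtain ⟨h1, h2, h3⟩ := hpar e
    rw [abs_le] at h3 ⊢
    beta_reduce
    refine ⟨by omega, by omega, by omega⟩

end Pool.Agent.Shared.TJoin
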