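import Mathlib

/-!
A monotone form of the octahedral Tucker lemma, proved with mod 2 cochains on lists.

A sign vector is a pair `(A, B)` of disjoint finsets (positive part, negative part).
-/

namespace Pool.Agent.Shared.Tucker

abbrev SV := Finset ℕ × Finset ℕ

/-- nonzero sign vectors supported on the first `d` coordinates -/
def Good (d : ℕ) (x : SV) : Prop :=
  Disjoint x.1 x.2 ∧ (∀ i ∈ x.1, i < d) ∧ (∀ i ∈ x.2, i < d) ∧ (x.1 ∪ x.2).Nonempty

theorem Good.swap {d : ℕ} {x : SV} (h : Good d x) : Good d x.swap :=
  ⟨h.1.symm, h.2.2.1, h.2.1, by simpa [Finset.union_comm] using h.2.2.2⟩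

theorem Good.mono {d e : ℕ} {x : SV} (h : Good d x) (hde : d ≤ e) : Good e x :=
  ⟨h.1, fun i hi => (h.2.1 i hi).trans_le hde, fun i hi => (h.2.2.1 i hi).trans_le hde, h.2.2.2⟩

def up (d : ℕ) (x : SV) : SV := (insert d x.1, x.2)

theorem Good.up {d : ℕ} {x : SV} (h : Good d x) : Good (d + 1) (up d x) := by
  refine ⟨?_, ?_, ?_, ?_⟩
  · refine Finset.disjoint_insert_left.2 ⟨fun hh => ?_, h.1⟩
    exact lt_irrefl _ (h.2.2.1 d hh)
  · intro i hi
    rcases Finset.mem_insert.1 hi with rfl | hi
    · omega
    · have := h.2.1 i hi; omega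
  · intro i hi
    have := h.2.2.1 i hi; omega
  · exact ⟨d, by simp [Tucker.up]⟩

theorem le_up (d : ℕ) (x : SV) : x ≤ up d x := ⟨Finset.subset_insert _ _, le_rfl⟩

theorem up_mono (d : ℕ) {x y : SV} (h : x ≤ y) : up d x ≤ up d y :=
  ⟨Finset.insert_subset_insert _ h.1, h.2⟩

abbrev Co := List SV → ZMod 2

/-- coboundary -/
def cob : List SV → Co → ZMod 2
  | [], _ => 0
  | x :: t, f => f t + cob t (fun s => f (x :: s))

/-- prism operator between the identity and `u` -/
def pri (u : SV → SV) : List SV → Co → ZMod 2
  | [], _ => 0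
  | x :: t, f => f (x :: u x :: t.map u) + pri u t (fun s => f (x :: s))

theorem cob_add (t : List SV) (f g : Co) :
    cob t (fun s => f s + g s) = cob t f + cob t g := by
  induction t generalizing f g with
  | nil => simp [cob]
  | cons x t ih => simp only [cob]; rw [ih]; ring

theorem pri_add (u : SV → SV) (t : List SV) (f g : Co) :
    pri u t (fun s => f s + g s) = pri u t f + pri u t g := by
  induction t generalizing f g with
  | nil => simp [pri]
  | cons x t ih => simp only [pri]; rw [ih]; ring

theorem cob_mul (t : List SV) (c : ZMod 2) (f : Co) :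
    cob t (fun s => c * f s) = c * cob t f := by
  induction t generalizing f with
  | nil => simp [cob]
  | cons x t ih => simp only [cob]; rw [ih]; ring

theorem cob_map (u : SV → SV) (t : List SV) (f : Co) :
    cob (t.map u) f = cob t (fun s => f (s.map u)) := by
  induction t generalizing f with
  | nil => simp [cob]
  | cons x t ih => simp only [cob, List.map_cons]; rw [ih]

theorem two_eq (a : ZMod 2) : a + a = 0 := by
  have : (2 : ZMod 2) = 0 := rfl
  rw [← two_mul, this, zero_mul]

theorem pri_cob (u : SV → SV) (t : List SV) (f : Co) :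
    pri u t (fun s => cob s f) + cob t (fun s => pri u s f) = f t + f (t.map u) := by
  induction t generalizing f with
  | nil => simp [pri, cob, two_eq]
  | cons x t ih =>
    simp only [pri, cob, List.map_cons]
    rw [pri_add, cob_add, cob_map]
    have h := ih (fun s => f (x :: s))
    have h1 := two_eq (pri u t f)
    have h2 := two_eq (cob t (fun s => f (x :: u x :: s.map u)))
    have h3 := two_eq (f (x :: t.map u))
    linear_combination h + h1 + h2 + h3

theorem pri_zero (u : SV → SV) (hu : ∀ x, x ≤ u x) (hm : ∀ x y, x ≤ y → u x ≤ u y)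
    (t : List SV) (ht : t.Pairwise (· ≤ ·)) (f : Co)
    (hf : ∀ s : List SV, s.length = t.length + 1 → s.Pairwise (· ≤ ·) →
      (∀ y ∈ s, ∃ x ∈ t, y = x ∨ y = u x) → f s = 0) : pri u t f = 0 := by
  induction t generalizing f with
  | nil => simp [pri]
  | cons x t ih =>
    rw [List.pairwise_cons] at ht
    simp only [pri]
    rw [hf, ih ht.2, add_zero]
    · intro s hs hp hy
      refine hf _ (by simp [hs]) (List.pairwise_cons.2 ⟨fun y hy' => ?_, hp⟩) ?_
      · obtain ⟨z, hz, rfl | rfl⟩ := hy y hy'
        · exact ht.1 _ hz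
        · exact (ht.1 _ hz).trans (hu _)
      · intro y hy'
        rcases List.mem_cons.1 hy' with rfl | hy'
        · exact ⟨y, by simp, Or.inl rfl⟩
        · obtain ⟨z, hz, h⟩ := hy y hy'
          exact ⟨z, by simp [hz], h⟩
    · simp
    · refine List.pairwise_cons.2 ⟨fun y hy => ?_, List.pairwise_cons.2 ⟨fun y hy => ?_, ?_⟩⟩
      · rcases List.mem_cons.1 hy with rfl | hy
        · exact hu _
        · obtain ⟨z, hz, rfl⟩ := List.mem_map.1 hy
          exact (ht.1 _ hz).trans (hu _)
      · obtain ⟨z, hz, rfl⟩ := List.mem_map.1 hy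
        exact hm _ _ (ht.1 _ hz)
      · exact List.pairwise_map.2 (ht.2.imp fun h => hm _ _ h)
    · intro y hy
      rcases List.mem_cons.1 hy with rfl | hy
      · exact ⟨y, by simp, Or.inl rfl⟩
      rcases List.mem_cons.1 hy with rfl | hy
      · exact ⟨x, by simp, Or.inr rfl⟩
      · obtain ⟨z, hz, rfl⟩ := List.mem_map.1 hy
        exact ⟨z, by simp [hz], Or.inr rfl⟩

/-- pull back of a cochain to the equator, dual to the upper hemisphere -/
def hem (d : ℕ) (f : Co) : Co :=
  fun s => pri (up d) s f + f (({d}, ∅) :: s.map (up d))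

/-- fundamental cycle of the sphere of sign vectors on `d` coordinates -/
def cyc : ℕ → Co → ZMod 2
  | 0, f => f []
  | d + 1, f => cyc d (hem d (fun s => f s + f (s.map Prod.swap)))

theorem hem_add (d : ℕ) (f g : Co) :
    hem d (fun s => f s + g s) = fun s => hem d f s + hem d g s := by
  funext s; simp only [hem]; rw [pri_add]; ring

theorem cyc_add (d : ℕ) (f g : Co) : cyc d (fun s => f s + g s) = cyc d f + cyc d g := by
  induction d generalizing f g with
  | zero => rfl
  | succ d ih =>
    simp only [cyc]
    rw [← ih, ← hem_add]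
    congr 2
    funext s; ring

theorem cyc_swap (d : ℕ) (f : Co) : cyc d (fun s => f (s.map Prod.swap)) = cyc d f := by
  cases d with
  | zero => rfl
  | succ d =>
    simp only [cyc]
    congr 2
    funext s
    simp [add_comm]

theorem hem_cob (d : ℕ) (f : Co) :
    hem d (fun s => cob s f) = fun s => f s + cob s (hem d f) := by
  funext s
  simp only [hem, cob]
  have h := pri_cob (up d) s f
  have h0 : cob s (hem d f) = cob s (fun s => pri (up d) s f) +
      cob s (fun s => f (({d}, ∅) :: s.map (up d))) := by
    rw [← cob_add]; rfl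
  rw [h0, cob_map]
  have h1 := two_eq (f (s.map (up d)))
  have h2 := two_eq (cob s (fun s => pri (up d) s f))
  linear_combination h + h1 - h2

theorem cyc_cob (d : ℕ) (f : Co) : cyc d (fun s => cob s f) = 0 := by
  induction d generalizing f with
  | zero => rfl
  | succ d ih =>
    simp only [cyc]
    have h : (fun s : List SV => cob s f + cob (s.map Prod.swap) f) =
        fun s => cob s (fun s => f s + f (s.map Prod.swap)) := by
      funext s; rw [cob_add, cob_map]
    rw [h, hem_cob, cyc_add, ih, cyc_add, cyc_swap, two_eq, add_zero]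

def GoodL (d e : ℕ) (s : List SV) : Prop :=
  s.length = e ∧ s.Pairwise (· ≤ ·) ∧ ∀ y ∈ s, Good d y

theorem hem_zero (d : ℕ) (f : Co) (hf : ∀ s, GoodL (d + 1) (d + 1) s → f s = 0) (s : List SV)
    (hs : GoodL d d s) : hem d f s = 0 := by
  simp only [hem]
  rw [pri_zero (up d) (le_up d) (fun _ _ => up_mono d) s hs.2.1, hf, add_zero]
  · refine ⟨by simp [hs.1], List.pairwise_cons.2 ⟨fun y hy => ?_, ?_⟩, fun y hy => ?_⟩
    · obtain ⟨z, -, rfl⟩ := List.mem_map.1 hy
      exact ⟨by simp [up], by simp⟩
    · exact List.pairwise_map.2 (hs.2.1.imp fun h => up_mono d h)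
    · rcases List.mem_cons.1 hy with rfl | hy
      · exact ⟨by simp, by simp, by simp, by simp⟩
      · obtain ⟨z, hz, rfl⟩ := List.mem_map.1 hy
        exact (hs.2.2 z hz).up
  · intro t ht hp hy
    refine hf t ⟨by rw [ht, hs.1], hp, fun y hy' => ?_⟩
    obtain ⟨z, hz, rfl | rfl⟩ := hy y hy'
    · exact (hs.2.2 _ hz).mono (by omega)
    · exact (hs.2.2 _ hz).up

theorem GoodL.swap {d e : ℕ} {s : List SV} (h : GoodL d e s) : GoodL d e (s.map Prod.swap) := by
  refine ⟨by simp [h.1], List.pairwise_map.2 (h.2.1.imp fun h => ⟨h.2, h.1⟩), fun y hy => ?_⟩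
  obtain ⟨z, hz, rfl⟩ := List.mem_map.1 hy
  exact (h.2.2 z hz).swap

theorem cyc_zero (d : ℕ) (f : Co) (hf : ∀ s, GoodL d d s → f s = 0) : cyc d f = 0 := by
  induction d generalizing f with
  | zero => exact hf [] ⟨rfl, List.Pairwise.nil, by simp⟩
  | succ d ih =>
    simp only [cyc]
    refine ih _ (hem_zero d _ fun s hs => ?_)
    rw [hf s hs, hf _ hs.swap, add_zero]

/-- indicator of lists with alternating signs starting with `b` -/
def alt (σ : SV → Bool) : List SV → Bool → ZMod 2
  | [], _ => 1
  | x :: t, b => (if σ x = b then 1 else 0) * alt σ t (!b)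

theorem cob_alt (σ : SV → Bool) (t : List SV) (b : Bool) :
    cob t (fun s => alt σ s b) = alt σ t b + alt σ t (!b) := by
  induction t generalizing b with
  | nil => simp [cob, alt, two_eq]
  | cons x t ih =>
    simp only [cob, alt]
    rw [cob_mul, ih]
    have h1 := two_eq (alt σ t b)
    cases b <;> cases σ x <;> simp at h1 ⊢ <;> linear_combination h1

theorem alt_swap (σ : SV → Bool) (t : List SV) (ht : ∀ y ∈ t, σ y.swap = !σ y) (b : Bool) :
    alt σ (t.map Prod.swap) b = alt σ t (!b) := by
  induction t generalizing b with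
  | nil => rfl
  | cons x t ih =>
    simp only [List.map_cons, alt]
    rw [ih (fun y hy => ht y (by simp [hy])), ht x (by simp)]
    cases b <;> cases σ x <;> simp

theorem cyc_alt (σ : SV → Bool) (N : ℕ) (hσ : ∀ y, Good N y → σ y.swap = !σ y) (d : ℕ)
    (hd : d ≤ N) : cyc d (fun s => alt σ s true) = 1 := by
  induction d with
  | zero => rfl
  | succ d ih =>
    simp only [cyc]
    have h1 : cyc d (fun s => hem d (fun s => alt σ s true + alt σ (s.map Prod.swap) true) s +
        hem d (fun s => cob s (fun s => alt σ s true)) s) = 0 := by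
      rw [← hem_add]
      refine cyc_zero d _ (hem_zero d _ fun s hs => ?_)
      rw [cob_alt, alt_swap σ s (fun y hy => hσ y ((hs.2.2 y hy).mono hd)), two_eq]
    rw [cyc_add, hem_cob, cyc_add, cyc_cob, ih (by omega)] at h1
    have h2 := two_eq (1 : ZMod 2)
    linear_combination h1 - h2

/-- **Monotone Tucker lemma.** If `w` is monotone on nonzero sign vectors of length `N` and never
takes the same value on a vector and its negative, then it takes a value at least `N`. -/
theorem tucker (N : ℕ) (hN : 1 ≤ N) (w : SV → ℕ)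
    (hm : ∀ x y, Good N x → Good N y → x ≤ y → w x ≤ w y)
    (hne : ∀ x, Good N x → w x ≠ w x.swap) : ∃ x, Good N x ∧ N ≤ w x := by
  set σ : SV → Bool := fun x => decide (w x.swap < w x) with hσ
  have hs : ∀ y, Good N y → σ y.swap = !σ y := by
    intro y hy
    have := hne y hy
    simp only [hσ, Prod.swap_swap]
    by_cases h : w y < w y.swap
    · have h' : ¬ w y.swap < w y := by omega
      simp [h, h']
    · have h' : w y.swap < w y := by omega
      simp [h, h']
  have h1 := cyc_alt σ N hs N le_rfl
  have key : ∀ (t : List SV) (x : SV) (b : Bool), (x :: t).Pairwise (· ≤ ·) →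
      (∀ y ∈ x :: t, Good N y) → alt σ (x :: t) b ≠ 0 →
      ∃ y, Good N y ∧ max (w x) (w x.swap) + t.length ≤ max (w y) (w y.swap) := by
    intro t
    induction t with
    | nil => intro x b _ hg _; exact ⟨x, hg x (by simp), by simp⟩
    | cons z t ih =>
      intro x b hp hg ha
      rw [List.pairwise_cons] at hp
      have hx : σ x = b := by
        by_contra h
        exact ha (by simp only [alt, if_neg h, zero_mul])
      have ha' : alt σ (z :: t) (!b) ≠ 0 := by
        intro h
        apply ha
        rw [alt, h, mul_zero]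
      have hz : σ z = !b := by
        by_contra h
        exact ha' (by simp only [alt, if_neg h, zero_mul])
      obtain ⟨y, hy, hle⟩ := ih z (!b) hp.2 (fun y hy => hg y (by simp [hy])) ha'
      refine ⟨y, hy, le_trans ?_ hle⟩
      have gx := hg x (by simp)
      have gz := hg z (by simp)
      have hxz : x ≤ z := hp.1 z (by simp)
      have m1 := hm x z gx gz hxz
      have m2 := hm x.swap z.swap gx.swap gz.swap ⟨hxz.2, hxz.1⟩
      have n1 := hne x gx
      have n2 := hne z gz
      simp only [List.length_cons]
      cases b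
      · simp only [hσ, decide_eq_false_iff_not, Bool.not_false, decide_eq_true_eq] at hx hz
        omega
      · simp only [hσ, decide_eq_false_iff_not, Bool.not_true, decide_eq_true_eq] at hx hz
        omega
  by_contra hcon
  push Not at hcon
  rw [cyc_zero] at h1
  · exact zero_ne_one h1
  · intro s hs'
    by_contra ha
    cases s with
    | nil => have := hs'.1; simp at this; omega
    | cons x t =>
      obtain ⟨y, hy, hle⟩ := key t x true hs'.2.1 hs'.2.2 ha
      have hl : t.length + 1 = N := by simpa using hs'.1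
      have n1 := hne x (hs'.2.2 x (by simp))
      have c1 := hcon y hy
      have c2 := hcon y.swap hy.swap
      omega

end Pool.Agent.Shared.Tucker
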