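import Mathlib

/-!
A zero lemma for exponential polynomials (in the style of Laurent, Mignotte, Nesterenko).
-/

set_option autoImplicit false

namespace Pool.Agent.Shared.TwoLogsProd

open Finset Polynomial

theorem zero_fin {m : ℕ} (Q : Fin m → ℝ[X]) (hQ : ∀ j, Q j ≠ 0) (β : Fin m → ℝ)
    (hβ : Function.Injective β) (K : ℕ) (hK : ∀ j, (Q j).natDegree ≤ K) (Xs : Finset ℝ)
    (hX : m * K < Xs.card)
    (hy : ∀ x ∈ Xs, ∃ y : Fin m → ℝ, y ≠ 0 ∧
      ∀ i : ℕ, i < m → ∑ j, (Q j).eval (x + i) * β j ^ i * y j = 0) : False := by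
  classical
  let M : Matrix (Fin m) (Fin m) ℝ[X] := fun i j => C (β j ^ (i : ℕ)) * taylor ((i : ℕ) : ℝ) (Q j)
  have hprod : ∀ σ : Equiv.Perm (Fin m), ∏ j, M (σ j) j =
      C (∏ j, β j ^ (σ j : ℕ)) * ∏ j, taylor ((σ j : ℕ) : ℝ) (Q j) := by
    intro σ
    simp only [M, prod_mul_distrib, map_prod]
  have hdeg : ∀ σ : Equiv.Perm (Fin m),
      (∏ j, taylor ((σ j : ℕ) : ℝ) (Q j)).natDegree = ∑ j, (Q j).natDegree := by
    intro σ
    rw [natDegree_prod _ _ (fun j _ => (taylor_eq_zero _ _).not.2 (hQ j))]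
    simp only [natDegree_taylor]
  have hco : M.det.coeff (∑ j, (Q j).natDegree) =
      (∏ j, (Q j).leadingCoeff) * (Matrix.vandermonde β).det := by
    rw [← Matrix.det_transpose (Matrix.vandermonde β), Matrix.det_apply, Matrix.det_apply,
      finsetSum_coeff, mul_sum]
    refine sum_congr rfl fun σ _ => ?_
    rw [hprod, Units.smul_def, Units.smul_def, coeff_smul, coeff_C_mul, ← hdeg σ,
      coeff_natDegree, leadingCoeff_prod]
    simp only [leadingCoeff_taylor, Matrix.transpose_apply, Matrix.vandermonde_apply, zsmul_eq_mul]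
    ring
  have hne : M.det ≠ 0 := by
    intro h
    rw [h, coeff_zero] at hco
    exact mul_ne_zero (prod_ne_zero_iff.2 fun j _ => leadingCoeff_ne_zero.2 (hQ j))
      (Matrix.det_vandermonde_ne_zero_iff.2 hβ) hco.symm
  have hd : M.det.natDegree ≤ m * K := by
    rw [Matrix.det_apply]
    refine natDegree_sum_le_of_forall_le _ _ fun σ _ => ?_
    rw [hprod, Units.smul_def]
    refine (natDegree_smul_le _ _).trans ((natDegree_C_mul_le _ _).trans ?_)
    rw [hdeg]
    refine (sum_le_sum fun j _ => hK j).trans ?_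
    simp
  refine hne (eq_zero_of_natDegree_lt_card_of_eval_eq_zero' _ Xs (fun x hx => ?_)
    (hd.trans_lt hX))
  obtain ⟨y, hy0, hy1⟩ := hy x hx
  have h1 : M.det.eval x = ((evalRingHom x).mapMatrix M).det := (RingHom.map_det (evalRingHom x) M)
  rw [h1, ← Matrix.exists_mulVec_eq_zero_iff]
  refine ⟨y, hy0, funext fun i => ?_⟩
  rw [Pi.zero_apply, ← hy1 i i.2]
  simp only [Matrix.mulVec, dotProduct, RingHom.mapMatrix_apply, Matrix.map_apply, M,
    coe_evalRingHom, eval_mul, eval_C, taylor_eval]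
  exact sum_congr rfl fun j _ => by ring

theorem zero_lemma {L : ℕ} (Q : Fin L → ℝ[X]) (β : Fin L → ℝ)
    (hβ : Function.Injective β) (K : ℕ) (hK : ∀ j, (Q j).natDegree ≤ K) (Xs : Finset ℝ)
    (hX : L * K < Xs.card)
    (hy : ∀ x ∈ Xs, ∃ y : Fin L → ℝ, (∀ j, y j ≠ 0) ∧
      ∀ i : ℕ, i < L → ∑ j, (Q j).eval (x + i) * β j ^ i * y j = 0) : ∀ j, Q j = 0 := by
  classical
  by_contra hcon
  push Not at hcon
  obtain ⟨j0, hj0⟩ := hcon
  let J : Finset (Fin L) := univ.filter fun j => Q j ≠ 0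
  have hm : J.card ≤ L := by simpa using card_le_univ J
  let e : Fin J.card ↪o Fin L := J.orderEmbOfFin rfl
  have he : ∀ j, e j ∈ J := fun j => J.orderEmbOfFin_mem rfl j
  have hJ : 0 < J.card := card_pos.2 ⟨j0, by simp [J, hj0]⟩
  refine zero_fin (fun j => Q (e j)) (fun j => (mem_filter.1 (he j)).2) (fun j => β (e j))
    (hβ.comp e.injective) K (fun j => hK _) Xs
    (lt_of_le_of_lt (Nat.mul_le_mul_right _ hm) hX) fun x hx => ?_
  obtain ⟨y, hy0, hy1⟩ := hy x hx
  refine ⟨fun j => y (e j), fun h => hy0 _ (congrFun h ⟨0, hJ⟩), fun i hi => ?_⟩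
  rw [← hy1 i (hi.trans_le hm)]
  have h1 : univ.map e.toEmbedding = J := by
    ext j
    simp only [mem_map, mem_univ, true_and]
    constructor
    · rintro ⟨i, rfl⟩; exact he i
    · intro hj
      have : j ∈ Set.range e := by rw [Finset.range_orderEmbOfFin]; exact hj
      exact this
  have h2 := Finset.sum_map univ e.toEmbedding
    (fun j => (Q j).eval (x + i) * β j ^ i * y j)
  rw [h1] at h2
  refine h2.symm.trans (sum_subset (subset_univ _) fun j _ hj => ?_)
  have : Q j = 0 := by simpa [J] using hj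
  simp [this]

end Pool.Agent.Shared.TwoLogsProd
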