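import Pool.Agent.Shared.TwoLogs
import Pool.Agent.Shared.TwoLogsZero

/-!
A lower bound for `a log α - log β` with positive rationals `α`, `β`, whose dependence on the
heights is the product of the two heights (Schneider's method).
-/

set_option autoImplicit false

namespace Pool.Agent.Shared.TwoLogsProd

open Finset Pool.Agent.Shared.TwoLogs

theorem abs_log_sub_le {u v h : ℕ} (hu : 1 ≤ u) (hv : 1 ≤ v) (hu' : u ≤ 2 ^ h) (hv' : v ≤ 2 ^ h) :
    |Real.log u - Real.log v| ≤ h * Real.log 2 := by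
  have b : ∀ t : ℕ, 1 ≤ t → t ≤ 2 ^ h → 0 ≤ Real.log t ∧ Real.log t ≤ h * Real.log 2 := by
    intro t h1 h2
    have h3 : (1 : ℝ) ≤ t := by exact_mod_cast h1
    refine ⟨Real.log_nonneg h3, ?_⟩
    rw [← Real.log_pow]
    exact Real.log_le_log (by linarith) (by exact_mod_cast h2)
  obtain ⟨a1, a2⟩ := b u hu hu'
  obtain ⟨a3, a4⟩ := b v hv hv'
  rw [abs_le]
  constructor <;> linarith

theorem liouville_nat {A B E : ℕ} (hA : 1 ≤ A) (hB : 1 ≤ B) (hA' : A ≤ 2 ^ E) (hB' : B ≤ 2 ^ E)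
    (hne : A ≠ B) : 1 ≤ 2 ^ E * |Real.log A - Real.log B| := by
  have key : ∀ A B : ℕ, 1 ≤ A → B ≤ 2 ^ E → A < B → 1 ≤ 2 ^ E * |Real.log B - Real.log A| := by
    intro A B hA hB h
    have h1 := (log_sub_log_ge hA h).trans (le_abs_self _)
    have h2 : (0 : ℝ) < B := by exact_mod_cast (by omega : 0 < B)
    have h3 : (B : ℝ) ≤ 2 ^ E := by exact_mod_cast hB
    rw [div_le_iff₀ h2] at h1
    nlinarith [abs_nonneg (Real.log B - Real.log A)]
  rcases lt_or_gt_of_ne hne with h | h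
  · rw [abs_sub_comm]; exact key A B hA hB' h
  · exact key B A hB hA' h

theorem liouville_two {u1 v1 u2 v2 h1 h2 a : ℕ} (hu1 : 1 ≤ u1) (hv1 : 1 ≤ v1) (hu2 : 1 ≤ u2)
    (hv2 : 1 ≤ v2) (hu1' : u1 ≤ 2 ^ h1) (hv1' : v1 ≤ 2 ^ h1) (hu2' : u2 ≤ 2 ^ h2)
    (hv2' : v2 ≤ 2 ^ h2)
    (hne : a * (Real.log u1 - Real.log v1) - (Real.log u2 - Real.log v2) ≠ 0) :
    1 ≤ 2 ^ (a * h1 + h2) *
      |a * (Real.log u1 - Real.log v1) - (Real.log u2 - Real.log v2)| := by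
  have e : a * (Real.log u1 - Real.log v1) - (Real.log u2 - Real.log v2) =
      Real.log ((u1 ^ a * v2 : ℕ) : ℝ) - Real.log ((v1 ^ a * u2 : ℕ) : ℝ) := by
    push_cast
    rw [Real.log_mul (by positivity) (by positivity), Real.log_mul (by positivity) (by positivity),
      Real.log_pow, Real.log_pow]
    ring
  rw [e] at hne ⊢
  have b : ∀ x y : ℕ, x ≤ 2 ^ h1 → y ≤ 2 ^ h2 → x ^ a * y ≤ 2 ^ (a * h1 + h2) := by
    intro x y hx hy
    rw [pow_add, mul_comm a, pow_mul]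
    exact Nat.mul_le_mul (Nat.pow_le_pow_left hx a) hy
  exact liouville_nat (Nat.mul_pos (Nat.pow_pos hu1) hv2) (Nat.mul_pos (Nat.pow_pos hv1) hu2)
    (b _ _ hu1' hv2') (b _ _ hv1' hu2') (fun h => hne (by rw [h, sub_self]))

/-- the auxiliary function -/
noncomputable def aux {K L : ℕ} (t : ℝ) (p : Fin K × Fin L → ℤ) (u : ℂ) : ℂ :=
  ∑ j : Fin K × Fin L, (p j : ℂ) * u ^ (j.1 : ℕ) * Complex.exp ((((j.2 : ℕ) * t : ℝ) : ℂ) * u)

/-- the algebraic values -/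
noncomputable def G {K L : ℕ} (t1 t2 : ℝ) (a : ℕ) (p : Fin K × Fin L → ℤ) (r s : ℕ) : ℝ :=
  ∑ j : Fin K × Fin L, (p j : ℝ) * ((r + s * a : ℕ) : ℝ) ^ (j.1 : ℕ) *
    Real.exp ((j.2 : ℕ) * (r * t1 + s * t2))

theorem aux_diff {K L : ℕ} (t : ℝ) (p : Fin K × Fin L → ℤ) : Differentiable ℂ (aux t p) := by
  unfold aux
  fun_prop

theorem exp_le_two_pow {x : ℝ} {E : ℕ} (h : x ≤ E * Real.log 2) : Real.exp x ≤ 2 ^ E := by
  rw [← Real.exp_log (by positivity : (0 : ℝ) < 2 ^ E), Real.exp_le_exp, Real.log_pow]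
  exact h

theorem aux_bound {K L w h E : ℕ} {t T : ℝ} (p : Fin K × Fin L → ℤ)
    (hp : ∀ j, |(p j : ℝ)| ≤ 2 ^ h) (hKL : K * L ≤ 2 ^ w) (hT : T ≤ 2 ^ w)
    (hE : L * (|t| * T) ≤ E * Real.log 2)
    (u : ℂ) (hu : ‖u‖ = T) : ‖aux t p u‖ ≤ 2 ^ (w + h + w * K + E) := by
  have hT0 : 0 ≤ T := hu ▸ norm_nonneg u
  refine (norm_sum_le_card _ (B := 2 ^ h * 2 ^ (w * K) * 2 ^ E) fun j => ?_).trans ?_
  · rw [norm_mul, norm_mul, norm_pow, hu]
    have a1 : ‖(p j : ℂ)‖ ≤ 2 ^ h := by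
      rw [Complex.norm_intCast]; exact hp j
    have a2 : T ^ (j.1 : ℕ) ≤ 2 ^ (w * K) := pow_le_aux hT0 hT j.1.2.le
    have a3 : ‖Complex.exp ((((j.2 : ℕ) * t : ℝ) : ℂ) * u)‖ ≤ 2 ^ E := by
      refine (Complex.norm_exp_le_exp_norm _).trans (exp_le_two_pow (le_trans ?_ hE))
      rw [norm_mul, hu, Complex.norm_real, Real.norm_eq_abs, abs_mul, Nat.abs_cast, mul_assoc]
      have a4 : ((j.2 : ℕ) : ℝ) ≤ L := by exact_mod_cast j.2.2.le
      gcongr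
    gcongr
  · rw [Fintype.card_prod, Fintype.card_fin, Fintype.card_fin, pow_add, pow_add, pow_add]
    have : ((K * L : ℕ) : ℝ) ≤ 2 ^ w := by exact_mod_cast hKL
    calc _ ≤ (2 : ℝ) ^ w * (2 ^ h * 2 ^ (w * K) * 2 ^ E) := by gcongr
      _ = _ := by ring

theorem aux_approx {K L a w h E r s : ℕ} {t1 t2 : ℝ}
    (p : Fin K × Fin L → ℤ) (hp : ∀ j, |(p j : ℝ)| ≤ 2 ^ h) (hKL : K * L ≤ 2 ^ w)
    (hrs : r + s * a ≤ 2 ^ w) (hLs : L * s ≤ 2 ^ w)
    (hE : L * |r * t1 + s * t2| ≤ E * Real.log 2) (hΛ : 2 ^ w * |a * t1 - t2| ≤ 1) :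
    ‖aux t1 p ((r + s * a : ℕ) : ℂ) - G t1 t2 a p r s‖ ≤
      2 ^ (w + h + w * K + E + w + 1) * |a * t1 - t2| := by
  set Λ := a * t1 - t2 with hΛ'
  unfold aux G
  rw [Complex.ofReal_sum, ← Finset.sum_sub_distrib]
  refine (norm_sum_le_card _
    (B := 2 ^ h * 2 ^ (w * K) * 2 ^ E * (2 * (2 ^ w * |Λ|))) fun j => ?_).trans ?_
  · have e1 : (((j.2 : ℕ) * t1 : ℝ) : ℂ) * ((r + s * a : ℕ) : ℂ) =
        (((j.2 : ℕ) * (r * t1 + s * t2) + (j.2 * s : ℕ) * Λ : ℝ) : ℂ) := by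
      rw [← Complex.ofReal_natCast, ← Complex.ofReal_mul]
      congr 1
      rw [hΛ']
      push_cast
      ring
    have e2 : (p j : ℂ) * ((r + s * a : ℕ) : ℂ) ^ (j.1 : ℕ) *
        Complex.exp ((((j.2 : ℕ) * t1 : ℝ) : ℂ) * ((r + s * a : ℕ) : ℂ)) -
        (((p j : ℝ) * ((r + s * a : ℕ) : ℝ) ^ (j.1 : ℕ) *
          Real.exp ((j.2 : ℕ) * (r * t1 + s * t2)) : ℝ) : ℂ) =
        (((p j : ℝ) * ((r + s * a : ℕ) : ℝ) ^ (j.1 : ℕ) *
          Real.exp ((j.2 : ℕ) * (r * t1 + s * t2)) *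
          (Real.exp ((j.2 * s : ℕ) * Λ) - 1) : ℝ) : ℂ) := by
      rw [e1, ← Complex.ofReal_exp, Real.exp_add]
      push_cast
      ring
    rw [e2, Complex.norm_real, Real.norm_eq_abs, abs_mul, abs_mul, abs_mul, abs_pow,
      Nat.abs_cast, Real.abs_exp]
    have a2 : ((r + s * a : ℕ) : ℝ) ^ (j.1 : ℕ) ≤ 2 ^ (w * K) :=
      pow_le_aux (by positivity) (by exact_mod_cast hrs) j.1.2.le
    have a3 : Real.exp ((j.2 : ℕ) * (r * t1 + s * t2)) ≤ 2 ^ E := by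
      refine exp_le_two_pow (le_trans ?_ hE)
      have a4 : ((j.2 : ℕ) : ℝ) ≤ L := by exact_mod_cast j.2.2.le
      calc _ ≤ ((j.2 : ℕ) : ℝ) * |r * t1 + s * t2| := by gcongr; exact le_abs_self _
        _ ≤ _ := by gcongr
    have a4 : |((j.2 * s : ℕ) : ℝ) * Λ| ≤ 2 ^ w * |Λ| := by
      rw [abs_mul, Nat.abs_cast]
      have : (j.2 : ℕ) * s ≤ 2 ^ w := (Nat.mul_le_mul_right _ j.2.2.le).trans hLs
      have : (((j.2 : ℕ) * s : ℕ) : ℝ) ≤ 2 ^ w := by exact_mod_cast this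
      gcongr
    have a5 := (Real.abs_exp_sub_one_le (a4.trans hΛ)).trans
      (mul_le_mul_of_nonneg_left a4 (by norm_num))
    have a6 := hp j
    gcongr
  · rw [Fintype.card_prod, Fintype.card_fin, Fintype.card_fin]
    have : ((K * L : ℕ) : ℝ) ≤ 2 ^ w := by exact_mod_cast hKL
    calc _ ≤ (2 : ℝ) ^ w * (2 ^ h * 2 ^ (w * K) * 2 ^ E * (2 * (2 ^ w * |Λ|))) := by
          gcongr
      _ = _ := by ring

/-- the integer coefficients -/
def co (K L u1 v1 u2 v2 a r s : ℕ) (j : Fin K × Fin L) : ℕ :=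
  (r + s * a) ^ (j.1 : ℕ) * (u1 ^ (j.2 : ℕ) * v1 ^ (L - j.2)) ^ r *
    (u2 ^ (j.2 : ℕ) * v2 ^ (L - j.2)) ^ s

theorem co_le {K L u1 v1 u2 v2 a r s h1 h2 w : ℕ} (hu1' : u1 ≤ 2 ^ h1) (hv1' : v1 ≤ 2 ^ h1)
    (hu2' : u2 ≤ 2 ^ h2) (hv2' : v2 ≤ 2 ^ h2) (hrs : r + s * a ≤ 2 ^ w) (j : Fin K × Fin L) :
    co K L u1 v1 u2 v2 a r s j ≤ 2 ^ (w * K + L * (r * h1 + s * h2)) := by
  have b : ∀ u v h r : ℕ, u ≤ 2 ^ h → v ≤ 2 ^ h →
      (u ^ (j.2 : ℕ) * v ^ (L - j.2)) ^ r ≤ 2 ^ (L * (r * h)) := by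
    intro u v h r hu hv
    have : u ^ (j.2 : ℕ) * v ^ (L - j.2) ≤ (2 ^ h) ^ L := by
      conv_rhs => rw [← Nat.add_sub_cancel' j.2.2.le, pow_add]
      exact Nat.mul_le_mul (Nat.pow_le_pow_left hu _) (Nat.pow_le_pow_left hv _)
    refine (Nat.pow_le_pow_left this r).trans (le_of_eq ?_)
    rw [← pow_mul, ← pow_mul]
    congr 1
    ring
  have c : (r + s * a) ^ (j.1 : ℕ) ≤ 2 ^ (w * K) := by
    rw [pow_mul]
    exact (Nat.pow_le_pow_left hrs _).trans (Nat.pow_le_pow_right (by positivity) j.1.2.le)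
  rw [co, mul_add L, pow_add, pow_add, ← mul_assoc]
  exact Nat.mul_le_mul (Nat.mul_le_mul c (b _ _ _ _ hu1' hv1')) (b _ _ _ _ hu2' hv2')

theorem co_eq {K L u1 v1 u2 v2 a r s : ℕ} (hu1 : 1 ≤ u1) (hv1 : 1 ≤ v1) (hu2 : 1 ≤ u2)
    (hv2 : 1 ≤ v2) (p : Fin K × Fin L → ℤ) :
    ((∑ j, (co K L u1 v1 u2 v2 a r s j : ℤ) * p j : ℤ) : ℝ) =
      ((v1 : ℝ) ^ (L * r) * (v2 : ℝ) ^ (L * s)) *
        G (Real.log u1 - Real.log v1) (Real.log u2 - Real.log v2) a p r s := by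
  have b : ∀ u v r : ℕ, 1 ≤ u → 1 ≤ v → ∀ l : ℕ, l ≤ L →
      ((u : ℝ) ^ l * (v : ℝ) ^ (L - l)) ^ r =
        (v : ℝ) ^ (L * r) * Real.exp (l * (r * (Real.log u - Real.log v))) := by
    intro u v r hu hv l hl
    have hu' : (0 : ℝ) < u := by exact_mod_cast hu
    have hv' : (0 : ℝ) < v := by exact_mod_cast hv
    obtain ⟨m, rfl⟩ := Nat.exists_eq_add_of_le hl
    rw [← mul_assoc, ← Nat.cast_mul, Real.exp_nat_mul, Real.exp_sub, Real.exp_log hu',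
      Real.exp_log hv', Nat.add_sub_cancel_left, div_pow]
    field_simp
    ring
  rw [G, mul_sum, Int.cast_sum]
  refine sum_congr rfl fun j _ => ?_
  rw [co, mul_add ((j.2 : ℕ) : ℝ), Real.exp_add]
  push_cast
  rw [b _ _ _ hu1 hv1 _ j.2.2.le, b _ _ _ hu2 hv2 _ j.2.2.le]
  ring

theorem G_zero {K L a R S : ℕ} {t1 t2 : ℝ} (ht : t1 ≠ 0) (p : Fin K × Fin L → ℤ)
    (hR : 2 * R ≤ a) (hL : L ≤ R) (hL0 : 1 ≤ L) (hK0 : 1 ≤ K) (hKL : K * L = 2 * (R * S))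
    (h0 : ∀ r < 3 * R, ∀ s < S, G t1 t2 a p r s = 0) : p = 0 := by
  classical
  let Q : Fin L → Polynomial ℝ := fun l => ∑ k : Fin K, Polynomial.monomial k (p (k, l) : ℝ)
  let Xs : Finset ℝ := (range (2 * R) ×ˢ range S).image fun x => ((x.1 + x.2 * a : ℕ) : ℝ)
  have hXs : Xs.card = 2 * (R * S) := by
    rw [card_image_of_injOn, card_product, card_range, card_range, mul_assoc]
    rintro ⟨r, s⟩ h1 ⟨r', s'⟩ h2 h3
    simp only [coe_product, coe_range, Set.mem_prod, Set.mem_Iio] at h1 h2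
    have h4 : r + s * a = r' + s' * a := Nat.cast_injective (R := ℝ) h3
    have h5 : r = r' := by
      have := congrArg (· % a) h4
      simp only [Nat.add_mul_mod_self_right] at this
      rwa [Nat.mod_eq_of_lt (by omega), Nat.mod_eq_of_lt (by omega)] at this
    subst h5
    have h6 : s = s' := Nat.eq_of_mul_eq_mul_right (m := a) (by omega) (by omega)
    rw [h6]
  have hQ := zero_lemma Q (fun l => Real.exp ((l : ℕ) * t1))
    (fun l l' h => by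
      have := mul_right_cancel₀ ht (Real.exp_injective h)
      exact Fin.ext (by exact_mod_cast this))
    (K - 1) (fun l => Polynomial.natDegree_sum_le_of_forall_le _ _ fun k _ =>
      (Polynomial.natDegree_monomial_le _).trans (by have := k.2; omega)) Xs
    (by
      rw [hXs, ← hKL, mul_comm K]
      exact (Nat.mul_lt_mul_left hL0).2 (by omega))
    (by
      intro x hx
      obtain ⟨⟨r, s⟩, h1, rfl⟩ := mem_image.1 hx
      simp only [mem_product, mem_range] at h1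
      refine ⟨fun l => Real.exp ((l : ℕ) * (r * t1 + s * t2)), fun l => Real.exp_ne_zero _,
        fun i hi => ?_⟩
      rw [← h0 (r + i) (by omega) s h1.2, G, Fintype.sum_prod_type_right]
      refine sum_congr rfl fun l _ => ?_
      simp only [Q, Polynomial.eval_finsetSum, Polynomial.eval_monomial, sum_mul]
      refine sum_congr rfl fun k _ => ?_
      rw [← Real.exp_nat_mul, mul_assoc, ← Real.exp_add]
      push_cast
      congr 2
      · congr 1; ring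
      · ring)
  funext ⟨k, l⟩
  have := congrArg (fun P => Polynomial.coeff P k) (hQ l)
  simp only [Q, Polynomial.finsetSum_coeff, Polynomial.coeff_monomial, Polynomial.coeff_zero,
    Fin.val_inj, sum_ite_eq', mem_univ, if_true] at this
  exact_mod_cast this

theorem step {K L a w h R S E E' : ℕ} {t1 t2 : ℝ} (p : Fin K × Fin L → ℤ)
    (hp : ∀ j, |(p j : ℝ)| ≤ 2 ^ h) (hKL : K * L ≤ 2 ^ w) (hR0 : 1 ≤ R) (hRa : R ≤ a)
    (hρ : 9 * (3 * R + S * a) ≤ 2 ^ w) (hLS : L * S ≤ 2 ^ w)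
    (hE : ∀ r < 3 * R, ∀ s < S, L * |r * t1 + s * t2| ≤ E * Real.log 2)
    (hE' : L * (|t1| * (9 * ((3 * R + S * a : ℕ) : ℝ))) ≤ E' * Real.log 2)
    (hΛ : 2 ^ (w + h + w * K + E + w + 1 + w * (R * S) + E + 2) * |a * t1 - t2| ≤ 1)
    (hbig : w + h + w * K + E' + E + 2 ≤ R * S)
    (h0 : ∀ r < R, ∀ s < S, G t1 t2 a p r s = 0) :
    ∀ r < 3 * R, ∀ s < S, 2 ^ E * |G t1 t2 a p r s| < 1 := by
  classical
  intro r hr s hs
  set Λ := |a * t1 - t2| with hΛ'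
  have hΛ0 : 0 ≤ Λ := abs_nonneg _
  have hΛ1 : 2 ^ w * Λ ≤ 1 := by
    refine le_trans ?_ hΛ
    gcongr
    · norm_num
    · omega
  set ε := 2 ^ (w + h + w * K + E + w + 1) * Λ with hε
  have hε0 : 0 ≤ ε := by positivity
  have hε1 : 2 ^ E * (ε * 2 ^ (w * (R * S))) ≤ 1 / 4 := by
    rw [pow_add, pow_add, pow_add] at hΛ
    rw [hε]
    nlinarith
  have hle : ∀ r < 3 * R, ∀ s < S, r + s * a ≤ 3 * R + S * a := fun r hr s hs => by
    have := Nat.mul_le_mul_right a hs.le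
    omega
  have happ : ∀ r < 3 * R, ∀ s < S,
      ‖aux t1 p ((r + s * a : ℕ) : ℂ) - G t1 t2 a p r s‖ ≤ ε :=
    fun r hr s hs => aux_approx p hp hKL (by have := hle r hr s hs; omega)
      ((Nat.mul_le_mul_left _ hs.le).trans hLS) (hE r hr s hs) hΛ1
  have hnorm : ∀ r < 3 * R, ∀ s < S, ‖((r + s * a : ℕ) : ℂ)‖ ≤ ((3 * R + S * a : ℕ) : ℝ) := by
    intro r hr s hs
    rw [Complex.norm_natCast]
    exact_mod_cast hle r hr s hs
  let Z : Finset ℂ := (range R ×ˢ range S).image fun x => ((x.1 + x.2 * a : ℕ) : ℂ)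
  have hZ : Z.card = R * S := by
    rw [card_image_of_injOn, card_product, card_range, card_range]
    rintro ⟨r, s⟩ h1 ⟨r', s'⟩ h2 h3
    simp only [coe_product, coe_range, Set.mem_prod, Set.mem_Iio] at h1 h2
    have h4 : r + s * a = r' + s' * a := Nat.cast_injective (R := ℂ) h3
    have h5 : r = r' := by
      have := congrArg (· % a) h4
      simp only [Nat.add_mul_mod_self_right] at this
      rwa [Nat.mod_eq_of_lt (by omega), Nat.mod_eq_of_lt (by omega)] at this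
    subst h5
    have h6 : s = s' := Nat.eq_of_mul_eq_mul_right (m := a) (by omega) (by omega)
    rw [h6]
  have hρ1 : (1 : ℝ) ≤ ((3 * R + S * a : ℕ) : ℝ) := by exact_mod_cast (by omega)
  have hρ2 : 9 * ((3 * R + S * a : ℕ) : ℝ) ≤ 2 ^ w := by exact_mod_cast hρ
  have key := interp hρ1 Z (aux t1 p) (aux_diff t1 p) ε (2 ^ (w + h + w * K + E')) hε0
    (by
      intro z hz
      obtain ⟨⟨r, s⟩, h1, rfl⟩ := mem_image.1 hz
      simp only [mem_product, mem_range] at h1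
      exact hnorm r (by omega) s h1.2)
    (by
      intro z hz z' hz' hne
      obtain ⟨x, -, rfl⟩ := mem_image.1 hz
      obtain ⟨y, -, rfl⟩ := mem_image.1 hz'
      have : ((x.1 + x.2 * a : ℕ) : ℂ) - ((y.1 + y.2 * a : ℕ) : ℂ) =
          ((((x.1 + x.2 * a : ℕ) : ℤ) - ((y.1 + y.2 * a : ℕ) : ℤ) : ℤ) : ℂ) := by
        push_cast; ring
      rw [this, Complex.norm_intCast]
      have h2 : ((x.1 + x.2 * a : ℕ) : ℤ) - ((y.1 + y.2 * a : ℕ) : ℤ) ≠ 0 := by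
        intro h3
        apply hne
        rw [← sub_eq_zero, this, h3, Int.cast_zero]
      exact_mod_cast Int.one_le_abs h2)
    (by
      intro z hz
      obtain ⟨⟨r, s⟩, h1, rfl⟩ := mem_image.1 hz
      simp only [mem_product, mem_range] at h1
      have := happ r (by omega) s h1.2
      rwa [h0 r h1.1 s h1.2, Complex.ofReal_zero, sub_zero] at this)
    (fun u hu => aux_bound p hp hKL hρ2 hE' u hu) _ (hnorm r hr s hs)
  rw [hZ] at key
  have b1 : ((5 : ℝ) * ((3 * R + S * a : ℕ) : ℝ)) ^ (R * S) ≤ 2 ^ (w * (R * S)) :=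
    pow_le_aux (by positivity) (by linarith) le_rfl
  have b2 : 2 ^ E * ((2 : ℝ) ^ (w + h + w * K + E') / 2 ^ (R * S)) ≤ 1 / 4 := by
    rw [← mul_div_assoc, div_le_iff₀ (by positivity)]
    have : (2 : ℝ) ^ (w + h + w * K + E' + E + 2) ≤ 2 ^ (R * S) :=
      pow_le_pow_right₀ (by norm_num) hbig
    rw [pow_add, pow_add] at this
    linarith
  have b3 : 2 ^ E * (ε * (5 * ((3 * R + S * a : ℕ) : ℝ)) ^ (R * S)) ≤ 1 / 4 :=
    le_trans (by gcongr) hε1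
  have b4 : 2 ^ E * ε ≤ 1 / 4 := by
    refine le_trans ?_ hε1
    gcongr
    exact le_mul_of_one_le_right hε0 (one_le_pow₀ (by norm_num))
  have b5 := happ r hr s hs
  have b6 := norm_sub_norm_le (((G t1 t2 a p r s : ℝ) : ℂ)) (aux t1 p ((r + s * a : ℕ) : ℂ))
  rw [norm_sub_rev, Complex.norm_real, Real.norm_eq_abs] at b6
  have b7 : |G t1 t2 a p r s| ≤ ε + (ε * (5 * ((3 * R + S * a : ℕ) : ℝ)) ^ (R * S) +
      2 ^ (w + h + w * K + E') / 2 ^ (R * S)) := by linarith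
  have b8 := mul_le_mul_of_nonneg_left b7 (by positivity : (0 : ℝ) ≤ 2 ^ E)
  rw [mul_add, mul_add] at b8
  linarith

theorem core {n u1 v1 u2 v2 h1 h2 a : ℕ} (hn : 2 ^ 30 * n ^ 2 ≤ 2 ^ n) (hn1 : 1 ≤ n)
    (hu1 : 1 ≤ u1) (hv1 : 1 ≤ v1) (hu2 : 1 ≤ u2)
    (hv2 : 1 ≤ v2) (hu1' : u1 ≤ 2 ^ h1) (hv1' : v1 ≤ 2 ^ h1) (hu2' : u2 ≤ 2 ^ h2)
    (hv2' : v2 ≤ 2 ^ h2) (hh1 : 1 ≤ h1) (hh2 : 1 ≤ h2) (hh1' : h1 ≤ 2 ^ n) (hh2' : h2 ≤ 2 ^ n)
    (ha : a ≤ 2 ^ n)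
    (hne : a * (Real.log u1 - Real.log v1) - (Real.log u2 - Real.log v2) ≠ 0) :
    1 ≤ 2 ^ (2 ^ 28 * n ^ 3 * (h1 * h2)) *
      |a * (Real.log u1 - Real.log v1) - (Real.log u2 - Real.log v2)| := by
  by_contra hcon
  push Not at hcon
  have hl1 := abs_log_sub_le hu1 hv1 hu1' hv1'
  have hl2 := abs_log_sub_le hu2 hv2 hu2' hv2'
  have hli := liouville_two (a := a) hu1 hv1 hu2 hv2 hu1' hv1' hu2' hv2' hne
  have hli0 := liouville_two (a := 0) hu1 hv1 hu2 hv2 hu1' hv1' hu2' hv2'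
  set t1 := Real.log u1 - Real.log v1 with ht1
  set t2 := Real.log u2 - Real.log v2 with ht2
  have hmono : ∀ V ≤ 2 ^ 28 * n ^ 3 * (h1 * h2), 2 ^ V * |a * t1 - t2| < 1 := fun V hV =>
    lt_of_le_of_lt (by gcongr; norm_num) hcon
  obtain ⟨P, hP⟩ : ∃ P, P = h1 * h2 := ⟨_, rfl⟩
  have hP1 : h1 ≤ P := by rw [hP]; exact Nat.le_mul_of_pos_right _ hh2
  have hP2 : h2 ≤ P := by rw [hP]; exact Nat.le_mul_of_pos_left _ hh1
  have n1 : P ≤ n * P := Nat.le_mul_of_pos_left _ hn1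
  have n2 : n * P ≤ n ^ 2 * P := Nat.mul_le_mul_right _ (by nlinarith)
  have n3 : n ^ 2 * P ≤ n ^ 3 * P :=
    Nat.mul_le_mul_right _ (Nat.pow_le_pow_right hn1 (by norm_num))
  have n4 : n ≤ n * P := Nat.le_mul_of_pos_right _ (by omega)
  rw [← hP, mul_assoc] at hmono
  have ht0 : t1 ≠ 0 := by
    intro h
    rw [h] at hli0 hne hmono
    simp only [mul_zero, zero_mul, zero_add] at hli0 hne hmono
    exact absurd (hli0 hne) (not_le.2 (hmono _ (by omega)))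
  obtain ⟨w, hw⟩ : ∃ w, w = 3 * n := ⟨_, rfl⟩
  obtain ⟨L, hL⟩ : ∃ L, L = 24 * n := ⟨_, rfl⟩
  obtain ⟨R, hR⟩ : ∃ R, R = 6144 * (n * h2) := ⟨_, rfl⟩
  obtain ⟨S, hS⟩ : ∃ S, S = 6144 * (n * h1) := ⟨_, rfl⟩
  obtain ⟨K, hK⟩ : ∃ K, K = 3145728 * (n * P) := ⟨_, rfl⟩
  have m1 : n ≤ n * h1 := Nat.le_mul_of_pos_right _ hh1
  have m2 : n ≤ n * h2 := Nat.le_mul_of_pos_right _ hh2
  have d1 : R * h1 = 6144 * (n * P) := by rw [hR, hP]; ring
  have d2 : S * h2 = 6144 * (n * P) := by rw [hS, hP]; ring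
  have d3 : R * S = 37748736 * (n ^ 2 * P) := by rw [hR, hS, hP]; ring
  have d4 : K * L = 2 * (R * S) := by rw [d3, hK, hL]; ring
  have d5 : w * K = 9437184 * (n ^ 2 * P) := by rw [hw, hK]; ring
  have d6 : w * (R * S) = 113246208 * (n ^ 3 * P) := by rw [d3, hw]; ring
  have hRa : 2 * R ≤ a := by
    by_contra hc
    have : a * h1 ≤ 2 * R * h1 := Nat.mul_le_mul_right _ (by omega)
    rw [mul_assoc, d1] at this
    exact absurd hli (not_le.2 (hmono _ (by omega)))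
  have hw2 : 2 ^ w = 2 ^ n * (2 ^ n * 2 ^ n) := by
    rw [← pow_add, ← pow_add, hw]; congr 1; ring
  have hn2 : 1 ≤ 2 ^ n := Nat.one_le_two_pow
  have hnn : n ≤ n ^ 2 := by nlinarith
  have c1 : 9 * (3 * R + S * a) ≤ 2 ^ w := by
    have e1 : S * a = 6144 * n * (h1 * a) := by rw [hS]; ring
    have e2 : h1 * a ≤ 2 ^ n * 2 ^ n := Nat.mul_le_mul hh1' ha
    have e3 : h2 ≤ 2 ^ n * 2 ^ n := hh2'.trans (Nat.le_mul_of_pos_left _ hn2)
    have e4 : 9 * (3 * R + S * a) ≤ (36 * 6144 * n) * (2 ^ n * 2 ^ n) := by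
      have := Nat.mul_le_mul_left n e2
      have := Nat.mul_le_mul_left n e3
      rw [e1, hR, mul_assoc 6144 n, mul_assoc _ n]
      omega
    rw [hw2]
    exact e4.trans (Nat.mul_le_mul_right _ (by omega))
  have c2 : K * L ≤ 2 ^ w := by
    have e2 : P ≤ 2 ^ n * 2 ^ n := hP ▸ Nat.mul_le_mul hh1' hh2'
    rw [d4, d3, hw2, ← mul_assoc, ← mul_assoc]
    exact Nat.mul_le_mul (by omega) e2
  have c3 : L * S ≤ 2 ^ w := by
    have e1 : L * S = (24 * 6144 * n ^ 2) * h1 := by rw [hL, hS]; ring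
    rw [e1, hw2]
    exact Nat.mul_le_mul (by omega) (hh1'.trans (Nat.le_mul_of_pos_left _ hn2))
  have hle : ∀ r < 3 * R, ∀ s < S, r + s * a ≤ 2 ^ w := fun r hr s hs => by
    have := Nat.mul_le_mul_right a hs.le
    omega
  obtain ⟨p, hp0, hp1, hp2⟩ := siegel_two (α := Fin R × Fin S) (β := Fin K × Fin L)
    (fun i j => (co K L u1 v1 u2 v2 a i.1 i.2 j : ℤ))
    (by simp only [Fintype.card_prod, Fintype.card_fin]; exact d4)
    (by simp only [Fintype.card_prod, Fintype.card_fin]; exact Nat.mul_pos (by omega) (by omega))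
    (H := 2 ^ (w * K + 294912 * (n ^ 2 * P))) (one_le_pow₀ (by norm_num))
    (by
      intro i j
      have a1 := co_le (K := K) (L := L) hu1' hv1' hu2' hv2'
        (hle i.1 (by have := i.1.2; omega) i.2 i.2.2) j
      have a2 : L * (i.1 * h1 + i.2 * h2) ≤ 294912 * (n ^ 2 * P) := by
        have b1 := Nat.mul_le_mul_right h1 i.1.2.le
        have b2 := Nat.mul_le_mul_right h2 i.2.2.le
        calc _ ≤ L * (12288 * (n * P)) := Nat.mul_le_mul_left _ (by omega)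
          _ = _ := by rw [hL]; ring
      have a3 := a1.trans (Nat.pow_le_pow_right (by norm_num) (Nat.add_le_add_left a2 _))
      rw [Int.cast_natCast, Nat.abs_cast]
      exact_mod_cast a3)
  obtain ⟨h, hh⟩ : ∃ h, h = w + (w * K + 294912 * (n ^ 2 * P)) := ⟨_, rfl⟩
  have hp : ∀ j, |(p j : ℝ)| ≤ 2 ^ h := by
    intro j
    refine (hp2 j).trans ?_
    rw [Fintype.card_prod, Fintype.card_fin, Fintype.card_fin, hh, pow_add 2 w]
    have : ((K * L : ℕ) : ℝ) ≤ 2 ^ w := by exact_mod_cast c2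
    gcongr
  have hE0 : ∀ r < 3 * R, ∀ s < S, L * (r * h1 + s * h2) ≤ 589824 * (n ^ 2 * P) := by
    intro r hr s hs
    have b1 := Nat.mul_le_mul_right h1 hr.le
    have b2 := Nat.mul_le_mul_right h2 hs.le
    rw [mul_assoc] at b1
    calc _ ≤ L * (24576 * (n * P)) := Nat.mul_le_mul_left _ (by omega)
      _ = _ := by rw [hL]; ring
  have hlog := Real.log_two_gt_d9
  have hst := step (R := R) (S := S) (a := a) (t1 := t1) (t2 := t2)
    (E := 589824 * (n ^ 2 * P)) (E' := 45 * 147456 * (n ^ 2 * P)) p hp c2 (by omega) (by omega)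
    c1 c3
    (by
      intro r hr s hs
      have b1 : ((L * (r * h1 + s * h2) : ℕ) : ℝ) ≤ ((589824 * (n ^ 2 * P) : ℕ) : ℝ) := by
        exact_mod_cast hE0 r hr s hs
      refine le_trans ?_ (mul_le_mul_of_nonneg_right b1 (by linarith))
      have b2 : |r * t1 + s * t2| ≤ r * (h1 * Real.log 2) + s * (h2 * Real.log 2) := by
        refine (abs_add_le _ _).trans ?_
        rw [abs_mul, abs_mul, Nat.abs_cast, Nat.abs_cast]
        gcongr
      calc _ ≤ L * (r * (h1 * Real.log 2) + s * (h2 * Real.log 2)) := by gcongr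
        _ = _ := by push_cast; ring)
    (by
      have b1 : a * |t1| ≤ 2 * (h2 * Real.log 2) := by
        have b2 := hmono 1 (by omega)
        have b3 : |a * t1| ≤ |a * t1 - t2| + |t2| := by
          simpa using abs_add_le (a * t1 - t2) t2
        rw [abs_mul, Nat.abs_cast] at b3
        have b4 : (1 : ℝ) ≤ h2 := by exact_mod_cast hh2
        nlinarith
      have b5 : (R : ℝ) * h1 = 6144 * (n * P) := by exact_mod_cast d1
      have b6 : (S : ℝ) * h2 = 6144 * (n * P) := by exact_mod_cast d2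
      have b7 : (L : ℝ) = 24 * n := by exact_mod_cast hL
      calc _ = 9 * L * (3 * R * |t1| + S * (a * |t1|)) := by push_cast; ring
        _ ≤ 9 * L * (3 * R * (h1 * Real.log 2) + S * (2 * (h2 * Real.log 2))) := by gcongr
        _ = 9 * L * (3 * (R * h1) + 2 * (S * h2)) * Real.log 2 := by ring
        _ = _ := by rw [b5, b6, b7]; push_cast; ring)
    (hmono _ (by omega)).le (by omega)
    (by
      intro r hr s hs
      have b1 := co_eq (K := K) (L := L) (a := a) (r := r) (s := s) hu1 hv1 hu2 hv2 p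
      have b2 := hp1 (⟨r, hr⟩, ⟨s, hs⟩)
      simp only at b2
      rw [b2, Int.cast_zero] at b1
      exact (mul_eq_zero.1 b1.symm).resolve_left (by positivity))
  refine hp0 (G_zero (t2 := t2) ht0 p hRa (by omega) (by omega) (by omega) d4 fun r hr s hs => ?_)
  have b1 := co_eq (K := K) (L := L) (a := a) (r := r) (s := s) hu1 hv1 hu2 hv2 p
  have b2 : (v1 : ℝ) ^ (L * r) * (v2 : ℝ) ^ (L * s) ≤ 2 ^ (589824 * (n ^ 2 * P)) := by
    have b3 : v1 ^ (L * r) * v2 ^ (L * s) ≤ 2 ^ (L * (r * h1 + s * h2)) := by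
      rw [show L * (r * h1 + s * h2) = h1 * (L * r) + h2 * (L * s) by ring, pow_add, pow_mul 2,
        pow_mul 2 h2]
      exact Nat.mul_le_mul (Nat.pow_le_pow_left hv1' _) (Nat.pow_le_pow_left hv2' _)
    exact_mod_cast b3.trans (Nat.pow_le_pow_right (by norm_num) (hE0 r hr s hs))
  have b4 : |((∑ j, (co K L u1 v1 u2 v2 a r s j : ℤ) * p j : ℤ) : ℝ)| < 1 := by
    rw [b1, abs_mul, abs_of_nonneg (by positivity)]
    exact lt_of_le_of_lt (by gcongr) (hst r hr s hs)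
  have b5 : (∑ j, (co K L u1 v1 u2 v2 a r s j : ℤ) * p j : ℤ) = 0 :=
    Int.abs_lt_one_iff.1 (by exact_mod_cast b4)
  rw [b5, Int.cast_zero] at b1
  exact (mul_eq_zero.1 b1.symm).resolve_left (by positivity)

/-- Lower bound for `a log (u₁/v₁) - log (u₂/v₂)` depending on the product of the heights. -/
theorem two_logs_prod {n u1 v1 u2 v2 h1 h2 a : ℕ} (hn : 64 ≤ n)
    (hu1 : 1 ≤ u1) (hv1 : 1 ≤ v1) (hu2 : 1 ≤ u2)
    (hv2 : 1 ≤ v2) (hu1' : u1 ≤ 2 ^ h1) (hv1' : v1 ≤ 2 ^ h1) (hu2' : u2 ≤ 2 ^ h2)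
    (hv2' : v2 ≤ 2 ^ h2) (hh1 : 1 ≤ h1) (hh2 : 1 ≤ h2) (hh1' : h1 ≤ 2 ^ n) (hh2' : h2 ≤ 2 ^ n)
    (ha : a ≤ 2 ^ n)
    (hne : a * (Real.log u1 - Real.log v1) - (Real.log u2 - Real.log v2) ≠ 0) :
    1 ≤ 2 ^ (2 ^ 28 * n ^ 3 * (h1 * h2)) *
      |a * (Real.log u1 - Real.log v1) - (Real.log u2 - Real.log v2)| :=
  core (sq_le_two_pow n hn) (by omega) hu1 hv1 hu2 hv2 hu1' hv1' hu2' hv2' hh1 hh2 hh1' hh2' ha hne

end Pool.Agent.Shared.TwoLogsProd
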