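import Mathlib

/-!
The Witt ring of a field of characteristic not two, the fundamental ideal and the invariant `v`.

Every nondegenerate quadratic form is isometric to a diagonal one, so the Witt-Grothendieck ring is
the group ring of the unit group modulo the differences of isometric diagonal forms, and the Witt ring
is its quotient by the hyperbolic plane.
-/

namespace Pool.Agent.Shared.WittDefs

universe u

variable (F : Type u) [Field F]

/-- The formal sum `[a 0] + ... + [a (n-1)]` in the group ring, standing for the diagonal form. -/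
noncomputable def sym {n : ℕ} (a : Fin n → Fˣ) : MonoidAlgebra ℤ Fˣ :=
  ∑ i, MonoidAlgebra.of ℤ Fˣ (a i)

/-- The ideal generated by the differences of isometric diagonal forms and the hyperbolic plane. -/
noncomputable def wittRel : Ideal (MonoidAlgebra ℤ Fˣ) :=
  Ideal.span
    ({x | ∃ (n : ℕ) (a b : Fin n → Fˣ),
        (QuadraticMap.weightedSumSquares F a).Equivalent (QuadraticMap.weightedSumSquares F b) ∧
          x = sym F a - sym F b} ∪ {sym F ![1, -1]})

/-- The fundamental ideal of the Witt ring `MonoidAlgebra ℤ Fˣ ⧸ wittRel F`, generated by the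
classes of the even-dimensional forms. -/
noncomputable def fundIdeal : Ideal (MonoidAlgebra ℤ Fˣ ⧸ wittRel F) :=
  Ideal.span {x | ∃ (n : ℕ) (a : Fin n → Fˣ), Even n ∧ x = Ideal.Quotient.mk (wittRel F) (sym F a)}

/-- `v F` is the supremum of the `n` with `I ^ n ≠ 0`. -/
noncomputable def v : ℕ∞ := ⨆ n ∈ {n : ℕ | fundIdeal F ^ n ≠ ⊥}, (n : ℕ∞)

end Pool.Agent.Shared.WittDefs
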